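import Pool.Agent.Lib.MP_8fe63c_mp.ADefs

/-!
Reindexing lemmas, counting of tuples, elementary properties of `Bil`.

Sketch. `sum_vac_put`: `(α, β) ↦ put σ β α` is a bijection from `vac σ × (κ → I)` onto all
configurations, with inverse `α ↦ (put σ o α, α ∘ σ)`. `sum_cfg_split`: `α ↦ (pr Rᶜ α, pr R α)` is a
bijection onto `cfg Rᶜ × cfg R` with inverse `R.piecewise`. `card_emb_le`: an embedding with
`σ j ∈ A j` is an element of `Fintype.piFinset A`.
-/

set_option linter.unusedSectionVars false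

open Finset
open scoped InnerProductSpace

namespace Pool.Agent.Lib.MP_8fe63c_mp

variable {I ι κ κ' E : Type} [Fintype I] [DecidableEq I] [Fintype ι] [DecidableEq ι]
  [Fintype κ] [DecidableEq κ] [Fintype κ'] [DecidableEq κ']
  [NormedAddCommGroup E] [InnerProductSpace ℝ E]


theorem put_apply (σ : κ ↪ ι) (β : κ → I) (α : ι → I) (j : κ) : put σ β α (σ j) = β j :=
  σ.injective.extend_apply β α j

theorem put_apply_not (σ : κ ↪ ι) (β : κ → I) (α : ι → I) {i : ι} (h : ¬∃ j, σ j = i) :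
    put σ β α i = α i :=
  Function.extend_apply' β α i h

theorem put_comp (σ : κ ↪ ι) (β : κ → I) (α : ι → I) : put σ β α ∘ σ = β := funext fun j => put_apply σ β α j

theorem put_put (σ : κ ↪ ι) (β β' : κ → I) (α : ι → I) : put σ β (put σ β' α) = put σ β α := by
  funext i
  by_cases h : ∃ j, σ j = i
  · obtain ⟨j, rfl⟩ := h
    rw [put_apply, put_apply]
  · rw [put_apply_not _ _ _ h, put_apply_not _ _ _ h, put_apply_not _ _ _ h]

theorem put_self (σ : κ ↪ ι) (α : ι → I) : put σ (α ∘ σ) α = α := by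
  funext i
  by_cases h : ∃ j, σ j = i
  · obtain ⟨j, rfl⟩ := h
    rw [put_apply]
    rfl
  · rw [put_apply_not _ _ _ h]

theorem put_perm (σ : κ ↪ ι) (π : Equiv.Perm κ) (β : κ → I) (α : ι → I) :
    put (π.toEmbedding.trans σ) (β ∘ π) α = put σ β α := by
  funext i
  by_cases h : ∃ j, σ j = i
  · obtain ⟨j, rfl⟩ := h
    obtain ⟨k, rfl⟩ := π.surjective j
    rw [put_apply]
    exact put_apply (π.toEmbedding.trans σ) (β ∘ π) α k
  · rw [put_apply_not _ _ _ h, put_apply_not]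
    rintro ⟨j, hj⟩
    exact h ⟨π j, hj⟩

theorem put_comp_perm (σ : κ ↪ ι) (π : Equiv.Perm ι) (β : κ → I) (α : ι → I) :
    put σ β (α ∘ π) = put (σ.trans π.toEmbedding) β α ∘ π := by
  funext i
  by_cases h : ∃ j, σ j = i
  · obtain ⟨j, rfl⟩ := h
    rw [put_apply]
    exact (put_apply (σ.trans π.toEmbedding) β α j).symm
  · rw [put_apply_not _ _ _ h, Function.comp_apply, Function.comp_apply, put_apply_not]
    rintro ⟨j, hj⟩
    exact h ⟨j, π.injective hj⟩

theorem sum_emb_perm {M : Type} [AddCommMonoid M] (π : Equiv.Perm κ) (f : (κ ↪ ι) → M) :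
    ∑ σ : κ ↪ ι, f (π.toEmbedding.trans σ) = ∑ σ, f σ := by
  refine Fintype.sum_bijective (fun σ : κ ↪ ι => π.toEmbedding.trans σ) ?_ _ _ fun _ => rfl
  refine Finite.injective_iff_bijective.mp fun σ σ' h => ?_
  ext j
  obtain ⟨k, rfl⟩ := π.surjective j
  exact DFunLike.congr_fun h k

theorem sum_emb_perm' {M : Type} [AddCommMonoid M] (π : Equiv.Perm ι) (f : (κ ↪ ι) → M) :
    ∑ σ : κ ↪ ι, f (σ.trans π.toEmbedding) = ∑ σ, f σ := by
  refine Fintype.sum_bijective (fun σ : κ ↪ ι => σ.trans π.toEmbedding) ?_ _ _ fun _ => rfl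
  refine Finite.injective_iff_bijective.mp fun σ σ' h => ?_
  ext j
  exact π.injective (DFunLike.congr_fun h j)

theorem sum_comp_perm {M : Type} [AddCommMonoid M] (π : Equiv.Perm κ) (f : (κ → I) → M) :
    ∑ α : κ → I, f (α ∘ π) = ∑ α, f α := by
  refine Fintype.sum_bijective (fun α : κ → I => α ∘ π) ?_ _ _ fun _ => rfl
  refine Finite.injective_iff_bijective.mp fun α α' h => ?_
  funext j
  obtain ⟨k, rfl⟩ := π.surjective j
  exact congrFun h k

theorem card_emb_le (A : κ → Finset ι) :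
    (univ.filter fun σ : κ ↪ ι => ∀ j, σ j ∈ A j).card ≤ ∏ j, (A j).card := by
  rw [← Fintype.card_piFinset]
  refine Finset.card_le_card_of_injOn (fun σ : κ ↪ ι => (σ : κ → ι)) (fun σ hσ => ?_)
    (fun σ _ σ' _ h => DFunLike.coe_injective h)
  exact mem_coe.mpr (Fintype.mem_piFinset.mpr (mem_filter.mp (mem_coe.mp hσ)).2)

theorem card_emb_all : (Fintype.card (κ ↪ ι) : ℝ) ≤ (Fintype.card ι : ℝ) ^ Fintype.card κ := by
  have h : Fintype.card (κ ↪ ι) ≤ Fintype.card ι ^ Fintype.card κ := by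
    rw [Fintype.card_embedding_eq]
    exact Nat.descFactorial_le_pow _ _
  exact_mod_cast h

theorem card_emb_into (A : Finset ι) (p : ℕ) :
    (univ.filter fun σ : Fin p ↪ ι => ∀ j, σ j ∈ A).card = A.card.descFactorial p := by
  rw [← Fintype.card_subtype]
  have h := Fintype.card_congr (Equiv.codRestrict (Fin p) (A : Set ι))
  rw [Fintype.card_embedding_eq, Fintype.card_fin] at h
  simpa using h

/-- tuples with the same range differ by a permutation -/
theorem sum_same_range {M : Type} [AddCommMonoid M] (ρ : κ ↪ ι) (f : (κ ↪ ι) → M) :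
    ∑ ρ' : κ ↪ ι, (if univ.map ρ = univ.map ρ' then f ρ' else 0) =
      ∑ π : Equiv.Perm κ, f (π.toEmbedding.trans ρ) := by
  rw [← Finset.sum_filter]
  symm
  refine Finset.sum_bij (fun π _ => π.toEmbedding.trans ρ) (fun π _ => ?_) (fun π _ π' _ h => ?_)
    (fun ρ' h => ?_) fun _ _ => rfl
  · rw [mem_filter, ← Finset.map_map, Finset.map_univ_equiv]
    exact ⟨mem_univ _, rfl⟩
  · ext j
    exact ρ.injective (DFunLike.congr_fun h j)
  · have h1 : ∀ j, ∃ k, ρ k = ρ' j := fun j => by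
      have h2 : ρ' j ∈ univ.map ρ := by
        rw [(mem_filter.mp h).2]
        exact mem_map_of_mem _ (mem_univ j)
      obtain ⟨k, _, hk⟩ := mem_map.mp h2
      exact ⟨k, hk⟩
    choose g hg using h1
    have hinj : Function.Injective g := fun j j' e => ρ'.injective (by rw [← hg, ← hg, e])
    refine ⟨Equiv.ofBijective g (Finite.injective_iff_bijective.mp hinj), mem_univ _, ?_⟩
    ext j
    exact hg j

theorem ex_nonneg {W Ψ : (ι → I) → ℝ} (h : ∀ α, 0 ≤ W α) : 0 ≤ ex W Ψ :=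
  Finset.sum_nonneg fun α _ => mul_nonneg (h α) (sq_nonneg _)

theorem ex_mono {W W' Ψ : (ι → I) → ℝ} (h : ∀ α, Ψ α ≠ 0 → W α ≤ W' α) : ex W Ψ ≤ ex W' Ψ := by
  refine Finset.sum_le_sum fun α _ => ?_
  by_cases h0 : Ψ α = 0
  · simp [h0]
  · exact mul_le_mul_of_nonneg_right (h α h0) (sq_nonneg _)

theorem nsq_nonneg (Ψ : (ι → I) → ℝ) : 0 ≤ nsq Ψ :=
  Finset.sum_nonneg fun _ _ => sq_nonneg _

namespace Lv

variable (L : Lv I)

theorem ABas_pr_mem (A : Finset κ) (α : κ → I) : L.pr A α ∈ L.cfg A :=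
  mem_filter.mpr ⟨mem_univ _, fun _ hj => if_neg hj⟩

theorem ABas_piecewise_pr (R : Finset κ) (α : κ → I) :
    R.piecewise (L.pr R α) (L.pr Rᶜ α) = α := by
  funext j
  by_cases h : j ∈ R
  · rw [piecewise_eq_of_mem _ _ _ h, pr, if_pos h]
  · rw [piecewise_eq_of_notMem _ _ _ h, pr, if_pos (mem_compl.mpr h)]

theorem ABas_pr_piecewise (R : Finset κ) {a b : κ → I} (ha : a ∈ L.cfg Rᶜ) (hb : b ∈ L.cfg R) :
    L.pr Rᶜ (R.piecewise b a) = a ∧ L.pr R (R.piecewise b a) = b := by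
  constructor
  · funext j
    by_cases h : j ∈ R
    · have h' : j ∉ Rᶜ := fun h1 => mem_compl.mp h1 h
      rw [pr, if_neg h', (mem_filter.mp ha).2 j h']
    · rw [pr, if_pos (mem_compl.mpr h), piecewise_eq_of_notMem _ _ _ h]
  · funext j
    by_cases h : j ∈ R
    · rw [pr, if_pos h, piecewise_eq_of_mem _ _ _ h]
    · rw [pr, if_neg h, (mem_filter.mp hb).2 j h]

theorem ABas_nhN_update (α : ι → I) (i : ι) (a : I) (h : α i ∈ L.low) (ha : a ∈ L.low) :
    L.nhN (Function.update α i a) = L.nhN α := by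
  unfold nhN
  congr 1
  refine Finset.filter_congr fun k _ => ?_
  by_cases e : k = i
  · subst e
    rw [Function.update_self]
    exact ⟨fun h1 => absurd ha h1, fun h1 => absurd h h1⟩
  · rw [Function.update_of_ne e]

theorem ABas_lowInv {W : (ι → I) → ℝ} (h : L.LowInv W) (S : Finset ι) (α : ι → I) :
    ∀ α' : ι → I, (∀ i ∈ S, α i ∈ L.low ∧ α' i ∈ L.low) → (∀ i ∉ S, α' i = α i) →
      W α' = W α := by
  induction S using Finset.induction_on with
  | empty => exact fun α' _ h2 => congrArg W (funext fun i => h2 i (notMem_empty i))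
  | insert i S hi ih =>
    intro α' h1 h2
    obtain ⟨h3, h4⟩ := h1 i (mem_insert_self i S)
    rw [← h α' i (α i) h4 h3]
    refine ih _ (fun k hk => ?_) fun k hk => ?_
    · rw [Function.update_of_ne (ne_of_mem_of_not_mem hk hi)]
      exact h1 k (mem_insert_of_mem hk)
    · by_cases e : k = i
      · rw [e, Function.update_self]
      · rw [Function.update_of_ne e]
        exact h2 k fun h5 => (mem_insert.mp h5).elim e hk

theorem mem_vac {σ : κ ↪ ι} {α : ι → I} : α ∈ L.vac σ ↔ ∀ j, α (σ j) = L.o := by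
  simp [vac]

theorem sum_vac_put {M : Type} [AddCommMonoid M] (σ : κ ↪ ι) (f : (ι → I) → M) :
    ∑ α ∈ L.vac σ, ∑ β, f (put σ β α) = ∑ α, f α := by
  rw [← Finset.sum_product' (L.vac σ) univ fun α β => f (put σ β α)]
  refine Finset.sum_nbij' (fun x => put σ x.2 x.1) (fun α => (put σ (fun _ => L.o) α, α ∘ σ))
    (fun _ _ => mem_univ _) (fun α _ => ?_) (fun x hx => ?_) (fun α _ => ?_) fun _ _ => rfl
  · exact mem_product.mpr ⟨L.mem_vac.mpr fun j => put_apply σ (fun _ => L.o) α j, mem_univ _⟩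
  · have h1 : x.1 ∘ σ = fun _ => L.o := funext (L.mem_vac.mp (mem_product.mp hx).1)
    refine Prod.ext ?_ (put_comp _ _ _)
    change put σ (fun _ => L.o) (put σ x.2 x.1) = x.1
    rw [put_put, ← h1, put_self]
  · change put σ (α ∘ σ) (put σ (fun _ => L.o) α) = α
    rw [put_put, put_self]

theorem vac_perm (σ : κ ↪ ι) (π : Equiv.Perm κ) : L.vac (π.toEmbedding.trans σ) = L.vac σ := by
  ext α
  rw [mem_vac, mem_vac]
  refine ⟨fun h j => ?_, fun h j => h (π j)⟩
  obtain ⟨k, rfl⟩ := π.surjective j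
  exact h k

theorem sum_cfg_split {M : Type} [AddCommMonoid M] (R : Finset κ) (f : (κ → I) → (κ → I) → M) :
    ∑ α, f (L.pr Rᶜ α) (L.pr R α) = ∑ a ∈ L.cfg Rᶜ, ∑ b ∈ L.cfg R, f a b := by
  rw [← Finset.sum_product' (L.cfg Rᶜ) (L.cfg R) f]
  refine Finset.sum_nbij' (fun α => (L.pr Rᶜ α, L.pr R α)) (fun x => R.piecewise x.2 x.1)
    (fun α _ => mem_product.mpr ⟨L.ABas_pr_mem _ α, L.ABas_pr_mem _ α⟩) (fun _ _ => mem_univ _)
    (fun α _ => L.ABas_piecewise_pr R α) (fun x hx => ?_) fun _ _ => rfl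
  obtain ⟨h1, h2⟩ := L.ABas_pr_piecewise R (mem_product.mp hx).1 (mem_product.mp hx).2
  exact Prod.ext h1 h2

theorem pr_piecewise (R : Finset κ) {a b : κ → I} (ha : a ∈ L.cfg Rᶜ) (hb : b ∈ L.cfg R) :
    L.pr Rᶜ (R.piecewise b a) = a ∧ L.pr R (R.piecewise b a) = b :=
  L.ABas_pr_piecewise R ha hb

theorem cfg_empty : L.cfg (∅ : Finset κ) = {fun _ => L.o} := by
  ext α
  simp [cfg, funext_iff]

theorem cfg_univ : L.cfg (univ : Finset κ) = univ := by
  ext α
  simp [cfg]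

theorem npN_eq (ho : L.o ∈ L.low) (α : ι → I) : L.npN α = L.nhN α + L.nlN α := by
  unfold npN nhN nlN
  rw [← Finset.card_union_of_disjoint]
  · congr 1
    ext i
    simp only [mem_filter, mem_univ, true_and, mem_union]
    constructor
    · intro h
      by_cases h1 : α i ∈ L.low
      · exact Or.inr ⟨h1, h⟩
      · exact Or.inl h1
    · rintro (h | h)
      · exact fun e => h (e ▸ ho)
      · exact h.2
  · exact Finset.disjoint_filter.mpr fun i _ h h' => h h'.1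

theorem npN_le (α : ι → I) : L.npN α ≤ Fintype.card ι :=
  Finset.card_le_univ _

theorem nhN_put_hi (ho : L.o ∈ L.low) {p : ℕ} (ρ : Fin p ↪ ι) {α : ι → I} (h : L.Hi (α ∘ ρ))
    {β : Fin p → I} (hβ : ∀ j, β j ∈ L.low) : L.nhN α = L.nhN (put ρ β α) + p := by
  unfold nhN
  have hp : (univ.map ρ).card = p := by simp
  refine Eq.trans ?_ (congrArg (_ + ·) hp)
  rw [← Finset.card_union_of_disjoint]
  · congr 1
    ext i
    simp only [mem_filter, mem_univ, true_and, mem_union, mem_map]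
    by_cases hi : ∃ j, ρ j = i
    · obtain ⟨j, rfl⟩ := hi
      exact ⟨fun _ => Or.inr ⟨j, rfl⟩, fun _ => h j⟩
    · rw [put_apply_not _ _ _ hi]
      exact ⟨Or.inl, fun h1 => h1.resolve_right hi⟩
  · rw [Finset.disjoint_left]
    intro i hi hi'
    obtain ⟨j, _, rfl⟩ := mem_map.mp hi'
    have h1 := (mem_filter.mp hi).2
    rw [put_apply] at h1
    exact h1 (hβ j)

theorem lowInv_nhN (f : ℕ → ℝ) : L.LowInv (fun α : ι → I => f (L.nhN α)) := fun α i a h ha =>
  congrArg f (L.ABas_nhN_update α i a h ha)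

theorem lowInv_kh : L.LowInv (fun α : ι → I => L.kh α) := by
  intro α i a h ha
  refine Finset.sum_congr rfl fun k _ => ?_
  by_cases e : k = i
  · subst e
    rw [Function.update_self, if_pos h, if_pos ha]
  · rw [Function.update_of_ne e]

theorem lowInv_Wr (x y : ℕ → ℝ) (r : ℕ) : L.LowInv (fun α : ι → I => L.Wr x y r α) := by
  intro α i a h ha
  have h1 : L.kh (Function.update α i a) = L.kh α := L.lowInv_kh α i a h ha
  simp only [Wr, L.ABas_nhN_update α i a h ha, h1]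

theorem LowInv.put {W : (ι → I) → ℝ} (h : L.LowInv W) (σ : κ ↪ ι) {β : κ → I} {α : ι → I}
    (hβ : ∀ j, β j ∈ L.low) (hα : ∀ j, α (σ j) ∈ L.low) : W (put σ β α) = W α := by
  refine L.ABas_lowInv h (univ.map σ) α _ (fun i hi => ?_) fun i hi => ?_
  · obtain ⟨j, _, rfl⟩ := mem_map.mp hi
    rw [put_apply]
    exact ⟨hα j, hβ j⟩
  · exact put_apply_not _ _ _ fun ⟨j, hj⟩ => hi (mem_map.mpr ⟨j, mem_univ j, hj⟩)

variable {L}

theorem Bil.mono {T : (κ → I) → ℝ} {R : Finset κ} {wt wt' : (κ → I) → ℝ} (h : L.Bil T R wt)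
    (hw : ∀ α ∈ L.cfg R, wt α ≤ wt' α) : L.Bil T R wt' := fun ζ g =>
  (h ζ g).trans (mul_le_mul_of_nonneg_left
    (Finset.sum_le_sum fun α hα => mul_le_mul_of_nonneg_right (hw α hα) (sq_nonneg _))
    (Finset.sum_nonneg fun _ _ => sq_nonneg _))

/-- multiplication by a bounded function of the legs outside `R` and a function of the legs in `R` -/
theorem Bil.mul {T : (κ → I) → ℝ} {R : Finset κ} {wt : (κ → I) → ℝ} (h : L.Bil T R wt)
    (hw : ∀ α ∈ L.cfg R, 0 ≤ wt α) (f g : (κ → I) → ℝ) {c : ℝ} (hf : ∀ α, f α ^ 2 ≤ c) :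
    L.Bil (fun α => f (L.pr Rᶜ α) * g (L.pr R α) * T α) R (fun α => c * g α ^ 2 * wt α) := by
  intro ζ u
  have h1 := h (fun α => f α * ζ α) (fun α => g α * u α)
  have h2 : ∑ α ∈ L.cfg Rᶜ, (f α * ζ α) ^ 2 ≤ c * ∑ α ∈ L.cfg Rᶜ, ζ α ^ 2 := by
    rw [Finset.mul_sum]
    refine Finset.sum_le_sum fun α _ => ?_
    rw [mul_pow]
    exact mul_le_mul_of_nonneg_right (hf α) (sq_nonneg _)
  have h3 : 0 ≤ ∑ α ∈ L.cfg R, wt α * (g α * u α) ^ 2 :=
    Finset.sum_nonneg fun α hα => mul_nonneg (hw α hα) (sq_nonneg _)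
  have h4 : ∑ α ∈ L.cfg R, c * g α ^ 2 * wt α * u α ^ 2 =
      c * ∑ α ∈ L.cfg R, wt α * (g α * u α) ^ 2 := by
    rw [Finset.mul_sum]
    exact Finset.sum_congr rfl fun α _ => by ring
  have h5 : ∑ α, f (L.pr Rᶜ α) * g (L.pr R α) * T α * ζ (L.pr Rᶜ α) * u (L.pr R α) =
      ∑ α, T α * (f (L.pr Rᶜ α) * ζ (L.pr Rᶜ α)) * (g (L.pr R α) * u (L.pr R α)) :=
    Finset.sum_congr rfl fun α _ => by ring
  rw [h4, h5]
  refine h1.trans ((mul_le_mul_of_nonneg_right h2 h3).trans_eq ?_)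
  ring

theorem Bil.smul {T : (κ → I) → ℝ} {R : Finset κ} {wt : (κ → I) → ℝ} (h : L.Bil T R wt) (c : ℝ) :
    L.Bil (fun α => c * T α) R (fun α => c ^ 2 * wt α) := by
  intro ζ u
  have h1 := h ζ (fun α => c * u α)
  have h4 : ∑ α ∈ L.cfg R, c ^ 2 * wt α * u α ^ 2 = ∑ α ∈ L.cfg R, wt α * (c * u α) ^ 2 :=
    Finset.sum_congr rfl fun α _ => by ring
  have h5 : ∑ α, c * T α * ζ (L.pr Rᶜ α) * u (L.pr R α) =
      ∑ α, T α * ζ (L.pr Rᶜ α) * (c * u (L.pr R α)) :=
    Finset.sum_congr rfl fun α _ => by ring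
  rw [h4, h5]
  exact h1

/-- restriction to high modes -/
theorem Bil.hi {T : (κ → I) → ℝ} {R : Finset κ} {x : ℝ} (h : L.Bil T R fun _ => x) (hx : 0 ≤ x) :
    L.Bil (fun α => if L.Hi α then T α else 0) R (L.wtH R x 0) := by
  have h1 := h.mul (fun _ _ => hx) (fun a => if ∀ j ∈ Rᶜ, a j ∉ L.low then 1 else 0)
    (fun b => if ∀ j ∈ R, b j ∉ L.low then 1 else 0) (c := 1)
    (fun α => by split_ifs <;> norm_num)
  have e1 : (fun α => if L.Hi α then T α else 0) = fun α =>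
      (if ∀ j ∈ Rᶜ, L.pr Rᶜ α j ∉ L.low then (1 : ℝ) else 0) *
        (if ∀ j ∈ R, L.pr R α j ∉ L.low then (1 : ℝ) else 0) * T α := by
    funext α
    have k : ∀ A : Finset κ, (∀ j ∈ A, L.pr A α j ∉ L.low) ↔ ∀ j ∈ A, α j ∉ L.low := fun A =>
      forall₂_congr fun j hj => by rw [pr, if_pos hj]
    by_cases hα : L.Hi α
    · rw [if_pos hα, if_pos ((k _).mpr fun j _ => hα j), if_pos ((k _).mpr fun j _ => hα j),
        one_mul, one_mul]
    · rw [if_neg hα]
      by_cases h2 : ∀ j ∈ Rᶜ, L.pr Rᶜ α j ∉ L.low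
      · rw [if_neg (c := ∀ j ∈ R, L.pr R α j ∉ L.low), mul_zero, zero_mul]
        intro h3
        refine hα fun j => ?_
        by_cases hj : j ∈ R
        · exact (k _).mp h3 j hj
        · exact (k _).mp h2 j (mem_compl.mpr hj)
      · rw [if_neg h2, zero_mul, zero_mul]
  rw [e1]
  refine h1.mono fun α _ => le_of_eq ?_
  unfold wtH
  split_ifs <;> simp

/-- quadratic form of the bound -/
theorem Bil.quad {T : (κ → I) → ℝ} {R : Finset κ} {wt : (κ → I) → ℝ} (h : L.Bil T R wt)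
    (hw : ∀ α ∈ L.cfg R, 0 ≤ wt α) (g : (κ → I) → ℝ) :
    ∑ a ∈ L.cfg Rᶜ, (∑ b ∈ L.cfg R, T (R.piecewise b a) * g b) ^ 2 ≤
      ∑ b ∈ L.cfg R, wt b * g b ^ 2 := by
  have h1 := h (fun a => ∑ b ∈ L.cfg R, T (R.piecewise b a) * g b) g
  have h2 := L.sum_cfg_split R fun a b =>
    T (R.piecewise b a) * (∑ b ∈ L.cfg R, T (R.piecewise b a) * g b) * g b
  simp only [L.ABas_piecewise_pr] at h2
  have h3 : ∑ a ∈ L.cfg Rᶜ, ∑ b ∈ L.cfg R,
      T (R.piecewise b a) * (∑ b ∈ L.cfg R, T (R.piecewise b a) * g b) * g b =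
      ∑ a ∈ L.cfg Rᶜ, (∑ b ∈ L.cfg R, T (R.piecewise b a) * g b) ^ 2 := by
    refine Finset.sum_congr rfl fun a _ => ?_
    rw [sq, Finset.mul_sum]
    exact Finset.sum_congr rfl fun b _ => by ring
  rw [h2, h3, sq] at h1
  have h4 : 0 ≤ ∑ a ∈ L.cfg Rᶜ, (∑ b ∈ L.cfg R, T (R.piecewise b a) * g b) ^ 2 :=
    Finset.sum_nonneg fun _ _ => sq_nonneg _
  rcases h4.eq_or_lt with h5 | h5
  · rw [← h5]
    exact Finset.sum_nonneg fun b hb => mul_nonneg (hw b hb) (sq_nonneg _)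
  · exact le_of_mul_le_mul_left h1 h5

theorem bil_empty_iff {T : (κ → I) → ℝ} {x : ℝ} (hx : 0 ≤ x) :
    L.Bil T ∅ (fun _ => x) ↔ ∑ α, T α ^ 2 ≤ x := by
  constructor
  · intro h
    have h1 := h.quad (fun _ _ => hx) fun _ => 1
    simpa [cfg_empty, cfg_univ] using h1
  · intro h ζ u
    have e1 : ∀ α : κ → I, L.pr ∅ᶜ α = α := fun α => by
      funext j
      simp [pr]
    have e2 : ∀ α : κ → I, L.pr ∅ α = fun _ => L.o := fun α => by
      funext j
      simp [pr]
    simp only [e1, e2]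
    rw [compl_empty, cfg_univ, cfg_empty, sum_singleton, ← Finset.sum_mul, mul_pow, ← mul_assoc]
    refine mul_le_mul_of_nonneg_right ?_ (sq_nonneg _)
    refine (Finset.sum_mul_sq_le_sq_mul_sq univ T ζ).trans ?_
    rw [mul_comm]
    exact mul_le_mul_of_nonneg_left h (Finset.sum_nonneg fun _ _ => sq_nonneg _)

theorem wtH_empty (x y : ℝ) : L.wtH (∅ : Finset κ) x y = fun _ => x := by
  funext α
  simp [wtH]

/-- Hilbert-Schmidt bound with kinetic weight -/
theorem FamB.hs {T : (κ → I) → ℝ} {x y : ℕ → ℝ} (h : L.FamB T x y) (hl : ∀ a, 0 ≤ L.lam a)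
    (hx : 0 ≤ x 0) :
    ∑ α, (∑ j, L.lam (α j)) * T α ^ 2 ≤ Fintype.card κ * x 0 := by
  have h1 : ∀ j, ∑ α : κ → I, L.lam (α j) * T α ^ 2 ≤ x 0 := fun j => by
    have h2 := h j ∅ (notMem_empty j)
    rw [wtH_empty, card_empty, bil_empty_iff hx] at h2
    refine le_of_eq_of_le (Finset.sum_congr rfl fun α _ => ?_) h2
    rw [mul_pow, Real.sq_sqrt (hl _)]
  simp only [Finset.sum_mul]
  rw [Finset.sum_comm]
  refine (Finset.sum_le_sum fun j _ => h1 j).trans_eq ?_
  rw [sum_const, card_univ, nsmul_eq_mul]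

/-- the mass of the configurations with one prescribed mode -/
theorem Bil.one_leg {T : (κ → I) → ℝ} {j : κ} {x : ℝ} (h : L.Bil T {j} fun _ => x) (hx : 0 ≤ x)
    (a : I) : ∑ α, (if α j = a then T α ^ 2 else 0) ≤ x := by
  have h1 := h.quad (fun _ _ => hx) fun b => if b j = a then 1 else 0
  have h2 := L.sum_cfg_split {j} fun a' b =>
    if b j = a then T (({j} : Finset κ).piecewise b a') ^ 2 else 0
  have e0 : ∀ α : κ → I, L.pr {j} α j = α j := fun α => by simp [pr]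
  simp only [L.ABas_piecewise_pr, e0] at h2
  have hm : Function.update (fun _ => L.o) j a ∈ L.cfg ({j} : Finset κ) := by
    refine mem_filter.mpr ⟨mem_univ _, fun k hk => ?_⟩
    rw [Function.update_of_ne (notMem_singleton.mp hk)]
  have key : ∀ F : (κ → I) → ℝ, ∑ b ∈ L.cfg {j}, (if b j = a then F b else 0) =
      F (Function.update (fun _ => L.o) j a) := fun F => by
    rw [Finset.sum_eq_single_of_mem _ hm, if_pos (Function.update_self ..)]
    intro b hb hne
    refine if_neg fun e => hne ?_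
    funext k
    by_cases hk : k = j
    · rw [hk, Function.update_self, e]
    · rw [Function.update_of_ne hk]
      exact (mem_filter.mp hb).2 k (notMem_singleton.mpr hk)
  simp only [mul_ite, mul_one, mul_zero, ite_pow, one_pow, ne_eq, OfNat.ofNat_ne_zero,
    not_false_eq_true, zero_pow, key] at h1
  simp only [key] at h2
  rw [h2]
  exact h1

end Lv

end Pool.Agent.Lib.MP_8fe63c_mp
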