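import Pool.Agent.Lib.MP_8fe63c_mp.ABas

/-!
Counting lemmas for spectator sums.

Sketch of `chan_count`. Let `jγ`, `jβ` be the numbers of slots of `γ`, `β` different from `o`. For
`α ∈ vac ρ` the number of contributing `σ` is at most `npN α ^ jγ * N^(c - jγ)` (`card_emb_le`), and
`npN α ≤ npN (put σ β α) + c`. Cauchy-Schwarz, then `(ρ, σ, α) ↦ (σ, put σ β α)` is injective on the
contributing triples, `W α = W (put σ β α)`, and for fixed `α'` the number of `σ` with `α' ∘ σ = β` is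
at most `npN α' ^ jβ * N^(p + c - jβ)`. Finally `npN + c ≤ 2 N`.
-/

set_option linter.unusedSectionVars false

open Finset
open scoped InnerProductSpace

namespace Pool.Agent.Lib.MP_8fe63c_mp

variable {I ι κ κ' E : Type} [Fintype I] [DecidableEq I] [Fintype ι] [DecidableEq ι]
  [Fintype κ] [DecidableEq κ] [Fintype κ'] [DecidableEq κ']
  [NormedAddCommGroup E] [InnerProductSpace ℝ E]

theorem AChan_not_range {p c : ℕ} {ρ : Fin p ↪ ι} {σ : Fin (p + c) ↪ ι}
    (h : ∀ j, σ (Fin.castAdd c j) = ρ j) (j : Fin c) : ¬∃ i, ρ i = σ (Fin.natAdd p j) := by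
  rintro ⟨i, hi⟩
  rw [← h i] at hi
  have h1 := congrArg Fin.val (σ.injective hi)
  have h2 := i.2
  simp only [Fin.val_castAdd, Fin.val_natAdd] at h1
  omega

theorem AChan_put_put {p c : ℕ} {ρ : Fin p ↪ ι} {σ : Fin (p + c) ↪ ι}
    (h : ∀ j, σ (Fin.castAdd c j) = ρ j) (β : Fin (p + c) → I) (β' : Fin p → I) (α : ι → I) :
    put σ β (put ρ β' α) = put σ β α := by
  funext i
  by_cases hi : ∃ j, σ j = i
  · obtain ⟨j, rfl⟩ := hi
    rw [put_apply, put_apply]
  · rw [put_apply_not _ _ _ hi, put_apply_not _ _ _ hi, put_apply_not]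
    rintro ⟨j, rfl⟩
    exact hi ⟨_, h j⟩

theorem AChan_sum_put (σ : κ ↪ ι) (δ β : κ → I) (G : (ι → I) → ℝ) :
    ∑ α, (if α ∘ σ = δ then G (put σ β α) else 0) = ∑ α, if α ∘ σ = β then G α else 0 := by
  rw [← Finset.sum_filter, ← Finset.sum_filter]
  refine Finset.sum_nbij' (fun α => put σ β α) (fun α => put σ δ α) ?_ ?_ ?_ ?_ ?_
  · intro α _
    exact mem_filter.mpr ⟨mem_univ _, put_comp σ β α⟩
  · intro α _
    exact mem_filter.mpr ⟨mem_univ _, put_comp σ δ α⟩
  · intro α hα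
    have h := (mem_filter.mp hα).2
    show put σ δ (put σ β α) = α
    rw [put_put, ← h, put_self]
  · intro α hα
    have h := (mem_filter.mp hα).2
    show put σ β (put σ δ α) = α
    rw [put_put, ← h, put_self]
  · intro α _
    rfl

theorem AChan_card_le (S : Finset (κ ↪ ι)) (A : κ → Finset ι) (h : ∀ σ ∈ S, ∀ j, σ j ∈ A j) :
    S.card ≤ ∏ j, (A j).card :=
  le_trans (Finset.card_le_card fun σ hσ => mem_filter.mpr ⟨mem_univ _, h σ hσ⟩) (card_emb_le A)

theorem AChan_sum_mem (S : Finset (ι → I)) (f : (ι → I) → ℝ) :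
    ∑ α ∈ S, f α = ∑ α, if α ∈ S then f α else 0 := by
  rw [Finset.sum_ite_mem, Finset.univ_inter]

/-- approximation of a power by a product -/
def AChan_P (N d : ℝ) (k : ℕ) (x : ℝ) : Prop :=
  0 ≤ x ∧ x ≤ N ^ k ∧ N ^ k - x ≤ k * N ^ (k - 1) * d

theorem AChan_pow_aux (N : ℝ) (k l : ℕ) : N ^ k * (l * N ^ (l - 1)) = l * N ^ (k + l - 1) := by
  rcases l with _ | l
  · simp
  · rw [Nat.add_sub_cancel, ← add_assoc, Nat.add_sub_cancel, pow_add]
    ring

theorem AChan_P.mul {N d : ℝ} (hN : 0 ≤ N) (hd : 0 ≤ d) {k l : ℕ} {x y : ℝ}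
    (hx : AChan_P N d k x) (hy : AChan_P N d l y) : AChan_P N d (k + l) (x * y) := by
  obtain ⟨x0, x1, x2⟩ := hx
  obtain ⟨y0, y1, y2⟩ := hy
  have hk : 0 ≤ N ^ k := pow_nonneg hN k
  have hl : 0 ≤ N ^ l := pow_nonneg hN l
  refine ⟨mul_nonneg x0 y0, ?_, ?_⟩
  · rw [pow_add]
    exact mul_le_mul x1 y1 y0 hk
  · have h1 : N ^ k * (N ^ l - y) ≤ N ^ k * (l * N ^ (l - 1) * d) :=
      mul_le_mul_of_nonneg_left y2 hk
    have h2 : y * (N ^ k - x) ≤ N ^ l * (k * N ^ (k - 1) * d) :=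
      mul_le_mul y1 x2 (sub_nonneg.mpr x1) hl
    have h3 := AChan_pow_aux N k l
    have h4 := AChan_pow_aux N l k
    rw [add_comm l k] at h4
    calc N ^ (k + l) - x * y = N ^ k * (N ^ l - y) + y * (N ^ k - x) := by
          rw [pow_add]
          ring
      _ ≤ N ^ k * (l * N ^ (l - 1)) * d + N ^ l * (k * N ^ (k - 1)) * d := by
          rw [mul_assoc (N ^ k), mul_assoc (N ^ l)]
          exact add_le_add h1 h2
      _ = ((k + l : ℕ) : ℝ) * N ^ (k + l - 1) * d := by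
          rw [h3, h4]
          push_cast
          ring

theorem AChan_P_desc (N d m k : ℕ) (hm : m ≤ N) (h : ∀ i < k, N ≤ m - i + d) :
    AChan_P N d k (m.descFactorial k) := by
  induction k with
  | zero => simp [AChan_P]
  | succ k ih =>
    have h1 := ih fun i hi => h i (by omega)
    have h2 : AChan_P N d 1 ((m - k : ℕ) : ℝ) := by
      refine ⟨Nat.cast_nonneg _, ?_, ?_⟩
      · rw [pow_one]
        exact_mod_cast (by omega : m - k ≤ N)
      · have h3 : (N : ℝ) ≤ ((m - k : ℕ) : ℝ) + d := by exact_mod_cast h k (by omega)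
        simp only [pow_one, Nat.cast_one, Nat.sub_self, pow_zero, mul_one, one_mul]
        linarith
    rw [Nat.descFactorial_succ, Nat.cast_mul, mul_comm]
    exact h1.mul (Nat.cast_nonneg _) (Nat.cast_nonneg _) h2

/-- a permutation of the first slots -/
def AChan_ext {p : ℕ} (c : ℕ) (π : Equiv.Perm (Fin p)) : Equiv.Perm (Fin (p + c)) :=
  finSumFinEquiv.symm.trans ((Equiv.sumCongr π (Equiv.refl (Fin c))).trans finSumFinEquiv)

theorem AChan_ext_left {p : ℕ} (c : ℕ) (π : Equiv.Perm (Fin p)) (j : Fin p) :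
    AChan_ext c π (Fin.castAdd c j) = Fin.castAdd c (π j) := by
  simp [AChan_ext]

theorem AChan_ext_right {p : ℕ} (c : ℕ) (π : Equiv.Perm (Fin p)) (j : Fin c) :
    AChan_ext c π (Fin.natAdd p j) = Fin.natAdd p j := by
  simp [AChan_ext]

theorem AChan_chan_perm {p c : ℕ} (π : Equiv.Perm (Fin p)) (ρ : Fin p ↪ ι) (γ : Fin c → I)
    (β : Fin (p + c) → I) (Ψ : (ι → I) → ℝ) (α : ι → I) :
    chan (π.toEmbedding.trans ρ) γ (β ∘ AChan_ext c π) Ψ α = chan ρ γ β Ψ α := by
  unfold chan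
  rw [← sum_emb_perm (AChan_ext c π)]
  refine Finset.sum_congr rfl fun σ _ => ?_
  rw [put_perm]
  refine if_congr (and_congr ?_ ?_) rfl rfl
  · constructor
    · intro h j
      have h1 := h (π.symm j)
      simpa [AChan_ext_left] using h1
    · intro h j
      simpa [AChan_ext_left] using h (π j)
  · simp [AChan_ext_right]

theorem chan_indep {p c : ℕ} (γ : Fin c → I) (β : Fin (p + c) → I) (Ψ : (ι → I) → ℝ) :
    Indep (fun (ρ : Fin p ↪ ι) α => chan ρ γ β Ψ α) := by
  intro ρ β' α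
  show chan ρ γ β Ψ (put ρ β' α) = chan ρ γ β Ψ α
  unfold chan
  refine Finset.sum_congr rfl fun σ _ => ?_
  by_cases h : ∀ j, σ (Fin.castAdd c j) = ρ j
  · rw [AChan_put_put h]
    refine if_congr (and_congr_right fun _ => forall_congr' fun j => ?_) rfl rfl
    rw [put_apply_not _ _ _ (AChan_not_range h j)]
  · rw [if_neg fun h' => h h'.1, if_neg fun h' => h h'.1]

theorem chan_zero {p : ℕ} (ρ : Fin p ↪ ι) (γ : Fin 0 → I) (β : Fin (p + 0) → I)
    (Ψ : (ι → I) → ℝ) (α : ι → I) : chan ρ γ β Ψ α = Ψ (put ρ β α) := by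
  unfold chan
  rw [Finset.sum_eq_single (show Fin (p + 0) ↪ ι from ρ)]
  · rw [if_pos ⟨fun j => rfl, fun j => j.elim0⟩]
  · intro σ _ hσ
    rw [if_neg]
    rintro ⟨h, -⟩
    exact hσ (Function.Embedding.ext fun j => h j)
  · intro h
    exact absurd (mem_univ _) h

namespace Lv

variable (L : Lv I)

/-- number of slots outside the condensate -/
def nno {n : ℕ} (γ : Fin n → I) : ℕ := (univ.filter fun j => γ j ≠ L.o).card

theorem AChan_nno_le {n : ℕ} (γ : Fin n → I) : L.nno γ ≤ n := by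
  simpa [nno] using Finset.card_filter_le (univ : Finset (Fin n)) fun j => γ j ≠ L.o

theorem AChan_prod {n : ℕ} (γ : Fin n → I) (a b : ℕ) :
    ∏ j, (if γ j ≠ L.o then a else b) = a ^ L.nno γ * b ^ (n - L.nno γ) := by
  rw [Finset.prod_ite, Finset.prod_const, Finset.prod_const]
  have h := Finset.card_filter_add_card_filter_not (s := (univ : Finset (Fin n)))
    (fun j => γ j ≠ L.o)
  rw [Finset.card_univ, Fintype.card_fin] at h
  have h2 : (univ.filter fun j => ¬γ j ≠ L.o).card = n - L.nno γ := by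
    unfold nno
    omega
  rw [h2]
  rfl

theorem AChan_card_full {n : ℕ} (β : Fin n → I) (α : ι → I) :
    (univ.filter fun σ : Fin n ↪ ι => α ∘ σ = β).card ≤
      L.npN α ^ L.nno β * Fintype.card ι ^ (n - L.nno β) := by
  rw [← AChan_prod]
  refine (AChan_card_le _ (fun j => if β j ≠ L.o then univ.filter fun i => α i ≠ L.o else univ)
    fun σ hσ j => ?_).trans (le_of_eq ?_)
  · have h1 := (mem_filter.mp hσ).2
    split_ifs with hj
    · refine mem_filter.mpr ⟨mem_univ _, ?_⟩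
      rw [← h1] at hj
      exact hj
    · exact mem_univ _
  · refine Finset.prod_congr rfl fun j _ => ?_
    split_ifs
    · rfl
    · rfl

theorem AChan_card_chan {p c : ℕ} (ρ : Fin p ↪ ι) (γ : Fin c → I) (α : ι → I) :
    (univ.filter fun σ : Fin (p + c) ↪ ι => (∀ j, σ (Fin.castAdd c j) = ρ j) ∧
      ∀ j, α (σ (Fin.natAdd p j)) = γ j).card ≤
      L.npN α ^ L.nno γ * Fintype.card ι ^ (c - L.nno γ) := by
  rw [← AChan_prod]
  refine (AChan_card_le _ (Fin.append (fun j => {ρ j})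
    (fun j => if γ j ≠ L.o then univ.filter fun i => α i ≠ L.o else univ))
    fun σ hσ j => ?_).trans (le_of_eq ?_)
  · obtain ⟨h1, h2⟩ := (mem_filter.mp hσ).2
    refine Fin.addCases (fun j => ?_) (fun j => ?_) j
    · rw [Fin.append_left, h1]
      exact mem_singleton_self _
    · rw [Fin.append_right]
      split_ifs with hj
      · refine mem_filter.mpr ⟨mem_univ _, ?_⟩
        rw [h2]
        exact hj
      · exact mem_univ _
  · rw [Fin.prod_univ_add]
    simp only [Fin.append_left, Fin.append_right, card_singleton, prod_const_one, one_mul]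
    refine Finset.prod_congr rfl fun j _ => ?_
    split_ifs
    · rfl
    · rfl

theorem AChan_npN_le {p c : ℕ} (σ : Fin (p + c) ↪ ι) (β : Fin (p + c) → I) {α : ι → I}
    (h : ∀ j, α (σ (Fin.castAdd c j)) = L.o) : L.npN α ≤ L.npN (put σ β α) + c := by
  unfold npN
  have h1 : (univ.filter fun i => α i ≠ L.o) ⊆ (univ.filter fun i => put σ β α i ≠ L.o) ∪
      univ.image fun j : Fin c => σ (Fin.natAdd p j) := by
    intro i hi
    have hi' := (mem_filter.mp hi).2
    by_cases hr : ∃ j, σ j = i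
    · obtain ⟨j, rfl⟩ := hr
      revert hi'
      refine Fin.addCases (fun j => ?_) (fun j => ?_) j
      · intro hi'
        exact absurd (h j) hi'
      · intro _
        exact mem_union_right _ (mem_image.mpr ⟨j, mem_univ _, rfl⟩)
    · refine mem_union_left _ (mem_filter.mpr ⟨mem_univ _, ?_⟩)
      rw [put_apply_not _ _ _ hr]
      exact hi'
  refine (Finset.card_le_card h1).trans ((Finset.card_union_le _ _).trans ?_)
  have h2 : (univ.image fun j : Fin c => σ (Fin.natAdd p j)).card ≤ c := by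
    simpa using Finset.card_image_le (s := (univ : Finset (Fin c)))
      (f := fun j : Fin c => σ (Fin.natAdd p j))
  omega

theorem AChan_reindex {p c : ℕ} (γ : Fin c → I) (g : (Fin (p + c) ↪ ι) → (ι → I) → ℝ) :
    ∑ ρ : Fin p ↪ ι, ∑ α ∈ L.vac ρ, ∑ σ : Fin (p + c) ↪ ι,
      (if (∀ j, σ (Fin.castAdd c j) = ρ j) ∧ (∀ j, α (σ (Fin.natAdd p j)) = γ j) then g σ α
        else 0) =
    ∑ σ : Fin (p + c) ↪ ι, ∑ α, if α ∘ σ = Fin.append (L.oo p) γ then g σ α else 0 := by
  have h1 : ∀ ρ : Fin p ↪ ι, ∑ α ∈ L.vac ρ, ∑ σ : Fin (p + c) ↪ ι,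
      (if (∀ j, σ (Fin.castAdd c j) = ρ j) ∧ (∀ j, α (σ (Fin.natAdd p j)) = γ j) then g σ α
        else 0) = ∑ σ : Fin (p + c) ↪ ι, ∑ α, if ρ = (Fin.castAddEmb c).trans σ then
          (if α ∘ σ = Fin.append (L.oo p) γ then g σ α else 0) else 0 := by
    intro ρ
    rw [Finset.sum_comm]
    refine Finset.sum_congr rfl fun σ _ => ?_
    rw [AChan_sum_mem]
    refine Finset.sum_congr rfl fun α _ => ?_
    rw [← ite_and, ← ite_and]
    refine if_congr ?_ rfl rfl
    rw [mem_vac]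
    constructor
    · rintro ⟨a1, a2, a3⟩
      refine ⟨Function.Embedding.ext fun j => (a2 j).symm, funext fun j => ?_⟩
      refine Fin.addCases (fun j => ?_) (fun j => ?_) j
      · rw [Fin.append_left, Function.comp_apply, a2, a1]
        rfl
      · rw [Fin.append_right, Function.comp_apply, a3]
    · rintro ⟨rfl, a2⟩
      refine ⟨fun j => ?_, fun j => rfl, fun j => ?_⟩
      · have h := congrFun a2 (Fin.castAdd c j)
        rw [Fin.append_left] at h
        exact h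
      · have h := congrFun a2 (Fin.natAdd p j)
        rw [Fin.append_right] at h
        exact h
  rw [Finset.sum_congr rfl fun ρ _ => h1 ρ, Finset.sum_comm]
  refine Finset.sum_congr rfl fun σ _ => ?_
  rw [Finset.sum_comm]
  refine Finset.sum_congr rfl fun α _ => ?_
  rw [Finset.sum_ite_eq' univ, if_pos (mem_univ _)]

theorem AChan_num {N n c : ℝ} (hn0 : 0 ≤ n) (hc0 : 0 ≤ c) (hn : n ≤ N) (hc : c ≤ N)
    {a b A B j : ℕ} (ha : a ≤ A) (hb : b ≤ B) (hj : j ≤ a + b) :
    n ^ b * N ^ (B - b) * ((n + c) ^ a * N ^ (A - a)) ≤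
      2 ^ (A + B) * N ^ (A + B - j) * (n + c) ^ j := by
  obtain ⟨a', rfl⟩ := Nat.exists_eq_add_of_le ha
  obtain ⟨b', rfl⟩ := Nat.exists_eq_add_of_le hb
  obtain ⟨t, ht⟩ := Nat.exists_eq_add_of_le hj
  have hN : 0 ≤ N := hn0.trans hn
  have hnc : 0 ≤ n + c := add_nonneg hn0 hc0
  have e1 : a + a' + (b + b') - j = t + (a' + b') := by omega
  rw [Nat.add_sub_cancel_left, Nat.add_sub_cancel_left, e1]
  have h1 : n ^ b ≤ (n + c) ^ b := pow_le_pow_left₀ hn0 (by linarith) b
  have h2 : (n + c) ^ t ≤ (2 * N) ^ t := pow_le_pow_left₀ hnc (by linarith) t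
  have h3 : (2 : ℝ) ^ t ≤ 2 ^ (a + a' + (b + b')) := pow_le_pow_right₀ (by norm_num) (by omega)
  calc n ^ b * N ^ b' * ((n + c) ^ a * N ^ a')
      ≤ (n + c) ^ b * N ^ b' * ((n + c) ^ a * N ^ a') := by gcongr
    _ = (n + c) ^ (a + b) * N ^ (a' + b') := by ring
    _ = (n + c) ^ t * (N ^ (a' + b') * (n + c) ^ j) := by
        rw [ht]
        ring
    _ ≤ (2 * N) ^ t * (N ^ (a' + b') * (n + c) ^ j) := by gcongr
    _ = 2 ^ t * (N ^ (t + (a' + b')) * (n + c) ^ j) := by
        rw [mul_pow]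
        ring
    _ ≤ 2 ^ (a + a' + (b + b')) * (N ^ (t + (a' + b')) * (n + c) ^ j) := by gcongr
    _ = _ := by ring

theorem AChan_card_oo {p c : ℕ} (ρ : Fin p ↪ ι) {α : ι → I} (hα : α ∈ L.vac ρ) :
    (univ.filter fun σ : Fin (p + c) ↪ ι => (∀ j, σ (Fin.castAdd c j) = ρ j) ∧
      ∀ j, α (σ (Fin.natAdd p j)) = L.oo c j).card =
      (Fintype.card ι - L.npN α - p).descFactorial c := by
  have hα' := L.mem_vac.mp hα
  have hA : ((univ.filter fun i => α i = L.o) \ univ.map ρ).card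
      = Fintype.card ι - L.npN α - p := by
    have hsub : univ.map ρ ⊆ univ.filter fun i => α i = L.o := by
      intro i hi
      obtain ⟨j, -, rfl⟩ := mem_map.mp hi
      exact mem_filter.mpr ⟨mem_univ _, hα' j⟩
    rw [Finset.card_sdiff_of_subset hsub, Finset.card_map, Finset.card_univ, Fintype.card_fin]
    have h := Finset.card_filter_add_card_filter_not (s := (univ : Finset ι))
      (fun i => α i = L.o)
    rw [Finset.card_univ] at h
    unfold npN
    have e : (univ.filter fun i => α i ≠ L.o).card = (univ.filter fun i => ¬α i = L.o).card := rfl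
    omega
  rw [← hA, ← card_emb_into]
  refine Finset.card_bij (fun σ _ => (Fin.natAddEmb p).trans σ) ?_ ?_ ?_
  · intro σ hσ
    obtain ⟨h1, h2⟩ := (mem_filter.mp hσ).2
    refine mem_filter.mpr ⟨mem_univ _, fun j => mem_sdiff.mpr
      ⟨mem_filter.mpr ⟨mem_univ _, h2 j⟩, fun h => ?_⟩⟩
    obtain ⟨i, -, hi⟩ := mem_map.mp h
    exact AChan_not_range h1 j ⟨i, hi⟩
  · intro σ hσ σ' hσ' h
    obtain ⟨h1, -⟩ := (mem_filter.mp hσ).2
    obtain ⟨h1', -⟩ := (mem_filter.mp hσ').2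
    refine Function.Embedding.ext fun j => ?_
    refine Fin.addCases (fun j => ?_) (fun j => ?_) j
    · rw [h1, h1']
    · exact DFunLike.congr_fun h j
  · intro τ hτ
    have h1 := (mem_filter.mp hτ).2
    have hd : Disjoint (Set.range ρ) (Set.range τ) := by
      rw [Set.disjoint_left]
      rintro _ ⟨i, rfl⟩ ⟨j, hj⟩
      exact (mem_sdiff.mp (h1 j)).2 (mem_map.mpr ⟨i, mem_univ _, hj.symm⟩)
    refine ⟨Fin.Embedding.append hd, mem_filter.mpr ⟨mem_univ _, fun j => ?_, fun j => ?_⟩, ?_⟩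
    · rw [Fin.Embedding.coe_append, Fin.append_left]
    · rw [Fin.Embedding.coe_append, Fin.append_right]
      exact (mem_filter.mp (mem_sdiff.mp (h1 j)).1).2
    · refine Function.Embedding.ext fun j => ?_
      show Fin.append ρ τ (Fin.natAdd p j) = τ j
      rw [Fin.append_right]

theorem chan_count (ho : L.o ∈ L.low) {p c j : ℕ} {γ : Fin c → I} {β : Fin (p + c) → I}
    (hγ : γ ∈ L.lowF c) (hβ : β ∈ L.lowF (p + c)) (hj : j ≤ L.nno γ + L.nno β)
    (hc : c ≤ Fintype.card ι) {W : (ι → I) → ℝ} (hW : ∀ α, 0 ≤ W α) (hinv : L.LowInv W)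
    (Ψ : (ι → I) → ℝ) :
    ∑ ρ : Fin p ↪ ι, ∑ α ∈ L.vac ρ, W α * chan ρ γ β Ψ α ^ 2 ≤
      2 ^ (p + 2 * c) * (Fintype.card ι : ℝ) ^ (p + 2 * c - j) *
        ex (fun α => ((L.npN α : ℝ) + c) ^ j * W α) Ψ := by
  have hγ' : ∀ j, γ j ∈ L.low := Fintype.mem_piFinset.mp hγ
  have hβ' : ∀ j, β j ∈ L.low := Fintype.mem_piFinset.mp hβ
  set N : ℝ := (Fintype.card ι : ℝ) with hN
  have hN0 : 0 ≤ N := Nat.cast_nonneg _
  set G : (ι → I) → ℝ := fun α =>
    ((L.npN α : ℝ) + c) ^ L.nno γ * N ^ (c - L.nno γ) * (W α * Ψ α ^ 2) with hG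
  have hG0 : ∀ α, 0 ≤ G α := fun α =>
    mul_nonneg (by positivity) (mul_nonneg (hW α) (sq_nonneg _))
  have h1 : ∀ ρ : Fin p ↪ ι, ∀ α ∈ L.vac ρ, W α * chan ρ γ β Ψ α ^ 2 ≤
      ∑ σ : Fin (p + c) ↪ ι, if (∀ j, σ (Fin.castAdd c j) = ρ j) ∧
        (∀ j, α (σ (Fin.natAdd p j)) = γ j) then G (put σ β α) else 0 := by
    intro ρ α hα
    have hα' := L.mem_vac.mp hα
    unfold chan
    rw [← Finset.sum_filter, ← Finset.sum_filter]
    have hcard := L.AChan_card_chan ρ γ α
    set S := univ.filter fun σ : Fin (p + c) ↪ ι => (∀ j, σ (Fin.castAdd c j) = ρ j) ∧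
      ∀ j, α (σ (Fin.natAdd p j)) = γ j with hS
    have hcard' : (S.card : ℝ) ≤ (L.npN α : ℝ) ^ L.nno γ * N ^ (c - L.nno γ) := by
      rw [hN]
      exact_mod_cast hcard
    have hcs := sq_sum_le_card_mul_sum_sq (s := S) (f := fun σ => Ψ (put σ β α))
    refine (mul_le_mul_of_nonneg_left hcs (hW α)).trans ?_
    rw [Finset.mul_sum, Finset.mul_sum]
    refine Finset.sum_le_sum fun σ hσ => ?_
    obtain ⟨a1, a2⟩ := (mem_filter.mp hσ).2
    have hWe : W (put σ β α) = W α := by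
      refine hinv.put L σ hβ' fun j => ?_
      refine Fin.addCases (fun j => ?_) (fun j => ?_) j
      · rw [a1, hα']
        exact ho
      · rw [a2]
        exact hγ' j
    have hn : (L.npN α : ℝ) ≤ (L.npN (put σ β α) : ℝ) + c := by
      exact_mod_cast L.AChan_npN_le σ β fun j => by rw [a1, hα']
    have hW0 := hW α
    show W α * (S.card * Ψ (put σ β α) ^ 2) ≤ ((L.npN (put σ β α) : ℝ) + c) ^ L.nno γ *
      N ^ (c - L.nno γ) * (W (put σ β α) * Ψ (put σ β α) ^ 2)
    rw [hWe, mul_left_comm]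
    refine mul_le_mul_of_nonneg_right (hcard'.trans ?_) (mul_nonneg hW0 (sq_nonneg _))
    gcongr
  refine (Finset.sum_le_sum fun ρ _ => Finset.sum_le_sum (h1 ρ)).trans ?_
  rw [L.AChan_reindex γ fun σ α => G (put σ β α),
    Finset.sum_congr rfl fun σ _ => AChan_sum_put σ _ β G, Finset.sum_comm, ex, Finset.mul_sum]
  refine Finset.sum_le_sum fun α _ => ?_
  rw [← Finset.sum_filter, Finset.sum_const, nsmul_eq_mul]
  have h2 : ((univ.filter fun σ : Fin (p + c) ↪ ι => α ∘ σ = β).card : ℝ) ≤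
      (L.npN α : ℝ) ^ L.nno β * N ^ (p + c - L.nno β) := by
    rw [hN]
    exact_mod_cast L.AChan_card_full β α
  have h3 := AChan_num (N := N) (n := L.npN α) (c := c) (Nat.cast_nonneg _) (Nat.cast_nonneg _)
    (by rw [hN]; exact_mod_cast L.npN_le α) (by rw [hN]; exact_mod_cast hc)
    (L.AChan_nno_le γ) (L.AChan_nno_le β) hj
  have e : c + (p + c) = p + 2 * c := by ring
  rw [e] at h3
  have h4 : 0 ≤ W α * Ψ α ^ 2 := mul_nonneg (hW α) (sq_nonneg _)
  calc _ ≤ (L.npN α : ℝ) ^ L.nno β * N ^ (p + c - L.nno β) * G α :=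
        mul_le_mul_of_nonneg_right h2 (hG0 α)
    _ = (L.npN α : ℝ) ^ L.nno β * N ^ (p + c - L.nno β) *
          (((L.npN α : ℝ) + c) ^ L.nno γ * N ^ (c - L.nno γ)) * (W α * Ψ α ^ 2) := by
        rw [hG]
        ring
    _ ≤ 2 ^ (p + 2 * c) * N ^ (p + 2 * c - j) * ((L.npN α : ℝ) + c) ^ j * (W α * Ψ α ^ 2) :=
        mul_le_mul_of_nonneg_right h3 h4
    _ = _ := by ring

theorem chan_oo {p c : ℕ} (ρ : Fin p ↪ ι) (Ψ : (ι → I) → ℝ) {α : ι → I} (hα : α ∈ L.vac ρ) :
    chan ρ (L.oo c) (L.oo (p + c)) Ψ α =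
      ((Fintype.card ι - L.npN α - p).descFactorial c : ℝ) * Ψ α := by
  have hα' := L.mem_vac.mp hα
  rw [← L.AChan_card_oo ρ hα]
  unfold chan
  rw [← Finset.sum_filter, ← nsmul_eq_mul, ← Finset.sum_const]
  refine Finset.sum_congr rfl fun σ hσ => ?_
  obtain ⟨a1, a2⟩ := (mem_filter.mp hσ).2
  have h : L.oo (p + c) = α ∘ σ := by
    funext j
    refine Fin.addCases (fun j => ?_) (fun j => ?_) j
    · rw [Function.comp_apply, a1, hα']
      rfl
    · rw [Function.comp_apply, a2]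
      rfl
  rw [h, put_self]

theorem sum_vac_sq (p : ℕ) (W Ψ : (ι → I) → ℝ) :
    ∑ ρ : Fin p ↪ ι, ∑ α ∈ L.vac ρ, W α * Ψ α ^ 2 =
      ex (fun α => ((Fintype.card ι - L.npN α).descFactorial p : ℝ) * W α) Ψ := by
  unfold ex
  rw [Finset.sum_congr rfl fun ρ _ => AChan_sum_mem (L.vac ρ) _, Finset.sum_comm]
  refine Finset.sum_congr rfl fun α _ => ?_
  rw [← Finset.sum_filter, Finset.sum_const, nsmul_eq_mul, mul_assoc]
  congr 2
  have h := Finset.card_filter_add_card_filter_not (s := (univ : Finset ι))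
    (fun i => α i = L.o)
  rw [Finset.card_univ] at h
  have e : (univ.filter fun i => α i = L.o).card = Fintype.card ι - L.npN α := by
    have e' : L.npN α = (univ.filter fun i => ¬α i = L.o).card := rfl
    omega
  rw [← e, ← card_emb_into]
  congr 1
  ext σ
  simp [mem_vac]

theorem desc_approx (N n p c c' : ℕ) (hn : n ≤ N) :
    |((N - n).descFactorial p : ℝ) * (N - n - p).descFactorial c * (N - n - p).descFactorial c' -
      (N : ℝ) ^ (p + c + c')| ≤
      (p + c + c' : ℕ) * (N : ℝ) ^ (p + c + c' - 1) * (n + (p + c + c' : ℕ)) := by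
  have h1 := AChan_P_desc N (n + (p + c + c')) (N - n) p (by omega) fun i hi => by omega
  have h2 := AChan_P_desc N (n + (p + c + c')) (N - n - p) c (by omega) fun i hi => by omega
  have h3 := AChan_P_desc N (n + (p + c + c')) (N - n - p) c' (by omega) fun i hi => by omega
  obtain ⟨-, a1, a2⟩ := (h1.mul (Nat.cast_nonneg _) (Nat.cast_nonneg _) h2).mul
    (Nat.cast_nonneg _) (Nat.cast_nonneg _) h3
  rw [abs_sub_comm, abs_of_nonneg (sub_nonneg.mpr a1)]
  rwa [Nat.cast_add n] at a2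

theorem chan_diag_oo (p c c' : ℕ) (Ψ : (ι → I) → ℝ) :
    |(∑ ρ : Fin p ↪ ι, ∑ α ∈ L.vac ρ,
        chan ρ (L.oo c) (L.oo (p + c)) Ψ α * chan ρ (L.oo c') (L.oo (p + c')) Ψ α) -
      (Fintype.card ι : ℝ) ^ (p + c + c') * nsq Ψ| ≤
      (p + c + c' : ℕ) * (Fintype.card ι : ℝ) ^ (p + c + c' - 1) *
        ex (fun α => (L.npN α : ℝ) + (p + c + c' : ℕ)) Ψ := by
  have h1 : ∑ ρ : Fin p ↪ ι, ∑ α ∈ L.vac ρ,
      chan ρ (L.oo c) (L.oo (p + c)) Ψ α * chan ρ (L.oo c') (L.oo (p + c')) Ψ α =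
      ∑ ρ : Fin p ↪ ι, ∑ α ∈ L.vac ρ, (((Fintype.card ι - L.npN α - p).descFactorial c : ℝ) *
        (Fintype.card ι - L.npN α - p).descFactorial c') * Ψ α ^ 2 := by
    refine Finset.sum_congr rfl fun ρ _ => Finset.sum_congr rfl fun α hα => ?_
    rw [L.chan_oo ρ Ψ hα, L.chan_oo ρ Ψ hα]
    ring
  rw [h1, L.sum_vac_sq p (fun α => ((Fintype.card ι - L.npN α - p).descFactorial c : ℝ) *
    (Fintype.card ι - L.npN α - p).descFactorial c') Ψ]
  unfold ex nsq
  rw [Finset.mul_sum, Finset.mul_sum, ← Finset.sum_sub_distrib]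
  refine (Finset.abs_sum_le_sum_abs _ _).trans (Finset.sum_le_sum fun α _ => ?_)
  beta_reduce
  rw [← sub_mul, abs_mul, abs_of_nonneg (sq_nonneg (Ψ α)), ← mul_assoc, ← mul_assoc]
  exact mul_le_mul_of_nonneg_right (desc_approx _ _ p c c' (L.npN_le α)) (sq_nonneg _)

/-- the generator of a family as a sum over channels -/
theorem gen_src (p c : ℕ) (F : (Fin (p + c) → I) → (Fin (p + c) → I) → ℝ) (Ψ : (ι → I) → ℝ)
    (ρ : Fin p ↪ ι) (α : ι → I) :
    L.gen (fun ρ α => L.src p c F ρ Ψ α) ρ α =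
      ∑ ν ∈ L.lowF c ×ˢ L.lowF (p + c), (1 / (c.factorial : ℝ)) *
        (L.resK (fun a => F (Fin.append a ν.1) ν.2) (α ∘ ρ) * chan ρ ν.1 ν.2 Ψ α) := by
  unfold gen resK
  by_cases h : L.Hi (α ∘ ρ)
  · simp only [if_pos h]
    unfold src
    rw [Finset.sum_product, Finset.mul_sum, Finset.sum_div]
    refine Finset.sum_congr rfl fun γ _ => ?_
    rw [Finset.mul_sum, Finset.sum_div]
    refine Finset.sum_congr rfl fun β _ => ?_
    simp only [Function.comp_apply]
    ring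
  · simp [if_neg h]

theorem gen_add (S S' : (κ ↪ ι) → (ι → I) → ℝ) (ρ : κ ↪ ι) (α : ι → I) :
    L.gen (fun ρ α => S ρ α + S' ρ α) ρ α = L.gen S ρ α + L.gen S' ρ α := by
  unfold gen
  split_ifs
  · rw [add_div]
  · rw [add_zero]

/-- invariance of the source under reordering of the created legs -/
theorem src_perm (p c : ℕ) {F : (Fin (p + c) → I) → (Fin (p + c) → I) → ℝ}
    (hF : ∀ (π : Equiv.Perm (Fin (p + c))) α β, F (α ∘ π) (β ∘ π) = F α β) (Ψ : (ι → I) → ℝ)
    (π : Equiv.Perm (Fin p)) (ρ : Fin p ↪ ι) (α : ι → I) :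
    L.src p c F (π.toEmbedding.trans ρ) Ψ α = L.src p c F ρ Ψ α := by
  unfold src
  congr 1
  refine Finset.sum_congr rfl fun γ _ => ?_
  symm
  refine Finset.sum_nbij' (fun β => β ∘ AChan_ext c π) (fun β => β ∘ (AChan_ext c π).symm)
    ?_ ?_ ?_ ?_ ?_
  · intro β hβ
    exact Fintype.mem_piFinset.mpr fun j => Fintype.mem_piFinset.mp hβ _
  · intro β hβ
    exact Fintype.mem_piFinset.mpr fun j => Fintype.mem_piFinset.mp hβ _
  · intro β _
    funext j
    simp
  · intro β _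
    funext j
    simp
  · intro β _
    have h : Fin.append (α ∘ (π.toEmbedding.trans ρ)) γ
        = Fin.append (α ∘ ρ) γ ∘ AChan_ext c π := by
      funext j
      refine Fin.addCases (fun j => ?_) (fun j => ?_) j
      · rw [Function.comp_apply, AChan_ext_left, Fin.append_left, Fin.append_left]
        rfl
      · rw [Function.comp_apply, AChan_ext_right, Fin.append_right, Fin.append_right]
    show _ = F (Fin.append (α ∘ (π.toEmbedding.trans ρ)) γ) (β ∘ AChan_ext c π) *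
      chan (π.toEmbedding.trans ρ) γ (β ∘ AChan_ext c π) Ψ α
    rw [h, hF, AChan_chan_perm]

/-- the source commutes with functions of the number of high legs -/
theorem src_weight (ho : L.o ∈ L.low) (p c : ℕ) (F : (Fin (p + c) → I) → (Fin (p + c) → I) → ℝ)
    (Ψ : (ι → I) → ℝ) (f : ℕ → ℝ) (ρ : Fin p ↪ ι) {α : ι → I} (h : L.Hi (α ∘ ρ)) :
    f (L.nhN α) * L.src p c F ρ Ψ α =
      L.src p c F ρ (fun α' => f (L.nhN α' + p) * Ψ α') α := by
  unfold src
  rw [mul_left_comm, Finset.mul_sum]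
  congr 1
  refine Finset.sum_congr rfl fun γ hγ => ?_
  rw [Finset.mul_sum]
  refine Finset.sum_congr rfl fun β hβ => ?_
  have hγ' : ∀ j, γ j ∈ L.low := Fintype.mem_piFinset.mp hγ
  have hβ' : ∀ j, β j ∈ L.low := Fintype.mem_piFinset.mp hβ
  rw [mul_left_comm]
  congr 1
  unfold chan
  rw [Finset.mul_sum]
  refine Finset.sum_congr rfl fun σ _ => ?_
  split_ifs with hσ
  · obtain ⟨a1, a2⟩ := hσ
    have h1 := L.nhN_put_hi ho ρ h (β := L.oo p) fun _ => ho
    have h2 : f (L.nhN (put σ β (put ρ (L.oo p) α)) + p) = f (L.nhN (put ρ (L.oo p) α) + p) := by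
      refine (L.lowInv_nhN fun n => f (n + p)).put L σ hβ' fun j => ?_
      refine Fin.addCases (fun j => ?_) (fun j => ?_) j
      · rw [a1, put_apply]
        exact ho
      · rw [put_apply_not _ _ _ (AChan_not_range a1 j), a2]
        exact hγ' j
    rw [AChan_put_put a1, ← h1] at h2
    show _ = f (L.nhN (put σ β α) + p) * Ψ (put σ β α)
    rw [h2]
  · rw [mul_zero]

theorem card_lowF (n : ℕ) : (L.lowF n).card = L.low.card ^ n := by
  unfold lowF
  rw [Fintype.card_piFinset, Finset.prod_const, Finset.card_univ, Fintype.card_fin]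

theorem oo_mem_lowF (ho : L.o ∈ L.low) (n : ℕ) : L.oo n ∈ L.lowF n :=
  Fintype.mem_piFinset.mpr fun _ => ho

end Lv

end Pool.Agent.Lib.MP_8fe63c_mp
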