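import Pool.Agent.Lib.MP_8fe63c_mp.ALin4

/-!
The linear terms with no high output leg, and with one high output leg.

Sketch. `LinF 0 3 F3 = T3 (2 F3 β' β)` exactly. `LinF 0 4 F4t = (1/12) ∑ γ low, F4 γ ∑ σ ∑ (α ∘ σ = γ) Ψ α Ψ (put σ o α)`;
`γ = o` is the main term, for `γ ≠ o` use `|F4 γ| ≤ √C s^(-7)` (`l1d`) and Cauchy-Schwarz.
One high leg. `LinF 1 3`: Cauchy-Schwarz, `l1d` and `chan_count` with `j = 0`: at most `C √(k n)`.
`LinF 1 2 F3 = ∑ ρ ∑ α high Ψ α ∑ (γ, β) F3 (α ρ, γ) β chan`. Channels with at least two slots outside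
`o`: `l1c` and `chan_count` with `j = 2`, at most `C √k √(η^4 (X + 2 n))`. The channel with all slots `o`:
`chan_oo`, `l1a`, compare with the part of `2 ob wHL` with input `o` (`w_op` bounds the vector
`w · o`). The part of `ob wHL` with input in `low \ o` is at most `C₀ √(k l)`. Exactly one input slot
outside `o`: for each fixed tuple use `l1b`, total `C₀ √(k l)`. Exactly one output slot outside `o`
(use `F3_symm` for the position): write the term as `∑ i ⟨q_i Ψ, ∑ j K (α i, α j) Y i j⟩` with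
`Y i j α = (number of free o legs) Ψ (α with i, j → o)`; expand the square of `∑ j`: the diagonal is bounded by
`l1c` (at most `C n` after summing over `i`), the terms `j ≠ j'` by exchanging the legs (`two_term` or
directly) and `l1b'` (at most `C₀^2 l`).
-/

set_option linter.unusedSectionVars false

open Finset
open scoped InnerProductSpace

namespace Pool.Agent.Lib.MP_8fe63c_mp

variable {I ι κ κ' E : Type} [Fintype I] [DecidableEq I] [Fintype ι] [DecidableEq ι]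
  [Fintype κ] [DecidableEq κ] [Fintype κ'] [DecidableEq κ']
  [NormedAddCommGroup E] [InnerProductSpace ℝ E]


theorem Lin0_est (C : ℝ) : ∃ K : ℝ, 0 ≤ K ∧ ∀ {I ι E : Type} [Fintype I] [DecidableEq I] [Fintype ι] [DecidableEq ι]
      [NormedAddCommGroup E] [InnerProductSpace ℝ E] (D : Dat I E)
      (γ Λ C₀ η : ℝ) (Ψ : (ι → I) → ℝ), D.Base γ Λ C₀ C →
      D.Norms √(Fintype.card ι : ℝ) Λ C₀ C → D.Ctx η Ψ →
      |D.Lin0 Ψ - (D.T3 (fun β β' => 2 * D.F3 β' β) Ψ +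
        (Fintype.card ι : ℝ) ^ 4 * ((1 / 12) * D.F4 (D.oo 4)) * nsq Ψ)| ≤ D.Er K η Ψ := by
  refine ⟨64 * C ^ 6, by positivity, fun D γ Λ C₀ η Ψ hB hN hc => ?_⟩
  by_cases h0 : Ψ = 0
  · subst h0
    simp [Dat.Lin0, Lv.LinF, Lv.T3, nsq, Lv.Er, Lv.xx, Lv.kk, Lv.ll, Lv.zz, ex]
  rw [Dat.Lin0, ALin_lin03, add_sub_add_left_eq_sub]
  exact ALin_lin04 hB hN hc h0

theorem Lin1_est (C : ℝ) : ∃ K : ℝ, 0 ≤ K ∧ ∀ {I ι E : Type} [Fintype I] [DecidableEq I] [Fintype ι] [DecidableEq ι]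
      [NormedAddCommGroup E] [InnerProductSpace ℝ E] (D : Dat I E)
      (γ Λ C₀ η : ℝ) (Ψ : (ι → I) → ℝ), D.Base γ Λ C₀ C →
      D.Norms √(Fintype.card ι : ℝ) Λ C₀ C → D.Ctx η Ψ →
      |D.Lin1 Ψ - 2 * ob (D.wHL D.w) Ψ| ≤ 16 * C₀ * √(D.kk Ψ * D.ll Ψ) + D.Er K η Ψ := by
  refine ⟨35 * C ^ 6, by positivity, fun {I ι E} _ _ _ _ _ _ D γ Λ C₀ η Ψ hB hN hc => ?_⟩
  by_cases h0 : Ψ = 0
  · subst h0
    simp [Dat.Lin1, Lv.LinF, ob, nsq, Lv.Er, Lv.xx, Lv.kk, Lv.ll, Lv.zz, ex]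
  have hl := hB.lam_nonneg
  have hC0 := hB.C₀_ge
  have hC : 1 ≤ C := hC0.trans hB.C₀_le
  have h8 := hc.eight_le.1
  have hkl := mul_nonneg (Lv.kk_nonneg (L := D.toLv) (Ψ := Ψ)) (Lv.ll_nonneg (L := D.toLv) (Ψ := Ψ))
  have hs : √(Fintype.card ι : ℝ) ^ 8 = (Fintype.card ι : ℝ) ^ 4 := ALin_pow _ 4
  have eo : ∀ a, Fin.append ![a] (D.oo 2) = ![a, D.o, D.o] := fun a => by
    ext j; fin_cases j <;> rfl
  have h1 := ALin_lin13 hB hN hc h0
  have h2 := ALin_iv hB hN hc h0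
  have h3 := ALin_i hB hN hc h0
  have h4 := ALin_out hB hN hc
  have h5 := ALin_sqrt (by linarith) hkl (ALin_ob D.toLv hB.o_low Ψ (sq_nonneg C₀) hB.w_op)
  have h6 : ∀ t : Fin 3, |∑ d ∈ D.low.erase D.o, ALin_Tm D.toLv Ψ
      (fun a => D.F3 ![a, D.o, D.o] (Function.update (D.oo 3) t d))
      fun ρ => chan (c := 2) ρ (D.oo 2) (Function.update (D.oo 3) t d) Ψ| ≤
      C₀ * √(D.kk Ψ * D.ll Ψ) := by
    intro t
    refine ALin_sqrt (by linarith) hkl ((ALin_ii D.toLv Ψ t (by positivity) (hN.l1b t)).trans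
      (le_of_eq ?_))
    rw [hs]; field_simp
  have e := ALin_split D.toLv hB.o_low fun (γ : Fin 2 → I) (β : Fin 3 → I) =>
    ALin_Tm D.toLv Ψ (fun a => D.F3 (Fin.append ![a] γ) β) fun ρ => chan (c := 2) ρ γ β Ψ
  have e' : D.LinF 1 2 D.F3 Ψ = ∑ γ ∈ D.lowF 2, ∑ β ∈ D.lowF 3,
      ALin_Tm D.toLv Ψ (fun a => D.F3 (Fin.append ![a] γ) β) fun ρ => chan (c := 2) ρ γ β Ψ := by
    rw [ALin_LinF1]; norm_num [Nat.factorial]
  rw [Fin.sum_univ_three, Fin.sum_univ_two] at e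
  simp only [eo] at e
  rw [Dat.Lin1, e', e]
  have hE := Lv.Er_nonneg (Ψ := Ψ) hl zero_le_one hc.pos.le
  have hE' : ∀ K, D.Er K η Ψ = K * D.Er 1 η Ψ := fun K => by unfold Lv.Er; ring
  have h40 := h4 0
  have h41 := h4 1
  rw [hE'] at h1 h2 h3 h40 h41 ⊢
  have g1 := mul_le_mul_of_nonneg_right (le_self_pow₀ hC (show 6 ≠ 0 by norm_num)) hE
  have g2 := mul_le_mul_of_nonneg_right (pow_le_pow_right₀ hC (show 4 ≤ 6 by norm_num)) hE
  have g3 : 0 ≤ C₀ * √(D.kk Ψ * D.ll Ψ) := by positivity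
  have h60 := abs_le.mp (h6 0)
  have h61 := abs_le.mp (h6 1)
  have h62 := abs_le.mp (h6 2)
  rw [abs_le] at h1 h2 h3 h40 h41 h5 ⊢
  constructor <;> linarith [h1.1, h1.2, h2.1, h2.2, h3.1, h3.2, h40.1, h40.2, h41.1, h41.2, h5.1,
    h5.2, h60.1, h60.2, h61.1, h61.2, h62.1, h62.2]

end Pool.Agent.Lib.MP_8fe63c_mp
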