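import Pool.Agent.Lib.MP_8fe63c_mp.AErr

/-!
Diagonal part of the kinetic quadratic term.

Sketch. Expand with `gen_add`, `gen_src`, `diag_eq`. For channels `ν, ν'` of families with the same
number `p` of created legs the term is `Γ(ν,ν') ∑ ρ ∑ vac chan ν chan ν'`, with
`Γ(ν,ν') = ∑ β (∑ j ϖ (β j)) T_ν β T_ν' β`, and `|Γ| ≤ √(p x₀) √(p x₀')` by `FamB.hs` (take `θ = 1`);
for `ϖ = lam`, `(∑ lam) resK F * resK F' = resK F * F'`. Sizes: with the counts `N^(p+2c)` the families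
A, B, C, D, E give `C N`, `C s`, `C s`, `C`, `C/s`. Main terms: A×A is `T3 GA` exactly
(`chan_zero`), A×D, B×B, C×C with all slots `o` by `chan_diag_oo`; if one channel has a slot outside `o`
use `chan_count` with `j = 1` for it: at most `C s √(n (X + 2 n)/N)`. D×D, B×E, E×E are at most `C n`.
-/

set_option linter.unusedSectionVars false

open Finset
open scoped InnerProductSpace

namespace Pool.Agent.Lib.MP_8fe63c_mp

variable {I ι κ κ' E : Type} [Fintype I] [DecidableEq I] [Fintype ι] [DecidableEq ι]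
  [Fintype κ] [DecidableEq κ] [Fintype κ'] [DecidableEq κ']
  [NormedAddCommGroup E] [InnerProductSpace ℝ E]


/-- kernel of a channel -/
noncomputable def AQKd_T (L : Lv I) (p c : ℕ) (F : (Fin (p + c) → I) → (Fin (p + c) → I) → ℝ)
    (ν : (Fin c → I) × (Fin (p + c) → I)) : (Fin p → I) → ℝ :=
  L.resK fun a => F (Fin.append a ν.1) ν.2

/-- weighted pairing of kernels -/
def AQKd_G (ϖ : I → ℝ) {p : ℕ} (T T' : (Fin p → I) → ℝ) : ℝ :=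
  ∑ β, (∑ j, ϖ (β j)) * T β * T' β

/-- pairing of spectator sums -/
noncomputable def AQKd_Ch (L : Lv I) {p c c' : ℕ} (ν : (Fin c → I) × (Fin (p + c) → I))
    (ν' : (Fin c' → I) × (Fin (p + c') → I)) (Ψ : (ι → I) → ℝ) : ℝ :=
  ∑ ρ : Fin p ↪ ι, ∑ α ∈ L.vac ρ, chan ρ ν.1 ν.2 Ψ α * chan ρ ν'.1 ν'.2 Ψ α

/-- pairing of two families -/
noncomputable def AQKd_P (L : Lv I) (ϖ : I → ℝ) (p c c' : ℕ)
    (F : (Fin (p + c) → I) → (Fin (p + c) → I) → ℝ)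
    (F' : (Fin (p + c') → I) → (Fin (p + c') → I) → ℝ) (Ψ : (ι → I) → ℝ) : ℝ :=
  ∑ ρ : Fin p ↪ ι, ∑ α, (∑ j, ϖ (α (ρ j))) * L.gen (fun ρ α => L.src p c F ρ Ψ α) ρ α *
    L.gen (fun ρ α => L.src p c' F' ρ Ψ α) ρ α

theorem AQKd_P_eq (L : Lv I) (ϖ : I → ℝ) (p c c' : ℕ)
    (F : (Fin (p + c) → I) → (Fin (p + c) → I) → ℝ)
    (F' : (Fin (p + c') → I) → (Fin (p + c') → I) → ℝ) (Ψ : (ι → I) → ℝ) :
    AQKd_P L ϖ p c c' F F' Ψ =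
      ∑ ν ∈ (L.lowF c ×ˢ L.lowF (p + c)) ×ˢ (L.lowF c' ×ˢ L.lowF (p + c')),
        (1 / (c.factorial : ℝ)) * (1 / (c'.factorial : ℝ)) *
          (AQKd_G ϖ (AQKd_T L p c F ν.1) (AQKd_T L p c' F' ν.2) * AQKd_Ch L ν.1 ν.2 Ψ) := by
  have h1 : ∀ (ρ : Fin p ↪ ι) (α : ι → I),
      (∑ j, ϖ (α (ρ j))) * L.gen (fun ρ α => L.src p c F ρ Ψ α) ρ α *
        L.gen (fun ρ α => L.src p c' F' ρ Ψ α) ρ α =
      ∑ ν ∈ (L.lowF c ×ˢ L.lowF (p + c)) ×ˢ (L.lowF c' ×ˢ L.lowF (p + c')),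
        (1 / (c.factorial : ℝ)) * (1 / (c'.factorial : ℝ)) *
          ((∑ j, ϖ ((α ∘ ρ) j)) * AQKd_T L p c F ν.1 (α ∘ ρ) * chan ρ ν.1.1 ν.1.2 Ψ α *
            (AQKd_T L p c' F' ν.2 (α ∘ ρ) * chan ρ ν.2.1 ν.2.2 Ψ α)) := by
    intro ρ α
    rw [L.gen_src, L.gen_src, mul_assoc, sum_mul_sum, mul_sum,
      sum_product (L.lowF c ×ˢ L.lowF (p + c))]
    refine sum_congr rfl fun ν _ => ?_
    rw [mul_sum]
    refine sum_congr rfl fun ν' _ => ?_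
    simp only [AQKd_T, Function.comp_apply]
    ring
  unfold AQKd_P
  simp_rw [h1]
  rw [← sum_product', sum_comm]
  refine sum_congr rfl fun ν _ => ?_
  rw [← mul_sum, sum_product]
  congr 1
  exact L.diag_eq (fun β => (∑ j, ϖ (β j)) * AQKd_T L p c F ν.1 β) (AQKd_T L p c' F' ν.2)
    (chan_indep ν.1.1 ν.1.2 Ψ) (chan_indep ν.2.1 ν.2.2 Ψ)

theorem AQKd_G_abs {ϖ : I → ℝ} (hϖ : ∀ a, 0 ≤ ϖ a) {p : ℕ} {T T' : (Fin p → I) → ℝ} {a a' g : ℝ}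
    (ha : AQKd_G ϖ T T ≤ a) (ha' : AQKd_G ϖ T' T' ≤ a') (hg : 0 ≤ g) (h : a * a' ≤ g ^ 2) :
    |AQKd_G ϖ T T'| ≤ g := by
  have hw : ∀ β : Fin p → I, 0 ≤ ∑ j, ϖ (β j) := fun β => sum_nonneg fun j _ => hϖ _
  have h0 : ∀ T : (Fin p → I) → ℝ, ∀ β, 0 ≤ (∑ j, ϖ (β j)) * T β * T β := fun T β => by
    rw [mul_assoc]
    exact mul_nonneg (hw β) (mul_self_nonneg _)
  have h1 : AQKd_G ϖ T T' ^ 2 ≤ AQKd_G ϖ T T * AQKd_G ϖ T' T' :=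
    sum_sq_le_sum_mul_sum_of_sq_le_mul univ (fun β _ => h0 T β) (fun β _ => h0 T' β)
      fun β _ => le_of_eq (by ring)
  have h2 : 0 ≤ AQKd_G ϖ T T := sum_nonneg fun β _ => h0 T β
  have h3 : 0 ≤ AQKd_G ϖ T' T' := sum_nonneg fun β _ => h0 T' β
  exact abs_le_of_sq_le_sq (h1.trans ((mul_le_mul ha ha' h3 (h2.trans ha)).trans h)) hg

theorem AQKd_Ch_abs (L : Lv I) {p c c' : ℕ} (ν : (Fin c → I) × (Fin (p + c) → I))
    (ν' : (Fin c' → I) × (Fin (p + c') → I)) (Ψ : (ι → I) → ℝ) {b b' g : ℝ}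
    (hb : AQKd_Ch L ν ν Ψ ≤ b) (hb' : AQKd_Ch L ν' ν' Ψ ≤ b') (hg : 0 ≤ g) (h : b * b' ≤ g ^ 2) :
    |AQKd_Ch L ν ν' Ψ| ≤ g := by
  have h1 : AQKd_Ch L ν ν' Ψ ^ 2 ≤ AQKd_Ch L ν ν Ψ * AQKd_Ch L ν' ν' Ψ := by
    unfold AQKd_Ch
    rw [sum_sigma', sum_sigma', sum_sigma']
    exact sum_sq_le_sum_mul_sum_of_sq_le_mul _ (fun _ _ => mul_self_nonneg _)
      (fun _ _ => mul_self_nonneg _) fun _ _ => le_of_eq (by ring)
  have h2 : 0 ≤ AQKd_Ch L ν ν Ψ := sum_nonneg fun _ _ => sum_nonneg fun _ _ => mul_self_nonneg _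
  have h3 : 0 ≤ AQKd_Ch L ν' ν' Ψ := sum_nonneg fun _ _ => sum_nonneg fun _ _ => mul_self_nonneg _
  exact abs_le_of_sq_le_sq (h1.trans ((mul_le_mul hb hb' h3 (h2.trans hb)).trans h)) hg

theorem AQKd_Ch_le (L : Lv I) (ho : L.o ∈ L.low) {p c j : ℕ}
    {ν : (Fin c → I) × (Fin (p + c) → I)} (hν : ν ∈ L.lowF c ×ˢ L.lowF (p + c))
    (hj : j ≤ L.nno ν.1 + L.nno ν.2) (hc : c ≤ Fintype.card ι) (Ψ : (ι → I) → ℝ) :
    AQKd_Ch L ν ν Ψ ≤ 2 ^ (p + 2 * c) * (Fintype.card ι : ℝ) ^ (p + 2 * c - j) *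
      ex (fun α => ((L.npN α : ℝ) + c) ^ j) Ψ := by
  have h := L.chan_count ho (mem_product.1 hν).1 (mem_product.1 hν).2 hj hc (W := fun _ => 1)
    (fun _ => zero_le_one) (fun _ _ _ _ _ => rfl) Ψ
  simp only [one_mul, mul_one, sq] at h
  exact h

theorem AQKd_Ch_le0 (L : Lv I) (ho : L.o ∈ L.low) {p c : ℕ}
    {ν : (Fin c → I) × (Fin (p + c) → I)} (hν : ν ∈ L.lowF c ×ˢ L.lowF (p + c))
    (hc : c ≤ Fintype.card ι) (Ψ : (ι → I) → ℝ) :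
    AQKd_Ch L ν ν Ψ ≤ 2 ^ (p + 2 * c) * (Fintype.card ι : ℝ) ^ (p + 2 * c) * nsq Ψ := by
  have h := AQKd_Ch_le L ho hν (Nat.zero_le _) hc Ψ
  simpa [ex, nsq] using h

theorem AQKd_nno (L : Lv I) {n : ℕ} {γ : Fin n → I} (h : γ ≠ L.oo n) : 1 ≤ L.nno γ := by
  obtain ⟨j, hj⟩ := Function.ne_iff.1 h
  exact card_pos.2 ⟨j, mem_filter.2 ⟨mem_univ _, hj⟩⟩

theorem AQKd_Ch_le1 (L : Lv I) (ho : L.o ∈ L.low) (hl : ∀ a, 0 ≤ L.lam a) {p c : ℕ}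
    {ν : (Fin c → I) × (Fin (p + c) → I)} (hν : ν ∈ L.lowF c ×ˢ L.lowF (p + c))
    (hne : ν ≠ (L.oo c, L.oo (p + c))) (hp : 1 ≤ p) (hc : c ≤ Fintype.card ι) (hc2 : c ≤ 4)
    (Ψ : (ι → I) → ℝ) :
    AQKd_Ch L ν ν Ψ * Fintype.card ι ≤
      2 ^ (p + 2 * c) * (Fintype.card ι : ℝ) ^ (p + 2 * c) * (L.xx Ψ + 4 * nsq Ψ) := by
  have hj : 1 ≤ L.nno ν.1 + L.nno ν.2 := by
    by_cases h1 : ν.1 = L.oo c
    · have h2 : ν.2 ≠ L.oo (p + c) := fun h2 => hne (Prod.ext h1 h2)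
      have := AQKd_nno L h2
      omega
    · have := AQKd_nno L h1
      omega
  have h := AQKd_Ch_le L ho hν hj hc Ψ
  simp only [pow_one] at h
  have h2 := Lv.ex_np_le (Ψ := Ψ) ho hl (c : ℝ)
  have h3 : (c : ℝ) * nsq Ψ ≤ 4 * nsq Ψ :=
    mul_le_mul_of_nonneg_right (by exact_mod_cast hc2) (nsq_nonneg Ψ)
  have h4 : (Fintype.card ι : ℝ) ^ (p + 2 * c) =
      (Fintype.card ι : ℝ) ^ (p + 2 * c - 1) * Fintype.card ι := by
    rw [← pow_succ]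
    congr 1
    omega
  have h5 : AQKd_Ch L ν ν Ψ ≤ 2 ^ (p + 2 * c) * (Fintype.card ι : ℝ) ^ (p + 2 * c - 1) *
      (L.xx Ψ + 4 * nsq Ψ) :=
    h.trans (mul_le_mul_of_nonneg_left (by linarith) (by positivity))
  rw [h4]
  calc AQKd_Ch L ν ν Ψ * Fintype.card ι ≤ (2 ^ (p + 2 * c) *
        (Fintype.card ι : ℝ) ^ (p + 2 * c - 1) * (L.xx Ψ + 4 * nsq Ψ)) * Fintype.card ι :=
        mul_le_mul_of_nonneg_right h5 (by positivity)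
    _ = _ := by ring

theorem AQKd_card (L : Lv I) {C : ℝ} (hC : (L.low.card : ℝ) ≤ C) (h1 : 1 ≤ C) {p c c' : ℕ}
    (hm : p + c + c' ≤ 6) :
    (((L.lowF c ×ˢ L.lowF (p + c)) ×ˢ (L.lowF c' ×ˢ L.lowF (p + c'))).card : ℝ) ≤ C ^ 12 := by
  rw [card_product, card_product, card_product, L.card_lowF, L.card_lowF, L.card_lowF, L.card_lowF,
    ← pow_add, ← pow_add, ← pow_add]
  push_cast
  exact (pow_le_pow_left₀ (by positivity) hC _).trans (pow_le_pow_right₀ h1 (by omega))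

theorem AQKd_fac (c c' : ℕ) : 0 ≤ (1 / (c.factorial : ℝ)) * (1 / (c'.factorial : ℝ)) ∧
    (1 / (c.factorial : ℝ)) * (1 / (c'.factorial : ℝ)) ≤ 1 := by
  have h : ∀ c : ℕ, (1 / (c.factorial : ℝ)) ≤ 1 := fun c =>
    (div_le_one (by positivity)).2 (by exact_mod_cast c.factorial_pos)
  exact ⟨by positivity, mul_le_one₀ (h c) (by positivity) (h c')⟩

theorem AQKd_term {c c' : ℕ} {x y g h : ℝ} (hx : |x| ≤ g) (hy : |y| ≤ h) :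
    |(1 / (c.factorial : ℝ)) * (1 / (c'.factorial : ℝ)) * (x * y)| ≤ g * h := by
  rw [abs_mul, abs_mul x, abs_of_nonneg (AQKd_fac c c').1]
  have h1 : |x| * |y| ≤ g * h := mul_le_mul hx hy (abs_nonneg _) ((abs_nonneg _).trans hx)
  exact (mul_le_of_le_one_left (by positivity) (AQKd_fac c c').2).trans h1

/-- crude bound for a pair of families -/
theorem AQKd_crude (L : Lv I) (ho : L.o ∈ L.low) {C : ℝ} (hC : (L.low.card : ℝ) ≤ C) (h1 : 1 ≤ C)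
    {ϖ : I → ℝ} (hϖ : ∀ a, 0 ≤ ϖ a) {p c c' : ℕ} (hm : p + c + c' ≤ 6)
    (hc : c ≤ Fintype.card ι) (hc' : c' ≤ Fintype.card ι)
    {F : (Fin (p + c) → I) → (Fin (p + c) → I) → ℝ}
    {F' : (Fin (p + c') → I) → (Fin (p + c') → I) → ℝ} {a a' g K : ℝ}
    (ha : ∀ ν ∈ L.lowF c ×ˢ L.lowF (p + c), AQKd_G ϖ (AQKd_T L p c F ν) (AQKd_T L p c F ν) ≤ a)
    (ha' : ∀ ν ∈ L.lowF c' ×ˢ L.lowF (p + c'),
      AQKd_G ϖ (AQKd_T L p c' F' ν) (AQKd_T L p c' F' ν) ≤ a')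
    (hg : 0 ≤ g) (h : a * a' ≤ g ^ 2) (hK : g * (Fintype.card ι : ℝ) ^ (p + c + c') ≤ K)
    (Ψ : (ι → I) → ℝ) :
    |AQKd_P L ϖ p c c' F F' Ψ| ≤ C ^ 12 * 64 * K * nsq Ψ := by
  have hn := nsq_nonneg Ψ
  have hK0 : 0 ≤ K := le_trans (by positivity) hK
  rw [AQKd_P_eq]
  refine (abs_sum_le_sum_abs _ _).trans ((sum_le_card_nsmul _ _ (64 * K * nsq Ψ) ?_).trans ?_)
  · intro ν hν
    obtain ⟨h2, h3⟩ := mem_product.1 hν
    refine (AQKd_term (AQKd_G_abs hϖ (ha _ h2) (ha' _ h3) hg h)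
      (AQKd_Ch_abs L ν.1 ν.2 Ψ (AQKd_Ch_le0 L ho h2 hc Ψ) (AQKd_Ch_le0 L ho h3 hc' Ψ)
        (g := 2 ^ (p + c + c') * (Fintype.card ι : ℝ) ^ (p + c + c') * nsq Ψ) (by positivity)
        (le_of_eq (by ring)))).trans ?_
    have h4 : (2 : ℝ) ^ (p + c + c') ≤ 2 ^ 6 := pow_le_pow_right₀ one_le_two hm
    calc g * (2 ^ (p + c + c') * (Fintype.card ι : ℝ) ^ (p + c + c') * nsq Ψ)
        = 2 ^ (p + c + c') * (g * (Fintype.card ι : ℝ) ^ (p + c + c')) * nsq Ψ := by ring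
      _ ≤ 2 ^ 6 * K * nsq Ψ := by gcongr
      _ = _ := by norm_num
  · rw [nsmul_eq_mul]
    calc _ ≤ C ^ 12 * (64 * K * nsq Ψ) :=
          mul_le_mul_of_nonneg_right (AQKd_card L hC h1 hm) (by positivity)
      _ = _ := by ring

theorem AQKd_sqrt {n X : ℝ} (hn : 0 ≤ n) (hX : 0 ≤ X) :
    n * (X + 4 * n) ≤ (√(n * X) + 2 * n) ^ 2 := by
  have h1 := Real.sq_sqrt (mul_nonneg hn hX)
  have h2 := Real.sqrt_nonneg (n * X)
  nlinarith [mul_nonneg h2 hn]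

/-- extraction of the main term of a pair of families -/
theorem AQKd_main (L : Lv I) (ho : L.o ∈ L.low) (hl : ∀ a, 0 ≤ L.lam a) {C : ℝ}
    (hC : (L.low.card : ℝ) ≤ C) (h1 : 1 ≤ C) {p c c' : ℕ} (hp : 1 ≤ p) (hm : p + c + c' ≤ 5)
    (hc : c ≤ Fintype.card ι) (hc' : c' ≤ Fintype.card ι)
    {F : (Fin (p + c) → I) → (Fin (p + c) → I) → ℝ}
    {F' : (Fin (p + c') → I) → (Fin (p + c') → I) → ℝ} {a a' g K η : ℝ}
    (ha : ∀ ν ∈ L.lowF c ×ˢ L.lowF (p + c),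
      AQKd_G L.lam (AQKd_T L p c F ν) (AQKd_T L p c F ν) ≤ a)
    (ha' : ∀ ν ∈ L.lowF c' ×ˢ L.lowF (p + c'),
      AQKd_G L.lam (AQKd_T L p c' F' ν) (AQKd_T L p c' F' ν) ≤ a')
    (hg : 0 ≤ g) (h : a * a' ≤ g ^ 2)
    (hK : g * (Fintype.card ι : ℝ) ^ (p + c + c') ≤ K * √(Fintype.card ι : ℝ))
    {Ψ : (ι → I) → ℝ} (hx : L.Ctx η Ψ) :
    |AQKd_P L L.lam p c c' F F' Ψ - (1 / (c.factorial : ℝ)) * (1 / (c'.factorial : ℝ)) *
      (AQKd_G L.lam (AQKd_T L p c F (L.oo c, L.oo (p + c)))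
        (AQKd_T L p c' F' (L.oo c', L.oo (p + c'))) *
        ((Fintype.card ι : ℝ) ^ (p + c + c') * nsq Ψ))| ≤ L.Er (C ^ 12 * 100 * K) η Ψ := by
  classical
  have hn := nsq_nonneg Ψ
  have hX : 0 ≤ L.xx Ψ := Lv.xx_nonneg hl
  have hN : (1 : ℝ) ≤ Fintype.card ι := hx.eight_le.1
  obtain ⟨s, hs⟩ : ∃ s, s = √(Fintype.card ι : ℝ) := ⟨_, rfl⟩
  have hs1 : 1 ≤ s := by
    rw [hs]
    exact Real.one_le_sqrt.2 hN
  have hss : (Fintype.card ι : ℝ) = s * s := by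
    rw [hs]
    exact (Real.mul_self_sqrt (by positivity)).symm
  have hη := hx.pos
  have hηs : 1 ≤ η * s := by
    have h2 := hx.big
    rw [← hs] at h2
    refine h2.trans (mul_le_mul_of_nonneg_right ?_ (by linarith))
    exact pow_le_of_le_one hη.le hx.le_one (by norm_num)
  rw [← hs] at hK
  have hK0 : 0 ≤ K := by
    have : 0 ≤ K * s := le_trans (by positivity) hK
    exact nonneg_of_mul_nonneg_left this (by linarith)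
  have hR : 0 ≤ √(nsq Ψ * L.xx Ψ) := Real.sqrt_nonneg _
  have hC12 : 1 ≤ C ^ 12 := one_le_pow₀ h1
  have hm1 : (L.oo c, L.oo (p + c)) ∈ L.lowF c ×ˢ L.lowF (p + c) :=
    mem_product.2 ⟨L.oo_mem_lowF ho _, L.oo_mem_lowF ho _⟩
  have hm2 : (L.oo c', L.oo (p + c')) ∈ L.lowF c' ×ˢ L.lowF (p + c') :=
    mem_product.2 ⟨L.oo_mem_lowF ho _, L.oo_mem_lowF ho _⟩
  rw [AQKd_P_eq, ← add_sum_erase _ _ (mem_product.2 ⟨hm1, hm2⟩ :
    ((L.oo c, L.oo (p + c)), (L.oo c', L.oo (p + c'))) ∈ _), add_sub_right_comm, ← mul_sub,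
    ← mul_sub]
  refine (abs_add_le _ _).trans ?_
  have hA : |(1 / (c.factorial : ℝ)) * (1 / (c'.factorial : ℝ)) *
      (AQKd_G L.lam (AQKd_T L p c F (L.oo c, L.oo (p + c)))
        (AQKd_T L p c' F' (L.oo c', L.oo (p + c'))) *
        (AQKd_Ch L (L.oo c, L.oo (p + c)) (L.oo c', L.oo (p + c')) Ψ -
          (Fintype.card ι : ℝ) ^ (p + c + c') * nsq Ψ))| ≤ 25 * K * (η * L.xx Ψ + nsq Ψ) := by
    refine (AQKd_term (AQKd_G_abs hl (ha _ hm1) (ha' _ hm2) hg h)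
      (L.chan_diag_oo p c c' Ψ)).trans ?_
    have h2 := Lv.ex_np_le (Ψ := Ψ) ho hl ((p + c + c' : ℕ) : ℝ)
    have h3 : ((p + c + c' : ℕ) : ℝ) ≤ 5 := by exact_mod_cast hm
    have h4 : (Fintype.card ι : ℝ) ^ (p + c + c') =
        (Fintype.card ι : ℝ) ^ (p + c + c' - 1) * (s * s) := by
      rw [← hss, ← pow_succ]
      congr 1
      omega
    have h5 : g * (Fintype.card ι : ℝ) ^ (p + c + c' - 1) * s ≤ K := by
      refine le_of_mul_le_mul_right ?_ (by linarith : 0 < s)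
      rw [h4] at hK
      linarith
    have h6 : 0 ≤ g * (Fintype.card ι : ℝ) ^ (p + c + c' - 1) := by positivity
    have h7 : g * (Fintype.card ι : ℝ) ^ (p + c + c' - 1) ≤ K * η := by
      nlinarith
    have h8 : g * (Fintype.card ι : ℝ) ^ (p + c + c' - 1) ≤ K := by
      nlinarith
    have h9 : ex (fun α => (L.npN α : ℝ) + (p + c + c' : ℕ)) Ψ ≤ L.xx Ψ + 5 * nsq Ψ := by
      nlinarith
    have h10 : 0 ≤ ex (fun α => (L.npN α : ℝ) + (p + c + c' : ℕ)) Ψ :=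
      ex_nonneg fun α => by positivity
    calc g * (((p + c + c' : ℕ) : ℝ) * (Fintype.card ι : ℝ) ^ (p + c + c' - 1) *
          ex (fun α => (L.npN α : ℝ) + (p + c + c' : ℕ)) Ψ)
        = ((p + c + c' : ℕ) : ℝ) * (g * (Fintype.card ι : ℝ) ^ (p + c + c' - 1) *
          ex (fun α => (L.npN α : ℝ) + (p + c + c' : ℕ)) Ψ) := by ring
      _ ≤ 5 * (g * (Fintype.card ι : ℝ) ^ (p + c + c' - 1) * (L.xx Ψ + 5 * nsq Ψ)) := by gcongr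
      _ = 5 * (g * (Fintype.card ι : ℝ) ^ (p + c + c' - 1) * L.xx Ψ) +
          25 * (g * (Fintype.card ι : ℝ) ^ (p + c + c' - 1) * nsq Ψ) := by ring
      _ ≤ 5 * (K * η * L.xx Ψ) + 25 * (K * nsq Ψ) := by gcongr
      _ ≤ _ := by nlinarith [mul_nonneg (mul_nonneg hK0 hη.le) hX]
  have hB : |∑ ν ∈ ((L.lowF c ×ˢ L.lowF (p + c)) ×ˢ (L.lowF c' ×ˢ L.lowF (p + c'))).erase
      ((L.oo c, L.oo (p + c)), (L.oo c', L.oo (p + c'))),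
        (1 / (c.factorial : ℝ)) * (1 / (c'.factorial : ℝ)) *
          (AQKd_G L.lam (AQKd_T L p c F ν.1) (AQKd_T L p c' F' ν.2) * AQKd_Ch L ν.1 ν.2 Ψ)| ≤
      C ^ 12 * (32 * K * (√(nsq Ψ * L.xx Ψ) + 2 * nsq Ψ)) := by
    refine (abs_sum_le_sum_abs _ _).trans ((sum_le_card_nsmul _ _
      (32 * K * (√(nsq Ψ * L.xx Ψ) + 2 * nsq Ψ)) ?_).trans ?_)
    · intro ν hν
      obtain ⟨hne, hν⟩ := mem_erase.1 hν
      obtain ⟨h2, h3⟩ := mem_product.1 hν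
      have hsq := AQKd_sqrt hn hX
      have hN0 : (0 : ℝ) < Fintype.card ι := by linarith
      have hCh : |AQKd_Ch L ν.1 ν.2 Ψ| ≤ 2 ^ (p + c + c') * (Fintype.card ι : ℝ) ^ (p + c + c') *
          (√(nsq Ψ * L.xx Ψ) + 2 * nsq Ψ) / s := by
        have hfin : (2 ^ (p + c + c') * (Fintype.card ι : ℝ) ^ (p + c + c')) ^ 2 *
            (nsq Ψ * (L.xx Ψ + 4 * nsq Ψ)) / Fintype.card ι ≤
            (2 ^ (p + c + c') * (Fintype.card ι : ℝ) ^ (p + c + c') *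
              (√(nsq Ψ * L.xx Ψ) + 2 * nsq Ψ) / s) ^ 2 := by
          rw [div_pow, sq s, ← hss, mul_pow _ (_ + _)]
          gcongr
        by_cases h4 : ν.1 = (L.oo c, L.oo (p + c))
        · have h5 : ν.2 ≠ (L.oo c', L.oo (p + c')) := fun h5 => hne (Prod.ext h4 h5)
          refine AQKd_Ch_abs L ν.1 ν.2 Ψ (AQKd_Ch_le0 L ho h2 hc Ψ)
            ((le_div_iff₀ hN0).2 (AQKd_Ch_le1 L ho hl h3 h5 hp hc' (by omega) Ψ)) (by positivity)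
            (le_trans (le_of_eq (by ring)) hfin)
        · refine AQKd_Ch_abs L ν.1 ν.2 Ψ
            ((le_div_iff₀ hN0).2 (AQKd_Ch_le1 L ho hl h2 h4 hp hc (by omega) Ψ))
            (AQKd_Ch_le0 L ho h3 hc' Ψ) (by positivity) (le_trans (le_of_eq (by ring)) hfin)
      refine (AQKd_term (AQKd_G_abs hl (ha _ h2) (ha' _ h3) hg h) hCh).trans ?_
      have h4 : (2 : ℝ) ^ (p + c + c') ≤ 2 ^ 5 := pow_le_pow_right₀ one_le_two hm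
      have h5 : g * (Fintype.card ι : ℝ) ^ (p + c + c') / s ≤ K :=
        (div_le_iff₀ (by linarith)).2 hK
      calc g * (2 ^ (p + c + c') * (Fintype.card ι : ℝ) ^ (p + c + c') *
            (√(nsq Ψ * L.xx Ψ) + 2 * nsq Ψ) / s)
          = 2 ^ (p + c + c') * (g * (Fintype.card ι : ℝ) ^ (p + c + c') / s) *
            (√(nsq Ψ * L.xx Ψ) + 2 * nsq Ψ) := by ring
        _ ≤ 2 ^ 5 * K * (√(nsq Ψ * L.xx Ψ) + 2 * nsq Ψ) := by gcongr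
        _ = _ := by norm_num
    · rw [nsmul_eq_mul]
      refine mul_le_mul_of_nonneg_right
        (le_trans ?_ (AQKd_card L hC h1 (p := p) (c := c) (c' := c') (by omega))) (by positivity)
      exact_mod_cast card_erase_le
  refine (add_le_add hA hB).trans ?_
  unfold Lv.Er
  have h2 : 0 ≤ K * (η * L.xx Ψ) := by positivity
  have h3 : 0 ≤ K * nsq Ψ := by positivity
  have h4 : 0 ≤ K * √(nsq Ψ * L.xx Ψ) := by positivity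
  linarith [mul_le_mul_of_nonneg_right hC12 h2, mul_le_mul_of_nonneg_right hC12 h3,
    mul_le_mul_of_nonneg_right hC12 h4]

theorem AQKd_pow {s C : ℝ} (hs : 1 ≤ s) (hC : 0 ≤ C) {u u' v m e : ℕ} (huv : u + u' = 2 * v)
    (he : 2 * m ≤ v + e) :
    0 ≤ 4 * C / s ^ v ∧ 4 * C / s ^ u * (4 * C / s ^ u') ≤ (4 * C / s ^ v) ^ 2 ∧
      4 * C / s ^ v * (s ^ 2) ^ m ≤ 4 * C * s ^ e := by
  have hs0 : 0 < s := by linarith
  refine ⟨by positivity, le_of_eq ?_, ?_⟩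
  · rw [div_mul_div_comm, ← pow_add, huv, div_pow, ← pow_mul, mul_comm v 2, sq]
  · rw [div_mul_eq_mul_div, div_le_iff₀ (by positivity), ← pow_mul, mul_assoc (4 * C), ← pow_add]
    exact mul_le_mul_of_nonneg_left (pow_le_pow_right₀ hs (by omega)) (by positivity)

theorem AQKd_G_fam (L : Lv I) (hl : ∀ a, 0 ≤ L.lam a) {s Λ A0 A2 C : ℝ} (hs : 1 ≤ s) {p u : ℕ}
    (hp : p ≤ 4) {T : (Fin p → I) → ℝ} (h : L.FamOK s Λ T A0 A2) (hC : 0 ≤ C)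
    (hA : A0 / s ^ (3 * p - 1) = C / s ^ u) : AQKd_G L.lam T T ≤ 4 * C / s ^ u := by
  have hs0 : 0 < s := by linarith
  have h0 : fx s Λ 1 A0 A2 p 0 = C / s ^ u := by
    rw [fx, if_pos rfl, hA]
  have h1 := (h 1 le_rfl hs).hs hl (by rw [h0]; positivity)
  rw [h0, Fintype.card_fin] at h1
  have h2 : AQKd_G L.lam T T = ∑ α, (∑ j, L.lam (α j)) * T α ^ 2 :=
    sum_congr rfl fun _ _ => by ring
  have h3 : (p : ℝ) ≤ 4 := by exact_mod_cast hp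
  rw [h2, mul_div_assoc]
  exact h1.trans (mul_le_mul_of_nonneg_right h3 (by positivity))

theorem AQKd_G_one {p : ℕ} (hp : p ≤ 4) {T : (Fin p → I) → ℝ} {C x : ℝ}
    (h : ∑ α, T α ^ 2 ≤ C / x) : AQKd_G (fun _ => 1) T T ≤ 4 * C / x := by
  have h2 : AQKd_G (fun _ => 1) T T = p * ∑ α, T α ^ 2 := by
    rw [mul_sum]
    refine sum_congr rfl fun _ _ => ?_
    simp only [sum_const, card_univ, Fintype.card_fin, nsmul_eq_mul]
    ring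
  have h3 : (p : ℝ) ≤ 4 := by exact_mod_cast hp
  have h4 : 0 ≤ ∑ α, T α ^ 2 := sum_nonneg fun _ _ => sq_nonneg _
  rw [h2, mul_div_assoc]
  exact mul_le_mul h3 h h4 (by norm_num)

theorem AQKd_G_lam (L : Lv I) {p : ℕ} (F F' : (Fin p → I) → ℝ) :
    AQKd_G L.lam (L.resK F) (L.resK F') = ∑ α, L.resK F α * F' α := by
  refine sum_congr rfl fun α _ => ?_
  unfold Lv.resK
  split_ifs with h
  · by_cases h0 : ∑ j, L.lam (α j) = 0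
    · simp [h0]
    · field_simp
  · simp

theorem AQKd_G_zero (L : Lv I) (ϖ : I → ℝ) {p : ℕ} :
    AQKd_G ϖ (L.resK fun _ : Fin p → I => 0) (L.resK fun _ => 0) = 0 := by
  simp [AQKd_G, Lv.resK]

theorem AQKd_app {p : ℕ} (a : Fin p → I) (γ : Fin 0 → I) : Fin.append a γ = a := by
  funext j
  exact Fin.append_left a γ j

theorem AQKd_TA (D : Dat I E) (ν : (Fin 0 → I) × (Fin (3 + 0) → I)) :
    AQKd_T D.toLv 3 0 D.F3 ν = D.resK (D.FA ν.2) := by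
  unfold AQKd_T
  congr 1
  funext a
  rw [AQKd_app]
  rfl

theorem AQKd_TC (D : Dat I E) (γ : Fin 0 → I) :
    AQKd_T D.toLv 4 0 D.F4t (γ, D.oo 4) = D.resK D.F4 := by
  unfold AQKd_T
  congr 1
  funext a
  rw [AQKd_app]
  exact if_pos rfl

theorem AQKd_TD (D : Dat I E) (γ : Fin 1 → I) :
    AQKd_T D.toLv 3 1 D.F4t (γ, D.oo 4) = D.resK (D.FD γ) := by
  unfold AQKd_T
  congr 1
  funext a
  exact if_pos rfl

theorem AQKd_TE (D : Dat I E) (γ : Fin 2 → I) :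
    AQKd_T D.toLv 2 2 D.F4t (γ, D.oo 4) = D.resK (D.FE γ) := by
  unfold AQKd_T
  congr 1
  funext a
  exact if_pos rfl

/-- the bounds on the five families -/
structure AQKd_Bd (D : Dat I E) (ϖ : I → ℝ) (a b c d e : ℝ) : Prop where
  hA : ∀ ν ∈ D.lowF 0 ×ˢ D.lowF (3 + 0),
    AQKd_G ϖ (AQKd_T D.toLv 3 0 D.F3 ν) (AQKd_T D.toLv 3 0 D.F3 ν) ≤ a
  hB : ∀ ν ∈ D.lowF 1 ×ˢ D.lowF (2 + 1),
    AQKd_G ϖ (AQKd_T D.toLv 2 1 D.F3 ν) (AQKd_T D.toLv 2 1 D.F3 ν) ≤ b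
  hC : ∀ ν ∈ D.lowF 0 ×ˢ D.lowF (4 + 0),
    AQKd_G ϖ (AQKd_T D.toLv 4 0 D.F4t ν) (AQKd_T D.toLv 4 0 D.F4t ν) ≤ c
  hD : ∀ ν ∈ D.lowF 1 ×ˢ D.lowF (3 + 1),
    AQKd_G ϖ (AQKd_T D.toLv 3 1 D.F4t ν) (AQKd_T D.toLv 3 1 D.F4t ν) ≤ d
  hE : ∀ ν ∈ D.lowF 2 ×ˢ D.lowF (2 + 2),
    AQKd_G ϖ (AQKd_T D.toLv 2 2 D.F4t ν) (AQKd_T D.toLv 2 2 D.F4t ν) ≤ e

theorem AQKd_Bd.of (D : Dat I E) (ϖ : I → ℝ) {a b c d e : ℝ} (hc : 0 ≤ c) (hd : 0 ≤ d) (he : 0 ≤ e)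
    (hA : ∀ β ∈ D.lowF 3, AQKd_G ϖ (D.resK (D.FA β)) (D.resK (D.FA β)) ≤ a)
    (hB : ∀ γ ∈ D.lowF 1, ∀ β ∈ D.lowF 3, AQKd_G ϖ (D.resK (D.FB γ β)) (D.resK (D.FB γ β)) ≤ b)
    (hC : AQKd_G ϖ (D.resK D.F4) (D.resK D.F4) ≤ c)
    (hD : ∀ γ ∈ D.lowF 1, AQKd_G ϖ (D.resK (D.FD γ)) (D.resK (D.FD γ)) ≤ d)
    (hE : ∀ γ ∈ D.lowF 2, AQKd_G ϖ (D.resK (D.FE γ)) (D.resK (D.FE γ)) ≤ e) :
    AQKd_Bd D ϖ a b c d e := by
  refine ⟨fun ν hν => ?_, fun ν hν => hB _ (mem_product.1 hν).1 _ (mem_product.1 hν).2,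
    fun ⟨γ, β⟩ hν => ?_, fun ⟨γ, β⟩ hν => ?_, fun ⟨γ, β⟩ hν => ?_⟩
  · rw [AQKd_TA]
    exact hA _ (mem_product.1 hν).2
  · by_cases h : β = D.oo 4
    · rw [h, AQKd_TC]
      exact hC
    · have h1 : AQKd_T D.toLv 4 0 D.F4t (γ, β) = D.resK fun _ => 0 :=
        congrArg _ (funext fun _ => if_neg h)
      rw [h1, AQKd_G_zero]
      exact hc
  · by_cases h : β = D.oo 4
    · rw [h, AQKd_TD]
      exact hD _ (mem_product.1 hν).1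
    · have h1 : AQKd_T D.toLv 3 1 D.F4t (γ, β) = D.resK fun _ => 0 :=
        congrArg _ (funext fun _ => if_neg h)
      rw [h1, AQKd_G_zero]
      exact hd
  · by_cases h : β = D.oo 4
    · rw [h, AQKd_TE]
      exact hE _ (mem_product.1 hν).1
    · have h1 : AQKd_T D.toLv 2 2 D.F4t (γ, β) = D.resK fun _ => 0 :=
        congrArg _ (funext fun _ => if_neg h)
      rw [h1, AQKd_G_zero]
      exact he

theorem AQKd_Bd_lam {D : Dat I E} {s Λ C₀ C : ℝ} (hl : ∀ a, 0 ≤ D.lam a) (hs : 1 ≤ s) (hC : 0 ≤ C)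
    (h : D.Norms s Λ C₀ C) : AQKd_Bd D D.lam (4 * C / s ^ 4) (4 * C / s ^ 7) (4 * C / s ^ 7)
      (4 * C / s ^ 10) (4 * C / s ^ 13) := by
  have hs0 : 0 < s := by linarith
  refine AQKd_Bd.of D _ (by positivity) (by positivity) (by positivity)
    (fun β hβ => AQKd_G_fam _ hl hs (by norm_num) (h.fA β hβ) hC ?_)
    (fun γ hγ β hβ => AQKd_G_fam _ hl hs (by norm_num) (h.fB γ hγ β hβ) hC ?_)
    (AQKd_G_fam _ hl hs (by norm_num) h.fC hC ?_)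
    (fun γ hγ => AQKd_G_fam _ hl hs (by norm_num) (h.fD γ hγ) hC ?_)
    (fun γ hγ => AQKd_G_fam _ hl hs (by norm_num) (h.fE γ hγ) hC ?_)
  all_goals
    norm_num
    field_simp

theorem AQKd_Bd_one {D : Dat I E} {s Λ C₀ C : ℝ} (hs : 1 ≤ s) (hC : 0 ≤ C)
    (h : D.Norms s Λ C₀ C) : AQKd_Bd D (fun _ => 1) (4 * C / s ^ 6) (4 * C / s ^ 8) (4 * C / s ^ 8)
      (4 * C / s ^ 10) (4 * C / s ^ 12) := by
  have hs0 : 0 < s := by linarith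
  exact AQKd_Bd.of D _ (by positivity) (by positivity) (by positivity)
    (fun β hβ => AQKd_G_one (by norm_num) (h.uA β hβ))
    (fun γ hγ β hβ => AQKd_G_one (by norm_num) (h.uB γ hγ β hβ))
    (AQKd_G_one (by norm_num) h.uC) (fun γ hγ => AQKd_G_one (by norm_num) (h.uD γ hγ))
    (fun γ hγ => AQKd_G_one (by norm_num) (h.uE γ hγ))

theorem AQKd_Dg0 (D : Dat I E) (ϖ : I → ℝ) (Ψ : (ι → I) → ℝ) :
    D.DgP ϖ Ψ 0 = (1 / 2) * (AQKd_P D.toLv ϖ 2 1 1 D.F3 D.F3 Ψ +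
      2 * AQKd_P D.toLv ϖ 2 1 2 D.F3 D.F4t Ψ + AQKd_P D.toLv ϖ 2 2 2 D.F4t D.F4t Ψ) := by
  change (1 / 2) * ∑ ρ : Fin 2 ↪ ι, ∑ α, (∑ j, ϖ (α (ρ j))) * D.gen (D.S2 Ψ) ρ α ^ 2 = _
  congr 1
  simp only [AQKd_P, mul_sum, ← sum_add_distrib]
  refine sum_congr rfl fun ρ _ => sum_congr rfl fun α _ => ?_
  have h : D.gen (D.S2 Ψ) ρ α = _ :=
    D.gen_add (fun ρ α => D.src 2 1 D.F3 ρ Ψ α) (fun ρ α => D.src 2 2 D.F4t ρ Ψ α) ρ α
  rw [h]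
  ring

theorem AQKd_Dg1 (D : Dat I E) (ϖ : I → ℝ) (Ψ : (ι → I) → ℝ) :
    D.DgP ϖ Ψ 1 = (1 / 6) * (AQKd_P D.toLv ϖ 3 0 0 D.F3 D.F3 Ψ +
      2 * AQKd_P D.toLv ϖ 3 0 1 D.F3 D.F4t Ψ + AQKd_P D.toLv ϖ 3 1 1 D.F4t D.F4t Ψ) := by
  change (1 / 6) * ∑ ρ : Fin 3 ↪ ι, ∑ α, (∑ j, ϖ (α (ρ j))) * D.gen (D.S3 Ψ) ρ α ^ 2 = _
  congr 1
  simp only [AQKd_P, mul_sum, ← sum_add_distrib]
  refine sum_congr rfl fun ρ _ => sum_congr rfl fun α _ => ?_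
  have h : D.gen (D.S3 Ψ) ρ α = _ :=
    D.gen_add (fun ρ α => D.src 3 0 D.F3 ρ Ψ α) (fun ρ α => D.src 3 1 D.F4t ρ Ψ α) ρ α
  rw [h]
  ring

theorem AQKd_Dg2 (D : Dat I E) (ϖ : I → ℝ) (Ψ : (ι → I) → ℝ) :
    D.DgP ϖ Ψ 2 = (1 / 24) * AQKd_P D.toLv ϖ 4 0 0 D.F4t D.F4t Ψ := by
  change (1 / 24) * ∑ ρ : Fin 4 ↪ ι, ∑ α, (∑ j, ϖ (α (ρ j))) * D.gen (D.S4 Ψ) ρ α ^ 2 = _
  congr 1
  refine sum_congr rfl fun ρ _ => sum_congr rfl fun α _ => ?_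
  rw [sq, ← mul_assoc]
  rfl

theorem AQKd_AA (D : Dat I E) (Ψ : (ι → I) → ℝ) :
    (1 / 6) * AQKd_P D.toLv D.lam 3 0 0 D.F3 D.F3 Ψ = D.T3 D.GA Ψ := by
  have h0 : D.lowF 0 = {D.oo 0} := by
    ext γ
    simp only [Lv.lowF, Fintype.mem_piFinset, IsEmpty.forall_iff, mem_singleton, true_iff]
    exact Subsingleton.elim _ _
  rw [AQKd_P_eq, Lv.T3, sum_product, h0, sum_product, sum_singleton]
  congr 1
  simp only [sum_product, sum_singleton, AQKd_TA, AQKd_G_lam, AQKd_Ch, chan_zero,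
    Nat.factorial_zero, Nat.cast_one, div_one, one_mul, mul_sum]
  symm
  calc _ = ∑ σ : Fin 3 ↪ ι, ∑ β ∈ D.lowF 3, ∑ β' ∈ D.lowF 3, ∑ α ∈ D.vac σ,
        D.GA β β' * Ψ (put σ β α) * Ψ (put σ β' α) := by
        refine sum_congr rfl fun σ _ => ?_
        rw [sum_comm]
        exact sum_congr rfl fun β _ => sum_comm
    _ = _ := by
        rw [sum_comm]
        refine sum_congr rfl fun β _ => ?_
        rw [sum_comm]
        refine sum_congr rfl fun β' _ => sum_congr rfl fun σ _ => sum_congr rfl fun α _ => ?_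
        rw [mul_assoc]
        rfl

/-- crude bound, with powers of `s` -/
theorem AQKd_crude' {D : Dat I E} {γ Λ C₀ C : ℝ} (hB : D.Base γ Λ C₀ C)
    {ϖ : I → ℝ} (hϖ : ∀ a, 0 ≤ ϖ a) {p c c' : ℕ} (hm : p + c + c' ≤ 6) (hc : c ≤ 2) (hc' : c' ≤ 2)
    (hN : 2 ≤ Fintype.card ι) {F : (Fin (p + c) → I) → (Fin (p + c) → I) → ℝ}
    {F' : (Fin (p + c') → I) → (Fin (p + c') → I) → ℝ} {u u' : ℕ}
    (ha : ∀ ν ∈ D.lowF c ×ˢ D.lowF (p + c), AQKd_G ϖ (AQKd_T D.toLv p c F ν)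
      (AQKd_T D.toLv p c F ν) ≤ 4 * C / √(Fintype.card ι : ℝ) ^ u)
    (ha' : ∀ ν ∈ D.lowF c' ×ˢ D.lowF (p + c'), AQKd_G ϖ (AQKd_T D.toLv p c' F' ν)
      (AQKd_T D.toLv p c' F' ν) ≤ 4 * C / √(Fintype.card ι : ℝ) ^ u')
    (v e : ℕ) (huv : u + u' = 2 * v) (he : 2 * (p + c + c') ≤ v + 2 * e) (Ψ : (ι → I) → ℝ) :
    |AQKd_P D.toLv ϖ p c c' F F' Ψ| ≤ C ^ 12 * 64 * (4 * C) * (Fintype.card ι : ℝ) ^ e * nsq Ψ := by
  have h1 : 1 ≤ C := hB.C₀_ge.trans hB.C₀_le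
  have hN1 : (1 : ℝ) ≤ Fintype.card ι := by exact_mod_cast (by omega : 1 ≤ Fintype.card ι)
  obtain ⟨h2, h3, h4⟩ := AQKd_pow (Real.one_le_sqrt.2 hN1) (by linarith : 0 ≤ C) huv he
  rw [pow_mul, Real.sq_sqrt (by positivity)] at h4
  exact (AQKd_crude D.toLv hB.o_low hB.card_low h1 hϖ hm (by omega) (by omega) ha ha' h2 h3 h4
    Ψ).trans (le_of_eq (by ring))

/-- main term, with powers of `s` -/
theorem AQKd_main' {D : Dat I E} {γ Λ C₀ C η : ℝ} (hB : D.Base γ Λ C₀ C)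
    {p c c' : ℕ} (hp : 1 ≤ p) (hm : p + c + c' = 4) (hc : c ≤ 2) (hc' : c' ≤ 2)
    (hN : 2 ≤ Fintype.card ι) {F : (Fin (p + c) → I) → (Fin (p + c) → I) → ℝ}
    {F' : (Fin (p + c') → I) → (Fin (p + c') → I) → ℝ} {u u' : ℕ}
    (ha : ∀ ν ∈ D.lowF c ×ˢ D.lowF (p + c), AQKd_G D.lam (AQKd_T D.toLv p c F ν)
      (AQKd_T D.toLv p c F ν) ≤ 4 * C / √(Fintype.card ι : ℝ) ^ u)
    (ha' : ∀ ν ∈ D.lowF c' ×ˢ D.lowF (p + c'), AQKd_G D.lam (AQKd_T D.toLv p c' F' ν)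
      (AQKd_T D.toLv p c' F' ν) ≤ 4 * C / √(Fintype.card ι : ℝ) ^ u')
    (huv : u + u' = 2 * 7) {Ψ : (ι → I) → ℝ} (hx : D.Ctx η Ψ) :
    |AQKd_P D.toLv D.lam p c c' F F' Ψ - (1 / (c.factorial : ℝ)) * (1 / (c'.factorial : ℝ)) *
      (AQKd_G D.lam (AQKd_T D.toLv p c F (D.oo c, D.oo (p + c)))
        (AQKd_T D.toLv p c' F' (D.oo c', D.oo (p + c'))) *
        ((Fintype.card ι : ℝ) ^ (p + c + c') * nsq Ψ))| ≤ D.Er (C ^ 12 * 100 * (4 * C)) η Ψ := by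
  have h1 : 1 ≤ C := hB.C₀_ge.trans hB.C₀_le
  have hN1 : (1 : ℝ) ≤ Fintype.card ι := by exact_mod_cast (by omega : 1 ≤ Fintype.card ι)
  obtain ⟨h2, h3, h4⟩ := AQKd_pow (m := p + c + c') (e := 1) (Real.one_le_sqrt.2 hN1)
    (by linarith : 0 ≤ C) huv (by omega)
  rw [pow_one, Real.sq_sqrt (by positivity)] at h4
  exact AQKd_main D.toLv hB.o_low hB.lam_nonneg hB.card_low h1 hp (by omega) (by omega) (by omega)
    ha ha' h2 h3 h4 hx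

theorem Dg_est (C : ℝ) : ∃ K : ℝ, 0 ≤ K ∧ ∀ {I ι E : Type} [Fintype I] [DecidableEq I] [Fintype ι] [DecidableEq ι]
      [NormedAddCommGroup E] [InnerProductSpace ℝ E] (D : Dat I E)
      (γ Λ C₀ η : ℝ) (Ψ : (ι → I) → ℝ), D.Base γ Λ C₀ C →
      D.Norms √(Fintype.card ι : ℝ) Λ C₀ C → D.Ctx η Ψ →
      |(∑ t, D.DgP D.lam Ψ t) - (D.T3 D.GA Ψ + (Fintype.card ι : ℝ) ^ 4 *
        ((1 / 24) * D.GCC + (1 / 3) * D.GAD + (1 / 2) * D.GBB) * nsq Ψ)| ≤ D.Er K η Ψ := by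
  refine ⟨|C| ^ 12 * 1000 * (4 * |C|), by positivity, ?_⟩
  intro I ι E _ _ _ _ _ _ D γ Λ C₀ η Ψ hB hN hx
  have h1 : 1 ≤ C := hB.C₀_ge.trans hB.C₀_le
  rw [abs_of_nonneg (by linarith : 0 ≤ C)]
  have hl := hB.lam_nonneg
  by_cases hΨ : Ψ = 0
  · subst hΨ
    simp [Fin.sum_univ_three, AQKd_Dg0, AQKd_Dg1, AQKd_Dg2, AQKd_P_eq, AQKd_Ch, chan, Lv.T3, nsq,
      Lv.Er, Lv.xx, Lv.kk, Lv.ll, Lv.zz, ex]
  have h8 : 2 ≤ Fintype.card ι := by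
    have : (2 : ℝ) ≤ Fintype.card ι := le_trans (by norm_num) (hx.eight_le.2 hΨ)
    exact_mod_cast this
  have hb := AQKd_Bd_lam hl (Real.one_le_sqrt.2 hx.eight_le.1) (by linarith) hN
  have eBB := AQKd_main' hB (by norm_num) rfl (by norm_num) (by norm_num) h8 hb.hB hb.hB rfl hx
  have eAD := AQKd_main' hB (by norm_num) rfl (by norm_num) (by norm_num) h8 hb.hA hb.hD rfl hx
  have eCC := AQKd_main' hB (by norm_num) rfl (by norm_num) (by norm_num) h8 hb.hC hb.hC rfl hx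
  have eBE := AQKd_crude' hB hl (by norm_num) (by norm_num) (by norm_num) h8 hb.hB hb.hE 10 0 rfl
    (by norm_num) Ψ
  have eEE := AQKd_crude' hB hl (by norm_num) (by norm_num) (by norm_num) h8 hb.hE hb.hE 13 0 rfl
    (by norm_num) Ψ
  have eDD := AQKd_crude' hB hl (by norm_num) (by norm_num) (by norm_num) h8 hb.hD hb.hD 10 0 rfl
    (by norm_num) Ψ
  have gBB : AQKd_G D.lam (AQKd_T D.toLv 2 1 D.F3 (D.oo 1, D.oo (2 + 1)))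
      (AQKd_T D.toLv 2 1 D.F3 (D.oo 1, D.oo (2 + 1))) = D.GBB := AQKd_G_lam D.toLv _ _
  have gAD : AQKd_G D.lam (AQKd_T D.toLv 3 0 D.F3 (D.oo 0, D.oo (3 + 0)))
      (AQKd_T D.toLv 3 1 D.F4t (D.oo 1, D.oo (3 + 1))) = D.GAD := by
    rw [AQKd_TA, AQKd_TD]
    exact AQKd_G_lam D.toLv _ _
  have gCC : AQKd_G D.lam (AQKd_T D.toLv 4 0 D.F4t (D.oo 0, D.oo (4 + 0)))
      (AQKd_T D.toLv 4 0 D.F4t (D.oo 0, D.oo (4 + 0))) = D.GCC := by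
    rw [AQKd_TC]
    exact AQKd_G_lam D.toLv _ _
  rw [gBB] at eBB
  rw [gAD] at eAD
  rw [gCC] at eCC
  rw [Fin.sum_univ_three, AQKd_Dg0, AQKd_Dg1, AQKd_Dg2, ← AQKd_AA]
  simp only [Nat.factorial_zero, Nat.factorial_one, Nat.cast_one, div_one, one_mul, pow_zero,
    mul_one, Nat.reduceAdd] at eBB eAD eCC eBE eEE eDD
  unfold Lv.Er at eBB eAD eCC ⊢
  have hn := nsq_nonneg Ψ
  have hX : 0 ≤ η * D.xx Ψ := mul_nonneg hx.pos.le (Lv.xx_nonneg hl)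
  have hR := Real.sqrt_nonneg (nsq Ψ * D.xx Ψ)
  have hK : 0 ≤ C ^ 12 * C := by positivity
  have k1 := mul_nonneg hK hn
  have k2 := mul_nonneg hK hX
  have k3 := mul_nonneg hK hR
  rw [abs_le] at eBB eAD eCC eBE eEE eDD ⊢
  constructor <;> linarith [eBB.1, eBB.2, eAD.1, eAD.2, eCC.1, eCC.2, eBE.1, eBE.2, eEE.1, eEE.2,
    eDD.1, eDD.2]

theorem Dg_crude (C : ℝ) : ∃ K : ℝ, 0 ≤ K ∧ ∀ {I ι E : Type} [Fintype I] [DecidableEq I] [Fintype ι] [DecidableEq ι]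
      [NormedAddCommGroup E] [InnerProductSpace ℝ E] (D : Dat I E)
      (γ Λ C₀ : ℝ) (Ψ : (ι → I) → ℝ) (t : Fin 3), D.Base γ Λ C₀ C →
      D.Norms √(Fintype.card ι : ℝ) Λ C₀ C → 2 ≤ Fintype.card ι →
      D.DgP D.lam Ψ t ≤ K * Fintype.card ι * nsq Ψ ∧ D.DgP (fun _ => 1) Ψ t ≤ K * nsq Ψ := by
  refine ⟨|C| ^ 12 * 64 * (4 * |C|) * 2, by positivity, ?_⟩
  intro I ι E _ _ _ _ _ _ D γ Λ C₀ Ψ t hB hN h2
  have h1 : 1 ≤ C := hB.C₀_ge.trans hB.C₀_le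
  rw [abs_of_nonneg (by linarith : 0 ≤ C)]
  have hl := hB.lam_nonneg
  have hN1 : (1 : ℝ) ≤ Fintype.card ι := by exact_mod_cast (by omega : 1 ≤ Fintype.card ι)
  have hb := AQKd_Bd_lam hl (Real.one_le_sqrt.2 hN1) (by linarith) hN
  have hu := AQKd_Bd_one (Real.one_le_sqrt.2 hN1) (by linarith) hN
  have ho : ∀ _ : I, (0 : ℝ) ≤ 1 := fun _ => zero_le_one
  have hn := nsq_nonneg Ψ
  have k1 : 0 ≤ C ^ 12 * 64 * (4 * C) * nsq Ψ := by positivity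
  have k2 : 0 ≤ C ^ 12 * 64 * (4 * C) * Fintype.card ι * nsq Ψ := by positivity
  fin_cases t
  · have e1 := AQKd_crude' hB hl (by norm_num) (by norm_num) (by norm_num) h2 hb.hB hb.hB 7 1 rfl
      (by norm_num) Ψ
    have e2 := AQKd_crude' hB hl (by norm_num) (by norm_num) (by norm_num) h2 hb.hB hb.hE 10 1 rfl
      (by norm_num) Ψ
    have e3 := AQKd_crude' hB hl (by norm_num) (by norm_num) (by norm_num) h2 hb.hE hb.hE 13 1 rfl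
      (by norm_num) Ψ
    have f1 := AQKd_crude' hB ho (by norm_num) (by norm_num) (by norm_num) h2 hu.hB hu.hB 8 0 rfl
      (by norm_num) Ψ
    have f2 := AQKd_crude' hB ho (by norm_num) (by norm_num) (by norm_num) h2 hu.hB hu.hE 10 0 rfl
      (by norm_num) Ψ
    have f3 := AQKd_crude' hB ho (by norm_num) (by norm_num) (by norm_num) h2 hu.hE hu.hE 12 0 rfl
      (by norm_num) Ψ
    rw [pow_one] at e1 e2 e3
    rw [pow_zero, mul_one] at f1 f2 f3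
    change D.DgP D.lam Ψ 0 ≤ _ ∧ D.DgP _ Ψ 0 ≤ _
    rw [AQKd_Dg0, AQKd_Dg0]
    constructor
    · linarith [(abs_le.1 e1).2, (abs_le.1 e2).2, (abs_le.1 e3).2]
    · linarith [(abs_le.1 f1).2, (abs_le.1 f2).2, (abs_le.1 f3).2]
  · have e1 := AQKd_crude' hB hl (by norm_num) (by norm_num) (by norm_num) h2 hb.hA hb.hA 4 1 rfl
      (by norm_num) Ψ
    have e2 := AQKd_crude' hB hl (by norm_num) (by norm_num) (by norm_num) h2 hb.hA hb.hD 7 1 rfl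
      (by norm_num) Ψ
    have e3 := AQKd_crude' hB hl (by norm_num) (by norm_num) (by norm_num) h2 hb.hD hb.hD 10 1 rfl
      (by norm_num) Ψ
    have f1 := AQKd_crude' hB ho (by norm_num) (by norm_num) (by norm_num) h2 hu.hA hu.hA 6 0 rfl
      (by norm_num) Ψ
    have f2 := AQKd_crude' hB ho (by norm_num) (by norm_num) (by norm_num) h2 hu.hA hu.hD 8 0 rfl
      (by norm_num) Ψ
    have f3 := AQKd_crude' hB ho (by norm_num) (by norm_num) (by norm_num) h2 hu.hD hu.hD 10 0 rfl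
      (by norm_num) Ψ
    rw [pow_one] at e1 e2 e3
    rw [pow_zero, mul_one] at f1 f2 f3
    change D.DgP D.lam Ψ 1 ≤ _ ∧ D.DgP _ Ψ 1 ≤ _
    rw [AQKd_Dg1, AQKd_Dg1]
    constructor
    · linarith [(abs_le.1 e1).2, (abs_le.1 e2).2, (abs_le.1 e3).2]
    · linarith [(abs_le.1 f1).2, (abs_le.1 f2).2, (abs_le.1 f3).2]
  · have e1 := AQKd_crude' hB hl (by norm_num) (by norm_num) (by norm_num) h2 hb.hC hb.hC 7 1 rfl
      (by norm_num) Ψ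
    have f1 := AQKd_crude' hB ho (by norm_num) (by norm_num) (by norm_num) h2 hu.hC hu.hC 8 0 rfl
      (by norm_num) Ψ
    rw [pow_one] at e1
    rw [pow_zero, mul_one] at f1
    change D.DgP D.lam Ψ 2 ≤ _ ∧ D.DgP _ Ψ 2 ≤ _
    rw [AQKd_Dg2, AQKd_Dg2]
    constructor
    · linarith [(abs_le.1 e1).2]
    · linarith [(abs_le.1 f1).2]

end Pool.Agent.Lib.MP_8fe63c_mp
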