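import Pool.Agent.Lib.MP_8fe63c_mp.AErr

/-!
Exchange part of the kinetic quadratic term.

Sketch. By `cre_mul_eq`, `cre_mul_eq_same` (with `src_perm`) the difference is a combination of
`offS`; expand with `gen_add`, `gen_src`, `offS_sum` and apply `off_bound_fam` with `θ = η^(-2)`, then
`chan_count` with `W = Wr`. It is convenient to define for each family `f` (with `p, c`) the numbers
`a f r = N^(p+2c) ex (Wr x_f y_f r)`; the product `AA x_f (X_f') * AA x_f' (X_f)` is at most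
`4^(..) a f r * a f' r'`. Table: `a A 0 ≤ C N n`, `a B 0, a C 0 ≤ C s n`, `a D 0, a E 0 ≤ C n`;
`a A 1 ≤ C k/s`, `a D 1, a C 1, a E 1 ≤ C k/N`, `a B 1 ≤ C k/Λ`; `a A 2, a D 2 ≤ C η^2 (k + 2 Z)`,
`a C 2 ≤ C (k + 2 Z)/s` (use `η^2 ≤ 1`), `a C 3 ≤ 3 C η^4 Z`. Pairs with the same `p - r` occur, not both
`r = 0`. The pair B×B with `r = 1`: if both channels have all slots `o` use `fB0`; otherwise use
`chan_count` with `j = 1` for the channel with a slot outside `o`, which gains `η^2`.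
-/

set_option linter.unusedSectionVars false

open Finset
open scoped InnerProductSpace

namespace Pool.Agent.Lib.MP_8fe63c_mp

variable {I ι κ κ' E : Type} [Fintype I] [DecidableEq I] [Fintype ι] [DecidableEq ι]
  [Fintype κ] [DecidableEq κ] [Fintype κ'] [DecidableEq κ']
  [NormedAddCommGroup E] [InnerProductSpace ℝ E]

theorem AQKo_ex_lin (a b : ℝ) (W W' Ψ : (ι → I) → ℝ) :
    ex (fun α => a * W α + b * W' α) Ψ = a * ex W Ψ + b * ex W' Ψ := by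
  simp only [ex, Finset.mul_sum, ← Finset.sum_add_distrib]
  exact Finset.sum_congr rfl fun α _ => by ring

theorem AQKo_kh_nonneg (L : Lv I) (hl : ∀ a, 0 ≤ L.lam a) (α : ι → I) : 0 ≤ L.kh α := by
  unfold Lv.kh
  refine Finset.sum_nonneg fun i _ => ?_
  split_ifs
  · exact le_rfl
  · exact hl _

theorem AQKo_Wr_nonneg (L : Lv I) (hl : ∀ a, 0 ≤ L.lam a) {x y : ℕ → ℝ} (hx : ∀ r, 0 ≤ x r)
    (hy : ∀ r, 0 ≤ y r) (r : ℕ) (α : ι → I) : 0 ≤ L.Wr x y r α := by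
  unfold Lv.Wr
  have h1 := hx r
  have h2 := hy r
  have h3 := AQKo_kh_nonneg L hl α
  positivity

theorem AQKo_e0 (L : Lv I) (x y : ℕ → ℝ) (Ψ : (ι → I) → ℝ) :
    ex (L.Wr x y 0) Ψ = x 0 * nsq Ψ := by
  simp only [ex, nsq, Lv.Wr, Finset.mul_sum]
  exact Finset.sum_congr rfl fun α _ => by simp

theorem AQKo_e1 (L : Lv I) (x y : ℕ → ℝ) (hy : y 1 = 0) (Ψ : (ι → I) → ℝ) :
    ex (L.Wr x y 1) Ψ = x 1 * L.kk Ψ := by
  simp only [ex, Lv.kk, Lv.Wr, Finset.mul_sum, hy]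
  exact Finset.sum_congr rfl fun α _ => by ring

theorem AQKo_e2 {L : Lv I} (ho : L.o ∈ L.low) (hl : ∀ a, 0 ≤ L.lam a) {η : ℝ}
    {Ψ : (ι → I) → ℝ} (h : L.Ctx η Ψ) {x y : ℕ → ℝ} (hx : 0 ≤ x 2) (hy : 0 ≤ y 2) :
    ex (L.Wr x y 2) Ψ ≤ x 2 * (η ^ 4 * Fintype.card ι * L.kk Ψ) +
      2 * y 2 * (Fintype.card ι * L.zz Ψ) := by
  have e : L.Wr x y 2 = fun α : ι → I => x 2 * (L.nhN α : ℝ) ^ (1 + 1) +
      (2 * y 2) * ((L.nhN α : ℝ) ^ (0 + 1) * L.kh α) := by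
    funext α
    simp only [Lv.Wr]
    push_cast
    ring
  rw [e, AQKo_ex_lin]
  have h1 := h.ex_nh_pow ho 1
  have h2 := h.ex_nh_kh ho hl 0
  rw [pow_one] at h1
  rw [pow_zero, one_mul] at h2
  exact add_le_add (mul_le_mul_of_nonneg_left h1 hx)
    (mul_le_mul_of_nonneg_left h2 (by positivity))

theorem AQKo_e3 {L : Lv I} (ho : L.o ∈ L.low) (hl : ∀ a, 0 ≤ L.lam a) {η : ℝ}
    {Ψ : (ι → I) → ℝ} (h : L.Ctx η Ψ) {x y : ℕ → ℝ} (hx : x 3 = 0) (hy : 0 ≤ y 3) :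
    ex (L.Wr x y 3) Ψ ≤ 3 * y 3 * (η ^ 4 * Fintype.card ι * Fintype.card ι * L.zz Ψ) := by
  have e : L.Wr x y 3 = fun α : ι → I => 0 * (0 : ℝ) +
      (3 * y 3) * ((L.nhN α : ℝ) ^ (1 + 1) * L.kh α) := by
    funext α
    simp only [Lv.Wr, hx]
    push_cast
    ring
  rw [e, AQKo_ex_lin 0 (3 * y 3) (fun _ => 0)]
  have h2 := h.ex_nh_kh ho hl 1
  rw [pow_one] at h2
  rw [zero_mul, zero_add]
  exact mul_le_mul_of_nonneg_left h2 (by positivity)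

/-- one channel with its bounds -/
def AQKo_Good (L : Lv I) (K : ℝ) (Ψ : (ι → I) → ℝ) {p : ℕ} (T : (Fin p → I) → ℝ)
    (X : (Fin p ↪ ι) → (ι → I) → ℝ) (q : ℝ) : Prop :=
  ∃ (m : ℝ) (x y : ℕ → ℝ), 0 ≤ m ∧ (∀ r, 0 ≤ x r) ∧ (∀ r, 0 ≤ y r) ∧ L.FamB T x y ∧
    (∀ α, ¬L.Hi α → T α = 0) ∧ Indep X ∧
    (∀ W : (ι → I) → ℝ, (∀ α, 0 ≤ W α) → L.LowInv W →
      ∑ ρ, ∑ α ∈ L.vac ρ, W α * X ρ α ^ 2 ≤ m * ex W Ψ) ∧
    m * ex (L.Wr x y 0) Ψ ≤ K * √(Fintype.card ι : ℝ) ^ (p - 1) * nsq Ψ ∧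
    (∀ r, 1 ≤ r → r + 2 ≤ p →
      m * ex (L.Wr x y r) Ψ * √(Fintype.card ι : ℝ) ^ (p - r - 1) ≤ K * L.xx Ψ) ∧
    m * ex (L.Wr x y (p - 1)) Ψ ≤ q

theorem AQKo_Good.mono {L : Lv I} {K : ℝ} {Ψ : (ι → I) → ℝ} {p : ℕ} {T : (Fin p → I) → ℝ}
    {X : (Fin p ↪ ι) → (ι → I) → ℝ} {q q' : ℝ} (h : AQKo_Good L K Ψ T X q) (hq : q ≤ q') :
    AQKo_Good L K Ψ T X q' := by
  obtain ⟨m, x, y, h1, h2, h3, h4, h5, h6, h7, h8, h9, h10⟩ := h
  exact ⟨m, x, y, h1, h2, h3, h4, h5, h6, h7, h8, h9, h10.trans hq⟩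

theorem AQKo_eta_s {L : Lv I} {η : ℝ} {Ψ : (ι → I) → ℝ} (h : L.Ctx η Ψ) :
    1 ≤ η * √(Fintype.card ι : ℝ) ∧ 1 ≤ η ^ 2 * √(Fintype.card ι : ℝ) ∧
      1 ≤ √(Fintype.card ι : ℝ) := by
  have h1 := h.pos
  have h2 := h.le_one
  have h3 := h.big
  have hs := Real.sqrt_nonneg (Fintype.card ι : ℝ)
  have a1 : η ^ 4 ≤ η ^ 1 := pow_le_pow_of_le_one h1.le h2 (by norm_num)
  have a2 : η ^ 4 ≤ η ^ 2 := pow_le_pow_of_le_one h1.le h2 (by norm_num)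
  have a3 : η ^ 4 ≤ η ^ 0 := pow_le_pow_of_le_one h1.le h2 (by norm_num)
  rw [pow_one] at a1
  rw [pow_zero] at a3
  refine ⟨h3.trans (mul_le_mul_of_nonneg_right a1 hs), h3.trans (mul_le_mul_of_nonneg_right a2 hs),
    h3.trans ?_⟩
  simpa using mul_le_mul_of_nonneg_right a3 hs

theorem AQKo_sqrt_swap {A A' m m' e e' : ℝ} (hm : 0 ≤ m) (hm' : 0 ≤ m')
    (h : A ≤ m' * e) (h' : A' ≤ m * e') :
    √A * √A' ≤ √(m * e) * √(m' * e') := by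
  calc √A * √A' ≤ √(m' * e) * √(m * e') :=
        mul_le_mul (Real.sqrt_le_sqrt h) (Real.sqrt_le_sqrt h') (Real.sqrt_nonneg _)
          (Real.sqrt_nonneg _)
    _ = √(m * e) * √(m' * e') := by
        rw [Real.sqrt_mul hm, Real.sqrt_mul hm', Real.sqrt_mul hm, Real.sqrt_mul hm']
        ring

theorem AQKo_mixed {a a' K t n X : ℝ} (ha : 0 ≤ a) (ha' : 0 ≤ a') (hK : 0 ≤ K) (hn : 0 ≤ n)
    (h : a ≤ K * t * n) (h' : a' * t ≤ K * X) : √a * √a' ≤ K * √(n * X) := by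
  rw [← Real.sqrt_mul ha]
  have : a * a' ≤ K ^ 2 * (n * X) := by
    calc a * a' ≤ K * t * n * a' := mul_le_mul_of_nonneg_right h ha'
      _ = K * n * (a' * t) := by ring
      _ ≤ K * n * (K * X) := mul_le_mul_of_nonneg_left h' (by positivity)
      _ = K ^ 2 * (n * X) := by ring
  calc √(a * a') ≤ √(K ^ 2 * (n * X)) := Real.sqrt_le_sqrt this
    _ = K * √(n * X) := by rw [Real.sqrt_mul (by positivity), Real.sqrt_sq hK]

theorem AQKo_both {a a' K t η X : ℝ} (ha : 0 ≤ a) (ha' : 0 ≤ a') (hη : 0 ≤ η) (ht : 1 ≤ η * t)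
    (h : a * t ≤ K * X) (h' : a' * t ≤ K * X) : √a * √a' ≤ K * (η * X) := by
  have key : ∀ b : ℝ, 0 ≤ b → b * t ≤ K * X → b ≤ K * (η * X) := fun b hb hbt => by
    calc b ≤ b * (η * t) := le_mul_of_one_le_right hb ht
      _ = η * (b * t) := by ring
      _ ≤ η * (K * X) := mul_le_mul_of_nonneg_left hbt hη
      _ = K * (η * X) := by ring
  calc √a * √a' ≤ √(K * (η * X)) * √(K * (η * X)) :=
        mul_le_mul (Real.sqrt_le_sqrt (key a ha h)) (Real.sqrt_le_sqrt (key a' ha' h'))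
          (Real.sqrt_nonneg _) (Real.sqrt_nonneg _)
    _ = K * (η * X) := Real.mul_self_sqrt (ha.trans (key a ha h))

theorem AQKo_pair {L : Lv I} (ho : L.o ∈ L.low) (hl : ∀ a, 0 ≤ L.lam a) {η K κ₀ : ℝ}
    {Ψ : (ι → I) → ℝ} (hc : L.Ctx η Ψ) (hK : 0 ≤ K) {ϖ : I → ℝ} (hϖ : ∀ a, 0 ≤ ϖ a) (hκ : 0 ≤ κ₀)
    (hϖ' : ∀ a, a ∉ L.low → ϖ a ≤ κ₀ * L.lam a) {p p' : ℕ} (hp : p ≤ 4) (hp' : p' ≤ 4)
    {T : (Fin p → I) → ℝ} {T' : (Fin p' → I) → ℝ}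
    {X : (Fin p ↪ ι) → (ι → I) → ℝ} {X' : (Fin p' ↪ ι) → (ι → I) → ℝ} {q q' : ℝ}
    (h : AQKo_Good L K Ψ T X q) (h' : AQKo_Good L K Ψ T' X' q') :
    |offS ϖ (fun ρ α => T (α ∘ ρ) * X ρ α) (fun ρ α => T' (α ∘ ρ) * X' ρ α)| ≤
      κ₀ * 2 ^ 14 * (√q * √q' + 3 * (K * (η * L.xx Ψ + √(nsq Ψ * L.xx Ψ)))) := by
  obtain ⟨m, x, y, h1, h2, h3, h4, h5, h6, h7, h8, h9, h10⟩ := h
  obtain ⟨m', x', y', g1, g2, g3, g4, g5, g6, g7, g8, g9, g10⟩ := h'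
  refine (L.off_bound_fam ho hl hp hp' hϖ hκ hϖ' h5 g5 h2 h3 g2 g3 h4 g4 h6 g6).trans ?_
  refine mul_le_mul_of_nonneg_left ?_ (by positivity)
  have hX : 0 ≤ L.xx Ψ := Lv.xx_nonneg hl
  have hη := hc.pos.le
  have hn := nsq_nonneg Ψ
  obtain ⟨s1, -, s3⟩ := AQKo_eta_s hc
  set e := K * (η * L.xx Ψ + √(nsq Ψ * L.xx Ψ)) with he
  have he0 : 0 ≤ e := by positivity
  have hterm : ∀ s ∈ Icc 1 (min p p'), (if s = p ∧ s = p' then (0 : ℝ) else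
      √(L.AA x y (p - s) X') * √(L.AA x' y' (p' - s) X)) ≤ if s = 1 then √q * √q' else e := by
    intro s hs
    rw [Finset.mem_Icc] at hs
    have hsp : s ≤ p := hs.2.trans (min_le_left _ _)
    have hsp' : s ≤ p' := hs.2.trans (min_le_right _ _)
    by_cases hpp : s = p ∧ s = p'
    · rw [if_pos hpp]
      split_ifs <;> positivity
    rw [if_neg hpp]
    have w1 := AQKo_Wr_nonneg (ι := ι) L hl h2 h3 (p - s)
    have w2 := AQKo_Wr_nonneg (ι := ι) L hl g2 g3 (p' - s)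
    have x1 : 0 ≤ ex (L.Wr x y (p - s)) Ψ := ex_nonneg w1
    have x2 : 0 ≤ ex (L.Wr x' y' (p' - s)) Ψ := ex_nonneg w2
    have a1 := mul_nonneg h1 x1
    have a2 := mul_nonneg g1 x2
    refine (AQKo_sqrt_swap h1 g1 (g7 _ w1 (L.lowInv_Wr x y (p - s)))
      (h7 _ w2 (L.lowInv_Wr x' y' (p' - s)))).trans ?_
    by_cases hs1 : s = 1
    · rw [if_pos hs1]
      subst hs1
      exact mul_le_mul (Real.sqrt_le_sqrt h10) (Real.sqrt_le_sqrt g10) (Real.sqrt_nonneg _)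
        (Real.sqrt_nonneg _)
    rw [if_neg hs1]
    have k1 : K * √(nsq Ψ * L.xx Ψ) ≤ e := by
      rw [he]
      exact mul_le_mul_of_nonneg_left (le_add_of_nonneg_left (by positivity)) hK
    have k2 : K * (η * L.xx Ψ) ≤ e := by
      rw [he]
      exact mul_le_mul_of_nonneg_left (le_add_of_nonneg_right (by positivity)) hK
    by_cases e1 : s = p
    · have b2 := g9 (p' - s) (by omega) (by omega)
      rw [show p' - (p' - s) - 1 = p - 1 by omega] at b2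
      rw [show p - s = 0 by omega] at a1 ⊢
      exact (AQKo_mixed a1 a2 hK hn h8 b2).trans k1
    by_cases e2 : s = p'
    · have b1 := h9 (p - s) (by omega) (by omega)
      rw [show p - (p - s) - 1 = p' - 1 by omega] at b1
      rw [show p' - s = 0 by omega] at a2 ⊢
      rw [mul_comm]
      exact (AQKo_mixed a2 a1 hK hn g8 b1).trans k1
    have b1 := h9 (p - s) (by omega) (by omega)
    have b2 := g9 (p' - s) (by omega) (by omega)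
    rw [show p - (p - s) - 1 = s - 1 by omega] at b1
    rw [show p' - (p' - s) - 1 = s - 1 by omega] at b2
    refine (AQKo_both a1 a2 hη ?_ b1 b2).trans k2
    refine s1.trans (mul_le_mul_of_nonneg_left ?_ hη)
    exact le_self_pow₀ s3 (by omega)
  refine (Finset.sum_le_sum hterm).trans ?_
  have hsub : Icc 1 (min p p') ⊆ ({1, 2, 3, 4} : Finset ℕ) := by
    intro s hs
    rw [Finset.mem_Icc] at hs
    have := hs.2.trans (min_le_left _ _)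
    simp only [Finset.mem_insert, Finset.mem_singleton]
    omega
  refine (Finset.sum_le_sum_of_subset_of_nonneg hsub fun s _ _ => ?_).trans ?_
  · split_ifs <;> positivity
  · simp
    linarith

/-- a combination of channels -/
def AQKo_Dec (L : Lv I) (K : ℝ) (Ψ : (ι → I) → ℝ) {p : ℕ} (A : (Fin p ↪ ι) → (ι → I) → ℝ)
    (a M : ℝ) : Prop :=
  ∃ (J : Type) (s : Finset J) (c : J → ℝ) (T : J → (Fin p → I) → ℝ)
    (X : J → (Fin p ↪ ι) → (ι → I) → ℝ) (q : J → ℝ),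
    (∀ ρ α, A ρ α = ∑ ν ∈ s, c ν * (T ν (α ∘ ρ) * X ν ρ α)) ∧
    (∀ ν ∈ s, AQKo_Good L K Ψ (T ν) (X ν) (q ν)) ∧ ∑ ν ∈ s, |c ν| ≤ M ∧
    ∑ ν ∈ s, |c ν| * √(q ν) ≤ a

theorem AQKo_Dec.mono {L : Lv I} {K : ℝ} {Ψ : (ι → I) → ℝ} {p : ℕ}
    {A : (Fin p ↪ ι) → (ι → I) → ℝ} {a M a' M' : ℝ} (h : AQKo_Dec L K Ψ A a M) (ha : a ≤ a')
    (hM : M ≤ M') : AQKo_Dec L K Ψ A a' M' := by
  obtain ⟨J, s, c, T, X, q, h1, h2, h3, h4⟩ := h
  exact ⟨J, s, c, T, X, q, h1, h2, h3.trans hM, h4.trans ha⟩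

theorem AQKo_Dec.add {L : Lv I} {K : ℝ} {Ψ : (ι → I) → ℝ} {p : ℕ}
    {A A' B : (Fin p ↪ ι) → (ι → I) → ℝ} {a M a' M' : ℝ} (h : AQKo_Dec L K Ψ A a M)
    (h' : AQKo_Dec L K Ψ A' a' M') (hB : ∀ ρ α, B ρ α = A ρ α + A' ρ α) :
    AQKo_Dec L K Ψ B (a + a') (M + M') := by
  obtain ⟨J, s, c, T, X, q, h1, h2, h3, h4⟩ := h
  obtain ⟨J', s', c', T', X', q', g1, g2, g3, g4⟩ := h'
  refine ⟨J ⊕ J', s.disjSum s', Sum.elim c c', Sum.elim T T', Sum.elim X X', Sum.elim q q',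
    fun ρ α => ?_, fun ν hν => ?_, ?_, ?_⟩
  · rw [hB, h1, g1, Finset.sum_disjSum]
    rfl
  · rcases ν with ν | ν
    · exact h2 ν (Finset.inl_mem_disjSum.mp hν)
    · exact g2 ν (Finset.inr_mem_disjSum.mp hν)
  · rw [Finset.sum_disjSum]
    exact add_le_add h3 g3
  · rw [Finset.sum_disjSum]
    exact add_le_add h4 g4

theorem AQKo_Dec.pair {L : Lv I} (ho : L.o ∈ L.low) (hl : ∀ a, 0 ≤ L.lam a) {η K κ₀ : ℝ}
    {Ψ : (ι → I) → ℝ} (hc : L.Ctx η Ψ) (hK : 0 ≤ K) {ϖ : I → ℝ} (hϖ : ∀ a, 0 ≤ ϖ a) (hκ : 0 ≤ κ₀)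
    (hϖ' : ∀ a, a ∉ L.low → ϖ a ≤ κ₀ * L.lam a) {p p' : ℕ} (hp : p ≤ 4) (hp' : p' ≤ 4)
    {A : (Fin p ↪ ι) → (ι → I) → ℝ} {A' : (Fin p' ↪ ι) → (ι → I) → ℝ} {a M a' M' : ℝ}
    (h : AQKo_Dec L K Ψ A a M) (h' : AQKo_Dec L K Ψ A' a' M') :
    |offS ϖ A A'| ≤
      κ₀ * 2 ^ 14 * (a * a' + M * M' * (3 * (K * (η * L.xx Ψ + √(nsq Ψ * L.xx Ψ))))) := by
  obtain ⟨J, s, c, T, X, q, h1, h2, h3, h4⟩ := h
  obtain ⟨J', s', c', T', X', q', g1, g2, g3, g4⟩ := h'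
  have eA : A = fun (ρ : Fin p ↪ ι) α => ∑ ν ∈ s, c ν * (T ν (α ∘ ρ) * X ν ρ α) := by
    funext ρ α
    exact h1 ρ α
  have eA' : A' = fun (ρ : Fin p' ↪ ι) α => ∑ ν ∈ s', c' ν * (T' ν (α ∘ ρ) * X' ν ρ α) := by
    funext ρ α
    exact g1 ρ α
  have hX : 0 ≤ L.xx Ψ := Lv.xx_nonneg hl
  have hη := hc.pos.le
  set e := 3 * (K * (η * L.xx Ψ + √(nsq Ψ * L.xx Ψ))) with he
  have he0 : 0 ≤ e := by positivity
  rw [eA, eA', offS_sum s s' ϖ c c' (fun ν (ρ : Fin p ↪ ι) α => T ν (α ∘ ρ) * X ν ρ α)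
    (fun ν (ρ : Fin p' ↪ ι) α => T' ν (α ∘ ρ) * X' ν ρ α)]
  have n1 : 0 ≤ ∑ ν ∈ s, |c ν| := Finset.sum_nonneg fun _ _ => abs_nonneg _
  have n2 : 0 ≤ ∑ ν ∈ s', |c' ν| := Finset.sum_nonneg fun _ _ => abs_nonneg _
  have n3 : 0 ≤ ∑ ν ∈ s, |c ν| * √(q ν) := Finset.sum_nonneg fun _ _ => by positivity
  have n4 : 0 ≤ ∑ ν ∈ s', |c' ν| * √(q' ν) := Finset.sum_nonneg fun _ _ => by positivity
  calc |∑ ν ∈ s, ∑ ν' ∈ s', c ν * c' ν' *
          offS ϖ (fun (ρ : Fin p ↪ ι) α => T ν (α ∘ ρ) * X ν ρ α)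
          (fun (ρ : Fin p' ↪ ι) α => T' ν' (α ∘ ρ) * X' ν' ρ α)|
      ≤ ∑ ν ∈ s, ∑ ν' ∈ s', |c ν| * |c' ν'| * (κ₀ * 2 ^ 14 * (√(q ν) * √(q' ν') + e)) := by
        refine (Finset.abs_sum_le_sum_abs _ _).trans (Finset.sum_le_sum fun ν hν => ?_)
        refine (Finset.abs_sum_le_sum_abs _ _).trans (Finset.sum_le_sum fun ν' hν' => ?_)
        rw [abs_mul, abs_mul]
        exact mul_le_mul_of_nonneg_left
          (AQKo_pair ho hl hc hK hϖ hκ hϖ' hp hp' (h2 ν hν) (g2 ν' hν')) (by positivity)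
    _ = κ₀ * 2 ^ 14 * ((∑ ν ∈ s, |c ν| * √(q ν)) * (∑ ν ∈ s', |c' ν| * √(q' ν)) +
          (∑ ν ∈ s, |c ν|) * (∑ ν ∈ s', |c' ν|) * e) := by
        rw [Finset.sum_mul_sum, Finset.sum_mul_sum, Finset.sum_mul, ← Finset.sum_add_distrib,
          Finset.mul_sum]
        refine Finset.sum_congr rfl fun ν _ => ?_
        rw [Finset.sum_mul, ← Finset.sum_add_distrib, Finset.mul_sum]
        exact Finset.sum_congr rfl fun ν' _ => by ring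
    _ ≤ _ := by
        refine mul_le_mul_of_nonneg_left (add_le_add ?_ ?_) (by positivity)
        · exact mul_le_mul h4 g4 n4 (n3.trans h4)
        · exact mul_le_mul_of_nonneg_right (mul_le_mul h3 g3 n2 (n1.trans h3)) he0

theorem AQKo_fx_nonneg {s Λ θ A : ℝ} (hs : 0 ≤ s) (hΛ : 0 ≤ Λ) (hθ : 0 ≤ θ) (hA : 0 ≤ A)
    (p r : ℕ) : 0 ≤ fx s Λ θ A A p r := by
  unfold fx
  split_ifs <;> positivity

theorem AQKo_fy_nonneg {s θ A : ℝ} (hs : 0 ≤ s) (hθ : 0 ≤ θ) (hA : 0 ≤ A) (p r : ℕ) :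
    0 ≤ fy s θ A p r := by
  unfold fy
  split_ifs <;> positivity

theorem AQKo_theta {L : Lv I} {η : ℝ} {Ψ : (ι → I) → ℝ} (h : L.Ctx η Ψ) :
    1 ≤ 1 / η ^ 2 ∧ 1 / η ^ 2 ≤ √(Fintype.card ι : ℝ) := by
  have h1 := h.pos
  have h2 : η ^ 2 ≤ 1 := pow_le_one₀ h1.le h.le_one
  obtain ⟨-, s2, -⟩ := AQKo_eta_s h
  constructor
  · rw [le_div_iff₀ (by positivity)]
    linarith
  · rw [div_le_iff₀ (by positivity)]
    linarith

theorem AQKo_kz_le {L : Lv I} (hl : ∀ a, 0 ≤ L.lam a) (Ψ : (ι → I) → ℝ) :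
    0 ≤ L.kk Ψ ∧ 0 ≤ L.zz Ψ ∧ L.kk Ψ + L.zz Ψ ≤ L.xx Ψ := by
  have h1 : 0 ≤ L.ll Ψ := Lv.ll_nonneg
  refine ⟨Lv.kk_nonneg, Lv.zz_nonneg hl, ?_⟩
  unfold Lv.xx
  linarith

theorem AQKo_scale {m A G s u : ℝ} {e : ℕ} (hs : 0 < s) (hu : 0 ≤ u) (h : m * A ≤ G * s ^ e) :
    m * A / s ^ e * u ≤ G * u :=
  mul_le_mul_of_nonneg_right ((div_le_iff₀ (by positivity)).mpr h) hu

/-- the bound at two exchanged legs -/
theorem AQKo_r2 {L : Lv I} (ho : L.o ∈ L.low) (hl : ∀ a, 0 ≤ L.lam a) {η Λ A : ℝ}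
    {Ψ : (ι → I) → ℝ} (hc : L.Ctx η Ψ) (hA : 0 ≤ A) (p : ℕ) :
    ex (L.Wr (fx √(Fintype.card ι : ℝ) Λ (1 / η ^ 2) A A p)
      (fy √(Fintype.card ι : ℝ) (1 / η ^ 2) A p) 2) Ψ ≤
      A / √(Fintype.card ι : ℝ) ^ (3 * p + 1) * (η ^ 2 * (2 * L.xx Ψ)) := by
  obtain ⟨-, -, s3⟩ := AQKo_eta_s hc
  obtain ⟨k0, z0, kz⟩ := AQKo_kz_le hl Ψ
  have hη := hc.pos
  have hN : (Fintype.card ι : ℝ) = √(Fintype.card ι : ℝ) ^ 2 :=
    (Real.sq_sqrt (Nat.cast_nonneg _)).symm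
  have ex2 : fx √(Fintype.card ι : ℝ) Λ (1 / η ^ 2) A A p 2 =
      A * (1 / η ^ 2) / √(Fintype.card ι : ℝ) ^ (3 * p + 3) := by simp [fx]
  have ey2 : fy √(Fintype.card ι : ℝ) (1 / η ^ 2) A p 2 =
      A / (1 / η ^ 2 * √(Fintype.card ι : ℝ) ^ (3 * p + 3)) := by simp [fy]
  refine (AQKo_e2 ho hl hc (by rw [ex2]; positivity) (by rw [ey2]; positivity)).trans ?_
  rw [ex2, ey2]
  generalize √(Fintype.card ι : ℝ) = s at *
  rw [hN]
  have hs : 0 < s := by linarith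
  have e : A * (1 / η ^ 2) / s ^ (3 * p + 3) * (η ^ 4 * s ^ 2 * L.kk Ψ) +
      2 * (A / (1 / η ^ 2 * s ^ (3 * p + 3))) * (s ^ 2 * L.zz Ψ) =
      A / s ^ (3 * p + 1) * (η ^ 2 * (L.kk Ψ + 2 * L.zz Ψ)) := by
    field_simp
    ring
  rw [e]
  refine mul_le_mul_of_nonneg_left (mul_le_mul_of_nonneg_left ?_ (by positivity)) (by positivity)
  linarith

theorem AQKo_good2 {L : Lv I} (hl : ∀ a, 0 ≤ L.lam a) {η Λ K A G m : ℝ}
    {Ψ : (ι → I) → ℝ} (hc : L.Ctx η Ψ) (hΛ : 1 ≤ Λ) {T : (Fin 2 → I) → ℝ}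
    {X : (Fin 2 ↪ ι) → (ι → I) → ℝ} (hA : 0 ≤ A) (hm : 0 ≤ m)
    (hT : L.FamOK √(Fintype.card ι : ℝ) Λ T A A) (hz : ∀ α, ¬L.Hi α → T α = 0) (hX : Indep X)
    (hcount : ∀ W : (ι → I) → ℝ, (∀ α, 0 ≤ W α) → L.LowInv W →
      ∑ ρ, ∑ α ∈ L.vac ρ, W α * X ρ α ^ 2 ≤ m * ex W Ψ)
    (hG : m * A ≤ G * √(Fintype.card ι : ℝ) ^ 6) (hK : G ≤ K) :
    AQKo_Good L K Ψ T X (G / Λ * L.kk Ψ) := by
  obtain ⟨t1, t2⟩ := AQKo_theta hc
  obtain ⟨-, -, s3⟩ := AQKo_eta_s hc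
  obtain ⟨k0, z0, kz⟩ := AQKo_kz_le hl Ψ
  have hn := nsq_nonneg Ψ
  have hs : 0 < √(Fintype.card ι : ℝ) := by linarith
  refine ⟨m, _, _, hm, AQKo_fx_nonneg hs.le (by linarith) (by linarith) hA 2,
    AQKo_fy_nonneg hs.le (by linarith) hA 2, hT _ t1 t2, hz, hX, hcount, ?_, ?_, ?_⟩
  · rw [AQKo_e0]
    simp only [fx, if_true]
    generalize √(Fintype.card ι : ℝ) = s at *
    calc m * (A / s ^ (3 * 2 - 1) * nsq Ψ) = m * A / s ^ 6 * (s * nsq Ψ) := by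
          field_simp
          ring
      _ ≤ G * (s * nsq Ψ) := AQKo_scale hs (by positivity) hG
      _ ≤ K * (s * nsq Ψ) := mul_le_mul_of_nonneg_right hK (by positivity)
      _ = _ := by ring
  · intro r h1 h2
    omega
  · rw [show 2 - 1 = 1 from rfl, AQKo_e1 _ _ _ (by simp [fy])]
    have e : fx √(Fintype.card ι : ℝ) Λ (1 / η ^ 2) A A 2 1 =
        A / (√(Fintype.card ι : ℝ) ^ 6 * Λ) := by simp [fx]
    rw [e]
    generalize √(Fintype.card ι : ℝ) = s at *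
    have hΛ0 : 0 < Λ := by linarith
    calc m * (A / (s ^ 6 * Λ) * L.kk Ψ) = m * A / s ^ 6 * (L.kk Ψ / Λ) := by
          field_simp
      _ ≤ G * (L.kk Ψ / Λ) := AQKo_scale hs (by positivity) hG
      _ = _ := by ring

theorem AQKo_good3 {L : Lv I} (ho : L.o ∈ L.low) (hl : ∀ a, 0 ≤ L.lam a) {η Λ K A G m : ℝ}
    {Ψ : (ι → I) → ℝ} (hc : L.Ctx η Ψ) (hΛ : 1 ≤ Λ) {T : (Fin 3 → I) → ℝ}
    {X : (Fin 3 ↪ ι) → (ι → I) → ℝ} (hA : 0 ≤ A) (hm : 0 ≤ m)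
    (hT : L.FamOK √(Fintype.card ι : ℝ) Λ T A A) (hz : ∀ α, ¬L.Hi α → T α = 0) (hX : Indep X)
    (hcount : ∀ W : (ι → I) → ℝ, (∀ α, 0 ≤ W α) → L.LowInv W →
      ∑ ρ, ∑ α ∈ L.vac ρ, W α * X ρ α ^ 2 ≤ m * ex W Ψ)
    (hG0 : 0 ≤ G) (hG : m * A ≤ G * √(Fintype.card ι : ℝ) ^ 10) (hK : 2 * G ≤ K) :
    AQKo_Good L K Ψ T X (K * η ^ 2 * L.xx Ψ) := by
  obtain ⟨t1, t2⟩ := AQKo_theta hc
  obtain ⟨-, -, s3⟩ := AQKo_eta_s hc
  obtain ⟨k0, z0, kz⟩ := AQKo_kz_le hl Ψ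
  have hn := nsq_nonneg Ψ
  have hs : 0 < √(Fintype.card ι : ℝ) := by linarith
  have hx : 0 ≤ L.xx Ψ := by linarith
  refine ⟨m, _, _, hm, AQKo_fx_nonneg hs.le (by linarith) (by linarith) hA 3,
    AQKo_fy_nonneg hs.le (by linarith) hA 3, hT _ t1 t2, hz, hX, hcount, ?_, ?_, ?_⟩
  · rw [AQKo_e0]
    simp only [fx, if_true]
    generalize √(Fintype.card ι : ℝ) = s at *
    calc m * (A / s ^ (3 * 3 - 1) * nsq Ψ) = m * A / s ^ 10 * (s ^ 2 * nsq Ψ) := by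
          field_simp
          ring
      _ ≤ G * (s ^ 2 * nsq Ψ) := AQKo_scale hs (by positivity) hG
      _ ≤ K * (s ^ 2 * nsq Ψ) := mul_le_mul_of_nonneg_right (by linarith) (by positivity)
      _ = _ := by ring
  · intro r h1 h2
    obtain rfl : r = 1 := by omega
    rw [AQKo_e1 _ _ _ (by simp [fy])]
    have e : fx √(Fintype.card ι : ℝ) Λ (1 / η ^ 2) A A 3 1 =
        A / √(Fintype.card ι : ℝ) ^ 11 := by simp [fx]
    rw [e]
    generalize √(Fintype.card ι : ℝ) = s at *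
    calc m * (A / s ^ 11 * L.kk Ψ) * s ^ (3 - 1 - 1) = m * A / s ^ 10 * L.kk Ψ := by
          field_simp
          ring
      _ ≤ G * L.kk Ψ := AQKo_scale hs k0 hG
      _ ≤ K * L.xx Ψ := mul_le_mul (by linarith) (by linarith) k0 (by linarith)
  · refine (mul_le_mul_of_nonneg_left (AQKo_r2 ho hl hc hA 3) hm).trans ?_
    generalize √(Fintype.card ι : ℝ) = s at *
    calc m * (A / s ^ (3 * 3 + 1) * (η ^ 2 * (2 * L.xx Ψ))) =
          m * A / s ^ 10 * (η ^ 2 * (2 * L.xx Ψ)) := by ring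
      _ ≤ G * (η ^ 2 * (2 * L.xx Ψ)) := AQKo_scale hs (by positivity) hG
      _ = 2 * G * (η ^ 2 * L.xx Ψ) := by ring
      _ ≤ K * (η ^ 2 * L.xx Ψ) := mul_le_mul_of_nonneg_right hK (by positivity)
      _ = _ := by ring

theorem AQKo_good4 {L : Lv I} (ho : L.o ∈ L.low) (hl : ∀ a, 0 ≤ L.lam a) {η Λ K A G m : ℝ}
    {Ψ : (ι → I) → ℝ} (hc : L.Ctx η Ψ) (hΛ : 1 ≤ Λ) {T : (Fin 4 → I) → ℝ}
    {X : (Fin 4 ↪ ι) → (ι → I) → ℝ} (hA : 0 ≤ A) (hm : 0 ≤ m)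
    (hT : L.FamOK √(Fintype.card ι : ℝ) Λ T A A) (hz : ∀ α, ¬L.Hi α → T α = 0) (hX : Indep X)
    (hcount : ∀ W : (ι → I) → ℝ, (∀ α, 0 ≤ W α) → L.LowInv W →
      ∑ ρ, ∑ α ∈ L.vac ρ, W α * X ρ α ^ 2 ≤ m * ex W Ψ)
    (hG0 : 0 ≤ G) (hG : m * A ≤ G * √(Fintype.card ι : ℝ) ^ 12) (hK : 3 * G ≤ K) :
    AQKo_Good L K Ψ T X (K * η ^ 2 * L.xx Ψ) := by
  obtain ⟨t1, t2⟩ := AQKo_theta hc
  obtain ⟨-, -, s3⟩ := AQKo_eta_s hc
  obtain ⟨k0, z0, kz⟩ := AQKo_kz_le hl Ψ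
  have hn := nsq_nonneg Ψ
  have hs : 0 < √(Fintype.card ι : ℝ) := by linarith
  have hx : 0 ≤ L.xx Ψ := by linarith
  have hη := hc.pos
  have hη2 : η ^ 2 ≤ 1 := pow_le_one₀ hη.le hc.le_one
  have hN : (Fintype.card ι : ℝ) = √(Fintype.card ι : ℝ) ^ 2 :=
    (Real.sq_sqrt (Nat.cast_nonneg _)).symm
  refine ⟨m, _, _, hm, AQKo_fx_nonneg hs.le (by linarith) (by linarith) hA 4,
    AQKo_fy_nonneg hs.le (by linarith) hA 4, hT _ t1 t2, hz, hX, hcount, ?_, ?_, ?_⟩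
  · rw [AQKo_e0]
    simp only [fx, if_true]
    generalize √(Fintype.card ι : ℝ) = s at *
    calc m * (A / s ^ (3 * 4 - 1) * nsq Ψ) = m * A / s ^ 12 * (s * nsq Ψ) := by
          field_simp
          ring
      _ ≤ G * (s * nsq Ψ) := AQKo_scale hs (by positivity) hG
      _ ≤ K * (s ^ (4 - 1) * nsq Ψ) :=
          mul_le_mul (by linarith) (mul_le_mul_of_nonneg_right (le_self_pow₀ s3 (by norm_num)) hn)
            (by positivity) (by linarith)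
      _ = _ := by ring
  · intro r h1 h2
    obtain rfl | rfl : r = 1 ∨ r = 2 := by omega
    · rw [AQKo_e1 _ _ _ (by simp [fy])]
      have e : fx √(Fintype.card ι : ℝ) Λ (1 / η ^ 2) A A 4 1 =
          A / √(Fintype.card ι : ℝ) ^ 14 := by simp [fx]
      rw [e]
      generalize √(Fintype.card ι : ℝ) = s at *
      calc m * (A / s ^ 14 * L.kk Ψ) * s ^ (4 - 1 - 1) = m * A / s ^ 12 * L.kk Ψ := by
            field_simp
            ring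
        _ ≤ G * L.kk Ψ := AQKo_scale hs k0 hG
        _ ≤ K * L.xx Ψ := mul_le_mul (by linarith) (by linarith) k0 (by linarith)
    · refine (mul_le_mul_of_nonneg_right (mul_le_mul_of_nonneg_left (AQKo_r2 ho hl hc hA 4) hm)
        (by positivity)).trans ?_
      generalize √(Fintype.card ι : ℝ) = s at *
      calc m * (A / s ^ (3 * 4 + 1) * (η ^ 2 * (2 * L.xx Ψ))) * s ^ (4 - 2 - 1) =
            m * A / s ^ 12 * (η ^ 2 * (2 * L.xx Ψ)) := by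
            field_simp
            ring
        _ ≤ G * (η ^ 2 * (2 * L.xx Ψ)) := AQKo_scale hs (by positivity) hG
        _ ≤ G * (1 * (2 * L.xx Ψ)) :=
            mul_le_mul_of_nonneg_left (mul_le_mul_of_nonneg_right hη2 (by positivity)) hG0
        _ = 2 * G * L.xx Ψ := by ring
        _ ≤ K * L.xx Ψ := mul_le_mul_of_nonneg_right (by linarith) hx
  · have ey : fy √(Fintype.card ι : ℝ) (1 / η ^ 2) A 4 3 = A / √(Fintype.card ι : ℝ) ^ 16 := by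
      simp [fy]
    refine (mul_le_mul_of_nonneg_left (AQKo_e3 ho hl hc (by simp [fx])
      (by rw [ey]; positivity)) hm).trans ?_
    rw [ey]
    generalize √(Fintype.card ι : ℝ) = s at *
    rw [hN]
    calc m * (3 * (A / s ^ 16) * (η ^ 4 * s ^ 2 * s ^ 2 * L.zz Ψ)) =
          m * A / s ^ 12 * (3 * (η ^ 2 * (η ^ 2 * L.zz Ψ))) := by
          field_simp
      _ ≤ G * (3 * (η ^ 2 * (η ^ 2 * L.zz Ψ))) := AQKo_scale hs (by positivity) hG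
      _ = 3 * G * (η ^ 2 * (η ^ 2 * L.zz Ψ)) := by ring
      _ ≤ K * (η ^ 2 * (1 * L.xx Ψ)) :=
          mul_le_mul hK (mul_le_mul_of_nonneg_left
            (mul_le_mul hη2 (by linarith) z0 zero_le_one) (by positivity)) (by positivity)
            (by linarith)
      _ = _ := by ring

theorem AQKo_count0 {L : Lv I} (ho : L.o ∈ L.low) {η : ℝ} {Ψ : (ι → I) → ℝ} (hc : L.Ctx η Ψ)
    {p c : ℕ} (h8 : c ≤ 8) {γ : Fin c → I} {β : Fin (p + c) → I} (hγ : γ ∈ L.lowF c)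
    (hβ : β ∈ L.lowF (p + c)) (W : (ι → I) → ℝ) (hW : ∀ α, 0 ≤ W α) (hinv : L.LowInv W) :
    ∑ ρ : Fin p ↪ ι, ∑ α ∈ L.vac ρ, W α * chan ρ γ β Ψ α ^ 2 ≤
      2 ^ (p + 2 * c) * √(Fintype.card ι : ℝ) ^ (2 * (p + 2 * c)) * ex W Ψ := by
  by_cases hΨ : Ψ = 0
  · subst hΨ
    simp [chan, ex]
  have h1 : (c : ℝ) ≤ Fintype.card ι := (Nat.cast_le.mpr h8).trans (by simpa using hc.eight_le.2 hΨ)
  have := L.chan_count (j := 0) ho hγ hβ (Nat.zero_le _) (Nat.cast_le.mp h1) hW hinv Ψ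
  rw [pow_mul, Real.sq_sqrt (Nat.cast_nonneg _)]
  simpa using this

theorem AQKo_count1 {L : Lv I} (ho : L.o ∈ L.low) {η : ℝ} {Ψ : (ι → I) → ℝ} (hc : L.Ctx η Ψ)
    {γ : Fin 1 → I} {β : Fin (2 + 1) → I} (hγ : γ ∈ L.lowF 1)
    (hβ : β ∈ L.lowF (2 + 1)) (hne : (γ, β) ≠ (L.oo 1, L.oo (2 + 1))) (W : (ι → I) → ℝ)
    (hW : ∀ α, 0 ≤ W α) (hinv : L.LowInv W) :
    ∑ ρ : Fin 2 ↪ ι, ∑ α ∈ L.vac ρ, W α * chan ρ γ β Ψ α ^ 2 ≤
      16 * η ^ 4 * √(Fintype.card ι : ℝ) ^ 8 * ex W Ψ := by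
  have hj : 1 ≤ L.nno γ + L.nno β := by
    by_contra hcon
    have e1 : L.nno γ = 0 := by omega
    have e2 : L.nno β = 0 := by omega
    simp only [Lv.nno, Finset.card_eq_zero, Finset.filter_eq_empty_iff, Finset.mem_univ,
      true_imp_iff, not_not] at e1 e2
    exact hne (Prod.ext (funext fun j => @e1 j) (funext fun j => @e2 j))
  have h1 : ((1 : ℕ) : ℝ) ≤ Fintype.card ι := by simpa using hc.eight_le.1
  refine (L.chan_count (j := 1) ho hγ hβ hj (Nat.cast_le.mp h1) hW hinv Ψ).trans ?_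
  have h2 := hc.ex_np_mul (c := ((1 : ℕ) : ℝ)) (by norm_num) hW
  simp only [pow_one]
  rw [show (8 : ℕ) = 2 * 4 from rfl, pow_mul, Real.sq_sqrt (Nat.cast_nonneg _)]
  refine (mul_le_mul_of_nonneg_left h2 (by positivity)).trans (le_of_eq ?_)
  norm_num
  ring

theorem AQKo_resK_hz (L : Lv I) (F : (κ → I) → ℝ) (α : κ → I) (h : ¬L.Hi α) :
    L.resK F α = 0 := by
  simp [Lv.resK, h]

theorem AQKo_famOK_zero {L : Lv I} (hl : ∀ a, 0 ≤ L.lam a) {s Λ A : ℝ} (hs : 0 ≤ s) (hΛ : 0 ≤ Λ)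
    (hA : 0 ≤ A) (p : ℕ) : L.FamOK s Λ (L.resK fun _ : Fin p → I => 0) A A := by
  intro θ h1 _ b R _ ζ h
  have e : ∀ α : Fin p → I, L.resK (fun _ : Fin p → I => 0) α = 0 := fun α => by simp [Lv.resK]
  simp only [e, mul_zero, zero_mul, Finset.sum_const_zero]
  rw [zero_pow two_ne_zero]
  refine mul_nonneg (Finset.sum_nonneg fun _ _ => sq_nonneg _)
    (Finset.sum_nonneg fun α _ => mul_nonneg ?_ (sq_nonneg _))
  unfold Lv.wtH
  split_ifs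
  · exact add_nonneg (AQKo_fx_nonneg hs hΛ (by linarith) hA _ _)
      (mul_nonneg (AQKo_fy_nonneg hs (by linarith) hA _ _) (Finset.sum_nonneg fun _ _ => hl _))
  · exact le_rfl

theorem AQKo_dec_src {L : Lv I} {K C a b : ℝ} {Ψ : (ι → I) → ℝ} (hC : 1 ≤ C)
    (hcard : (L.low.card : ℝ) ≤ C) (p c : ℕ) (hpc : p + 2 * c ≤ 6)
    (F : (Fin (p + c) → I) → (Fin (p + c) → I) → ℝ) (ha : 0 ≤ a) (hb : 0 ≤ b)
    (q : (Fin c → I) × (Fin (p + c) → I) → ℝ)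
    (hq : ∀ ν, √(q ν) ≤ (if ν = (L.oo c, L.oo (p + c)) then a else 0) + b)
    (h : ∀ γ ∈ L.lowF c, ∀ β ∈ L.lowF (p + c), AQKo_Good L K Ψ
      (L.resK fun u => F (Fin.append u γ) β) (fun ρ α => chan ρ γ β Ψ α) (q (γ, β))) :
    AQKo_Dec L K Ψ (L.gen fun ρ α => L.src p c F ρ Ψ α) (a + C ^ 6 * b) (C ^ 6) := by
  have hc1 : |1 / (c.factorial : ℝ)| ≤ 1 := by
    rw [abs_of_nonneg (by positivity), div_le_one (by positivity)]
    exact_mod_cast Nat.factorial_pos c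
  have hs : (((L.lowF c ×ˢ L.lowF (p + c)).card : ℕ) : ℝ) ≤ C ^ 6 := by
    rw [Finset.card_product, L.card_lowF, L.card_lowF, ← pow_add, Nat.cast_pow]
    exact (pow_le_pow_left₀ (Nat.cast_nonneg _) hcard _).trans (pow_le_pow_right₀ hC (by omega))
  refine ⟨_, L.lowF c ×ˢ L.lowF (p + c), fun _ => 1 / (c.factorial : ℝ),
    fun ν => L.resK fun u => F (Fin.append u ν.1) ν.2, fun ν ρ α => chan ρ ν.1 ν.2 Ψ α, q,
    fun ρ α => L.gen_src p c F Ψ ρ α, fun ν hν => ?_, ?_, ?_⟩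
  · rw [Finset.mem_product] at hν
    exact h _ hν.1 _ hν.2
  · refine (Finset.sum_le_card_nsmul _ _ 1 fun _ _ => hc1).trans ?_
    simpa using hs
  · calc _ ≤ ∑ ν ∈ L.lowF c ×ˢ L.lowF (p + c),
          ((if ν = (L.oo c, L.oo (p + c)) then a else 0) + b) :=
          Finset.sum_le_sum fun ν _ =>
            (mul_le_of_le_one_left (Real.sqrt_nonneg _) hc1).trans (hq ν)
      _ ≤ a + C ^ 6 * b := by
          rw [Finset.sum_add_distrib, Finset.sum_ite_eq', Finset.sum_const, nsmul_eq_mul]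
          refine add_le_add ?_ (mul_le_mul_of_nonneg_right hs hb)
          split_ifs
          · exact le_rfl
          · exact ha

theorem AQKo_append0 {p : ℕ} (u : Fin p → I) (γ : Fin 0 → I) : Fin.append u γ = u :=
  funext fun j => Fin.append_left u γ j

theorem AQKo_decs {C : ℝ} {D : Dat I E} {γ Λ C₀ η : ℝ} {Ψ : (ι → I) → ℝ} (hB : D.Base γ Λ C₀ C)
    (hN : D.Norms √(Fintype.card ι : ℝ) Λ C₀ C) (hc : D.Ctx η Ψ) {a b : ℝ}
    (ha : a = √(16 * C₀ ^ 2 / Λ * D.kk Ψ)) (hb : b = √(64 * C ^ 2 * η ^ 2 * D.xx Ψ)) :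
    AQKo_Dec D.toLv (64 * C ^ 2) Ψ (D.gen (D.S2 Ψ)) (a + 2 * C ^ 6 * b) (2 * C ^ 6) ∧
    AQKo_Dec D.toLv (64 * C ^ 2) Ψ (D.gen (D.S3 Ψ)) (a + 2 * C ^ 6 * b) (2 * C ^ 6) ∧
    AQKo_Dec D.toLv (64 * C ^ 2) Ψ (D.gen (D.S4 Ψ)) (a + 2 * C ^ 6 * b) (2 * C ^ 6) := by
  have ho := hB.o_low
  have hl := hB.lam_nonneg
  have hΛ := hB.Λ_ge
  have hC0 := hB.C₀_ge
  have hC1 : 1 ≤ C := hC0.trans hB.C₀_le
  have hCC : C ≤ C ^ 2 := le_self_pow₀ hC1 two_ne_zero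
  have hC02 : C₀ ^ 2 ≤ C ^ 2 := pow_le_pow_left₀ (by linarith) hB.C₀_le 2
  obtain ⟨s1, -, s3⟩ := AQKo_eta_s hc
  obtain ⟨k0, z0, kz⟩ := AQKo_kz_le hl Ψ
  have hη := hc.pos
  have hη2 : η ^ 2 ≤ 1 := pow_le_one₀ hη.le hc.le_one
  have hs : 0 < √(Fintype.card ι : ℝ) := by linarith
  have ha0 : 0 ≤ a := by rw [ha]; positivity
  have hb0 : 0 ≤ b := by rw [hb]; positivity
  have hq0 : ∀ {J : Type} [DecidableEq J] (ν₀ ν : J),
      √(64 * C ^ 2 * η ^ 2 * D.xx Ψ) ≤ (if ν = ν₀ then (0 : ℝ) else 0) + b := by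
    intro J _ ν₀ ν
    rw [ite_self, zero_add, hb]
  have small : ∀ G : ℝ, 0 ≤ G → G ≤ 64 * C * η ^ 2 →
      G / Λ * D.kk Ψ ≤ 64 * C ^ 2 * η ^ 2 * D.xx Ψ := fun G h0 h1 => by
    refine mul_le_mul ((div_le_self h0 hΛ).trans (h1.trans ?_)) (by linarith) k0 (by positivity)
    exact mul_le_mul_of_nonneg_right (by linarith) (by positivity)
  have small' : 64 * C * η ^ 2 ≤ 64 * C ^ 2 :=
    (mul_le_of_le_one_right (by positivity) hη2).trans (by linarith)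
  have dA := AQKo_dec_src (K := 64 * C ^ 2) (Ψ := Ψ) hC1 hB.card_low 3 0 (by norm_num) D.F3 le_rfl
    hb0 (fun _ => 64 * C ^ 2 * η ^ 2 * D.xx Ψ) (hq0 _) fun g hg β hβ => by
      refine AQKo_good3 (A := C * √(Fintype.card ι : ℝ) ^ 4) (G := 8 * C) ho hl hc hΛ
        (by positivity) (by positivity) ?_ (AQKo_resK_hz _ _) (chan_indep g β Ψ)
        (AQKo_count0 ho hc (by norm_num) hg hβ) (by positivity) (le_of_eq (by ring)) (by linarith)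
      have e : (fun u : Fin 3 → I => D.F3 (Fin.append u g) β) = D.FA β :=
        funext fun u => congrArg (fun v => D.F3 v β) (AQKo_append0 u g)
      rw [e]
      exact hN.fA β hβ
  have dC := AQKo_dec_src (K := 64 * C ^ 2) (Ψ := Ψ) hC1 hB.card_low 4 0 (by norm_num) D.F4t le_rfl
    hb0 (fun _ => 64 * C ^ 2 * η ^ 2 * D.xx Ψ) (hq0 _) fun g hg β hβ => by
      refine AQKo_good4 (A := C * √(Fintype.card ι : ℝ) ^ 4) (G := 16 * C) ho hl hc hΛ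
        (by positivity) (by positivity) ?_ (AQKo_resK_hz _ _) (chan_indep g β Ψ)
        (AQKo_count0 ho hc (by norm_num) hg hβ) (by positivity) (le_of_eq (by ring)) (by linarith)
      by_cases hβ0 : β = D.oo 4
      · have e : (fun u : Fin 4 → I => D.F4t (Fin.append u g) β) = D.F4 :=
          funext fun u => (if_pos hβ0).trans (congrArg D.F4 (AQKo_append0 u g))
        rw [e]
        exact hN.fC
      · have e : (fun u : Fin 4 → I => D.F4t (Fin.append u g) β) = fun _ => 0 :=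
          funext fun u => if_neg hβ0
        rw [e]
        exact AQKo_famOK_zero hl hs.le (by linarith) (by positivity) 4
  have dD := AQKo_dec_src (K := 64 * C ^ 2) (Ψ := Ψ) hC1 hB.card_low 3 1 (by norm_num) D.F4t le_rfl
    hb0 (fun _ => 64 * C ^ 2 * η ^ 2 * D.xx Ψ) (hq0 _) fun g hg β hβ => by
      refine AQKo_good3 (A := C / √(Fintype.card ι : ℝ) ^ 2) (G := 32 * C) ho hl hc hΛ
        (by positivity) (by positivity) ?_ (AQKo_resK_hz _ _) (chan_indep g β Ψ)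
        (AQKo_count0 ho hc (by norm_num) hg hβ) (by positivity) ?_ (by linarith)
      · by_cases hβ0 : β = D.oo 4
        · have e : (fun u : Fin 3 → I => D.F4t (Fin.append u g) β) = D.FD g :=
            funext fun u => if_pos hβ0
          rw [e]
          exact hN.fD g hg
        · have e : (fun u : Fin 3 → I => D.F4t (Fin.append u g) β) = fun _ => 0 :=
            funext fun u => if_neg hβ0
          rw [e]
          exact AQKo_famOK_zero hl hs.le (by linarith) (by positivity) 3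
      · calc _ = 32 * (C / √(Fintype.card ι : ℝ) ^ 2) * √(Fintype.card ι : ℝ) ^ 10 := by ring
          _ ≤ _ := mul_le_mul_of_nonneg_right (mul_le_mul_of_nonneg_left
            (div_le_self (by positivity) (one_le_pow₀ s3)) (by norm_num)) (by positivity)
  have dE := AQKo_dec_src (K := 64 * C ^ 2) (Ψ := Ψ) hC1 hB.card_low 2 2 (by norm_num) D.F4t le_rfl
    hb0 (fun _ => 64 * C ^ 2 * η ^ 2 * D.xx Ψ) (hq0 _) fun g hg β hβ => by
      refine (AQKo_good2 (A := C / √(Fintype.card ι : ℝ) ^ 8) (G := 64 * C * η ^ 2) hl hc hΛ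
        (by positivity) (by positivity) ?_ (AQKo_resK_hz _ _) (chan_indep g β Ψ)
        (AQKo_count0 ho hc (by norm_num) hg hβ) ?_ small').mono
        (small _ (by positivity) le_rfl)
      · by_cases hβ0 : β = D.oo 4
        · have e : (fun u : Fin 2 → I => D.F4t (Fin.append u g) β) = D.FE g :=
            funext fun u => if_pos hβ0
          rw [e]
          exact hN.fE g hg
        · have e : (fun u : Fin 2 → I => D.F4t (Fin.append u g) β) = fun _ => 0 :=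
            funext fun u => if_neg hβ0
          rw [e]
          exact AQKo_famOK_zero hl hs.le (by linarith) (by positivity) 2
      · generalize √(Fintype.card ι : ℝ) = s at *
        calc _ = 64 * C * s ^ 4 * 1 := by
              norm_num
              field_simp
          _ ≤ 64 * C * s ^ 4 * (η * s) ^ 2 :=
              mul_le_mul_of_nonneg_left (one_le_pow₀ s1) (by positivity)
          _ = _ := by ring
  have dB := AQKo_dec_src (K := 64 * C ^ 2) (Ψ := Ψ) hC1 hB.card_low 2 1 (by norm_num) D.F3 ha0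
    hb0 (fun ν => if ν = (D.oo 1, D.oo (2 + 1)) then 16 * C₀ ^ 2 / Λ * D.kk Ψ else
      64 * C ^ 2 * η ^ 2 * D.xx Ψ)
    (fun ν => by
      split_ifs
      · rw [← ha]
        linarith
      · rw [← hb, zero_add])
    fun g hg β hβ => by
      by_cases hν : (g, β) = (D.oo 1, D.oo (2 + 1))
      · rw [if_pos hν]
        refine AQKo_good2 (A := C₀ ^ 2 / √(Fintype.card ι : ℝ) ^ 2) (G := 16 * C₀ ^ 2) hl hc hΛ
          (by positivity) (by positivity) ?_ (AQKo_resK_hz _ _) (chan_indep g β Ψ)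
          (AQKo_count0 ho hc (by norm_num) hg hβ) (le_of_eq ?_) (by linarith [sq_nonneg C])
        · obtain ⟨rfl, rfl⟩ := Prod.mk.inj hν
          exact hN.fB0
        · generalize √(Fintype.card ι : ℝ) = s at *
          norm_num
          field_simp
      · rw [if_neg hν]
        have h4 : η ^ 4 ≤ η ^ 2 := pow_le_pow_of_le_one hη.le hc.le_one (by norm_num)
        have h5 : 16 * C * η ^ 4 ≤ 64 * C * η ^ 2 :=
          mul_le_mul (by linarith) h4 (by positivity) (by positivity)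
        refine (AQKo_good2 (A := C / √(Fintype.card ι : ℝ) ^ 2) (G := 16 * C * η ^ 4) hl hc hΛ
          (by positivity) (by positivity) (hN.fB g hg β hβ) (AQKo_resK_hz _ _) (chan_indep g β Ψ)
          (AQKo_count1 ho hc hg hβ hν) (le_of_eq ?_) (h5.trans small')).mono
          (small _ (by positivity) h5)
        generalize √(Fintype.card ι : ℝ) = s at *
        field_simp
  have hM : 0 ≤ C ^ 6 * b := by positivity
  have hM' : 0 ≤ C ^ 6 := by positivity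
  refine ⟨(dB.add dE fun ρ α => D.gen_add _ _ ρ α).mono (by linarith) (by linarith),
    (dA.add dD fun ρ α => D.gen_add _ _ ρ α).mono (by linarith) (by linarith),
    dC.mono (by linarith) (by linarith)⟩

theorem AQKo_gen_perm (L : Lv I) {S : (κ ↪ ι) → (ι → I) → ℝ}
    (h : ∀ (π : Equiv.Perm κ) ρ α, S (π.toEmbedding.trans ρ) α = S ρ α) (π : Equiv.Perm κ)
    (ρ : κ ↪ ι) (α : ι → I) : L.gen S (π.toEmbedding.trans ρ) α = L.gen S ρ α := by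
  unfold Lv.gen
  have e1 : L.Hi (α ∘ (π.toEmbedding.trans ρ)) ↔ L.Hi (α ∘ ρ) :=
    ⟨fun hh j => by simpa using hh (π.symm j), fun hh j => hh (π j)⟩
  have e2 : ∑ j, L.lam (α ((π.toEmbedding.trans ρ) j)) = ∑ j, L.lam (α (ρ j)) :=
    Equiv.sum_comp π fun j => L.lam (α (ρ j))
  rw [h, e2]
  exact if_congr e1 rfl rfl

theorem AQKo_diff (ϖ : I → ℝ) (c c' : ℝ) {p p' : ℕ} (hp : p ≠ p') (A : (Fin p ↪ ι) → (ι → I) → ℝ)
    (A' : (Fin p' ↪ ι) → (ι → I) → ℝ) :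
    ∑ i, ∑ α : ι → I, ϖ (α i) * (c * cre A i α) * (c' * cre A' i α) = c * c' * offS ϖ A A' := by
  rw [← cre_mul_eq ϖ A A' (by simpa using hp), Finset.mul_sum]
  refine Finset.sum_congr rfl fun i _ => ?_
  rw [Finset.mul_sum]
  exact Finset.sum_congr rfl fun α _ => by ring

theorem AQKo_same (ϖ : I → ℝ) (c : ℝ) {p : ℕ} (hc : c * p.factorial = 1)
    (A : (Fin p ↪ ι) → (ι → I) → ℝ)
    (h : ∀ (π : Equiv.Perm (Fin p)) ρ α, A (π.toEmbedding.trans ρ) α = A ρ α) :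
    ∑ i, ∑ α : ι → I, ϖ (α i) * (-c * cre A i α) * (-c * cre A i α) -
      c * ∑ ρ : Fin p ↪ ι, ∑ α : ι → I, (∑ j, ϖ (α (ρ j))) * A ρ α ^ 2 =
      -c * -c * offS ϖ A A := by
  have e := cre_mul_eq_same ϖ A A h
  rw [Fintype.card_fin] at e
  have e1 : ∑ i, ∑ α : ι → I, ϖ (α i) * (-c * cre A i α) * (-c * cre A i α) =
      c * c * ∑ i, ∑ α : ι → I, ϖ (α i) * cre A i α * cre A i α := by
    rw [Finset.mul_sum]
    refine Finset.sum_congr rfl fun i _ => ?_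
    rw [Finset.mul_sum]
    exact Finset.sum_congr rfl fun α _ => by ring
  have e2 : ∑ ρ : Fin p ↪ ι, ∑ α : ι → I, (∑ j, ϖ (α (ρ j))) * A ρ α ^ 2 =
      ∑ ρ : Fin p ↪ ι, ∑ α : ι → I, (∑ j, ϖ (α (ρ j))) * A ρ α * A ρ α :=
    Finset.sum_congr rfl fun ρ _ => Finset.sum_congr rfl fun α _ => by ring
  rw [e1, e2, e]
  linear_combination (c * ∑ ρ : Fin p ↪ ι, ∑ α : ι → I, (∑ j, ϖ (α (ρ j))) * A ρ α * A ρ α) * hc

theorem AQKo_coef {c c' u B : ℝ} (hc : |c| ≤ 1 / 2) (hc' : |c'| ≤ 1 / 2) (h : |u| ≤ B) :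
    |c * c' * u| ≤ 1 / 4 * B := by
  rw [abs_mul, abs_mul]
  refine mul_le_mul ?_ h (abs_nonneg _) (by norm_num)
  exact (mul_le_mul hc hc' (abs_nonneg _) (by norm_num)).trans (by norm_num)

theorem AQKo_num {a b M K η X k R n κ₀ : ℝ} (hκ : 0 ≤ κ₀) (ha : 0 ≤ a) (hb : 0 ≤ b) (hM : 1 ≤ M)
    (hK : 0 ≤ K) (hη : 0 < η) (hη1 : η ≤ 1) (hX : 0 ≤ X) (hR : 0 ≤ R) (hn : 0 ≤ n)
    (ha2 : a ^ 2 = 16 * k) (ha3 : a ^ 2 ≤ K * X) (hb2 : b ^ 2 = K * η ^ 2 * X) :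
    1 / 4 * (κ₀ * 2 ^ 14 * ((a + 2 * M * b) * (a + 2 * M * b) +
      2 * M * (2 * M) * (3 * (K * (η * X + R))))) ≤
      κ₀ * (2 ^ 16 * k + 2 ^ 12 * 20 * M ^ 2 * K * (η * X + R + n)) := by
  have hab : a * b ≤ K * (η * X) := by
    refine (pow_le_pow_iff_left₀ (by positivity) (by positivity) two_ne_zero).mp ?_
    calc (a * b) ^ 2 = a ^ 2 * b ^ 2 := by ring
      _ ≤ K * X * b ^ 2 := mul_le_mul_of_nonneg_right ha3 (by positivity)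
      _ = _ := by rw [hb2]; ring
  have hbb : b ^ 2 ≤ K * (η * X) := by
    rw [hb2]
    calc K * η ^ 2 * X = η * (K * (η * X)) := by ring
      _ ≤ _ := mul_le_of_le_one_left (by positivity) hη1
  have hM2 : M ≤ M ^ 2 := le_self_pow₀ hM two_ne_zero
  have h1 : M * (a * b) ≤ M ^ 2 * (K * (η * X)) :=
    mul_le_mul hM2 hab (by positivity) (by positivity)
  have h2 : M ^ 2 * b ^ 2 ≤ M ^ 2 * (K * (η * X)) := mul_le_mul_of_nonneg_left hbb (by positivity)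
  have h3 : 0 ≤ M ^ 2 * (K * R) := by positivity
  have h4 : 0 ≤ M ^ 2 * (K * n) := by positivity
  have key : (a + 2 * M * b) * (a + 2 * M * b) + 2 * M * (2 * M) * (3 * (K * (η * X + R))) ≤
      16 * k + 20 * M ^ 2 * K * (η * X + R + n) := by
    nlinarith
  calc _ = κ₀ * (2 ^ 12 * ((a + 2 * M * b) * (a + 2 * M * b) +
          2 * M * (2 * M) * (3 * (K * (η * X + R))))) := by ring
    _ ≤ κ₀ * (2 ^ 12 * (16 * k + 20 * M ^ 2 * K * (η * X + R + n))) :=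
        mul_le_mul_of_nonneg_left (mul_le_mul_of_nonneg_left key (by norm_num)) hκ
    _ = _ := by ring

theorem Off_est (C : ℝ) : ∃ K : ℝ, 0 ≤ K ∧ ∀ {I ι E : Type} [Fintype I] [DecidableEq I] [Fintype ι] [DecidableEq ι]
      [NormedAddCommGroup E] [InnerProductSpace ℝ E] (D : Dat I E)
      (γ Λ C₀ η κ₀ : ℝ) (ϖ : I → ℝ) (Ψ : (ι → I) → ℝ) (t t' : Fin 3), D.Base γ Λ C₀ C →
      D.Norms √(Fintype.card ι : ℝ) Λ C₀ C → D.Ctx η Ψ → 0 ≤ κ₀ → (∀ a, 0 ≤ ϖ a) →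
      (∀ a, a ∉ D.low → ϖ a ≤ κ₀ * D.lam a) →
      |D.QP ϖ Ψ t t' - (if t = t' then D.DgP ϖ Ψ t else 0)| ≤
        κ₀ * (2 ^ 16 * C₀ ^ 2 / Λ * D.kk Ψ + D.Er K η Ψ) := by
  refine ⟨2 ^ 12 * 20 * (C ^ 6) ^ 2 * (64 * C ^ 2), by positivity, ?_⟩
  intro I ι E _ _ _ _ _ _ D γ Λ C₀ η κ₀ ϖ Ψ t t' hB hN hc hκ hϖ hϖ'
  obtain ⟨d2, d3, d4⟩ := AQKo_decs hB hN hc rfl rfl
  have ho := hB.o_low
  have hl := hB.lam_nonneg
  have hΛ := hB.Λ_ge
  have hC0 := hB.C₀_ge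
  have hC1 : 1 ≤ C := hC0.trans hB.C₀_le
  have hC02 : C₀ ^ 2 ≤ C ^ 2 := pow_le_pow_left₀ (by linarith) hB.C₀_le 2
  obtain ⟨k0, z0, kz⟩ := AQKo_kz_le hl Ψ
  have hx : 0 ≤ D.xx Ψ := by linarith
  have hK : 0 ≤ 64 * C ^ 2 := by positivity
  have hΛ0 : 0 < Λ := by linarith
  have num := AQKo_num (a := √(16 * C₀ ^ 2 / Λ * D.kk Ψ)) (b := √(64 * C ^ 2 * η ^ 2 * D.xx Ψ))
    (M := C ^ 6) (K := 64 * C ^ 2) (k := C₀ ^ 2 / Λ * D.kk Ψ) (R := √(nsq Ψ * D.xx Ψ))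
    hκ (Real.sqrt_nonneg _) (Real.sqrt_nonneg _) (one_le_pow₀ hC1) hK hc.pos hc.le_one hx
    (Real.sqrt_nonneg _) (nsq_nonneg Ψ) (by rw [Real.sq_sqrt (by positivity)]; ring)
    (by
      rw [Real.sq_sqrt (by positivity)]
      exact mul_le_mul ((div_le_self (by positivity) hΛ).trans (by linarith [sq_nonneg C]))
        (by linarith) k0 hK)
    (Real.sq_sqrt (by positivity))
  have fin : ∀ {p p' : ℕ} {A : (Fin p ↪ ι) → (ι → I) → ℝ} {A' : (Fin p' ↪ ι) → (ι → I) → ℝ}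
      {c c' u : ℝ}, p ≤ 4 → p' ≤ 4 → |c| ≤ 1 / 2 → |c'| ≤ 1 / 2 → u = c * c' * offS ϖ A A' →
      AQKo_Dec D.toLv (64 * C ^ 2) Ψ A (√(16 * C₀ ^ 2 / Λ * D.kk Ψ) +
        2 * C ^ 6 * √(64 * C ^ 2 * η ^ 2 * D.xx Ψ)) (2 * C ^ 6) →
      AQKo_Dec D.toLv (64 * C ^ 2) Ψ A' (√(16 * C₀ ^ 2 / Λ * D.kk Ψ) +
        2 * C ^ 6 * √(64 * C ^ 2 * η ^ 2 * D.xx Ψ)) (2 * C ^ 6) →
      |u| ≤ κ₀ * (2 ^ 16 * C₀ ^ 2 / Λ * D.kk Ψ +
        D.Er (2 ^ 12 * 20 * (C ^ 6) ^ 2 * (64 * C ^ 2)) η Ψ) := by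
    intro p p' A A' c c' u hp hp' h1 h2 hu g g'
    rw [hu]
    refine ((AQKo_coef h1 h2 (g.pair ho hl hc hK hϖ hκ hϖ' hp hp' g')).trans num).trans
      (le_of_eq ?_)
    unfold Lv.Er
    ring
  have a2 : |(-(1 / 2) : ℝ)| ≤ 1 / 2 := by rw [abs_neg, abs_of_pos] <;> norm_num
  have a3 : |(-(1 / 6) : ℝ)| ≤ 1 / 2 := by rw [abs_neg, abs_of_pos] <;> norm_num
  have a4 : |(-(1 / 24) : ℝ)| ≤ 1 / 2 := by rw [abs_neg, abs_of_pos] <;> norm_num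
  have p2 := AQKo_gen_perm D.toLv (S := D.S2 Ψ) fun π ρ α => by
    unfold Dat.S2
    rw [D.src_perm 2 1 hB.F3_symm, D.src_perm 2 2 D.F4t_symm]
  have p3 := AQKo_gen_perm D.toLv (S := D.S3 Ψ) fun π ρ α => by
    unfold Dat.S3
    rw [D.src_perm 3 0 hB.F3_symm, D.src_perm 3 1 D.F4t_symm]
  have p4 := AQKo_gen_perm D.toLv (S := D.S4 Ψ) fun π ρ α => by
    unfold Dat.S4
    rw [D.src_perm 4 0 D.F4t_symm]
  fin_cases t <;> fin_cases t'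
  · exact fin (by norm_num) (by norm_num) a2 a2
      (AQKo_same ϖ (1 / 2) (by norm_num [Nat.factorial]) _ p2) d2 d2
  · exact fin (by norm_num) (by norm_num) a2 a3
      ((sub_zero _).trans (AQKo_diff ϖ _ _ (by norm_num) _ _)) d2 d3
  · exact fin (by norm_num) (by norm_num) a2 a4
      ((sub_zero _).trans (AQKo_diff ϖ _ _ (by norm_num) _ _)) d2 d4
  · exact fin (by norm_num) (by norm_num) a3 a2
      ((sub_zero _).trans (AQKo_diff ϖ _ _ (by norm_num) _ _)) d3 d2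
  · exact fin (by norm_num) (by norm_num) a3 a3
      (AQKo_same ϖ (1 / 6) (by norm_num [Nat.factorial]) _ p3) d3 d3
  · exact fin (by norm_num) (by norm_num) a3 a4
      ((sub_zero _).trans (AQKo_diff ϖ _ _ (by norm_num) _ _)) d3 d4
  · exact fin (by norm_num) (by norm_num) a4 a2
      ((sub_zero _).trans (AQKo_diff ϖ _ _ (by norm_num) _ _)) d4 d2
  · exact fin (by norm_num) (by norm_num) a4 a3
      ((sub_zero _).trans (AQKo_diff ϖ _ _ (by norm_num) _ _)) d4 d3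
  · exact fin (by norm_num) (by norm_num) a4 a4
      (AQKo_same ϖ (1 / 24) (by norm_num [Nat.factorial]) _ p4) d4 d4

end Pool.Agent.Lib.MP_8fe63c_mp
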