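import Pool.Agent.Lib.MP_8fe63c_mp.AQV
import Pool.Agent.Lib.MP_8fe63c_mp.ALin
import Pool.Agent.Lib.MP_8fe63c_mp.AQKd
import Pool.Agent.Lib.MP_8fe63c_mp.AQKo

/-!
Two-sided main estimate, control of the number and of the weighted kinetic energy of the high
modes, lower bound in a sector.

Sketch. `main_est`: combine `identity`, `ob_split`, `QK_eq` and the estimates; the three-body tensors
combine by `T3_add`, `T3_le`, `m3`; the four-body terms give `N^4 ctot n = c s n + O(C n)`.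
`control`: (1) `Ψ α = (Ψ α - xi) + xi` on high legs gives `k ≤ 2 Kc/Λ + 2 QK 1`, and
`QK 1 ≤ 3 ∑ t QP 1 t t`, use `Off_est` with `κ₀ = 1/Λ` and `Dg_crude`. (2)
`Z ≤ 2 η^4 Kc + 6 ∑ t QP lam Ψ_t t t` with `Ψ_t α = √((nhN α + t + 2)/N) Ψ α` (`xiP_weight`); `Ψ_t` is in the same
sector, `N nsq Ψ_t ≤ k + 4 n`, and `nsq, kk, ll, zz` of `Ψ_t` are at most `η^4` times those of `Ψ`.
Solve the linear inequalities (`√(n X) ≤ δ X + n/δ`).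
-/

set_option linter.unusedSectionVars false

open Finset
open scoped InnerProductSpace

namespace Pool.Agent.Lib.MP_8fe63c_mp

variable {I ι κ κ' E : Type} [Fintype I] [DecidableEq I] [Fintype ι] [DecidableEq ι]
  [Fintype κ] [DecidableEq κ] [Fintype κ'] [DecidableEq κ']
  [NormedAddCommGroup E] [InnerProductSpace ℝ E]


theorem AClose_amgm {a b δ : ℝ} (ha : 0 ≤ a) (hb : 0 ≤ b) (hδ : 0 < δ) :
    √(a * b) ≤ δ * b + a / δ := by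
  refine Real.sqrt_le_iff.mpr ⟨by positivity, ?_⟩
  obtain ⟨u, rfl⟩ : ∃ u, a = δ * u := ⟨a / δ, by field_simp⟩
  have hu : 0 ≤ u := (mul_nonneg_iff_of_pos_left hδ).mp ha
  rw [mul_div_cancel_left₀ _ hδ.ne']
  nlinarith [sq_nonneg (δ * b - u), mul_nonneg (mul_nonneg hδ.le hu) hb]

theorem AClose_sq (p a b c : ℝ) :
    p ^ 2 ≤ 2 * (p - (a + b + c)) ^ 2 + 6 * (a * a + b * b + c * c) := by
  nlinarith [sq_nonneg (p - 2 * (a + b + c)), sq_nonneg (a - b), sq_nonneg (b - c),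
    sq_nonneg (a - c)]

theorem AClose_sq2 {u g lam : ℝ} (p a b c : ℝ) (hu : 0 ≤ u) (hg : g * g = u) (hl : 0 ≤ lam)
    (hu1 : u ≤ 1) : u * lam * p ^ 2 ≤ 2 * (lam * (p - (a + b + c)) ^ 2) +
      6 * (lam * (g * a) * (g * a) + lam * (g * b) * (g * b) + lam * (g * c) * (g * c)) := by
  have h1 := mul_le_mul_of_nonneg_left (AClose_sq p a b c) (mul_nonneg hu hl)
  have h2 : u * (lam * (p - (a + b + c)) ^ 2) ≤ 1 * (lam * (p - (a + b + c)) ^ 2) :=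
    mul_le_mul_of_nonneg_right hu1 (mul_nonneg hl (sq_nonneg _))
  have h3 : lam * (g * a) * (g * a) + lam * (g * b) * (g * b) + lam * (g * c) * (g * c)
      = u * lam * (a * a + b * b + c * c) := by
    rw [← hg]
    ring
  rw [h3]
  nlinarith

theorem AClose_T3 (L : Lv I) (B1 B2 B3 B4 : (Fin 3 → I) → (Fin 3 → I) → ℝ) (d : ℝ)
    (Ψ : (ι → I) → ℝ) :
    L.T3 (fun β β' => B1 β β' - B2 β β' - B3 β β' - B4 β β' / d) Ψ =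
      L.T3 B1 Ψ - L.T3 B2 Ψ - L.T3 B3 Ψ - L.T3 B4 Ψ / d := by
  have e1 := L.T3_add B1 B2 1 (-1) Ψ
  have e2 := L.T3_add (fun β β' => 1 * B1 β β' + (-1) * B2 β β') B3 1 (-1) Ψ
  have e3 := L.T3_add (fun β β' => 1 * (1 * B1 β β' + (-1) * B2 β β') + (-1) * B3 β β') B4 1
    (-(1 / d)) Ψ
  rw [e2, e1] at e3
  have e4 : (fun β β' => B1 β β' - B2 β β' - B3 β β' - B4 β β' / d) = fun β β' =>
      1 * (1 * (1 * B1 β β' + (-1) * B2 β β') + (-1) * B3 β β') + (-(1 / d)) * B4 β β' := by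
    funext β β'
    ring
  rw [e4, e3]
  ring

theorem AClose_nsq (Ψ : (ι → I) → ℝ) : nsq Ψ = ex (fun _ => 1) Ψ := by
  simp [nsq, ex]

theorem AClose_ex_w (W g Ψ : (ι → I) → ℝ) (hg : ∀ α, 0 ≤ g α) :
    ex W (fun α => √(g α) * Ψ α) = ex (fun α => g α * W α) Ψ := by
  unfold ex
  refine sum_congr rfl fun α _ => ?_
  rw [mul_pow, Real.sq_sqrt (hg α)]
  ring

theorem AClose_ex_le {W g Ψ : (ι → I) → ℝ} (hW : ∀ α, 0 ≤ W α) (hg : ∀ α, 0 ≤ g α)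
    (hg1 : ∀ α, Ψ α ≠ 0 → g α ≤ 1) : ex W (fun α => √(g α) * Ψ α) ≤ ex W Ψ := by
  rw [AClose_ex_w W g Ψ hg]
  exact ex_mono fun α hα => mul_le_of_le_one_left (hW α) (hg1 α hα)

theorem AClose_kh (L : Lv I) (hl : ∀ a, 0 ≤ L.lam a) (α : ι → I) : 0 ≤ L.kh α :=
  sum_nonneg fun i _ => by
    split_ifs
    · exact le_rfl
    · exact hl _

theorem AClose_Er_le {L : Lv I} (hl : ∀ a, 0 ≤ L.lam a) {K η : ℝ} (hK : 0 ≤ K) (hη : 0 ≤ η)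
    {g Ψ : (ι → I) → ℝ} (hg : ∀ α, 0 ≤ g α) (hg1 : ∀ α, Ψ α ≠ 0 → g α ≤ 1) :
    L.Er K η (fun α => √(g α) * Ψ α) ≤ L.Er K η Ψ := by
  have h1 : nsq (fun α => √(g α) * Ψ α) ≤ nsq Ψ := by
    rw [AClose_nsq, AClose_nsq]
    exact AClose_ex_le (fun _ => zero_le_one) hg hg1
  have h2 : L.xx (fun α => √(g α) * Ψ α) ≤ L.xx Ψ :=
    add_le_add (add_le_add (AClose_ex_le (fun _ => Nat.cast_nonneg _) hg hg1)
      (AClose_ex_le (fun _ => Nat.cast_nonneg _) hg hg1))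
      (AClose_ex_le (fun α => div_nonneg (mul_nonneg (Nat.cast_nonneg _) (AClose_kh L hl α))
        (Nat.cast_nonneg _)) hg hg1)
  refine mul_le_mul_of_nonneg_left (add_le_add (add_le_add (mul_le_mul_of_nonneg_left h2 hη)
    (Real.sqrt_le_sqrt ?_)) h1) hK
  exact mul_le_mul h1 h2 (Lv.xx_nonneg hl) (nsq_nonneg _)

theorem AClose_kk {D : Dat I E} {γ Λ C₀ C : ℝ} (hB : D.Base γ Λ C₀ C) (Ψ : (ι → I) → ℝ) :
    D.kk Ψ ≤ 2 / Λ * D.Kc Ψ + 6 * (D.QP (fun _ => 1) Ψ 0 0 + D.QP (fun _ => 1) Ψ 1 1 +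
      D.QP (fun _ => 1) Ψ 2 2) := by
  have hΛ : 0 < Λ := one_pos.trans_le hB.Λ_ge
  rw [Lv.kk_eq_sum]
  unfold Dat.Kc Dat.QP
  simp only [mul_sum, ← sum_add_distrib]
  refine sum_le_sum fun i _ => sum_le_sum fun α _ => ?_
  rw [Dat.xi, Fin.sum_univ_three]
  generalize D.xiP Ψ 0 i α = a
  generalize D.xiP Ψ 1 i α = b
  generalize D.xiP Ψ 2 i α = c
  split_ifs with h
  · nlinarith [mul_self_nonneg a, mul_self_nonneg b, mul_self_nonneg c]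
  · have h1 := AClose_sq (Ψ α) a b c
    have h2 : 2 * (Ψ α - (a + b + c)) ^ 2 ≤ 2 / Λ * (D.lam (α i) * (Ψ α - (a + b + c)) ^ 2) := by
      rw [← mul_assoc]
      refine mul_le_mul_of_nonneg_right ?_ (sq_nonneg _)
      rw [div_mul_eq_mul_div, le_div_iff₀ hΛ]
      exact mul_le_mul_of_nonneg_left (hB.hi _ h) zero_le_two
    linarith

/-- the array with the square root of the weight -/
noncomputable def AClose_wt (D : Dat I E) (Ψ : (ι → I) → ℝ) (t : Fin 3) (α : ι → I) : ℝ :=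
  √(((D.nhN α + (t + 2) : ℕ) : ℝ) / Fintype.card ι) * Ψ α

theorem AClose_zz {D : Dat I E} {γ Λ C₀ C : ℝ} (hB : D.Base γ Λ C₀ C) (Ψ : (ι → I) → ℝ) :
    D.zz Ψ ≤ 2 * D.Kc Ψ + 6 * (D.QP D.lam (AClose_wt D Ψ 0) 0 0 +
      D.QP D.lam (AClose_wt D Ψ 1) 1 1 + D.QP D.lam (AClose_wt D Ψ 2) 2 2) := by
  have h0 : D.zz Ψ = ∑ i, ∑ α, (D.nhN α : ℝ) / Fintype.card ι *
      (if α i ∈ D.low then 0 else D.lam (α i)) * Ψ α ^ 2 := by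
    rw [sum_comm]
    unfold Lv.zz ex Lv.kh
    refine sum_congr rfl fun α _ => ?_
    rw [← sum_mul, ← mul_sum]
    ring
  have h1 : ∀ t i α, D.xiP (AClose_wt D Ψ t) t i α =
      √((D.nhN α : ℝ) / Fintype.card ι) * D.xiP Ψ t i α := fun t i α =>
    (D.xiP_weight hB.o_low Ψ (fun m => √((m : ℝ) / Fintype.card ι)) t i α).symm
  rw [h0]
  unfold Dat.Kc Dat.QP
  simp only [mul_sum, ← sum_add_distrib, h1]
  refine sum_le_sum fun i _ => sum_le_sum fun α _ => ?_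
  rw [Dat.xi, Fin.sum_univ_three]
  have hu : (0 : ℝ) ≤ (D.nhN α : ℝ) / Fintype.card ι := by positivity
  have hu1 : (D.nhN α : ℝ) / Fintype.card ι ≤ 1 :=
    div_le_one_of_le₀ (Nat.cast_le.mpr (card_filter_le _ _)) (Nat.cast_nonneg _)
  have hl := hB.lam_nonneg (α i)
  split_ifs with h
  · have h2 := AClose_sq2 0 (D.xiP Ψ 0 i α) (D.xiP Ψ 1 i α) (D.xiP Ψ 2 i α) hu
      (Real.mul_self_sqrt hu) hl hu1
    have h3 : ∀ x : ℝ, 0 ≤ D.lam (α i) * x * x := fun x => by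
      rw [mul_assoc]
      exact mul_nonneg hl (mul_self_nonneg x)
    rw [mul_zero, zero_mul, zero_mul, mul_zero, zero_add]
    exact mul_nonneg (by norm_num) (add_nonneg (add_nonneg (h3 _) (h3 _)) (h3 _))
  · exact AClose_sq2 _ _ _ _ hu (Real.mul_self_sqrt hu) hl hu1

theorem AClose_wt_ctx {D : Dat I E} {η : ℝ} {Ψ : (ι → I) → ℝ} (h : D.Ctx η Ψ) (t : Fin 3) :
    D.Ctx η (AClose_wt D Ψ t) :=
  ⟨h.pos, h.le_one, h.big, fun α hα => h.sec α (right_ne_zero_of_mul hα)⟩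

theorem AClose_wt_le {D : Dat I E} (ho : D.o ∈ D.low) {η : ℝ} {Ψ : (ι → I) → ℝ} (h : D.Ctx η Ψ)
    (t : Fin 3) (α : ι → I) (hα : Ψ α ≠ 0) :
    ((D.nhN α + (t + 2) : ℕ) : ℝ) / Fintype.card ι ≤ 1 := by
  refine div_le_one_of_le₀ ?_ (Nat.cast_nonneg _)
  have h1 := h.sec α hα
  have h2 : η ^ 4 * Fintype.card ι ≤ Fintype.card ι :=
    mul_le_of_le_one_left (Nat.cast_nonneg _) (pow_le_one₀ h.pos.le h.le_one)
  have h3 : D.nhN α + (t + 2) ≤ D.npN α + 8 := by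
    have := D.npN_eq ho α
    have := t.2
    omega
  have h4 : ((D.nhN α + (t + 2) : ℕ) : ℝ) ≤ ((D.npN α + 8 : ℕ) : ℝ) := Nat.cast_le.mpr h3
  rw [Nat.cast_add (D.npN α) 8, Nat.cast_ofNat] at h4
  linarith

theorem AClose_wt_nsq (D : Dat I E) (Ψ : (ι → I) → ℝ) (t : Fin 3) :
    Fintype.card ι * nsq (AClose_wt D Ψ t) ≤ D.kk Ψ + 4 * nsq Ψ := by
  unfold nsq Lv.kk ex AClose_wt
  simp only [mul_sum, ← sum_add_distrib]
  refine sum_le_sum fun α _ => ?_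
  rw [mul_pow, Real.sq_sqrt (by positivity), ← mul_assoc, ← add_mul]
  refine mul_le_mul_of_nonneg_right ?_ (sq_nonneg _)
  have h1 : D.nhN α + (t + 2) ≤ D.nhN α + 4 := by
    have := t.2
    omega
  have h2 : ((D.nhN α + (t + 2) : ℕ) : ℝ) ≤ ((D.nhN α + 4 : ℕ) : ℝ) := Nat.cast_le.mpr h1
  rw [Nat.cast_add (D.nhN α) 4, Nat.cast_ofNat] at h2
  refine le_trans ?_ h2
  rcases eq_or_ne (Fintype.card ι : ℝ) 0 with h0 | h0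
  · rw [h0, zero_mul]
    exact Nat.cast_nonneg _
  · rw [mul_div_cancel₀ _ h0]

theorem main_est (C : ℝ) : ∃ K : ℝ, 0 ≤ K ∧ ∀ {I ι E : Type} [Fintype I] [DecidableEq I] [Fintype ι] [DecidableEq ι]
      [NormedAddCommGroup E] [InnerProductSpace ℝ E] (D : Dat I E)
      (γ Λ C₀ η e c : ℝ) (Ψ : (ι → I) → ℝ), D.Base γ Λ C₀ C →
      D.Norms √(Fintype.card ι : ℝ) Λ C₀ C → D.Mains ι √(Fintype.card ι : ℝ) C₀ C e c →
      D.Ctx η Ψ →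
      |D.H Ψ - (D.TL Ψ + D.Kc Ψ + D.Vc Ψ + D.T3 D.M Ψ / √(Fintype.card ι : ℝ) ^ 4 -
        ob (D.wLL D.w) Ψ + c * √(Fintype.card ι : ℝ) * nsq Ψ)| ≤
        2 ^ 20 * C₀ ^ 2 * (D.kk Ψ + √(D.kk Ψ * D.ll Ψ)) + D.Er K η Ψ := by
  obtain ⟨K1, h1, H1⟩ := Lin0_est C
  obtain ⟨K2, h2, H2⟩ := Lin1_est C
  obtain ⟨K3, h3, H3⟩ := Dg_est C
  obtain ⟨K4, h4, H4⟩ := Off_est C
  obtain ⟨K5, h5, H5⟩ := QV_est C
  refine ⟨K1 + K2 + K3 + 9 * K4 + K5 + (C ^ 4 + C ^ 2), by positivity, ?_⟩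
  intro I ι E _ _ _ _ _ _ D γ Λ C₀ η e c Ψ hB hN hM hc
  have hl := hB.lam_nonneg
  have hΛ := hB.Λ_ge
  have hC₀ := hB.C₀_ge
  have hC : 1 ≤ C := hC₀.trans hB.C₀_le
  have hN1 := hc.eight_le.1
  have e1 := H1 D γ Λ C₀ η Ψ hB hN hc
  have e2 := H2 D γ Λ C₀ η Ψ hB hN hc
  have e3 := H3 D γ Λ C₀ η Ψ hB hN hc
  have e5 := H5 D γ Λ C₀ η Ψ hB hN hc
  have hk : 0 ≤ D.kk Ψ := Lv.kk_nonneg
  have hn := nsq_nonneg Ψ
  have e4 : |D.QK D.lam Ψ - ∑ t, D.DgP D.lam Ψ t| ≤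
      9 * (2 ^ 16 * C₀ ^ 2 * D.kk Ψ + D.Er K4 η Ψ) := by
    have a1 : ∀ t t' : Fin 3, |D.QP D.lam Ψ t t' - (if t = t' then D.DgP D.lam Ψ t else 0)| ≤
        2 ^ 16 * C₀ ^ 2 * D.kk Ψ + D.Er K4 η Ψ := fun t t' => by
      refine (H4 D γ Λ C₀ η 1 D.lam Ψ t t' hB hN hc zero_le_one hl
        fun a _ => (one_mul _).ge).trans ?_
      rw [one_mul]
      exact add_le_add (mul_le_mul_of_nonneg_right (div_le_self (by positivity) hΛ) hk) le_rfl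
    have a2 : |∑ t : Fin 3, ∑ t' : Fin 3,
        (D.QP D.lam Ψ t t' - (if t = t' then D.DgP D.lam Ψ t else 0))| ≤
        ∑ _t : Fin 3, ∑ _t' : Fin 3, (2 ^ 16 * C₀ ^ 2 * D.kk Ψ + D.Er K4 η Ψ) :=
      (abs_sum_le_sum_abs _ _).trans (sum_le_sum fun t _ =>
        (abs_sum_le_sum_abs _ _).trans (sum_le_sum fun t' _ => a1 t t'))
    simp only [sum_sub_distrib, sum_ite_eq, mem_univ, if_true, sum_const, card_univ,
      Fintype.card_fin, nsmul_eq_mul] at a2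
    rw [D.QK_eq]
    refine a2.trans (le_of_eq ?_)
    push_cast
    ring
  have e6 := Lv.ob_HH_le (L := D.toLv) (Ψ := Ψ) (zero_le_one.trans hC₀) hB.w_op
  have hid := D.identity hB.o_low (fun a ha => (one_pos.trans_le hΛ).trans_le (hB.hi a ha))
    hB.F3_symm D.w Ψ
  have hob := D.ob_split hB.w_symm Ψ
  obtain ⟨s, hs⟩ : ∃ s, s = √(Fintype.card ι : ℝ) := ⟨_, rfl⟩
  have hs0 : 0 < s := hs ▸ Real.sqrt_pos.mpr (one_pos.trans_le hN1)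
  have hs2 : (Fintype.card ι : ℝ) = s ^ 2 := by
    rw [hs, Real.sq_sqrt (Nat.cast_nonneg _)]
  rw [← hs] at hM ⊢
  clear hs
  have e7 : |D.T3 (fun β β' => 2 * D.F3 β' β) Ψ - D.T3 (fun β β' => ⟪D.y3 β, D.y3 β'⟫_ℝ) Ψ -
      D.T3 D.GA Ψ - D.T3 D.M Ψ / s ^ 4| ≤ C ^ 4 * nsq Ψ := by
    rw [← AClose_T3]
    refine (D.T3_le (δ := C / s ^ 6) (by positivity) hM.m3 Ψ).trans
      (mul_le_mul_of_nonneg_right ?_ hn)
    have a1 : C / s ^ 6 * (D.low.card : ℝ) ^ 3 * (Fintype.card ι : ℝ) ^ 3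
        = C * (D.low.card : ℝ) ^ 3 := by
      rw [hs2]
      field_simp
    rw [a1, pow_succ' C 3]
    exact mul_le_mul_of_nonneg_left (pow_le_pow_left₀ (Nat.cast_nonneg _) hB.card_low 3)
      (zero_le_one.trans hC)
  have e8 : |(Fintype.card ι : ℝ) ^ 4 * D.ctot * nsq Ψ - c * s * nsq Ψ| ≤ C ^ 2 * nsq Ψ := by
    have a1 : (Fintype.card ι : ℝ) ^ 4 * D.ctot * nsq Ψ - c * s * nsq Ψ
        = s ^ 8 * (D.ctot - c / s ^ 7) * nsq Ψ := by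
      rw [hs2]
      field_simp
    rw [a1, abs_mul, abs_mul, abs_of_nonneg hn, abs_of_pos (pow_pos hs0 8)]
    refine mul_le_mul_of_nonneg_right ((mul_le_mul_of_nonneg_left hM.m4 (pow_pos hs0 8).le).trans
      ?_) hn
    rw [mul_div_cancel₀ _ (pow_pos hs0 8).ne']
    nlinarith
  unfold Dat.ctot at e8
  obtain ⟨E0, hE0, hE⟩ : ∃ E0 : ℝ, nsq Ψ ≤ E0 ∧ ∀ K, D.Er K η Ψ = K * E0 :=
    ⟨η * D.xx Ψ + √(nsq Ψ * D.xx Ψ) + nsq Ψ, le_add_of_nonneg_left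
      (add_nonneg (mul_nonneg hc.pos.le (Lv.xx_nonneg hl)) (Real.sqrt_nonneg _)), fun _ => rfl⟩
  simp only [hE] at e1 e2 e3 e4 e5 ⊢
  have b1 : C ^ 4 * nsq Ψ ≤ C ^ 4 * E0 := mul_le_mul_of_nonneg_left hE0 (by positivity)
  have b2 : C ^ 2 * nsq Ψ ≤ C ^ 2 * E0 := mul_le_mul_of_nonneg_left hE0 (by positivity)
  have b0 : C₀ ≤ C₀ ^ 2 := by nlinarith
  have b3 : C₀ * D.kk Ψ ≤ C₀ ^ 2 * D.kk Ψ := mul_le_mul_of_nonneg_right b0 hk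
  have b4 : C₀ * √(D.kk Ψ * D.ll Ψ) ≤ C₀ ^ 2 * √(D.kk Ψ * D.ll Ψ) :=
    mul_le_mul_of_nonneg_right b0 (Real.sqrt_nonneg _)
  have b5 : 0 ≤ C₀ ^ 2 * D.kk Ψ := by positivity
  have b6 : 0 ≤ C₀ ^ 2 * √(D.kk Ψ * D.ll Ψ) := by positivity
  unfold Dat.H
  rw [hid, hob]
  rw [abs_le] at e1 e2 e3 e4 e5 e6 e7 e8 ⊢
  generalize D.T3 D.M Ψ / s ^ 4 = T4 at e7 ⊢
  generalize √(D.kk Ψ * D.ll Ψ) = r at e2 b4 b6 ⊢
  constructor <;> linarith [e1.1, e1.2, e2.1, e2.2, e3.1, e3.2, e4.1, e4.2, e5.1, e5.2, e6.1, e6.2,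
    e7.1, e7.2, e8.1, e8.2]

theorem control (C : ℝ) : ∃ K η₀ : ℝ, 0 ≤ K ∧ 0 < η₀ ∧ ∀ {I ι E : Type} [Fintype I] [DecidableEq I] [Fintype ι] [DecidableEq ι]
      [NormedAddCommGroup E] [InnerProductSpace ℝ E] (D : Dat I E)
      (γ Λ C₀ η : ℝ) (Ψ : (ι → I) → ℝ), D.Base γ Λ C₀ C →
      D.Norms √(Fintype.card ι : ℝ) Λ C₀ C → D.Ctx η Ψ → η ≤ η₀ → 2 ^ 12 * C₀ ≤ Λ →
      D.xx Ψ ≤ K * (D.Kc Ψ + D.ll Ψ + nsq Ψ) ∧ D.kk Ψ ≤ 4 / Λ * D.Kc Ψ + D.Er K η Ψ := by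
  obtain ⟨K1, h1, H1⟩ := Dg_crude C
  obtain ⟨K4, h4, H4⟩ := Off_est C
  obtain ⟨K5, hK5⟩ : ∃ K5, K5 = 36 * K1 + 36 * K4 := ⟨_, rfl⟩
  obtain ⟨A, hA⟩ : ∃ A, A = 1 + 18 * K1 + 288 * C ^ 2 := ⟨_, rfl⟩
  obtain ⟨B, hBB⟩ : ∃ B, B = A * K5 + 72 * K1 + 18 * K4 + 1 := ⟨_, rfl⟩
  have h5 : 0 ≤ K5 := by rw [hK5]; positivity
  have hA0 : 0 ≤ A := by rw [hA]; positivity
  have hB0 : 0 < B := by rw [hBB]; positivity
  refine ⟨4 + 8 * A + (8 * B ^ 2 + 2 * B) + K5, 1 / (4 * B), by positivity, by positivity, ?_⟩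
  intro I ι E _ _ _ _ _ _ D γ Λ C₀ η Ψ hB hN hc hη hΛC
  have hl := hB.lam_nonneg
  have hΛ := hB.Λ_ge
  have hΛ0 : 0 < Λ := one_pos.trans_le hΛ
  have hC₀ := hB.C₀_ge
  have hC : 1 ≤ C := hC₀.trans hB.C₀_le
  have hk : 0 ≤ D.kk Ψ := Lv.kk_nonneg
  have hll : 0 ≤ D.ll Ψ := Lv.ll_nonneg
  have hX : 0 ≤ D.xx Ψ := Lv.xx_nonneg hl
  have hn := nsq_nonneg Ψ
  have hKc := D.Kc_nonneg hl Ψ
  rcases eq_or_ne Ψ 0 with rfl | hΨ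
  · have a1 : D.xx (0 : (ι → I) → ℝ) = 0 := by simp [Lv.xx, Lv.kk, Lv.ll, Lv.zz, ex]
    have a2 : D.kk (0 : (ι → I) → ℝ) = 0 := by simp [Lv.kk, ex]
    rw [a1, a2]
    exact ⟨by positivity, add_nonneg (by positivity) (Lv.Er_nonneg hl (by positivity) hc.pos.le)⟩
  have hN2 : 2 ≤ Fintype.card ι := by
    have a1 := hc.eight_le.2 hΨ
    have a2 : ((2 : ℕ) : ℝ) ≤ Fintype.card ι := by
      push_cast
      linarith
    exact Nat.cast_le.mp a2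
  obtain ⟨E0, hE0, hE1, hE⟩ : ∃ E0 : ℝ, nsq Ψ ≤ E0 ∧
      E0 = η * D.xx Ψ + √(nsq Ψ * D.xx Ψ) + nsq Ψ ∧ ∀ K, D.Er K η Ψ = K * E0 :=
    ⟨η * D.xx Ψ + √(nsq Ψ * D.xx Ψ) + nsq Ψ, le_add_of_nonneg_left
      (add_nonneg (mul_nonneg hc.pos.le hX) (Real.sqrt_nonneg _)), rfl, fun _ => rfl⟩
  have hE2 : 0 ≤ E0 := hn.trans hE0
  have q1 : ∀ t, D.QP (fun _ => 1) Ψ t t ≤ K1 * E0 + 1 / 256 * D.kk Ψ + K4 * E0 := by
    intro t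
    have a1 := (abs_le.mp (H4 D γ Λ C₀ η (1 / Λ) (fun _ => 1) Ψ t t hB hN hc (by positivity)
      (fun _ => zero_le_one) fun a ha => by
        rw [one_div, inv_mul_eq_div, one_le_div hΛ0]
        exact hB.hi a ha)).2
    rw [if_pos rfl, hE, mul_add] at a1
    have a2 := (H1 D γ Λ C₀ Ψ t hB hN hN2).2
    have a3 : K1 * nsq Ψ ≤ K1 * E0 := mul_le_mul_of_nonneg_left hE0 h1
    have a4 : 1 / Λ * (K4 * E0) ≤ K4 * E0 :=
      mul_le_of_le_one_left (mul_nonneg h4 hE2) (div_le_one_of_le₀ hΛ hΛ0.le)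
    have a5 : 1 / Λ * (2 ^ 16 * C₀ ^ 2 / Λ * D.kk Ψ) ≤ 1 / 256 * D.kk Ψ := by
      rw [← mul_assoc]
      refine mul_le_mul_of_nonneg_right ?_ hk
      rw [div_mul_div_comm, one_mul, div_le_div_iff₀ (mul_pos hΛ0 hΛ0) (by norm_num)]
      have := mul_self_le_mul_self (by positivity) hΛC
      nlinarith
    linarith
  have k1 : D.kk Ψ ≤ 4 / Λ * D.Kc Ψ + K5 * E0 := by
    have a1 := AClose_kk hB Ψ
    have a2 : 4 / Λ * D.Kc Ψ = 2 * (2 / Λ * D.Kc Ψ) := by ring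
    rw [a2, hK5]
    linarith [q1 0, q1 1, q1 2]
  have k2 : D.kk Ψ ≤ 4 * D.Kc Ψ + K5 * E0 :=
    k1.trans (add_le_add (mul_le_mul_of_nonneg_right (div_le_self (by norm_num) hΛ) hKc) le_rfl)
  have q2 : ∀ t, D.QP D.lam (AClose_wt D Ψ t) t t ≤
      K1 * D.kk Ψ + 4 * (K1 * E0) + 16 * (C ^ 2 * D.kk Ψ) + K4 * E0 := by
    intro t
    have a0 : ∀ α : ι → I, (0 : ℝ) ≤ ((D.nhN α + (t + 2) : ℕ) : ℝ) / Fintype.card ι :=
      fun α => by positivity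
    have a1 := (abs_le.mp (H4 D γ Λ C₀ η 1 D.lam (AClose_wt D Ψ t) t t hB hN (AClose_wt_ctx hc t)
      zero_le_one hl fun a _ => (one_mul _).ge)).2
    rw [if_pos rfl, one_mul] at a1
    have a2 := (H1 D γ Λ C₀ (AClose_wt D Ψ t) t hB hN hN2).1
    have a3 := mul_le_mul_of_nonneg_left (AClose_wt_nsq D Ψ t) h1
    have a4 : K1 * nsq Ψ ≤ K1 * E0 := mul_le_mul_of_nonneg_left hE0 h1
    have a5 : D.Er K4 η (AClose_wt D Ψ t) ≤ D.Er K4 η Ψ :=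
      AClose_Er_le hl h4 hc.pos.le a0 (AClose_wt_le hB.o_low hc t)
    have a6 : D.kk (AClose_wt D Ψ t) ≤ D.kk Ψ :=
      AClose_ex_le (fun _ => Nat.cast_nonneg _) a0 (AClose_wt_le hB.o_low hc t)
    have a7 : 2 ^ 16 * C₀ ^ 2 / Λ ≤ 16 * C ^ 2 := by
      rw [div_le_iff₀ hΛ0]
      have b1 : C₀ ≤ C ^ 2 := by nlinarith [hB.C₀_le]
      have b2 : C₀ * (2 ^ 12 * C₀) ≤ C ^ 2 * Λ := mul_le_mul b1 hΛC (by positivity) (by positivity)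
      nlinarith
    have a8 : 2 ^ 16 * C₀ ^ 2 / Λ * D.kk (AClose_wt D Ψ t) ≤ 16 * C ^ 2 * D.kk Ψ :=
      mul_le_mul a7 a6 Lv.kk_nonneg (by positivity)
    rw [hE] at a5
    linarith
  have z1 : D.xx Ψ ≤ D.ll Ψ + 2 * D.Kc Ψ + A * D.kk Ψ + (72 * K1 + 18 * K4) * E0 := by
    have a1 := AClose_zz hB Ψ
    have a2 : D.xx Ψ = D.kk Ψ + D.ll Ψ + D.zz Ψ := rfl
    rw [hA]
    linarith [q2 0, q2 1, q2 2]
  have z2 : D.xx Ψ ≤ D.ll Ψ + (2 + 4 * A) * D.Kc Ψ + B * E0 := by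
    have a1 := mul_le_mul_of_nonneg_left k2 hA0
    rw [hBB]
    linarith
  have z3 : B * E0 ≤ 1 / 2 * D.xx Ψ + (4 * B ^ 2 + B) * nsq Ψ := by
    have a1 := mul_le_mul_of_nonneg_left (AClose_amgm hn hX (δ := 1 / (4 * B)) (by positivity))
      hB0.le
    have a2 : B * (1 / (4 * B) * D.xx Ψ + nsq Ψ / (1 / (4 * B)))
        = 1 / 4 * D.xx Ψ + 4 * B ^ 2 * nsq Ψ := by
      field_simp
    have a3 : B * (η * D.xx Ψ) ≤ 1 / 4 * D.xx Ψ := by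
      rw [← mul_assoc]
      refine mul_le_mul_of_nonneg_right ((mul_le_mul_of_nonneg_left hη hB0.le).trans
        (le_of_eq ?_)) hX
      field_simp
    rw [hE1]
    linarith
  refine ⟨?_, k1.trans (add_le_add le_rfl ?_)⟩
  · have a1 : 0 ≤ (8 * B ^ 2 + 2 * B + K5) * D.Kc Ψ := by positivity
    have a2 : 0 ≤ (2 + 8 * A + (8 * B ^ 2 + 2 * B) + K5) * D.ll Ψ := by positivity
    have a3 : 0 ≤ (4 + 8 * A + K5) * nsq Ψ := by positivity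
    linarith
  · rw [hE]
    exact mul_le_mul_of_nonneg_right (le_add_of_nonneg_left (by positivity)) hE2

theorem fine_lower (γ C₀ : ℝ) (hγ : 0 < γ) : ∃ Λ₀ : ℝ, ∀ Λ, Λ₀ ≤ Λ → ∀ C : ℝ,
    ∃ (ε K : ℝ) (N₀ : ℕ), 0 < ε ∧ ∀ {I ι E : Type} [Fintype I] [DecidableEq I] [Fintype ι] [DecidableEq ι]
      [NormedAddCommGroup E] [InnerProductSpace ℝ E] (D : Dat I E)
      (e c : ℝ), N₀ ≤ Fintype.card ι → D.Base γ Λ C₀ C →
      D.Norms √(Fintype.card ι : ℝ) Λ C₀ C → D.Mains ι √(Fintype.card ι : ℝ) C₀ C e c →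
      ∀ Ψ : (ι → I) → ℝ, D.Sec (ε * Fintype.card ι) Ψ →
        (e * Fintype.card ι + c * √(Fintype.card ι : ℝ) - K) * nsq Ψ ≤ D.H Ψ := by
  obtain ⟨A, hA⟩ : ∃ A, A = 2 ^ 20 * C₀ ^ 2 := ⟨_, rfl⟩
  have hA0 : 0 ≤ A := by rw [hA]; positivity
  obtain ⟨A', hA'⟩ : ∃ A', A' = A + A * ((2 * A + 1) / γ) := ⟨_, rfl⟩
  have hA1 : 0 ≤ A' := by rw [hA']; positivity
  refine ⟨max (8 * A') (2 ^ 12 * C₀), fun Λ hΛ C => ?_⟩
  obtain ⟨K1, h1, H1⟩ := main_est C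
  obtain ⟨K2, η₀, h2, hη₀, H2⟩ := control C
  obtain ⟨B, hBB⟩ : ∃ B, B = K1 + A' * K2 := ⟨_, rfl⟩
  have hB0 : 0 ≤ B := by rw [hBB]; positivity
  obtain ⟨m, hm0, hm1, hm2⟩ : ∃ m : ℝ, 0 < m ∧ m ≤ γ / 2 ∧ m ≤ 1 / 2 :=
    ⟨min (γ / 2) (1 / 2), lt_min (by positivity) (by norm_num), min_le_left _ _, min_le_right _ _⟩
  obtain ⟨η, hη, hη1, hη2, hη3⟩ : ∃ η : ℝ, 0 < η ∧ η ≤ η₀ ∧ η ≤ 1 ∧ η ≤ m / (2 * B * K2 + 1) :=
    ⟨min (min η₀ 1) (m / (2 * B * K2 + 1)), lt_min (lt_min hη₀ one_pos) (by positivity),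
      (min_le_left _ _).trans (min_le_left _ _), (min_le_left _ _).trans (min_le_right _ _),
      min_le_right _ _⟩
  refine ⟨η ^ 4, C + m + B / η + B, ⌈(1 / η ^ 4) ^ 2⌉₊, by positivity, ?_⟩
  intro I ι E _ _ _ _ _ _ D e c hN₀ hB hN hM Ψ hsec
  have hc : D.Ctx η Ψ := by
    refine ⟨hη, hη2, ?_, hsec⟩
    have a1 : 1 / η ^ 4 ≤ √(Fintype.card ι : ℝ) := Real.le_sqrt_of_sq_le (Nat.ceil_le.mp hN₀)
    rwa [div_le_iff₀' (by positivity)] at a1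
  have hl := hB.lam_nonneg
  have hΛ0 : 0 < Λ := one_pos.trans_le hB.Λ_ge
  have hk : 0 ≤ D.kk Ψ := Lv.kk_nonneg
  have hll : 0 ≤ D.ll Ψ := Lv.ll_nonneg
  have hX : 0 ≤ D.xx Ψ := Lv.xx_nonneg hl
  have hn := nsq_nonneg Ψ
  have hKc := D.Kc_nonneg hl Ψ
  have hVc := D.Vc_nonneg Ψ
  have hTL := Dat.TL_ge hB Ψ
  have e1 := (abs_le.mp (H1 D γ Λ C₀ η e c Ψ hB hN hM hc)).1
  obtain ⟨e2, e3⟩ := H2 D γ Λ C₀ η Ψ hB hN hc hη1 ((le_max_right _ _).trans hΛ)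
  have e4 := hM.sos Ψ
  rw [Real.sq_sqrt (Nat.cast_nonneg _)] at e4
  obtain ⟨E0, hE1, hE⟩ : ∃ E0 : ℝ,
      E0 = η * D.xx Ψ + √(nsq Ψ * D.xx Ψ) + nsq Ψ ∧ ∀ K, D.Er K η Ψ = K * E0 :=
    ⟨η * D.xx Ψ + √(nsq Ψ * D.xx Ψ) + nsq Ψ, rfl, fun _ => rfl⟩
  rw [hE, ← hA] at e1
  rw [hE] at e3
  have a1 : A * (D.kk Ψ + √(D.kk Ψ * D.ll Ψ)) ≤ γ / 2 * D.ll Ψ + A' * D.kk Ψ := by
    have b1 := mul_le_mul_of_nonneg_left
      (AClose_amgm hk hll (δ := γ / (2 * A + 1)) (by positivity)) hA0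
    have b2 : A * (γ / (2 * A + 1) * D.ll Ψ) ≤ γ / 2 * D.ll Ψ := by
      rw [← mul_assoc]
      refine mul_le_mul_of_nonneg_right ?_ hll
      rw [← mul_div_assoc, div_le_div_iff₀ (by positivity) (by norm_num)]
      nlinarith
    have b3 : A * (D.kk Ψ / (γ / (2 * A + 1))) = A * ((2 * A + 1) / γ) * D.kk Ψ := by
      field_simp
    rw [hA']
    linarith
  have a2 : A' * D.kk Ψ ≤ 1 / 2 * D.Kc Ψ + A' * K2 * E0 := by
    have b1 := mul_le_mul_of_nonneg_left e3 hA1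
    have b2 : A' * (4 / Λ * D.Kc Ψ) ≤ 1 / 2 * D.Kc Ψ := by
      rw [← mul_assoc]
      refine mul_le_mul_of_nonneg_right ?_ hKc
      rw [← mul_div_assoc, div_le_iff₀ hΛ0]
      linarith [(le_max_left _ _).trans hΛ]
    linarith
  have a3 : B * E0 ≤ m * (D.Kc Ψ + D.ll Ψ + nsq Ψ) + (B / η + B) * nsq Ψ := by
    have b1 := mul_le_mul_of_nonneg_left (AClose_amgm hn hX hη) hB0
    have b2 : 2 * B * η * D.xx Ψ ≤ 2 * B * η * (K2 * (D.Kc Ψ + D.ll Ψ + nsq Ψ)) :=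
      mul_le_mul_of_nonneg_left e2 (by positivity)
    have b3 : 2 * B * η * (K2 * (D.Kc Ψ + D.ll Ψ + nsq Ψ)) ≤ m * (D.Kc Ψ + D.ll Ψ + nsq Ψ) := by
      rw [← mul_assoc]
      refine mul_le_mul_of_nonneg_right ?_ (by positivity)
      rw [le_div_iff₀ (by positivity)] at hη3
      nlinarith
    have b4 : B * (nsq Ψ / η) = B / η * nsq Ψ := by ring
    rw [hE1]
    linarith
  have a4 : m * D.Kc Ψ ≤ 1 / 2 * D.Kc Ψ := mul_le_mul_of_nonneg_right hm2 hKc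
  have a5 : m * D.ll Ψ ≤ γ / 2 * D.ll Ψ := mul_le_mul_of_nonneg_right hm1 hll
  have a6 : B * E0 = K1 * E0 + A' * K2 * E0 := by
    rw [hBB]
    ring
  generalize D.T3 D.M Ψ / √(Fintype.card ι : ℝ) ^ 4 = T4 at e1 e4
  generalize B / η = B' at a3 ⊢
  linarith

end Pool.Agent.Lib.MP_8fe63c_mp
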