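import Mathlib

/-!
Finite-dimensional many-body algebra: definitions. An array `Ψ : (ι → I) → ℝ` is the family of
coefficients of a wave function in a product basis; `ι` is the set of particles (legs), `I` the set of
modes, `o` the condensate mode, `low` the set of low modes, the other modes are called high.
-/

open Finset
open scoped InnerProductSpace

namespace Pool.Agent.Lib.MP_8fe63c_mp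

/-- condensate mode, low modes and eigenvalues -/
structure Lv (I : Type) where
  o : I
  low : Finset I
  lam : I → ℝ

variable {I ι κ κ' E : Type} [Fintype I] [DecidableEq I] [Fintype ι] [DecidableEq ι]
  [Fintype κ] [DecidableEq κ] [Fintype κ'] [DecidableEq κ']
  [NormedAddCommGroup E] [InnerProductSpace ℝ E]

/-- put the modes `β` on the legs `σ` -/
noncomputable def put (σ : κ ↪ ι) (β : κ → I) (α : ι → I) : ι → I := Function.extend σ β α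

/-- expectation of a diagonal observable -/
def ex (W : (ι → I) → ℝ) (Ψ : (ι → I) → ℝ) : ℝ := ∑ α, W α * Ψ α ^ 2

/-- squared norm -/
def nsq (Ψ : (ι → I) → ℝ) : ℝ := ∑ α, Ψ α ^ 2

/-- sum over the legs of a one-body form -/
def ob (w : I → I → ℝ) (Ψ : (ι → I) → ℝ) : ℝ :=
  ∑ i, ∑ α, ∑ δ, w (α i) δ * Ψ α * Ψ (Function.update α i δ)

/-- sum over the tuples that contain the leg `i` -/
noncomputable def cre (A : (κ ↪ ι) → (ι → I) → ℝ) (i : ι) (α : ι → I) : ℝ :=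
  ∑ ρ, if ∃ j, ρ j = i then A ρ α else 0

/-- the terms of `cre A * cre A'` with different ranges -/
noncomputable def offS (ϖ : I → ℝ) (A : (κ ↪ ι) → (ι → I) → ℝ) (A' : (κ' ↪ ι) → (ι → I) → ℝ) : ℝ :=
  ∑ i, ∑ ρ : κ ↪ ι, ∑ ρ' : κ' ↪ ι,
    if (∃ j, ρ j = i) ∧ (∃ j, ρ' j = i) ∧ univ.map ρ ≠ univ.map ρ' then
      ∑ α, ϖ (α i) * A ρ α * A' ρ' α else 0

/-- `X ρ` does not depend on the modes on the legs `ρ` -/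
def Indep (X : (κ ↪ ι) → (ι → I) → ℝ) : Prop := ∀ ρ β α, X ρ (put ρ β α) = X ρ α

/-- spectator sum: the legs `ρ` and `c` further legs with output modes `γ` get the input modes `β` -/
noncomputable def chan {p c : ℕ} (ρ : Fin p ↪ ι) (γ : Fin c → I) (β : Fin (p + c) → I)
    (Ψ : (ι → I) → ℝ) (α : ι → I) : ℝ :=
  ∑ σ : Fin (p + c) ↪ ι,
    if (∀ j, σ (Fin.castAdd c j) = ρ j) ∧ (∀ j, α (σ (Fin.natAdd p j)) = γ j) then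
      Ψ (put σ β α) else 0

namespace Lv

variable (L : Lv I)

def vac (σ : κ ↪ ι) : Finset (ι → I) := univ.filter fun α => ∀ j, α (σ j) = L.o

/-- number of high legs -/
def nhN (α : ι → I) : ℕ := (univ.filter fun i => α i ∉ L.low).card

/-- number of legs outside the condensate -/
def npN (α : ι → I) : ℕ := (univ.filter fun i => α i ≠ L.o).card

/-- number of low legs outside the condensate -/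
def nlN (α : ι → I) : ℕ := (univ.filter fun i => α i ∈ L.low ∧ α i ≠ L.o).card

/-- kinetic energy of the high legs -/
def kh (α : ι → I) : ℝ := ∑ i, if α i ∈ L.low then 0 else L.lam (α i)

def kk (Ψ : (ι → I) → ℝ) : ℝ := ex (fun α => (L.nhN α : ℝ)) Ψ

def ll (Ψ : (ι → I) → ℝ) : ℝ := ex (fun α => (L.nlN α : ℝ)) Ψ

noncomputable def zz (Ψ : (ι → I) → ℝ) : ℝ :=
  ex (fun α => (L.nhN α : ℝ) * L.kh α / Fintype.card ι) Ψ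

noncomputable def xx (Ψ : (ι → I) → ℝ) : ℝ := L.kk Ψ + L.ll Ψ + L.zz Ψ

/-- the standard error term -/
noncomputable def Er (K η : ℝ) (Ψ : (ι → I) → ℝ) : ℝ :=
  K * (η * L.xx Ψ + √(nsq Ψ * L.xx Ψ) + nsq Ψ)

/-- few particles outside the condensate -/
def Sec (M : ℝ) (Ψ : (ι → I) → ℝ) : Prop := ∀ α, Ψ α ≠ 0 → (L.npN α : ℝ) + 8 ≤ M

/-- standing assumptions on the sector -/
structure Ctx (η : ℝ) (Ψ : (ι → I) → ℝ) : Prop where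
  pos : 0 < η
  le_one : η ≤ 1
  big : 1 ≤ η ^ 4 * √(Fintype.card ι : ℝ)
  sec : L.Sec (η ^ 4 * Fintype.card ι) Ψ

def lowF (n : ℕ) : Finset (Fin n → I) := Fintype.piFinset fun _ => L.low

def oo (n : ℕ) : Fin n → I := fun _ => L.o

def Hi (α : κ → I) : Prop := ∀ j, α j ∉ L.low

instance (α : κ → I) : Decidable (L.Hi α) := by unfold Hi; infer_instance

def pr (A : Finset κ) (α : κ → I) : κ → I := fun j => if j ∈ A then α j else L.o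

def cfg (A : Finset κ) : Finset (κ → I) := univ.filter fun α => ∀ j, j ∉ A → α j = L.o

/-- operator norm bound for a kernel, from the legs in `R` (with weight) to the other legs -/
def Bil (T : (κ → I) → ℝ) (R : Finset κ) (wt : (κ → I) → ℝ) : Prop :=
  ∀ ζ h : (κ → I) → ℝ,
    (∑ α, T α * ζ (L.pr Rᶜ α) * h (L.pr R α)) ^ 2 ≤
      (∑ α ∈ L.cfg Rᶜ, ζ α ^ 2) * ∑ α ∈ L.cfg R, wt α * h α ^ 2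

def wtH (R : Finset κ) (x y : ℝ) (α : κ → I) : ℝ :=
  if ∀ j ∈ R, α j ∉ L.low then x + y * ∑ j ∈ R, L.lam (α j) else 0

/-- norm bounds of a kernel with kinetic weight on a base leg -/
def FamB (T : (κ → I) → ℝ) (x y : ℕ → ℝ) : Prop :=
  ∀ (b : κ) (R : Finset κ), b ∉ R →
    L.Bil (fun α => √(L.lam (α b)) * T α) R (L.wtH R (x R.card) (y R.card))

/-- norm bounds of a kernel without weight -/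
def FamU (T : (κ → I) → ℝ) (x : ℕ → ℝ) : Prop :=
  ∀ R : Finset κ, R ≠ univ → L.Bil T R (L.wtH R (x R.card) 0)

def Wr (x y : ℕ → ℝ) (r : ℕ) (α : ι → I) : ℝ :=
  x r * (L.nhN α : ℝ) ^ r + y r * r * (L.nhN α : ℝ) ^ (r - 1) * L.kh α

noncomputable def AA (x y : ℕ → ℝ) (r : ℕ) (X : (κ ↪ ι) → (ι → I) → ℝ) : ℝ :=
  ∑ ρ, ∑ α ∈ L.vac ρ, L.Wr x y r α * X ρ α ^ 2

/-- invariance under changing low modes into low modes -/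
def LowInv (W : (ι → I) → ℝ) : Prop :=
  ∀ α i a, α i ∈ L.low → a ∈ L.low → W (Function.update α i a) = W α

/-- the kernel divided by the kinetic energy, on high modes -/
noncomputable def resK (F : (κ → I) → ℝ) (α : κ → I) : ℝ :=
  if L.Hi α then F α / ∑ j, L.lam (α j) else 0

noncomputable def src (p c : ℕ) (F : (Fin (p + c) → I) → (Fin (p + c) → I) → ℝ) (ρ : Fin p ↪ ι)
    (Ψ : (ι → I) → ℝ) (α : ι → I) : ℝ :=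
  (1 / (c.factorial : ℝ)) * ∑ γ ∈ L.lowF c, ∑ β ∈ L.lowF (p + c),
    F (Fin.append (α ∘ ρ) γ) β * chan ρ γ β Ψ α

noncomputable def gen (S : (κ ↪ ι) → (ι → I) → ℝ) (ρ : κ ↪ ι) (α : ι → I) : ℝ :=
  if L.Hi (α ∘ ρ) then S ρ α / ∑ j, L.lam (α (ρ j)) else 0

noncomputable def LinF (p c : ℕ) (F : (Fin (p + c) → I) → (Fin (p + c) → I) → ℝ)
    (Ψ : (ι → I) → ℝ) : ℝ :=
  (2 / (p.factorial : ℝ)) * ∑ ρ : Fin p ↪ ι, ∑ α,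
    if L.Hi (α ∘ ρ) then Ψ α * L.src p c F ρ Ψ α else 0

/-- three-body form on the low modes -/
noncomputable def T3 (B : (Fin 3 → I) → (Fin 3 → I) → ℝ) (Ψ : (ι → I) → ℝ) : ℝ :=
  (1 / 6 : ℝ) * ∑ σ : Fin 3 ↪ ι, ∑ α ∈ L.vac σ, ∑ β ∈ L.lowF 3, ∑ β' ∈ L.lowF 3,
    B β β' * Ψ (put σ β α) * Ψ (put σ β' α)

noncomputable def av (υ : (Fin 3 → I) → E) (σ : Fin 3 ↪ ι) (Ψ : (ι → I) → ℝ) (α : ι → I) : E :=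
  ∑ β, Ψ (put σ β α) • υ β

noncomputable def Vs (υ : (Fin 3 → I) → E) (σ : Fin 3 ↪ ι) (Ψ : (ι → I) → ℝ) : ℝ :=
  ∑ α ∈ L.vac σ, ‖av υ σ Ψ α‖ ^ 2

/-- the energy form on arrays -/
noncomputable def Ham (υ : (Fin 3 → I) → E) (w : I → I → ℝ) (Ψ : (ι → I) → ℝ) : ℝ :=
  ex (fun α => ∑ i, L.lam (α i)) Ψ - ob w Ψ + (1 / 6 : ℝ) * ∑ σ : Fin 3 ↪ ι, L.Vs υ σ Ψ

def TL (Ψ : (ι → I) → ℝ) : ℝ := ex (fun α => ∑ i, if α i ∈ L.low then L.lam (α i) else 0) Ψ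

def wLL (w : I → I → ℝ) (a b : I) : ℝ := if a ∈ L.low ∧ b ∈ L.low then w a b else 0

def wHL (w : I → I → ℝ) (a b : I) : ℝ := if a ∉ L.low ∧ b ∈ L.low then w a b else 0

def wHH (w : I → I → ℝ) (a b : I) : ℝ := if a ∉ L.low ∧ b ∉ L.low then w a b else 0

end Lv

noncomputable def fx (s Λ θ A0 A2 : ℝ) (p r : ℕ) : ℝ :=
  if r = 0 then A0 / s ^ (3 * p - 1)
  else if r = 1 then (if p = 2 then A2 / (s ^ 6 * Λ) else A2 / s ^ (3 * p + 2))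
  else if r = 2 then A2 * θ / s ^ (3 * p + 3) else 0

noncomputable def fy (s θ A2 : ℝ) (p r : ℕ) : ℝ :=
  if r = 2 then A2 / (θ * s ^ (3 * p + 3)) else if r = 3 then A2 / s ^ (3 * p + 4) else 0

/-- the norm bounds of a kernel with squared amplitude `A0` (no leg exchanged), `A2` (otherwise) -/
def Lv.FamOK (L : Lv I) (s Λ : ℝ) {p : ℕ} (T : (Fin p → I) → ℝ) (A0 A2 : ℝ) : Prop :=
  ∀ θ : ℝ, 1 ≤ θ → θ ≤ s → L.FamB T (fx s Λ θ A0 A2 p) (fy s θ A2 p)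

/-- the data of the many-body problem -/
structure Dat (I E : Type) extends Lv I where
  w : I → I → ℝ
  υ : (Fin 3 → I) → E
  y3 : (Fin 3 → I) → E
  y4 : I → E
  M : (Fin 3 → I) → (Fin 3 → I) → ℝ
  G2 : (Fin 2 → I) → ℝ
  G3 : (Fin 3 → I) → ℝ
  G4 : (Fin 4 → I) → ℝ

namespace Dat

variable (D : Dat I E)

noncomputable def F3 (α β : Fin 3 → I) : ℝ := ⟪D.υ α, D.y3 β⟫_ℝ

noncomputable def F4 (α : Fin 4 → I) : ℝ :=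
  (1 / 6 : ℝ) * ∑ π : Equiv.Perm (Fin 4),
    ⟪D.υ (fun j => α (π (Fin.castSucc j))), D.y4 (α (π (Fin.last 3)))⟫_ℝ

noncomputable def F4t (α β : Fin 4 → I) : ℝ := if β = D.oo 4 then D.F4 α else 0

noncomputable def S2 (Ψ : (ι → I) → ℝ) (ρ : Fin 2 ↪ ι) (α : ι → I) : ℝ :=
  D.src 2 1 D.F3 ρ Ψ α + D.src 2 2 D.F4t ρ Ψ α

noncomputable def S3 (Ψ : (ι → I) → ℝ) (ρ : Fin 3 ↪ ι) (α : ι → I) : ℝ :=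
  D.src 3 0 D.F3 ρ Ψ α + D.src 3 1 D.F4t ρ Ψ α

noncomputable def S4 (Ψ : (ι → I) → ℝ) (ρ : Fin 4 ↪ ι) (α : ι → I) : ℝ :=
  D.src 4 0 D.F4t ρ Ψ α

/-- the generators creating `t + 2` high modes -/
noncomputable def xiP (Ψ : (ι → I) → ℝ) (t : Fin 3) (i : ι) (α : ι → I) : ℝ :=
  ![-(1 / 2) * cre (D.gen (D.S2 Ψ)) i α, -(1 / 6) * cre (D.gen (D.S3 Ψ)) i α,
    -(1 / 24) * cre (D.gen (D.S4 Ψ)) i α] t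

noncomputable def xi (Ψ : (ι → I) → ℝ) (i : ι) (α : ι → I) : ℝ := ∑ t, D.xiP Ψ t i α

noncomputable def DgP (ϖ : I → ℝ) (Ψ : (ι → I) → ℝ) (t : Fin 3) : ℝ :=
  ![(1 / 2) * ∑ ρ : Fin 2 ↪ ι, ∑ α, (∑ j, ϖ (α (ρ j))) * D.gen (D.S2 Ψ) ρ α ^ 2,
    (1 / 6) * ∑ ρ : Fin 3 ↪ ι, ∑ α, (∑ j, ϖ (α (ρ j))) * D.gen (D.S3 Ψ) ρ α ^ 2,
    (1 / 24) * ∑ ρ : Fin 4 ↪ ι, ∑ α, (∑ j, ϖ (α (ρ j))) * D.gen (D.S4 Ψ) ρ α ^ 2] t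

noncomputable def QP (ϖ : I → ℝ) (Ψ : (ι → I) → ℝ) (t t' : Fin 3) : ℝ :=
  ∑ i, ∑ α, ϖ (α i) * D.xiP Ψ t i α * D.xiP Ψ t' i α

noncomputable def QK (ϖ : I → ℝ) (Ψ : (ι → I) → ℝ) : ℝ :=
  ∑ i, ∑ α, ϖ (α i) * D.xi Ψ i α ^ 2

noncomputable def Kc (Ψ : (ι → I) → ℝ) : ℝ :=
  ∑ i, ∑ α, (if α i ∈ D.low then 0 else D.lam (α i)) * (Ψ α - D.xi Ψ i α) ^ 2

noncomputable def Yv (σ : Fin 3 ↪ ι) (Ψ : (ι → I) → ℝ) (α : ι → I) : E :=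
  (∑ β ∈ D.lowF 3, Ψ (put σ β α) • D.y3 β) +
    ∑ l, if ∃ j, σ j = l then 0 else Ψ (Function.update α l D.o) • D.y4 (α l)

noncomputable def Vc (Ψ : (ι → I) → ℝ) : ℝ :=
  (1 / 6 : ℝ) * ∑ σ : Fin 3 ↪ ι, ∑ α ∈ D.vac σ, ‖Lv.av D.υ σ Ψ α - D.Yv σ Ψ α‖ ^ 2

noncomputable def QV (Ψ : (ι → I) → ℝ) : ℝ :=
  (1 / 6 : ℝ) * ∑ σ : Fin 3 ↪ ι, ∑ α ∈ D.vac σ, ‖D.Yv σ Ψ α‖ ^ 2

noncomputable def Lin0 (Ψ : (ι → I) → ℝ) : ℝ := D.LinF 0 3 D.F3 Ψ + D.LinF 0 4 D.F4t Ψ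

noncomputable def Lin1 (Ψ : (ι → I) → ℝ) : ℝ := D.LinF 1 2 D.F3 Ψ + D.LinF 1 3 D.F4t Ψ

noncomputable def H (Ψ : (ι → I) → ℝ) : ℝ := D.Ham D.υ D.w Ψ

/-- kernels of the five families -/
noncomputable def FA (β : Fin 3 → I) (α : Fin 3 → I) : ℝ := D.F3 α β

noncomputable def FB (γ : Fin 1 → I) (β : Fin 3 → I) (α : Fin 2 → I) : ℝ :=
  D.F3 (Fin.append α γ) β

noncomputable def FD (γ : Fin 1 → I) (α : Fin 3 → I) : ℝ := D.F4 (Fin.append α γ)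

noncomputable def FE (γ : Fin 2 → I) (α : Fin 2 → I) : ℝ := D.F4 (Fin.append α γ)

noncomputable def GA (β β' : Fin 3 → I) : ℝ := ∑ α, D.resK (D.FA β) α * D.FA β' α

noncomputable def GAD : ℝ := ∑ α, D.resK (D.FA (D.oo 3)) α * D.FD (D.oo 1) α

noncomputable def GBB : ℝ :=
  ∑ α, D.resK (D.FB (D.oo 1) (D.oo 3)) α * D.FB (D.oo 1) (D.oo 3) α

noncomputable def GCC : ℝ := ∑ α, D.resK D.F4 α * D.F4 α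

/-- the four-body constant -/
noncomputable def ctot : ℝ :=
  (1 / 12) * D.F4 (D.oo 4) - (1 / 3) * ⟪D.y3 (D.oo 3), D.y4 D.o⟫_ℝ -
    (1 / 6) * (∑ δ, ‖D.y4 δ‖ ^ 2) - (1 / 24) * D.GCC - (1 / 3) * D.GAD - (1 / 2) * D.GBB

structure Base (γ Λ C₀ C : ℝ) : Prop where
  o_low : D.o ∈ D.low
  lam_o : D.lam D.o = 0
  γ_pos : 0 < γ
  gap : ∀ a, a ≠ D.o → γ ≤ D.lam a
  Λ_ge : 1 ≤ Λ
  hi : ∀ a, a ∉ D.low → Λ ≤ D.lam a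
  C₀_ge : 1 ≤ C₀
  C₀_le : C₀ ≤ C
  card_low : (D.low.card : ℝ) ≤ C
  w_symm : ∀ a b, D.w a b = D.w b a
  w_op : ∀ ζ h : I → ℝ,
    (∑ a, ∑ b, D.w a b * ζ a * h b) ^ 2 ≤ C₀ ^ 2 * (∑ a, ζ a ^ 2) * ∑ b, h b ^ 2
  F3_symm : ∀ (π : Equiv.Perm (Fin 3)) (α β : Fin 3 → I), D.F3 (α ∘ π) (β ∘ π) = D.F3 α β
  υ_symm : ∀ (π : Equiv.Perm (Fin 3)) (c : (Fin 3 → I) → ℝ),
    ‖∑ α, c α • D.υ (α ∘ π)‖ = ‖∑ α, c α • D.υ α‖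

structure Hardy (s C : ℝ) : Prop where
  h0 : ∀ c : (Fin 3 → I) → ℝ, ‖∑ α, c α • D.υ α‖ ^ 2 ≤ C * ∑ α, (D.lam (α 0) + 1) * c α ^ 2
  h1 : ∀ c : I → I → ℝ, ‖∑ a, ∑ b, c a b • D.υ ![a, b, D.o]‖ ^ 2 ≤
    C / s ^ 3 * ∑ a, ∑ b, (D.lam a + 1) * c a b ^ 2
  h2 : ∀ c : I → ℝ, ‖∑ a, c a • D.υ ![a, D.o, D.o]‖ ^ 2 ≤ C / s ^ 4 * ∑ a, c a ^ 2

structure Norms (s Λ C₀ C : ℝ) : Prop where
  fA : ∀ β ∈ D.lowF 3, D.FamOK s Λ (D.resK (D.FA β)) (C * s ^ 4) (C * s ^ 4)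
  fB : ∀ γ ∈ D.lowF 1, ∀ β ∈ D.lowF 3, D.FamOK s Λ (D.resK (D.FB γ β)) (C / s ^ 2) (C / s ^ 2)
  fB0 : D.FamOK s Λ (D.resK (D.FB (D.oo 1) (D.oo 3))) (C₀ ^ 2 / s ^ 2) (C₀ ^ 2 / s ^ 2)
  fC : D.FamOK s Λ (D.resK D.F4) (C * s ^ 4) (C * s ^ 4)
  fD : ∀ γ ∈ D.lowF 1, D.FamOK s Λ (D.resK (D.FD γ)) (C / s ^ 2) (C / s ^ 2)
  fE : ∀ γ ∈ D.lowF 2, D.FamOK s Λ (D.resK (D.FE γ)) (C / s ^ 8) (C / s ^ 8)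
  uA : ∀ β ∈ D.lowF 3, ∑ α, D.resK (D.FA β) α ^ 2 ≤ C / s ^ 6
  uB : ∀ γ ∈ D.lowF 1, ∀ β ∈ D.lowF 3, ∑ α, D.resK (D.FB γ β) α ^ 2 ≤ C / s ^ 8
  uC : ∑ α, D.resK D.F4 α ^ 2 ≤ C / s ^ 8
  uD : ∀ γ ∈ D.lowF 1, ∑ α, D.resK (D.FD γ) α ^ 2 ≤ C / s ^ 10
  uE : ∀ γ ∈ D.lowF 2, ∑ α, D.resK (D.FE γ) α ^ 2 ≤ C / s ^ 12
  l1a : ∑ a, (D.F3 ![a, D.o, D.o] (D.oo 3) - 2 * D.w a D.o / s ^ 4) ^ 2 ≤ C / s ^ 10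
  l1b : ∀ (t : Fin 3) (ζ c : I → ℝ),
    (∑ a, ∑ d, ζ a * c d * D.F3 ![a, D.o, D.o] (Function.update (D.oo 3) t d)) ^ 2 ≤
      C₀ ^ 2 / s ^ 8 * (∑ a, ζ a ^ 2) * ∑ d, c d ^ 2
  l1b' : ∀ ζ c : I → ℝ,
    (∑ a, ∑ d, ζ a * c d * D.F3 ![a, d, D.o] (D.oo 3)) ^ 2 ≤
      C₀ ^ 2 / s ^ 8 * (∑ a, ζ a ^ 2) * ∑ d, c d ^ 2
  l1c : ∀ γ ∈ D.lowF 2, ∀ β ∈ D.lowF 3, ∑ a, D.F3 (Fin.append ![a] γ) β ^ 2 ≤ C / s ^ 8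
  l1d : ∀ γ ∈ D.lowF 3, ∑ a, D.F4 (Fin.append ![a] γ) ^ 2 ≤ C / s ^ 14
  y4_op : ∀ c : I → ℝ, ‖∑ δ, c δ • D.y4 δ‖ ^ 2 ≤ C / s ^ 10 * ∑ δ, c δ ^ 2
  y4_hs : ∑ δ, ‖D.y4 δ‖ ^ 2 ≤ C / s ^ 7
  y3_le : ∀ β ∈ D.lowF 3, ‖D.y3 β‖ ^ 2 ≤ C / s ^ 4

structure Mains (ι : Type) [Fintype ι] [DecidableEq ι] (s C₀ C e c : ℝ) : Prop where
  m3 : ∀ β ∈ D.lowF 3, ∀ β' ∈ D.lowF 3,
    |2 * D.F3 β' β - ⟪D.y3 β, D.y3 β'⟫_ℝ - D.GA β β' - D.M β β' / s ^ 4| ≤ C / s ^ 6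
  m4 : |D.ctot - c / s ^ 7| ≤ C / s ^ 8
  sos : ∀ Ψ : (ι → I) → ℝ,
    (e * s ^ 2 - C) * nsq Ψ ≤ D.T3 D.M Ψ / s ^ 4 - ob (D.wLL D.w) Ψ
  M_oo : D.M (D.oo 3) (D.oo 3) = -3 * e
  w_oo : D.w D.o D.o = -(3 / 2) * e
  e_le : |e| ≤ C₀

structure Trial (s C : ℝ) : Prop where
  s2 : ∀ (π : Equiv.Perm (Fin 2)) α, D.G2 (α ∘ π) = D.G2 α
  s3 : ∀ (π : Equiv.Perm (Fin 3)) α, D.G3 (α ∘ π) = D.G3 α
  s4 : ∀ (π : Equiv.Perm (Fin 4)) α, D.G4 (α ∘ π) = D.G4 α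
  z2 : ∀ α, ¬D.Hi α → D.G2 α = 0
  z3 : ∀ α, ¬D.Hi α → D.G3 α = 0
  z4 : ∀ α, ¬D.Hi α → D.G4 α = 0
  u2 : D.FamU D.G2 fun r => if r = 0 then C / s ^ 4 else 1 / (2 ^ 30 * s ^ 4)
  u3 : D.FamU D.G3 fun r => if r = 0 then C / s ^ 6 else C / s ^ 7
  u4 : D.FamU D.G4 fun r => if r = 0 then C / s ^ 8 else C / s ^ 9
  k2 : ∑ α, (∑ j, D.lam (α j)) * (D.G2 α + s ^ 2 * D.resK (D.FB (D.oo 1) (D.oo 3)) α) ^ 2 ≤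
    C / s ^ 4
  k3 : ∑ α, (∑ j, D.lam (α j)) * (D.G3 α + D.resK (D.FA (D.oo 3)) α) ^ 2 ≤ C / s ^ 6
  k4 : ∑ α, (∑ j, D.lam (α j)) * (D.G4 α + D.resK D.F4 α) ^ 2 ≤ C / s ^ 8
  v1 : ‖D.υ (D.oo 3) + (∑ β, D.G3 β • D.υ β) - D.y3 (D.oo 3)‖ ^ 2 ≤ C / s ^ 6
  v2 : ∑ δ ∈ D.lowᶜ, ‖(∑ β, D.G4 (Fin.snoc β δ) • D.υ β) +
      (∑ a, ∑ b, D.G3 ![a, b, δ] • (D.υ ![a, b, D.o] + D.υ ![a, D.o, b] + D.υ ![D.o, a, b])) -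
      D.y4 δ‖ ^ 2 ≤ C / s ^ 8
  a2 : ∀ h : I → ℝ, ∑ η, ‖∑ a, ∑ b, (D.G2 ![a, η] * h b) • D.υ ![a, b, D.o]‖ ^ 2 ≤
    C / s ^ 6 * ∑ b, h b ^ 2
  a3 : ∀ h : I → ℝ, ∑ η, ∑ η', ‖∑ a, ∑ b, (D.G3 ![a, η, η'] * h b) • D.υ ![a, b, D.o]‖ ^ 2 ≤
    C / s ^ 8 * ∑ b, h b ^ 2
  a4 : ∀ h : I → ℝ, ∑ η, ∑ η', ∑ η'',
    ‖∑ a, ∑ b, (D.G4 ![a, η, η', η''] * h b) • D.υ ![a, b, D.o]‖ ^ 2 ≤ C / s ^ 10 * ∑ b, h b ^ 2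
  b2 : ∀ h : I → I → ℝ, ∑ η, ‖∑ a, ∑ b, ∑ d, (D.G2 ![a, η] * h b d) • D.υ ![a, b, d]‖ ^ 2 ≤
    C / s ^ 4 * ∑ b, ∑ d, h b d ^ 2
  b3 : ∀ h : I → I → ℝ, ∑ η, ∑ η',
    ‖∑ a, ∑ b, ∑ d, (D.G3 ![a, η, η'] * h b d) • D.υ ![a, b, d]‖ ^ 2 ≤
      C / s ^ 6 * ∑ b, ∑ d, h b d ^ 2
  b4 : ∀ h : I → I → ℝ, ∑ η, ∑ η', ∑ η'',
    ‖∑ a, ∑ b, ∑ d, (D.G4 ![a, η, η', η''] * h b d) • D.υ ![a, b, d]‖ ^ 2 ≤
      C / s ^ 8 * ∑ b, ∑ d, h b d ^ 2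
  c2 : ∀ h : I → ℝ, ‖∑ a, ∑ b, ∑ d, (D.G2 ![a, b] * h d) • D.υ ![a, b, d]‖ ^ 2 ≤
    C / s ^ 4 * ∑ d, h d ^ 2
  c3 : ∀ h : I → ℝ, ∑ η, ‖∑ a, ∑ b, ∑ d, (D.G3 ![a, b, η] * h d) • D.υ ![a, b, d]‖ ^ 2 ≤
    C / s ^ 6 * ∑ d, h d ^ 2
  c4 : ∀ h : I → ℝ, ∑ η, ∑ η',
    ‖∑ a, ∑ b, ∑ d, (D.G4 ![a, b, η, η'] * h d) • D.υ ![a, b, d]‖ ^ 2 ≤
      C / s ^ 8 * ∑ d, h d ^ 2

/-- the operator that creates a cluster containing the leg `i` out of the condensate -/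
noncomputable def gP (Ψ : (ι → I) → ℝ) (t : Fin 3) (i : ι) (α : ι → I) : ℝ :=
  ![(1 / 2) * cre (fun (ρ : Fin 2 ↪ ι) α => D.G2 (α ∘ ρ) * Ψ (put ρ (D.oo 2) α)) i α,
    (1 / 6) * cre (fun (ρ : Fin 3 ↪ ι) α => D.G3 (α ∘ ρ) * Ψ (put ρ (D.oo 3) α)) i α,
    (1 / 24) * cre (fun (ρ : Fin 4 ↪ ι) α => D.G4 (α ∘ ρ) * Ψ (put ρ (D.oo 4) α)) i α] t

/-- the truncated trial state -/
structure IsTrial (Mx : ℕ) (Ψ : (ι → I) → ℝ) : Prop where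
  vac_one : Ψ (fun _ => D.o) = 1
  symm : ∀ (π : Equiv.Perm ι) α, Ψ (α ∘ π) = Ψ α
  supp : ∀ α, Ψ α ≠ 0 → (∀ i, α i = D.o ∨ α i ∉ D.low) ∧ D.nhN α ≤ Mx
  rec_eq : ∀ i α, α i ∉ D.low → D.nhN α ≤ Mx → Ψ α = ∑ t, D.gP Ψ t i α

end Dat

end Pool.Agent.Lib.MP_8fe63c_mp
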