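import Pool.Agent.Lib.MP_8fe63c_mp.ATwo

/-!
The creation lemma: expansion of squares of creation sums, bound for the exchange terms, crude
bound.

Sketch of `off_bound`. Write `ϖ (α i) = √ϖ √ϖ` and apply `two_term` to each triple `(i, ρ, ρ')`, with
base positions `b, b'` given by `ρ b = i = ρ' b'`. Group by `s = card (range ρ ∩ range ρ')`
(`1 ≤ s ≤ min p p'`, not `s = p = p'`), `card R = p - s`, `card R' = p' - s`, and use Cauchy-Schwarz
over the triples. For fixed `ρ'` and `α ∈ vac ρ'` there are at most `4` choices of `i`, `2^p ≤ 16`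
choices of `R`, `p'^p ≤ 256` choices of the images of the positions outside `R`; the sum over the
images of the positions in `R` (they must be high legs of `α`) of the weight is at most `Wr`.
`crude`: Cauchy-Schwarz pointwise in `α`; at most `p * nh^(p-1)` tuples contribute.
-/

set_option linter.unusedSectionVars false

open Finset
open scoped InnerProductSpace

namespace Pool.Agent.Lib.MP_8fe63c_mp

variable {I ι κ κ' E : Type} [Fintype I] [DecidableEq I] [Fintype ι] [DecidableEq ι]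
  [Fintype κ] [DecidableEq κ] [Fintype κ'] [DecidableEq κ']
  [NormedAddCommGroup E] [InnerProductSpace ℝ E]

theorem APair_expand (ϖ : I → ℝ) (A : (κ ↪ ι) → (ι → I) → ℝ) (A' : (κ' ↪ ι) → (ι → I) → ℝ) :
    ∑ i, ∑ α, ϖ (α i) * cre A i α * cre A' i α =
      ∑ i, ∑ ρ : κ ↪ ι, ∑ ρ' : κ' ↪ ι, if (∃ j, ρ j = i) ∧ (∃ j, ρ' j = i) then
        ∑ α, ϖ (α i) * A ρ α * A' ρ' α else 0 := by
  refine sum_congr rfl fun i _ => ?_
  have h1 : ∀ α : ι → I, ϖ (α i) * cre A i α * cre A' i α =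
      ∑ ρ : κ ↪ ι, ∑ ρ' : κ' ↪ ι, if (∃ j, ρ j = i) ∧ (∃ j, ρ' j = i) then
        ϖ (α i) * A ρ α * A' ρ' α else 0 := by
    intro α
    unfold cre
    rw [mul_assoc, sum_mul_sum, mul_sum]
    refine sum_congr rfl fun ρ _ => ?_
    rw [mul_sum]
    refine sum_congr rfl fun ρ' _ => ?_
    by_cases h : ∃ j, ρ j = i <;> by_cases h' : ∃ j, ρ' j = i <;> simp [h, h', mul_assoc]
  simp_rw [h1]
  rw [sum_comm]
  refine sum_congr rfl fun ρ _ => ?_
  rw [sum_comm]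
  refine sum_congr rfl fun ρ' _ => ?_
  split_ifs <;> simp

theorem APair_sum_range (ρ : κ ↪ ι) (g : ι → ℝ) {inst : DecidablePred fun i => ∃ j, ρ j = i} :
    ∑ i, (@ite _ (∃ j, ρ j = i) (inst i) (g i) 0) = ∑ j, g (ρ j) := by
  rw [← sum_filter, ← sum_map univ ρ g]
  congr 1
  ext i
  simp

theorem cre_mul_eq (ϖ : I → ℝ) (A : (κ ↪ ι) → (ι → I) → ℝ) (A' : (κ' ↪ ι) → (ι → I) → ℝ)
    (h : Fintype.card κ ≠ Fintype.card κ') :
    ∑ i, ∑ α, ϖ (α i) * cre A i α * cre A' i α = offS ϖ A A' := by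
  rw [APair_expand]
  unfold offS
  refine sum_congr rfl fun i _ => sum_congr rfl fun ρ _ => sum_congr rfl fun ρ' _ => ?_
  have hne : univ.map ρ ≠ univ.map ρ' := by
    intro he
    have := congrArg Finset.card he
    rw [card_map, card_map, card_univ, card_univ] at this
    exact h this
  simp only [hne, ne_eq, not_false_eq_true, and_true]

theorem cre_mul_eq_same (ϖ : I → ℝ) (A A' : (κ ↪ ι) → (ι → I) → ℝ)
    (h : ∀ (π : Equiv.Perm κ) ρ α, A' (π.toEmbedding.trans ρ) α = A' ρ α) :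
    ∑ i, ∑ α, ϖ (α i) * cre A i α * cre A' i α = offS ϖ A A' +
      (Fintype.card κ).factorial * ∑ ρ, ∑ α, (∑ j, ϖ (α (ρ j))) * A ρ α * A' ρ α := by
  rw [APair_expand]
  unfold offS
  have h2 : ((Fintype.card κ).factorial : ℝ) *
      ∑ ρ : κ ↪ ι, ∑ α : ι → I, (∑ j, ϖ (α (ρ j))) * A ρ α * A' ρ α =
      ∑ i, ∑ ρ : κ ↪ ι, ∑ ρ' : κ ↪ ι, if univ.map ρ = univ.map ρ' then
        (if ∃ j, ρ j = i then ∑ α, ϖ (α i) * A ρ α * A' ρ' α else 0) else 0 := by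
    rw [sum_comm (s := (univ : Finset ι)), mul_sum]
    refine sum_congr rfl fun ρ _ => ?_
    have h3 : ∀ i, (∑ ρ' : κ ↪ ι, if univ.map ρ = univ.map ρ' then
        (if ∃ j, ρ j = i then ∑ α, ϖ (α i) * A ρ α * A' ρ' α else 0) else 0) =
        ((Fintype.card κ).factorial : ℝ) *
          (if ∃ j, ρ j = i then ∑ α, ϖ (α i) * A ρ α * A' ρ α else 0) := by
      intro i
      rw [sum_same_range ρ
        (fun ρ' => if ∃ j, ρ j = i then ∑ α, ϖ (α i) * A ρ α * A' ρ' α else 0)]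
      simp only [h, sum_const, card_univ, Fintype.card_perm, nsmul_eq_mul]
    simp_rw [h3]
    rw [← mul_sum, APair_sum_range ρ (fun i => ∑ α, ϖ (α i) * A ρ α * A' ρ α), sum_comm]
    congr 1
    refine sum_congr rfl fun α _ => ?_
    rw [sum_mul, sum_mul]
  rw [h2, ← sum_add_distrib]
  refine sum_congr rfl fun i _ => ?_
  rw [← sum_add_distrib]
  refine sum_congr rfl fun ρ _ => ?_
  rw [← sum_add_distrib]
  refine sum_congr rfl fun ρ' _ => ?_
  by_cases he : univ.map ρ = univ.map ρ'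
  · have h4 : (∃ j, ρ j = i) ↔ ∃ j, ρ' j = i := by
      have := Finset.ext_iff.1 he i
      simpa using this
    by_cases h5 : ∃ j, ρ j = i
    · simp [he, h5, h4.1 h5]
    · simp [h5]
  · simp [he]

theorem offS_sum {J J' : Type} (s : Finset J) (s' : Finset J') (ϖ : I → ℝ) (c : J → ℝ) (c' : J' → ℝ)
    (A : J → (κ ↪ ι) → (ι → I) → ℝ) (A' : J' → (κ' ↪ ι) → (ι → I) → ℝ) :
    offS ϖ (fun ρ α => ∑ a ∈ s, c a * A a ρ α) (fun ρ α => ∑ a ∈ s', c' a * A' a ρ α) =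
      ∑ a ∈ s, ∑ a' ∈ s', c a * c' a' * offS ϖ (A a) (A' a') := by
  unfold offS
  have h1 : ∀ (i : ι) (ρ : κ ↪ ι) (ρ' : κ' ↪ ι),
      (if (∃ j, ρ j = i) ∧ (∃ j, ρ' j = i) ∧ univ.map ρ ≠ univ.map ρ' then
        ∑ α : ι → I, ϖ (α i) * (∑ a ∈ s, c a * A a ρ α) * (∑ a ∈ s', c' a * A' a ρ' α) else 0) =
      ∑ a ∈ s, ∑ a' ∈ s', c a * c' a' *
        (if (∃ j, ρ j = i) ∧ (∃ j, ρ' j = i) ∧ univ.map ρ ≠ univ.map ρ' then
          ∑ α : ι → I, ϖ (α i) * A a ρ α * A' a' ρ' α else 0) := by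
    intro i ρ ρ'
    split_ifs
    · have h2 : ∀ α : ι → I, ϖ (α i) * (∑ a ∈ s, c a * A a ρ α) * (∑ a ∈ s', c' a * A' a ρ' α) =
          ∑ a ∈ s, ∑ a' ∈ s', c a * c' a' * (ϖ (α i) * A a ρ α * A' a' ρ' α) := by
        intro α
        rw [mul_assoc, sum_mul_sum, mul_sum]
        refine sum_congr rfl fun a _ => ?_
        rw [mul_sum]
        exact sum_congr rfl fun a' _ => by ring
      simp_rw [h2]
      rw [sum_comm]
      refine sum_congr rfl fun a _ => ?_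
      rw [sum_comm]
      refine sum_congr rfl fun a' _ => ?_
      rw [mul_sum]
    · simp
  simp_rw [h1, mul_sum]
  symm
  rw [sum_congr rfl fun a _ => sum_comm, sum_comm]
  refine sum_congr rfl fun i _ => ?_
  rw [sum_congr rfl fun a _ => sum_comm, sum_comm]
  refine sum_congr rfl fun ρ _ => ?_
  rw [sum_congr rfl fun a _ => sum_comm, sum_comm]

/-- diagonal terms -/
theorem Lv.diag_eq (L : Lv I) (T T' : (κ → I) → ℝ) {X X' : (κ ↪ ι) → (ι → I) → ℝ} (hX : Indep X)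
    (hX' : Indep X') :
    ∑ ρ : κ ↪ ι, ∑ α, T (α ∘ ρ) * X ρ α * (T' (α ∘ ρ) * X' ρ α) =
      (∑ β, T β * T' β) * ∑ ρ : κ ↪ ι, ∑ α ∈ L.vac ρ, X ρ α * X' ρ α := by
  rw [mul_sum]
  refine sum_congr rfl fun ρ _ => ?_
  rw [← L.sum_vac_put ρ, mul_sum]
  refine sum_congr rfl fun α _ => ?_
  rw [sum_mul]
  refine sum_congr rfl fun β _ => ?_
  rw [put_comp, hX, hX']
  ring

theorem APair_prod (f : κ → ι → ℝ) (hf : ∀ j a, 0 ≤ f j a) :
    ∑ ρ : κ ↪ ι, ∏ j, f j (ρ j) ≤ ∏ j, ∑ a, f j a := by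
  rw [prod_univ_sum, Fintype.piFinset_univ]
  have h1 : ∑ ρ : κ ↪ ι, ∏ j, f j (ρ j) =
      ∑ σ ∈ univ.image (fun ρ : κ ↪ ι => (ρ : κ → ι)), ∏ j, f j (σ j) := by
    rw [sum_image]
    intro a _ b _ hab
    exact DFunLike.coe_injective hab
  rw [h1]
  exact sum_le_sum_of_subset_of_nonneg (subset_univ _) fun σ _ _ => prod_nonneg fun j _ => hf _ _

theorem APair_nh (L : Lv I) (α : ι → I) :
    ∑ a, (if α a ∈ L.low then (0 : ℝ) else 1) = L.nhN α := by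
  unfold Lv.nhN
  rw [card_filter]
  push_cast
  refine sum_congr rfl fun a _ => ?_
  by_cases h : α a ∈ L.low <;> simp [h]

theorem APair_card_hi (L : Lv I) {p : ℕ} (i : ι) (α : ι → I) :
    ((univ.filter fun ρ : Fin p ↪ ι => (∃ j, ρ j = i) ∧ L.Hi (α ∘ ρ)).card : ℝ) ≤
      p * (L.nhN α : ℝ) ^ (p - 1) := by
  let f : Fin p → Fin p → ι → ℝ := fun b j a =>
    if j = b then (if a = i then 1 else 0) else (if α a ∈ L.low then 0 else 1)
  have hf : ∀ b j a, 0 ≤ f b j a := fun b j a => by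
    simp only [f]; split_ifs <;> norm_num
  have h1 : ∀ b, ∏ j, ∑ a, f b j a = (L.nhN α : ℝ) ^ (p - 1) := by
    intro b
    rw [← mul_prod_erase univ _ (mem_univ b)]
    have h2 : ∑ a, f b b a = 1 := by simp [f]
    have h3 : ∀ j ∈ univ.erase b, ∑ a, f b j a = L.nhN α := by
      intro j hj
      simp only [f, if_neg (mem_erase.1 hj).1]
      exact APair_nh L α
    rw [h2, prod_congr rfl h3, prod_const, card_erase_of_mem (mem_univ b), card_univ,
      Fintype.card_fin, one_mul]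
  rw [card_filter]
  push_cast
  calc (∑ ρ : Fin p ↪ ι, if (∃ j, ρ j = i) ∧ L.Hi (α ∘ ρ) then (1 : ℝ) else 0)
      ≤ ∑ ρ : Fin p ↪ ι, ∑ b, ∏ j, f b j (ρ j) := by
        refine sum_le_sum fun ρ _ => ?_
        have h0 : ∀ b ∈ (univ : Finset (Fin p)), 0 ≤ ∏ j, f b j (ρ j) :=
          fun b _ => prod_nonneg fun j _ => hf _ _ _
        split_ifs with h
        · obtain ⟨⟨b, hb⟩, hh⟩ := h
          refine le_trans (le_of_eq ?_) (single_le_sum h0 (mem_univ b))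
          symm
          refine prod_eq_one fun j _ => ?_
          simp only [f]
          by_cases hj : j = b
          · simp [hj, hb]
          · have := hh j
            simp only [Function.comp] at this
            simp [hj, this]
        · exact sum_nonneg h0
    _ = ∑ b, ∑ ρ : Fin p ↪ ι, ∏ j, f b j (ρ j) := sum_comm
    _ ≤ ∑ b : Fin p, (L.nhN α : ℝ) ^ (p - 1) :=
        sum_le_sum fun b _ => (APair_prod (f b) (hf b)).trans (h1 b).le
    _ = _ := by simp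

theorem Lv.crude (L : Lv I) (ho : L.o ∈ L.low) {p : ℕ} {ϖ : I → ℝ} (hϖ : ∀ a, 0 ≤ ϖ a)
    {T : (Fin p → I) → ℝ} (hz : ∀ α, ¬L.Hi α → T α = 0) {X : (Fin p ↪ ι) → (ι → I) → ℝ}
    (hX : Indep X) {f : ℕ → ℝ} (hf : ∀ n, 0 ≤ f n) :
    ∑ i, ∑ α, f (L.nhN α) * ϖ (α i) * cre (fun ρ α => T (α ∘ ρ) * X ρ α) i α ^ 2 ≤
      p * (∑ β, (∑ j, ϖ (β j)) * T β ^ 2) * ∑ ρ : Fin p ↪ ι, ∑ α ∈ L.vac ρ,
        f (L.nhN α + p) * ((L.nhN α : ℝ) + p) ^ (p - 1) * X ρ α ^ 2 := by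
  have h1 : ∀ (i : ι) (α : ι → I), cre (fun ρ α => T (α ∘ ρ) * X ρ α) i α ^ 2 ≤
      p * (L.nhN α : ℝ) ^ (p - 1) * ∑ ρ : Fin p ↪ ι,
        if ∃ j, ρ j = i then (T (α ∘ ρ) * X ρ α) ^ 2 else 0 := by
    intro i α
    set S := univ.filter fun ρ : Fin p ↪ ι => (∃ j, ρ j = i) ∧ L.Hi (α ∘ ρ) with hS
    have h2 : cre (fun ρ α => T (α ∘ ρ) * X ρ α) i α = ∑ ρ ∈ S, T (α ∘ ρ) * X ρ α := by
      unfold cre
      rw [hS, sum_filter]
      refine sum_congr rfl fun ρ _ => ?_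
      by_cases ha : ∃ j, ρ j = i
      · by_cases hb : L.Hi (α ∘ ρ)
        · simp [ha, hb]
        · simp [hb, hz _ hb]
      · simp [ha]
    have h3 : ∑ ρ ∈ S, (T (α ∘ ρ) * X ρ α) ^ 2 ≤ ∑ ρ : Fin p ↪ ι,
        if ∃ j, ρ j = i then (T (α ∘ ρ) * X ρ α) ^ 2 else 0 := by
      rw [← sum_filter]
      refine sum_le_sum_of_subset_of_nonneg (fun ρ hρ => ?_) fun _ _ _ => sq_nonneg _
      exact mem_filter.2 ⟨mem_univ _, (mem_filter.1 hρ).2.1⟩
    rw [h2]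
    refine sq_sum_le_card_mul_sum_sq.trans ?_
    exact mul_le_mul (APair_card_hi L i α) h3 (sum_nonneg fun _ _ => sq_nonneg _) (by positivity)
  calc ∑ i, ∑ α, f (L.nhN α) * ϖ (α i) * cre (fun ρ α => T (α ∘ ρ) * X ρ α) i α ^ 2
      ≤ ∑ i, ∑ α : ι → I, ∑ ρ : Fin p ↪ ι, if ∃ j, ρ j = i then
          ϖ (α i) * (f (L.nhN α) * (p * (L.nhN α : ℝ) ^ (p - 1)) * (T (α ∘ ρ) * X ρ α) ^ 2)
          else 0 := by
        refine sum_le_sum fun i _ => sum_le_sum fun α _ => ?_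
        refine (mul_le_mul_of_nonneg_left (h1 i α) (mul_nonneg (hf _) (hϖ _))).trans (le_of_eq ?_)
        rw [mul_sum, mul_sum]
        refine sum_congr rfl fun ρ _ => ?_
        split_ifs
        · ring
        · simp
    _ = ∑ ρ : Fin p ↪ ι, ∑ α : ι → I, (∑ j, ϖ (α (ρ j))) *
          (f (L.nhN α) * (p * (L.nhN α : ℝ) ^ (p - 1)) * (T (α ∘ ρ) * X ρ α) ^ 2) := by
        rw [sum_comm, sum_congr rfl fun α _ => sum_comm, sum_comm]
        refine sum_congr rfl fun ρ _ => sum_congr rfl fun α _ => ?_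
        rw [APair_sum_range ρ (fun i => ϖ (α i) *
          (f (L.nhN α) * (p * (L.nhN α : ℝ) ^ (p - 1)) * (T (α ∘ ρ) * X ρ α) ^ 2)), sum_mul]
    _ = _ := by
        rw [mul_sum]
        refine sum_congr rfl fun ρ _ => ?_
        rw [← L.sum_vac_put ρ, mul_sum]
        refine sum_congr rfl fun α hα => ?_
        rw [mul_sum, sum_mul]
        refine sum_congr rfl fun β _ => ?_
        rw [put_comp, hX]
        simp only [put_apply]
        by_cases hb : L.Hi β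
        · have h4 : L.nhN (put ρ β α) = L.nhN α + p := by
            have h5 := L.nhN_put_hi ho ρ (α := put ρ β α) (by rw [put_comp]; exact hb)
              (β := α ∘ ρ) (fun j => by
                have := L.mem_vac.1 hα j
                simp only [Function.comp, this, ho])
            rw [put_put, put_self] at h5
            exact h5
          rw [h4]
          push_cast
          ring
        · simp [hz _ hb]

/-- positions of `ρ` outside the range of `ρ'` -/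
def APair_R (ρ : κ ↪ ι) (ρ' : κ' ↪ ι) : Finset κ := univ.filter fun j => ¬∃ j', ρ' j' = ρ j

theorem APair_mem_R {ρ : κ ↪ ι} {ρ' : κ' ↪ ι} {j : κ} :
    j ∈ APair_R ρ ρ' ↔ ¬∃ j', ρ' j' = ρ j := by
  unfold APair_R; rw [mem_filter]; exact and_iff_right (mem_univ j)

theorem APair_card_R (ρ : κ ↪ ι) (ρ' : κ' ↪ ι) :
    (APair_R ρ ρ').card + (univ.map ρ ∩ univ.map ρ').card = Fintype.card κ := by
  have h1 : univ.map ρ ∩ univ.map ρ' = (APair_R ρ ρ')ᶜ.map ρ := by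
    ext i
    simp only [mem_inter, mem_map, mem_univ, true_and, mem_compl, APair_mem_R, not_not]
    constructor
    · rintro ⟨⟨a, rfl⟩, h⟩
      exact ⟨a, h, rfl⟩
    · rintro ⟨a, h, rfl⟩
      exact ⟨⟨a, rfl⟩, h⟩
  rw [h1, card_map, card_add_card_compl]

theorem APair_wt_nonneg (L : Lv I) (hl : ∀ a, 0 ≤ L.lam a) (R : Finset κ) {x y : ℝ} (hx : 0 ≤ x)
    (hy : 0 ≤ y) (α : κ → I) : 0 ≤ L.wtH R x y α := by
  unfold Lv.wtH
  split_ifs
  · exact add_nonneg hx (mul_nonneg hy (sum_nonneg fun j _ => hl _))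
  · exact le_rfl

theorem APair_kh_nonneg (L : Lv I) (hl : ∀ a, 0 ≤ L.lam a) (α : ι → I) : 0 ≤ L.kh α :=
  sum_nonneg fun i _ => by
    split_ifs
    · exact le_rfl
    · exact hl _

theorem APair_cnt (L : Lv I) (hl : ∀ a, 0 ≤ L.lam a) (hp : Fintype.card κ ≤ 4)
    (hp' : Fintype.card κ' ≤ 4) (ρ' : κ' ↪ ι) (α : ι → I) (R : Finset κ) {x y : ℝ} (hx : 0 ≤ x)
    (hy : 0 ≤ y) :
    ∑ ρ : κ ↪ ι, (if APair_R ρ ρ' = R then L.wtH R x y (L.pr R (α ∘ ρ)) else 0) ≤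
      256 * (x * (L.nhN α : ℝ) ^ R.card +
        y * R.card * (L.nhN α : ℝ) ^ (R.card - 1) * L.kh α) := by
  let f : κ → ι → ℝ := fun j a =>
    if j ∈ R then (if α a ∈ L.low then 0 else 1) else (if ∃ j', ρ' j' = a then 1 else 0)
  let g : κ → κ → ι → ℝ := fun b j a =>
    if j = b then (if α a ∈ L.low then 0 else L.lam (α a)) else f j a
  have hf : ∀ j a, 0 ≤ f j a := fun j a => by
    simp only [f]; split_ifs <;> norm_num
  have hg : ∀ b j a, 0 ≤ g b j a := fun b j a => by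
    simp only [g]; split_ifs
    · exact le_rfl
    · exact hl _
    · exact hf _ _
  have hfR : ∀ j ∈ R, ∑ a, f j a = L.nhN α := by
    intro j hj
    simp only [f, if_pos hj]
    exact APair_nh L α
  have hfC : ∏ j ∈ Rᶜ, ∑ a, f j a ≤ 256 := by
    have h1 : ∀ j ∈ Rᶜ, ∑ a, f j a = Fintype.card κ' := by
      intro j hj
      simp only [f, if_neg (mem_compl.1 hj)]
      rw [APair_sum_range ρ' (fun _ => 1)]
      simp
    rw [prod_congr rfl h1, prod_const]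
    have h2 : (Fintype.card κ' : ℝ) ≤ 4 := by exact_mod_cast hp'
    have h3 : Rᶜ.card ≤ 4 := (card_le_univ _).trans hp
    calc (Fintype.card κ' : ℝ) ^ Rᶜ.card ≤ 4 ^ Rᶜ.card := by gcongr
      _ ≤ 4 ^ 4 := pow_le_pow_right₀ (by norm_num) h3
      _ = 256 := by norm_num
  have hF : ∏ j, ∑ a, f j a ≤ 256 * (L.nhN α : ℝ) ^ R.card := by
    rw [← prod_mul_prod_compl R, prod_congr rfl hfR, prod_const, mul_comm]
    exact mul_le_mul_of_nonneg_right hfC (by positivity)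
  have hG : ∀ b ∈ R, ∏ j, ∑ a, g b j a ≤ 256 * ((L.nhN α : ℝ) ^ (R.card - 1) * L.kh α) := by
    intro b hb
    rw [← prod_mul_prod_compl R, ← mul_prod_erase R _ hb]
    have h1 : ∑ a, g b b a = L.kh α := by simp only [g, if_true]; rfl
    have h2 : ∀ j ∈ R.erase b, ∑ a, g b j a = L.nhN α := by
      intro j hj
      simp only [g, if_neg (mem_erase.1 hj).1]
      exact hfR j (mem_erase.1 hj).2
    have h3 : ∀ j ∈ Rᶜ, ∑ a, g b j a = ∑ a, f j a := by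
      intro j hj
      have : j ≠ b := fun h => mem_compl.1 hj (h ▸ hb)
      simp only [g, if_neg this]
    rw [h1, prod_congr rfl h2, prod_congr rfl h3, prod_const, card_erase_of_mem hb, mul_comm,
      mul_comm (L.kh α)]
    exact mul_le_mul_of_nonneg_right hfC (mul_nonneg (by positivity) (APair_kh_nonneg L hl α))
  have hpt : ∀ ρ : κ ↪ ι, (if APair_R ρ ρ' = R then L.wtH R x y (L.pr R (α ∘ ρ)) else 0) ≤
      x * ∏ j, f j (ρ j) + y * ∑ b ∈ R, ∏ j, g b j (ρ j) := by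
    intro ρ
    have h0 : 0 ≤ x * ∏ j, f j (ρ j) + y * ∑ b ∈ R, ∏ j, g b j (ρ j) :=
      add_nonneg (mul_nonneg hx (prod_nonneg fun j _ => hf _ _))
        (mul_nonneg hy (sum_nonneg fun b _ => prod_nonneg fun j _ => hg _ _ _))
    split_ifs with hR
    · unfold Lv.wtH
      split_ifs with hH
      · have hH' : ∀ j ∈ R, α (ρ j) ∉ L.low := fun j hj => by
          have := hH j hj
          simpa only [Lv.pr, if_pos hj, Function.comp] using this
        have h1 : ∀ j, f j (ρ j) = 1 := by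
          intro j
          by_cases hj : j ∈ R
          · simp only [f, if_pos hj, if_neg (hH' j hj)]
          · have : ∃ j', ρ' j' = ρ j := by
              rw [← hR, APair_mem_R, not_not] at hj; exact hj
            simp only [f, if_neg hj, if_pos this]
        have h2 : ∀ b ∈ R, ∏ j, g b j (ρ j) = L.lam (L.pr R (α ∘ ρ) b) := by
          intro b hb
          rw [← mul_prod_erase univ _ (mem_univ b), prod_eq_one, mul_one]
          · simp only [g, if_true, if_neg (hH' b hb), Lv.pr, if_pos hb, Function.comp]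
          · intro j hj
            simp only [g, if_neg (mem_erase.1 hj).1, h1]
        rw [prod_eq_one (fun j _ => h1 j), sum_congr rfl h2, mul_one]
      · exact h0
    · exact h0
  refine (sum_le_sum fun ρ _ => hpt ρ).trans ?_
  rw [sum_add_distrib, ← mul_sum, ← mul_sum, sum_comm]
  have e1 := (APair_prod f hf).trans hF
  have e2 : ∑ b ∈ R, ∑ ρ : κ ↪ ι, ∏ j, g b j (ρ j) ≤
      R.card * (256 * ((L.nhN α : ℝ) ^ (R.card - 1) * L.kh α)) := by
    refine (sum_le_sum fun b hb => (APair_prod (g b) (hg b)).trans (hG b hb)).trans ?_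
    simp
  have e3 := mul_le_mul_of_nonneg_left e1 hx
  have e4 := mul_le_mul_of_nonneg_left e2 hy
  refine (add_le_add e3 e4).trans (le_of_eq ?_)
  ring

theorem APair_Wr_nonneg (L : Lv I) (hl : ∀ a, 0 ≤ L.lam a) {x y : ℕ → ℝ} (hx : ∀ r, 0 ≤ x r)
    (hy : ∀ r, 0 ≤ y r) (r : ℕ) (α : ι → I) : 0 ≤ L.Wr x y r α := by
  unfold Lv.Wr
  have := hx r
  have := hy r
  have := APair_kh_nonneg L hl α
  positivity

theorem APair_cnt2 (L : Lv I) (hl : ∀ a, 0 ≤ L.lam a) (hp : Fintype.card κ ≤ 4)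
    (hp' : Fintype.card κ' ≤ 4) (ρ' : κ' ↪ ι) (α : ι → I) {x y : ℕ → ℝ} (hx : ∀ r, 0 ≤ x r)
    (hy : ∀ r, 0 ≤ y r) (r : ℕ) :
    ∑ ρ : κ ↪ ι, (if (APair_R ρ ρ').card = r then
      L.wtH (APair_R ρ ρ') (x r) (y r) (L.pr (APair_R ρ ρ') (α ∘ ρ)) else 0) ≤
      2 ^ 12 * L.Wr x y r α := by
  have hW := APair_Wr_nonneg L hl hx hy r α
  calc _ = ∑ ρ : κ ↪ ι, ∑ R : Finset κ, if R.card = r then
          (if APair_R ρ ρ' = R then L.wtH R (x r) (y r) (L.pr R (α ∘ ρ)) else 0) else 0 := by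
        refine sum_congr rfl fun ρ _ => ?_
        rw [sum_eq_single (APair_R ρ ρ')]
        · simp
        · intro R _ hR
          simp [hR.symm]
        · simp
    _ = ∑ R : Finset κ, if R.card = r then ∑ ρ : κ ↪ ι,
          (if APair_R ρ ρ' = R then L.wtH R (x r) (y r) (L.pr R (α ∘ ρ)) else 0) else 0 := by
        rw [sum_comm]
        refine sum_congr rfl fun R _ => ?_
        split_ifs <;> simp
    _ ≤ ∑ R : Finset κ, 256 * L.Wr x y r α := by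
        refine sum_le_sum fun R _ => ?_
        split_ifs with h
        · have := APair_cnt L hl hp hp' ρ' α R (hx r) (hy r)
          rw [h] at this
          exact this
        · positivity
    _ = 2 ^ Fintype.card κ * (256 * L.Wr x y r α) := by simp
    _ ≤ 2 ^ 4 * (256 * L.Wr x y r α) :=
        mul_le_mul_of_nonneg_right (pow_le_pow_right₀ (by norm_num) hp) (by positivity)
    _ = _ := by ring

/-- the weight of one triple -/
noncomputable def APair_U (L : Lv I) (x y : ℕ → ℝ) (r : ℕ) (X' : (κ' ↪ ι) → (ι → I) → ℝ) (i : ι)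
    (ρ : κ ↪ ι) (ρ' : κ' ↪ ι) : ℝ :=
  if ∃ j, ρ' j = i then (if (APair_R ρ ρ').card = r then
    ∑ α ∈ L.vac ρ', L.wtH (APair_R ρ ρ') (x r) (y r) (L.pr (APair_R ρ ρ') (α ∘ ρ)) * X' ρ' α ^ 2
    else 0) else 0

theorem APair_U_nonneg (L : Lv I) (hl : ∀ a, 0 ≤ L.lam a) {x y : ℕ → ℝ} (hx : ∀ r, 0 ≤ x r)
    (hy : ∀ r, 0 ≤ y r) (r : ℕ) (X' : (κ' ↪ ι) → (ι → I) → ℝ) (i : ι) (ρ : κ ↪ ι) (ρ' : κ' ↪ ι) :
    0 ≤ APair_U L x y r X' i ρ ρ' := by
  unfold APair_U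
  split_ifs
  · exact sum_nonneg fun α _ => mul_nonneg (APair_wt_nonneg L hl _ (hx r) (hy r) _) (sq_nonneg _)
  · exact le_rfl
  · exact le_rfl

theorem APair_U_sum (L : Lv I) (hl : ∀ a, 0 ≤ L.lam a) (hp : Fintype.card κ ≤ 4)
    (hp' : Fintype.card κ' ≤ 4) {x y : ℕ → ℝ} (hx : ∀ r, 0 ≤ x r) (hy : ∀ r, 0 ≤ y r) (r : ℕ)
    (X' : (κ' ↪ ι) → (ι → I) → ℝ) :
    ∑ ρ' : κ' ↪ ι, ∑ ρ : κ ↪ ι, ∑ i, APair_U L x y r X' i ρ ρ' ≤ 2 ^ 14 * L.AA x y r X' := by
  unfold Lv.AA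
  rw [mul_sum]
  refine sum_le_sum fun ρ' _ => ?_
  have h1 : ∀ ρ : κ ↪ ι, ∑ i, APair_U L x y r X' i ρ ρ' = Fintype.card κ' * ∑ α ∈ L.vac ρ',
      (if (APair_R ρ ρ').card = r then
        L.wtH (APair_R ρ ρ') (x r) (y r) (L.pr (APair_R ρ ρ') (α ∘ ρ)) else 0) * X' ρ' α ^ 2 := by
    intro ρ
    unfold APair_U
    rw [APair_sum_range ρ' (fun _ => if (APair_R ρ ρ').card = r then ∑ α ∈ L.vac ρ',
      L.wtH (APair_R ρ ρ') (x r) (y r) (L.pr (APair_R ρ ρ') (α ∘ ρ)) * X' ρ' α ^ 2 else 0)]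
    split_ifs <;> simp
  simp_rw [h1]
  rw [← mul_sum, sum_comm]
  have h2 : ∑ α ∈ L.vac ρ', ∑ ρ : κ ↪ ι, (if (APair_R ρ ρ').card = r then
        L.wtH (APair_R ρ ρ') (x r) (y r) (L.pr (APair_R ρ ρ') (α ∘ ρ)) else 0) * X' ρ' α ^ 2 ≤
      2 ^ 12 * ∑ α ∈ L.vac ρ', L.Wr x y r α * X' ρ' α ^ 2 := by
    rw [mul_sum]
    refine sum_le_sum fun α _ => ?_
    rw [← sum_mul, ← mul_assoc]
    exact mul_le_mul_of_nonneg_right (APair_cnt2 L hl hp hp' ρ' α hx hy r) (sq_nonneg _)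
  have h3 : 0 ≤ ∑ α ∈ L.vac ρ', L.Wr x y r α * X' ρ' α ^ 2 :=
    sum_nonneg fun α _ => mul_nonneg (APair_Wr_nonneg L hl hx hy r α) (sq_nonneg _)
  have h4 : (Fintype.card κ' : ℝ) ≤ 4 := by exact_mod_cast hp'
  calc _ ≤ (Fintype.card κ' : ℝ) * (2 ^ 12 * ∑ α ∈ L.vac ρ', L.Wr x y r α * X' ρ' α ^ 2) :=
        mul_le_mul_of_nonneg_left h2 (by positivity)
    _ ≤ 4 * (2 ^ 12 * ∑ α ∈ L.vac ρ', L.Wr x y r α * X' ρ' α ^ 2) :=
        mul_le_mul_of_nonneg_right h4 (by positivity)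
    _ = _ := by ring

theorem APair_off (L : Lv I) (hl : ∀ a, 0 ≤ L.lam a) {p p' : ℕ} (ep : Fintype.card κ = p)
    (ep' : Fintype.card κ' = p') (hp : p ≤ 4)
    (hp' : p' ≤ 4) {ϖ : I → ℝ} (hϖ : ∀ a, 0 ≤ ϖ a) {T : (κ → I) → ℝ} {T' : (κ' → I) → ℝ}
    {x y x' y' : ℕ → ℝ} (hx : ∀ r, 0 ≤ x r) (hy : ∀ r, 0 ≤ y r) (hx' : ∀ r, 0 ≤ x' r)
    (hy' : ∀ r, 0 ≤ y' r)
    (hT : ∀ (b : κ) (R : Finset κ), b ∉ R →
      L.Bil (fun α => √(ϖ (α b)) * T α) R (L.wtH R (x R.card) (y R.card)))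
    (hT' : ∀ (b : κ') (R : Finset κ'), b ∉ R →
      L.Bil (fun α => √(ϖ (α b)) * T' α) R (L.wtH R (x' R.card) (y' R.card)))
    {X : (κ ↪ ι) → (ι → I) → ℝ} {X' : (κ' ↪ ι) → (ι → I) → ℝ} (hX : Indep X)
    (hX' : Indep X') :
    |offS ϖ (fun ρ α => T (α ∘ ρ) * X ρ α) (fun ρ α => T' (α ∘ ρ) * X' ρ α)| ≤
      2 ^ 14 * ∑ s ∈ Icc 1 (min p p'), if s = p ∧ s = p' then 0 else
        √(L.AA x y (p - s) X') * √(L.AA x' y' (p' - s) X) := by
  have hpt : ∀ (i : ι) (ρ : κ ↪ ι) (ρ' : κ' ↪ ι),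
      |if (∃ j, ρ j = i) ∧ (∃ j, ρ' j = i) ∧ univ.map ρ ≠ univ.map ρ' then
        ∑ α : ι → I, ϖ (α i) * (T (α ∘ ρ) * X ρ α) * (T' (α ∘ ρ') * X' ρ' α) else 0| ≤
      ∑ s ∈ Icc 1 (min p p'), if s = p ∧ s = p' then 0 else
        √(APair_U L x y (p - s) X' i ρ ρ') * √(APair_U L x' y' (p' - s) X i ρ' ρ) := by
    intro i ρ ρ'
    have h0 : ∀ s ∈ Icc 1 (min p p'), 0 ≤ if s = p ∧ s = p' then 0 else
        √(APair_U L x y (p - s) X' i ρ ρ') * √(APair_U L x' y' (p' - s) X i ρ' ρ) := by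
      intro s _
      split_ifs
      · exact le_rfl
      · positivity
    split_ifs with hc
    · obtain ⟨⟨b, hb⟩, ⟨b', hb'⟩, hne⟩ := hc
      have c1 := APair_card_R ρ ρ'
      have c2 := APair_card_R ρ' ρ
      rw [inter_comm] at c2
      set s := (univ.map ρ ∩ univ.map ρ').card with hs
      have s1 : 1 ≤ s := card_pos.2 ⟨i, mem_inter.2
        ⟨mem_map.2 ⟨b, mem_univ _, hb⟩, mem_map.2 ⟨b', mem_univ _, hb'⟩⟩⟩
      have s2 : ¬(s = p ∧ s = p') := by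
        rintro ⟨e1, e2⟩
        have f1 : univ.map ρ ∩ univ.map ρ' = univ.map ρ :=
          eq_of_subset_of_card_le inter_subset_left (by rw [card_map, card_univ]; omega)
        have f2 : univ.map ρ ∩ univ.map ρ' = univ.map ρ' :=
          eq_of_subset_of_card_le inter_subset_right (by rw [card_map, card_univ]; omega)
        exact hne (f1.symm.trans f2)
      refine le_trans ?_ (single_le_sum h0 (mem_Icc.2 ⟨s1, le_min (by omega) (by omega)⟩))
      have r1 : (APair_R ρ ρ').card = p - s := by omega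
      have r2 : (APair_R ρ' ρ).card = p' - s := by omega
      have hbR : b ∉ APair_R ρ ρ' := fun h => APair_mem_R.1 h ⟨b', hb'.trans hb.symm⟩
      have hbR' : b' ∉ APair_R ρ' ρ := fun h => APair_mem_R.1 h ⟨b, hb.trans hb'.symm⟩
      have key := L.two_term ρ ρ' (fun j => APair_mem_R) (fun j => APair_mem_R) (hT b _ hbR)
        (hT' b' _ hbR') (APair_wt_nonneg L hl _ (hx _) (hy _))
        (APair_wt_nonneg L hl _ (hx' _) (hy' _)) (hX ρ) (hX' ρ')
      rw [if_neg s2, ← Real.sqrt_mul (APair_U_nonneg L hl hx hy _ _ _ _ _)]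
      apply Real.abs_le_sqrt
      unfold APair_U
      rw [if_pos ⟨b', hb'⟩, if_pos r1, if_pos ⟨b, hb⟩, if_pos r2, ← r1, ← r2]
      refine le_trans (le_of_eq ?_) key
      congr 1
      refine sum_congr rfl fun α _ => ?_
      rw [Function.comp_apply, Function.comp_apply, hb, hb']
      have := Real.mul_self_sqrt (hϖ (α i))
      linear_combination (-(T (α ∘ ρ) * X ρ α * (T' (α ∘ ρ') * X' ρ' α))) * this
    · rw [abs_zero]
      exact sum_nonneg h0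
  unfold offS
  calc _ ≤ ∑ i, ∑ ρ : κ ↪ ι, ∑ ρ' : κ' ↪ ι, ∑ s ∈ Icc 1 (min p p'), if s = p ∧ s = p' then 0 else
        √(APair_U L x y (p - s) X' i ρ ρ') * √(APair_U L x' y' (p' - s) X i ρ' ρ) := by
        refine (abs_sum_le_sum_abs _ _).trans (sum_le_sum fun i _ => ?_)
        refine (abs_sum_le_sum_abs _ _).trans (sum_le_sum fun ρ _ => ?_)
        exact (abs_sum_le_sum_abs _ _).trans (sum_le_sum fun ρ' _ => hpt i ρ ρ')
    _ = ∑ s ∈ Icc 1 (min p p'), ∑ τ : ι × (κ ↪ ι) × (κ' ↪ ι), if s = p ∧ s = p' then 0 else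
        √(APair_U L x y (p - s) X' τ.1 τ.2.1 τ.2.2) *
          √(APair_U L x' y' (p' - s) X τ.1 τ.2.2 τ.2.1) := by
        rw [sum_comm (s := Icc 1 (min p p')), Fintype.sum_prod_type]
        exact sum_congr rfl fun i _ => by rw [Fintype.sum_prod_type]
    _ ≤ _ := by
        rw [mul_sum]
        refine sum_le_sum fun s _ => ?_
        split_ifs
        · simp
        · refine (Real.sum_sqrt_mul_sqrt_le _ (fun τ => APair_U_nonneg L hl hx hy _ _ _ _ _)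
            (fun τ => APair_U_nonneg L hl hx' hy' _ _ _ _ _)).trans ?_
          have a1 : ∑ τ : ι × (κ ↪ ι) × (κ' ↪ ι), APair_U L x y (p - s) X' τ.1 τ.2.1 τ.2.2 ≤
              2 ^ 14 * L.AA x y (p - s) X' := by
            refine le_trans (le_of_eq ?_) (APair_U_sum (κ := κ) L hl (ep ▸ hp) (ep' ▸ hp') hx hy _ X')
            rw [Fintype.sum_prod_type, sum_comm, Fintype.sum_prod_type, sum_comm]
          have a2 : ∑ τ : ι × (κ ↪ ι) × (κ' ↪ ι), APair_U L x' y' (p' - s) X τ.1 τ.2.2 τ.2.1 ≤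
              2 ^ 14 * L.AA x' y' (p' - s) X := by
            refine le_trans (le_of_eq ?_)
              (APair_U_sum (κ := κ') L hl (ep' ▸ hp') (ep ▸ hp) hx' hy' _ X)
            rw [Fintype.sum_prod_type, sum_comm, Fintype.sum_prod_type]
          refine (mul_le_mul (Real.sqrt_le_sqrt a1) (Real.sqrt_le_sqrt a2) (Real.sqrt_nonneg _)
            (Real.sqrt_nonneg _)).trans (le_of_eq ?_)
          rw [Real.sqrt_mul (by positivity), Real.sqrt_mul (by positivity)]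
          have := Real.mul_self_sqrt (show (0 : ℝ) ≤ 2 ^ 14 by positivity)
          linear_combination (√(L.AA x y (p - s) X') * √(L.AA x' y' (p' - s) X)) * this

theorem Lv.off_bound (L : Lv I) (ho : L.o ∈ L.low) (hl : ∀ a, 0 ≤ L.lam a) {p p' : ℕ} (hp : p ≤ 4)
    (hp' : p' ≤ 4) {ϖ : I → ℝ} (hϖ : ∀ a, 0 ≤ ϖ a) {T : (Fin p → I) → ℝ} {T' : (Fin p' → I) → ℝ}
    {x y x' y' : ℕ → ℝ} (hx : ∀ r, 0 ≤ x r) (hy : ∀ r, 0 ≤ y r) (hx' : ∀ r, 0 ≤ x' r)
    (hy' : ∀ r, 0 ≤ y' r)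
    (hT : ∀ (b : Fin p) (R : Finset (Fin p)), b ∉ R →
      L.Bil (fun α => √(ϖ (α b)) * T α) R (L.wtH R (x R.card) (y R.card)))
    (hT' : ∀ (b : Fin p') (R : Finset (Fin p')), b ∉ R →
      L.Bil (fun α => √(ϖ (α b)) * T' α) R (L.wtH R (x' R.card) (y' R.card)))
    {X : (Fin p ↪ ι) → (ι → I) → ℝ} {X' : (Fin p' ↪ ι) → (ι → I) → ℝ} (hX : Indep X)
    (hX' : Indep X') :
    |offS ϖ (fun ρ α => T (α ∘ ρ) * X ρ α) (fun ρ α => T' (α ∘ ρ) * X' ρ α)| ≤
      2 ^ 14 * ∑ s ∈ Icc 1 (min p p'), if s = p ∧ s = p' then 0 else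
        √(L.AA x y (p - s) X') * √(L.AA x' y' (p' - s) X) :=
  APair_off L hl (Fintype.card_fin p) (Fintype.card_fin p') hp hp' hϖ hx hy hx' hy' hT hT' hX hX'

theorem APair_bil (L : Lv I) (hl : ∀ a, 0 ≤ L.lam a) {ϖ : I → ℝ} (hϖ : ∀ a, 0 ≤ ϖ a) {κ₀ : ℝ}
    (hκ : 0 ≤ κ₀) (hϖ' : ∀ a, a ∉ L.low → ϖ a ≤ κ₀ * L.lam a) {T : (κ → I) → ℝ}
    (hz : ∀ α, ¬L.Hi α → T α = 0) {x y : ℕ → ℝ} (hx : ∀ r, 0 ≤ x r) (hy : ∀ r, 0 ≤ y r)
    (hT : L.FamB T x y) (b : κ) (R : Finset κ) (hb : b ∉ R) :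
    L.Bil (fun α => √(ϖ (α b)) * T α) R (L.wtH R (κ₀ * x R.card) (κ₀ * y R.card)) := by
  let f : (κ → I) → ℝ := fun α => if α b ∈ L.low then 0 else √(ϖ (α b) / L.lam (α b))
  have hf : ∀ α, f α ^ 2 ≤ κ₀ := by
    intro α
    simp only [f]
    split_ifs with h
    · simpa using hκ
    · rw [Real.sq_sqrt (div_nonneg (hϖ _) (hl _))]
      exact div_le_of_le_mul₀ (hl _) hκ (hϖ' _ h)
  have h1 := (hT b R hb).mul (fun α _ => APair_wt_nonneg L hl R (hx _) (hy _) α) f (fun _ => 1) hf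
  convert h1 using 2 with α α
  · by_cases hα : L.Hi α
    · have e : L.pr Rᶜ α b = α b := by simp [Lv.pr, hb]
      simp only [f, e, if_neg (hα b), mul_one]
      rw [← mul_assoc, ← Real.sqrt_mul (div_nonneg (hϖ _) (hl _))]
      by_cases h0 : L.lam (α b) = 0
      · have h2 := hϖ' _ (hα b)
        rw [h0, mul_zero] at h2
        rw [le_antisymm h2 (hϖ _)]
        simp
      · rw [div_mul_cancel₀ _ h0]
    · simp [hz α hα]
  · unfold Lv.wtH
    split_ifs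
    · ring
    · simp

theorem APair_AA_mul (L : Lv I) (c : ℝ) (x y : ℕ → ℝ) (r : ℕ) (X : (κ ↪ ι) → (ι → I) → ℝ) :
    L.AA (fun r => c * x r) (fun r => c * y r) r X = c * L.AA x y r X := by
  unfold Lv.AA Lv.Wr
  rw [mul_sum]
  refine sum_congr rfl fun ρ _ => ?_
  rw [mul_sum]
  exact sum_congr rfl fun α _ => by ring

/-- version for kernels on high modes with kinetic weight -/
theorem Lv.off_bound_fam (L : Lv I) (ho : L.o ∈ L.low) (hl : ∀ a, 0 ≤ L.lam a) {p p' : ℕ}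
    (hp : p ≤ 4) (hp' : p' ≤ 4) {ϖ : I → ℝ} (hϖ : ∀ a, 0 ≤ ϖ a) {κ₀ : ℝ} (hκ : 0 ≤ κ₀)
    (hϖ' : ∀ a, a ∉ L.low → ϖ a ≤ κ₀ * L.lam a) {T : (Fin p → I) → ℝ} {T' : (Fin p' → I) → ℝ}
    (hz : ∀ α, ¬L.Hi α → T α = 0) (hz' : ∀ α, ¬L.Hi α → T' α = 0)
    {x y x' y' : ℕ → ℝ} (hx : ∀ r, 0 ≤ x r) (hy : ∀ r, 0 ≤ y r) (hx' : ∀ r, 0 ≤ x' r)
    (hy' : ∀ r, 0 ≤ y' r) (hT : L.FamB T x y) (hT' : L.FamB T' x' y')
    {X : (Fin p ↪ ι) → (ι → I) → ℝ} {X' : (Fin p' ↪ ι) → (ι → I) → ℝ} (hX : Indep X)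
    (hX' : Indep X') :
    |offS ϖ (fun ρ α => T (α ∘ ρ) * X ρ α) (fun ρ α => T' (α ∘ ρ) * X' ρ α)| ≤
      κ₀ * 2 ^ 14 * ∑ s ∈ Icc 1 (min p p'), if s = p ∧ s = p' then 0 else
        √(L.AA x y (p - s) X') * √(L.AA x' y' (p' - s) X) := by
  refine (L.off_bound ho hl hp hp' hϖ (x := fun r => κ₀ * x r) (y := fun r => κ₀ * y r)
    (x' := fun r => κ₀ * x' r) (y' := fun r => κ₀ * y' r) (fun r => mul_nonneg hκ (hx r))
    (fun r => mul_nonneg hκ (hy r)) (fun r => mul_nonneg hκ (hx' r))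
    (fun r => mul_nonneg hκ (hy' r)) (APair_bil L hl hϖ hκ hϖ' hz hx hy hT)
    (APair_bil L hl hϖ hκ hϖ' hz' hx' hy' hT') hX hX').trans (le_of_eq ?_)
  rw [mul_comm κ₀, mul_assoc]
  congr 1
  rw [mul_sum]
  refine sum_congr rfl fun s _ => ?_
  split_ifs
  · simp
  · rw [APair_AA_mul, APair_AA_mul, Real.sqrt_mul hκ, Real.sqrt_mul hκ]
    have := Real.mul_self_sqrt hκ
    linear_combination (√(L.AA x y (p - s) X') * √(L.AA x' y' (p' - s) X)) * this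

end Pool.Agent.Lib.MP_8fe63c_mp
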