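import Pool.Agent.Lib.MP_8fe63c_mp.AIdent
import Pool.Agent.Lib.MP_8fe63c_mp.APair

/-!
Elementary bounds in a sector with few excitations, used in all error estimates.

Conventions in the sketches of the files `AQV, ALin, AQK*, AClose`: `N = card ι`, `s = √N`, `n = nsq Ψ`,
`k = kk Ψ`, `l = ll Ψ`, `Z = zz Ψ`, `X = xx Ψ = k + l + Z`. In a context `Ctx η Ψ` we have `N ≥ 8`,
`1/s ≤ η^4`, and `npN + 8 ≤ η^4 N` on the support.
-/

set_option linter.unusedSectionVars false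

open Finset
open scoped InnerProductSpace

namespace Pool.Agent.Lib.MP_8fe63c_mp

variable {I ι κ κ' E : Type} [Fintype I] [DecidableEq I] [Fintype ι] [DecidableEq ι]
  [Fintype κ] [DecidableEq κ] [Fintype κ'] [DecidableEq κ']
  [NormedAddCommGroup E] [InnerProductSpace ℝ E]


theorem AErr_ex_mul (c : ℝ) (W Ψ : (ι → I) → ℝ) : ex (fun α => c * W α) Ψ = c * ex W Ψ := by
  simp only [ex, Finset.mul_sum, mul_assoc]

theorem AErr_ex_add (W W' Ψ : (ι → I) → ℝ) :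
    ex (fun α => W α + W' α) Ψ = ex W Ψ + ex W' Ψ := by
  simp only [ex, add_mul, Finset.sum_add_distrib]

theorem AErr_ex_const (c : ℝ) (Ψ : (ι → I) → ℝ) : ex (fun _ => c) Ψ = c * nsq Ψ := by
  simp only [ex, nsq, Finset.mul_sum]

theorem AErr_ex_card (P : I → Prop) [DecidablePred P] (Ψ : (ι → I) → ℝ) :
    ex (fun α => ((univ.filter fun i => P (α i)).card : ℝ)) Ψ =
      ∑ i, ∑ α, if P (α i) then Ψ α ^ 2 else 0 := by
  rw [Finset.sum_comm]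
  refine Finset.sum_congr rfl fun α _ => ?_
  simp only [Finset.card_filter, Nat.cast_sum, Finset.sum_mul]
  exact Finset.sum_congr rfl fun i _ => by split_ifs <;> simp

/-- splitting off one leg -/
theorem AErr_split (i : ι) (F : I → (I → ℝ) → ℝ) (Ψ : (ι → I) → ℝ) :
    ∑ α, F (α i) (fun δ => Ψ (Function.update α i δ)) =
      ∑ r : {j // j ≠ i} → I, ∑ a, F a (fun δ => Ψ ((Equiv.funSplitAt i I).symm (δ, r))) := by
  rw [Finset.sum_comm, ← Fintype.sum_prod_type', ← (Equiv.funSplitAt i I).symm.sum_comp]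
  refine Finset.sum_congr rfl fun x _ => ?_
  have h1 : (Equiv.funSplitAt i I).symm x i = x.1 := by simp
  rw [h1]
  congr 1
  funext δ
  congr 1
  funext j
  by_cases h : j = i
  · subst h
    simp
  · simp [h]

theorem AErr_ob {w : I → I → ℝ} {C₀ : ℝ} (hC : 0 ≤ C₀)
    (hw : ∀ ζ h : I → ℝ,
      (∑ a, ∑ b, w a b * ζ a * h b) ^ 2 ≤ C₀ ^ 2 * (∑ a, ζ a ^ 2) * ∑ b, h b ^ 2)
    (m : I → ℝ) (Ψ : (ι → I) → ℝ) :
    |ob (fun a b => m a * m b * w a b) Ψ| ≤ C₀ * ∑ i, ∑ α, (m (α i) * Ψ α) ^ 2 := by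
  unfold ob
  rw [Finset.mul_sum]
  refine (Finset.abs_sum_le_sum_abs _ _).trans (Finset.sum_le_sum fun i _ => ?_)
  have h1 := AErr_split i (fun a ψ => ∑ δ, m a * m δ * w a δ * ψ a * ψ δ) Ψ
  have h2 := AErr_split i (fun a ψ => (m a * ψ a) ^ 2) Ψ
  simp only [Function.update_eq_self] at h1 h2
  rw [h1, h2, Finset.mul_sum]
  refine (Finset.abs_sum_le_sum_abs _ _).trans (Finset.sum_le_sum fun r _ => ?_)
  refine abs_le_of_sq_le_sq ?_ (mul_nonneg hC (Finset.sum_nonneg fun a _ => sq_nonneg _))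
  have h3 := hw (fun a => m a * Ψ ((Equiv.funSplitAt i I).symm (a, r)))
    (fun a => m a * Ψ ((Equiv.funSplitAt i I).symm (a, r)))
  refine (le_of_eq ?_).trans (h3.trans (le_of_eq (by ring)))
  congr 1
  exact Finset.sum_congr rfl fun a _ => Finset.sum_congr rfl fun δ _ => by ring

theorem AErr_kh_nonneg {L : Lv I} (hl : ∀ a, 0 ≤ L.lam a) (α : ι → I) : 0 ≤ L.kh α :=
  Finset.sum_nonneg fun i _ => by
    split_ifs
    · exact le_rfl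
    · exact hl _

namespace Lv

variable {L : Lv I} {Ψ : (ι → I) → ℝ} {η : ℝ}

theorem kk_nonneg : 0 ≤ L.kk Ψ := ex_nonneg fun _ => Nat.cast_nonneg _

theorem ll_nonneg : 0 ≤ L.ll Ψ := ex_nonneg fun _ => Nat.cast_nonneg _

theorem zz_nonneg (hl : ∀ a, 0 ≤ L.lam a) : 0 ≤ L.zz Ψ :=
  ex_nonneg fun α => div_nonneg (mul_nonneg (Nat.cast_nonneg _) (AErr_kh_nonneg hl α))
    (Nat.cast_nonneg _)

theorem xx_nonneg (hl : ∀ a, 0 ≤ L.lam a) : 0 ≤ L.xx Ψ :=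
  add_nonneg (add_nonneg kk_nonneg ll_nonneg) (zz_nonneg hl)

theorem AErr_er (hl : ∀ a, 0 ≤ L.lam a) (hη : 0 ≤ η) :
    0 ≤ η * L.xx Ψ + √(nsq Ψ * L.xx Ψ) + nsq Ψ :=
  add_nonneg (add_nonneg (mul_nonneg hη (xx_nonneg hl)) (Real.sqrt_nonneg _)) (nsq_nonneg Ψ)

theorem Er_nonneg (hl : ∀ a, 0 ≤ L.lam a) {K : ℝ} (hK : 0 ≤ K) (hη : 0 ≤ η) : 0 ≤ L.Er K η Ψ :=
  mul_nonneg hK (AErr_er hl hη)

theorem Er_add (K K' : ℝ) : L.Er K η Ψ + L.Er K' η Ψ = L.Er (K + K') η Ψ :=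
  (add_mul _ _ _).symm

theorem Er_mono (hl : ∀ a, 0 ≤ L.lam a) {K K' : ℝ} (hK : K ≤ K') (hη : 0 ≤ η) :
    L.Er K η Ψ ≤ L.Er K' η Ψ :=
  mul_le_mul_of_nonneg_right hK (AErr_er hl hη)

theorem Ctx.eight_le (h : L.Ctx η Ψ) : (1 : ℝ) ≤ Fintype.card ι ∧
    (Ψ ≠ 0 → (8 : ℝ) ≤ Fintype.card ι) := by
  have h4 : η ^ 4 ≤ 1 := pow_le_one₀ h.pos.le h.le_one
  constructor
  · have h1 : 1 ≤ √(Fintype.card ι : ℝ) :=
      h.big.trans (mul_le_of_le_one_left (Real.sqrt_nonneg _) h4)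
    exact Real.one_le_sqrt.1 h1
  · intro hΨ
    obtain ⟨α, hα⟩ := Function.ne_iff.1 hΨ
    have h1 := h.sec α hα
    have h2 : η ^ 4 * Fintype.card ι ≤ Fintype.card ι :=
      mul_le_of_le_one_left (Nat.cast_nonneg _) h4
    have h3 : (0 : ℝ) ≤ L.npN α := Nat.cast_nonneg _
    linarith

theorem ex_np_le (ho : L.o ∈ L.low) (hl : ∀ a, 0 ≤ L.lam a) (c : ℝ) :
    ex (fun α => (L.npN α : ℝ) + c) Ψ ≤ L.xx Ψ + c * nsq Ψ := by
  simp only [L.npN_eq ho, Nat.cast_add]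
  rw [AErr_ex_add, AErr_ex_add, AErr_ex_const]
  have h1 : 0 ≤ L.zz Ψ := zz_nonneg hl
  unfold xx kk ll
  linarith

theorem Ctx.ex_np_mul (h : L.Ctx η Ψ) {c : ℝ} (hc : c ≤ 8) {W : (ι → I) → ℝ} (hW : ∀ α, 0 ≤ W α) :
    ex (fun α => ((L.npN α : ℝ) + c) * W α) Ψ ≤ η ^ 4 * Fintype.card ι * ex W Ψ := by
  rw [← AErr_ex_mul]
  refine ex_mono fun α hα => mul_le_mul_of_nonneg_right ?_ (hW α)
  linarith [h.sec α hα]

theorem Ctx.AErr_pow (ho : L.o ∈ L.low) (h : L.Ctx η Ψ) (r : ℕ) {α : ι → I} (hα : Ψ α ≠ 0) :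
    (L.nhN α : ℝ) ^ (r + 1) ≤ (η ^ 4 * Fintype.card ι) ^ r * L.nhN α := by
  rw [pow_succ]
  refine mul_le_mul_of_nonneg_right (pow_le_pow_left₀ (Nat.cast_nonneg _) ?_ r) (Nat.cast_nonneg _)
  have h1 := h.sec α hα
  rw [L.npN_eq ho, Nat.cast_add] at h1
  have h2 : (0 : ℝ) ≤ L.nlN α := Nat.cast_nonneg _
  linarith

theorem Ctx.ex_nh_pow (ho : L.o ∈ L.low) (h : L.Ctx η Ψ) (r : ℕ) :
    ex (fun α => (L.nhN α : ℝ) ^ (r + 1)) Ψ ≤ (η ^ 4 * Fintype.card ι) ^ r * L.kk Ψ := by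
  rw [kk, ← AErr_ex_mul]
  exact ex_mono fun α hα => h.AErr_pow ho r hα

theorem Ctx.ex_nh_kh (ho : L.o ∈ L.low) (hl : ∀ a, 0 ≤ L.lam a) (h : L.Ctx η Ψ) (r : ℕ) :
    ex (fun α => (L.nhN α : ℝ) ^ (r + 1) * L.kh α) Ψ ≤
      (η ^ 4 * Fintype.card ι) ^ r * Fintype.card ι * L.zz Ψ := by
  rw [zz, ← AErr_ex_mul]
  refine ex_mono fun α hα => ?_
  have h1 : (Fintype.card ι : ℝ) ≠ 0 := (one_pos.trans_le h.eight_le.1).ne'
  refine (mul_le_mul_of_nonneg_right (h.AErr_pow ho r hα) (AErr_kh_nonneg hl α)).trans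
    (le_of_eq ?_)
  field_simp

theorem kk_eq_sum : L.kk Ψ = ∑ i, ∑ α, if α i ∈ L.low then 0 else Ψ α ^ 2 := by
  refine (AErr_ex_card (fun a => a ∉ L.low) Ψ).trans ?_
  simp only [ite_not]

theorem ll_eq_sum : L.ll Ψ = ∑ i, ∑ α, if α i ∈ L.low ∧ α i ≠ L.o then Ψ α ^ 2 else 0 :=
  AErr_ex_card (fun a => a ∈ L.low ∧ a ≠ L.o) Ψ

theorem ob_HH_le {w : I → I → ℝ} {C₀ : ℝ} (hC : 0 ≤ C₀)
    (hw : ∀ ζ h : I → ℝ,
      (∑ a, ∑ b, w a b * ζ a * h b) ^ 2 ≤ C₀ ^ 2 * (∑ a, ζ a ^ 2) * ∑ b, h b ^ 2) :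
    |ob (L.wHH w) Ψ| ≤ C₀ * L.kk Ψ := by
  have h1 := AErr_ob hC hw (fun a => if a ∈ L.low then 0 else 1) Ψ
  have h2 : L.wHH w = fun a b => (if a ∈ L.low then 0 else 1) * (if b ∈ L.low then 0 else 1) *
      w a b := by
    funext a b
    by_cases ha : a ∈ L.low <;> by_cases hb : b ∈ L.low <;> simp [wHH, ha, hb]
  rw [h2, kk_eq_sum]
  refine h1.trans (le_of_eq ?_)
  congr 1
  exact Finset.sum_congr rfl fun i _ => Finset.sum_congr rfl fun α _ => by split_ifs <;> simp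

theorem ob_le {w : I → I → ℝ} {C₀ : ℝ} (hC : 0 ≤ C₀)
    (hw : ∀ ζ h : I → ℝ,
      (∑ a, ∑ b, w a b * ζ a * h b) ^ 2 ≤ C₀ ^ 2 * (∑ a, ζ a ^ 2) * ∑ b, h b ^ 2) :
    |ob w Ψ| ≤ C₀ * Fintype.card ι * nsq Ψ := by
  have h1 := AErr_ob hC hw (fun _ => 1) Ψ
  simp only [one_mul, Finset.sum_const, Finset.card_univ, nsmul_eq_mul] at h1
  rw [mul_assoc]
  exact h1

end Lv

theorem Dat.Base.lam_nonneg {D : Dat I E} {γ Λ C₀ C : ℝ} (h : D.Base γ Λ C₀ C) (a : I) :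
    0 ≤ D.lam a := by
  by_cases ha : a = D.o
  · rw [ha, h.lam_o]
  · exact h.γ_pos.le.trans (h.gap a ha)

theorem Dat.Kc_nonneg (D : Dat I E) (hl : ∀ a, 0 ≤ D.lam a) (Ψ : (ι → I) → ℝ) : 0 ≤ D.Kc Ψ :=
  Finset.sum_nonneg fun i _ => Finset.sum_nonneg fun α _ => mul_nonneg (by
    split_ifs
    · exact le_rfl
    · exact hl _) (sq_nonneg _)

theorem Dat.Vc_nonneg (D : Dat I E) (Ψ : (ι → I) → ℝ) : 0 ≤ D.Vc Ψ :=
  mul_nonneg (by norm_num) (Finset.sum_nonneg fun _ _ => Finset.sum_nonneg fun _ _ => sq_nonneg _)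

theorem Dat.TL_ge {D : Dat I E} {γ Λ C₀ C : ℝ} (h : D.Base γ Λ C₀ C) (Ψ : (ι → I) → ℝ) :
    γ * D.ll Ψ ≤ D.TL Ψ := by
  rw [Lv.ll, ← AErr_ex_mul]
  refine ex_mono fun α _ => ?_
  simp only [Lv.nlN, Finset.card_filter, Nat.cast_sum, Finset.mul_sum]
  refine Finset.sum_le_sum fun i _ => ?_
  by_cases h1 : α i ∈ D.low
  · by_cases h2 : α i = D.o
    · simp [h2, h.lam_o]
    · simpa [h1, h2] using h.gap _ h2
  · simp [h1]

theorem Lv.T3_add (L : Lv I) (B B' : (Fin 3 → I) → (Fin 3 → I) → ℝ) (a b : ℝ) (Ψ : (ι → I) → ℝ) :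
    L.T3 (fun β β' => a * B β β' + b * B' β β') Ψ = a * L.T3 B Ψ + b * L.T3 B' Ψ := by
  unfold Lv.T3
  rw [mul_left_comm a, mul_left_comm b, ← mul_add]
  congr 1
  simp only [Finset.mul_sum, ← Finset.sum_add_distrib]
  refine Finset.sum_congr rfl fun σ _ => Finset.sum_congr rfl fun α _ =>
    Finset.sum_congr rfl fun β _ => Finset.sum_congr rfl fun β' _ => by ring

theorem AErr_quad {J : Type} [Fintype J] (s : Finset J) {B : J → J → ℝ} {δ : ℝ} (hδ : 0 ≤ δ)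
    (h : ∀ β ∈ s, ∀ β' ∈ s, |B β β'| ≤ δ) (x : J → ℝ) :
    |∑ β ∈ s, ∑ β' ∈ s, B β β' * x β * x β'| ≤ δ * s.card * ∑ β, x β ^ 2 := by
  calc |∑ β ∈ s, ∑ β' ∈ s, B β β' * x β * x β'|
      ≤ ∑ β ∈ s, ∑ β' ∈ s, (δ / 2 * x β ^ 2 + δ / 2 * x β' ^ 2) := by
        refine (Finset.abs_sum_le_sum_abs _ _).trans (Finset.sum_le_sum fun β hβ => ?_)
        refine (Finset.abs_sum_le_sum_abs _ _).trans (Finset.sum_le_sum fun β' hβ' => ?_)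
        rw [mul_assoc, abs_mul, abs_mul, ← sq_abs (x β), ← sq_abs (x β')]
        refine (mul_le_mul_of_nonneg_right (h β hβ β' hβ') (by positivity)).trans ?_
        nlinarith [mul_nonneg hδ (sq_nonneg (|x β| - |x β'|))]
    _ = δ * s.card * ∑ β ∈ s, x β ^ 2 := by
        simp only [Finset.sum_add_distrib, Finset.sum_const, nsmul_eq_mul, ← Finset.mul_sum]
        ring
    _ ≤ δ * s.card * ∑ β, x β ^ 2 :=
        mul_le_mul_of_nonneg_left (Finset.sum_le_sum_of_subset_of_nonneg (Finset.subset_univ _)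
          fun _ _ _ => sq_nonneg _) (by positivity)

theorem Lv.T3_le (L : Lv I) {B : (Fin 3 → I) → (Fin 3 → I) → ℝ} {δ : ℝ} (hδ : 0 ≤ δ)
    (h : ∀ β ∈ L.lowF 3, ∀ β' ∈ L.lowF 3, |B β β'| ≤ δ) (Ψ : (ι → I) → ℝ) :
    |L.T3 B Ψ| ≤ δ * (L.low.card : ℝ) ^ 3 * (Fintype.card ι : ℝ) ^ 3 * nsq Ψ := by
  have hc : ((L.lowF 3).card : ℝ) = (L.low.card : ℝ) ^ 3 := by
    simp [Lv.lowF, Fintype.card_piFinset]
  have h0 : 0 ≤ δ * (L.low.card : ℝ) ^ 3 * nsq Ψ := mul_nonneg (by positivity) (nsq_nonneg Ψ)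
  have h1 : |∑ σ : Fin 3 ↪ ι, ∑ α ∈ L.vac σ, ∑ β ∈ L.lowF 3, ∑ β' ∈ L.lowF 3,
      B β β' * Ψ (put σ β α) * Ψ (put σ β' α)| ≤
      ∑ _σ : Fin 3 ↪ ι, δ * (L.low.card : ℝ) ^ 3 * nsq Ψ := by
    refine (Finset.abs_sum_le_sum_abs _ _).trans (Finset.sum_le_sum fun σ _ => ?_)
    rw [nsq, ← L.sum_vac_put σ fun α => Ψ α ^ 2, Finset.mul_sum, ← hc]
    exact (Finset.abs_sum_le_sum_abs _ _).trans (Finset.sum_le_sum fun α _ =>
      AErr_quad _ hδ h fun β => Ψ (put σ β α))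
  rw [Finset.sum_const, Finset.card_univ, nsmul_eq_mul] at h1
  have h2 : (Fintype.card (Fin 3 ↪ ι) : ℝ) ≤ (Fintype.card ι : ℝ) ^ 3 := by
    simpa only [Fintype.card_fin] using card_emb_all (κ := Fin 3) (ι := ι)
  have h3 := h1.trans (mul_le_mul_of_nonneg_right h2 h0)
  unfold Lv.T3
  rw [abs_mul, abs_of_pos (by norm_num : (0 : ℝ) < 1 / 6)]
  refine (mul_le_of_le_one_left (abs_nonneg _) (by norm_num)).trans (h3.trans (le_of_eq ?_))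
  ring

end Pool.Agent.Lib.MP_8fe63c_mp
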