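import Pool.Agent.Lib.MP_8fe63c_mp.AChan

/-!
The exact identity obtained by completing squares.

Sketch. `‖a‖^2 = ‖a - Y‖^2 + 2 ⟪a, Y⟫ - ‖Y‖^2`. With `sum_vac_put`,
`(1/3) ∑ σ ∑ vac ⟪a, Y⟫ = (1/3) ∑ σ ∑ α Ψ α ∑ β low, F3 (α ∘ σ) β Ψ (put σ β α)
 + (1/12) ∑ σ₄ ∑ α Ψ α F4 (α ∘ σ₄) Ψ (put σ₄ o α)` (a pair `(σ, l)` is a four-tuple; average over the
permutations of the four positions with `sum_emb_perm`). `pattern`: split according to the set of
positions with a high mode; a set with `p` elements is moved to the first `p` positions by a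
permutation; then group the tuples by their first `p` entries. The kinetic cross term cancels the
families with at least two high legs, because `∑ i ∈ range ρ, lam (α i) * gen = src`.
-/

set_option linter.unusedSectionVars false

open Finset
open scoped InnerProductSpace

namespace Pool.Agent.Lib.MP_8fe63c_mp

variable {I ι κ κ' E : Type} [Fintype I] [DecidableEq I] [Fintype ι] [DecidableEq ι]
  [Fintype κ] [DecidableEq κ] [Fintype κ'] [DecidableEq κ']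
  [NormedAddCommGroup E] [InnerProductSpace ℝ E]


theorem Dat.F4_symm (D : Dat I E) (π : Equiv.Perm (Fin 4)) (α : Fin 4 → I) :
    D.F4 (α ∘ π) = D.F4 α := by
  unfold Dat.F4
  congr 1
  exact Equiv.sum_comp (Equiv.mulLeft π) fun π' : Equiv.Perm (Fin 4) =>
    ⟪D.υ (fun j => α (π' (Fin.castSucc j))), D.y4 (α (π' (Fin.last 3)))⟫_ℝ

theorem Dat.F4t_symm (D : Dat I E) (π : Equiv.Perm (Fin 4)) (α β : Fin 4 → I) :
    D.F4t (α ∘ π) (β ∘ π) = D.F4t α β := by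
  unfold Dat.F4t
  rw [D.F4_symm]
  refine if_congr ⟨fun h => funext fun j => ?_, fun h => ?_⟩ rfl rfl
  · have := congrFun h (π.symm j)
    simpa [Lv.oo] using this
  · rw [h]; rfl

/-- the summand of the pattern lemma -/
noncomputable def AIdent_G (L : Lv I) {n : ℕ} (F : (Fin n → I) → (Fin n → I) → ℝ)
    (Ψ : (ι → I) → ℝ) (σ : Fin n ↪ ι) (α : ι → I) : ℝ :=
  ∑ β ∈ L.lowF n, F (α ∘ σ) β * Ψ (put σ β α)

/-- the part where the positions with a high mode are those of `A` -/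
noncomputable def AIdent_T (L : Lv I) {n : ℕ} (F : (Fin n → I) → (Fin n → I) → ℝ)
    (Ψ : (ι → I) → ℝ) (A : Finset (Fin n)) : ℝ :=
  ∑ σ : Fin n ↪ ι, ∑ α, if ∀ j, (α (σ j) ∉ L.low ↔ j ∈ A) then Ψ α * AIdent_G L F Ψ σ α else 0

theorem AIdent_G_perm (L : Lv I) {n : ℕ} {F : (Fin n → I) → (Fin n → I) → ℝ}
    (hF : ∀ (π : Equiv.Perm (Fin n)) α β, F (α ∘ π) (β ∘ π) = F α β) (Ψ : (ι → I) → ℝ)
    (π : Equiv.Perm (Fin n)) (σ : Fin n ↪ ι) (α : ι → I) :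
    AIdent_G L F Ψ (π.toEmbedding.trans σ) α = AIdent_G L F Ψ σ α := by
  unfold AIdent_G
  symm
  refine Finset.sum_equiv (Equiv.arrowCongr π.symm (Equiv.refl I)) (fun β => ?_) fun β _ => ?_
  · simp only [Lv.lowF, Fintype.mem_piFinset, Equiv.arrowCongr_apply, Equiv.coe_refl,
      Function.comp, id, Equiv.symm_symm]
    exact ⟨fun h j => h _, fun h j => by simpa using h (π.symm j)⟩
  · have h1 : (Equiv.arrowCongr π.symm (Equiv.refl I)) β = β ∘ π := rfl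
    have h2 : α ∘ (π.toEmbedding.trans σ) = (α ∘ σ) ∘ π := rfl
    rw [h1, put_perm, h2, hF]

theorem AIdent_T_card (L : Lv I) {n : ℕ} {F : (Fin n → I) → (Fin n → I) → ℝ}
    (hF : ∀ (π : Equiv.Perm (Fin n)) α β, F (α ∘ π) (β ∘ π) = F α β) (Ψ : (ι → I) → ℝ)
    {A B : Finset (Fin n)} (h : A.card = B.card) : AIdent_T L F Ψ A = AIdent_T L F Ψ B := by
  obtain ⟨π, hπ⟩ := Equiv.Perm.exists_map_finset_eq A B h
  unfold AIdent_T
  rw [← sum_emb_perm π]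
  refine Finset.sum_congr rfl fun σ _ => Finset.sum_congr rfl fun α _ => ?_
  rw [AIdent_G_perm L hF]
  refine if_congr ⟨fun h1 j => ?_, fun h1 j => ?_⟩ rfl rfl
  · have := h1 (π.symm j)
    rw [← hπ, Finset.mem_map_equiv]
    simpa using this
  · have := h1 (π j)
    rw [← hπ, Finset.mem_map_equiv] at this
    simpa using this

theorem AIdent_total (L : Lv I) {n : ℕ} {F : (Fin n → I) → (Fin n → I) → ℝ}
    (hF : ∀ (π : Equiv.Perm (Fin n)) α β, F (α ∘ π) (β ∘ π) = F α β) (Ψ : (ι → I) → ℝ) :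
    ∑ σ : Fin n ↪ ι, ∑ α, Ψ α * AIdent_G L F Ψ σ α = ∑ p ∈ range (n + 1),
      (n.choose p : ℝ) * AIdent_T L F Ψ (univ.filter fun j : Fin n => j.val < p) := by
  have h1 : ∑ σ : Fin n ↪ ι, ∑ α, Ψ α * AIdent_G L F Ψ σ α =
      ∑ A ∈ (univ : Finset (Fin n)).powerset, AIdent_T L F Ψ A := by
    unfold AIdent_T
    rw [Finset.sum_comm (s := powerset univ)]
    refine Finset.sum_congr rfl fun σ _ => ?_
    rw [Finset.sum_comm (s := powerset univ)]
    refine Finset.sum_congr rfl fun α _ => ?_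
    rw [Finset.sum_eq_single (univ.filter fun j => α (σ j) ∉ L.low)]
    · rw [if_pos (by simp)]
    · intro A _ hA
      rw [if_neg]
      intro h
      exact hA (by ext j; simp [h j])
    · simp
  have h2 : ∀ A ∈ (univ : Finset (Fin n)).powerset, AIdent_T L F Ψ A =
      (fun p => AIdent_T L F Ψ (univ.filter fun j : Fin n => j.val < p)) A.card := by
    intro A _
    refine AIdent_T_card L hF Ψ ?_
    rw [Fin.card_filter_val_lt, min_eq_right]
    simpa using A.card_le_univ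
  rw [h1, Finset.sum_congr rfl h2]
  refine (Finset.sum_powerset_apply_card
    (fun p => AIdent_T L F Ψ (univ.filter fun j : Fin n => j.val < p))).trans ?_
  simp only [Finset.card_univ, Fintype.card_fin, nsmul_eq_mul]

theorem AIdent_src (L : Lv I) (p c : ℕ) (F : (Fin (p + c) → I) → (Fin (p + c) → I) → ℝ)
    (Ψ : (ι → I) → ℝ) (ρ : Fin p ↪ ι) (α : ι → I) :
    L.src p c F ρ Ψ α = (1 / (c.factorial : ℝ)) * ∑ σ : Fin (p + c) ↪ ι,
      if (∀ j, σ (Fin.castAdd c j) = ρ j) ∧ (∀ j, α (σ (Fin.natAdd p j)) ∈ L.low) then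
        AIdent_G L F Ψ σ α else 0 := by
  unfold Lv.src chan
  congr 1
  simp only [Finset.mul_sum]
  rw [Finset.sum_congr rfl fun γ _ => Finset.sum_comm, Finset.sum_comm]
  refine Finset.sum_congr rfl fun σ _ => ?_
  by_cases hP : ∀ j, σ (Fin.castAdd c j) = ρ j
  · have happ : Fin.append (α ∘ ρ) (fun j => α (σ (Fin.natAdd p j))) = α ∘ σ := by
      funext j
      refine Fin.addCases (fun j => ?_) (fun j => ?_) j
      · rw [Fin.append_left, Function.comp_apply, Function.comp_apply, hP]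
      · rw [Fin.append_right, Function.comp_apply]
    have h1 : ∀ γ ∈ L.lowF c, (∑ β ∈ L.lowF (p + c), F (Fin.append (α ∘ ρ) γ) β *
        if (∀ j, σ (Fin.castAdd c j) = ρ j) ∧ (∀ j, α (σ (Fin.natAdd p j)) = γ j) then
          Ψ (put σ β α) else 0) =
        if (fun j => α (σ (Fin.natAdd p j))) = γ then AIdent_G L F Ψ σ α else 0 := by
      intro γ _
      by_cases hγ : (fun j => α (σ (Fin.natAdd p j))) = γ
      · rw [if_pos hγ, ← hγ, happ]
        exact Finset.sum_congr rfl fun β _ => by rw [if_pos ⟨hP, fun _ => rfl⟩]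
      · rw [if_neg hγ]
        exact Finset.sum_eq_zero fun β _ => by
          rw [if_neg (fun h => hγ (funext h.2)), mul_zero]
    rw [Finset.sum_congr rfl h1, Finset.sum_ite_eq]
    refine if_congr ?_ rfl rfl
    simp only [Lv.lowF, Fintype.mem_piFinset]
    exact ⟨fun h => ⟨hP, h⟩, fun h => h.2⟩
  · rw [if_neg (fun h => hP h.1)]
    exact Finset.sum_eq_zero fun γ _ => Finset.sum_eq_zero fun β _ => by
      rw [if_neg (fun h => hP h.1), mul_zero]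

theorem AIdent_LinF (L : Lv I) (p c : ℕ) (F : (Fin (p + c) → I) → (Fin (p + c) → I) → ℝ)
    (Ψ : (ι → I) → ℝ) :
    L.LinF p c F Ψ = 2 / ((p.factorial : ℝ) * c.factorial) *
      AIdent_T L F Ψ (univ.filter fun j : Fin (p + c) => j.val < p) := by
  have key : ∑ ρ : Fin p ↪ ι, ∑ α, (if L.Hi (α ∘ ρ) then Ψ α * L.src p c F ρ Ψ α else 0) =
      (1 / (c.factorial : ℝ)) *
        AIdent_T L F Ψ (univ.filter fun j : Fin (p + c) => j.val < p) := by
    have h1 : ∀ (ρ : Fin p ↪ ι) (α : ι → I),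
        (if L.Hi (α ∘ ρ) then Ψ α * L.src p c F ρ Ψ α else 0) =
        (1 / (c.factorial : ℝ)) * ∑ σ : Fin (p + c) ↪ ι,
          if (Fin.castAddEmb c).trans σ = ρ then
            (if ∀ j, (α (σ j) ∉ L.low ↔ j ∈ univ.filter fun j : Fin (p + c) => j.val < p) then
              Ψ α * AIdent_G L F Ψ σ α else 0) else 0 := by
      intro ρ α
      have hiff : ∀ σ : Fin (p + c) ↪ ι, (Fin.castAddEmb c).trans σ = ρ ↔
          ∀ j, σ (Fin.castAdd c j) = ρ j := fun σ =>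
        ⟨fun h j => h ▸ rfl, fun h => Function.Embedding.ext h⟩
      have hiff2 : ∀ σ : Fin (p + c) ↪ ι, (∀ j, σ (Fin.castAdd c j) = ρ j) →
          ((∀ j, (α (σ j) ∉ L.low ↔ j ∈ univ.filter fun j : Fin (p + c) => j.val < p)) ↔
            L.Hi (α ∘ ρ) ∧ ∀ j, α (σ (Fin.natAdd p j)) ∈ L.low) := by
        intro σ hP
        constructor
        · intro h
          refine ⟨fun j => ?_, fun j => ?_⟩
          · rw [Function.comp_apply, ← hP]
            exact (h _).2 (by simp)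
          · by_contra hc
            simpa using (h _).1 hc
        · intro h j
          refine Fin.addCases (fun j => ?_) (fun j => ?_) j
          · rw [hP]
            exact ⟨fun _ => by simp, fun _ => h.1 j⟩
          · exact ⟨fun hc => absurd (h.2 j) hc, fun hc => by simp at hc⟩
      by_cases hH : L.Hi (α ∘ ρ)
      · rw [if_pos hH, AIdent_src, mul_left_comm, Finset.mul_sum]
        congr 1
        refine Finset.sum_congr rfl fun σ _ => ?_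
        by_cases hP : ∀ j, σ (Fin.castAdd c j) = ρ j
        · rw [if_pos ((hiff σ).2 hP)]
          by_cases hL : ∀ j, α (σ (Fin.natAdd p j)) ∈ L.low
          · rw [if_pos ⟨hP, hL⟩, if_pos ((hiff2 σ hP).2 ⟨hH, hL⟩)]
          · rw [if_neg (fun h => hL h.2), if_neg (fun h => hL ((hiff2 σ hP).1 h).2), mul_zero]
        · rw [if_neg (fun h => hP h.1), if_neg (fun h => hP ((hiff σ).1 h)), mul_zero]
      · rw [if_neg hH, Finset.sum_eq_zero, mul_zero]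
        intro σ _
        by_cases hP : (Fin.castAddEmb c).trans σ = ρ
        · rw [if_pos hP, if_neg (fun h => hH ((hiff2 σ ((hiff σ).1 hP)).1 h).1)]
        · rw [if_neg hP]
    simp only [h1, ← Finset.mul_sum]
    congr 1
    unfold AIdent_T
    rw [Finset.sum_comm, Finset.sum_congr rfl fun α _ => Finset.sum_comm, Finset.sum_comm]
    refine Finset.sum_congr rfl fun σ _ => Finset.sum_congr rfl fun α _ => ?_
    rw [Finset.sum_ite_eq, if_pos (Finset.mem_univ _)]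
  unfold Lv.LinF
  rw [key]
  ring

theorem Lv.pattern3 (L : Lv I) {F : (Fin 3 → I) → (Fin 3 → I) → ℝ}
    (hF : ∀ (π : Equiv.Perm (Fin 3)) α β, F (α ∘ π) (β ∘ π) = F α β) (Ψ : (ι → I) → ℝ) :
    (1 / 3 : ℝ) * ∑ σ : Fin 3 ↪ ι, ∑ α, Ψ α * ∑ β ∈ L.lowF 3, F (α ∘ σ) β * Ψ (put σ β α) =
      L.LinF 0 3 F Ψ + L.LinF 1 2 F Ψ + L.LinF 2 1 F Ψ + L.LinF 3 0 F Ψ := by
  have h := AIdent_total L hF Ψ
  have h0 : L.LinF 0 3 F Ψ = 2 / (((0 : ℕ).factorial : ℝ) * (3 : ℕ).factorial) *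
    AIdent_T L F Ψ (univ.filter fun j : Fin 3 => j.val < 0) := AIdent_LinF L 0 3 F Ψ
  have h1 : L.LinF 1 2 F Ψ = 2 / (((1 : ℕ).factorial : ℝ) * (2 : ℕ).factorial) *
    AIdent_T L F Ψ (univ.filter fun j : Fin 3 => j.val < 1) := AIdent_LinF L 1 2 F Ψ
  have h2 : L.LinF 2 1 F Ψ = 2 / (((2 : ℕ).factorial : ℝ) * (1 : ℕ).factorial) *
    AIdent_T L F Ψ (univ.filter fun j : Fin 3 => j.val < 2) := AIdent_LinF L 2 1 F Ψ
  have h3 : L.LinF 3 0 F Ψ = 2 / (((3 : ℕ).factorial : ℝ) * (0 : ℕ).factorial) *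
    AIdent_T L F Ψ (univ.filter fun j : Fin 3 => j.val < 3) := AIdent_LinF L 3 0 F Ψ
  rw [h0, h1, h2, h3]
  change (1 / 3 : ℝ) * ∑ σ : Fin 3 ↪ ι, ∑ α, Ψ α * AIdent_G L F Ψ σ α = _
  rw [h]
  simp only [Finset.sum_range_succ, Finset.sum_range_zero, Nat.choose, Nat.factorial]
  push_cast
  ring

theorem Lv.pattern4 (L : Lv I) {F : (Fin 4 → I) → (Fin 4 → I) → ℝ}
    (hF : ∀ (π : Equiv.Perm (Fin 4)) α β, F (α ∘ π) (β ∘ π) = F α β) (Ψ : (ι → I) → ℝ) :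
    (1 / 12 : ℝ) * ∑ σ : Fin 4 ↪ ι, ∑ α, Ψ α * ∑ β ∈ L.lowF 4, F (α ∘ σ) β * Ψ (put σ β α) =
      L.LinF 0 4 F Ψ + L.LinF 1 3 F Ψ + L.LinF 2 2 F Ψ + L.LinF 3 1 F Ψ + L.LinF 4 0 F Ψ := by
  have h := AIdent_total L hF Ψ
  have h0 : L.LinF 0 4 F Ψ = 2 / (((0 : ℕ).factorial : ℝ) * (4 : ℕ).factorial) *
    AIdent_T L F Ψ (univ.filter fun j : Fin 4 => j.val < 0) := AIdent_LinF L 0 4 F Ψ
  have h1 : L.LinF 1 3 F Ψ = 2 / (((1 : ℕ).factorial : ℝ) * (3 : ℕ).factorial) *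
    AIdent_T L F Ψ (univ.filter fun j : Fin 4 => j.val < 1) := AIdent_LinF L 1 3 F Ψ
  have h2 : L.LinF 2 2 F Ψ = 2 / (((2 : ℕ).factorial : ℝ) * (2 : ℕ).factorial) *
    AIdent_T L F Ψ (univ.filter fun j : Fin 4 => j.val < 2) := AIdent_LinF L 2 2 F Ψ
  have h3 : L.LinF 3 1 F Ψ = 2 / (((3 : ℕ).factorial : ℝ) * (1 : ℕ).factorial) *
    AIdent_T L F Ψ (univ.filter fun j : Fin 4 => j.val < 3) := AIdent_LinF L 3 1 F Ψ
  have h4 : L.LinF 4 0 F Ψ = 2 / (((4 : ℕ).factorial : ℝ) * (0 : ℕ).factorial) *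
    AIdent_T L F Ψ (univ.filter fun j : Fin 4 => j.val < 4) := AIdent_LinF L 4 0 F Ψ
  rw [h0, h1, h2, h3, h4]
  change (1 / 12 : ℝ) * ∑ σ : Fin 4 ↪ ι, ∑ α, Ψ α * AIdent_G L F Ψ σ α = _
  rw [h]
  simp only [Finset.sum_range_succ, Finset.sum_range_zero, Nat.choose, Nat.factorial]
  push_cast
  ring

theorem AIdent_cre_low (L : Lv I) (S : (κ ↪ ι) → (ι → I) → ℝ) {i : ι} {α : ι → I}
    (h : α i ∈ L.low) : cre (L.gen S) i α = 0 := by
  unfold cre
  refine Finset.sum_eq_zero fun ρ _ => ?_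
  split_ifs with hj
  · obtain ⟨j, rfl⟩ := hj
    exact if_neg fun hH => hH j h
  · rfl

theorem Dat.xiP_low (D : Dat I E) (Ψ : (ι → I) → ℝ) (t : Fin 3) {i : ι} {α : ι → I}
    (h : α i ∈ D.low) : D.xiP Ψ t i α = 0 := by
  unfold Dat.xiP
  rw [AIdent_cre_low D.toLv _ h, AIdent_cre_low D.toLv _ h, AIdent_cre_low D.toLv _ h]
  fin_cases t <;> simp

theorem AIdent_cre_weight (L : Lv I) {S S' : (κ ↪ ι) → (ι → I) → ℝ} (x : ℝ) (i : ι) (α : ι → I)
    (h : ∀ ρ : κ ↪ ι, L.Hi (α ∘ ρ) → x * S ρ α = S' ρ α) :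
    x * cre (L.gen S) i α = cre (L.gen S') i α := by
  unfold cre Lv.gen
  rw [Finset.mul_sum]
  refine Finset.sum_congr rfl fun ρ _ => ?_
  split_ifs with h1 h2
  · rw [← h ρ h2, mul_div_assoc]
  · exact mul_zero _
  · exact mul_zero _

theorem Dat.xiP_weight (D : Dat I E) (ho : D.o ∈ D.low) (Ψ : (ι → I) → ℝ) (f : ℕ → ℝ) (t : Fin 3)
    (i : ι) (α : ι → I) :
    f (D.nhN α) * D.xiP Ψ t i α = D.xiP (fun α' => f (D.nhN α' + (t + 2)) * Ψ α') t i α := by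
  have h2 := AIdent_cre_weight D.toLv (S := D.S2 Ψ)
    (S' := D.S2 fun α' => f (D.nhN α' + 2) * Ψ α') (f (D.nhN α)) i α fun ρ hρ => by
      unfold Dat.S2
      rw [mul_add, D.src_weight ho 2 1 _ Ψ f ρ hρ, D.src_weight ho 2 2 _ Ψ f ρ hρ]
  have h3 := AIdent_cre_weight D.toLv (S := D.S3 Ψ)
    (S' := D.S3 fun α' => f (D.nhN α' + 3) * Ψ α') (f (D.nhN α)) i α fun ρ hρ => by
      unfold Dat.S3
      rw [mul_add, D.src_weight ho 3 0 _ Ψ f ρ hρ, D.src_weight ho 3 1 _ Ψ f ρ hρ]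
  have h4 := AIdent_cre_weight D.toLv (S := D.S4 Ψ)
    (S' := D.S4 fun α' => f (D.nhN α' + 4) * Ψ α') (f (D.nhN α)) i α fun ρ hρ => by
      unfold Dat.S4
      rw [D.src_weight ho 4 0 _ Ψ f ρ hρ]
  fin_cases t
  · change f (D.nhN α) * (-(1 / 2) * cre (D.gen (D.S2 Ψ)) i α) =
      -(1 / 2) * cre (D.gen (D.S2 fun α' => f (D.nhN α' + 2) * Ψ α')) i α
    rw [← h2]; ring
  · change f (D.nhN α) * (-(1 / 6) * cre (D.gen (D.S3 Ψ)) i α) =
      -(1 / 6) * cre (D.gen (D.S3 fun α' => f (D.nhN α' + 3) * Ψ α')) i α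
    rw [← h3]; ring
  · change f (D.nhN α) * (-(1 / 24) * cre (D.gen (D.S4 Ψ)) i α) =
      -(1 / 24) * cre (D.gen (D.S4 fun α' => f (D.nhN α' + 4) * Ψ α')) i α
    rw [← h4]; ring

theorem Dat.QK_eq (D : Dat I E) (ϖ : I → ℝ) (Ψ : (ι → I) → ℝ) :
    D.QK ϖ Ψ = ∑ t, ∑ t', D.QP ϖ Ψ t t' := by
  unfold Dat.QK Dat.QP Dat.xi
  simp only [Fin.sum_univ_three, ← Finset.sum_add_distrib]
  exact Finset.sum_congr rfl fun i _ => Finset.sum_congr rfl fun α _ => by ring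

theorem AIdent_ob_transp (w : I → I → ℝ) (Ψ : (ι → I) → ℝ) :
    ob (fun a b => w b a) Ψ = ob w Ψ := by
  unfold ob
  refine Finset.sum_congr rfl fun i _ => ?_
  rw [← Fintype.sum_prod_type', ← Fintype.sum_prod_type']
  have hinv : Function.Involutive fun p : (ι → I) × I => (Function.update p.1 i p.2, p.1 i) := by
    intro p
    simp
  refine Fintype.sum_equiv hinv.toPerm _ _ fun p => ?_
  simp only [Function.Involutive.coe_toPerm, Function.update_self, Function.update_idem,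
    Function.update_eq_self]
  ring

theorem Lv.ob_split (L : Lv I) {w : I → I → ℝ} (hw : ∀ a b, w a b = w b a) (Ψ : (ι → I) → ℝ) :
    ob w Ψ = ob (L.wLL w) Ψ + 2 * ob (L.wHL w) Ψ + ob (L.wHH w) Ψ := by
  rw [two_mul]
  nth_rewrite 2 [← AIdent_ob_transp (L.wHL w) Ψ]
  unfold ob
  simp only [← Finset.sum_add_distrib]
  refine Finset.sum_congr rfl fun i _ => Finset.sum_congr rfl fun α _ =>
    Finset.sum_congr rfl fun δ _ => ?_
  unfold Lv.wLL Lv.wHL Lv.wHH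
  by_cases h1 : α i ∈ L.low <;> by_cases h2 : δ ∈ L.low <;> simp [h1, h2, hw δ (α i)]

theorem AIdent_cross (L : Lv I) [Nonempty κ] (hl : ∀ a, a ∉ L.low → 0 < L.lam a)
    (S : (κ ↪ ι) → (ι → I) → ℝ) (Ψ : (ι → I) → ℝ) :
    ∑ i, ∑ α, L.lam (α i) * Ψ α * cre (L.gen S) i α =
      ∑ ρ : κ ↪ ι, ∑ α, if L.Hi (α ∘ ρ) then Ψ α * S ρ α else 0 := by
  unfold cre
  simp only [Finset.mul_sum]
  rw [Finset.sum_comm, Finset.sum_congr rfl fun α _ => Finset.sum_comm, Finset.sum_comm]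
  refine Finset.sum_congr rfl fun ρ _ => Finset.sum_congr rfl fun α _ => ?_
  have h1 : ∑ i, L.lam (α i) * Ψ α * (if ∃ j, ρ j = i then L.gen S ρ α else 0) =
      ∑ j, L.lam (α (ρ j)) * Ψ α * L.gen S ρ α := by
    rw [← Finset.sum_map univ ρ fun i => L.lam (α i) * Ψ α * L.gen S ρ α]
    symm
    refine (Finset.sum_congr rfl fun i hi => ?_).trans
      (Finset.sum_subset (Finset.subset_univ _) fun i _ hi => ?_)
    · rw [if_pos (by simpa using hi)]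
    · rw [if_neg (by simpa using hi), mul_zero]
  rw [h1, ← Finset.sum_mul, ← Finset.sum_mul]
  unfold Lv.gen
  split_ifs with hH
  · have : 0 < ∑ j, L.lam (α (ρ j)) := Finset.sum_pos (fun j _ => hl _ (hH j)) univ_nonempty
    field_simp
  · exact mul_zero _

theorem AIdent_snoc {n : ℕ} (h : (Fin n ↪ ι) → ι → ℝ) :
    ∑ σ : Fin n ↪ ι, ∑ l, (if ∃ j, σ j = l then 0 else h σ l) =
      ∑ τ : Fin (n + 1) ↪ ι, h (Fin.Embedding.init τ) (τ (Fin.last n)) := by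
  rw [← Fintype.sum_prod_type']
  have h1 : ∀ p : (Fin n ↪ ι) × ι, (if ∃ j, p.1 j = p.2 then 0 else h p.1 p.2) =
      if ¬∃ j, p.1 j = p.2 then h p.1 p.2 else 0 := fun p => by rw [ite_not]
  simp only [h1]
  rw [← Finset.sum_filter]
  symm
  refine Finset.sum_bij (fun τ _ => (Fin.Embedding.init τ, τ (Fin.last n))) (fun τ _ => ?_)
    (fun τ _ τ' _ hτ => ?_) (fun p hp => ?_) fun τ _ => rfl
  · refine Finset.mem_filter.2 ⟨Finset.mem_univ _, ?_⟩
    rintro ⟨j, hj⟩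
    exact (Fin.castSucc_lt_last j).ne (τ.injective hj)
  · obtain ⟨h2, h3⟩ := Prod.mk.inj hτ
    refine Function.Embedding.ext fun j => Fin.lastCases h3 (fun j => ?_) j
    exact DFunLike.congr_fun h2 j
  · have hp' : p.2 ∉ Set.range p.1 := (Finset.mem_filter.1 hp).2
    exact ⟨Fin.Embedding.snoc p.1 hp', Finset.mem_univ _, by
      rw [Fin.Embedding.init_snoc, Fin.Embedding.snoc_last]⟩

theorem AIdent_put_snoc {n : ℕ} (o : I) (τ : Fin (n + 1) ↪ ι) (α : ι → I) :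
    Function.update (put (Fin.Embedding.init τ) (fun _ => o) α) (τ (Fin.last n)) o =
      put τ (fun _ => o) α := by
  funext i
  by_cases h : ∃ j, τ j = i
  · obtain ⟨j, rfl⟩ := h
    rw [put_apply]
    refine Fin.lastCases ?_ (fun j => ?_) j
    · exact Function.update_self _ _ _
    · rw [Function.update_of_ne fun h => (Fin.castSucc_lt_last j).ne (τ.injective h)]
      exact put_apply (Fin.Embedding.init τ) (fun _ => o) α j
  · rw [put_apply_not _ _ _ h, Function.update_of_ne fun h' => h ⟨_, h'.symm⟩, put_apply_not]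
    rintro ⟨j, hj⟩
    exact h ⟨j.castSucc, hj⟩

theorem AIdent_inner (D : Dat I E) (Ψ : (ι → I) → ℝ) (σ : Fin 3 ↪ ι) :
    ∑ α ∈ D.vac σ, ⟪Lv.av D.υ σ Ψ α, D.Yv σ Ψ α⟫_ℝ =
      ∑ α, Ψ α * ∑ β ∈ D.lowF 3, D.F3 (α ∘ σ) β * Ψ (put σ β α) +
        ∑ l, if ∃ j, σ j = l then 0 else ∑ α, Ψ α *
          (Ψ (Function.update (put σ (fun _ => D.o) α) l D.o) * ⟪D.υ (α ∘ σ), D.y4 (α l)⟫_ℝ) := by
  have h1 : ∑ α ∈ D.vac σ, ⟪Lv.av D.υ σ Ψ α, D.Yv σ Ψ α⟫_ℝ =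
      ∑ α, Ψ α * ⟪D.υ (α ∘ σ), D.Yv σ Ψ (put σ (fun _ => D.o) α)⟫_ℝ := by
    rw [← D.sum_vac_put σ]
    refine Finset.sum_congr rfl fun α hα => ?_
    have hα' : α ∘ σ = fun _ => D.o := funext (D.mem_vac.1 hα)
    unfold Lv.av
    rw [sum_inner]
    refine Finset.sum_congr rfl fun β _ => ?_
    rw [real_inner_smul_left, put_comp, put_put, ← hα', put_self]
  have h2 : ∀ l, (if ∃ j, σ j = l then 0 else ∑ α, Ψ α *
      (Ψ (Function.update (put σ (fun _ => D.o) α) l D.o) * ⟪D.υ (α ∘ σ), D.y4 (α l)⟫_ℝ)) =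
      ∑ α, Ψ α * ⟪D.υ (α ∘ σ), if ∃ j, σ j = l then 0 else
        Ψ (Function.update (put σ (fun _ => D.o) α) l D.o) •
          D.y4 (put σ (fun _ => D.o) α l)⟫_ℝ := by
    intro l
    split_ifs with h
    · simp
    · exact Finset.sum_congr rfl fun α _ => by rw [real_inner_smul_right, put_apply_not _ _ _ h]
  rw [h1, Finset.sum_congr rfl fun l _ => h2 l, Finset.sum_comm, ← Finset.sum_add_distrib]
  refine Finset.sum_congr rfl fun α _ => ?_
  unfold Dat.Yv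
  rw [inner_add_right, inner_sum, inner_sum, mul_add, Finset.mul_sum univ]
  congr 2
  refine Finset.sum_congr rfl fun β _ => ?_
  rw [real_inner_smul_right, put_put, mul_comm]
  rfl

theorem AIdent_four (D : Dat I E) (ho : D.o ∈ D.low) (Ψ : (ι → I) → ℝ) :
    4 * ∑ σ : Fin 3 ↪ ι, ∑ l, (if ∃ j, σ j = l then 0 else ∑ α, Ψ α *
      (Ψ (Function.update (put σ (fun _ => D.o) α) l D.o) * ⟪D.υ (α ∘ σ), D.y4 (α l)⟫_ℝ)) =
      ∑ σ : Fin 4 ↪ ι, ∑ α, Ψ α * ∑ β ∈ D.lowF 4, D.F4t (α ∘ σ) β * Ψ (put σ β α) := by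
  obtain ⟨g, hg⟩ : ∃ g : (Fin 4 ↪ ι) → ℝ, g = fun τ => ∑ α, Ψ α * (Ψ (put τ (fun _ => D.o) α) *
    ⟪D.υ (fun j => α (τ (Fin.castSucc j))), D.y4 (α (τ (Fin.last 3)))⟫_ℝ) := ⟨_, rfl⟩
  have h1 : ∑ σ : Fin 3 ↪ ι, ∑ l, (if ∃ j, σ j = l then 0 else ∑ α, Ψ α *
      (Ψ (Function.update (put σ (fun _ => D.o) α) l D.o) * ⟪D.υ (α ∘ σ), D.y4 (α l)⟫_ℝ)) =
      ∑ τ, g τ := by
    rw [AIdent_snoc, hg]
    refine Finset.sum_congr rfl fun τ _ => Finset.sum_congr rfl fun α _ => ?_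
    rw [AIdent_put_snoc]
    rfl
  have h2 : ∑ π : Equiv.Perm (Fin 4), ∑ τ, g (π.toEmbedding.trans τ) = 24 * ∑ τ, g τ := by
    rw [Finset.sum_congr rfl fun π _ => sum_emb_perm π g, Finset.sum_const, Finset.card_univ,
      Fintype.card_perm, Fintype.card_fin, nsmul_eq_mul]
    norm_num [Nat.factorial]
  have h3 : ∀ τ : Fin 4 ↪ ι, ∑ π : Equiv.Perm (Fin 4), g (π.toEmbedding.trans τ) =
      6 * ∑ α, Ψ α * ∑ β ∈ D.lowF 4, D.F4t (α ∘ τ) β * Ψ (put τ β α) := by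
    intro τ
    rw [hg]
    dsimp only
    rw [Finset.sum_comm, Finset.mul_sum]
    refine Finset.sum_congr rfl fun α _ => ?_
    have h4 : ∑ β ∈ D.lowF 4, D.F4t (α ∘ τ) β * Ψ (put τ β α) =
        D.F4 (α ∘ τ) * Ψ (put τ (fun _ => D.o) α) := by
      rw [Finset.sum_eq_single_of_mem (D.oo 4) (D.oo_mem_lowF ho 4)]
      · unfold Dat.F4t
        rw [if_pos rfl]
        rfl
      · intro β _ hβ
        unfold Dat.F4t
        rw [if_neg hβ, zero_mul]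
    have h5 : ∀ π : Equiv.Perm (Fin 4), put (π.toEmbedding.trans τ) (fun _ => D.o) α =
        put τ (fun _ => D.o) α := fun π => put_perm τ π (fun _ => D.o) α
    simp only [h5]
    rw [h4, ← Finset.mul_sum, ← Finset.mul_sum]
    unfold Dat.F4
    simp only [Function.Embedding.trans_apply, Equiv.coe_toEmbedding, Function.comp_apply]
    ring
  rw [Finset.sum_comm, Finset.sum_congr rfl fun τ _ => h3 τ, ← Finset.mul_sum] at h2
  rw [h1]
  linarith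

theorem Dat.identity (D : Dat I E) (ho : D.o ∈ D.low) (hl : ∀ a, a ∉ D.low → 0 < D.lam a)
    (hF : ∀ (π : Equiv.Perm (Fin 3)) (α β : Fin 3 → I), D.F3 (α ∘ π) (β ∘ π) = D.F3 α β)
    (w : I → I → ℝ) (Ψ : (ι → I) → ℝ) :
    D.Ham D.υ w Ψ = D.TL Ψ + D.Kc Ψ + D.Vc Ψ + D.Lin0 Ψ + D.Lin1 Ψ - D.QK D.lam Ψ - D.QV Ψ -
      ob w Ψ := by
  have hK : D.TL Ψ + D.Kc Ψ - D.QK D.lam Ψ = ex (fun α => ∑ i, D.lam (α i)) Ψ -
      2 * ∑ i, ∑ α, D.lam (α i) * Ψ α * D.xi Ψ i α := by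
    unfold Lv.TL Dat.Kc Dat.QK ex
    simp only [Finset.sum_mul, Finset.mul_sum]
    rw [Finset.sum_comm, Finset.sum_comm (s := (univ : Finset (ι → I)))]
    simp only [← Finset.sum_add_distrib, ← Finset.sum_sub_distrib]
    refine Finset.sum_congr rfl fun i _ => Finset.sum_congr rfl fun α _ => ?_
    by_cases h : α i ∈ D.low
    · have : D.xi Ψ i α = 0 := Finset.sum_eq_zero fun t _ => D.xiP_low Ψ t h
      rw [if_pos h, if_pos h, this]
      ring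
    · rw [if_neg h, if_neg h]
      ring
  have hX : ∑ i, ∑ α, D.lam (α i) * Ψ α * D.xi Ψ i α =
      -(1 / 2) * (∑ i, ∑ α, D.lam (α i) * Ψ α * cre (D.gen (D.S2 Ψ)) i α) -
        (1 / 6) * (∑ i, ∑ α, D.lam (α i) * Ψ α * cre (D.gen (D.S3 Ψ)) i α) -
        (1 / 24) * ∑ i, ∑ α, D.lam (α i) * Ψ α * cre (D.gen (D.S4 Ψ)) i α := by
    simp only [Finset.mul_sum, ← Finset.sum_sub_distrib]
    refine Finset.sum_congr rfl fun i _ => Finset.sum_congr rfl fun α _ => ?_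
    unfold Dat.xi
    rw [Fin.sum_univ_three]
    change _ * (-(1 / 2) * cre (D.gen (D.S2 Ψ)) i α + -(1 / 6) * cre (D.gen (D.S3 Ψ)) i α +
      -(1 / 24) * cre (D.gen (D.S4 Ψ)) i α) = _
    ring
  rw [AIdent_cross D.toLv hl, AIdent_cross D.toLv hl, AIdent_cross D.toLv hl] at hX
  have hS2 : ∑ ρ : Fin 2 ↪ ι, ∑ α, (if D.Hi (α ∘ ρ) then Ψ α * D.S2 Ψ ρ α else 0) =
      D.LinF 2 1 D.F3 Ψ + D.LinF 2 2 D.F4t Ψ := by
    unfold Lv.LinF Dat.S2
    rw [← mul_add, ← Finset.sum_add_distrib]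
    simp only [← Finset.sum_add_distrib]
    rw [show (2 : ℝ) / (Nat.factorial 2 : ℕ) = 1 by norm_num [Nat.factorial], one_mul]
    refine Finset.sum_congr rfl fun ρ _ => Finset.sum_congr rfl fun α _ => ?_
    split_ifs <;> ring
  have hS3 : ∑ ρ : Fin 3 ↪ ι, ∑ α, (if D.Hi (α ∘ ρ) then Ψ α * D.S3 Ψ ρ α else 0) =
      3 * (D.LinF 3 0 D.F3 Ψ + D.LinF 3 1 D.F4t Ψ) := by
    unfold Lv.LinF Dat.S3
    rw [← mul_add, ← Finset.sum_add_distrib, ← mul_assoc]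
    simp only [← Finset.sum_add_distrib]
    rw [show (3 : ℝ) * (2 / (Nat.factorial 3 : ℕ)) = 1 by norm_num [Nat.factorial], one_mul]
    refine Finset.sum_congr rfl fun ρ _ => Finset.sum_congr rfl fun α _ => ?_
    split_ifs <;> ring
  have hS4 : ∑ ρ : Fin 4 ↪ ι, ∑ α, (if D.Hi (α ∘ ρ) then Ψ α * D.S4 Ψ ρ α else 0) =
      12 * D.LinF 4 0 D.F4t Ψ := by
    unfold Lv.LinF Dat.S4
    rw [← mul_assoc,
      show (12 : ℝ) * (2 / (Nat.factorial 4 : ℕ)) = 1 by norm_num [Nat.factorial], one_mul]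
  have hV : D.Vc Ψ - D.QV Ψ = (1 / 6 : ℝ) * (∑ σ : Fin 3 ↪ ι, D.Vs D.υ σ Ψ) -
      (1 / 3 : ℝ) * ∑ σ : Fin 3 ↪ ι, ∑ α ∈ D.vac σ, ⟪Lv.av D.υ σ Ψ α, D.Yv σ Ψ α⟫_ℝ := by
    unfold Dat.Vc Dat.QV Lv.Vs
    simp only [Finset.mul_sum, ← Finset.sum_sub_distrib]
    refine Finset.sum_congr rfl fun σ _ => Finset.sum_congr rfl fun α _ => ?_
    rw [norm_sub_sq_real]
    ring
  rw [Finset.sum_congr rfl fun σ _ => AIdent_inner D Ψ σ, Finset.sum_add_distrib] at hV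
  have h3 := D.pattern3 hF Ψ
  have h4 := D.pattern4 D.F4t_symm Ψ
  have h5 := AIdent_four D ho Ψ
  unfold Lv.Ham Dat.Lin0 Dat.Lin1
  linarith

end Pool.Agent.Lib.MP_8fe63c_mp
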