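import Pool.Agent.Lib.MP_8fe63c_mp.AIms2

/-!
Localisation in the number of excitations.

Sketch. Let `g n = (π/2) * clamp ((n - εN/2)/(εN/4))` with values in `[0, π/2]`, Lipschitz with constant
`Lg = 2π/(εN)`, `Ψ₁ = cos (g npN) Ψ`, `Ψ₂ = sin (g npN) Ψ`. Diagonal terms are additive. For `ob`
the error is at most `Lg^2 C₀ N n` (split the leg into `o` and the rest, `1 - cos x ≤ x^2/2`, `w_op`). For
`Vs σ` and fixed `α ∈ vac σ` group the vectors `Ψ (put σ β α) • υ β` by the number `j ≤ 3` of entries of `β`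
outside `o`: `V₀, .., V₃`; the error is at most `18 Lg^2 ∑ ‖V j‖^2`; `V₃ = av - V₀ - V₁ - V₂`, and
`V₀, V₁, V₂` are sums of at most seven vectors with a leg in `o`, bounded by `h1` and `υ_symm`. With
`Kin + V = H + ob ≤ H + C₀ N n` we get `H Ψ₁ + H Ψ₂ ≤ H Ψ + C' N^(-3/2) (H Ψ + C' N n) + C' n/N`.
-/

set_option linter.unusedSectionVars false

open Finset
open scoped InnerProductSpace

namespace Pool.Agent.Lib.MP_8fe63c_mp

variable {I ι κ κ' E : Type} [Fintype I] [DecidableEq I] [Fintype ι] [DecidableEq ι]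
  [Fintype κ] [DecidableEq κ] [Fintype κ'] [DecidableEq κ']
  [NormedAddCommGroup E] [InnerProductSpace ℝ E]


/-- the localisation formula for an angle depending on the number of excitations -/
theorem AIms_H {D : Dat I E} {γ Λ C₀ C l : ℝ} (hB : D.Base γ Λ C₀ C)
    (hH : D.Hardy √(Fintype.card ι : ℝ) C) (hN : (1 : ℝ) ≤ Fintype.card ι) (hl : 0 < l)
    (g : ℝ → ℝ) (hg : ∀ x y, |g x - g y| ≤ l / Fintype.card ι * |x - y|) (Ψ : (ι → I) → ℝ) :
    D.H (fun α => Real.cos (g (D.npN α)) * Ψ α) + D.H (fun α => Real.sin (g (D.npN α)) * Ψ α) ≤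
      D.H Ψ + l ^ 2 * (9 + 41 * C) / Fintype.card ι * (D.H Ψ + C₀ * Fintype.card ι * nsq Ψ) +
        (3 * C₀ + 14 * C) * l ^ 2 * nsq Ψ := by
  have hC₀ : 0 ≤ C₀ := by linarith [hB.C₀_ge]
  have hC : 0 ≤ C := by linarith [hB.C₀_ge, hB.C₀_le]
  have hL : 0 < l / Fintype.card ι := by positivity
  have h1 := AIms_ob D.o hC₀ hB.w_op Ψ (fun α => g (D.npN α)) hL.le (fun α i a =>
    (hg _ _).trans (mul_le_of_le_one_right hL.le (AIms_np_update D.toLv α i a)))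
  have h2 := AIms_V hB hH (Real.sqrt_nonneg _) Ψ (fun α => g (D.npN α))
    (M := l / Fintype.card ι * 3) (by positivity) (fun σ α hα =>
      ⟨g (D.npN α + 3), fun β => ⟨(hg _ _).trans
        (mul_le_mul_of_nonneg_left (AIms_np_put D.toLv hα β).1 hL.le), fun h => by
          rw [(AIms_np_put D.toLv hα β).2 h]⟩⟩)
  have h3 : ex (fun α => ∑ i, D.lam (α i)) (fun α => Real.cos (g (D.npN α)) * Ψ α) +
      ex (fun α => ∑ i, D.lam (α i)) (fun α => Real.sin (g (D.npN α)) * Ψ α) =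
      ex (fun α => ∑ i, D.lam (α i)) Ψ := by
    unfold ex
    rw [← Finset.sum_add_distrib]
    refine Finset.sum_congr rfl fun α _ => ?_
    have := Real.cos_sq_add_sin_sq (g (D.npN α))
    linear_combination ((∑ i, D.lam (α i)) * Ψ α ^ 2) * this
  have h4 := (abs_le.1 (Lv.ob_le (Ψ := Ψ) hC₀ hB.w_op)).2
  have h5 : 0 ≤ ex (fun α => ∑ i, D.lam (α i)) Ψ :=
    ex_nonneg fun α => Finset.sum_nonneg fun i _ => hB.lam_nonneg _
  have h6 : 0 ≤ ∑ σ : Fin 3 ↪ ι, D.Vs D.υ σ Ψ :=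
    Finset.sum_nonneg fun σ _ => Finset.sum_nonneg fun α _ => sq_nonneg _
  have h7 := nsq_nonneg Ψ
  unfold Dat.H Lv.Ham
  set Kin := ex (fun α => ∑ i, D.lam (α i)) Ψ
  set V := ∑ σ : Fin 3 ↪ ι, D.Vs D.υ σ Ψ
  set n := nsq Ψ
  set s := √(Fintype.card ι : ℝ) with hs
  have hs1 : 1 ≤ s := by rw [hs]; exact Real.one_le_sqrt.2 hN
  have hs2 : (Fintype.card ι : ℝ) = s ^ 2 := by rw [hs, Real.sq_sqrt (by linarith)]
  have hs0 : 0 < s := by linarith
  rw [hs2] at h1 h2 h4 ⊢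
  obtain ⟨u, hu⟩ : ∃ u, u = s⁻¹ := ⟨_, rfl⟩
  have hu0 : 0 < u := by rw [hu]; positivity
  have hu1 : u ≤ 1 := by rw [hu]; exact inv_le_one_of_one_le₀ hs1
  have hu2 : u ^ 2 ≤ 1 := pow_le_one₀ hu0.le hu1
  have e1 : 3 * C₀ * (l / s ^ 2) ^ 2 * s ^ 2 * n = u ^ 2 * (3 * C₀ * l ^ 2 * n) := by
    rw [hu]; field_simp
  have e2 : (1 + (l / s ^ 2 * 3) ^ 2) * V = V + u ^ 2 * (9 * l ^ 2 * u ^ 2 * V) := by
    rw [hu]; field_simp; ring
  have e3 : 9 * (l / s ^ 2 * 3) ^ 2 * (C / s ^ 3) * (3 * (s ^ 2) ^ 2 * Kin + (s ^ 2) ^ 3 * n) =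
      u * (243 * l ^ 2 * C * u ^ 2 * Kin) + u * (81 * l ^ 2 * C * n) := by
    rw [hu]; field_simp; ring
  have e4 : l ^ 2 * (9 + 41 * C) / s ^ 2 = l ^ 2 * (9 + 41 * C) * u ^ 2 := by
    rw [hu]; field_simp
  have b1 : u ^ 2 * (3 * C₀ * l ^ 2 * n) ≤ 3 * C₀ * l ^ 2 * n :=
    mul_le_of_le_one_left (by positivity) hu2
  have b2 : u ^ 2 * (9 * l ^ 2 * u ^ 2 * V) ≤ 9 * l ^ 2 * u ^ 2 * V :=
    mul_le_of_le_one_left (by positivity) hu2
  have b3 : u * (243 * l ^ 2 * C * u ^ 2 * Kin) ≤ 243 * l ^ 2 * C * u ^ 2 * Kin :=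
    mul_le_of_le_one_left (by positivity) hu1
  have b4 : u * (81 * l ^ 2 * C * n) ≤ 81 * l ^ 2 * C * n :=
    mul_le_of_le_one_left (by positivity) hu1
  have b5 : l ^ 2 * (9 + 41 * C) * u ^ 2 * (Kin + 1 / 6 * V) ≤
      l ^ 2 * (9 + 41 * C) * u ^ 2 * (Kin - ob D.w Ψ + 1 / 6 * V + C₀ * s ^ 2 * n) :=
    mul_le_mul_of_nonneg_left (by linarith) (by positivity)
  have b6 : 0 ≤ l ^ 2 * u ^ 2 * Kin := by positivity
  have b7 : 0 ≤ l ^ 2 * C * u ^ 2 * Kin := by positivity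
  have b8 : 0 ≤ l ^ 2 * C * u ^ 2 * V := by positivity
  have b9 : 0 ≤ l ^ 2 * C * n := by positivity
  rw [e1] at h1
  rw [e2, e3] at h2
  rw [e4]
  linarith

/-- the cut-off angle -/
theorem AIms_angle {a : ℝ} (ha : 0 < a) : ∃ g : ℝ → ℝ, (∀ x y, |g x - g y| ≤ 2 / a * |x - y|) ∧
    (∀ x, x ≤ 2 * a → Real.sin (g x) = 0) ∧ ∀ x, 3 * a ≤ x → Real.cos (g x) = 0 := by
  refine ⟨fun x => Real.pi / 2 * max (min ((x - 2 * a) / a) 1) 0, ?_, ?_, ?_⟩
  · intro x y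
    have h1 := abs_max_sub_max_le_abs (min ((x - 2 * a) / a) 1) (min ((y - 2 * a) / a) 1) 0
    have h2 := abs_min_sub_min_le_max ((x - 2 * a) / a) 1 ((y - 2 * a) / a) 1
    rw [sub_self, abs_zero, max_eq_left (abs_nonneg _)] at h2
    have h3 : |(x - 2 * a) / a - (y - 2 * a) / a| = 1 / a * |x - y| := by
      rw [← sub_div, abs_div, abs_of_pos ha, sub_sub_sub_cancel_right]; ring
    rw [← mul_sub, abs_mul, abs_of_pos (by positivity : 0 < Real.pi / 2)]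
    have h4 : Real.pi / 2 ≤ 2 := by linarith [Real.pi_le_four]
    calc _ ≤ 2 * (1 / a * |x - y|) :=
          mul_le_mul h4 (h1.trans (h2.trans h3.le)) (abs_nonneg _) (by norm_num)
      _ = _ := by ring
  · intro x hx
    have h1 : (x - 2 * a) / a ≤ 0 := div_nonpos_of_nonpos_of_nonneg (by linarith) ha.le
    simp only [max_eq_right ((min_le_left _ _).trans h1), mul_zero, Real.sin_zero]
  · intro x hx
    have h1 : 1 ≤ (x - 2 * a) / a := by rw [le_div_iff₀ ha]; linarith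
    simp only [min_eq_right h1, max_eq_left zero_le_one, mul_one, Real.cos_pi_div_two]

theorem ims (C₀ C γ' ε K e c : ℝ) (hγ : 0 < γ') (hε : 0 < ε) : ∃ (K' : ℝ) (N₀ : ℕ), ∀ {I ι E : Type} [Fintype I] [DecidableEq I] [Fintype ι] [DecidableEq ι]
      [NormedAddCommGroup E] [InnerProductSpace ℝ E] (D : Dat I E)
      (γ Λ : ℝ), N₀ ≤ Fintype.card ι → D.Base γ Λ C₀ C → D.Hardy √(Fintype.card ι : ℝ) C →
      (∀ Ψ : (ι → I) → ℝ, (e - γ' * ε / 4) * Fintype.card ι * nsq Ψ +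
        γ' * ex (fun α => (D.npN α : ℝ)) Ψ ≤ D.H Ψ) →
      (∀ Ψ : (ι → I) → ℝ, D.Sec (ε * Fintype.card ι) Ψ →
        (e * Fintype.card ι + c * √(Fintype.card ι : ℝ) - K) * nsq Ψ ≤ D.H Ψ) →
      ∀ Ψ : (ι → I) → ℝ,
        (e * Fintype.card ι + c * √(Fintype.card ι : ℝ) - K') * nsq Ψ ≤ D.H Ψ := by
  obtain ⟨s₀, hs₀⟩ : ∃ s₀ : ℝ, s₀ = 1 + 32 / ε + 4 * (|c| + |K|) / (γ' * ε) := ⟨_, rfl⟩
  refine ⟨K + (8 / ε) ^ 2 * (9 + 41 * C) * (|e| + |c| + |K| + C₀) +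
    (3 * C₀ + 14 * C) * (8 / ε) ^ 2, ⌈s₀ ^ 2⌉₊, ?_⟩
  intro I ι E _ _ _ _ _ _ D γ Λ hN hB hH hlow hsec Ψ
  have hC₀ : 0 ≤ C₀ := by linarith [hB.C₀_ge]
  have hC : 0 ≤ C := by linarith [hB.C₀_ge, hB.C₀_le]
  have hN' : s₀ ^ 2 ≤ (Fintype.card ι : ℝ) := Nat.ceil_le.1 hN
  have p1 : 0 < 32 / ε := by positivity
  have p2 : 0 ≤ 4 * (|c| + |K|) / (γ' * ε) := by positivity
  have hss : s₀ ≤ √(Fintype.card ι : ℝ) := Real.le_sqrt_of_sq_le hN'
  have hs2 : √(Fintype.card ι : ℝ) ^ 2 = Fintype.card ι := Real.sq_sqrt (Nat.cast_nonneg _)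
  have hN1 : (1 : ℝ) ≤ Fintype.card ι := by nlinarith
  have hn := nsq_nonneg Ψ
  obtain ⟨g, hg, hg1, hg2⟩ := AIms_angle (a := ε * Fintype.card ι / 4) (by positivity)
  have hg' : ∀ x y, |g x - g y| ≤ 8 / ε / Fintype.card ι * |x - y| := fun x y =>
    (hg x y).trans (le_of_eq (by field_simp; ring))
  have hmain := AIms_H hB hH hN1 (by positivity) g hg' Ψ
  set N : ℝ := (Fintype.card ι : ℝ) with hNdef
  set s := √N with hs
  have hs1 : 1 ≤ s := by linarith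
  have hsN : s ≤ N := by nlinarith
  have q1 : 32 ≤ ε * N := by
    have : 32 / ε ≤ N := by linarith
    rwa [div_le_iff₀' hε] at this
  have q2 : c * s - K ≤ γ' * ε / 4 * N := by
    have h1 : 4 * (|c| + |K|) / (γ' * ε) ≤ s := by linarith
    rw [div_le_iff₀ (by positivity)] at h1
    have h2 := mul_le_mul_of_nonneg_right h1 (by linarith : (0 : ℝ) ≤ s)
    have h3 := mul_le_mul_of_nonneg_right (le_abs_self c) (by linarith : (0 : ℝ) ≤ s)
    have h4 := mul_le_mul_of_nonneg_left hs1 (abs_nonneg K)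
    have h5 := neg_abs_le K
    rw [← hs2]
    nlinarith
  have r1 := hsec (fun α => Real.cos (g (D.npN α)) * Ψ α) (fun α hα => by
    by_contra h
    exact hα (by simp only [hg2 (D.npN α) (by linarith), zero_mul]))
  have r2 := hlow (fun α => Real.sin (g (D.npN α)) * Ψ α)
  have r3 : ε * N / 2 * nsq (fun α => Real.sin (g (D.npN α)) * Ψ α) ≤
      ex (fun α => (D.npN α : ℝ)) (fun α => Real.sin (g (D.npN α)) * Ψ α) := by
    have : ε * N / 2 * nsq (fun α => Real.sin (g (D.npN α)) * Ψ α) =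
        ex (fun _ => ε * N / 2) (fun α => Real.sin (g (D.npN α)) * Ψ α) := by
      unfold nsq ex; rw [Finset.mul_sum]
    rw [this]
    refine ex_mono fun α hα => ?_
    by_contra h
    exact hα (by simp only [hg1 (D.npN α) (by linarith), zero_mul])
  have r4 : nsq (fun α => Real.cos (g (D.npN α)) * Ψ α) +
      nsq (fun α => Real.sin (g (D.npN α)) * Ψ α) = nsq Ψ := by
    unfold nsq
    rw [← Finset.sum_add_distrib]
    refine Finset.sum_congr rfl fun α _ => ?_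
    have := Real.cos_sq_add_sin_sq (g (D.npN α))
    linear_combination (Ψ α ^ 2) * this
  have r5 := nsq_nonneg (fun α => Real.sin (g (D.npN α)) * Ψ α)
  have r6 := mul_le_mul_of_nonneg_left r3 hγ.le
  have r7 := mul_le_mul_of_nonneg_right q2 r5
  have r8 : (e * N + c * s - K) * nsq Ψ ≤ D.H (fun α => Real.cos (g (D.npN α)) * Ψ α) +
      D.H (fun α => Real.sin (g (D.npN α)) * Ψ α) := by
    rw [← r4]
    linarith
  have t1 : 0 ≤ (8 / ε) ^ 2 * (9 + 41 * C) * (|e| + |c| + |K| + C₀) * nsq Ψ := by positivity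
  have t2 : 0 ≤ (3 * C₀ + 14 * C) * (8 / ε) ^ 2 * nsq Ψ := by positivity
  by_cases hc : (e * N + c * s - K) * nsq Ψ ≤ D.H Ψ
  · linarith
  have hN0 : 0 < N := by linarith
  have t3 : e * N + c * s - K ≤ (|e| + |c| + |K|) * N := by
    have h1 := mul_le_mul_of_nonneg_right (le_abs_self e) hN0.le
    have h2 := mul_le_mul_of_nonneg_right (le_abs_self c) (by linarith : (0 : ℝ) ≤ s)
    have h3 := mul_le_mul_of_nonneg_left hsN (abs_nonneg c)
    have h4 := mul_le_mul_of_nonneg_left hN1 (abs_nonneg K)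
    have h5 := neg_abs_le K
    linarith
  have t4 : D.H Ψ + C₀ * N * nsq Ψ ≤ N * ((|e| + |c| + |K| + C₀) * nsq Ψ) := by
    have := mul_le_mul_of_nonneg_right t3 hn
    linarith
  have t5 : (8 / ε) ^ 2 * (9 + 41 * C) / N * (D.H Ψ + C₀ * N * nsq Ψ) ≤
      (8 / ε) ^ 2 * (9 + 41 * C) * (|e| + |c| + |K| + C₀) * nsq Ψ := by
    refine (mul_le_mul_of_nonneg_left t4 (by positivity)).trans (le_of_eq ?_)
    field_simp
  linarith

end Pool.Agent.Lib.MP_8fe63c_mp
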