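import Pool.Agent.Lib.MP_8fe63c_mp.AErr

set_option linter.unusedSectionVars false

open Finset
open scoped InnerProductSpace

namespace Pool.Agent.Lib.MP_8fe63c_mp

variable {I ι κ κ' E : Type} [Fintype I] [DecidableEq I] [Fintype ι] [DecidableEq ι]
  [Fintype κ] [DecidableEq κ] [Fintype κ'] [DecidableEq κ']
  [NormedAddCommGroup E] [InnerProductSpace ℝ E]

theorem AIms_sum_upd (o : I) (i : ι) (f : (ι → I) → ℝ) :
    ∑ α, f α = ∑ α ∈ univ.filter (fun α : ι → I => α i = o), ∑ a, f (Function.update α i a) := by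
  rw [← Finset.sum_product']
  refine Finset.sum_bij' (fun α _ => (Function.update α i o, α i))
    (fun p _ => Function.update p.1 i p.2) ?_ ?_ ?_ ?_ ?_
  · intro α _; simp
  · intro p _; simp
  · intro α _; simp
  · intro p hp
    have h : p.1 i = o := by simpa using hp
    ext <;> simp [← h]
  · intro α _; simp

theorem AIms_sum_put (f : I → ℝ) (σ : κ ↪ ι) (β : κ → I) (α : ι → I) :
    ∑ k, f (put σ β α k) = ∑ k, f (α k) - ∑ j, f (α (σ j)) + ∑ j, f (β j) := by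
  rw [← Finset.sum_sdiff (Finset.subset_univ (univ.map σ)),
    ← Finset.sum_sdiff (Finset.subset_univ (univ.map σ)) (f := fun k => f (α k)),
    Finset.sum_map, Finset.sum_map]
  have h1 : ∑ k ∈ univ \ univ.map σ, f (put σ β α k) = ∑ k ∈ univ \ univ.map σ, f (α k) := by
    refine Finset.sum_congr rfl fun k hk => ?_
    rw [put_apply_not σ β α (by simpa using hk)]
  simp only [put_apply, h1]
  ring

theorem AIms_sum_update (f : I → ℝ) (i : ι) (a : I) (α : ι → I) :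
    ∑ k, f (Function.update α i a k) = ∑ k, f (α k) - f (α i) + f a := by
  rw [← Finset.add_sum_erase _ _ (mem_univ i),
    ← Finset.add_sum_erase _ (fun k => f (α k)) (mem_univ i)]
  have h1 : ∑ k ∈ univ.erase i, f (Function.update α i a k) = ∑ k ∈ univ.erase i, f (α k) := by
    refine Finset.sum_congr rfl fun k hk => ?_
    rw [Function.update_of_ne (Finset.ne_of_mem_erase hk)]
  rw [h1, Function.update_self]
  ring

theorem AIms_np_eq (L : Lv I) (α : ι → I) :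
    (L.npN α : ℝ) = ∑ k, if α k = L.o then (0 : ℝ) else 1 := by
  unfold Lv.npN
  rw [Finset.card_filter]
  push_cast
  refine Finset.sum_congr rfl fun k _ => ?_
  by_cases h : α k = L.o <;> simp [h]

theorem AIms_np_update (L : Lv I) (α : ι → I) (i : ι) (a : I) :
    |(L.npN (Function.update α i a) : ℝ) - L.npN α| ≤ 1 := by
  rw [AIms_np_eq, AIms_np_eq,
    AIms_sum_update (fun b => if b = L.o then (0 : ℝ) else 1) i a α, abs_le]
  constructor <;> split_ifs <;> linarith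

theorem AIms_np_put (L : Lv I) {σ : Fin 3 ↪ ι} {α : ι → I} (hα : α ∈ L.vac σ) (β : Fin 3 → I) :
    |(L.npN (put σ β α) : ℝ) - (L.npN α + 3)| ≤ 3 ∧
      ((∀ j, β j ≠ L.o) → (L.npN (put σ β α) : ℝ) = L.npN α + 3) := by
  have h := (Lv.mem_vac L).1 hα
  rw [AIms_np_eq, AIms_np_eq, AIms_sum_put (fun b => if b = L.o then (0 : ℝ) else 1) σ β α]
  simp only [h, if_true, Finset.sum_const_zero, sub_zero, Fin.sum_univ_three]
  constructor
  · rw [abs_le]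
    constructor <;> split_ifs <;> linarith
  · intro hβ
    simp only [hβ, if_false]
    ring

/-- a bounded bilinear form with bounded multipliers -/
theorem AIms_bil {w : I → I → ℝ} {C₀ : ℝ} (hC : 0 ≤ C₀)
    (hw : ∀ ζ h : I → ℝ,
      (∑ a, ∑ b, w a b * ζ a * h b) ^ 2 ≤ C₀ ^ 2 * (∑ a, ζ a ^ 2) * ∑ b, h b ^ 2)
    (ψ p q : I → ℝ) {P Q : ℝ} (hP0 : 0 ≤ P) (hQ0 : 0 ≤ Q) (hP : ∀ a, |p a| ≤ P)
    (hQ : ∀ a, |q a| ≤ Q) :
    |∑ a, ∑ b, w a b * (p a * ψ a) * (q b * ψ b)| ≤ C₀ * P * Q * ∑ a, ψ a ^ 2 := by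
  have hn : 0 ≤ ∑ a, ψ a ^ 2 := Finset.sum_nonneg fun a _ => sq_nonneg _
  have key : ∀ (p : I → ℝ) (P : ℝ), (∀ a, |p a| ≤ P) →
      ∑ a, (p a * ψ a) ^ 2 ≤ P ^ 2 * ∑ a, ψ a ^ 2 := by
    intro p P hP
    rw [Finset.mul_sum]
    refine Finset.sum_le_sum fun a _ => ?_
    rw [mul_pow]
    refine mul_le_mul_of_nonneg_right ?_ (sq_nonneg _)
    rw [← sq_abs (p a)]
    exact pow_le_pow_left₀ (abs_nonneg _) (hP a) 2
  refine abs_le_of_sq_le_sq' ?_ (by positivity) |> abs_le.2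
  refine (hw _ _).trans ?_
  calc C₀ ^ 2 * (∑ a, (p a * ψ a) ^ 2) * ∑ b, (q b * ψ b) ^ 2
      ≤ C₀ ^ 2 * (P ^ 2 * ∑ a, ψ a ^ 2) * (Q ^ 2 * ∑ a, ψ a ^ 2) := by
        refine mul_le_mul (mul_le_mul_of_nonneg_left (key p P hP) (sq_nonneg _)) (key q Q hQ)
          (Finset.sum_nonneg fun a _ => sq_nonneg _) (by positivity)
    _ = _ := by ring

theorem AIms_cos_sub {x z M : ℝ} (h : |x - z| ≤ M) : |Real.cos (x - z) - 1| ≤ M ^ 2 / 2 := by
  have h1 := Real.one_sub_sq_div_two_le_cos (x := x - z)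
  have h2 := Real.cos_le_one (x - z)
  have h3 : (x - z) ^ 2 ≤ M ^ 2 := by
    rw [← sq_abs (x - z)]
    exact pow_le_pow_left₀ (abs_nonneg _) h 2
  rw [abs_le]
  constructor <;> nlinarith [sq_nonneg M]

/-- one leg -/
theorem AIms_leg {w : I → I → ℝ} {C₀ : ℝ} (hC : 0 ≤ C₀)
    (hw : ∀ ζ h : I → ℝ,
      (∑ a, ∑ b, w a b * ζ a * h b) ^ 2 ≤ C₀ ^ 2 * (∑ a, ζ a ^ 2) * ∑ b, h b ^ 2)
    (ψ θ : I → ℝ) {z M : ℝ} (hM : 0 ≤ M) (hθ : ∀ a, |θ a - z| ≤ M) :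
    ∑ a, ∑ b, w a b * ψ a * ψ b ≤
      ∑ a, ∑ b, w a b * (Real.cos (θ a) * ψ a) * (Real.cos (θ b) * ψ b) +
        ∑ a, ∑ b, w a b * (Real.sin (θ a) * ψ a) * (Real.sin (θ b) * ψ b) +
        3 * C₀ * M ^ 2 * ∑ a, ψ a ^ 2 := by
  have hc : ∀ a, |Real.cos (θ a) - Real.cos z| ≤ M := fun a =>
    (Real.abs_cos_sub_cos_le _ _).trans (hθ a)
  have hs : ∀ a, |Real.sin (θ a) - Real.sin z| ≤ M := fun a =>
    (Real.abs_sin_sub_sin_le _ _).trans (hθ a)
  have hr : ∀ a, |Real.cos (θ a - z) - 1| ≤ M ^ 2 / 2 := fun a => AIms_cos_sub (hθ a)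
  have h1 := AIms_bil hC hw ψ _ _ hM hM hc hc
  have h2 := AIms_bil hC hw ψ _ _ hM hM hs hs
  have h3 := AIms_bil hC hw ψ (fun _ => 1) _ zero_le_one (by positivity) (fun _ => by simp) hr
  have h4 := AIms_bil hC hw ψ _ (fun _ => 1) (by positivity) zero_le_one hr (fun _ => by simp)
  have key : ∑ a, ∑ b, w a b * (Real.cos (θ a) * ψ a) * (Real.cos (θ b) * ψ b) +
      ∑ a, ∑ b, w a b * (Real.sin (θ a) * ψ a) * (Real.sin (θ b) * ψ b) =
      ∑ a, ∑ b, w a b * ψ a * ψ b +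
      ∑ a, ∑ b, w a b * ((Real.cos (θ a) - Real.cos z) * ψ a) *
        ((Real.cos (θ b) - Real.cos z) * ψ b) +
      ∑ a, ∑ b, w a b * ((Real.sin (θ a) - Real.sin z) * ψ a) *
        ((Real.sin (θ b) - Real.sin z) * ψ b) +
      ∑ a, ∑ b, w a b * (1 * ψ a) * ((Real.cos (θ b - z) - 1) * ψ b) +
      ∑ a, ∑ b, w a b * ((Real.cos (θ a - z) - 1) * ψ a) * (1 * ψ b) := by
    simp only [← Finset.sum_add_distrib]
    refine Finset.sum_congr rfl fun a _ => Finset.sum_congr rfl fun b _ => ?_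
    rw [Real.cos_sub, Real.cos_sub]
    have := Real.cos_sq_add_sin_sq z
    linear_combination (-(w a b * ψ a * ψ b)) * this
  rw [key]
  have := (abs_le.1 h1).1
  have := (abs_le.1 h2).1
  have := (abs_le.1 h3).1
  have := (abs_le.1 h4).1
  linarith

theorem AIms_ob (o : I) {w : I → I → ℝ} {C₀ : ℝ} (hC : 0 ≤ C₀)
    (hw : ∀ ζ h : I → ℝ,
      (∑ a, ∑ b, w a b * ζ a * h b) ^ 2 ≤ C₀ ^ 2 * (∑ a, ζ a ^ 2) * ∑ b, h b ^ 2)
    (Ψ Θ : (ι → I) → ℝ) {M : ℝ} (hM : 0 ≤ M)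
    (hΘ : ∀ α i a, |Θ (Function.update α i a) - Θ α| ≤ M) :
    ob w Ψ ≤ ob w (fun α => Real.cos (Θ α) * Ψ α) + ob w (fun α => Real.sin (Θ α) * Ψ α) +
      3 * C₀ * M ^ 2 * Fintype.card ι * nsq Ψ := by
  have h0 : 3 * C₀ * M ^ 2 * Fintype.card ι * nsq Ψ = ∑ _i : ι, 3 * C₀ * M ^ 2 * nsq Ψ := by
    rw [Finset.sum_const, Finset.card_univ, nsmul_eq_mul]; ring
  unfold ob
  rw [h0, ← Finset.sum_add_distrib, ← Finset.sum_add_distrib]
  refine Finset.sum_le_sum fun i _ => ?_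
  unfold nsq
  rw [AIms_sum_upd o i, AIms_sum_upd o i (fun α => ∑ δ, w (α i) δ * (Real.cos (Θ α) * Ψ α) * _),
    AIms_sum_upd o i (fun α => ∑ δ, w (α i) δ * (Real.sin (Θ α) * Ψ α) * _),
    AIms_sum_upd o i (fun α => Ψ α ^ 2), Finset.mul_sum, ← Finset.sum_add_distrib,
    ← Finset.sum_add_distrib]
  refine Finset.sum_le_sum fun α _ => ?_
  simp only [Function.update_self, Function.update_idem]
  exact AIms_leg hC hw (fun a => Ψ (Function.update α i a)) (fun a => Θ (Function.update α i a))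
    hM (hΘ α i)

end Pool.Agent.Lib.MP_8fe63c_mp
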