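import Pool.Agent.Lib.MP_8fe63c_mp.AIms1

set_option linter.unusedSectionVars false

open Finset
open scoped InnerProductSpace

namespace Pool.Agent.Lib.MP_8fe63c_mp

variable {I ι κ κ' E : Type} [Fintype I] [DecidableEq I] [Fintype ι] [DecidableEq ι]
  [Fintype κ] [DecidableEq κ] [Fintype κ'] [DecidableEq κ']
  [NormedAddCommGroup E] [InnerProductSpace ℝ E]

theorem AIms_sum_three {M : Type} [AddCommMonoid M] (o : I) (f : (Fin 3 → I) → M)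
    (hf : ∀ β, β 2 ≠ o → f β = 0) : ∑ β, f β = ∑ a, ∑ b, f ![a, b, o] := by
  rw [← Finset.sum_product', ← Finset.sum_filter_of_ne (p := fun β : Fin 3 → I => β 2 = o)
    (fun β _ h => by by_contra h'; exact h (hf β h'))]
  refine Finset.sum_bij' (fun β _ => (β 0, β 1)) (fun p _ => ![p.1, p.2, o]) ?_ ?_ ?_ ?_ ?_
  · intro β _; simp
  · intro p _; simp
  · intro β hβ
    have h : β 2 = o := by simpa using hβ
    funext j; fin_cases j <;> simp [h]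
  · intro p _; simp
  · intro β hβ
    have h : β 2 = o := by simpa using hβ
    congr 1
    funext j; fin_cases j <;> simp [h]

variable {D : Dat I E} {γ Λ C₀ C s : ℝ}

theorem AIms_h_two (hB : D.Base γ Λ C₀ C) (hH : D.Hardy s C) (hs : 0 ≤ s)
    (c : (Fin 3 → I) → ℝ) (hc : ∀ β, β 2 ≠ D.o → c β = 0) :
    ‖∑ β, c β • D.υ β‖ ^ 2 ≤ C / s ^ 3 * ∑ β, (∑ j, D.lam (β j) + 1) * c β ^ 2 := by
  have hC : 0 ≤ C := by linarith [hB.C₀_ge, hB.C₀_le]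
  rw [AIms_sum_three D.o (fun β => c β • D.υ β) (fun β h => by simp [hc β h]),
    AIms_sum_three D.o (fun β => (∑ j, D.lam (β j) + 1) * c β ^ 2) (fun β h => by simp [hc β h])]
  refine (hH.h1 fun a b => c ![a, b, D.o]).trans ?_
  refine mul_le_mul_of_nonneg_left ?_ (by positivity)
  refine Finset.sum_le_sum fun a _ => Finset.sum_le_sum fun b _ => ?_
  refine mul_le_mul_of_nonneg_right ?_ (sq_nonneg _)
  have h1 := hB.lam_nonneg b
  have h2 := hB.lam_nonneg D.o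
  simp only [Fin.sum_univ_three, Matrix.cons_val_zero, Matrix.cons_val_one, Matrix.cons_val]
  linarith

theorem AIms_h_slot (hB : D.Base γ Λ C₀ C) (hH : D.Hardy s C) (hs : 0 ≤ s) (t : Fin 3)
    (c : (Fin 3 → I) → ℝ) (hc : ∀ β, β t ≠ D.o → c β = 0) :
    ‖∑ β, c β • D.υ β‖ ^ 2 ≤ C / s ^ 3 * ∑ β, (∑ j, D.lam (β j) + 1) * c β ^ 2 := by
  have h1 := hB.υ_symm (Equiv.swap t 2) (fun β => c (β ∘ Equiv.swap t 2))
  rw [sum_comp_perm (Equiv.swap t 2) (fun β => c β • D.υ β)] at h1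
  rw [h1]
  refine (AIms_h_two hB hH hs _ (fun β h => hc _ (by simpa using h))).trans (le_of_eq ?_)
  congr 1
  rw [← sum_comp_perm (Equiv.swap t 2) (fun β => (∑ j, D.lam (β j) + 1) * c β ^ 2)]
  refine Finset.sum_congr rfl fun β _ => ?_
  congr 2
  exact (Equiv.sum_comp (Equiv.swap t 2) (fun j => D.lam (β j))).symm

theorem AIms_h_any (hB : D.Base γ Λ C₀ C) (hH : D.Hardy s C) (hs : 0 ≤ s)
    (c : (Fin 3 → I) → ℝ) (hc : ∀ β, (∀ j, β j ≠ D.o) → c β = 0) :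
    ‖∑ β, c β • D.υ β‖ ^ 2 ≤ 3 * (C / s ^ 3) * ∑ β, (∑ j, D.lam (β j) + 1) * c β ^ 2 := by
  set c0 : (Fin 3 → I) → ℝ := fun β => if β 0 = D.o then c β else 0 with hc0
  set c1 : (Fin 3 → I) → ℝ := fun β => if β 0 ≠ D.o ∧ β 1 = D.o then c β else 0 with hc1
  set c2 : (Fin 3 → I) → ℝ := fun β => if β 0 ≠ D.o ∧ β 1 ≠ D.o then c β else 0 with hc2
  have h0 := AIms_h_slot hB hH hs 0 c0 (fun β h => by simp [hc0, h])
  have h1 := AIms_h_slot hB hH hs 1 c1 (fun β h => by simp [hc1, h])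
  have h2 := AIms_h_slot hB hH hs 2 c2 (fun β h => by
    simp only [hc2]
    split_ifs with h'
    · refine hc β fun j => ?_
      fin_cases j
      · exact h'.1
      · exact h'.2
      · exact h
    · rfl)
  have e1 : ∑ β, c β • D.υ β = ∑ β, c0 β • D.υ β + ∑ β, c1 β • D.υ β + ∑ β, c2 β • D.υ β := by
    rw [← Finset.sum_add_distrib, ← Finset.sum_add_distrib]
    refine Finset.sum_congr rfl fun β _ => ?_
    rw [← add_smul, ← add_smul]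
    congr 1
    simp only [hc0, hc1, hc2]
    by_cases a0 : β 0 = D.o <;> by_cases a1 : β 1 = D.o <;> simp [a0, a1]
  have e2 : ∑ β, (∑ j, D.lam (β j) + 1) * c β ^ 2 =
      ∑ β, (∑ j, D.lam (β j) + 1) * c0 β ^ 2 + ∑ β, (∑ j, D.lam (β j) + 1) * c1 β ^ 2 +
        ∑ β, (∑ j, D.lam (β j) + 1) * c2 β ^ 2 := by
    rw [← Finset.sum_add_distrib, ← Finset.sum_add_distrib]
    refine Finset.sum_congr rfl fun β _ => ?_
    simp only [hc0, hc1, hc2]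
    by_cases a0 : β 0 = D.o <;> by_cases a1 : β 1 = D.o <;> simp [a0, a1]
  rw [e1, e2]
  set x := ∑ β, c0 β • D.υ β
  set y := ∑ β, c1 β • D.υ β
  set z := ∑ β, c2 β • D.υ β
  have h3 : ‖x + y + z‖ ≤ ‖x‖ + ‖y‖ + ‖z‖ := norm_add₃_le
  have h4 : ‖x + y + z‖ ^ 2 ≤ (‖x‖ + ‖y‖ + ‖z‖) ^ 2 := pow_le_pow_left₀ (norm_nonneg _) h3 2
  nlinarith [sq_nonneg (‖x‖ - ‖y‖), sq_nonneg (‖x‖ - ‖z‖), sq_nonneg (‖y‖ - ‖z‖)]

theorem AIms_h_mul (hB : D.Base γ Λ C₀ C) (hH : D.Hardy s C) (hs : 0 ≤ s)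
    (ψ p : (Fin 3 → I) → ℝ) {P : ℝ} (hP : ∀ β, |p β| ≤ P) (hp : ∀ β, (∀ j, β j ≠ D.o) → p β = 0) :
    ‖∑ β, (p β * ψ β) • D.υ β‖ ^ 2 ≤
      P ^ 2 * (3 * (C / s ^ 3) * ∑ β, (∑ j, D.lam (β j) + 1) * ψ β ^ 2) := by
  have hC : 0 ≤ C := by linarith [hB.C₀_ge, hB.C₀_le]
  refine (AIms_h_any hB hH hs _ (fun β h => by rw [hp β h, zero_mul])).trans ?_
  rw [mul_left_comm]
  refine mul_le_mul_of_nonneg_left ?_ (by positivity)
  rw [Finset.mul_sum]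
  refine Finset.sum_le_sum fun β _ => ?_
  have h1 : 0 ≤ ∑ j, D.lam (β j) + 1 :=
    add_nonneg (Finset.sum_nonneg fun j _ => hB.lam_nonneg _) zero_le_one
  have h2 : p β ^ 2 ≤ P ^ 2 := by
    rw [← sq_abs (p β)]
    exact pow_le_pow_left₀ (abs_nonneg _) (hP β) 2
  rw [mul_pow, mul_left_comm]
  exact mul_le_mul_of_nonneg_right h2 (mul_nonneg h1 (sq_nonneg _))

/-- one triple of legs -/
theorem AIms_triple (hB : D.Base γ Λ C₀ C) (hH : D.Hardy s C) (hs : 0 ≤ s)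
    (ψ θ : (Fin 3 → I) → ℝ) {z M : ℝ} (hM : 0 < M) (hθ : ∀ β, |θ β - z| ≤ M)
    (hz : ∀ β, (∀ j, β j ≠ D.o) → θ β = z) :
    ‖∑ β, (Real.cos (θ β) * ψ β) • D.υ β‖ ^ 2 + ‖∑ β, (Real.sin (θ β) * ψ β) • D.υ β‖ ^ 2 ≤
      (1 + M ^ 2) * ‖∑ β, ψ β • D.υ β‖ ^ 2 +
        9 * M ^ 2 * (C / s ^ 3) * ∑ β, (∑ j, D.lam (β j) + 1) * ψ β ^ 2 := by
  have hC : 0 ≤ C := by linarith [hB.C₀_ge, hB.C₀_le]
  have hc : ∀ a, |Real.cos (θ a) - Real.cos z| ≤ M := fun a =>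
    (Real.abs_cos_sub_cos_le _ _).trans (hθ a)
  have hsn : ∀ a, |Real.sin (θ a) - Real.sin z| ≤ M := fun a =>
    (Real.abs_sin_sub_sin_le _ _).trans (hθ a)
  have hr : ∀ a, |Real.cos (θ a - z) - 1| ≤ M ^ 2 / 2 := fun a => AIms_cos_sub (hθ a)
  have h1 := AIms_h_mul hB hH hs ψ _ hc (fun β h => by rw [hz β h, sub_self])
  have h2 := AIms_h_mul hB hH hs ψ _ hsn (fun β h => by rw [hz β h, sub_self])
  have h3 := AIms_h_mul hB hH hs ψ _ hr (fun β h => by rw [hz β h, sub_self, Real.cos_zero, sub_self])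
  have hX : 0 ≤ 3 * (C / s ^ 3) * ∑ β, (∑ j, D.lam (β j) + 1) * ψ β ^ 2 :=
    mul_nonneg (by positivity) (Finset.sum_nonneg fun β _ => mul_nonneg
      (add_nonneg (Finset.sum_nonneg fun j _ => hB.lam_nonneg _) zero_le_one) (sq_nonneg _))
  have e0 : 9 * M ^ 2 * (C / s ^ 3) * ∑ β, (∑ j, D.lam (β j) + 1) * ψ β ^ 2 =
      3 * M ^ 2 * (3 * (C / s ^ 3) * ∑ β, (∑ j, D.lam (β j) + 1) * ψ β ^ 2) := by ring
  rw [e0]
  set X := 3 * (C / s ^ 3) * ∑ β, (∑ j, D.lam (β j) + 1) * ψ β ^ 2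
  set U := ∑ β, ψ β • D.υ β with hU
  set A := ∑ β, ((Real.cos (θ β) - Real.cos z) * ψ β) • D.υ β with hA
  set B := ∑ β, ((Real.sin (θ β) - Real.sin z) * ψ β) • D.υ β with hB'
  set R := ∑ β, ((Real.cos (θ β - z) - 1) * ψ β) • D.υ β with hR
  have e1 : ∑ β, (Real.cos (θ β) * ψ β) • D.υ β = Real.cos z • U + A := by
    rw [hU, hA, Finset.smul_sum, ← Finset.sum_add_distrib]
    refine Finset.sum_congr rfl fun β _ => ?_
    rw [smul_smul, ← add_smul]; congr 1; ring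
  have e2 : ∑ β, (Real.sin (θ β) * ψ β) • D.υ β = Real.sin z • U + B := by
    rw [hU, hB', Finset.smul_sum, ← Finset.sum_add_distrib]
    refine Finset.sum_congr rfl fun β _ => ?_
    rw [smul_smul, ← add_smul]; congr 1; ring
  have e3 : R = Real.cos z • A + Real.sin z • B := by
    rw [hR, hA, hB', Finset.smul_sum, Finset.smul_sum, ← Finset.sum_add_distrib]
    refine Finset.sum_congr rfl fun β _ => ?_
    rw [smul_smul, smul_smul, ← add_smul, Real.cos_sub]; congr 1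
    have := Real.cos_sq_add_sin_sq z
    linear_combination (ψ β) * this
  have e4 : ⟪U, R⟫_ℝ = Real.cos z * ⟪U, A⟫_ℝ + Real.sin z * ⟪U, B⟫_ℝ := by
    rw [e3, inner_add_right, real_inner_smul_right, real_inner_smul_right]
  have e5 : ‖Real.cos z • U + A‖ ^ 2 + ‖Real.sin z • U + B‖ ^ 2 =
      ‖U‖ ^ 2 + 2 * ⟪U, R⟫_ℝ + ‖A‖ ^ 2 + ‖B‖ ^ 2 := by
    rw [norm_add_sq_real, norm_add_sq_real, real_inner_smul_left, real_inner_smul_left,
      norm_smul, norm_smul, mul_pow, mul_pow, Real.norm_eq_abs, Real.norm_eq_abs, sq_abs, sq_abs,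
      e4]
    have := Real.cos_sq_add_sin_sq z
    linear_combination (‖U‖ ^ 2) * this
  rw [e1, e2, e5]
  have h4 : ⟪U, R⟫_ℝ ≤ ‖U‖ * ‖R‖ := real_inner_le_norm U R
  have hM2 : 0 < M ^ 2 := by positivity
  have h5 : 2 * (‖U‖ * ‖R‖) ≤ M ^ 2 * ‖U‖ ^ 2 + M ^ 2 * X := by
    refine le_of_mul_le_mul_left ?_ hM2
    nlinarith [sq_nonneg (M ^ 2 * ‖U‖ - ‖R‖), mul_nonneg (sq_nonneg (M ^ 2)) hX]
  nlinarith

theorem AIms_Vs (hB : D.Base γ Λ C₀ C) (hH : D.Hardy s C) (hs : 0 ≤ s)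
    (Ψ Θ : (ι → I) → ℝ) {M : ℝ} (hM : 0 < M) (σ : Fin 3 ↪ ι)
    (hΘ : ∀ α ∈ D.vac σ, ∃ z, ∀ β, |Θ (put σ β α) - z| ≤ M ∧
      ((∀ j, β j ≠ D.o) → Θ (put σ β α) = z)) :
    D.Vs D.υ σ (fun α => Real.cos (Θ α) * Ψ α) + D.Vs D.υ σ (fun α => Real.sin (Θ α) * Ψ α) ≤
      (1 + M ^ 2) * D.Vs D.υ σ Ψ +
        9 * M ^ 2 * (C / s ^ 3) * ∑ α, (∑ j, D.lam (α (σ j)) + 1) * Ψ α ^ 2 := by
  rw [← Lv.sum_vac_put D.toLv σ (fun α => (∑ j, D.lam (α (σ j)) + 1) * Ψ α ^ 2)]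
  unfold Lv.Vs Lv.av
  rw [Finset.mul_sum, Finset.mul_sum, ← Finset.sum_add_distrib, ← Finset.sum_add_distrib]
  refine Finset.sum_le_sum fun α hα => ?_
  obtain ⟨z, hz⟩ := hΘ α hα
  simp only [put_apply]
  exact AIms_triple hB hH hs (fun β => Ψ (put σ β α)) (fun β => Θ (put σ β α)) hM
    (fun β => (hz β).1) (fun β => (hz β).2)

theorem AIms_count (f : ι → ℝ) (hf : ∀ i, 0 ≤ f i) (j : Fin 3) :
    ∑ σ : Fin 3 ↪ ι, f (σ j) ≤ (Fintype.card ι : ℝ) ^ 2 * ∑ i, f i := by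
  rw [← Finset.sum_fiberwise (s := univ) (g := fun σ : Fin 3 ↪ ι => σ j), Finset.mul_sum]
  refine Finset.sum_le_sum fun i _ => ?_
  have h1 : ∑ σ ∈ univ.filter (fun σ : Fin 3 ↪ ι => σ j = i), f (σ j) =
      ((univ.filter (fun σ : Fin 3 ↪ ι => σ j = i)).card : ℝ) * f i := by
    rw [← nsmul_eq_mul, ← Finset.sum_const]
    refine Finset.sum_congr rfl fun σ hσ => ?_
    rw [(Finset.mem_filter.1 hσ).2]
  rw [h1]
  refine mul_le_mul_of_nonneg_right ?_ (hf i)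
  have h2 := card_emb_le (κ := Fin 3) (ι := ι) (fun k => if k = j then {i} else univ)
  have h4 : ∏ k : Fin 3, (if k = j then {i} else univ : Finset ι).card = Fintype.card ι ^ 2 := by
    fin_cases j <;> simp [Fin.prod_univ_three, sq]
  have h5 : (univ.filter (fun σ : Fin 3 ↪ ι => σ j = i)).card ≤ Fintype.card ι ^ 2 := by
    refine (Finset.card_le_card ?_).trans (h2.trans h4.le)
    intro σ hσ
    simp only [Finset.mem_filter, Finset.mem_univ, true_and] at hσ ⊢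
    intro k
    split_ifs with h
    · simp [h, hσ]
    · simp
  exact_mod_cast h5

theorem AIms_V (hB : D.Base γ Λ C₀ C) (hH : D.Hardy s C) (hs : 0 ≤ s)
    (Ψ Θ : (ι → I) → ℝ) {M : ℝ} (hM : 0 < M)
    (hΘ : ∀ σ : Fin 3 ↪ ι, ∀ α ∈ D.vac σ, ∃ z, ∀ β, |Θ (put σ β α) - z| ≤ M ∧
      ((∀ j, β j ≠ D.o) → Θ (put σ β α) = z)) :
    ∑ σ : Fin 3 ↪ ι, D.Vs D.υ σ (fun α => Real.cos (Θ α) * Ψ α) +
      ∑ σ : Fin 3 ↪ ι, D.Vs D.υ σ (fun α => Real.sin (Θ α) * Ψ α) ≤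
      (1 + M ^ 2) * ∑ σ : Fin 3 ↪ ι, D.Vs D.υ σ Ψ +
        9 * M ^ 2 * (C / s ^ 3) * (3 * (Fintype.card ι : ℝ) ^ 2 *
          ex (fun α => ∑ i, D.lam (α i)) Ψ + (Fintype.card ι : ℝ) ^ 3 * nsq Ψ) := by
  have hC : 0 ≤ C := by linarith [hB.C₀_ge, hB.C₀_le]
  rw [← Finset.sum_add_distrib]
  refine (Finset.sum_le_sum fun σ _ => AIms_Vs hB hH hs Ψ Θ hM σ (hΘ σ)).trans ?_
  rw [Finset.sum_add_distrib, ← Finset.mul_sum, ← Finset.mul_sum]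
  refine add_le_add le_rfl (mul_le_mul_of_nonneg_left ?_ (by positivity))
  unfold ex nsq
  rw [Finset.sum_comm, Finset.mul_sum, Finset.mul_sum, ← Finset.sum_add_distrib]
  refine Finset.sum_le_sum fun α _ => ?_
  rw [← Finset.sum_mul, ← mul_assoc, ← add_mul]
  refine mul_le_mul_of_nonneg_right ?_ (sq_nonneg _)
  rw [Finset.sum_add_distrib, Finset.sum_comm, Finset.sum_const, Finset.card_univ, nsmul_eq_mul,
    mul_one]
  have h1 : (Fintype.card (Fin 3 ↪ ι) : ℝ) ≤ (Fintype.card ι : ℝ) ^ 3 := by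
    simpa only [Fintype.card_fin] using card_emb_all (κ := Fin 3) (ι := ι)
  have h2 := fun j => AIms_count (fun i => D.lam (α i)) (fun i => hB.lam_nonneg _) j
  rw [Fin.sum_univ_three]
  linarith [h2 0, h2 1, h2 2]

end Pool.Agent.Lib.MP_8fe63c_mp
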