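import Pool.Agent.Lib.MP_8fe63c_mp.AErr

/-!
General lemmas for the linear terms, and the term with no high output leg.
-/

set_option linter.unusedSectionVars false

open Finset
open scoped InnerProductSpace

namespace Pool.Agent.Lib.MP_8fe63c_mp

variable {I ι κ κ' E : Type} [Fintype I] [DecidableEq I] [Fintype ι] [DecidableEq ι]
  [Fintype κ] [DecidableEq κ] [Fintype κ'] [DecidableEq κ']
  [NormedAddCommGroup E] [InnerProductSpace ℝ E]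

lemma ALin_cs {J : Type} (s : Finset J) {r f g : J → ℝ} (hf : ∀ i, 0 ≤ f i) (hg : ∀ i, 0 ≤ g i)
    (ht : ∀ i ∈ s, r i ^ 2 ≤ f i * g i) : (∑ i ∈ s, r i) ^ 2 ≤ (∑ i ∈ s, f i) * ∑ i ∈ s, g i :=
  sum_sq_le_sum_mul_sum_of_sq_le_mul s (fun i _ => hf i) (fun i _ => hg i) ht

lemma ALin_cs2 {J J' : Type} (s : Finset J) (t : J → Finset J') {r f g : J → J' → ℝ}
    (hf : ∀ i j, 0 ≤ f i j) (hg : ∀ i j, 0 ≤ g i j)
    (ht : ∀ i ∈ s, ∀ j ∈ t i, r i j ^ 2 ≤ f i j * g i j) :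
    (∑ i ∈ s, ∑ j ∈ t i, r i j) ^ 2 ≤ (∑ i ∈ s, ∑ j ∈ t i, f i j) * ∑ i ∈ s, ∑ j ∈ t i, g i j :=
  ALin_cs s (fun i => sum_nonneg fun j _ => hf i j) (fun i => sum_nonneg fun j _ => hg i j)
    fun i hi => ALin_cs (t i) (hf i) (hg i) (ht i hi)

lemma ALin_LinF (L : Lv I) (p c : ℕ) (F : (Fin (p + c) → I) → (Fin (p + c) → I) → ℝ)
    (Ψ : (ι → I) → ℝ) : L.LinF p c F Ψ = 2 / (p.factorial * c.factorial : ℝ) *
      ∑ γ ∈ L.lowF c, ∑ β ∈ L.lowF (p + c), ∑ ρ : Fin p ↪ ι, ∑ α,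
        (if L.Hi (α ∘ ρ) then Ψ α * F (Fin.append (α ∘ ρ) γ) β else 0) * chan ρ γ β Ψ α := by
  unfold Lv.LinF Lv.src
  have e : ∀ (ρ : Fin p ↪ ι) (α : ι → I), (if L.Hi (α ∘ ρ) then Ψ α * ((1 / (c.factorial : ℝ)) *
      ∑ γ ∈ L.lowF c, ∑ β ∈ L.lowF (p + c), F (Fin.append (α ∘ ρ) γ) β * chan ρ γ β Ψ α) else 0) =
      (1 / (c.factorial : ℝ)) * ∑ γ ∈ L.lowF c, ∑ β ∈ L.lowF (p + c),
        (if L.Hi (α ∘ ρ) then Ψ α * F (Fin.append (α ∘ ρ) γ) β else 0) * chan ρ γ β Ψ α := by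
    intro ρ α
    split_ifs
    · simp only [mul_sum]
      exact sum_congr rfl fun _ _ => sum_congr rfl fun _ _ => by ring
    · simp
  simp only [e, ← mul_sum]
  rw [← mul_assoc, div_mul_div_comm, mul_one]
  congr 1
  rw [sum_congr rfl fun ρ _ => sum_comm, sum_comm]
  refine sum_congr rfl fun γ _ => ?_
  rw [sum_congr rfl fun ρ _ => sum_comm, sum_comm]

lemma ALin_chan_sum {p c : ℕ} (γ : Fin c → I) (β : Fin (p + c) → I) (Ψ : (ι → I) → ℝ)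
    (g : (Fin p → I) → (ι → I) → ℝ) :
    ∑ ρ : Fin p ↪ ι, ∑ α, g (α ∘ ρ) α * chan ρ γ β Ψ α =
      ∑ σ : Fin (p + c) ↪ ι, ∑ α, if (∀ j, α (σ (Fin.natAdd p j)) = γ j) then
        g (fun j => α (σ (Fin.castAdd c j))) α * Ψ (put σ β α) else 0 := by
  unfold chan
  simp only [mul_sum]
  rw [sum_congr rfl fun ρ _ => sum_comm, sum_comm]
  refine sum_congr rfl fun σ _ => ?_
  rw [sum_comm]
  refine sum_congr rfl fun α _ => ?_
  rw [sum_eq_single ((Fin.castAddEmb c).trans σ)]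
  · simp [Function.comp_def]
  · intro ρ _ hρ
    rw [if_neg, mul_zero]
    rintro ⟨h, -⟩
    exact hρ (Function.Embedding.ext fun j => (h j).symm)
  · simp

lemma ALin_sum_eq (L : Lv I) (σ : κ ↪ ι) (γ : κ → I) (f : (ι → I) → ℝ) {P : (ι → I) → Prop}
    [DecidablePred P] (hP : ∀ α, P α ↔ ∀ j, α (σ j) = γ j) :
    ∑ α, (if P α then f α else 0) = ∑ α ∈ L.vac σ, f (put σ γ α) := by
  rw [← L.sum_vac_put σ]
  refine sum_congr rfl fun α _ => ?_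
  simp only [hP, put_apply, ← funext_iff, sum_ite_eq', mem_univ, if_true]

lemma ALin_pow (N : ℕ) (k : ℕ) : √(N : ℝ) ^ (2 * k) = (N : ℝ) ^ k := by
  rw [pow_mul, Real.sq_sqrt (Nat.cast_nonneg N)]

section Er
variable {L : Lv I} {Ψ : (ι → I) → ℝ} {η : ℝ}

lemma ALin_kk_le (hl : ∀ a, 0 ≤ L.lam a) : L.kk Ψ ≤ L.xx Ψ := by
  have h1 := Lv.ll_nonneg (L := L) (Ψ := Ψ)
  have h2 := Lv.zz_nonneg (Ψ := Ψ) hl
  unfold Lv.xx; linarith

lemma ALin_er (hl : ∀ a, 0 ≤ L.lam a) (hη : 0 < η) (hη1 : η ≤ 1) {x c : ℝ} (hc : 0 ≤ c)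
    (h : x ^ 2 ≤ c ^ 2 * (η ^ 4 * L.xx Ψ ^ 2 + nsq Ψ * L.xx Ψ + nsq Ψ ^ 2)) :
    |x| ≤ L.Er c η Ψ := by
  have hX := Lv.xx_nonneg (Ψ := Ψ) hl
  have hn := nsq_nonneg Ψ
  refine abs_le_of_sq_le_sq' (h.trans ?_) (Lv.Er_nonneg hl hc hη.le) |> abs_le.mpr
  unfold Lv.Er
  rw [mul_pow]
  refine mul_le_mul_of_nonneg_left ?_ (sq_nonneg c)
  have h1 := Real.sq_sqrt (mul_nonneg hn hX)
  have h2 := Real.sqrt_nonneg (nsq Ψ * L.xx Ψ)
  have h3 : η ^ 4 * L.xx Ψ ^ 2 ≤ (η * L.xx Ψ) ^ 2 := by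
    rw [mul_pow]
    exact mul_le_mul_of_nonneg_right (pow_le_pow_of_le_one hη.le hη1 (by norm_num)) (sq_nonneg _)
  have h4 : 0 ≤ η * L.xx Ψ := by positivity
  nlinarith [mul_nonneg h4 h2, mul_nonneg h4 hn, mul_nonneg h2 hn]

end Er

lemma ALin_lin03 (D : Dat I E) (Ψ : (ι → I) → ℝ) :
    D.LinF 0 3 D.F3 Ψ = D.T3 (fun β β' => 2 * D.F3 β' β) Ψ := by
  rw [ALin_LinF]
  unfold Lv.T3
  have e : ∀ (γ : Fin 3 → I) (β : Fin 3 → I), ∑ ρ : Fin 0 ↪ ι, ∑ α,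
      (if D.Hi (α ∘ ρ) then Ψ α * D.F3 (Fin.append (α ∘ ρ) γ) β else 0) *
        chan (c := 3) ρ γ β Ψ α =
      ∑ σ : Fin 3 ↪ ι, ∑ α ∈ D.vac σ, D.F3 γ β * Ψ (put σ β α) * Ψ (put σ γ α) := by
    intro γ β
    rw [ALin_chan_sum (p := 0) γ β Ψ
      (fun a α => if D.Hi a then Ψ α * D.F3 (Fin.append a γ) β else 0)]
    refine sum_congr rfl fun σ _ => ?_
    have h1 : ∀ j : Fin 3, Fin.natAdd 0 j = j := fun j => Fin.ext (by simp)
    have h2 : ∀ a : Fin 0 → I, Fin.append a γ = γ := fun a => by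
      rw [Fin.append_left_nil _ _ rfl]; rfl
    have h3 : ∀ a : Fin 0 → I, D.Hi a := fun a j => j.elim0
    simp only [h1, h2, h3, if_true]
    refine (ALin_sum_eq (κ := Fin 3) D.toLv σ γ
      (fun α => Ψ α * D.F3 γ β * Ψ (put (κ := Fin 3) σ β α)) fun _ => Iff.rfl).trans ?_
    refine sum_congr rfl fun α _ => ?_
    rw [put_put]; ring
  simp only [e]
  rw [sum_comm, sum_congr rfl fun β _ => sum_comm, sum_comm]
  simp only [mul_sum]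
  refine sum_congr rfl fun σ _ => ?_
  rw [sum_congr rfl fun β _ => sum_comm, sum_comm]
  refine sum_congr rfl fun α _ => sum_congr rfl fun β _ => sum_congr rfl fun γ _ => ?_
  norm_num [Nat.factorial]
  ring

lemma ALin_F4_sq {D : Dat I E} {s Λ C₀ C : ℝ} (hN : D.Norms s Λ C₀ C) {γ : Fin 4 → I}
    (hγ : γ ∈ D.lowF 4) : D.F4 γ ^ 2 ≤ C / s ^ 14 := by
  have h := hN.l1d (fun j => γ j.succ) (Fintype.mem_piFinset.mpr fun j =>
    Fintype.mem_piFinset.mp hγ _)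
  refine le_trans (le_of_eq ?_) ((single_le_sum (f := fun a => D.F4 (Fin.append ![a]
    fun j : Fin 3 => γ j.succ) ^ 2) (fun _ _ => sq_nonneg _) (mem_univ (γ 0))).trans h)
  congr 2
  ext j
  fin_cases j <;> rfl

lemma ALin_nno_pos {L : Lv I} {n : ℕ} {γ : Fin n → I} (h : γ ≠ L.oo n) : 1 ≤ L.nno γ := by
  unfold Lv.nno
  refine card_pos.mpr ?_
  by_contra hc
  refine h (funext fun j => ?_)
  by_contra hj
  exact hc ⟨j, mem_filter.mpr ⟨mem_univ _, hj⟩⟩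

lemma ALin_lin04 {D : Dat I E} {γ₀ Λ C₀ C η : ℝ} {Ψ : (ι → I) → ℝ} (hB : D.Base γ₀ Λ C₀ C)
    (hN : D.Norms √(Fintype.card ι : ℝ) Λ C₀ C) (hc : D.Ctx η Ψ) (h0 : Ψ ≠ 0) :
    |D.LinF 0 4 D.F4t Ψ - (Fintype.card ι : ℝ) ^ 4 * ((1 / 12) * D.F4 (D.oo 4)) * nsq Ψ| ≤
      D.Er (64 * C ^ 6) η Ψ := by
  have hl := hB.lam_nonneg
  have hC : 1 ≤ C := hB.C₀_ge.trans hB.C₀_le
  have h8 := hc.eight_le.2 h0
  have h8' : 8 ≤ Fintype.card ι := by exact_mod_cast h8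
  have hX := Lv.xx_nonneg (Ψ := Ψ) hl
  have hn := nsq_nonneg Ψ
  set N : ℝ := (Fintype.card ι : ℝ) with hNd
  have hN0 : 0 < N := by linarith
  have hs : √N ^ 14 = N ^ 7 := ALin_pow _ 7
  have hv : ∀ ρ : Fin 0 ↪ ι, D.vac ρ = univ := fun ρ =>
    eq_univ_of_forall fun α => (D.mem_vac).mpr fun j => j.elim0
  set S : (Fin 4 → I) → ℝ := fun γ => ∑ ρ : Fin 0 ↪ ι, ∑ α,
    Ψ α * chan (c := 4) ρ γ (D.oo 4) Ψ α with hS
  have e : D.LinF 0 4 D.F4t Ψ = (1 / 12) * ∑ γ ∈ D.lowF 4, D.F4 γ * S γ := by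
    rw [ALin_LinF]
    congr 1
    · norm_num [Nat.factorial]
    refine sum_congr rfl fun γ _ => ?_
    have h2 : ∀ a : Fin 0 → I, Fin.append a γ = γ := fun a => by
      rw [Fin.append_left_nil _ _ rfl]; rfl
    have h3 : ∀ a : Fin 0 → I, D.Hi a := fun a j => j.elim0
    simp only [h2, h3, if_true]
    rw [sum_eq_single_of_mem (D.oo 4) (D.oo_mem_lowF hB.o_low 4)]
    · simp only [hS, mul_sum, Dat.F4t, if_true]
      exact sum_congr rfl fun _ _ => sum_congr rfl fun _ _ => by ring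
    · intro β _ hβ
      simp [Dat.F4t, hβ]
  have hnp := Lv.ex_np_le (Ψ := Ψ) hB.o_low hl 4
  have h1 : |D.F4 (D.oo 4) * (S (D.oo 4) - N ^ 4 * nsq Ψ)| ≤ D.Er (32 * C) η Ψ := by
    have h2 := D.chan_diag_oo 0 0 4 Ψ
    have h3 : ∀ (ρ : Fin 0 ↪ ι) α, put ρ (D.oo (0 + 0)) α = α := fun ρ α =>
      funext fun i => put_apply_not _ _ _ fun ⟨j, _⟩ => j.elim0
    simp only [hv, chan_zero, h3] at h2
    have h4 : |S (D.oo 4) - N ^ 4 * nsq Ψ| ≤ 4 * N ^ 3 * (D.xx Ψ + 4 * nsq Ψ) := by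
      refine le_trans h2 ?_
      push_cast
      gcongr
    refine ALin_er hl hc.pos hc.le_one (by positivity) ?_
    have h5 := ALin_F4_sq hN (D.oo_mem_lowF hB.o_low 4)
    have h6 : 1 ≤ η ^ 4 * N := by
      have h7 := hc.big
      have h9 : √N ≤ N := by rw [Real.sqrt_le_left hN0.le]; nlinarith
      exact h7.trans (mul_le_mul_of_nonneg_left h9 (by have := hc.pos; positivity))
    have h7 : 1 / N ≤ η ^ 4 := by rwa [div_le_iff₀ hN0]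
    have h9 : η ^ 4 ≤ 1 := pow_le_one₀ hc.pos.le hc.le_one
    rw [hs] at h5
    calc _ = D.F4 (D.oo 4) ^ 2 * |S (D.oo 4) - N ^ 4 * nsq Ψ| ^ 2 := by rw [mul_pow, sq_abs]
      _ ≤ C / N ^ 7 * (4 * N ^ 3 * (D.xx Ψ + 4 * nsq Ψ)) ^ 2 := by gcongr
      _ = 16 * C * (1 / N * (D.xx Ψ + 4 * nsq Ψ) ^ 2) := by field_simp; ring
      _ ≤ 16 * C ^ 2 * (η ^ 4 * (D.xx Ψ + 4 * nsq Ψ) ^ 2) := by gcongr; nlinarith
      _ ≤ 16 * C ^ 2 * (64 * (η ^ 4 * D.xx Ψ ^ 2 + nsq Ψ * D.xx Ψ + nsq Ψ ^ 2)) := by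
          refine mul_le_mul_of_nonneg_left ?_ (by positivity)
          have : 0 ≤ η ^ 4 := by positivity
          nlinarith [mul_nonneg hn hX, mul_nonneg this (sq_nonneg (D.xx Ψ)), sq_nonneg (nsq Ψ),
            mul_le_mul_of_nonneg_right h9 (mul_nonneg hn hX),
            mul_le_mul_of_nonneg_right h9 (sq_nonneg (nsq Ψ))]
      _ = _ := by ring
  have h2 : ∀ γ ∈ (D.lowF 4).erase (D.oo 4), |D.F4 γ * S γ| ≤ D.Er (32 * C) η Ψ := by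
    intro γ hγ
    obtain ⟨hne, hγ⟩ := mem_erase.mp hγ
    have h3 := D.chan_count hB.o_low (p := 0) (c := 4) (j := 1) hγ (D.oo_mem_lowF hB.o_low 4)
      ((ALin_nno_pos hne).trans (Nat.le_add_right _ _)) (by omega)
      (W := fun _ => 1) (fun _ => zero_le_one) (fun _ _ _ _ _ => rfl) Ψ
    simp only [hv, one_mul, mul_one, pow_one] at h3
    have h4 : S γ ^ 2 ≤ nsq Ψ * (2 ^ 8 * N ^ 7 * (D.xx Ψ + 4 * nsq Ψ)) := by
      have h5 := ALin_cs2 (univ : Finset (Fin 0 ↪ ι)) (fun _ => univ)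
        (r := fun ρ α => Ψ α * chan (c := 4) ρ γ (D.oo 4) Ψ α) (f := fun _ α => Ψ α ^ 2)
        (g := fun ρ α => chan (c := 4) ρ γ (D.oo 4) Ψ α ^ 2) (fun _ _ => sq_nonneg _)
        (fun _ _ => sq_nonneg _) fun _ _ _ _ => (mul_pow _ _ _).le
      refine h5.trans (mul_le_mul (le_of_eq (by simp [nsq])) (h3.trans ?_)
        (sum_nonneg fun _ _ => sum_nonneg fun _ _ => sq_nonneg _) hn)
      push_cast
      gcongr
    refine ALin_er hl hc.pos hc.le_one (by positivity) ?_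
    have h5 := ALin_F4_sq hN hγ
    rw [hs] at h5
    calc _ = D.F4 γ ^ 2 * S γ ^ 2 := mul_pow _ _ _
      _ ≤ C / N ^ 7 * (nsq Ψ * (2 ^ 8 * N ^ 7 * (D.xx Ψ + 4 * nsq Ψ))) := by gcongr
      _ = 2 ^ 8 * C * (nsq Ψ * D.xx Ψ + 4 * nsq Ψ ^ 2) := by field_simp
      _ ≤ 2 ^ 8 * C ^ 2 * (4 * (η ^ 4 * D.xx Ψ ^ 2 + nsq Ψ * D.xx Ψ + nsq Ψ ^ 2)) := by
          gcongr
          · nlinarith
          · have : 0 ≤ η ^ 4 * D.xx Ψ ^ 2 := by positivity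
            nlinarith [mul_nonneg hn hX]
      _ = _ := by ring
  have h3 := (abs_sum_le_sum_abs _ _).trans (sum_le_card_nsmul _ _ _ h2)
  have h4 : (((D.lowF 4).erase (D.oo 4)).card : ℝ) ≤ C ^ 4 := by
    have h5 : (((D.lowF 4).erase (D.oo 4)).card : ℝ) ≤ (D.lowF 4).card := by
      exact_mod_cast card_erase_le
    rw [D.card_lowF] at h5
    push_cast at h5
    exact h5.trans (pow_le_pow_left₀ (Nat.cast_nonneg _) hB.card_low 4)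
  have hE := Lv.Er_nonneg (Ψ := Ψ) hl zero_le_one hc.pos.le
  have hE' : ∀ K, D.Er K η Ψ = K * D.Er 1 η Ψ := fun K => by unfold Lv.Er; ring
  rw [nsmul_eq_mul] at h3
  rw [hE'] at h1 h3 ⊢
  rw [e, ← add_sum_erase _ _ (D.oo_mem_lowF hB.o_low 4)]
  have h5 : C ≤ C ^ 6 := le_self_pow₀ hC (by norm_num)
  have h6 : C ^ 5 ≤ C ^ 6 := pow_le_pow_right₀ hC (by norm_num)
  have h7 := h3.trans (mul_le_mul_of_nonneg_right h4 (by positivity))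
  have h9 := mul_le_mul_of_nonneg_right h5 hE
  have h10 := mul_le_mul_of_nonneg_right h6 hE
  rw [abs_le] at h1 h7 ⊢
  constructor <;> nlinarith [h1.1, h1.2, h7.1, h7.2]

end Pool.Agent.Lib.MP_8fe63c_mp
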