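import Pool.Agent.Lib.MP_8fe63c_mp.ALin1

/-!
One-leg reindexing and the exchange estimate for one low output leg.
-/

set_option linter.unusedSectionVars false

open Finset Function
open scoped InnerProductSpace

namespace Pool.Agent.Lib.MP_8fe63c_mp

variable {I ι : Type} [Fintype I] [DecidableEq I] [Fintype ι] [DecidableEq ι]

lemma ALin_leg (o : I) (i : ι) (f : (ι → I) → ℝ) :
    ∑ α, f α = ∑ α, if α i = o then ∑ a, f (update α i a) else 0 := by
  have hinv : Involutive fun p : (ι → I) × I => (update p.1 i p.2, p.1 i) := fun p => by simp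
  have h := Equiv.sum_comp hinv.toPerm fun p : (ι → I) × I =>
    if p.1 i = o then f (update p.1 i p.2) else 0
  simp only [Fintype.sum_prod_type, Involutive.coe_toPerm, update_self, update_idem,
    update_eq_self, sum_ite_eq', mem_univ, if_true] at h
  rw [h]
  refine sum_congr rfl fun α _ => ?_
  split_ifs <;> simp

lemma ALin_quad {K : I → I → ℝ} {M : ℝ} (hM : 0 ≤ M)
    (hK : ∀ ζ c : I → ℝ, (∑ a, ∑ d, ζ a * c d * K a d) ^ 2 ≤ M * (∑ a, ζ a ^ 2) * ∑ d, c d ^ 2)
    (c : I → ℝ) : ∑ a, (∑ d, K a d * c d) ^ 2 ≤ M * ∑ d, c d ^ 2 := by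
  have h := hK (fun a => ∑ d, K a d * c d) c
  have e : ∑ a, ∑ d, (∑ d, K a d * c d) * c d * K a d = ∑ a, (∑ d, K a d * c d) ^ 2 := by
    refine sum_congr rfl fun a _ => ?_
    rw [pow_two, mul_sum (s := univ) (f := fun d => K a d * c d)]
    exact sum_congr rfl fun d _ => by ring
  rw [e] at h
  have h0 : 0 ≤ ∑ a, (∑ d, K a d * c d) ^ 2 := sum_nonneg fun _ _ => sq_nonneg _
  have h1 : 0 ≤ M * ∑ d, c d ^ 2 := mul_nonneg hM (sum_nonneg fun _ _ => sq_nonneg _)
  rcases h0.eq_or_lt with h2 | h2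
  · rw [← h2]; exact h1
  · refine le_of_mul_le_mul_left ?_ h2
    nlinarith

section
variable (o : I) {K : I → I → ℝ} {M : ℝ} {P : I → Prop} [DecidablePred P]

lemma ALin_bound (hM : 0 ≤ M)
    (hK : ∀ ζ c : I → ℝ, (∑ a, ∑ d, ζ a * c d * K a d) ^ 2 ≤ M * (∑ a, ζ a ^ 2) * ∑ d, c d ^ 2)
    {i j j' : ι} (hij : i ≠ j) (hij' : i ≠ j') (hjj' : j ≠ j') {W : (ι → I) → ℝ}
    (hW : ∀ α a, W (update α i a) = W α) :
    ∑ α, (if α j = o ∧ α j' = o then
      (∑ d, (if P d then K (α i) d else 0) * W (update α j d)) ^ 2 else 0) ≤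
      M * ∑ α, if α i = o ∧ α j' = o ∧ P (α j) then W α ^ 2 else 0 := by
  rw [ALin_leg o i, ALin_leg o j fun α => if α i = o ∧ α j' = o ∧ P (α j) then W α ^ 2 else 0,
    mul_sum]
  refine sum_le_sum fun α _ => ?_
  simp only [update_self, update_of_ne hij, update_of_ne hij.symm, update_of_ne hij'.symm,
    update_of_ne hjj'.symm, update_comm hij, hW]
  by_cases h1 : α i = o <;> by_cases h2 : α j = o <;> by_cases h3 : α j' = o <;>
    simp only [h1, h2, h3, if_true, if_false, true_and, false_and, and_false, sum_const_zero,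
      mul_zero, le_refl]
  have := ALin_quad hM hK fun d => if P d then W (update α j d) else 0
  simpa only [mul_ite, ite_mul, mul_zero, zero_mul, ite_pow, ne_eq, OfNat.ofNat_ne_zero,
    not_false_eq_true, zero_pow] using this

lemma ALin_off (hM : 0 ≤ M)
    (hK : ∀ ζ c : I → ℝ, (∑ a, ∑ d, ζ a * c d * K a d) ^ 2 ≤ M * (∑ a, ζ a ^ 2) * ∑ d, c d ^ 2)
    {i j j' : ι} (hij : i ≠ j) (hij' : i ≠ j') (hjj' : j ≠ j') {W W' : (ι → I) → ℝ}
    (hW : ∀ α a, W (update α i a) = W α) (hWj : ∀ α a, W (update α j a) = W α)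
    (hW' : ∀ α a, W' (update α i a) = W' α) (hWj' : ∀ α a, W' (update α j' a) = W' α) :
    2 * ∑ α, (if P (α j) then K (α i) (α j) else 0) * W α *
      ((if P (α j') then K (α i) (α j') else 0) * W' α) ≤
      M * (∑ α, if α i = o ∧ α j' = o ∧ P (α j) then W' α ^ 2 else 0) +
      M * ∑ α, if α i = o ∧ α j = o ∧ P (α j') then W α ^ 2 else 0 := by
  refine le_trans ?_ (add_le_add (ALin_bound o hM hK hij hij' hjj' hW')
    (ALin_bound o hM hK hij' hij hjj'.symm hW))
  rw [ALin_leg o j, ALin_leg o j', mul_sum, ← sum_add_distrib]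
  refine sum_le_sum fun α _ => ?_
  have e1 : ∀ a b, W' (update (update α j' a) j b) = W' (update α j b) := fun a b => by
    rw [← update_comm hjj', hWj']
  simp only [update_self, update_of_ne hij, update_of_ne hij', update_of_ne hjj',
    update_of_ne hjj'.symm, hWj, e1]
  by_cases h2 : α j = o <;> by_cases h3 : α j' = o <;>
    simp only [h2, h3, if_true, if_false, true_and, false_and, and_false, sum_const_zero,
      mul_zero, le_refl, add_zero]
  set A := ∑ d, (if P d then K (α i) d else 0) * W' (update α j d) with hA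
  set B := ∑ d, (if P d then K (α i) d else 0) * W (update α j' d) with hB
  have e : ∑ d', ∑ d, (if P d then K (α i) d else 0) * W (update α j' d') *
      ((if P d' then K (α i) d' else 0) * W' (update α j d)) = B * A := by
    rw [hA, hB, sum_mul_sum]
    exact sum_congr rfl fun _ _ => sum_congr rfl fun _ _ => by ring
  rw [e]
  nlinarith [sq_nonneg (A - B)]

lemma ALin_diag {i j : ι} (hij : i ≠ j) {W : (ι → I) → ℝ}
    (hW : ∀ α a, W (update α i a) = W α) (hWj : ∀ α a, W (update α j a) = W α) :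
    ∑ α, (K (α i) (α j) * W α) ^ 2 =
      (∑ a, ∑ d, K a d ^ 2) * ∑ α, if α i = o ∧ α j = o then W α ^ 2 else 0 := by
  rw [ALin_leg o j, ALin_leg o i, mul_sum]
  refine sum_congr rfl fun α _ => ?_
  simp only [update_self, update_of_ne hij, update_of_ne hij.symm, hWj, hW]
  by_cases h1 : α i = o <;> by_cases h2 : α j = o <;>
    simp only [h1, h2, if_true, if_false, true_and, false_and, sum_const_zero, mul_zero]
  simp only [sum_mul, mul_pow]

lemma ALin_iii (hM : 0 ≤ M)
    (hK : ∀ ζ c : I → ℝ, (∑ a, ∑ d, ζ a * c d * K a d) ^ 2 ≤ M * (∑ a, ζ a ^ 2) * ∑ d, c d ^ 2)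
    {H B : ℝ} (hB : 0 ≤ B) (hH : ∑ a, ∑ d, (if P d then K a d else 0) ^ 2 ≤ H)
    {Ψ : (ι → I) → ℝ} {Y : ι → ι → (ι → I) → ℝ} (hY0 : ∀ i α, Y i i α = 0)
    (hY1 : ∀ i j α a, Y i j (update α i a) = Y i j α)
    (hY2 : ∀ i j α a, Y i j (update α j a) = Y i j α)
    (hYb : ∀ i j α, α i = o → α j = o → Y i j α ^ 2 ≤ B * Ψ α ^ 2) :
    ∑ i, ∑ α, (∑ j, (if P (α j) then K (α i) (α j) else 0) * Y i j α) ^ 2 ≤
      (Fintype.card ι : ℝ) ^ 2 * B *
        (H * nsq Ψ + M * ∑ j, ∑ α, if P (α j) then Ψ α ^ 2 else 0) := by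
  have hH0 : 0 ≤ H := le_trans (sum_nonneg fun _ _ => sum_nonneg fun _ _ => sq_nonneg _) hH
  have hn := nsq_nonneg Ψ
  set m : ι → ℝ := fun j => ∑ α, if P (α j) then Ψ α ^ 2 else 0 with hm
  have hm0 : ∀ j, 0 ≤ m j := fun j => sum_nonneg fun α _ => by split_ifs <;> positivity
  have key : ∀ i j j', ∑ α, (if P (α j) then K (α i) (α j) else 0) * Y i j α *
      ((if P (α j') then K (α i) (α j') else 0) * Y i j' α) ≤
      (if j = j' then B * (H * nsq Ψ) else 0) + B * M / 2 * (m j + m j') := by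
    intro i j j'
    have h1 : 0 ≤ B * M / 2 * (m j + m j') := by have := hm0 j; have := hm0 j'; positivity
    have h2 : 0 ≤ (if j = j' then B * (H * nsq Ψ) else 0) := by split_ifs <;> positivity
    by_cases hij : i = j
    · subst hij; simp only [hY0, mul_zero, zero_mul, sum_const_zero]; positivity
    by_cases hij' : i = j'
    · subst hij'; simp only [hY0, mul_zero, sum_const_zero]; positivity
    by_cases hjj' : j = j'
    · subst hjj'
      simp only [← pow_two, if_true]
      rw [ALin_diag o (K := fun a d => if P d then K a d else 0) hij (hY1 i j) (hY2 i j)]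
      have h3 : (∑ α, if α i = o ∧ α j = o then Y i j α ^ 2 else 0) ≤ B * nsq Ψ := by
        rw [nsq, mul_sum]
        refine sum_le_sum fun α _ => ?_
        split_ifs with h
        · exact hYb i j α h.1 h.2
        · positivity
      have h4 := mul_le_mul hH h3 (sum_nonneg fun α _ => by split_ifs <;> positivity) hH0
      linarith
    · have h3 := ALin_off o (P := P) hM hK hij hij' hjj' (hY1 i j) (hY2 i j) (hY1 i j') (hY2 i j')
      have h4 : ∀ j j', (∑ α, if α i = o ∧ α j' = o ∧ P (α j) then Y i j' α ^ 2 else 0) ≤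
          B * m j := by
        intro j j'
        rw [hm, mul_sum]
        refine sum_le_sum fun α _ => ?_
        by_cases h : α i = o ∧ α j' = o ∧ P (α j)
        · rw [if_pos h, if_pos h.2.2]; exact hYb i j' α h.1 h.2.1
        · rw [if_neg h]; split_ifs <;> positivity
      have h5 := mul_le_mul_of_nonneg_left (h4 j j') hM
      have h6 := mul_le_mul_of_nonneg_left (h4 j' j) hM
      rw [if_neg hjj']
      linarith
  calc _ = ∑ i, ∑ j, ∑ j', ∑ α, (if P (α j) then K (α i) (α j) else 0) * Y i j α *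
        ((if P (α j') then K (α i) (α j') else 0) * Y i j' α) := by
        refine sum_congr rfl fun i _ => ?_
        simp only [pow_two, sum_mul_sum]
        rw [sum_comm]
        exact sum_congr rfl fun j _ => sum_comm
    _ ≤ ∑ _i : ι, ∑ j, ∑ j', ((if j = j' then B * (H * nsq Ψ) else 0) + B * M / 2 * (m j + m j')) :=
        sum_le_sum fun i _ => sum_le_sum fun j _ => sum_le_sum fun j' _ => key i j j'
    _ = _ := by
        simp only [sum_add_distrib, sum_ite_eq, mem_univ, if_true, ← mul_sum, sum_const, card_univ,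
          nsmul_eq_mul]
        ring

end

lemma ALin_card {κ : Type} [Fintype κ] [DecidableEq κ] (A : κ → Finset ι) {s : Finset (κ ↪ ι)}
    (h : ∀ σ ∈ s, ∀ j, σ j ∈ A j) : s.card ≤ ∏ j, (A j).card :=
  le_trans (card_le_card fun σ hσ => mem_filter.mpr ⟨mem_univ _, h σ hσ⟩) (card_emb_le A)

lemma ALin_cnt1 (t : Fin 3) (i : ι) :
    ((univ.filter fun σ : Fin 3 ↪ ι => σ t = i).card : ℝ) ≤ (Fintype.card ι : ℝ) ^ 2 := by
  have h1 : (univ.filter fun σ : Fin 3 ↪ ι => σ t = i).card ≤ Fintype.card ι ^ 2 := by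
    refine (ALin_card (fun j => if j = t then {i} else (univ : Finset ι)) fun σ hσ j => ?_).trans
      (le_of_eq ?_)
    · split_ifs with e
      · rw [e]; exact mem_singleton.mpr (mem_filter.mp hσ).2
      · exact mem_univ _
    · fin_cases t <;> simp [Fin.prod_univ_three, pow_two]
  exact_mod_cast h1

lemma ALin_cnt2 {t u : Fin 3} (htu : t ≠ u) (i j : ι) :
    ((univ.filter fun σ : Fin 3 ↪ ι => σ t = i ∧ σ u = j).card : ℝ) ≤ Fintype.card ι := by
  have h1 : (univ.filter fun σ : Fin 3 ↪ ι => σ t = i ∧ σ u = j).card ≤ Fintype.card ι := by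
    refine (ALin_card (fun l => if l = t then {i} else if l = u then {j} else (univ : Finset ι))
      fun σ hσ l => ?_).trans (le_of_eq ?_)
    · split_ifs with e e'
      · rw [e]; exact mem_singleton.mpr (mem_filter.mp hσ).2.1
      · rw [e']; exact mem_singleton.mpr (mem_filter.mp hσ).2.2
      · exact mem_univ _
    · fin_cases t <;> fin_cases u <;> first | exact absurd rfl htu | simp [Fin.prod_univ_three]
  exact_mod_cast h1

lemma ALin_mass (L : Lv I) (Ψ : (ι → I) → ℝ) (t : Fin 3) (P : I → Prop) [DecidablePred P] :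
    ∑ σ : Fin 3 ↪ ι, ∑ α ∈ L.vac σ, ∑ a,
      (if P a then Ψ (put σ (update (L.oo 3) t a) α) else 0) ^ 2 ≤
      (Fintype.card ι : ℝ) ^ 2 * ∑ i, ∑ α, if P (α i) then Ψ α ^ 2 else 0 := by
  set m : ι → ℝ := fun i => ∑ α, if P (α i) then Ψ α ^ 2 else 0 with hm
  have hm0 : ∀ j, 0 ≤ m j := fun j => sum_nonneg fun α _ => by split_ifs <;> positivity
  have h1 : ∀ σ : Fin 3 ↪ ι, ∑ α ∈ L.vac σ, ∑ a,
      (if P a then Ψ (put σ (update (L.oo 3) t a) α) else 0) ^ 2 ≤ m (σ t) := by
    intro σ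
    rw [sum_comm]
    have h2 : ∀ a, ∑ α ∈ L.vac σ, (if P a then Ψ (put σ (update (L.oo 3) t a) α) else 0) ^ 2 ≤
        ∑ α, if α (σ t) = a then (if P a then Ψ α ^ 2 else 0) else 0 := by
      intro a
      rw [← ALin_sum_eq L σ (update (L.oo 3) t a) (fun α => (if P a then Ψ α else 0) ^ 2)
        fun _ => Iff.rfl]
      refine sum_le_sum fun α _ => ?_
      by_cases h : ∀ j, α (σ j) = update (L.oo 3) t a j
      · rw [if_pos h, if_pos ((h t).trans (update_self _ _ _))]
        split_ifs <;> simp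
      · rw [if_neg h]; split_ifs <;> positivity
    refine (sum_le_sum fun a _ => h2 a).trans (le_of_eq ?_)
    rw [sum_comm]
    simp only [sum_ite_eq, mem_univ, if_true, hm]
  refine (sum_le_sum fun σ _ => h1 σ).trans ?_
  rw [← sum_fiberwise_of_maps_to (s := univ) (t := univ) (g := fun σ : Fin 3 ↪ ι => σ t)
    (fun _ _ => mem_univ _), mul_sum]
  refine sum_le_sum fun i _ => ?_
  rw [sum_congr rfl fun σ hσ => congrArg m (mem_filter.mp hσ).2, sum_const, nsmul_eq_mul]
  exact mul_le_mul_of_nonneg_right (ALin_cnt1 t i) (hm0 i)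

end Pool.Agent.Lib.MP_8fe63c_mp
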