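import Pool.Agent.Lib.MP_8fe63c_mp.ALin2

/-!
The channels of the term with one high output leg.
-/

set_option linter.unusedSectionVars false

open Finset Function
open scoped InnerProductSpace

namespace Pool.Agent.Lib.MP_8fe63c_mp

variable {I ι E : Type} [Fintype I] [DecidableEq I] [Fintype ι] [DecidableEq ι]
  [NormedAddCommGroup E] [InnerProductSpace ℝ E]

/-- a term with one high output leg -/
noncomputable def ALin_Tm (L : Lv I) (Ψ : (ι → I) → ℝ) (G : I → ℝ)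
    (X : (Fin 1 ↪ ι) → (ι → I) → ℝ) : ℝ :=
  ∑ ρ : Fin 1 ↪ ι, ∑ α, (if α (ρ 0) ∈ L.low then 0 else Ψ α * G (α (ρ 0))) * X ρ α

lemma ALin_emb1 (f : ι → ℝ) : ∑ ρ : Fin 1 ↪ ι, f (ρ 0) = ∑ i, f i :=
  Fintype.sum_equiv Equiv.uniqueEmbeddingEquivResult _ _ fun _ => rfl

lemma ALin_put1 (ρ : Fin 1 ↪ ι) (β : Fin 1 → I) (α : ι → I) :
    put ρ β α = update α (ρ 0) (β 0) := by
  ext i
  by_cases h : i = ρ 0
  · rw [h, put_apply, update_self]
  · rw [put_apply_not _ _ _ fun ⟨j, hj⟩ => h (by rw [← hj, Subsingleton.elim j 0]),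
      update_of_ne h]

lemma ALin_LinF1 (L : Lv I) (c : ℕ) (F : (Fin (1 + c) → I) → (Fin (1 + c) → I) → ℝ)
    (Ψ : (ι → I) → ℝ) : L.LinF 1 c F Ψ = 2 / (c.factorial : ℝ) *
      ∑ γ ∈ L.lowF c, ∑ β ∈ L.lowF (1 + c),
        ALin_Tm L Ψ (fun a => F (Fin.append ![a] γ) β) fun ρ => chan ρ γ β Ψ := by
  rw [ALin_LinF, Nat.factorial_one, Nat.cast_one, one_mul]
  refine congrArg (2 / (c.factorial : ℝ) * ·) ?_
  unfold ALin_Tm
  refine sum_congr rfl fun γ _ => sum_congr rfl fun β _ => sum_congr rfl fun ρ _ =>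
    sum_congr rfl fun α _ => ?_
  have e : α ∘ ρ = ![α (ρ 0)] := by ext j; fin_cases j; rfl
  have e' : L.Hi (α ∘ ρ) ↔ α (ρ 0) ∉ L.low := by simp [Lv.Hi, Fin.forall_fin_one]
  simp only [e', ite_not]
  rw [e]

lemma ALin_hs (L : Lv I) (Ψ : (ι → I) → ℝ) (G : I → ℝ) {X : (Fin 1 ↪ ι) → (ι → I) → ℝ}
    (hX : Indep X) : ALin_Tm L Ψ G X ^ 2 ≤
      L.kk Ψ * ((∑ a, G a ^ 2) * ∑ ρ : Fin 1 ↪ ι, ∑ α ∈ L.vac ρ, X ρ α ^ 2) := by
  have h := ALin_cs2 (univ : Finset (Fin 1 ↪ ι)) (fun _ => univ)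
    (r := fun ρ α => (if α (ρ 0) ∈ L.low then 0 else Ψ α * G (α (ρ 0))) * X ρ α)
    (f := fun ρ α => if α (ρ 0) ∈ L.low then 0 else Ψ α ^ 2)
    (g := fun ρ α => G (α (ρ 0)) * X ρ α * (G (α (ρ 0)) * X ρ α))
    (fun _ _ => by split_ifs <;> positivity) (fun _ _ => mul_self_nonneg _)
    fun _ _ _ _ => by split_ifs <;> [simp; exact le_of_eq (by ring)]
  have h1 := L.diag_eq (fun β => G (β 0)) (fun β => G (β 0)) hX hX
  have h2 : ∑ β : Fin 1 → I, G (β 0) * G (β 0) = ∑ a, G a ^ 2 :=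
    Fintype.sum_equiv (Equiv.funUnique _ _) _ _ fun β => by simp [pow_two]
  rw [ALin_emb1 fun i => ∑ α, if α i ∈ L.low then 0 else Ψ α ^ 2, ← Lv.kk_eq_sum] at h
  refine h.trans (le_of_eq ?_)
  congr 1
  simp only [pow_two (X _ _)]
  rw [← h2]
  exact h1

lemma ALin_Tm_chan (L : Lv I) (Ψ : (ι → I) → ℝ) (G : I → ℝ) (γ : Fin 2 → I) (β : Fin 3 → I) :
    ALin_Tm L Ψ G (fun ρ => chan (c := 2) ρ γ β Ψ) = ∑ σ : Fin 3 ↪ ι, ∑ α,
      if α (σ 1) = γ 0 ∧ α (σ 2) = γ 1 then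
        (if α (σ 0) ∈ L.low then 0 else Ψ α * G (α (σ 0))) * Ψ (put σ β α) else 0 := by
  refine (ALin_chan_sum (p := 1) γ β Ψ
    fun a α => if a 0 ∈ L.low then 0 else Ψ α * G (a 0)).trans ?_
  refine sum_congr rfl fun σ _ => sum_congr rfl fun α _ => ?_
  exact if_congr Fin.forall_fin_two rfl rfl

/-- one input slot outside the condensate -/
lemma ALin_ii (L : Lv I) (Ψ : (ι → I) → ℝ) (t : Fin 3) {K : I → I → ℝ} {M : ℝ} (hM : 0 ≤ M)
    (hK : ∀ ζ c : I → ℝ, (∑ a, ∑ d, ζ a * c d * K a d) ^ 2 ≤ M * (∑ a, ζ a ^ 2) * ∑ d, c d ^ 2) :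
    (∑ d ∈ L.low.erase L.o, ALin_Tm L Ψ (fun a => K a d)
      fun ρ => chan (c := 2) ρ (L.oo 2) (update (L.oo 3) t d) Ψ) ^ 2 ≤
      M * (Fintype.card ι : ℝ) ^ 4 * (L.kk Ψ * L.ll Ψ) := by
  have e : ∑ d ∈ L.low.erase L.o, ALin_Tm L Ψ (fun a => K a d)
      (fun ρ => chan (c := 2) ρ (L.oo 2) (update (L.oo 3) t d) Ψ) =
      ∑ σ : Fin 3 ↪ ι, ∑ α ∈ L.vac σ, ∑ a, ∑ d,
        (if a ∉ L.low then Ψ (put σ (update (L.oo 3) 0 a) α) else 0) *
        (if d ∈ L.low ∧ d ≠ L.o then Ψ (put σ (update (L.oo 3) t d) α) else 0) * K a d := by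
    simp only [ALin_Tm_chan]
    rw [sum_comm]
    refine sum_congr rfl fun σ _ => ?_
    rw [sum_comm, sum_comm (s := L.vac σ)]
    have h1 : ∀ a, ∑ α ∈ L.vac σ, ∑ d,
        (if a ∉ L.low then Ψ (put σ (update (L.oo 3) 0 a) α) else 0) *
        (if d ∈ L.low ∧ d ≠ L.o then Ψ (put σ (update (L.oo 3) t d) α) else 0) * K a d =
        ∑ α, if α (σ 0) = a ∧ α (σ 1) = L.o ∧ α (σ 2) = L.o then ∑ d,
          (if a ∉ L.low then Ψ α else 0) *
          (if d ∈ L.low ∧ d ≠ L.o then Ψ (put σ (update (L.oo 3) t d) α) else 0) * K a d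
          else 0 := by
      intro a
      rw [ALin_sum_eq L σ (update (L.oo 3) 0 a) _ fun α => by
        simp [Fin.forall_fin_succ, Lv.oo]]
      simp only [put_put]
    simp only [h1]
    rw [sum_comm (s := univ) (t := univ)]
    refine sum_congr rfl fun α _ => ?_
    simp only [ite_and (α (σ 0) = _), sum_ite_eq, mem_univ, if_true]
    by_cases h : α (σ 1) = L.o ∧ α (σ 2) = L.o
    · rw [if_pos h, ← sum_subset (subset_univ (L.low.erase L.o))]
      · refine sum_congr rfl fun d hd => ?_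
        rw [if_pos (show α (σ 1) = L.oo 2 0 ∧ α (σ 2) = L.oo 2 1 from h),
          if_pos (show d ∈ L.low ∧ d ≠ L.o from (mem_erase.mp hd).symm), ite_not]
        split_ifs <;> ring
      · intro d _ hd
        rw [if_neg (c := d ∈ L.low ∧ d ≠ L.o) fun h => hd (mem_erase.mpr h.symm), mul_zero,
          zero_mul]
    · rw [if_neg h]
      exact sum_eq_zero fun d _ => if_neg h
  rw [e]
  refine (ALin_cs2 _ _ (fun _ _ => mul_nonneg hM (sum_nonneg fun _ _ => sq_nonneg _))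
    (fun _ _ => sum_nonneg fun _ _ => sq_nonneg _) fun σ _ α _ => hK _ _).trans ?_
  have h1 := ALin_mass L Ψ 0 fun a => a ∉ L.low
  have h2 := ALin_mass L Ψ t fun d => d ∈ L.low ∧ d ≠ L.o
  simp only [ite_not (_ ∈ L.low) (Ψ _ ^ 2)] at h1
  rw [← Lv.kk_eq_sum] at h1
  rw [← Lv.ll_eq_sum] at h2
  simp only [← mul_sum]
  have hk := Lv.kk_nonneg (L := L) (Ψ := Ψ)
  calc _ ≤ M * ((Fintype.card ι : ℝ) ^ 2 * L.kk Ψ) * ((Fintype.card ι : ℝ) ^ 2 * L.ll Ψ) := by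
        gcongr
    _ = _ := by ring

/-- one output slot outside the condensate -/
lemma ALin_iii' (L : Lv I) (Ψ : (ι → I) → ℝ) {p q : Fin 3} (h0p : 0 ≠ p) (h0q : q ≠ 0) (hpq : q ≠ p)
    (hall : ∀ j, j = 0 ∨ j = p ∨ j = q) {γ : I → Fin 2 → I}
    (hγ : ∀ d (β : Fin 3 → I), (β 1 = γ d 0 ∧ β 2 = γ d 1) ↔ (β p = d ∧ β q = L.o))
    {K : I → I → ℝ} {M H : ℝ} (hM : 0 ≤ M)
    (hK : ∀ ζ c : I → ℝ, (∑ a, ∑ d, ζ a * c d * K a d) ^ 2 ≤ M * (∑ a, ζ a ^ 2) * ∑ d, c d ^ 2)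
    (hH : ∑ a, ∑ d, (if d ∈ L.low ∧ d ≠ L.o then K a d else 0) ^ 2 ≤ H) :
    (∑ d ∈ L.low.erase L.o, ALin_Tm L Ψ (fun a => K a d)
      fun ρ => chan (c := 2) ρ (γ d) (L.oo 3) Ψ) ^ 2 ≤
      L.kk Ψ * ((Fintype.card ι : ℝ) ^ 4 * (H * nsq Ψ + M * L.ll Ψ)) := by
  set Y : ι → ι → (ι → I) → ℝ := fun i j α => ∑ σ ∈ univ.filter
    fun σ : Fin 3 ↪ ι => σ 0 = i ∧ σ p = j,
      if α (σ q) = L.o then Ψ (put σ (L.oo 3) α) else 0 with hY
  have hput : ∀ (σ : Fin 3 ↪ ι) (j : Fin 3) α a,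
      put σ (L.oo 3) (update α (σ j) a) = put σ (L.oo 3) α := by
    intro σ j α a
    ext i
    by_cases h : ∃ l, σ l = i
    · obtain ⟨l, rfl⟩ := h
      rw [put_apply, put_apply]
    · rw [put_apply_not _ _ _ h, put_apply_not _ _ _ h, update_of_ne fun e => h ⟨j, e.symm⟩]
  have h := ALin_iii L.o (P := fun d => d ∈ L.low ∧ d ≠ L.o) hM hK
    (B := (Fintype.card ι : ℝ) ^ 2) (by positivity) hH (Ψ := Ψ) (Y := Y) ?_ ?_ ?_ ?_
  · rw [← Lv.ll_eq_sum] at h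
    have e : ∑ d ∈ L.low.erase L.o, ALin_Tm L Ψ (fun a => K a d)
        (fun ρ => chan (c := 2) ρ (γ d) (L.oo 3) Ψ) =
        ∑ i, ∑ α, (if α i ∈ L.low then 0 else Ψ α) *
          ∑ j, (if α j ∈ L.low ∧ α j ≠ L.o then K (α i) (α j) else 0) * Y i j α := by
      simp only [ALin_Tm_chan]
      rw [sum_comm (s := univ) (t := univ) (f := fun i α => (if α i ∈ L.low then 0 else Ψ α) * _),
        sum_comm, sum_congr rfl fun σ _ => sum_comm, sum_comm]
      refine sum_congr rfl fun α _ => ?_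
      simp only [hY, sum_filter, mul_sum]
      rw [sum_congr rfl fun i _ => sum_comm, sum_comm (s := univ) (t := univ)]
      refine sum_congr rfl fun σ _ => ?_
      have h1 := fun d => hγ d fun j => α (σ j)
      simp only [h1, ite_and (σ 0 = _), ite_and (α (σ p) = _), mul_ite, mul_zero, sum_ite_eq,
        mem_univ, if_true, sum_ite_irrel, sum_const_zero, mem_erase]
      by_cases h2 : α (σ p) ∈ L.low <;> by_cases h3 : α (σ p) = L.o <;>
        by_cases h4 : α (σ q) = L.o <;> by_cases h5 : α (σ 0) ∈ L.low <;>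
        simp [h2, h3, h4, h5, mul_assoc]
    rw [e]
    refine (ALin_cs2 _ _ (fun _ _ => sq_nonneg _) (fun _ _ => sq_nonneg _)
      fun _ _ _ _ => (mul_pow _ _ _).le).trans ?_
    refine mul_le_mul (le_of_eq ?_) (h.trans (le_of_eq (by ring)))
      (sum_nonneg fun _ _ => sum_nonneg fun _ _ => sq_nonneg _) Lv.kk_nonneg
    rw [Lv.kk_eq_sum]
    simp
  · intro i α
    refine sum_eq_zero fun σ hσ => ?_
    obtain ⟨h1, h2⟩ := (mem_filter.mp hσ).2
    exact absurd (σ.injective (h1.trans h2.symm)) h0p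
  · intro i j α a
    refine sum_congr rfl fun σ hσ => ?_
    obtain ⟨rfl, -⟩ := (mem_filter.mp hσ).2
    rw [hput, update_of_ne (σ.injective.ne h0q)]
  · intro i j α a
    refine sum_congr rfl fun σ hσ => ?_
    obtain ⟨-, rfl⟩ := (mem_filter.mp hσ).2
    rw [hput, update_of_ne (σ.injective.ne hpq)]
  · intro i j α hi hj
    have h1 : |Y i j α| ≤ Fintype.card ι * |Ψ α| := by
      refine (abs_sum_le_sum_abs _ _).trans ((sum_le_card_nsmul _ _ |Ψ α| fun σ hσ => ?_).trans ?_)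
      · obtain ⟨rfl, rfl⟩ := (mem_filter.mp hσ).2
        split_ifs with h2
        · have : L.oo 3 = α ∘ σ := by
            ext l
            rcases hall l with rfl | rfl | rfl
            exacts [hi.symm, hj.symm, h2.symm]
          rw [this, put_self]
        · simp
      · rw [nsmul_eq_mul]
        exact mul_le_mul_of_nonneg_right (ALin_cnt2 h0p i j) (abs_nonneg _)
    calc _ = |Y i j α| ^ 2 := (sq_abs _).symm
      _ ≤ (Fintype.card ι * |Ψ α|) ^ 2 := by gcongr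
      _ = _ := by rw [mul_pow, sq_abs]

lemma ALin_ob (L : Lv I) (ho : L.o ∈ L.low) (Ψ : (ι → I) → ℝ) {w : I → I → ℝ} {M : ℝ} (hM : 0 ≤ M)
    (hw : ∀ ζ h : I → ℝ,
      (∑ a, ∑ b, w a b * ζ a * h b) ^ 2 ≤ M * (∑ a, ζ a ^ 2) * ∑ b, h b ^ 2) :
    (ob (L.wHL w) Ψ - ALin_Tm L Ψ (fun a => w a L.o) fun ρ α => Ψ (put ρ (L.oo 1) α)) ^ 2 ≤
      M * (L.kk Ψ * L.ll Ψ) := by
  have e : ob (L.wHL w) Ψ - ALin_Tm L Ψ (fun a => w a L.o) (fun ρ α => Ψ (put ρ (L.oo 1) α)) =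
      ∑ i, ∑ α ∈ univ.filter fun α : ι → I => α i = L.o, ∑ a, ∑ d, w a d *
        (if a ∈ L.low then 0 else Ψ (update α i a)) *
        (if d ∈ L.low ∧ d ≠ L.o then Ψ (update α i d) else 0) := by
    unfold ob ALin_Tm
    simp only [ALin_put1]
    rw [ALin_emb1 fun i => ∑ α, (if α i ∈ L.low then 0 else Ψ α * w (α i) L.o) *
      Ψ (update α i (L.oo 1 0)), ← sum_sub_distrib]
    refine sum_congr rfl fun i _ => ?_
    rw [← sum_sub_distrib, ALin_leg L.o i, sum_filter]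
    refine sum_congr rfl fun α _ => if_congr Iff.rfl (sum_congr rfl fun a _ => ?_) rfl
    simp only [update_self, update_idem, Lv.oo]
    rw [sub_eq_iff_eq_add, ← add_sum_erase _ _ (mem_univ L.o), ← add_sum_erase univ _ (mem_univ L.o),
      add_comm]
    congr 1
    · simp only [ne_eq, not_true, and_false, if_false, mul_zero, zero_add]
      refine sum_congr rfl fun d hd => ?_
      have := (mem_erase.mp hd).1
      by_cases h1 : a ∈ L.low <;> by_cases h2 : d ∈ L.low <;> simp [Lv.wHL, h1, h2, this]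
    · by_cases h1 : a ∈ L.low <;> simp [Lv.wHL, h1, ho, mul_comm]
  rw [e]
  refine (ALin_cs2 _ _ (fun _ _ => mul_nonneg hM (sum_nonneg fun _ _ => sq_nonneg _))
    (fun _ _ => sum_nonneg fun _ _ => sq_nonneg _) fun σ _ α _ => hw _ _).trans (le_of_eq ?_)
  simp only [← mul_sum]
  rw [mul_assoc, Lv.kk_eq_sum, Lv.ll_eq_sum]
  congr 2
  · refine sum_congr rfl fun i _ => ?_
    rw [ALin_leg L.o i, sum_filter]
    simp
  · refine sum_congr rfl fun i _ => ?_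
    rw [ALin_leg L.o i, sum_filter]
    simp

lemma ALin_nno_zero (L : Lv I) (ho : L.o ∈ L.low) {n : ℕ} (f : (Fin n → I) → ℝ) :
    ∑ γ ∈ L.lowF n, (if L.nno γ = 0 then f γ else 0) = f (L.oo n) := by
  rw [sum_eq_single_of_mem (L.oo n) (L.oo_mem_lowF ho n)]
  · simp [Lv.nno, Lv.oo]
  · intro γ _ h
    have := ALin_nno_pos h
    rw [if_neg (by omega)]

lemma ALin_nno_one (L : Lv I) (ho : L.o ∈ L.low) {n : ℕ} (f : (Fin n → I) → ℝ) :
    ∑ γ ∈ L.lowF n, (if L.nno γ = 1 then f γ else 0) =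
      ∑ t, ∑ d ∈ L.low.erase L.o, f (update (L.oo n) t d) := by
  rw [← sum_filter, ← sum_product']
  symm
  refine sum_bij (fun x _ => update (L.oo n) x.1 x.2) ?_ ?_ ?_ fun _ _ => rfl
  · rintro ⟨t, d⟩ hx
    obtain ⟨h1, h2⟩ := mem_erase.mp (mem_product.mp hx).2
    refine mem_filter.mpr ⟨Fintype.mem_piFinset.mpr fun j => ?_, card_eq_one.mpr ⟨t, ?_⟩⟩
    · by_cases h : j = t
      · rw [h, update_self]; exact h2
      · rw [update_of_ne h]; exact ho
    · ext j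
      by_cases h : j = t
      · simpa [h] using h1
      · simp [h, Lv.oo]
  · rintro ⟨t, d⟩ hx ⟨t', d'⟩ _ h
    have h1 := (mem_erase.mp (mem_product.mp hx).2).1
    have h2 := congrFun h t
    by_cases e : t = t'
    · subst e
      simp only [update_self] at h2
      rw [h2]
    · simp only [update_self, update_of_ne e] at h2
      exact absurd h2 h1
  · intro γ hγ
    obtain ⟨h1, h2⟩ := mem_filter.mp hγ
    obtain ⟨t, ht⟩ := card_eq_one.mp h2
    have h3 : ∀ j, γ j ≠ L.o ↔ j = t := fun j => by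
      rw [← mem_singleton, ← ht, mem_filter]; simp
    refine ⟨(t, γ t), mem_product.mpr ⟨mem_univ _, mem_erase.mpr
      ⟨(h3 t).mpr rfl, Fintype.mem_piFinset.mp h1 t⟩⟩, funext fun j => ?_⟩
    by_cases h : j = t
    · rw [h, update_self]
    · rw [update_of_ne h]
      exact (not_not.mp fun e => h ((h3 j).mp e)).symm

lemma ALin_split (L : Lv I) (ho : L.o ∈ L.low) {n m : ℕ} (T : (Fin n → I) → (Fin m → I) → ℝ) :
    ∑ γ ∈ L.lowF n, ∑ β ∈ L.lowF m, T γ β = T (L.oo n) (L.oo m) +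
      (∑ t, ∑ d ∈ L.low.erase L.o, T (L.oo n) (update (L.oo m) t d)) +
      (∑ t, ∑ d ∈ L.low.erase L.o, T (update (L.oo n) t d) (L.oo m)) +
      ∑ γ ∈ L.lowF n, ∑ β ∈ L.lowF m, if 2 ≤ L.nno γ + L.nno β then T γ β else 0 := by
  rw [← ALin_nno_one L ho fun β => T (L.oo n) β, ← ALin_nno_one L ho fun γ => T γ (L.oo m),
    ← ALin_nno_zero L ho fun β => T (L.oo n) β, ← sum_add_distrib,
    ← ALin_nno_zero L ho fun γ => ∑ β ∈ L.lowF m,
      ((if L.nno β = 0 then T γ β else 0) + if L.nno β = 1 then T γ β else 0),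
    ← sum_add_distrib, ← sum_add_distrib]
  refine sum_congr rfl fun γ _ => ?_
  rw [← ALin_nno_zero L ho fun β => T γ β]
  by_cases h0 : L.nno γ = 0
  · simp only [h0, if_true, zero_ne_one, if_false, add_zero, zero_add, ← sum_add_distrib]
    refine sum_congr rfl fun β _ => ?_
    split_ifs <;> first | omega | simp
  by_cases h1 : L.nno γ = 1
  · simp only [h1, if_true, one_ne_zero, if_false, zero_add, ← sum_add_distrib]
    refine sum_congr rfl fun β _ => ?_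
    split_ifs <;> first | omega | simp
  · simp only [h0, h1, if_false, zero_add]
    exact sum_congr rfl fun β _ => (if_pos (by omega)).symm

end Pool.Agent.Lib.MP_8fe63c_mp
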