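import Pool.Agent.Lib.MP_8fe63c_mp.ALin3

/-!
Estimates of the channels of the term with one high output leg.
-/

set_option linter.unusedSectionVars false

open Finset Function
open scoped InnerProductSpace

namespace Pool.Agent.Lib.MP_8fe63c_mp

variable {I ι E : Type} [Fintype I] [DecidableEq I] [Fintype ι] [DecidableEq ι]
  [NormedAddCommGroup E] [InnerProductSpace ℝ E]

lemma ALin_er_sum {L : Lv I} {Ψ : (ι → I) → ℝ} {η : ℝ} (hl : ∀ a, 0 ≤ L.lam a) (hη : 0 < η)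
    {J : Type} {s : Finset J} {f : J → ℝ} {c m : ℝ} (hc : 0 ≤ c) (hm : (s.card : ℝ) ≤ m)
    (h : ∀ x ∈ s, |f x| ≤ L.Er c η Ψ) : |∑ x ∈ s, f x| ≤ L.Er (m * c) η Ψ := by
  refine (abs_sum_le_sum_abs _ _).trans ((sum_le_card_nsmul _ _ _ h).trans ?_)
  rw [nsmul_eq_mul]
  refine (mul_le_mul_of_nonneg_right hm (Lv.Er_nonneg hl hc hη.le)).trans (le_of_eq ?_)
  unfold Lv.Er; ring

lemma ALin_hs' {L : Lv I} (hl : ∀ a, 0 ≤ L.lam a) {Ψ : (ι → I) → ℝ} {G : I → ℝ}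
    {X : (Fin 1 ↪ ι) → (ι → I) → ℝ} (hX : Indep X) {g x : ℝ} (hg : ∑ a, G a ^ 2 ≤ g)
    (hx : ∑ ρ : Fin 1 ↪ ι, ∑ α ∈ L.vac ρ, X ρ α ^ 2 ≤ x) :
    ALin_Tm L Ψ G X ^ 2 ≤ L.xx Ψ * (g * x) := by
  have h1 : 0 ≤ ∑ a, G a ^ 2 := sum_nonneg fun _ _ => sq_nonneg _
  have h2 : 0 ≤ ∑ ρ : Fin 1 ↪ ι, ∑ α ∈ L.vac ρ, X ρ α ^ 2 :=
    sum_nonneg fun _ _ => sum_nonneg fun _ _ => sq_nonneg _
  exact (ALin_hs L Ψ G hX).trans (mul_le_mul (ALin_kk_le hl) (mul_le_mul hg hx h2 (h1.trans hg))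
    (mul_nonneg h1 h2) (Lv.xx_nonneg hl))

variable {D : Dat I E} {γ₀ Λ C₀ C η : ℝ} {Ψ : (ι → I) → ℝ}

lemma ALin_lowF (hB : D.Base γ₀ Λ C₀ C) (n : ℕ) : ((D.lowF n).card : ℝ) ≤ C ^ n := by
  rw [D.card_lowF]
  push_cast
  exact pow_le_pow_left₀ (Nat.cast_nonneg _) hB.card_low n

lemma ALin_count0 (hB : D.Base γ₀ Λ C₀ C) {c : ℕ} (hc : c ≤ Fintype.card ι) {γ : Fin c → I}
    {β : Fin (1 + c) → I} (hγ : γ ∈ D.lowF c) (hβ : β ∈ D.lowF (1 + c)) :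
    ∑ ρ : Fin 1 ↪ ι, ∑ α ∈ D.vac ρ, chan ρ γ β Ψ α ^ 2 ≤
      2 ^ (1 + 2 * c) * (Fintype.card ι : ℝ) ^ (1 + 2 * c) * nsq Ψ := by
  have h3 := D.chan_count hB.o_low (p := 1) (j := 0) hγ hβ (Nat.zero_le _) hc
    (W := fun _ => 1) (fun _ => zero_le_one) (fun _ _ _ _ _ => rfl) Ψ
  simpa only [one_mul, mul_one, pow_zero, Nat.sub_zero, ex, nsq] using h3

lemma ALin_lin13 (hB : D.Base γ₀ Λ C₀ C) (hN : D.Norms √(Fintype.card ι : ℝ) Λ C₀ C)
    (hc : D.Ctx η Ψ) (h0 : Ψ ≠ 0) : |D.LinF 1 3 D.F4t Ψ| ≤ D.Er (C ^ 3 * (12 * C)) η Ψ := by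
  have hl := hB.lam_nonneg
  have hC : 1 ≤ C := hB.C₀_ge.trans hB.C₀_le
  have h8 := hc.eight_le.2 h0
  have h8' : 8 ≤ Fintype.card ι := by exact_mod_cast h8
  have hX := Lv.xx_nonneg (Ψ := Ψ) hl
  have hn := nsq_nonneg Ψ
  have hk := Lv.kk_nonneg (L := D.toLv) (Ψ := Ψ)
  have hkX := ALin_kk_le (Ψ := Ψ) hl
  have key : |∑ γ ∈ D.lowF 3, ∑ β ∈ D.lowF (1 + 3), ALin_Tm D.toLv Ψ
      (fun a => D.F4t (Fin.append ![a] γ) β) fun ρ => chan ρ γ β Ψ| ≤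
      D.Er (C ^ 3 * (12 * C)) η Ψ := by
    refine ALin_er_sum hl hc.pos (by positivity) (ALin_lowF hB 3) fun γ hγ => ?_
    rw [sum_eq_single_of_mem (D.oo 4) (D.oo_mem_lowF hB.o_low 4)]
    · have h1 := hN.l1d γ hγ
      have h2 := ALin_count0 (Ψ := Ψ) hB (c := 3) (by omega) hγ (D.oo_mem_lowF hB.o_low 4)
      rw [show 14 = 2 * 7 from rfl, ALin_pow] at h1
      simp only [Dat.F4t, if_true]
      refine ALin_er hl hc.pos hc.le_one (by positivity)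
        ((ALin_hs' hl (chan_indep _ _ _) h1 h2).trans ?_)
      have h3 : 0 ≤ η ^ 4 * D.xx Ψ ^ 2 := by positivity
      calc _ = 128 * C * (nsq Ψ * D.xx Ψ) := by field_simp; ring
        _ ≤ (12 * C) ^ 2 * (nsq Ψ * D.xx Ψ) := by gcongr; nlinarith
        _ ≤ _ := by gcongr; nlinarith [sq_nonneg (nsq Ψ)]
    · intro β _ hβ
      simp [Dat.F4t, hβ, ALin_Tm]
  rw [ALin_LinF1, abs_mul]
  refine le_trans (mul_le_of_le_one_left (abs_nonneg _) ?_) key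
  norm_num [Nat.factorial, abs_of_pos]

lemma ALin_iv (hB : D.Base γ₀ Λ C₀ C) (hN : D.Norms √(Fintype.card ι : ℝ) Λ C₀ C)
    (hc : D.Ctx η Ψ) (h0 : Ψ ≠ 0) :
    |∑ γ ∈ D.lowF 2, ∑ β ∈ D.lowF 3, if 2 ≤ D.nno γ + D.nno β then
      ALin_Tm D.toLv Ψ (fun a => D.F3 (Fin.append ![a] γ) β) fun ρ => chan (c := 2) ρ γ β Ψ
      else 0| ≤ D.Er (C ^ 2 * (C ^ 3 * (8 * C))) η Ψ := by
  have hl := hB.lam_nonneg
  have hC : 1 ≤ C := hB.C₀_ge.trans hB.C₀_le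
  have h8 := hc.eight_le.2 h0
  have h8' : 8 ≤ Fintype.card ι := by exact_mod_cast h8
  have hX := Lv.xx_nonneg (Ψ := Ψ) hl
  have hn := nsq_nonneg Ψ
  have hk := Lv.kk_nonneg (L := D.toLv) (Ψ := Ψ)
  have hkX := ALin_kk_le (Ψ := Ψ) hl
  refine ALin_er_sum hl hc.pos (by positivity) (ALin_lowF hB 2) fun γ hγ =>
    ALin_er_sum hl hc.pos (by positivity) (ALin_lowF hB 3) fun β hβ => ?_
  split_ifs with h2
  swap
  · rw [abs_zero]; exact Lv.Er_nonneg hl (by positivity) hc.pos.le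
  have h1 := hN.l1c γ hγ β hβ
  rw [show 8 = 2 * 4 from rfl, ALin_pow] at h1
  have h3 := D.chan_count hB.o_low (p := 1) (c := 2) (j := 2) hγ hβ h2 (by omega)
    (W := fun _ => 1) (fun _ => zero_le_one) (fun _ _ _ _ _ => rfl) Ψ
  have h4 := hc.ex_np_mul (c := 2) (by norm_num) (W := fun α => (D.npN α : ℝ) + 2)
    fun _ => by positivity
  have h5 := Lv.ex_np_le (Ψ := Ψ) hB.o_low hl 2
  simp only [one_mul, mul_one, Nat.cast_ofNat] at h3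
  simp only [← pow_two] at h4
  have h6 : 0 ≤ η ^ 4 := by positivity
  have h7 : η ^ 4 ≤ 1 := pow_le_one₀ hc.pos.le hc.le_one
  have h9 := h3.trans (mul_le_mul_of_nonneg_left (h4.trans
    (mul_le_mul_of_nonneg_left h5 (by positivity))) (by positivity))
  refine ALin_er hl hc.pos hc.le_one (by positivity)
    ((ALin_hs' hl (chan_indep (p := 1) (c := 2) γ β Ψ) h1 h9).trans ?_)
  calc _ = 32 * C * (η ^ 4 * D.xx Ψ ^ 2 + 2 * η ^ 4 * (nsq Ψ * D.xx Ψ)) := by field_simp; ring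
    _ ≤ 32 * C ^ 2 * (2 * (η ^ 4 * D.xx Ψ ^ 2 + nsq Ψ * D.xx Ψ + nsq Ψ ^ 2)) := by
        gcongr
        · nlinarith
        · nlinarith [sq_nonneg (nsq Ψ), mul_nonneg h6 (sq_nonneg (D.xx Ψ)),
            mul_le_mul_of_nonneg_right h7 (mul_nonneg hn hX)]
    _ = _ := by ring

lemma ALin_i (hB : D.Base γ₀ Λ C₀ C) (hN : D.Norms √(Fintype.card ι : ℝ) Λ C₀ C)
    (hc : D.Ctx η Ψ) (h0 : Ψ ≠ 0) :
    |ALin_Tm D.toLv Ψ (fun a => D.F3 ![a, D.o, D.o] (D.oo 3))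
        (fun ρ => chan (c := 2) ρ (D.oo 2) (D.oo 3) Ψ) -
      2 * ALin_Tm D.toLv Ψ (fun a => D.w a D.o) fun ρ α => Ψ (put ρ (D.oo 1) α)| ≤
      D.Er (6 * C + 7 * C) η Ψ := by
  have hl := hB.lam_nonneg
  have hC : 1 ≤ C := hB.C₀_ge.trans hB.C₀_le
  have h8 := hc.eight_le.2 h0
  have h8' : 8 ≤ Fintype.card ι := by exact_mod_cast h8
  have hX := Lv.xx_nonneg (Ψ := Ψ) hl
  have hn := nsq_nonneg Ψ
  have hk := Lv.kk_nonneg (L := D.toLv) (Ψ := Ψ)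
  have hkX := ALin_kk_le (Ψ := Ψ) hl
  have h6 : 0 ≤ η ^ 4 := by positivity
  have h7 : η ^ 4 ≤ 1 := pow_le_one₀ hc.pos.le hc.le_one
  have hN0 : (0 : ℝ) < Fintype.card ι := by linarith
  have e : ALin_Tm D.toLv Ψ (fun a => D.F3 ![a, D.o, D.o] (D.oo 3))
        (fun ρ => chan (c := 2) ρ (D.oo 2) (D.oo 3) Ψ) -
      2 * ALin_Tm D.toLv Ψ (fun a => D.w a D.o) (fun ρ α => Ψ (put ρ (D.oo 1) α)) =
      ALin_Tm D.toLv Ψ
        (fun a => D.F3 ![a, D.o, D.o] (D.oo 3) - 2 * D.w a D.o / (Fintype.card ι : ℝ) ^ 2)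
        (fun ρ => chan (c := 2) ρ (D.oo 2) (D.oo 3) Ψ) +
      ALin_Tm D.toLv Ψ (fun a => D.w a D.o) fun ρ α =>
        2 * (chan (c := 2) ρ (D.oo 2) (D.oo 3) Ψ α / (Fintype.card ι : ℝ) ^ 2 -
          Ψ (put ρ (D.oo 1) α)) := by
    unfold ALin_Tm
    simp only [mul_sum, ← sum_sub_distrib, ← sum_add_distrib]
    refine sum_congr rfl fun ρ _ => sum_congr rfl fun α _ => ?_
    split_ifs <;> ring
  rw [e, ← Lv.Er_add]
  refine (abs_add_le _ _).trans (add_le_add ?_ ?_)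
  · have h1 := hN.l1a
    rw [show 10 = 2 * 5 from rfl, show 4 = 2 * 2 from rfl, ALin_pow, ALin_pow] at h1
    have h2 := ALin_count0 (Ψ := Ψ) hB (c := 2) (by omega) (D.oo_mem_lowF hB.o_low 2)
      (D.oo_mem_lowF hB.o_low 3)
    have h3 : 0 ≤ η ^ 4 * D.xx Ψ ^ 2 := by positivity
    refine ALin_er hl hc.pos hc.le_one (by positivity)
      ((ALin_hs' hl (chan_indep (p := 1) (c := 2) _ _ Ψ) h1 h2).trans ?_)
    calc _ = 32 * C * (nsq Ψ * D.xx Ψ) := by field_simp; ring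
      _ ≤ (6 * C) ^ 2 * (nsq Ψ * D.xx Ψ) := by gcongr; nlinarith
      _ ≤ _ := by gcongr; nlinarith [sq_nonneg (nsq Ψ)]
  · have h1 : ∑ a, D.w a D.o ^ 2 ≤ C ^ 2 := by
      have h2 := ALin_quad (K := D.w) (sq_nonneg C₀) (fun ζ c => by
        simpa only [mul_comm (D.w _ _), mul_right_comm _ (D.w _ _)] using hB.w_op ζ c)
        fun d => if d = D.o then 1 else 0
      simp only [mul_ite, mul_one, mul_zero, sum_ite_eq', mem_univ, if_true, ite_pow, one_pow,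
        ne_eq, OfNat.ofNat_ne_zero, not_false_eq_true, zero_pow] at h2
      exact h2.trans (pow_le_pow_left₀ (by linarith [hB.C₀_ge]) hB.C₀_le 2)
    have h2 : ∀ ρ : Fin 1 ↪ ι, ∑ α ∈ D.vac ρ,
        (2 * (chan (c := 2) ρ (D.oo 2) (D.oo 3) Ψ α / (Fintype.card ι : ℝ) ^ 2 -
          Ψ (put ρ (D.oo 1) α))) ^ 2 ≤
        16 * η ^ 4 / Fintype.card ι * (D.xx Ψ + 3 * nsq Ψ) := by
      intro ρ
      refine le_trans ?_ (mul_le_mul_of_nonneg_left (Lv.ex_np_le (Ψ := Ψ) hB.o_low hl 3)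
        (by positivity))
      rw [ex, mul_sum]
      refine le_trans (sum_le_sum fun α hα => ?_) (sum_le_sum_of_subset_of_nonneg (subset_univ _)
        fun _ _ _ => by positivity)
      have h3 : put ρ (D.oo 1) α = α := by
        rw [show D.oo 1 = α ∘ ρ from funext fun j => (D.mem_vac.mp hα j).symm, put_self]
      rw [h3, D.chan_oo (p := 1) (c := 2) ρ Ψ hα]
      by_cases hΨ : Ψ α = 0
      · simp [hΨ]
      have h4 := hc.sec α hΨ
      have h5 : D.npN α + 1 ≤ Fintype.card ι := by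
        have : (D.npN α : ℝ) + 1 ≤ Fintype.card ι := by nlinarith
        exact_mod_cast this
      have h9 := Lv.desc_approx (Fintype.card ι) (D.npN α + 1) 0 2 0 h5
      simp only [Nat.descFactorial_zero, Nat.cast_one, one_mul, mul_one, Nat.sub_zero, zero_add,
        add_zero, Nat.cast_ofNat, Nat.cast_add, Nat.add_one_sub_one, pow_one] at h9
      rw [Nat.sub_sub]
      generalize (((Fintype.card ι - (D.npN α + 1)).descFactorial 2 : ℕ) : ℝ) = d at h9 ⊢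
      calc _ = 4 / (Fintype.card ι : ℝ) ^ 4 * |d - (Fintype.card ι : ℝ) ^ 2| ^ 2 * Ψ α ^ 2 := by
            rw [sq_abs]; field_simp; ring
        _ ≤ 4 / (Fintype.card ι : ℝ) ^ 4 * (2 * Fintype.card ι * (D.npN α + 1 + 2)) ^ 2 *
            Ψ α ^ 2 := by gcongr
        _ = 16 / (Fintype.card ι : ℝ) ^ 2 * (D.npN α + 3) * ((D.npN α + 3) * Ψ α ^ 2) := by
            field_simp; ring
        _ ≤ 16 / (Fintype.card ι : ℝ) ^ 2 * (η ^ 4 * Fintype.card ι) *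
            ((D.npN α + 3) * Ψ α ^ 2) := by gcongr; linarith
        _ = _ := by field_simp
    have h3 := sum_le_card_nsmul _ _ _ fun ρ (_ : ρ ∈ (univ : Finset (Fin 1 ↪ ι))) => h2 ρ
    have h4 : ((univ : Finset (Fin 1 ↪ ι)).card : ℝ) = Fintype.card ι := by simp
    rw [nsmul_eq_mul, h4] at h3
    refine ALin_er hl hc.pos hc.le_one (by positivity)
      ((ALin_hs' hl (fun ρ β α => ?_) h1 h3).trans ?_)
    · have := chan_indep (p := 1) (c := 2) (D.oo 2) (D.oo 3) Ψ ρ β α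
      simp only at this
      rw [put_put, this]
    calc _ = C ^ 2 * (16 * (η ^ 4 * D.xx Ψ ^ 2) + 48 * η ^ 4 * (nsq Ψ * D.xx Ψ)) := by
          field_simp; ring
      _ ≤ C ^ 2 * (49 * (η ^ 4 * D.xx Ψ ^ 2 + nsq Ψ * D.xx Ψ + nsq Ψ ^ 2)) := by
          gcongr
          nlinarith [sq_nonneg (nsq Ψ), mul_nonneg h6 (sq_nonneg (D.xx Ψ)), mul_nonneg hn hX,
            mul_le_mul_of_nonneg_right h7 (mul_nonneg hn hX)]
      _ = _ := by ring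

lemma ALin_sqrt {x c y : ℝ} (hc : 0 ≤ c) (hy : 0 ≤ y) (h : x ^ 2 ≤ c ^ 2 * y) : |x| ≤ c * √y := by
  refine abs_le.mpr (abs_le_of_sq_le_sq' ?_ (by positivity))
  rwa [mul_pow, Real.sq_sqrt hy]

lemma ALin_out (hB : D.Base γ₀ Λ C₀ C) (hN : D.Norms √(Fintype.card ι : ℝ) Λ C₀ C)
    (hc : D.Ctx η Ψ) (t : Fin 2) :
    |∑ d ∈ D.low.erase D.o, ALin_Tm D.toLv Ψ
      (fun a => D.F3 (Fin.append ![a] (update (D.oo 2) t d)) (D.oo 3))
      fun ρ => chan (c := 2) ρ (update (D.oo 2) t d) (D.oo 3) Ψ| ≤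
      C₀ * √(D.kk Ψ * D.ll Ψ) + D.Er C η Ψ := by
  have hl := hB.lam_nonneg
  have hC0 := hB.C₀_ge
  have hC : 1 ≤ C := hC0.trans hB.C₀_le
  have h8 := hc.eight_le.1
  have hX := Lv.xx_nonneg (Ψ := Ψ) hl
  have hn := nsq_nonneg Ψ
  have hk := Lv.kk_nonneg (L := D.toLv) (Ψ := Ψ)
  have hll := Lv.ll_nonneg (L := D.toLv) (Ψ := Ψ)
  have hkX := ALin_kk_le (Ψ := Ψ) hl
  have hs : √(Fintype.card ι : ℝ) ^ 8 = (Fintype.card ι : ℝ) ^ 4 := ALin_pow _ 4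
  have hK := hN.l1b'
  have hH : ∑ a, ∑ d, (if d ∈ D.low ∧ d ≠ D.o then D.F3 ![a, d, D.o] (D.oo 3) else 0) ^ 2 ≤
      C * (C / √(Fintype.card ι : ℝ) ^ 8) := by
    rw [sum_comm]
    have h1 : ∀ d, ∑ a, (if d ∈ D.low ∧ d ≠ D.o then D.F3 ![a, d, D.o] (D.oo 3) else 0) ^ 2 ≤
        if d ∈ D.low then C / √(Fintype.card ι : ℝ) ^ 8 else 0 := by
      intro d
      by_cases h : d ∈ D.low ∧ d ≠ D.o
      · simp only [h, ne_eq, not_false_eq_true, and_self, if_true]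
        refine le_trans (le_of_eq (sum_congr rfl fun a _ => ?_)) (hN.l1c ![d, D.o]
          (Fintype.mem_piFinset.mpr fun j => ?_) _ (D.oo_mem_lowF hB.o_low 3))
        · congr 2; ext j; fin_cases j <;> rfl
        · fin_cases j
          exacts [h.1, hB.o_low]
      · simp only [h, if_false, ne_eq, OfNat.ofNat_ne_zero, not_false_eq_true, zero_pow,
          sum_const_zero]
        split_ifs <;> positivity
    refine (sum_le_sum fun d _ => h1 d).trans ?_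
    rw [sum_ite_mem, univ_inter, sum_const, nsmul_eq_mul]
    exact mul_le_mul_of_nonneg_right hB.card_low (by positivity)
  have key : (∑ d ∈ D.low.erase D.o, ALin_Tm D.toLv Ψ
      (fun a => D.F3 (Fin.append ![a] (update (D.oo 2) t d)) (D.oo 3))
      fun ρ => chan (c := 2) ρ (update (D.oo 2) t d) (D.oo 3) Ψ) ^ 2 ≤
      D.kk Ψ * ((Fintype.card ι : ℝ) ^ 4 * (C * (C / √(Fintype.card ι : ℝ) ^ 8) * nsq Ψ +
        C₀ ^ 2 / √(Fintype.card ι : ℝ) ^ 8 * D.ll Ψ)) := by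
    have e : ∀ a d, D.F3 (Fin.append ![a] (update (D.oo 2) t d)) (D.oo 3) =
        D.F3 ![a, d, D.o] (D.oo 3) := by
      intro a d
      fin_cases t
      · congr 1; ext j; fin_cases j <;> rfl
      · rw [← hB.F3_symm (Equiv.swap 1 2) ![a, d, D.o]]
        congr 1; ext j; fin_cases j <;> rfl
    simp only [e]
    fin_cases t
    · exact ALin_iii' D.toLv Ψ (p := 1) (q := 2) (by decide) (by decide) (by decide) (by decide)
        (fun d β => Iff.rfl) (by positivity) hK hH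
    · exact ALin_iii' D.toLv Ψ (p := 2) (q := 1) (by decide) (by decide) (by decide) (by decide)
        (fun d β => and_comm) (by positivity) hK hH
  have h1 : C * √(nsq Ψ * D.xx Ψ) ≤ D.Er C η Ψ := by
    unfold Lv.Er
    have := hc.pos
    have : 0 ≤ η * D.xx Ψ := by positivity
    gcongr; linarith
  refine le_trans ?_ (add_le_add le_rfl h1)
  refine abs_le.mpr (abs_le_of_sq_le_sq' (key.trans ?_) (by positivity))
  have h2 := Real.sq_sqrt (mul_nonneg hk hll)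
  have h3 := Real.sq_sqrt (mul_nonneg hn hX)
  have h4 : 0 ≤ C₀ * √(D.kk Ψ * D.ll Ψ) * (C * √(nsq Ψ * D.xx Ψ)) := by positivity
  have h5 : C ^ 2 * (nsq Ψ * D.kk Ψ) ≤ C ^ 2 * (nsq Ψ * D.xx Ψ) := by gcongr
  rw [hs]
  calc _ = C ^ 2 * (nsq Ψ * D.kk Ψ) + C₀ ^ 2 * (D.kk Ψ * D.ll Ψ) := by field_simp
    _ ≤ _ := by rw [add_sq, mul_pow, mul_pow, h2, h3]; linarith

end Pool.Agent.Lib.MP_8fe63c_mp
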