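import Pool.Agent.Lib.MP_8fe63c_mp.AErr

/-!
The quadratic term of the interaction.

Sketch. `Yv = Y₃ + ∑ l, Y_l`. `‖Y₃‖^2` gives `T3` exactly. Cross term `2 ⟪Y₃, ∑ Y_l⟫`: the part with
`β = o` and `α l = o` is `⟪y3 o, y4 o⟫ ∑ α (N - npN α)_4 Ψ α ^2` (`sum_vac_sq`, `desc_approx`; the error is
at most `C s^(-7) 4 N^3 (X + 4 n) ≤ C (η X + n)`); for the other parts use that the vector
`δ ↦ ⟪y3 β, y4 δ⟫` has norm at most `C s^(-7)` (`y3_le`, `y4_op`) and Cauchy-Schwarz: at most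
`C s^(-7) √(N^3 (k + l)) √(N^4 n)`. Square of the second part: diagonal `l = l'` gives
`(∑ δ ‖y4 δ‖^2) ∑ α (N - npN α)_4 Ψ α ^2`; for `l ≠ l'` contract `y4 (α l)` with `Ψ (update α l' o)` and
`y4 (α l')` with `Ψ (update α l o)`; by `y4_op` each term is at most `C s^(-10) n`, and there are
at most `N^5` terms.
-/

set_option linter.unusedSectionVars false

open Finset
open scoped InnerProductSpace

namespace Pool.Agent.Lib.MP_8fe63c_mp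

variable {I ι κ κ' E : Type} [Fintype I] [DecidableEq I] [Fintype ι] [DecidableEq ι]
  [Fintype κ] [DecidableEq κ] [Fintype κ'] [DecidableEq κ']
  [NormedAddCommGroup E] [InnerProductSpace ℝ E]


/-- the legs outside the range of `σ` -/
def AQV_F (σ : Fin 3 ↪ ι) : Finset ι := univ.filter fun l => ¬∃ j, σ j = l

/-- configurations with the condensate mode on the legs `σ` and `l` -/
def AQV_S (L : Lv I) (σ : Fin 3 ↪ ι) (l : ι) : Finset (ι → I) :=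
  (L.vac σ).filter fun α => α l = L.o

/-- the mass counted over all quadruples of condensate legs -/
noncomputable def AQV_Cn (L : Lv I) (Ψ : (ι → I) → ℝ) : ℝ :=
  ∑ σ : Fin 3 ↪ ι, ∑ l ∈ AQV_F σ, ∑ α ∈ AQV_S L σ l, Ψ α ^ 2

theorem AQV_upd (o : I) (l : ι) (S : Finset (ι → I))
    (hS : ∀ α δ, α ∈ S → Function.update α l δ ∈ S) (f : (ι → I) → ℝ) :
    ∑ α ∈ S, f α = ∑ α ∈ S.filter (fun α => α l = o), ∑ δ, f (Function.update α l δ) := by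
  rw [← Finset.sum_product' (f := fun α δ => f (Function.update α l δ))]
  refine Finset.sum_nbij' (fun α => (Function.update α l o, α l))
    (fun p => Function.update p.1 l p.2) ?_ ?_ ?_ ?_ ?_
  · intro α hα
    simp [hS α o hα]
  · intro p hp
    simp only [mem_product, mem_filter] at hp
    exact hS _ _ hp.1.1
  · intro α _
    simp
  · intro p hp
    simp only [mem_product, mem_filter] at hp
    ext1
    · simp only [Function.update_idem]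
      rw [← hp.1.2, Function.update_eq_self]
    · simp
  · intro α _
    simp

theorem AQV_vac_upd (L : Lv I) {σ : Fin 3 ↪ ι} {l : ι} (hl : l ∈ AQV_F σ) (α : ι → I) (δ : I)
    (hα : α ∈ L.vac σ) : Function.update α l δ ∈ L.vac σ := by
  rw [L.mem_vac] at hα ⊢
  intro j
  have : σ j ≠ l := fun h => (mem_filter.1 hl).2 ⟨j, h⟩
  rw [Function.update_of_ne this, hα j]

theorem AQV_updS (L : Lv I) {σ : Fin 3 ↪ ι} {l : ι} (hl : l ∈ AQV_F σ) (f : (ι → I) → ℝ) :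
    ∑ α ∈ L.vac σ, f α = ∑ α ∈ AQV_S L σ l, ∑ δ, f (Function.update α l δ) :=
  AQV_upd L.o l _ (AQV_vac_upd L hl) f

theorem AQV_upd_le (o : I) (l : ι) (S : Finset (ι → I)) (hS : ∀ α ∈ S, α l = o)
    (Ψ : (ι → I) → ℝ) : ∑ α ∈ S, ∑ δ, Ψ (Function.update α l δ) ^ 2 ≤ nsq Ψ := by
  unfold nsq
  rw [AQV_upd o l univ (fun _ _ _ => mem_univ _) (fun α => Ψ α ^ 2)]
  refine sum_le_sum_of_subset_of_nonneg (fun α hα => ?_) (fun α _ _ => by positivity)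
  simp [hS α hα]

theorem AQV_opt {T P Q : ℝ} (hP : 0 ≤ P) (hQ : 0 ≤ Q)
    (h : ∀ t : ℝ, 0 < t → 2 * |T| ≤ t * P + Q / t) : |T| ≤ √(P * Q) := by
  by_contra hc
  push Not at hc
  have h0 : 0 < |T| := lt_of_le_of_lt (Real.sqrt_nonneg _) hc
  have h1 : P * Q < |T| ^ 2 := (Real.sqrt_lt' h0).1 hc
  rcases hP.eq_or_lt with hP0 | hP0
  · have h2 := h ((Q + 1) / |T|) (by positivity)
    rw [← hP0, mul_zero, zero_add, div_div_eq_mul_div, le_div_iff₀ (by positivity)] at h2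
    nlinarith
  · have h2 := h (|T| / P) (by positivity)
    rw [div_mul_cancel₀ _ hP0.ne', div_div_eq_mul_div] at h2
    have h3 : Q * P / |T| < |T| := by
      rw [div_lt_iff₀ h0]
      nlinarith
    linarith

theorem AQV_sum_t {J : Type} (s : Finset J) (T P Q : J → ℝ) (t : ℝ)
    (h : ∀ j ∈ s, 2 * |T j| ≤ t * P j + Q j / t) :
    2 * |∑ j ∈ s, T j| ≤ t * (∑ j ∈ s, P j) + (∑ j ∈ s, Q j) / t := by
  calc 2 * |∑ j ∈ s, T j| ≤ 2 * ∑ j ∈ s, |T j| := by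
        gcongr
        exact abs_sum_le_sum_abs _ _
    _ = ∑ j ∈ s, 2 * |T j| := by rw [mul_sum]
    _ ≤ ∑ j ∈ s, (t * P j + Q j / t) := sum_le_sum h
    _ = _ := by rw [sum_add_distrib, mul_sum, sum_div]

theorem AQV_amgm (a b t : ℝ) (ht : 0 < t) : 2 * |a * b| ≤ t * a ^ 2 + b ^ 2 / t := by
  have h1 : t * a ^ 2 + b ^ 2 / t - 2 * |a * b| = (t * |a| - |b|) ^ 2 / t := by
    rw [abs_mul, ← sq_abs a, ← sq_abs b]
    field_simp
    ring
  have h2 : 0 ≤ (t * |a| - |b|) ^ 2 / t := by positivity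
  linarith

theorem AQV_card_F (σ : Fin 3 ↪ ι) : ((AQV_F σ).card : ℝ) ≤ Fintype.card ι := by
  exact_mod_cast card_le_univ _

theorem AQV_pairs {x : ℝ} (hx : 0 ≤ x) :
    ∑ σ : Fin 3 ↪ ι, ∑ _l ∈ AQV_F σ, x ≤ (Fintype.card ι : ℝ) ^ 4 * x := by
  have h1 := card_emb_all (κ := Fin 3) (ι := ι)
  rw [Fintype.card_fin] at h1
  calc ∑ σ : Fin 3 ↪ ι, ∑ _l ∈ AQV_F σ, x ≤ ∑ _σ : Fin 3 ↪ ι, (Fintype.card ι : ℝ) * x := by
        refine sum_le_sum fun σ _ => ?_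
        rw [sum_const, nsmul_eq_mul]
        exact mul_le_mul_of_nonneg_right (AQV_card_F σ) hx
    _ = (Fintype.card (Fin 3 ↪ ι) : ℝ) * ((Fintype.card ι : ℝ) * x) := by
        rw [sum_const, nsmul_eq_mul, card_univ]
    _ ≤ (Fintype.card ι : ℝ) ^ 3 * ((Fintype.card ι : ℝ) * x) := by gcongr
    _ = _ := by ring

theorem AQV_free_card (L : Lv I) {σ : Fin 3 ↪ ι} {α : ι → I} (hα : α ∈ L.vac σ) :
    ((AQV_F σ).filter fun l => α l = L.o).card = Fintype.card ι - L.npN α - 3 := by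
  have h1 : (AQV_F σ).filter (fun l => α l = L.o) =
      (univ.filter fun l => α l = L.o) \ univ.map σ := by
    ext l
    simp [AQV_F, and_comm]
  have h2 : univ.map σ ⊆ univ.filter fun l => α l = L.o := by
    intro l hl
    obtain ⟨j, -, rfl⟩ := mem_map.1 hl
    simpa using L.mem_vac.1 hα j
  have h3 := card_filter_add_card_filter_not (s := (univ : Finset ι)) (fun l => α l = L.o)
  rw [h1, card_sdiff_of_subset h2, card_map, card_univ, Fintype.card_fin]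
  rw [card_univ] at h3
  unfold Lv.npN
  simp only [ne_eq]
  omega

theorem AQV_Cn_eq (L : Lv I) (Ψ : (ι → I) → ℝ) :
    AQV_Cn L Ψ = ex (fun α => ((Fintype.card ι - L.npN α).descFactorial 3 : ℝ) *
      ((Fintype.card ι - L.npN α - 3 : ℕ) : ℝ)) Ψ := by
  rw [← L.sum_vac_sq 3]
  unfold AQV_Cn AQV_S
  refine sum_congr rfl fun σ _ => ?_
  simp only [sum_filter]
  rw [sum_comm]
  refine sum_congr rfl fun α hα => ?_
  rw [← sum_filter, sum_const, nsmul_eq_mul, AQV_free_card L hα]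

theorem AQV_Cn_approx (L : Lv I) (ho : L.o ∈ L.low) (hl : ∀ a, 0 ≤ L.lam a) (Ψ : (ι → I) → ℝ) :
    |AQV_Cn L Ψ - (Fintype.card ι : ℝ) ^ 4 * nsq Ψ| ≤
      4 * (Fintype.card ι : ℝ) ^ 3 * (L.xx Ψ + 4 * nsq Ψ) := by
  rw [AQV_Cn_eq]
  have h1 := Lv.ex_np_le (Ψ := Ψ) ho hl 4
  refine le_trans ?_ (mul_le_mul_of_nonneg_left h1 (by positivity))
  unfold ex nsq
  rw [mul_sum, mul_sum, ← sum_sub_distrib]
  refine (abs_sum_le_sum_abs _ _).trans (sum_le_sum fun α _ => ?_)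
  have h2 := Lv.desc_approx (Fintype.card ι) (L.npN α) 3 1 0 (L.npN_le α)
  simp only [Nat.descFactorial_one, Nat.descFactorial_zero, Nat.cast_one, mul_one] at h2
  rw [← sub_mul, abs_mul, abs_of_nonneg (sq_nonneg (Ψ α)), ← mul_assoc]
  refine mul_le_mul_of_nonneg_right ?_ (sq_nonneg _)
  simpa only [Nat.reduceAdd, Nat.add_one_sub_one, Nat.cast_ofNat, Nat.reduceSub] using h2

theorem AQV_Cn_le (L : Lv I) (Ψ : (ι → I) → ℝ) :
    AQV_Cn L Ψ ≤ (Fintype.card ι : ℝ) ^ 4 * nsq Ψ := by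
  refine le_trans ?_ (AQV_pairs (nsq_nonneg Ψ))
  refine sum_le_sum fun σ _ => sum_le_sum fun l _ => ?_
  exact sum_le_sum_of_subset_of_nonneg (subset_univ _) fun _ _ _ => sq_nonneg _

theorem AQV_Cn_nonneg (L : Lv I) (Ψ : (ι → I) → ℝ) : 0 ≤ AQV_Cn L Ψ :=
  sum_nonneg fun _ _ => sum_nonneg fun _ _ => sum_nonneg fun _ _ => sq_nonneg _

theorem AQV_put_oo (L : Lv I) {σ : Fin 3 ↪ ι} {α : ι → I} (hα : α ∈ L.vac σ) :
    put σ (L.oo 3) α = α := by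
  have : L.oo 3 = α ∘ σ := by
    funext j
    exact (L.mem_vac.1 hα j).symm
  rw [this, put_self]

theorem AQV_upd_self (L : Lv I) {σ : Fin 3 ↪ ι} {l : ι} {α : ι → I} (hα : α ∈ AQV_S L σ l) :
    Function.update α l L.o = α := by
  rw [← (mem_filter.1 hα).2, Function.update_eq_self]

/-- the cross term for one quadruple of legs -/
theorem AQV_cross_one (L : Lv I) (ho : L.o ∈ L.low) (g : (Fin 3 → I) → I → ℝ) (Ψ : (ι → I) → ℝ)
    {σ : Fin 3 ↪ ι} {l : ι} (hl : l ∈ AQV_F σ) {t : ℝ} (ht : 0 < t) :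
    2 * |(∑ α ∈ L.vac σ, ∑ β ∈ L.lowF 3,
        Ψ (put σ β α) * Ψ (Function.update α l L.o) * g β (α l)) -
      g (L.oo 3) L.o * ∑ α ∈ AQV_S L σ l, Ψ α ^ 2| ≤
      t * ((∑ β ∈ L.lowF 3, ∑ δ, g β δ ^ 2) * ∑ α ∈ AQV_S L σ l, Ψ α ^ 2) +
        (nsq Ψ - ∑ α ∈ AQV_S L σ l, Ψ α ^ 2) / t := by
  set J : Finset (I × (Fin 3 → I)) := (univ ×ˢ L.lowF 3).erase (L.o, L.oo 3) with hJ
  have hmem : (L.o, L.oo 3) ∈ (univ : Finset I) ×ˢ L.lowF 3 :=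
    mem_product.2 ⟨mem_univ _, L.oo_mem_lowF ho 3⟩
  have hsplit : ∀ f : I → (Fin 3 → I) → ℝ,
      ∑ δ, ∑ β ∈ L.lowF 3, f δ β = f L.o (L.oo 3) + ∑ p ∈ J, f p.1 p.2 := by
    intro f
    rw [← sum_product' (f := f), ← add_sum_erase _ _ hmem]
  have h1 : (∑ α ∈ L.vac σ, ∑ β ∈ L.lowF 3,
        Ψ (put σ β α) * Ψ (Function.update α l L.o) * g β (α l)) -
      g (L.oo 3) L.o * ∑ α ∈ AQV_S L σ l, Ψ α ^ 2 =
      ∑ α ∈ AQV_S L σ l, ∑ p ∈ J,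
        (Ψ α * g p.2 p.1) * Ψ (put σ p.2 (Function.update α l p.1)) := by
    rw [AQV_updS L hl, mul_sum, ← sum_sub_distrib]
    refine sum_congr rfl fun α hα => ?_
    have hα' : α ∈ AQV_S L σ l := hα
    rw [hsplit]
    simp only [Function.update_idem, Function.update_self, AQV_upd_self L hα',
      AQV_put_oo L (mem_filter.1 hα).1]
    rw [add_sub_right_comm]
    rw [show Ψ α * Ψ α * g (L.oo 3) L.o - g (L.oo 3) L.o * Ψ α ^ 2 = 0 by ring, zero_add]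
    exact sum_congr rfl fun p _ => by ring
  rw [h1]
  refine (AQV_sum_t _ _ (fun α => ∑ p ∈ J, (Ψ α * g p.2 p.1) ^ 2)
    (fun α => ∑ p ∈ J, Ψ (put σ p.2 (Function.update α l p.1)) ^ 2) t fun α _ =>
      AQV_sum_t _ _ _ _ t fun p _ => AQV_amgm _ _ _ ht).trans ?_
  refine add_le_add (mul_le_mul_of_nonneg_left ?_ ht.le) (div_le_div_of_nonneg_right ?_ ht.le)
  · rw [mul_sum]
    refine sum_le_sum fun α _ => ?_
    have h2 := hsplit fun δ β => (Ψ α * g β δ) ^ 2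
    have h3 : (∑ β ∈ L.lowF 3, ∑ δ, g β δ ^ 2) * Ψ α ^ 2 =
        ∑ δ, ∑ β ∈ L.lowF 3, (Ψ α * g β δ) ^ 2 := by
      rw [sum_comm, sum_mul]
      refine sum_congr rfl fun δ _ => ?_
      rw [sum_mul]
      exact sum_congr rfl fun β _ => by ring
    rw [h3, h2]
    exact le_add_of_nonneg_left (sq_nonneg _)
  · rw [le_sub_iff_add_le, ← sum_add_distrib]
    have h4 : nsq Ψ = ∑ α ∈ AQV_S L σ l, ∑ δ, ∑ β,
        Ψ (put σ β (Function.update α l δ)) ^ 2 := by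
      unfold nsq
      rw [← L.sum_vac_put σ (fun α => Ψ α ^ 2), AQV_updS L hl]
    rw [h4]
    refine sum_le_sum fun α hα => ?_
    have h2 := hsplit fun δ β => Ψ (put σ β (Function.update α l δ)) ^ 2
    simp only [AQV_upd_self L hα, AQV_put_oo L (mem_filter.1 hα).1] at h2
    rw [add_comm, ← h2]
    refine sum_le_sum fun δ _ => ?_
    exact sum_le_sum_of_subset_of_nonneg (subset_univ _) fun _ _ _ => sq_nonneg _

theorem AQV_cross (L : Lv I) (ho : L.o ∈ L.low) (hl : ∀ a, 0 ≤ L.lam a)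
    (g : (Fin 3 → I) → I → ℝ) (Ψ : (ι → I) → ℝ) {G : ℝ}
    (hG : ∑ β ∈ L.lowF 3, ∑ δ, g β δ ^ 2 ≤ G) :
    |(∑ σ : Fin 3 ↪ ι, ∑ l ∈ AQV_F σ, ∑ α ∈ L.vac σ, ∑ β ∈ L.lowF 3,
        Ψ (put σ β α) * Ψ (Function.update α l L.o) * g β (α l)) -
      g (L.oo 3) L.o * AQV_Cn L Ψ| ≤
      √((G * ((Fintype.card ι : ℝ) ^ 4 * nsq Ψ)) *
        (4 * (Fintype.card ι : ℝ) ^ 3 * (L.xx Ψ + 4 * nsq Ψ))) := by
  have hG0 : 0 ≤ ∑ β ∈ L.lowF 3, ∑ δ, g β δ ^ 2 := by positivity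
  have hG1 : 0 ≤ G := hG0.trans hG
  have hn := nsq_nonneg Ψ
  have hX := Lv.xx_nonneg (Ψ := Ψ) hl
  refine AQV_opt (by positivity) (by positivity) fun t ht => ?_
  unfold AQV_Cn
  rw [mul_sum, ← sum_sub_distrib]
  simp only [mul_sum _ _ (g (L.oo 3) L.o), ← sum_sub_distrib]
  simp only [← mul_sum _ _ (g (L.oo 3) L.o)]
  refine (AQV_sum_t _ _ _ _ t fun σ _ => AQV_sum_t _ _ _ _ t fun l hl =>
    AQV_cross_one L ho g Ψ hl ht).trans ?_
  refine add_le_add (mul_le_mul_of_nonneg_left ?_ ht.le) (div_le_div_of_nonneg_right ?_ ht.le)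
  · simp only [← mul_sum]
    exact mul_le_mul hG (AQV_Cn_le L Ψ) (AQV_Cn_nonneg L Ψ) hG1
  · simp only [sum_sub_distrib]
    have h1 := AQV_pairs (ι := ι) hn
    have h2 := (abs_le.1 (AQV_Cn_approx L ho hl Ψ)).1
    unfold AQV_Cn at h2
    linarith

/-- the diagonal part of the square of the four-body term -/
theorem AQV_diag (L : Lv I) (q : I → ℝ) (Ψ : (ι → I) → ℝ) {σ : Fin 3 ↪ ι} {l : ι}
    (hl : l ∈ AQV_F σ) :
    ∑ α ∈ L.vac σ, Ψ (Function.update α l L.o) * Ψ (Function.update α l L.o) * q (α l) =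
      (∑ δ, q δ) * ∑ α ∈ AQV_S L σ l, Ψ α ^ 2 := by
  rw [AQV_updS L hl, mul_sum]
  refine sum_congr rfl fun α hα => ?_
  simp only [Function.update_idem, Function.update_self, AQV_upd_self L hα]
  rw [sum_mul]
  exact sum_congr rfl fun δ _ => by ring

/-- an off-diagonal term of the square of the four-body term -/
theorem AQV_off (L : Lv I) (y : I → E) {A : ℝ} (hA : 0 ≤ A)
    (hy : ∀ c : I → ℝ, ‖∑ δ, c δ • y δ‖ ^ 2 ≤ A * ∑ δ, c δ ^ 2) (Ψ : (ι → I) → ℝ)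
    {σ : Fin 3 ↪ ι} {l l' : ι} (hl : l ∈ AQV_F σ) (hl' : l' ∈ AQV_F σ) (hne : l' ≠ l) :
    |∑ α ∈ L.vac σ, Ψ (Function.update α l L.o) * Ψ (Function.update α l' L.o) *
      ⟪y (α l), y (α l')⟫_ℝ| ≤ A * nsq Ψ := by
  have hS : ∀ α δ, α ∈ (L.vac σ).filter (fun α => α l = L.o) →
      Function.update α l' δ ∈ (L.vac σ).filter (fun α => α l = L.o) := by
    intro α δ hα
    rw [mem_filter] at hα ⊢
    exact ⟨AQV_vac_upd L hl' _ _ hα.1, by rw [Function.update_of_ne hne.symm, hα.2]⟩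
  rw [AQV_upd L.o l _ (AQV_vac_upd L hl), AQV_upd L.o l' _ hS]
  set S := ((L.vac σ).filter (fun α => α l = L.o)).filter (fun α => α l' = L.o) with hSdef
  have h1 := AQV_upd_le L.o l S (fun α hα => (mem_filter.1 (mem_filter.1 hα).1).2) Ψ
  have h2 := AQV_upd_le L.o l' S (fun α hα => (mem_filter.1 hα).2) Ψ
  have h3 : ∀ α ∈ S, |∑ δ', ∑ δ,
      Ψ (Function.update (Function.update (Function.update α l' δ') l δ) l L.o) *
        Ψ (Function.update (Function.update (Function.update α l' δ') l δ) l' L.o) *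
        ⟪y (Function.update (Function.update α l' δ') l δ l),
          y (Function.update (Function.update α l' δ') l δ l')⟫_ℝ| ≤
      A / 2 * ((∑ δ, Ψ (Function.update α l δ) ^ 2) + ∑ δ, Ψ (Function.update α l' δ) ^ 2) := by
    intro α hα
    have ha : α l = L.o := (mem_filter.1 (mem_filter.1 hα).1).2
    have hb : α l' = L.o := (mem_filter.1 hα).2
    have e1 : ∀ δ' δ, Function.update (Function.update (Function.update α l' δ') l δ) l L.o =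
        Function.update α l' δ' := by
      intro δ' δ
      rw [Function.update_idem, Function.update_comm hne, ← ha, Function.update_eq_self]
    have e2 : ∀ δ' δ, Function.update (Function.update (Function.update α l' δ') l δ) l' L.o =
        Function.update α l δ := by
      intro δ' δ
      rw [Function.update_comm hne.symm, Function.update_idem, ← hb, Function.update_eq_self]
    simp only [e1, e2, Function.update_self, Function.update_of_ne hne]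
    have e3 : ∑ δ', ∑ δ, Ψ (Function.update α l' δ') * Ψ (Function.update α l δ) *
        ⟪y δ, y δ'⟫_ℝ = ⟪∑ δ, Ψ (Function.update α l δ) • y δ,
          ∑ δ', Ψ (Function.update α l' δ') • y δ'⟫_ℝ := by
      rw [inner_sum]
      refine sum_congr rfl fun δ' _ => ?_
      rw [sum_inner]
      refine sum_congr rfl fun δ _ => ?_
      rw [real_inner_smul_left, real_inner_smul_right]
      ring
    rw [e3]
    refine (abs_real_inner_le_norm _ _).trans ?_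
    have b1 := hy fun δ => Ψ (Function.update α l δ)
    have b2 := hy fun δ => Ψ (Function.update α l' δ)
    nlinarith [sq_nonneg (‖∑ δ, Ψ (Function.update α l δ) • y δ‖ -
      ‖∑ δ', Ψ (Function.update α l' δ') • y δ'‖)]
  refine (abs_sum_le_sum_abs _ _).trans ((sum_le_sum h3).trans ?_)
  rw [← mul_sum, sum_add_distrib]
  nlinarith

theorem AQV_sq (L : Lv I) (y : I → E) {A : ℝ} (hA : 0 ≤ A)
    (hy : ∀ c : I → ℝ, ‖∑ δ, c δ • y δ‖ ^ 2 ≤ A * ∑ δ, c δ ^ 2) (Ψ : (ι → I) → ℝ) :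
    |(∑ σ : Fin 3 ↪ ι, ∑ l ∈ AQV_F σ, ∑ l' ∈ AQV_F σ, ∑ α ∈ L.vac σ,
        Ψ (Function.update α l L.o) * Ψ (Function.update α l' L.o) * ⟪y (α l), y (α l')⟫_ℝ) -
      (∑ δ, ‖y δ‖ ^ 2) * AQV_Cn L Ψ| ≤ (Fintype.card ι : ℝ) ^ 5 * (A * nsq Ψ) := by
  have hn := nsq_nonneg Ψ
  have h0 : 0 ≤ (Fintype.card ι : ℝ) * (A * nsq Ψ) := by positivity
  refine le_trans ?_ ((AQV_pairs h0).trans_eq (by ring))
  unfold AQV_Cn
  rw [mul_sum, ← sum_sub_distrib]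
  refine (abs_sum_le_sum_abs _ _).trans (sum_le_sum fun σ _ => ?_)
  rw [mul_sum, ← sum_sub_distrib]
  refine (abs_sum_le_sum_abs _ _).trans (sum_le_sum fun l hl => ?_)
  rw [← add_sum_erase _ _ hl, ← AQV_diag L (fun δ => ‖y δ‖ ^ 2) Ψ hl]
  simp only [real_inner_self_eq_norm_sq, add_sub_cancel_left]
  refine (abs_sum_le_sum_abs _ _).trans ?_
  refine (sum_le_sum fun l' hl' =>
    AQV_off L y hA hy Ψ hl (mem_of_mem_erase hl') (ne_of_mem_erase hl')).trans ?_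
  rw [sum_const, nsmul_eq_mul]
  refine mul_le_mul_of_nonneg_right ?_ (by positivity)
  exact_mod_cast card_le_univ _

theorem AQV_expand (D : Dat I E) (Ψ : (ι → I) → ℝ) :
    D.QV Ψ = D.T3 (fun β β' => ⟪D.y3 β, D.y3 β'⟫_ℝ) Ψ +
      (1 / 3) * (∑ σ : Fin 3 ↪ ι, ∑ l ∈ AQV_F σ, ∑ α ∈ D.vac σ, ∑ β ∈ D.lowF 3,
        Ψ (put σ β α) * Ψ (Function.update α l D.o) * ⟪D.y3 β, D.y4 (α l)⟫_ℝ) +
      (1 / 6) * ∑ σ : Fin 3 ↪ ι, ∑ l ∈ AQV_F σ, ∑ l' ∈ AQV_F σ, ∑ α ∈ D.vac σ,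
        Ψ (Function.update α l D.o) * Ψ (Function.update α l' D.o) *
          ⟪D.y4 (α l), D.y4 (α l')⟫_ℝ := by
  have h1 : ∀ (σ : Fin 3 ↪ ι) (α : ι → I), ‖D.Yv σ Ψ α‖ ^ 2 =
      (∑ β ∈ D.lowF 3, ∑ β' ∈ D.lowF 3,
        ⟪D.y3 β, D.y3 β'⟫_ℝ * Ψ (put σ β α) * Ψ (put σ β' α)) +
      2 * (∑ l ∈ AQV_F σ, ∑ β ∈ D.lowF 3,
        Ψ (put σ β α) * Ψ (Function.update α l D.o) * ⟪D.y3 β, D.y4 (α l)⟫_ℝ) +
      ∑ l ∈ AQV_F σ, ∑ l' ∈ AQV_F σ,
        Ψ (Function.update α l D.o) * Ψ (Function.update α l' D.o) *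
          ⟪D.y4 (α l), D.y4 (α l')⟫_ℝ := by
    intro σ α
    have e : (∑ l, if ∃ j, σ j = l then 0 else Ψ (Function.update α l D.o) • D.y4 (α l)) =
        ∑ l ∈ AQV_F σ, Ψ (Function.update α l D.o) • D.y4 (α l) := by
      unfold AQV_F
      rw [sum_filter]
      exact sum_congr rfl fun l _ => by split_ifs <;> rfl
    unfold Dat.Yv
    rw [e, norm_add_sq_real, ← real_inner_self_eq_norm_sq, ← real_inner_self_eq_norm_sq]
    congr 1
    · congr 1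
      · rw [sum_inner]
        refine sum_congr rfl fun β _ => ?_
        rw [inner_sum]
        refine sum_congr rfl fun β' _ => ?_
        rw [real_inner_smul_left, real_inner_smul_right]
        ring
      · rw [inner_sum]
        congr 1
        refine sum_congr rfl fun l _ => ?_
        rw [sum_inner]
        refine sum_congr rfl fun β _ => ?_
        rw [real_inner_smul_left, real_inner_smul_right]
        ring
    · rw [sum_inner]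
      refine sum_congr rfl fun l _ => ?_
      rw [inner_sum]
      refine sum_congr rfl fun l' _ => ?_
      rw [real_inner_smul_left, real_inner_smul_right]
      ring
  have h2 : ∀ σ : Fin 3 ↪ ι, ∑ α ∈ D.vac σ, ‖D.Yv σ Ψ α‖ ^ 2 =
      (∑ α ∈ D.vac σ, ∑ β ∈ D.lowF 3, ∑ β' ∈ D.lowF 3,
        ⟪D.y3 β, D.y3 β'⟫_ℝ * Ψ (put σ β α) * Ψ (put σ β' α)) +
      2 * (∑ l ∈ AQV_F σ, ∑ α ∈ D.vac σ, ∑ β ∈ D.lowF 3,
        Ψ (put σ β α) * Ψ (Function.update α l D.o) * ⟪D.y3 β, D.y4 (α l)⟫_ℝ) +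
      ∑ l ∈ AQV_F σ, ∑ l' ∈ AQV_F σ, ∑ α ∈ D.vac σ,
        Ψ (Function.update α l D.o) * Ψ (Function.update α l' D.o) *
          ⟪D.y4 (α l), D.y4 (α l')⟫_ℝ := by
    intro σ
    simp only [h1, sum_add_distrib, ← mul_sum]
    congr 1
    · congr 2
      exact sum_comm
    · rw [sum_comm]
      exact sum_congr rfl fun l _ => sum_comm
  unfold Dat.QV Lv.T3
  simp only [h2, sum_add_distrib, ← mul_sum]
  ring

theorem AQV_g (D : Dat I E) {s C : ℝ} (hs : 0 < s) (hC : 0 ≤ C)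
    (h4 : ∀ c : I → ℝ, ‖∑ δ, c δ • D.y4 δ‖ ^ 2 ≤ C / s ^ 10 * ∑ δ, c δ ^ 2)
    {v : E} (hv : ‖v‖ ^ 2 ≤ C / s ^ 4) :
    ∑ δ, ⟪v, D.y4 δ⟫_ℝ ^ 2 ≤ C ^ 2 / s ^ 14 := by
  set G := ∑ δ, ⟪v, D.y4 δ⟫_ℝ ^ 2 with hG
  have hG0 : 0 ≤ G := by positivity
  have h1 : G = ⟪v, ∑ δ, ⟪v, D.y4 δ⟫_ℝ • D.y4 δ⟫_ℝ := by
    rw [inner_sum]
    exact sum_congr rfl fun δ _ => by rw [real_inner_smul_right, sq]
  have h2 := h4 fun δ => ⟪v, D.y4 δ⟫_ℝ
  rw [← hG] at h2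
  have h3 : G ^ 2 ≤ ‖v‖ ^ 2 * ‖∑ δ, ⟪v, D.y4 δ⟫_ℝ • D.y4 δ‖ ^ 2 := by
    rw [← mul_pow]
    exact pow_le_pow_left₀ hG0 (h1 ▸ real_inner_le_norm _ _) 2
  have h5 : G ^ 2 ≤ C / s ^ 4 * (C / s ^ 10 * G) :=
    h3.trans (mul_le_mul hv h2 (sq_nonneg _) (by positivity))
  have h6 : C / s ^ 4 * (C / s ^ 10 * G) = C ^ 2 / s ^ 14 * G := by
    field_simp
  rw [h6, sq] at h5
  rcases hG0.eq_or_lt with h | h
  · rw [← h]
    positivity
  · exact le_of_mul_le_mul_right h5 h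

theorem AQV_final {C s η n X a b Cn Cr Sq : ℝ} (hC : 1 ≤ C) (hs : 0 < s) (hη : 0 < η)
    (hη1 : η ≤ 1) (hbig : 1 ≤ η ^ 4 * s) (hn : 0 ≤ n) (hX : 0 ≤ X)
    (ha : a ^ 2 ≤ C ^ 2 / s ^ 14) (hb0 : 0 ≤ b) (hb : b ≤ C / s ^ 7)
    (h1 : |Cn - (s ^ 2) ^ 4 * n| ≤ 4 * (s ^ 2) ^ 3 * (X + 4 * n))
    (h2 : |Cr - a * Cn| ≤ √((C ^ 3 * (C ^ 2 / s ^ 14) * ((s ^ 2) ^ 4 * n)) *
      (4 * (s ^ 2) ^ 3 * (X + 4 * n))))
    (h3 : |Sq - b * Cn| ≤ (s ^ 2) ^ 5 * (C / s ^ 10 * n)) :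
    |(1 / 3) * Cr + (1 / 6) * Sq - (s ^ 2) ^ 4 * ((1 / 3) * a + (1 / 6) * b) * n| ≤
      (20 * C ^ 3) * (η * X + √(n * X) + n) := by
  have hC0 : 0 < C := by linarith
  have ha' : |a| ≤ C / s ^ 7 := by
    refine abs_le_of_sq_le_sq' ?_ (by positivity) |> abs_le.2
    rw [div_pow, ← pow_mul]
    exact ha
  have hη4 : η ^ 4 ≤ η := pow_le_of_le_one hη.le hη1 (by norm_num)
  have hs1 : 1 / s ≤ η := by
    rw [div_le_iff₀ hs]
    nlinarith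
  have hR := Real.sqrt_nonneg (n * X)
  have hC3 : C ≤ C ^ 3 := le_self_pow₀ hC (by norm_num)
  have e1 : C / s ^ 7 * (4 * (s ^ 2) ^ 3 * (X + 4 * n)) = 4 * C * (1 / s) * (X + 4 * n) := by
    field_simp
  have b1 : C / s ^ 7 * |Cn - (s ^ 2) ^ 4 * n| ≤ 4 * C ^ 3 * (η * X + 4 * n) := by
    refine (mul_le_mul_of_nonneg_left h1 (by positivity)).trans ?_
    rw [e1]
    calc 4 * C * (1 / s) * (X + 4 * n) ≤ 4 * C ^ 3 * η * (X + 4 * n) := by gcongr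
      _ = 4 * C ^ 3 * (η * X + 4 * (η * n)) := by ring
      _ ≤ 4 * C ^ 3 * (η * X + 4 * (1 * n)) := by gcongr
      _ = _ := by ring
  have e2 : (C ^ 3 * (C ^ 2 / s ^ 14) * ((s ^ 2) ^ 4 * n)) * (4 * (s ^ 2) ^ 3 * (X + 4 * n)) =
      4 * C ^ 5 * (n * X + 4 * n ^ 2) := by
    field_simp
  have b2 : |Cr - a * Cn| ≤ 2 * C ^ 3 * (√(n * X) + 2 * n) := by
    refine h2.trans ?_
    rw [e2]
    refine Real.sqrt_le_iff.2 ⟨by positivity, ?_⟩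
    have q1 : √(n * X) ^ 2 = n * X := Real.sq_sqrt (by positivity)
    have q2 : C ^ 5 ≤ C ^ 6 := pow_le_pow_right₀ hC (by norm_num)
    calc 4 * C ^ 5 * (n * X + 4 * n ^ 2) ≤ 4 * C ^ 6 * (√(n * X) + 2 * n) ^ 2 := by
          gcongr
          nlinarith [mul_nonneg hR hn]
      _ = _ := by ring
  have e3 : (s ^ 2) ^ 5 * (C / s ^ 10 * n) = C * n := by
    field_simp
  have b3 : |Sq - b * Cn| ≤ C ^ 3 * n := by
    refine h3.trans ?_
    rw [e3]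
    gcongr
  have b4 : |a * (Cn - (s ^ 2) ^ 4 * n)| ≤ 4 * C ^ 3 * (η * X + 4 * n) := by
    rw [abs_mul]
    exact (mul_le_mul_of_nonneg_right ha' (abs_nonneg _)).trans b1
  have b5 : |b * (Cn - (s ^ 2) ^ 4 * n)| ≤ 4 * C ^ 3 * (η * X + 4 * n) := by
    rw [abs_mul, abs_of_nonneg hb0]
    exact (mul_le_mul_of_nonneg_right hb (abs_nonneg _)).trans b1
  have p1 : 0 ≤ C ^ 3 * (η * X) := by positivity
  have p2 : 0 ≤ C ^ 3 * √(n * X) := by positivity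
  have p3 : 0 ≤ C ^ 3 * n := by positivity
  have e4 : (1 / 3) * Cr + (1 / 6) * Sq - (s ^ 2) ^ 4 * ((1 / 3) * a + (1 / 6) * b) * n =
      (1 / 3) * (Cr - a * Cn) + (1 / 6) * (Sq - b * Cn) +
        (1 / 3) * (a * (Cn - (s ^ 2) ^ 4 * n)) + (1 / 6) * (b * (Cn - (s ^ 2) ^ 4 * n)) := by
    ring
  have e5 : 4 * C ^ 3 * (η * X + 4 * n) = 4 * (C ^ 3 * (η * X)) + 16 * (C ^ 3 * n) := by ring
  have e6 : 2 * C ^ 3 * (√(n * X) + 2 * n) = 2 * (C ^ 3 * √(n * X)) + 4 * (C ^ 3 * n) := by ring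
  have e7 : 20 * C ^ 3 * (η * X + √(n * X) + n) =
      20 * (C ^ 3 * (η * X)) + 20 * (C ^ 3 * √(n * X)) + 20 * (C ^ 3 * n) := by ring
  rw [e5] at b4 b5
  rw [e6] at b2
  rw [e4, e7]
  rw [abs_le] at b2 b3 b4 b5 ⊢
  constructor <;> linarith [b2.1, b2.2, b3.1, b3.2, b4.1, b4.2, b5.1, b5.2]

theorem QV_est (C : ℝ) : ∃ K : ℝ, 0 ≤ K ∧ ∀ {I ι E : Type} [Fintype I] [DecidableEq I] [Fintype ι] [DecidableEq ι]
      [NormedAddCommGroup E] [InnerProductSpace ℝ E] (D : Dat I E)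
      (γ Λ C₀ η : ℝ) (Ψ : (ι → I) → ℝ), D.Base γ Λ C₀ C →
      D.Norms √(Fintype.card ι : ℝ) Λ C₀ C → D.Ctx η Ψ →
      |D.QV Ψ - (D.T3 (fun β β' => ⟪D.y3 β, D.y3 β'⟫_ℝ) Ψ + (Fintype.card ι : ℝ) ^ 4 *
        ((1 / 3) * ⟪D.y3 (D.oo 3), D.y4 D.o⟫_ℝ + (1 / 6) * ∑ δ, ‖D.y4 δ‖ ^ 2) * nsq Ψ)| ≤
        D.Er K η Ψ := by
  refine ⟨20 * |C| ^ 3, by positivity, ?_⟩
  intro I ι E _ _ _ _ _ _ D γ Λ C₀ η Ψ hB hN hc
  have hC : 1 ≤ C := hB.C₀_ge.trans hB.C₀_le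
  have hC0 : 0 ≤ C := by linarith
  rw [abs_of_nonneg hC0]
  have hN1 : (1 : ℝ) ≤ Fintype.card ι := hc.eight_le.1
  set s := √(Fintype.card ι : ℝ) with hsdef
  have hs : 0 < s := Real.sqrt_pos.2 (by linarith)
  have hss : (Fintype.card ι : ℝ) = s ^ 2 := (Real.sq_sqrt (by linarith)).symm
  have hl := hB.lam_nonneg
  have hg : ∀ β ∈ D.lowF 3, ∑ δ, ⟪D.y3 β, D.y4 δ⟫_ℝ ^ 2 ≤ C ^ 2 / s ^ 14 := fun β hβ =>
    AQV_g D hs hC0 hN.y4_op (hN.y3_le β hβ)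
  have hG : ∑ β ∈ D.lowF 3, ∑ δ, ⟪D.y3 β, D.y4 δ⟫_ℝ ^ 2 ≤ C ^ 3 * (C ^ 2 / s ^ 14) := by
    refine (sum_le_sum hg).trans ?_
    rw [sum_const, nsmul_eq_mul, Lv.card_lowF, Nat.cast_pow]
    exact mul_le_mul_of_nonneg_right (pow_le_pow_left₀ (Nat.cast_nonneg _) hB.card_low 3)
      (by positivity)
  have ha : ⟪D.y3 (D.oo 3), D.y4 D.o⟫_ℝ ^ 2 ≤ C ^ 2 / s ^ 14 :=
    (single_le_sum (f := fun δ => ⟪D.y3 (D.oo 3), D.y4 δ⟫_ℝ ^ 2) (fun _ _ => sq_nonneg _)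
      (mem_univ D.o)).trans (hg _ (D.oo_mem_lowF hB.o_low 3))
  have h1 := AQV_Cn_approx D.toLv hB.o_low hl Ψ
  have h2 := AQV_cross D.toLv hB.o_low hl (fun β δ => ⟪D.y3 β, D.y4 δ⟫_ℝ) Ψ hG
  have h3 := AQV_sq D.toLv D.y4 (by positivity) hN.y4_op Ψ
  rw [hss] at h1 h2 h3
  have h4 := AQV_final hC hs hc.pos hc.le_one hc.big (nsq_nonneg Ψ) (Lv.xx_nonneg hl) ha
    (by positivity) hN.y4_hs h1 h2 h3
  rw [AQV_expand, hss]
  unfold Lv.Er
  convert h4 using 2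
  ring

end Pool.Agent.Lib.MP_8fe63c_mp
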