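import Pool.Agent.Lib.MP_8fe63c_mp.AErr

/-!
Rough lower bound with weak coupling (one low mode, no four-body term, no restriction on the
sector).

Sketch. Let `n = card ι`, `Kin = ex (∑ lam)`, `k = kk ≤ Kin/Λ`, `ε₁ = ε/2`. For each leg
`ob_i Ψ ≤ (1+δ) ob_i (Ψ - xi_i) + (1 + 1/δ) ob_i (xi_i) ≤ (1-ε₁) Kc_i + (1+1/δ) CL Λ ‖xi_i‖^2`, `δ = ε/2`.
By `identity` with `w = 0` and `V ≥ 0`:
`H ≥ ε₁ Kin + (1-ε₁)(Lin0 + Lin1 - QK lam - QV) - (1+1/δ) CL Λ QK 1`. Here `F4 = 0`, `lowF = {o}`.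
`Lin0 - QV - DgP lam 1 = (B₀/6) ∑ α (n - npN)_3 Ψ^2 ≥ B₀ n^3/6 nsq - |B₀| n^2 (k + 3 nsq)/2`;
`|Lin1| ≤ √(∑ F3^2) n^(5/2) √(k nsq)`; `DgP lam 0 ≤ D₀ nsq`; exchange terms by `off_bound_fam` with
`chan_oo` (`|chan| ≤ n |Ψ|`), `nhN ≤ n`: each `AA` product is at most `(3 ϑ Kin)^2` or `D₀ nsq * ϑ Kin`.
For `QK 1` use `κ₀ = 1/Λ`. If `n ≤ 1` there are no tuples.
-/

set_option linter.unusedSectionVars false

open Finset
open scoped InnerProductSpace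

namespace Pool.Agent.Lib.MP_8fe63c_mp

variable {I ι κ κ' E : Type} [Fintype I] [DecidableEq I] [Fintype ι] [DecidableEq ι]
  [Fintype κ] [DecidableEq κ] [Fintype κ'] [DecidableEq κ']
  [NormedAddCommGroup E] [InnerProductSpace ℝ E]


structure Dat.Weak (D : Dat I E) (n ε Λ CL ϑ D₀ : ℝ) (xA yA xB : ℕ → ℝ) : Prop where
  low_eq : D.low = {D.o}
  y4_zero : ∀ δ, D.y4 δ = 0
  lam_o : D.lam D.o = 0
  Λ_pos : 0 < Λ
  hi : ∀ a, a ≠ D.o → Λ ≤ D.lam a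
  w_symm : ∀ a b, D.w a b = D.w b a
  w_nonneg : ∀ c : I → ℝ, 0 ≤ ∑ a, ∑ b, D.w a b * c a * c b
  w_le : ∀ c : I → ℝ, ∑ a, ∑ b, D.w a b * c a * c b ≤ (1 - ε) * ∑ a, D.lam a * c a ^ 2
  w_le' : ∀ c : I → ℝ, ∑ a, ∑ b, D.w a b * c a * c b ≤ CL * Λ * ∑ a, c a ^ 2
  F3_symm : ∀ (π : Equiv.Perm (Fin 3)) (α β : Fin 3 → I), D.F3 (α ∘ π) (β ∘ π) = D.F3 α β
  xA_nonneg : ∀ r, 0 ≤ xA r
  yA_nonneg : ∀ r, 0 ≤ yA r
  xB_nonneg : ∀ r, 0 ≤ xB r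
  D₀_nonneg : 0 ≤ D₀
  fA : D.FamB (D.resK (D.FA (D.oo 3))) xA yA
  fB : D.FamB (D.resK (D.FB (D.oo 1) (D.oo 3))) xB fun _ => 0
  yA1 : yA 1 = 0
  A1 : n ^ 3 * xA 1 ≤ ϑ * Λ
  A2 : n ^ 4 * xA 2 ≤ ϑ * Λ
  A2' : n ^ 4 * yA 2 ≤ ϑ
  B0 : n ^ 4 * xB 0 ≤ D₀
  B1 : n ^ 4 * xB 1 ≤ ϑ * Λ
  uA : n ^ 3 * Λ * ∑ α, D.resK (D.FA (D.oo 3)) α ^ 2 ≤ D₀
  uB : n ^ 4 * Λ * ∑ α, D.resK (D.FB (D.oo 1) (D.oo 3)) α ^ 2 ≤ D₀
  l1 : n ^ 4 * ∑ a, D.F3 ![a, D.o, D.o] (D.oo 3) ^ 2 ≤ ϑ * Λ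
  b0 : n ^ 2 * |2 * D.F3 (D.oo 3) (D.oo 3) - ‖D.y3 (D.oo 3)‖ ^ 2 - D.GA (D.oo 3) (D.oo 3)| ≤ ϑ * Λ

theorem ARough_fiber (o : I) (i : ι) (f : (ι → I) → ℝ) :
    ∑ α, f α = ∑ α ∈ univ.filter (fun α : ι → I => α i = o), ∑ a, f (Function.update α i a) := by
  rw [sum_comm, ← sum_fiberwise (s := univ) (g := fun α : ι → I => α i)]
  refine sum_congr rfl fun a _ => ?_
  refine sum_nbij' (fun α => Function.update α i o) (fun α => Function.update α i a)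
    (by simp) (by simp) ?_ ?_ ?_
  · intro α hα
    have : α i = a := by simpa using hα
    simp [← this]
  · intro α hα
    have : α i = o := by simpa using hα
    simp [← this]
  · intro α hα
    have : α i = a := by simpa using hα
    simp [← this]

theorem ARough_quad {w : I → I → ℝ} (hs : ∀ a b, w a b = w b a)
    (h0 : ∀ c : I → ℝ, 0 ≤ ∑ a, ∑ b, w a b * c a * c b) {δ : ℝ} (hδ : 0 < δ) (c e : I → ℝ) :
    ∑ a, ∑ b, w a b * c a * c b ≤ (1 + δ) * ∑ a, ∑ b, w a b * (c a - e a) * (c b - e b) +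
      (1 + 1 / δ) * ∑ a, ∑ b, w a b * e a * e b := by
  have h1 := h0 (fun a => δ * (c a - e a) - e a)
  have h2 : ∑ a, ∑ b, w a b * c a * e b = ∑ a, ∑ b, w a b * e a * c b := by
    rw [sum_comm]
    refine sum_congr rfl fun a _ => sum_congr rfl fun b _ => ?_
    rw [hs]
    ring
  have h3 : ∑ a, ∑ b, w a b * (c a - e a) * (c b - e b) = ∑ a, ∑ b, w a b * c a * c b -
      ∑ a, ∑ b, w a b * c a * e b - ∑ a, ∑ b, w a b * e a * c b +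
      ∑ a, ∑ b, w a b * e a * e b := by
    simp only [← sum_sub_distrib, ← sum_add_distrib]
    refine sum_congr rfl fun a _ => sum_congr rfl fun b _ => ?_
    ring
  have h4 : ∑ a, ∑ b, w a b * (δ * (c a - e a) - e a) * (δ * (c b - e b) - e b) =
      δ ^ 2 * ∑ a, ∑ b, w a b * c a * c b - δ * (δ + 1) * ∑ a, ∑ b, w a b * c a * e b -
      δ * (δ + 1) * ∑ a, ∑ b, w a b * e a * c b + (δ + 1) ^ 2 * ∑ a, ∑ b, w a b * e a * e b := by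
    simp only [mul_sum, ← sum_sub_distrib, ← sum_add_distrib]
    refine sum_congr rfl fun a _ => sum_congr rfl fun b _ => ?_
    ring
  rw [h4, h2] at h1
  rw [h3, h2]
  generalize ∑ a, ∑ b, w a b * c a * c b = x at *
  generalize ∑ a, ∑ b, w a b * e a * c b = y at *
  generalize ∑ a, ∑ b, w a b * e a * e b = z at *
  have h5 : (1 + δ) * (x - y - y + z) + (1 + 1 / δ) * z - x =
      (δ ^ 2 * x - δ * (δ + 1) * y - δ * (δ + 1) * y + (δ + 1) ^ 2 * z) / δ := by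
    field_simp
    ring
  have := div_nonneg h1 hδ.le
  linarith

theorem ARough_gen_perm (L : Lv I) {S : (κ ↪ ι) → (ι → I) → ℝ}
    (hS : ∀ (π : Equiv.Perm κ) ρ α, S (π.toEmbedding.trans ρ) α = S ρ α) (π : Equiv.Perm κ)
    (ρ : κ ↪ ι) (α : ι → I) : L.gen S (π.toEmbedding.trans ρ) α = L.gen S ρ α := by
  unfold Lv.gen
  have h1 : L.Hi (α ∘ (π.toEmbedding.trans ρ)) ↔ L.Hi (α ∘ ρ) :=
    ⟨fun h j => by simpa using h (π.symm j), fun h j => h (π j)⟩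
  have h2 : ∑ j, L.lam (α ((π.toEmbedding.trans ρ) j)) = ∑ j, L.lam (α (ρ j)) :=
    Equiv.sum_comp π (fun j => L.lam (α (ρ j)))
  simp only [h1, h2, hS]

theorem ARough_desc_le (m p : ℕ) {N : ℕ} (h : m ≤ N) : (m.descFactorial p : ℝ) ≤ (N : ℝ) ^ p := by
  have h1 := Nat.descFactorial_le_pow m p
  have h2 := Nat.pow_le_pow_left h p
  exact_mod_cast h1.trans h2

theorem ARough_chan_sq (L : Lv I) (p c : ℕ) {W : (ι → I) → ℝ} (hW : ∀ α, 0 ≤ W α)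
    (Ψ : (ι → I) → ℝ) :
    ∑ ρ : Fin p ↪ ι, ∑ α ∈ L.vac ρ, W α * chan ρ (L.oo c) (L.oo (p + c)) Ψ α ^ 2 ≤
      (Fintype.card ι : ℝ) ^ (p + 2 * c) * ex W Ψ := by
  have h1 : ∑ ρ : Fin p ↪ ι, ∑ α ∈ L.vac ρ, W α * chan ρ (L.oo c) (L.oo (p + c)) Ψ α ^ 2 =
      ∑ ρ : Fin p ↪ ι, ∑ α ∈ L.vac ρ,
        (W α * ((Fintype.card ι - L.npN α - p).descFactorial c : ℝ) ^ 2) * Ψ α ^ 2 := by
    refine sum_congr rfl fun ρ _ => sum_congr rfl fun α hα => ?_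
    rw [L.chan_oo ρ Ψ hα]
    ring
  rw [h1, L.sum_vac_sq]
  unfold ex
  rw [mul_sum]
  refine sum_le_sum fun α _ => ?_
  rw [← mul_assoc ((Fintype.card ι : ℝ) ^ (p + 2 * c))]
  refine mul_le_mul_of_nonneg_right ?_ (sq_nonneg _)
  have a1 := ARough_desc_le (Fintype.card ι - L.npN α) p (N := Fintype.card ι) (by omega)
  have a2 := ARough_desc_le (Fintype.card ι - L.npN α - p) c (N := Fintype.card ι) (by omega)
  have a3 := pow_le_pow_left₀ (Nat.cast_nonneg _) a2 2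
  calc _ = ((Fintype.card ι - L.npN α).descFactorial p : ℝ) *
        ((Fintype.card ι - L.npN α - p).descFactorial c : ℝ) ^ 2 * W α := by ring
    _ ≤ (Fintype.card ι : ℝ) ^ p * ((Fintype.card ι : ℝ) ^ c) ^ 2 * W α :=
        mul_le_mul_of_nonneg_right (mul_le_mul a1 a3 (sq_nonneg _) (by positivity)) (hW α)
    _ = _ := by ring

theorem ARough_sqrt_le {a b c : ℝ} (ha : 0 ≤ a) (hc : 0 ≤ c) (h : a * b ≤ c ^ 2) :
    √a * √b ≤ c := by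
  rw [← Real.sqrt_mul ha]
  exact Real.sqrt_le_iff.2 ⟨hc, h⟩

/-- the kinetic energy -/
def ARough_kin (L : Lv I) (Ψ : (ι → I) → ℝ) : ℝ := ex (fun α => ∑ i, L.lam (α i)) Ψ

/-- the number of triples in the condensate -/
def ARough_tri (L : Lv I) (Ψ : (ι → I) → ℝ) : ℝ :=
  ex (fun α => ((Fintype.card ι - L.npN α).descFactorial 3 : ℝ)) Ψ

namespace Dat.Weak

variable {D : Dat I E} {n ε Λ CL ϑ D₀ : ℝ} {xA yA xB : ℕ → ℝ}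
  (h : D.Weak n ε Λ CL ϑ D₀ xA yA xB)
include h

theorem ARough_mem (a : I) : a ∈ D.low ↔ a = D.o := by rw [h.low_eq, mem_singleton]

theorem ARough_ho : D.o ∈ D.low := (h.ARough_mem _).2 rfl

theorem ARough_hi (a : I) (ha : a ∉ D.low) : Λ ≤ D.lam a := h.hi a (mt (h.ARough_mem a).2 ha)

theorem ARough_lam (a : I) : 0 ≤ D.lam a := by
  by_cases ha : a = D.o
  · rw [ha, h.lam_o]
  · exact h.Λ_pos.le.trans (h.hi a ha)

theorem ARough_ite (a : I) : (if a ∈ D.low then 0 else D.lam a) = D.lam a := by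
  split_ifs with ha
  · rw [(h.ARough_mem a).1 ha, h.lam_o]
  · rfl

theorem ARough_lowF (c : ℕ) : D.lowF c = {D.oo c} := by
  unfold Lv.lowF
  rw [h.low_eq]
  exact Fintype.piFinset_singleton _

theorem ARough_F4t : D.F4t = fun _ _ => 0 := by
  funext α β
  simp [Dat.F4t, Dat.F4, h.y4_zero]

theorem ARough_np (α : ι → I) : D.npN α = D.nhN α := by
  unfold Lv.npN Lv.nhN
  simp only [h.ARough_mem]

theorem ARough_kh (α : ι → I) : D.kh α = ∑ i, D.lam (α i) := by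
  unfold Lv.kh
  simp only [h.ARough_ite]

theorem ARough_kin_nonneg (Ψ : (ι → I) → ℝ) : 0 ≤ ARough_kin D.toLv Ψ :=
  ex_nonneg fun _ => sum_nonneg fun _ _ => h.ARough_lam _

theorem ARough_kk (Ψ : (ι → I) → ℝ) : Λ * D.kk Ψ ≤ ARough_kin D.toLv Ψ := by
  unfold Lv.kk ARough_kin ex
  rw [mul_sum]
  refine sum_le_sum fun α _ => ?_
  rw [← mul_assoc]
  refine mul_le_mul_of_nonneg_right ?_ (sq_nonneg _)
  unfold Lv.nhN
  beta_reduce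
  rw [card_filter]
  push_cast
  rw [mul_sum]
  refine sum_le_sum fun i _ => ?_
  split_ifs with ha
  · simpa using h.ARough_lam _
  · simpa using h.ARough_hi _ ha

theorem ARough_ob (hε : 0 < ε) (Ψ : (ι → I) → ℝ) :
    ob D.w Ψ ≤ (1 - ε / 2) * D.Kc Ψ + (1 + 2 / ε) * (CL * Λ) * D.QK (fun _ => 1) Ψ := by
  unfold ob Dat.Kc Dat.QK
  rw [mul_sum, mul_sum, ← sum_add_distrib]
  refine sum_le_sum fun i _ => ?_
  rw [ARough_fiber D.o i, ARough_fiber D.o i (fun α => _ * (Ψ α - D.xi Ψ i α) ^ 2),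
    ARough_fiber D.o i (fun α => _ * D.xi Ψ i α ^ 2), mul_sum, mul_sum, ← sum_add_distrib]
  refine sum_le_sum fun α _ => ?_
  simp only [Function.update_self, Function.update_idem, h.ARough_ite, one_mul]
  have h1 := ARough_quad h.w_symm h.w_nonneg (half_pos hε) (fun a => Ψ (Function.update α i a))
    (fun a => D.xi Ψ i (Function.update α i a))
  have h2 := h.w_le (fun a => Ψ (Function.update α i a) - D.xi Ψ i (Function.update α i a))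
  have h3 := h.w_le' (fun a => D.xi Ψ i (Function.update α i a))
  have h4 : 0 ≤ ∑ a, D.lam a *
      (Ψ (Function.update α i a) - D.xi Ψ i (Function.update α i a)) ^ 2 :=
    sum_nonneg fun a _ => mul_nonneg (h.ARough_lam a) (sq_nonneg _)
  have h5 := mul_le_mul_of_nonneg_left h2 (show 0 ≤ 1 + ε / 2 by positivity)
  have h6 := mul_le_mul_of_nonneg_left h3 (show 0 ≤ 1 + 1 / (ε / 2) by positivity)
  have h7 : 1 / (ε / 2) = 2 / ε := by field_simp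
  rw [h7] at h1 h6
  have h8 := mul_nonneg (mul_pos hε hε).le h4
  nlinarith

theorem ARough_genB (Ψ : (ι → I) → ℝ) : D.gen (D.S2 Ψ) = fun (ρ : Fin 2 ↪ ι) α =>
    D.resK (D.FB (D.oo 1) (D.oo 3)) (α ∘ ρ) * chan ρ (D.oo 1) (D.oo (2 + 1)) Ψ α := by
  funext ρ α
  have h1 : D.S2 Ψ = fun (ρ : Fin 2 ↪ ι) α => D.src 2 1 D.F3 ρ Ψ α := by
    funext ρ α
    simp [Dat.S2, h.ARough_F4t, Lv.src]
  rw [h1, D.gen_src 2 1, h.ARough_lowF, h.ARough_lowF, singleton_product_singleton, sum_singleton]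
  simp only [Nat.factorial_one, Nat.cast_one, div_one, one_mul]
  rfl

theorem ARough_genA (Ψ : (ι → I) → ℝ) : D.gen (D.S3 Ψ) = fun (ρ : Fin 3 ↪ ι) α =>
    D.resK (D.FA (D.oo 3)) (α ∘ ρ) * chan ρ (D.oo 0) (D.oo (3 + 0)) Ψ α := by
  funext ρ α
  have h1 : D.S3 Ψ = fun (ρ : Fin 3 ↪ ι) α => D.src 3 0 D.F3 ρ Ψ α := by
    funext ρ α
    simp [Dat.S3, h.ARough_F4t, Lv.src]
  rw [h1, D.gen_src 3 0, h.ARough_lowF, h.ARough_lowF, singleton_product_singleton, sum_singleton]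
  simp only [Nat.factorial_zero, Nat.cast_one, div_one, one_mul]
  have h2 : (fun a : Fin 3 → I => D.F3 (Fin.append a (D.oo 0)) (D.oo (3 + 0))) =
      D.FA (D.oo 3) := by
    funext a
    unfold Dat.FA
    congr 1
    funext j
    exact Fin.append_left a (D.oo 0) j
  exact congrArg (fun F => D.resK F (α ∘ ρ) * chan ρ (D.oo 0) (D.oo (3 + 0)) Ψ α) h2

theorem ARough_xi (Ψ : (ι → I) → ℝ) (i : ι) (α : ι → I) : D.xi Ψ i α =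
    -(1 / 2) * cre (D.gen (D.S2 Ψ)) i α + -(1 / 6) * cre (D.gen (D.S3 Ψ)) i α := by
  have h1 : cre (D.gen (D.S4 Ψ)) i α = 0 := by
    simp [cre, Lv.gen, Dat.S4, h.ARough_F4t, Lv.src]
  simp [Dat.xi, Fin.sum_univ_three, Dat.xiP, h1]

theorem ARough_QK (ϖ : I → ℝ) (Ψ : (ι → I) → ℝ) : D.QK ϖ Ψ =
    (1 / 4) * offS ϖ (D.gen (D.S2 Ψ)) (D.gen (D.S2 Ψ)) +
    (1 / 6) * offS ϖ (D.gen (D.S2 Ψ)) (D.gen (D.S3 Ψ)) +
    (1 / 36) * offS ϖ (D.gen (D.S3 Ψ)) (D.gen (D.S3 Ψ)) +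
    (1 / 2) * ((∑ β : Fin 2 → I, (∑ j, ϖ (β j)) * D.resK (D.FB (D.oo 1) (D.oo 3)) β ^ 2) *
      ∑ ρ : Fin 2 ↪ ι, ∑ α ∈ D.vac ρ, 1 * chan ρ (D.oo 1) (D.oo (2 + 1)) Ψ α ^ 2) +
    (1 / 6) * ((∑ β : Fin 3 → I, (∑ j, ϖ (β j)) * D.resK (D.FA (D.oo 3)) β ^ 2) *
      ARough_tri D.toLv Ψ) := by
  have p2 : ∀ (π : Equiv.Perm (Fin 2)) (ρ : Fin 2 ↪ ι) α,
      D.S2 Ψ (π.toEmbedding.trans ρ) α = D.S2 Ψ ρ α := by
    intro π ρ α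
    unfold Dat.S2
    rw [D.src_perm 2 1 h.F3_symm, D.src_perm 2 2 D.F4t_symm]
  have p3 : ∀ (π : Equiv.Perm (Fin 3)) (ρ : Fin 3 ↪ ι) α,
      D.S3 Ψ (π.toEmbedding.trans ρ) α = D.S3 Ψ ρ α := by
    intro π ρ α
    unfold Dat.S3
    rw [D.src_perm 3 0 h.F3_symm, D.src_perm 3 1 D.F4t_symm]
  have e22 := cre_mul_eq_same ϖ (D.gen (D.S2 Ψ)) (D.gen (D.S2 Ψ)) (ARough_gen_perm D.toLv p2)
  have e33 := cre_mul_eq_same ϖ (D.gen (D.S3 Ψ)) (D.gen (D.S3 Ψ)) (ARough_gen_perm D.toLv p3)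
  have e23 := cre_mul_eq ϖ (D.gen (D.S2 Ψ)) (D.gen (D.S3 Ψ)) (by simp)
  have d2 := D.diag_eq (fun β : Fin 2 → I => (∑ j, ϖ (β j)) * D.resK (D.FB (D.oo 1) (D.oo 3)) β)
    (D.resK (D.FB (D.oo 1) (D.oo 3))) (chan_indep (D.oo 1) (D.oo (2 + 1)) Ψ)
    (chan_indep (D.oo 1) (D.oo (2 + 1)) Ψ)
  have d3 := D.diag_eq (fun β : Fin 3 → I => (∑ j, ϖ (β j)) * D.resK (D.FA (D.oo 3)) β)
    (D.resK (D.FA (D.oo 3))) (chan_indep (D.oo 0) (D.oo (3 + 0)) Ψ)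
    (chan_indep (D.oo 0) (D.oo (3 + 0)) Ψ)
  have t3 : ∑ ρ : Fin 3 ↪ ι, ∑ α ∈ D.vac ρ, chan ρ (D.oo 0) (D.oo (3 + 0)) Ψ α *
      chan ρ (D.oo 0) (D.oo (3 + 0)) Ψ α = ARough_tri D.toLv Ψ := by
    have := D.sum_vac_sq 3 (fun _ => 1) Ψ
    simp only [one_mul, mul_one] at this
    unfold ARough_tri
    rw [← this]
    refine sum_congr rfl fun ρ _ => sum_congr rfl fun α hα => ?_
    rw [D.chan_oo ρ Ψ hα]
    simp [sq]
  have f2 : ∑ ρ : Fin 2 ↪ ι, ∑ α, (∑ j, ϖ (α (ρ j))) * D.gen (D.S2 Ψ) ρ α * D.gen (D.S2 Ψ) ρ α =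
      (∑ β : Fin 2 → I, (∑ j, ϖ (β j)) * D.resK (D.FB (D.oo 1) (D.oo 3)) β ^ 2) *
      ∑ ρ : Fin 2 ↪ ι, ∑ α ∈ D.vac ρ, 1 * chan ρ (D.oo 1) (D.oo (2 + 1)) Ψ α ^ 2 := by
    simp only [sq, one_mul, ← mul_assoc]
    rw [← d2, h.ARough_genB]
    refine sum_congr rfl fun ρ _ => sum_congr rfl fun α _ => ?_
    simp only [Function.comp_apply]
    ring
  have f3 : ∑ ρ : Fin 3 ↪ ι, ∑ α, (∑ j, ϖ (α (ρ j))) * D.gen (D.S3 Ψ) ρ α * D.gen (D.S3 Ψ) ρ α =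
      (∑ β : Fin 3 → I, (∑ j, ϖ (β j)) * D.resK (D.FA (D.oo 3)) β ^ 2) * ARough_tri D.toLv Ψ := by
    simp only [sq, ← mul_assoc]
    rw [← t3, ← d3, h.ARough_genA]
    refine sum_congr rfl fun ρ _ => sum_congr rfl fun α _ => ?_
    simp only [Function.comp_apply]
    ring
  rw [f2] at e22
  rw [f3] at e33
  have e : D.QK ϖ Ψ =
      (1 / 4) * ∑ i, ∑ α, ϖ (α i) * cre (D.gen (D.S2 Ψ)) i α * cre (D.gen (D.S2 Ψ)) i α +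
      (1 / 6) * ∑ i, ∑ α, ϖ (α i) * cre (D.gen (D.S2 Ψ)) i α * cre (D.gen (D.S3 Ψ)) i α +
      (1 / 36) * ∑ i, ∑ α, ϖ (α i) * cre (D.gen (D.S3 Ψ)) i α * cre (D.gen (D.S3 Ψ)) i α := by
    unfold Dat.QK
    simp only [mul_sum, ← sum_add_distrib, h.ARough_xi]
    refine sum_congr rfl fun i _ => sum_congr rfl fun α _ => ?_
    ring
  rw [e, e22, e33, e23]
  simp only [Fintype.card_fin, Nat.factorial, Nat.succ_eq_add_one]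
  push_cast
  ring

end Dat.Weak

theorem ARough_off_real {ϑ κ₀ u1 u2 u3 u4 u5 u6 u7 n k N Kin W xA1 xB1 xB0 Λ D₀ oA oB oC : ℝ}
    (hϑ : 0 ≤ ϑ) (hκ : 0 ≤ κ₀) (a1 : 0 ≤ u1) (b1 : u1 ≤ n ^ 3 * (xA1 * k)) (a2 : 0 ≤ u2)
    (b2 : u2 ≤ n ^ 3 * W) (a3 : 0 ≤ u3) (b3 : u3 ≤ n ^ 4 * (xB1 * k)) (a4 : 0 ≤ u4)
    (b4 : u4 ≤ n ^ 3 * (xB1 * k)) (a5 : 0 ≤ u5) (b5 : u5 ≤ n ^ 4 * W) (a6 : 0 ≤ u6)
    (b6 : u6 ≤ n ^ 3 * (xB0 * N)) (a7 : 0 ≤ u7) (b7 : u7 ≤ n ^ 4 * (xA1 * k))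
    (w2 : n ^ 3 * W ≤ 3 * ϑ * Kin) (hk : 0 ≤ k) (hN : 0 ≤ N) (hK : 0 ≤ Kin)
    (hkk : ϑ * (Λ * k) ≤ ϑ * Kin) (c1 : n ^ 3 * xA1 * k ≤ ϑ * Λ * k)
    (c2 : n ^ 4 * xB1 * k ≤ ϑ * Λ * k) (c3 : n ^ 4 * xB0 * N ≤ D₀ * N) (hn : 0 ≤ n)
    (x1 : 0 ≤ xA1) (x2 : 0 ≤ xB1) (x3 : 0 ≤ xB0) (hD : 0 ≤ D₀)
    (oAA : |oA| ≤ κ₀ * 2 ^ 14 * (√u2 * √u2 + (√u1 * √u1 + 0)))
    (oBB : |oB| ≤ κ₀ * 2 ^ 14 * (√u3 * √u3 + 0))
    (oBA : |oC| ≤ κ₀ * 2 ^ 14 * (√u4 * √u5 + √u6 * √u7)) :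
    1 / 4 * oB + 1 / 6 * oC + 1 / 36 * oA ≤ κ₀ * 2 ^ 14 * (2 * ϑ * Kin + D₀ * N) := by
  rw [Real.mul_self_sqrt a1, Real.mul_self_sqrt a2] at oAA
  rw [Real.mul_self_sqrt a3] at oBB
  have hT : 0 ≤ ϑ * Kin := mul_nonneg hϑ hK
  have hDN : 0 ≤ D₀ * N := mul_nonneg hD hN
  have hW : 0 ≤ n ^ 3 * W := a2.trans b2
  have e1 : n ^ 3 * (xA1 * k) ≤ ϑ * Kin := by linarith
  have e2 : n ^ 4 * (xB1 * k) ≤ ϑ * Kin := by linarith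
  have s1 : √u4 * √u5 ≤ 3 * (ϑ * Kin) := by
    refine ARough_sqrt_le a4 (by positivity) ((mul_le_mul b4 b5 a5 (by positivity)).trans ?_)
    calc _ = n ^ 4 * (xB1 * k) * (n ^ 3 * W) := by ring
      _ ≤ ϑ * Kin * (3 * ϑ * Kin) := mul_le_mul e2 w2 hW hT
      _ ≤ _ := by linarith [mul_nonneg hT hT]
  have s2 : √u6 * √u7 ≤ D₀ * N + ϑ * Kin := by
    refine ARough_sqrt_le a6 (by positivity) ((mul_le_mul b6 b7 a7 (by positivity)).trans ?_)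
    calc _ = n ^ 4 * xB0 * N * (n ^ 3 * (xA1 * k)) := by ring
      _ ≤ D₀ * N * (ϑ * Kin) := mul_le_mul c3 e1 (by positivity) hDN
      _ ≤ _ := by linarith [mul_nonneg hT hT, mul_nonneg hDN hDN, mul_nonneg hDN hT]
  have hc : 0 ≤ κ₀ * 2 ^ 14 := by positivity
  have f1 := mul_le_mul_of_nonneg_left (show u2 + (u1 + 0) ≤ 4 * (ϑ * Kin) by linarith) hc
  have f2 := mul_le_mul_of_nonneg_left (show u3 + 0 ≤ ϑ * Kin by linarith) hc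
  have f3 := mul_le_mul_of_nonneg_left (add_le_add s1 s2) hc
  have g1 := mul_nonneg hc hT
  have g2 := mul_nonneg hc hDN
  linarith [le_abs_self oA, le_abs_self oB, le_abs_self oC]

theorem ARough_ex_add (a b : ℝ) (W W' Ψ : (ι → I) → ℝ) :
    ex (fun α => a * W α + b * W' α) Ψ = a * ex W Ψ + b * ex W' Ψ := by
  unfold ex
  simp only [mul_sum, ← sum_add_distrib]
  exact sum_congr rfl fun α _ => by ring

theorem ARough_ex_one (Ψ : (ι → I) → ℝ) : ex (fun _ => 1) Ψ = nsq Ψ := by simp [ex, nsq]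

namespace Dat.Weak

variable {D : Dat I E} {ε Λ CL ϑ D₀ : ℝ} {xA yA xB : ℕ → ℝ}
  (h : D.Weak (Fintype.card ι) ε Λ CL ϑ D₀ xA yA xB)
include h

theorem ARough_AA {x y : ℕ → ℝ} (hx : ∀ r, 0 ≤ x r) (hy : ∀ r, 0 ≤ y r) (r p c : ℕ)
    (Ψ : (ι → I) → ℝ) :
    0 ≤ D.AA x y r (fun (ρ : Fin p ↪ ι) α => chan ρ (D.oo c) (D.oo (p + c)) Ψ α) ∧
    D.AA x y r (fun (ρ : Fin p ↪ ι) α => chan ρ (D.oo c) (D.oo (p + c)) Ψ α) ≤
      (Fintype.card ι : ℝ) ^ (p + 2 * c) * ex (D.Wr x y r) Ψ := by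
  have hW : ∀ α : ι → I, 0 ≤ D.Wr x y r α := fun α => by
    have h1 : 0 ≤ D.kh α := by
      rw [h.ARough_kh]
      exact sum_nonneg fun _ _ => h.ARough_lam _
    have := hx r
    have := hy r
    unfold Lv.Wr
    positivity
  exact ⟨sum_nonneg fun _ _ => sum_nonneg fun α _ => mul_nonneg (hW α) (sq_nonneg _),
    ARough_chan_sq D.toLv p c hW Ψ⟩

theorem ARough_W0 (Ψ : (ι → I) → ℝ) : ex (D.Wr xB (fun _ => 0) 0) Ψ = xB 0 * nsq Ψ := by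
  simp [ex, nsq, Lv.Wr, mul_sum]

theorem ARough_W1 {x y : ℕ → ℝ} (hy : y 1 = 0) (Ψ : (ι → I) → ℝ) :
    ex (D.Wr x y 1) Ψ = x 1 * D.kk Ψ := by
  simp [ex, Lv.kk, Lv.Wr, hy, mul_sum, mul_assoc]

theorem ARough_W2 (hϑ : 0 ≤ ϑ) (Ψ : (ι → I) → ℝ) :
    (Fintype.card ι : ℝ) ^ 3 * ex (D.Wr xA yA 2) Ψ ≤ 3 * ϑ * ARough_kin D.toLv Ψ := by
  have h1 : ex (D.Wr xA yA 2) Ψ ≤ ex (fun α => xA 2 * Fintype.card ι * (D.nhN α : ℝ) +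
      2 * yA 2 * Fintype.card ι * ∑ i, D.lam (α i)) Ψ := by
    refine ex_mono fun α _ => ?_
    have a1 : (D.nhN α : ℝ) ≤ Fintype.card ι := by
      rw [← h.ARough_np]
      exact_mod_cast D.npN_le α
    have a2 : 0 ≤ ∑ i, D.lam (α i) := sum_nonneg fun _ _ => h.ARough_lam _
    have a3 := mul_le_mul_of_nonneg_right a1
      (mul_nonneg (h.xA_nonneg 2) (Nat.cast_nonneg (D.nhN α)))
    have a4 := mul_le_mul_of_nonneg_right a1 (mul_nonneg (h.yA_nonneg 2) a2)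
    unfold Lv.Wr
    rw [h.ARough_kh]
    push_cast
    nlinarith
  rw [ARough_ex_add] at h1
  have h2 := mul_le_mul_of_nonneg_left h1 (show (0 : ℝ) ≤ (Fintype.card ι : ℝ) ^ 3 by positivity)
  have h3 := mul_le_mul_of_nonneg_right h.A2 (Lv.kk_nonneg (L := D.toLv) (Ψ := Ψ))
  have h4 := mul_le_mul_of_nonneg_right h.A2' (h.ARough_kin_nonneg Ψ)
  have h5 := mul_le_mul_of_nonneg_left (h.ARough_kk Ψ) hϑ
  unfold Lv.kk at h3 h5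
  unfold ARough_kin at h4 h5 ⊢
  nlinarith

theorem ARough_off (hϑ : 0 ≤ ϑ) {ϖ : I → ℝ} (hϖ : ∀ a, 0 ≤ ϖ a) {κ₀ : ℝ} (hκ : 0 ≤ κ₀)
    (hϖ' : ∀ a, a ∉ D.low → ϖ a ≤ κ₀ * D.lam a) (Ψ : (ι → I) → ℝ) :
    (1 / 4) * offS ϖ (D.gen (D.S2 Ψ)) (D.gen (D.S2 Ψ)) +
    (1 / 6) * offS ϖ (D.gen (D.S2 Ψ)) (D.gen (D.S3 Ψ)) +
    (1 / 36) * offS ϖ (D.gen (D.S3 Ψ)) (D.gen (D.S3 Ψ)) ≤
      κ₀ * 2 ^ 14 * (2 * ϑ * ARough_kin D.toLv Ψ + D₀ * nsq Ψ) := by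
  rw [h.ARough_genA, h.ARough_genB]
  have zA : ∀ α, ¬ D.Hi α → D.resK (D.FA (D.oo 3)) α = 0 := fun α hα => if_neg hα
  have zB : ∀ α, ¬ D.Hi α → D.resK (D.FB (D.oo 1) (D.oo 3)) α = 0 := fun α hα => if_neg hα
  have iA := chan_indep (ι := ι) (D.oo 0) (D.oo (3 + 0)) Ψ
  have iB := chan_indep (ι := ι) (D.oo 1) (D.oo (2 + 1)) Ψ
  have z0 : ∀ r : ℕ, (0 : ℝ) ≤ (fun _ => 0) r := fun _ => le_rfl
  have oAA := D.off_bound_fam h.ARough_ho h.ARough_lam (by norm_num) (by norm_num) hϖ hκ hϖ' zA zA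
    h.xA_nonneg h.yA_nonneg h.xA_nonneg h.yA_nonneg h.fA h.fA iA iA
  have oBB := D.off_bound_fam h.ARough_ho h.ARough_lam (by norm_num) (by norm_num) hϖ hκ hϖ' zB zB
    h.xB_nonneg z0 h.xB_nonneg z0 h.fB h.fB iB iB
  have oBA := D.off_bound_fam h.ARough_ho h.ARough_lam (by norm_num) (by norm_num) hϖ hκ hϖ' zB zA
    h.xB_nonneg z0 h.xA_nonneg h.yA_nonneg h.fB h.fA iB iA
  have I3 : Icc 1 (min 3 3) = {1, 2, 3} := by decide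
  have I2 : Icc 1 (min 2 2) = {1, 2} := by decide
  have I2' : Icc 1 (min 2 3) = {1, 2} := by decide
  rw [I3] at oAA
  rw [I2] at oBB
  rw [I2'] at oBA
  obtain ⟨a1, b1⟩ := h.ARough_AA h.xA_nonneg h.yA_nonneg 1 3 0 Ψ
  obtain ⟨a2, b2⟩ := h.ARough_AA h.xA_nonneg h.yA_nonneg 2 3 0 Ψ
  obtain ⟨a3, b3⟩ := h.ARough_AA h.xB_nonneg z0 1 2 1 Ψ
  obtain ⟨a4, b4⟩ := h.ARough_AA h.xB_nonneg z0 1 3 0 Ψ
  obtain ⟨a5, b5⟩ := h.ARough_AA h.xA_nonneg h.yA_nonneg 2 2 1 Ψ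
  obtain ⟨a6, b6⟩ := h.ARough_AA h.xB_nonneg z0 0 3 0 Ψ
  obtain ⟨a7, b7⟩ := h.ARough_AA h.xA_nonneg h.yA_nonneg 1 2 1 Ψ
  rw [h.ARough_W1 h.yA1] at b1 b7
  rw [h.ARough_W1 rfl] at b3 b4
  rw [h.ARough_W0] at b6
  have w2 := h.ARough_W2 hϑ Ψ
  have hk := Lv.kk_nonneg (L := D.toLv) (Ψ := Ψ)
  have hN := nsq_nonneg Ψ
  have hK := h.ARough_kin_nonneg Ψ
  have hkk := mul_le_mul_of_nonneg_left (h.ARough_kk Ψ) hϑ
  have c1 := mul_le_mul_of_nonneg_right h.A1 hk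
  have c2 := mul_le_mul_of_nonneg_right h.B1 hk
  have c3 := mul_le_mul_of_nonneg_right h.B0 hN
  have hn : (0 : ℝ) ≤ Fintype.card ι := Nat.cast_nonneg _
  have x1 := h.xA_nonneg 1
  have x2 := h.xB_nonneg 1
  have x3 := h.xB_nonneg 0
  have hD := h.D₀_nonneg
  rw [sum_insert (by decide), sum_insert (by decide), sum_singleton, if_neg (by decide),
    if_neg (by decide), if_pos (by decide)] at oAA
  rw [sum_insert (by decide), sum_singleton, if_neg (by decide), if_pos (by decide)] at oBB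
  rw [sum_insert (by decide), sum_singleton, if_neg (by decide), if_neg (by decide)] at oBA
  exact ARough_off_real hϑ hκ a1 b1 a2 b2 a3 b3 a4 b4 a5 b5 a6 b6 a7 b7 w2 hk hN hK hkk c1 c2 c3
    hn x1 x2 x3 hD oAA oBB oBA

theorem ARough_tri_le (Ψ : (ι → I) → ℝ) : 0 ≤ ARough_tri D.toLv Ψ ∧
    ARough_tri D.toLv Ψ ≤ (Fintype.card ι : ℝ) ^ 3 * nsq Ψ ∧
    |ARough_tri D.toLv Ψ - (Fintype.card ι : ℝ) ^ 3 * nsq Ψ| ≤
      3 * (Fintype.card ι : ℝ) ^ 2 * (D.kk Ψ + 3 * nsq Ψ) := by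
  refine ⟨ex_nonneg fun _ => Nat.cast_nonneg _, ?_, ?_⟩
  · unfold ARough_tri ex nsq
    rw [mul_sum]
    exact sum_le_sum fun α _ => mul_le_mul_of_nonneg_right (ARough_desc_le _ 3 (by omega))
      (sq_nonneg _)
  · unfold ARough_tri Lv.kk ex nsq
    simp only [mul_sum, ← sum_sub_distrib, ← sum_add_distrib]
    refine (abs_sum_le_sum_abs _ _).trans (sum_le_sum fun α _ => ?_)
    have := Lv.desc_approx (Fintype.card ι) (D.npN α) 3 0 0 (D.npN_le α)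
    simp only [Nat.descFactorial_zero, Nat.cast_one, mul_one, Nat.add_zero, Nat.reduceSub,
      Nat.cast_ofNat] at this
    rw [← sub_mul, abs_mul, abs_of_nonneg (sq_nonneg (Ψ α)), ← h.ARough_np]
    have h2 := mul_le_mul_of_nonneg_right this (sq_nonneg (Ψ α))
    linarith

theorem ARough_Lin0 (Ψ : (ι → I) → ℝ) :
    D.Lin0 Ψ = (1 / 3) * D.F3 (D.oo 3) (D.oo 3) * ARough_tri D.toLv Ψ := by
  have h1 : D.LinF 0 4 D.F4t Ψ = 0 := by simp [Lv.LinF, Lv.src, h.ARough_F4t]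
  unfold Dat.Lin0
  rw [h1, add_zero]
  unfold Lv.LinF Lv.src ARough_tri ex
  rw [Fintype.sum_unique, mul_sum, mul_sum]
  refine sum_congr rfl fun α _ => ?_
  have h2 : Fin.append (α ∘ (default : Fin 0 ↪ ι)) (D.oo 3) = D.oo (0 + 3) := by
    funext j
    fin_cases j <;> rfl
  have h3 : D.Hi (α ∘ (default : Fin 0 ↪ ι)) := fun j => j.elim0
  have h4 : chan (default : Fin 0 ↪ ι) (D.oo 3) (D.oo 3) Ψ α = _ :=
    D.chan_oo (c := 3) (default : Fin 0 ↪ ι) Ψ ((D.mem_vac).2 fun j => j.elim0)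
  rw [if_pos h3, h.ARough_lowF, sum_singleton, sum_singleton, h4, h2]
  simp only [Nat.factorial, Nat.succ_eq_add_one, Nat.sub_zero]
  push_cast
  ring

theorem ARough_QV (Ψ : (ι → I) → ℝ) :
    D.QV Ψ = (1 / 6) * ‖D.y3 (D.oo 3)‖ ^ 2 * ARough_tri D.toLv Ψ := by
  have := D.sum_vac_sq 3 (fun _ => 1) Ψ
  simp only [one_mul, mul_one] at this
  unfold Dat.QV ARough_tri
  rw [← this, mul_assoc]
  congr 1
  simp only [mul_sum]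
  refine sum_congr rfl fun σ _ => sum_congr rfl fun α hα => ?_
  have h1 : put σ (D.oo 3) α = α := by
    have : D.oo 3 = α ∘ σ := funext fun j => ((D.mem_vac).1 hα j).symm
    rw [this, put_self]
  simp only [Dat.Yv, h.y4_zero, smul_zero, ite_self, sum_const_zero, add_zero, h.ARough_lowF,
    sum_singleton, h1, norm_smul, mul_pow, Real.norm_eq_abs, sq_abs]
  ring

theorem ARough_Lin1 {t : ℝ} (ht : 0 < t) (Ψ : (ι → I) → ℝ) :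
    -(t * D.kk Ψ + Fintype.card ι * (ϑ * Λ) * nsq Ψ / t) ≤ D.Lin1 Ψ := by
  have h1 : D.LinF 1 3 D.F4t Ψ = 0 := by simp [Lv.LinF, Lv.src, h.ARough_F4t]
  have h2 : ∀ β : Fin 1 → I, Fin.append β (D.oo 2) = ![β 0, D.o, D.o] := by
    intro β
    funext j
    fin_cases j <;> rfl
  have h3 : ∑ ρ : Fin 1 ↪ ι, ∑ α, (if D.Hi (α ∘ ρ) then Ψ α ^ 2 else 0) = D.kk Ψ := by
    rw [Lv.kk_eq_sum]
    refine Fintype.sum_equiv Function.Embedding.oneEmbeddingEquiv _ _ fun ρ => ?_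
    refine sum_congr rfl fun α _ => ?_
    have : D.Hi (α ∘ ρ) ↔ α (ρ 0) ∉ D.low := by simp [Lv.Hi]
    simp only [this, ite_not]
    rfl
  have h4 := D.diag_eq (fun β : Fin 1 → I => D.F3 ![β 0, D.o, D.o] (D.oo 3))
    (fun β : Fin 1 → I => D.F3 ![β 0, D.o, D.o] (D.oo 3))
    (chan_indep (ι := ι) (D.oo 2) (D.oo (1 + 2)) Ψ) (chan_indep (D.oo 2) (D.oo (1 + 2)) Ψ)
  have h5 : ∑ β : Fin 1 → I, D.F3 ![β 0, D.o, D.o] (D.oo 3) * D.F3 ![β 0, D.o, D.o] (D.oo 3) =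
      ∑ a, D.F3 ![a, D.o, D.o] (D.oo 3) ^ 2 :=
    Fintype.sum_equiv (Equiv.funUnique (Fin 1) I) _ _ fun β => by rw [sq]; rfl
  have h6 := ARough_chan_sq D.toLv 1 2 (W := fun _ => 1) (fun _ => zero_le_one) Ψ
  rw [ARough_ex_one] at h6
  simp only [one_mul, sq] at h6
  have h7 := mul_le_mul_of_nonneg_left h6
    (sum_nonneg (s := univ) fun a _ => sq_nonneg (D.F3 ![a, D.o, D.o] (D.oo 3)))
  rw [h5] at h4
  rw [← h4] at h7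
  have h8 := mul_le_mul_of_nonneg_right h.l1
    (mul_nonneg (Nat.cast_nonneg (Fintype.card ι)) (nsq_nonneg Ψ))
  have h9 := div_le_div_of_nonneg_right (h7.trans (show _ ≤
    Fintype.card ι * (ϑ * Λ) * nsq Ψ by norm_num; linarith)) ht.le
  unfold Dat.Lin1
  rw [h1, add_zero, ← h3]
  refine (neg_le_neg (add_le_add_right h9 _)).trans ?_
  unfold Lv.LinF Lv.src
  simp only [mul_sum, sum_div, ← sum_add_distrib, ← sum_neg_distrib]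
  refine sum_le_sum fun ρ _ => sum_le_sum fun α _ => ?_
  rw [h.ARough_lowF, h.ARough_lowF, sum_singleton, sum_singleton, h2]
  generalize chan ρ (D.oo 2) (D.oo (1 + 2)) Ψ α = X
  have h10 : D.F3 ![(α ∘ ρ) 0, D.o, D.o] (D.oo (1 + 2)) = D.F3 ![(α ∘ ρ) 0, D.o, D.o] (D.oo 3) :=
    rfl
  rw [h10]
  generalize D.F3 ![(α ∘ ρ) 0, D.o, D.o] (D.oo 3) = f
  have h11 : 0 ≤ f * X * (f * X) / t := div_nonneg (mul_self_nonneg _) ht.le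
  split_ifs
  · have h12 : 0 ≤ (t * Ψ α + f * X) ^ 2 / t := div_nonneg (sq_nonneg _) ht.le
    have h13 : (t * Ψ α + f * X) ^ 2 / t =
        t * Ψ α ^ 2 + 2 * (Ψ α * (f * X)) + f * X * (f * X) / t := by
      field_simp
      ring
    have h14 := mul_nonneg ht.le (sq_nonneg (Ψ α))
    norm_num [Nat.factorial]
    linarith
  · simp only [mul_zero]
    linarith

theorem ARough_GA : ∑ β : Fin 3 → I, (∑ j, D.lam (β j)) * D.resK (D.FA (D.oo 3)) β ^ 2 =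
    D.GA (D.oo 3) (D.oo 3) := by
  refine sum_congr rfl fun β _ => ?_
  unfold Lv.resK
  split_ifs with hβ
  · have : 0 < ∑ j, D.lam (β j) :=
      sum_pos (fun j _ => h.Λ_pos.trans_le (h.ARough_hi _ (hβ j))) univ_nonempty
    field_simp
  · simp

end Dat.Weak

theorem ARough_real {ε η CL c ϑ Λ D₀ n CB Kin Tri k N gB Q1 Ql L0 L1 QV F Y GA V TL Kc Vc Ob
    O1 O2 SA SB xB0 : ℝ} (hε : 0 < ε) (hε1 : ε ≤ 1) (hη : 0 < η) (hc : (1 + 2 / ε) * CL = c)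
    (hc0 : 0 ≤ c) (hϑM : ϑ * (2 + 1 / η + 2 ^ 15 * (1 + c)) = ε / 2) (hϑ : 0 < ϑ) (hΛ : 0 < Λ)
    (id : Kin - 0 + 1 / 6 * V = TL + Kc + Vc + L0 + L1 - Ql - QV - 0) (hTL : 0 ≤ TL)
    (hVc : 0 ≤ Vc) (hV : 0 ≤ V) (hob : Ob ≤ (1 - ε / 2) * Kc + (1 + 2 / ε) * (CL * Λ) * Q1)
    (q1 : Ql = O1 + 1 / 2 * (gB * CB) + 1 / 6 * (GA * Tri))
    (q2 : Q1 = O2 + 1 / 2 * (2 * SB * CB) + 1 / 6 * (3 * SA * Tri))
    (o1 : O1 ≤ 1 * 2 ^ 14 * (2 * ϑ * Kin + D₀ * N))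
    (o2 : O2 ≤ 1 / Λ * 2 ^ 14 * (2 * ϑ * Kin + D₀ * N)) (t1 : Tri ≤ n ^ 3 * N)
    (t2 : |Tri - n ^ 3 * N| ≤ 3 * n ^ 2 * (k + 3 * N)) (l0 : L0 = 1 / 3 * F * Tri)
    (l1 : -(ϑ * Λ / η * k + n * (ϑ * Λ) * N / (ϑ * Λ / η)) ≤ L1) (qv : QV = 1 / 6 * Y * Tri)
    (cB : CB ≤ n ^ 4 * N) (cB0 : 0 ≤ CB) (hsB : gB ≤ 2 * xB0) (hk : 0 ≤ k) (hN : 0 ≤ N)
    (hK : 0 ≤ Kin) (hkk : ϑ * (Λ * k) ≤ ϑ * Kin) (uA : n ^ 3 * Λ * SA ≤ D₀)
    (uB : n ^ 4 * Λ * SB ≤ D₀) (B0 : n ^ 4 * xB0 ≤ D₀) (b0 : n ^ 2 * |2 * F - Y - GA| ≤ ϑ * Λ)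
    (hD : 0 ≤ D₀) (x0 : 0 ≤ xB0) (sA : 0 ≤ SA) (sB : 0 ≤ SB) (hn : 0 ≤ n) :
    ((1 - ε / 2) * (2 * F - Y - GA) * n ^ 3 / 6 - η * n - (2 + 2 ^ 14) * (1 + c) * (D₀ + Λ)) * N ≤
      Kin - Ob + 1 / 6 * V := by
  have hϑ1 : ϑ ≤ 1 := by
    have : 0 ≤ ϑ * (1 / η + 2 ^ 15 * (1 + c)) := by positivity
    linarith
  have hDN : 0 ≤ D₀ * N := mul_nonneg hD hN
  have hT : 0 ≤ ϑ * Kin := mul_nonneg hϑ.le hK
  have hΛN : 0 ≤ Λ * N := mul_nonneg hΛ.le hN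
  have d1 : gB * CB ≤
      2 * (D₀ * N) := by
    have := mul_le_mul hsB cB cB0 (by positivity)
    have := mul_le_mul_of_nonneg_right B0 hN
    linarith
  have d2 : Λ * Q1 ≤ 2 * (D₀ * N) + 2 ^ 14 * (2 * ϑ * Kin + D₀ * N) := by
    have a1 := mul_le_mul_of_nonneg_left o2 hΛ.le
    have a2 : Λ * (1 / Λ * 2 ^ 14 * (2 * ϑ * Kin + D₀ * N)) =
        2 ^ 14 * (2 * ϑ * Kin + D₀ * N) := by field_simp
    have a3 := mul_le_mul_of_nonneg_left cB (mul_nonneg hΛ.le sB)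
    have a4 := mul_le_mul_of_nonneg_left t1 (mul_nonneg hΛ.le sA)
    have a5 := mul_le_mul_of_nonneg_right uA hN
    have a6 := mul_le_mul_of_nonneg_right uB hN
    rw [q2]
    linarith
  have d3 : -(ϑ * Kin / η + η * n * N) ≤ L1 := by
    have a1 : n * (ϑ * Λ) * N / (ϑ * Λ / η) = η * n * N := by field_simp
    have a2 := div_le_div_of_nonneg_right hkk hη.le
    have a3 : ϑ * Λ / η * k = ϑ * (Λ * k) / η := by ring
    linarith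
  generalize hB : 2 * F - Y - GA = B
    at b0 ⊢
  have d4 : B * n ^ 3 * N - 3 * (ϑ * Kin) - 9 * (Λ * N) ≤ B * Tri := by
    have a1 : |B * (Tri - n ^ 3 * N)| ≤ |B| * (3 * n ^ 2 * (k + 3 * N)) := by
      rw [abs_mul]
      exact mul_le_mul_of_nonneg_left t2 (abs_nonneg _)
    have a2 := mul_le_mul_of_nonneg_right b0 (show 0 ≤ k + 3 * N by positivity)
    have a3 := neg_abs_le (B * (Tri - n ^ 3 * N))
    have a4 := mul_le_mul_of_nonneg_right hϑ1 hΛN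
    linarith
  have d5 : B * n ^ 3 * N / 6 - (ϑ * Kin * (1 + 1 / η + 2 ^ 15) + η * n * N + 2 * (Λ * N) +
      (1 + 2 ^ 14) * (D₀ * N)) ≤ L0 + L1 - Ql - QV := by
    have a1 : ϑ * Kin / η = ϑ * Kin * (1 / η) := by ring
    rw [l0, qv, q1]
    rw [← hB] at d4 ⊢
    linarith
  have d6 := mul_le_mul_of_nonneg_left d5 (show 0 ≤ 1 - ε / 2 by linarith)
  have d7 : 0 ≤ ε / 2 * (ϑ * Kin * (1 + 1 / η + 2 ^ 15) + η * n * N + 2 * (Λ * N) +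
      (1 + 2 ^ 14) * (D₀ * N)) := by positivity
  have d8 := mul_le_mul_of_nonneg_left d2 hc0
  have d9 : (1 + 2 / ε) * (CL * Λ) * Q1 = c * (Λ * Q1) := by
    rw [← hc]
    ring
  have d10 := mul_nonneg (show 0 ≤ 1 - ε / 2 by linarith) (add_nonneg hTL hVc)
  have d11 := mul_nonneg hε.le hV
  have d12 : (1 - ε / 2) * (Kin - 0 + 1 / 6 * V) = (1 - ε / 2) *
      (TL + Kc + Vc + L0 + L1 - Ql - QV - 0) := by rw [id]
  have d13 : ϑ * (2 + 1 / η + 2 ^ 15 * (1 + c)) * Kin = ε / 2 * Kin := by rw [hϑM]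
  have d14 := mul_nonneg hc0 hΛN
  linarith

theorem rough_alg (ε η CL : ℝ) (hε : 0 < ε) (hε1 : ε ≤ 1) (hη : 0 < η) (hCL : 0 ≤ CL) :
    ∃ ϑ K : ℝ, 0 < ϑ ∧ 0 ≤ K ∧ ∀ {I ι E : Type} [Fintype I] [DecidableEq I] [Fintype ι] [DecidableEq ι]
      [NormedAddCommGroup E] [InnerProductSpace ℝ E] (D : Dat I E)
      (Λ D₀ : ℝ) (xA yA xB : ℕ → ℝ), D.Weak (Fintype.card ι) ε Λ CL ϑ D₀ xA yA xB →
      ∀ Ψ : (ι → I) → ℝ,
        ((1 - ε / 2) * (2 * D.F3 (D.oo 3) (D.oo 3) - ‖D.y3 (D.oo 3)‖ ^ 2 -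
            D.GA (D.oo 3) (D.oo 3)) * (Fintype.card ι : ℝ) ^ 3 / 6 -
          η * Fintype.card ι - K * (D₀ + Λ)) * nsq Ψ ≤ D.H Ψ := by
  have hc0 : 0 ≤ (1 + 2 / ε) * CL := by positivity
  generalize hc : (1 + 2 / ε) * CL = c at hc0
  have hM : 0 < 2 + 1 / η + 2 ^ 15 * (1 + c) := by positivity
  refine ⟨ε / 2 / (2 + 1 / η + 2 ^ 15 * (1 + c)), (2 + 2 ^ 14) * (1 + c), by positivity,
    by positivity, ?_⟩
  intro I ι E _ _ _ _ _ _ D Λ D₀ xA yA xB h Ψ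
  have hϑM : ε / 2 / (2 + 1 / η + 2 ^ 15 * (1 + c)) * (2 + 1 / η + 2 ^ 15 * (1 + c)) = ε / 2 := by
    field_simp
  have hϑ : 0 < ε / 2 / (2 + 1 / η + 2 ^ 15 * (1 + c)) := by positivity
  generalize ε / 2 / (2 + 1 / η + 2 ^ 15 * (1 + c)) = ϑ at *
  have hΛ := h.Λ_pos
  have id := D.identity h.ARough_ho (fun a ha => hΛ.trans_le (h.ARough_hi a ha)) h.F3_symm
    (fun _ _ => 0) Ψ
  have ob0 : ob (fun _ _ : I => (0 : ℝ)) Ψ = 0 := by simp [ob]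
  have hTL : 0 ≤ D.TL Ψ := ex_nonneg fun α => sum_nonneg fun i _ => by
    split_ifs
    · exact h.ARough_lam _
    · exact le_rfl
  have hVc := D.Vc_nonneg Ψ
  have hV : 0 ≤ ∑ σ : Fin 3 ↪ ι, D.Vs D.υ σ Ψ :=
    sum_nonneg fun _ _ => sum_nonneg fun _ _ => sq_nonneg _
  have hob := h.ARough_ob hε Ψ
  have q1 := h.ARough_QK D.lam Ψ
  have q2 := h.ARough_QK (fun _ => 1) Ψ
  have o1 := h.ARough_off hϑ.le h.ARough_lam zero_le_one (fun a _ => by simp) Ψ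
  have o2 := h.ARough_off hϑ.le (ϖ := fun _ => 1) (fun _ => zero_le_one) (κ₀ := 1 / Λ)
    (by positivity) (fun a ha => by
      rw [one_div, ← div_eq_inv_mul, le_div_iff₀ hΛ, one_mul]
      exact h.ARough_hi a ha) Ψ
  obtain ⟨t0, t1, t2⟩ := h.ARough_tri_le Ψ
  have l0 := h.ARough_Lin0 Ψ
  have l1 := h.ARough_Lin1 (t := ϑ * Λ / η) (by positivity) Ψ
  have qv := h.ARough_QV Ψ
  have cB := ARough_chan_sq D.toLv 2 1 (W := fun _ => 1) (fun _ => zero_le_one) Ψ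
  have cB0 : 0 ≤ ∑ ρ : Fin 2 ↪ ι, ∑ α ∈ D.vac ρ, 1 * chan ρ (D.oo 1) (D.oo (2 + 1)) Ψ α ^ 2 :=
    sum_nonneg fun _ _ => sum_nonneg fun _ _ => by positivity
  have hsB := h.fB.hs h.ARough_lam (h.xB_nonneg 0)
  rw [h.ARough_GA] at q1
  rw [ARough_ex_one] at cB
  have hk := Lv.kk_nonneg (L := D.toLv) (Ψ := Ψ)
  have hN := nsq_nonneg Ψ
  have hK := h.ARough_kin_nonneg Ψ
  have hkk := mul_le_mul_of_nonneg_left (h.ARough_kk Ψ) hϑ.le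
  have sA : 0 ≤ ∑ α, D.resK (D.FA (D.oo 3)) α ^ 2 := sum_nonneg fun _ _ => sq_nonneg _
  have sB : 0 ≤ ∑ α, D.resK (D.FB (D.oo 1) (D.oo 3)) α ^ 2 := sum_nonneg fun _ _ => sq_nonneg _
  simp only [sum_const, card_univ, Fintype.card_fin, nsmul_eq_mul, mul_one, Nat.cast_ofNat,
    ← mul_sum] at q2
  simp only [Fintype.card_fin, Nat.cast_ofNat] at hsB
  have eH : D.H Ψ = ARough_kin D.toLv Ψ - ob D.w Ψ + 1 / 6 * ∑ σ : Fin 3 ↪ ι, D.Vs D.υ σ Ψ := rfl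
  have eH0 : D.Ham D.υ (fun _ _ => 0) Ψ = ARough_kin D.toLv Ψ - ob (fun _ _ : I => (0 : ℝ)) Ψ +
      1 / 6 * ∑ σ : Fin 3 ↪ ι, D.Vs D.υ σ Ψ := rfl
  rw [eH0, ob0] at id
  rw [eH]
  simp only [one_mul] at q1 q2 cB cB0
  exact ARough_real hε hε1 hη hc hc0 hϑM hϑ hΛ id hTL hVc hV hob q1 q2 o1 o2 t1 t2 l0 l1 qv cB cB0
    hsB hk hN hK hkk h.uA h.uB h.B0 h.b0 h.D₀_nonneg (h.xB_nonneg 0) sA sB (Nat.cast_nonneg _)

end Pool.Agent.Lib.MP_8fe63c_mp
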