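import Pool.Agent.Lib.MP_8fe63c_mp.ABas

/-!
The tangent inequality for the cubic interaction on the low modes.

Sketch. Let `v' a = if a ∈ low then v a else 0`, `ρ = ∑ v'^2`, `(P i Ψ) α = v' (α i) * ∑ δ, v' δ * Ψ (update α i δ)`.
The operators `P i` are symmetric, commute, `P i (P i Ψ) = ρ P i Ψ`, `0 ≤ ⟨Ψ, P i Ψ⟩`, `‖P i Ψ‖^2 ≤ ρ^2 ‖Ψ‖^2`.
With `A = ∑ P i`: `ob .. Ψ = ⟨Ψ, A Ψ⟩` and `6 T3 = ∑ σ, ⟨Ψ, P (σ 0) P (σ 1) P (σ 2) Ψ⟩ = ⟨Ψ, (A^3 - 3 ρ A^2 + 2 ρ^2 A) Ψ⟩`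
(`sum_vac_put`; split the sum over all triples by coincidences). Finally
`A^3 - 3 λ^2 A + 2 λ^3 = (A - λ)(A + 2 λ)(A - λ) ≥ 0` and `⟨Ψ, A^2 Ψ⟩ = ‖A Ψ‖^2 ≤ N^2 ρ^2 ‖Ψ‖^2`.
It may be convenient to use matrices or linear maps on `(ι → I) → ℝ`.
-/

set_option linter.unusedSectionVars false

open Finset
open scoped InnerProductSpace

namespace Pool.Agent.Lib.MP_8fe63c_mp

variable {I ι κ κ' E : Type} [Fintype I] [DecidableEq I] [Fintype ι] [DecidableEq ι]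
  [Fintype κ] [DecidableEq κ] [Fintype κ'] [DecidableEq κ']
  [NormedAddCommGroup E] [InnerProductSpace ℝ E]


theorem ASos_sum3 {X : Type} [Fintype X] [DecidableEq X] (g : (Fin 3 → X) → ℝ) :
    ∑ x, g x = ∑ a, ∑ b, ∑ c, g ![a, b, c] := by
  let e : X × X × X ≃ (Fin 3 → X) :=
    ⟨fun p => ![p.1, p.2.1, p.2.2], fun x => (x 0, x 1, x 2), fun p => rfl, fun x => by
      funext j
      fin_cases j <;> rfl⟩
  rw [← e.sum_comp, Fintype.sum_prod_type]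
  refine sum_congr rfl fun a _ => ?_
  rw [Fintype.sum_prod_type]
  rfl

theorem ASos_emb (f : ι → ι → ι → ℝ) : ∑ σ : Fin 3 ↪ ι, f (σ 0) (σ 1) (σ 2) =
    ∑ i, ∑ j, ∑ k, if i ≠ j ∧ i ≠ k ∧ j ≠ k then f i j k else 0 := by
  have h1 := ASos_sum3 (fun x : Fin 3 → ι =>
    if x 0 ≠ x 1 ∧ x 0 ≠ x 2 ∧ x 1 ≠ x 2 then f (x 0) (x 1) (x 2) else 0)
  refine Eq.trans ?_ h1
  rw [← sum_filter]
  refine sum_bij (fun σ _ => (σ : Fin 3 → ι)) (fun σ _ => ?_) (fun σ _ σ' _ h => ?_)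
    (fun x hx => ?_) fun _ _ => rfl
  · exact mem_filter.2 ⟨mem_univ _, σ.injective.ne (by decide), σ.injective.ne (by decide),
      σ.injective.ne (by decide)⟩
  · exact DFunLike.coe_injective h
  · obtain ⟨h01, h02, h12⟩ := (mem_filter.1 hx).2
    refine ⟨⟨x, fun a b hab => ?_⟩, mem_univ _, rfl⟩
    fin_cases a <;> fin_cases b <;>
      first | rfl | exact absurd hab h01 | exact absurd hab h02 | exact absurd hab h12 |
        exact absurd hab.symm h01 | exact absurd hab.symm h02 | exact absurd hab.symm h12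

theorem ASos_self {X : Type} [Fintype X] (Φ : X → ℝ) : 0 ≤ Φ ⬝ᵥ Φ :=
  sum_nonneg fun _ _ => mul_self_nonneg _

theorem ASos_abs {X : Type} [Fintype X] (P : ι → (X → ℝ) →ₗ[ℝ] (X → ℝ)) {ρ lam : ℝ}
    (hρ : 0 ≤ ρ) (hl : 0 ≤ lam) (hs : ∀ i Φ Ψ, Φ ⬝ᵥ P i Ψ = P i Φ ⬝ᵥ Ψ)
    (hc : ∀ i j Ψ, P i (P j Ψ) = P j (P i Ψ)) (hi : ∀ i Ψ, P i (P i Ψ) = ρ • P i Ψ)
    (hp : ∀ i Φ, 0 ≤ Φ ⬝ᵥ P i Φ) (Ψ : X → ℝ) :
    3 * lam ^ 2 * ∑ i, Ψ ⬝ᵥ P i Ψ -
        (2 * lam ^ 3 + 3 * ρ ^ 3 * (Fintype.card ι : ℝ) ^ 2) * (Ψ ⬝ᵥ Ψ) ≤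
      ∑ i, ∑ j, ∑ k, if i ≠ j ∧ i ≠ k ∧ j ≠ k then Ψ ⬝ᵥ P i (P j (P k Ψ)) else 0 := by
  have e1 : ∀ i j k, (if i ≠ j ∧ i ≠ k ∧ j ≠ k then Ψ ⬝ᵥ P i (P j (P k Ψ)) else 0) =
      Ψ ⬝ᵥ P i (P j (P k Ψ)) - (if i = j then ρ * (Ψ ⬝ᵥ P i (P k Ψ)) else 0) -
        (if i = k then ρ * (Ψ ⬝ᵥ P i (P j Ψ)) else 0) -
        (if j = k then ρ * (Ψ ⬝ᵥ P i (P j Ψ)) else 0) +
        (if i = j then if j = k then 2 * ρ ^ 2 * (Ψ ⬝ᵥ P i Ψ) else 0 else 0) := by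
    intro i j k
    by_cases h1 : i = j
    · subst h1
      by_cases h2 : i = k
      · subst h2
        simp only [ne_eq, not_true_eq_false, false_and, if_false, if_true, hi, map_smul,
          dotProduct_smul, smul_eq_mul]
        ring
      · simp only [ne_eq, not_true_eq_false, false_and, if_false, if_true, hi, if_neg h2,
          dotProduct_smul, smul_eq_mul]
        ring
    · by_cases h2 : i = k
      · subst h2
        simp only [ne_eq, not_true_eq_false, false_and, and_false, if_false, if_true, if_neg h1,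
          if_neg (Ne.symm h1), hc j i, hi, dotProduct_smul, smul_eq_mul]
        ring
      · by_cases h3 : j = k
        · subst h3
          simp only [ne_eq, not_true_eq_false, and_false, if_false, if_true, if_neg h1, hi,
            map_smul, dotProduct_smul, smul_eq_mul]
          ring
        · simp only [ne_eq, h1, h2, h3, not_false_eq_true, and_self, if_true, if_false]
          ring
  have e2 : (∑ i, ∑ j, ∑ k, if i ≠ j ∧ i ≠ k ∧ j ≠ k then Ψ ⬝ᵥ P i (P j (P k Ψ)) else 0) =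
      (∑ i, ∑ j, ∑ k, Ψ ⬝ᵥ P i (P j (P k Ψ))) - 3 * ρ * (∑ i, ∑ j, Ψ ⬝ᵥ P i (P j Ψ)) +
        2 * ρ ^ 2 * ∑ i, Ψ ⬝ᵥ P i Ψ := by
    simp only [e1, sum_add_distrib, sum_sub_distrib, sum_ite_irrel, sum_const_zero, sum_ite_eq,
      mem_univ, if_true, ← mul_sum]
    ring
  have hn : ∀ i, P i Ψ ⬝ᵥ P i Ψ ≤ ρ ^ 2 * (Ψ ⬝ᵥ Ψ) := by
    intro i
    have h1 := ASos_self (P i Ψ - ρ • Ψ)
    have h2 : P i Ψ ⬝ᵥ P i Ψ = ρ * (Ψ ⬝ᵥ P i Ψ) := by
      rw [← hs, hi, dotProduct_smul, smul_eq_mul]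
    simp only [sub_dotProduct, dotProduct_sub, smul_dotProduct, dotProduct_smul, smul_eq_mul,
      dotProduct_comm (P i Ψ) Ψ] at h1
    nlinarith
  have h2 : ∑ i, ∑ j, Ψ ⬝ᵥ P i (P j Ψ) ≤ (Fintype.card ι : ℝ) ^ 2 * (ρ ^ 2 * (Ψ ⬝ᵥ Ψ)) := by
    refine (sum_le_sum (g := fun _ => ∑ _j : ι, ρ ^ 2 * (Ψ ⬝ᵥ Ψ)) fun i _ =>
      sum_le_sum fun j _ => ?_).trans (le_of_eq ?_)
    · have h1 := ASos_self (P i Ψ - P j Ψ)
      simp only [sub_dotProduct, dotProduct_sub, dotProduct_comm (P j Ψ) (P i Ψ)] at h1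
      rw [hs]
      linarith [hn i, hn j]
    · simp only [sum_const, card_univ, nsmul_eq_mul]
      ring
  have h1 : 0 ≤ ∑ i, Ψ ⬝ᵥ P i Ψ := sum_nonneg fun i _ => hp i Ψ
  let A : (X → ℝ) →ₗ[ℝ] (X → ℝ) := ∑ i, P i
  have hA : ∀ Φ Φ', Φ ⬝ᵥ A Φ' = ∑ i, Φ ⬝ᵥ P i Φ' := fun Φ Φ' => by
    simp only [A, LinearMap.sum_apply, dotProduct_sum]
  have hAs : ∀ Φ Φ', Φ ⬝ᵥ A Φ' = A Φ ⬝ᵥ Φ' := fun Φ Φ' => by
    rw [dotProduct_comm (A Φ), hA, hA]
    exact sum_congr rfl fun i _ => by rw [hs, dotProduct_comm]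
  have a3 : Ψ ⬝ᵥ A (A (A Ψ)) = ∑ i, ∑ j, ∑ k, Ψ ⬝ᵥ P i (P j (P k Ψ)) := by
    simp only [A, LinearMap.sum_apply, dotProduct_sum, map_sum]
    rw [sum_comm]
    refine (sum_congr rfl fun j _ => sum_comm).trans sum_comm
  have h3 : 0 ≤ (A Ψ - lam • Ψ) ⬝ᵥ A (A Ψ - lam • Ψ) := by
    rw [hA]
    exact sum_nonneg fun i _ => hp i _
  have h4 := mul_nonneg hl (ASos_self (A Ψ - lam • Ψ))
  simp only [map_sub, map_smul, sub_dotProduct, dotProduct_sub, smul_dotProduct, dotProduct_smul,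
    smul_eq_mul, ← hAs] at h3 h4
  rw [e2, ← a3, ← hA]
  rw [← hA] at h1
  have h5 := mul_le_mul_of_nonneg_left h2 hρ
  have h6 := mul_nonneg (sq_nonneg ρ) h1
  nlinarith

/-- the rank one operator on the leg `i` -/
noncomputable def ASos_P (w : I → ℝ) (i : ι) : ((ι → I) → ℝ) →ₗ[ℝ] ((ι → I) → ℝ) where
  toFun Ψ α := w (α i) * ∑ δ, w δ * Ψ (Function.update α i δ)
  map_add' Ψ Φ := by
    funext α
    simp only [Pi.add_apply, mul_add, sum_add_distrib]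
  map_smul' c Ψ := by
    funext α
    simp only [Pi.smul_apply, smul_eq_mul, RingHom.id_apply, mul_sum]
    exact sum_congr rfl fun δ _ => by ring

theorem ASos_P_apply (w : I → ℝ) (i : ι) (Ψ : (ι → I) → ℝ) (α : ι → I) :
    ASos_P w i Ψ α = w (α i) * ∑ δ, w δ * Ψ (Function.update α i δ) := rfl

theorem ASos_sym (w : I → ℝ) (i : ι) (Φ Ψ : (ι → I) → ℝ) :
    Φ ⬝ᵥ ASos_P w i Ψ = ASos_P w i Φ ⬝ᵥ Ψ := by
  have hinv : Function.Involutive fun p : (ι → I) × I => (Function.update p.1 i p.2, p.1 i) := by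
    rintro ⟨α, δ⟩
    simp
  simp only [dotProduct, ASos_P_apply, mul_sum, sum_mul]
  rw [← Fintype.sum_prod_type', ← Fintype.sum_prod_type', ← Equiv.sum_comp hinv.toPerm]
  refine sum_congr rfl fun p _ => ?_
  simp only [Function.Involutive.coe_toPerm, Function.update_self, Function.update_idem,
    Function.update_eq_self]
  ring

theorem ASos_idem (w : I → ℝ) (i : ι) (Ψ : (ι → I) → ℝ) :
    ASos_P w i (ASos_P w i Ψ) = (∑ a, w a ^ 2) • ASos_P w i Ψ := by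
  funext α
  simp only [ASos_P_apply, Function.update_self, Function.update_idem, Pi.smul_apply, smul_eq_mul,
    ← mul_assoc, ← sum_mul, ← sq]
  ring

theorem ASos_comm (w : I → ℝ) (i j : ι) (Ψ : (ι → I) → ℝ) :
    ASos_P w i (ASos_P w j Ψ) = ASos_P w j (ASos_P w i Ψ) := by
  by_cases h : i = j
  · rw [h]
  funext α
  simp only [ASos_P_apply, Function.update_of_ne h, Function.update_of_ne (Ne.symm h), mul_sum]
  rw [sum_comm]
  refine sum_congr rfl fun a _ => sum_congr rfl fun b _ => ?_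
  rw [Function.update_comm h]
  ring

theorem ASos_pos (w : I → ℝ) (i : ι) (Φ : (ι → I) → ℝ) : 0 ≤ Φ ⬝ᵥ ASos_P w i Φ := by
  rcases (sum_nonneg fun a _ => sq_nonneg (w a) : 0 ≤ ∑ a, w a ^ 2).eq_or_lt with h | h
  · have h1 : ∀ a, w a = 0 := fun a => pow_eq_zero_iff two_ne_zero |>.1
      ((sum_eq_zero_iff_of_nonneg fun a _ => sq_nonneg (w a)).1 h.symm a (mem_univ a))
    simp [dotProduct, ASos_P_apply, h1]
  · have h1 := ASos_self (ASos_P w i Φ)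
    rw [← ASos_sym, ASos_idem, dotProduct_smul, smul_eq_mul] at h1
    exact nonneg_of_mul_nonneg_right h1 h

theorem ASos_put (σ : Fin 3 ↪ ι) (a b c : I) (γ : ι → I) : put σ ![a, b, c] γ =
    Function.update (Function.update (Function.update γ (σ 0) a) (σ 1) b) (σ 2) c := by
  have h01 : σ 0 ≠ σ 1 := σ.injective.ne (by decide)
  have h02 : σ 0 ≠ σ 2 := σ.injective.ne (by decide)
  have h12 : σ 1 ≠ σ 2 := σ.injective.ne (by decide)
  funext i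
  by_cases h : ∃ j, σ j = i
  · obtain ⟨j, rfl⟩ := h
    rw [put_apply]
    fin_cases j <;> simp [Function.update_of_ne, h01, h02, h12]
  · rw [put_apply_not _ _ _ h, Function.update_of_ne fun e => h ⟨2, e.symm⟩,
      Function.update_of_ne fun e => h ⟨1, e.symm⟩, Function.update_of_ne fun e => h ⟨0, e.symm⟩]

theorem ASos_PPP (w : I → ℝ) (σ : Fin 3 ↪ ι) (Ψ : (ι → I) → ℝ) (γ : ι → I) :
    ASos_P w (σ 0) (ASos_P w (σ 1) (ASos_P w (σ 2) Ψ)) γ =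
      ∑ β' : Fin 3 → I, (∏ j, (w (γ (σ j)) * w (β' j))) * Ψ (put σ β' γ) := by
  have h01 : σ 0 ≠ σ 1 := σ.injective.ne (by decide)
  have h02 : σ 0 ≠ σ 2 := σ.injective.ne (by decide)
  have h12 : σ 1 ≠ σ 2 := σ.injective.ne (by decide)
  rw [ASos_sum3]
  simp only [ASos_P_apply, Function.update_of_ne h01.symm, Function.update_of_ne h02.symm,
    Function.update_of_ne h12.symm, mul_sum, ASos_put, Fin.prod_univ_three]
  refine sum_congr rfl fun a _ => sum_congr rfl fun b _ => sum_congr rfl fun c _ => ?_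
  simp only [Matrix.cons_val_zero, Matrix.cons_val_one, Matrix.cons_val]
  ring

theorem ASos_lowF (L : Lv I) (v : I → ℝ) (g : (Fin 3 → I) → ℝ) :
    ∑ β ∈ L.lowF 3, (∏ j, v (β j)) * g β =
      ∑ β, (∏ j, if β j ∈ L.low then v (β j) else 0) * g β := by
  rw [← sum_subset (subset_univ (L.lowF 3))]
  · refine sum_congr rfl fun β hβ => ?_
    rw [prod_congr rfl fun j _ => if_pos (Fintype.mem_piFinset.1 hβ j)]
  · intro β _ hβ
    obtain ⟨j, hj⟩ := not_forall.1 fun h => hβ (Fintype.mem_piFinset.2 h)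
    rw [prod_eq_zero (mem_univ j) (if_neg hj), zero_mul]

theorem sos_point (L : Lv I) (v : I → ℝ) {lam : ℝ} (hl : 0 ≤ lam) (Ψ : (ι → I) → ℝ) :
    3 * lam ^ 2 * ob (L.wLL fun a b => v a * v b) Ψ -
        (2 * lam ^ 3 + 3 * (∑ a ∈ L.low, v a ^ 2) ^ 3 * (Fintype.card ι : ℝ) ^ 2) * nsq Ψ ≤
      6 * L.T3 (fun β β' => ∏ j, (v (β j) * v (β' j))) Ψ := by
  set w : I → ℝ := fun a => if a ∈ L.low then v a else 0 with hw
  have e1 : ∑ a ∈ L.low, v a ^ 2 = ∑ a, w a ^ 2 := by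
    rw [← sum_subset (subset_univ L.low)]
    · exact sum_congr rfl fun a ha => by simp only [hw, if_pos ha]
    · intro a _ ha
      simp [hw, ha]
  have e2 : ob (L.wLL fun a b => v a * v b) Ψ = ∑ i, Ψ ⬝ᵥ ASos_P w i Ψ := by
    simp only [ob, dotProduct, ASos_P_apply, mul_sum]
    refine sum_congr rfl fun i _ => sum_congr rfl fun α _ => sum_congr rfl fun δ _ => ?_
    simp only [Lv.wLL, hw, ite_and]
    split_ifs <;> ring
  have e3 : nsq Ψ = Ψ ⬝ᵥ Ψ := by simp only [nsq, dotProduct, sq]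
  have e4 : 6 * L.T3 (fun β β' => ∏ j, (v (β j) * v (β' j))) Ψ =
      ∑ σ : Fin 3 ↪ ι, Ψ ⬝ᵥ ASos_P w (σ 0) (ASos_P w (σ 1) (ASos_P w (σ 2) Ψ)) := by
    rw [Lv.T3, ← mul_assoc, show (6 : ℝ) * (1 / 6) = 1 by norm_num, one_mul]
    refine sum_congr rfl fun σ _ => ?_
    rw [dotProduct, ← L.sum_vac_put σ]
    refine sum_congr rfl fun α _ => ?_
    have h1 : ∀ β : Fin 3 → I, ∑ β' ∈ L.lowF 3,
        (∏ j, (v (β j) * v (β' j))) * Ψ (put σ β α) * Ψ (put σ β' α) =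
        (∏ j, v (β j)) * (Ψ (put σ β α) * ∑ β', (∏ j, w (β' j)) * Ψ (put σ β' α)) := by
      intro β
      rw [← ASos_lowF L v, mul_sum, mul_sum]
      exact sum_congr rfl fun β' _ => by rw [prod_mul_distrib]; ring
    simp only [h1]
    rw [ASos_lowF L v]
    refine sum_congr rfl fun β _ => ?_
    simp only [ASos_PPP, put_apply, put_put, prod_mul_distrib, mul_sum]
    exact sum_congr rfl fun β' _ => by ring
  rw [e1, e2, e3, e4, ASos_emb fun i j k => Ψ ⬝ᵥ ASos_P w i (ASos_P w j (ASos_P w k Ψ))]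
  exact ASos_abs (ASos_P w) (sum_nonneg fun a _ => sq_nonneg _) hl (ASos_sym w) (ASos_comm w)
    (ASos_idem w) (ASos_pos w) Ψ

end Pool.Agent.Lib.MP_8fe63c_mp
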