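import Pool.Agent.Lib.MP_8fe63c_mp.ATrial

/-!
The completed kinetic square of the trial state.

Sketch. For a high leg `i`: `Ψ α - xi i α = ∑ t (gP t i α - xiP t i α) - 1 {nhN α > Mx} ∑ t gP t i α`.
On the trial state only channels with input `β = o` contribute. All terms are bounded by `crude`
(with `ϖ = lam`), `chan_count` or `chan_oo`, and the moments. `t = 2`: kernel `G4 + resK F4` (`k4`).
`t = 1`: `G3 + resK (FA o)` (`k3`) and the family D (`FamB.hs` for `fD`). `t = 0`: `G2 + N resK (FB o o)`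
(`k2`), the mismatch `(N - (N - npN - 2)) resK (FB o o)`, the channels of B with output outside `o`
(`chan_count` with `j = 1`), the family E. Boundary term: the weighted Hilbert-Schmidt norms of
`G2, G3, G4` are at most `K/s^3, K/s^4, K/s^7` (`G_hs`), so it is at most `K N` times the top moment.
-/

set_option linter.unusedSectionVars false

open Finset
open scoped InnerProductSpace

namespace Pool.Agent.Lib.MP_8fe63c_mp

variable {I ι κ κ' E : Type} [Fintype I] [DecidableEq I] [Fintype ι] [DecidableEq ι]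
  [Fintype κ] [DecidableEq κ] [Fintype κ'] [DecidableEq κ']
  [NormedAddCommGroup E] [InnerProductSpace ℝ E]


theorem ATrK_pow {s C : ℝ} (hs : 1 ≤ s) (hC : 0 ≤ C) {a b : ℕ} (h : a ≤ b) :
    C / s ^ b ≤ C / s ^ a :=
  div_le_div_of_nonneg_left hC (by positivity) (pow_le_pow_right₀ hs h)

theorem ATrK_pow2 {s C : ℝ} (hs : 1 ≤ s) (hC : 0 ≤ C) {a b : ℕ} (h : 2 * a ≤ b) :
    C / s ^ b * (s ^ 2) ^ a ≤ C := by
  have h0 : 0 < s := by linarith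
  calc C / s ^ b * (s ^ 2) ^ a ≤ C / s ^ (2 * a) * (s ^ 2) ^ a :=
        mul_le_mul_of_nonneg_right (ATrK_pow hs hC h) (by positivity)
    _ = C := by rw [← pow_mul]; field_simp

theorem ATrK_hs {L : Lv I} {s Λ : ℝ} (hs : 1 ≤ s) (hl : ∀ a, 0 ≤ L.lam a) {p : ℕ}
    {T : (Fin p → I) → ℝ} {A0 A2 : ℝ} (h : L.FamOK s Λ T A0 A2) (hA : 0 ≤ A0) :
    ∑ α, (∑ j, L.lam (α j)) * T α ^ 2 ≤ p * (A0 / s ^ (3 * p - 1)) := by
  have h0 : 0 < s := by linarith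
  have := (h 1 le_rfl hs).hs hl (by simp only [fx, if_true]; positivity)
  simpa only [fx, if_true, Fintype.card_fin] using this

theorem ATrK_u {L : Lv I} {p : ℕ} (hp : 0 < p) {T : (Fin p → I) → ℝ} {x : ℕ → ℝ}
    (h : L.FamU T x) (hx : 0 ≤ x 0) : ∑ α, T α ^ 2 ≤ x 0 := by
  have hne : (∅ : Finset (Fin p)) ≠ univ := by
    intro h'
    have : (⟨0, hp⟩ : Fin p) ∈ (∅ : Finset (Fin p)) := h' ▸ mem_univ _
    simp at this
  have := h ∅ hne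
  rw [Lv.wtH_empty, card_empty] at this
  exact (Lv.bil_empty_iff hx).1 this

theorem ATrK_comb {L : Lv I} (hl : ∀ a, 0 ≤ L.lam a) {p : ℕ} (G T : (Fin p → I) → ℝ) (c : ℝ) :
    ∑ α, (∑ j, (L.lam (α j) + 1)) * G α ^ 2 ≤
      2 * ∑ α, (∑ j, L.lam (α j)) * (G α + c * T α) ^ 2 +
        2 * c ^ 2 * ∑ α, (∑ j, L.lam (α j)) * T α ^ 2 + p * ∑ α, G α ^ 2 := by
  rw [mul_sum, mul_sum, mul_sum, ← sum_add_distrib, ← sum_add_distrib]
  refine sum_le_sum fun α _ => ?_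
  rw [sum_add_distrib]
  simp only [sum_const, card_univ, Fintype.card_fin, nsmul_eq_mul, mul_one]
  have h1 : 0 ≤ ∑ j, L.lam (α j) := sum_nonneg fun j _ => hl _
  have h2 : G α ^ 2 ≤ 2 * (G α + c * T α) ^ 2 + 2 * c ^ 2 * T α ^ 2 := by
    nlinarith [sq_nonneg (G α + 2 * c * T α)]
  nlinarith [mul_le_mul_of_nonneg_left h2 h1]

theorem G_hs (C : ℝ) : ∃ K : ℝ, 0 ≤ K ∧ ∀ {I E : Type} [Fintype I] [DecidableEq I]
      [NormedAddCommGroup E] [InnerProductSpace ℝ E] (D : Dat I E) (γ Λ C₀ s : ℝ), 1 ≤ s →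
      D.Base γ Λ C₀ C → D.Norms s Λ C₀ C → D.Trial s C →
      ∑ α, (∑ j, (D.lam (α j) + 1)) * D.G2 α ^ 2 ≤ K / s ^ 3 ∧
      ∑ α, (∑ j, (D.lam (α j) + 1)) * D.G3 α ^ 2 ≤ K / s ^ 4 ∧
      ∑ α, (∑ j, (D.lam (α j) + 1)) * D.G4 α ^ 2 ≤ K / s ^ 7 := by
  refine ⟨14 * |C|, by positivity, ?_⟩
  intro I E _ _ _ _ D γ Λ C₀ s hs hB hN hT
  have hC : 0 ≤ C := by linarith [hB.C₀_ge, hB.C₀_le]
  have h0 : 0 < s := by linarith
  have hl := hB.lam_nonneg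
  rw [abs_of_nonneg hC]
  have hoo := fun n => D.toLv.oo_mem_lowF hB.o_low n
  refine ⟨?_, ?_, ?_⟩
  · have h1 := ATrK_comb hl D.G2 (D.resK (D.FB (D.oo 1) (D.oo 3))) (s ^ 2)
    have h2 := ATrK_hs hs hl (hN.fB _ (hoo 1) _ (hoo 3)) (by positivity)
    have h3 := ATrK_u (by norm_num) hT.u2 (by simp only [if_true]; positivity)
    simp only [if_true] at h3
    have h4 := hT.k2
    have h5 : C / s ^ 4 ≤ C / s ^ 3 := ATrK_pow hs hC (by norm_num)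
    have h6 : 2 * (s ^ 2) ^ 2 * (((2 : ℕ) : ℝ) * (C / s ^ 2 / s ^ (3 * 2 - 1))) =
        4 * (C / s ^ 3) := by
      norm_num
      field_simp
      ring
    have h7 := mul_le_mul_of_nonneg_left h2 (show 0 ≤ 2 * (s ^ 2) ^ 2 by positivity)
    have h8 : 14 * C / s ^ 3 = 14 * (C / s ^ 3) := by ring
    have h9 : 0 ≤ C / s ^ 3 := by positivity
    push_cast at h1
    linarith
  · have h1 := ATrK_comb hl D.G3 (D.resK (D.FA (D.oo 3))) 1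
    have h2 := ATrK_hs hs hl (hN.fA _ (hoo 3)) (by positivity)
    have h3 := ATrK_u (by norm_num) hT.u3 (by simp only [if_true]; positivity)
    simp only [if_true] at h3
    have h4 := hT.k3
    have h5 : C / s ^ 6 ≤ C / s ^ 4 := ATrK_pow hs hC (by norm_num)
    have h6 : ((3 : ℕ) : ℝ) * (C * s ^ 4 / s ^ (3 * 3 - 1)) = 3 * (C / s ^ 4) := by
      norm_num
      field_simp
    have h8 : 14 * C / s ^ 4 = 14 * (C / s ^ 4) := by ring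
    have h9 : 0 ≤ C / s ^ 4 := by positivity
    simp only [one_mul, one_pow, mul_one] at h1
    push_cast at h1
    linarith
  · have h1 := ATrK_comb hl D.G4 (D.resK D.F4) 1
    have h2 := ATrK_hs hs hl hN.fC (by positivity)
    have h3 := ATrK_u (by norm_num) hT.u4 (by simp only [if_true]; positivity)
    simp only [if_true] at h3
    have h4 := hT.k4
    have h5 : C / s ^ 8 ≤ C / s ^ 7 := ATrK_pow hs hC (by norm_num)
    have h6 : ((4 : ℕ) : ℝ) * (C * s ^ 4 / s ^ (3 * 4 - 1)) = 4 * (C / s ^ 7) := by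
      norm_num
      field_simp
    have h8 : 14 * C / s ^ 7 = 14 * (C / s ^ 7) := by ring
    have h9 : 0 ≤ C / s ^ 7 := by positivity
    simp only [one_mul, one_pow, mul_one] at h1
    push_cast at h1
    linarith

theorem ATrK_indep (L : Lv I) (p : ℕ) (Ψ : (ι → I) → ℝ) :
    Indep (fun (ρ : Fin p ↪ ι) α => Ψ (put ρ (L.oo p) α)) := fun ρ β α => by
  simp only [put_put]

theorem ATrK_put_vac (L : Lv I) {p : ℕ} {ρ : Fin p ↪ ι} {α : ι → I} (h : α ∈ L.vac ρ) :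
    put ρ (L.oo p) α = α := by
  have : L.oo p = α ∘ ρ := funext fun j => ((L.mem_vac.1 h) j).symm
  rw [this, put_self]

theorem ATrK_vac_le (L : Lv I) (p : ℕ) {W W' Ψ : (ι → I) → ℝ} (hW : ∀ α, 0 ≤ W α)
    (h : ∀ α, Ψ α ≠ 0 → W α ≤ W' α) :
    ∑ ρ : Fin p ↪ ι, ∑ α ∈ L.vac ρ, W α * Ψ α ^ 2 ≤ (Fintype.card ι : ℝ) ^ p * ex W' Ψ := by
  rw [L.sum_vac_sq]
  have : (Fintype.card ι : ℝ) ^ p * ex W' Ψ = ex (fun α => (Fintype.card ι : ℝ) ^ p * W' α) Ψ := by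
    simp only [ex, mul_sum, mul_assoc]
  rw [this]
  refine ex_mono fun α hα => mul_le_mul ?_ (h α hα) (hW α) (by positivity)
  have h1 : (Fintype.card ι - L.npN α).descFactorial p ≤ Fintype.card ι ^ p :=
    (Nat.descFactorial_le_pow _ _).trans (Nat.pow_le_pow_left (Nat.sub_le _ _) _)
  exact_mod_cast h1

theorem ATrK_top (L : Lv I) (ho : L.o ∈ L.low) (hl : ∀ a, 0 ≤ L.lam a) {p : ℕ} (hp : p ≤ 4)
    {T : (Fin p → I) → ℝ} (hz : ∀ α, ¬L.Hi α → T α = 0) {h : ℝ}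
    (hT : ∑ β, (∑ j, (L.lam (β j) + 1)) * T β ^ 2 ≤ h) (Mx : ℕ) (Ψ : (ι → I) → ℝ) :
    ∑ i, ∑ α, (if Mx < L.nhN α then 1 else 0) * (L.lam (α i) + 1) *
        cre (fun (ρ : Fin p ↪ ι) α => T (α ∘ ρ) * Ψ (put ρ (L.oo p) α)) i α ^ 2 ≤
      4 * (h * (Fintype.card ι : ℝ) ^ p) *
        ex (fun α => if Mx < L.nhN α + 4 then ((L.nhN α : ℝ) + 4) ^ 6 else 0) Ψ := by
  have hϖ : ∀ a, 0 ≤ L.lam a + 1 := fun a => by linarith [hl a]
  have h1 := L.crude ho (ϖ := fun a => L.lam a + 1) hϖ hz (ATrK_indep L p Ψ)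
    (f := fun n => if Mx < n then 1 else 0) (fun n => by split_ifs <;> norm_num)
  refine h1.trans ?_
  have h0 : 0 ≤ ∑ β, (∑ j, (L.lam (β j) + 1)) * T β ^ 2 :=
    sum_nonneg fun β _ => mul_nonneg (sum_nonneg fun j _ => hϖ _) (sq_nonneg _)
  have h2 : ∑ ρ : Fin p ↪ ι, ∑ α ∈ L.vac ρ, (if Mx < L.nhN α + p then (1 : ℝ) else 0) *
      ((L.nhN α : ℝ) + p) ^ (p - 1) * Ψ (put ρ (L.oo p) α) ^ 2 ≤ (Fintype.card ι : ℝ) ^ p *
        ex (fun α => if Mx < L.nhN α + 4 then ((L.nhN α : ℝ) + 4) ^ 6 else 0) Ψ := by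
    rw [sum_congr rfl fun ρ _ => sum_congr rfl fun α hα => by rw [ATrK_put_vac L hα]]
    refine ATrK_vac_le L p (W := fun α => (if Mx < L.nhN α + p then (1 : ℝ) else 0) *
      ((L.nhN α : ℝ) + p) ^ (p - 1)) (fun α => by split_ifs <;> positivity) fun α _ => ?_
    have hp' : (p : ℝ) ≤ 4 := by exact_mod_cast hp
    have hn : (0 : ℝ) ≤ L.nhN α := Nat.cast_nonneg _
    by_cases hM : Mx < L.nhN α + p
    · rw [if_pos hM, if_pos (by omega), one_mul]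
      exact (pow_le_pow_left₀ (by positivity) (by linarith) _).trans
        (pow_le_pow_right₀ (by linarith) (by omega))
    · rw [if_neg hM, zero_mul]
      split_ifs <;> positivity
  have hp' : (p : ℝ) ≤ 4 := by exact_mod_cast hp
  have h3 : 0 ≤ ∑ ρ : Fin p ↪ ι, ∑ α ∈ L.vac ρ, (if Mx < L.nhN α + p then (1 : ℝ) else 0) *
      ((L.nhN α : ℝ) + p) ^ (p - 1) * Ψ (put ρ (L.oo p) α) ^ 2 :=
    sum_nonneg fun ρ _ => sum_nonneg fun α _ => by split_ifs <;> positivity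
  calc _ ≤ 4 * h * ((Fintype.card ι : ℝ) ^ p *
        ex (fun α => if Mx < L.nhN α + 4 then ((L.nhN α : ℝ) + 4) ^ 6 else 0) Ψ) :=
        mul_le_mul (mul_le_mul hp' hT h0 (by norm_num)) h2 h3 (by linarith)
    _ = _ := by ring

theorem ATrK_three (w a b c : ℝ) (hw : 0 ≤ w) :
    w * (1 / 2 * a + 1 / 6 * b + 1 / 24 * c) ^ 2 ≤ w * a ^ 2 + w * b ^ 2 + w * c ^ 2 := by
  have : (1 / 2 * a + 1 / 6 * b + 1 / 24 * c) ^ 2 ≤ a ^ 2 + b ^ 2 + c ^ 2 := by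
    nlinarith [sq_nonneg (a - b), sq_nonneg (a - c), sq_nonneg (b - c), sq_nonneg (a + b),
      sq_nonneg (a + c), sq_nonneg (b + c), sq_nonneg a, sq_nonneg b, sq_nonneg c]
  nlinarith [mul_le_mul_of_nonneg_left this hw]

/-- the part of the created state above the truncation level -/
theorem top_bound (C K₁ : ℝ) : ∃ K : ℝ, 0 ≤ K ∧ ∀ {I ι E : Type} [Fintype I] [DecidableEq I] [Fintype ι] [DecidableEq ι]
      [NormedAddCommGroup E] [InnerProductSpace ℝ E] (D : Dat I E)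
      (γ Λ C₀ : ℝ) (Mx : ℕ) (Ψ : (ι → I) → ℝ), 1 ≤ Fintype.card ι → D.Base γ Λ C₀ C →
      D.Norms √(Fintype.card ι : ℝ) Λ C₀ C → D.Trial √(Fintype.card ι : ℝ) C →
      (Fintype.card ι : ℝ) ^ 4 *
        ex (fun α => if Mx < D.nhN α + 4 then ((D.nhN α : ℝ) + 4) ^ 6 else 0) Ψ ≤ K₁ * nsq Ψ →
      (Fintype.card ι : ℝ) ^ 2 * ∑ i, ∑ α, (if Mx < D.nhN α then 1 else 0) * (D.lam (α i) + 1) *
        (∑ t, D.gP Ψ t i α) ^ 2 ≤ K * nsq Ψ := by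
  obtain ⟨K, hK, hG⟩ := G_hs C
  refine ⟨12 * K * |K₁|, by positivity, ?_⟩
  intro I ι E _ _ _ _ _ _ D γ Λ C₀ Mx Ψ hN1 hB hN hT hm
  have hN' : (1 : ℝ) ≤ Fintype.card ι := by exact_mod_cast hN1
  have hs : 1 ≤ √(Fintype.card ι : ℝ) := Real.one_le_sqrt.2 hN'
  have hsq : (Fintype.card ι : ℝ) = √(Fintype.card ι : ℝ) ^ 2 := (Real.sq_sqrt (by positivity)).symm
  have hl := hB.lam_nonneg
  obtain ⟨g2, g3, g4⟩ := hG D γ Λ C₀ _ hs hB hN hT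
  have t2 := ATrK_top D.toLv hB.o_low hl (by norm_num) hT.z2 g2 Mx Ψ
  have t3 := ATrK_top D.toLv hB.o_low hl (by norm_num) hT.z3 g3 Mx Ψ
  have t4 := ATrK_top D.toLv hB.o_low hl (by norm_num) hT.z4 g4 Mx Ψ
  set m := ex (fun α => if Mx < D.nhN α + 4 then ((D.nhN α : ℝ) + 4) ^ 6 else 0) Ψ with hmd
  have hm0 : 0 ≤ m := ex_nonneg fun α => by split_ifs <;> positivity
  have hsum : ∑ i, ∑ α, (if Mx < D.nhN α then 1 else 0) * (D.lam (α i) + 1) *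
      (∑ t, D.gP Ψ t i α) ^ 2 ≤
      4 * (K / √(Fintype.card ι : ℝ) ^ 3 * (Fintype.card ι : ℝ) ^ 2) * m +
      4 * (K / √(Fintype.card ι : ℝ) ^ 4 * (Fintype.card ι : ℝ) ^ 3) * m +
      4 * (K / √(Fintype.card ι : ℝ) ^ 7 * (Fintype.card ι : ℝ) ^ 4) * m := by
    refine le_trans ?_ (add_le_add (add_le_add t2 t3) t4)
    rw [← sum_add_distrib, ← sum_add_distrib]
    refine sum_le_sum fun i _ => ?_
    rw [← sum_add_distrib, ← sum_add_distrib]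
    refine sum_le_sum fun α _ => ?_
    rw [Fin.sum_univ_three]
    refine ATrK_three _ _ _ _ ?_
    have := hl (α i)
    split_ifs <;> positivity
  generalize √(Fintype.card ι : ℝ) = s at hs hsq hsum
  generalize (Fintype.card ι : ℝ) = N at hsq hsum hm hN' ⊢
  subst hsq
  have e2 : K / s ^ 3 * (s ^ 2) ^ 2 ≤ K * (s ^ 2) ^ 2 :=
    mul_le_mul_of_nonneg_right (div_le_self hK (one_le_pow₀ hs)) (by positivity)
  have e3 : K / s ^ 4 * (s ^ 2) ^ 3 ≤ K * (s ^ 2) ^ 2 := by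
    have := ATrK_pow2 hs hK (show 2 * 1 ≤ 4 by norm_num)
    calc _ = K / s ^ 4 * (s ^ 2) ^ 1 * (s ^ 2) ^ 2 := by ring
      _ ≤ _ := mul_le_mul_of_nonneg_right this (by positivity)
  have e4 : K / s ^ 7 * (s ^ 2) ^ 4 ≤ K * (s ^ 2) ^ 2 := by
    have := ATrK_pow2 hs hK (show 2 * 2 ≤ 7 by norm_num)
    calc _ = K / s ^ 7 * (s ^ 2) ^ 2 * (s ^ 2) ^ 2 := by ring
      _ ≤ _ := mul_le_mul_of_nonneg_right this (by positivity)
  have e5 := mul_le_mul_of_nonneg_right e2 hm0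
  have e6 := mul_le_mul_of_nonneg_right e3 hm0
  have e7 := mul_le_mul_of_nonneg_right e4 hm0
  have e8 : K₁ * nsq Ψ ≤ |K₁| * nsq Ψ := mul_le_mul_of_nonneg_right (le_abs_self _) (nsq_nonneg _)
  calc _ ≤ (s ^ 2) ^ 2 * (12 * (K * (s ^ 2) ^ 2 * m)) :=
        mul_le_mul_of_nonneg_left (hsum.trans (by linarith)) (by positivity)
    _ = 12 * K * ((s ^ 2) ^ 4 * m) := by ring
    _ ≤ 12 * K * (|K₁| * nsq Ψ) := mul_le_mul_of_nonneg_left (hm.trans e8) (by positivity)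
    _ = _ := by ring

/-- weighted squared norm of a creation sum -/
noncomputable def ATrK_Q (L : Lv I) (A : (κ ↪ ι) → (ι → I) → ℝ) : ℝ :=
  ∑ i, ∑ α, L.lam (α i) * cre A i α ^ 2

theorem ATrK_cre_add (A B : (κ ↪ ι) → (ι → I) → ℝ) (i : ι) (α : ι → I) :
    cre (fun ρ α => A ρ α + B ρ α) i α = cre A i α + cre B i α := by
  simp only [cre, ← sum_add_distrib]
  refine sum_congr rfl fun ρ _ => ?_
  split_ifs <;> simp

theorem ATrK_cre_sum {J : Type} (S : Finset J) (c : ℝ) (A : J → (κ ↪ ι) → (ι → I) → ℝ) (i : ι)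
    (α : ι → I) : cre (fun ρ α => ∑ a ∈ S, c * A a ρ α) i α = ∑ a ∈ S, c * cre (A a) i α := by
  simp only [cre, mul_sum]
  rw [sum_comm]
  refine sum_congr rfl fun ρ _ => ?_
  split_ifs <;> simp

theorem ATrK_Q_add {L : Lv I} (hl : ∀ a, 0 ≤ L.lam a) (A B : (κ ↪ ι) → (ι → I) → ℝ) :
    ATrK_Q L (fun ρ α => A ρ α + B ρ α) ≤ 2 * ATrK_Q L A + 2 * ATrK_Q L B := by
  simp only [ATrK_Q, mul_sum, ← sum_add_distrib, ATrK_cre_add]
  refine sum_le_sum fun i _ => sum_le_sum fun α _ => ?_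
  have h : (cre A i α + cre B i α) ^ 2 ≤ 2 * cre A i α ^ 2 + 2 * cre B i α ^ 2 := by
    nlinarith [sq_nonneg (cre A i α - cre B i α)]
  nlinarith [mul_le_mul_of_nonneg_left h (hl (α i))]

theorem ATrK_Q_sum {L : Lv I} (hl : ∀ a, 0 ≤ L.lam a) {J : Type} (S : Finset J) {c : ℝ}
    (hc : c ^ 2 ≤ 1) (A : J → (κ ↪ ι) → (ι → I) → ℝ) {b n : ℝ} (hb : 0 ≤ b) (hn : (S.card : ℝ) ≤ n)
    (h : ∀ a ∈ S, ATrK_Q L (A a) ≤ b) :
    ATrK_Q L (fun ρ α => ∑ a ∈ S, c * A a ρ α) ≤ n ^ 2 * b := by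
  have h1 : ATrK_Q L (fun ρ α => ∑ a ∈ S, c * A a ρ α) ≤ S.card * ∑ a ∈ S, ATrK_Q L (A a) := by
    simp only [ATrK_Q, ATrK_cre_sum]
    rw [sum_comm (s := S), mul_sum]
    refine sum_le_sum fun i _ => ?_
    rw [sum_comm (s := S), mul_sum]
    refine sum_le_sum fun α _ => ?_
    rw [← mul_sum S _ (L.lam (α i)), mul_left_comm]
    refine mul_le_mul_of_nonneg_left (sq_sum_le_card_mul_sum_sq.trans ?_) (hl _)
    refine mul_le_mul_of_nonneg_left (sum_le_sum fun a _ => ?_) (Nat.cast_nonneg _)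
    rw [mul_pow]
    exact mul_le_of_le_one_left (sq_nonneg _) hc
  have h2 : ∑ a ∈ S, ATrK_Q L (A a) ≤ S.card * b := by
    simpa using sum_le_card_nsmul S _ b h
  have h0 : (0 : ℝ) ≤ S.card := Nat.cast_nonneg _
  calc _ ≤ S.card * (S.card * b) := h1.trans (mul_le_mul_of_nonneg_left h2 h0)
    _ = (S.card : ℝ) ^ 2 * b := by ring
    _ ≤ _ := mul_le_mul_of_nonneg_right (pow_le_pow_left₀ h0 hn 2) hb

theorem ATrK_Q_le {L : Lv I} (ho : L.o ∈ L.low) (hl : ∀ a, 0 ≤ L.lam a) {p : ℕ}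
    {T : (Fin p → I) → ℝ} (hz : ∀ α, ¬L.Hi α → T α = 0) {X : (Fin p ↪ ι) → (ι → I) → ℝ}
    (hX : Indep X) {s C m k v : ℝ} {a b : ℕ} (hs : 1 ≤ s) (hC : 0 ≤ C) (hm : 0 ≤ m) (hk : 0 ≤ k)
    (hv : 0 ≤ v) (hab : 2 * a ≤ b) (hT : ∑ β, (∑ j, L.lam (β j)) * T β ^ 2 ≤ k * (C / s ^ b))
    (hV : ∑ ρ : Fin p ↪ ι, ∑ α ∈ L.vac ρ, ((L.nhN α : ℝ) + p) ^ (p - 1) * X ρ α ^ 2 ≤
      v * (s ^ 2) ^ a * m) :
    ATrK_Q L (fun ρ α => T (α ∘ ρ) * X ρ α) ≤ p * k * v * (C * m) := by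
  have h1 := L.crude ho hl hz hX (f := fun _ => 1) (fun _ => zero_le_one)
  simp only [one_mul] at h1
  refine h1.trans ?_
  have h0 : 0 < s := by linarith
  have h3 : 0 ≤ ∑ ρ : Fin p ↪ ι, ∑ α ∈ L.vac ρ, ((L.nhN α : ℝ) + p) ^ (p - 1) * X ρ α ^ 2 :=
    sum_nonneg fun ρ _ => sum_nonneg fun α _ => by positivity
  calc _ ≤ p * (k * (C / s ^ b)) * (v * (s ^ 2) ^ a * m) :=
        mul_le_mul (mul_le_mul_of_nonneg_left hT (Nat.cast_nonneg _)) hV h3 (by positivity)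
    _ = p * k * v * (C / s ^ b * (s ^ 2) ^ a * m) := by ring
    _ ≤ _ := mul_le_mul_of_nonneg_left
        (mul_le_mul_of_nonneg_right (ATrK_pow2 hs hC hab) hm) (by positivity)

theorem ATrK_resK_z (L : Lv I) (F : (κ → I) → ℝ) (α : κ → I) (h : ¬L.Hi α) : L.resK F α = 0 :=
  if_neg h

section Supp

variable {L : Lv I} {Ψ : (ι → I) → ℝ}

theorem ATrK_np (hs : ∀ α, Ψ α ≠ 0 → ∀ i, α i = L.o ∨ α i ∉ L.low) {α : ι → I} (h : Ψ α ≠ 0) :
    (L.npN α : ℝ) ≤ L.nhN α := by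
  have : L.npN α ≤ L.nhN α := card_le_card fun i hi => by
    simp only [mem_filter, mem_univ, true_and] at hi ⊢
    exact (hs α h i).resolve_left hi
  exact_mod_cast this

theorem ATrK_chan_eq (hs : ∀ α, Ψ α ≠ 0 → ∀ i, α i = L.o ∨ α i ∉ L.low) {p c : ℕ}
    (ρ : Fin p ↪ ι) (γ : Fin c → I) {β : Fin (p + c) → I} (hβ : β ∈ L.lowF (p + c))
    (hne : β ≠ L.oo (p + c)) (α : ι → I) : chan ρ γ β Ψ α = 0 := by
  refine sum_eq_zero fun σ _ => ?_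
  split_ifs
  · by_contra h
    refine hne (funext fun j => ?_)
    have h1 := hs _ h (σ j)
    rw [put_apply] at h1
    exact h1.resolve_right (not_not.2 (Fintype.mem_piFinset.1 hβ j))
  · rfl

theorem ATrK_gen (ho : L.o ∈ L.low) (hs : ∀ α, Ψ α ≠ 0 → ∀ i, α i = L.o ∨ α i ∉ L.low) (p c : ℕ)
    (F : (Fin (p + c) → I) → (Fin (p + c) → I) → ℝ) (ρ : Fin p ↪ ι) (α : ι → I) :
    L.gen (fun ρ α => L.src p c F ρ Ψ α) ρ α =
      ∑ γ ∈ L.lowF c, (1 / (c.factorial : ℝ)) *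
        (L.resK (fun a => F (Fin.append a γ) (L.oo (p + c))) (α ∘ ρ) *
          chan ρ γ (L.oo (p + c)) Ψ α) := by
  rw [L.gen_src, sum_product]
  refine sum_congr rfl fun γ _ => ?_
  refine sum_eq_single_of_mem _ (L.oo_mem_lowF ho _) fun β hβ hne => ?_
  simp only [ATrK_chan_eq hs ρ γ hβ hne, mul_zero]

theorem ATrK_gen0 (ho : L.o ∈ L.low) (hs : ∀ α, Ψ α ≠ 0 → ∀ i, α i = L.o ∨ α i ∉ L.low) (p : ℕ)
    (F : (Fin p → I) → (Fin p → I) → ℝ) (ρ : Fin p ↪ ι) (α : ι → I) :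
    L.gen (fun ρ α => L.src p 0 F ρ Ψ α) ρ α =
      L.resK (fun a => F a (L.oo p)) (α ∘ ρ) * Ψ (put ρ (L.oo p) α) := by
  rw [ATrK_gen ho hs p 0, sum_eq_single_of_mem _ (L.oo_mem_lowF ho 0)
    fun β _ hne => (hne (Subsingleton.elim _ _)).elim, chan_zero]
  have : ∀ a : Fin p → I, Fin.append a (L.oo 0) = a := fun a => by
    rw [Fin.append_right_nil _ _ rfl]
    rfl
  simp only [this, Nat.factorial_zero, Nat.cast_one, div_one, one_mul]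
  rfl

theorem ATrK_V0 {p : ℕ} (hp : p ≤ 4) :
    ∑ ρ : Fin p ↪ ι, ∑ α ∈ L.vac ρ, ((L.nhN α : ℝ) + p) ^ (p - 1) * Ψ (put ρ (L.oo p) α) ^ 2 ≤
      1 * (Fintype.card ι : ℝ) ^ p * ex (fun α => ((L.nhN α : ℝ) + 4) ^ 6) Ψ := by
  rw [one_mul, sum_congr rfl fun ρ _ => sum_congr rfl fun α hα => by rw [ATrK_put_vac L hα]]
  refine ATrK_vac_le L p (W := fun α => ((L.nhN α : ℝ) + p) ^ (p - 1)) (fun α => by positivity)
    fun α _ => ?_
  have hp' : (p : ℝ) ≤ 4 := by exact_mod_cast hp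
  have hn : (0 : ℝ) ≤ L.nhN α := Nat.cast_nonneg _
  exact (pow_le_pow_left₀ (by positivity) (by linarith) _).trans
    (pow_le_pow_right₀ (by linarith) (by omega))

theorem ATrK_V1 (ho : L.o ∈ L.low) (hs : ∀ α, Ψ α ≠ 0 → ∀ i, α i = L.o ∨ α i ∉ L.low) {p c j : ℕ}
    (hp : p ≤ 4) (hc4 : c ≤ 4) (hj1 : j ≤ 1) (hc : c ≤ Fintype.card ι) {γ : Fin c → I}
    (hγ : γ ∈ L.lowF c) (hj : j ≤ L.nno γ) :
    ∑ ρ : Fin p ↪ ι, ∑ α ∈ L.vac ρ, ((L.nhN α : ℝ) + p) ^ (p - 1) *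
        chan ρ γ (L.oo (p + c)) Ψ α ^ 2 ≤
      2 ^ (p + 2 * c) * (Fintype.card ι : ℝ) ^ (p + 2 * c - j) *
        ex (fun α => ((L.nhN α : ℝ) + 4) ^ 6) Ψ := by
  refine (L.chan_count ho hγ (L.oo_mem_lowF ho _) (hj.trans (Nat.le_add_right _ _)) hc
    (W := fun α => ((L.nhN α : ℝ) + p) ^ (p - 1)) (fun α => by positivity)
    (L.lowInv_nhN fun n => ((n : ℝ) + p) ^ (p - 1)) Ψ).trans ?_
  refine mul_le_mul_of_nonneg_left (ex_mono fun α hα => ?_) (by positivity)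
  have h1 := ATrK_np hs hα
  have hp' : (p : ℝ) ≤ 4 := by exact_mod_cast hp
  have hc' : (c : ℝ) ≤ 4 := by exact_mod_cast hc4
  have hn : (0 : ℝ) ≤ L.nhN α := Nat.cast_nonneg _
  calc _ ≤ ((L.nhN α : ℝ) + 4) ^ j * ((L.nhN α : ℝ) + 4) ^ (p - 1) :=
        mul_le_mul (pow_le_pow_left₀ (by positivity) (by linarith) _)
          (pow_le_pow_left₀ (by positivity) (by linarith) _) (by positivity) (by positivity)
    _ = ((L.nhN α : ℝ) + 4) ^ (j + (p - 1)) := (pow_add _ _ _).symm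
    _ ≤ _ := pow_le_pow_right₀ (by linarith) (by omega)

theorem ATrK_V2 (ho : L.o ∈ L.low) (hs : ∀ α, Ψ α ≠ 0 → ∀ i, α i = L.o ∨ α i ∉ L.low)
    (hc : 1 ≤ Fintype.card ι) {γ : Fin 1 → I} (hγ : γ ∈ L.lowF 1) :
    ∑ ρ : Fin 2 ↪ ι, ∑ α ∈ L.vac ρ, ((L.nhN α : ℝ) + (2 : ℕ)) ^ (2 - 1) *
        (chan ρ γ (L.oo (2 + 1)) Ψ α -
          (if γ = L.oo 1 then (Fintype.card ι : ℝ) else 0) * Ψ (put ρ (L.oo 2) α)) ^ 2 ≤
      16 * (Fintype.card ι : ℝ) ^ 3 * ex (fun α => ((L.nhN α : ℝ) + 4) ^ 6) Ψ := by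
  have hN : (1 : ℝ) ≤ Fintype.card ι := by exact_mod_cast hc
  by_cases h : γ = L.oo 1
  · subst h
    have h1 : ∀ ρ : Fin 2 ↪ ι, ∀ α ∈ L.vac ρ, ((L.nhN α : ℝ) + (2 : ℕ)) ^ (2 - 1) *
        (chan ρ (L.oo 1) (L.oo (2 + 1)) Ψ α -
          (if L.oo 1 = L.oo 1 then (Fintype.card ι : ℝ) else 0) * Ψ (put ρ (L.oo 2) α)) ^ 2 =
        (((L.nhN α : ℝ) + 2) * (((Fintype.card ι - L.npN α - 2 : ℕ) : ℝ) - Fintype.card ι) ^ 2) *
          Ψ α ^ 2 := by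
      intro ρ α hα
      rw [L.chan_oo ρ Ψ hα, ATrK_put_vac L hα, if_pos rfl, Nat.descFactorial_one]
      push_cast
      ring
    rw [sum_congr rfl fun ρ _ => sum_congr rfl (h1 ρ)]
    refine (ATrK_vac_le L 2 (W' := fun α => ((L.nhN α : ℝ) + 4) ^ 6) (fun α => by positivity)
      fun α hα => ?_).trans ?_
    · have h2 := ATrK_np hs hα
      have hn : (0 : ℝ) ≤ L.nhN α := Nat.cast_nonneg _
      have h3 : ((Fintype.card ι - L.npN α - 2 : ℕ) : ℝ) ≤ Fintype.card ι := by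
        exact_mod_cast (by omega : Fintype.card ι - L.npN α - 2 ≤ Fintype.card ι)
      have h4 : (Fintype.card ι : ℝ) ≤ (Fintype.card ι - L.npN α - 2 : ℕ) + L.npN α + 2 := by
        exact_mod_cast (by omega : Fintype.card ι ≤ Fintype.card ι - L.npN α - 2 + L.npN α + 2)
      have h5 : (((Fintype.card ι - L.npN α - 2 : ℕ) : ℝ) - Fintype.card ι) ^ 2 ≤
          ((L.nhN α : ℝ) + 4) ^ 2 := sq_le_sq' (by linarith) (by linarith)
      calc _ ≤ ((L.nhN α : ℝ) + 4) * ((L.nhN α : ℝ) + 4) ^ 2 :=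
            mul_le_mul (by linarith) h5 (sq_nonneg _) (by positivity)
        _ = ((L.nhN α : ℝ) + 4) ^ 3 := by ring
        _ ≤ _ := pow_le_pow_right₀ (by linarith) (by norm_num)
    · refine mul_le_mul_of_nonneg_right ?_ (ex_nonneg fun α => by positivity)
      have := pow_le_pow_right₀ hN (show 2 ≤ 3 by norm_num)
      have h0 : (0 : ℝ) ≤ (Fintype.card ι : ℝ) ^ 3 := by positivity
      linarith
  · have hj : 1 ≤ L.nno γ := by
      obtain ⟨j, hj⟩ := Function.ne_iff.1 h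
      exact card_pos.2 ⟨j, mem_filter.2 ⟨mem_univ _, hj⟩⟩
    have := ATrK_V1 ho hs (p := 2) (by norm_num) (by norm_num) le_rfl hc hγ hj
    simp only [if_neg h, zero_mul, sub_zero]
    refine this.trans (le_of_eq ?_)
    norm_num

end Supp

section Parts

variable {D : Dat I E} {γ Λ C₀ C : ℝ} {Ψ : (ι → I) → ℝ}

theorem ATrK_F4t (D : Dat I E) (α : Fin 4 → I) : D.F4t α (D.oo 4) = D.F4 α := if_pos rfl

theorem ATrK_FD (D : Dat I E) (g : Fin 1 → I) :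
    (fun a : Fin 3 → I => D.F4t (Fin.append a g) (D.oo (3 + 1))) = D.FD g :=
  funext fun _ => if_pos rfl

theorem ATrK_FE (D : Dat I E) (g : Fin 2 → I) :
    (fun a : Fin 2 → I => D.F4t (Fin.append a g) (D.oo (2 + 2))) = D.FE g :=
  funext fun _ => if_pos rfl

theorem ATrK_part4 (hN1 : 2 ≤ Fintype.card ι) (hB : D.Base γ Λ C₀ C)
    (hT : D.Trial √(Fintype.card ι : ℝ) C)
    (hs : ∀ α, Ψ α ≠ 0 → ∀ i, α i = D.o ∨ α i ∉ D.low) :
    ATrK_Q D.toLv (fun (ρ : Fin 4 ↪ ι) α =>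
        D.G4 (α ∘ ρ) * Ψ (put ρ (D.oo 4) α) + D.gen (D.S4 Ψ) ρ α) ≤
      4 * (C * ex (fun α => ((D.nhN α : ℝ) + 4) ^ 6) Ψ) := by
  have hC : 0 ≤ C := by linarith [hB.C₀_ge, hB.C₀_le]
  have hN' : (1 : ℝ) ≤ Fintype.card ι := by exact_mod_cast (by omega : 1 ≤ Fintype.card ι)
  have hs1 : 1 ≤ √(Fintype.card ι : ℝ) := Real.one_le_sqrt.2 hN'
  have hsq : √(Fintype.card ι : ℝ) ^ 2 = Fintype.card ι := Real.sq_sqrt (by positivity)
  have hm : 0 ≤ ex (fun α => ((D.nhN α : ℝ) + 4) ^ 6) Ψ := ex_nonneg fun α => by positivity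
  have h1 : (fun (ρ : Fin 4 ↪ ι) α => D.G4 (α ∘ ρ) * Ψ (put ρ (D.oo 4) α) + D.gen (D.S4 Ψ) ρ α) =
      fun (ρ : Fin 4 ↪ ι) α =>
        (fun a => D.G4 a + D.resK D.F4 a) (α ∘ ρ) * Ψ (put ρ (D.oo 4) α) := by
    funext ρ α
    have := ATrK_gen0 hB.o_low hs 4 D.F4t ρ α
    simp only [ATrK_F4t] at this
    change _ + D.gen (fun ρ α => D.src 4 0 D.F4t ρ Ψ α) ρ α = _
    rw [this]
    ring
  rw [h1]
  have h2 := ATrK_Q_le hB.o_low hB.lam_nonneg (T := fun a => D.G4 a + D.resK D.F4 a)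
    (fun a ha => by simp only [hT.z4 a ha, ATrK_resK_z _ _ a ha, add_zero])
    (ATrK_indep D.toLv 4 Ψ) hs1 hC hm zero_le_one zero_le_one (show 2 * 4 ≤ 8 by norm_num)
    (by rw [one_mul]; exact hT.k4) (by rw [hsq]; exact ATrK_V0 le_rfl)
  refine h2.trans (le_of_eq ?_)
  push_cast
  ring

theorem ATrK_part3 (hN1 : 2 ≤ Fintype.card ι) (hB : D.Base γ Λ C₀ C)
    (hN : D.Norms √(Fintype.card ι : ℝ) Λ C₀ C) (hT : D.Trial √(Fintype.card ι : ℝ) C)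
    (hs : ∀ α, Ψ α ≠ 0 → ∀ i, α i = D.o ∨ α i ∉ D.low) :
    ATrK_Q D.toLv (fun (ρ : Fin 3 ↪ ι) α =>
        D.G3 (α ∘ ρ) * Ψ (put ρ (D.oo 3) α) + D.gen (D.S3 Ψ) ρ α) ≤
      (6 + 576 * C ^ 2) * (C * ex (fun α => ((D.nhN α : ℝ) + 4) ^ 6) Ψ) := by
  have hC : 0 ≤ C := by linarith [hB.C₀_ge, hB.C₀_le]
  have hN' : (1 : ℝ) ≤ Fintype.card ι := by exact_mod_cast (by omega : 1 ≤ Fintype.card ι)
  have hs1 : 1 ≤ √(Fintype.card ι : ℝ) := Real.one_le_sqrt.2 hN'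
  have hsq : √(Fintype.card ι : ℝ) ^ 2 = Fintype.card ι := Real.sq_sqrt (by positivity)
  have hm : 0 ≤ ex (fun α => ((D.nhN α : ℝ) + 4) ^ 6) Ψ := ex_nonneg fun α => by positivity
  have hl := hB.lam_nonneg
  have h1 : (fun (ρ : Fin 3 ↪ ι) α => D.G3 (α ∘ ρ) * Ψ (put ρ (D.oo 3) α) + D.gen (D.S3 Ψ) ρ α) =
      fun (ρ : Fin 3 ↪ ι) α =>
        (fun a => D.G3 a + D.resK (D.FA (D.oo 3)) a) (α ∘ ρ) * Ψ (put ρ (D.oo 3) α) +
        ∑ g ∈ D.lowF 1, 1 * (D.resK (D.FD g) (α ∘ ρ) * chan ρ g (D.oo (3 + 1)) Ψ α) := by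
    funext ρ α
    have e1 := ATrK_gen0 hB.o_low hs 3 D.F3 ρ α
    have e2 := ATrK_gen hB.o_low hs 3 1 D.F4t ρ α
    simp only [ATrK_FD, Nat.factorial_one, Nat.cast_one, div_one] at e2
    change _ + D.gen (fun ρ α => D.src 3 0 D.F3 ρ Ψ α + D.src 3 1 D.F4t ρ Ψ α) ρ α = _
    rw [Lv.gen_add, e1, e2, add_mul, add_assoc]
    rfl
  rw [h1]
  have h2 := ATrK_Q_le hB.o_low hl (T := fun a => D.G3 a + D.resK (D.FA (D.oo 3)) a)
    (fun a ha => by simp only [hT.z3 a ha, ATrK_resK_z _ _ a ha, add_zero])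
    (ATrK_indep D.toLv 3 Ψ) hs1 hC hm zero_le_one zero_le_one (show 2 * 3 ≤ 6 by norm_num)
    (by rw [one_mul]; exact hT.k3) (by rw [hsq]; exact ATrK_V0 (by norm_num))
  have h3 := ATrK_Q_sum hl (D.lowF 1) (c := 1) (by norm_num)
    (fun g (ρ : Fin 3 ↪ ι) α => D.resK (D.FD g) (α ∘ ρ) * chan ρ g (D.oo (3 + 1)) Ψ α)
    (b := (3 : ℕ) * 3 * 2 ^ (3 + 2 * 1) * (C * ex (fun α => ((D.nhN α : ℝ) + 4) ^ 6) Ψ)) (n := C)
    (by positivity) (by rw [Lv.card_lowF, pow_one]; exact hB.card_low) fun g hg => by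
      refine ATrK_Q_le hB.o_low hl (ATrK_resK_z _ _) (chan_indep g _ Ψ) hs1 hC hm (by norm_num)
        (by positivity) (show 2 * 5 ≤ 10 by norm_num) ?_
        (by rw [hsq]; exact ATrK_V1 hB.o_low hs (j := 0) (by norm_num) (by norm_num) (by norm_num)
              (by omega) hg (Nat.zero_le _))
      refine (ATrK_hs hs1 hl (hN.fD g hg) (by positivity)).trans (le_of_eq ?_)
      rw [div_div, ← pow_add]
      norm_num
  refine (ATrK_Q_add hl _ _).trans ?_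
  push_cast at h2 h3
  linarith

theorem ATrK_part2 (hN1 : 2 ≤ Fintype.card ι) (hB : D.Base γ Λ C₀ C)
    (hN : D.Norms √(Fintype.card ι : ℝ) Λ C₀ C) (hT : D.Trial √(Fintype.card ι : ℝ) C)
    (hs : ∀ α, Ψ α ≠ 0 → ∀ i, α i = D.o ∨ α i ∉ D.low) :
    ATrK_Q D.toLv (fun (ρ : Fin 2 ↪ ι) α =>
        D.G2 (α ∘ ρ) * Ψ (put ρ (D.oo 2) α) + D.gen (D.S2 Ψ) ρ α) ≤
      (8 + 256 * C ^ 2 + 512 * C ^ 4) * (C * ex (fun α => ((D.nhN α : ℝ) + 4) ^ 6) Ψ) := by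
  have hC : 0 ≤ C := by linarith [hB.C₀_ge, hB.C₀_le]
  have hN' : (1 : ℝ) ≤ Fintype.card ι := by exact_mod_cast (by omega : 1 ≤ Fintype.card ι)
  have hs1 : 1 ≤ √(Fintype.card ι : ℝ) := Real.one_le_sqrt.2 hN'
  have hsq : √(Fintype.card ι : ℝ) ^ 2 = Fintype.card ι := Real.sq_sqrt (by positivity)
  have hm : 0 ≤ ex (fun α => ((D.nhN α : ℝ) + 4) ^ 6) Ψ := ex_nonneg fun α => by positivity
  have hl := hB.lam_nonneg
  have hoo := fun n => D.toLv.oo_mem_lowF hB.o_low n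
  have h1 : (fun (ρ : Fin 2 ↪ ι) α => D.G2 (α ∘ ρ) * Ψ (put ρ (D.oo 2) α) + D.gen (D.S2 Ψ) ρ α) =
      fun (ρ : Fin 2 ↪ ι) α =>
        ((fun a => D.G2 a + √(Fintype.card ι : ℝ) ^ 2 * D.resK (D.FB (D.oo 1) (D.oo 3)) a) (α ∘ ρ) *
          Ψ (put ρ (D.oo 2) α) +
        ∑ g ∈ D.lowF 1, 1 * (D.resK (D.FB g (D.oo 3)) (α ∘ ρ) * (chan ρ g (D.oo (2 + 1)) Ψ α -
          (if g = D.oo 1 then (Fintype.card ι : ℝ) else 0) * Ψ (put ρ (D.oo 2) α)))) +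
        ∑ g ∈ D.lowF 2, (1 / 2) * (D.resK (D.FE g) (α ∘ ρ) * chan ρ g (D.oo (2 + 2)) Ψ α) := by
    funext ρ α
    have e1 := ATrK_gen hB.o_low hs 2 1 D.F3 ρ α
    have e2 := ATrK_gen hB.o_low hs 2 2 D.F4t ρ α
    simp only [Nat.factorial_one, Nat.cast_one, div_one] at e1
    simp only [ATrK_FE, Nat.factorial_two, Nat.cast_ofNat] at e2
    change _ + D.gen (fun ρ α => D.src 2 1 D.F3 ρ Ψ α + D.src 2 2 D.F4t ρ Ψ α) ρ α = _
    rw [Lv.gen_add, e1, e2, ← add_assoc, hsq]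
    congr 1
    have e3 : ∑ g ∈ D.lowF 1, D.resK (D.FB g (D.oo 3)) (α ∘ ρ) *
        ((if g = D.oo 1 then (Fintype.card ι : ℝ) else 0) * Ψ (put ρ (D.oo 2) α)) =
        D.resK (D.FB (D.oo 1) (D.oo 3)) (α ∘ ρ) *
          ((Fintype.card ι : ℝ) * Ψ (put ρ (D.oo 2) α)) := by
      rw [sum_eq_single_of_mem _ (hoo 1) fun g _ hg => by rw [if_neg hg, zero_mul, mul_zero],
        if_pos rfl]
    simp only [one_mul, mul_sub, sum_sub_distrib]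
    rw [e3]
    change _ + ∑ g ∈ D.lowF 1, D.resK (D.FB g (D.oo 3)) (α ∘ ρ) * chan ρ g (D.oo (2 + 1)) Ψ α = _
    ring
  rw [h1]
  have h2 := ATrK_Q_le hB.o_low hl
    (T := fun a => D.G2 a + √(Fintype.card ι : ℝ) ^ 2 * D.resK (D.FB (D.oo 1) (D.oo 3)) a)
    (fun a ha => by simp only [hT.z2 a ha, ATrK_resK_z _ _ a ha, mul_zero, add_zero])
    (ATrK_indep D.toLv 2 Ψ) hs1 hC hm zero_le_one zero_le_one (show 2 * 2 ≤ 4 by norm_num)
    (by rw [one_mul]; exact hT.k2) (by rw [hsq]; exact ATrK_V0 (by norm_num))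
  have h3 := ATrK_Q_sum hl (D.lowF 1) (c := 1) (by norm_num)
    (fun g (ρ : Fin 2 ↪ ι) α => D.resK (D.FB g (D.oo 3)) (α ∘ ρ) * (chan ρ g (D.oo (2 + 1)) Ψ α -
      (if g = D.oo 1 then (Fintype.card ι : ℝ) else 0) * Ψ (put ρ (D.oo 2) α)))
    (b := (2 : ℕ) * 2 * 16 * (C * ex (fun α => ((D.nhN α : ℝ) + 4) ^ 6) Ψ)) (n := C)
    (by positivity) (by rw [Lv.card_lowF, pow_one]; exact hB.card_low) fun g hg => by
      refine ATrK_Q_le hB.o_low hl (ATrK_resK_z _ _) (fun ρ β α => ?_) hs1 hC hm (by norm_num)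
        (by positivity) (show 2 * 3 ≤ 7 by norm_num) ?_
        (by rw [hsq]; exact ATrK_V2 hB.o_low hs (by omega) hg)
      · have := chan_indep g (D.oo (2 + 1)) Ψ ρ β α
        simp only at this
        simp only [this, put_put]
      · refine (ATrK_hs hs1 hl (hN.fB g hg _ (hoo 3)) (by positivity)).trans (le_of_eq ?_)
        rw [div_div, ← pow_add]
        norm_num
  have h4 := ATrK_Q_sum hl (D.lowF 2) (c := 1 / 2) (by norm_num)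
    (fun g (ρ : Fin 2 ↪ ι) α => D.resK (D.FE g) (α ∘ ρ) * chan ρ g (D.oo (2 + 2)) Ψ α)
    (b := (2 : ℕ) * 2 * 2 ^ (2 + 2 * 2) * (C * ex (fun α => ((D.nhN α : ℝ) + 4) ^ 6) Ψ))
    (n := C ^ 2) (by positivity)
    (by rw [Lv.card_lowF, Nat.cast_pow]; exact pow_le_pow_left₀ (by positivity) hB.card_low 2)
    fun g hg => by
      refine ATrK_Q_le hB.o_low hl (ATrK_resK_z _ _) (chan_indep g _ Ψ) hs1 hC hm (by norm_num)
        (by positivity) (show 2 * 6 ≤ 13 by norm_num) ?_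
        (by rw [hsq]; exact ATrK_V1 hB.o_low hs (j := 0) (by norm_num) (by norm_num) (by norm_num)
              hN1 hg (Nat.zero_le _))
      refine (ATrK_hs hs1 hl (hN.fE g hg) (by positivity)).trans (le_of_eq ?_)
      rw [div_div, ← pow_add]
      norm_num
  refine (ATrK_Q_add hl _ _).trans ?_
  have h5 := ATrK_Q_add hl (fun (ρ : Fin 2 ↪ ι) α =>
    (fun a => D.G2 a + √(Fintype.card ι : ℝ) ^ 2 * D.resK (D.FB (D.oo 1) (D.oo 3)) a) (α ∘ ρ) *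
      Ψ (put ρ (D.oo 2) α))
    (fun (ρ : Fin 2 ↪ ι) α => ∑ g ∈ D.lowF 1, 1 * (D.resK (D.FB g (D.oo 3)) (α ∘ ρ) *
      (chan ρ g (D.oo (2 + 1)) Ψ α -
        (if g = D.oo 1 then (Fintype.card ι : ℝ) else 0) * Ψ (put ρ (D.oo 2) α))))
  push_cast at h2 h3 h4
  linarith

end Parts

theorem ATrK_point (w l x a b c g e : ℝ) (hw : 0 ≤ w) (hwl : w ≤ l) (he : e = 0 ∨ e = 1)
    (hx : x = 1 / 2 * a + 1 / 6 * b + 1 / 24 * c - e * g) :
    w * x ^ 2 ≤ 2 * (l * a ^ 2 + l * b ^ 2 + l * c ^ 2) + 2 * (e * (l + 1) * g ^ 2) := by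
  have hl : 0 ≤ l := hw.trans hwl
  have h1 := ATrK_three l a b c hl
  have h2 : x ^ 2 ≤ 2 * (1 / 2 * a + 1 / 6 * b + 1 / 24 * c) ^ 2 + 2 * (e * g) ^ 2 := by
    rw [hx]
    nlinarith [sq_nonneg (1 / 2 * a + 1 / 6 * b + 1 / 24 * c + e * g)]
  have h3 : w * x ^ 2 ≤ l * x ^ 2 := mul_le_mul_of_nonneg_right hwl (sq_nonneg _)
  have h4 := mul_le_mul_of_nonneg_left h2 hl
  have h5 : l * (e * g) ^ 2 ≤ e * (l + 1) * g ^ 2 := by
    rcases he with rfl | rfl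
    · simp
    · nlinarith [sq_nonneg g]
  nlinarith

theorem trial_Kc (C K₁ : ℝ) : ∃ K : ℝ, 0 ≤ K ∧ ∀ {I ι E : Type} [Fintype I] [DecidableEq I] [Fintype ι] [DecidableEq ι]
      [NormedAddCommGroup E] [InnerProductSpace ℝ E] (D : Dat I E)
      (γ Λ C₀ : ℝ) (Mx : ℕ) (Ψ : (ι → I) → ℝ), 2 ≤ Fintype.card ι → D.Base γ Λ C₀ C →
      D.Norms √(Fintype.card ι : ℝ) Λ C₀ C → D.Trial √(Fintype.card ι : ℝ) C → D.IsTrial Mx Ψ →
      ex (fun α => ((D.nhN α : ℝ) + 4) ^ 6) Ψ ≤ K₁ * nsq Ψ →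
      (Fintype.card ι : ℝ) ^ 4 *
        ex (fun α => if Mx < D.nhN α + 4 then ((D.nhN α : ℝ) + 4) ^ 6 else 0) Ψ ≤ K₁ * nsq Ψ →
      D.Kc Ψ ≤ K * nsq Ψ := by
  obtain ⟨K, hK, htop⟩ := top_bound C K₁
  refine ⟨2 * ((18 + 832 * C ^ 2 + 512 * C ^ 4) * (|C| * |K₁|)) + 2 * K, by positivity, ?_⟩
  intro I ι E _ _ _ _ _ _ D γ Λ C₀ Mx Ψ hN1 hB hN hT hΨ hm hm'
  have hC : 0 ≤ C := by linarith [hB.C₀_ge, hB.C₀_le]
  have hl := hB.lam_nonneg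
  have hN' : (1 : ℝ) ≤ Fintype.card ι := by exact_mod_cast (by omega : 1 ≤ Fintype.card ι)
  have hs : ∀ α, Ψ α ≠ 0 → ∀ i, α i = D.o ∨ α i ∉ D.low := fun α h => (hΨ.supp α h).1
  have h2 := ATrK_part2 hN1 hB hN hT hs
  have h3 := ATrK_part3 hN1 hB hN hT hs
  have h4 := ATrK_part4 hN1 hB hT hs
  have h5 := htop D γ Λ C₀ Mx Ψ (by omega) hB hN hT hm'
  have h6 : ∑ i, ∑ α, (if Mx < D.nhN α then 1 else 0) * (D.lam (α i) + 1) *
      (∑ t, D.gP Ψ t i α) ^ 2 ≤ K * nsq Ψ := by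
    refine le_trans (le_mul_of_one_le_left ?_ (one_le_pow₀ hN')) h5
    refine sum_nonneg fun i _ => sum_nonneg fun α _ => ?_
    have := hl (α i)
    split_ifs <;> positivity
  have h7 : D.Kc Ψ ≤ 2 * (ATrK_Q D.toLv (fun (ρ : Fin 2 ↪ ι) α =>
        D.G2 (α ∘ ρ) * Ψ (put ρ (D.oo 2) α) + D.gen (D.S2 Ψ) ρ α) +
      ATrK_Q D.toLv (fun (ρ : Fin 3 ↪ ι) α =>
        D.G3 (α ∘ ρ) * Ψ (put ρ (D.oo 3) α) + D.gen (D.S3 Ψ) ρ α) +
      ATrK_Q D.toLv (fun (ρ : Fin 4 ↪ ι) α =>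
        D.G4 (α ∘ ρ) * Ψ (put ρ (D.oo 4) α) + D.gen (D.S4 Ψ) ρ α)) +
      2 * ∑ i, ∑ α, (if Mx < D.nhN α then 1 else 0) * (D.lam (α i) + 1) *
        (∑ t, D.gP Ψ t i α) ^ 2 := by
    simp only [Dat.Kc, ATrK_Q, ATrK_cre_add]
    rw [← sum_add_distrib, ← sum_add_distrib, mul_sum, mul_sum, ← sum_add_distrib]
    refine sum_le_sum fun i _ => ?_
    rw [← sum_add_distrib, ← sum_add_distrib, mul_sum, mul_sum, ← sum_add_distrib]
    refine sum_le_sum fun α _ => ?_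
    have hli := hl (α i)
    by_cases hi : α i ∈ D.low
    · rw [if_pos hi, zero_mul]
      split_ifs <;> positivity
    · rw [if_neg hi]
      refine ATrK_point _ _ _ _ _ _ _ _ hli le_rfl (by split_ifs <;> simp) ?_
      have e1 : Ψ α = (∑ t, D.gP Ψ t i α) -
          (if Mx < D.nhN α then 1 else 0) * ∑ t, D.gP Ψ t i α := by
        by_cases hM : Mx < D.nhN α
        · rw [if_pos hM, one_mul, sub_self]
          by_contra h
          exact absurd (hΨ.supp α h).2 (not_le.2 hM)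
        · rw [if_neg hM, zero_mul, sub_zero]
          exact hΨ.rec_eq i α hi (not_lt.1 hM)
      have e2 : ∑ t, D.gP Ψ t i α =
          (1 / 2) * cre (fun (ρ : Fin 2 ↪ ι) α => D.G2 (α ∘ ρ) * Ψ (put ρ (D.oo 2) α)) i α +
          (1 / 6) * cre (fun (ρ : Fin 3 ↪ ι) α => D.G3 (α ∘ ρ) * Ψ (put ρ (D.oo 3) α)) i α +
          (1 / 24) * cre (fun (ρ : Fin 4 ↪ ι) α => D.G4 (α ∘ ρ) * Ψ (put ρ (D.oo 4) α)) i α := by
        rw [Fin.sum_univ_three]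
        rfl
      have e3 : D.xi Ψ i α = -(1 / 2) * cre (D.gen (D.S2 Ψ)) i α +
          -(1 / 6) * cre (D.gen (D.S3 Ψ)) i α + -(1 / 24) * cre (D.gen (D.S4 Ψ)) i α := by
        rw [Dat.xi, Fin.sum_univ_three]
        rfl
      linarith
  have h8 : C * ex (fun α => ((D.nhN α : ℝ) + 4) ^ 6) Ψ ≤ |C| * |K₁| * nsq Ψ := by
    rw [abs_of_nonneg hC, mul_assoc]
    exact mul_le_mul_of_nonneg_left
      (hm.trans (mul_le_mul_of_nonneg_right (le_abs_self _) (nsq_nonneg _))) hC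
  have h9 := mul_le_mul_of_nonneg_left h8
    (show 0 ≤ 18 + 832 * C ^ 2 + 512 * C ^ 4 by positivity)
  linarith

end Pool.Agent.Lib.MP_8fe63c_mp
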