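import Pool.Agent.Lib.MP_8fe63c_mp.ATrV4

/-!
The completed interaction square of the trial state.

Sketch. Fix `σ` and `α ∈ vac σ`. In `av = ∑ β Ψ (put σ β α) • υ β` only `β` with entries `o` or high
contribute; split by the pattern of high entries. One high entry: `h2` and `υ_symm`, total at most
`C k`. For two or three high entries let `i` be the leg of the first high entry and write
`Ψ α' = ∑ t gP t i α' - 1 {nhN α' > Mx} ∑ t gP t i α'`; the second part is bounded by `h0`, `υ_symm` and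
`top_bound`. By symmetry of `G_p`, `gP` is an explicit sum over the other legs of the cluster
(`gP_explicit`); split according to which of them are legs of `σ` (a leg with mode `o` cannot be
in a cluster). Matched terms: the cluster `σ` itself, with `υ o - y3 o` (`v1`); clusters with one
outside leg `l` that contain all high legs of `σ` (three legs and `G4`, or two legs and `G3`),
with `y4 (α l)` for `α l` high (`v2`). The terms of `Yv` with `α l` low are bounded by `y4_op`.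
Unmatched: `G2` on two legs of `σ` and `G4` on two legs of `σ` and two outside legs with the third leg
`o` (`h1`, `G_hs`); clusters that miss a high leg of `σ` (`a2..a4`, `b2..b4`, `c2..c4`). Sums over
outside legs: they must be high legs of `α`, so Cauchy-Schwarz costs `nhN α ^ c`, and the sum over their
positions costs `N^c`.
-/

set_option linter.unusedSectionVars false
set_option linter.unusedVariables false

open Finset
open scoped InnerProductSpace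

namespace Pool.Agent.Lib.MP_8fe63c_mp

variable {I ι κ κ' E : Type} [Fintype I] [DecidableEq I] [Fintype ι] [DecidableEq ι]
  [Fintype κ] [DecidableEq κ] [Fintype κ'] [DecidableEq κ']
  [NormedAddCommGroup E] [InnerProductSpace ℝ E]


namespace Dat

variable {D : Dat I E} {γ Λ C₀ C KG Kt K : ℝ} {Mx : ℕ} {Ψ : (ι → I) → ℝ}

theorem ATrV_oo3 (L : Lv I) : L.oo 3 = ![L.o, L.o, L.o] := by
  funext j
  fin_cases j <;> rfl

theorem ATrV_split (L : Lv I) (ho : L.o ∈ L.low) (f : I → E)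
    (hf : ∀ a ∈ L.low, a ≠ L.o → f a = 0) : ∑ a, f a = f L.o + ∑ a, ATrV_e L a • f a := by
  have e : ∀ a, f a = (if a = L.o then f a else 0) + ATrV_e L a • f a := by
    intro a
    unfold ATrV_e
    by_cases h : a = L.o
    · simp [h, ho]
    · by_cases h' : a ∈ L.low
      · simp [h, h', hf a h' h]
      · simp [h, h']
  rw [sum_congr rfl fun a _ => e a, sum_add_distrib]
  simp

theorem ATrV_r2_perm (D : Dat I E) (Ψ : (ι → I) → ℝ) (σ : Fin 3 ↪ ι) (π : Equiv.Perm (Fin 3))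
    (α : ι → I) (a b : I) (β : Fin 3 → I) (hβ : β ∘ π = ![a, b, D.o]) :
    D.ATrV_r2 Ψ (π.toEmbedding.trans σ) α a b =
      ATrV_e D.toLv a * ATrV_e D.toLv b * Ψ (put σ β α) -
        ATrV_S1 D.o σ α fun x α' => D.G3 ![a, b, x] * Ψ (put σ ![D.o, D.o, D.o] α') := by
  have e : (![D.o, D.o, D.o] : Fin 3 → I) = ![D.o, D.o, D.o] ∘ π := by
    rw [← ATrV_oo3 D.toLv]
    rfl
  have e2 : ∀ α', put (π.toEmbedding.trans σ) ![D.o, D.o, D.o] α' = put σ ![D.o, D.o, D.o] α' := by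
    intro α'
    conv_lhs => rw [e]
    exact put_perm _ _ _ _
  unfold ATrV_r2
  rw [← hβ, put_perm]
  simp only [e2]
  congr 1
  refine sum_congr rfl fun l _ => if_congr (not_congr ⟨?_, ?_⟩) rfl rfl
  · rintro ⟨j, hj⟩
    exact ⟨π j, hj⟩
  · rintro ⟨j, hj⟩
    exact ⟨π.symm j, by simpa using hj⟩

theorem ATrV_Hyp.low (H : D.ATrV_Hyp γ Λ C₀ C KG Kt K Mx Ψ) :
    ATrV_Nn D.toLv (fun (σ : Fin 3 ↪ ι) α => ATrV_S1 D.o σ α
      fun x α' => ((1 - ATrV_e D.toLv x) * Ψ α') • D.y4 x) ≤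
      1 * (K * ex (fun α => ((D.nhN α : ℝ) + 4) ^ 6) Ψ) := by
  have hC := H.C0
  have hN := H.N_pos
  set s := √(Fintype.card ι : ℝ) with hs
  have hs0 : 0 < s := Real.sqrt_pos.2 H.N_pos
  have hy : ∀ x, ‖D.y4 x‖ ^ 2 ≤ C / s ^ 10 := fun x => by
    simpa [ite_smul] using H.n.y4_op fun δ => if δ = x then 1 else 0
  have s1 : ∀ l : ι, ∑ α : ι → I, (if α l ∈ D.low then 1 else 0) *
      Ψ (Function.update α l D.o) ^ 2 ≤ C * nsq Ψ := by
    intro l
    set τ : Fin 1 ↪ ι := ⟨![l], ATrV_inj1 l⟩ with hτ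
    have e : ∀ α, Function.update α l D.o = put τ (fun _ => D.o) α := fun α => by
      rw [ATrV_put_clr]
      exact (ATrV_clr1 _ _ _).symm
    have e' : ∀ (η : Fin 1 → I) (α : ι → I), put τ η α l = η 0 := fun η α => put_apply τ η α 0
    rw [← D.sum_vac_put τ]
    simp only [e, e', put_put]
    unfold nsq
    rw [mul_sum]
    refine le_trans (sum_le_sum (g := fun α => C * Ψ α ^ 2) fun α hα => ?_)
      (sum_le_sum_of_subset_of_nonneg (subset_univ _) fun _ _ _ => by positivity)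
    rw [ATrV_put_vac _ _ hα, ← sum_mul, ATrV_sum1]
    refine mul_le_mul_of_nonneg_right (le_trans (le_of_eq ?_) H.b.card_low) (sq_nonneg _)
    simp
  have s2 : ∀ σ : Fin 3 ↪ ι, ∑ α ∈ D.vac σ, ‖ATrV_S1 D.o σ α
      fun x α' => ((1 - ATrV_e D.toLv x) * Ψ α') • D.y4 x‖ ^ 2 ≤
      Fintype.card ι * (C / s ^ 10 * (Fintype.card ι * (C * nsq Ψ))) := by
    intro σ
    refine le_trans (sum_le_sum_of_subset_of_nonneg (subset_univ _) fun _ _ _ => sq_nonneg _) ?_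
    refine le_trans (sum_le_sum fun α _ => ATrV_norm_sum _ _) ?_
    rw [← mul_sum, card_univ, sum_comm]
    refine mul_le_mul_of_nonneg_left ?_ hN.le
    rw [mul_left_comm, ← nsmul_eq_mul, ← card_univ, ← sum_const]
    refine sum_le_sum fun l _ => le_trans ?_ (mul_le_mul_of_nonneg_left (s1 l) (by positivity))
    rw [mul_sum]
    refine sum_le_sum fun α _ => ?_
    have h1 := hy (α l)
    by_cases hx : α l ∈ D.low
    · have e1 : ATrV_e D.toLv (α l) = 0 := by simp [ATrV_e, hx]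
      simp only [e1, hx, if_true, sub_zero, one_mul]
      split_ifs
      · rw [norm_smul, mul_pow, Real.norm_eq_abs, sq_abs, mul_comm]
        exact mul_le_mul_of_nonneg_right h1 (sq_nonneg _)
      · simp only [norm_zero, ne_eq, OfNat.ofNat_ne_zero, not_false_eq_true, zero_pow]
        positivity
    · have e1 : ATrV_e D.toLv (α l) = 1 := by simp [ATrV_e, hx]
      simp [e1, hx]
  have s3 : nsq Ψ ≤ ex (fun α => ((D.nhN α : ℝ) + 4) ^ 6) Ψ := by
    refine sum_le_sum fun α _ => le_mul_of_one_le_left (sq_nonneg _) (one_le_pow₀ ?_)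
    have : (0 : ℝ) ≤ D.nhN α := Nat.cast_nonneg _
    linarith
  have s4 := nsq_nonneg Ψ
  have s5 : (Fintype.card (Fin 3 ↪ ι) : ℝ) ≤ (Fintype.card ι : ℝ) ^ 3 := by
    simpa using card_emb_all (κ := Fin 3) (ι := ι)
  have s6 := ATrV_pw hN 5 10 rfl H.k3
  refine (sum_le_sum fun σ _ => s2 σ).trans ?_
  rw [sum_const, card_univ, nsmul_eq_mul, one_mul]
  calc _ ≤ (Fintype.card ι : ℝ) ^ 3 *
        (Fintype.card ι * (C / s ^ 10 * (Fintype.card ι * (C * nsq Ψ)))) := by gcongr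
    _ = C * C / s ^ 10 * (Fintype.card ι : ℝ) ^ 5 * nsq Ψ := by ring
    _ ≤ _ := mul_le_mul s6 s3 s4 ((mul_nonneg hC hC).trans H.k3)

theorem ATrV_Hyp.ident (H : D.ATrV_Hyp γ Λ C₀ C KG Kt K Mx Ψ) (σ : Fin 3 ↪ ι) {α : ι → I}
    (hα : α ∈ D.vac σ) :
    Lv.av D.υ σ Ψ α - D.Yv σ Ψ α =
      Ψ (put σ ![D.o, D.o, D.o] α) • (D.υ (D.oo 3) + (∑ β, D.G3 β • D.υ β) - D.y3 (D.oo 3)) +
      (ATrV_S1 D.o σ α (fun x α' => (ATrV_e D.toLv x * Ψ (put σ ![D.o, D.o, D.o] α')) •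
        ((∑ β, D.G4 (Fin.snoc β x) • D.υ β) + (∑ a, ∑ b, D.G3 ![a, b, x] •
          (D.υ ![a, b, D.o] + D.υ ![a, D.o, b] + D.υ ![D.o, a, b])) - D.y4 x)) -
      ATrV_S1 D.o σ α fun x α' => ((1 - ATrV_e D.toLv x) * Ψ α') • D.y4 x) +
      (∑ a, (ATrV_e D.toLv a * Ψ (put σ ![a, D.o, D.o] α)) • D.υ ![a, D.o, D.o]) +
      (∑ a, (ATrV_e D.toLv a * Ψ (put σ ![D.o, a, D.o] α)) • D.υ ![D.o, a, D.o]) +
      (∑ a, (ATrV_e D.toLv a * Ψ (put σ ![D.o, D.o, a] α)) • D.υ ![D.o, D.o, a]) +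
      (∑ a, ∑ b, D.ATrV_r2 Ψ σ α a b • D.υ ![a, b, D.o]) +
      (∑ a, ∑ b, D.ATrV_r2 Ψ ((Equiv.swap 1 2).toEmbedding.trans σ) α a b • D.υ ![a, D.o, b]) +
      (∑ a, ∑ b, D.ATrV_r2 Ψ ((finRotate 3).toEmbedding.trans σ) α a b • D.υ ![D.o, a, b]) +
      ∑ a, ∑ b, ∑ d, D.ATrV_r3 Ψ σ α a b d • D.υ ![a, b, d] := by
  have ho := H.b.o_low
  have hz : ∀ (β : Fin 3 → I) (j : Fin 3), β j ∈ D.low → β j ≠ D.o → Ψ (put σ β α) = 0 := by
    intro β j h1 h2
    by_contra h0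
    have := (H.i.supp _ h0).1 (σ j)
    rw [put_apply] at this
    tauto
  have hav : Lv.av D.υ σ Ψ α = Ψ (put σ ![D.o, D.o, D.o] α) • D.υ ![D.o, D.o, D.o] +
      (∑ a, (ATrV_e D.toLv a * Ψ (put σ ![a, D.o, D.o] α)) • D.υ ![a, D.o, D.o]) +
      (∑ a, (ATrV_e D.toLv a * Ψ (put σ ![D.o, a, D.o] α)) • D.υ ![D.o, a, D.o]) +
      (∑ a, (ATrV_e D.toLv a * Ψ (put σ ![D.o, D.o, a] α)) • D.υ ![D.o, D.o, a]) +
      (∑ a, ∑ b, (ATrV_e D.toLv a * ATrV_e D.toLv b * Ψ (put σ ![a, b, D.o] α)) •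
        D.υ ![a, b, D.o]) +
      (∑ a, ∑ b, (ATrV_e D.toLv a * ATrV_e D.toLv b * Ψ (put σ ![a, D.o, b] α)) •
        D.υ ![a, D.o, b]) +
      (∑ a, ∑ b, (ATrV_e D.toLv a * ATrV_e D.toLv b * Ψ (put σ ![D.o, a, b] α)) •
        D.υ ![D.o, a, b]) +
      ∑ a, ∑ b, ∑ d, (ATrV_e D.toLv a * ATrV_e D.toLv b * ATrV_e D.toLv d *
        Ψ (put σ ![a, b, d] α)) • D.υ ![a, b, d] := by
    unfold Lv.av
    rw [ATrV_sum3]
    have h3 : ∀ a b, ∑ d, Ψ (put σ ![a, b, d] α) • D.υ ![a, b, d] = _ := fun a b =>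
      ATrV_split D.toLv ho _ fun d h1 h2 => by rw [hz ![a, b, d] 2 h1 h2, zero_smul]
    have h2 : ∀ a, ∑ b, ∑ d, Ψ (put σ ![a, b, d] α) • D.υ ![a, b, d] = _ := fun a =>
      ATrV_split D.toLv ho _ fun b h1 h2 =>
        sum_eq_zero fun d _ => by rw [hz ![a, b, d] 1 h1 h2, zero_smul]
    rw [ATrV_split D.toLv ho _ fun a h1 h2 => sum_eq_zero fun b _ => sum_eq_zero fun d _ => by
      rw [hz ![a, b, d] 0 h1 h2, zero_smul]]
    simp only [h2]
    simp only [h3]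
    simp only [smul_add, sum_add_distrib, smul_sum, smul_smul, mul_assoc]
    abel
  have hY : D.Yv σ Ψ α = Ψ (put σ ![D.o, D.o, D.o] α) • D.y3 (D.oo 3) +
      ATrV_S1 D.o σ α fun x α' => Ψ α' • D.y4 x := by
    unfold Yv
    congr 1
    · rw [sum_eq_single (D.oo 3), ATrV_oo3]
      · intro β hβ hne
        obtain ⟨j, hj⟩ := Function.ne_iff.1 hne
        rw [hz β j (Fintype.mem_piFinset.1 hβ j) hj, zero_smul]
      · intro h
        exact absurd (Fintype.mem_piFinset.2 fun _ => ho) h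
    · refine sum_congr rfl fun l _ => ?_
      by_cases hl : ATrV_out σ l
      · rw [if_pos hl, if_neg hl]
      · rw [if_neg hl, if_pos (not_not.1 hl)]
  have k2 : ∀ (x : I → I → ℝ) (u : I → I → E), ∑ a, ∑ b, (x a b - ATrV_S1 D.o σ α
      fun x α' => D.G3 ![a, b, x] * Ψ (put σ ![D.o, D.o, D.o] α')) • u a b =
      (∑ a, ∑ b, x a b • u a b) - ATrV_S1 D.o σ α fun x α' =>
        ∑ a, ∑ b, (D.G3 ![a, b, x] * Ψ (put σ ![D.o, D.o, D.o] α')) • u a b := by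
    intro x u
    have := map_sub (ATrV_L2 u) x (ATrV_S1 D.o σ α
      fun x α' a b => D.G3 ![a, b, x] * Ψ (put σ ![D.o, D.o, D.o] α'))
    rw [ATrV_map1] at this
    simpa only [ATrV_L2_apply, Pi.sub_apply, ATrV_app1] using this
  have k3 : ∑ a, ∑ b, ∑ d, D.ATrV_r3 Ψ σ α a b d • D.υ ![a, b, d] =
      (∑ a, ∑ b, ∑ d, (ATrV_e D.toLv a * ATrV_e D.toLv b * ATrV_e D.toLv d *
        Ψ (put σ ![a, b, d] α)) • D.υ ![a, b, d]) -
      Ψ (put σ ![D.o, D.o, D.o] α) • (∑ β, D.G3 β • D.υ β) - ATrV_S1 D.o σ α fun x α' =>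
        ∑ a, ∑ b, ∑ d, (D.G4 ![a, b, d, x] * Ψ (put σ ![D.o, D.o, D.o] α')) • D.υ ![a, b, d] := by
    have := map_sub (ATrV_L3 fun a b d => D.υ ![a, b, d])
      (fun a b d => ATrV_e D.toLv a * ATrV_e D.toLv b * ATrV_e D.toLv d * Ψ (put σ ![a, b, d] α) -
        D.G3 ![a, b, d] * Ψ (put σ ![D.o, D.o, D.o] α)) (ATrV_S1 D.o σ α
      fun x α' a b d => D.G4 ![a, b, d, x] * Ψ (put σ ![D.o, D.o, D.o] α'))
    rw [ATrV_map1] at this
    simp only [ATrV_L3_apply, Pi.sub_apply, ATrV_app1] at this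
    unfold ATrV_r3
    rw [this, ATrV_sum3]
    simp only [sub_smul, sum_sub_distrib, smul_sum, smul_smul, mul_comm]
  have p1 : ∀ a b, D.ATrV_r2 Ψ ((Equiv.swap 1 2).toEmbedding.trans σ) α a b = _ := fun a b =>
    D.ATrV_r2_perm Ψ σ _ α a b ![a, D.o, b] (by funext j; fin_cases j <;> rfl)
  have p2 : ∀ a b, D.ATrV_r2 Ψ ((finRotate 3).toEmbedding.trans σ) α a b = _ := fun a b =>
    D.ATrV_r2_perm Ψ σ _ α a b ![D.o, a, b] (by funext j; fin_cases j <;> rfl)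
  have key : (ATrV_S1 D.o σ α (fun x α' => (ATrV_e D.toLv x * Ψ (put σ ![D.o, D.o, D.o] α')) •
        ((∑ β, D.G4 (Fin.snoc β x) • D.υ β) + (∑ a, ∑ b, D.G3 ![a, b, x] •
          (D.υ ![a, b, D.o] + D.υ ![a, D.o, b] + D.υ ![D.o, a, b])) - D.y4 x)) -
      ATrV_S1 D.o σ α fun x α' => ((1 - ATrV_e D.toLv x) * Ψ α') • D.y4 x) =
      (ATrV_S1 D.o σ α fun x α' =>
        ∑ a, ∑ b, ∑ d, (D.G4 ![a, b, d, x] * Ψ (put σ ![D.o, D.o, D.o] α')) • D.υ ![a, b, d]) +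
      (ATrV_S1 D.o σ α fun x α' =>
        ∑ a, ∑ b, (D.G3 ![a, b, x] * Ψ (put σ ![D.o, D.o, D.o] α')) • D.υ ![a, b, D.o]) +
      (ATrV_S1 D.o σ α fun x α' =>
        ∑ a, ∑ b, (D.G3 ![a, b, x] * Ψ (put σ ![D.o, D.o, D.o] α')) • D.υ ![a, D.o, b]) +
      (ATrV_S1 D.o σ α fun x α' =>
        ∑ a, ∑ b, (D.G3 ![a, b, x] * Ψ (put σ ![D.o, D.o, D.o] α')) • D.υ ![D.o, a, b]) -
      ATrV_S1 D.o σ α fun x α' => Ψ α' • D.y4 x := by
    unfold ATrV_S1
    simp only [← sum_add_distrib, ← sum_sub_distrib]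
    refine sum_congr rfl fun l _ => ?_
    by_cases hl : ATrV_out σ l
    swap
    · simp [hl]
    simp only [hl, if_true]
    have hv : Function.update α l D.o ∈ D.vac σ := by
      rw [Lv.mem_vac] at hα ⊢
      intro j
      rw [Function.update_apply]
      split_ifs
      · rfl
      · exact hα j
    have hp : put σ ![D.o, D.o, D.o] (Function.update α l D.o) = Function.update α l D.o := by
      rw [← ATrV_oo3 D.toLv]
      exact ATrV_put_vac D.toLv σ hv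
    rw [hp]
    by_cases hx : α l ∈ D.low
    · simp [ATrV_e, hx, H.t.ATrV_z3, H.t.ATrV_z4]
    · have e1 : ATrV_e D.toLv (α l) = 1 := by simp [ATrV_e, hx]
      have e2 : ∀ a b d x : I, (Fin.snoc ![a, b, d] x : Fin 4 → I) = ![a, b, d, x] :=
        fun a b d x => by funext j; fin_cases j <;> rfl
      rw [e1, ATrV_sum3]
      simp only [e2, sub_self, zero_mul, zero_smul, sub_zero, one_mul, smul_sub, smul_add, smul_sum,
        smul_smul, sum_add_distrib, mul_comm]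
      abel
  rw [hav, hY, key, k3]
  simp only [p1, p2]
  unfold ATrV_r2
  rw [k2, k2, k2, ATrV_oo3]
  simp only [smul_add, smul_sub]
  abel

theorem ATrV_Hyp.main (H : D.ATrV_Hyp γ Λ C₀ C KG Kt K Mx Ψ) :
    D.Vc Ψ ≤ 2000 * (K * ex (fun α => ((D.nhN α : ℝ) + 4) ^ 6) Ψ) := by
  have hC := H.C0
  have ho := H.b.o_low
  set s := √(Fintype.card ι : ℝ) with hs
  have hs0 : 0 < s := Real.sqrt_pos.2 H.N_pos
  have t1 := ATrV_master0 D.toLv ho ∅
    (fun h => h ![D.o, D.o, D.o] • (D.υ (D.oo 3) + (∑ β, D.G3 β • D.υ β) - D.y3 (D.oo 3)))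
    (B := C / s ^ 6) (K := K) (by positivity) (fun h => by
      rw [norm_smul, mul_pow, Real.norm_eq_abs, sq_abs, mul_comm]
      exact mul_le_mul H.t.v1 (ATrV_w D.toLv h).1 (sq_nonneg _) (by positivity))
    (ATrV_pw H.N_pos _ _ (by decide) H.k1) Ψ
  have t2 := ATrV_master1 D.toLv ho ∅
    (fun x h => (ATrV_e D.toLv x * h ![D.o, D.o, D.o]) •
        ((∑ β, D.G4 (Fin.snoc β x) • D.υ β) + (∑ a, ∑ b, D.G3 ![a, b, x] •
          (D.υ ![a, b, D.o] + D.υ ![a, D.o, b] + D.υ ![D.o, a, b])) - D.y4 x))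
    (fun x h hx => by simp [ATrV_e, hx]) (B := C / s ^ 8) (K := K) (by positivity) (fun h => by
      refine le_trans (le_of_eq ?_)
        (mul_le_mul H.t.v2 (ATrV_w D.toLv h).1 (sq_nonneg _) (by positivity))
      rw [sum_mul, ← sum_subset (subset_univ D.lowᶜ)]
      · refine sum_congr rfl fun x hx => ?_
        rw [mem_compl] at hx
        rw [norm_smul, mul_pow, Real.norm_eq_abs, sq_abs, mul_comm]
        simp [ATrV_e, hx]
      · intro x _ hx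
        rw [mem_compl, not_not] at hx
        simp [ATrV_e, hx])
    (ATrV_pw H.N_pos _ _ (by decide) H.k1) Ψ
  have t3 := H.low
  have t4 := ATrV_master0 D.toLv ho {0}
    (fun h => ∑ a, (ATrV_e D.toLv a * h ![a, D.o, D.o]) • D.υ ![a, D.o, D.o])
    (B := C / s ^ 4) (K := K) (by positivity) (fun h => (H.h.h2 _).trans
      (mul_le_mul_of_nonneg_left (ATrV_w D.toLv h).2.1 (by positivity)))
    (ATrV_pw H.N_pos _ _ (by decide) H.k1) Ψ
  have t5 := ATrV_master0 D.toLv ho {1}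
    (fun h => ∑ a, (ATrV_e D.toLv a * h ![D.o, a, D.o]) • D.υ ![D.o, a, D.o])
    (B := C / s ^ 4) (K := K) (by positivity) (fun h => by
      rw [(H.b.ATrV_perm1 _ _).1]
      exact (H.h.h2 _).trans (mul_le_mul_of_nonneg_left (ATrV_w D.toLv h).2.2.1 (by positivity)))
    (ATrV_pw H.N_pos _ _ (by decide) H.k1) Ψ
  have t6 := ATrV_master0 D.toLv ho {2}
    (fun h => ∑ a, (ATrV_e D.toLv a * h ![D.o, D.o, a]) • D.υ ![D.o, D.o, a])
    (B := C / s ^ 4) (K := K) (by positivity) (fun h => by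
      rw [(H.b.ATrV_perm1 _ _).2]
      exact (H.h.h2 _).trans (mul_le_mul_of_nonneg_left (ATrV_w D.toLv h).2.2.2.1 (by positivity)))
    (ATrV_pw H.N_pos _ _ (by decide) H.k1) Ψ
  have t7 := H.r2
  have t8 := ATrV_Nn_perm (Y := fun σ α => ∑ a, ∑ b,
    D.ATrV_r2 Ψ ((Equiv.swap 1 2).toEmbedding.trans σ) α a b • D.υ ![a, D.o, b]) _ H.r2
    (Equiv.swap 1 2) fun σ α => (H.b.ATrV_perm2 _ _).1
  have t9 := ATrV_Nn_perm (Y := fun σ α => ∑ a, ∑ b,
    D.ATrV_r2 Ψ ((finRotate 3).toEmbedding.trans σ) α a b • D.υ ![D.o, a, b]) _ H.r2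
    (finRotate 3) fun σ α => (H.b.ATrV_perm2 _ _).2
  have t10 := H.r3
  have all := ATrV_Nn_add _ (ATrV_Nn_add _ (ATrV_Nn_add _ (ATrV_Nn_add _ (ATrV_Nn_add _
    (ATrV_Nn_add _ (ATrV_Nn_add _ (ATrV_Nn_add _ t1 (ATrV_Nn_sub _ t2 t3)) t4) t5) t6) t7) t8) t9)
    t10
  have fin := ATrV_Nn_le _ all (Y := fun σ α => Lv.av D.υ σ Ψ α - D.Yv σ Ψ α)
    fun σ α hα => le_of_eq (by rw [H.ident σ hα])
  have hQ : 0 ≤ K * ex (fun α => ((D.nhN α : ℝ) + 4) ^ 6) Ψ :=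
    mul_nonneg (hC.trans H.k1) (ex_nonneg fun α => by positivity)
  unfold Vc
  unfold ATrV_Nn at fin
  linarith

end Dat

theorem trial_Vc (C K₁ : ℝ) : ∃ K : ℝ, 0 ≤ K ∧ ∀ {I ι E : Type} [Fintype I] [DecidableEq I] [Fintype ι] [DecidableEq ι]
      [NormedAddCommGroup E] [InnerProductSpace ℝ E] (D : Dat I E)
      (γ Λ C₀ : ℝ) (Mx : ℕ) (Ψ : (ι → I) → ℝ), 2 ≤ Fintype.card ι → D.Base γ Λ C₀ C →
      D.Hardy √(Fintype.card ι : ℝ) C →
      D.Norms √(Fintype.card ι : ℝ) Λ C₀ C → D.Trial √(Fintype.card ι : ℝ) C → D.IsTrial Mx Ψ →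
      ex (fun α => ((D.nhN α : ℝ) + 4) ^ 6) Ψ ≤ K₁ * nsq Ψ →
      (Fintype.card ι : ℝ) ^ 4 *
        ex (fun α => if Mx < D.nhN α + 4 then ((D.nhN α : ℝ) + 4) ^ 6 else 0) Ψ ≤ K₁ * nsq Ψ →
      D.Vc Ψ ≤ K * nsq Ψ := by
  obtain ⟨KG, hKG, hG⟩ := G_hs C
  obtain ⟨Kt, hKt, ht⟩ := top_bound C K₁
  refine ⟨2000 * |C * (1 + KG + C + Kt) * K₁|, by positivity, ?_⟩
  intro I ι E _ _ _ _ _ _ D γ Λ C₀ Mx Ψ hN hb hh hn htr hi hm htop
  have hN' : (1 : ℝ) ≤ Fintype.card ι := by exact_mod_cast (by omega : 1 ≤ Fintype.card ι)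
  have hC : 1 ≤ C := hb.C₀_ge.trans hb.C₀_le
  have hC0 : 0 ≤ C := by linarith
  obtain ⟨g2, -, g4⟩ := hG D γ Λ C₀ _ (Real.one_le_sqrt.2 hN') hb hn htr
  have H : D.ATrV_Hyp γ Λ C₀ C KG Kt (C * (1 + KG + C + Kt)) Mx Ψ :=
    ⟨by linarith, hb, hh, hn, htr, hi, g2, g4, ht D γ Λ C₀ Mx Ψ (by omega) hb hn htr htop, hKG, hKt,
      by nlinarith, mul_le_mul_of_nonneg_left (by linarith) hC0,
      mul_le_mul_of_nonneg_left (by linarith) hC0, mul_le_mul_of_nonneg_left (by linarith) hC0⟩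
  refine H.main.trans ?_
  rw [mul_assoc 2000]
  refine mul_le_mul_of_nonneg_left ?_ (by norm_num)
  calc C * (1 + KG + C + Kt) * ex (fun α => ((D.nhN α : ℝ) + 4) ^ 6) Ψ
      ≤ C * (1 + KG + C + Kt) * (K₁ * nsq Ψ) := mul_le_mul_of_nonneg_left hm (by positivity)
    _ = C * (1 + KG + C + Kt) * K₁ * nsq Ψ := by ring
    _ ≤ _ := mul_le_mul_of_nonneg_right (le_abs_self _) (nsq_nonneg Ψ)

end Pool.Agent.Lib.MP_8fe63c_mp
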