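import Pool.Agent.Lib.MP_8fe63c_mp.ATrK

/-!
Explicit form of the cluster creation operator and its expansion on a triple of legs.
-/

set_option linter.unusedSectionVars false
set_option linter.unusedVariables false

open Finset
open scoped InnerProductSpace

namespace Pool.Agent.Lib.MP_8fe63c_mp

variable {I ι κ κ' E : Type} [Fintype I] [DecidableEq I] [Fintype ι] [DecidableEq ι]
  [Fintype κ] [DecidableEq κ] [Fintype κ'] [DecidableEq κ']
  [NormedAddCommGroup E] [InnerProductSpace ℝ E]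

section Tuples

variable {X M : Type} [Fintype X] [AddCommMonoid M]

theorem ATrV_sum_succ {n : ℕ} (f : (Fin (n + 1) → X) → M) :
    ∑ τ, f τ = ∑ a, ∑ τ : Fin n → X, f (Matrix.vecCons a τ) := by
  rw [← Fintype.sum_prod_type']
  exact (Fintype.sum_equiv (Fin.consEquiv fun _ => X) _ _ fun _ => rfl).symm

theorem ATrV_sum0 (f : (Fin 0 → X) → M) : ∑ τ, f τ = f ![] := by
  rw [Fintype.sum_unique]
  exact congrArg f (Subsingleton.elim _ _)

theorem ATrV_sum1 (f : (Fin 1 → X) → M) : ∑ τ, f τ = ∑ a, f ![a] := by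
  rw [ATrV_sum_succ]
  simp only [ATrV_sum0]

theorem ATrV_sum2 (f : (Fin 2 → X) → M) : ∑ τ, f τ = ∑ a, ∑ b, f ![a, b] := by
  rw [ATrV_sum_succ]
  simp only [ATrV_sum1]

theorem ATrV_sum3 (f : (Fin 3 → X) → M) : ∑ τ, f τ = ∑ a, ∑ b, ∑ c, f ![a, b, c] := by
  rw [ATrV_sum_succ]
  simp only [ATrV_sum2]

theorem ATrV_sum4 (f : (Fin 4 → X) → M) : ∑ τ, f τ = ∑ a, ∑ b, ∑ c, ∑ d, f ![a, b, c, d] := by
  rw [ATrV_sum_succ]
  simp only [ATrV_sum3]

theorem ATrV_sum_emb (g : (κ → ι) → M) :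
    ∑ ρ : κ ↪ ι, g ρ = ∑ τ, if Function.Injective τ then g τ else 0 := by
  rw [← sum_filter]
  refine sum_bij (fun ρ _ => (ρ : κ → ι)) (fun ρ _ => by simpa using ρ.injective)
    (fun a _ b _ h => DFunLike.coe_injective h) (fun τ hτ => ?_) fun _ _ => rfl
  exact ⟨⟨τ, (mem_filter.1 hτ).2⟩, mem_univ _, rfl⟩

omit [Fintype X] in
theorem ATrV_inj1 (a : X) : Function.Injective ![a] := fun i j _ => Subsingleton.elim i j

omit [Fintype X] in
theorem ATrV_inj2 (a b : X) : Function.Injective ![a, b] ↔ b ≠ a := by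
  constructor
  · intro h e
    have := h (a₁ := 1) (a₂ := 0) (by simpa using e)
    simp at this
  · intro h i j
    fin_cases i <;> fin_cases j <;> simp [h, h.symm]

omit [Fintype X] in
theorem ATrV_inj3 (a b c : X) : Function.Injective ![a, b, c] ↔ b ≠ a ∧ c ≠ a ∧ c ≠ b := by
  constructor
  · intro h
    refine ⟨fun e => ?_, fun e => ?_, fun e => ?_⟩
    · have := h (a₁ := 1) (a₂ := 0) (by simpa using e)
      simp at this
    · have := h (a₁ := 2) (a₂ := 0) (by simpa using e)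
      simp at this
    · have := h (a₁ := 2) (a₂ := 1) (by simpa using e)
      simp at this
  · rintro ⟨h1, h2, h3⟩ i j
    fin_cases i <;> fin_cases j <;> simp [h1, h2, h3, h1.symm, h2.symm, h3.symm]

omit [Fintype X] in
theorem ATrV_inj4 (a b c d : X) : Function.Injective ![a, b, c, d] ↔
    b ≠ a ∧ c ≠ a ∧ c ≠ b ∧ d ≠ a ∧ d ≠ b ∧ d ≠ c := by
  constructor
  · intro h
    refine ⟨fun e => ?_, fun e => ?_, fun e => ?_, fun e => ?_, fun e => ?_, fun e => ?_⟩
    · have := h (a₁ := 1) (a₂ := 0) (by simpa using e)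
      simp at this
    · have := h (a₁ := 2) (a₂ := 0) (by simpa using e)
      simp at this
    · have := h (a₁ := 2) (a₂ := 1) (by simpa using e)
      simp at this
    · have := h (a₁ := 3) (a₂ := 0) (by simpa using e)
      simp at this
    · have := h (a₁ := 3) (a₂ := 1) (by simpa using e)
      simp at this
    · have := h (a₁ := 3) (a₂ := 2) (by simpa using e)
      simp at this
  · rintro ⟨h1, h2, h3, h4, h5, h6⟩ i j
    fin_cases i <;> fin_cases j <;>
      simp [h1, h2, h3, h4, h5, h6, h1.symm, h2.symm, h3.symm, h4.symm, h5.symm, h6.symm]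

end Tuples

/-- put the mode `o` on the legs `τ` -/
def ATrV_clr (o : I) (τ : κ → ι) (α : ι → I) : ι → I := fun x => if ∃ j, τ j = x then o else α x

theorem ATrV_put_clr (o : I) (ρ : κ ↪ ι) (α : ι → I) :
    put ρ (fun _ => o) α = ATrV_clr o ρ α := by
  funext x
  unfold ATrV_clr
  split_ifs with h
  · obtain ⟨j, rfl⟩ := h
    exact put_apply _ _ _ _
  · exact put_apply_not _ _ _ h

theorem ATrV_clr0 (o : I) (α : ι → I) : ATrV_clr o (![] : Fin 0 → ι) α = α := by
  funext x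
  simp [ATrV_clr]

theorem ATrV_clr1 (o : I) (a : ι) (α : ι → I) : ATrV_clr o ![a] α = Function.update α a o := by
  funext x
  simp only [ATrV_clr, Function.update_apply, Fin.exists_fin_one, Matrix.cons_val_zero]
  grind

theorem ATrV_clr2 (o : I) (a b : ι) (α : ι → I) :
    ATrV_clr o ![a, b] α = Function.update (Function.update α a o) b o := by
  funext x
  simp only [ATrV_clr, Function.update_apply, Fin.exists_fin_two, Matrix.cons_val_zero,
    Matrix.cons_val_one]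
  grind

theorem ATrV_clr3 (o : I) (a b c : ι) (α : ι → I) :
    ATrV_clr o ![a, b, c] α =
      Function.update (Function.update (Function.update α a o) b o) c o := by
  funext x
  simp only [ATrV_clr, Function.update_apply, Fin.exists_fin_succ, Matrix.cons_val_zero,
    Matrix.cons_val_succ, IsEmpty.exists_iff, or_false]
  grind

theorem ATrV_clr4 (o : I) (a b c d : ι) (α : ι → I) :
    ATrV_clr o ![a, b, c, d] α =
      Function.update (Function.update (Function.update (Function.update α a o) b o) c o) d o := by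
  funext x
  simp only [ATrV_clr, Function.update_apply, Fin.exists_fin_succ, Matrix.cons_val_zero,
    Matrix.cons_val_succ, IsEmpty.exists_iff, or_false]
  grind

theorem ATrV_cre_eq (A : (κ ↪ ι) → (ι → I) → ℝ) (i : ι) (α : ι → I) :
    cre A i α = ∑ j, ∑ ρ, if ρ j = i then A ρ α else 0 := by
  unfold cre
  have e1 : ∀ ρ : κ ↪ ι, (if ∃ j, ρ j = i then A ρ α else 0) =
      ∑ j, if ρ j = i then A ρ α else 0 := by
    intro ρ
    split_ifs with hj
    · obtain ⟨j, hj⟩ := hj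
      rw [sum_eq_single j]
      · simp [hj]
      · intro b _ hb
        rw [if_neg]
        intro hb'
        exact hb (ρ.injective (hb'.trans hj.symm))
      · simp
    · push Not at hj
      simp [hj]
  simp only [e1]
  rw [sum_comm]

theorem ATrV_cre_symm {p : ℕ} (A : (Fin (p + 1) ↪ ι) → (ι → I) → ℝ)
    (h : ∀ (π : Equiv.Perm (Fin (p + 1))) ρ α, A (π.toEmbedding.trans ρ) α = A ρ α) (i : ι)
    (α : ι → I) : cre A i α = (p + 1 : ℕ) * ∑ ρ, if ρ 0 = i then A ρ α else 0 := by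
  rw [ATrV_cre_eq]
  have e2 : ∀ j : Fin (p + 1), (∑ ρ : Fin (p + 1) ↪ ι, if ρ j = i then A ρ α else 0) =
      ∑ ρ : Fin (p + 1) ↪ ι, if ρ 0 = i then A ρ α else 0 := by
    intro j
    rw [← sum_emb_perm (Equiv.swap 0 j)]
    refine sum_congr rfl fun ρ _ => ?_
    rw [h]
    simp
  rw [sum_congr rfl fun j _ => e2 j]
  simp

theorem ATrV_cre_G (o : I) {p : ℕ} (G : (Fin (p + 1) → I) → ℝ)
    (hG : ∀ (π : Equiv.Perm (Fin (p + 1))) α, G (α ∘ π) = G α) (Ψ : (ι → I) → ℝ) (i : ι)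
    (α : ι → I) :
    cre (fun (ρ : Fin (p + 1) ↪ ι) α => G (α ∘ ρ) * Ψ (put ρ (fun _ => o) α)) i α =
      (p + 1 : ℕ) * ∑ τ : Fin p → ι, if Function.Injective (Matrix.vecCons i τ) then
        G (α ∘ Matrix.vecCons i τ) * Ψ (ATrV_clr o (Matrix.vecCons i τ) α) else 0 := by
  rw [ATrV_cre_symm]
  · congr 1
    simp only [ATrV_put_clr]
    rw [ATrV_sum_emb (fun τ : Fin (p + 1) → ι =>
      if τ 0 = i then G (α ∘ τ) * Ψ (ATrV_clr o τ α) else 0), ATrV_sum_succ, sum_eq_single i]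
    · simp
    · intro b _ hb
      simp [hb]
    · simp
  · intro π ρ α
    have e1 : α ∘ (π.toEmbedding.trans ρ) = (α ∘ ρ) ∘ π := rfl
    have e2 := put_perm ρ π (fun _ => o) α
    rw [e1, hG]
    exact congrArg (fun z => G (α ∘ ρ) * Ψ z) e2

theorem ATrV_comp1 {X Y : Type} (α : X → Y) (a : X) : α ∘ ![a] = ![α a] := by
  funext j
  fin_cases j
  rfl

theorem ATrV_comp2 {X Y : Type} (α : X → Y) (a b : X) : α ∘ ![a, b] = ![α a, α b] := by
  funext j
  fin_cases j <;> rfl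

theorem ATrV_comp3 {X Y : Type} (α : X → Y) (a b c : X) : α ∘ ![a, b, c] = ![α a, α b, α c] := by
  funext j
  fin_cases j <;> rfl

theorem ATrV_comp4 {X Y : Type} (α : X → Y) (a b c d : X) :
    α ∘ ![a, b, c, d] = ![α a, α b, α c, α d] := by
  funext j
  fin_cases j <;> rfl

theorem Dat.gP_explicit (D : Dat I E) {s C : ℝ} (h : D.Trial s C) (Ψ : (ι → I) → ℝ) (i : ι)
    (α : ι → I) :
    D.gP Ψ 0 i α = (∑ j, if j ≠ i then D.G2 ![α i, α j] *
        Ψ (Function.update (Function.update α i D.o) j D.o) else 0) ∧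
    D.gP Ψ 1 i α = (1 / 2) * (∑ j, ∑ k, if j ≠ i ∧ k ≠ i ∧ k ≠ j then D.G3 ![α i, α j, α k] *
        Ψ (Function.update (Function.update (Function.update α i D.o) j D.o) k D.o) else 0) ∧
    D.gP Ψ 2 i α = (1 / 6) * ∑ j, ∑ k, ∑ l,
      if j ≠ i ∧ k ≠ i ∧ k ≠ j ∧ l ≠ i ∧ l ≠ j ∧ l ≠ k then D.G4 ![α i, α j, α k, α l] *
        Ψ (Function.update (Function.update (Function.update (Function.update α i D.o) j D.o)
          k D.o) l D.o) else 0 := by
  refine ⟨?_, ?_, ?_⟩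
  · have := ATrV_cre_G D.o D.G2 h.s2 Ψ i α
    rw [ATrV_sum1] at this
    have e : ∀ x, α ∘ (![i, x] : Fin (1 + 1) → ι) = ![α i, α x] := ATrV_comp2 α i
    simp only [ATrV_inj2, e, ATrV_clr2] at this
    change (1 / 2) * cre (fun (ρ : Fin 2 ↪ ι) α => D.G2 (α ∘ ρ) * Ψ (put ρ (fun _ => D.o) α)) i α = _
    rw [this]
    push_cast
    ring
  · have := ATrV_cre_G D.o D.G3 h.s3 Ψ i α
    rw [ATrV_sum2] at this
    have e : ∀ x y, α ∘ (![i, x, y] : Fin (2 + 1) → ι) = ![α i, α x, α y] := ATrV_comp3 α i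
    simp only [ATrV_inj3, e, ATrV_clr3] at this
    change (1 / 6) * cre (fun (ρ : Fin 3 ↪ ι) α => D.G3 (α ∘ ρ) * Ψ (put ρ (fun _ => D.o) α)) i α = _
    rw [this]
    push_cast
    ring
  · have := ATrV_cre_G D.o D.G4 h.s4 Ψ i α
    rw [ATrV_sum3] at this
    have e : ∀ x y z, α ∘ (![i, x, y, z] : Fin (3 + 1) → ι) = ![α i, α x, α y, α z] :=
      ATrV_comp4 α i
    simp only [ATrV_inj4, e, ATrV_clr4] at this
    change (1 / 24) * cre (fun (ρ : Fin 4 ↪ ι) α => D.G4 (α ∘ ρ) * Ψ (put ρ (fun _ => D.o) α)) i α = _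
    rw [this]
    push_cast
    ring

/-- the leg `l` is not a leg of `σ` -/
def ATrV_out (σ : Fin 3 ↪ ι) (l : ι) : Prop := ¬∃ j, σ j = l

instance (σ : Fin 3 ↪ ι) (l : ι) : Decidable (ATrV_out σ l) := by unfold ATrV_out; infer_instance

theorem ATrV_out_iff (σ : Fin 3 ↪ ι) (l : ι) :
    ATrV_out σ l ↔ l ≠ σ 0 ∧ l ≠ σ 1 ∧ l ≠ σ 2 := by
  unfold ATrV_out
  constructor
  · intro h
    exact ⟨fun e => h ⟨0, e.symm⟩, fun e => h ⟨1, e.symm⟩, fun e => h ⟨2, e.symm⟩⟩
  · rintro ⟨h0, h1, h2⟩ ⟨j, hj⟩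
    fin_cases j
    · exact h0 hj.symm
    · exact h1 hj.symm
    · exact h2 hj.symm

theorem ATrV_split0 (σ : Fin 3 ↪ ι) (F : ι → ℝ) :
    ∑ j, F j = F (σ 0) + F (σ 1) + F (σ 2) + ∑ l, if ATrV_out σ l then F l else 0 := by
  have h01 : σ 0 ≠ σ 1 := σ.injective.ne (by decide)
  have h02 : σ 0 ≠ σ 2 := σ.injective.ne (by decide)
  have h12 : σ 1 ≠ σ 2 := σ.injective.ne (by decide)
  have e : ∀ j, F j = (if j = σ 0 then F j else 0) + (if j = σ 1 then F j else 0) +
      (if j = σ 2 then F j else 0) + if ATrV_out σ j then F j else 0 := by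
    intro j
    simp only [ATrV_out_iff]
    by_cases a0 : j = σ 0
    · subst a0; simp [h01, h02]
    by_cases a1 : j = σ 1
    · subst a1; simp [h01.symm, h12]
    by_cases a2 : j = σ 2
    · subst a2; simp [h02.symm, h12.symm]
    simp [a0, a1, a2]
  rw [sum_congr rfl fun j _ => e j]
  simp only [sum_add_distrib, sum_ite_eq', mem_univ, if_true]

theorem ATrV_split1 (σ : Fin 3 ↪ ι) (F : ι → ℝ) :
    (∑ j, if j ≠ σ 0 then F j else 0) =
      F (σ 1) + F (σ 2) + ∑ l, if ATrV_out σ l then F l else 0 := by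
  have h01 : σ 0 ≠ σ 1 := σ.injective.ne (by decide)
  have h02 : σ 0 ≠ σ 2 := σ.injective.ne (by decide)
  rw [ATrV_split0 σ]
  simp only [ne_eq, not_true, if_false, zero_add, h01.symm, h02.symm, not_false_eq_true, if_true]
  congr 1
  refine sum_congr rfl fun l _ => ?_
  by_cases h : ATrV_out σ l
  · simp [h, ((ATrV_out_iff σ l).1 h).1]
  · simp [h]

theorem ATrV_out1 {σ : Fin 3 ↪ ι} {l : ι} (h : ATrV_out σ l) : σ 1 ≠ l :=
  fun e => h ⟨1, e⟩

theorem ATrV_out2 {σ : Fin 3 ↪ ι} {l : ι} (h : ATrV_out σ l) : σ 2 ≠ l :=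
  fun e => h ⟨2, e⟩

theorem ATrV_ite_sum (P : Prop) [Decidable P] (f : ι → ℝ) :
    (if P then ∑ l, f l else 0) = ∑ l, if P then f l else 0 := by
  split_ifs <;> simp

theorem ATrV_split2 (σ : Fin 3 ↪ ι) (F : ι → ι → ℝ) (hF : ∀ j k, F j k = F k j) :
    (∑ j, ∑ k, if j ≠ σ 0 ∧ k ≠ σ 0 ∧ k ≠ j then F j k else 0) =
      2 * F (σ 1) (σ 2) + 2 * (∑ l, if ATrV_out σ l then F (σ 1) l else 0) +
      2 * (∑ l, if ATrV_out σ l then F (σ 2) l else 0) +
      ∑ l, ∑ m, if ATrV_out σ l ∧ ATrV_out σ m ∧ m ≠ l then F l m else 0 := by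
  have h12 : σ 1 ≠ σ 2 := σ.injective.ne (by decide)
  have e : ∀ j, (∑ k, if j ≠ σ 0 ∧ k ≠ σ 0 ∧ k ≠ j then F j k else 0) =
      if j ≠ σ 0 then ((if σ 1 ≠ j then F j (σ 1) else 0) + (if σ 2 ≠ j then F j (σ 2) else 0) +
        ∑ m, if ATrV_out σ m then (if m ≠ j then F j m else 0) else 0) else 0 := by
    intro j
    rw [← ATrV_split1 σ (fun k => if k ≠ j then F j k else 0), ATrV_ite_sum]
    simp only [ite_and]
  rw [sum_congr rfl fun j _ => e j, ATrV_split1]
  have e1 : (∑ m, if ATrV_out σ m then (if m ≠ σ 1 then F (σ 1) m else 0) else 0) =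
      ∑ m, if ATrV_out σ m then F (σ 1) m else 0 :=
    sum_congr rfl fun m _ => by
      by_cases h : ATrV_out σ m
      · simp [h, (ATrV_out1 h).symm]
      · simp [h]
  have e2 : (∑ m, if ATrV_out σ m then (if m ≠ σ 2 then F (σ 2) m else 0) else 0) =
      ∑ m, if ATrV_out σ m then F (σ 2) m else 0 :=
    sum_congr rfl fun m _ => by
      by_cases h : ATrV_out σ m
      · simp [h, (ATrV_out2 h).symm]
      · simp [h]
  have e3 : (∑ l, if ATrV_out σ l then ((if σ 1 ≠ l then F l (σ 1) else 0) +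
      (if σ 2 ≠ l then F l (σ 2) else 0) +
        ∑ m, if ATrV_out σ m then (if m ≠ l then F l m else 0) else 0) else 0) =
      (∑ l, if ATrV_out σ l then F (σ 1) l else 0) + (∑ l, if ATrV_out σ l then F (σ 2) l else 0) +
      ∑ l, ∑ m, if ATrV_out σ l ∧ ATrV_out σ m ∧ m ≠ l then F l m else 0 := by
    rw [← sum_add_distrib, ← sum_add_distrib]
    refine sum_congr rfl fun l _ => ?_
    by_cases h : ATrV_out σ l
    · simp only [h, ATrV_out1 h, ATrV_out2 h, ne_eq, not_false_eq_true, if_true, true_and, ite_and,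
        hF l (σ 1), hF l (σ 2)]
    · simp [h]
  rw [e1, e2, e3]
  simp only [ne_eq, not_true, if_false, h12, h12.symm, not_false_eq_true, if_true, hF (σ 2) (σ 1)]
  ring

theorem ATrV_split3 (σ : Fin 3 ↪ ι) (F : ι → ι → ι → ℝ) (hF : ∀ j k l, F j k l = F k j l)
    (hF' : ∀ j k l, F j k l = F j l k) :
    (∑ j, ∑ k, ∑ l, if j ≠ σ 0 ∧ k ≠ σ 0 ∧ k ≠ j ∧ l ≠ σ 0 ∧ l ≠ j ∧ l ≠ k then F j k l else 0) =
      6 * (∑ l, if ATrV_out σ l then F (σ 1) (σ 2) l else 0) +
      3 * (∑ l, ∑ m, if ATrV_out σ l ∧ ATrV_out σ m ∧ m ≠ l then F (σ 1) l m else 0) +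
      3 * (∑ l, ∑ m, if ATrV_out σ l ∧ ATrV_out σ m ∧ m ≠ l then F (σ 2) l m else 0) +
      ∑ l, ∑ m, ∑ n, if ATrV_out σ l ∧ ATrV_out σ m ∧ ATrV_out σ n ∧ m ≠ l ∧ n ≠ l ∧ n ≠ m then
        F l m n else 0 := by
  have h12 : σ 1 ≠ σ 2 := σ.injective.ne (by decide)
  have e : ∀ j, (∑ k, ∑ l, if j ≠ σ 0 ∧ k ≠ σ 0 ∧ k ≠ j ∧ l ≠ σ 0 ∧ l ≠ j ∧ l ≠ k then
      F j k l else 0) = if j ≠ σ 0 then
        (2 * (if σ 1 ≠ j ∧ σ 2 ≠ j then F j (σ 1) (σ 2) else 0) +
        2 * (∑ l, if ATrV_out σ l then (if σ 1 ≠ j ∧ l ≠ j then F j (σ 1) l else 0) else 0) +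
        2 * (∑ l, if ATrV_out σ l then (if σ 2 ≠ j ∧ l ≠ j then F j (σ 2) l else 0) else 0) +
        ∑ l, ∑ m, if ATrV_out σ l ∧ ATrV_out σ m ∧ m ≠ l then
          (if l ≠ j ∧ m ≠ j then F j l m else 0) else 0) else 0 := by
    intro j
    rw [← ATrV_split2 σ (fun k l => if k ≠ j ∧ l ≠ j then F j k l else 0)
      (fun k l => by simp only [and_comm, hF' j k l])]
    split_ifs with hj
    · refine sum_congr rfl fun k _ => sum_congr rfl fun l _ => ?_
      by_cases a : k ≠ j <;> by_cases b : l ≠ j <;> simp [a, b, hj]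
    · simp [hj]
  rw [sum_congr rfl fun j _ => e j, ATrV_split1]
  have a1 : ∀ j, (j = σ 1 ∨ j = σ 2) → ∀ f : ι → ℝ,
      (∑ l, if ATrV_out σ l then (if l ≠ j then f l else 0) else 0) =
      ∑ l, if ATrV_out σ l then f l else 0 := by
    intro j hj f
    refine sum_congr rfl fun m _ => ?_
    by_cases h : ATrV_out σ m
    · rcases hj with rfl | rfl
      · simp [h, (ATrV_out1 h).symm]
      · simp [h, (ATrV_out2 h).symm]
    · simp [h]
  have a2 : ∀ j, (j = σ 1 ∨ j = σ 2) → ∀ f : ι → ι → ℝ,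
      (∑ l, ∑ m, if ATrV_out σ l ∧ ATrV_out σ m ∧ m ≠ l then
        (if l ≠ j ∧ m ≠ j then f l m else 0) else 0) =
      ∑ l, ∑ m, if ATrV_out σ l ∧ ATrV_out σ m ∧ m ≠ l then f l m else 0 := by
    intro j hj f
    refine sum_congr rfl fun l _ => sum_congr rfl fun m _ => ?_
    by_cases h : ATrV_out σ l ∧ ATrV_out σ m ∧ m ≠ l
    · rcases hj with rfl | rfl
      · simp [h, (ATrV_out1 h.1).symm, (ATrV_out1 h.2.1).symm]
      · simp [h, (ATrV_out2 h.1).symm, (ATrV_out2 h.2.1).symm]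
    · simp [h]
  have e3 : (∑ j, if ATrV_out σ j then
        (2 * (if σ 1 ≠ j ∧ σ 2 ≠ j then F j (σ 1) (σ 2) else 0) +
        2 * (∑ l, if ATrV_out σ l then (if σ 1 ≠ j ∧ l ≠ j then F j (σ 1) l else 0) else 0) +
        2 * (∑ l, if ATrV_out σ l then (if σ 2 ≠ j ∧ l ≠ j then F j (σ 2) l else 0) else 0) +
        ∑ l, ∑ m, if ATrV_out σ l ∧ ATrV_out σ m ∧ m ≠ l then
          (if l ≠ j ∧ m ≠ j then F j l m else 0) else 0) else 0) =
      2 * (∑ l, if ATrV_out σ l then F (σ 1) (σ 2) l else 0) +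
      2 * (∑ l, ∑ m, if ATrV_out σ l ∧ ATrV_out σ m ∧ m ≠ l then F (σ 1) l m else 0) +
      2 * (∑ l, ∑ m, if ATrV_out σ l ∧ ATrV_out σ m ∧ m ≠ l then F (σ 2) l m else 0) +
      ∑ l, ∑ m, ∑ n, if ATrV_out σ l ∧ ATrV_out σ m ∧ ATrV_out σ n ∧ m ≠ l ∧ n ≠ l ∧ n ≠ m then
        F l m n else 0 := by
    rw [mul_sum, mul_sum, mul_sum, ← sum_add_distrib, ← sum_add_distrib, ← sum_add_distrib]
    refine sum_congr rfl fun j _ => ?_
    by_cases h : ATrV_out σ j
    · simp only [h, ATrV_out1 h, ATrV_out2 h, ne_eq, not_false_eq_true, if_true, true_and, and_self]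
      have b1 : F j (σ 1) (σ 2) = F (σ 1) (σ 2) j := by rw [hF, hF']
      rw [b1]
      congr 1
      · congr 1
        · congr 2
          refine sum_congr rfl fun l _ => ?_
          rw [hF j, ite_and]
        · congr 1
          refine sum_congr rfl fun l _ => ?_
          rw [hF j, ite_and]
      · refine sum_congr rfl fun l _ => sum_congr rfl fun m _ => ?_
        by_cases c1 : ATrV_out σ l <;> by_cases c2 : ATrV_out σ m <;> by_cases c3 : m = l <;>
          simp [c1, c2, c3]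
    · simp [h]
  rw [e3]
  simp only [ne_eq, not_true, if_false, h12, h12.symm, not_false_eq_true, false_and, and_false,
    true_and, ite_self, sum_const_zero]
  have a1' := a1 _ (Or.inl rfl) (fun l => F (σ 1) (σ 2) l)
  have a1'' := a1 _ (Or.inr rfl) (fun l => F (σ 2) (σ 1) l)
  have a2' := a2 _ (Or.inl rfl) (fun l m => F (σ 1) l m)
  have a2'' := a2 _ (Or.inr rfl) (fun l m => F (σ 2) l m)
  simp only [ne_eq] at a1' a1'' a2' a2''
  rw [a1', a1'', a2', a2'']
  simp only [hF (σ 2) (σ 1)]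
  ring

theorem ATrV_upd_put (σ : κ ↪ ι) (β : κ → I) (α : ι → I) (j : κ) (x : I) :
    Function.update (put σ β α) (σ j) x = put σ (Function.update β j x) α := by
  funext y
  by_cases h : ∃ j', σ j' = y
  · obtain ⟨j', rfl⟩ := h
    rw [put_apply, Function.update_apply, Function.update_apply, put_apply]
    simp [σ.injective.eq_iff]
  · rw [put_apply_not _ _ _ h, Function.update_of_ne (fun e => h ⟨j, e.symm⟩),
      put_apply_not _ _ _ h]

theorem ATrV_upd_out (σ : κ ↪ ι) (β : κ → I) (α : ι → I) {l : ι} (h : ¬∃ j, σ j = l) (x : I) :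
    Function.update (put σ β α) l x = put σ β (Function.update α l x) := by
  funext y
  by_cases h' : ∃ j', σ j' = y
  · obtain ⟨j', rfl⟩ := h'
    rw [put_apply, Function.update_of_ne (fun e => h ⟨j', e⟩), put_apply]
  · rw [put_apply_not _ _ _ h', Function.update_apply, Function.update_apply,
      put_apply_not _ _ _ h']

theorem ATrV_upd_comm (α : ι → I) (j k : ι) (x : I) :
    Function.update (Function.update α j x) k x = Function.update (Function.update α k x) j x := by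
  funext y
  simp only [Function.update_apply]
  split_ifs <;> rfl

theorem ATrV_u0 (a b d x : I) : Function.update ![a, b, d] 0 x = ![x, b, d] := by
  funext j
  fin_cases j <;> simp

theorem ATrV_u1 (a b d x : I) : Function.update ![a, b, d] 1 x = ![a, x, d] := by
  funext j
  fin_cases j <;> simp

theorem ATrV_u2 (a b d x : I) : Function.update ![a, b, d] 2 x = ![a, b, x] := by
  funext j
  fin_cases j <;> simp

theorem ATrV_G3_swap {G : (Fin 3 → I) → ℝ}
    (hG : ∀ (π : Equiv.Perm (Fin 3)) α, G (α ∘ π) = G α) (a b d : I) :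
    G ![a, b, d] = G ![a, d, b] := by
  rw [← hG (Equiv.swap 1 2)]
  congr 1
  funext j
  fin_cases j <;> rfl

theorem ATrV_G4_swap {G : (Fin 4 → I) → ℝ}
    (hG : ∀ (π : Equiv.Perm (Fin 4)) α, G (α ∘ π) = G α) (a b c d : I) :
    G ![a, b, c, d] = G ![a, c, b, d] ∧ G ![a, b, c, d] = G ![a, b, d, c] := by
  constructor
  · rw [← hG (Equiv.swap 1 2)]
    congr 1
    funext j
    fin_cases j <;> rfl
  · rw [← hG (Equiv.swap 2 3)]
    congr 1
    funext j
    fin_cases j <;> rfl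

/-- one outside leg -/
def ATrV_S1 {M : Type} [AddCommMonoid M] (o : I) (σ : Fin 3 ↪ ι) (α : ι → I)
    (f : I → (ι → I) → M) : M :=
  ∑ l, if ATrV_out σ l then f (α l) (Function.update α l o) else 0

/-- two outside legs -/
def ATrV_S2 {M : Type} [AddCommMonoid M] (o : I) (σ : Fin 3 ↪ ι) (α : ι → I)
    (f : I → I → (ι → I) → M) : M :=
  ∑ l, ∑ m, if ATrV_out σ l ∧ ATrV_out σ m ∧ m ≠ l then
    f (α l) (α m) (Function.update (Function.update α l o) m o) else 0

/-- three outside legs -/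
def ATrV_S3 {M : Type} [AddCommMonoid M] (o : I) (σ : Fin 3 ↪ ι) (α : ι → I)
    (f : I → I → I → (ι → I) → M) : M :=
  ∑ l, ∑ m, ∑ n, if ATrV_out σ l ∧ ATrV_out σ m ∧ ATrV_out σ n ∧ m ≠ l ∧ n ≠ l ∧ n ≠ m then
    f (α l) (α m) (α n) (Function.update (Function.update (Function.update α l o) m o) n o) else 0

theorem Dat.ATrV_expand (D : Dat I E) {s C : ℝ} (h : D.Trial s C) (Ψ : (ι → I) → ℝ)
    (σ : Fin 3 ↪ ι) (α : ι → I) (a b d : I) :
    ∑ t, D.gP Ψ t (σ 0) (put σ ![a, b, d] α) =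
      D.G2 ![a, b] * Ψ (put σ ![D.o, D.o, d] α) + D.G2 ![a, d] * Ψ (put σ ![D.o, b, D.o] α) +
      ATrV_S1 D.o σ α (fun x α' => D.G2 ![a, x] * Ψ (put σ ![D.o, b, d] α')) +
      D.G3 ![a, b, d] * Ψ (put σ ![D.o, D.o, D.o] α) +
      ATrV_S1 D.o σ α (fun x α' => D.G3 ![a, b, x] * Ψ (put σ ![D.o, D.o, d] α')) +
      ATrV_S1 D.o σ α (fun x α' => D.G3 ![a, d, x] * Ψ (put σ ![D.o, b, D.o] α')) +
      (1 / 2) * ATrV_S2 D.o σ α (fun x y α' => D.G3 ![a, x, y] * Ψ (put σ ![D.o, b, d] α')) +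
      ATrV_S1 D.o σ α (fun x α' => D.G4 ![a, b, d, x] * Ψ (put σ ![D.o, D.o, D.o] α')) +
      (1 / 2) * ATrV_S2 D.o σ α (fun x y α' => D.G4 ![a, b, x, y] * Ψ (put σ ![D.o, D.o, d] α')) +
      (1 / 2) * ATrV_S2 D.o σ α (fun x y α' => D.G4 ![a, d, x, y] * Ψ (put σ ![D.o, b, D.o] α')) +
      (1 / 6) * ATrV_S3 D.o σ α
        (fun x y z α' => D.G4 ![a, x, y, z] * Ψ (put σ ![D.o, b, d] α')) := by
  obtain ⟨h0, h1, h2⟩ := D.gP_explicit h Ψ (σ 0) (put σ ![a, b, d] α)
  rw [Fin.sum_univ_three, h0, h1, h2, ATrV_split1, ATrV_split2, ATrV_split3]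
  · have p0 : put σ ![a, b, d] α (σ 0) = a := put_apply _ _ _ _
    have p1 : put σ ![a, b, d] α (σ 1) = b := put_apply _ _ _ _
    have p2 : put σ ![a, b, d] α (σ 2) = d := put_apply _ _ _ _
    simp only [p0, p1, p2, ATrV_upd_put, ATrV_u0, ATrV_u1, ATrV_u2]
    have r1 : ∀ (β : Fin 3 → I) (g : I → ℝ), (∑ l, if ATrV_out σ l then
        g (put σ ![a, b, d] α l) * Ψ (Function.update (put σ β α) l D.o) else 0) =
        ATrV_S1 D.o σ α (fun x α' => g x * Ψ (put σ β α')) := by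
      intro β g
      refine sum_congr rfl fun l _ => ?_
      split_ifs with hl
      · rw [put_apply_not _ _ _ hl, ATrV_upd_out _ _ _ hl]
      · rfl
    have r2 : ∀ (β : Fin 3 → I) (g : I → I → ℝ), (∑ l, ∑ m,
        if ATrV_out σ l ∧ ATrV_out σ m ∧ m ≠ l then
        g (put σ ![a, b, d] α l) (put σ ![a, b, d] α m) *
          Ψ (Function.update (Function.update (put σ β α) l D.o) m D.o) else 0) =
        ATrV_S2 D.o σ α (fun x y α' => g x y * Ψ (put σ β α')) := by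
      intro β g
      refine sum_congr rfl fun l _ => sum_congr rfl fun m _ => ?_
      split_ifs with hl
      · rw [put_apply_not _ _ _ hl.1, put_apply_not _ _ _ hl.2.1, ATrV_upd_out _ _ _ hl.1,
          ATrV_upd_out _ _ _ hl.2.1]
      · rfl
    have r3 : ∀ (β : Fin 3 → I) (g : I → I → I → ℝ), (∑ l, ∑ m, ∑ n,
        if ATrV_out σ l ∧ ATrV_out σ m ∧ ATrV_out σ n ∧ m ≠ l ∧ n ≠ l ∧ n ≠ m then
        g (put σ ![a, b, d] α l) (put σ ![a, b, d] α m) (put σ ![a, b, d] α n) *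
          Ψ (Function.update (Function.update (Function.update (put σ β α) l D.o) m D.o) n D.o)
          else 0) =
        ATrV_S3 D.o σ α (fun x y z α' => g x y z * Ψ (put σ β α')) := by
      intro β g
      refine sum_congr rfl fun l _ => sum_congr rfl fun m _ => sum_congr rfl fun n _ => ?_
      split_ifs with hl
      · rw [put_apply_not _ _ _ hl.1, put_apply_not _ _ _ hl.2.1, put_apply_not _ _ _ hl.2.2.1,
          ATrV_upd_out _ _ _ hl.1, ATrV_upd_out _ _ _ hl.2.1, ATrV_upd_out _ _ _ hl.2.2.1]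
      · rfl
    rw [r1 _ (fun x => D.G2 ![a, x]), r1 _ (fun x => D.G3 ![a, b, x]),
      r1 _ (fun x => D.G3 ![a, d, x]), r1 _ (fun x => D.G4 ![a, b, d, x]),
      r2 _ (fun x y => D.G3 ![a, x, y]), r2 _ (fun x y => D.G4 ![a, b, x, y]),
      r2 _ (fun x y => D.G4 ![a, d, x, y]), r3 _ (fun x y z => D.G4 ![a, x, y, z])]
    ring
  · intro j k l
    rw [(ATrV_G4_swap h.s4 _ _ _ _).1, ATrV_upd_comm _ j k]
  · intro j k l
    rw [(ATrV_G4_swap h.s4 _ _ _ _).2, ATrV_upd_comm _ k l]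
  · intro j k
    rw [ATrV_G3_swap h.s3, ATrV_upd_comm _ j k]

end Pool.Agent.Lib.MP_8fe63c_mp
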