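import Pool.Agent.Lib.MP_8fe63c_mp.ATrV1

/-!
The counting lemma for vector valued sums over outside legs.
-/

set_option linter.unusedSectionVars false
set_option linter.unusedVariables false

open Finset
open scoped InnerProductSpace

namespace Pool.Agent.Lib.MP_8fe63c_mp

variable {I ι κ κ' E : Type} [Fintype I] [DecidableEq I] [Fintype ι] [DecidableEq ι]
  [Fintype κ] [DecidableEq κ] [Fintype κ'] [DecidableEq κ']
  [NormedAddCommGroup E] [InnerProductSpace ℝ E]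

/-- squared norm of a family of vectors -/
noncomputable def ATrV_Nn (L : Lv I) (X : (Fin 3 ↪ ι) → (ι → I) → E) : ℝ :=
  ∑ σ, ∑ α ∈ L.vac σ, ‖X σ α‖ ^ 2

theorem ATrV_Nn_add (L : Lv I) {X Y : (Fin 3 ↪ ι) → (ι → I) → E} {a b Q : ℝ}
    (hX : ATrV_Nn L X ≤ a * Q) (hY : ATrV_Nn L Y ≤ b * Q) :
    ATrV_Nn L (fun σ α => X σ α + Y σ α) ≤ (2 * a + 2 * b) * Q := by
  have : ATrV_Nn L (fun σ α => X σ α + Y σ α) ≤ 2 * ATrV_Nn L X + 2 * ATrV_Nn L Y := by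
    unfold ATrV_Nn
    rw [mul_sum, mul_sum, ← sum_add_distrib]
    refine sum_le_sum fun σ _ => ?_
    rw [mul_sum, mul_sum, ← sum_add_distrib]
    refine sum_le_sum fun α _ => ?_
    have h := norm_add_le (X σ α) (Y σ α)
    have h1 := pow_le_pow_left₀ (norm_nonneg _) h 2
    nlinarith [sq_nonneg (‖X σ α‖ - ‖Y σ α‖)]
  linarith

theorem ATrV_Nn_le (L : Lv I) {X Y : (Fin 3 ↪ ι) → (ι → I) → E} {Q : ℝ}
    (hX : ATrV_Nn L X ≤ Q) (h : ∀ σ, ∀ α ∈ L.vac σ, ‖Y σ α‖ ≤ ‖X σ α‖) : ATrV_Nn L Y ≤ Q :=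
  le_trans (sum_le_sum fun σ _ => sum_le_sum fun α hα =>
    pow_le_pow_left₀ (norm_nonneg _) (h σ α hα) 2) hX

theorem ATrV_Nn_sub (L : Lv I) {X Y : (Fin 3 ↪ ι) → (ι → I) → E} {a b Q : ℝ}
    (hX : ATrV_Nn L X ≤ a * Q) (hY : ATrV_Nn L Y ≤ b * Q) :
    ATrV_Nn L (fun σ α => X σ α - Y σ α) ≤ (2 * a + 2 * b) * Q := by
  have h : ATrV_Nn L (fun σ α => -Y σ α) ≤ b * Q := ATrV_Nn_le L hY fun σ α _ => by simp
  simpa [sub_eq_add_neg] using ATrV_Nn_add L hX h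

theorem ATrV_Nn_smul (L : Lv I) {X : (Fin 3 ↪ ι) → (ι → I) → E} {Q : ℝ}
    (hX : ATrV_Nn L X ≤ Q) {c : ℝ} (h0 : 0 ≤ c) (h1 : c ≤ 1) :
    ATrV_Nn L (fun σ α => c • X σ α) ≤ Q :=
  ATrV_Nn_le L hX fun σ α _ => by
    rw [norm_smul, Real.norm_of_nonneg h0]
    exact mul_le_of_le_one_left (norm_nonneg _) h1

theorem ATrV_Nn_perm (L : Lv I) {X Y : (Fin 3 ↪ ι) → (ι → I) → E} {Q : ℝ}
    (hX : ATrV_Nn L X ≤ Q) (π : Equiv.Perm (Fin 3))
    (h : ∀ σ α, ‖Y σ α‖ = ‖X (π.toEmbedding.trans σ) α‖) : ATrV_Nn L Y ≤ Q := by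
  refine le_trans (le_of_eq ?_) hX
  unfold ATrV_Nn
  rw [← sum_emb_perm π (fun σ => ∑ α ∈ L.vac σ, ‖X σ α‖ ^ 2)]
  refine sum_congr rfl fun σ _ => ?_
  rw [L.vac_perm]
  exact sum_congr rfl fun α _ => by rw [h]

theorem ATrV_norm_sum {J : Type} (S : Finset J) (F : J → E) :
    ‖∑ j ∈ S, F j‖ ^ 2 ≤ S.card * ∑ j ∈ S, ‖F j‖ ^ 2 :=
  le_trans (pow_le_pow_left₀ (norm_nonneg _) (norm_sum_le _ _) 2) sq_sum_le_card_mul_sum_sq

theorem ATrV_nh_put_le (L : Lv I) (τ : κ ↪ ι) (η : κ → I) (α : ι → I) :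
    L.nhN (put τ η α) ≤ L.nhN α + Fintype.card κ := by
  unfold Lv.nhN
  have : (univ.filter fun i => put τ η α i ∉ L.low) ⊆
      (univ.filter fun i => α i ∉ L.low) ∪ univ.map τ := by
    intro i hi
    by_cases h : ∃ j, τ j = i
    · obtain ⟨j, rfl⟩ := h
      exact mem_union_right _ (mem_map_of_mem _ (mem_univ j))
    · rw [mem_filter, put_apply_not _ _ _ h] at hi
      exact mem_union_left _ (mem_filter.2 hi)
  refine (card_le_card this).trans ((card_union_le _ _).trans ?_)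
  simp

theorem ATrV_nh_le_put (L : Lv I) (ho : L.o ∈ L.low) (τ : κ ↪ ι) (η : κ → I) {α : ι → I}
    (hα : α ∈ L.vac τ) : L.nhN α ≤ L.nhN (put τ η α) := by
  unfold Lv.nhN
  refine card_le_card fun i hi => ?_
  rw [mem_filter] at hi ⊢
  have h : ¬∃ j, τ j = i := by
    rintro ⟨j, rfl⟩
    exact hi.2 (by rw [L.mem_vac.1 hα j]; exact ho)
  rw [put_apply_not _ _ _ h]
  exact hi

theorem ATrV_put_vac (L : Lv I) (τ : κ ↪ ι) {α : ι → I} (hα : α ∈ L.vac τ) :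
    put τ (fun _ => L.o) α = α := by
  have : (fun _ => L.o) = α ∘ τ := funext fun j => (L.mem_vac.1 hα j).symm
  rw [this, put_self]

/-- indicator that the positions in `A` carry high modes -/
def ATrV_wA (L : Lv I) (A : Finset (Fin 3)) (β : Fin 3 → I) : ℝ :=
  if ∀ j ∈ A, β j ∉ L.low then 1 else 0

theorem ATrV_wA_nonneg (L : Lv I) (A : Finset (Fin 3)) (β : Fin 3 → I) : 0 ≤ ATrV_wA L A β := by
  unfold ATrV_wA
  split_ifs <;> norm_num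

theorem ATrV_card_emb (A : κ → Finset ι) (S : Finset (κ ↪ ι)) (h : ∀ σ ∈ S, ∀ j, σ j ∈ A j) :
    S.card ≤ ∏ j, (A j).card :=
  le_trans (card_le_card fun σ hσ => mem_filter.2 ⟨mem_univ _, h σ hσ⟩) (card_emb_le A)

theorem ATrV_sum_wA (L : Lv I) (A : Finset (Fin 3)) (α : ι → I) :
    ∑ σ : Fin 3 ↪ ι, ATrV_wA L A (α ∘ σ) ≤
      (L.nhN α : ℝ) ^ A.card * (Fintype.card ι : ℝ) ^ (3 - A.card) := by
  unfold ATrV_wA
  rw [sum_boole]
  have e : (∏ j : Fin 3, (if j ∈ A then univ.filter fun i => α i ∉ L.low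
      else (univ : Finset ι)).card) = L.nhN α ^ A.card * Fintype.card ι ^ (3 - A.card) := by
    simp only [apply_ite Finset.card]
    rw [prod_ite, prod_const, prod_const]
    have e1 : (univ.filter fun j : Fin 3 => j ∈ A) = A := by ext; simp
    have e2 : (univ.filter fun j : Fin 3 => j ∉ A) = Aᶜ := by ext; simp
    rw [e1, e2, card_compl, Fintype.card_fin, card_univ]
    rfl
  rw [← Nat.cast_pow, ← Nat.cast_pow, ← Nat.cast_mul, Nat.cast_le, ← e]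
  refine ATrV_card_emb _ _ fun σ hσ j => ?_
  rw [mem_filter] at hσ
  split_ifs with hj
  · exact mem_filter.2 ⟨mem_univ _, hσ.2 j hj⟩
  · exact mem_univ _

theorem ATrV_step (L : Lv I) (ho : L.o ∈ L.low) {c : ℕ} (A : Finset (Fin 3))
    (Z : (Fin c → I) → ((Fin 3 → I) → ℝ) → E) {B : ℝ} (hB0 : 0 ≤ B)
    (hZ : ∀ h, ∑ η, ‖Z η h‖ ^ 2 ≤ B * ∑ β, ATrV_wA L A β * h β ^ 2) (Ψ : (ι → I) → ℝ)
    (σ : Fin 3 ↪ ι) (τ : Fin c ↪ ι) :
    ∑ α ∈ L.vac σ, (L.nhN α : ℝ) ^ c * ‖if ∀ j, ATrV_out σ (τ j) then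
      Z (α ∘ τ) (fun β => Ψ (put σ β (put τ (fun _ => L.o) α))) else 0‖ ^ 2 ≤
      B * ∑ α, ((L.nhN α : ℝ) + c) ^ c * ATrV_wA L A (α ∘ σ) * Ψ α ^ 2 := by
  have hw := ATrV_wA_nonneg L A
  by_cases hτ : ∀ j, ATrV_out σ (τ j)
  swap
  · simp only [hτ, if_false, norm_zero, ne_eq, OfNat.ofNat_ne_zero, not_false_eq_true, zero_pow,
      mul_zero, sum_const_zero]
    exact mul_nonneg hB0 (sum_nonneg fun α _ => by have := hw (α ∘ σ); positivity)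
  simp only [hτ, implies_true, if_true]
  rw [← L.sum_vac_put σ (fun α => ((L.nhN α : ℝ) + c) ^ c * ATrV_wA L A (α ∘ σ) * Ψ α ^ 2)]
  have e : ∀ g : (ι → I) → ℝ, ∑ α ∈ L.vac σ, g α = ∑ α, if α ∈ L.vac σ then g α else 0 :=
    fun g => by rw [← sum_filter]; congr 1; ext; simp
  rw [e, ← L.sum_vac_put τ, e, mul_sum]
  refine le_trans (sum_le_sum (g := fun α => B * if α ∈ L.vac σ then
    ∑ β, ((L.nhN (put σ β α) : ℝ) + c) ^ c * ATrV_wA L A (put σ β α ∘ σ) * Ψ (put σ β α) ^ 2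
      else 0) fun α hα => ?_) (sum_le_sum_of_subset_of_nonneg (subset_univ _) fun α _ _ => ?_)
  · have hv : ∀ η, put τ η α ∈ L.vac σ ↔ α ∈ L.vac σ := by
      intro η
      simp only [L.mem_vac]
      refine forall_congr' fun j => ?_
      rw [put_apply_not]
      rintro ⟨j', hj'⟩
      exact hτ j' ⟨j, hj'.symm⟩
    simp only [hv, put_comp, put_put, ATrV_put_vac L τ hα]
    by_cases hα' : α ∈ L.vac σ
    swap
    · simp [hα']
    simp only [hα', if_true]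
    calc ∑ η, (L.nhN (put τ η α) : ℝ) ^ c * ‖Z η fun β => Ψ (put σ β α)‖ ^ 2
        ≤ ∑ η, ((L.nhN α : ℝ) + c) ^ c * ‖Z η fun β => Ψ (put σ β α)‖ ^ 2 := by
          refine sum_le_sum fun η _ => ?_
          have h1 : (L.nhN (put τ η α) : ℝ) ≤ L.nhN α + c := by
            have := ATrV_nh_put_le L τ η α
            rw [Fintype.card_fin] at this
            exact_mod_cast this
          gcongr
      _ ≤ ((L.nhN α : ℝ) + c) ^ c * (B * ∑ β, ATrV_wA L A β * Ψ (put σ β α) ^ 2) := by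
          rw [← mul_sum]
          exact mul_le_mul_of_nonneg_left (hZ _) (by positivity)
      _ ≤ _ := by
          rw [mul_left_comm, mul_sum]
          refine mul_le_mul_of_nonneg_left (sum_le_sum fun β _ => ?_) hB0
          have h1 : (L.nhN α : ℝ) ≤ L.nhN (put σ β α) := by
            exact_mod_cast ATrV_nh_le_put L ho σ β hα'
          have := hw β
          rw [mul_assoc]
          gcongr
  · refine mul_nonneg hB0 ?_
    split_ifs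
    · exact sum_nonneg fun β _ => by have := hw (put σ β α ∘ σ); positivity
    · exact le_rfl

theorem ATrV_master (L : Lv I) (ho : L.o ∈ L.low) {c : ℕ} (A : Finset (Fin 3))
    (Z : (Fin c → I) → ((Fin 3 → I) → ℝ) → E) (hz : ∀ η h, ¬L.Hi η → Z η h = 0) {B K : ℝ}
    (hB0 : 0 ≤ B) (hZ : ∀ h, ∑ η, ‖Z η h‖ ^ 2 ≤ B * ∑ β, ATrV_wA L A β * h β ^ 2)
    (hc : c ≤ 3) (hK : B * (Fintype.card ι : ℝ) ^ (c + (3 - A.card)) ≤ K) (Ψ : (ι → I) → ℝ) :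
    ATrV_Nn L (fun σ α => ∑ τ : Fin c ↪ ι, if ∀ j, ATrV_out σ (τ j) then
      Z (α ∘ τ) (fun β => Ψ (put σ β (put τ (fun _ => L.o) α))) else 0) ≤
      1 * (K * ex (fun α => ((L.nhN α : ℝ) + 4) ^ 6) Ψ) := by
  have hw := ATrV_wA_nonneg L A
  have hA : A.card ≤ 3 := by simpa using card_le_univ A
  have s1 : ∀ (σ : Fin 3 ↪ ι) (α : ι → I), ‖∑ τ : Fin c ↪ ι, if ∀ j, ATrV_out σ (τ j) then
      Z (α ∘ τ) (fun β => Ψ (put σ β (put τ (fun _ => L.o) α))) else 0‖ ^ 2 ≤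
      ∑ τ : Fin c ↪ ι, (L.nhN α : ℝ) ^ c * ‖if ∀ j, ATrV_out σ (τ j) then
      Z (α ∘ τ) (fun β => Ψ (put σ β (put τ (fun _ => L.o) α))) else 0‖ ^ 2 := by
    intro σ α
    have hS := ATrV_card_emb (κ := Fin c) (fun _ => univ.filter fun i => α i ∉ L.low)
      (univ.filter fun τ : Fin c ↪ ι => ∀ j, τ j ∈ univ.filter fun i => α i ∉ L.low)
      fun σ hσ => (mem_filter.1 hσ).2
    rw [prod_const, card_univ, Fintype.card_fin] at hS
    rw [← sum_subset (subset_univ (univ.filter fun τ : Fin c ↪ ι =>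
      ∀ j, τ j ∈ univ.filter fun i => α i ∉ L.low)), ← mul_sum]
    · refine (ATrV_norm_sum _ _).trans ?_
      refine mul_le_mul (by rw [← Nat.cast_pow, Nat.cast_le]; exact hS)
        (sum_le_sum_of_subset_of_nonneg (subset_univ _) fun _ _ _ => by positivity)
        (sum_nonneg fun _ _ => by positivity) (by positivity)
    · intro τ _ hτ
      rw [hz, ite_self]
      intro hi
      exact hτ (mem_filter.2 ⟨mem_univ _, fun j => mem_filter.2 ⟨mem_univ _, hi j⟩⟩)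
  have s2 : ∀ σ : Fin 3 ↪ ι, ∑ α ∈ L.vac σ, ‖∑ τ : Fin c ↪ ι, if ∀ j, ATrV_out σ (τ j) then
      Z (α ∘ τ) (fun β => Ψ (put σ β (put τ (fun _ => L.o) α))) else 0‖ ^ 2 ≤
      (Fintype.card ι : ℝ) ^ c *
        (B * ∑ α, ((L.nhN α : ℝ) + c) ^ c * ATrV_wA L A (α ∘ σ) * Ψ α ^ 2) := by
    intro σ
    refine (sum_le_sum fun α _ => s1 σ α).trans ?_
    rw [sum_comm]
    refine (sum_le_sum fun τ _ => ATrV_step L ho A Z hB0 hZ Ψ σ τ).trans ?_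
    rw [sum_const, card_univ, nsmul_eq_mul]
    refine mul_le_mul_of_nonneg_right ?_
      (mul_nonneg hB0 (sum_nonneg fun α _ => by have := hw (α ∘ σ); positivity))
    simpa using card_emb_all (κ := Fin c) (ι := ι)
  refine (sum_le_sum fun σ _ => s2 σ).trans ?_
  rw [← mul_sum, ← mul_sum, sum_comm, one_mul]
  have s3 : ∑ α : ι → I, ∑ σ : Fin 3 ↪ ι, ((L.nhN α : ℝ) + c) ^ c * ATrV_wA L A (α ∘ σ) * Ψ α ^ 2 ≤
      (Fintype.card ι : ℝ) ^ (3 - A.card) * ex (fun α => ((L.nhN α : ℝ) + 4) ^ 6) Ψ := by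
    unfold ex
    rw [mul_sum]
    refine sum_le_sum fun α _ => ?_
    rw [← sum_mul, ← mul_sum, ← mul_assoc]
    refine mul_le_mul_of_nonneg_right ?_ (sq_nonneg _)
    have h1 := ATrV_sum_wA L A α
    have hc' : (c : ℝ) ≤ 4 := by exact_mod_cast (by omega : c ≤ 4)
    have h4 : (1 : ℝ) ≤ (L.nhN α : ℝ) + 4 := by
      have : (0 : ℝ) ≤ L.nhN α := Nat.cast_nonneg _
      linarith
    have h2 : ((L.nhN α : ℝ) + c) ^ c * (L.nhN α : ℝ) ^ A.card ≤ ((L.nhN α : ℝ) + 4) ^ 6 := by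
      calc ((L.nhN α : ℝ) + c) ^ c * (L.nhN α : ℝ) ^ A.card
          ≤ ((L.nhN α : ℝ) + 4) ^ c * ((L.nhN α : ℝ) + 4) ^ A.card := by
            gcongr
            linarith
        _ = ((L.nhN α : ℝ) + 4) ^ (c + A.card) := by rw [pow_add]
        _ ≤ _ := pow_le_pow_right₀ h4 (by omega)
    calc ((L.nhN α : ℝ) + c) ^ c * ∑ σ : Fin 3 ↪ ι, ATrV_wA L A (α ∘ σ)
        ≤ ((L.nhN α : ℝ) + c) ^ c *
          ((L.nhN α : ℝ) ^ A.card * (Fintype.card ι : ℝ) ^ (3 - A.card)) := by gcongr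
      _ = (Fintype.card ι : ℝ) ^ (3 - A.card) *
          (((L.nhN α : ℝ) + c) ^ c * (L.nhN α : ℝ) ^ A.card) := by ring
      _ ≤ _ := by gcongr
  have hex : 0 ≤ ex (fun α => ((L.nhN α : ℝ) + 4) ^ 6) Ψ := ex_nonneg fun α => by positivity
  calc (Fintype.card ι : ℝ) ^ c * (B * ∑ α : ι → I, ∑ σ : Fin 3 ↪ ι,
        ((L.nhN α : ℝ) + c) ^ c * ATrV_wA L A (α ∘ σ) * Ψ α ^ 2)
      ≤ (Fintype.card ι : ℝ) ^ c * (B * ((Fintype.card ι : ℝ) ^ (3 - A.card) *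
        ex (fun α => ((L.nhN α : ℝ) + 4) ^ 6) Ψ)) := by gcongr
    _ = B * (Fintype.card ι : ℝ) ^ (c + (3 - A.card)) *
        ex (fun α => ((L.nhN α : ℝ) + 4) ^ 6) Ψ := by rw [pow_add]; ring
    _ ≤ _ := by gcongr

theorem ATrV_master' (L : Lv I) (ho : L.o ∈ L.low) {c : ℕ} (A : Finset (Fin 3))
    (Z : (Fin c → I) → ((Fin 3 → I) → ℝ) → E) (hz : ∀ η h, ¬L.Hi η → Z η h = 0) {B K : ℝ}
    (hB0 : 0 ≤ B) (hZ : ∀ h, ∑ η, ‖Z η h‖ ^ 2 ≤ B * ∑ β, ATrV_wA L A β * h β ^ 2)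
    (hc : c ≤ 3) (hK : B * (Fintype.card ι : ℝ) ^ (c + (3 - A.card)) ≤ K) (Ψ : (ι → I) → ℝ) :
    ATrV_Nn L (fun σ α => ∑ τ : Fin c → ι, if Function.Injective τ then
      (if ∀ j, ATrV_out σ (τ j) then
        Z (α ∘ τ) (fun β => Ψ (put σ β (ATrV_clr L.o τ α))) else 0) else 0) ≤
      1 * (K * ex (fun α => ((L.nhN α : ℝ) + 4) ^ 6) Ψ) := by
  refine ATrV_Nn_le L (ATrV_master L ho A Z hz hB0 hZ hc hK Ψ) fun σ α _ => le_of_eq ?_
  simp only [ATrV_put_clr]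
  rw [ATrV_sum_emb (fun τ : Fin c → ι => if ∀ j, ATrV_out σ (τ j) then
        Z (α ∘ τ) (fun β => Ψ (put σ β (ATrV_clr L.o τ α))) else 0)]

theorem ATrV_master0 (L : Lv I) (ho : L.o ∈ L.low) (A : Finset (Fin 3))
    (Z : ((Fin 3 → I) → ℝ) → E) {B K : ℝ}
    (hB0 : 0 ≤ B) (hZ : ∀ h, ‖Z h‖ ^ 2 ≤ B * ∑ β, ATrV_wA L A β * h β ^ 2)
    (hK : B * (Fintype.card ι : ℝ) ^ (3 - A.card) ≤ K) (Ψ : (ι → I) → ℝ) :
    ATrV_Nn L (fun σ α => Z (fun β => Ψ (put σ β α))) ≤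
      1 * (K * ex (fun α => ((L.nhN α : ℝ) + 4) ^ 6) Ψ) := by
  refine ATrV_Nn_le L (ATrV_master' L ho (c := 0) A (fun _ h => Z h)
    (fun η h hη => absurd (fun j => Fin.elim0 j) hη) hB0 (fun h => ?_) (by omega)
    (by simpa using hK) Ψ) fun σ α _ => le_of_eq ?_
  · rw [ATrV_sum0]
    exact hZ h
  · have hi : Function.Injective (![] : Fin 0 → ι) := fun i => Fin.elim0 i
    rw [ATrV_sum0, if_pos hi, if_pos (fun i => Fin.elim0 i), ATrV_clr0]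

theorem ATrV_master1 (L : Lv I) (ho : L.o ∈ L.low) (A : Finset (Fin 3))
    (Z : I → ((Fin 3 → I) → ℝ) → E) (hz : ∀ x h, x ∈ L.low → Z x h = 0) {B K : ℝ}
    (hB0 : 0 ≤ B) (hZ : ∀ h, ∑ x, ‖Z x h‖ ^ 2 ≤ B * ∑ β, ATrV_wA L A β * h β ^ 2)
    (hK : B * (Fintype.card ι : ℝ) ^ (1 + (3 - A.card)) ≤ K) (Ψ : (ι → I) → ℝ) :
    ATrV_Nn L (fun σ α => ATrV_S1 L.o σ α fun x α' => Z x (fun β => Ψ (put σ β α'))) ≤
      1 * (K * ex (fun α => ((L.nhN α : ℝ) + 4) ^ 6) Ψ) := by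
  refine ATrV_Nn_le L (ATrV_master' L ho (c := 1) A (fun η h => Z (η 0) h)
    (fun η h hη => ?_) hB0 (fun h => ?_) (by omega) hK Ψ) fun σ α _ => le_of_eq ?_
  · refine hz _ _ ?_
    by_contra h0
    exact hη fun j => by fin_cases j; exact h0
  · rw [ATrV_sum1]
    exact hZ h
  · rw [ATrV_sum1]
    unfold ATrV_S1
    congr 1
    refine sum_congr rfl fun l _ => ?_
    rw [if_pos (ATrV_inj1 l), ATrV_clr1]
    simp

theorem ATrV_master2 (L : Lv I) (ho : L.o ∈ L.low) (A : Finset (Fin 3))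
    (Z : I → I → ((Fin 3 → I) → ℝ) → E) (hz : ∀ x y h, x ∈ L.low ∨ y ∈ L.low → Z x y h = 0)
    {B K : ℝ} (hB0 : 0 ≤ B)
    (hZ : ∀ h, ∑ x, ∑ y, ‖Z x y h‖ ^ 2 ≤ B * ∑ β, ATrV_wA L A β * h β ^ 2)
    (hK : B * (Fintype.card ι : ℝ) ^ (2 + (3 - A.card)) ≤ K) (Ψ : (ι → I) → ℝ) :
    ATrV_Nn L (fun σ α => ATrV_S2 L.o σ α fun x y α' => Z x y (fun β => Ψ (put σ β α'))) ≤
      1 * (K * ex (fun α => ((L.nhN α : ℝ) + 4) ^ 6) Ψ) := by
  refine ATrV_Nn_le L (ATrV_master' L ho (c := 2) A (fun η h => Z (η 0) (η 1) h)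
    (fun η h hη => ?_) hB0 (fun h => ?_) (by omega) hK Ψ) fun σ α _ => le_of_eq ?_
  · refine hz _ _ _ ?_
    by_contra h0
    rw [not_or] at h0
    exact hη fun j => by
      fin_cases j
      · exact h0.1
      · exact h0.2
  · rw [ATrV_sum2]
    exact hZ h
  · rw [ATrV_sum2]
    unfold ATrV_S2
    congr 1
    refine sum_congr rfl fun l _ => sum_congr rfl fun m _ => ?_
    simp only [ATrV_inj2, ATrV_clr2, Fin.forall_fin_two]
    by_cases a : ATrV_out σ l <;> by_cases b : ATrV_out σ m <;> simp [a, b]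

theorem ATrV_master3 (L : Lv I) (ho : L.o ∈ L.low) (A : Finset (Fin 3))
    (Z : I → I → I → ((Fin 3 → I) → ℝ) → E)
    (hz : ∀ x y z h, x ∈ L.low ∨ y ∈ L.low ∨ z ∈ L.low → Z x y z h = 0)
    {B K : ℝ} (hB0 : 0 ≤ B)
    (hZ : ∀ h, ∑ x, ∑ y, ∑ z, ‖Z x y z h‖ ^ 2 ≤ B * ∑ β, ATrV_wA L A β * h β ^ 2)
    (hK : B * (Fintype.card ι : ℝ) ^ (3 + (3 - A.card)) ≤ K) (Ψ : (ι → I) → ℝ) :
    ATrV_Nn L (fun σ α => ATrV_S3 L.o σ α fun x y z α' => Z x y z (fun β => Ψ (put σ β α'))) ≤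
      1 * (K * ex (fun α => ((L.nhN α : ℝ) + 4) ^ 6) Ψ) := by
  refine ATrV_Nn_le L (ATrV_master' L ho (c := 3) A (fun η h => Z (η 0) (η 1) (η 2) h)
    (fun η h hη => ?_) hB0 (fun h => ?_) (by omega) hK Ψ) fun σ α _ => le_of_eq ?_
  · refine hz _ _ _ _ ?_
    by_contra h0
    rw [not_or, not_or] at h0
    exact hη fun j => by
      fin_cases j
      · exact h0.1
      · exact h0.2.1
      · exact h0.2.2
  · rw [ATrV_sum3]
    exact hZ h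
  · rw [ATrV_sum3]
    unfold ATrV_S3
    congr 1
    refine sum_congr rfl fun l _ => sum_congr rfl fun m _ => sum_congr rfl fun n _ => ?_
    simp only [ATrV_inj3, ATrV_clr3, Fin.forall_fin_succ]
    by_cases a : ATrV_out σ l <;> by_cases b : ATrV_out σ m <;> by_cases c : ATrV_out σ n <;>
      simp [a, b, c]

end Pool.Agent.Lib.MP_8fe63c_mp
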