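import Pool.Agent.Lib.MP_8fe63c_mp.ATrV2

/-!
The remainders of the patterns with two and three high legs.
-/

set_option linter.unusedSectionVars false
set_option linter.unusedVariables false

open Finset
open scoped InnerProductSpace

namespace Pool.Agent.Lib.MP_8fe63c_mp

variable {I ι κ κ' E : Type} [Fintype I] [DecidableEq I] [Fintype ι] [DecidableEq ι]
  [Fintype κ] [DecidableEq κ] [Fintype κ'] [DecidableEq κ']
  [NormedAddCommGroup E] [InnerProductSpace ℝ E]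

/-- indicator of the high modes -/
def ATrV_e (L : Lv I) (a : I) : ℝ := if a ∈ L.low then 0 else 1

/-- linear combination with two indices -/
def ATrV_L2 (u : I → I → E) : (I → I → ℝ) →ₗ[ℝ] E where
  toFun c := ∑ a, ∑ b, c a b • u a b
  map_add' c c' := by simp [add_smul, sum_add_distrib]
  map_smul' r c := by simp [smul_sum, mul_smul]

/-- linear combination with three indices -/
def ATrV_L3 (u : I → I → I → E) : (I → I → I → ℝ) →ₗ[ℝ] E where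
  toFun c := ∑ a, ∑ b, ∑ d, c a b d • u a b d
  map_add' c c' := by simp [add_smul, sum_add_distrib]
  map_smul' r c := by simp [smul_sum, mul_smul]

theorem ATrV_L2_apply (u : I → I → E) (c : I → I → ℝ) :
    ATrV_L2 u c = ∑ a, ∑ b, c a b • u a b := rfl

theorem ATrV_L3_apply (u : I → I → I → E) (c : I → I → I → ℝ) :
    ATrV_L3 u c = ∑ a, ∑ b, ∑ d, c a b d • u a b d := rfl

section Maps

variable {M M' : Type} [AddCommGroup M] [AddCommGroup M'] [Module ℝ M] [Module ℝ M']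
  (o : I) (σ : Fin 3 ↪ ι) (α : ι → I)

theorem ATrV_map1 (Λ : M →ₗ[ℝ] M') (f : I → (ι → I) → M) :
    Λ (ATrV_S1 o σ α f) = ATrV_S1 o σ α fun x α' => Λ (f x α') := by
  simp only [ATrV_S1, map_sum, apply_ite Λ, map_zero]

theorem ATrV_map2 (Λ : M →ₗ[ℝ] M') (f : I → I → (ι → I) → M) :
    Λ (ATrV_S2 o σ α f) = ATrV_S2 o σ α fun x y α' => Λ (f x y α') := by
  simp only [ATrV_S2, map_sum, apply_ite Λ, map_zero]

theorem ATrV_map3 (Λ : M →ₗ[ℝ] M') (f : I → I → I → (ι → I) → M) :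
    Λ (ATrV_S3 o σ α f) = ATrV_S3 o σ α fun x y z α' => Λ (f x y z α') := by
  simp only [ATrV_S3, map_sum, apply_ite Λ, map_zero]

theorem ATrV_app1 (f : I → (ι → I) → I → M) (a : I) :
    ATrV_S1 o σ α f a = ATrV_S1 o σ α fun x α' => f x α' a := by
  simp only [ATrV_S1, Finset.sum_apply, ite_apply, Pi.zero_apply]

theorem ATrV_app2 (f : I → I → (ι → I) → I → M) (a : I) :
    ATrV_S2 o σ α f a = ATrV_S2 o σ α fun x y α' => f x y α' a := by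
  simp only [ATrV_S2, Finset.sum_apply, ite_apply, Pi.zero_apply]

theorem ATrV_app3 (f : I → I → I → (ι → I) → I → M) (a : I) :
    ATrV_S3 o σ α f a = ATrV_S3 o σ α fun x y z α' => f x y z α' a := by
  simp only [ATrV_S3, Finset.sum_apply, ite_apply, Pi.zero_apply]

theorem ATrV_zero1 : ATrV_S1 o σ α (fun _ _ => (0 : M)) = 0 := by simp [ATrV_S1]

theorem ATrV_zero2 : ATrV_S2 o σ α (fun _ _ _ => (0 : M)) = 0 := by simp [ATrV_S2]

theorem ATrV_zero3 : ATrV_S3 o σ α (fun _ _ _ _ => (0 : M)) = 0 := by simp [ATrV_S3]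

end Maps

theorem ATrV_pw {N C K : ℝ} (hN : 0 < N) (k m : ℕ) (hm : m = 2 * k) (h : C ≤ K) :
    C / √N ^ m * N ^ k ≤ K := by
  rw [hm, pow_mul, Real.sq_sqrt hN.le, div_mul_cancel₀ _ (by positivity)]
  exact h

theorem ATrV_le_sum3 {f : (Fin 3 → I) → ℝ} (hf : ∀ β, 0 ≤ f β) (o : I) :
    (∑ b, ∑ d, f ![o, b, d] ≤ ∑ β, f β) ∧ (∑ a, f ![a, o, o] ≤ ∑ β, f β) ∧
    (∑ b, f ![o, b, o] ≤ ∑ β, f β) ∧ (∑ d, f ![o, o, d] ≤ ∑ β, f β) := by
  have h1 : ∑ b, ∑ d, f ![o, b, d] ≤ ∑ β, f β := by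
    rw [ATrV_sum3]
    exact single_le_sum (f := fun a => ∑ b, ∑ d, f ![a, b, d])
      (fun _ _ => sum_nonneg fun _ _ => sum_nonneg fun _ _ => hf _) (mem_univ o)
  refine ⟨h1, ?_, le_trans ?_ h1, le_trans ?_ h1⟩
  · rw [ATrV_sum3]
    refine sum_le_sum fun a _ => le_trans ?_ (single_le_sum (f := fun b => ∑ d, f ![a, b, d])
      (fun _ _ => sum_nonneg fun _ _ => hf _) (mem_univ o))
    exact single_le_sum (f := fun d => f ![a, o, d]) (fun _ _ => hf _) (mem_univ o)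
  · exact sum_le_sum fun b _ =>
      single_le_sum (f := fun d => f ![o, b, d]) (fun _ _ => hf _) (mem_univ o)
  · exact single_le_sum (f := fun b => ∑ d, f ![o, b, d])
      (fun _ _ => sum_nonneg fun _ _ => hf _) (mem_univ o)

theorem ATrV_w (L : Lv I) (h : (Fin 3 → I) → ℝ) :
    (h ![L.o, L.o, L.o] ^ 2 ≤ ∑ β, ATrV_wA L ∅ β * h β ^ 2) ∧
    (∑ a, (ATrV_e L a * h ![a, L.o, L.o]) ^ 2 ≤ ∑ β, ATrV_wA L {0} β * h β ^ 2) ∧
    (∑ b, (ATrV_e L b * h ![L.o, b, L.o]) ^ 2 ≤ ∑ β, ATrV_wA L {1} β * h β ^ 2) ∧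
    (∑ d, (ATrV_e L d * h ![L.o, L.o, d]) ^ 2 ≤ ∑ β, ATrV_wA L {2} β * h β ^ 2) ∧
    (∑ b, ∑ d, (ATrV_e L b * ATrV_e L d * h ![L.o, b, d]) ^ 2 ≤
      ∑ β, ATrV_wA L {1, 2} β * h β ^ 2) := by
  have hf : ∀ A β, 0 ≤ ATrV_wA L A β * h β ^ 2 := fun A β =>
    mul_nonneg (ATrV_wA_nonneg L A β) (sq_nonneg _)
  refine ⟨?_, le_trans (le_of_eq ?_) (ATrV_le_sum3 (hf {0}) L.o).2.1,
    le_trans (le_of_eq ?_) (ATrV_le_sum3 (hf {1}) L.o).2.2.1,
    le_trans (le_of_eq ?_) (ATrV_le_sum3 (hf {2}) L.o).2.2.2,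
    le_trans (le_of_eq ?_) (ATrV_le_sum3 (hf {1, 2}) L.o).1⟩
  · refine le_trans (le_of_eq ?_) (single_le_sum (fun β _ => hf ∅ β) (mem_univ ![L.o, L.o, L.o]))
    simp [ATrV_wA]
  · refine sum_congr rfl fun a _ => ?_
    by_cases ha : a ∈ L.low <;> simp [ATrV_wA, ATrV_e, ha]
  · refine sum_congr rfl fun a _ => ?_
    by_cases ha : a ∈ L.low <;> simp [ATrV_wA, ATrV_e, ha]
  · refine sum_congr rfl fun a _ => ?_
    by_cases ha : a ∈ L.low <;> simp [ATrV_wA, ATrV_e, ha]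
  · refine sum_congr rfl fun a _ => sum_congr rfl fun b _ => ?_
    by_cases ha : a ∈ L.low <;> by_cases hb : b ∈ L.low <;> simp [ATrV_wA, ATrV_e, ha, hb]

namespace Dat

variable {D : Dat I E} {s C : ℝ}

theorem Trial.ATrV_z2 (h : D.Trial s C) {a b : I} (hab : a ∈ D.low ∨ b ∈ D.low) :
    D.G2 ![a, b] = 0 :=
  h.z2 _ fun hi => hab.elim (hi 0) (hi 1)

theorem Trial.ATrV_z3 (h : D.Trial s C) {a b c : I} (hab : a ∈ D.low ∨ b ∈ D.low ∨ c ∈ D.low) :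
    D.G3 ![a, b, c] = 0 :=
  h.z3 _ fun hi => hab.elim (hi 0) fun h' => h'.elim (hi 1) (hi 2)

theorem Trial.ATrV_z4 (h : D.Trial s C) {a b c d : I}
    (hab : a ∈ D.low ∨ b ∈ D.low ∨ c ∈ D.low ∨ d ∈ D.low) : D.G4 ![a, b, c, d] = 0 :=
  h.z4 _ fun hi => hab.elim (hi 0) fun h' => h'.elim (hi 1) fun h'' => h''.elim (hi 2) (hi 3)

/-- the part above the truncation level -/
noncomputable def ATrV_top (D : Dat I E) (Mx : ℕ) (Ψ : (ι → I) → ℝ) (i : ι) (α : ι → I) : ℝ :=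
  (if Mx < D.nhN α then 1 else 0) * ∑ t, D.gP Ψ t i α

theorem IsTrial.ATrV_rec {Mx : ℕ} {Ψ : (ι → I) → ℝ} (hI : D.IsTrial Mx Ψ) (h : D.Trial s C)
    (i : ι) (α : ι → I) :
    ATrV_e D.toLv (α i) * Ψ α = ∑ t, D.gP Ψ t i α - D.ATrV_top Mx Ψ i α := by
  unfold ATrV_top ATrV_e
  by_cases hi : α i ∈ D.low
  · obtain ⟨h0, h1, h2⟩ := D.gP_explicit h Ψ i α
    rw [Fin.sum_univ_three, h0, h1, h2]
    simp [hi, h.ATrV_z2, h.ATrV_z3, h.ATrV_z4]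
  · by_cases hM : Mx < D.nhN α
    · have : Ψ α = 0 := by
        by_contra h0
        have := (hI.supp α h0).2
        omega
      simp [hM, this]
    · simp only [hi, hM, if_false, one_mul, zero_mul, sub_zero]
      exact hI.rec_eq i α hi (not_lt.1 hM)

/-- remainder of the pattern with two high legs -/
noncomputable def ATrV_r2 (D : Dat I E) (Ψ : (ι → I) → ℝ) (σ : Fin 3 ↪ ι) (α : ι → I) (a b : I) :
    ℝ :=
  ATrV_e D.toLv a * ATrV_e D.toLv b * Ψ (put σ ![a, b, D.o] α) -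
    ATrV_S1 D.o σ α fun x α' => D.G3 ![a, b, x] * Ψ (put σ ![D.o, D.o, D.o] α')

/-- remainder of the pattern with three high legs -/
noncomputable def ATrV_r3 (D : Dat I E) (Ψ : (ι → I) → ℝ) (σ : Fin 3 ↪ ι) (α : ι → I)
    (a b d : I) : ℝ :=
  ATrV_e D.toLv a * ATrV_e D.toLv b * ATrV_e D.toLv d * Ψ (put σ ![a, b, d] α) -
    D.G3 ![a, b, d] * Ψ (put σ ![D.o, D.o, D.o] α) -
    ATrV_S1 D.o σ α fun x α' => D.G4 ![a, b, d, x] * Ψ (put σ ![D.o, D.o, D.o] α')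

theorem IsTrial.ATrV_r2_eq {Mx : ℕ} {Ψ : (ι → I) → ℝ} (hI : D.IsTrial Mx Ψ) (h : D.Trial s C)
    (ho : D.o ∈ D.low) (σ : Fin 3 ↪ ι) (α : ι → I) :
    D.ATrV_r2 Ψ σ α =
      (fun a b => D.G2 ![a, b] * Ψ (put σ ![D.o, D.o, D.o] α)) +
      ATrV_S1 D.o σ α (fun x α' a b =>
        D.G2 ![a, x] * (ATrV_e D.toLv b * Ψ (put σ ![D.o, b, D.o] α'))) +
      (1 / 2 : ℝ) • ATrV_S2 D.o σ α (fun x y α' a b =>
        D.G3 ![a, x, y] * (ATrV_e D.toLv b * Ψ (put σ ![D.o, b, D.o] α'))) +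
      (1 / 2 : ℝ) • ATrV_S2 D.o σ α (fun x y α' a b =>
        D.G4 ![a, b, x, y] * Ψ (put σ ![D.o, D.o, D.o] α')) +
      (1 / 6 : ℝ) • ATrV_S3 D.o σ α (fun x y z α' a b =>
        D.G4 ![a, x, y, z] * (ATrV_e D.toLv b * Ψ (put σ ![D.o, b, D.o] α'))) -
      fun a b => ATrV_e D.toLv b * D.ATrV_top Mx Ψ (σ 0) (put σ ![a, b, D.o] α) := by
  funext a b
  have hr := hI.ATrV_rec h (σ 0) (put σ ![a, b, D.o] α)
  rw [put_apply, D.ATrV_expand h] at hr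
  simp only [Matrix.cons_val_zero] at hr
  simp only [ATrV_r2, Pi.add_apply, Pi.sub_apply, Pi.smul_apply, ATrV_app1, ATrV_app2, ATrV_app3,
    smul_eq_mul]
  by_cases hb : b ∈ D.low
  · simp [ATrV_e, hb, h.ATrV_z2, h.ATrV_z3, h.ATrV_z4, ATrV_zero1, ATrV_zero2, ATrV_zero3]
  · have e1 : ATrV_e D.toLv b = 1 := by simp [ATrV_e, hb]
    simp only [h.ATrV_z2, h.ATrV_z3, h.ATrV_z4, ho, true_or, or_true, zero_mul, ATrV_zero1,
      ATrV_zero2] at hr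
    simp only [e1, one_mul, mul_one]
    linarith

theorem IsTrial.ATrV_r3_eq {Mx : ℕ} {Ψ : (ι → I) → ℝ} (hI : D.IsTrial Mx Ψ) (h : D.Trial s C)
    (σ : Fin 3 ↪ ι) (α : ι → I) :
    D.ATrV_r3 Ψ σ α =
      (fun a b d => D.G2 ![a, b] * (ATrV_e D.toLv d * Ψ (put σ ![D.o, D.o, d] α))) +
      (fun a b d => D.G2 ![a, d] * (ATrV_e D.toLv b * Ψ (put σ ![D.o, b, D.o] α))) +
      ATrV_S1 D.o σ α (fun x α' a b d =>
        D.G2 ![a, x] * (ATrV_e D.toLv b * ATrV_e D.toLv d * Ψ (put σ ![D.o, b, d] α'))) +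
      ATrV_S1 D.o σ α (fun x α' a b d =>
        D.G3 ![a, b, x] * (ATrV_e D.toLv d * Ψ (put σ ![D.o, D.o, d] α'))) +
      ATrV_S1 D.o σ α (fun x α' a b d =>
        D.G3 ![a, d, x] * (ATrV_e D.toLv b * Ψ (put σ ![D.o, b, D.o] α'))) +
      (1 / 2 : ℝ) • ATrV_S2 D.o σ α (fun x y α' a b d =>
        D.G3 ![a, x, y] * (ATrV_e D.toLv b * ATrV_e D.toLv d * Ψ (put σ ![D.o, b, d] α'))) +
      (1 / 2 : ℝ) • ATrV_S2 D.o σ α (fun x y α' a b d =>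
        D.G4 ![a, b, x, y] * (ATrV_e D.toLv d * Ψ (put σ ![D.o, D.o, d] α'))) +
      (1 / 2 : ℝ) • ATrV_S2 D.o σ α (fun x y α' a b d =>
        D.G4 ![a, d, x, y] * (ATrV_e D.toLv b * Ψ (put σ ![D.o, b, D.o] α'))) +
      (1 / 6 : ℝ) • ATrV_S3 D.o σ α (fun x y z α' a b d =>
        D.G4 ![a, x, y, z] * (ATrV_e D.toLv b * ATrV_e D.toLv d * Ψ (put σ ![D.o, b, d] α'))) -
      fun a b d => ATrV_e D.toLv b * ATrV_e D.toLv d *
        D.ATrV_top Mx Ψ (σ 0) (put σ ![a, b, d] α) := by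
  funext a b d
  have hr := hI.ATrV_rec h (σ 0) (put σ ![a, b, d] α)
  rw [put_apply, D.ATrV_expand h] at hr
  simp only [Matrix.cons_val_zero] at hr
  simp only [ATrV_r3, Pi.add_apply, Pi.sub_apply, Pi.smul_apply, ATrV_app1, ATrV_app2, ATrV_app3,
    smul_eq_mul]
  by_cases hb : b ∈ D.low
  · simp [ATrV_e, hb, h.ATrV_z2, h.ATrV_z3, h.ATrV_z4, ATrV_zero1, ATrV_zero2, ATrV_zero3]
  by_cases hd : d ∈ D.low
  · simp [ATrV_e, hd, h.ATrV_z2, h.ATrV_z3, h.ATrV_z4, ATrV_zero1, ATrV_zero2, ATrV_zero3]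
  have e1 : ATrV_e D.toLv b = 1 := by simp [ATrV_e, hb]
  have e2 : ATrV_e D.toLv d = 1 := by simp [ATrV_e, hd]
  simp only [e1, e2, one_mul, mul_one]
  linarith

theorem Base.ATrV_perm {γ Λ C₀ : ℝ} (hb : D.Base γ Λ C₀ C) (c : I → I → I → ℝ) :
    ‖∑ a, ∑ b, ∑ d, c a b d • D.υ ![a, d, b]‖ = ‖∑ a, ∑ b, ∑ d, c a b d • D.υ ![a, b, d]‖ ∧
    ‖∑ a, ∑ b, ∑ d, c a b d • D.υ ![d, a, b]‖ = ‖∑ a, ∑ b, ∑ d, c a b d • D.υ ![a, b, d]‖ := by
  constructor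
  · have := hb.υ_symm (Equiv.swap 1 2) fun β => c (β 0) (β 1) (β 2)
    rw [ATrV_sum3, ATrV_sum3] at this
    have e : ∀ a b d : I, ![a, b, d] ∘ (Equiv.swap (1 : Fin 3) 2) = ![a, d, b] := fun a b d => by
      funext j
      fin_cases j <;> rfl
    simp only [e] at this
    exact this
  · have := hb.υ_symm (finRotate 3).symm fun β => c (β 0) (β 1) (β 2)
    rw [ATrV_sum3, ATrV_sum3] at this
    have e : ∀ a b d : I, ![a, b, d] ∘ (finRotate 3).symm = ![d, a, b] := fun a b d => by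
      funext j
      fin_cases j <;> rfl
    simp only [e] at this
    exact this

theorem Base.ATrV_swap {γ Λ C₀ : ℝ} (hb : D.Base γ Λ C₀ C) (c : I → I → I → ℝ) :
    ‖ATrV_L3 (fun a b d => D.υ ![a, b, d]) (fun a b d => c a d b)‖ =
      ‖∑ a, ∑ b, ∑ d, c a b d • D.υ ![a, b, d]‖ := by
  rw [← (hb.ATrV_perm c).1, ATrV_L3_apply]
  congr 1
  exact sum_congr rfl fun a _ => sum_comm

theorem Base.ATrV_perm2 {γ Λ C₀ : ℝ} (hb : D.Base γ Λ C₀ C) (c : I → I → ℝ) (o : I) :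
    ‖∑ a, ∑ b, c a b • D.υ ![a, o, b]‖ = ‖∑ a, ∑ b, c a b • D.υ ![a, b, o]‖ ∧
    ‖∑ a, ∑ b, c a b • D.υ ![o, a, b]‖ = ‖∑ a, ∑ b, c a b • D.υ ![a, b, o]‖ := by
  simpa [ite_smul] using hb.ATrV_perm fun a b d => if d = o then c a b else 0

theorem Base.ATrV_perm1 {γ Λ C₀ : ℝ} (hb : D.Base γ Λ C₀ C) (c : I → ℝ) (o : I) :
    ‖∑ a, c a • D.υ ![o, a, o]‖ = ‖∑ a, c a • D.υ ![a, o, o]‖ ∧
    ‖∑ a, c a • D.υ ![o, o, a]‖ = ‖∑ a, c a • D.υ ![a, o, o]‖ := by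
  have h1 := (hb.ATrV_perm2 (fun a b => if b = o then c a else 0) o).2
  have h2 := (hb.ATrV_perm2 (fun a b => if a = o then c b else 0) o).2
  simp only [ite_smul, zero_smul, sum_ite_eq', mem_univ, if_true] at h1
  simp only [ite_smul, zero_smul] at h2
  rw [sum_comm, sum_comm (f := fun a b => if a = o then c b • D.υ ![a, b, o] else 0)] at h2
  simp only [sum_ite_eq', mem_univ, if_true] at h2
  exact ⟨h1, h2.trans h1⟩

theorem ATrV_top_bound {γ Λ C₀ Kt K : ℝ} (hb : D.Base γ Λ C₀ C) (hH : D.Hardy s C) {Mx : ℕ}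
    {Ψ : (ι → I) → ℝ}
    (ht : (Fintype.card ι : ℝ) ^ 2 * ∑ i, ∑ α, (if Mx < D.nhN α then 1 else 0) *
      (D.lam (α i) + 1) * (∑ t, D.gP Ψ t i α) ^ 2 ≤ Kt * nsq Ψ) (hKt : 0 ≤ Kt) (hK : C * Kt ≤ K)
    (m : (Fin 3 → I) → ℝ) (hm : ∀ β, m β ^ 2 ≤ 1) :
    ATrV_Nn D.toLv (fun (σ : Fin 3 ↪ ι) α =>
      ∑ β, (m β * D.ATrV_top Mx Ψ (σ 0) (put σ β α)) • D.υ β) ≤
      1 * (K * ex (fun α => ((D.nhN α : ℝ) + 4) ^ 6) Ψ) := by
  have hC : 0 ≤ C := by linarith [hb.C₀_ge, hb.C₀_le]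
  have hl := hb.lam_nonneg
  set g : ι → ℝ := fun i => ∑ α, (if Mx < D.nhN α then 1 else 0) *
      (D.lam (α i) + 1) * (∑ t, D.gP Ψ t i α) ^ 2 with hg
  have g0 : ∀ i, 0 ≤ g i := fun i => sum_nonneg fun α _ => by
    have := hl (α i)
    positivity
  have s1 : ∀ σ : Fin 3 ↪ ι, ∑ α ∈ D.vac σ,
      ‖∑ β, (m β * D.ATrV_top Mx Ψ (σ 0) (put σ β α)) • D.υ β‖ ^ 2 ≤ C * g (σ 0) := by
    intro σ
    rw [hg]
    simp only
    rw [← D.sum_vac_put σ, mul_sum]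
    refine sum_le_sum fun α _ => (hH.h0 _).trans (mul_le_mul_of_nonneg_left
      (sum_le_sum fun β _ => ?_) hC)
    rw [put_apply]
    unfold ATrV_top
    have := hl (β 0)
    have h1 := hm β
    split_ifs
    · rw [one_mul, one_mul, mul_pow]
      refine mul_le_mul_of_nonneg_left ?_ (by positivity)
      exact mul_le_of_le_one_left (sq_nonneg _) h1
    · simp
  have s2 : ∑ σ : Fin 3 ↪ ι, g (σ 0) ≤ (Fintype.card ι : ℝ) ^ 2 * ∑ i, g i := by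
    rw [← sum_fiberwise univ (fun σ : Fin 3 ↪ ι => σ 0), mul_sum]
    refine sum_le_sum fun i _ => ?_
    rw [sum_congr rfl (g := fun _ => g i) fun σ hσ => by rw [(mem_filter.1 hσ).2], sum_const,
      nsmul_eq_mul]
    refine mul_le_mul_of_nonneg_right ?_ (g0 i)
    have := ATrV_card_emb (κ := Fin 3) ![{i}, univ, univ] (univ.filter fun σ : Fin 3 ↪ ι => σ 0 = i)
      fun σ hσ j => by
        fin_cases j
        · simpa using (mem_filter.1 hσ).2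
        · simp
        · simp
    rw [Fin.prod_univ_three] at this
    simp only [Matrix.cons_val_zero, card_singleton, Matrix.cons_val_one, card_univ,
      Matrix.cons_val, one_mul] at this
    rw [sq]
    exact_mod_cast this
  have s3 : nsq Ψ ≤ ex (fun α => ((D.nhN α : ℝ) + 4) ^ 6) Ψ := by
    refine sum_le_sum fun α _ => le_mul_of_one_le_left (sq_nonneg _) (one_le_pow₀ ?_)
    have : (0 : ℝ) ≤ D.nhN α := Nat.cast_nonneg _
    linarith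
  have s4 := nsq_nonneg Ψ
  refine (sum_le_sum fun σ _ => s1 σ).trans ?_
  rw [← mul_sum, one_mul]
  calc C * ∑ σ : Fin 3 ↪ ι, g (σ 0) ≤ C * (Kt * nsq Ψ) :=
        mul_le_mul_of_nonneg_left (s2.trans ht) hC
    _ = C * Kt * nsq Ψ := by ring
    _ ≤ _ := mul_le_mul hK s3 s4 ((mul_nonneg hC hKt).trans hK)

end Dat

end Pool.Agent.Lib.MP_8fe63c_mp
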