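import Pool.Agent.Lib.MP_8fe63c_mp.ATrV3

/-!
Bounds for the remainders.
-/

set_option linter.unusedSectionVars false
set_option linter.unusedVariables false

open Finset
open scoped InnerProductSpace

namespace Pool.Agent.Lib.MP_8fe63c_mp

variable {I ι E : Type} [Fintype I] [DecidableEq I] [Fintype ι] [DecidableEq ι]
  [NormedAddCommGroup E] [InnerProductSpace ℝ E]

namespace Dat

/-- all the hypotheses -/
structure ATrV_Hyp (D : Dat I E) (γ Λ C₀ C KG Kt K : ℝ) (Mx : ℕ) (Ψ : (ι → I) → ℝ) : Prop where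
  N_pos : (0 : ℝ) < Fintype.card ι
  b : D.Base γ Λ C₀ C
  h : D.Hardy √(Fintype.card ι : ℝ) C
  n : D.Norms √(Fintype.card ι : ℝ) Λ C₀ C
  t : D.Trial √(Fintype.card ι : ℝ) C
  i : D.IsTrial Mx Ψ
  g2 : ∑ α, (∑ j, (D.lam (α j) + 1)) * D.G2 α ^ 2 ≤ KG / √(Fintype.card ι : ℝ) ^ 3
  g4 : ∑ α, (∑ j, (D.lam (α j) + 1)) * D.G4 α ^ 2 ≤ KG / √(Fintype.card ι : ℝ) ^ 7
  top : (Fintype.card ι : ℝ) ^ 2 * ∑ i, ∑ α, (if Mx < D.nhN α then 1 else 0) *
      (D.lam (α i) + 1) * (∑ t, D.gP Ψ t i α) ^ 2 ≤ Kt * nsq Ψ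
  KG0 : 0 ≤ KG
  Kt0 : 0 ≤ Kt
  k1 : C ≤ K
  k2 : C * KG ≤ K
  k3 : C * C ≤ K
  k4 : C * Kt ≤ K

variable {D : Dat I E} {γ Λ C₀ C KG Kt K : ℝ} {Mx : ℕ} {Ψ : (ι → I) → ℝ}

theorem ATrV_Hyp.C0 (H : D.ATrV_Hyp γ Λ C₀ C KG Kt K Mx Ψ) : 0 ≤ C := by
  linarith [H.b.C₀_ge, H.b.C₀_le]

theorem ATrV_e_sq (L : Lv I) (a : I) : ATrV_e L a ^ 2 ≤ 1 := by
  unfold ATrV_e
  split_ifs <;> norm_num

theorem ATrV_Hyp.r2 (H : D.ATrV_Hyp γ Λ C₀ C KG Kt K Mx Ψ) :
    ATrV_Nn D.toLv (fun (σ : Fin 3 ↪ ι) α =>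
      ∑ a, ∑ b, D.ATrV_r2 Ψ σ α a b • D.υ ![a, b, D.o]) ≤
      94 * (K * ex (fun α => ((D.nhN α : ℝ) + 4) ^ 6) Ψ) := by
  have hC := H.C0
  have ho := H.b.o_low
  have hl := H.b.lam_nonneg
  have hKG := H.KG0
  set s := √(Fintype.card ι : ℝ) with hs
  have hs0 : 0 < s := Real.sqrt_pos.2 H.N_pos
  set Λ2 := ATrV_L2 (fun a b => D.υ ![a, b, D.o]) with hΛ
  have t1 := ATrV_master0 D.toLv ho ∅
    (fun h => Λ2 fun a b => D.G2 ![a, b] * h ![D.o, D.o, D.o]) (B := C * KG / s ^ 6) (K := K)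
    (by positivity) (fun h => by
      refine (H.h.h1 _).trans ?_
      have g := H.g2
      rw [ATrV_sum2] at g
      have w := (ATrV_w D.toLv h).1
      have e : ∑ a, ∑ b, (D.lam a + 1) * (D.G2 ![a, b] * h ![D.o, D.o, D.o]) ^ 2 ≤
          KG / s ^ 3 * h ![D.o, D.o, D.o] ^ 2 := by
        refine le_trans ?_ (mul_le_mul_of_nonneg_right g (sq_nonneg _))
        simp only [sum_mul]
        refine sum_le_sum fun a _ => sum_le_sum fun b _ => ?_
        rw [Fin.sum_univ_two, mul_pow, ← mul_assoc]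
        have := hl b
        simp only [Matrix.cons_val_zero, Matrix.cons_val_one]
        nlinarith [mul_nonneg (mul_nonneg (add_nonneg this zero_le_one) (sq_nonneg (D.G2 ![a, b])))
          (sq_nonneg (h ![D.o, D.o, D.o]))]
      calc _ ≤ C / s ^ 3 * (KG / s ^ 3 * h ![D.o, D.o, D.o] ^ 2) := by gcongr
        _ = C * KG / s ^ 6 * h ![D.o, D.o, D.o] ^ 2 := by field_simp
        _ ≤ _ := by gcongr)
    (ATrV_pw H.N_pos _ _ (by decide) H.k2) Ψ
  have t2 := ATrV_master1 D.toLv ho {1}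
    (fun x h => Λ2 fun a b => D.G2 ![a, x] * (ATrV_e D.toLv b * h ![D.o, b, D.o]))
    (fun x h hx => by simp [hΛ, ATrV_L2_apply, H.t.ATrV_z2, hx]) (B := C / s ^ 6) (K := K)
    (by positivity) (fun h => (H.t.a2 _).trans
      (mul_le_mul_of_nonneg_left (ATrV_w D.toLv h).2.2.1 (by positivity)))
    (ATrV_pw H.N_pos _ _ (by decide) H.k1) Ψ
  have t3 := ATrV_master2 D.toLv ho {1}
    (fun x y h => Λ2 fun a b => D.G3 ![a, x, y] * (ATrV_e D.toLv b * h ![D.o, b, D.o]))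
    (fun x y h hx => by simp [hΛ, ATrV_L2_apply, H.t.ATrV_z3, hx]) (B := C / s ^ 8) (K := K)
    (by positivity) (fun h => (H.t.a3 _).trans
      (mul_le_mul_of_nonneg_left (ATrV_w D.toLv h).2.2.1 (by positivity)))
    (ATrV_pw H.N_pos _ _ (by decide) H.k1) Ψ
  have t4 := ATrV_master2 D.toLv ho ∅
    (fun x y h => Λ2 fun a b => D.G4 ![a, b, x, y] * h ![D.o, D.o, D.o])
    (fun x y h hx => by simp [hΛ, ATrV_L2_apply, H.t.ATrV_z4, hx]) (B := C * KG / s ^ 10) (K := K)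
    (by positivity) (fun h => by
      refine (sum_le_sum fun x _ => sum_le_sum fun y _ => H.h.h1 _).trans ?_
      have g := H.g4
      rw [ATrV_sum4] at g
      have w := (ATrV_w D.toLv h).1
      have e : ∑ x, ∑ y, ∑ a, ∑ b,
          (D.lam a + 1) * (D.G4 ![a, b, x, y] * h ![D.o, D.o, D.o]) ^ 2 ≤
          KG / s ^ 7 * h ![D.o, D.o, D.o] ^ 2 := by
        refine le_trans ?_ (mul_le_mul_of_nonneg_right g (sq_nonneg _))
        rw [sum_comm_cycle, sum_congr rfl fun a _ => sum_comm_cycle]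
        simp only [sum_mul]
        refine sum_le_sum fun a _ => sum_le_sum fun b _ => sum_le_sum fun x _ =>
          sum_le_sum fun y _ => ?_
        rw [Fin.sum_univ_four, mul_pow, ← mul_assoc]
        have h1 := hl b
        have h2 := hl x
        have h3 := hl y
        simp only [Matrix.cons_val_zero, Matrix.cons_val_one, Matrix.cons_val]
        have h4 := mul_nonneg (sq_nonneg (D.G4 ![a, b, x, y])) (sq_nonneg (h ![D.o, D.o, D.o]))
        nlinarith [mul_nonneg h1 h4, mul_nonneg h2 h4, mul_nonneg h3 h4]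
      simp only [← mul_sum] at e ⊢
      calc _ ≤ C / s ^ 3 * (KG / s ^ 7 * h ![D.o, D.o, D.o] ^ 2) := by gcongr
        _ = C * KG / s ^ 10 * h ![D.o, D.o, D.o] ^ 2 := by field_simp
        _ ≤ _ := by gcongr)
    (ATrV_pw H.N_pos _ _ (by decide) H.k2) Ψ
  have t5 := ATrV_master3 D.toLv ho {1}
    (fun x y z h => Λ2 fun a b => D.G4 ![a, x, y, z] * (ATrV_e D.toLv b * h ![D.o, b, D.o]))
    (fun x y z h hx => by simp [hΛ, ATrV_L2_apply, H.t.ATrV_z4, hx]) (B := C / s ^ 10) (K := K)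
    (by positivity) (fun h => (H.t.a4 _).trans
      (mul_le_mul_of_nonneg_left (ATrV_w D.toLv h).2.2.1 (by positivity)))
    (ATrV_pw H.N_pos _ _ (by decide) H.k1) Ψ
  have t6 := ATrV_top_bound H.b H.h H.top H.Kt0 H.k4
    (fun β => if β 2 = D.o then ATrV_e D.toLv (β 1) else 0) fun β => by
      split_ifs
      · exact ATrV_e_sq _ _
      · norm_num
  have all := ATrV_Nn_sub _ (ATrV_Nn_add _ (ATrV_Nn_add _ (ATrV_Nn_add _ (ATrV_Nn_add _ t1 t2)
    (ATrV_Nn_smul _ t3 (c := 1 / 2) (by norm_num) (by norm_num)))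
    (ATrV_Nn_smul _ t4 (c := 1 / 2) (by norm_num) (by norm_num)))
    (ATrV_Nn_smul _ t5 (c := 1 / 6) (by norm_num) (by norm_num))) t6
  refine ATrV_Nn_le _ (all.trans (le_of_eq (by norm_num))) fun σ α _ => le_of_eq ?_
  rw [← ATrV_L2_apply, ← hΛ, H.i.ATrV_r2_eq H.t ho]
  simp only [map_add, map_sub, map_smul, ATrV_map1, ATrV_map2, ATrV_map3]
  congr 2
  rw [ATrV_sum3, hΛ, ATrV_L2_apply]
  simp [ite_smul]

theorem ATrV_Hyp.r3 (H : D.ATrV_Hyp γ Λ C₀ C KG Kt K Mx Ψ) :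
    ATrV_Nn D.toLv (fun (σ : Fin 3 ↪ ι) α =>
      ∑ a, ∑ b, ∑ d, D.ATrV_r3 Ψ σ α a b d • D.υ ![a, b, d]) ≤
      1534 * (K * ex (fun α => ((D.nhN α : ℝ) + 4) ^ 6) Ψ) := by
  have hC := H.C0
  have ho := H.b.o_low
  set s := √(Fintype.card ι : ℝ) with hs
  have hs0 : 0 < s := Real.sqrt_pos.2 H.N_pos
  set Λ3 := ATrV_L3 (fun a b d => D.υ ![a, b, d]) with hΛ
  have t1 := ATrV_master0 D.toLv ho {2}
    (fun h => Λ3 fun a b d => D.G2 ![a, b] * (ATrV_e D.toLv d * h ![D.o, D.o, d]))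
    (B := C / s ^ 4) (K := K) (by positivity) (fun h => (H.t.c2 _).trans
      (mul_le_mul_of_nonneg_left (ATrV_w D.toLv h).2.2.2.1 (by positivity)))
    (ATrV_pw H.N_pos _ _ (by decide) H.k1) Ψ
  have t2 := ATrV_master0 D.toLv ho {1}
    (fun h => Λ3 fun a b d => D.G2 ![a, d] * (ATrV_e D.toLv b * h ![D.o, b, D.o]))
    (B := C / s ^ 4) (K := K) (by positivity) (fun h => by
      rw [hΛ, H.b.ATrV_swap fun a b d => D.G2 ![a, b] * (ATrV_e D.toLv d * h ![D.o, d, D.o])]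
      exact (H.t.c2 _).trans
        (mul_le_mul_of_nonneg_left (ATrV_w D.toLv h).2.2.1 (by positivity)))
    (ATrV_pw H.N_pos _ _ (by decide) H.k1) Ψ
  have t3 := ATrV_master1 D.toLv ho {1, 2}
    (fun x h => Λ3 fun a b d =>
      D.G2 ![a, x] * (ATrV_e D.toLv b * ATrV_e D.toLv d * h ![D.o, b, d]))
    (fun x h hx => by simp [hΛ, ATrV_L3_apply, H.t.ATrV_z2, hx]) (B := C / s ^ 4) (K := K)
    (by positivity) (fun h => (H.t.b2 _).trans
      (mul_le_mul_of_nonneg_left (ATrV_w D.toLv h).2.2.2.2 (by positivity)))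
    (ATrV_pw H.N_pos _ _ (by decide) H.k1) Ψ
  have t4 := ATrV_master1 D.toLv ho {2}
    (fun x h => Λ3 fun a b d => D.G3 ![a, b, x] * (ATrV_e D.toLv d * h ![D.o, D.o, d]))
    (fun x h hx => by simp [hΛ, ATrV_L3_apply, H.t.ATrV_z3, hx]) (B := C / s ^ 6) (K := K)
    (by positivity) (fun h => (H.t.c3 _).trans
      (mul_le_mul_of_nonneg_left (ATrV_w D.toLv h).2.2.2.1 (by positivity)))
    (ATrV_pw H.N_pos _ _ (by decide) H.k1) Ψ
  have t5 := ATrV_master1 D.toLv ho {1}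
    (fun x h => Λ3 fun a b d => D.G3 ![a, d, x] * (ATrV_e D.toLv b * h ![D.o, b, D.o]))
    (fun x h hx => by simp [hΛ, ATrV_L3_apply, H.t.ATrV_z3, hx]) (B := C / s ^ 6) (K := K)
    (by positivity) (fun h => by
      simp only [hΛ, fun x => H.b.ATrV_swap
        fun a b d => D.G3 ![a, b, x] * (ATrV_e D.toLv d * h ![D.o, d, D.o])]
      exact (H.t.c3 _).trans
        (mul_le_mul_of_nonneg_left (ATrV_w D.toLv h).2.2.1 (by positivity)))
    (ATrV_pw H.N_pos _ _ (by decide) H.k1) Ψ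
  have t6 := ATrV_master2 D.toLv ho {1, 2}
    (fun x y h => Λ3 fun a b d =>
      D.G3 ![a, x, y] * (ATrV_e D.toLv b * ATrV_e D.toLv d * h ![D.o, b, d]))
    (fun x y h hx => by simp [hΛ, ATrV_L3_apply, H.t.ATrV_z3, hx]) (B := C / s ^ 6) (K := K)
    (by positivity) (fun h => (H.t.b3 _).trans
      (mul_le_mul_of_nonneg_left (ATrV_w D.toLv h).2.2.2.2 (by positivity)))
    (ATrV_pw H.N_pos _ _ (by decide) H.k1) Ψ
  have t7 := ATrV_master2 D.toLv ho {2}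
    (fun x y h => Λ3 fun a b d => D.G4 ![a, b, x, y] * (ATrV_e D.toLv d * h ![D.o, D.o, d]))
    (fun x y h hx => by simp [hΛ, ATrV_L3_apply, H.t.ATrV_z4, hx]) (B := C / s ^ 8) (K := K)
    (by positivity) (fun h => (H.t.c4 _).trans
      (mul_le_mul_of_nonneg_left (ATrV_w D.toLv h).2.2.2.1 (by positivity)))
    (ATrV_pw H.N_pos _ _ (by decide) H.k1) Ψ
  have t8 := ATrV_master2 D.toLv ho {1}
    (fun x y h => Λ3 fun a b d => D.G4 ![a, d, x, y] * (ATrV_e D.toLv b * h ![D.o, b, D.o]))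
    (fun x y h hx => by simp [hΛ, ATrV_L3_apply, H.t.ATrV_z4, hx]) (B := C / s ^ 8) (K := K)
    (by positivity) (fun h => by
      simp only [hΛ, fun x y => H.b.ATrV_swap
        fun a b d => D.G4 ![a, b, x, y] * (ATrV_e D.toLv d * h ![D.o, d, D.o])]
      exact (H.t.c4 _).trans
        (mul_le_mul_of_nonneg_left (ATrV_w D.toLv h).2.2.1 (by positivity)))
    (ATrV_pw H.N_pos _ _ (by decide) H.k1) Ψ
  have t9 := ATrV_master3 D.toLv ho {1, 2}
    (fun x y z h => Λ3 fun a b d =>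
      D.G4 ![a, x, y, z] * (ATrV_e D.toLv b * ATrV_e D.toLv d * h ![D.o, b, d]))
    (fun x y z h hx => by simp [hΛ, ATrV_L3_apply, H.t.ATrV_z4, hx]) (B := C / s ^ 8) (K := K)
    (by positivity) (fun h => (H.t.b4 _).trans
      (mul_le_mul_of_nonneg_left (ATrV_w D.toLv h).2.2.2.2 (by positivity)))
    (ATrV_pw H.N_pos _ _ (by decide) H.k1) Ψ
  have t10 := ATrV_top_bound H.b H.h H.top H.Kt0 H.k4
    (fun β => ATrV_e D.toLv (β 1) * ATrV_e D.toLv (β 2)) fun β => by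
      rw [mul_pow]
      exact mul_le_one₀ (ATrV_e_sq _ _) (sq_nonneg _) (ATrV_e_sq _ _)
  have all := ATrV_Nn_sub _ (ATrV_Nn_add _ (ATrV_Nn_add _ (ATrV_Nn_add _ (ATrV_Nn_add _
    (ATrV_Nn_add _ (ATrV_Nn_add _ (ATrV_Nn_add _ (ATrV_Nn_add _ t1 t2) t3) t4) t5)
    (ATrV_Nn_smul _ t6 (c := 1 / 2) (by norm_num) (by norm_num)))
    (ATrV_Nn_smul _ t7 (c := 1 / 2) (by norm_num) (by norm_num)))
    (ATrV_Nn_smul _ t8 (c := 1 / 2) (by norm_num) (by norm_num)))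
    (ATrV_Nn_smul _ t9 (c := 1 / 6) (by norm_num) (by norm_num))) t10
  refine ATrV_Nn_le _ (all.trans (le_of_eq (by norm_num))) fun σ α _ => le_of_eq ?_
  rw [← ATrV_L3_apply, ← hΛ, H.i.ATrV_r3_eq H.t]
  simp only [map_add, map_sub, map_smul, ATrV_map1, ATrV_map2, ATrV_map3]
  congr 2
  rw [ATrV_sum3, hΛ, ATrV_L3_apply]
  rfl

end Dat

end Pool.Agent.Lib.MP_8fe63c_mp
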