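import Pool.Agent.Lib.MP_8fe63c_mp.AErr

/-!
The trial state: existence and decay of the sector norms.

Sketch. Let `G Ψ α = ∑ p (1/p!) ∑ ρ, G_p (α ∘ ρ) Ψ (put ρ o α)`, `G_i = ∑ t gP t i` the part with
`i ∈ range ρ`, `Φ = 1 {α = o}`. The operators attached to single tuples commute, and the product of two
of them vanishes if the ranges meet (a leg cannot be both high and `o`). By induction
`q_i G^(m+1) Φ = (m+1) G_i G^m Φ`, where `q_i` is the indicator that leg `i` is high; `G^m Φ` lives on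
configurations with at least `2 m` high legs. Put `Ψ₀ = ∑ m ≤ card ι, G^m Φ/m!` and truncate to
`nhN ≤ Mx`. (Alternatively define `Ψ₀` by recursion on `nhN`.)
Decay: let `n j` be the squared norm of the part with `nhN = j`. Then
`j n j = ∑ i ‖q_i Ψ_j‖^2 ≤ 3 ∑ t ∑ i ‖gP t i Ψ_(j-t-2)‖^2 ≤ 3 ∑ t (K₁ + 2^(-14) j) n (j-t-2)` by
`cre_mul_eq_same`, `diag_eq`, `off_bound` with `ϖ = 1` (`FamU`), `sum_vac_sq`, as long as
`j ≤ Mx`, `Mx^8 ≤ N` and `N` is large. Hence `n j ≤ 2^(j₀ - j) nsq Ψ`.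
-/

set_option linter.unusedSectionVars false

open Finset
open scoped InnerProductSpace

namespace Pool.Agent.Lib.MP_8fe63c_mp

variable {I ι κ κ' E : Type} [Fintype I] [DecidableEq I] [Fintype ι] [DecidableEq ι]
  [Fintype κ] [DecidableEq κ] [Fintype κ'] [DecidableEq κ']
  [NormedAddCommGroup E] [InnerProductSpace ℝ E]


/-- the cluster recursion at the leg `i` -/
noncomputable def ATrial_Q {J : Type} [Fintype J] (r : J → Finset ι) (c : J → ℝ)
    (P : Finset ι → ℝ) (i : ι) (S : Finset ι) : ℝ :=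
  ∑ x, if i ∈ r x ∧ r x ⊆ S then c x * P (S \ r x) else 0

/-- `P` is the sum over all partitions into clusters -/
def ATrial_Rec {J : Type} [Fintype J] (r : J → Finset ι) (c : J → ℝ) (P : Finset ι → ℝ) : Prop :=
  P ∅ = 1 ∧ ∀ S i, i ∈ S → P S = ATrial_Q r c P i S

theorem ATrial_ssub {S B : Finset ι} {i : ι} (h : i ∈ B ∧ B ⊆ S) : S \ B ⊂ S :=
  sdiff_ssubset h.2 ⟨i, h.1⟩

theorem ATrial_Q_split {J : Type} [Fintype J] (r : J → Finset ι) (c : J → ℝ) (P : Finset ι → ℝ)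
    (S : Finset ι) (ih : ∀ T ⊂ S, ∀ j ∈ T, P T = ATrial_Q r c P j T) (i : ι) {j : ι}
    (hj : j ∈ S) :
    ATrial_Q r c P i S =
      (∑ x, if (i ∈ r x ∧ j ∈ r x) ∧ r x ⊆ S then c x * P (S \ r x) else 0) +
      ∑ x, ∑ y, if (i ∈ r x ∧ j ∈ r y) ∧ (r x ⊆ S ∧ r y ⊆ S) ∧ Disjoint (r x) (r y) then
        c x * c y * P (S \ (r x ∪ r y)) else 0 := by
  unfold ATrial_Q
  rw [← sum_add_distrib]
  refine sum_congr rfl fun x _ => ?_
  by_cases hx : i ∈ r x ∧ r x ⊆ S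
  · rw [if_pos hx]
    by_cases hjx : j ∈ r x
    · rw [if_pos ⟨⟨hx.1, hjx⟩, hx.2⟩, sum_eq_zero, add_zero]
      intro y _
      exact if_neg fun h => disjoint_left.1 h.2.2 hjx h.1.2
    · rw [if_neg fun h => hjx h.1.2, zero_add,
        ih _ (ATrial_ssub hx) j (mem_sdiff.2 ⟨hj, hjx⟩)]
      unfold ATrial_Q
      rw [mul_sum]
      refine sum_congr rfl fun y _ => ?_
      by_cases hy : j ∈ r y ∧ r y ⊆ S \ r x
      · have h1 := subset_sdiff.1 hy.2
        rw [if_pos hy, if_pos ⟨⟨hx.1, hy.1⟩, ⟨hx.2, h1.1⟩, h1.2.symm⟩, sdiff_sdiff_left,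
          sup_eq_union, mul_assoc]
      · rw [if_neg hy, if_neg fun h => hy ⟨h.1.2, subset_sdiff.2 ⟨h.2.1.2, h.2.2.symm⟩⟩, mul_zero]
  · rw [if_neg hx, if_neg fun h => hx ⟨h.1.1, h.2⟩, sum_eq_zero, add_zero]
    intro y _
    exact if_neg fun h => hx ⟨h.1.1, h.2.1.1⟩

theorem ATrial_Q_indep {J : Type} [Fintype J] (r : J → Finset ι) (c : J → ℝ) (P : Finset ι → ℝ)
    (S : Finset ι) (ih : ∀ T ⊂ S, ∀ j ∈ T, P T = ATrial_Q r c P j T) {i j : ι} (hi : i ∈ S)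
    (hj : j ∈ S) : ATrial_Q r c P i S = ATrial_Q r c P j S := by
  rw [ATrial_Q_split r c P S ih i hj, ATrial_Q_split r c P S ih j hi]
  congr 1
  · refine sum_congr rfl fun x _ => ?_
    exact if_congr (and_congr_left' and_comm) rfl rfl
  · rw [sum_comm]
    refine sum_congr rfl fun x _ => sum_congr rfl fun y _ => ?_
    refine if_congr (and_congr and_comm (and_congr and_comm disjoint_comm)) ?_ rfl
    rw [union_comm, mul_comm (c y)]

theorem ATrial_exists_rec {J : Type} [Fintype J] (r : J → Finset ι) (c : J → ℝ) :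
    ∃ P : Finset ι → ℝ, ATrial_Rec r c P := by
  obtain ⟨P, hP⟩ : ∃ P : Finset ι → ℝ, ∀ S, P S =
      if h : S.Nonempty then ATrial_Q r c P h.choose S else 1 := by
    refine ⟨Finset.strongInduction (p := fun _ => ℝ) fun S ih =>
      if h : S.Nonempty then ∑ x, if hx : h.choose ∈ r x ∧ r x ⊆ S then
        c x * ih (S \ r x) (ATrial_ssub hx) else 0 else 1, fun S => ?_⟩
    rw [Finset.strongInduction_eq]
    unfold ATrial_Q
    simp only [dite_eq_ite]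
  refine ⟨P, by rw [hP, dif_neg Finset.not_nonempty_empty], fun S => ?_⟩
  induction S using Finset.strongInduction with
  | H S ih =>
    intro i hi
    have hne : S.Nonempty := ⟨i, hi⟩
    rw [hP S, dif_pos hne]
    exact ATrial_Q_indep r c P S (fun T hT j hj => ih T hT j hj) hne.choose_spec hi

theorem ATrial_rec_unique {J : Type} [Fintype J] {r : J → Finset ι} {c c' : J → ℝ}
    {P P' : Finset ι → ℝ} (h : ATrial_Rec r c P) (h' : ATrial_Rec r c' P') (S : Finset ι)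
    (hc : ∀ x, r x ⊆ S → c x = c' x) : P S = P' S := by
  induction S using Finset.strongInduction with
  | H S ih =>
    rcases S.eq_empty_or_nonempty with rfl | ⟨i, hi⟩
    · rw [h.1, h'.1]
    · rw [h.2 S i hi, h'.2 S i hi]
      refine sum_congr rfl fun x _ => ?_
      by_cases hx : i ∈ r x ∧ r x ⊆ S
      · rw [if_pos hx, if_pos hx, hc x hx.2,
          ih _ (ATrial_ssub hx) fun y hy => hc y (hy.trans sdiff_subset)]
      · rw [if_neg hx, if_neg hx]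

theorem ATrial_rec_perm {J : Type} [Fintype J] {r : J → Finset ι} {c : J → ℝ}
    {P : Finset ι → ℝ} (h : ATrial_Rec r c P) (π : Equiv.Perm ι) (e : J ≃ J)
    (he : ∀ x, r (e x) = (r x).map π.toEmbedding) :
    ATrial_Rec r (fun x => c (e x)) (fun S => P (S.map π.toEmbedding)) := by
  refine ⟨by simpa using h.1, fun S i hi => ?_⟩
  show P (S.map π.toEmbedding) = _
  rw [h.2 _ (π.toEmbedding i) (mem_map_of_mem _ hi)]
  unfold ATrial_Q
  rw [← e.sum_comp]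
  refine sum_congr rfl fun x _ => ?_
  rw [he, ← Finset.map_sdiff]
  exact if_congr (and_congr (mem_map' _) map_subset_map) rfl rfl

/-- the clusters -/
abbrev ATrial_J (ι : Type) : Type := (Fin 2 ↪ ι) ⊕ (Fin 3 ↪ ι) ⊕ (Fin 4 ↪ ι)

/-- the legs of a cluster -/
def ATrial_r : ATrial_J ι → Finset ι :=
  Sum.elim (fun ρ => univ.map ρ) (Sum.elim (fun ρ => univ.map ρ) fun ρ => univ.map ρ)

/-- the amplitude of a cluster -/
noncomputable def ATrial_c (D : Dat I E) (α : ι → I) : ATrial_J ι → ℝ :=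
  Sum.elim (fun ρ => 1 / 2 * D.G2 (α ∘ ρ))
    (Sum.elim (fun ρ => 1 / 6 * D.G3 (α ∘ ρ)) fun ρ => 1 / 24 * D.G4 (α ∘ ρ))

/-- the action of a permutation on clusters -/
def ATrial_e (π : Equiv.Perm ι) : ATrial_J ι ≃ ATrial_J ι :=
  Equiv.sumCongr (Equiv.embeddingCongr (Equiv.refl _) π)
    (Equiv.sumCongr (Equiv.embeddingCongr (Equiv.refl _) π) (Equiv.embeddingCongr (Equiv.refl _) π))

theorem ATrial_r_e (π : Equiv.Perm ι) (x : ATrial_J ι) :
    ATrial_r (ATrial_e π x) = (ATrial_r x).map π.toEmbedding := by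
  rcases x with ρ | ρ | ρ
  · exact (map_map ρ π.toEmbedding univ).symm
  · exact (map_map ρ π.toEmbedding univ).symm
  · exact (map_map ρ π.toEmbedding univ).symm

theorem ATrial_c_e (D : Dat I E) (α : ι → I) (π : Equiv.Perm ι) (x : ATrial_J ι) :
    ATrial_c D (α ∘ π) x = ATrial_c D α (ATrial_e π x) := by
  rcases x with ρ | ρ | ρ <;> rfl

theorem ATrial_c_loc (D : Dat I E) {α α' : ι → I} (x : ATrial_J ι)
    (h : ∀ i ∈ ATrial_r x, α i = α' i) : ATrial_c D α x = ATrial_c D α' x := by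
  rcases x with ρ | ρ | ρ
  · have : α ∘ ρ = α' ∘ ρ := funext fun j => h _ (mem_map_of_mem ρ (mem_univ j))
    show 1 / 2 * D.G2 (α ∘ ρ) = 1 / 2 * D.G2 (α' ∘ ρ)
    rw [this]
  · have : α ∘ ρ = α' ∘ ρ := funext fun j => h _ (mem_map_of_mem ρ (mem_univ j))
    show 1 / 6 * D.G3 (α ∘ ρ) = 1 / 6 * D.G3 (α' ∘ ρ)
    rw [this]
  · have : α ∘ ρ = α' ∘ ρ := funext fun j => h _ (mem_map_of_mem ρ (mem_univ j))
    show 1 / 24 * D.G4 (α ∘ ρ) = 1 / 24 * D.G4 (α' ∘ ρ)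
    rw [this]

/-- the high legs -/
def ATrial_H (L : Lv I) (α : ι → I) : Finset ι := univ.filter fun i => α i ∉ L.low

theorem ATrial_mem_H {L : Lv I} {α : ι → I} {i : ι} : i ∈ ATrial_H L α ↔ α i ∉ L.low := by
  simp [ATrial_H]

theorem ATrial_H_put (L : Lv I) (ho : L.o ∈ L.low) {p : ℕ} (ρ : Fin p ↪ ι) (α : ι → I) :
    ATrial_H L (put ρ (L.oo p) α) = ATrial_H L α \ univ.map ρ := by
  ext i
  rw [mem_sdiff, ATrial_mem_H, ATrial_mem_H]
  by_cases hi : ∃ j, ρ j = i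
  · obtain ⟨j, rfl⟩ := hi
    rw [put_apply]
    exact ⟨fun h => absurd ho h, fun h => absurd (mem_map_of_mem ρ (mem_univ j)) h.2⟩
  · rw [put_apply_not _ _ _ hi]
    refine ⟨fun h => ⟨h, fun h' => hi ?_⟩, fun h => h.1⟩
    obtain ⟨j, -, hj⟩ := mem_map.1 h'
    exact ⟨j, hj⟩

theorem ATrial_cre_eq (D : Dat I E) (ho : D.o ∈ D.low) (Mx : ℕ)
    (P : (ι → I) → Finset ι → ℝ) (hP : ∀ α, ATrial_Rec ATrial_r (ATrial_c D α) (P α))
    (Ψ : (ι → I) → ℝ)
    (hΨ : ∀ α, Ψ α = if (∀ i, α i = D.o ∨ α i ∉ D.low) ∧ D.nhN α ≤ Mx then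
      P α (ATrial_H D.toLv α) else 0)
    {p : ℕ} {G : (Fin p → I) → ℝ} (hz : ∀ β, ¬D.Hi β → G β = 0) (a : ℝ) (i : ι) {α : ι → I}
    (hα : D.nhN α ≤ Mx) :
    a * cre (fun (ρ : Fin p ↪ ι) α => G (α ∘ ρ) * Ψ (put ρ (D.oo p) α)) i α =
      if ∀ i, α i = D.o ∨ α i ∉ D.low then
        ∑ ρ : Fin p ↪ ι, if i ∈ univ.map ρ ∧ univ.map ρ ⊆ ATrial_H D.toLv α then
          a * G (α ∘ ρ) * P α (ATrial_H D.toLv α \ univ.map ρ) else 0 else 0 := by
  have key : ∀ (ρ : Fin p ↪ ι) [Decidable (∃ j, ρ j = i)],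
      a * (if ∃ j, ρ j = i then G (α ∘ ρ) * Ψ (put ρ (D.oo p) α) else 0) =
      if ∀ i, α i = D.o ∨ α i ∉ D.low then
        (if i ∈ univ.map ρ ∧ univ.map ρ ⊆ ATrial_H D.toLv α then
          a * G (α ∘ ρ) * P α (ATrial_H D.toLv α \ univ.map ρ) else 0) else 0 := by
    intro ρ _
    by_cases hi : ∃ j, ρ j = i
    · rw [if_pos hi]
      by_cases hH : D.Hi (α ∘ ρ)
      · have h1 : i ∈ univ.map ρ ∧ univ.map ρ ⊆ ATrial_H D.toLv α := by
          obtain ⟨j, rfl⟩ := hi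
          refine ⟨mem_map_of_mem ρ (mem_univ j), fun l hl => ?_⟩
          obtain ⟨j', -, rfl⟩ := mem_map.1 hl
          exact ATrial_mem_H.2 (hH j')
        have h2 : D.nhN (put ρ (D.oo p) α) ≤ Mx := by
          have := D.nhN_put_hi ho ρ hH (β := D.oo p) fun _ => ho
          omega
        have h3 : (∀ l, put ρ (D.oo p) α l = D.o ∨ put ρ (D.oo p) α l ∉ D.low) ↔
            ∀ l, α l = D.o ∨ α l ∉ D.low := by
          refine forall_congr' fun l => ?_
          by_cases hl : ∃ j, ρ j = l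
          · obtain ⟨j, rfl⟩ := hl
            rw [put_apply]
            exact ⟨fun _ => Or.inr (hH j), fun _ => Or.inl rfl⟩
          · rw [put_apply_not _ _ _ hl]
        rw [if_pos h1, hΨ]
        by_cases hg : ∀ l, α l = D.o ∨ α l ∉ D.low
        · rw [if_pos hg, if_pos ⟨h3.2 hg, h2⟩, ATrial_H_put _ ho, mul_assoc]
          congr 2
          refine ATrial_rec_unique (hP _) (hP _) _ fun x hx => ATrial_c_loc D x fun l hl => ?_
          refine put_apply_not _ _ _ ?_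
          rintro ⟨j, rfl⟩
          exact (mem_sdiff.1 (hx hl)).2 (mem_map_of_mem ρ (mem_univ j))
        · rw [if_neg hg, if_neg fun h => hg (h3.1 h.1), mul_zero, mul_zero]
      · rw [hz _ hH]
        simp
    · rw [if_neg hi, mul_zero, if_neg (c := i ∈ univ.map ρ ∧ _) fun h => hi ?_, ite_self]
      obtain ⟨j, -, hj⟩ := mem_map.1 h.1
      exact ⟨j, hj⟩
  unfold cre
  rw [mul_sum]
  refine (sum_congr rfl fun ρ _ => @key ρ Fintype.decidableExistsFintype).trans ?_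
  split_ifs
  · rfl
  · exact sum_const_zero

theorem Dat.exists_trial (D : Dat I E) (ho : D.o ∈ D.low) (z2 : ∀ α, ¬D.Hi α → D.G2 α = 0)
    (z3 : ∀ α, ¬D.Hi α → D.G3 α = 0) (z4 : ∀ α, ¬D.Hi α → D.G4 α = 0) (Mx : ℕ) :
    ∃ Ψ : (ι → I) → ℝ, D.IsTrial Mx Ψ := by
  choose P hP using fun α : ι → I => ATrial_exists_rec ATrial_r (ATrial_c D α)
  obtain ⟨Ψ, hΨ⟩ : ∃ Ψ : (ι → I) → ℝ, ∀ α,
      Ψ α = if (∀ i, α i = D.o ∨ α i ∉ D.low) ∧ D.nhN α ≤ Mx then
        P α (ATrial_H D.toLv α) else 0 := ⟨_, fun _ => rfl⟩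
  refine ⟨Ψ, ?_, fun π α => ?_, fun α hα => ?_, fun i α hi hα => ?_⟩
  · have h1 : ATrial_H D.toLv (fun _ : ι => D.o) = ∅ :=
      eq_empty_of_forall_notMem fun i hi => ATrial_mem_H.1 hi ho
    have h2 : D.nhN (fun _ : ι => D.o) = 0 := card_eq_zero.2 h1
    rw [hΨ, if_pos ⟨fun _ => Or.inl rfl, by omega⟩, h1]
    exact (hP _).1
  · have h1 : (ATrial_H D.toLv (α ∘ π)).map π.toEmbedding = ATrial_H D.toLv α := by
      ext i
      rw [mem_map_equiv, ATrial_mem_H, ATrial_mem_H, Function.comp_apply, π.apply_symm_apply]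
    have h2 : D.nhN (α ∘ π) = D.nhN α := by
      have := congrArg card h1
      rwa [card_map] at this
    have h3 : (∀ i, (α ∘ π) i = D.o ∨ (α ∘ π) i ∉ D.low) ↔ ∀ i, α i = D.o ∨ α i ∉ D.low :=
      π.forall_congr_right (q := fun i => α i = D.o ∨ α i ∉ D.low)
    rw [hΨ, hΨ, h2]
    refine if_congr (and_congr_left' h3) ?_ rfl
    rw [← h1]
    exact ATrial_rec_unique (hP _) (ATrial_rec_perm (hP α) π (ATrial_e π) (ATrial_r_e π)) _
      fun x _ => ATrial_c_e D α π x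
  · rw [hΨ] at hα
    by_contra h
    exact hα (if_neg h)
  · rw [Fin.sum_univ_three]
    have e2 := ATrial_cre_eq D ho Mx P hP Ψ hΨ z2 (1 / 2) i hα
    have e3 := ATrial_cre_eq D ho Mx P hP Ψ hΨ z3 (1 / 6) i hα
    have e4 := ATrial_cre_eq D ho Mx P hP Ψ hΨ z4 (1 / 24) i hα
    refine Eq.trans ?_ (congrArg₂ (· + ·) (congrArg₂ (· + ·) e2 e3) e4).symm
    rw [hΨ]
    by_cases hg : ∀ l, α l = D.o ∨ α l ∉ D.low
    · rw [if_pos ⟨hg, hα⟩, (hP α).2 _ i (ATrial_mem_H.2 hi)]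
      simp only [if_pos hg]
      unfold ATrial_Q
      rw [Fintype.sum_sum_type, Fintype.sum_sum_type, add_assoc]
      rfl
    · rw [if_neg fun h => hg h.1]
      simp only [if_neg hg, add_zero]

theorem ATrial_vac_sq (L : Lv I) (p : ℕ) {W : (ι → I) → ℝ} (hW : ∀ α, 0 ≤ W α)
    (Φ : (ι → I) → ℝ) :
    ∑ ρ : Fin p ↪ ι, ∑ α ∈ L.vac ρ, W α * Φ (put ρ (L.oo p) α) ^ 2 ≤
      (Fintype.card ι : ℝ) ^ p * ex W Φ := by
  have h1 : ∑ ρ : Fin p ↪ ι, ∑ α ∈ L.vac ρ, W α * Φ (put ρ (L.oo p) α) ^ 2 =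
      ∑ ρ : Fin p ↪ ι, ∑ α ∈ L.vac ρ, W α * Φ α ^ 2 := by
    refine sum_congr rfl fun ρ _ => sum_congr rfl fun α hα => ?_
    have h2 : L.oo p = α ∘ ρ := funext fun j => (L.mem_vac.1 hα j).symm
    rw [h2, put_self]
  rw [h1, L.sum_vac_sq]
  unfold ex
  rw [mul_sum]
  refine sum_le_sum fun α _ => ?_
  rw [← mul_assoc]
  refine mul_le_mul_of_nonneg_right (mul_le_mul_of_nonneg_right ?_ (hW α)) (sq_nonneg _)
  exact_mod_cast (Nat.descFactorial_le_pow _ _).trans (Nat.pow_le_pow_left (Nat.sub_le _ _) _)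

theorem ATrial_ex_const (c : ℝ) (Φ : (ι → I) → ℝ) : ex (fun _ => c) Φ = c * nsq Φ := by
  unfold ex nsq
  rw [mul_sum]

theorem ATrial_cre_bound (L : Lv I) (ho : L.o ∈ L.low) (hl : ∀ a, 0 ≤ L.lam a) {p : ℕ}
    (hp1 : 1 ≤ p) (hp : p ≤ 4) {G : (Fin p → I) → ℝ}
    (hs : ∀ (π : Equiv.Perm (Fin p)) α, G (α ∘ π) = G α) {x : ℕ → ℝ} (hx : ∀ r, 0 ≤ x r)
    (hU : L.FamU G x) (Φ : (ι → I) → ℝ) {j : ℝ} (hΦ : ∀ α, Φ α ≠ 0 → (L.nhN α : ℝ) ≤ j)
    {a b : ℝ} (h0 : (Fintype.card ι : ℝ) ^ p * x 0 ≤ a) (hb : 0 ≤ b)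
    (h1 : ∀ r, 1 ≤ r → r < p → (Fintype.card ι : ℝ) ^ p * x r * j ^ r ≤ b) :
    ∑ i, ∑ α, cre (fun (ρ : Fin p ↪ ι) α => G (α ∘ ρ) * Φ (put ρ (L.oo p) α)) i α ^ 2 ≤
      (2 ^ 16 * b + 96 * a) * nsq Φ := by
  obtain ⟨X, hX⟩ : ∃ X : (Fin p ↪ ι) → (ι → I) → ℝ, X = fun ρ α => Φ (put ρ (L.oo p) α) :=
    ⟨_, rfl⟩
  have hXi : Indep X := by
    intro ρ β α
    simp only [hX, put_put]
  have hn := nsq_nonneg Φ
  have hN : (0 : ℝ) ≤ (Fintype.card ι : ℝ) ^ p := by positivity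
  have e0 : (fun (ρ : Fin p ↪ ι) (α : ι → I) => G (α ∘ ρ) * Φ (put ρ (L.oo p) α)) =
      fun (ρ : Fin p ↪ ι) α => G (α ∘ ρ) * X ρ α := by rw [hX]
  have e1 := cre_mul_eq_same (fun _ => 1) (fun ρ α => G (α ∘ ρ) * X ρ α)
    (fun (ρ : Fin p ↪ ι) α => G (α ∘ ρ) * X ρ α) (fun π ρ α => by
      have a1 : G (α ∘ π.toEmbedding.trans ρ) = G (α ∘ ρ) := hs π (α ∘ ρ)
      have a2 : put (π.toEmbedding.trans ρ) (L.oo p) α = put ρ (L.oo p) α :=
        put_perm ρ π (L.oo p) α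
      simp only [hX, a1, a2])
  have hT : ∀ (b : Fin p) (R : Finset (Fin p)), b ∉ R →
      L.Bil (fun α => √((fun _ : I => (1 : ℝ)) (α b)) * G α) R
        (L.wtH R (x R.card) ((fun _ => 0) R.card)) := by
    intro b R hb
    simp only [Real.sqrt_one, one_mul]
    exact hU R fun h => hb (h ▸ mem_univ b)
  have e2 := L.off_bound ho hl hp hp (fun _ => zero_le_one) hx (fun _ => le_rfl) hx
    (fun _ => le_rfl) hT hT hXi hXi
  have hAA : ∀ r, 1 ≤ r → r < p → L.AA x (fun _ => 0) r X ≤ b * nsq Φ := by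
    intro r hr1 hr2
    have hW : ∀ α : ι → I, L.Wr x (fun _ => 0) r α = x r * (L.nhN α : ℝ) ^ r := fun α => by
      unfold Lv.Wr
      ring
    have hW0 : ∀ α : ι → I, 0 ≤ L.Wr x (fun _ => 0) r α := fun α => by
      rw [hW]
      exact mul_nonneg (hx r) (by positivity)
    have a1 := ATrial_vac_sq L p hW0 Φ
    have a2 : ex (L.Wr x (fun _ => 0) r) Φ ≤ ex (fun _ => x r * j ^ r) Φ :=
      ex_mono fun α hα => by
        rw [hW]
        exact mul_le_mul_of_nonneg_left (pow_le_pow_left₀ (Nat.cast_nonneg _) (hΦ α hα) r) (hx r)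
    rw [ATrial_ex_const] at a2
    unfold Lv.AA
    rw [hX]
    refine a1.trans ((mul_le_mul_of_nonneg_left a2 hN).trans ?_)
    rw [← mul_assoc, ← mul_assoc]
    exact mul_le_mul_of_nonneg_right (h1 r hr1 hr2) hn
  have e3 : ∑ s ∈ Icc 1 (min p p), (if s = p ∧ s = p then 0 else
      √(L.AA x (fun _ => 0) (p - s) X) * √(L.AA x (fun _ => 0) (p - s) X)) ≤ 4 * (b * nsq Φ) := by
    refine (sum_le_card_nsmul _ _ (b * nsq Φ) fun s hs' => ?_).trans ?_
    · rw [min_self, mem_Icc] at hs'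
      split_ifs with h
      · exact mul_nonneg hb hn
      · have a1 := hAA (p - s) (by omega) (by omega)
        have a2 := Real.sqrt_le_sqrt a1
        refine (mul_le_mul a2 a2 (Real.sqrt_nonneg _) (Real.sqrt_nonneg _)).trans (le_of_eq ?_)
        exact Real.mul_self_sqrt (mul_nonneg hb hn)
    · rw [min_self, Nat.card_Icc, nsmul_eq_mul]
      refine mul_le_mul_of_nonneg_right ?_ (mul_nonneg hb hn)
      exact_mod_cast (by omega : p + 1 - 1 ≤ 4)
  have e4 : ∑ β, G β * G β ≤ x 0 := by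
    have a1 := hU ∅ (fun h => absurd (h ▸ mem_univ (⟨0, hp1⟩ : Fin p)) (notMem_empty _))
    rw [Lv.wtH_empty, card_empty, Lv.bil_empty_iff (hx 0)] at a1
    simpa only [sq] using a1
  have e5 : ∑ ρ : Fin p ↪ ι, ∑ α ∈ L.vac ρ, X ρ α * X ρ α ≤
      (Fintype.card ι : ℝ) ^ p * nsq Φ := by
    have a1 := ATrial_vac_sq L p (W := fun _ => 1) (fun _ => zero_le_one) Φ
    rw [ATrial_ex_const] at a1
    simpa only [hX, sq, one_mul] using a1
  have e6 : ∑ ρ : Fin p ↪ ι, ∑ α, G (α ∘ ρ) * X ρ α * (G (α ∘ ρ) * X ρ α) ≤ a * nsq Φ := by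
    rw [L.diag_eq G G hXi hXi]
    refine (mul_le_mul e4 e5 (sum_nonneg fun ρ _ => sum_nonneg fun α _ => mul_self_nonneg _)
      (hx 0)).trans ?_
    rw [← mul_assoc, mul_comm (x 0)]
    exact mul_le_mul_of_nonneg_right h0 hn
  have e7 : ∑ ρ : Fin p ↪ ι, ∑ α : ι → I, (∑ _j : Fin p, (1 : ℝ)) * (G (α ∘ ρ) * X ρ α) *
      (G (α ∘ ρ) * X ρ α) =
      p * ∑ ρ : Fin p ↪ ι, ∑ α, G (α ∘ ρ) * X ρ α * (G (α ∘ ρ) * X ρ α) := by
    rw [mul_sum]
    refine sum_congr rfl fun ρ _ => ?_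
    rw [mul_sum]
    refine sum_congr rfl fun α _ => ?_
    rw [sum_const, card_univ, Fintype.card_fin, nsmul_eq_mul, mul_one, mul_assoc]
  have e8 : ((p.factorial : ℕ) : ℝ) * p ≤ 96 := by
    have : p.factorial * p ≤ 96 := by
      interval_cases p <;> decide
    exact_mod_cast this
  have ha : 0 ≤ a := le_trans (mul_nonneg hN (hx 0)) h0
  rw [e7, Fintype.card_fin, ← mul_assoc] at e1
  have e9 := mul_le_mul e8 e6 (sum_nonneg fun ρ _ => sum_nonneg fun α _ => mul_self_nonneg _)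
    (by norm_num)
  have e10 := (le_abs_self _).trans e2
  rw [e0]
  simp only [one_mul, ← sq] at e1
  simp only [← sq] at e9
  rw [e1]
  linarith

theorem ATrial_cre_weight (L : Lv I) (ho : L.o ∈ L.low) {p : ℕ} {G : (Fin p → I) → ℝ}
    (hz : ∀ β, ¬L.Hi β → G β = 0) (Ψ : (ι → I) → ℝ) (j : ℕ) (i : ι) {α : ι → I}
    (hα : L.nhN α = j) :
    cre (fun (ρ : Fin p ↪ ι) α => G (α ∘ ρ) * Ψ (put ρ (L.oo p) α)) i α =
      cre (fun (ρ : Fin p ↪ ι) α => G (α ∘ ρ) *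
        (fun α' => if L.nhN α' + p = j then Ψ α' else 0) (put ρ (L.oo p) α)) i α := by
  unfold cre
  refine sum_congr rfl fun ρ _ => ?_
  congr 1
  by_cases hH : L.Hi (α ∘ ρ)
  · have h1 := L.nhN_put_hi ho ρ hH (β := L.oo p) fun _ => ho
    simp only [if_pos (h1.symm.trans hα)]
  · simp only [hz _ hH, zero_mul]

theorem ATrial_nsq_cut (L : Lv I) (Ψ : (ι → I) → ℝ) (p j : ℕ) :
    nsq (fun α' => if L.nhN α' + p = j then Ψ α' else 0) =
      ex (fun α => if L.nhN α + p = j then 1 else 0) Ψ := by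
  unfold nsq ex
  refine sum_congr rfl fun α _ => ?_
  dsimp only
  split_ifs <;> simp

theorem ATrial_step {C : ℝ} (D : Dat I E) {γ Λ C₀ : ℝ} {Mx : ℕ} {Ψ : (ι → I) → ℝ}
    (hN : 1 ≤ Fintype.card ι) (hB : D.Base γ Λ C₀ C) (hT : D.Trial √(Fintype.card ι : ℝ) C)
    (hM : Mx ^ 8 ≤ Fintype.card ι) (hΨ : D.IsTrial Mx Ψ) {j : ℕ} (hj : j ≤ Mx) :
    j * ex (fun α => if D.nhN α = j then 1 else 0) Ψ ≤ (j / 64 + 2 ^ 17 * C) *
      (ex (fun α => if D.nhN α + 2 = j then 1 else 0) Ψ +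
        ex (fun α => if D.nhN α + 3 = j then 1 else 0) Ψ +
        ex (fun α => if D.nhN α + 4 = j then 1 else 0) Ψ) := by
  have ho := hB.o_low
  have hl := hB.lam_nonneg
  have hC : 1 ≤ C := hB.C₀_ge.trans hB.C₀_le
  obtain ⟨s, hs⟩ : ∃ s, s = √(Fintype.card ι : ℝ) := ⟨_, rfl⟩
  have hN' : (1 : ℝ) ≤ Fintype.card ι := by exact_mod_cast hN
  have hs2 : (Fintype.card ι : ℝ) = s ^ 2 := by rw [hs, Real.sq_sqrt (by linarith)]
  have hs0 : 0 < s := by
    rw [hs]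
    exact Real.sqrt_pos.2 (by linarith)
  have hjs : ∀ r, r ≤ 4 → (j : ℝ) ^ r ≤ s := by
    intro r hr
    have a1 : j ^ (2 * r) ≤ Fintype.card ι := by
      rcases Nat.eq_zero_or_pos j with rfl | hj0
      · exact (Nat.pow_le_pow_left (Nat.zero_le 1) _).trans (by rw [one_pow]; exact hN)
      · exact (Nat.pow_le_pow_right hj0 (by omega)).trans ((Nat.pow_le_pow_left hj 8).trans hM)
    have a2 : ((j : ℝ) ^ r) ^ 2 ≤ s ^ 2 := by
      rw [← hs2, ← pow_mul, mul_comm]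
      exact_mod_cast a1
    exact (pow_le_pow_iff_left₀ (by positivity) hs0.le two_ne_zero).1 a2
  rw [← hs] at hT
  have hcut : ∀ (p : ℕ) (α : ι → I), (if D.nhN α + p = j then Ψ α else 0) ≠ 0 →
      (D.nhN α : ℝ) ≤ j := by
    intro p α h
    have a1 : D.nhN α + p = j := by
      by_contra h'
      exact h (if_neg h')
    exact_mod_cast (by omega : D.nhN α ≤ j)
  have b2 := ATrial_cre_bound D.toLv ho hl (by norm_num) (by norm_num) hT.s2
    (fun r => by split_ifs <;> positivity) hT.u2 _ (hcut 2) (a := C) (b := j / 2 ^ 30)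
    (le_of_eq (by rw [hs2]; simp only [if_true]; field_simp)) (by positivity) (fun r h1 h2 => by
      obtain rfl : r = 1 := by omega
      rw [hs2, if_neg one_ne_zero]
      refine le_of_eq ?_
      field_simp)
  have b3 := ATrial_cre_bound D.toLv ho hl (by norm_num) (by norm_num) hT.s3
    (fun r => by split_ifs <;> positivity) hT.u3 _ (hcut 3) (a := C) (b := C)
    (le_of_eq (by rw [hs2]; simp only [if_true]; field_simp)) (by positivity) (fun r h1 h2 => by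
      rw [hs2, if_neg (by omega)]
      refine (mul_le_mul_of_nonneg_left (hjs r (by omega)) (by positivity)).trans (le_of_eq ?_)
      field_simp)
  have b4 := ATrial_cre_bound D.toLv ho hl (by norm_num) (by norm_num) hT.s4
    (fun r => by split_ifs <;> positivity) hT.u4 _ (hcut 4) (a := C) (b := C)
    (le_of_eq (by rw [hs2]; simp only [if_true]; field_simp)) (by positivity) (fun r h1 h2 => by
      rw [hs2, if_neg (by omega)]
      refine (mul_le_mul_of_nonneg_left (hjs r (by omega)) (by positivity)).trans (le_of_eq ?_)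
      field_simp)
  rw [ATrial_nsq_cut] at b2 b3 b4
  have c1 : j * ex (fun α => if D.nhN α = j then 1 else 0) Ψ =
      ∑ i, ∑ α, if D.nhN α = j ∧ α i ∉ D.low then Ψ α ^ 2 else 0 := by
    rw [sum_comm]
    unfold ex
    rw [mul_sum]
    refine sum_congr rfl fun α _ => ?_
    by_cases h : D.nhN α = j
    · simp only [h, true_and, if_true, one_mul]
      rw [← sum_filter, sum_const, nsmul_eq_mul, ← h]
      rfl
    · simp only [h, false_and, if_false, sum_const_zero, zero_mul, mul_zero]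
  have c2 : ∀ (i : ι) (α : ι → I), (if D.nhN α = j ∧ α i ∉ D.low then Ψ α ^ 2 else 0) ≤
      3 / 4 * (cre (fun (ρ : Fin 2 ↪ ι) α => D.G2 (α ∘ ρ) *
          (fun α' => if D.nhN α' + 2 = j then Ψ α' else 0) (put ρ (D.oo 2) α)) i α ^ 2 +
        cre (fun (ρ : Fin 3 ↪ ι) α => D.G3 (α ∘ ρ) *
          (fun α' => if D.nhN α' + 3 = j then Ψ α' else 0) (put ρ (D.oo 3) α)) i α ^ 2 +
        cre (fun (ρ : Fin 4 ↪ ι) α => D.G4 (α ∘ ρ) *
          (fun α' => if D.nhN α' + 4 = j then Ψ α' else 0) (put ρ (D.oo 4) α)) i α ^ 2) := by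
    intro i α
    split_ifs with h
    · rw [← ATrial_cre_weight D.toLv ho hT.z2 Ψ j i h.1,
        ← ATrial_cre_weight D.toLv ho hT.z3 Ψ j i h.1,
        ← ATrial_cre_weight D.toLv ho hT.z4 Ψ j i h.1]
      have a1 := hΨ.rec_eq i α h.2 (h.1 ▸ hj)
      rw [Fin.sum_univ_three] at a1
      have key : ∀ u v w y : ℝ, y = 1 / 2 * u + 1 / 6 * v + 1 / 24 * w →
          y ^ 2 ≤ 3 / 4 * (u ^ 2 + v ^ 2 + w ^ 2) := by
        intro u v w y hy
        rw [hy]
        nlinarith [sq_nonneg (u - v), sq_nonneg (u - w), sq_nonneg (v - w), sq_nonneg u,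
          sq_nonneg v, sq_nonneg w]
      exact key _ _ _ _ a1
    · positivity
  have c3 := sum_le_sum fun i (_ : i ∈ (univ : Finset ι)) =>
    sum_le_sum fun α (_ : α ∈ (univ : Finset (ι → I))) => c2 i α
  simp only [← mul_sum, sum_add_distrib] at c3
  rw [c1]
  refine c3.trans ?_
  have m2 : 0 ≤ ex (fun α => if D.nhN α + 2 = j then 1 else 0) Ψ :=
    ex_nonneg fun α => by split_ifs <;> norm_num
  have m3 : 0 ≤ ex (fun α => if D.nhN α + 3 = j then 1 else 0) Ψ :=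
    ex_nonneg fun α => by split_ifs <;> norm_num
  have m4 : 0 ≤ ex (fun α => if D.nhN α + 4 = j then 1 else 0) Ψ :=
    ex_nonneg fun α => by split_ifs <;> norm_num
  have hj0 : (0 : ℝ) ≤ j := Nat.cast_nonneg j
  have d2 := mul_le_mul_of_nonneg_right (by linarith :
    2 ^ 16 * ((j : ℝ) / 2 ^ 30) + 96 * C ≤ j / 64 + 2 ^ 17 * C) m2
  have d3 := mul_le_mul_of_nonneg_right (by linarith :
    2 ^ 16 * C + 96 * C ≤ (j : ℝ) / 64 + 2 ^ 17 * C) m3
  have d4 := mul_le_mul_of_nonneg_right (by linarith :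
    2 ^ 16 * C + 96 * C ≤ (j : ℝ) / 64 + 2 ^ 17 * C) m4
  have d5 := mul_nonneg (by linarith : 0 ≤ (j : ℝ) / 64 + 2 ^ 17 * C)
    (add_nonneg (add_nonneg m2 m3) m4)
  linarith

theorem trial_decay (C : ℝ) : ∃ (K : ℝ) (N₀ : ℕ), 0 ≤ K ∧ ∀ {I ι E : Type} [Fintype I] [DecidableEq I] [Fintype ι] [DecidableEq ι]
      [NormedAddCommGroup E] [InnerProductSpace ℝ E] (D : Dat I E)
      (γ Λ C₀ : ℝ) (Mx : ℕ) (Ψ : (ι → I) → ℝ), N₀ ≤ Fintype.card ι → D.Base γ Λ C₀ C →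
      D.Trial √(Fintype.card ι : ℝ) C → Mx ^ 8 ≤ Fintype.card ι → D.IsTrial Mx Ψ →
      ∀ j : ℕ, ex (fun α => if D.nhN α = j then 1 else 0) Ψ ≤ K / 2 ^ j * nsq Ψ := by
  obtain ⟨j₀, hj₀⟩ : ∃ j₀ : ℕ, 2 ^ 23 * C ≤ j₀ := ⟨_, Nat.le_ceil _⟩
  refine ⟨2 ^ j₀, 1, by positivity, ?_⟩
  intro I ι E _ _ _ _ _ _ D γ Λ C₀ Mx Ψ hN hB hT hM hΨ j
  have hn := nsq_nonneg Ψ
  induction j using Nat.strong_induction_on with
  | _ j ih =>
  by_cases h1 : j ≤ j₀
  · have a1 : ex (fun α => if D.nhN α = j then 1 else 0) Ψ ≤ ex (fun _ => 1) Ψ :=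
      ex_mono fun α _ => by split_ifs <;> norm_num
    rw [ATrial_ex_const] at a1
    refine a1.trans (mul_le_mul_of_nonneg_right ?_ hn)
    rw [le_div_iff₀ (by positivity), one_mul]
    exact pow_le_pow_right₀ one_le_two h1
  by_cases h2 : j ≤ Mx
  · have hm : ∀ p : ℕ, 1 ≤ p → ex (fun α => if D.nhN α + p = j then 1 else 0) Ψ ≤
        2 ^ p * (2 ^ j₀ / 2 ^ j * nsq Ψ) := by
      intro p hp
      by_cases hpj : p ≤ j
      · obtain ⟨m, rfl⟩ := Nat.exists_eq_add_of_le' hpj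
        simp only [Nat.add_right_cancel_iff]
        refine (ih m (by omega)).trans (le_of_eq ?_)
        rw [pow_add]
        field_simp
      · have a1 : ex (fun α => if D.nhN α + p = j then 1 else 0) Ψ ≤ ex (fun _ => 0) Ψ :=
          ex_mono fun α _ => by rw [if_neg (by omega)]
        rw [ATrial_ex_const, zero_mul] at a1
        exact a1.trans (by positivity)
    have hs := ATrial_step D hN hB hT hM hΨ h2
    have hj : (j₀ : ℝ) < j := by exact_mod_cast not_le.1 h1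
    have hj0 : (0 : ℝ) < j := (Nat.cast_nonneg j₀).trans_lt hj
    have hC : 1 ≤ C := hB.C₀_ge.trans hB.C₀_le
    have hY : (0 : ℝ) ≤ 2 ^ j₀ / 2 ^ j * nsq Ψ := by positivity
    have a2 := hm 2 (by norm_num)
    have a3 := hm 3 (by norm_num)
    have a4 := hm 4 (by norm_num)
    have a5 := mul_le_mul (by linarith : (j : ℝ) / 64 + 2 ^ 17 * C ≤ j / 32)
      (add_le_add (add_le_add a2 a3) a4) (add_nonneg (add_nonneg
        (ex_nonneg fun α => by split_ifs <;> norm_num)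
        (ex_nonneg fun α => by split_ifs <;> norm_num))
        (ex_nonneg fun α => by split_ifs <;> norm_num)) (by positivity)
    refine le_of_mul_le_mul_left ((hs.trans a5).trans ?_) hj0
    have a6 := mul_nonneg hj0.le hY
    linarith
  · have a1 : ex (fun α => if D.nhN α = j then 1 else 0) Ψ ≤ ex (fun _ => 0) Ψ :=
      ex_mono fun α hα => by
        have := (hΨ.supp α hα).2
        rw [if_neg (by omega)]
    rw [ATrial_ex_const, zero_mul] at a1
    exact a1.trans (by positivity)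

theorem ATrial_ex_sum (L : Lv I) (g : ℕ → ℝ) (Ψ : (ι → I) → ℝ) :
    ex (fun α => g (L.nhN α)) Ψ = ∑ j ∈ range (Fintype.card ι + 1),
      g j * ex (fun α => if L.nhN α = j then 1 else 0) Ψ := by
  unfold ex
  simp only [mul_sum]
  rw [sum_comm]
  refine sum_congr rfl fun α _ => ?_
  have h1 : L.nhN α ∈ range (Fintype.card ι + 1) :=
    mem_range.2 (Nat.lt_succ_of_le (card_le_univ _))
  rw [sum_eq_single_of_mem _ h1 fun j _ hj => by rw [if_neg hj.symm, zero_mul, mul_zero],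
    if_pos rfl, one_mul]

/-- consequences of the decay: moments and the top sectors -/
theorem moments_of_decay (K : ℝ) (hK : 0 ≤ K) : ∃ K' : ℝ, 0 ≤ K' ∧
    ∀ {I ι : Type} [Fintype I] [DecidableEq I] [Fintype ι] [DecidableEq ι] (L : Lv I) (Mx : ℕ)
      (Ψ : (ι → I) → ℝ), Fintype.card ι < (Mx + 1) ^ 8 →
      (∀ j : ℕ, ex (fun α => if L.nhN α = j then 1 else 0) Ψ ≤ K / 2 ^ j * nsq Ψ) →
      ex (fun α => ((L.nhN α : ℝ) + 4) ^ 6) Ψ ≤ K' * nsq Ψ ∧
      (Fintype.card ι : ℝ) ^ 4 *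
        ex (fun α => if Mx < L.nhN α + 4 then ((L.nhN α : ℝ) + 4) ^ 6 else 0) Ψ ≤ K' * nsq Ψ :=
  by
  have hsum : Summable fun j : ℕ => ((j : ℝ) + 4) ^ 38 / 2 ^ j := by
    have h1 := ((summable_nat_add_iff 4).2 (summable_pow_mul_geometric_of_norm_lt_one 38
      (r := (1 / 2 : ℝ)) (by norm_num))).mul_left 16
    refine h1.congr fun j => ?_
    push_cast
    rw [pow_add, one_div_pow]
    field_simp
    norm_num
  have hS : 0 ≤ ∑' j : ℕ, ((j : ℝ) + 4) ^ 38 / 2 ^ j := tsum_nonneg fun j => by positivity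
  refine ⟨K * ∑' j : ℕ, ((j : ℝ) + 4) ^ 38 / 2 ^ j, mul_nonneg hK hS, ?_⟩
  intro I ι _ _ _ _ L Mx Ψ hM hd
  have hn := nsq_nonneg Ψ
  have main : ex (fun α => ((L.nhN α : ℝ) + 4) ^ 38) Ψ ≤
      (K * ∑' j : ℕ, ((j : ℝ) + 4) ^ 38 / 2 ^ j) * nsq Ψ := by
    rw [ATrial_ex_sum L fun j => ((j : ℝ) + 4) ^ 38]
    refine (sum_le_sum fun j _ => mul_le_mul_of_nonneg_left (hd j) (by positivity)).trans ?_
    have a1 := hsum.sum_le_tsum (range (Fintype.card ι + 1)) fun j _ => by positivity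
    refine le_trans (le_of_eq ?_)
      (mul_le_mul_of_nonneg_right (mul_le_mul_of_nonneg_left a1 hK) hn)
    rw [mul_sum, sum_mul]
    refine sum_congr rfl fun j _ => ?_
    ring
  have h4 : ∀ α : ι → I, (1 : ℝ) ≤ (L.nhN α : ℝ) + 4 := fun α => by
    have := Nat.cast_nonneg (α := ℝ) (L.nhN α)
    linarith
  refine ⟨le_trans (ex_mono fun α _ => pow_le_pow_right₀ (h4 α) (by norm_num)) main,
    le_trans ?_ main⟩
  unfold ex
  rw [mul_sum]
  refine sum_le_sum fun α _ => ?_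
  rw [← mul_assoc]
  refine mul_le_mul_of_nonneg_right ?_ (sq_nonneg _)
  dsimp only
  split_ifs with h
  · have a1 : Fintype.card ι ≤ (L.nhN α + 4) ^ 8 := hM.le.trans (Nat.pow_le_pow_left h 8)
    have a2 : (Fintype.card ι : ℝ) ≤ ((L.nhN α : ℝ) + 4) ^ 8 := by exact_mod_cast a1
    refine (mul_le_mul_of_nonneg_right (pow_le_pow_left₀ (Nat.cast_nonneg _) a2 4)
      (by positivity)).trans (le_of_eq ?_)
    rw [← pow_mul, ← pow_add]
  · rw [mul_zero]
    positivity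

end Pool.Agent.Lib.MP_8fe63c_mp
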