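import Pool.Agent.Lib.MP_8fe63c_mp.ABas

/-!
The exchange inequality for two creation terms.

Sketch. Let `S, S'` be the ranges, `S₀ = S ∩ S'`. Decompose a configuration into its parts on
`S₀`, `S \ S'`, `S' \ S` and the rest. For fixed parts `a` on `S₀` and `r` on the rest the sum
factorises: `A (a, r) * A' (a, r)` with `A = ∑ over the part b on S \ S'` of `T (a, b) X' (b, r)` and
`A' = ∑ over the part b' on S' \ S` of `T' (a, b') X (b', r)`. Cauchy-Schwarz over `(a, r)` and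
`Bil.quad` for each `r`. One way to organise the sums: apply `sum_vac_put` for `ρ`, then
`sum_cfg_split` for `R`, and again `sum_vac_put` for the restriction of `ρ'` to `R'`.
-/

set_option linter.unusedSectionVars false

open Finset
open scoped InnerProductSpace

namespace Pool.Agent.Lib.MP_8fe63c_mp

variable {I ι κ κ' E : Type} [Fintype I] [DecidableEq I] [Fintype ι] [DecidableEq ι]
  [Fintype κ] [DecidableEq κ] [Fintype κ'] [DecidableEq κ']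
  [NormedAddCommGroup E] [InnerProductSpace ℝ E]

/-- put the modes `b` on the legs `ρ j`, `j ∈ R` -/
noncomputable def ATwo_ins (ρ : κ ↪ ι) (R : Finset κ) (b : κ → I) (u : ι → I) : ι → I :=
  put ρ (R.piecewise b (u ∘ ρ)) u

theorem ATwo_ins_mem (ρ : κ ↪ ι) {R : Finset κ} (b : κ → I) (u : ι → I) {j : κ} (hj : j ∈ R) :
    ATwo_ins ρ R b u (ρ j) = b j := by
  rw [ATwo_ins, put_apply, Finset.piecewise_eq_of_mem _ _ _ hj]

theorem ATwo_ins_not (ρ : κ ↪ ι) {R : Finset κ} (b : κ → I) (u : ι → I) {i : ι}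
    (hi : ∀ j ∈ R, ρ j ≠ i) : ATwo_ins ρ R b u i = u i := by
  by_cases h : ∃ j, ρ j = i
  · obtain ⟨j, rfl⟩ := h
    rw [ATwo_ins, put_apply, Finset.piecewise_eq_of_notMem _ _ _ fun hj => hi j hj rfl]
    rfl
  · exact put_apply_not ρ _ u h

theorem ATwo_ins_comp (ρ : κ ↪ ι) (R : Finset κ) (b : κ → I) (u : ι → I) :
    ATwo_ins ρ R b u ∘ ρ = R.piecewise b (u ∘ ρ) := put_comp ρ _ u

theorem ATwo_ext (ρ : κ ↪ ι) (R : Finset κ) {α α' : ι → I} (h1 : ∀ j ∈ R, α (ρ j) = α' (ρ j))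
    (h2 : ∀ i, (∀ j ∈ R, ρ j ≠ i) → α i = α' i) : α = α' := by
  funext i
  by_cases h : ∀ j ∈ R, ρ j ≠ i
  · exact h2 i h
  · push Not at h
    obtain ⟨j, hj, rfl⟩ := h
    exact h1 j hj

theorem ATwo_indep (ρ : κ ↪ ι) {X : (ι → I) → ℝ} (hX : ∀ β α, X (put ρ β α) = X α)
    {α α' : ι → I} (h : ∀ i, (¬∃ j, ρ j = i) → α i = α' i) : X α = X α' := by
  rw [← hX (α ∘ ρ) α']
  congr 1
  funext i
  by_cases hi : ∃ j, ρ j = i
  · obtain ⟨j, rfl⟩ := hi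
    rw [put_apply]
    rfl
  · rw [put_apply_not ρ _ _ hi, h i hi]

theorem ATwo_mem_cfg (L : Lv I) {R : Finset κ} {b : κ → I} :
    b ∈ L.cfg R ↔ ∀ j, j ∉ R → b j = L.o := by
  simp [Lv.cfg]

theorem ATwo_split (L : Lv I) (ρ : κ ↪ ι) (R : Finset κ) (W : Finset (ι → I))
    (hW : ∀ u b, u ∈ W → ATwo_ins ρ R b u ∈ W) (f : (ι → I) → ℝ) :
    ∑ α ∈ W, f α = ∑ u ∈ W.filter (fun u => ∀ j ∈ R, u (ρ j) = L.o), ∑ b ∈ L.cfg R,
      f (ATwo_ins ρ R b u) := by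
  rw [← Finset.sum_product']
  have hinv : ∀ α : ι → I,
      ATwo_ins ρ R (L.pr R (α ∘ ρ)) (ATwo_ins ρ R (fun _ => L.o) α) = α := fun α =>
    ATwo_ext ρ R (fun j hj => by rw [ATwo_ins_mem ρ _ _ hj, Lv.pr, if_pos hj]; rfl)
      fun i hi => by rw [ATwo_ins_not ρ _ _ hi, ATwo_ins_not ρ _ _ hi]
  refine Finset.sum_nbij' (fun α => (ATwo_ins ρ R (fun _ => L.o) α, L.pr R (α ∘ ρ)))
    (fun p => ATwo_ins ρ R p.2 p.1) (fun α hα => ?_) (fun p hp => ?_) (fun α _ => hinv α)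
    (fun p hp => ?_) (fun α _ => by rw [hinv α])
  · refine Finset.mem_product.2 ⟨Finset.mem_filter.2 ⟨hW _ _ hα, fun j hj => ?_⟩, ?_⟩
    · exact ATwo_ins_mem ρ _ _ hj
    · exact (ATwo_mem_cfg L).2 fun j hj => if_neg hj
  · exact hW _ _ (Finset.mem_filter.1 (Finset.mem_product.1 hp).1).1
  · obtain ⟨h1, h2⟩ := Finset.mem_product.1 hp
    refine Prod.ext (ATwo_ext ρ R (fun j hj => ?_) fun i hi => ?_) (funext fun j => ?_)
    · exact (ATwo_ins_mem ρ _ _ hj).trans ((Finset.mem_filter.1 h1).2 j hj).symm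
    · exact (ATwo_ins_not ρ _ _ hi).trans (ATwo_ins_not ρ _ _ hi)
    · by_cases hj : j ∈ R
      · show L.pr R (ATwo_ins ρ R p.2 p.1 ∘ ρ) j = p.2 j
        rw [Lv.pr, if_pos hj]
        exact ATwo_ins_mem ρ _ _ hj
      · show L.pr R (ATwo_ins ρ R p.2 p.1 ∘ ρ) j = p.2 j
        rw [Lv.pr, if_neg hj, (ATwo_mem_cfg L).1 h2 j hj]

theorem ATwo_side (L : Lv I) (ρ : κ ↪ ι) (ρ' : κ' ↪ ι) {R : Finset κ} {R' : Finset κ'}
    (hR : ∀ j, j ∈ R ↔ ¬∃ j', ρ' j' = ρ j) (hR' : ∀ j', j' ∈ R' ↔ ¬∃ j, ρ j = ρ' j')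
    {T wt : (κ → I) → ℝ} (hT : L.Bil T R wt) (hw : ∀ α, 0 ≤ wt α) {X' : (ι → I) → ℝ}
    (hX' : ∀ β α, X' (put ρ' β α) = X' α) (U : Finset (ι → I))
    (hU : ∀ u, u ∈ U ↔ (∀ j ∈ R, u (ρ j) = L.o) ∧ ∀ j ∈ R', u (ρ' j) = L.o) :
    ∑ u ∈ U, (∑ b ∈ L.cfg R, T (R.piecewise b (u ∘ ρ)) * X' (ATwo_ins ρ R b u)) ^ 2 ≤
      ∑ α ∈ L.vac ρ', wt (L.pr R (α ∘ ρ)) * X' α ^ 2 := by
  rw [ATwo_split L ρ Rᶜ U, ATwo_split L ρ R (L.vac ρ')]
  · have hset : U.filter (fun u => ∀ j ∈ Rᶜ, u (ρ j) = L.o) =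
        (L.vac ρ').filter (fun u => ∀ j ∈ R, u (ρ j) = L.o) := by
      ext u
      rw [Finset.mem_filter, Finset.mem_filter, hU, L.mem_vac]
      constructor
      · rintro ⟨⟨h1, h2⟩, h3⟩
        refine ⟨fun j' => ?_, h1⟩
        by_cases hj : j' ∈ R'
        · exact h2 j' hj
        · obtain ⟨j, e⟩ := not_not.1 (mt (hR' j').2 hj)
          rw [← e]
          exact h3 j (Finset.mem_compl.2 fun h => (hR j).1 h ⟨j', e.symm⟩)
      · rintro ⟨h1, h2⟩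
        refine ⟨⟨h2, fun j _ => h1 j⟩, fun j hj => ?_⟩
        obtain ⟨j', e⟩ := not_not.1 (mt (hR j).2 (Finset.mem_compl.1 hj))
        rw [← e]
        exact h1 j'
    rw [hset]
    refine Finset.sum_le_sum fun r _ => ?_
    have h1 := hT.quad (fun α _ => hw α) fun b => X' (ATwo_ins ρ R b r)
    refine le_of_eq_of_le (Finset.sum_congr rfl fun a _ => ?_)
      (h1.trans_eq (Finset.sum_congr rfl fun b hb => ?_))
    · congr 1
      refine Finset.sum_congr rfl fun b _ => ?_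
      congr 1
      · congr 1
        funext j
        by_cases hj : j ∈ R
        · rw [Finset.piecewise_eq_of_mem _ _ _ hj, Finset.piecewise_eq_of_mem _ _ _ hj]
        · rw [Finset.piecewise_eq_of_notMem _ _ _ hj, Finset.piecewise_eq_of_notMem _ _ _ hj]
          exact ATwo_ins_mem ρ _ _ (Finset.mem_compl.2 hj)
      · refine ATwo_indep ρ' hX' fun i hi => ?_
        by_cases h : ∀ j ∈ R, ρ j ≠ i
        · rw [ATwo_ins_not ρ _ _ h, ATwo_ins_not ρ _ _ h, ATwo_ins_not]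
          rintro j hj rfl
          exact Finset.mem_compl.1 hj ((hR j).2 hi)
        · push Not at h
          obtain ⟨j, hj, rfl⟩ := h
          rw [ATwo_ins_mem ρ _ _ hj, ATwo_ins_mem ρ _ _ hj]
    · congr 2
      funext j
      by_cases hj : j ∈ R
      · rw [Lv.pr, if_pos hj]
        exact (ATwo_ins_mem ρ _ _ hj).symm
      · rw [Lv.pr, if_neg hj, (ATwo_mem_cfg L).1 hb j hj]
  · intro u b hu
    rw [L.mem_vac] at hu ⊢
    intro j'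
    rw [ATwo_ins_not ρ _ _ fun j hj e => (hR j).1 hj ⟨j', e.symm⟩]
    exact hu j'
  · intro u b hu
    rw [hU] at hu ⊢
    refine ⟨fun j hj => ?_, fun j' hj' => ?_⟩
    · rw [ATwo_ins_not ρ _ _ fun i hi e => Finset.mem_compl.1 hi (ρ.injective e ▸ hj)]
      exact hu.1 j hj
    · rw [ATwo_ins_not ρ _ _ fun i _ e => (hR' j').1 hj' ⟨i, e⟩]
      exact hu.2 j' hj'

theorem Lv.two_term (L : Lv I) (ρ : κ ↪ ι) (ρ' : κ' ↪ ι) {R : Finset κ} {R' : Finset κ'}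
    (hR : ∀ j, j ∈ R ↔ ¬∃ j', ρ' j' = ρ j) (hR' : ∀ j', j' ∈ R' ↔ ¬∃ j, ρ j = ρ' j')
    {T : (κ → I) → ℝ} {T' : (κ' → I) → ℝ} {wt : (κ → I) → ℝ} {wt' : (κ' → I) → ℝ}
    (hT : L.Bil T R wt) (hT' : L.Bil T' R' wt') (hw : ∀ α, 0 ≤ wt α) (hw' : ∀ α, 0 ≤ wt' α)
    {X X' : (ι → I) → ℝ} (hX : ∀ β α, X (put ρ β α) = X α) (hX' : ∀ β α, X' (put ρ' β α) = X' α) :
    (∑ α, T (α ∘ ρ) * X α * (T' (α ∘ ρ') * X' α)) ^ 2 ≤
      (∑ α ∈ L.vac ρ', wt (L.pr R (α ∘ ρ)) * X' α ^ 2) *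
        ∑ α ∈ L.vac ρ, wt' (L.pr R' (α ∘ ρ')) * X α ^ 2 := by
  have n1 : ∀ j', ∀ j ∈ R, ρ j ≠ ρ' j' := fun j' j hj e => (hR j).1 hj ⟨j', e.symm⟩
  have n2 : ∀ j, ∀ j' ∈ R', ρ' j' ≠ ρ j := fun j j' hj e => (hR' j').1 hj ⟨j, e.symm⟩
  rw [ATwo_split L ρ' R' univ (fun _ _ _ => mem_univ _), ATwo_split L ρ R _ (fun u b hu => by
    refine mem_filter.2 ⟨mem_univ _, fun j' hj' => ?_⟩
    rw [ATwo_ins_not ρ _ _ (n1 j')]
    exact (mem_filter.1 hu).2 j' hj')]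
  set U := (univ.filter fun u : ι → I => ∀ j ∈ R', u (ρ' j) = L.o).filter
    fun u => ∀ j ∈ R, u (ρ j) = L.o with hUdef
  have hU : ∀ u, u ∈ U ↔ (∀ j ∈ R, u (ρ j) = L.o) ∧ ∀ j ∈ R', u (ρ' j) = L.o := fun u => by
    rw [hUdef, mem_filter, mem_filter]
    exact ⟨fun h => ⟨h.2, h.1.2⟩, fun h => ⟨⟨mem_univ _, h.2⟩, h.1⟩⟩
  have h1 := ATwo_side L ρ ρ' hR hR' hT hw hX' U hU
  have h2 := ATwo_side L ρ' ρ hR' hR hT' hw' hX U fun u => (hU u).trans and_comm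
  refine le_of_eq_of_le ?_ ((Finset.sum_mul_sq_le_sq_mul_sq U _ _).trans
    (mul_le_mul h1 h2 (Finset.sum_nonneg fun _ _ => sq_nonneg _)
      (Finset.sum_nonneg fun _ _ => mul_nonneg (hw _) (sq_nonneg _))))
  congr 1
  refine Finset.sum_congr rfl fun u _ => ?_
  rw [Finset.sum_mul_sum]
  refine Finset.sum_congr rfl fun b _ => Finset.sum_congr rfl fun b' _ => ?_
  have e1 : ATwo_ins ρ' R' b' (ATwo_ins ρ R b u) ∘ ρ = R.piecewise b (u ∘ ρ) := by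
    rw [← ATwo_ins_comp]
    exact funext fun j => ATwo_ins_not ρ' _ _ (n2 j)
  have e2 : ATwo_ins ρ' R' b' (ATwo_ins ρ R b u) ∘ ρ' = R'.piecewise b' (u ∘ ρ') := by
    rw [ATwo_ins_comp]
    congr 1
    exact funext fun j => ATwo_ins_not ρ _ _ (n1 j)
  have e3 : X' (ATwo_ins ρ' R' b' (ATwo_ins ρ R b u)) = X' (ATwo_ins ρ R b u) := hX' _ _
  have e4 : X (ATwo_ins ρ' R' b' (ATwo_ins ρ R b u)) = X (ATwo_ins ρ' R' b' u) := by
    refine ATwo_indep ρ hX fun i hi => ?_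
    by_cases h : ∀ j ∈ R', ρ' j ≠ i
    · rw [ATwo_ins_not ρ' _ _ h, ATwo_ins_not ρ' _ _ h,
        ATwo_ins_not ρ _ _ fun j _ e => hi ⟨j, e⟩]
    · push Not at h
      obtain ⟨j, hj, rfl⟩ := h
      rw [ATwo_ins_mem ρ' _ _ hj, ATwo_ins_mem ρ' _ _ hj]
  rw [e1, e2, e3, e4]
  ring

end Pool.Agent.Lib.MP_8fe63c_mp
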