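import Pool.Agent.Lib.MP_8fe63c_mp.AClose
import Pool.Agent.Lib.MP_8fe63c_mp.ATrV

/-!
The upper bound.

Sketch. Take `Mx` with `Mx^8 ≤ N < (Mx+1)^8` and the trial state. It has `ll = 0`, `TL = 0`, lies in the
sector `η₀` for large `N`, and `T3 M Ψ = M o o/6 ∑ α (N - npN α)_3 Ψ α ^2`,
`ob wLL Ψ = w o o ∑ α (N - npN α) Ψ α ^2` (`sum_vac_sq`, `desc_approx`). Use `main_est`, `control`.
-/

set_option linter.unusedSectionVars false

open Finset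
open scoped InnerProductSpace

namespace Pool.Agent.Lib.MP_8fe63c_mp

variable {I ι κ κ' E : Type} [Fintype I] [DecidableEq I] [Fintype ι] [DecidableEq ι]
  [Fintype κ] [DecidableEq κ] [Fintype κ'] [DecidableEq κ']
  [NormedAddCommGroup E] [InnerProductSpace ℝ E]


theorem AUp_T3 (L : Lv I) (ho : L.o ∈ L.low) (B : (Fin 3 → I) → (Fin 3 → I) → ℝ)
    (Ψ : (ι → I) → ℝ) (hs : ∀ α, Ψ α ≠ 0 → ∀ i, α i = L.o ∨ α i ∉ L.low) :
    L.T3 B Ψ = B (L.oo 3) (L.oo 3) / 6 *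
      ex (fun α => ((Fintype.card ι - L.npN α).descFactorial 3 : ℝ)) Ψ := by
  have h0 : ∀ (σ : Fin 3 ↪ ι) α, ∀ β ∈ L.lowF 3, β ≠ L.oo 3 → Ψ (put σ β α) = 0 := by
    intro σ α β hβ hne
    by_contra h
    apply hne
    funext j
    have h1 := hs _ h (σ j)
    rw [put_apply] at h1
    exact h1.resolve_right (not_not.2 (Fintype.mem_piFinset.1 hβ j))
  have h1 : ∀ (σ : Fin 3 ↪ ι), ∀ α ∈ L.vac σ, put σ (L.oo 3) α = α := by
    intro σ α hα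
    have : α ∘ σ = L.oo 3 := funext fun j => (L.mem_vac.1 hα) j
    rw [← this, put_self]
  have h2 : ∀ (σ : Fin 3 ↪ ι), ∀ α ∈ L.vac σ, ∑ β ∈ L.lowF 3, ∑ β' ∈ L.lowF 3,
      B β β' * Ψ (put σ β α) * Ψ (put σ β' α) = B (L.oo 3) (L.oo 3) * Ψ α ^ 2 := by
    intro σ α hα
    rw [Finset.sum_eq_single_of_mem _ (L.oo_mem_lowF ho 3), Finset.sum_eq_single_of_mem _
      (L.oo_mem_lowF ho 3), h1 σ α hα]
    · ring
    · intro β hβ hne; rw [h0 σ α β hβ hne, mul_zero]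
    · intro β hβ hne
      exact Finset.sum_eq_zero fun β' _ => by rw [h0 σ α β hβ hne, mul_zero, zero_mul]
  unfold Lv.T3
  rw [Finset.sum_congr rfl fun σ _ => Finset.sum_congr rfl (h2 σ),
    L.sum_vac_sq 3 (fun _ => B (L.oo 3) (L.oo 3)) Ψ]
  simp only [ex, Finset.mul_sum]
  exact Finset.sum_congr rfl fun α _ => by ring

theorem AUp_ob (L : Lv I) (ho : L.o ∈ L.low) (w : I → I → ℝ) (Ψ : (ι → I) → ℝ)
    (hs : ∀ α, Ψ α ≠ 0 → ∀ i, α i = L.o ∨ α i ∉ L.low) :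
    ob (L.wLL w) Ψ = w L.o L.o * ex (fun α => (Fintype.card ι : ℝ) - L.npN α) Ψ := by
  have h1 : ∀ i α, ∑ δ, L.wLL w (α i) δ * Ψ α * Ψ (Function.update α i δ) =
      (if α i = L.o then 1 else 0) * (w L.o L.o * Ψ α ^ 2) := by
    intro i α
    by_cases hα : Ψ α = 0
    · simp [hα]
    rw [Finset.sum_eq_single L.o]
    · rcases hs α hα i with h | h
      · have : Function.update α i L.o = α := by rw [← h, Function.update_eq_self]
        rw [this, if_pos h, h, Lv.wLL, if_pos ⟨ho, ho⟩]; ring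
      · have h' : α i ≠ L.o := fun e => h (e ▸ ho)
        simp [Lv.wLL, h, h']
    · intro δ _ hδ
      by_cases hδ' : δ ∈ L.low
      · have : Ψ (Function.update α i δ) = 0 := by
          by_contra h
          have := hs _ h i
          simp [hδ, hδ'] at this
        rw [this, mul_zero]
      · simp [Lv.wLL, hδ']
    · simp
  unfold ob
  rw [Finset.sum_comm]
  simp only [h1, ← Finset.sum_mul, ex, Finset.mul_sum]
  refine Finset.sum_congr rfl fun α _ => ?_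
  have h2 : (∑ i, if α i = L.o then (1 : ℝ) else 0) = (Fintype.card ι : ℝ) - L.npN α := by
    have := Finset.card_filter_add_card_filter_not (s := (univ : Finset ι)) fun i => α i = L.o
    rw [Finset.sum_boole, eq_sub_iff_add_eq, Lv.npN]
    exact_mod_cast this
  rw [h2]; ring

theorem AUp_pt (N n : ℕ) (hn : n ≤ N) (hN : 1 ≤ N) {e C₀ : ℝ} (he : |e| ≤ C₀) :
    -3 * e / 6 * ((N - n).descFactorial 3 : ℝ) / (N : ℝ) ^ 2 - -(3 / 2) * e * ((N : ℝ) - n) ≤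
      e * N + 3 * C₀ * (n + 2) := by
  have h := Lv.desc_approx N n 3 0 0 hn
  simp only [Nat.descFactorial_zero, Nat.cast_one, mul_one, add_zero, Nat.cast_ofNat,
    Nat.add_one_sub_one] at h
  have hN' : (0 : ℝ) < (N : ℝ) ^ 2 := by positivity
  have hn' : (0 : ℝ) ≤ n := Nat.cast_nonneg n
  set d : ℝ := ((N - n).descFactorial 3 : ℝ)
  have h1 : |(d - (N : ℝ) ^ 3) / (N : ℝ) ^ 2| ≤ 3 * (n + 3) := by
    rw [abs_div, abs_of_pos hN', div_le_iff₀ hN']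
    linarith
  have h2 : -3 * e / 6 * d / (N : ℝ) ^ 2 - -(3 / 2) * e * ((N : ℝ) - n) - e * N =
      e * (-(1 / 2) * ((d - (N : ℝ) ^ 3) / (N : ℝ) ^ 2) - 3 / 2 * n) := by
    field_simp
    ring
  have h3 : |(-(1 / 2) * ((d - (N : ℝ) ^ 3) / (N : ℝ) ^ 2) - 3 / 2 * n)| ≤ 3 * ((n : ℝ) + 2) := by
    rw [abs_le] at h1 ⊢
    constructor <;> linarith [h1.1, h1.2]
  have h4 : e * (-(1 / 2) * ((d - (N : ℝ) ^ 3) / (N : ℝ) ^ 2) - 3 / 2 * n) ≤ C₀ * (3 * (n + 2)) :=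
    (le_abs_self _).trans (by
      rw [abs_mul]
      exact mul_le_mul he h3 (abs_nonneg _) ((abs_nonneg _).trans he))
  linarith

theorem fine_upper (C₀ : ℝ) : ∃ Λ₀ : ℝ, ∀ Λ, Λ₀ ≤ Λ → ∀ C : ℝ, ∃ (K : ℝ) (N₀ : ℕ), ∀ {I ι E : Type} [Fintype I] [DecidableEq I] [Fintype ι] [DecidableEq ι]
      [NormedAddCommGroup E] [InnerProductSpace ℝ E] (D : Dat I E)
      (γ e c : ℝ), N₀ ≤ Fintype.card ι → D.Base γ Λ C₀ C → D.Hardy √(Fintype.card ι : ℝ) C →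
      D.Norms √(Fintype.card ι : ℝ) Λ C₀ C → D.Mains ι √(Fintype.card ι : ℝ) C₀ C e c →
      D.Trial √(Fintype.card ι : ℝ) C →
      ∃ Ψ : (ι → I) → ℝ, (∀ (π : Equiv.Perm ι) α, Ψ (α ∘ π) = Ψ α) ∧ 0 < nsq Ψ ∧
        D.H Ψ ≤ (e * Fintype.card ι + c * √(Fintype.card ι : ℝ) + K) * nsq Ψ := by
  refine ⟨2 ^ 12 * C₀, fun Λ hΛ C => ?_⟩
  obtain ⟨Km, hKm, hmain⟩ := main_est C
  obtain ⟨Kc, η₀, hKc, hη₀, hctrl⟩ := control C
  obtain ⟨Kd, Nd, hKd, hdec⟩ := trial_decay C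
  obtain ⟨K₁, hK₁, hmom⟩ := moments_of_decay Kd hKd
  obtain ⟨KK, hKK, hKc'⟩ := trial_Kc C K₁
  obtain ⟨KV, hKV, hVc⟩ := trial_Vc C K₁
  set η := min η₀ 1 with hη
  have hη0 : 0 < η := lt_min hη₀ one_pos
  have hη1 : η ≤ 1 := min_le_right _ _
  set Kx := Kc * (KK + 1) with hKx
  have hKx0 : 0 ≤ Kx := by positivity
  refine ⟨KK + KV + 3 * C₀ * (Kx + 2) + 2 ^ 20 * C₀ ^ 2 * Kx + Km * (Kx + √Kx + 1),
    max (max Nd 2) ⌈(9 / η ^ 4) ^ 2⌉₊, ?_⟩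
  intro I ι E _ _ _ _ _ _ D γ e c hN hB hH hNo hM hT
  have hNd : Nd ≤ Fintype.card ι := (le_max_left _ _).trans ((le_max_left _ _).trans hN)
  have hN2 : 2 ≤ Fintype.card ι := (le_max_right _ _).trans ((le_max_left _ _).trans hN)
  have hNη : (9 / η ^ 4) ^ 2 ≤ (Fintype.card ι : ℝ) :=
    Nat.ceil_le.1 ((le_max_right _ _).trans hN)
  have hex : ∃ m : ℕ, Fintype.card ι < (m + 1) ^ 8 :=
    ⟨Fintype.card ι, lt_of_lt_of_le (Nat.lt_succ_self _) (Nat.le_self_pow (by norm_num) _)⟩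
  set Mx := Nat.find hex with hMx
  have hM1 : Fintype.card ι < (Mx + 1) ^ 8 := Nat.find_spec hex
  have hM2 : Mx ^ 8 ≤ Fintype.card ι := by
    rcases Nat.eq_zero_or_pos Mx with h | h
    · rw [h]; simp
    · have := Nat.find_min hex (m := Mx - 1) (by omega)
      rwa [Nat.sub_add_cancel h, not_lt] at this
  obtain ⟨Ψ, hΨ⟩ := D.exists_trial (ι := ι) hB.o_low hT.z2 hT.z3 hT.z4 Mx
  obtain ⟨hm1, hm2⟩ := hmom D.toLv Mx Ψ hM1 (hdec D γ Λ C₀ Mx Ψ hNd hB hT hM2 hΨ)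
  have hK := hKc' D γ Λ C₀ Mx Ψ hN2 hB hNo hT hΨ hm1 hm2
  have hV := hVc D γ Λ C₀ Mx Ψ hN2 hB hH hNo hT hΨ hm1 hm2
  have hs : ∀ α, Ψ α ≠ 0 → ∀ i, α i = D.o ∨ α i ∉ D.low := fun α h => (hΨ.supp α h).1
  have hnl : ∀ α, Ψ α ≠ 0 → D.nlN α = 0 := fun α h => by
    rw [Lv.nlN, Finset.card_eq_zero, Finset.filter_eq_empty_iff]
    intro i _ hi
    exact (hs α h i).elim hi.2 fun h' => h' hi.1
  have hll : D.ll Ψ = 0 := Finset.sum_eq_zero fun α _ => by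
    by_cases h : Ψ α = 0
    · simp [h]
    · simp [hnl α h]
  have hTL : D.TL Ψ = 0 := Finset.sum_eq_zero fun α _ => by
    by_cases h : Ψ α = 0
    · simp [h]
    · beta_reduce
      rw [Finset.sum_eq_zero, zero_mul]
      intro i _
      rcases hs α h i with h' | h'
      · rw [h', hB.lam_o, ite_self]
      · rw [if_neg h']
  have hn0 : 0 < nsq Ψ := by
    have : Ψ (fun _ => D.o) ^ 2 ≤ nsq Ψ :=
      Finset.single_le_sum (f := fun α => Ψ α ^ 2) (fun α _ => sq_nonneg _) (Finset.mem_univ _)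
    rw [hΨ.vac_one] at this
    linarith
  have hN1 : (1 : ℝ) ≤ Fintype.card ι := by exact_mod_cast (by omega : 1 ≤ Fintype.card ι)
  set s := √(Fintype.card ι : ℝ) with hsdef
  have hss : s * s = Fintype.card ι := Real.mul_self_sqrt (by linarith)
  have hs1 : 1 ≤ s := Real.one_le_sqrt.2 hN1
  have hs9 : 9 ≤ η ^ 4 * s := by
    have h1 : 9 / η ^ 4 ≤ s := Real.le_sqrt_of_sq_le hNη
    rwa [div_le_iff₀ (by positivity), mul_comm] at h1
  have hMs : (Mx : ℝ) ≤ s := by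
    refine Real.le_sqrt_of_sq_le ?_
    have : Mx ^ 2 ≤ Fintype.card ι := by
      rcases Nat.eq_zero_or_pos Mx with h | h
      · rw [h]; simp
      · exact (Nat.pow_le_pow_right h (by norm_num)).trans hM2
    exact_mod_cast this
  have hctx : D.Ctx η Ψ := ⟨hη0, hη1, by linarith, fun α h => by
    have h1 : (D.npN α : ℝ) ≤ Mx := by
      rw [D.npN_eq hB.o_low, hnl α h, add_zero]; exact_mod_cast (hΨ.supp α h).2
    rw [← hss]
    nlinarith⟩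
  have hlam := hB.lam_nonneg
  have hX : D.xx Ψ ≤ Kx * nsq Ψ := by
    have := (hctrl D γ Λ C₀ η Ψ hB hNo hctx (min_le_left _ _) hΛ).1
    rw [hll] at this
    refine this.trans ?_
    rw [hKx, mul_assoc]
    exact mul_le_mul_of_nonneg_left (by linarith) hKc
  have hX0 : 0 ≤ D.xx Ψ := Lv.xx_nonneg hlam
  have hkk : D.kk Ψ ≤ Kx * nsq Ψ := by
    have h1 : 0 ≤ D.zz Ψ := Lv.zz_nonneg hlam
    have h2 : D.xx Ψ = D.kk Ψ + D.ll Ψ + D.zz Ψ := rfl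
    linarith
  have hEr : D.Er Km η Ψ ≤ Km * (Kx + √Kx + 1) * nsq Ψ := by
    have h1 : √(nsq Ψ * D.xx Ψ) ≤ √Kx * nsq Ψ := by
      refine Real.sqrt_le_iff.2 ⟨by positivity, ?_⟩
      rw [mul_pow, Real.sq_sqrt hKx0]
      nlinarith
    rw [Lv.Er, mul_assoc]
    refine mul_le_mul_of_nonneg_left ?_ hKm
    nlinarith
  have hC0 : 0 ≤ C₀ := by linarith [hB.C₀_ge]
  have hmid : D.T3 D.M Ψ / s ^ 4 - ob (D.wLL D.w) Ψ ≤
      e * Fintype.card ι * nsq Ψ + 3 * C₀ * ((Kx + 2) * nsq Ψ) := by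
    have h4 : s ^ 4 = (Fintype.card ι : ℝ) ^ 2 := by rw [← hss]; ring
    have h5 := Lv.ex_np_le (Ψ := Ψ) hB.o_low hlam 2
    rw [AUp_T3 D.toLv hB.o_low D.M Ψ hs, AUp_ob D.toLv hB.o_low D.w Ψ hs, hM.M_oo, hM.w_oo, h4]
    have h6 : -3 * e / 6 * ex (fun α => ((Fintype.card ι - D.npN α).descFactorial 3 : ℝ)) Ψ /
        (Fintype.card ι : ℝ) ^ 2 - -(3 / 2) * e * ex (fun α => (Fintype.card ι : ℝ) - D.npN α) Ψ ≤
        e * Fintype.card ι * nsq Ψ + 3 * C₀ * ex (fun α => (D.npN α : ℝ) + 2) Ψ := by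
      simp only [ex, nsq, Finset.mul_sum, Finset.sum_div, ← Finset.sum_sub_distrib,
        ← Finset.sum_add_distrib]
      refine Finset.sum_le_sum fun α _ => ?_
      have := mul_le_mul_of_nonneg_right
        (AUp_pt (Fintype.card ι) (D.npN α) (D.npN_le α) (by omega) hM.e_le) (sq_nonneg (Ψ α))
      refine le_of_eq_of_le ?_ (this.trans (le_of_eq ?_)) <;> ring
    refine h6.trans (add_le_add le_rfl (mul_le_mul_of_nonneg_left ?_ (by positivity)))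
    linarith
  have hmain' := (abs_le.1 (hmain D γ Λ C₀ η e c Ψ hB hNo hM hctx)).2
  rw [hll, mul_zero, Real.sqrt_zero, add_zero, hTL] at hmain'
  refine ⟨Ψ, hΨ.symm, hn0, ?_⟩
  have h7 : 2 ^ 20 * C₀ ^ 2 * D.kk Ψ ≤ 2 ^ 20 * C₀ ^ 2 * (Kx * nsq Ψ) :=
    mul_le_mul_of_nonneg_left hkk (by positivity)
  nlinarith

end Pool.Agent.Lib.MP_8fe63c_mp
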