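import Pool.Agent.Lib.MP_8fe63c_mp.BDefs

/-!
Averages over sliding cubes.

Sketch. `y ∈ cube c l ↔ y - c ∈ cube 0 l`; substitute `c = y - h` (`lintegral_sub_left_eq_self`) and use
`volume_cube`. For two points: the set of `c` with `y, z ∈ cube c l` contains the cube with corner
`k ↦ max (y k) (z k) - l` and side `(1 - δ) * l`, because `|y k - z k| ≤ ‖y - z‖`. `avg_close`: for `‖y‖ < R`
and `h ∈ cube 0 l` one has `‖h‖^2 ≤ 3 l^2` and `‖y - h‖ < R + 2`, so the difference is
`l⁻¹^3 * ∫ h in cube 0 l, (A (y - h) - A y)`; Cauchy-Schwarz, Tonelli and `Lip2.tr`.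
-/

set_option linter.unusedSectionVars false

open MeasureTheory Set Filter Topology
open scoped ENNReal InnerProductSpace

namespace Pool.Agent.Lib.MP_8fe63c_mp

variable {ι : Type} [Fintype ι] [DecidableEq ι]

variable {l : ℝ} {f : R3 → ℝ}

theorem BAvg_mem (c y : R3) (l : ℝ) : y ∈ cube c l ↔ y - c ∈ cube 0 l := by
  refine forall_congr' fun k => ?_
  rw [PiLp.sub_apply, PiLp.zero_apply, zero_add, sub_pos, sub_lt_iff_lt_add']

theorem BAvg_ind (c y : R3) (l : ℝ) : indicator (cube c l) (1 : R3 → ℝ≥0∞) y =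
    indicator (cube 0 l) (1 : R3 → ℝ≥0∞) (y - c) := by
  by_cases h : y ∈ cube c l
  · rw [indicator_of_mem h, indicator_of_mem ((BAvg_mem c y l).1 h)]
    rfl
  · rw [indicator_of_notMem h, indicator_of_notMem fun h' => h ((BAvg_mem c y l).2 h')]

theorem BAvg_norm {h : R3} (hh : h ∈ cube 0 l) : ‖h‖ ^ 2 ≤ 3 * l ^ 2 := by
  rw [EuclideanSpace.real_norm_sq_eq]
  have h0 : ∀ k, h k ^ 2 ≤ l ^ 2 := fun k => by
    have h1 := hh k
    rw [PiLp.zero_apply, zero_add] at h1
    exact sq_le_sq' (by linarith) (by linarith)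
  refine (Finset.sum_le_sum fun k _ => h0 k).trans (le_of_eq ?_)
  simp

theorem BAvg_int (hl : 0 < l) {g : R3 → ℝ} (hg : Measurable g) {M : ℝ} (h : ∀ y, |g y| ≤ M) :
    Integrable g (volume.restrict (cube 0 l)) :=
  Measure.integrableOn_of_bounded (M := M) (by rw [volume_cube 0 hl.le]; exact ENNReal.ofReal_ne_top)
    hg.aestronglyMeasurable (Eventually.of_forall h)

theorem BAvg_cs (hl : 0 < l) {g : R3 → ℝ} (hg : Measurable g) {M : ℝ} (h : ∀ y, |g y| ≤ M) :
    ENNReal.ofReal (((∫ y in cube 0 l, g y) / l ^ 3) ^ 2) ≤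
      ENNReal.ofReal (1 / l ^ 3) * ∫⁻ y in cube 0 l, ENNReal.ofReal (g y ^ 2) := by
  have h1 := BAvg_int hl hg h
  have h2 : Integrable (fun y => g y ^ 2) (volume.restrict (cube 0 l)) :=
    BAvg_int hl (hg.pow_const 2) (M := M ^ 2) fun y => by
      rw [abs_pow]
      exact pow_le_pow_left₀ (abs_nonneg _) (h y) 2
  have h3 : ∀ t : ℝ, Integrable (fun _ : R3 => t) (volume.restrict (cube 0 l)) := fun t =>
    BAvg_int hl measurable_const (M := |t|) fun _ => le_rfl
  have hl3 : 0 < l ^ 3 := by positivity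
  rw [← ofReal_integral_eq_lintegral_ofReal h2 (Eventually.of_forall fun y => sq_nonneg _),
    ← ENNReal.ofReal_mul (by positivity)]
  refine ENNReal.ofReal_le_ofReal ?_
  set a := (∫ y in cube 0 l, g y) / l ^ 3 with ha
  have ha' : ∫ y in cube 0 l, g y = a * l ^ 3 := by rw [ha, div_mul_cancel₀ _ hl3.ne']
  have h0 : 0 ≤ ∫ y in cube 0 l, (g y ^ 2 - 2 * a * g y + a ^ 2) :=
    integral_nonneg fun y => by
      have := sq_nonneg (g y - a)
      simp only [Pi.zero_apply]
      linarith
  have h4 : Integrable (fun y => g y ^ 2 - 2 * a * g y) (volume.restrict (cube 0 l)) :=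
    h2.sub (h1.const_mul _)
  rw [integral_add h4 (h3 _), integral_sub h2 (h1.const_mul _),
    integral_const_mul, OBox_vol 0 hl.le, ha'] at h0
  rw [one_div, ← div_eq_inv_mul, le_div_iff₀ hl3]
  linarith

theorem measurable_cube_ind (l : ℝ) :
    Measurable fun p : R3 × R3 => indicator (cube p.1 l) (1 : R3 → ℝ≥0∞) p.2 := by
  rw [show (fun p : R3 × R3 => indicator (cube p.1 l) (1 : R3 → ℝ≥0∞) p.2) =
    fun p => indicator (cube 0 l) (1 : R3 → ℝ≥0∞) (p.2 - p.1) from funext fun p => BAvg_ind _ _ l]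
  exact (measurable_one.indicator (OBox_meas 0 l)).comp (measurable_snd.sub measurable_fst)

theorem lintegral_cube_ind (hl : 0 < l) (y : R3) :
    ∫⁻ c, indicator (cube c l) (1 : R3 → ℝ≥0∞) y = ENNReal.ofReal (l ^ 3) := by
  rw [lintegral_congr fun c => BAvg_ind c y l, lintegral_sub_left_eq_self (fun h => indicator (cube 0 l) (1 : R3 → ℝ≥0∞) h) y,
    lintegral_indicator_one (OBox_meas 0 l), volume_cube 0 hl.le]

theorem lintegral_cube_ind2 (hl : 0 < l) {δ : ℝ} (hδ : δ ≤ 1) {y z : R3} (h : ‖y - z‖ ≤ δ * l) :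
    ENNReal.ofReal ((1 - δ) ^ 3 * l ^ 3) ≤
      ∫⁻ c, indicator (cube c l) (1 : R3 → ℝ≥0∞) y * indicator (cube c l) (1 : R3 → ℝ≥0∞) z := by
  have h0 : 0 ≤ (1 - δ) * l := mul_nonneg (by linarith) hl.le
  rw [← mul_pow, ← volume_cube (WithLp.toLp 2 fun k => max (y k) (z k) - l) h0,
    ← lintegral_indicator_one (OBox_meas _ _)]
  refine lintegral_mono fun c => ?_
  by_cases hc : c ∈ cube (WithLp.toLp 2 fun k => max (y k) (z k) - l) ((1 - δ) * l)
  · have h1 : ∀ k, |y k - z k| ≤ δ * l := fun k => by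
      have := PiLp.norm_apply_le (y - z) k
      rw [PiLp.sub_apply, Real.norm_eq_abs] at this
      exact this.trans h
    have h2 : ∀ k, max (y k) (z k) - l < c k ∧ c k < max (y k) (z k) - l + (1 - δ) * l := hc
    have hy : y ∈ cube c l := fun k => by
      have a1 := abs_le.1 (h1 k)
      have a2 := h2 k
      rcases le_total (y k) (z k) with a3 | a3
      · rw [max_eq_right a3] at a2
        constructor <;> linarith [a2.1, a2.2, a1.1]
      · rw [max_eq_left a3] at a2
        constructor <;> linarith [a2.1, a2.2, a1.2]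
    have hz : z ∈ cube c l := fun k => by
      have a1 := abs_le.1 (h1 k)
      have a2 := h2 k
      rcases le_total (y k) (z k) with a3 | a3
      · rw [max_eq_right a3] at a2
        constructor <;> linarith [a2.1, a2.2, a1.1]
      · rw [max_eq_left a3] at a2
        constructor <;> linarith [a2.1, a2.2, a1.2]
    rw [indicator_of_mem hc, indicator_of_mem hy, indicator_of_mem hz]
    simp
  · rw [indicator_of_notMem hc]
    exact zero_le

theorem measurable_avg (l : ℝ) (hf : Measurable f) : Measurable (avg l f) := by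
  refine Measurable.div_const ?_ _
  exact (StronglyMeasurable.integral_prod_right' (f := fun p : R3 × R3 => f (p.1 - p.2))
    (hf.comp (measurable_fst.sub measurable_snd)).stronglyMeasurable).measurable

theorem avg_bounds (hl : 0 < l) (hf : Measurable f) {M : ℝ} (h : ∀ y, 0 ≤ f y ∧ f y ≤ M) (y : R3) :
    0 ≤ avg l f y ∧ avg l f y ≤ M := by
  have hl3 : 0 < l ^ 3 := by positivity
  refine ⟨div_nonneg (integral_nonneg fun x => (h _).1) hl3.le, ?_⟩
  rw [avg, div_le_iff₀ hl3, mul_comm, ← OBox_vol 0 hl.le]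
  exact integral_mono_of_nonneg (Eventually.of_forall fun x => (h _).1)
    (BAvg_int hl measurable_const (M := |M|) fun _ => le_rfl) (Eventually.of_forall fun x => (h _).2)

theorem avg_mul (l k : ℝ) (f : R3 → ℝ) (y : R3) : avg l (fun c => k * f c) y = k * avg l f y := by
  rw [avg, avg, integral_const_mul, mul_div_assoc]

theorem lintegral_cube_avg (hl : 0 < l) (hf : Measurable f) {M : ℝ} (h : ∀ y, 0 ≤ f y ∧ f y ≤ M)
    (y : R3) : ∫⁻ c, indicator (cube c l) (1 : R3 → ℝ≥0∞) y * ENNReal.ofReal (f c) =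
      ENNReal.ofReal (l ^ 3 * avg l f y) := by
  have hl3 : 0 < l ^ 3 := by positivity
  have e : ∀ c, indicator (cube c l) (1 : R3 → ℝ≥0∞) y * ENNReal.ofReal (f c) =
      indicator (cube 0 l) (fun h => ENNReal.ofReal (f (y - h))) (y - c) := fun c => by
    rw [BAvg_ind]
    by_cases hc : y - c ∈ cube 0 l
    · rw [indicator_of_mem hc, indicator_of_mem hc, sub_sub_cancel, Pi.one_apply, one_mul]
    · rw [indicator_of_notMem hc, indicator_of_notMem hc, zero_mul]
  have hm : Measurable fun h => f (y - h) := hf.comp (measurable_const.sub measurable_id)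
  rw [lintegral_congr e,
    lintegral_sub_left_eq_self (indicator (cube 0 l) fun h => ENNReal.ofReal (f (y - h))) y,
    lintegral_indicator (OBox_meas 0 l), avg, mul_div_cancel₀ _ hl3.ne',
    ofReal_integral_eq_lintegral_ofReal (BAvg_int hl hm
      (M := M) fun x => by rw [abs_of_nonneg (h _).1]; exact (h _).2)
      (Eventually.of_forall fun x => (h _).1)]

theorem avg_close (hl : 0 < l) (hl1 : l ≤ 1) {A : R3 → ℝ} {M : ℝ} (hA : Lip2 A M) (R : ℝ) :
    ∫⁻ y in Metric.ball (0 : R3) R,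
        ENNReal.ofReal ((avg l (indicator (Metric.ball (0 : R3) (R + 2)) A) y - A y) ^ 2) ≤
      ENNReal.ofReal (3 * M ^ 2 * l ^ 2) := by
  have hl3 : 0 < l ^ 3 := by positivity
  have hm : ∀ y : R3, Measurable fun h => A (y - h) := fun y =>
    hA.meas.comp (measurable_const.sub measurable_id)
  have h1 : ∀ y ∈ Metric.ball (0 : R3) R,
      ENNReal.ofReal ((avg l (indicator (Metric.ball (0 : R3) (R + 2)) A) y - A y) ^ 2) ≤
        ENNReal.ofReal (1 / l ^ 3) * ∫⁻ h in cube 0 l, ENNReal.ofReal ((A (y - h) - A y) ^ 2) := by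
    intro y hy
    have e : avg l (indicator (Metric.ball (0 : R3) (R + 2)) A) y - A y =
        (∫ h in cube 0 l, (A (y - h) - A y)) / l ^ 3 := by
      rw [integral_sub (BAvg_int hl (hm y) fun h => hA.bdd _)
        (BAvg_int hl measurable_const (M := |A y|) fun _ => le_rfl), OBox_vol 0 hl.le, sub_div,
        mul_div_cancel_left₀ _ hl3.ne', avg]
      congr 2
      refine setIntegral_congr_fun (OBox_meas 0 l) fun h hh => indicator_of_mem ?_ _
      rw [mem_ball_zero_iff] at hy ⊢
      have a1 : ‖h‖ ≤ 2 := by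
        refine le_of_sq_le_sq (show _ ≤ (2 : ℝ) ^ 2 from ?_) (by norm_num)
        nlinarith [BAvg_norm hh]
      linarith [norm_sub_le y h]
    rw [e]
    exact BAvg_cs hl ((hm y).sub measurable_const) (M := M + M) fun h =>
      (abs_sub _ _).trans (add_le_add (hA.bdd _) (hA.bdd _))
  have hj : Measurable fun p : R3 × R3 => ENNReal.ofReal ((A (p.1 - p.2) - A p.1) ^ 2) :=
    (((hA.meas.comp (measurable_fst.sub measurable_snd)).sub
      (hA.meas.comp measurable_fst)).pow_const 2).ennreal_ofReal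
  calc _ ≤ ∫⁻ y in Metric.ball (0 : R3) R, ENNReal.ofReal (1 / l ^ 3) *
        ∫⁻ h in cube 0 l, ENNReal.ofReal ((A (y - h) - A y) ^ 2) :=
        setLIntegral_mono' measurableSet_ball h1
    _ ≤ ∫⁻ y, ENNReal.ofReal (1 / l ^ 3) *
        ∫⁻ h in cube 0 l, ENNReal.ofReal ((A (y - h) - A y) ^ 2) := setLIntegral_le_lintegral _ _
    _ = ENNReal.ofReal (1 / l ^ 3) *
        ∫⁻ h in cube 0 l, ∫⁻ y, ENNReal.ofReal ((A (y - h) - A y) ^ 2) := by
        rw [lintegral_const_mul' _ _ ENNReal.ofReal_ne_top, lintegral_lintegral_swap hj.aemeasurable]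
    _ ≤ ENNReal.ofReal (1 / l ^ 3) * ∫⁻ _h in cube 0 l, ENNReal.ofReal (3 * M ^ 2 * l ^ 2) := by
        refine mul_le_mul_right (setLIntegral_mono' (OBox_meas 0 l) fun h hh => ?_) _
        have := hA.tr (-h)
        simp only [← sub_eq_add_neg, norm_neg] at this
        refine this.trans (ENNReal.ofReal_le_ofReal ?_)
        nlinarith [mul_le_mul_of_nonneg_left (BAvg_norm hh) (sq_nonneg M)]
    _ = ENNReal.ofReal (3 * M ^ 2 * l ^ 2) := by
        rw [setLIntegral_const, volume_cube 0 hl.le, mul_comm, mul_assoc,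
          ← ENNReal.ofReal_mul hl3.le, mul_one_div_cancel hl3.ne', ENNReal.ofReal_one, mul_one]

end Pool.Agent.Lib.MP_8fe63c_mp
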