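import Pool.Agent.Lib.MP_8fe63c_mp.ABas

/-!
The Laplace representation of `1 / (a + a')` for kernels on arrays.
-/

set_option linter.unusedSectionVars false

open MeasureTheory Set Filter Topology

namespace Pool.Agent.Lib.MP_8fe63c_mp

theorem NSrc_exp_sum {ι : Type} (S : Finset ι) (c r : ι → ℝ) (h : ∀ a ∈ S, c a ≠ 0 → 0 < r a) :
    IntegrableOn (fun t => ∑ a ∈ S, c a * Real.exp (-r a * t)) (Ioi 0) ∧
      ∫ t in Ioi (0 : ℝ), ∑ a ∈ S, c a * Real.exp (-r a * t) = ∑ a ∈ S, c a / r a := by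
  have h1 : ∀ a ∈ S, IntegrableOn (fun t => c a * Real.exp (-r a * t)) (Ioi 0) := by
    intro a ha
    by_cases hc : c a = 0
    · simp [hc]
    · exact (integrableOn_exp_mul_Ioi (neg_neg_of_pos (h a ha hc)) 0).const_mul _
  refine ⟨integrable_finsetSum S h1, ?_⟩
  rw [integral_finsetSum S h1]
  refine Finset.sum_congr rfl fun a ha => ?_
  by_cases hc : c a = 0
  · simp [hc]
  · rw [integral_const_mul, integral_exp_mul_Ioi (neg_neg_of_pos (h a ha hc)), mul_zero,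
      Real.exp_zero, neg_div_neg_eq, mul_one_div]

theorem NSrc_cs {μ : Measure ℝ} {B P Q : ℝ → ℝ} (hB : Integrable B μ) (hP : Integrable P μ)
    (hQ : Integrable Q μ) (h : ∀ t, 0 ≤ P t ∧ 0 ≤ Q t ∧ B t ^ 2 ≤ P t * Q t) :
    (∫ t, B t ∂μ) ^ 2 ≤ (∫ t, P t ∂μ) * ∫ t, Q t ∂μ := by
  have key : ∀ x : ℝ, 0 ≤ (∫ t, P t ∂μ) * (x * x) + (-2 * ∫ t, B t ∂μ) * x + ∫ t, Q t ∂μ := by
    intro x
    have h1 : 0 ≤ ∫ t, (P t * (x * x) + (-2 * B t) * x + Q t) ∂μ := by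
      refine integral_nonneg fun t => ?_
      obtain ⟨k1, k2, k3⟩ := h t
      have k4 : (2 * B t * x) ^ 2 ≤ (P t * (x * x) + Q t) ^ 2 := by
        have := mul_le_mul_of_nonneg_right k3 (mul_self_nonneg x)
        nlinarith [sq_nonneg (P t * (x * x) - Q t)]
      have k5 := le_of_sq_le_sq k4 (add_nonneg (mul_nonneg k1 (mul_self_nonneg x)) k2)
      change 0 ≤ P t * (x * x) + (-2 * B t) * x + Q t
      linarith
    have i1 : Integrable (fun t => P t * (x * x) + (-2 * B t) * x) μ :=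
      (hP.mul_const _).add ((hB.const_mul _).mul_const _)
    rwa [integral_add i1 hQ,
      integral_add (hP.mul_const _) ((hB.const_mul _).mul_const _), integral_mul_const,
      integral_mul_const, integral_const_mul] at h1
  have := discrim_le_zero key
  unfold discrim at this
  nlinarith

theorem NSrc_split {B : ℝ → ℝ} (hB : IntegrableOn B (Ioi 0)) {s M : ℝ} (hs : 0 < s) (hM : 0 ≤ M)
    (h1 : ∀ t θ : ℝ, 0 < θ → t * θ ^ 2 = 1 → s ≤ θ → B t ^ 2 ≤ M * θ ^ 2)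
    (h2 : ∀ t θ : ℝ, 0 < θ → t * θ ^ 2 = 1 → θ ≤ s → B t ^ 2 ≤ M * θ ^ 5 / s ^ 3) :
    (∫ t in Ioi (0 : ℝ), B t) ^ 2 ≤ 36 * M / s ^ 2 := by
  obtain ⟨m, hm0, rfl⟩ : ∃ m : ℝ, 0 ≤ m ∧ M = m ^ 2 := ⟨√M, Real.sqrt_nonneg _, (Real.sq_sqrt hM).symm⟩
  obtain ⟨σ, hσ, rfl⟩ : ∃ σ : ℝ, 0 < σ ∧ s = σ ^ 2 :=
    ⟨√s, Real.sqrt_pos.2 hs, (Real.sq_sqrt hs.le).symm⟩
  have ht0 : 0 < σ ^ (-4 : ℝ) := Real.rpow_pos_of_pos hσ _
  have hθ : ∀ t : ℝ, 0 < t → t * (t ^ (-(1 / 2) : ℝ)) ^ 2 = 1 := by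
    intro t ht
    rw [← Real.rpow_natCast, ← Real.rpow_mul ht.le]
    norm_num
    rw [Real.rpow_neg_one, mul_inv_cancel₀ ht.ne']
  have e0 : (σ ^ (-4 : ℝ)) ^ (-(1 / 2) : ℝ) = σ ^ 2 := by
    rw [← Real.rpow_mul hσ.le, ← Real.rpow_natCast]
    norm_num
  have i1 : IntegrableOn (fun t : ℝ => t ^ (-(1 / 2) : ℝ)) (Ioc 0 (σ ^ (-4 : ℝ))) :=
    (intervalIntegral.intervalIntegrable_rpow' (by norm_num)).1
  have i2 : IntegrableOn (fun t : ℝ => t ^ (-(5 / 4) : ℝ)) (Ioi (σ ^ (-4 : ℝ))) :=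
    integrableOn_Ioi_rpow_of_lt (by norm_num) ht0
  have b1 : ‖∫ t in Ioc 0 (σ ^ (-4 : ℝ)), B t‖ ≤ m * (2 / σ ^ 2) := by
    refine (norm_integral_le_of_norm_le (i1.const_mul m) ?_).trans (le_of_eq ?_)
    · refine (ae_restrict_iff' measurableSet_Ioc).2 (Eventually.of_forall fun t ht => ?_)
      have k0 : 0 < t ^ (-(1 / 2) : ℝ) := Real.rpow_pos_of_pos ht.1 _
      have k1 := h1 t _ k0 (hθ t ht.1)
        (e0 ▸ Real.rpow_le_rpow_of_nonpos ht.1 ht.2 (by norm_num))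
      rw [← mul_pow] at k1
      exact abs_le_of_sq_le_sq k1 (mul_nonneg hm0 k0.le)
    · rw [integral_const_mul, ← intervalIntegral.integral_of_le ht0.le,
        integral_rpow (Or.inl (by norm_num)), ← Real.rpow_mul hσ.le,
        Real.zero_rpow (by norm_num)]
      have : (-4 : ℝ) * (-(1 / 2) + 1) = -((2 : ℕ) : ℝ) := by norm_num
      rw [this, Real.rpow_neg hσ.le, Real.rpow_natCast]
      ring
  have b2 : ‖∫ t in Ioi (σ ^ (-4 : ℝ)), B t‖ ≤ m / σ ^ 3 * (4 * σ) := by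
    refine (norm_integral_le_of_norm_le (i2.const_mul (m / σ ^ 3)) ?_).trans (le_of_eq ?_)
    · refine (ae_restrict_iff' measurableSet_Ioi).2 (Eventually.of_forall fun t ht => ?_)
      have ht' : 0 < t := ht0.trans ht
      have k0 : 0 < t ^ (-(1 / 2) : ℝ) := Real.rpow_pos_of_pos ht' _
      have k1 := h2 t _ k0 (hθ t ht')
        (e0 ▸ Real.rpow_le_rpow_of_nonpos ht0 (le_of_lt ht) (by norm_num))
      have k2 : (t ^ (-(1 / 2) : ℝ)) ^ 5 = (t ^ (-(5 / 4) : ℝ)) ^ 2 := by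
        rw [← Real.rpow_natCast, ← Real.rpow_natCast, ← Real.rpow_mul ht'.le,
          ← Real.rpow_mul ht'.le]
        norm_num
      refine abs_le_of_sq_le_sq (k1.trans (le_of_eq ?_))
        (mul_nonneg (by positivity) (Real.rpow_nonneg ht'.le _))
      rw [k2]
      ring
    · rw [integral_const_mul, integral_Ioi_rpow_of_lt (by norm_num) ht0, ← Real.rpow_mul hσ.le]
      have : (-4 : ℝ) * (-(5 / 4) + 1) = 1 := by norm_num
      rw [this, Real.rpow_one]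
      ring
  have e1 : ∫ t in Ioi (0 : ℝ), B t =
      (∫ t in Ioc 0 (σ ^ (-4 : ℝ)), B t) + ∫ t in Ioi (σ ^ (-4 : ℝ)), B t := by
    rw [← setIntegral_union Ioc_disjoint_Ioi_same measurableSet_Ioi
      (hB.mono_set Ioc_subset_Ioi_self) (hB.mono_set (Ioi_subset_Ioi ht0.le)),
      Ioc_union_Ioi_eq_Ioi ht0.le]
  have e2 : |∫ t in Ioi (0 : ℝ), B t| ≤ 6 * m / σ ^ 2 := by
    rw [e1]
    refine (abs_add_le _ _).trans ((add_le_add b1 b2).trans (le_of_eq ?_))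
    field_simp
    ring
  have e3 := pow_le_pow_left₀ (abs_nonneg _) e2 2
  rw [sq_abs] at e3
  refine e3.trans (le_of_eq ?_)
  ring

theorem NSrc_e1 {a t θ : ℝ} (ht : t * θ ^ 2 = 1) :
    a * Real.exp (-a * t) ^ 2 ≤ θ ^ 2 := by
  have h1 : 2 * (a * t) + 1 ≤ Real.exp (2 * (a * t)) := Real.add_one_le_exp _
  have h2 : Real.exp (-a * t) ^ 2 * Real.exp (2 * (a * t)) = 1 := by
    rw [sq, ← Real.exp_add, ← Real.exp_add, ← Real.exp_zero]
    congr 1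
    ring
  have h3 : 0 ≤ Real.exp (-a * t) ^ 2 := sq_nonneg _
  have h4 := mul_le_mul_of_nonneg_left h1 h3
  have h5 : a * t * Real.exp (-a * t) ^ 2 ≤ 1 := by nlinarith
  have h6 := mul_le_mul_of_nonneg_right h5 (sq_nonneg θ)
  calc a * Real.exp (-a * t) ^ 2 = a * Real.exp (-a * t) ^ 2 * (t * θ ^ 2) := by rw [ht, mul_one]
    _ = a * t * Real.exp (-a * t) ^ 2 * θ ^ 2 := by ring
    _ ≤ θ ^ 2 := by rwa [one_mul] at h6

theorem NSrc_e2 {a t θ : ℝ} (ha : 0 ≤ a) (hθ : 0 < θ) (ht : t * θ ^ 2 = 1) :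
    (θ * a + a ^ 2 / θ) * (a * Real.exp (-a * t) ^ 2) ≤ 2 * θ ^ 5 := by
  have ht0 : 0 ≤ t := by
    by_contra h
    have := mul_neg_of_neg_of_pos (not_le.1 h) (pow_pos hθ 2)
    linarith
  have hx : 0 ≤ 2 * (a * t) := by positivity
  have h1 := Real.pow_div_factorial_le_exp _ hx 2
  have h1' := Real.pow_div_factorial_le_exp _ hx 3
  have h2 : Real.exp (-a * t) ^ 2 * Real.exp (2 * (a * t)) = 1 := by
    rw [sq, ← Real.exp_add, ← Real.exp_add, ← Real.exp_zero]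
    congr 1
    ring
  have h3 : 0 ≤ Real.exp (-a * t) ^ 2 := sq_nonneg _
  have h4 := mul_le_mul_of_nonneg_left h1 h3
  have h4' := mul_le_mul_of_nonneg_left h1' h3
  rw [h2] at h4 h4'
  norm_num [Nat.factorial] at h4 h4'
  have ha' : a = a * t * θ ^ 2 := by rw [mul_assoc, ht, mul_one]
  have hneg : -a * t = -(a * t) := by ring
  rw [hneg] at h3 ⊢
  generalize a * t = x at *
  generalize Real.exp (-x) ^ 2 = E at *
  subst ha'
  have h5 : (θ * (x * θ ^ 2) + (x * θ ^ 2) ^ 2 / θ) * (x * θ ^ 2 * E) =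
      (x ^ 2 * E + x ^ 3 * E) * θ ^ 5 := by
    field_simp
  rw [h5]
  refine mul_le_mul_of_nonneg_right ?_ (by positivity)
  have h6 : 0 ≤ x ^ 2 * E := by positivity
  have h7 : 0 ≤ x ^ 3 * E := mul_nonneg (pow_nonneg (by linarith) 3) h3
  nlinarith

variable {I κ : Type} [Fintype I] [DecidableEq I] [Fintype κ] [DecidableEq κ]

/-- cut off to high modes on `A` and damp with the heat factor -/
noncomputable def NSrc_cut (L : Lv I) (A : Finset κ) (t : ℝ) (f : (κ → I) → ℝ) (a : κ → I) : ℝ :=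
  (if ∀ j ∈ A, a j ∉ L.low then f a else 0) * Real.exp (-(∑ j ∈ A, L.lam (a j)) * t)

theorem NSrc_hi_pr (L : Lv I) (A : Finset κ) (α : κ → I) :
    (∀ j ∈ A, L.pr A α j ∉ L.low) ↔ ∀ j ∈ A, α j ∉ L.low :=
  forall₂_congr fun j hj => by rw [Lv.pr, if_pos hj]

theorem NSrc_sum_pr (L : Lv I) (A : Finset κ) (α : κ → I) :
    ∑ j ∈ A, L.lam (L.pr A α j) = ∑ j ∈ A, L.lam (α j) :=
  Finset.sum_congr rfl fun j hj => by rw [Lv.pr, if_pos hj]

theorem NSrc_hi_iff (L : Lv I) (R : Finset κ) (α : κ → I) :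
    L.Hi α ↔ (∀ j ∈ Rᶜ, α j ∉ L.low) ∧ ∀ j ∈ R, α j ∉ L.low := by
  refine ⟨fun h => ⟨fun j _ => h j, fun j _ => h j⟩, fun h j => ?_⟩
  by_cases hj : j ∈ R
  · exact h.2 j hj
  · exact h.1 j (Finset.mem_compl.2 hj)

theorem NSrc_sum_ge {L : Lv I} {Λ : ℝ} (hΛ : 0 ≤ Λ) (hl : ∀ a, a ∉ L.low → Λ ≤ L.lam a)
    {A : Finset κ} {a : κ → I} (ha : ∀ j ∈ A, a j ∉ L.low) {b : κ} (hb : b ∈ A) :
    Λ ≤ L.lam (a b) ∧ L.lam (a b) ≤ ∑ j ∈ A, L.lam (a j) :=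
  ⟨hl _ (ha b hb), Finset.single_le_sum (f := fun j => L.lam (a j))
    (fun j hj => hΛ.trans (hl _ (ha j hj))) hb⟩

theorem NSrc_laplace {L : Lv I} {Λ : ℝ} (hΛ : 0 < Λ) (hl : ∀ a, a ∉ L.low → Λ ≤ L.lam a)
    (b : κ) (T : (κ → I) → ℝ) (R : Finset κ) (ζ h : (κ → I) → ℝ) :
    IntegrableOn (fun t => ∑ α, T α * NSrc_cut L Rᶜ t ζ (L.pr Rᶜ α) *
      NSrc_cut L R t h (L.pr R α)) (Ioi 0) ∧
    ∫ t in Ioi (0 : ℝ), ∑ α, T α * NSrc_cut L Rᶜ t ζ (L.pr Rᶜ α) * NSrc_cut L R t h (L.pr R α) =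
      ∑ α, L.resK T α * ζ (L.pr Rᶜ α) * h (L.pr R α) := by
  have h1 := NSrc_exp_sum Finset.univ
    (fun α : κ → I => if L.Hi α then T α * ζ (L.pr Rᶜ α) * h (L.pr R α) else 0)
    (fun α => ∑ j, L.lam (α j)) (fun α _ hα => by
      have h2 : L.Hi α := by
        by_contra h3
        exact hα (if_neg h3)
      obtain ⟨k1, k2⟩ := NSrc_sum_ge hΛ.le hl (A := Finset.univ) (fun j _ => h2 j)
        (Finset.mem_univ b)
      exact hΛ.trans_le (k1.trans k2))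
  have h2 : ∀ t α, T α * NSrc_cut L Rᶜ t ζ (L.pr Rᶜ α) * NSrc_cut L R t h (L.pr R α) =
      (if L.Hi α then T α * ζ (L.pr Rᶜ α) * h (L.pr R α) else 0) *
        Real.exp (-(∑ j, L.lam (α j)) * t) := by
    intro t α
    have h3 : Real.exp (-(∑ j, L.lam (α j)) * t) =
        Real.exp (-(∑ j ∈ Rᶜ, L.lam (α j)) * t) * Real.exp (-(∑ j ∈ R, L.lam (α j)) * t) := by
      rw [← Real.exp_add, ← Finset.sum_compl_add_sum R]
      congr 1
      ring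
    simp only [NSrc_cut, NSrc_hi_pr, NSrc_sum_pr, h3, NSrc_hi_iff L R]
    by_cases k1 : ∀ j ∈ Rᶜ, α j ∉ L.low
    · by_cases k2 : ∀ j ∈ R, α j ∉ L.low
      · rw [if_pos k1, if_pos k2, if_pos ⟨k1, k2⟩]
        ring
      · rw [if_neg k2, if_neg fun k : _ ∧ _ => k2 k.2]
        ring
    · rw [if_neg k1, if_neg fun k : _ ∧ _ => k1 k.1]
      ring
  simp only [h2]
  refine ⟨h1.1, h1.2.trans (Finset.sum_congr rfl fun α _ => ?_)⟩
  unfold Lv.resK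
  split_ifs
  · ring
  · simp

theorem NSrc_quad {L : Lv I} {Λ : ℝ} (hΛ : 0 < Λ) (hl : ∀ a, a ∉ L.low → Λ ≤ L.lam a)
    {A : Finset κ} (hA : A.Nonempty) (w f : (κ → I) → ℝ) :
    IntegrableOn (fun t => ∑ a ∈ L.cfg A, w a * NSrc_cut L A t f a ^ 2) (Ioi 0) ∧
    ∫ t in Ioi (0 : ℝ), ∑ a ∈ L.cfg A, w a * NSrc_cut L A t f a ^ 2 = ∑ a ∈ L.cfg A,
      (if ∀ j ∈ A, a j ∉ L.low then w a / (2 * ∑ j ∈ A, L.lam (a j)) else 0) * f a ^ 2 := by
  obtain ⟨b, hb⟩ := hA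
  have h1 := NSrc_exp_sum (L.cfg A)
    (fun a : κ → I => if ∀ j ∈ A, a j ∉ L.low then w a * f a ^ 2 else 0)
    (fun a => 2 * ∑ j ∈ A, L.lam (a j)) (fun a _ ha => by
      have h2 : ∀ j ∈ A, a j ∉ L.low := by
        by_contra h3
        exact ha (if_neg h3)
      obtain ⟨k1, k2⟩ := NSrc_sum_ge hΛ.le hl h2 hb
      linarith)
  have h2 : ∀ t a, w a * NSrc_cut L A t f a ^ 2 =
      (if ∀ j ∈ A, a j ∉ L.low then w a * f a ^ 2 else 0) *
        Real.exp (-(2 * ∑ j ∈ A, L.lam (a j)) * t) := by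
    intro t a
    have h3 : Real.exp (-(2 * ∑ j ∈ A, L.lam (a j)) * t) =
        Real.exp (-(∑ j ∈ A, L.lam (a j)) * t) ^ 2 := by
      rw [sq, ← Real.exp_add]
      congr 1
      ring
    rw [h3, NSrc_cut]
    split_ifs <;> ring
  simp only [h2]
  refine ⟨h1.1, h1.2.trans (Finset.sum_congr rfl fun α _ => ?_)⟩
  split_ifs
  · ring
  · simp

theorem NSrc_move (L : Lv I) {b : κ} {R : Finset κ} (hb : b ∉ R) (T ζ h : (κ → I) → ℝ) :
    ∑ α, √(L.lam (α b)) * T α * ζ (L.pr Rᶜ α) * h (L.pr R α) =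
      ∑ α, T α * (√(L.lam (L.pr Rᶜ α b)) * ζ (L.pr Rᶜ α)) * h (L.pr R α) := by
  refine Finset.sum_congr rfl fun α _ => ?_
  rw [Lv.pr, if_pos (Finset.mem_compl.2 hb)]
  ring

/-- Cauchy-Schwarz in the time variable -/
theorem NSrc_II {L : Lv I} {Λ : ℝ} (hΛ : 0 < Λ) (hl : ∀ a, a ∉ L.low → Λ ≤ L.lam a)
    {T : (κ → I) → ℝ} {R : Finset κ} {b : κ} (hb : b ∉ R) (hR : R.Nonempty)
    {w : (κ → I) → ℝ} (hw : ∀ a, 0 ≤ w a) (hT : L.Bil T R w) :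
    L.Bil (fun α => √(L.lam (α b)) * L.resK T α) R
      (fun a => if ∀ j ∈ R, a j ∉ L.low then w a / ∑ j ∈ R, L.lam (a j) else 0) := by
  intro ζ h
  have hb' : b ∈ Rᶜ := Finset.mem_compl.2 hb
  obtain ⟨i1, e1⟩ := NSrc_laplace hΛ hl b T R (fun a => √(L.lam (a b)) * ζ a) h
  obtain ⟨i2, e2⟩ := NSrc_quad hΛ hl ⟨b, hb'⟩ (fun _ => 1) (fun a => √(L.lam (a b)) * ζ a)
  obtain ⟨i3, e3⟩ := NSrc_quad hΛ hl hR w h
  have key := NSrc_cs i1 i2 i3 fun t => ⟨Finset.sum_nonneg fun _ _ => by positivity,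
    Finset.sum_nonneg fun a _ => mul_nonneg (hw a) (sq_nonneg _), by
      simp only [one_mul]
      exact hT _ _⟩
  rw [e1, e2, e3] at key
  rw [NSrc_move L hb]
  refine key.trans (mul_le_mul (Finset.sum_le_sum fun a _ => ?_)
    (Finset.sum_le_sum fun a _ => ?_) (Finset.sum_nonneg fun a _ => ?_)
    (Finset.sum_nonneg fun _ _ => sq_nonneg _))
  · split_ifs with ha
    · obtain ⟨k1, k2⟩ := NSrc_sum_ge hΛ.le hl ha hb'
      rw [mul_pow, Real.sq_sqrt (hΛ.le.trans k1), ← mul_assoc]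
      refine mul_le_of_le_one_left (sq_nonneg _) ?_
      rw [one_div, inv_mul_le_iff₀ (by linarith)]
      linarith
    · rw [zero_mul]
      exact sq_nonneg _
  · refine mul_le_mul_of_nonneg_right ?_ (sq_nonneg _)
    obtain ⟨c, hc⟩ := hR
    beta_reduce
    split_ifs with ha
    · obtain ⟨k1, k2⟩ := NSrc_sum_ge hΛ.le hl ha hc
      exact div_le_div_of_nonneg_left (hw a) (by linarith) (by linarith)
    · exact le_rfl
  · refine mul_nonneg ?_ (sq_nonneg _)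
    obtain ⟨c, hc⟩ := hR
    split_ifs with ha
    · obtain ⟨k1, k2⟩ := NSrc_sum_ge hΛ.le hl ha hc
      exact div_nonneg (hw a) (by linarith)
    · exact le_rfl

theorem NSrc_II' {L : Lv I} {Λ : ℝ} (hΛ : 0 < Λ) (hl : ∀ a, a ∉ L.low → Λ ≤ L.lam a)
    {T : (κ → I) → ℝ} {R : Finset κ} {b : κ} (hb : b ∉ R) (hR : R.Nonempty)
    {w : (κ → I) → ℝ} (hw : ∀ a, 0 ≤ w a) (hT : L.Bil T R w) {x y : ℝ}
    (hxy : ∀ a : κ → I, (∀ j ∈ R, a j ∉ L.low) →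
      w a / ∑ j ∈ R, L.lam (a j) ≤ x + y * ∑ j ∈ R, L.lam (a j)) :
    L.Bil (fun α => √(L.lam (α b)) * L.resK T α) R (L.wtH R x y) := by
  refine (NSrc_II hΛ hl hb hR hw hT).mono fun a _ => ?_
  unfold Lv.wtH
  split_ifs with ha
  · exact hxy a ha
  · exact le_rfl

/-- splitting of the time integral -/
theorem NSrc_I {L : Lv I} {Λ : ℝ} (hΛ : 0 < Λ) (hl : ∀ a, a ∉ L.low → Λ ≤ L.lam a)
    {T : (κ → I) → ℝ} {R : Finset κ} {b : κ} (hb : b ∉ R) {X c s : ℝ} (hX : 0 ≤ X) (hc : 1 ≤ c)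
    (hs : 0 < s) (hT : L.Bil T R fun _ => X)
    (hT' : ∀ θ : ℝ, 0 < θ → θ ≤ s → ∀ ζ h : (κ → I) → ℝ,
      (∀ a, ¬(∀ j ∈ Rᶜ, a j ∉ L.low) → ζ a = 0) →
      (∑ α, T α * ζ (L.pr Rᶜ α) * h (L.pr R α)) ^ 2 ≤ c * X / s ^ 3 *
        (∑ a ∈ L.cfg Rᶜ, (θ * ∑ j ∈ Rᶜ, L.lam (a j) + (∑ j ∈ Rᶜ, L.lam (a j)) ^ 2 / θ) * ζ a ^ 2) *
          ∑ a ∈ L.cfg R, h a ^ 2) :
    L.Bil (fun α => √(L.lam (α b)) * L.resK T α) R (L.wtH R (72 * c * X / s ^ 2) 0) := by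
  intro ζ h
  have hb' : b ∈ Rᶜ := Finset.mem_compl.2 hb
  obtain ⟨i1, e1⟩ := NSrc_laplace hΛ hl b T R (fun a => √(L.lam (a b)) * ζ a) h
  set Z := ∑ a ∈ L.cfg Rᶜ, ζ a ^ 2 with hZ
  set H := ∑ a ∈ L.cfg R, (if ∀ j ∈ R, a j ∉ L.low then h a else 0) ^ 2 with hH
  have hZ0 : 0 ≤ Z := Finset.sum_nonneg fun _ _ => sq_nonneg _
  have hH0 : 0 ≤ H := Finset.sum_nonneg fun _ _ => sq_nonneg _
  have hc0 : 0 ≤ c := zero_le_one.trans hc
  have k1 : ∀ t θ : ℝ, 0 < θ → t * θ ^ 2 = 1 → ∑ a ∈ L.cfg R, NSrc_cut L R t h a ^ 2 ≤ H := by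
    intro t θ hθ ht
    have ht0 : 0 ≤ t := by
      by_contra h
      have := mul_neg_of_neg_of_pos (not_le.1 h) (pow_pos hθ 2)
      linarith
    refine Finset.sum_le_sum fun a _ => ?_
    rw [NSrc_cut, mul_pow]
    split_ifs with ha
    · refine mul_le_of_le_one_right (sq_nonneg _) (pow_le_one₀ (Real.exp_pos _).le ?_)
      rw [Real.exp_le_one_iff, neg_mul, neg_nonpos]
      exact mul_nonneg (Finset.sum_nonneg fun j hj => hΛ.le.trans (hl _ (ha j hj))) ht0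
    · simp
  have k2 : ∀ (t : ℝ) (a : κ → I) (u v : ℝ), 0 ≤ v → ((∀ j ∈ Rᶜ, a j ∉ L.low) → 0 ≤ u ∧
      u * ((∑ j ∈ Rᶜ, L.lam (a j)) * Real.exp (-(∑ j ∈ Rᶜ, L.lam (a j)) * t) ^ 2) ≤ v) →
      u * NSrc_cut L Rᶜ t (fun a => √(L.lam (a b)) * ζ a) a ^ 2 ≤ v * ζ a ^ 2 := by
    intro t a u v hv huv
    rw [NSrc_cut]
    split_ifs with ha
    · obtain ⟨m1, m2⟩ := NSrc_sum_ge hΛ.le hl ha hb'
      obtain ⟨m3, m4⟩ := huv ha
      rw [mul_pow, mul_pow, Real.sq_sqrt (hΛ.le.trans m1)]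
      have m5 : u * (L.lam (a b) * Real.exp (-(∑ j ∈ Rᶜ, L.lam (a j)) * t) ^ 2) ≤ v :=
        le_trans (mul_le_mul_of_nonneg_left (mul_le_mul_of_nonneg_right m2 (sq_nonneg _)) m3) m4
      refine le_trans (le_of_eq ?_) (mul_le_mul_of_nonneg_right m5 (sq_nonneg (ζ a)))
      ring
    · rw [zero_mul, sq, mul_zero, mul_zero]
      positivity
  have key := NSrc_split i1 hs (M := 2 * c * X * Z * H) (by positivity)
    (fun t θ hθ ht _ => by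
      refine (hT _ _).trans ?_
      have m1 : ∑ a ∈ L.cfg Rᶜ, NSrc_cut L Rᶜ t (fun a => √(L.lam (a b)) * ζ a) a ^ 2 ≤
          θ ^ 2 * Z := by
        rw [hZ, Finset.mul_sum]
        refine Finset.sum_le_sum fun a _ => ?_
        have := k2 t a 1 (θ ^ 2) (sq_nonneg _) fun _ =>
          ⟨zero_le_one, by rw [one_mul]; exact NSrc_e1 ht⟩
        rwa [one_mul] at this
      rw [← Finset.mul_sum]
      calc _ ≤ θ ^ 2 * Z * (X * H) :=
            mul_le_mul m1 (mul_le_mul_of_nonneg_left (k1 t θ hθ ht) hX)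
              (mul_nonneg hX (Finset.sum_nonneg fun _ _ => sq_nonneg _)) (by positivity)
        _ = 1 * (X * Z * H * θ ^ 2) := by ring
        _ ≤ (2 * c) * (X * Z * H * θ ^ 2) :=
            mul_le_mul_of_nonneg_right (by linarith) (by positivity)
        _ = _ := by ring)
    (fun t θ hθ ht hθs => by
      refine (hT' θ hθ hθs _ _ fun a ha => by rw [NSrc_cut, if_neg ha, zero_mul]).trans ?_
      have m1 : ∑ a ∈ L.cfg Rᶜ, (θ * ∑ j ∈ Rᶜ, L.lam (a j) + (∑ j ∈ Rᶜ, L.lam (a j)) ^ 2 / θ) *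
          NSrc_cut L Rᶜ t (fun a => √(L.lam (a b)) * ζ a) a ^ 2 ≤ 2 * θ ^ 5 * Z := by
        rw [hZ, Finset.mul_sum]
        refine Finset.sum_le_sum fun a _ => k2 t a _ _ (by positivity) fun ha => ?_
        have m2 : 0 ≤ ∑ j ∈ Rᶜ, L.lam (a j) :=
          Finset.sum_nonneg fun j hj => hΛ.le.trans (hl _ (ha j hj))
        exact ⟨by positivity, NSrc_e2 m2 hθ ht⟩
      calc _ ≤ c * X / s ^ 3 * (2 * θ ^ 5 * Z) * H :=
            mul_le_mul (mul_le_mul_of_nonneg_left m1 (by positivity)) (k1 t θ hθ ht)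
              (Finset.sum_nonneg fun _ _ => sq_nonneg _) (by positivity)
        _ = _ := by ring)
  rw [e1] at key
  rw [NSrc_move L hb]
  refine key.trans (le_of_eq ?_)
  have m1 : ∑ a ∈ L.cfg R, L.wtH R (72 * c * X / s ^ 2) 0 a * h a ^ 2 =
      72 * c * X / s ^ 2 * H := by
    rw [hH, Finset.mul_sum]
    refine Finset.sum_congr rfl fun a _ => ?_
    unfold Lv.wtH
    split_ifs <;> ring
  rw [m1]
  ring

end Pool.Agent.Lib.MP_8fe63c_mp
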