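import Pool.Agent.Lib.MP_8fe63c_mp.NTb
import Pool.Agent.Lib.MP_8fe63c_mp.NSrc1

/-!
Operator norms of the kernel `F / (sum of eigenvalues)`.

Sketch. On high modes `1/(a + a') = ∫_0^∞ exp(-t a) exp(-t a') dt`, where `a`, `a'` are the sums of `lam` over
`Rᶜ` and `R`. So the bilinear sum is `∫ dt ∫ F ζ_t h_t` (`coef_bil`) with
`ζ_t = 1_high √(lam (α b)) exp(-t a) ζ`, `h_t = 1_high exp(-t a') h`. Let `p = q + 1`, `r = card R`.
(i) `r = 0`, or `r = 1` and `p ≥ 3`: for `t ≤ s^(-2)` use `Src.hs` or `Src.bil` and `‖ζ_t‖ ≤ t^(-1/2) ‖ζ‖`;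
for `t ≥ s^(-2)` use `sq_integral_le`, `trace_bounds` on `Rᶜ` with `θ = t^(-1/2)`, which gives `t^(-5/4)`
(`a^k exp(-2 t a) ≤ k^k t^(-k)`); the other factor is `∫ Φ u₀^2 ≤ κ ϱ/s^(3q)` for `r = 0`
(`lintegral_mul_single_le`) and `lintegral_mul_synth_le` for `r = 1`.
(ii) `r = 1`, `p = 2`: `Src.bil`, Cauchy-Schwarz in `t`, `∫ ‖ζ_t‖^2 ≤ ‖ζ‖^2/2`, `∫ ‖h_t‖^2 ≤ ‖h‖^2/(2Λ)`.
(iii) `r ≥ 2`: `trace_bounds` on `R` (second form if `r = 3`), `lintegral_mul_synth_le` on `Rᶜ`,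
Cauchy-Schwarz in `t`. Unweighted Hilbert-Schmidt norm: as (i) without `√lam`, with
`t^(-3/4) exp(-t/2)` for `t ≥ s^(-2)`.
-/

set_option linter.unusedSectionVars false

open MeasureTheory Set Filter Topology
open scoped ENNReal InnerProductSpace

namespace Pool.Agent.Lib.MP_8fe63c_mp

variable {I κ ι : Type} [Fintype I] [DecidableEq I] [Fintype κ] [DecidableEq κ]
  [Fintype ι] [DecidableEq ι]


theorem NSrc_two (L : Lv I) (fr : Frame I) {q : ℕ} {s κ ϱ : ℝ} {F : (Fin (q + 1) → R3) → ℝ}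
    {Φ : (Fin (q + 1) → R3) → ℝ≥0∞} (h : Src s F Φ κ ϱ) (hs : 0 < s) (R : Finset (Fin (q + 1)))
    (ζ g : (Fin (q + 1) → I) → ℝ) {a b : ℝ} (ha : 0 ≤ a) (hb : 0 ≤ b)
    (h1 : ∫⁻ x, Φ x * ENNReal.ofReal (synth L fr.e Rᶜ ζ x ^ 2) ≤ ENNReal.ofReal a)
    (h2 : ∫⁻ x, Φ x * ENNReal.ofReal (synth L fr.e R g x ^ 2) ≤ ENNReal.ofReal b) :
    (∑ α, coef fr.e F α * ζ (L.pr Rᶜ α) * g (L.pr R α)) ^ 2 ≤ a * b := by
  rw [coef_bil L fr (h.memLp hs).1]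
  exact sq_integral_le h.maj.meas (measurable_synth L fr.meas _ _)
    (measurable_synth L fr.meas _ _) h.le ha hb h1 h2

theorem NSrc_zero (L : Lv I) (fr : Frame I) {q : ℕ} {s κ ϱ : ℝ} {F : (Fin (q + 1) → R3) → ℝ}
    {Φ : (Fin (q + 1) → R3) → ℝ≥0∞} (h : Src s F Φ κ ϱ) (hs : 0 < s)
    (ζ g : (Fin (q + 1) → I) → ℝ) {a : ℝ} (ha : 0 ≤ a)
    (h1 : ∫⁻ x, Φ x * ENNReal.ofReal (synth L fr.e ∅ᶜ ζ x ^ 2) ≤ ENNReal.ofReal a) :
    (∑ α, coef fr.e F α * ζ (L.pr ∅ᶜ α) * g (L.pr ∅ α)) ^ 2 ≤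
      a * (κ / s ^ (3 * q) * (ϱ * ∑ α ∈ L.cfg ∅, g α ^ 2)) := by
  obtain ⟨u, hu, -, hu2, hle⟩ := h.ex
  have hκ := h.κ_nonneg
  have hϱ := h.ϱ_nonneg
  have hF : ∀ x, F x = F x / u (x 0) * u (x 0) := by
    intro x
    by_cases h0 : u (x 0) = 0
    · have h2 := hle x
      simp only [eabs, h0, abs_zero, ENNReal.ofReal_zero, mul_zero, nonpos_iff_eq_zero,
        ENNReal.ofReal_eq_zero, abs_nonpos_iff] at h2
      rw [h0, h2, mul_zero]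
    · rw [div_mul_cancel₀ _ h0]
  have hF' : ∀ x, eabs (fun x => F x / u (x 0)) x ≤ Φ x := by
    intro x
    by_cases h0 : u (x 0) = 0
    · simp [eabs, h0]
    · unfold eabs
      rw [abs_div, ENNReal.ofReal_div_of_pos (abs_pos.2 h0)]
      exact ENNReal.div_le_of_le_mul (hle x)
  have e1 : ∀ x, F x * synth L fr.e ∅ᶜ ζ x * synth L fr.e ∅ g x =
      F x / u (x 0) * synth L fr.e ∅ᶜ ζ x * (u (x 0) * g fun _ => L.o) := by
    intro x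
    have e2 : synth L fr.e ∅ g x = g fun _ => L.o := by simp [synth, L.cfg_empty]
    rw [e2]
    conv_lhs => rw [hF x]
    ring
  rw [coef_bil L fr (h.memLp hs).1, L.cfg_empty, Finset.sum_singleton]
  simp only [e1]
  refine sq_integral_le h.maj.meas (measurable_synth L fr.meas _ _)
    ((hu.comp (measurable_pi_apply 0)).mul_const _) hF' ha (by positivity) h1 ?_
  have h2 := h.maj.mg (Finset.univ.erase 0) (Finset.erase_ne_self.2 (Finset.mem_univ _))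
  rw [Finset.card_erase_of_mem (Finset.mem_univ _), Finset.card_univ, Fintype.card_fin,
    Nat.add_sub_cancel] at h2
  have h3 := lintegral_mul_single_le h.maj.meas 0 h2
    (a := fun y => ENNReal.ofReal ((u y * g fun _ => L.o) ^ 2))
    ((hu.mul_const _).pow_const 2).ennreal_ofReal
  refine h3.trans ?_
  rw [ENNReal.ofReal_mul (by positivity)]
  refine mul_le_mul_right ?_ _
  simp only [mul_pow, ENNReal.ofReal_mul (sq_nonneg _)]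
  rw [lintegral_mul_const _ (hu.pow_const 2).ennreal_ofReal, ENNReal.ofReal_mul hϱ]
  exact mul_le_mul_left hu2 _

theorem NSrc_lt {L : Lv I} {fr : Frame I} {c₁ Λ : ℝ}
    (hl : ∀ a, a ∉ L.low → Λ ≤ L.lam a ∧ fr.lt a ≤ c₁ * L.lam a) {A : Finset κ} {a : κ → I}
    (ha : ∀ j ∈ A, a j ∉ L.low) :
    0 ≤ ∑ j ∈ A, fr.lt (a j) ∧ ∑ j ∈ A, fr.lt (a j) ≤ c₁ * ∑ j ∈ A, L.lam (a j) := by
  refine ⟨Finset.sum_nonneg fun j _ => fr.lt_nonneg _, ?_⟩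
  rw [Finset.mul_sum]
  exact Finset.sum_le_sum fun j hj => (hl _ (ha j hj)).2

theorem NSrc_wt {l a c θ : ℝ} (hl : 0 ≤ l) (ha : 0 ≤ a) (hc : 1 ≤ c) (hθ : 0 < θ) (h : l ≤ c * a) :
    θ * l + l ^ 2 / θ ≤ c ^ 2 * (θ * a + a ^ 2 / θ) := by
  have h1 : l ^ 2 ≤ (c * a) ^ 2 := pow_le_pow_left₀ hl h 2
  have h2 : c * a ≤ c ^ 2 * a := mul_le_mul_of_nonneg_right (by nlinarith) ha
  calc θ * l + l ^ 2 / θ ≤ θ * (c ^ 2 * a) + (c * a) ^ 2 / θ := by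
        gcongr
        exact h.trans h2
    _ = _ := by ring

theorem NSrc_sum_wt {L : Lv I} {fr : Frame I} {c₁ Λ θ : ℝ} (hc : 1 ≤ c₁) (hΛ : 0 ≤ Λ)
    (hθ : 0 < θ) (hl : ∀ a, a ∉ L.low → Λ ≤ L.lam a ∧ fr.lt a ≤ c₁ * L.lam a) {A : Finset κ}
    {ζ : (κ → I) → ℝ} (hζ : ∀ a, ¬(∀ j ∈ A, a j ∉ L.low) → ζ a = 0) :
    ∑ α ∈ L.cfg A, (θ * (∑ j ∈ A, fr.lt (α j)) + (∑ j ∈ A, fr.lt (α j)) ^ 2 / θ) * ζ α ^ 2 ≤
      c₁ ^ 2 * ∑ α ∈ L.cfg A,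
        (θ * (∑ j ∈ A, L.lam (α j)) + (∑ j ∈ A, L.lam (α j)) ^ 2 / θ) * ζ α ^ 2 := by
  rw [Finset.mul_sum]
  refine Finset.sum_le_sum fun a _ => ?_
  by_cases ha : ∀ j ∈ A, a j ∉ L.low
  · obtain ⟨h1, h2⟩ := NSrc_lt hl ha
    rw [← mul_assoc]
    exact mul_le_mul_of_nonneg_right (NSrc_wt h1
      (Finset.sum_nonneg fun j hj => hΛ.trans (hl _ (ha j hj)).1) hc hθ h2) (sq_nonneg _)
  · simp [hζ a ha]

theorem NSrc_wt_nonneg (L : Lv I) (fr : Frame I) {θ : ℝ} (hθ : 0 < θ) (A : Finset κ)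
    (ζ : (κ → I) → ℝ) : 0 ≤ ∑ α ∈ L.cfg A,
      (θ * (∑ j ∈ A, fr.lt (α j)) + (∑ j ∈ A, fr.lt (α j)) ^ 2 / θ) * ζ α ^ 2 := by
  refine Finset.sum_nonneg fun a _ => mul_nonneg ?_ (sq_nonneg _)
  have : 0 ≤ ∑ j ∈ A, fr.lt (a j) := Finset.sum_nonneg fun j _ => fr.lt_nonneg _
  positivity

/-- the standing assumptions -/
structure NSrc_Hyp (L : Lv I) (fr : Frame I) (q : ℕ) (cT c₁ Λ s κ ϱ : ℝ)
    (F : (Fin (q + 1) → R3) → ℝ) (Φ : (Fin (q + 1) → R3) → ℝ≥0∞) : Prop where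
  hq : 1 ≤ q
  hcT : 1 ≤ cT
  hc : 1 ≤ c₁
  hΛ : 1 ≤ Λ
  hs : 1 ≤ s
  hl : ∀ a, a ∉ L.low → Λ ≤ L.lam a ∧ fr.lt a ≤ c₁ * L.lam a
  src : Src s F Φ κ ϱ
  t2 : ∀ (B : Finset (Fin (q + 1))) (c : (Fin (q + 1) → I) → ℝ), 2 ≤ B.card → ∀ θ : ℝ, 0 < θ →
    θ ≤ s → ∫⁻ x, Φ x * ENNReal.ofReal (synth L fr.e B c x ^ 2) ≤
      ENNReal.ofReal (cT * κ / s ^ (3 * Bᶜ.card + 3) * ∑ α ∈ L.cfg B,
        (θ * (∑ j ∈ B, fr.lt (α j)) + (∑ j ∈ B, fr.lt (α j)) ^ 2 / θ) * c α ^ 2)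
  t3 : ∀ (B : Finset (Fin (q + 1))) (c : (Fin (q + 1) → I) → ℝ), 3 ≤ B.card →
    ∫⁻ x, Φ x * ENNReal.ofReal (synth L fr.e B c x ^ 2) ≤
      ENNReal.ofReal (cT * κ / s ^ (3 * Bᶜ.card + 4) * ∑ α ∈ L.cfg B,
        (∑ j ∈ B, fr.lt (α j)) ^ 2 * c α ^ 2)

namespace NSrc_Hyp

variable {L : Lv I} {fr : Frame I} {q : ℕ} {cT c₁ Λ s k ϱ : ℝ} {F : (Fin (q + 1) → R3) → ℝ}
  {Φ : (Fin (q + 1) → R3) → ℝ≥0∞} (h : NSrc_Hyp L fr q cT c₁ Λ s k ϱ F Φ)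

include h

theorem one_le : 1 ≤ cT * c₁ ^ 2 := one_le_mul_of_one_le_of_one_le h.hcT (one_le_pow₀ h.hc)

theorem tr0 (θ : ℝ) (hθ : 0 < θ) (hθs : θ ≤ s) (ζ g : (Fin (q + 1) → I) → ℝ)
    (hζ : ∀ a, ¬(∀ j ∈ (∅ : Finset (Fin (q + 1)))ᶜ, a j ∉ L.low) → ζ a = 0) :
    (∑ α, coef fr.e F α * ζ (L.pr ∅ᶜ α) * g (L.pr ∅ α)) ^ 2 ≤
      cT * c₁ ^ 2 * (k ^ 2 * ϱ / s ^ (3 * q)) / s ^ 3 * (∑ a ∈ L.cfg ∅ᶜ,
        (θ * ∑ j ∈ ∅ᶜ, L.lam (a j) + (∑ j ∈ ∅ᶜ, L.lam (a j)) ^ 2 / θ) * ζ a ^ 2) *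
          ∑ a ∈ L.cfg ∅, g a ^ 2 := by
  have hs : 0 < s := one_pos.trans_le h.hs
  have hk := h.src.κ_nonneg
  have hϱ := h.src.ϱ_nonneg
  have hcT : 0 ≤ cT := zero_le_one.trans h.hcT
  have h1 := h.t2 ∅ᶜ ζ (by have := h.hq; simp; omega) θ hθ hθs
  rw [compl_compl, Finset.card_empty, mul_zero, zero_add] at h1
  have h2 := NSrc_zero L fr h.src hs ζ g
    (mul_nonneg (by positivity) (NSrc_wt_nonneg L fr hθ _ _)) h1
  have h3 := NSrc_sum_wt h.hc (zero_le_one.trans h.hΛ) hθ h.hl hζ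
  have h4 : 0 ≤ ∑ a ∈ L.cfg ∅, g a ^ 2 := Finset.sum_nonneg fun _ _ => sq_nonneg _
  refine h2.trans ((mul_le_mul_of_nonneg_right (mul_le_mul_of_nonneg_left h3 (by positivity))
    (by positivity)).trans (le_of_eq ?_))
  ring

theorem hs0 : ∑ α, L.resK (coef fr.e F) α ^ 2 ≤
    72 * cT * c₁ ^ 2 * k ^ 2 * ϱ / s ^ (3 * (q + 1)) := by
  have hs : 0 < s := one_pos.trans_le h.hs
  have hϱ := h.src.ϱ_nonneg
  have hcT : 0 ≤ cT := zero_le_one.trans h.hcT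
  refine (Lv.bil_empty_iff (L := L) (by positivity)).1 fun ζ g => ?_
  have h1 := h.tr0 1 one_pos h.hs (fun a => if L.Hi a then ζ a / ∑ j, L.lam (a j) else 0) g
    fun a ha => if_neg fun h2 => ha fun j _ => h2 j
  have e1 : ∀ α : Fin (q + 1) → I, L.pr ∅ᶜ α = α := fun α => by
    funext j
    simp [Lv.pr]
  have e2 : ∑ α, L.resK (coef fr.e F) α * ζ (L.pr ∅ᶜ α) * g (L.pr ∅ α) =
      ∑ α, coef fr.e F α * (if L.Hi α then ζ α / ∑ j, L.lam (α j) else 0) * g (L.pr ∅ α) := by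
    refine Finset.sum_congr rfl fun α _ => ?_
    rw [e1, Lv.resK]
    split_ifs <;> ring
  simp only [e1] at h1
  rw [e2, ← Finset.mul_sum]
  have h2 : ∑ a ∈ L.cfg ∅ᶜ, (1 * ∑ j ∈ ∅ᶜ, L.lam (a j) + (∑ j ∈ ∅ᶜ, L.lam (a j)) ^ 2 / 1) *
      (if L.Hi a then ζ a / ∑ j, L.lam (a j) else 0) ^ 2 ≤ 72 * ∑ a ∈ L.cfg ∅ᶜ, ζ a ^ 2 := by
    rw [Finset.mul_sum]
    refine Finset.sum_le_sum fun a _ => ?_
    split_ifs with ha
    · obtain ⟨k1, k2⟩ := NSrc_sum_ge (zero_le_one.trans h.hΛ) (fun a ha => (h.hl a ha).1)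
        (A := Finset.univ) (fun j _ => ha j) (Finset.mem_univ 0)
      have k3 : 1 ≤ ∑ j, L.lam (a j) := h.hΛ.trans (k1.trans k2)
      rw [Finset.compl_empty]
      generalize ∑ j, L.lam (a j) = x at k3
      have k4 : 0 < x ^ 2 := by positivity
      rw [div_pow, ← mul_div_assoc, div_le_iff₀ k4, mul_right_comm]
      exact mul_le_mul_of_nonneg_right (by nlinarith) (sq_nonneg _)
    · rw [sq (0 : ℝ), mul_zero, mul_zero]
      positivity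
  have h4 : 0 ≤ ∑ a ∈ L.cfg ∅, g a ^ 2 := Finset.sum_nonneg fun _ _ => sq_nonneg _
  refine h1.trans ((mul_le_mul_of_nonneg_right (mul_le_mul_of_nonneg_left h2 (by positivity))
    h4).trans (le_of_eq ?_))
  ring

theorem r0 (b : Fin (q + 1)) : L.Bil (fun α => √(L.lam (α b)) * L.resK (coef fr.e F) α) ∅
    (L.wtH ∅ (72 * cT * c₁ ^ 2 * k ^ 2 * ϱ / s ^ (3 * (q + 1) - 1)) 0) := by
  have hs : 0 < s := one_pos.trans_le h.hs
  have hϱ := h.src.ϱ_nonneg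
  have hX : 0 ≤ k ^ 2 * ϱ / s ^ (3 * q) := by positivity
  have h1 := NSrc_I (one_pos.trans_le h.hΛ) (fun a ha => (h.hl a ha).1) (Finset.notMem_empty b)
    hX h.one_le hs ((Lv.bil_empty_iff hX).2 (h.src.hs fr hs)) h.tr0
  have e1 : 3 * (q + 1) - 1 = 3 * q + 2 := by omega
  rw [e1]
  convert h1 using 2
  ring

theorem r1 {b : Fin (q + 1)} {R : Finset (Fin (q + 1))} (hb : b ∉ R) (hR : R.card = 1)
    (hq : 2 ≤ q) : L.Bil (fun α => √(L.lam (α b)) * L.resK (coef fr.e F) α) R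
      (L.wtH R (72 * cT * c₁ ^ 2 * k ^ 2 / s ^ (3 * (q + 1) + 2)) 0) := by
  have hs : 0 < s := one_pos.trans_le h.hs
  have hk := h.src.κ_nonneg
  have hcT : 0 ≤ cT := zero_le_one.trans h.hcT
  have hX : 0 ≤ k ^ 2 / s ^ (3 * (q + 1)) := by positivity
  have hne : R.Nonempty := Finset.card_pos.1 (by omega)
  have hu : R ≠ Finset.univ := fun e => hb (e ▸ Finset.mem_univ b)
  have hc : Rᶜ.card = q := by rw [Finset.card_compl, Fintype.card_fin, hR, Nat.add_sub_cancel]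
  have h1 := NSrc_I (one_pos.trans_le h.hΛ) (fun a ha => (h.hl a ha).1) hb
    hX h.one_le hs (h.src.bil L fr hs hne hu) fun θ hθ hθs ζ g hζ => by
      have h1 := h.t2 Rᶜ ζ (by omega) θ hθ hθs
      rw [compl_compl, hR] at h1
      have h5 := h.src.maj.mg Rᶜ (Finset.compl_ne_univ_iff_nonempty R |>.2 hne)
      rw [hc] at h5
      have h4 : 0 ≤ ∑ a ∈ L.cfg R, g a ^ 2 := Finset.sum_nonneg fun _ _ => sq_nonneg _
      have h2 := NSrc_two L fr h.src hs R ζ g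
        (mul_nonneg (by positivity) (NSrc_wt_nonneg L fr hθ _ _)) (by positivity) h1
        (lintegral_mul_synth_le L fr h.src.maj.meas R (by positivity) h5 g)
      have h3 := NSrc_sum_wt h.hc (zero_le_one.trans h.hΛ) hθ h.hl hζ
      refine h2.trans ((mul_le_mul_of_nonneg_right (mul_le_mul_of_nonneg_left h3 (by positivity))
        (by positivity)).trans (le_of_eq ?_))
      ring
  convert h1 using 2
  ring

theorem r1' {b : Fin (q + 1)} {R : Finset (Fin (q + 1))} (hb : b ∉ R) (hR : R.card = 1)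
    (hq : q + 1 = 2) : L.Bil (fun α => √(L.lam (α b)) * L.resK (coef fr.e F) α) R
      (L.wtH R (72 * cT * c₁ ^ 2 * k ^ 2 / (s ^ 6 * Λ)) 0) := by
  have hs : 0 < s := one_pos.trans_le h.hs
  have hΛ : 0 < Λ := one_pos.trans_le h.hΛ
  have hne : R.Nonempty := Finset.card_pos.1 (by omega)
  have hu : R ≠ Finset.univ := fun e => hb (e ▸ Finset.mem_univ b)
  refine NSrc_II' hΛ (fun a ha => (h.hl a ha).1) hb hne (fun _ => by positivity)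
    (h.src.bil L fr hs hne hu) fun a ha => ?_
  obtain ⟨c, hc⟩ := hne
  obtain ⟨k1, k2⟩ := NSrc_sum_ge hΛ.le (fun a ha => (h.hl a ha).1) ha hc
  have k3 := h.one_le
  have k4 : 3 * (q + 1) = 6 := by omega
  rw [zero_mul, add_zero, k4, div_div]
  exact div_le_div₀ (by nlinarith [sq_nonneg k]) (by nlinarith [sq_nonneg k]) (by positivity)
    (mul_le_mul_of_nonneg_left (k1.trans k2) (by positivity))

theorem side {b : Fin (q + 1)} {R : Finset (Fin (q + 1))} (hb : b ∉ R) (hne : R.Nonempty)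
    {m : ℝ} (hm : 0 ≤ m) {w : (Fin (q + 1) → I) → ℝ} (hw : ∀ a, 0 ≤ w a)
    (h1 : ∀ g, ∫⁻ x, Φ x * ENNReal.ofReal (synth L fr.e R g x ^ 2) ≤
      ENNReal.ofReal (m * ∑ α ∈ L.cfg R, w α * g α ^ 2)) {x y : ℝ}
    (hxy : ∀ a : Fin (q + 1) → I, (∀ j ∈ R, a j ∉ L.low) →
      k / s ^ (3 * R.card) * m * w a / ∑ j ∈ R, L.lam (a j) ≤ x + y * ∑ j ∈ R, L.lam (a j)) :
    L.Bil (fun α => √(L.lam (α b)) * L.resK (coef fr.e F) α) R (L.wtH R x y) := by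
  have hs : 0 < s := one_pos.trans_le h.hs
  have hk := h.src.κ_nonneg
  have hu : R ≠ Finset.univ := fun e => hb (e ▸ Finset.mem_univ b)
  refine NSrc_II' (one_pos.trans_le h.hΛ) (fun a ha => (h.hl a ha).1) hb hne
    (w := fun a => k / s ^ (3 * R.card) * m * w a)
    (fun a => mul_nonneg (by positivity) (hw a)) (fun ζ g => ?_) hxy
  have h5 := h.src.maj.mg R hu
  have h4 : 0 ≤ ∑ a ∈ L.cfg Rᶜ, ζ a ^ 2 := Finset.sum_nonneg fun _ _ => sq_nonneg _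
  have h2 := NSrc_two L fr h.src hs R ζ g (by positivity)
    (mul_nonneg hm (Finset.sum_nonneg fun a _ => mul_nonneg (hw a) (sq_nonneg _)))
    (lintegral_mul_synth_le L fr h.src.maj.meas Rᶜ (m := k / s ^ (3 * R.card)) (by positivity)
      (by rwa [compl_compl]) ζ) (h1 g)
  refine h2.trans (le_of_eq ?_)
  simp only [mul_assoc _ (w _), ← Finset.mul_sum]
  ring

theorem r2 {b : Fin (q + 1)} {R : Finset (Fin (q + 1))} (hb : b ∉ R) (hR : R.card = 2) {θ : ℝ}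
    (hθ : 0 < θ) (hθs : θ ≤ s) : L.Bil (fun α => √(L.lam (α b)) * L.resK (coef fr.e F) α) R
      (L.wtH R (72 * cT * c₁ ^ 2 * k ^ 2 * θ / s ^ (3 * (q + 1) + 3))
        (72 * cT * c₁ ^ 2 * k ^ 2 / (θ * s ^ (3 * (q + 1) + 3)))) := by
  have hs : 0 < s := one_pos.trans_le h.hs
  have hΛ : 0 < Λ := one_pos.trans_le h.hΛ
  have hk := h.src.κ_nonneg
  have hcT : 0 ≤ cT := zero_le_one.trans h.hcT
  have hne : R.Nonempty := Finset.card_pos.1 (by omega)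
  have hc : 3 * (q + 1) + 3 = 3 * R.card + (3 * Rᶜ.card + 3) := by
    have := Finset.card_add_card_compl R
    rw [Fintype.card_fin] at this
    omega
  refine h.side hb hne (by positivity) (fun a => ?_)
    (fun g => h.t2 R g hR.ge θ hθ hθs) fun a ha => ?_
  · have : 0 ≤ ∑ j ∈ R, fr.lt (a j) := Finset.sum_nonneg fun j _ => fr.lt_nonneg _
    positivity
  · obtain ⟨c, hc'⟩ := hne
    obtain ⟨k1, k2⟩ := NSrc_sum_ge hΛ.le (fun a ha => (h.hl a ha).1) ha hc'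
    obtain ⟨k3, k4⟩ := NSrc_lt h.hl ha
    have k5 : 0 < ∑ j ∈ R, L.lam (a j) := hΛ.trans_le (k1.trans k2)
    have k6 := NSrc_wt k3 k5.le h.hc hθ k4
    rw [div_le_iff₀ k5, hc, pow_add s (3 * R.card)]
    generalize ∑ j ∈ R, L.lam (a j) = x at k5 k6
    calc _ ≤ k / s ^ (3 * R.card) * (cT * k / s ^ (3 * Rᶜ.card + 3)) *
          (c₁ ^ 2 * (θ * x + x ^ 2 / θ)) := mul_le_mul_of_nonneg_left k6 (by positivity)
      _ = 1 * (k / s ^ (3 * R.card) * (cT * k / s ^ (3 * Rᶜ.card + 3)) *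
          (c₁ ^ 2 * (θ * x + x ^ 2 / θ))) := (one_mul _).symm
      _ ≤ 72 * (k / s ^ (3 * R.card) * (cT * k / s ^ (3 * Rᶜ.card + 3)) *
          (c₁ ^ 2 * (θ * x + x ^ 2 / θ))) :=
          mul_le_mul_of_nonneg_right (by norm_num) (by positivity)
      _ = _ := by field_simp

theorem r3 {b : Fin (q + 1)} {R : Finset (Fin (q + 1))} (hb : b ∉ R) (hR : R.card = 3) :
    L.Bil (fun α => √(L.lam (α b)) * L.resK (coef fr.e F) α) R
      (L.wtH R 0 (72 * cT * c₁ ^ 2 * k ^ 2 / s ^ (3 * (q + 1) + 4))) := by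
  have hs : 0 < s := one_pos.trans_le h.hs
  have hΛ : 0 < Λ := one_pos.trans_le h.hΛ
  have hk := h.src.κ_nonneg
  have hcT : 0 ≤ cT := zero_le_one.trans h.hcT
  have hc1 : 0 ≤ c₁ := zero_le_one.trans h.hc
  have hne : R.Nonempty := Finset.card_pos.1 (by omega)
  have hc : 3 * (q + 1) + 4 = 3 * R.card + (3 * Rᶜ.card + 4) := by
    have := Finset.card_add_card_compl R
    rw [Fintype.card_fin] at this
    omega
  refine h.side hb hne (by positivity) (fun a => sq_nonneg _)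
    (fun g => h.t3 R g hR.ge) fun a ha => ?_
  · obtain ⟨c, hc'⟩ := hne
    obtain ⟨k1, k2⟩ := NSrc_sum_ge hΛ.le (fun a ha => (h.hl a ha).1) ha hc'
    obtain ⟨k3, k4⟩ := NSrc_lt h.hl ha
    have k5 : 0 < ∑ j ∈ R, L.lam (a j) := hΛ.trans_le (k1.trans k2)
    have k6 := pow_le_pow_left₀ k3 k4 2
    rw [div_le_iff₀ k5, hc, pow_add s (3 * R.card)]
    generalize ∑ j ∈ R, L.lam (a j) = x at k5 k6
    calc _ ≤ k / s ^ (3 * R.card) * (cT * k / s ^ (3 * Rᶜ.card + 4)) * (c₁ * x) ^ 2 :=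
          mul_le_mul_of_nonneg_left k6 (by positivity)
      _ = 1 * (k / s ^ (3 * R.card) * (cT * k / s ^ (3 * Rᶜ.card + 4)) * (c₁ * x) ^ 2) :=
          (one_mul _).symm
      _ ≤ 72 * (k / s ^ (3 * R.card) * (cT * k / s ^ (3 * Rᶜ.card + 4)) * (c₁ * x) ^ 2) :=
          mul_le_mul_of_nonneg_right (by norm_num) (by positivity)
      _ = _ := by ring

end NSrc_Hyp

theorem src_bounds : ∃ cS : ℝ, 1 ≤ cS ∧ ∀ {I : Type} [Fintype I] [DecidableEq I] (L : Lv I)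
    (fr : Frame I) (q : ℕ) (c₁ Λ s κ ϱ : ℝ) (F : (Fin (q + 1) → R3) → ℝ)
    (Φ : (Fin (q + 1) → R3) → ℝ≥0∞), 1 ≤ q → q ≤ 3 → 1 ≤ c₁ → 1 ≤ Λ → 1 ≤ s →
    (∀ a, a ∉ L.low → Λ ≤ L.lam a ∧ fr.lt a ≤ c₁ * L.lam a) → Src s F Φ κ ϱ →
    L.FamOK s Λ (L.resK (coef fr.e F)) (cS * c₁ ^ 2 * κ ^ 2 * ϱ) (cS * c₁ ^ 2 * κ ^ 2) ∧
    ∑ α, L.resK (coef fr.e F) α ^ 2 ≤ cS * c₁ ^ 2 * κ ^ 2 * ϱ / s ^ (3 * (q + 1)) := by
  obtain ⟨cT, hcT, hT⟩ := trace_bounds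
  refine ⟨72 * cT, by linarith, ?_⟩
  intro I _ _ L fr q c₁ Λ s k ϱ F Φ hq hq3 hc hΛ hs hl hF
  have hs0 : 0 < s := one_pos.trans_le hs
  have hcard : Fintype.card (Fin (q + 1)) ≤ 4 := by rw [Fintype.card_fin]; omega
  have h : NSrc_Hyp L fr q cT c₁ Λ s k ϱ F Φ := ⟨hq, hcT, hc, hΛ, hs, hl, hF,
    fun B c => (hT L fr Φ s k B c hcard hs0 hF.κ_nonneg hF.maj).1,
    fun B c => (hT L fr Φ s k B c hcard hs0 hF.κ_nonneg hF.maj).2⟩
  refine ⟨fun θ hθ hθs b R hb => ?_, h.hs0⟩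
  have hR : R.card < q + 1 := by
    have := Finset.card_lt_univ_of_notMem hb
    rwa [Fintype.card_fin] at this
  have hr : R.card = 0 ∨ R.card = 1 ∨ R.card = 2 ∨ R.card = 3 := by omega
  rcases hr with h0 | h0 | h0 | h0
  · rw [h0, Finset.card_eq_zero.1 h0]
    simpa [fx, fy] using h.r0 b
  · rw [h0]
    by_cases hq2 : q + 1 = 2
    · simpa only [fx, fy, if_pos hq2, one_ne_zero, if_false, if_true, OfNat.one_ne_ofNat] using
        h.r1' hb h0 hq2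
    · simpa only [fx, fy, if_neg hq2, one_ne_zero, if_false, if_true, OfNat.one_ne_ofNat] using
        h.r1 hb h0 (by omega)
  · rw [h0]
    simpa [fx, fy] using h.r2 hb h0 (one_pos.trans_le hθ) hθs
  · rw [h0]
    simpa [fx, fy] using h.r3 hb h0

theorem Lv.FamOK.mono {L : Lv I} {s Λ : ℝ} {p : ℕ} {T : (Fin p → I) → ℝ} {A0 A2 A0' A2' : ℝ}
    (h : L.FamOK s Λ T A0 A2) (hs : 0 < s) (hΛ : 0 < Λ) (hl : ∀ a, a ∉ L.low → 0 ≤ L.lam a)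
    (h0 : A0 ≤ A0') (h2 : A2 ≤ A2') : L.FamOK s Λ T A0' A2' := by
  intro θ hθ hθs b R hb
  have hθ0 : 0 < θ := one_pos.trans_le hθ
  refine (h θ hθ hθs b R hb).mono fun α _ => ?_
  unfold Lv.wtH
  split_ifs with hα
  · refine add_le_add ?_ (mul_le_mul_of_nonneg_right ?_
      (Finset.sum_nonneg fun j hj => hl _ (hα j hj)))
    · unfold fx
      split_ifs
      all_goals first | exact le_rfl | gcongr
    · unfold fy
      split_ifs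
      all_goals first | exact le_rfl | gcongr
  · exact le_rfl

end Pool.Agent.Lib.MP_8fe63c_mp
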