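import Pool.Agent.Lib.MP_8fe63c_mp.PDefs
import Pool.Agent.Lib.MP_8fe63c_mp.ABas

/-!
Finite sums: comparison of `F / (total eigenvalue)` with an approximate solution `Ω`.

Sketch. Write `a = L.tot α`, `p = card κ`, `E = (∑ ν) Ω - F`, so `a Ω - F = E - p μ Ω`. `res_le`: test `Resid` with
`c = 1_high E / a`. `low_energy_le`: test with `c = 1_(not high) Ω`; if `X` is the left side then
`X ≤ √(A B) + p A + √(R2 X)`. `gam_bil`: on high modes
`F F'/a = (a Ω - F)(a Ω' - F')/a + Ω F' + Ω' F - a Ω Ω'`. Everything else is Cauchy-Schwarz.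
-/

set_option linter.unusedSectionVars false

open MeasureTheory Set Filter Topology
open scoped ENNReal InnerProductSpace

namespace Pool.Agent.Lib.MP_8fe63c_mp

variable {I κ ι : Type} [Fintype I] [DecidableEq I] [Fintype κ] [DecidableEq κ]
  [Fintype ι] [DecidableEq ι]


variable (L : Lv I)

theorem RGam_cs {X : Type} [Fintype X] {r f g : X → ℝ} (hf : ∀ i, 0 ≤ f i) (hg : ∀ i, 0 ≤ g i)
    (h : ∀ i, r i ^ 2 ≤ f i * g i) : |∑ i, r i| ≤ √((∑ i, f i) * ∑ i, g i) :=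
  Real.abs_le_sqrt (Finset.sum_sq_le_sum_mul_sum_of_sq_le_mul _ (fun i _ => hf i)
    (fun i _ => hg i) fun i _ => h i)

theorem RGam_cs' {X : Type} [Fintype X] {r f g : X → ℝ} {ε : ℝ} (hε : 0 ≤ ε) (hf : ∀ i, 0 ≤ f i)
    (hg : ∀ i, 0 ≤ g i) (h : ∀ i, r i ^ 2 ≤ f i * g i) (h' : (∑ i, f i) * ∑ i, g i ≤ ε ^ 2) :
    |∑ i, r i| ≤ ε :=
  (RGam_cs hf hg h).trans (Real.sqrt_le_iff.2 ⟨hε, h'⟩)

theorem RGam_mul_le {a b ε : ℝ} (hb : 0 ≤ b) (hε : 0 ≤ ε) (h : a ≤ ε) (h' : b ≤ ε) :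
    a * b ≤ ε ^ 2 := by
  rw [sq]
  exact mul_le_mul h h' hb hε

theorem RGam_le {X C : ℝ} (hC : 0 ≤ C) (h : X ^ 2 ≤ C * X) : X ≤ C := by
  by_contra h'
  nlinarith [not_le.1 h']

theorem Lv.RGam_hi {α : κ → I} (h : L.Hi α) (F : (κ → I) → ℝ) : L.resK F α = F α / L.tot α :=
  if_pos h

theorem Lv.RGam_lo {α : κ → I} (h : ¬L.Hi α) (F : (κ → I) → ℝ) : L.resK F α = 0 := if_neg h

theorem Lv.RGam_eq (F : (κ → I) → ℝ) (α : κ → I) :
    L.resK F α * F α = L.tot α * L.resK F α ^ 2 := by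
  by_cases h : L.Hi α
  · rw [L.RGam_hi h]
    by_cases h0 : L.tot α = 0
    · simp [h0]
    · field_simp
  · simp [L.RGam_lo h]

theorem Lv.RGam_nn (hl : ∀ a, a ∉ L.low → 0 ≤ L.lam a) {α : κ → I} (h : L.Hi α) : 0 ≤ L.tot α :=
  Finset.sum_nonneg fun j _ => hl _ (h j)

theorem Lv.RGam_pos [Nonempty κ] (hl : ∀ a, a ∉ L.low → 0 < L.lam a) {α : κ → I} (h : L.Hi α) :
    0 < L.tot α :=
  Finset.sum_pos (fun j _ => hl _ (h j)) Finset.univ_nonempty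

theorem Lv.RGam_one [Nonempty κ] (hl : ∀ a, a ∉ L.low → 1 ≤ L.lam a) {α : κ → I} (h : L.Hi α) :
    1 ≤ L.tot α := by
  obtain ⟨j⟩ := ‹Nonempty κ›
  exact (hl _ (h j)).trans (Finset.single_le_sum (f := fun j => L.lam (α j))
    (fun j _ => zero_le_one.trans (hl _ (h j))) (Finset.mem_univ j))

theorem Lv.RGam_mul [Nonempty κ] (hl : ∀ a, a ∉ L.low → 0 < L.lam a) {α : κ → I} (h : L.Hi α)
    (F : (κ → I) → ℝ) : F α = L.tot α * L.resK F α := by
  rw [L.RGam_hi h, mul_div_cancel₀ _ (L.RGam_pos hl h).ne']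

theorem Lv.RGam_term (hl : ∀ a, a ∉ L.low → 0 ≤ L.lam a) (F : (κ → I) → ℝ) (α : κ → I) :
    0 ≤ L.resK F α * F α := by
  by_cases h : L.Hi α
  · rw [L.RGam_eq]
    exact mul_nonneg (L.RGam_nn hl h) (sq_nonneg _)
  · simp [L.RGam_lo h]

theorem Lv.RGam_rterm (hl : ∀ a, a ∉ L.low → 0 ≤ L.lam a) (Ω F : (κ → I) → ℝ) (α : κ → I) :
    0 ≤ if L.Hi α then L.tot α * (Ω α - L.resK F α) ^ 2 else 0 := by
  split_ifs with h
  · exact mul_nonneg (L.RGam_nn hl h) (sq_nonneg _)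
  · exact le_rfl

theorem Lv.RGam_lterm (T : (κ → I) → ℝ) (α : κ → I) : 0 ≤ if L.Hi α then 0 else T α ^ 2 := by
  split_ifs with h
  · exact le_rfl
  · exact sq_nonneg _

theorem Lv.RGam_sub (F F' : (κ → I) → ℝ) (α : κ → I) :
    L.resK (fun α => F α - F' α) α = L.resK F α - L.resK F' α := by
  by_cases h : L.Hi α
  · simp only [L.RGam_hi h, sub_div]
  · simp [L.RGam_lo h]

theorem Lv.RGam_nu {ν : I → ℝ} {μ : ℝ} (hν : ∀ a, L.lam a = ν a - μ) (α : κ → I) :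
    ∑ j, ν (α j) = L.tot α + Fintype.card κ * μ := by
  simp [Lv.tot, hν]

theorem Lv.RGam_low (Ω F : (κ → I) → ℝ) :
    |∑ α, if L.Hi α then 0 else Ω α * F α| ≤ √(L.lowM Ω * L.lowM F) := by
  refine RGam_cs (L.RGam_lterm Ω) (L.RGam_lterm F) fun α => ?_
  split_ifs
  · simp
  · exact (mul_pow _ _ _).le

theorem Lv.gam_eq (hl : ∀ a, a ∉ L.low → 0 < L.lam a) [Nonempty κ] (F : (κ → I) → ℝ) :
    ∑ α, L.resK F α * F α = ∑ α, L.tot α * L.resK F α ^ 2 :=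
  Finset.sum_congr rfl fun α _ => L.RGam_eq F α

theorem Lv.gam_nonneg (hl : ∀ a, a ∉ L.low → 0 ≤ L.lam a) (F : (κ → I) → ℝ) :
    0 ≤ ∑ α, L.resK F α * F α := Finset.sum_nonneg fun α _ => L.RGam_term hl F α

theorem Lv.res_nonneg (hl : ∀ a, a ∉ L.low → 0 ≤ L.lam a) (Ω F : (κ → I) → ℝ) :
    0 ≤ L.res Ω F := Finset.sum_nonneg fun α _ => L.RGam_rterm hl Ω F α

theorem Lv.lowM_nonneg (T : (κ → I) → ℝ) : 0 ≤ L.lowM T :=
  Finset.sum_nonneg fun α _ => L.RGam_lterm T α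

/-- the trial kernel `-t 1_high Ω` -/
theorem Lv.res_eq (Ω F : (κ → I) → ℝ) (t : ℝ) :
    ∑ α, (∑ j, L.lam (α j)) * ((if L.Hi α then -(t * Ω α) else 0) + t * L.resK F α) ^ 2 =
      t ^ 2 * L.res Ω F := by
  rw [Lv.res, Finset.mul_sum]
  refine Finset.sum_congr rfl fun α _ => ?_
  split_ifs with h
  · rw [Lv.tot]
    ring
  · simp [L.RGam_lo h]

theorem Lv.res_le [Nonempty κ] {ν lt : I → ℝ} {μ c₂ R2 : ℝ} {Ω F : (κ → I) → ℝ}
    (hν : ∀ a, L.lam a = ν a - μ) (hh : ∀ a, a ∉ L.low → 1 ≤ L.lam a ∧ lt a + 1 ≤ c₂ * L.lam a)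
    (hc : 0 ≤ c₂) (hR : 0 ≤ R2) (h : Resid ν lt Ω F R2) :
    L.res Ω F ≤ 2 * c₂ * R2 + 2 * (Fintype.card κ * μ) ^ 2 * ∑ α, Ω α ^ 2 := by
  set E : (κ → I) → ℝ := fun α => (∑ j, ν (α j)) * Ω α - F α with hE
  have h1 : ∀ a, a ∉ L.low → 1 ≤ L.lam a := fun a ha => (hh a ha).1
  have h2 : ∀ a, a ∉ L.low → 0 < L.lam a := fun a ha => one_pos.trans_le (h1 a ha)
  have h3 : ∑ α, L.resK E α * E α ≤ R2 * c₂ := by
    refine RGam_le (mul_nonneg hR hc) ?_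
    have h4 := h (L.resK E)
    simp only [mul_comm (L.resK E _)]
    refine h4.trans ?_
    rw [mul_assoc, Finset.mul_sum _ _ c₂]
    refine mul_le_mul_of_nonneg_left (Finset.sum_le_sum fun α _ => ?_) hR
    rw [mul_comm (E α), L.RGam_eq, ← mul_assoc]
    by_cases hα : L.Hi α
    · refine mul_le_mul_of_nonneg_right ?_ (sq_nonneg _)
      rw [Lv.tot, Finset.mul_sum]
      exact Finset.sum_le_sum fun j _ => (hh _ (hα j)).2
    · simp [L.RGam_lo hα]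
  have h5 : L.res Ω F ≤
      ∑ α, (2 * (L.resK E α * E α) + 2 * (Fintype.card κ * μ) ^ 2 * Ω α ^ 2) := by
    refine Finset.sum_le_sum fun α _ => ?_
    split_ifs with hα
    · have ha := L.RGam_one h1 hα
      have ha0 := L.RGam_pos h2 hα
      set m := Fintype.card κ * μ * Ω α / L.tot α with hm
      have e1 : Ω α - L.resK F α = L.resK E α - m := by
        rw [L.RGam_hi hα, L.RGam_hi hα, hm, hE]
        simp only [L.RGam_nu hν]
        field_simp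
        ring
      have e2 : (Fintype.card κ * μ) ^ 2 * Ω α ^ 2 = (L.tot α * m) ^ 2 := by
        rw [hm]
        field_simp
      rw [e1, L.RGam_eq, mul_assoc, e2]
      have e3 : L.tot α * m ^ 2 ≤ (L.tot α * m) ^ 2 := by
        rw [mul_pow]
        exact mul_le_mul_of_nonneg_right (by nlinarith) (sq_nonneg _)
      nlinarith [mul_nonneg ha0.le (sq_nonneg (L.resK E α + m))]
    · have := L.RGam_term (fun a ha => (h2 a ha).le) E α
      positivity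
  rw [Finset.sum_add_distrib, ← Finset.mul_sum, ← Finset.mul_sum] at h5
  linarith

theorem Lv.resK_sq_le [Nonempty κ] (hh : ∀ a, a ∉ L.low → 1 ≤ L.lam a) (Ω F : (κ → I) → ℝ) :
    ∑ α, L.resK F α ^ 2 ≤ 2 * ∑ α, Ω α ^ 2 + 2 * L.res Ω F := by
  rw [Lv.res, Finset.mul_sum, Finset.mul_sum, ← Finset.sum_add_distrib]
  refine Finset.sum_le_sum fun α _ => ?_
  split_ifs with hα
  · have ha := mul_le_mul_of_nonneg_right (L.RGam_one hh hα) (sq_nonneg (Ω α - L.resK F α))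
    nlinarith [sq_nonneg (2 * Ω α - L.resK F α)]
  · rw [L.RGam_lo hα]
    nlinarith [sq_nonneg (Ω α)]

theorem Lv.low_energy_le {ν : I → ℝ} {R2 : ℝ} {Ω F : (κ → I) → ℝ} (h0 : ∀ a, 0 ≤ ν a)
    (hR : 0 ≤ R2) (h : Resid ν ν Ω F R2) :
    ∑ α, (if L.Hi α then 0 else (∑ j, (ν (α j) + 1)) * Ω α ^ 2) ≤
      2 * √(L.lowM Ω * L.lowM F) + 2 * Fintype.card κ * L.lowM Ω + R2 := by
  have h1 := h fun α => if L.Hi α then 0 else Ω α
  set X := ∑ α, (if L.Hi α then 0 else (∑ j, (ν (α j) + 1)) * Ω α ^ 2) with hX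
  have hX0 : 0 ≤ X := Finset.sum_nonneg fun α _ => by
    split_ifs
    · exact le_rfl
    · exact mul_nonneg (Finset.sum_nonneg fun j _ => by linarith [h0 (α j)]) (sq_nonneg _)
  have e1 : ∑ α, (∑ j, (ν (α j) + 1)) * (if L.Hi α then 0 else Ω α) ^ 2 = X := by
    refine Finset.sum_congr rfl fun α _ => ?_
    split_ifs <;> simp
  have e2 : ∑ α, ((∑ j, ν (α j)) * Ω α - F α) * (if L.Hi α then 0 else Ω α) =
      X - Fintype.card κ * L.lowM Ω - ∑ α, if L.Hi α then 0 else Ω α * F α := by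
    rw [hX, Lv.lowM, Finset.mul_sum, ← Finset.sum_sub_distrib, ← Finset.sum_sub_distrib]
    refine Finset.sum_congr rfl fun α _ => ?_
    split_ifs
    · simp
    · rw [Finset.sum_add_distrib, Finset.sum_const, Finset.card_univ, nsmul_eq_mul]
      ring
  rw [e1, e2] at h1
  have h2 := (abs_le.1 (L.RGam_low Ω F)).2
  have h3 := (abs_le_of_sq_le_sq' (h1.trans (by nlinarith [sq_nonneg (R2 - X)] :
    R2 * X ≤ ((R2 + X) / 2) ^ 2)) (by positivity)).2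
  linarith

theorem Lv.gam_bil [Nonempty κ] {ν : I → ℝ} {μ ε : ℝ} {Ω F Ω' F' : (κ → I) → ℝ}
    (hν : ∀ a, L.lam a = ν a - μ) (hμ : 0 ≤ μ) (h0 : ∀ a, 0 ≤ ν a)
    (hh : ∀ a, a ∉ L.low → 0 < L.lam a) (hε : 0 ≤ ε) (r : L.res Ω F ≤ ε) (r' : L.res Ω' F' ≤ ε)
    (n : ∑ α, Ω α ^ 2 ≤ ε) (n' : ∑ α, Ω' α ^ 2 ≤ ε) (l : L.lowM Ω * L.lowM F' ≤ ε ^ 2)
    (l' : L.lowM Ω' * L.lowM F ≤ ε ^ 2)
    (x : ∑ α, (if L.Hi α then 0 else (∑ j, (ν (α j) + 1)) * Ω α ^ 2) ≤ ε)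
    (x' : ∑ α, (if L.Hi α then 0 else (∑ j, (ν (α j) + 1)) * Ω' α ^ 2) ≤ ε) :
    |(∑ α, L.resK F α * F' α) -
      ∑ α, (Ω α * F' α + Ω' α * F α - (∑ j, ν (α j)) * Ω α * Ω' α)| ≤
      (4 + Fintype.card κ * μ) * ε := by
  have hh' : ∀ a, a ∉ L.low → 0 ≤ L.lam a := fun a ha => (hh a ha).le
  have hn : ∀ α : κ → I, 0 ≤ ∑ j, ν (α j) := fun α => Finset.sum_nonneg fun j _ => h0 _
  have hn' : ∀ α : κ → I, ∑ j, ν (α j) ≤ ∑ j, (ν (α j) + 1) := fun α =>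
    Finset.sum_le_sum fun j _ => by linarith
  have hx : ∀ (T : (κ → I) → ℝ) (α : κ → I),
      0 ≤ if L.Hi α then 0 else (∑ j, (ν (α j) + 1)) * T α ^ 2 := fun T α => by
    split_ifs
    · exact le_rfl
    · exact mul_nonneg ((hn α).trans (hn' α)) (sq_nonneg _)
  have t1 : |∑ α, if L.Hi α then L.tot α * (Ω α - L.resK F α) * (Ω' α - L.resK F' α) else 0| ≤ ε := by
    refine RGam_cs' hε (L.RGam_rterm hh' Ω F) (L.RGam_rterm hh' Ω' F') (fun α => ?_)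
      (RGam_mul_le (L.res_nonneg hh' _ _) hε r r')
    split_ifs
    · exact le_of_eq (by ring)
    · simp
  have t2 : |∑ α, if L.Hi α then Ω α * Ω' α else 0| ≤ ε := by
    refine RGam_cs' hε (fun α => sq_nonneg (Ω α)) (fun α => sq_nonneg (Ω' α)) (fun α => ?_)
      (RGam_mul_le (Finset.sum_nonneg fun α _ => sq_nonneg _) hε n n')
    split_ifs
    · exact (mul_pow _ _ _).le
    · rw [sq, zero_mul]
      positivity
  have t3 := (L.RGam_low Ω F').trans (Real.sqrt_le_iff.2 ⟨hε, l⟩)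
  have t4 := (L.RGam_low Ω' F).trans (Real.sqrt_le_iff.2 ⟨hε, l'⟩)
  have t5 : |∑ α, if L.Hi α then 0 else (∑ j, ν (α j)) * Ω α * Ω' α| ≤ ε := by
    refine RGam_cs' hε (hx Ω) (hx Ω') (fun α => ?_)
      (RGam_mul_le (Finset.sum_nonneg fun α _ => hx Ω' α) hε x x')
    split_ifs
    · simp
    · have := mul_le_mul_of_nonneg_right (pow_le_pow_left₀ (hn α) (hn' α) 2)
        (sq_nonneg (Ω α * Ω' α))
      nlinarith
  have e : (∑ α, L.resK F α * F' α) -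
      ∑ α, (Ω α * F' α + Ω' α * F α - (∑ j, ν (α j)) * Ω α * Ω' α) =
      (∑ α, if L.Hi α then L.tot α * (Ω α - L.resK F α) * (Ω' α - L.resK F' α) else 0) +
        Fintype.card κ * μ * (∑ α, if L.Hi α then Ω α * Ω' α else 0) -
        (∑ α, if L.Hi α then 0 else Ω α * F' α) - (∑ α, if L.Hi α then 0 else Ω' α * F α) +
        ∑ α, if L.Hi α then 0 else (∑ j, ν (α j)) * Ω α * Ω' α := by
    rw [Finset.mul_sum]
    simp only [← Finset.sum_sub_distrib, ← Finset.sum_add_distrib]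
    refine Finset.sum_congr rfl fun α _ => ?_
    split_ifs with hα
    · have e1 := L.RGam_mul hh hα F
      have e2 := L.RGam_mul hh hα F'
      rw [L.RGam_nu hν]
      generalize L.resK F α = u at *
      generalize L.resK F' α = u' at *
      rw [e1, e2]
      ring
    · rw [L.RGam_lo hα]
      ring
  have hp : 0 ≤ Fintype.card κ * μ := by positivity
  have u1 := mul_le_mul_of_nonneg_left (abs_le.1 t2).1 hp
  have u2 := mul_le_mul_of_nonneg_left (abs_le.1 t2).2 hp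
  have := abs_le.1 t1
  have := abs_le.1 t3
  have := abs_le.1 t4
  have := abs_le.1 t5
  rw [e, abs_le]
  constructor <;> linarith

theorem Lv.gam_cross [Nonempty κ] (hh : ∀ a, a ∉ L.low → 0 < L.lam a) (Ω F F' : (κ → I) → ℝ) :
    |(∑ α, L.resK F α * F' α) - ∑ α, Ω α * F' α| ≤
      √(L.res Ω F * ∑ α, L.resK F' α * F' α) + √(L.lowM Ω * L.lowM F') := by
  have hh' : ∀ a, a ∉ L.low → 0 ≤ L.lam a := fun a ha => (hh a ha).le
  have t1 : |∑ α, if L.Hi α then (L.resK F α - Ω α) * F' α else 0| ≤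
      √(L.res Ω F * ∑ α, L.resK F' α * F' α) := by
    refine RGam_cs (L.RGam_rterm hh' Ω F) (L.RGam_term hh' F') fun α => ?_
    split_ifs with hα
    · have e2 := L.RGam_mul hh hα F'
      generalize L.resK F' α = u' at *
      rw [e2]
      exact le_of_eq (by ring)
    · simp
  have t2 := L.RGam_low Ω F'
  have e : (∑ α, L.resK F α * F' α) - ∑ α, Ω α * F' α =
      (∑ α, if L.Hi α then (L.resK F α - Ω α) * F' α else 0) -
        ∑ α, if L.Hi α then 0 else Ω α * F' α := by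
    simp only [← Finset.sum_sub_distrib]
    refine Finset.sum_congr rfl fun α _ => ?_
    split_ifs with hα
    · ring
    · rw [L.RGam_lo hα]
      ring
  rw [e]
  exact (abs_sub _ _).trans (add_le_add t1 t2)

theorem Lv.gam_pert (hh : ∀ a, a ∉ L.low → 0 ≤ L.lam a) (F F' : (κ → I) → ℝ) {d : ℝ}
    (hd : ∑ α, L.resK (fun α => F α - F' α) α * (F α - F' α) ≤ d) :
    |(∑ α, L.resK F α * F α) - ∑ α, L.resK F' α * F' α| ≤
      2 * √((∑ α, L.resK F' α * F' α) * d) + d := by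
  set G : (κ → I) → ℝ := fun α => F α - F' α with hG
  have h0 := L.gam_nonneg hh G
  have t1 : |∑ α, L.resK F' α * G α| ≤
      √((∑ α, L.resK F' α * F' α) * ∑ α, L.resK G α * G α) := by
    refine RGam_cs (L.RGam_term hh F') (L.RGam_term hh G) fun α => ?_
    by_cases hα : L.Hi α
    · rw [L.RGam_hi hα, L.RGam_hi hα]
      exact le_of_eq (by ring)
    · simp [L.RGam_lo hα]
  have t2 := abs_le.1 (t1.trans (Real.sqrt_le_sqrt
    (mul_le_mul_of_nonneg_left hd (L.gam_nonneg hh F'))))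
  have e : (∑ α, L.resK F α * F α) - ∑ α, L.resK F' α * F' α =
      2 * (∑ α, L.resK F' α * G α) + ∑ α, L.resK G α * G α := by
    rw [Finset.mul_sum]
    simp only [← Finset.sum_sub_distrib, ← Finset.sum_add_distrib]
    refine Finset.sum_congr rfl fun α _ => ?_
    by_cases hα : L.Hi α
    · simp only [L.RGam_hi hα, hG]
      ring
    · simp [L.RGam_lo hα]
  have hd' : ∑ α, L.resK G α * G α ≤ d := hd
  rw [e, abs_le]
  constructor <;> linarith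

theorem Lv.res_pert [Nonempty κ] (hh : ∀ a, a ∉ L.low → 0 < L.lam a) (Ω F F' : (κ → I) → ℝ) :
    L.res Ω F ≤ 2 * L.res Ω F' + 2 * ∑ α, L.resK (fun α => F α - F' α) α * (F α - F' α) := by
  rw [Lv.res, Lv.res, Finset.mul_sum, Finset.mul_sum, ← Finset.sum_add_distrib]
  refine Finset.sum_le_sum fun α _ => ?_
  have e := L.RGam_eq (fun α => F α - F' α) α
  rw [e, L.RGam_sub]
  split_ifs with hα
  · nlinarith [mul_nonneg (L.RGam_pos hh hα).le
      (sq_nonneg (Ω α - L.resK F' α + (L.resK F α - L.resK F' α)))]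
  · simp [L.RGam_lo hα]

theorem Lv.gam_le_of_dual [Nonempty κ] {lt : I → ℝ} {c₁ δ : ℝ} {T : (κ → I) → ℝ}
    (hh : ∀ a, a ∉ L.low → 0 < L.lam a ∧ lt a ≤ c₁ * L.lam a) (hc : 0 ≤ c₁) (hδ : 0 ≤ δ)
    (h : ∀ c : (κ → I) → ℝ, (∑ α, T α * c α) ^ 2 ≤ δ * ∑ α, (∑ j, lt (α j)) * c α ^ 2) :
    ∑ α, L.resK T α * T α ≤ c₁ * δ := by
  refine RGam_le (mul_nonneg hc hδ) ?_
  have h4 := h (L.resK T)
  simp only [mul_comm (L.resK T _)]
  refine h4.trans ?_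
  rw [mul_comm c₁, mul_assoc, Finset.mul_sum _ _ c₁]
  refine mul_le_mul_of_nonneg_left (Finset.sum_le_sum fun α _ => ?_) hδ
  rw [mul_comm (T α), L.RGam_eq, ← mul_assoc]
  by_cases hα : L.Hi α
  · refine mul_le_mul_of_nonneg_right ?_ (sq_nonneg _)
    rw [Lv.tot, Finset.mul_sum]
    exact Finset.sum_le_sum fun j _ => (hh _ (hα j)).2
  · simp [L.RGam_lo hα]

theorem Lv.gam_le [Nonempty κ] (h0 : ∀ a, 0 ≤ L.lam a) (hh : ∀ a, a ∉ L.low → 0 < L.lam a)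
    (Ω F : (κ → I) → ℝ) {δ : ℝ} (hδ : 0 < δ) :
    ∑ α, L.resK F α * F α ≤ (1 + δ) * ∑ α, L.tot α * Ω α ^ 2 + (1 + 1 / δ) * L.res Ω F := by
  rw [Lv.res, Finset.mul_sum, Finset.mul_sum, ← Finset.sum_add_distrib]
  refine Finset.sum_le_sum fun α _ => ?_
  have ha : 0 ≤ L.tot α := Finset.sum_nonneg fun j _ => h0 _
  rw [L.RGam_eq]
  split_ifs with hα
  · have h1 : L.resK F α ^ 2 ≤ (1 + δ) * Ω α ^ 2 + (1 + 1 / δ) * (Ω α - L.resK F α) ^ 2 := by
      have h2 : 0 ≤ (δ * Ω α + (Ω α - L.resK F α)) ^ 2 / δ := by positivity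
      have h3 : (δ * Ω α + (Ω α - L.resK F α)) ^ 2 / δ =
          (1 + δ) * Ω α ^ 2 + (1 + 1 / δ) * (Ω α - L.resK F α) ^ 2 - L.resK F α ^ 2 := by
        field_simp
        ring
      linarith
    have := mul_le_mul_of_nonneg_left h1 ha
    linarith
  · rw [L.RGam_lo hα, sq, mul_zero, mul_zero, mul_zero, add_zero]
    positivity

theorem Lv.gam_le_fam {s Λ A0 A2 : ℝ} {p : ℕ} (hp : 1 ≤ p) {F : (Fin p → I) → ℝ}
    (h0 : ∀ a, 0 ≤ L.lam a) (hh : ∀ a, a ∉ L.low → 0 < L.lam a) (hs : 1 ≤ s) (hA : 0 ≤ A0)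
    (h : L.FamOK s Λ (L.resK F) A0 A2) :
    ∑ α, L.resK F α * F α ≤ p * (A0 / s ^ (3 * p - 1)) := by
  have e : fx s Λ 1 A0 A2 p 0 = A0 / s ^ (3 * p - 1) := if_pos rfl
  have h1 := Lv.FamB.hs (h 1 le_rfl hs) h0 (by
    rw [e]
    positivity)
  rw [e, Fintype.card_fin] at h1
  exact (Finset.sum_congr rfl fun α _ => L.RGam_eq F α).trans_le h1

/-- dual form of a sum of squares -/
theorem sum_sq_le_of_dual {X : Type} [Fintype X] {T : X → ℝ} {δ : ℝ} (hδ : 0 ≤ δ)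
    (h : ∀ c : X → ℝ, (∑ a, T a * c a) ^ 2 ≤ δ * ∑ a, c a ^ 2) : ∑ a, T a ^ 2 ≤ δ := by
  refine RGam_le hδ ?_
  simpa only [sq] using h T

end Pool.Agent.Lib.MP_8fe63c_mp
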