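import Pool.Agent.Lib.MP_8fe63c_mp.BId
import Pool.Agent.Lib.MP_8fe63c_mp.NSrc
import Pool.Agent.Lib.MP_8fe63c_mp.RGam

/-!
Norm bounds for the kernels of the box data.

Sketch. Let `m = (√(l^3))⁻¹`, `m^2 = 1/l^3`, `c₁ = 2 + 24 κ^2`, `C₁ = cS c₁^2 K^2`. By `F3_eq`,
`FA oo = coef fr.e src` and `FB oo oo α = coef fr.e src (Fin.snoc α o) = coef fr.e (red src (fr.e o)) α`
(`Fin.append_right_eq_snoc` or extensionality, `coef_snoc`, `Src.memLp`). `src_bounds` for `src_src`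
(`q = 2`, amplitude `m^3 s^2 K`) and for `Src.red` (`q = 1`, amplitude `m^4 K / s`), at `θ = 1`; for `p = 2` only
`card R ≤ 1` occurs in `FamB`, where `fy` vanishes. `l1`: reduce twice (`q = 0`, amplitude `m^5 K / s^4`) and use
`Src.hs`; `∑ a, f ![a] = ∑ α : Fin 1 → I, f α`. `B0`: `F3_oo`, `y3_sq`, `int_le`, `f_bdd`, and
`0 ≤ GA ≤ 3 A0 / s^8` (`Lv.gam_nonneg`, `Lv.gam_le_fam`). Use `Lv.FamOK.mono` to enlarge the constant.
-/

set_option linter.unusedSectionVars false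

open MeasureTheory Set Filter Topology
open scoped ENNReal InnerProductSpace

namespace Pool.Agent.Lib.MP_8fe63c_mp

variable {ι : Type} [Fintype ι] [DecidableEq ι]

/-- the norm bounds -/
structure BxN {I E : Type} [Fintype I] [DecidableEq I] [NormedAddCommGroup E]
    [InnerProductSpace ℝ E] (D : Dat I E) (s l C : ℝ) : Prop where
  fA : D.FamB (D.resK (D.FA (D.oo 3)))
    (fx s (1 / (12 * l ^ 2)) 1 (C * s ^ 4 / l ^ 6) (C * s ^ 4 / l ^ 9) 3)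
    (fy s 1 (C * s ^ 4 / l ^ 9) 3)
  fB : D.FamB (D.resK (D.FB (D.oo 1) (D.oo 3)))
    (fx s (1 / (12 * l ^ 2)) 1 (C / (l ^ 9 * s ^ 2)) (C / (l ^ 12 * s ^ 2)) 2) fun _ => 0
  uA : ∑ α, D.resK (D.FA (D.oo 3)) α ^ 2 ≤ C / (l ^ 6 * s ^ 5)
  uB : ∑ α, D.resK (D.FB (D.oo 1) (D.oo 3)) α ^ 2 ≤ C / (l ^ 9 * s ^ 8)
  l1 : ∑ a, D.F3 ![a, D.o, D.o] (D.oo 3) ^ 2 ≤ C / (l ^ 12 * s ^ 8)
  b0 : |D.B0| ≤ C / (l ^ 6 * s ^ 4)

theorem BNorm_two {I : Type} [Fintype I] [DecidableEq I] {L : Lv I} {T : (Fin 2 → I) → ℝ}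
    {x : ℕ → ℝ} {s θ A : ℝ} (h : L.FamB T x (fy s θ A 2)) : L.FamB T x fun _ => 0 := by
  intro b R hb
  have hR : R.card < 2 := by
    have := Finset.card_lt_univ_of_notMem hb
    rwa [Fintype.card_fin] at this
  have h1 := h b R hb
  have h2 : fy s θ A 2 R.card = 0 := by
    unfold fy
    rw [if_neg (by omega), if_neg (by omega)]
  rwa [h2] at h1

theorem BNorm_snoc {I : Type} (a o : I) :
    (![a, o, o] : Fin 3 → I) = Fin.snoc (Fin.snoc (fun _ : Fin 1 => a) o : Fin 2 → I) o := by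
  funext j
  fin_cases j <;> rfl

theorem BNorm_sum {I : Type} [Fintype I] [DecidableEq I] (f : (Fin 1 → I) → ℝ) :
    ∑ a, f (fun _ => a) = ∑ α, f α :=
  Fintype.sum_equiv (Equiv.funUnique (Fin 1) I).symm _ _ fun _ => rfl

theorem bx_norms {U : (Fin 3 → R3) → ℝ} (S : Micro U) {κ : ℝ} (hκ : 1 ≤ κ) :
    ∃ C : ℝ, 1 ≤ C ∧
    ∀ {c : R3} {l η : ℝ} (X : Bx c l κ η) {s M : ℝ} (hM : 0 ≤ M) (w : X.B.I M → X.B.I M → ℝ),
      1 ≤ s → BxN (X.dat U S.ω s hM w) s l C := by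
  obtain ⟨K, hK⟩ := S.exists_B
  obtain ⟨cS, hcS, hS⟩ := src_bounds
  have hK1 : 1 ≤ K := hK.n3.one_le
  have hc1 : (1 : ℝ) ≤ 2 + 24 * κ ^ 2 := by nlinarith [sq_nonneg κ]
  obtain ⟨C1, hC1⟩ : ∃ C1 : ℝ, C1 = cS * (2 + 24 * κ ^ 2) ^ 2 * K ^ 2 := ⟨_, rfl⟩
  have hC0 : 0 ≤ C1 := by rw [hC1]; positivity
  have hK2 : 0 ≤ K ^ 2 := sq_nonneg K
  obtain ⟨C, hC⟩ : ∃ C : ℝ, C = 2 * K + K ^ 2 + 3 * C1 := ⟨_, rfl⟩
  have hCC : C1 ≤ C := by linarith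
  have hCK : K ^ 2 ≤ C := by linarith
  refine ⟨C, by linarith, fun {c l η} X {s M} hM w hs => ?_⟩
  have hs0 : 0 < s := one_pos.trans_le hs
  have hl := X.l_pos
  obtain ⟨fr, hfr⟩ := X.exists_fr M
  obtain ⟨Ψ, hsrc⟩ := X.src_src hK hs0
  have hm := X.fr_o hM hfr
  have hme := fr.toFrame.meas (X.oM hM)
  have hsrc1 := hsrc.red hs0 hme hm
  have hsrc2 := hsrc1.red hs0 hme hm
  have hm2 : (√(l ^ 3))⁻¹ ^ 2 = 1 / l ^ 3 := by
    rw [inv_pow, Real.sq_sqrt (by positivity), one_div]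
  generalize (√(l ^ 3))⁻¹ = m at hsrc hsrc1 hsrc2 hm2
  have k0 : (m ^ 3 * (s ^ 2 * K)) ^ 2 = s ^ 4 * K ^ 2 / l ^ 9 := by
    calc _ = (m ^ 2) ^ 3 * (s ^ 4 * K ^ 2) := by ring
      _ = _ := by
        rw [hm2]
        field_simp
  have k1 : (m * (m ^ 3 * (s ^ 2 * K) / s ^ 3)) ^ 2 = K ^ 2 / (l ^ 12 * s ^ 2) := by
    calc _ = (m ^ 2) ^ 4 * (s ^ 2 * K / s ^ 3) ^ 2 := by ring
      _ = _ := by
        rw [hm2]
        field_simp
  have k2 : (m * (m * (m ^ 3 * (s ^ 2 * K) / s ^ 3) / s ^ 3)) ^ 2 = K ^ 2 / (l ^ 15 * s ^ 8) := by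
    calc _ = (m ^ 2) ^ 5 * (s ^ 2 * K / s ^ 3 / s ^ 3) ^ 2 := by ring
      _ = _ := by
        rw [hm2]
        field_simp
  have hΛ := X.Λ_ge
  have hΛ0 : 0 < 1 / (12 * l ^ 2) := one_pos.trans_le hΛ
  have hhi := X.lv_hi hM hfr
  have hpos : ∀ a, a ∉ (X.lv hM).low → 0 < (X.lv hM).lam a :=
    fun a ha => hΛ0.trans_le (hhi a ha).1
  obtain ⟨a1, a2⟩ := hS (X.lv hM) fr.toFrame 2 _ _ s _ _ _ _ (by norm_num) (by norm_num) hc1 hΛ hs
    hhi hsrc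
  obtain ⟨b1, b2⟩ := hS (X.lv hM) fr.toFrame 1 _ _ s _ _ _ _ (by norm_num) (by norm_num) hc1 hΛ hs
    hhi hsrc1
  have e1 : cS * (2 + 24 * κ ^ 2) ^ 2 * (m ^ 3 * (s ^ 2 * K)) ^ 2 * l ^ 3 = C1 * s ^ 4 / l ^ 6 := by
    rw [k0, hC1]
    field_simp
  have e2 : cS * (2 + 24 * κ ^ 2) ^ 2 * (m ^ 3 * (s ^ 2 * K)) ^ 2 = C1 * s ^ 4 / l ^ 9 := by
    rw [k0, hC1]
    field_simp
  have e3 : cS * (2 + 24 * κ ^ 2) ^ 2 * (m * (m ^ 3 * (s ^ 2 * K) / s ^ 3)) ^ 2 * l ^ 3 =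
      C1 / (l ^ 9 * s ^ 2) := by
    rw [k1, hC1]
    field_simp
  have e4 : cS * (2 + 24 * κ ^ 2) ^ 2 * (m * (m ^ 3 * (s ^ 2 * K) / s ^ 3)) ^ 2 =
      C1 / (l ^ 12 * s ^ 2) := by
    rw [k1, hC1]
    field_simp
  rw [e1] at a1 a2
  rw [e2] at a1
  rw [e3] at b1 b2
  rw [e4] at b1
  have fA : (X.dat U S.ω s hM w).FA ((X.dat U S.ω s hM w).oo 3) = coef fr.e (X.src U S.ω s) :=
    funext fun α => X.F3_eq S hM w hfr α _
  have fB : (X.dat U S.ω s hM w).FB ((X.dat U S.ω s hM w).oo 1) ((X.dat U S.ω s hM w).oo 3) =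
      coef fr.e (red (X.src U S.ω s) (fr.e (X.oM hM))) := by
    funext α
    unfold Dat.FB
    rw [X.F3_eq S hM w hfr, Fin.append_right_eq_snoc]
    exact coef_snoc fr.toFrame (hsrc.memLp hs0).1 α _
  refine ⟨?_, ?_, ?_, ?_, ?_, ?_⟩
  · rw [fA]
    exact a1.mono hs0 hΛ0 (fun a ha => (hpos a ha).le) (by gcongr) (by gcongr) 1 le_rfl hs
  · rw [fB]
    exact BNorm_two (b1.mono hs0 hΛ0 (fun a ha => (hpos a ha).le) (by gcongr) (by gcongr) 1 le_rfl hs)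
  · rw [fA]
    refine a2.trans ?_
    calc C1 * s ^ 4 / l ^ 6 / s ^ (3 * (2 + 1)) = C1 / (l ^ 6 * s ^ 5) := by field_simp
      _ ≤ _ := by gcongr
  · rw [fB]
    refine b2.trans ?_
    calc C1 / (l ^ 9 * s ^ 2) / s ^ (3 * (1 + 1)) = C1 / (l ^ 9 * s ^ 8) := by field_simp
      _ ≤ _ := by gcongr
  · have h1 : ∀ a, (X.dat U S.ω s hM w).F3 ![a, (X.dat U S.ω s hM w).o, (X.dat U S.ω s hM w).o]
        ((X.dat U S.ω s hM w).oo 3) = coef fr.e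
          (red (red (X.src U S.ω s) (fr.e (X.oM hM))) (fr.e (X.oM hM))) fun _ => a := by
      intro a
      rw [X.F3_eq S hM w hfr, BNorm_snoc]
      exact (coef_snoc fr.toFrame (hsrc.memLp hs0).1 _ _).trans
        (coef_snoc fr.toFrame (hsrc1.memLp hs0).1 _ _)
    simp only [h1]
    rw [BNorm_sum fun α => coef fr.e
      (red (red (X.src U S.ω s) (fr.e (X.oM hM))) (fr.e (X.oM hM))) α ^ 2]
    refine (hsrc2.hs fr.toFrame hs0).trans ?_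
    rw [k2]
    calc K ^ 2 / (l ^ 15 * s ^ 8) * l ^ 3 / s ^ (3 * 0) = K ^ 2 / (l ^ 12 * s ^ 8) := by
          rw [mul_zero, pow_zero]
          field_simp
      _ ≤ _ := by gcongr
  · have g0 : 0 ≤ (X.dat U S.ω s hM w).GA ((X.dat U S.ω s hM w).oo 3) ((X.dat U S.ω s hM w).oo 3) :=
      (X.lv hM).gam_nonneg (fun a ha => (hpos a ha).le) _
    have g1 : (X.dat U S.ω s hM w).GA ((X.dat U S.ω s hM w).oo 3) ((X.dat U S.ω s hM w).oo 3) ≤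
        3 * C1 / (l ^ 6 * s ^ 4) := by
      unfold Dat.GA
      rw [fA]
      refine ((X.lv hM).gam_le_fam (by norm_num) (fun a => X.ν_nonneg a.1) hpos hs
        (by positivity) a1).trans (le_of_eq ?_)
      push_cast
      field_simp
    have g2 : |(X.dat U S.ω s hM w).F3 ((X.dat U S.ω s hM w).oo 3) ((X.dat U S.ω s hM w).oo 3)| ≤
        K / (l ^ 6 * s ^ 4) := by
      have h1 := (X.int_le hK.n3.toNice0 hs0 (T := fun _ => 1) measurable_const (k := 1)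
        (fun _ => by simp) (n := 1) le_rfl).2
      simp only [mul_one, pow_one] at h1
      rw [X.F3_oo S hM w, abs_mul, abs_of_nonneg (by positivity : 0 ≤ s ^ 2 / l ^ 9)]
      refine (mul_le_mul_of_nonneg_left h1 (by positivity)).trans (le_of_eq ?_)
      field_simp
    have g3 : ‖(X.dat U S.ω s hM w).y3 ((X.dat U S.ω s hM w).oo 3)‖ ^ 2 ≤
        K ^ 2 / (l ^ 6 * s ^ 4) := by
      have h1 := (X.int_le hK.n3.toNice0 hs0 (T := fun x => 1 - S.ω (s • x))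
        (measurable_const.sub (S.ω_meas.comp (measurable_const_smul s))) (k := K)
        (fun x => hK.f_bdd _) (n := 2) (by norm_num)).2
      rw [X.y3_sq S hM w]
      refine (mul_le_mul_of_nonneg_left ((le_abs_self _).trans h1) (by positivity)).trans
        (le_of_eq ?_)
      field_simp
    have g4 := sq_nonneg ‖(X.dat U S.ω s hM w).y3 ((X.dat U S.ω s hM w).oo 3)‖
    have g5 : C / (l ^ 6 * s ^ 4) =
        2 * (K / (l ^ 6 * s ^ 4)) + K ^ 2 / (l ^ 6 * s ^ 4) + 3 * C1 / (l ^ 6 * s ^ 4) := by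
      rw [hC]
      ring
    have g6 := abs_le.1 g2
    have g7 : 0 ≤ K ^ 2 / (l ^ 6 * s ^ 4) := by positivity
    have g8 : 0 ≤ 3 * C1 / (l ^ 6 * s ^ 4) := by positivity
    unfold Dat.B0
    rw [g5, abs_le]
    constructor <;> linarith [g6.1, g6.2]

end Pool.Agent.Lib.MP_8fe63c_mp
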