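import Pool.Agent.Lib.MP_8fe63c_mp.NEsy

/-!
Trace bounds against majorants; Schur test.

Sketch. `synth B c` does not depend on the points outside `B`, so
`∫ Φ synth^2 = marg B (marg Bᶜ Φ * synth^2)` (`marg_union`, `marg_mul_left`). For `card B = 2`,
`B = {a, b}`, translation invariance gives `marg Bᶜ Φ x = v (x a - x b)` with `∫ v` equal to the marginal
over `insert a Bᶜ`; use `esy_synth`. For `card B ≥ 3` use `tri` and `hardy2_synth`, and `1/s ≤ 1/θ`.
Schur: `|∫ F ζ h| ≤ (∫ Φ ζ^2)^(1/2) (∫ Φ h^2)^(1/2)`.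
-/

set_option linter.unusedSectionVars false

open MeasureTheory Set Filter Topology
open scoped ENNReal InnerProductSpace

namespace Pool.Agent.Lib.MP_8fe63c_mp

variable {I κ ι : Type} [Fintype I] [DecidableEq I] [Fintype κ] [DecidableEq κ]
  [Fintype ι] [DecidableEq ι]


theorem NTb_meas (L : Lv I) (fr : Frame I) (B : Finset κ) (c : (κ → I) → ℝ) :
    Measurable fun x => ENNReal.ofReal (synth L fr.e B c x ^ 2) :=
  ((measurable_synth L fr.meas B c).pow_const 2).ennreal_ofReal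

theorem NTb_split (L : Lv I) (fr : Frame I) {Φ : (κ → R3) → ℝ≥0∞} (hΦ : Measurable Φ)
    (B : Finset κ) (c : (κ → I) → ℝ) :
    ∫⁻ x, Φ x * ENNReal.ofReal (synth L fr.e B c x ^ 2) =
      marg B (fun x => marg Bᶜ Φ x * ENNReal.ofReal (synth L fr.e B c x ^ 2)) 0 := by
  rw [← marg_univ 0, ← Finset.union_compl B, marg_union (hΦ.fun_mul (NTb_meas L fr B c))
    disjoint_compl_right]
  refine congrArg (marg B · 0) (funext fun x => ?_)
  simp only [mul_comm (Φ _)]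
  rw [marg_mul_left Bᶜ hΦ (c := fun x => ENNReal.ofReal (synth L fr.e B c x ^ 2)) fun x y h => by
    rw [synth_congr L fr.e B c fun j hj => h j (Finset.notMem_compl.2 hj)], mul_comm]

theorem NTb_const {B : Finset κ} {Ψ : (κ → R3) → ℝ≥0∞} (hΨ : Measurable Ψ) {m n : ℝ} (h0 : 0 ≤ m)
    (h : MargLe B Ψ n) : MargLe B (fun x => ENNReal.ofReal m * Ψ x) (m * n) := fun x => by
  rw [marg_mul_left B hΨ (c := fun _ => ENNReal.ofReal m) fun _ _ _ => rfl, ENNReal.ofReal_mul h0]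
  exact mul_le_mul_right (h x) _

theorem NTb_sum {T : Type} {B : Finset κ} (t : Finset T) {f : T → (κ → R3) → ℝ} {m : T → ℝ}
    (hf : ∀ k, Measurable (f k)) (h0 : ∀ k x, 0 ≤ f k x) (hm : ∀ k, 0 ≤ m k)
    (h : ∀ k ∈ t, MargLe B (fun x => ENNReal.ofReal (f k x)) (m k)) :
    MargLe B (fun x => ENNReal.ofReal (∑ k ∈ t, f k x)) (∑ k ∈ t, m k) := fun x => by
  simp only [fun x => ENNReal.ofReal_sum_of_nonneg (s := t) fun k _ => h0 k x]
  rw [marg_sum t B fun k _ => (hf k).ennreal_ofReal, ENNReal.ofReal_sum_of_nonneg fun k _ => hm k]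
  exact Finset.sum_le_sum fun k hk => h k hk x

theorem lintegral_mul_synth_le (L : Lv I) (fr : Frame I) {Φ : (κ → R3) → ℝ≥0∞} (hΦ : Measurable Φ)
    (B : Finset κ) {m : ℝ} (h0 : 0 ≤ m) (hm : MargLe Bᶜ Φ m) (c : (κ → I) → ℝ) :
    ∫⁻ x, Φ x * ENNReal.ofReal (synth L fr.e B c x ^ 2) ≤
      ENNReal.ofReal (m * ∑ α ∈ L.cfg B, c α ^ 2) := by
  rw [NTb_split L fr hΦ]
  exact (marg_mono B (fun x => mul_le_mul_left (hm x) _) 0).trans
    (NTb_const (NTb_meas L fr B c) h0 (margLe_synth L fr B c) 0)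

theorem NTb_meas_hw (s : ℝ) (a b : κ) : Measurable fun x : κ → R3 => hw s (x a - x b) := by
  unfold hw
  fun_prop

theorem NTb_three (L : Lv I) (fr : Frame I) {Φ : (κ → R3) → ℝ≥0∞} {s A : ℝ} {B : Finset κ}
    (c : (κ → I) → ℝ) (hκ : Fintype.card κ ≤ 4) (hs : 0 < s) (hA : 0 ≤ A) (h : MajS s Φ A)
    (hB : 3 ≤ B.card) : ∫⁻ x, Φ x * ENNReal.ofReal (synth L fr.e B c x ^ 2) ≤
      ENNReal.ofReal (64 * A / s ^ (3 * Bᶜ.card + 4) * ∑ α ∈ L.cfg B,
        (∑ j ∈ B, fr.lt (α j)) ^ 2 * c α ^ 2) := by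
  have hK : 0 ≤ A / s ^ (3 * Bᶜ.card) := by positivity
  have hf : ∀ k : κ × κ × κ, Measurable fun x : κ → R3 =>
      (if k.1 ≠ k.2.1 ∧ k.1 ≠ k.2.2 ∧ k.2.1 ≠ k.2.2 then hw s (x k.1 - x k.2.1) *
        hw s (x k.1 - x k.2.2) else 0) * synth L fr.e B c x ^ 2 := fun k => by
    refine Measurable.mul ?_ ((measurable_synth L fr.meas B c).pow_const 2)
    split_ifs
    · exact (NTb_meas_hw s _ _).mul (NTb_meas_hw s _ _)
    · exact measurable_const
  have h0 : ∀ (k : κ × κ × κ) (x : κ → R3),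
      0 ≤ if k.1 ≠ k.2.1 ∧ k.1 ≠ k.2.2 ∧ k.2.1 ≠ k.2.2 then hw s (x k.1 - x k.2.1) *
        hw s (x k.1 - x k.2.2) else 0 := fun k x => by
    split_ifs
    · exact mul_nonneg (hw_pos _ _).le (hw_pos _ _).le
    · exact le_rfl
  have hm : ∀ k : κ × κ × κ,
      0 ≤ 16 / s ^ 4 * ∑ α ∈ L.cfg B, fr.lt (α k.2.1) * fr.lt (α k.2.2) * c α ^ 2 := fun k =>
    mul_nonneg (by positivity) (Finset.sum_nonneg fun α _ =>
      mul_nonneg (mul_nonneg (fr.lt_nonneg _) (fr.lt_nonneg _)) (sq_nonneg _))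
  have h1 := NTb_sum (B := B) (B ×ˢ B ×ˢ B) hf (fun k x => mul_nonneg (h0 k x) (sq_nonneg _)) hm
    fun k hk x => by
      split_ifs with e
      · exact hardy2_synth L fr hs e.1 e.2.1 e.2.2
          (Finset.mem_product.1 (Finset.mem_product.1 hk).2).1
          (Finset.mem_product.1 (Finset.mem_product.1 hk).2).2 c x
      · simp [HMarg_def]
  have h2 := NTb_const (Finset.measurable_sum _ fun k _ => hf k).ennreal_ofReal hK h1 0
  rw [NTb_split L fr h.meas]
  refine ((marg_mono B (fun x => ?_) 0).trans h2).trans (ENNReal.ofReal_le_ofReal ?_)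
  · have h3 := h.tri Bᶜ (by rwa [compl_compl]) x
    rw [compl_compl] at h3
    refine (mul_le_mul_left h3 _).trans_eq ?_
    rw [← Finset.sum_mul, ← ENNReal.ofReal_mul hK, ← mul_assoc, ENNReal.ofReal_mul' (sq_nonneg _)]
    simp only [Finset.sum_product]
  · have h3 : ∑ k ∈ B ×ˢ B ×ˢ B,
        16 / s ^ 4 * ∑ α ∈ L.cfg B, fr.lt (α k.2.1) * fr.lt (α k.2.2) * c α ^ 2 =
        B.card * (16 / s ^ 4 * ∑ α ∈ L.cfg B, (∑ j ∈ B, fr.lt (α j)) ^ 2 * c α ^ 2) := by
      rw [Finset.sum_product]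
      simp only [Finset.sum_const, nsmul_eq_mul]
      rw [← Finset.mul_sum, Finset.sum_comm]
      refine congrArg _ (congrArg _ (Finset.sum_congr rfl fun α _ => ?_))
      rw [← Finset.sum_mul, Finset.sum_product, sq (∑ j ∈ B, _), Finset.sum_mul_sum]
    have h4 : (B.card : ℝ) ≤ 4 := by exact_mod_cast (Finset.card_le_univ B).trans hκ
    have h5 : 0 ≤ ∑ α ∈ L.cfg B, (∑ j ∈ B, fr.lt (α j)) ^ 2 * c α ^ 2 :=
      Finset.sum_nonneg fun α _ => by positivity
    rw [h3]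
    calc _ ≤ A / s ^ (3 * Bᶜ.card) *
          (4 * (16 / s ^ 4 * ∑ α ∈ L.cfg B, (∑ j ∈ B, fr.lt (α j)) ^ 2 * c α ^ 2)) := by gcongr
      _ = _ := by
        rw [pow_add]
        field_simp
        ring

theorem NTb_two {Φ : (κ → R3) → ℝ≥0∞} {s A : ℝ} (h : MajS s Φ A) {a b : κ} (hab : a ≠ b) :
    ∃ v : R3 → ℝ≥0∞, Measurable v ∧ (∀ x, marg {a, b}ᶜ Φ x = v (x a - x b)) ∧
      ∫⁻ r, v r ≤ ENNReal.ofReal (A / s ^ (3 * ({a, b}ᶜ : Finset κ).card + 3)) := by
  have ha : a ∉ ({a, b}ᶜ : Finset κ) := by simp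
  refine ⟨fun r => marg {a, b}ᶜ Φ (Function.update 0 a r),
    (measurable_marg _ h.meas).comp (measurable_update _), fun x => ?_, ?_⟩
  · rw [← TI.marg _ h.meas h.ti x (-x b)]
    refine marg_congr _ fun i hi => ?_
    rcases Finset.mem_insert.1 (Finset.notMem_compl.1 hi) with rfl | hi
    · rw [Function.update_self, sub_eq_add_neg]
    · rw [Finset.mem_singleton.1 hi, Function.update_of_ne hab.symm, add_neg_cancel, Pi.zero_apply]
  · have h1 := h.mg (insert a {a, b}ᶜ) (fun e => by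
      have h2 := Finset.mem_univ b
      rw [← e] at h2
      simp [hab.symm] at h2) 0
    rwa [HMarg_insert h.meas ha, Finset.card_insert_of_notMem ha, mul_add, mul_one] at h1

theorem trace_bounds : ∃ cT : ℝ, 1 ≤ cT ∧ ∀ {I κ : Type} [Fintype I] [DecidableEq I] [Fintype κ]
    [DecidableEq κ] (L : Lv I) (fr : Frame I) (Φ : (κ → R3) → ℝ≥0∞) (s A : ℝ) (B : Finset κ)
    (c : (κ → I) → ℝ), Fintype.card κ ≤ 4 → 0 < s → 0 ≤ A → MajS s Φ A →
    (2 ≤ B.card → ∀ θ : ℝ, 0 < θ → θ ≤ s →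
      ∫⁻ x, Φ x * ENNReal.ofReal (synth L fr.e B c x ^ 2) ≤
        ENNReal.ofReal (cT * A / s ^ (3 * Bᶜ.card + 3) * ∑ α ∈ L.cfg B,
          (θ * (∑ j ∈ B, fr.lt (α j)) + (∑ j ∈ B, fr.lt (α j)) ^ 2 / θ) * c α ^ 2)) ∧
    (3 ≤ B.card →
      ∫⁻ x, Φ x * ENNReal.ofReal (synth L fr.e B c x ^ 2) ≤
        ENNReal.ofReal (cT * A / s ^ (3 * Bᶜ.card + 4) * ∑ α ∈ L.cfg B,
          (∑ j ∈ B, fr.lt (α j)) ^ 2 * c α ^ 2)) := by
  obtain ⟨cE, hE1, hE⟩ := esy_synth
  refine ⟨max cE 64, hE1.trans (le_max_left _ _), fun {I κ} _ _ _ _ L fr Φ s A B c hκ hs hA h => ?_⟩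
  have hl : ∀ α : κ → I, 0 ≤ ∑ j ∈ B, fr.lt (α j) := fun α =>
    Finset.sum_nonneg fun j _ => fr.lt_nonneg _
  have hT : (0 : ℝ) ≤ max cE 64 := le_max_of_le_right (by norm_num)
  have h3 := fun hB : 3 ≤ B.card => (NTb_three L fr c hκ hs hA h hB).trans
    (ENNReal.ofReal_le_ofReal (mul_le_mul_of_nonneg_right (div_le_div_of_nonneg_right (mul_le_mul_of_nonneg_right
      (le_max_right cE 64) hA) (pow_pos hs _).le) (Finset.sum_nonneg fun α _ => by positivity)))
  refine ⟨fun hB θ hθ hθs => ?_, h3⟩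
  rcases hB.eq_or_lt with hB | hB
  · obtain ⟨a, b, hab, rfl⟩ := Finset.card_eq_two.1 hB.symm
    obtain ⟨v, hv1, hv2, hv3⟩ := NTb_two h hab
    rw [NTb_split L fr h.meas]
    simp only [hv2]
    refine (hE L fr {a, b} a b c v θ 0 hab (by simp) (by simp) hv1 hθ).trans
      ((mul_le_mul_left hv3 _).trans ?_)
    rw [← ENNReal.ofReal_mul (by positivity), ← mul_assoc, div_mul_eq_mul_div, mul_comm A]
    refine ENNReal.ofReal_le_ofReal (mul_le_mul (div_le_div_of_nonneg_right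
      (mul_le_mul_of_nonneg_right (le_max_left _ _) hA) (pow_pos hs _).le)
      (Finset.sum_le_sum fun α _ => mul_le_mul_of_nonneg_right ?_ (sq_nonneg _))
      (Finset.sum_nonneg fun α _ => ?_) (by positivity))
    · have h1 := fr.lt_nonneg (α a)
      have h2 := fr.lt_nonneg (α b)
      rw [Finset.sum_pair hab]
      gcongr
      · linarith
      · nlinarith
    · have h1 := fr.lt_nonneg (α a)
      have h2 := fr.lt_nonneg (α b)
      positivity
  · refine (h3 hB).trans (ENNReal.ofReal_le_ofReal ?_)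
    rw [pow_succ, ← div_div, div_mul_eq_mul_div, mul_div_assoc, Finset.sum_div]
    refine mul_le_mul_of_nonneg_left (Finset.sum_le_sum fun α _ => ?_) (by positivity)
    rw [mul_div_right_comm]
    refine mul_le_mul_of_nonneg_right ?_ (sq_nonneg _)
    exact (div_le_div_of_nonneg_left (sq_nonneg _) hθ hθs).trans
      (le_add_of_nonneg_left (mul_nonneg hθ.le (hl α)))

/-- Cauchy-Schwarz with a majorant -/
theorem sq_integral_le {X : Type} [MeasurableSpace X] {μ : Measure X} {F f g : X → ℝ}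
    {Φ : X → ℝ≥0∞} (hΦ : Measurable Φ) (hf : Measurable f) (hg : Measurable g)
    (hF : ∀ x, eabs F x ≤ Φ x) {a b : ℝ} (ha : 0 ≤ a) (hb : 0 ≤ b)
    (h1 : ∫⁻ x, Φ x * ENNReal.ofReal (f x ^ 2) ∂μ ≤ ENNReal.ofReal a)
    (h2 : ∫⁻ x, Φ x * ENNReal.ofReal (g x ^ 2) ∂μ ≤ ENNReal.ofReal b) :
    (∫ x, F x * f x * g x ∂μ) ^ 2 ≤ a * b := by
  have h3 := ENNReal.lintegral_mul_le_Lp_mul_Lq μ Real.HolderConjugate.two_two
    (f := fun x => (Φ x * ENNReal.ofReal (f x ^ 2)) ^ (2⁻¹ : ℝ))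
    (g := fun x => (Φ x * ENNReal.ofReal (g x ^ 2)) ^ (2⁻¹ : ℝ))
    ((hΦ.mul (hf.pow_const 2).ennreal_ofReal).pow_const _).aemeasurable
    ((hΦ.mul (hg.pow_const 2).ennreal_ofReal).pow_const _).aemeasurable
  simp only [ENNReal.rpow_inv_rpow two_ne_zero, one_div, Pi.mul_apply] at h3
  have h4 : ‖∫ x, F x * f x * g x ∂μ‖ₑ ≤ (ENNReal.ofReal a * ENNReal.ofReal b) ^ (2⁻¹ : ℝ) := by
    refine (enorm_integral_le_lintegral_enorm _).trans ((lintegral_mono fun x => ?_).trans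
      (h3.trans ?_))
    · rw [← ENNReal.mul_rpow_of_nonneg _ _ (by norm_num), ENNReal.le_rpow_inv_iff two_pos,
        Real.enorm_eq_ofReal_abs, ENNReal.ofReal_rpow_of_nonneg (abs_nonneg _) two_pos.le,
        Real.rpow_two]
      refine le_trans (le_of_eq ?_) (mul_le_mul' (mul_le_mul_left (hF x) _)
        (mul_le_mul_left (hF x) _))
      rw [eabs, ← ENNReal.ofReal_mul (abs_nonneg _), ← ENNReal.ofReal_mul (abs_nonneg _),
        ← ENNReal.ofReal_mul (by positivity), abs_mul, abs_mul, mul_pow, mul_pow, sq_abs (f x),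
        sq_abs (g x)]
      refine congrArg _ ?_
      ring
    · rw [ENNReal.mul_rpow_of_nonneg _ _ (by norm_num)]
      gcongr
  rw [ENNReal.le_rpow_inv_iff two_pos, Real.enorm_eq_ofReal_abs,
    ENNReal.ofReal_rpow_of_nonneg (abs_nonneg _) two_pos.le, Real.rpow_two, sq_abs,
    ← ENNReal.ofReal_mul ha] at h4
  exact (ENNReal.ofReal_le_ofReal_iff (mul_nonneg ha hb)).1 h4

theorem bil_schur (L : Lv I) (fr : Frame I) {F : (κ → R3) → ℝ} (hF : MemLp F 2 volume)
    {Φ : (κ → R3) → ℝ≥0∞} (hΦ : Measurable Φ) (hle : ∀ x, eabs F x ≤ Φ x) (R : Finset κ)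
    {m m' : ℝ} (h0 : 0 ≤ m) (h0' : 0 ≤ m') (hm : MargLe R Φ m) (hm' : MargLe Rᶜ Φ m') :
    L.Bil (coef fr.e F) R fun _ => m * m' := by
  intro ζ h
  rw [coef_bil L fr hF]
  refine (sq_integral_le hΦ (measurable_synth L fr.meas _ _) (measurable_synth L fr.meas _ _) hle
    (mul_nonneg h0 (Finset.sum_nonneg fun _ _ => sq_nonneg _))
    (mul_nonneg h0' (Finset.sum_nonneg fun _ _ => sq_nonneg _))
    (lintegral_mul_synth_le L fr hΦ Rᶜ h0 (by rwa [compl_compl]) ζ)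
    (lintegral_mul_synth_le L fr hΦ R h0' hm' h)).trans_eq ?_
  rw [← Finset.mul_sum]
  ring

theorem Src.hs (fr : Frame I) {q : ℕ} {s κ ϱ : ℝ} {F : (Fin (q + 1) → R3) → ℝ}
    {Φ : (Fin (q + 1) → R3) → ℝ≥0∞} (h : Src s F Φ κ ϱ) (hs : 0 < s) :
    ∑ α, coef fr.e F α ^ 2 ≤ κ ^ 2 * ϱ / s ^ (3 * q) := by
  exact (coef_bessel fr (h.memLp hs).1).trans (h.memLp hs).2

theorem Src.bil (L : Lv I) (fr : Frame I) {q : ℕ} {s κ ϱ : ℝ} {F : (Fin (q + 1) → R3) → ℝ}
    {Φ : (Fin (q + 1) → R3) → ℝ≥0∞} (h : Src s F Φ κ ϱ) (hs : 0 < s) {R : Finset (Fin (q + 1))}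
    (h1 : R.Nonempty) (h2 : R ≠ Finset.univ) :
    L.Bil (coef fr.e F) R fun _ => κ ^ 2 / s ^ (3 * (q + 1)) := by
  have h0 := h.κ_nonneg
  have h3 := bil_schur L fr (h.memLp hs).1 h.maj.meas h.le R (by positivity) (by positivity)
    (h.maj.mg R h2) (h.maj.mg Rᶜ (Finset.compl_ne_univ_iff_nonempty R |>.2 h1))
  rwa [div_mul_div_comm, ← sq, ← pow_add, ← mul_add, Finset.card_add_card_compl,
    Fintype.card_fin] at h3

/-- mass of the configurations with a low leg -/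
theorem low_mass (L : Lv I) {T : (κ → I) → ℝ} {x : ℝ} (hx : 0 ≤ x)
    (h : ∀ j, L.Bil T {j} fun _ => x) :
    ∑ α, (if L.Hi α then 0 else T α ^ 2) ≤ Fintype.card κ * L.low.card * x := by
  have h1 : ∀ j, ∑ α : κ → I, (if α j ∈ L.low then T α ^ 2 else 0) ≤ L.low.card * x := by
    intro j
    rw [← L.cfg_univ, ← sum_cfg_piecewise L (Finset.subset_univ {j})]
    calc _ ≤ ∑ η ∈ L.cfg {j}, if η j ∈ L.low then x else 0 := by
          refine Finset.sum_le_sum fun η hη => ?_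
          simp only [Finset.piecewise_eq_of_mem _ _ _ (Finset.mem_singleton_self j)]
          split_ifs
          · have h2 := (h j).quad (fun _ _ => hx) fun b => if b = η then 1 else 0
            simpa [hη, Finset.compl_eq_univ_sdiff] using h2
          · simp
      _ = ((L.cfg {j}).filter fun η => η j ∈ L.low).card * x := by
          rw [← Finset.sum_filter, Finset.sum_const, nsmul_eq_mul]
      _ ≤ _ := by
          refine mul_le_mul_of_nonneg_right (Nat.cast_le.2 (Finset.card_le_card_of_injOn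
            (fun η => η j) (fun η hη => (Finset.mem_filter.1 hη).2) fun η hη η' hη' e => ?_)) hx
          funext i
          by_cases hi : i = j
          · rw [hi]
            exact e
          · rw [(Finset.mem_filter.1 (Finset.mem_filter.1 hη).1).2 i (by simpa using hi),
              (Finset.mem_filter.1 (Finset.mem_filter.1 hη').1).2 i (by simpa using hi)]
  calc _ ≤ ∑ α : κ → I, ∑ j, (if α j ∈ L.low then T α ^ 2 else 0) := by
        refine Finset.sum_le_sum fun α _ => ?_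
        have h0 : ∀ j, 0 ≤ if α j ∈ L.low then T α ^ 2 else 0 := fun j => by positivity
        split_ifs with e
        · exact Finset.sum_nonneg fun j _ => h0 j
        · obtain ⟨j, hj⟩ := not_forall.1 e
          exact (if_pos (not_not.1 hj)).ge.trans
            (Finset.single_le_sum (fun j _ => h0 j) (Finset.mem_univ j))
    _ ≤ ∑ _j : κ, L.low.card * x := by
        rw [Finset.sum_comm]
        exact Finset.sum_le_sum fun j _ => h1 j
    _ = _ := by rw [Finset.sum_const, Finset.card_univ, nsmul_eq_mul, mul_assoc]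

end Pool.Agent.Lib.MP_8fe63c_mp
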