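import Pool.Agent.Lib.MP_8fe63c_mp.RWeak

/-!
The energy of `k * tens u`.

Sketch. `GD.weak_tens` with `χ = k`:
`∑ j, qleg j (k u) (k u') - ∫ F k u u' = ∑ j, ∫ k^2 (⟪∇_j u, ∇_j u'⟫ + W (x j) u u') - m2 ∫ k^2 u u'`. Bound the factors
with `i ≠ j` by `M`, use `lintegral_mul_single_le` and `∫ ‖G‖ ‖G'‖ + W |u| |u'| ≤ M^2`.
-/

set_option linter.unusedSectionVars false

open MeasureTheory Set Filter Topology
open scoped ENNReal InnerProductSpace

namespace Pool.Agent.Lib.MP_8fe63c_mp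

variable {I κ ι : Type} [Fintype I] [DecidableEq I] [Fintype κ] [DecidableEq κ]
  [Fintype ι] [DecidableEq ι]


theorem RL2_exists_sq {M : ℝ} (hM : 0 ≤ M) : ∃ Φ : ℝ → ℝ, ContDiff ℝ 1 Φ ∧ Φ 0 = 0 ∧
    (∀ t, |deriv Φ t| ≤ 2 * M) ∧ ∀ t, |t| ≤ M → Φ t = t ^ 2 ∧ deriv Φ t = 2 * t := by
  have hc : Continuous fun s : ℝ => 2 * max (-M) (min s M) := by fun_prop
  have hd : ∀ t, HasDerivAt (fun t : ℝ => ∫ s in (0 : ℝ)..t, 2 * max (-M) (min s M))
      (2 * max (-M) (min t M)) t := fun t => (hc.integral_hasStrictDerivAt 0 t).hasDerivAt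
  have hde : deriv (fun t : ℝ => ∫ s in (0 : ℝ)..t, 2 * max (-M) (min s M)) =
      fun t => 2 * max (-M) (min t M) := funext fun t => (hd t).deriv
  have hmin : ∀ t, |t| ≤ M → max (-M) (min t M) = t := fun t ht => by
    rw [min_eq_left (abs_le.1 ht).2, max_eq_right (abs_le.1 ht).1]
  refine ⟨fun t : ℝ => ∫ s in (0 : ℝ)..t, 2 * max (-M) (min s M), ?_, by simp, fun t => ?_,
    fun t ht => ⟨?_, ?_⟩⟩
  · rw [contDiff_one_iff_deriv, hde]
    exact ⟨fun t => (hd t).differentiableAt, hc⟩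
  · rw [hde, abs_le]
    have a1 := le_max_left (-M) (min t M)
    have a2 : max (-M) (min t M) ≤ M := max_le (by linarith) (min_le_right _ _)
    constructor <;> linarith
  · have e : ∫ s in (0 : ℝ)..t, 2 * max (-M) (min s M) = ∫ s in (0 : ℝ)..t, 2 * s := by
      refine intervalIntegral.integral_congr fun s hs => ?_
      have h1 : |s| ≤ |t| := by
        simpa using abs_sub_left_of_mem_uIcc hs
      simp only [hmin s (h1.trans ht)]
    simp only [e]
    rw [intervalIntegral.integral_const_mul, integral_id]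
    ring
  · rw [hde]
    simp only [hmin t ht]

theorem BF.sq {W u : R3 → ℝ} {G : R3 → R3} (hW : Pot W) {M : ℝ} (h : BF W u G M) (hM : 1 ≤ M) :
    BF W (fun x => u x ^ 2) (fun x => (2 * u x) • G x) (2 * M ^ 2) := by
  have hM0 : 0 ≤ M := zero_le_one.trans hM
  obtain ⟨Φ, h1, h2, h3, h4⟩ := RL2_exists_sq hM0
  have h5 := h.inF.chain hW h1 h2 h3
  have hu2 : ∀ x, u x ^ 2 ≤ M ^ 2 := fun x => by
    rw [← sq_abs (u x)]
    exact pow_le_pow_left₀ (abs_nonneg _) (h.bdd x) 2
  simp only [fun x => (h4 (u x) (h.bdd x)).1, fun x => (h4 (u x) (h.bdd x)).2] at h5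
  refine ⟨h5, fun x => ?_, ?_, ?_⟩
  · rw [abs_of_nonneg (sq_nonneg _)]
    have a1 := hu2 x
    have a2 := sq_nonneg M
    linarith
  · have hint : Integrable fun x => u x ^ 2 := by
      simpa only [integrableOn_univ, ← pow_two] using h.inF.integrable_mul hW h.inF
    calc ∫ x, (u x ^ 2) ^ 2 ≤ ∫ x, M ^ 2 * u x ^ 2 := by
          refine integral_mono_of_nonneg (Eventually.of_forall fun x => sq_nonneg _)
            (hint.const_mul _) (Eventually.of_forall fun x => ?_)
          have a1 := mul_le_mul_of_nonneg_right (hu2 x) (sq_nonneg (u x))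
          change (u x ^ 2) ^ 2 ≤ M ^ 2 * u x ^ 2
          nlinarith
      _ = M ^ 2 * ∫ x, u x ^ 2 := integral_const_mul _ _
      _ ≤ M ^ 2 * M ^ 2 := mul_le_mul_of_nonneg_left h.l2 (pow_nonneg hM0 2)
      _ ≤ (2 * M ^ 2) ^ 2 := by nlinarith [pow_nonneg hM0 4]
  · have hint := (h.inF.integrable_inner hW h.inF).add (h.inF.integrable_W hW h.inF)
    calc qf univ W (fun x => u x ^ 2) (fun x => (2 * u x) • G x) (fun x => u x ^ 2)
          (fun x => (2 * u x) • G x)
        ≤ ∫ x in univ, 4 * M ^ 2 * (⟪G x, G x⟫_ℝ + W x * u x * u x) := by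
          refine integral_mono_of_nonneg (Eventually.of_forall fun x => ?_)
            (hint.const_mul _) (Eventually.of_forall fun x => ?_)
          · refine add_nonneg real_inner_self_nonneg ?_
            rw [mul_assoc]
            exact mul_nonneg (hW.nonneg x) (mul_self_nonneg _)
          · have a0 : 0 ≤ W x * u x ^ 2 := mul_nonneg (hW.nonneg x) (sq_nonneg _)
            have a1 := mul_le_mul_of_nonneg_right (hu2 x) a0
            have a2 := mul_le_mul_of_nonneg_right (hu2 x) (real_inner_self_nonneg (x := G x))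
            have a3 := mul_nonneg (pow_nonneg hM0 2) a0
            change ⟪(2 * u x) • G x, (2 * u x) • G x⟫_ℝ + W x * u x ^ 2 * u x ^ 2 ≤
              4 * M ^ 2 * (⟪G x, G x⟫_ℝ + W x * u x * u x)
            rw [real_inner_smul_left, real_inner_smul_right]
            nlinarith
      _ = 4 * M ^ 2 * qf univ W u G u G := integral_const_mul _ _
      _ ≤ 4 * M ^ 2 * M ^ 2 := mul_le_mul_of_nonneg_left h.en (by positivity)
      _ = (2 * M ^ 2) ^ 2 := by ring

theorem RL2_muP : muP univ κ = volume := by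
  simp only [muP, Measure.restrict_univ]
  rfl

theorem RL2_bound {k f : (κ → R3) → ℝ} (hk : Measurable k) {n₂ : ℝ} (h0 : 0 ≤ n₂)
    (h2 : L2rel k n₂) (j : κ) {a : R3 → ℝ} (ha : Measurable a) (hi : Integrable a)
    (ha0 : ∀ y, 0 ≤ a y) (hf : Measurable f) (hle : ∀ x, |f x| ≤ k x ^ 2 * a (x j)) :
    Integrable f ∧ |∫ x, f x| ≤ n₂ * ∫ y, a y := by
  have h1 := lintegral_mul_single_le (hk.pow_const 2).ennreal_ofReal j (h2 j) ha.ennreal_ofReal
  have hA : 0 ≤ ∫ y, a y := integral_nonneg ha0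
  rw [← ofReal_integral_eq_lintegral_ofReal hi (Eventually.of_forall ha0),
    ← ENNReal.ofReal_mul h0] at h1
  have h3 : ∫⁻ x, ENNReal.ofReal ‖f x‖ ≤ ENNReal.ofReal (n₂ * ∫ y, a y) := by
    refine le_trans (lintegral_mono fun x => ?_) h1
    rw [← ENNReal.ofReal_mul (sq_nonneg _)]
    exact ENNReal.ofReal_le_ofReal (hle x)
  refine ⟨⟨hf.aestronglyMeasurable, ?_⟩, ?_⟩
  · rw [hasFiniteIntegral_iff_norm]
    exact h3.trans_lt ENNReal.ofReal_lt_top
  · rw [← Real.norm_eq_abs]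
    exact (norm_integral_le_lintegral_norm f).trans
      (ENNReal.toReal_le_of_le_ofReal (mul_nonneg h0 hA) h3)

theorem RL2_tens (u : κ → R3 → ℝ) (j : κ) (x : κ → R3) :
    tens u x = (∏ i ∈ Finset.univ.erase j, u i (x i)) * u j (x j) :=
  (Finset.prod_erase_mul Finset.univ (fun i => u i (x i)) (Finset.mem_univ j)).symm

theorem RL2_prod {W : R3 → ℝ} {M : ℝ} {u : κ → R3 → ℝ} {G : κ → R3 → R3}
    (hu : ∀ j, BF W (u j) (G j) M) (j : κ) (x : κ → R3) :
    |∏ i ∈ Finset.univ.erase j, u i (x i)| ≤ M ^ (Fintype.card κ - 1) := by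
  rw [Finset.abs_prod, ← Finset.card_univ, ← Finset.card_erase_of_mem (Finset.mem_univ j),
    ← Finset.prod_const]
  exact Finset.prod_le_prod (fun i _ => abs_nonneg _) fun i _ => (hu i).bdd _

theorem RL2_mul {c P P' N s a : ℝ} (hP : |P| ≤ N) (hP' : |P'| ≤ N) (hs : |s| ≤ a) :
    |c ^ 2 * (P * P' * s)| ≤ c ^ 2 * (N * N * a) := by
  rw [abs_mul, abs_mul, abs_mul, abs_of_nonneg (sq_nonneg c)]
  have hN : 0 ≤ N := (abs_nonneg _).trans hP
  gcongr

theorem RL2_pt {w s t : ℝ} (hw : 0 ≤ w) (A B : R3) :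
    |⟪A, B⟫_ℝ + w * s * t| ≤ ((⟪A, A⟫_ℝ + w * s * s) + (⟪B, B⟫_ℝ + w * t * t)) / 2 := by
  have h1 := abs_real_inner_le_norm A B
  rw [real_inner_self_eq_norm_sq, real_inner_self_eq_norm_sq]
  have h2 := abs_le.1 h1
  have h3 := mul_nonneg hw (sq_nonneg (s - t))
  have h4 := mul_nonneg hw (sq_nonneg (s + t))
  have h5 := sq_nonneg (‖A‖ - ‖B‖)
  rw [abs_le]
  constructor <;> nlinarith

theorem RL2_pow [Nonempty κ] (M : ℝ) :
    M ^ (Fintype.card κ - 1) * M ^ (Fintype.card κ - 1) * M ^ 2 = M ^ (2 * Fintype.card κ) := by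
  have := Fintype.card_pos (α := κ)
  rw [← pow_add, ← pow_add]
  congr 1
  omega

theorem RL2_en {W : R3 → ℝ} (hW : Pot W) [Nonempty κ] {n₂ M : ℝ} {k : (κ → R3) → ℝ}
    (hk : Measurable k) {u u' : κ → R3 → ℝ} {G G' : κ → R3 → R3}
    (hu : ∀ j, BF W (u j) (G j) M) (hu' : ∀ j, BF W (u' j) (G' j) M) (h0 : 0 ≤ n₂)
    (h2 : L2rel k n₂) (j : κ) :
    Integrable (fun x => k x ^ 2 * (⟪gtens u G j x, gtens u' G' j x⟫_ℝ +
      W (x j) * tens u x * tens u' x)) ∧
    |∫ x, k x ^ 2 * (⟪gtens u G j x, gtens u' G' j x⟫_ℝ + W (x j) * tens u x * tens u' x)| ≤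
      M ^ (2 * Fintype.card κ) * n₂ := by
  have L := legF_tens hW (fun i => (hu i).inF) j
  have L' := legF_tens hW (fun i => (hu' i).inF) j
  have i1 : Integrable fun y => ⟪G j y, G j y⟫_ℝ + W y * u j y * u j y :=
    integrableOn_univ.1 (((hu j).inF.integrable_inner hW (hu j).inF).add
      ((hu j).inF.integrable_W hW (hu j).inF))
  have i2 : Integrable fun y => ⟪G' j y, G' j y⟫_ℝ + W y * u' j y * u' j y :=
    integrableOn_univ.1 (((hu' j).inF.integrable_inner hW (hu' j).inF).add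
      ((hu' j).inF.integrable_W hW (hu' j).inF))
  have e1 := (hu j).en
  have e2 := (hu' j).en
  simp only [qf, Measure.restrict_univ] at e1 e2
  have m1 := (hu j).inF.mu
  have m2 := (hu j).inF.mG
  have m3 := (hu' j).inF.mu
  have m4 := (hu' j).inF.mG
  have m5 := hW.meas
  have hN : 0 ≤ M ^ (Fintype.card κ - 1) * M ^ (Fintype.card κ - 1) := mul_self_nonneg _
  obtain ⟨r1, r2⟩ := RL2_bound (f := fun x => k x ^ 2 * (⟪gtens u G j x, gtens u' G' j x⟫_ℝ +
      W (x j) * tens u x * tens u' x)) hk h0 h2 j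
    (a := fun y => M ^ (Fintype.card κ - 1) * M ^ (Fintype.card κ - 1) *
      (((⟪G j y, G j y⟫_ℝ + W y * u j y * u j y) +
        (⟪G' j y, G' j y⟫_ℝ + W y * u' j y * u' j y)) / 2))
    (((((m2.inner m2).add ((m5.mul m1).mul m1)).add
      ((m4.inner m4).add ((m5.mul m3).mul m3))).div_const 2).const_mul _)
    (((i1.add i2).div_const 2).const_mul _)
    (fun y => mul_nonneg hN ((abs_nonneg _).trans (RL2_pt (hW.nonneg y) _ _)))
    ((hk.pow_const 2).mul ((L.mG.inner L'.mG).add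
      (((m5.comp (measurable_pi_apply j)).mul L.mT).mul L'.mT)))
    (fun x => by
      refine le_trans (le_of_eq ?_) (RL2_mul (c := k x) (RL2_prod hu j x) (RL2_prod hu' j x)
        (RL2_pt (s := u j (x j)) (t := u' j (x j)) (hW.nonneg (x j)) (G j (x j)) (G' j (x j))))
      congr 1
      rw [RL2_tens u j x, RL2_tens u' j x, gtens, gtens, real_inner_smul_left,
        real_inner_smul_right]
      ring)
  refine ⟨r1, r2.trans ?_⟩
  rw [integral_const_mul, integral_div, integral_add i1 i2, mul_comm n₂, ← RL2_pow M]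
  refine mul_le_mul_of_nonneg_right (mul_le_mul_of_nonneg_left ?_ hN) h0
  linarith

theorem RL2_l2 {W : R3 → ℝ} (hW : Pot W) [Nonempty κ] {n₂ M : ℝ} {k : (κ → R3) → ℝ}
    (hk : Measurable k) {u u' : κ → R3 → ℝ} {G G' : κ → R3 → R3}
    (hu : ∀ j, BF W (u j) (G j) M) (hu' : ∀ j, BF W (u' j) (G' j) M) (h0 : 0 ≤ n₂)
    (h2 : L2rel k n₂) :
    Integrable (fun x => k x * (k x * tens u x * tens u' x)) ∧
    |∫ x, k x * (k x * tens u x * tens u' x)| ≤ M ^ (2 * Fintype.card κ) * n₂ := by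
  obtain ⟨j⟩ := (inferInstance : Nonempty κ)
  have L := legF_tens hW (fun i => (hu i).inF) j
  have L' := legF_tens hW (fun i => (hu' i).inF) j
  have i1 : Integrable fun x => u j x ^ 2 := by
    simpa only [integrableOn_univ, ← pow_two] using (hu j).inF.integrable_mul hW (hu j).inF
  have i2 : Integrable fun x => u' j x ^ 2 := by
    simpa only [integrableOn_univ, ← pow_two] using (hu' j).inF.integrable_mul hW (hu' j).inF
  have e1 := (hu j).l2
  have e2 := (hu' j).l2
  have m1 := (hu j).inF.mu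
  have m3 := (hu' j).inF.mu
  have hN : 0 ≤ M ^ (Fintype.card κ - 1) * M ^ (Fintype.card κ - 1) := mul_self_nonneg _
  obtain ⟨r1, r2⟩ := RL2_bound (f := fun x => k x * (k x * tens u x * tens u' x)) hk h0 h2 j
    (a := fun y => M ^ (Fintype.card κ - 1) * M ^ (Fintype.card κ - 1) *
      ((u j y ^ 2 + u' j y ^ 2) / 2))
    ((((m1.pow_const 2).add (m3.pow_const 2)).div_const 2).const_mul _)
    (((i1.add i2).div_const 2).const_mul _)
    (fun y => mul_nonneg hN (by positivity))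
    (hk.mul ((hk.mul L.mT).mul L'.mT))
    (fun x => by
      have hs : |u j (x j) * u' j (x j)| ≤ (u j (x j) ^ 2 + u' j (x j) ^ 2) / 2 := by
        rw [abs_le]
        constructor <;> nlinarith [sq_nonneg (u j (x j) - u' j (x j)),
          sq_nonneg (u j (x j) + u' j (x j))]
      refine le_trans (le_of_eq ?_) (RL2_mul (c := k x) (RL2_prod hu j x) (RL2_prod hu' j x) hs)
      congr 1
      rw [RL2_tens u j x, RL2_tens u' j x]
      ring)
  refine ⟨r1, r2.trans ?_⟩
  rw [integral_const_mul, integral_div, integral_add i1 i2, mul_comm n₂, ← RL2_pow M]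
  refine mul_le_mul_of_nonneg_right (mul_le_mul_of_nonneg_left ?_ hN) h0
  linarith

theorem qleg_sum_approx {W : R3 → ℝ} (hW : Pot W) [Nonempty κ] {m2 n₂ M : ℝ}
    {F k : (κ → R3) → ℝ} (h : GD m2 F k) {u u' : κ → R3 → ℝ} {G G' : κ → R3 → R3}
    (hu : ∀ j, BF W (u j) (G j) M) (hu' : ∀ j, BF W (u' j) (G' j) M) (hm : 0 ≤ m2) (h0 : 0 ≤ n₂)
    (h2 : L2rel k n₂) :
    |(∑ j, qleg univ W j (fun x => k x * tens u x) (gmul k u G j) (fun x => k x * tens u' x)
        (gmul k u' G' j)) - ∫ x, F x * k x * tens u x * tens u' x| ≤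
      (Fintype.card κ + m2) * M ^ (2 * Fintype.card κ) * n₂ := by
  have hk : Measurable k := h.cb.1.continuous.measurable
  have hw := h.weak_tens h.cb (fun i => (hu i).inF.to_zero hW) (fun i => (hu' i).inF.to_zero hW)
  have hE := fun j => RL2_en hW hk hu hu' h0 h2 j
  obtain ⟨hC1, hC2⟩ := RL2_l2 hW hk hu hu' h0 h2
  have hA : ∀ j, Integrable fun x => ⟪gmul k u G j x, gmul k u' G' j x⟫_ℝ +
      W (x j) * (k x * tens u x) * (k x * tens u' x) := fun j => by
    have t := LegF.integrable hW (legF_mul hW h.cb (fun i => (hu i).inF) j)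
      (legF_mul hW h.cb (fun i => (hu' i).inF) j)
    rw [RL2_muP] at t
    exact t.1.add t.2
  have e1 : ∀ x, (∑ i, ⟪pgrad k i x,
        tens u' x • gmul k u G i x + (k x * tens u x) • gtens u' G' i x⟫_ℝ) =
      (∑ j, (⟪gmul k u G j x, gmul k u' G' j x⟫_ℝ +
        W (x j) * (k x * tens u x) * (k x * tens u' x))) -
      ∑ j, k x ^ 2 * (⟪gtens u G j x, gtens u' G' j x⟫_ℝ + W (x j) * tens u x * tens u' x) := by
    intro x
    rw [← Finset.sum_sub_distrib]
    refine Finset.sum_congr rfl fun j _ => ?_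
    simp only [gmul, inner_add_left, inner_add_right, real_inner_smul_left, real_inner_smul_right]
    rw [real_inner_comm (pgrad k j x) (gtens u G j x)]
    ring
  simp only [e1] at hw
  have iA := integrable_finsetSum Finset.univ fun j _ => hA j
  have iE := integrable_finsetSum Finset.univ fun j _ => (hE j).1
  rw [integral_add (iA.sub' iE) (hC1.const_mul m2), integral_sub iA iE,
    integral_finsetSum _ fun j _ => hA j, integral_finsetSum _ fun j _ => (hE j).1,
    integral_const_mul] at hw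
  have e2 : ∫ x, F x * k x * tens u x * tens u' x = ∫ x, F x * (k x * tens u x * tens u' x) :=
    integral_congr_ae (Eventually.of_forall fun x => by ring)
  simp only [qleg, RL2_muP]
  rw [e2, ← hw]
  have e3 : ∀ a b c : ℝ, a - (a - b + c) = b - c := fun a b c => by ring
  rw [e3]
  refine (abs_sub _ _).trans ?_
  have b1 := (Finset.abs_sum_le_sum_abs _ _).trans
    (Finset.sum_le_sum fun j (_ : j ∈ Finset.univ) => (hE j).2)
  rw [Finset.sum_const, Finset.card_univ, nsmul_eq_mul] at b1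
  rw [abs_mul, abs_of_nonneg hm]
  have b2 := mul_le_mul_of_nonneg_left hC2 hm
  linarith

end Pool.Agent.Lib.MP_8fe63c_mp
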