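import Pool.Agent.Lib.MP_8fe63c_mp.RL1
import Pool.Agent.Lib.MP_8fe63c_mp.RL2
import Pool.Agent.Lib.MP_8fe63c_mp.RGam
import Pool.Agent.Lib.MP_8fe63c_mp.NTb

/-!
Comparison of `F / (total eigenvalue)` with the Green function times the product.

Sketch. `exists_cmp`: `exists_mac`, `marg_scale`. `cmp_res`: `resid_bound`, `Lv.res_le`, `coef_bessel`,
`l2_mul_tens`. `cmp_low`: `bil_schur` with the majorant `M^p |k|`, `low_mass`, `Lv.low_energy_le`.
`cmp_gam`: `Lv.gam_bil`; as the level tends to infinity `∑ Ω F'` and `∑ Ω' F` tend to `∫ F k u u'`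
(`EB.parseval`) and `∑ (∑ ν) Ω Ω'` tends to the sum of `qleg` (`EB.parseval_leg`, `legF_mul`);
`qleg_sum_approx`.
-/

set_option linter.unusedSectionVars false

open MeasureTheory Set Filter Topology
open scoped ENNReal InnerProductSpace

namespace Pool.Agent.Lib.MP_8fe63c_mp

variable {I κ ι : Type} [Fintype I] [DecidableEq I] [Fintype κ] [DecidableEq κ]
  [Fintype ι] [DecidableEq ι]


theorem RCmp_margLe {A : Finset κ} {Φ : (κ → R3) → ℝ≥0∞} {c c' : ℝ} (h : MargLe A Φ c)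
    (h' : c ≤ c') : MargLe A Φ c' :=
  fun x => (h x).trans (ENNReal.ofReal_le_ofReal h')

theorem RCmp_card_compl {p : ℕ} (j : Fin p) : ({j}ᶜ : Finset (Fin p)).card + 1 = p := by
  rw [Finset.card_compl, Finset.card_singleton, Fintype.card_fin]
  have := j.pos
  omega

theorem exists_cmp (p : ℕ) (hp : 2 ≤ p) (B : ℝ) : ∃ C : ℝ, 1 ≤ C ∧
    ∀ (F : (Fin p → R3) → ℝ) (A s mm : ℝ), Nice F B → 0 < A → 1 ≤ mm → mm ≤ s →
      Cmp (mm ^ 2) s (C * A ^ 2 / s ^ (if p = 2 then 6 else 3 * p + 1))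
        (C * A ^ 2 / s ^ (if p = 2 then 6 else 3 * p + 2)) (C * A ^ 2 / s ^ (3 * p))
        (sc A s F) (kap A s mm F) := by
  obtain ⟨C, hC, h⟩ := exists_mac p hp B
  have hC' : C ≤ C ^ 2 + B ^ 2 := by nlinarith [sq_nonneg B]
  refine ⟨C ^ 2 + B ^ 2, hC.trans hC', fun F A s mm hF hA h1 h2 => ?_⟩
  have hm := h F A s mm hF hA.le h1 h2
  have hs1 : 1 ≤ s := h1.trans h2
  have hs : 0 < s := one_pos.trans_le hs1
  have hmm : 0 < mm := one_pos.trans_le h1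
  have hm2 : 1 ≤ mm ^ 2 := one_le_pow₀ h1
  have hC0 : 0 < C := one_pos.trans_le hC
  have hB0 : 0 < B := one_pos.trans_le hF.one_le
  have hD : 0 < C ^ 2 + B ^ 2 := by positivity
  refine ⟨hm.gd, sq_nonneg _, hs, by positivity, fun j => RCmp_margLe (hm.l2 j) ?_,
    fun i j => RCmp_margLe (hm.wg i j) ?_, fun j => ?_, fun j => ?_, ?_, ?_⟩
  · split_ifs with e
    · subst e
      rw [show C * A ^ 2 / s ^ (3 * 2 + 1) * s = C * A ^ 2 / s ^ 6 by field_simp]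
      gcongr
    · rw [mul_one]
      gcongr
  · split_ifs with e
    · subst e
      rw [show C * A ^ 2 / s ^ (3 * 2 - 1) * s = C * A ^ 2 / s ^ 6 * s ^ 2 by field_simp]
      gcongr
    · rw [show C * A ^ 2 / s ^ (3 * p - 1) * 1 = C * A ^ 2 / s ^ (3 * p + 1) * s ^ 2 by
        rw [show 3 * p + 1 = 3 * p - 1 + 2 by omega, pow_add]
        field_simp]
      gcongr
  · have hc := RCmp_card_compl j
    have b2 := RCmp_margLe (hm.mg' {j}ᶜ hc)
      (c' := C * A / s ^ (3 * ({j}ᶜ : Finset (Fin p)).card)) (by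
        refine div_le_div_of_nonneg_left (by positivity) (by positivity) ?_
        exact le_mul_of_one_le_right (by positivity) hm2)
    split_ifs with e
    · have b1 := RCmp_margLe (hm.mg' {j} (by rw [Finset.card_singleton, e]))
        (c' := C * A / s ^ 3) (by
          rw [Finset.card_singleton]
          refine div_le_div_of_nonneg_left (by positivity) (by positivity) ?_
          exact le_mul_of_one_le_right (by positivity) hm2)
      refine ⟨_, _, by positivity, by positivity, b1, b2, ?_⟩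
      rw [show ({j}ᶜ : Finset (Fin p)).card = 1 by omega,
        show C * A / s ^ 3 * (C * A / s ^ (3 * 1)) = C ^ 2 * A ^ 2 / s ^ 6 by field_simp]
      gcongr
      nlinarith [sq_nonneg B]
    · have b1 := hm.mg {j} (by rw [Finset.card_singleton]; omega)
      refine ⟨_, _, by positivity, by positivity, b1, b2, ?_⟩
      rw [Finset.card_singleton, show 3 * p + 2 = 3 * 1 + 2 + 3 * ({j}ᶜ : Finset (Fin p)).card by
        omega, pow_add s (3 * 1 + 2), div_mul_div_comm,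
        show C * A * (C * A) = C ^ 2 * A ^ 2 by ring]
      gcongr
      nlinarith [sq_nonneg B]
  · have hc := RCmp_card_compl j
    have me : Measurable (eabs F) := (continuous_abs.measurable.comp hF.meas).ennreal_ofReal
    have b : ∀ R : Finset (Fin p), R.card < p →
        MargLe R (eabs (sc A s F)) (A / s ^ (3 * R.card) * B) := fun R hR =>
      HMac_margLe me hA.le hs (hF.mg R (by rintro rfl; simp at hR))
        (fun y => (HMac_eabs_sc hA.le s y).le) le_rfl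
    refine ⟨_, _, by positivity, by positivity, b {j} (by rw [Finset.card_singleton]; omega),
      b {j}ᶜ (by omega), ?_⟩
    rw [Finset.card_singleton, show 3 * p = 3 * 1 + 3 * ({j}ᶜ : Finset (Fin p)).card by omega,
      pow_add s (3 * 1), show ∀ a b : ℝ, A / a * B * (A / b * B) = B ^ 2 * A ^ 2 / (a * b) by
        intro a b; ring]
    gcongr
    nlinarith [sq_nonneg C]
  · refine le_of_eq ?_
    split_ifs with e
    · subst e
      ring
    · rw [div_mul_div_comm, div_pow, ← pow_add, ← pow_mul]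
      congr 1
      · ring
      · congr 1
        omega
  · refine div_le_div_of_nonneg_left (by positivity) (by positivity) (pow_le_pow_right₀ hs1 ?_)
    split_ifs <;> omega

theorem RCmp_pow {c : ℝ} (hc : 0 ≤ c) {n : ℕ} (hn : n ≤ 4) : c ^ (2 * n) ≤ (1 + |c|) ^ 8 :=
  (pow_le_pow_left₀ hc (by linarith [le_abs_self c]) _).trans
    (pow_le_pow_right₀ (by linarith [abs_nonneg c]) (by omega))

theorem RCmp_memLp {W : R3 → ℝ} (hW : Pot W) {F : (κ → R3) → ℝ} (hF : Measurable F)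
    (hb : ∃ M : ℝ, ∀ x, |F x| ≤ M) {u : κ → R3 → ℝ} {G : κ → R3 → R3} {c : ℝ}
    (hu : ∀ j, BF W (u j) (G j) c) : MemLp (fun z => F z * tens u z) 2 volume := by
  obtain ⟨M, hM⟩ := hb
  have h := memLp_tens fun j => (hu j).inF.memLp_u hW
  rw [muP_univ] at h
  refine MemLp.of_le_mul (c := M) h (hF.aestronglyMeasurable.mul h.1) (ae_of_all _ fun z => ?_)
  rw [norm_mul]
  exact mul_le_mul_of_nonneg_right (hM z) (norm_nonneg _)

theorem RCmp_kb {m2 : ℝ} {F k : (κ → R3) → ℝ} (h : GD m2 F k) :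
    Measurable k ∧ ∃ M : ℝ, ∀ x, |k x| ≤ M := by
  obtain ⟨M, hM⟩ := h.cb.2
  exact ⟨h.cb.1.continuous.measurable, M, fun x => (hM x).1⟩

theorem RCmp_resid (c : ℝ) : ∃ cR : ℝ, 1 ≤ cR ∧ ∀ {I κ : Type} [Fintype I] [DecidableEq I]
    [Fintype κ] [DecidableEq κ] {W : R3 → ℝ} {S : Set R3} (fr : EFrame I W S)
    (m2 s ε x y : ℝ) (F k : (κ → R3) → ℝ) (u : κ → R3 → ℝ) (G : κ → R3 → R3), Pot W →
    MeasurableSet S → 2 ≤ Fintype.card κ → Fintype.card κ ≤ 4 → Cmp m2 s ε x y F k → m2 ≤ c →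
    (∀ j, BF W (u j) (G j) c) → (∀ j z, z ∉ S → u j z = 0 ∧ G j z = 0) →
    ∃ R2, 0 ≤ R2 ∧ R2 ≤ cR * ε ∧ Resid fr.ν fr.lt (coef fr.e fun z => k z * tens u z)
      (coef fr.e fun z => F z * tens u z) R2 := by
  obtain ⟨cR, h1, h⟩ := resid_bound
  have hK : (1 : ℝ) ≤ (1 + |c|) ^ 8 := one_le_pow₀ (by linarith [abs_nonneg c])
  refine ⟨cR * (1 + |c|) ^ 8 * (2 + c ^ 2), one_le_mul_of_one_le_of_one_le
    (one_le_mul_of_one_le_of_one_le h1 hK) (by linarith [sq_nonneg c]), ?_⟩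
  intro I κ _ _ _ _ W S fr m2 s ε x y F k u G hW hS h2 h4 hc hm hu hsupp
  have hε := hc.ε_pos
  have hs := hc.s_pos
  have hm0 := hc.m2_nonneg
  have hc0 : 0 ≤ c := hm0.trans hm
  refine ⟨_, by positivity, ?_, h fr m2 s ε (ε * s ^ 2) c F k u G hW hS h2 h4 hc.gd hu hsupp hs
    hε.le (by positivity) hc.l2 hc.wg⟩
  rw [show ε * (1 + m2 ^ 2) + ε * s ^ 2 / s ^ 2 = (2 + m2 ^ 2) * ε by field_simp; ring,
    ← mul_assoc]
  have := RCmp_pow hc0 h4
  gcongr

theorem cmp_res (c : ℝ) : ∃ cG : ℝ, 1 ≤ cG ∧ ∀ {I κ : Type} [Fintype I] [DecidableEq I] [Fintype κ]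
    [DecidableEq κ] {W : R3 → ℝ} {S : Set R3} (fr : EFrame I W S) (L : Lv I)
    (μ m2 s ε x y : ℝ) (F k : (κ → R3) → ℝ) (u : κ → R3 → ℝ) (G : κ → R3 → R3), Pot W →
    MeasurableSet S → 2 ≤ Fintype.card κ → Fintype.card κ ≤ 4 → Cmp m2 s ε x y F k → m2 ≤ c →
    (∀ j, BF W (u j) (G j) c) → (∀ j z, z ∉ S → u j z = 0 ∧ G j z = 0) → |μ| ≤ c →
    (∀ a, L.lam a = fr.ν a - μ) → (∀ a, a ∉ L.low → 1 ≤ L.lam a ∧ fr.lt a + 1 ≤ c * L.lam a) →
    L.res (coef fr.e fun z => k z * tens u z) (coef fr.e fun z => F z * tens u z) ≤ cG * ε ∧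
    ∑ α, coef fr.e (fun z => k z * tens u z) α ^ 2 ≤ cG * ε ∧
    ∑ α, L.resK (coef fr.e fun z => F z * tens u z) α ^ 2 ≤ cG * ε := by
  obtain ⟨cR, h1, h⟩ := RCmp_resid c
  obtain ⟨K, hK⟩ : ∃ K : ℝ, K = (1 + |c|) ^ 8 := ⟨_, rfl⟩
  have hK0 : 0 ≤ K := by rw [hK]; positivity
  obtain ⟨c₁, hc₁⟩ : ∃ c₁ : ℝ, c₁ = 2 * |c| * cR + 32 * c ^ 2 * K := ⟨_, rfl⟩
  have hc₁0 : 0 ≤ c₁ := by rw [hc₁]; positivity
  refine ⟨1 + 2 * K + 2 * c₁, by linarith, ?_⟩
  intro I κ _ _ _ _ W S fr L μ m2 s ε x y F k u G hW hS h2 h4 hc hm hu hsupp hμ hl hh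
  have : Nonempty κ := Fintype.card_pos_iff.1 (by omega)
  have hε := hc.ε_pos
  have hc0 : 0 ≤ c := hc.m2_nonneg.trans hm
  obtain ⟨R2, r0, r1, hR⟩ := h fr m2 s ε x y F k u G hW hS h2 h4 hc hm hu hsupp
  obtain ⟨l1, l2⟩ := l2_mul_tens hW (RCmp_kb hc.gd).1 hu hε.le hc.l2
  have b1 : ∑ α, coef fr.e (fun z => k z * tens u z) α ^ 2 ≤ K * ε :=
    (coef_bessel fr.toFrame l1).trans (l2.trans
      (mul_le_mul_of_nonneg_right (hK ▸ RCmp_pow hc0 h4) hε.le))
  have b2 := L.res_le hl hh hc0 r0 hR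
  have b3 : ((Fintype.card κ : ℝ) * μ) ^ 2 ≤ 16 * c ^ 2 := by
    have e4 : (Fintype.card κ : ℝ) ≤ 4 := by exact_mod_cast h4
    rw [mul_pow, ← sq_abs μ, show (16 : ℝ) = 4 ^ 2 by norm_num]
    gcongr
  have b4 : L.res (coef fr.e fun z => k z * tens u z) (coef fr.e fun z => F z * tens u z) ≤
      c₁ * ε := by
    refine b2.trans (le_trans ?_ (le_of_eq (show 2 * c * (cR * ε) + 2 * (16 * c ^ 2) * (K * ε) =
      c₁ * ε by rw [hc₁, abs_of_nonneg hc0]; ring)))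
    gcongr
  have b5 := L.resK_sq_le (fun a ha => (hh a ha).1) (coef fr.e fun z => k z * tens u z)
    (coef fr.e fun z => F z * tens u z)
  have t1 := mul_nonneg hK0 hε.le
  have t2 := mul_nonneg hc₁0 hε.le
  refine ⟨?_, ?_, ?_⟩ <;> nlinarith

theorem RCmp_lowM {W : R3 → ℝ} (hW : Pot W) (fr : Frame I) (L : Lv I) {F : (κ → R3) → ℝ}
    (hF : Measurable F) (hb : ∃ M : ℝ, ∀ x, |F x| ≤ M) {u : κ → R3 → ℝ} {G : κ → R3 → R3}
    {c x : ℝ} (hu : ∀ j, BF W (u j) (G j) c) (hx : Sch F x) (h2 : 2 ≤ Fintype.card κ)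
    (h4 : Fintype.card κ ≤ 4) (hl : (L.low.card : ℝ) ≤ c) :
    0 ≤ x ∧ L.lowM (coef fr.e fun z => F z * tens u z) ≤ 4 * |c| * (1 + |c|) ^ 8 * x := by
  obtain ⟨j₀⟩ : Nonempty κ := Fintype.card_pos_iff.1 (by omega)
  have hc0 : 0 ≤ c := (Nat.cast_nonneg _).trans hl
  have hx0 : 0 ≤ x := by
    obtain ⟨m, m', h0, h0', -, -, h⟩ := hx j₀
    exact (mul_nonneg h0 h0').trans h
  have me : Measurable (eabs F) := (continuous_abs.measurable.comp hF).ennreal_ofReal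
  have hp : 0 ≤ c ^ Fintype.card κ := by positivity
  have hle : ∀ z, eabs (fun z => F z * tens u z) z ≤
      ENNReal.ofReal (c ^ Fintype.card κ) * eabs F z := by
    intro z
    rw [eabs, eabs, ← ENNReal.ofReal_mul hp, abs_mul, mul_comm]
    refine ENNReal.ofReal_le_ofReal (mul_le_mul_of_nonneg_right ?_ (abs_nonneg _))
    rw [tens, Finset.abs_prod, ← Finset.card_univ, ← Finset.prod_const]
    exact Finset.prod_le_prod (fun _ _ => abs_nonneg _) fun j _ => (hu j).bdd _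
  refine ⟨hx0, (low_mass L (x := (1 + |c|) ^ 8 * x) (by positivity) fun j => ?_).trans ?_⟩
  · obtain ⟨m, m', h0, h0', a, a', h⟩ := hx j
    refine (bil_schur L fr (RCmp_memLp hW hF hb hu) (me.const_mul _) hle {j} (mul_nonneg hp h0)
      (mul_nonneg hp h0') (NTb_const me hp a) (NTb_const me hp a')).mono fun _ _ => ?_
    rw [mul_mul_mul_comm, ← pow_add, ← two_mul]
    exact mul_le_mul (RCmp_pow hc0 h4) h (mul_nonneg h0 h0') (by positivity)
  · have e4 : (Fintype.card κ : ℝ) ≤ 4 := by exact_mod_cast h4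
    rw [← mul_assoc, abs_of_nonneg hc0]
    gcongr

theorem cmp_low (c : ℝ) : ∃ cG : ℝ, 1 ≤ cG ∧ ∀ {κ : Type} [Fintype κ] [DecidableEq κ]
    {W : R3 → ℝ} (B : EB univ W) (M : ℝ) (L : Lv (B.I M))
    (m2 s ε x y : ℝ) (F k : (κ → R3) → ℝ) (u : κ → R3 → ℝ) (G : κ → R3 → R3), Pot W →
    2 ≤ Fintype.card κ → Fintype.card κ ≤ 4 → Cmp m2 s ε x y F k → m2 ≤ c →
    (∀ j, BF W (u j) (G j) c) → (L.low.card : ℝ) ≤ c →
    L.lowM (coef (B.eM M) fun z => k z * tens u z) ≤ cG * x ∧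
    L.lowM (coef (B.eM M) fun z => F z * tens u z) ≤ cG * y ∧
    ∑ α : κ → B.I M, (if L.Hi α then 0 else (∑ j, (B.ν (α j).1 + 1)) *
      coef (B.eM M) (fun z => k z * tens u z) α ^ 2) ≤ cG * ε := by
  obtain ⟨cR, h1, h⟩ := RCmp_resid c
  obtain ⟨K, hK⟩ : ∃ K : ℝ, K = 4 * |c| * (1 + |c|) ^ 8 := ⟨_, rfl⟩
  have hK0 : 0 ≤ K := by rw [hK]; positivity
  refine ⟨10 * K + cR, by linarith, ?_⟩
  intro κ _ _ W B M L m2 s ε x y F k u G hW h2 h4 hc hm hu hl
  have hε := hc.ε_pos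
  obtain ⟨R2, r0, r1, hR⟩ := h (B.frame hW M) m2 s ε x y F k u G hW MeasurableSet.univ h2 h4 hc hm
    hu fun _ z hz => absurd (mem_univ z) hz
  obtain ⟨x0, a1⟩ := RCmp_lowM hW (B.frame hW M).toFrame L (RCmp_kb hc.gd).1 (RCmp_kb hc.gd).2 hu
    hc.sk h2 h4 hl
  obtain ⟨y0, a2⟩ := RCmp_lowM hW (B.frame hW M).toFrame L hc.gd.mF hc.gd.bF hu hc.sF h2 h4 hl
  rw [← hK, EB.frame_e] at a1 a2
  have a3 := L.low_energy_le (ν := fun a : B.I M => B.ν a.1) (fun a => B.ν_nonneg hW a.1) r0 hR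
  rw [EB.frame_e] at a3
  refine ⟨a1.trans (mul_le_mul_of_nonneg_right (by linarith) x0),
    a2.trans (mul_le_mul_of_nonneg_right (by linarith) y0), a3.trans ?_⟩
  have a4 : √(L.lowM (coef (B.eM M) fun z => k z * tens u z) *
      L.lowM (coef (B.eM M) fun z => F z * tens u z)) ≤ K * ε := by
    refine Real.sqrt_le_iff.2 ⟨by positivity, (mul_le_mul a1 a2 (L.lowM_nonneg _)
      (by positivity)).trans ?_⟩
    rw [mul_mul_mul_comm, mul_pow, ← sq]
    exact mul_le_mul_of_nonneg_left hc.xy (sq_nonneg _)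
  have e4 : (Fintype.card κ : ℝ) ≤ 4 := by exact_mod_cast h4
  have a5 : (Fintype.card κ : ℝ) * L.lowM (coef (B.eM M) fun z => k z * tens u z) ≤
      4 * (K * ε) :=
    mul_le_mul e4 (a1.trans (mul_le_mul_of_nonneg_left hc.x_le hK0)) (L.lowM_nonneg _)
      (by norm_num)
  linarith

theorem RCmp_tendsto {W : R3 → ℝ} (hW : Pot W) (B : EB univ W) {m2 c : ℝ} {F k : (κ → R3) → ℝ}
    (h : GD m2 F k) {u u' : κ → R3 → ℝ} {G G' : κ → R3 → R3} (hu : ∀ j, BF W (u j) (G j) c)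
    (hu' : ∀ j, BF W (u' j) (G' j) c) :
    Tendsto (fun M : ℝ => ∑ α : κ → B.I M,
      (coef (B.eM M) (fun z => k z * tens u z) α * coef (B.eM M) (fun z => F z * tens u' z) α +
        coef (B.eM M) (fun z => k z * tens u' z) α * coef (B.eM M) (fun z => F z * tens u z) α -
        (∑ j, B.ν (α j).1) * coef (B.eM M) (fun z => k z * tens u z) α *
          coef (B.eM M) (fun z => k z * tens u' z) α)) atTop
      (𝓝 ((∫ z, F z * k z * tens u z * tens u' z) + (∫ z, F z * k z * tens u z * tens u' z) -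
        ∑ j, qleg univ W j (fun x => k x * tens u x) (gmul k u G j) (fun x => k x * tens u' x)
          (gmul k u' G' j))) := by
  have m1 := RCmp_memLp hW (RCmp_kb h).1 (RCmp_kb h).2 hu
  have m2 := RCmp_memLp hW (RCmp_kb h).1 (RCmp_kb h).2 hu'
  have m3 := RCmp_memLp hW h.mF h.bF hu
  have m4 := RCmp_memLp hW h.mF h.bF hu'
  rw [← muP_univ] at m1 m2 m3 m4
  have t1 := B.parseval hW m1 m4
  have t2 := B.parseval hW m2 m3
  have t3 := tendsto_finsetSum (Finset.univ : Finset κ) fun j _ => B.parseval_leg hW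
    (legF_mul hW h.cb (fun i => (hu i).inF) j) (legF_mul hW h.cb (fun i => (hu' i).inF) j)
  rw [muP_univ, show (fun z => k z * tens u z * (F z * tens u' z)) =
    fun z => F z * k z * tens u z * tens u' z from funext fun z => by ring] at t1
  rw [muP_univ, show (fun z => k z * tens u' z * (F z * tens u z)) =
    fun z => F z * k z * tens u z * tens u' z from funext fun z => by ring] at t2
  refine ((t1.add t2).sub t3).congr fun M => ?_
  simp only [coefO_univ, Finset.sum_sub_distrib, Finset.sum_add_distrib, Finset.sum_mul]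
  rw [Finset.sum_comm]

theorem cmp_gam (c : ℝ) : ∃ cG : ℝ, 1 ≤ cG ∧ ∀ {κ : Type} [Fintype κ] [DecidableEq κ]
    {W : R3 → ℝ} (B : EB univ W) (μ m2 s ε x y : ℝ) (F k : (κ → R3) → ℝ) (u u' : κ → R3 → ℝ)
    (G G' : κ → R3 → R3), Pot W → 2 ≤ Fintype.card κ → Fintype.card κ ≤ 4 →
    Cmp m2 s ε x y F k → m2 ≤ c → (∀ j, BF W (u j) (G j) c) → (∀ j, BF W (u' j) (G' j) c) →
    0 ≤ μ → μ ≤ c →
    ∀ᶠ M : ℝ in atTop, ∀ L : Lv (B.I M), (∀ a, L.lam a = B.ν a.1 - μ) →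
      (∀ a, a ∉ L.low → 1 ≤ L.lam a) → (L.low.card : ℝ) ≤ c →
      |(∑ α, L.resK (coef (B.eM M) fun z => F z * tens u z) α *
          coef (B.eM M) (fun z => F z * tens u' z) α) -
        ∫ z, F z * k z * tens u z * tens u' z| ≤ cG * ε := by
  obtain ⟨c₁, h1, H1⟩ := cmp_res (|c| + 2)
  obtain ⟨c₂, h2, H2⟩ := cmp_low c
  obtain ⟨K, hK⟩ : ∃ K : ℝ, K = (1 + |c|) ^ 8 := ⟨_, rfl⟩
  have hK0 : 0 ≤ K := by rw [hK]; positivity
  have ha := abs_nonneg c
  have p1 : 0 ≤ (4 + 4 * |c|) * (c₁ + c₂) := by positivity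
  have p2 : 0 ≤ (4 + |c|) * K := by positivity
  refine ⟨(4 + 4 * |c|) * (c₁ + c₂) + (4 + |c|) * K + 1, by linarith, ?_⟩
  intro κ _ _ W B μ m2 s ε x y F k u u' G G' hW k2 k4 hc hm hu hu' hμ0 hμ
  have : Nonempty κ := Fintype.card_pos_iff.1 (by omega)
  have hε := hc.ε_pos
  have hc0 : 0 ≤ c := hμ0.trans hμ
  have hca : c ≤ |c| + 2 := by linarith [le_abs_self c]
  have e4 : (Fintype.card κ : ℝ) ≤ 4 := by exact_mod_cast k4
  have q := qleg_sum_approx hW hc.gd hu hu' hc.m2_nonneg hε.le hc.l2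
  have q' : ((Fintype.card κ : ℝ) + m2) * c ^ (2 * Fintype.card κ) * ε ≤ (4 + |c|) * K * ε := by
    have := hK ▸ RCmp_pow hc0 k4
    have := hm.trans (le_abs_self c)
    gcongr
  filter_upwards [Metric.tendsto_nhds.1 (RCmp_tendsto hW B hc.gd hu hu') ε hε] with M hM L hl hh hlow
  have hh' : ∀ a, a ∉ L.low → 1 ≤ L.lam a ∧ (B.frame hW M).lt a + 1 ≤ (|c| + 2) * L.lam a := by
    intro a e
    have e1 := hh a e
    have e2 := hl a
    refine ⟨e1, ?_⟩
    change B.ν a.1 + 1 ≤ _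
    nlinarith [le_abs_self c]
  have hμ' : |μ| ≤ |c| + 2 := by rw [abs_of_nonneg hμ0]; linarith
  obtain ⟨a1, a2, -⟩ := H1 (B.frame hW M) L μ m2 s ε x y F k u G hW MeasurableSet.univ k2 k4 hc
    (hm.trans hca) (fun j => (hu j).mono hca) (fun _ z hz => absurd (mem_univ z) hz) hμ' hl hh'
  obtain ⟨a1', a2', -⟩ := H1 (B.frame hW M) L μ m2 s ε x y F k u' G' hW MeasurableSet.univ k2 k4 hc
    (hm.trans hca) (fun j => (hu' j).mono hca) (fun _ z hz => absurd (mem_univ z) hz) hμ' hl hh'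
  rw [EB.frame_e] at a1 a2 a1' a2'
  obtain ⟨b1, b2, b3⟩ := H2 B M L m2 s ε x y F k u G hW k2 k4 hc hm hu hlow
  obtain ⟨b1', b2', b3'⟩ := H2 B M L m2 s ε x y F k u' G' hW k2 k4 hc hm hu' hlow
  have d1 : c₁ * ε ≤ (c₁ + c₂) * ε := mul_le_mul_of_nonneg_right (by linarith) hε.le
  have d2 : c₂ * ε ≤ (c₁ + c₂) * ε := mul_le_mul_of_nonneg_right (by linarith) hε.le
  have d3 : ∀ {T T' : (κ → B.I M) → ℝ}, L.lowM T ≤ c₂ * x → L.lowM T' ≤ c₂ * y →
      L.lowM T * L.lowM T' ≤ ((c₁ + c₂) * ε) ^ 2 := by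
    intro T T' e e'
    refine (mul_le_mul e e' (L.lowM_nonneg _) ((L.lowM_nonneg _).trans e)).trans ?_
    rw [mul_mul_mul_comm, ← sq]
    refine (mul_le_mul_of_nonneg_left hc.xy (sq_nonneg _)).trans ?_
    rw [← mul_pow]
    exact pow_le_pow_left₀ (by positivity) d2 2
  have g := L.gam_bil (ν := fun a : B.I M => B.ν a.1) hl hμ0 (fun a => B.ν_nonneg hW a.1)
    (fun a e => one_pos.trans_le (hh a e)) (by positivity) (a1.trans d1) (a1'.trans d1)
    (a2.trans d1) (a2'.trans d1) (d3 b1 b2') (d3 b1' b2) (b3.trans d2) (b3'.trans d2)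
  have g' : (4 + (Fintype.card κ : ℝ) * μ) * ((c₁ + c₂) * ε) ≤
      (4 + 4 * |c|) * ((c₁ + c₂) * ε) := by
    have := hμ.trans (le_abs_self c)
    gcongr
  rw [Real.dist_eq] at hM
  have g1 := abs_le.1 (g.trans g')
  have g2 := abs_lt.1 hM
  have g3 := abs_le.1 (q.trans q')
  rw [abs_le]
  constructor <;> nlinarith [g1.1, g1.2, g2.1, g2.2, g3.1, g3.2]

end Pool.Agent.Lib.MP_8fe63c_mp
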