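import Pool.Agent.Lib.MP_8fe63c_mp.BId
import Pool.Agent.Lib.MP_8fe63c_mp.RCmp

/-!
The effective coupling in a box is almost the scattering energy.

Sketch. `bx_GA`: let `F = sc (s^2) s F3o`, `k = kap (s^2) s 1 F3o`, `Ω = coef fr.e (k * Φ)`. `exists_cmp` (`p = 3`,
`A = s^2`, `mm = 1`) gives `Cmp` with `ε = C/s^6`. `Lv.gam_le`; `cmp_res` (with `c` larger than `κ/l^2` and
`3 + 24 κ^2`, `BF.mono`, `μ = 0`) bounds `res`; `∑ tot Ω^2 ≤ ∑ j, qleg j (k Φ) (k Φ)` by `EFrame.bessel_leg`,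
`legF_mul`, `u_zero`; `qleg_sum_approx` with `n₂ = ε`; finally `|k x - ω (s • x)| ≤ C/s^2` by `Mac.diff` and
`ω_eq`, and `int_le`, `Φ_sq`. `bx_loc`: `locA` with `q = 2`, `mom_of_supp` (`F3o x ≠ 0` implies `U x ≠ 0`),
`BF.lip2`, `Lip2.mul`, `θ^6 ≤ θ^3`, `Cutoffs.big`. `bx_value`: with `P = s^2/l^9`, `I₁ = ∫ F3o ∏ θ`,
`I₂ = ∫ F3o ∏ θ^2`, `I₃ = ∫ F3o ω ∏ θ^2`: `B0 = P (2 I₁ - I₂ + I₃) - GA`, `|I₃| ≤ K^2 l^3/s^6` (`int_le`); take
`δ = η'/(2 K^2)`.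
-/

set_option linter.unusedSectionVars false

open MeasureTheory Set Filter Topology
open scoped ENNReal InnerProductSpace

namespace Pool.Agent.Lib.MP_8fe63c_mp

variable {ι : Type} [Fintype ι] [DecidableEq ι]

variable {U : (Fin 3 → R3) → ℝ}

theorem BVal_mω (S : Micro U) (s : ℝ) : Measurable fun x : Fin 3 → R3 => S.ω (s • x) :=
  S.ω_meas.comp (HMac_meas_smul s)

/-- the Green function can be replaced by the scattering solution -/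
theorem BVal_int (S : Micro U) {K C₂ l κ η s : ℝ} (hK : MicroB S K) {c : R3} (X : Bx c l κ η)
    (hs : 1 ≤ s) (h : Mac (s ^ 2) s 1 C₂ (F3o U S.ω)) :
    ∫ x, sc (s ^ 2) s (F3o U S.ω) x * kap (s ^ 2) s 1 (F3o U S.ω) x * X.Φ x * X.Φ x ≤
      s ^ 2 / l ^ 9 * (∫ x : Fin 3 → R3, F3o U S.ω (s • x) * S.ω (s • x) * ∏ j, X.θ (x j) ^ 2) +
        K * C₂ / l ^ 6 / s ^ 6 := by
  have hs0 : 0 < s := one_pos.trans_le hs
  have hl := X.l_pos
  have mk : Measurable (kap (s ^ 2) s 1 (F3o U S.ω)) := h.gd.cb.1.continuous.measurable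
  have hd : ∀ x, |kap (s ^ 2) s 1 (F3o U S.ω) x - S.ω (s • x)| ≤ C₂ / s ^ 2 := by
    intro x
    have h1 := h.diff x
    rw [if_neg (by norm_num), div_self (by positivity), one_mul, ← S.ω_eq] at h1
    refine h1.trans (le_of_eq ?_)
    field_simp
  obtain ⟨i1, -⟩ := X.int_le hK.n3.toNice0 hs0 (BVal_mω S s) (fun x => S.ω_bdd (s • x))
    (n := 2) one_le_two
  obtain ⟨i2, b2⟩ := X.int_le hK.n3.toNice0 hs0 (mk.fun_sub (BVal_mω S s)) hd (n := 2) one_le_two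
  have e : ∫ x, sc (s ^ 2) s (F3o U S.ω) x * kap (s ^ 2) s 1 (F3o U S.ω) x * X.Φ x * X.Φ x =
      s ^ 2 / l ^ 9 * ((∫ x : Fin 3 → R3, F3o U S.ω (s • x) * S.ω (s • x) * ∏ j, X.θ (x j) ^ 2) +
        ∫ x : Fin 3 → R3, F3o U S.ω (s • x) * (kap (s ^ 2) s 1 (F3o U S.ω) x - S.ω (s • x)) *
          ∏ j, X.θ (x j) ^ 2) := by
    rw [← integral_add i1 i2, ← integral_const_mul]
    refine integral_congr_ae (Eventually.of_forall fun x => ?_)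
    simp only
    rw [mul_assoc, X.Φ_sq, sc]
    ring
  rw [e, mul_add]
  refine add_le_add_right ((mul_le_mul_of_nonneg_left (le_of_abs_le b2) (by positivity)).trans
    (le_of_eq ?_)) _
  field_simp

/-- Bessel inequality for the kinetic energy -/
theorem BVal_bes {l κ η M : ℝ} {c : R3} (X : Bx c l κ η) (hM : 0 ≤ M)
    {fr : EFrame (X.B.I M) (fun _ => 0) (tsupport X.θ)} (h : X.IsFr fr) {k : (Fin 3 → R3) → ℝ}
    (hk : Cb1 k) :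
    ∑ α, (X.lv hM).tot α * coef fr.e (fun z => k z * tens (fun _ => X.u) z) α ^ 2 ≤
      ∑ j, qleg univ (fun _ => 0) j (fun x => k x * tens (fun _ => X.u) x)
        (gmul k (fun _ => X.u) (fun _ => gradient X.u) j) (fun x => k x * tens (fun _ => X.u) x)
        (gmul k (fun _ => X.u) (fun _ => gradient X.u) j) := by
  simp only [Lv.tot, Finset.sum_mul]
  rw [Finset.sum_comm]
  refine Finset.sum_le_sum fun j _ => ?_
  refine le_trans (le_of_eq ?_) (fr.bessel_leg pot_zero (isClosed_tsupport _).measurableSet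
    (legF_mul pot_zero hk (fun _ => X.bf_u.inF) j) fun x hx => ?_)
  · refine Finset.sum_congr rfl fun α _ => ?_
    rw [h.ν_eq]
    rfl
  · obtain ⟨h1, h2⟩ := X.u_zero _ hx
    have h3 : tens (fun _ => X.u) x = 0 := Finset.prod_eq_zero (Finset.mem_univ j) h1
    simp [gmul, gtens, h2, h3]

theorem bx_GA (S : Micro U) {κ l δ : ℝ} (hκ : 1 ≤ κ) (hl : 0 < l) (hδ : 0 < δ) : ∃ C : ℝ, 0 ≤ C ∧
    ∀ {c : R3} {η : ℝ} (X : Bx c l κ η) {s M : ℝ} (hM : 0 ≤ M) (w : X.B.I M → X.B.I M → ℝ),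
      1 ≤ s →
      (X.dat U S.ω s hM w).GA ((X.dat U S.ω s hM w).oo 3) ((X.dat U S.ω s hM w).oo 3) ≤
        (1 + δ) * (s ^ 2 / l ^ 9 *
          ∫ x : Fin 3 → R3, F3o U S.ω (s • x) * S.ω (s • x) * ∏ j, X.θ (x j) ^ 2) + C / s ^ 6 := by
  obtain ⟨K, hK⟩ := S.exists_B
  obtain ⟨C₁, hC₁, H₁⟩ := exists_cmp 3 (by norm_num) K
  obtain ⟨C₂, hC₂, H₂⟩ := exists_mac 3 (by norm_num) K
  obtain ⟨c₀, hc₀⟩ : ∃ c₀ : ℝ, c₀ = κ / l ^ 2 + (3 + 24 * κ ^ 2) := ⟨_, rfl⟩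
  obtain ⟨cG, hcG, H₃⟩ := cmp_res c₀
  have hK1 : 1 ≤ K := hK.n3.one_le
  have p1 : 0 ≤ κ / l ^ 2 := by positivity
  have p2 : 0 ≤ κ ^ 2 := sq_nonneg _
  have p3 : 1 ≤ c₀ := by linarith
  refine ⟨(1 + δ) * (4 * c₀ ^ 6 * C₁ + K * C₂ / l ^ 6) + (1 + 1 / δ) * (cG * C₁), by positivity,
    fun {c η} X {s M} hM w hs => ?_⟩
  have hs0 : 0 < s := one_pos.trans_le hs
  obtain ⟨fr, hfr⟩ := X.exists_fr M
  have hc := H₁ (F3o U S.ω) (s ^ 2) s 1 hK.n3 (by positivity) le_rfl hs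
  have hm := H₂ (F3o U S.ω) (s ^ 2) s 1 hK.n3 (by positivity) le_rfl hs
  have e1 : C₁ * (s ^ 2) ^ 2 / s ^ (if 3 = 2 then 6 else 3 * 3 + 1) = C₁ / s ^ 6 := by
    rw [if_neg (by norm_num)]
    field_simp
  rw [e1] at hc
  have hu : ∀ _j : Fin 3, BF (fun _ => 0) X.u (gradient X.u) c₀ :=
    fun _ => X.bf_u.mono (by linarith)
  have hh : ∀ a, a ∉ (X.lv hM).low →
      1 ≤ (X.lv hM).lam a ∧ fr.lt a + 1 ≤ c₀ * (X.lv hM).lam a := by
    intro a ha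
    obtain ⟨h1, h2⟩ := X.lv_hi hM hfr a ha
    have h3 := X.Λ_ge.trans h1
    refine ⟨h3, ?_⟩
    have h4 : 0 ≤ κ / l ^ 2 * (X.lv hM).lam a := by positivity
    rw [hc₀]
    linarith
  obtain ⟨a1, -, -⟩ := H₃ fr (X.lv hM) 0 _ _ _ _ _ _ _ (fun _ => X.u) (fun _ => gradient X.u)
    pot_zero (isClosed_tsupport _).measurableSet (by simp) (by simp) hc (by simpa using p3) hu
    (fun _ z hz => X.u_zero z hz) (by simpa using zero_le_one.trans p3)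
    (fun a => by rw [hfr.ν_eq, sub_zero]; rfl) hh
  have a2 := (X.lv hM).gam_le (fun a => X.ν_nonneg a.1) (fun a ha => one_pos.trans_le (hh a ha).1)
    (coef fr.e fun z => kap (s ^ 2) s 1 (F3o U S.ω) z * tens (fun _ => X.u) z)
    (coef fr.e fun z => sc (s ^ 2) s (F3o U S.ω) z * tens (fun _ => X.u) z) hδ
  have a3 := BVal_bes X hM hfr hc.gd.cb
  have a4 := le_of_abs_le (qleg_sum_approx pot_zero hc.gd hu hu hc.m2_nonneg hc.ε_pos.le hc.l2)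
  have a5 := BVal_int S hK X hs hm
  have e2 : (X.dat U S.ω s hM w).FA ((X.dat U S.ω s hM w).oo 3) =
      coef fr.e fun z => sc (s ^ 2) s (F3o U S.ω) z * tens (fun _ => X.u) z :=
    funext fun α => X.F3_eq S hM w hfr α _
  rw [Dat.GA, e2]
  refine a2.trans ?_
  rw [Fintype.card_fin] at a4
  have a6 := mul_le_mul_of_nonneg_left (a3.trans (sub_le_iff_le_add.1 a4) |>.trans
    (add_le_add_right a5 _)) (by positivity : 0 ≤ 1 + δ)
  have a7 := mul_le_mul_of_nonneg_left a1 (by positivity : 0 ≤ 1 + 1 / δ)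
  refine (add_le_add a6 a7).trans (le_of_eq ?_)
  push_cast
  ring

theorem bx_loc (S : Micro U) (hb : 0 ≤ relInt (F3o U S.ω)) {κ : ℝ} (hκ : 1 ≤ κ) :
    ∃ C : ℝ, 0 ≤ C ∧
    ∀ {c : R3} {l η : ℝ} (X : Bx c l κ η) {s : ℝ}, 1 ≤ s →
      (1 - η) * relInt (F3o U S.ω) * l ^ 3 / s ^ 6 - C / s ^ 8 ≤
        2 * (∫ x : Fin 3 → R3, F3o U S.ω (s • x) * ∏ j, X.θ (x j)) -
          ∫ x : Fin 3 → R3, F3o U S.ω (s • x) * ∏ j, X.θ (x j) ^ 2 := by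
  obtain ⟨K, hK⟩ := S.exists_B
  have hK1 : 1 ≤ K := hK.n3.one_le
  refine ⟨(2 * (64 * κ ^ 3) + 64 * (2 * κ * κ) ^ 3) * (K * S.K ^ 2), by positivity,
    fun {c l η} X {s} hs => ?_⟩
  have hs0 : 0 < s := one_pos.trans_le hs
  have hm := mom_of_supp hK.n3.toNice0 hs0 (K := S.K)
    fun x hx => S.pot.supp x (left_ne_zero_of_mul hx)
  have l1 := X.bf_θ.lip2 pot_zero
  have a1 : |(∫ x : Fin 3 → R3, F3o U S.ω (s • x) * ∏ j, X.θ (x j)) -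
      relInt (F3o U S.ω) / s ^ 6 * ∫ y, X.θ y ^ 3| ≤ 64 * κ ^ 3 * (K * S.K ^ 2 / s ^ 2) / s ^ 6 :=
    locA (q := 2) one_le_two (by norm_num) hK.n3.toNice0 hs0 (by positivity) hm l1
  have a2 : |(∫ x : Fin 3 → R3, F3o U S.ω (s • x) * ∏ j, (X.θ (x j) * X.θ (x j))) -
      relInt (F3o U S.ω) / s ^ 6 * ∫ y, (X.θ y * X.θ y) ^ 3| ≤
      64 * (2 * κ * κ) ^ 3 * (K * S.K ^ 2 / s ^ 2) / s ^ 6 :=
    locA (q := 2) one_le_two (by norm_num) hK.n3.toNice0 hs0 (by positivity) hm (l1.mul l1)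
  have hi : Integrable fun y => X.θ y ^ 3 := by
    have h1 : Continuous fun y => X.θ y ^ 3 := X.cut.cθ.1.continuous.pow 3
    have h2 : HasCompactSupport fun y => X.θ y ^ 3 :=
      X.cut.cθ.2.comp_left (g := fun t : ℝ => t ^ 3) (by simp)
    exact h1.integrable_of_hasCompactSupport h2
  have a3 : ∫ y, (X.θ y * X.θ y) ^ 3 ≤ ∫ y, X.θ y ^ 3 := by
    refine integral_mono_of_nonneg (Eventually.of_forall fun y => ?_) hi
      (Eventually.of_forall fun y => ?_)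
    · exact pow_nonneg (mul_self_nonneg _) 3
    · exact pow_le_pow_left₀ (mul_self_nonneg _)
        (mul_le_of_le_one_left (X.cut.r y).1 (X.cut.r y).2) 3
  have p : 0 ≤ relInt (F3o U S.ω) / s ^ 6 := by positivity
  have a4 := mul_le_mul_of_nonneg_left a3 p
  have a5 := mul_le_mul_of_nonneg_left X.cut.big p
  have e1 : (2 * (64 * κ ^ 3) + 64 * (2 * κ * κ) ^ 3) * (K * S.K ^ 2) / s ^ 8 =
      2 * (64 * κ ^ 3 * (K * S.K ^ 2 / s ^ 2) / s ^ 6) +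
        64 * (2 * κ * κ) ^ 3 * (K * S.K ^ 2 / s ^ 2) / s ^ 6 := by
    field_simp
  have e2 : (1 - η) * relInt (F3o U S.ω) * l ^ 3 / s ^ 6 =
      relInt (F3o U S.ω) / s ^ 6 * ((1 - η) * l ^ 3) := by ring
  simp only [sq (X.θ _)]
  rw [e1, e2]
  linarith [(abs_le.1 a1).1, (abs_le.1 a2).2]

theorem bx_value (S : Micro U) (hb : 0 ≤ relInt (F3o U S.ω)) {κ l η' : ℝ} (hκ : 1 ≤ κ)
    (hl : 0 < l) (hη' : 0 < η') : ∃ s₀ : ℝ, 1 ≤ s₀ ∧
    ∀ {c : R3} {η : ℝ} (X : Bx c l κ η) {s M : ℝ} (hM : 0 ≤ M) (w : X.B.I M → X.B.I M → ℝ),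
      s₀ ≤ s → ((1 - η) * relInt (F3o U S.ω) - η') / (l ^ 6 * s ^ 4) ≤ (X.dat U S.ω s hM w).B0 := by
  obtain ⟨K, hK⟩ := S.exists_B
  have hK1 : 1 ≤ K := hK.n3.one_le
  obtain ⟨C, hC, H⟩ := bx_GA S hκ hl (δ := η' / (2 * K ^ 2)) (by positivity)
  obtain ⟨C', hC', H'⟩ := bx_loc S hb hκ
  have p0 : 0 ≤ 2 * l ^ 6 * (C + C' / l ^ 9) / η' := by positivity
  refine ⟨1 + 2 * l ^ 6 * (C + C' / l ^ 9) / η', by linarith, fun {c η} X {s M} hM w hs => ?_⟩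
  have hs1 : 1 ≤ s := by linarith
  have hs0 : 0 < s := one_pos.trans_le hs1
  have a1 := H X hM w hs1
  have p : 0 ≤ s ^ 2 / l ^ 9 := by positivity
  have a2 := mul_le_mul_of_nonneg_left (H' X hs1) p
  obtain ⟨i3, b3⟩ := X.int_le hK.n3.toNice0 hs0 (BVal_mω S s)
    (fun x => (S.ω_bdd (s • x)).trans hK.K_le) (n := 2) one_le_two
  obtain ⟨i2, -⟩ := X.int_le hK.n3.toNice0 hs0 (T := fun _ => 1) measurable_const (k := 1)
    (fun _ => by simp) (n := 2) one_le_two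
  simp only [mul_one] at i2
  have e : ∫ x : Fin 3 → R3, F3o U S.ω (s • x) * (1 - S.ω (s • x)) * ∏ j, X.θ (x j) ^ 2 =
      (∫ x : Fin 3 → R3, F3o U S.ω (s • x) * ∏ j, X.θ (x j) ^ 2) -
        ∫ x : Fin 3 → R3, F3o U S.ω (s • x) * S.ω (s • x) * ∏ j, X.θ (x j) ^ 2 := by
    rw [← integral_sub i2 i3]
    refine integral_congr_ae (Eventually.of_forall fun x => ?_)
    simp only
    ring
  have a3 := mul_le_mul_of_nonneg_left (mul_le_mul_of_nonneg_left (le_of_abs_le b3) p)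
    (by positivity : 0 ≤ η' / (2 * K ^ 2))
  have e3 : η' / (2 * K ^ 2) * (s ^ 2 / l ^ 9 * (K * K * l ^ 3 / s ^ 6)) =
      η' / 2 / (l ^ 6 * s ^ 4) := by
    field_simp
  have e4 : s ^ 2 / l ^ 9 * ((1 - η) * relInt (F3o U S.ω) * l ^ 3 / s ^ 6 - C' / s ^ 8) =
      (1 - η) * relInt (F3o U S.ω) / (l ^ 6 * s ^ 4) - C' / l ^ 9 / s ^ 6 := by
    field_simp
  have a4 : C / s ^ 6 + C' / l ^ 9 / s ^ 6 ≤ η' / 2 / (l ^ 6 * s ^ 4) := by
    have h1 : 2 * l ^ 6 * (C + C' / l ^ 9) / η' ≤ s ^ 2 := by nlinarith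
    rw [div_le_iff₀ hη'] at h1
    rw [← add_div, div_le_div_iff₀ (by positivity) (by positivity)]
    have h2 := mul_le_mul_of_nonneg_right h1 (by positivity : 0 ≤ s ^ 4)
    linarith
  have e5 : ((1 - η) * relInt (F3o U S.ω) - η') / (l ^ 6 * s ^ 4) =
      (1 - η) * relInt (F3o U S.ω) / (l ^ 6 * s ^ 4) - 2 * (η' / 2 / (l ^ 6 * s ^ 4)) := by ring
  rw [e3] at a3
  rw [e4] at a2
  rw [e5, Dat.B0, X.F3_oo, X.y3_sq, e]
  linarith

end Pool.Agent.Lib.MP_8fe63c_mp
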