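import Pool.Agent.Lib.MP_8fe63c_mp.BW
import Pool.Agent.Lib.MP_8fe63c_mp.BNorm
import Pool.Agent.Lib.MP_8fe63c_mp.BVal
import Pool.Agent.Lib.MP_8fe63c_mp.ARough

/-!
The lower bound for few particles in a small Neumann box.
-/

set_option linter.unusedSectionVars false

open MeasureTheory Set Filter Topology
open scoped ENNReal InnerProductSpace

namespace Pool.Agent.Lib.MP_8fe63c_mp

/-- the numerical conditions of the rough algebraic bound -/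
theorem BBox_num {n t s l C ρ ϑ : ℝ} (hn : n = t * s ^ 2 * l ^ 3) (ht0 : 0 ≤ t) (ht : t ≤ ρ)
    (hρ : 1 ≤ ρ) (hs : 1 ≤ s) (hl : 0 < l) (hl1 : l ≤ 1 / 4) (hC : 1 ≤ C)
    (hϑ : 12 * l * (C * ρ ^ 4) ≤ ϑ) :
    n ^ 3 * (C * s ^ 4 / l ^ 9 / s ^ 11) ≤ ϑ * (1 / (12 * l ^ 2)) ∧
    n ^ 4 * (C * s ^ 4 / l ^ 9 * 1 / s ^ 12) ≤ ϑ * (1 / (12 * l ^ 2)) ∧
    n ^ 4 * (C * s ^ 4 / l ^ 9 / (1 * s ^ 12)) ≤ ϑ ∧
    n ^ 4 * (C / (l ^ 9 * s ^ 2) / s ^ 5) ≤ C * ρ ^ 4 * s ∧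
    n ^ 4 * (C / (l ^ 12 * s ^ 2) / (s ^ 6 * (1 / (12 * l ^ 2)))) ≤ ϑ * (1 / (12 * l ^ 2)) ∧
    n ^ 3 * (1 / (12 * l ^ 2)) * (C / (l ^ 6 * s ^ 5)) ≤ C * ρ ^ 4 * s ∧
    n ^ 4 * (1 / (12 * l ^ 2)) * (C / (l ^ 9 * s ^ 8)) ≤ C * ρ ^ 4 * s ∧
    n ^ 4 * (C / (l ^ 12 * s ^ 8)) ≤ ϑ * (1 / (12 * l ^ 2)) ∧
    n ^ 2 * (C / (l ^ 6 * s ^ 4)) ≤ ϑ * (1 / (12 * l ^ 2)) := by
  have hs0 : 0 < s := by linarith
  have hC0 : 0 ≤ C := by linarith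
  have hρ0 : 0 ≤ ρ := by linarith
  have hk : ∀ k, k ≤ 4 → C * t ^ k ≤ C * ρ ^ 4 := fun k hk =>
    mul_le_mul_of_nonneg_left ((pow_le_pow_left₀ ht0 ht k).trans (pow_le_pow_right₀ hρ hk)) hC0
  have hD : 0 ≤ C * ρ ^ 4 := by positivity
  have h1 : C * ρ ^ 4 ≤ ϑ * (1 / (12 * l ^ 2)) := by
    rw [mul_one_div, le_div_iff₀ (by positivity)]
    have : l * (12 * l * (C * ρ ^ 4)) ≤ 1 * (12 * l * (C * ρ ^ 4)) :=
      mul_le_mul_of_nonneg_right (by linarith) (by positivity)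
    nlinarith
  have hD1 : C * ρ ^ 4 ≤ C * ρ ^ 4 * s := le_mul_of_one_le_right hD hs
  have hmul : ∀ {a x : ℝ}, 0 ≤ a → a ≤ C * ρ ^ 4 → x ≤ 1 → a * x ≤ C * ρ ^ 4 :=
    fun ha h hx => (mul_le_of_le_one_right ha hx).trans h
  have hl3 : l ^ 3 ≤ 1 := pow_le_one₀ hl.le (by linarith)
  have ht' : ∀ k, 0 ≤ C * t ^ k := fun k => by positivity
  refine ⟨?_, ?_, ?_, ?_, ?_, ?_, ?_, ?_, ?_⟩
  · have e : n ^ 3 * (C * s ^ 4 / l ^ 9 / s ^ 11) = C * t ^ 3 * (1 / s) := by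
      rw [hn]; field_simp
    rw [e]
    exact (hmul (ht' 3) (hk 3 (by norm_num)) ((div_le_one hs0).2 hs)).trans h1
  · have e : n ^ 4 * (C * s ^ 4 / l ^ 9 * 1 / s ^ 12) = C * t ^ 4 * l ^ 3 := by
      rw [hn]; field_simp
    rw [e]
    exact (hmul (ht' 4) (hk 4 le_rfl) hl3).trans h1
  · have e : n ^ 4 * (C * s ^ 4 / l ^ 9 / (1 * s ^ 12)) = C * t ^ 4 * l ^ 2 * l := by
      rw [hn]; field_simp
    rw [e]
    have h2 := hmul (ht' 4) (hk 4 le_rfl) (pow_le_one₀ hl.le (by linarith) : l ^ 2 ≤ 1)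
    have h3 := mul_le_mul_of_nonneg_right h2 hl.le
    nlinarith [mul_nonneg hD hl.le]
  · have e : n ^ 4 * (C / (l ^ 9 * s ^ 2) / s ^ 5) = C * t ^ 4 * l ^ 3 * s := by
      rw [hn]; field_simp
    rw [e]
    exact mul_le_mul_of_nonneg_right (hmul (ht' 4) (hk 4 le_rfl) hl3) hs0.le
  · have e : n ^ 4 * (C / (l ^ 12 * s ^ 2) / (s ^ 6 * (1 / (12 * l ^ 2)))) =
        C * t ^ 4 * (12 * l ^ 2) := by
      rw [hn]; field_simp
    rw [e]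
    exact (hmul (ht' 4) (hk 4 le_rfl) (by nlinarith)).trans h1
  · have e : n ^ 3 * (1 / (12 * l ^ 2)) * (C / (l ^ 6 * s ^ 5)) = C * t ^ 3 * (l / 12) * s := by
      rw [hn]; field_simp
    rw [e]
    exact mul_le_mul_of_nonneg_right (hmul (ht' 3) (hk 3 (by norm_num)) (by linarith)) hs0.le
  · have e : n ^ 4 * (1 / (12 * l ^ 2)) * (C / (l ^ 9 * s ^ 8)) = C * t ^ 4 * (l / 12) := by
      rw [hn]; field_simp
    rw [e]
    exact (hmul (ht' 4) (hk 4 le_rfl) (by linarith)).trans hD1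
  · have e : n ^ 4 * (C / (l ^ 12 * s ^ 8)) = C * t ^ 4 := by
      rw [hn]; field_simp
    rw [e]
    exact (hk 4 le_rfl).trans h1
  · have e : n ^ 2 * (C / (l ^ 6 * s ^ 4)) = C * t ^ 2 := by
      rw [hn]; field_simp
    rw [e]
    exact (hk 2 (by norm_num)).trans h1

theorem BBox_weak {U : (Fin 3 → R3) → ℝ} (S : Micro U) {c : R3} {l κ η ε δ c₀ s M C n ρb ϑ : ℝ}
    (X : Bx c l κ η) (hM : 0 ≤ M) {J ρ : R3 → ℝ} (hJ : Moll (δ * l) c₀ J ρ) (hδ : 0 < δ)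
    (hε : 0 < ε) (hε1 : ε ≤ 1) {A : BForm (cube c l)} (hA : IsJ A (1 - ε) J) (hs : 1 ≤ s)
    (hC : 1 ≤ C) (hρ : 1 ≤ ρb) (hn0 : 0 ≤ n) (hn : n ≤ ρb * s ^ 2 * l ^ 3)
    (hϑ : 12 * l * (C * ρb ^ 4) ≤ ϑ)
    (hN : BxN (X.dat U S.ω s hM fun a b => A.form (X.B.eM M a) (X.B.eM M b)) s l C) :
    (X.dat U S.ω s hM fun a b => A.form (X.B.eM M a) (X.B.eM M b)).Weak n ε (1 / (12 * l ^ 2))
      (48 * c₀ / δ ^ 2) ϑ (C * ρb ^ 4 * s)
      (fx s (1 / (12 * l ^ 2)) 1 (C * s ^ 4 / l ^ 6) (C * s ^ 4 / l ^ 9) 3)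
      (fy s 1 (C * s ^ 4 / l ^ 9) 3)
      (fx s (1 / (12 * l ^ 2)) 1 (C / (l ^ 9 * s ^ 2)) (C / (l ^ 12 * s ^ 2)) 2) := by
  have hl := X.l_pos
  have hs0 : 0 < s := by linarith
  have hC0 : 0 ≤ C := by linarith
  have hv : volume (cube c l) ≠ ⊤ := by rw [volume_cube c hl.le]; exact ENNReal.ofReal_ne_top
  obtain ⟨a1, a2, a3, a4, a5, a6, a7, a8, a9⟩ := BBox_num (n := n) (t := n / (s ^ 2 * l ^ 3))
    (by field_simp) (by positivity) (by rw [div_le_iff₀ (by positivity)]; linarith) hρ hs hl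
    X.l_le hC hϑ
  have hon := X.B.on pot_zero M
  have hΛ : 0 ≤ 1 / (12 * l ^ 2) := by positivity
  refine
    { low_eq := rfl
      y4_zero := fun _ => rfl
      lam_o := X.ν_o
      Λ_pos := by positivity
      hi := fun a ha => X.gap a.1 fun h => ha (Subtype.ext h)
      w_symm := fun a b => hA.form_symm hJ hv (hon.meas a) (hon.l2 a) (hon.meas b) (hon.l2 b)
      w_nonneg := hA.w_nonneg hJ hv (by linarith) X.B M
      w_le := hA.w_le hJ (OBox_meas c l) (convex_cube c l) hv (by linarith) X.B M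
      w_le' := fun c' => ?_
      F3_symm := X.F3_symm S hM _
      xA_nonneg := fun r => ?_
      yA_nonneg := fun r => ?_
      xB_nonneg := fun r => ?_
      D₀_nonneg := by positivity
      fA := hN.fA
      fB := hN.fB
      yA1 := by simp [fy]
      A1 := by simpa [fx] using a1
      A2 := by simpa [fx] using a2
      A2' := by simpa [fy] using a3
      B0 := by simpa [fx] using a4
      B1 := by simpa [fx] using a5
      uA := le_trans (mul_le_mul_of_nonneg_left hN.uA (by positivity)) a6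
      uB := le_trans (mul_le_mul_of_nonneg_left hN.uB (by positivity)) a7
      l1 := le_trans (mul_le_mul_of_nonneg_left hN.l1 (by positivity)) a8
      b0 := le_trans (mul_le_mul_of_nonneg_left hN.b0 (by positivity)) a9 }
  · have e : 48 * c₀ / δ ^ 2 * (1 / (12 * l ^ 2)) = 4 * (c₀ / (δ * l) ^ 2) := by
      field_simp
      ring
    rw [e]
    exact hA.w_le' hJ hv (by linarith) (by linarith) X.B M c'
  · unfold fx
    split_ifs <;> positivity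
  · unfold fy
    split_ifs <;> positivity
  · unfold fx
    split_ifs <;> positivity

theorem BBox_val {ε η b ρ n s l B0 K D K' : ℝ} (hε : 0 < ε) (hε1 : ε ≤ 1) (hη : 0 < η)
    (hb : 0 ≤ b) (hρ : 1 ≤ ρ) (hn0 : 0 ≤ n) (hn : n ≤ ρ * s ^ 2 * l ^ 3) (hs : 1 ≤ s) (hl : 0 < l)
    (hB : ((1 - ε / 2) * b - 3 * η / ρ ^ 2) / (l ^ 6 * s ^ 4) ≤ B0) (hK : K * D ≤ K' * s) :
    (1 - ε) * b * n ^ 3 / (6 * (l ^ 6 * s ^ 4)) - η * n - K' * s ≤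
      (1 - ε / 2) * B0 * n ^ 3 / 6 - η / 2 * n - K * D := by
  have hs0 : 0 < s := by linarith
  have hρ0 : 0 < ρ := by linarith
  set x := n ^ 3 / (6 * (l ^ 6 * s ^ 4)) with hx
  have hx0 : 0 ≤ x := by positivity
  have h1 : (1 - ε / 2) * (((1 - ε / 2) * b - 3 * η / ρ ^ 2) / (l ^ 6 * s ^ 4)) * n ^ 3 / 6 ≤
      (1 - ε / 2) * B0 * n ^ 3 / 6 := by
    have := mul_le_mul_of_nonneg_left hB (show 0 ≤ 1 - ε / 2 by linarith)
    have := mul_le_mul_of_nonneg_right this (show 0 ≤ n ^ 3 by positivity)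
    linarith
  have e1 : (1 - ε / 2) * (((1 - ε / 2) * b - 3 * η / ρ ^ 2) / (l ^ 6 * s ^ 4)) * n ^ 3 / 6 =
      (1 - ε / 2) ^ 2 * (b * x) - (1 - ε / 2) * (3 * η / ρ ^ 2 * x) := by
    rw [hx]; field_simp
  have e2 : (1 - ε) * b * n ^ 3 / (6 * (l ^ 6 * s ^ 4)) = (1 - ε) * (b * x) := by
    rw [hx]; ring
  have h2 : 3 * η / ρ ^ 2 * x ≤ η / 2 * n := by
    have h3 : n ^ 2 ≤ (ρ * s ^ 2 * l ^ 3) ^ 2 := pow_le_pow_left₀ hn0 hn 2
    have e3 : 3 * η / ρ ^ 2 * x = η / 2 * n * (n ^ 2 / (ρ * s ^ 2 * l ^ 3) ^ 2) := by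
      rw [hx]; field_simp; ring
    rw [e3]
    exact mul_le_of_le_one_right (by positivity) ((div_le_one (by positivity)).2 h3)
  have h4 : (1 - ε) * (b * x) ≤ (1 - ε / 2) ^ 2 * (b * x) :=
    mul_le_mul_of_nonneg_right (by nlinarith) (by positivity)
  have h5 : 0 ≤ ε / 2 * (3 * η / ρ ^ 2 * x) := by positivity
  rw [e2]
  nlinarith

theorem box_bound {U : (Fin 3 → R3) → ℝ} (S : Micro U) (hb : 0 ≤ relInt (F3o U S.ω))
    {ε η ρb δ c₀ : ℝ} (hε : 0 < ε) (hε1 : ε ≤ 1) (hη : 0 < η) (hρ : 1 ≤ ρb) (hδ : 0 < δ)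
    (hc₀ : 0 ≤ c₀) : ∃ l₀ : ℝ, 0 < l₀ ∧ ∀ l : ℝ, 0 < l → l ≤ l₀ → ∃ K' s₀ : ℝ, 0 ≤ K' ∧ 1 ≤ s₀ ∧
      ∀ s : ℝ, s₀ ≤ s → ∀ (c : R3) (J ρ : R3 → ℝ), Moll (δ * l) c₀ J ρ →
      ∀ (κ : Type) [Fintype κ] [DecidableEq κ], (Fintype.card κ : ℝ) ≤ ρb * s ^ 2 * l ^ 3 →
      ∀ p q : ℝ, 0 ≤ p → 0 ≤ q →
        p - q ≤ (1 - ε) * relInt (F3o U S.ω) * (Fintype.card κ : ℝ) ^ 3 / (6 * (l ^ 6 * s ^ 4)) -
          η * Fintype.card κ - K' * s →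
        BoxOK (cube c l) J ε (sc (s ^ 2) s U) κ p q := by
  obtain ⟨ϑ, K, hϑ, hK, halg⟩ := rough_alg ε (η / 2) (48 * c₀ / δ ^ 2) hε hε1 (by positivity)
    (by positivity)
  obtain ⟨k, hk, hbx⟩ := exists_bx (η := ε / 2) (by positivity)
  obtain ⟨C, hC, hnorm⟩ := bx_norms S hk
  have hD : 0 < C * ρb ^ 4 := by positivity
  refine ⟨min (1 / 4) (ϑ / (12 * (C * ρb ^ 4))), by positivity, fun l hl hl0 => ?_⟩
  have hl1 : l ≤ 1 / 4 := hl0.trans (min_le_left _ _)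
  have hl2 : 12 * l * (C * ρb ^ 4) ≤ ϑ := by
    have := hl0.trans (min_le_right _ _)
    rw [le_div_iff₀ (by positivity)] at this
    linarith
  obtain ⟨s₀, hs₀, hval⟩ := bx_value S hb hk hl (η' := 3 * η / ρb ^ 2) (by positivity)
  refine ⟨K * (C * ρb ^ 4 + 1 / (12 * l ^ 2)), s₀, by positivity, hs₀,
    fun s hs c J ρ hJ κ _ _ hn p q hp hq hpq => ?_⟩
  have hs1 : 1 ≤ s := hs₀.trans hs
  obtain ⟨X⟩ := hbx c l hl hl1
  have hv : volume (cube c l) ≠ ⊤ := by rw [volume_cube c hl.le]; exact ENNReal.ofReal_ne_top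
  have hv0 : volume (cube c l) ≠ 0 := by
    rw [volume_cube c hl.le]
    exact (ENNReal.ofReal_pos.2 (by positivity)).ne'
  obtain ⟨A, hA⟩ := exists_isJ hJ hv (1 - ε)
  have hU : Wt3 (sc (s ^ 2) s U) := wt3_sc S.pot (by positivity) s
  refine boxOK_of_real hA hJ hε1 hv0 hv hU hp hq hpq fun F hF => ?_
  have := transfer_lower (ι := κ) pot_zero X.B hU A 0
    ((1 - ε) * relInt (F3o U S.ω) * (Fintype.card κ : ℝ) ^ 3 / (6 * (l ^ 6 * s ^ 4)) -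
      η * Fintype.card κ - K * (C * ρb ^ 4 + 1 / (12 * l ^ 2)) * s) ?_ hF
  · simpa using this
  filter_upwards [eventually_ge_atTop (0 : ℝ)] with M hM
  refine ⟨X.lv hM, fun a => (sub_zero _).symm, fun Ψ => ?_⟩
  have hw := BBox_weak S X hM hJ hδ hε hε1 hA hs1 hC hρ (Nat.cast_nonneg _) hn hl2
    (hnorm X hM _ hs1)
  refine le_trans (mul_le_mul_of_nonneg_right ?_ (nsq_nonneg Ψ)) (halg _ _ _ _ _ _ hw Ψ)
  refine BBox_val hε hε1 hη hb hρ (Nat.cast_nonneg _) hn hs1 hl (hval X hM _ hs) ?_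
  have h1 : 1 / (12 * l ^ 2) ≤ 1 / (12 * l ^ 2) * s := le_mul_of_one_le_right (by positivity) hs1
  have h2 := mul_le_mul_of_nonneg_left h1 hK
  nlinarith

end Pool.Agent.Lib.MP_8fe63c_mp
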