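import Pool.Agent.Lib.MP_8fe63c_mp.HMicro1

/-!
Existence of the scattering data and their basic bounds.

Sketch. `Pot3.nice`: on the support all points are within `K` of any fixed point outside `A`, so the
marginal is at most `K (volume of the ball of radius K)^(card A)`. For `ω` apply `exists_scatter` with
`𝒰 = S = U`; bounds from `marg_lgreen_le`, `pd_green`. For `g` take `𝒰 x = ∑ l, U (om l x)` and
`S x = ∑ l, U (om l x) * sig4 ω l x`; `S` and `𝒰 * green 0 S` are `Nice0` by `niceUy`-type estimates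
(a function `y` with `|y| ≤ K` and one-point marginals `≤ K`: if `l ∈ A` integrate `x l` first, if
`A = univ.erase l` use translation invariance to change the erased point), and
`F4o = 𝒰 g - S`. For `pd_green` use `Φ l = 1 {U (om l x) ≠ 0}`. The majorant property `tri`
follows from `1 {‖r‖ ≤ K} ≤ (1 + K^2) hw 1 r` and the decay `PD`.
-/

set_option linter.unusedSectionVars false

open MeasureTheory Set Filter Topology
open scoped ENNReal InnerProductSpace

namespace Pool.Agent.Lib.MP_8fe63c_mp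

theorem pot3_Uof {V : R3 × R3 → ℝ} (hm : Measurable V) (h0 : ∀ x, 0 ≤ V x)
    (hb : ∃ M : ℝ, ∀ x, V x ≤ M) (hc : HasCompactSupport V)
    (h1 : ∀ x y : R3, V (x, y) = V (y, x))
    (h2 : ∀ x y z : R3, V (x - y, x - z) = V (y - x, y - z))
    (h3 : ∀ x y z : R3, V (y - x, y - z) = V (z - y, z - x)) : ∃ K, Pot3 (Uof V) K := by
  obtain ⟨M, hM⟩ := hb
  obtain ⟨R, hR⟩ := (Metric.isBounded_iff_subset_closedBall (0 : R3 × R3)).mp hc.isCompact.isBounded
  have e01 : ∀ x : Fin 3 → R3, Uof V (x ∘ Equiv.swap 0 1) = Uof V x := fun x =>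
    (h2 (x 0) (x 1) (x 2)).symm
  have e12 : ∀ x : Fin 3 → R3, Uof V (x ∘ Equiv.swap 1 2) = Uof V x := fun x => h1 _ _
  have e02 : ∀ x : Fin 3 → R3, Uof V (x ∘ Equiv.swap 0 2) = Uof V x := fun x =>
    ((h2 (x 0) (x 1) (x 2)).trans (h3 (x 0) (x 1) (x 2))).symm
  have hs : Symm (Uof V) := by
    intro π
    induction π using Equiv.Perm.swap_induction_on with
    | one => exact fun x => rfl
    | swap_mul π a b hab ih =>
      intro x
      rw [Equiv.Perm.coe_mul, ← Function.comp_assoc, ih]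
      fin_cases a <;> fin_cases b
      all_goals first
        | exact absurd rfl hab
        | exact e01 x
        | exact e12 x
        | exact e02 x
  refine ⟨max (max M (2 * R)) 1, hm.comp (((measurable_pi_apply 0).sub (measurable_pi_apply 1)).prodMk
    ((measurable_pi_apply 0).sub (measurable_pi_apply 2))), fun x => h0 _,
    fun x => (hM _).trans ((le_max_left _ _).trans (le_max_left _ _)), fun x a => ?_, hs,
    fun x hx a b => ?_, le_max_right _ _⟩
  · simp only [Uof, add_sub_add_right_eq_sub]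
  · have h4 : ‖(x 0 - x 1, x 0 - x 2)‖ ≤ R :=
      mem_closedBall_zero_iff.mp (hR (subset_tsupport V hx))
    have h5 : ∀ c, ‖x 0 - x c‖ ≤ R := fun c => by
      fin_cases c
      · simpa using (norm_nonneg _).trans h4
      · exact (norm_fst_le (x 0 - x 1, x 0 - x 2)).trans h4
      · exact (norm_snd_le (x 0 - x 1, x 0 - x 2)).trans h4
    refine le_trans ?_ ((le_max_right _ _).trans (le_max_left _ _))
    have h6 := norm_sub_le_norm_sub_add_norm_sub (x a) (x 0) (x b)
    rw [norm_sub_rev (x a) (x 0)] at h6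
    linarith [h5 a, h5 b]

theorem Pot3.mono {U : (Fin 3 → R3) → ℝ} {K K' : ℝ} (h : Pot3 U K) (hK : K ≤ K') : Pot3 U K' :=
  ⟨h.meas, h.nonneg, fun x => (h.le x).trans hK, h.ti, h.symm,
    fun x hx a b => (h.supp x hx a b).trans hK, h.one_le.trans hK⟩

theorem HMicro_K_le {K : ℝ} (hK : 1 ≤ K) : K ≤ K * (8 * K ^ 3) ^ 2 :=
  le_mul_of_one_le_right (by linarith) (one_le_pow₀ (by linarith [one_le_pow₀ (n := 3) hK]))

theorem Pot3.nice {U : (Fin 3 → R3) → ℝ} {K : ℝ} (h : Pot3 U K) :
    Nice U (K * (8 * K ^ 3) ^ 2) where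
  meas := h.meas
  ti := h.ti
  one_le := h.one_le.trans (HMicro_K_le h.one_le)
  mg := fun A hA => by
    obtain ⟨j, hj⟩ : ∃ j, j ∉ A := by
      by_contra hc
      exact hA (Finset.eq_univ_of_forall fun j => not_not.mp fun hj => hc ⟨j, hj⟩)
    have h1 := Finset.card_lt_card (Finset.ssubset_univ_iff.mpr hA)
    rw [Finset.card_univ, Fintype.card_fin] at h1
    exact HMicro_marg_supp h.one_le (HMicro_abs_U h) hj (by omega) fun x hx a _ => h.supp x hx a j
  close := fun x hx => ⟨0, 1, by decide, (h.supp x hx 0 1).trans (HMicro_K_le h.one_le)⟩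

/-- the product of the potential of three points with a bounded function of four points with
bounded one-point marginals -/
theorem niceUy {U : (Fin 3 → R3) → ℝ} {K : ℝ} (h : Pot3 U K) {y : (Fin 4 → R3) → ℝ} {K' : ℝ}
    (hK' : 1 ≤ K') (hm : Measurable y) (ht : TI y) (hb : ∀ x, |y x| ≤ K') (l : Fin 4)
    (hl : MargLe {l} (eabs y) K') :
    Nice (fun x => U (om l x) * y x) (K * (8 * K ^ 3) ^ 2 * K') := by
  have hU : Measurable fun x => U (om l x) := h.meas.comp (HMicro_om_meas l)
  have hF : Measurable (eabs fun x => U (om l x) * y x) := measurable_eabs (hU.mul hm)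
  have hT : TI fun x => U (om l x) * y x := fun x a => by
    simp only [HMicro_om_ti h.ti l x a, ht x a]
  have hK := h.one_le.trans (HMicro_K_le h.one_le)
  have key : ∀ (A : Finset (Fin 4)) (j : Fin 4), j ∉ A → j ≠ l →
      MargLe A (eabs fun x => U (om l x) * y x) (K * (8 * K ^ 3) ^ 2 * K') := by
    intro A j hj hjl
    rw [mul_comm _ K']
    by_cases hA : l ∈ A
    · have h1 := marg_union hF (A := A.erase l) (B := {l}) (by simp)
      rw [Finset.union_comm, ← Finset.insert_eq, Finset.insert_erase hA] at h1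
      intro x
      rw [h1]
      exact HMicro_margLe_mul (measurable_eabs hU) (HMicro_margU h (Finset.notMem_erase l A)
        (fun e => hj (Finset.mem_of_mem_erase e)) hjl) (by linarith) (HMicro_marg_self hm l hl) x
    · exact HMicro_margLe_mul (measurable_eabs hU) (HMicro_margU h hA hj hjl) (by linarith)
        fun x => HMicro_eabs_mul_le (by linarith) fun _ => hb x
  refine ⟨⟨hU.mul hm, hT, one_le_mul_of_one_le_of_one_le hK hK', fun A hA => ?_⟩, fun x hx => ?_⟩
  · by_cases h1 : ∃ j, j ∉ A ∧ j ≠ l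
    · obtain ⟨j, hj, hjl⟩ := h1
      exact key A j hj hjl
    · have h2 : A = Finset.univ.erase l := by
        ext j
        simp only [Finset.mem_erase, Finset.mem_univ, and_true]
        refine ⟨fun hj e => hA (Finset.eq_univ_of_forall fun k => ?_),
          fun hj => not_not.mp fun hj' => h1 ⟨j, hj', hj⟩⟩
        by_contra hk
        exact h1 ⟨k, hk, fun e' => hk (e' ▸ e ▸ hj)⟩
      intro x
      have hT' : TI (eabs fun x => U (om l x) * y x) := fun x a =>
        congrArg (fun r : ℝ => ENNReal.ofReal |r|) (hT x a)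
      rw [h2, hT'.marg_erase hF l (l.succAbove 0) x x]
      exact key _ _ (Finset.notMem_erase _ _) (Fin.succAbove_ne l 0) x
  · refine ⟨l.succAbove 0, l.succAbove 1, fun e => ?_, ?_⟩
    · exact absurd (Fin.succAbove_right_injective e) (by decide)
    · refine (h.supp _ (left_ne_zero_of_mul hx) 0 1).trans ((HMicro_K_le h.one_le).trans ?_)
      exact le_mul_of_one_le_right (by linarith) hK'

theorem HMicro_omega {U : (Fin 3 → R3) → ℝ} {K : ℝ} (h : Pot3 U K) :
    ∃ (ω : (Fin 3 → R3) → ℝ) (C : ℝ), 1 ≤ C ∧ Measurable ω ∧ TI ω ∧ Symm ω ∧ (∀ x, 0 ≤ ω x) ∧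
      (∀ x, |ω x| ≤ C) ∧ PD ω C ∧ (∀ j, MargLe {j} (eabs ω) C) ∧
      ∀ x, ω x = green 0 (F3o U ω) x := by
  have hN := h.nice.toNice0
  set B := K * (8 * K ^ 3) ^ 2
  have hB := hN.one_le
  have hG := HMicro_green_bdd hN (by simp)
  obtain ⟨ω, h1, h2, h3, h4, h5⟩ := exists_scatter (by simp) h.meas h.nonneg h.le h.ti h.symm hN
    h.nonneg h.symm (HMicro_nice0_mul hN (C := 3 * B) (by linarith) (measurable_green 0 h.meas)
      (h.ti.green 0) hG)
  obtain ⟨C, hC, hp⟩ := pd_green 3 1 (B + (1 + K ^ 2))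
  have hp' := hp U (fun _ => eabs U) (fun _ => {0, 1}) h.meas (fun _ => measurable_eabs h.meas)
    (fun _ => rfl)
    (fun _ => HMicro_margLe_mono (hN.mg _ (by decide)) (fun _ => le_rfl) (by nlinarith))
    (fun _ => HMicro_margLe_mono (hN.mg _ (by decide)) (fun _ => le_rfl) (by nlinarith))
    (fun x a b _ => by
      rw [Fin.sum_univ_one]
      by_cases h0 : U x = 0
      · simp [eabs, h0]
      · refine le_mul_of_one_le_left' (ENNReal.one_le_ofReal.mpr ?_)
        have := HMicro_one_le_hw (h.supp x h0 a b)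
        nlinarith [HMicro_hw_pos (x a - x b)])
  refine ⟨ω, C + 3 * B, by linarith, h1, h2, h3, fun x => (h4 x).1,
    fun x => (HMicro_abs_le h4 x).trans ((hG x).trans (by linarith)), fun x a b hab => ?_,
    fun j => ?_, fun x => ?_⟩
  · exact (HMicro_abs_le h4 x).trans ((hp' x a b hab).trans
      (mul_le_mul_of_nonneg_right (by linarith) (HMicro_hw_pos _).le))
  · exact HMicro_margLe_mono (HMicro_green_mg hN (by simp))
      (fun x => ENNReal.ofReal_le_ofReal (HMicro_abs_le h4 x)) (by linarith)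
  · rw [h5 x]
    congr 1
    funext y
    simp only [F3o]
    ring

theorem HMicro_g {U ω : (Fin 3 → R3) → ℝ} {K C : ℝ} (h : Pot3 U K) (hC : 1 ≤ C)
    (hm : Measurable ω) (ht : TI ω) (hs : Symm ω) (h0 : ∀ x, 0 ≤ ω x) (hb : ∀ x, |ω x| ≤ C)
    (hp : PD ω C) (hg : ∀ j, MargLe {j} (eabs ω) C) :
    ∃ (g : (Fin 4 → R3) → ℝ) (C' : ℝ), 1 ≤ C' ∧ Measurable g ∧ TI g ∧ Symm g ∧
      (∀ x, |g x| ≤ C') ∧ PD g C' ∧ (∀ j, MargLe {j} (eabs g) C') ∧
      (∀ x, g x = -green 0 (F4o U ω g) x) ∧
      ∀ x, |g x| ≤ |green 0 (fun x => ∑ l, U (om l x) * sig4 ω l x) x| := by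
  have hU : ∀ l, Measurable fun x => U (om l x) := fun l => h.meas.comp (HMicro_om_meas l)
  have hN := (HMicro_nice_sum fun l => niceUy h (K' := 3 * C) (by linarith) (HMicro_sig_meas hm l)
    (HMicro_sig_ti ht l) (fun x => HMicro_sig_le fun j _ => hb _) l (HMicro_sig_mg hm hg l)).toNice0
  set S : (Fin 4 → R3) → ℝ := fun x => ∑ l, U (om l x) * sig4 ω l x with hS
  set B := 4 * (K * (8 * K ^ 3) ^ 2 * (3 * C))
  have hB := hN.one_le
  have hG := HMicro_green_bdd hN (by simp)
  have hN' := (HMicro_nice_sum fun l => niceUy h (K' := 3 * B) (by linarith)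
    (measurable_green 0 hN.meas) (hN.ti.green 0) hG l (HMicro_green_mg hN (by simp))).toNice0
  simp only [← Finset.sum_mul] at hN'
  obtain ⟨g, h1, h2, h3, h4, h5⟩ := exists_scatter (𝒰 := fun x => ∑ l, U (om l x)) (MU := 4 * K)
    (by simp) (Finset.measurable_sum _ fun l _ => hU l)
    (fun x => Finset.sum_nonneg fun l _ => h.nonneg _)
    (fun x => by simpa using Finset.sum_le_card_nsmul Finset.univ _ K fun l _ => h.le (om l x))
    (fun x a => Finset.sum_congr rfl fun l _ => HMicro_om_ti h.ti l x a)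
    (fun π x => by
      simp only [HMicro_om_perm h.symm]
      exact Equiv.sum_comp π fun l => U (om l x))
    hN (fun x => Finset.sum_nonneg fun l _ =>
      mul_nonneg (h.nonneg _) (Finset.sum_nonneg fun j _ => h0 _))
    (fun π x => by
      simp only [hS, HMicro_om_perm h.symm, HMicro_sig_perm hs]
      exact Equiv.sum_comp π fun l => U (om l x) * sig4 ω l x)
    hN'
  have hK := h.one_le.trans (HMicro_K_le h.one_le)
  have hD : 0 ≤ 6 * C * (1 + K ^ 2) * (1 + K ^ 2) := by positivity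
  obtain ⟨D, hD1, hp1⟩ := pd_green 4 4 (K * (8 * K ^ 3) ^ 2 + 6 * C * (1 + K ^ 2) * (1 + K ^ 2))
  have hp' := hp1 S (fun l => eabs fun x => U (om l x))
    (fun l => (Finset.univ.erase l).erase (l.succAbove 0)) hN.meas
    (fun l => measurable_eabs (hU l)) (by decide)
    (fun l => HMicro_margLe_mono (HMicro_margU h (Finset.notMem_empty _) (Finset.notMem_empty _)
      (Fin.succAbove_ne l 0)) (fun _ => le_rfl) (by linarith))
    (fun l => HMicro_margLe_mono (HMicro_margU h (by simp) (Finset.notMem_erase _ _)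
      (Fin.succAbove_ne l 0)) (fun _ => le_rfl) (by linarith))
    (fun x a b hab => by
      have hw0 := HMicro_hw_pos (x a - x b)
      rw [Finset.mul_sum]
      refine le_trans ?_ (Finset.sum_le_sum fun l _ => HMicro_eabs_mul_le (y := sig4 ω l)
        (by positivity) fun hx => (HMicro_sig_pd' h (by linarith) hp hab hx).trans
          (mul_le_mul_of_nonneg_right (by linarith) hw0.le))
      unfold eabs
      rw [← ENNReal.ofReal_sum_of_nonneg fun k _ => abs_nonneg _]
      exact ENNReal.ofReal_le_ofReal (Finset.abs_sum_le_sum_abs _ _))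
  refine ⟨g, D + 3 * B, by linarith, h1, h2, h3,
    fun x => (HMicro_abs_le h4 x).trans ((hG x).trans (by linarith)), fun x a b hab => ?_,
    fun j => ?_, fun x => ?_, HMicro_abs_le h4⟩
  · exact (HMicro_abs_le h4 x).trans ((hp' x a b hab).trans
      (mul_le_mul_of_nonneg_right (by linarith) (HMicro_hw_pos _).le))
  · exact HMicro_margLe_mono (HMicro_green_mg hN (by simp))
      (fun x => ENNReal.ofReal_le_ofReal (HMicro_abs_le h4 x)) (by linarith)
  · rw [h5 x, ← HMicro_green_neg]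
    congr 1
    funext y
    simp only [F4o, y4o, hS, mul_sub, Finset.sum_sub_distrib, Finset.sum_mul]
    ring

/-- scattering solutions, with the four-body solution dominated by the Born term -/
theorem exists_micro' {U : (Fin 3 → R3) → ℝ} {K : ℝ} (h : Pot3 U K) : ∃ S : Micro U,
    ∀ x, |S.g x| ≤ |green 0 (fun x => ∑ l, U (om l x) * sig4 S.ω l x) x| := by
  obtain ⟨ω, C, hC, a1, a2, a3, a4, a5, a6, a7, a8⟩ := HMicro_omega h
  obtain ⟨g, D, hD, b1, b2, b3, b4, b5, b6, b7, b8⟩ := HMicro_g h hC a1 a2 a3 a4 a5 a6 a7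
  have hK := h.one_le
  exact ⟨⟨ω, g, K + C + D, h.mono (by linarith), a1, a2, a3, fun x => (a5 x).trans (by linarith),
    fun x a b hab => (a6 x a b hab).trans
      (mul_le_mul_of_nonneg_right (by linarith) (HMicro_hw_pos _).le),
    fun j => HMicro_margLe_mono (a7 j) (fun _ => le_rfl) (by linarith), a8, b1, b2, b3,
    fun x => (b4 x).trans (by linarith),
    fun x a b hab => (b5 x a b hab).trans
      (mul_le_mul_of_nonneg_right (by linarith) (HMicro_hw_pos _).le),
    fun j => HMicro_margLe_mono (b6 j) (fun _ => le_rfl) (by linarith), b7⟩, b8⟩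

theorem exists_micro {U : (Fin 3 → R3) → ℝ} {K : ℝ} (h : Pot3 U K) : Nonempty (Micro U) :=
  ⟨(exists_micro' h).choose⟩

variable {U : (Fin 3 → R3) → ℝ}

theorem Micro.symm_F3 (S : Micro U) : Symm (F3o U S.ω) := fun π x => by
  simp only [F3o, S.pot.symm π x, S.ω_symm π x]

theorem HMicro_term_perm (S : Micro U) (l : Fin 4) (π : Equiv.Perm (Fin 4)) (x : Fin 4 → R3) :
    U (om l (x ∘ π)) * y4o S.ω S.g l (x ∘ π) = U (om (π l) x) * y4o S.ω S.g (π l) x := by
  simp only [y4o, HMicro_om_perm S.pot.symm, HMicro_sig_perm S.ω_symm, S.g_symm π x]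

theorem Micro.symm_F4 (S : Micro U) : Symm (F4o U S.ω S.g) := fun π x => by
  simp only [F4o, HMicro_term_perm]
  exact Equiv.sum_comp π fun l => U (om l x) * y4o S.ω S.g l x

theorem Micro.symm_v2 (S : Micro U) : Symm (v2o U S.ω) := fun π x => by
  obtain ⟨σ, h1, h2⟩ := (by decide : ∀ π : Equiv.Perm (Fin 2), ∃ σ : Equiv.Perm (Fin 3),
    (∀ i, σ (Fin.castSucc i) = Fin.castSucc (π i)) ∧ σ (Fin.last 2) = Fin.last 2) π
  unfold v2o
  congr 1
  funext y
  rw [← S.symm_F3 σ (Fin.snoc x y)]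
  congr 1
  funext i
  induction i using Fin.lastCases with
  | last => simp only [Function.comp, h2, Fin.snoc_last]
  | cast i => simp only [Function.comp, h1, Fin.snoc_castSucc]

theorem Micro.meas_y (S : Micro U) (l : Fin 4) : Measurable (y4o S.ω S.g l) :=
  S.g_meas.sub (HMicro_sig_meas S.ω_meas l)

theorem Micro.ti_y (S : Micro U) (l : Fin 4) : TI (y4o S.ω S.g l) := fun x a => by
  simp only [y4o, S.g_ti x a, HMicro_sig_ti S.ω_ti l x a]

/-- the symmetrised base term is the four-body source -/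
theorem Micro.F4_avg (S : Micro U) (x : Fin 4 → R3) :
    (1 / 6 : ℝ) * ∑ π : Equiv.Perm (Fin 4),
      U (om 3 (x ∘ π)) * y4o S.ω S.g 3 (x ∘ π) = F4o U S.ω S.g x := by
  simp only [HMicro_term_perm]
  set T : Fin 4 → ℝ := fun l => U (om l x) * y4o S.ω S.g l x
  have h1 : ∀ a : Fin 4, ∑ π : Equiv.Perm (Fin 4), T (π a) = ∑ π : Equiv.Perm (Fin 4), T (π 3) :=
    fun a => by
      rw [← Equiv.sum_comp (Equiv.mulRight (Equiv.swap a 3))]
      simp
  have h2 : ∑ a : Fin 4, ∑ π : Equiv.Perm (Fin 4), T (π a) = 24 * ∑ l, T l := by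
    rw [Finset.sum_comm, Finset.sum_congr rfl fun π _ => Equiv.sum_comp π T]
    simp [Fintype.card_perm, Nat.factorial]
  simp only [h1, Finset.sum_const, Finset.card_univ, Fintype.card_fin, nsmul_eq_mul,
    Nat.cast_ofNat] at h2
  change 1 / 6 * ∑ π : Equiv.Perm (Fin 4), T (π 3) = ∑ l, T l
  linarith

/-- all the bounds on the scattering data with one constant -/
structure MicroB (S : Micro U) (K : ℝ) : Prop where
  K_le : S.K ≤ K
  nU : Nice U K
  n3 : Nice (F3o U S.ω) K
  n4 : Nice (F4o U S.ω S.g) K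
  n2 : Nice (v2o U S.ω) K
  nUy : Nice (fun x => U (om 3 x) * y4o S.ω S.g 3 x) K
  mU : MajS 1 (eabs U) K
  m3 : MajS 1 (eabs (F3o U S.ω)) K
  m4 : MajS 1 (eabs (F4o U S.ω S.g)) K
  f_bdd : ∀ x, |1 - S.ω x| ≤ K
  y_bdd : ∀ x, |y4o S.ω S.g 3 x| ≤ K
  y_mg : MargLe {3} (eabs (y4o S.ω S.g 3)) K
  sig_pd : ∀ x (a : Fin 4), a ≠ 3 → U (om 3 x) ≠ 0 → |sig4 S.ω 3 x| ≤ K * hw 1 (x a - x 3)
  v_supp : ∀ x, v2o U S.ω x ≠ 0 → ‖x 0 - x 1‖ ≤ K

theorem HMicro_maj3 {F : (Fin 3 → R3) → ℝ} {B K : ℝ} (h : Nice0 F B)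
    (hs : ∀ x, F x ≠ 0 → ∀ a b, ‖x a - x b‖ ≤ K) : MajS 1 (eabs F) (B * (1 + K ^ 2) ^ 2) where
  meas := measurable_eabs h.meas
  ti := fun x a => congrArg (fun r : ℝ => ENNReal.ofReal |r|) (h.ti x a)
  mg := fun A hA => HMicro_margLe_mono (h.mg A hA) (fun _ => le_rfl) (by
    rw [one_pow, div_one]
    exact le_mul_of_one_le_right (by linarith [h.one_le]) (one_le_pow₀ (by nlinarith)))
  tri := fun A hA x => by
    have h1 : A = ∅ := by
      rw [Finset.card_compl, Fintype.card_fin] at hA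
      exact Finset.card_eq_zero.mp (by omega)
    subst h1
    rw [marg_empty, one_pow, div_one]
    by_cases h0 : F x = 0
    · simp [eabs, h0]
    have hB := h.one_le
    have h2 := HMicro_tri ((∅ : Finset (Fin 3))ᶜ) x (a := 0) (b := 1) (c := 2) (by simp) (by simp)
      (by simp) (by decide)
    refine ENNReal.ofReal_le_ofReal ((h.bdd (by simp) x).trans
      (le_trans ?_ (mul_le_mul_of_nonneg_left h2 (by positivity))))
    have h3 := one_le_mul_of_one_le_of_one_le (HMicro_one_le_hw (hs x h0 0 1))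
      (HMicro_one_le_hw (hs x h0 0 2))
    nlinarith

theorem HMicro_y_bdd (S : Micro U) (l : Fin 4) (x : Fin 4 → R3) : |y4o S.ω S.g l x| ≤ 4 * S.K := by
  have h1 : |sig4 S.ω l x| ≤ 3 * S.K := HMicro_sig_le fun j _ => S.ω_bdd _
  exact (abs_sub _ _).trans (by linarith [S.g_bdd x])

theorem HMicro_y_mg (S : Micro U) (l : Fin 4) : MargLe {l} (eabs (y4o S.ω S.g l)) (4 * S.K) := by
  intro x
  have hK := S.pot.one_le
  refine (marg_mono (Ψ := fun x => eabs S.g x + eabs (sig4 S.ω l) x) _ (fun y => ?_) x).trans ?_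
  · unfold eabs
    rw [← ENNReal.ofReal_add (abs_nonneg _) (abs_nonneg _)]
    exact ENNReal.ofReal_le_ofReal (abs_sub _ _)
  · rw [marg_add _ (measurable_eabs S.g_meas), show 4 * S.K = S.K + 3 * S.K by ring,
      ENNReal.ofReal_add (by linarith) (by linarith)]
    exact add_le_add (S.g_mg l x) (HMicro_sig_mg S.ω_meas S.ω_mg l x)

theorem HMicro_nUy (S : Micro U) (l : Fin 4) : Nice (fun x => U (om l x) * y4o S.ω S.g l x)
    (S.K * (8 * S.K ^ 3) ^ 2 * (4 * S.K)) :=
  niceUy S.pot (by linarith [S.pot.one_le]) (S.meas_y l) (S.ti_y l) (HMicro_y_bdd S l) l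
    (HMicro_y_mg S l)

theorem HMicro_tri4 (S : Micro U) (l : Fin 4) (A : Finset (Fin 4)) (hA : 3 ≤ Aᶜ.card)
    (x : Fin 4 → R3) : ∃ a ∈ Aᶜ, ∃ b ∈ Aᶜ, ∃ c ∈ Aᶜ, (a ≠ b ∧ a ≠ c ∧ b ≠ c) ∧
      marg A (eabs fun x => U (om l x) * y4o S.ω S.g l x) x ≤
        ENNReal.ofReal (7 * S.K * (1 + S.K ^ 2) ^ 2 * (S.K * (8 * S.K ^ 3) ^ 2) *
          (hw 1 (x a - x b) * hw 1 (x a - x c))) := by
  have hK := S.pot.one_le
  have hK' := HMicro_K_le hK
  by_cases hl : l ∈ A
  · have h1 : A = {l} := by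
      rw [Finset.card_compl, Fintype.card_fin] at hA
      exact (Finset.eq_of_subset_of_card_le (Finset.singleton_subset_iff.mpr hl)
        (by rw [Finset.card_singleton]; omega)).symm
    subst h1
    refine ⟨l.succAbove 0, by simp, l.succAbove 1, by simp, l.succAbove 2, by simp,
      by simp only [ne_eq, Fin.succAbove_right_inj]; decide, ?_⟩
    refine (HMicro_marg_self (S.meas_y l) l (HMicro_y_mg S l) x).trans ?_
    by_cases h0 : U (om l x) = 0
    · simp [eabs, h0]
    unfold eabs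
    rw [← ENNReal.ofReal_mul (by linarith)]
    refine ENNReal.ofReal_le_ofReal ?_
    have h3 := one_le_mul_of_one_le_of_one_le (HMicro_one_le_hw (S.pot.supp _ h0 0 1))
      (HMicro_one_le_hw (S.pot.supp _ h0 0 2))
    have h4 : 4 * S.K * |U (om l x)| ≤ 7 * S.K * (S.K * (8 * S.K ^ 3) ^ 2) :=
      mul_le_mul (by linarith) ((HMicro_abs_U S.pot _).trans hK') (abs_nonneg _) (by linarith)
    refine h4.trans ((le_mul_of_one_le_right (by positivity) h3).trans (le_of_eq ?_))
    simp only [om]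
    ring
  · have hl' : l ∈ Aᶜ := Finset.mem_compl.mpr hl
    obtain ⟨a, ha, b, hb, hab⟩ := Finset.one_lt_card.mp
      (show 1 < (Aᶜ.erase l).card by rw [Finset.card_erase_of_mem hl']; omega)
    obtain ⟨hal, ha⟩ := Finset.mem_erase.mp ha
    obtain ⟨hbl, hb⟩ := Finset.mem_erase.mp hb
    refine ⟨a, ha, b, hb, l, hl', ⟨hab, hal, hbl⟩, ?_⟩
    have h0 : ∀ x : Fin 4 → R3,
        0 ≤ 7 * S.K * (1 + S.K ^ 2) ^ 2 * (hw 1 (x a - x b) * hw 1 (x a - x l)) := fun x =>
      mul_nonneg (by positivity) (mul_pos (HMicro_hw_pos _) (HMicro_hw_pos _)).le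
    have h1 : ∀ x, eabs (fun x => U (om l x) * y4o S.ω S.g l x) x ≤
        ENNReal.ofReal (7 * S.K * (1 + S.K ^ 2) ^ 2 * (hw 1 (x a - x b) * hw 1 (x a - x l))) *
          eabs (fun x => U (om l x)) x := fun x => HMicro_eabs_mul_le (h0 x) fun hx => by
      have h2 := HMicro_sig_pd S.pot (by linarith) S.ω_pd hal hx
      have h3 := S.g_pd x a l hal
      have h4 := HMicro_one_le_hw (HMicro_om_supp S.pot hx hal hbl)
      have h5 := HMicro_hw_pos (x a - x l)
      have h6 : |y4o S.ω S.g l x| ≤ 7 * S.K * (1 + S.K ^ 2) * hw 1 (x a - x l) := by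
        have : 0 ≤ S.K * S.K ^ 2 * hw 1 (x a - x l) := by positivity
        exact (abs_sub _ _).trans (by nlinarith)
      exact h6.trans ((le_mul_of_one_le_right (by positivity) h4).trans (le_of_eq (by ring)))
    refine (marg_mono A h1 x).trans ?_
    have hU : Measurable fun x => U (om l x) := S.pot.meas.comp (HMicro_om_meas l)
    rw [marg_mul_left A (measurable_eabs hU)
      (c := fun x => ENNReal.ofReal
        (7 * S.K * (1 + S.K ^ 2) ^ 2 * (hw 1 (x a - x b) * hw 1 (x a - x l))))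
      (fun x y h => by
        simp only [h a (Finset.mem_compl.mp ha), h b (Finset.mem_compl.mp hb), h l hl]),
      mul_right_comm _ (S.K * (8 * S.K ^ 3) ^ 2), ENNReal.ofReal_mul (h0 x)]
    exact mul_le_mul_right (HMicro_margU S.pot hl (Finset.mem_compl.mp ha) hal x) _

theorem HMicro_maj4 (S : Micro U) : MajS 1 (eabs (F4o U S.ω S.g))
    (4 * (7 * S.K * (1 + S.K ^ 2) ^ 2 * (S.K * (8 * S.K ^ 3) ^ 2))) := by
  have hK := S.pot.one_le
  have hN := HMicro_nice_sum (HMicro_nUy S)
  refine ⟨measurable_eabs hN.meas,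
    fun x a => congrArg (fun r : ℝ => ENNReal.ofReal |r|) (hN.ti x a),
    fun A hA => HMicro_margLe_mono (hN.mg A hA) (fun _ => le_rfl) ?_, fun A hA x => ?_⟩
  · rw [one_pow, div_one]
    have h1 : 1 ≤ (1 + S.K ^ 2) ^ 2 := one_le_pow₀ (by nlinarith)
    have h2 : 0 ≤ S.K * (S.K * (8 * S.K ^ 3) ^ 2) := by positivity
    nlinarith
  · have h1 : ∀ y, eabs (F4o U S.ω S.g) y ≤
        ∑ l, eabs (fun x => U (om l x) * y4o S.ω S.g l x) y := fun y => by
      unfold eabs
      rw [← ENNReal.ofReal_sum_of_nonneg fun k _ => abs_nonneg _]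
      exact ENNReal.ofReal_le_ofReal (Finset.abs_sum_le_sum_abs _ _)
    refine (marg_mono A h1 x).trans ?_
    rw [marg_sum _ A fun l _ => measurable_eabs (HMicro_nUy S l).meas, one_pow, div_one, mul_assoc,
      ENNReal.ofReal_mul (by norm_num)]
    refine (Finset.sum_le_card_nsmul _ _ _ fun l _ => ?_).trans (le_of_eq (by simp; rfl))
    obtain ⟨a, ha, b, hb, c, hc, habc, h2⟩ := HMicro_tri4 S l A hA x
    exact h2.trans (ENNReal.ofReal_le_ofReal
      (mul_le_mul_of_nonneg_left (HMicro_tri _ x ha hb hc habc) (by positivity)))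

theorem HMicro_v_supp (S : Micro U) (x : Fin 2 → R3) (hx : v2o U S.ω x ≠ 0) :
    ‖x 0 - x 1‖ ≤ S.K := by
  obtain ⟨y, hy⟩ : ∃ y, F3o U S.ω (Fin.snoc x y) ≠ 0 := by
    by_contra hc
    exact hx (by simp only [v2o, fun y => not_not.mp fun hy => hc ⟨y, hy⟩, integral_zero])
  exact S.pot.supp _ (left_ne_zero_of_mul hy) 0 1

theorem HMicro_n2 (S : Micro U) {B : ℝ} (h : Nice0 (F3o U S.ω) B) (hB : S.K ≤ B) :
    Nice (v2o U S.ω) B := by
  have hm : Measurable fun p : (Fin 2 → R3) × R3 => (Fin.snoc p.1 p.2 : Fin 3 → R3) :=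
    measurable_pi_lambda _ fun i => by
      induction i using Fin.lastCases with
      | last => simpa only [Fin.snoc_last] using measurable_snd
      | cast i =>
        simp only [Fin.snoc_castSucc]
        exact (measurable_pi_apply i).comp measurable_fst
  refine ⟨⟨(h.meas.comp hm).stronglyMeasurable.integral_prod_right'.measurable, fun x a => ?_,
    h.one_le, fun A hA x => ?_⟩, fun x hx => ⟨0, 1, by decide, (HMicro_v_supp S x hx).trans hB⟩⟩
  · unfold v2o
    rw [← integral_add_right_eq_self _ a]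
    congr 1
    funext y
    rw [← h.ti (Fin.snoc x y) a]
    congr 1
    funext i
    induction i using Fin.lastCases with
    | last => simp only [Fin.snoc_last]
    | cast i => simp only [Fin.snoc_castSucc]
  · refine (marg_mono (Ψ := fun x' => ∫⁻ y, eabs (F3o U S.ω) (Fin.snoc x' y)) A
      (fun x' => ?_) x).trans ?_
    · have := enorm_integral_le_lintegral_enorm
        (μ := volume) fun y : R3 => F3o U S.ω (Fin.snoc x' y)
      simp only [Real.enorm_eq_ofReal_abs] at this
      exact this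
    · rw [marg_snoc (measurable_eabs h.meas) A x 0]
      refine h.mg _ (fun e => ?_) _
      have h1 := Finset.card_lt_card (Finset.ssubset_univ_iff.mpr hA)
      have h2 := Finset.card_insert_le (Fin.last 2) (A.map Fin.castSuccEmb)
      rw [e, Finset.card_map, Finset.card_univ, Fintype.card_fin] at h2
      rw [Finset.card_univ, Fintype.card_fin] at h1
      omega

theorem Micro.exists_B (S : Micro U) : ∃ K, MicroB S K := by
  have hK := S.pot.one_le
  have hK' := HMicro_K_le hK
  have hf : ∀ x, |1 - S.ω x| ≤ 2 * S.K := fun x =>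
    (abs_sub _ _).trans (by rw [abs_one]; linarith [S.ω_bdd x])
  have nU := S.pot.nice
  have n3 : Nice0 (F3o U S.ω) (2 * S.K * (S.K * (8 * S.K ^ 3) ^ 2)) :=
    HMicro_nice0_mul nU.toNice0 (by linarith) (measurable_const.sub S.ω_meas)
      (fun x a => by simp only [S.ω_ti x a]) hf
  have s3 : ∀ x, F3o U S.ω x ≠ 0 → ∀ a b, ‖x a - x b‖ ≤ S.K := fun x hx =>
    S.pot.supp x (left_ne_zero_of_mul hx)
  have mU := HMicro_maj3 nU.toNice0 S.pot.supp
  have m3 := HMicro_maj3 n3 s3
  have m4 := HMicro_maj4 S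
  have nUy := HMicro_nUy S
  have n4 := HMicro_nice_sum nUy
  set P := S.K * (8 * S.K ^ 3) ^ 2
  set Q := 1 + S.K ^ 2 with hQ
  have hQ1 : 1 ≤ Q := by nlinarith
  have hP : 1 ≤ P := hK.trans hK'
  set E := 28 * S.K * Q ^ 2 * P with hE
  have q2 : Q ≤ Q ^ 2 := by nlinarith
  have e1 : 28 * S.K * Q ^ 2 ≤ E := le_mul_of_one_le_right (by positivity) hP
  have e2 : 28 * S.K * P ≤ E := by
    have := mul_le_mul_of_nonneg_left (hQ1.trans q2) (show 0 ≤ 28 * S.K * P by positivity)
    linarith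
  have e3 : P ≤ S.K * P := le_mul_of_one_le_left (by linarith) hK
  have e4 : S.K ≤ S.K * P := le_mul_of_one_le_right (by linarith) hP
  have e5 : P * Q ^ 2 ≤ S.K * (P * Q ^ 2) := le_mul_of_one_le_left (by positivity) hK
  have e6 : 0 ≤ S.K * (P * Q ^ 2) := by positivity
  have e7 : S.K * Q ≤ S.K * Q ^ 2 := mul_le_mul_of_nonneg_left q2 (by linarith)
  have e8 : 0 ≤ S.K * Q := by positivity
  refine ⟨E, by linarith, HMicro_nice_mono nU (by linarith),
    ⟨n3.mono (by linarith), fun x hx => ⟨0, 1, by decide, (s3 x hx 0 1).trans (by linarith)⟩⟩,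
    HMicro_nice_mono n4 (by linarith), HMicro_n2 S (n3.mono (by linarith)) (by linarith),
    HMicro_nice_mono (nUy 3) (by linarith), HMicro_majS_mono mU (by linarith),
    HMicro_majS_mono m3 (by linarith), HMicro_majS_mono m4 (by linarith),
    fun x => (hf x).trans (by linarith), fun x => (HMicro_y_bdd S 3 x).trans (by linarith),
    HMicro_margLe_mono (HMicro_y_mg S 3) (fun _ => le_rfl) (by linarith), fun x a ha hx => ?_,
    fun x hx => (HMicro_v_supp S x hx).trans (by linarith)⟩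
  exact (HMicro_sig_pd S.pot (by linarith) S.ω_pd ha hx).trans
    (mul_le_mul_of_nonneg_right (by linarith) (HMicro_hw_pos _).le)

end Pool.Agent.Lib.MP_8fe63c_mp
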