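import Pool.Agent.Lib.MP_8fe63c_mp.PLeg

/-!
The array form of the energy equals the energy of the synthesised function.

Sketch. `Vs_eq`: by `sum_vac_put`, `hat e Ψ x = ∑ α ∈ vac σ, hat e (β ↦ Ψ (put σ β α)) (x ∘ σ) * ∏ i ∉ range σ, e (α i) (x i)`.
Split `muP Ω ι` into the legs in the range of `σ` and the others (`measurePreserving_piEquivPiSubtypeProd`,
`measurePreserving_piCongrLeft`), or expand the square into products of one-body functions outside
the range. `ob_eq`: expand both factors; `integral_leg` or the same splitting. `dens_bound`: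
Cauchy-Schwarz in `z`, then in `x j`.
-/

set_option linter.unusedSectionVars false

open MeasureTheory Set Filter Topology
open scoped ENNReal InnerProductSpace

namespace Pool.Agent.Lib.MP_8fe63c_mp

variable {I κ ι : Type} [Fintype I] [DecidableEq I] [Fintype κ] [DecidableEq κ]
  [Fintype ι] [DecidableEq ι]


variable {Ω : Set R3} {W : R3 → ℝ} {UN : (Fin 3 → R3) → ℝ}

theorem Wt3.memLp (h : Wt3 UN) {g : (Fin 3 → R3) → ℝ} (hg : MemLp g 2 (muP Ω (Fin 3))) :
    MemLp (fun x => √(UN x) * g x) 2 (muP Ω (Fin 3)) := by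
  obtain ⟨K, hK⟩ := h.bdd
  refine hg.of_le_mul (c := √K) (h.meas.sqrt.aestronglyMeasurable.mul hg.1)
    (Eventually.of_forall fun x => ?_)
  rw [norm_mul, Real.norm_of_nonneg (Real.sqrt_nonneg _)]
  exact mul_le_mul_of_nonneg_right (Real.sqrt_le_sqrt (hK x)) (norm_nonneg _)

theorem wt3_sc {U : (Fin 3 → R3) → ℝ} {K A : ℝ} (h : Pot3 U K) (hA : 0 ≤ A) (s : ℝ) :
    Wt3 (sc A s U) :=
  ⟨(h.meas.comp (measurable_const_smul s)).const_mul A, fun _ => mul_nonneg hA (h.nonneg _),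
    A * K, fun _ => mul_le_mul_of_nonneg_left (h.le _) hA⟩

theorem sqU_inner (h : Wt3 UN) {f g : (Fin 3 → R3) → ℝ} (hf : MemLp f 2 (muP Ω (Fin 3)))
    (hg : MemLp g 2 (muP Ω (Fin 3))) :
    ⟪sqU Ω UN f, sqU Ω UN g⟫_ℝ = ∫ x, UN x * f x * g x ∂muP Ω (Fin 3) := by
  unfold sqU
  rw [toE_inner (h.memLp hf) (h.memLp hg)]
  refine integral_congr_ae (Eventually.of_forall fun x => ?_)
  have := Real.mul_self_sqrt (h.nonneg x)
  simp only
  linear_combination (f x * g x) * this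

theorem sqU_norm_sq (h : Wt3 UN) {f : (Fin 3 → R3) → ℝ} (hf : MemLp f 2 (muP Ω (Fin 3))) :
    ‖sqU Ω UN f‖ ^ 2 = ∫ x, UN x * f x ^ 2 ∂muP Ω (Fin 3) := by
  rw [← real_inner_self_eq_norm_sq, sqU_inner h hf hf]
  exact integral_congr_ae (Eventually.of_forall fun x => by simp only; ring)

theorem sqU_add (h : Wt3 UN) {f g : (Fin 3 → R3) → ℝ} (hf : MemLp f 2 (muP Ω (Fin 3)))
    (hg : MemLp g 2 (muP Ω (Fin 3))) : sqU Ω UN f + sqU Ω UN g = sqU Ω UN fun x => f x + g x := by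
  unfold sqU
  rw [toE_add (h.memLp hf) (h.memLp hg)]
  simp only [mul_add]

theorem sqU_sub (h : Wt3 UN) {f g : (Fin 3 → R3) → ℝ} (hf : MemLp f 2 (muP Ω (Fin 3)))
    (hg : MemLp g 2 (muP Ω (Fin 3))) : sqU Ω UN f - sqU Ω UN g = sqU Ω UN fun x => f x - g x := by
  unfold sqU
  rw [toE_sub (h.memLp hf) (h.memLp hg)]
  simp only [mul_sub]

theorem sqU_sum (h : Wt3 UN) {A : Type} (s : Finset A) {f : A → (Fin 3 → R3) → ℝ}
    (hf : ∀ a ∈ s, MemLp (f a) 2 (muP Ω (Fin 3))) (c : A → ℝ) :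
    ∑ a ∈ s, c a • sqU Ω UN (f a) = sqU Ω UN fun x => ∑ a ∈ s, c a * f a x := by
  unfold sqU
  rw [toE_sum s (fun a ha => h.memLp (hf a ha)) c]
  refine congrArg _ (funext fun x => ?_)
  rw [Finset.mul_sum]
  exact Finset.sum_congr rfl fun a _ => by ring

theorem sum_ups (h : Wt3 UN) {e : I → R3 → ℝ} (he : ∀ a, MemLp (e a) 2 (volume.restrict Ω))
    (c : (Fin 3 → I) → ℝ) : ∑ α, c α • ups Ω UN e α = sqU Ω UN (hat e c) :=
  sqU_sum h Finset.univ (fun α _ => memLp_prodE he α) c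

/-- splitting the legs into the range of `σ` and the others -/
theorem PVs_split (σ : κ ↪ ι) [Fintype {i // ¬∃ j, σ j = i}] (f : (κ → R3) → ℝ)
    (u : ι → R3 → ℝ) :
    ∫ x, f (x ∘ σ) * ∏ i : {i // ¬∃ j, σ j = i}, u i (x i) ∂muP Ω ι =
      (∫ y, f y ∂muP Ω κ) * ∏ i : {i // ¬∃ j, σ j = i}, ∫ z in Ω, u i z := by
  have hb : Function.Bijective (Sum.elim σ (Subtype.val : {i // ¬∃ j, σ j = i} → ι)) := by
    constructor
    · refine σ.injective.sumElim Subtype.val_injective fun a b hab => b.2 ⟨a, hab⟩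
    · intro i
      by_cases hi : ∃ j, σ j = i
      · obtain ⟨j, rfl⟩ := hi
        exact ⟨Sum.inl j, rfl⟩
      · exact ⟨Sum.inr ⟨i, hi⟩, rfl⟩
  let E := Equiv.ofBijective _ hb
  have h1 := measurePreserving_piCongrLeft (fun _ : ι => (volume : Measure R3).restrict Ω) E
  have h2 := measurePreserving_sumPiEquivProdPi_symm
    (fun _ : κ ⊕ {i // ¬∃ j, σ j = i} => (volume : Measure R3).restrict Ω)
  unfold muP
  rw [← h1.integral_comp', ← h2.integral_comp', ← integral_fintype_prod_eq_prod,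
    ← integral_prod_mul]
  refine integral_congr_ae (Eventually.of_forall fun q => ?_)
  have e1 : ∀ (y : κ ⊕ {i // ¬∃ j, σ j = i} → R3) a,
      MeasurableEquiv.piCongrLeft (fun _ : ι => R3) E y (E a) = y a := fun y a =>
    Equiv.piCongrLeft_apply_apply (fun _ : ι => R3) E y a
  simp only
  congr 1
  · congr 1
    funext j
    exact e1 _ (Sum.inl j)
  · refine Finset.prod_congr rfl fun i _ => ?_
    congr 1
    exact e1 _ (Sum.inr i)

theorem PVs_prod_split (σ : κ ↪ ι) [Fintype {i // ¬∃ j, σ j = i}] (v : ι → ℝ) :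
    ∏ i, v i = (∏ j, v (σ j)) * ∏ i : {i // ¬∃ j, σ j = i}, v i := by
  rw [← Finset.prod_filter_mul_prod_filter_not Finset.univ (fun i => ∃ j, σ j = i)]
  congr 1
  · symm
    refine Finset.prod_bij (fun j _ => σ j) (fun j _ => by simp) (fun a _ b _ h => σ.injective h)
      (fun i hi => ?_) fun _ _ => rfl
    obtain ⟨j, hj⟩ := (Finset.mem_filter.1 hi).2
    exact ⟨j, Finset.mem_univ _, hj⟩
  · exact Finset.prod_subtype _ (fun i => by simp) _

theorem PVs_prodE_put (e : I → R3 → ℝ) (σ : κ ↪ ι) [Fintype {i // ¬∃ j, σ j = i}] (β : κ → I)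
    (α : ι → I) (x : ι → R3) :
    prodE e (put σ β α) x =
      prodE e β (x ∘ σ) * ∏ i : {i // ¬∃ j, σ j = i}, e (α i) (x i) := by
  unfold prodE
  rw [PVs_prod_split σ]
  congr 1
  · exact Finset.prod_congr rfl fun j _ => by rw [put_apply]; rfl
  · exact Finset.prod_congr rfl fun i _ => by rw [put_apply_not _ _ _ i.2]

theorem PVs_int_mul {X : Type} [MeasurableSpace X] {μ : Measure X} {a f g : X → ℝ}
    (ha : Measurable a) {M : ℝ} (hM : ∀ x, |a x| ≤ M) (hf : MemLp f 2 μ) (hg : MemLp g 2 μ) :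
    Integrable (fun x => a x * f x * g x) μ := by
  have := (hf.integrable_mul hg).bdd_mul ha.aestronglyMeasurable
    (Eventually.of_forall fun x => hM x)
  exact this.congr (Eventually.of_forall fun x => by simp only [Pi.mul_apply]; ring)

theorem PVs_wt (h : Wt3 UN) (σ : Fin 3 ↪ ι) :
    Measurable (fun x : ι → R3 => UN (x ∘ σ)) ∧ ∃ M : ℝ, ∀ x : ι → R3, |UN (x ∘ σ)| ≤ M := by
  obtain ⟨K, hK⟩ := h.bdd
  refine ⟨h.meas.comp (measurable_pi_lambda _ fun j => measurable_pi_apply _), K, fun x => ?_⟩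
  rw [abs_of_nonneg (h.nonneg _)]
  exact hK _

theorem PVs_ip {e : I → R3 → ℝ} (he : ON Ω e) (a b : I) :
    ∫ z in Ω, e a z * e b z = if a = b then 1 else 0 := by
  split_ifs with h
  · rw [h]; exact he.nrm b
  · exact he.orth a b h

theorem Vs_eq (h : Wt3 UN) {e : I → R3 → ℝ} (he : ON Ω e) (L : Lv I) (σ : Fin 3 ↪ ι)
    (Ψ : (ι → I) → ℝ) :
    L.Vs (ups Ω UN e) σ Ψ = ∫ x, UN (x ∘ σ) * hat e Ψ x ^ 2 ∂muP Ω ι := by
  obtain ⟨hm, M, hM⟩ := PVs_wt h σ
  set H : (ι → I) → (Fin 3 → R3) → ℝ := fun α => hat e (fun β => Ψ (put σ β α)) with hH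
  set G : (ι → I) → (ι → R3) → ℝ := fun α x =>
    H α (x ∘ σ) * ∏ i : {i // ¬∃ j, σ j = i}, e (α i) (x i) with hG
  have hG' : ∀ α x, G α x = ∑ β, Ψ (put σ β α) * prodE e (put σ β α) x := by
    intro α x
    simp only [hG, hH, hat, Finset.sum_mul, PVs_prodE_put, mul_assoc]
  have hG2 : ∀ α, MemLp (G α) 2 (muP Ω ι) := by
    intro α
    rw [show G α = _ from funext (hG' α)]
    exact memLp_finsetSum _ fun β _ => (memLp_prodE he.l2 _).const_mul _
  have h1 : ∀ x, hat e Ψ x = ∑ α ∈ L.vac σ, G α x := by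
    intro x
    simp only [hG']
    exact (L.sum_vac_put σ fun γ => Ψ γ * prodE e γ x).symm
  have h2 : ∀ α ∈ L.vac σ, ∀ α' ∈ L.vac σ, ∫ x, UN (x ∘ σ) * G α x * G α' x ∂muP Ω ι =
      if α = α' then ∫ y, UN y * H α y * H α' y ∂muP Ω (Fin 3) else 0 := by
    intro α hα α' hα'
    have h3 := PVs_split (Ω := Ω) σ (fun y => UN y * H α y * H α' y)
      (fun i z => e (α i) z * e (α' i) z)
    simp only [PVs_ip he] at h3
    have h4 : ∫ x, UN (x ∘ σ) * G α x * G α' x ∂muP Ω ι = ∫ x, UN (x ∘ σ) * H α (x ∘ σ) *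
        H α' (x ∘ σ) * ∏ i : {i // ¬∃ j, σ j = i}, e (α i) (x i) * e (α' i) (x i) ∂muP Ω ι := by
      refine integral_congr_ae (Eventually.of_forall fun x => ?_)
      simp only [hG, Finset.prod_mul_distrib]
      ring
    rw [h4, h3]
    split_ifs with h5
    · simp [h5]
    · have : ∃ i : {i // ¬∃ j, σ j = i}, α i ≠ α' i := by
        by_contra h6
        push Not at h6
        refine h5 (funext fun i => ?_)
        by_cases hi : ∃ j, σ j = i
        · obtain ⟨j, rfl⟩ := hi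
          rw [L.mem_vac.1 hα, L.mem_vac.1 hα']
        · exact h6 ⟨i, hi⟩
      obtain ⟨i, hi⟩ := this
      rw [Finset.prod_eq_zero (Finset.mem_univ i) (if_neg hi), mul_zero]
  have h3 : ∫ x, UN (x ∘ σ) * hat e Ψ x ^ 2 ∂muP Ω ι =
      ∫ x, ∑ α ∈ L.vac σ, ∑ α' ∈ L.vac σ, UN (x ∘ σ) * G α x * G α' x ∂muP Ω ι := by
    refine integral_congr_ae (Eventually.of_forall fun x => ?_)
    simp only
    rw [h1, sq, Finset.sum_mul_sum, Finset.mul_sum]
    refine Finset.sum_congr rfl fun α _ => ?_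
    rw [Finset.mul_sum]
    exact Finset.sum_congr rfl fun α' _ => by ring
  rw [h3, integral_finsetSum _ fun α _ => integrable_finsetSum _ fun α' _ =>
    PVs_int_mul hm hM (hG2 α) (hG2 α')]
  unfold Lv.Vs
  refine Finset.sum_congr rfl fun α hα => ?_
  rw [integral_finsetSum _ fun α' _ => PVs_int_mul hm hM (hG2 α) (hG2 α'),
    Finset.sum_congr rfl (h2 α hα), Finset.sum_ite_eq, if_pos hα, Lv.av, sum_ups h he.l2,
    sqU_norm_sq h (memLp_hat he.l2 _)]
  exact integral_congr_ae (Eventually.of_forall fun x => by simp only [hH]; ring)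

/-- the kernel acting on the variable `i` -/
noncomputable def PVs_K (A : BForm Ω) (F : (ι → R3) → ℝ) (i : ι) (x : ι → R3) : ℝ :=
  ∫ z in Ω, A.k (x i) z * F (Function.update x i z)

theorem PVs_meas2 (A : BForm Ω) {F : (ι → R3) → ℝ} (hm : Measurable F) (i : ι) :
    Measurable fun q : (ι → R3) × R3 => A.k (q.1 i) q.2 * F (Function.update q.1 i q.2) := by
  have h1 : Measurable fun q : (ι → R3) × R3 => ((q.1 i, q.2) : R3 × R3) := by fun_prop
  have h2 : Measurable fun q : (ι → R3) × R3 => A.k (q.1 i) q.2 := A.m_k.comp h1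
  have h3 : Measurable fun q : (ι → R3) × R3 => F (Function.update q.1 i q.2) :=
    hm.comp measurable_update'
  exact h2.mul h3

theorem PVs_measK (A : BForm Ω) {F : (ι → R3) → ℝ} (hm : Measurable F) (i : ι) :
    Measurable (PVs_K A F i) :=
  ((PVs_meas2 A hm i).stronglyMeasurable.integral_prod_right'
    (ν := (volume : Measure R3).restrict Ω)).measurable

theorem PVs_cs {X : Type} [MeasurableSpace X] (μ : Measure X) {f g : X → ℝ≥0∞}
    (hf : Measurable f) (hg : Measurable g) :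
    (∫⁻ x, f x * g x ∂μ) ^ 2 ≤ (∫⁻ x, f x ^ 2 ∂μ) * ∫⁻ x, g x ^ 2 ∂μ := by
  have h := ENNReal.lintegral_mul_le_Lp_mul_Lq μ Real.HolderConjugate.two_two hf.aemeasurable
    hg.aemeasurable
  simp only [Pi.mul_apply, ENNReal.rpow_two] at h
  refine (pow_le_pow_left' h 2).trans (le_of_eq ?_)
  rw [mul_pow, ← ENNReal.rpow_two, ← ENNReal.rpow_two, ← ENNReal.rpow_mul, ← ENNReal.rpow_mul]
  norm_num

theorem PVs_lint_sq {X : Type} [MeasurableSpace X] {μ : Measure X} {f : X → ℝ}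
    (hf : MemLp f 2 μ) : ∫⁻ x, ‖f x‖ₑ ^ 2 ∂μ = ENNReal.ofReal (∫ x, f x ^ 2 ∂μ) := by
  rw [ofReal_integral_eq_lintegral_ofReal hf.integrable_sq
    (Eventually.of_forall fun x => sq_nonneg _)]
  refine lintegral_congr fun x => ?_
  rw [Real.enorm_eq_ofReal_abs, ← ENNReal.ofReal_pow (abs_nonneg _), sq_abs]

theorem PVs_main (A : BForm Ω) : ∃ C : ℝ, 0 ≤ C ∧ ∀ F : (ι → R3) → ℝ, Measurable F → ∀ i,
    ∫⁻ x, (∫⁻ z in Ω, ‖A.k (x i) z * F (Function.update x i z)‖ₑ) ^ 2 ∂muP Ω ι ≤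
      ENNReal.ofReal C * ∫⁻ x, ‖F x‖ₑ ^ 2 ∂muP Ω ι := by
  refine ⟨_, integral_nonneg (μ := (volume.restrict Ω).prod (volume.restrict Ω))
    (f := fun p : R3 × R3 => A.k p.1 p.2 ^ 2) fun p => sq_nonneg _, fun F hm i => ?_⟩
  rw [← PVs_lint_sq A.l2_k, lintegral_prod _ (A.m_k.enorm.pow_const 2).aemeasurable,
    ← lintegral_const_mul _ (hm.enorm.pow_const 2)]
  have hM : Measurable fun x : ι → R3 =>
      (∫⁻ z in Ω, ‖A.k (x i) z * F (Function.update x i z)‖ₑ) ^ 2 :=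
    ((PVs_meas2 A hm i).enorm.lintegral_prod_right'
      (ν := (volume : Measure R3).restrict Ω)).pow_const 2
  unfold muP
  rw [lintegral_eq_lmarginal_univ 0, lintegral_eq_lmarginal_univ 0,
    lmarginal_erase' _ hM (Finset.mem_univ i),
    lmarginal_erase' _ ((hm.enorm.pow_const 2).const_mul _) (Finset.mem_univ i)]
  refine lmarginal_mono (fun x => ?_) _
  have hu : Measurable fun z => ‖F (Function.update x i z)‖ₑ :=
    (hm.comp (measurable_update x)).enorm
  simp only [Function.update_self, Function.update_idem]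
  rw [lintegral_const_mul _ (hu.pow_const 2), ← lintegral_mul_const _
    ((A.m_k.enorm.pow_const 2).lintegral_prod_right' (ν := (volume : Measure R3).restrict Ω))]
  refine lintegral_mono fun y => ?_
  simp only [enorm_mul]
  exact PVs_cs _ (A.m_k.comp measurable_prodMk_left).enorm hu

theorem PVs_ae (A : BForm Ω) {F : (ι → R3) → ℝ} (hm : Measurable F) (hF : MemLp F 2 (muP Ω ι))
    (i : ι) : ∀ᵐ x ∂muP Ω ι,
      Integrable (fun z => A.k (x i) z * F (Function.update x i z)) (volume.restrict Ω) := by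
  obtain ⟨C, -, hC⟩ := PVs_main (ι := ι) A
  have h1 := hC F hm i
  rw [PVs_lint_sq hF] at h1
  have hM : Measurable fun x : ι → R3 =>
      (∫⁻ z in Ω, ‖A.k (x i) z * F (Function.update x i z)‖ₑ) ^ 2 :=
    ((PVs_meas2 A hm i).enorm.lintegral_prod_right'
      (ν := (volume : Measure R3).restrict Ω)).pow_const 2
  filter_upwards [ae_lt_top hM (h1.trans_lt
    (ENNReal.mul_lt_top ENNReal.ofReal_lt_top ENNReal.ofReal_lt_top)).ne] with x hx
  refine ⟨((PVs_meas2 A hm i).comp measurable_prodMk_left).aestronglyMeasurable, ?_⟩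
  refine lt_top_iff_ne_top.2 fun h0 => ?_
  rw [h0] at hx
  simp at hx

theorem PVs_K_le (A : BForm Ω) : ∃ C : ℝ, 0 ≤ C ∧ ∀ F : (ι → R3) → ℝ, Measurable F →
    MemLp F 2 (muP Ω ι) → ∀ i, MemLp (PVs_K A F i) 2 (muP Ω ι) ∧
      ∫ x, PVs_K A F i x ^ 2 ∂muP Ω ι ≤ C * ∫ x, F x ^ 2 ∂muP Ω ι := by
  obtain ⟨C, hC0, hC⟩ := PVs_main (ι := ι) A
  refine ⟨C, hC0, fun F hm hF i => ?_⟩
  have h1 : ∫⁻ x, ‖PVs_K A F i x‖ₑ ^ 2 ∂muP Ω ι ≤ ENNReal.ofReal (C * ∫ x, F x ^ 2 ∂muP Ω ι) := by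
    rw [ENNReal.ofReal_mul hC0, ← PVs_lint_sq hF]
    refine le_trans (lintegral_mono fun x => ?_) (hC F hm i)
    exact pow_le_pow_left' (enorm_integral_le_lintegral_enorm _) 2
  have h2 : MemLp (PVs_K A F i) 2 (muP Ω ι) := by
    refine (memLp_two_iff_integrable_sq (PVs_measK A hm i).aestronglyMeasurable).2
      ⟨((PVs_measK A hm i).pow_const 2).aestronglyMeasurable, ?_⟩
    refine lt_of_le_of_lt (le_of_eq ?_) (h1.trans_lt ENNReal.ofReal_lt_top)
    exact lintegral_congr fun x => enorm_pow _ _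
  refine ⟨h2, ?_⟩
  rw [PVs_lint_sq h2] at h1
  exact (ENNReal.ofReal_le_ofReal_iff
    (mul_nonneg hC0 (integral_nonneg fun x => sq_nonneg _))).1 h1

theorem PVs_memK (A : BForm Ω) {F : (ι → R3) → ℝ} (hm : Measurable F) (hF : MemLp F 2 (muP Ω ι))
    (i : ι) : MemLp (PVs_K A F i) 2 (muP Ω ι) := by
  obtain ⟨C, -, hC⟩ := PVs_K_le (ι := ι) A
  exact (hC F hm hF i).1

theorem PVs_int_a (A : BForm Ω) {F G : (ι → R3) → ℝ} (hF : MemLp F 2 (muP Ω ι))
    (hG : MemLp G 2 (muP Ω ι)) (i : ι) :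
    Integrable (fun x => A.a (x i) * F x * G x) (muP Ω ι) := by
  obtain ⟨M, hM⟩ := A.a_bdd
  exact PVs_int_mul (A.m_a.comp (measurable_pi_apply i)) (fun x => hM _) hF hG

theorem PVs_dens (A : BForm Ω) (F : (ι → R3) → ℝ) (i : ι) :
    A.dens F i = fun x => A.a (x i) * F x * F x - F x * PVs_K A F i x := by
  funext x
  simp only [BForm.dens, PVs_K]
  ring

theorem BForm.integrable_dens (A : BForm Ω) {F : (ι → R3) → ℝ} (hm : Measurable F)
    (hF : MemLp F 2 (muP Ω ι)) (i : ι) : Integrable (A.dens F i) (muP Ω ι) := by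
  rw [PVs_dens]
  exact (PVs_int_a A hF hF i).sub (hF.integrable_mul (PVs_memK A hm hF i))

theorem PVs_int_dens (A : BForm Ω) {F : (ι → R3) → ℝ} (hm : Measurable F)
    (hF : MemLp F 2 (muP Ω ι)) (i : ι) : ∫ x, A.dens F i x ∂muP Ω ι =
      (∫ x, A.a (x i) * F x * F x ∂muP Ω ι) - ∫ x, F x * PVs_K A F i x ∂muP Ω ι := by
  rw [PVs_dens]
  exact integral_sub (PVs_int_a A hF hF i) (hF.integrable_mul (PVs_memK A hm hF i))

theorem BForm.tendsto_dens (A : BForm Ω) {α : Type} {l : Filter α} {F : α → (ι → R3) → ℝ}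
    {F₀ : (ι → R3) → ℝ} (hm : ∀ n, Measurable (F n)) (h1 : ∀ n, MemLp (F n) 2 (muP Ω ι))
    (hm0 : Measurable F₀) (h0 : MemLp F₀ 2 (muP Ω ι)) (h : L2lim (muP Ω ι) l F F₀) (i : ι) :
    Tendsto (fun n => ∫ x, A.dens (F n) i x ∂muP Ω ι) l (𝓝 (∫ x, A.dens F₀ i x ∂muP Ω ι)) := by
  obtain ⟨M, hM⟩ := A.a_bdd
  obtain ⟨C, hC0, hC⟩ := PVs_K_le (ι := ι) A
  have hK : L2lim (muP Ω ι) l (fun n => PVs_K A (F n) i) (PVs_K A F₀ i) := by
    have h2 : Tendsto (fun n => C * ∫ x, (F n x - F₀ x) ^ 2 ∂muP Ω ι) l (𝓝 0) := by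
      simpa using Tendsto.const_mul C h
    refine squeeze_zero (fun n => integral_nonneg fun x => sq_nonneg _) (fun n => ?_) h2
    refine le_trans (le_of_eq ?_) (hC (fun x => F n x - F₀ x) ((hm n).sub hm0) ((h1 n).sub h0) i).2
    refine integral_congr_ae ?_
    filter_upwards [PVs_ae A (hm n) (h1 n) i, PVs_ae A hm0 h0 i] with x a1 a2
    simp only [PVs_K, mul_sub]
    rw [integral_sub a1 a2]
  have t1 := L2lim.mul h h h1 h1 h0 h0 (a := fun x => A.a (x i))
    (A.m_a.comp (measurable_pi_apply i)) (fun x => hM _)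
  have t2 := L2lim.mul h hK h1 (fun n => PVs_memK A (hm n) (h1 n) i) h0 (PVs_memK A hm0 h0 i)
    (a := fun _ => 1) measurable_const (M := 1) (fun _ => by simp)
  simp only [one_mul] at t2
  simp only [fun n => PVs_int_dens A (hm n) (h1 n) i, PVs_int_dens A hm0 h0 i]
  exact t1.sub t2

theorem PVs_leg (i : ι) (f : R3 → ℝ) (u : ι → R3 → ℝ) :
    ∫ x, f (x i) * ∏ j ∈ Finset.univ.erase i, u j (x j) ∂muP Ω ι =
      (∫ z in Ω, f z) * ∏ j ∈ Finset.univ.erase i, ∫ z in Ω, u j z := by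
  have h := integral_fintype_prod_eq_prod (fun j => Function.update u i f j)
    (μ := fun _ : ι => (volume : Measure R3).restrict Ω)
  simp only [← Finset.mul_prod_erase Finset.univ _ (Finset.mem_univ i), Function.update_self] at h
  have h1 : ∀ j ∈ Finset.univ.erase i, Function.update u i f j = u j := fun j hj =>
    Function.update_of_ne (Finset.ne_of_mem_erase hj) _ _
  rw [Finset.prod_congr rfl fun j hj => by rw [h1 j hj]] at h
  rw [← h]
  refine integral_congr_ae (Eventually.of_forall fun x => ?_)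
  exact congrArg _ (Finset.prod_congr rfl fun j hj => by rw [h1 j hj])

theorem PVs_prodE_leg (e : I → R3 → ℝ) (α : ι → I) (i : ι) (x : ι → R3) :
    prodE e α x = e (α i) (x i) * ∏ j ∈ Finset.univ.erase i, e (α j) (x j) :=
  (Finset.mul_prod_erase Finset.univ (fun j => e (α j) (x j)) (Finset.mem_univ i)).symm

theorem PVs_K_prodE (A : BForm Ω) (e : I → R3 → ℝ) (α : ι → I) (i : ι) (x : ι → R3) :
    PVs_K A (prodE e α) i x =
      (∫ z in Ω, A.k (x i) z * e (α i) z) * ∏ j ∈ Finset.univ.erase i, e (α j) (x j) := by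
  rw [← integral_mul_const]
  refine integral_congr_ae (Eventually.of_forall fun z => ?_)
  simp only
  rw [PVs_prodE_leg e α i, Function.update_self, mul_assoc]
  rw [Finset.prod_congr rfl fun j hj => by
    rw [Function.update_of_ne (Finset.ne_of_mem_erase hj)]]

theorem PVs_pair (A : BForm Ω) (e : I → R3 → ℝ) (α γ : ι → I) (i : ι) :
    (∫ x, A.a (x i) * prodE e α x * prodE e γ x ∂muP Ω ι) -
      ∫ x, prodE e α x * PVs_K A (prodE e γ) i x ∂muP Ω ι =
    A.form (e (α i)) (e (γ i)) *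
      ∏ j ∈ Finset.univ.erase i, ∫ z in Ω, e (α j) z * e (γ j) z := by
  rw [BForm.form, sub_mul, ← PVs_leg, ← PVs_leg]
  congr 1
  · refine integral_congr_ae (Eventually.of_forall fun x => ?_)
    simp only [PVs_prodE_leg e _ i, Finset.prod_mul_distrib]
    ring
  · refine integral_congr_ae (Eventually.of_forall fun x => ?_)
    simp only [PVs_K_prodE, PVs_prodE_leg e α i, Finset.prod_mul_distrib]
    ring

theorem PVs_sum_update (α : ι → I) (i : ι) (f : (ι → I) → ℝ) :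
    ∑ γ : ι → I, f γ * ∏ j ∈ Finset.univ.erase i, (if α j = γ j then (1 : ℝ) else 0) =
      ∑ δ, f (Function.update α i δ) := by
  have h1 : ∀ γ : ι → I, f γ * ∏ j ∈ Finset.univ.erase i, (if α j = γ j then (1 : ℝ) else 0) =
      ∑ δ, if Function.update α i δ = γ then f γ else 0 := by
    intro γ
    by_cases h : ∀ j ∈ Finset.univ.erase i, α j = γ j
    · rw [Finset.prod_congr rfl fun j hj => if_pos (h j hj), Finset.prod_const_one, mul_one,
        Finset.sum_eq_single (γ i), if_pos]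
      · funext j
        by_cases hj : j = i
        · rw [hj, Function.update_self]
        · rw [Function.update_of_ne hj]
          exact h j (Finset.mem_erase.2 ⟨hj, Finset.mem_univ _⟩)
      · intro δ _ hδ
        refine if_neg fun h2 => hδ ?_
        rw [← h2, Function.update_self]
      · simp
    · push Not at h
      obtain ⟨j, hj, hne⟩ := h
      rw [Finset.prod_eq_zero hj (if_neg hne), mul_zero]
      refine (Finset.sum_eq_zero fun δ _ => if_neg fun h2 => hne ?_).symm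
      rw [← h2, Function.update_of_ne (Finset.ne_of_mem_erase hj)]
  simp only [h1]
  rw [Finset.sum_comm]
  simp

theorem ob_eq (A : BForm Ω) {e : I → R3 → ℝ} (he : ON Ω e) (Ψ : (ι → I) → ℝ) :
    ob (fun a b => A.form (e a) (e b)) Ψ = ∑ i, ∫ x, A.dens (hat e Ψ) i x ∂muP Ω ι := by
  unfold ob
  refine Finset.sum_congr rfl fun i _ => ?_
  have hp : ∀ α : ι → I, MemLp (prodE e α) 2 (muP Ω ι) := memLp_prodE he.l2
  have hpm : ∀ α : ι → I, Measurable (prodE e α) := measurable_prodE he.meas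
  have h1 : ∀ᵐ x ∂muP Ω ι, PVs_K A (hat e Ψ) i x = ∑ γ, Ψ γ * PVs_K A (prodE e γ) i x := by
    filter_upwards [ae_all_iff.2 fun γ : ι → I => PVs_ae A (hpm γ) (hp γ) i] with x hx
    simp only [PVs_K, ← integral_const_mul]
    rw [← integral_finsetSum _ fun γ _ => (hx γ).const_mul _]
    refine integral_congr_ae (Eventually.of_forall fun z => ?_)
    simp only [hat, Finset.mul_sum]
    exact Finset.sum_congr rfl fun γ _ => by ring
  have hi : ∀ α γ : ι → I, Integrable (fun x => Ψ α * Ψ γ *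
      (A.a (x i) * prodE e α x * prodE e γ x - prodE e α x * PVs_K A (prodE e γ) i x))
      (muP Ω ι) := fun α γ => ((PVs_int_a A (hp α) (hp γ) i).sub
        ((hp α).integrable_mul (PVs_memK A (hpm γ) (hp γ) i))).const_mul _
  have h2 : ∫ x, A.dens (hat e Ψ) i x ∂muP Ω ι = ∫ x, ∑ α, ∑ γ, Ψ α * Ψ γ *
      (A.a (x i) * prodE e α x * prodE e γ x - prodE e α x * PVs_K A (prodE e γ) i x)
      ∂muP Ω ι := by
    refine integral_congr_ae ?_
    filter_upwards [h1] with x hx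
    rw [PVs_dens]
    simp only
    rw [hx, mul_assoc, hat, Finset.sum_mul_sum, Finset.sum_mul_sum, Finset.mul_sum,
      ← Finset.sum_sub_distrib]
    refine Finset.sum_congr rfl fun α _ => ?_
    rw [Finset.mul_sum, ← Finset.sum_sub_distrib]
    exact Finset.sum_congr rfl fun γ _ => by ring
  rw [h2, integral_finsetSum _ fun α _ => integrable_finsetSum _ fun γ _ => hi α γ]
  refine Finset.sum_congr rfl fun α _ => ?_
  rw [integral_finsetSum _ fun γ _ => hi α γ]
  have h3 := PVs_sum_update α i (fun γ => A.form (e (α i)) (e (γ i)) * Ψ α * Ψ γ)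
  simp only [Function.update_self] at h3
  rw [← h3]
  refine Finset.sum_congr rfl fun γ _ => ?_
  have h4 : Integrable (fun x => prodE e α x * PVs_K A (prodE e γ) i x) (muP Ω ι) :=
    (hp α).integrable_mul (PVs_memK A (hpm γ) (hp γ) i)
  rw [integral_const_mul, integral_sub (PVs_int_a A (hp α) (hp γ) i) h4, PVs_pair]
  simp only [PVs_ip he]
  ring

theorem BForm.mul_form (a : R3 → ℝ) (hm : Measurable a) (hb : ∃ M : ℝ, ∀ x, |a x| ≤ M)
    (u v : R3 → ℝ) : (BForm.mul Ω a hm hb).form u v = ∫ x in Ω, a x * u x * v x := by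
  simp [BForm.form, BForm.mul]

theorem BForm.mul_dens (a : R3 → ℝ) (hm : Measurable a) (hb : ∃ M : ℝ, ∀ x, |a x| ≤ M)
    (F : (ι → R3) → ℝ) (i : ι) (x : ι → R3) :
    (BForm.mul Ω a hm hb).dens F i x = a (x i) * F x ^ 2 := by
  simp [BForm.dens, BForm.mul]

theorem PVs_int1 (hW : Pot W) {F : (ι → R3) → ℝ} (hF : Cc1 F) (i : ι) :
    Integrable (fun x => ‖pgrad F i x‖ ^ 2 + W (x i) * F x ^ 2) (muP Ω ι) := by
  have h := LegF.integrable hW (hF.legF (Ω := Ω) hW i) (hF.legF hW i)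
  refine (h.1.add h.2).congr (Eventually.of_forall fun x => ?_)
  simp only [Pi.add_apply, real_inner_self_eq_norm_sq]
  ring

theorem PVs_int2 (h : Wt3 UN) {F : (ι → R3) → ℝ} (hF : MemLp F 2 (muP Ω ι)) (σ : Fin 3 ↪ ι) :
    Integrable (fun x => UN (x ∘ σ) * F x ^ 2) (muP Ω ι) := by
  obtain ⟨hm, M, hM⟩ := PVs_wt h σ
  exact (PVs_int_mul hm hM hF hF).congr (Eventually.of_forall fun x => by simp only; ring)

theorem PVs_intP (F : (ι → R3) → ℝ) (x : ι → R3) :
    intP UN x * F x ^ 2 = (1 / 6 : ℝ) * ∑ σ : Fin 3 ↪ ι, UN (x ∘ σ) * F x ^ 2 := by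
  rw [intP, mul_assoc, Finset.sum_mul]

theorem QO_eq (hW : Pot W) (h : Wt3 UN) {F : (ι → R3) → ℝ} (hF : Cc1 F) :
    QO Ω W UN F = (∑ i, qleg Ω W i F (pgrad F i) F (pgrad F i)) +
      (1 / 6 : ℝ) * ∑ σ : Fin 3 ↪ ι, ∫ x, UN (x ∘ σ) * F x ^ 2 ∂muP Ω ι := by
  unfold QO
  simp only [PVs_intP]
  rw [integral_add (integrable_finsetSum _ fun i _ => PVs_int1 hW hF i)
    ((integrable_finsetSum _ fun σ _ => PVs_int2 h hF.memLp σ).const_mul _), integral_const_mul,
    integral_finsetSum _ fun i _ => PVs_int1 hW hF i,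
    integral_finsetSum _ fun σ _ => PVs_int2 h hF.memLp σ]
  congr 1
  refine Finset.sum_congr rfl fun i _ => ?_
  refine integral_congr_ae (Eventually.of_forall fun x => ?_)
  simp only [real_inner_self_eq_norm_sq]
  ring

theorem QO_add_pot (hW : Pot W) (h : Wt3 UN) {a : R3 → ℝ} (hm : Measurable a)
    (hb : ∃ M : ℝ, ∀ x, |a x| ≤ M) {F : (ι → R3) → ℝ} (hF : Cc1 F) :
    QO Ω (fun x => W x + a x) UN F - ∑ i, ∫ x, (BForm.mul Ω a hm hb).dens F i x ∂muP Ω ι =
      QO Ω W UN F := by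
  have hi : ∀ i : ι, Integrable ((BForm.mul Ω a hm hb).dens F i) (muP Ω ι) := fun i =>
    BForm.integrable_dens _ hF.1.continuous.measurable hF.memLp i
  have h1 : Integrable (fun x => (∑ i, (‖pgrad F i x‖ ^ 2 + W (x i) * F x ^ 2)) +
      intP UN x * F x ^ 2) (muP Ω ι) := by
    simp only [PVs_intP]
    exact (integrable_finsetSum _ fun i _ => PVs_int1 hW hF i).add
      ((integrable_finsetSum _ fun σ _ => PVs_int2 h hF.memLp σ).const_mul _)
  rw [sub_eq_iff_eq_add, ← integral_finsetSum _ fun i _ => hi i]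
  unfold QO
  rw [← integral_add h1 (integrable_finsetSum _ fun i _ => hi i)]
  refine integral_congr_ae (Eventually.of_forall fun x => ?_)
  simp only [BForm.mul_dens, add_mul, Finset.sum_add_distrib]
  ring

/-- the energy of an array -/
theorem EB.Ham_eq (hW : Pot W) (B : EB Ω W) (M : ℝ) (L : Lv (B.I M)) {μ : ℝ}
    (hL : ∀ a, L.lam a = B.ν a.1 - μ) (h : Wt3 UN) (A : BForm Ω) (Ψ : (ι → B.I M) → ℝ) :
    L.Ham (ups Ω UN (B.eM M)) (fun a b => A.form (B.eM M a) (B.eM M b)) Ψ =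
      (∑ i, ∑ α, B.ν (α i).1 * Ψ α ^ 2) - μ * Fintype.card ι * nsq Ψ -
        (∑ i, ∫ x, A.dens (hat (B.eM M) Ψ) i x ∂muP Ω ι) +
        (1 / 6 : ℝ) * ∑ σ : Fin 3 ↪ ι, ∫ x, UN (x ∘ σ) * hat (B.eM M) Ψ x ^ 2 ∂muP Ω ι := by
  unfold Lv.Ham
  rw [ob_eq A (B.on hW M), Finset.sum_congr rfl fun σ _ => Vs_eq h (B.on hW M) L σ Ψ]
  congr 2
  rw [Finset.sum_comm, nsq, Finset.mul_sum, ← Finset.sum_sub_distrib, ex]
  refine Finset.sum_congr rfl fun α _ => ?_
  simp only [hL, Finset.sum_sub_distrib, Finset.sum_const, Finset.card_univ, nsmul_eq_mul,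
    ← Finset.sum_mul]
  ring

end Pool.Agent.Lib.MP_8fe63c_mp
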