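import Pool.Agent.Lib.MP_8fe63c_mp.BDefs
import Pool.Agent.Lib.MP_8fe63c_mp.PVs
import Pool.Agent.Lib.MP_8fe63c_mp.HMicro

/-!
The many-body data of a Neumann box.
-/

open MeasureTheory Set
open scoped ENNReal InnerProductSpace

namespace Pool.Agent.Lib.MP_8fe63c_mp

/-- eigenbasis and cutoff functions of a cube -/
structure Bx (c : R3) (l κ η : ℝ) where
  B : EB (cube c l) (fun _ => 0)
  o : B.J
  θ : R3 → ℝ
  θ' : R3 → ℝ
  l_pos : 0 < l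
  l_le : l ≤ 1 / 4
  κ_ge : 1 ≤ κ
  e_o : ∀ x, B.e o x = (√(l ^ 3))⁻¹
  ν_o : B.ν o = 0
  gap : ∀ a, a ≠ o → 1 / (12 * l ^ 2) ≤ B.ν a
  cut : Cutoffs c l κ η θ θ'

namespace Bx

variable {c : R3} {l κ η : ℝ} (X : Bx c l κ η)

/-- the localised condensate wave function -/
noncomputable def u (x : R3) : ℝ := (√(l ^ 3))⁻¹ * X.θ x

/-- the product of three localised condensate wave functions -/
noncomputable def Φ : (Fin 3 → R3) → ℝ := tens fun _ => X.u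

/-- the condensate mode in the Galerkin index set -/
def oM {M : ℝ} (hM : 0 ≤ M) : X.B.I M := ⟨X.o, X.ν_o.le.trans hM⟩

noncomputable def lv {M : ℝ} (hM : 0 ≤ M) : Lv (X.B.I M) :=
  ⟨X.oM hM, {X.oM hM}, fun a => X.B.ν a.1⟩

/-- the source -/
noncomputable def src (U ω : (Fin 3 → R3) → ℝ) (s : ℝ) (x : Fin 3 → R3) : ℝ :=
  sc (s ^ 2) s (F3o U ω) x * X.Φ x

noncomputable def dat (U ω : (Fin 3 → R3) → ℝ) (s : ℝ) {M : ℝ} (hM : 0 ≤ M)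
    (w : X.B.I M → X.B.I M → ℝ) : Dat (X.B.I M) (Lp ℝ 2 (muP (cube c l) (Fin 3))) where
  toLv := X.lv hM
  w := w
  υ := ups (cube c l) (sc (s ^ 2) s U) (X.B.eM M)
  y3 := fun _ => sqU (cube c l) (sc (s ^ 2) s U) fun x => (1 - ω (s • x)) * X.Φ x
  y4 := fun _ => 0
  M := fun _ _ => 0
  G2 := fun _ => 0
  G3 := fun _ => 0
  G4 := fun _ => 0

/-- the frame on the whole space -/
structure IsFr {M : ℝ} (fr : EFrame (X.B.I M) (fun _ => 0) (tsupport X.θ)) : Prop where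
  e_eq : ∀ a x, fr.e a x = X.θ' x * X.B.e a.1 x
  ν_eq : ∀ a, fr.ν a = X.B.ν a.1
  lt_eq : ∀ a, fr.lt a = 2 * X.B.ν a.1 + 2 * (κ / l) ^ 2

theorem exists_fr (M : ℝ) : ∃ fr : EFrame (X.B.I M) (fun _ => 0) (tsupport X.θ), X.IsFr fr := by
  obtain ⟨fr, h1, h2, h3⟩ := box_frame X.l_pos X.cut X.B M
  exact ⟨fr, h1, h2, h3⟩

end Bx

/-- the effective three-body coupling of the data -/
noncomputable def Dat.B0 {I E : Type} [Fintype I] [DecidableEq I] [NormedAddCommGroup E]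
    [InnerProductSpace ℝ E] (D : Dat I E) : ℝ :=
  2 * D.F3 (D.oo 3) (D.oo 3) - ‖D.y3 (D.oo 3)‖ ^ 2 - D.GA (D.oo 3) (D.oo 3)

theorem exists_bx {η : ℝ} (hη : 0 < η) : ∃ κ : ℝ, 1 ≤ κ ∧ ∀ (c : R3) (l : ℝ), 0 < l → l ≤ 1 / 4 →
    Nonempty (Bx c l κ η) := by
  obtain ⟨κ, hκ, h⟩ := exists_cutoffs hη
  refine ⟨κ, hκ, fun c l hl hl' => ?_⟩
  obtain ⟨θ, θ', hc⟩ := h c l hl
  obtain ⟨B, o, h1, -, h3, h4⟩ := exists_boxEB c hl
  exact ⟨⟨B, o, θ, θ', hl, hl', hκ, h1, h3, h4, hc⟩⟩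

end Pool.Agent.Lib.MP_8fe63c_mp
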