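import Pool.Agent.Lib.MP_8fe63c_mp.BNl

/-!
Smoothing by the mollifier.

Sketch. `cv ρ f` is the convolution `ρ ⋆[ContinuousLinearMap.mul ℝ ℝ] f`
(`HasCompactSupport.contDiff_convolution_left`, `HasCompactSupport.convolution`,
`HasCompactSupport.hasFDerivAt_convolution_left`), so
`fderiv (cv ρ f) x e = ∫ h, fderiv ρ h e * f (x - h) = - ∫ h, J h * ⟪h, e⟫ * (f (x - h) - f x)` by `mean_zero`.
Cauchy-Schwarz and `iso` give `(fderiv (cv ρ f) x e)^2 ≤ ‖e‖^2 * ∫ h, J h * (f x - f (x - h))^2`; take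
`e = gradient (cv ρ f) x`. `cv_close`: `cv ρ f x - f x = ∫ h, ρ h * (f (x - h) - f x)`, Cauchy-Schwarz with
`∫ ρ = 1` and `ρ ≤ r^2 J`. Finally substitute `z = x - h` (`lintegral_sub_left_eq_self`).
`exists_chi`: rescale a `ContDiffBump` (bounded derivative, mean value inequality).
-/

set_option linter.unusedSectionVars false

open MeasureTheory Set Filter Topology
open scoped ENNReal InnerProductSpace

namespace Pool.Agent.Lib.MP_8fe63c_mp

variable {ι : Type} [Fintype ι] [DecidableEq ι]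

variable {r c₀ : ℝ} {J ρ f : R3 → ℝ}

theorem BConv_int {w a : R3 → ℝ} (hw : Continuous w) (hc : HasCompactSupport w)
    (ha : Continuous a) : Integrable fun x => w x * a x :=
  (hw.mul ha).integrable_of_hasCompactSupport hc.mul_right

theorem BConv_cs {w a b : R3 → ℝ} (hw : Continuous w) (hc : HasCompactSupport w)
    (h0 : ∀ x, 0 ≤ w x) (ha : Continuous a) (hb : Continuous b) :
    (∫ x, w x * (a x * b x)) ^ 2 ≤ (∫ x, w x * a x ^ 2) * ∫ x, w x * b x ^ 2 := by
  have i1 := BConv_int hw hc (ha.pow 2)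
  have i2 : Integrable fun x => w x * b x ^ 2 := BConv_int hw hc (hb.pow 2)
  have i3 := BConv_int hw hc (ha.mul hb)
  have key : ∀ t : ℝ, 0 ≤ (∫ x, w x * a x ^ 2) * (t * t) + (2 * ∫ x, w x * (a x * b x)) * t +
      ∫ x, w x * b x ^ 2 := by
    intro t
    have e : ∫ x, w x * (a x * t + b x) ^ 2 = (∫ x, w x * a x ^ 2) * (t * t) +
        (2 * ∫ x, w x * (a x * b x)) * t + ∫ x, w x * b x ^ 2 := by
      have i4 : Integrable fun x => w x * a x ^ 2 * (t * t) := i1.mul_const _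
      have i5 : Integrable fun x => 2 * (w x * (a x * b x)) * t := (i3.const_mul 2).mul_const _
      have i6 : Integrable fun x => w x * a x ^ 2 * (t * t) + 2 * (w x * (a x * b x)) * t :=
        i4.add i5
      rw [← integral_mul_const, ← integral_const_mul, ← integral_mul_const, ← integral_add i4 i5,
        ← integral_add i6 i2]
      exact integral_congr_ae (Eventually.of_forall fun x => by ring)
    rw [← e]
    exact integral_nonneg fun x => mul_nonneg (h0 x) (sq_nonneg _)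
  have := discrim_le_zero key
  rw [discrim] at this
  nlinarith

theorem BConv_eq (ρ f : R3 → ℝ) :
    cv ρ f = convolution ρ f (ContinuousLinearMap.mul ℝ ℝ) volume := by
  funext x
  simp [cv, convolution]

theorem BConv_nl (h : Moll r c₀ J ρ) (hf : Continuous f) :
    ∫⁻ y, ENNReal.ofReal (∫ k, J k * (f (y - k) - f y) ^ 2) = nl univ J f := by
  rw [nl, Measure.restrict_univ]
  refine lintegral_congr fun y => ?_
  rw [ofReal_integral_eq_lintegral_ofReal (BConv_int h.cJ h.J_cs (by fun_prop))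
    (Eventually.of_forall fun k => mul_nonneg (h.J_nonneg k) (sq_nonneg _)),
    ← lintegral_sub_left_eq_self _ y]
  refine lintegral_congr fun z => ?_
  rw [sub_sub_cancel]
  congr 1
  ring

theorem BConv_fderiv (h : Moll r c₀ J ρ) (hf : Cc1 f) (x e : R3) :
    fderiv ℝ (cv ρ f) x e = -∫ k, J k * (⟪k, e⟫_ℝ * (f (x - k) - f x)) := by
  have hfc := hf.1.continuous
  have h1 := h.cρ.2.hasFDerivAt_convolution_left (ContinuousLinearMap.mul ℝ ℝ) h.cρ.1
    (hfc.locallyIntegrable (μ := volume)) x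
  rw [BConv_eq, h1.fderiv, convolution]
  have hc : Continuous (fderiv ℝ ρ) := h.cρ.1.continuous_fderiv one_ne_zero
  have hi : Integrable fun t => ((ContinuousLinearMap.mul ℝ ℝ).precompL R3) (fderiv ℝ ρ t)
      (f (x - t)) := by
    refine Continuous.integrable_of_hasCompactSupport (by fun_prop) ?_
    refine (h.cρ.2.fderiv ℝ).mono fun t ht h0 => ht ?_
    simp only [h0, map_zero, zero_apply]
  rw [ContinuousLinearMap.integral_apply hi]
  have e1 : ∀ t, fderiv ℝ ρ t e = -(J t * ⟪t, e⟫_ℝ) := fun t => by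
    have := h.grad t
    rw [gradient] at this
    rw [← InnerProductSpace.toDual_symm_apply, this, real_inner_smul_left]
    ring
  have i1 : Integrable fun k => J k * (⟪k, e⟫_ℝ * f (x - k)) := BConv_int h.cJ h.J_cs (by fun_prop)
  have i2 : Integrable fun k => J k * ⟪k, e⟫_ℝ * f x :=
    (BConv_int h.cJ h.J_cs (by fun_prop)).mul_const _
  have e2 : ∫ k, J k * (⟪k, e⟫_ℝ * (f (x - k) - f x)) =
      (∫ k, J k * (⟪k, e⟫_ℝ * f (x - k))) - ∫ k, J k * ⟪k, e⟫_ℝ * f x := by
    rw [← integral_sub i1 i2]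
    exact integral_congr_ae (Eventually.of_forall fun k => by ring)
  rw [e2, integral_mul_const, h.mean_zero, zero_mul, sub_zero, ← integral_neg]
  refine integral_congr_ae (Eventually.of_forall fun t => ?_)
  simp only [ContinuousLinearMap.precompL_apply, ContinuousLinearMap.mul_apply', e1]
  ring

theorem Moll.cv_cc1 (h : Moll r c₀ J ρ) (hf : Cc1 f) : Cc1 (cv ρ f) := by
  rw [BConv_eq]
  exact ⟨h.cρ.2.contDiff_convolution_left (n := 1) _ h.cρ.1 hf.1.continuous.locallyIntegrable,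
    h.cρ.2.convolution _ hf.2⟩

theorem Moll.cv_supp (h : Moll r c₀ J ρ) {R : ℝ} (hf : ∀ y, f y ≠ 0 → ‖y‖ ≤ R) (y : R3)
    (hy : cv ρ f y ≠ 0) : ‖y‖ ≤ R + r := by
  by_contra hc
  refine hy (integral_eq_zero_of_ae (Eventually.of_forall fun k => ?_))
  by_contra hk
  have h1 := h.ρ_supp k (left_ne_zero_of_mul hk)
  have h2 := hf _ (right_ne_zero_of_mul hk)
  have h3 := norm_add_le (y - k) k
  rw [sub_add_cancel] at h3
  exact hc (by linarith)

theorem Moll.cv_grad (h : Moll r c₀ J ρ) (hf : Cc1 f) :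
    ∫⁻ y, ENNReal.ofReal (‖gradient (cv ρ f) y‖ ^ 2) ≤ nl univ J f := by
  have hfc := hf.1.continuous
  rw [← BConv_nl h hfc]
  refine lintegral_mono fun y => ENNReal.ofReal_le_ofReal ?_
  set G := gradient (cv ρ f) y with hG
  have h1 : ‖G‖ ^ 2 = fderiv ℝ (cv ρ f) y G := by
    rw [← real_inner_self_eq_norm_sq, ← InnerProductSpace.toDual_symm_apply]
    rfl
  have h2 := BConv_cs (a := fun k => ⟪k, G⟫_ℝ) (b := fun k => f (y - k) - f y) h.cJ h.J_cs
    h.J_nonneg (by fun_prop) (by fun_prop)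
  rw [h.iso, ← neg_sq, ← BConv_fderiv h hf, ← h1] at h2
  have h3 : 0 ≤ ∫ k, J k * (f (y - k) - f y) ^ 2 :=
    integral_nonneg fun k => mul_nonneg (h.J_nonneg k) (sq_nonneg _)
  rcases (sq_nonneg ‖G‖).eq_or_lt with h4 | h4
  · rw [← h4]; exact h3
  · rw [sq] at h2
    exact le_of_mul_le_mul_left h2 h4

theorem Moll.cv_close (h : Moll r c₀ J ρ) (hf : Cc1 f) :
    ∫⁻ y, ENNReal.ofReal ((cv ρ f y - f y) ^ 2) ≤ ENNReal.ofReal (r ^ 2) * nl univ J f := by
  have hfc := hf.1.continuous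
  have hρ := h.cρ.1.continuous
  rw [← BConv_nl h hfc, ← lintegral_const_mul' _ _ ENNReal.ofReal_ne_top]
  refine lintegral_mono fun y => ?_
  rw [← ENNReal.ofReal_mul (sq_nonneg r)]
  refine ENNReal.ofReal_le_ofReal ?_
  have i1 : Integrable fun k => ρ k * f (y - k) := BConv_int hρ h.cρ.2 (by fun_prop)
  have i2 : Integrable fun k => ρ k * f y := BConv_int hρ h.cρ.2 (by fun_prop)
  have h1 : cv ρ f y - f y = ∫ k, ρ k * (1 * (f (y - k) - f y)) := by
    have : f y = ∫ k, ρ k * f y := by rw [integral_mul_const, h.ρ_int, one_mul]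
    conv_lhs => rw [this, cv, ← integral_sub i1 i2]
    exact integral_congr_ae (Eventually.of_forall fun k => by ring)
  have h2 := BConv_cs (a := fun _ => (1 : ℝ)) (b := fun k => f (y - k) - f y) hρ h.cρ.2
    h.ρ_nonneg (by fun_prop) (by fun_prop)
  simp only [one_pow, mul_one, h.ρ_int, one_mul] at h2
  simp only [one_mul] at h1
  rw [h1, ← integral_const_mul]
  refine h2.trans (integral_mono (BConv_int hρ h.cρ.2 (by fun_prop))
    ((BConv_int h.cJ h.J_cs (by fun_prop)).const_mul _) fun k => ?_)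
  have := mul_le_mul_of_nonneg_right (h.ρ_le k) (sq_nonneg (f (y - k) - f y))
  simpa only [mul_assoc] using this

theorem exists_chi : ∃ L₀ : ℝ, 0 < L₀ ∧ ∀ R : ℝ, 0 < R → ∃ χ : R3 → ℝ, Cc1 χ ∧
    (∀ y, 0 ≤ χ y ∧ χ y ≤ 1) ∧ (∀ y, ‖y‖ ≤ R → χ y = 1) ∧ (∀ y, χ y ≠ 0 → ‖y‖ ≤ 2 * R) ∧
    ∀ y z, |χ y - χ z| ≤ L₀ / R * ‖y - z‖ := by
  let b : ContDiffBump (0 : R3) := ⟨1, 2, one_pos, one_lt_two⟩
  obtain ⟨C, hC⟩ := (b.contDiff (n := 1)).lipschitzWith_of_hasCompactSupport b.hasCompactSupport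
    one_ne_zero
  refine ⟨C + 1, by positivity, fun R hR => ⟨fun y => b (R⁻¹ • y), ⟨?_, ?_⟩,
    fun y => ⟨b.nonneg, b.le_one⟩, fun y hy => ?_, fun y hy => ?_, fun y z => ?_⟩⟩
  · exact (b.contDiff (n := 1)).comp (contDiff_const_smul _)
  · exact b.hasCompactSupport.comp_smul (inv_ne_zero hR.ne')
  · refine b.one_of_mem_closedBall ?_
    rw [mem_closedBall_zero_iff, norm_smul, Real.norm_eq_abs, abs_of_pos (inv_pos.2 hR)]
    exact (inv_mul_le_iff₀ hR).2 (by simpa [b] using hy)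
  · have h1 : R⁻¹ • y ∈ Function.support b := hy
    rw [b.support_eq, mem_ball_zero_iff, norm_smul, Real.norm_eq_abs,
      abs_of_pos (inv_pos.2 hR), inv_mul_lt_iff₀ hR] at h1
    have h2 : b.rOut = 2 := rfl
    rw [h2] at h1
    linarith
  · have h1 := hC.dist_le_mul (R⁻¹ • y) (R⁻¹ • z)
    rw [Real.dist_eq, dist_eq_norm, ← smul_sub, norm_smul, Real.norm_eq_abs,
      abs_of_pos (inv_pos.2 hR)] at h1
    refine h1.trans ?_
    rw [div_eq_mul_inv, mul_assoc]
    gcongr
    linarith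

end Pool.Agent.Lib.MP_8fe63c_mp
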