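import Pool.Agent.Lib.MP_8fe63c_mp.ODefs

/-!
Basic properties of the form domain.

Sketch. `gdist` is the square of a seminorm, so `gdist (u,G) (w,K) ≤ 2 gdist (u,G) (v,H) +
2 gdist (v,H) (w,K)`. For `Cc1 v` all quantities are finite (`W` is bounded on the support).
`InF.seq`: choose `v n` with `gdist ≤ 4^(-n)`; then the sum of the integrands is finite a.e., so the
terms tend to zero a.e. `InF.unique`: for a smooth test function `ψ` with compact support in `Ω`,
`∫ ψ ⟪∇ v n, uv k⟫ = - ∫ ∂_k ψ v n` (`integral_mul_fderiv_eq_neg_fderiv_mul_of_integrable`), pass to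
the limit and use `IsOpen.ae_eq_zero_of_integral_contDiff_smul_eq_zero` (or a similar lemma).
-/

set_option linter.unusedSectionVars false
set_option linter.unusedVariables false

open MeasureTheory Set Filter Topology
open scoped ENNReal InnerProductSpace

namespace Pool.Agent.Lib.MP_8fe63c_mp

variable {Ω : Set R3} {W : R3 → ℝ} {u v w : R3 → ℝ} {G H K : R3 → R3}

theorem pot_zero : Pot (fun _ => 0) := ⟨measurable_const, fun _ => le_rfl, fun _ => ⟨0, fun _ _ => le_rfl⟩⟩

theorem Pot.add_bdd (hW : Pot W) {W' : R3 → ℝ} (hm : Measurable W') (h0 : ∀ x, 0 ≤ W' x)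
    {M : ℝ} (hM : ∀ x, W' x ≤ M) : Pot (fun x => W x + W' x) := by
  refine ⟨hW.meas.add hm, fun x => add_nonneg (hW.nonneg x) (h0 x), fun R => ?_⟩
  obtain ⟨M', hM'⟩ := hW.locBdd R
  exact ⟨M' + M, fun x hx => add_le_add (hM' x hx) (hM x)⟩

theorem Cc1.continuous_gradient (hv : Cc1 v) : Continuous (gradient v) := by
  have h : Continuous (fderiv ℝ v) := hv.1.continuous_fderiv one_ne_zero
  exact (InnerProductSpace.toDual ℝ R3).symm.continuous.comp h

theorem Cc1.cb1 {X : Type} [NormedAddCommGroup X] [NormedSpace ℝ X] {f : X → ℝ} (hf : Cc1 f) :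
    Cb1 f := by
  refine ⟨hf.1, ?_⟩
  obtain ⟨M1, h1⟩ := hf.2.exists_bound_of_continuous hf.1.continuous
  obtain ⟨M2, h2⟩ := (hf.2.fderiv (𝕜 := ℝ)).exists_bound_of_continuous
    (hf.1.continuous_fderiv one_ne_zero)
  exact ⟨max M1 M2, fun x => ⟨(h1 x).trans (le_max_left _ _), (h2 x).trans (le_max_right _ _)⟩⟩

theorem norm_gradient_eq (f : R3 → ℝ) (x : R3) : ‖gradient f x‖ = ‖fderiv ℝ f x‖ := by
  simp [gradient]

theorem inner_gradient_eq (f : R3 → ℝ) (x y : R3) : ⟪gradient f x, y⟫_ℝ = fderiv ℝ f x y := by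
  simp [gradient]

theorem normsq_gradient_eq (f : R3 → ℝ) (x : R3) :
    ‖gradient f x‖ ^ 2 = ∑ k : Fin 3, (fderiv ℝ f x (uv k)) ^ 2 := by
  rw [EuclideanSpace.real_norm_sq_eq]
  refine Finset.sum_congr rfl fun k _ => ?_
  rw [← inner_gradient_eq, uv, EuclideanSpace.inner_single_right]
  simp

theorem gradient_mul' {f g : R3 → ℝ} {x : R3} (hf : DifferentiableAt ℝ f x)
    (hg : DifferentiableAt ℝ g x) :
    gradient (fun y => f y * g y) x = f x • gradient g x + g x • gradient f x := by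
  refine ext_inner_right ℝ fun y => ?_
  rw [inner_gradient_eq, inner_add_left, real_inner_smul_left, real_inner_smul_left,
    inner_gradient_eq, inner_gradient_eq, fderiv_fun_mul hf hg]
  simp

theorem OBas_meas (hW : Pot W) (hu : Measurable u) (hG : Measurable G) (hv : Measurable v)
    (hH : Measurable H) :
    Measurable fun x => ENNReal.ofReal ((1 + W x) * (u x - v x) ^ 2 + ‖G x - H x‖ ^ 2) := by
  have := hW.meas
  fun_prop

theorem OBas_two_mul (a : ℝ) : (2 : ℝ≥0∞) * ENNReal.ofReal a = ENNReal.ofReal (2 * a) := by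
  rw [ENNReal.ofReal_mul (by norm_num)]
  simp

theorem OBas_norm_sq {E : Type} [NormedAddCommGroup E] (a b : E) :
    ‖a + b‖ ^ 2 ≤ 2 * ‖a‖ ^ 2 + 2 * ‖b‖ ^ 2 := by
  have h := norm_add_le a b
  have h1 := pow_le_pow_left₀ (norm_nonneg _) h 2
  nlinarith [sq_nonneg (‖a‖ - ‖b‖)]

theorem gdist_triangle (hW : Pot W) (hu : Measurable u) (hG : Measurable G) (hv : Measurable v)
    (hH : Measurable H) (hw : Measurable w) (hK : Measurable K) :
    gdist Ω W u G w K ≤ 2 * gdist Ω W u G v H + 2 * gdist Ω W v H w K := by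
  unfold gdist
  rw [← lintegral_const_mul _ (OBas_meas hW hu hG hv hH),
    ← lintegral_const_mul _ (OBas_meas hW hv hH hw hK),
    ← lintegral_add_left ((OBas_meas hW hu hG hv hH).const_mul _)]
  refine lintegral_mono fun x => ?_
  have h0 := hW.nonneg x
  rw [OBas_two_mul, OBas_two_mul, ← ENNReal.ofReal_add (by positivity) (by positivity)]
  refine ENNReal.ofReal_le_ofReal ?_
  have h1 : (u x - w x) ^ 2 ≤ 2 * (u x - v x) ^ 2 + 2 * (v x - w x) ^ 2 := by
    nlinarith [sq_nonneg ((u x - v x) - (v x - w x))]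
  have h2 := OBas_norm_sq (G x - H x) (H x - K x)
  rw [sub_add_sub_cancel] at h2
  have h3 := mul_le_mul_of_nonneg_left h1 (by positivity : 0 ≤ 1 + W x)
  nlinarith

theorem gdist_comm : gdist Ω W u G v H = gdist Ω W v H u G := by
  unfold gdist
  refine lintegral_congr fun x => ?_
  rw [norm_sub_rev, ← neg_sub (v x), neg_sq]

theorem Cc1.inF (hv : Cc1 v) : InF Ω W v (gradient v) := by
  refine ⟨hv.1.continuous.measurable, hv.continuous_gradient.measurable, fun ε _ => ⟨v, hv, ?_⟩⟩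
  simp [gdist]

theorem OBas_memLp {X E : Type} [MeasurableSpace X] [NormedAddCommGroup E] {μ : Measure X}
    {f : X → E} (hf : AEStronglyMeasurable f μ)
    (h : ∫⁻ x, ENNReal.ofReal (‖f x‖ ^ 2) ∂μ < ⊤) : MemLp f 2 μ := by
  rw [memLp_two_iff_integrable_sq_norm hf]
  refine ⟨hf.norm.pow 2, ?_⟩
  rw [hasFiniteIntegral_iff_ofReal (Eventually.of_forall fun x => by positivity)]
  exact h

theorem OBas_le_u (hW : Pot W) :
    ∫⁻ x in Ω, ENNReal.ofReal (‖u x - v x‖ ^ 2) ≤ gdist Ω W u G v H := by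
  refine lintegral_mono fun x => ENNReal.ofReal_le_ofReal ?_
  have h0 := hW.nonneg x
  rw [Real.norm_eq_abs, sq_abs]
  have := mul_nonneg h0 (sq_nonneg (u x - v x))
  nlinarith [sq_nonneg ‖G x - H x‖]

theorem OBas_le_G (hW : Pot W) :
    ∫⁻ x in Ω, ENNReal.ofReal (‖G x - H x‖ ^ 2) ≤ gdist Ω W u G v H := by
  refine lintegral_mono fun x => ENNReal.ofReal_le_ofReal ?_
  have h0 := hW.nonneg x
  have : 0 ≤ (1 + W x) * (u x - v x) ^ 2 := by positivity
  linarith

theorem OBas_le_W (hW : Pot W) :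
    ∫⁻ x in Ω, ENNReal.ofReal (‖√(W x) * u x - √(W x) * v x‖ ^ 2) ≤ gdist Ω W u G v H := by
  refine lintegral_mono fun x => ENNReal.ofReal_le_ofReal ?_
  have h0 := hW.nonneg x
  rw [Real.norm_eq_abs, sq_abs, ← mul_sub, mul_pow, Real.sq_sqrt h0]
  nlinarith [sq_nonneg ‖G x - H x‖, sq_nonneg (u x - v x)]

theorem Cc1.OBas_u (hv : Cc1 v) : MemLp v 2 (volume.restrict Ω) :=
  (hv.1.continuous.memLp_of_hasCompactSupport hv.2).restrict Ω

theorem Cc1.OBas_supp (hv : Cc1 v) : HasCompactSupport (gradient v) := by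
  have h := hv.2.fderiv (𝕜 := ℝ)
  exact h.comp_left (g := fun L => (InnerProductSpace.toDual ℝ R3).symm L) (by simp)

theorem Cc1.OBas_G (hv : Cc1 v) : MemLp (gradient v) 2 (volume.restrict Ω) :=
  (hv.continuous_gradient.memLp_of_hasCompactSupport hv.OBas_supp).restrict Ω

theorem Cc1.OBas_W (hW : Pot W) (hv : Cc1 v) :
    MemLp (fun x => √(W x) * v x) 2 (volume.restrict Ω) := by
  obtain ⟨R, hR⟩ := hv.2.isCompact.isBounded.subset_closedBall 0
  obtain ⟨M, hM⟩ := hW.locBdd R
  have hm : Measurable fun x => √(W x) * v x := by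
    have := hW.meas
    have := hv.1.continuous.measurable
    fun_prop
  refine MemLp.of_le_mul (c := √M) (hv.OBas_u (Ω := Ω)) hm.aestronglyMeasurable
    (Eventually.of_forall fun x => ?_)
  by_cases hx : v x = 0
  · simp [hx]
  · have hx' : x ∈ tsupport v := subset_tsupport _ hx
    have := hR hx'
    rw [mem_closedBall_zero_iff] at this
    rw [norm_mul, Real.norm_of_nonneg (Real.sqrt_nonneg _)]
    exact mul_le_mul_of_nonneg_right (Real.sqrt_le_sqrt (hM x this)) (norm_nonneg _)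

theorem InF.memLp_u (hW : Pot W) (h : InF Ω W u G) : MemLp u 2 (volume.restrict Ω) := by
  obtain ⟨v, hv, hd⟩ := h.approx 1 one_pos
  have h1 : MemLp (fun x => u x - v x) 2 (volume.restrict Ω) := by
    refine OBas_memLp (h.mu.sub hv.1.continuous.measurable).aestronglyMeasurable
      (lt_of_le_of_lt ?_ (hd.trans_lt ENNReal.one_lt_top))
    exact OBas_le_u hW
  have h2 := h1.add (hv.OBas_u (Ω := Ω))
  refine h2.ae_eq (Eventually.of_forall fun x => ?_)
  simp

theorem InF.memLp_G (hW : Pot W) (h : InF Ω W u G) : MemLp G 2 (volume.restrict Ω) := by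
  obtain ⟨v, hv, hd⟩ := h.approx 1 one_pos
  have h1 : MemLp (fun x => G x - gradient v x) 2 (volume.restrict Ω) := by
    refine OBas_memLp (h.mG.sub hv.continuous_gradient.measurable).aestronglyMeasurable
      (lt_of_le_of_lt ?_ (hd.trans_lt ENNReal.one_lt_top))
    exact OBas_le_G hW
  have h2 := h1.add (hv.OBas_G (Ω := Ω))
  refine h2.ae_eq (Eventually.of_forall fun x => ?_)
  simp

theorem InF.memLp_W (hW : Pot W) (h : InF Ω W u G) :
    MemLp (fun x => √(W x) * u x) 2 (volume.restrict Ω) := by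
  obtain ⟨v, hv, hd⟩ := h.approx 1 one_pos
  have hm : Measurable fun x => √(W x) * u x - √(W x) * v x := by
    have := hW.meas
    have := hv.1.continuous.measurable
    have := h.mu
    fun_prop
  have h1 : MemLp (fun x => √(W x) * u x - √(W x) * v x) 2 (volume.restrict Ω) := by
    refine OBas_memLp hm.aestronglyMeasurable
      (lt_of_le_of_lt ?_ (hd.trans_lt ENNReal.one_lt_top))
    exact OBas_le_W hW
  have h2 := h1.add (hv.OBas_W hW (Ω := Ω))
  refine h2.ae_eq (Eventually.of_forall fun x => ?_)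
  simp

theorem InF.integrable_mul (hW : Pot W) (h : InF Ω W u G) (h' : InF Ω W v H) :
    IntegrableOn (fun x => u x * v x) Ω := (h.memLp_u hW).integrable_mul (h'.memLp_u hW)

theorem OBas_int_inner {X E : Type} [MeasurableSpace X] [NormedAddCommGroup E]
    [InnerProductSpace ℝ E] {μ : Measure X} {f g : X → E} (hf : MemLp f 2 μ) (hg : MemLp g 2 μ) :
    Integrable (fun x => ⟪f x, g x⟫_ℝ) μ := by
  refine Integrable.mono' (hf.norm.integrable_mul hg.norm)
    (hf.aestronglyMeasurable.inner hg.aestronglyMeasurable) (Eventually.of_forall fun x => ?_)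
  exact norm_inner_le_norm _ _

theorem InF.integrable_inner (hW : Pot W) (h : InF Ω W u G) (h' : InF Ω W v H) :
    IntegrableOn (fun x => ⟪G x, H x⟫_ℝ) Ω := OBas_int_inner (h.memLp_G hW) (h'.memLp_G hW)

theorem OBas_sqrt (hW : Pot W) (x : R3) : √(W x) * u x * (√(W x) * v x) = W x * u x * v x := by
  have := Real.mul_self_sqrt (hW.nonneg x)
  calc √(W x) * u x * (√(W x) * v x) = (√(W x) * √(W x)) * u x * v x := by ring
    _ = _ := by rw [this]

theorem InF.integrable_W (hW : Pot W) (h : InF Ω W u G) (h' : InF Ω W v H) :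
    IntegrableOn (fun x => W x * u x * v x) Ω := by
  refine ((h.memLp_W hW).integrable_mul (h'.memLp_W hW)).congr (Eventually.of_forall fun x => ?_)
  exact OBas_sqrt hW x

theorem InF.zero : InF Ω W (fun _ => 0) (fun _ => 0) := by
  have h : Cc1 (fun _ : R3 => (0 : ℝ)) := ⟨contDiff_const, HasCompactSupport.zero⟩
  have h2 := h.inF (Ω := Ω) (W := W)
  have e : gradient (fun _ : R3 => (0 : ℝ)) = fun _ => 0 := by
    funext x
    simp [gradient]
  rwa [e] at h2

theorem OBas_quarter {a b ε : ℝ≥0∞} (ha : a ≤ ε / 4) (hb : b ≤ ε / 4) : 2 * a + 2 * b ≤ ε := by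
  calc 2 * a + 2 * b ≤ 2 * (ε / 4) + 2 * (ε / 4) := by gcongr
    _ = 4 * (ε / 4) := by rw [← add_mul]; norm_num
    _ = ε := ENNReal.mul_div_cancel (by norm_num) (by norm_num)

theorem InF.add (hW : Pot W) (h : InF Ω W u G) (h' : InF Ω W v H) :
    InF Ω W (fun x => u x + v x) (fun x => G x + H x) := by
  refine ⟨h.mu.add h'.mu, h.mG.add h'.mG, fun ε hε => ?_⟩
  have h4 : 0 < ε / 4 := ENNReal.div_pos hε.ne' (by norm_num)
  obtain ⟨a, ha, hda⟩ := h.approx _ h4
  obtain ⟨b, hb, hdb⟩ := h'.approx _ h4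
  refine ⟨fun x => a x + b x, ⟨ha.1.add hb.1, ha.2.add hb.2⟩, ?_⟩
  have e : gradient (fun x => a x + b x) = fun x => gradient a x + gradient b x := by
    funext x
    refine ext_inner_right ℝ fun y => ?_
    rw [inner_add_left, inner_gradient_eq, inner_gradient_eq, inner_gradient_eq,
      fderiv_fun_add (ha.1.differentiable one_ne_zero x) (hb.1.differentiable one_ne_zero x)]
    simp
  rw [e]
  have hm : Measurable fun x => a x + v x := ha.1.continuous.measurable.add h'.mu
  have hm' : Measurable fun x => gradient a x + H x := ha.continuous_gradient.measurable.add h'.mG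
  refine (gdist_triangle hW (h.mu.add h'.mu) (h.mG.add h'.mG) hm hm'
    (ha.1.continuous.measurable.add hb.1.continuous.measurable)
    (ha.continuous_gradient.measurable.add hb.continuous_gradient.measurable)).trans ?_
  have e1 : gdist Ω W (fun x => u x + v x) (fun x => G x + H x) (fun x => a x + v x)
      (fun x => gradient a x + H x) = gdist Ω W u G a (gradient a) := by
    simp [gdist]
  have e2 : gdist Ω W (fun x => a x + v x) (fun x => gradient a x + H x) (fun x => a x + b x)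
      (fun x => gradient a x + gradient b x) = gdist Ω W v H b (gradient b) := by
    simp [gdist]
  erw [e1, e2]
  exact OBas_quarter hda hdb

theorem OBas_small (c : ℝ) {ε : ℝ≥0∞} (hε : 0 < ε) :
    ∃ δ : ℝ≥0∞, 0 < δ ∧ ENNReal.ofReal c * δ ≤ ε :=
  ⟨ε / ENNReal.ofReal c, ENNReal.div_pos hε.ne' ENNReal.ofReal_ne_top, ENNReal.mul_div_le⟩

theorem InF.smul (hW : Pot W) (h : InF Ω W u G) (c : ℝ) :
    InF Ω W (fun x => c * u x) (fun x => c • G x) := by
  refine ⟨h.mu.const_mul c, h.mG.const_smul c, fun ε hε => ?_⟩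
  obtain ⟨δ, hδ, hle⟩ := OBas_small (c ^ 2) hε
  obtain ⟨a, ha, hda⟩ := h.approx _ hδ
  refine ⟨fun x => c * a x, ⟨contDiff_const.mul ha.1, ha.2.mul_left⟩, ?_⟩
  have e : gradient (fun x => c * a x) = fun x => c • gradient a x := by
    funext x
    refine ext_inner_right ℝ fun y => ?_
    rw [real_inner_smul_left, inner_gradient_eq, inner_gradient_eq,
      fderiv_const_mul (ha.1.differentiable one_ne_zero x)]
    simp
  rw [e]
  refine le_trans ?_ (le_trans (mul_le_mul_right hda _) hle)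
  unfold gdist
  rw [← lintegral_const_mul' _ _ ENNReal.ofReal_ne_top]
  refine lintegral_mono fun x => ?_
  rw [← ENNReal.ofReal_mul (sq_nonneg c), ← smul_sub, norm_smul, mul_pow, Real.norm_eq_abs, sq_abs]
  exact ENNReal.ofReal_le_ofReal (le_of_eq (by ring))

theorem InF.sum (hW : Pot W) {I : Type} (s : Finset I) {e : I → R3 → ℝ} {g : I → R3 → R3}
    (h : ∀ a ∈ s, InF Ω W (e a) (g a)) (c : I → ℝ) :
    InF Ω W (fun x => ∑ a ∈ s, c a * e a x) (fun x => ∑ a ∈ s, c a • g a x) := by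
  classical
  induction s using Finset.induction_on with
  | empty => simpa using InF.zero
  | insert a s ha ih =>
    simp only [Finset.sum_insert ha]
    exact ((h a (Finset.mem_insert_self _ _)).smul hW (c a)).add hW
      (ih fun b hb => h b (Finset.mem_insert_of_mem hb))

theorem InF.congr_ae (h : InF Ω W u G) (hv : Measurable v) (hH : Measurable H)
    (h1 : u =ᵐ[volume.restrict Ω] v) (h2 : G =ᵐ[volume.restrict Ω] H) : InF Ω W v H := by
  refine ⟨hv, hH, fun ε hε => ?_⟩
  obtain ⟨a, ha, hda⟩ := h.approx ε hε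
  refine ⟨a, ha, le_trans (le_of_eq ?_) hda⟩
  refine lintegral_congr_ae ?_
  filter_upwards [h1, h2] with x e1 e2
  rw [e1, e2]

theorem InF.mono_pot (hW : Pot W) {W' : R3 → ℝ} (hW' : Pot W') {C : ℝ}
    (hC : ∀ x, W' x ≤ C * (1 + W x)) (h : InF Ω W u G) : InF Ω W' u G := by
  refine ⟨h.mu, h.mG, fun ε hε => ?_⟩
  obtain ⟨δ, hδ, hle⟩ := OBas_small (1 + |C|) hε
  obtain ⟨a, ha, hda⟩ := h.approx _ hδ
  refine ⟨a, ha, le_trans ?_ (le_trans (mul_le_mul_right hda _) hle)⟩
  unfold gdist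
  rw [← lintegral_const_mul' _ _ ENNReal.ofReal_ne_top]
  refine lintegral_mono fun x => ?_
  rw [← ENNReal.ofReal_mul (by positivity)]
  refine ENNReal.ofReal_le_ofReal ?_
  have h0 := hW.nonneg x
  have h1 : W' x ≤ |C| * (1 + W x) :=
    (hC x).trans (mul_le_mul_of_nonneg_right (le_abs_self C) (by positivity))
  have h2 : 1 + W' x ≤ (1 + |C|) * (1 + W x) := by nlinarith
  have h3 := mul_le_mul_of_nonneg_right h2 (sq_nonneg (u x - a x))
  have h4 : 0 ≤ |C| * ‖G x - gradient a x‖ ^ 2 := by positivity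
  nlinarith

theorem InF.to_zero (hW : Pot W) (h : InF Ω W u G) : InF Ω (fun _ => 0) u G := h.mono_pot hW pot_zero (C := 0) (fun _ => by simp)

theorem InF.restrict {Ω' : Set R3} (hΩ : Ω' ⊆ Ω) (h : InF Ω W u G) : InF Ω' W u G := by
  refine ⟨h.mu, h.mG, fun ε hε => ?_⟩
  obtain ⟨a, ha, hda⟩ := h.approx ε hε
  exact ⟨a, ha, le_trans (lintegral_mono_set hΩ) hda⟩

theorem InF.closed (hW : Pot W) (hu : Measurable u) (hG : Measurable G)
    (h : ∀ ε : ℝ≥0∞, 0 < ε → ∃ v H, InF Ω W v H ∧ gdist Ω W u G v H ≤ ε) : InF Ω W u G := by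
  refine ⟨hu, hG, fun ε hε => ?_⟩
  have h4 : 0 < ε / 4 := ENNReal.div_pos hε.ne' (by norm_num)
  obtain ⟨v, H, hv, hd⟩ := h _ h4
  obtain ⟨a, ha, hda⟩ := hv.approx _ h4
  refine ⟨a, ha, (gdist_triangle hW hu hG hv.mu hv.mG ha.1.continuous.measurable
    ha.continuous_gradient.measurable).trans (OBas_quarter hd hda)⟩

theorem OBas_tendsto_sq {E : Type} [NormedAddCommGroup E] {a : E} {b : ℕ → E}
    (h : Tendsto (fun n => ‖a - b n‖ ^ 2) atTop (𝓝 0)) : Tendsto b atTop (𝓝 a) := by
  rw [tendsto_iff_norm_sub_tendsto_zero]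
  have := (Real.continuous_sqrt.tendsto 0).comp h
  rw [Real.sqrt_zero] at this
  refine this.congr fun n => ?_
  simp only [Function.comp]
  rw [Real.sqrt_sq (norm_nonneg _), norm_sub_rev]

theorem InF.seq (hW : Pot W) (h : InF Ω W u G) :
    ∃ v : ℕ → R3 → ℝ, (∀ n, Cc1 (v n)) ∧
      Tendsto (fun n => gdist Ω W u G (v n) (gradient (v n))) atTop (𝓝 0) ∧
      ∀ᵐ x ∂(volume.restrict Ω), Tendsto (fun n => v n x) atTop (𝓝 (u x)) ∧
        Tendsto (fun n => gradient (v n) x) atTop (𝓝 (G x)) := by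
  have hp : ∀ n : ℕ, (0 : ℝ≥0∞) < 2⁻¹ ^ n := fun n => ENNReal.pow_pos (by simp) n
  choose v hv hd using fun n => h.approx _ (hp n)
  have t0 : Tendsto (fun n : ℕ => (2⁻¹ : ℝ≥0∞) ^ n) atTop (𝓝 0) :=
    ENNReal.tendsto_pow_atTop_nhds_zero_of_lt_one (by simp)
  refine ⟨v, hv, tendsto_of_tendsto_of_tendsto_of_le_of_le tendsto_const_nhds t0
    (fun _ => zero_le) hd, ?_⟩
  have hm : ∀ n, Measurable fun x => ENNReal.ofReal
      ((1 + W x) * (u x - v n x) ^ 2 + ‖G x - gradient (v n) x‖ ^ 2) := fun n =>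
    OBas_meas hW h.mu h.mG (hv n).1.continuous.measurable (hv n).continuous_gradient.measurable
  have hfin : ∫⁻ x in Ω, ∑' n, ENNReal.ofReal
      ((1 + W x) * (u x - v n x) ^ 2 + ‖G x - gradient (v n) x‖ ^ 2) ≠ ⊤ := by
    rw [lintegral_tsum fun n => (hm n).aemeasurable]
    refine ne_top_of_le_ne_top ?_ (ENNReal.tsum_le_tsum hd)
    rw [ENNReal.tsum_geometric]
    simp
  filter_upwards [ae_lt_top (Measurable.tsum hm) hfin] with x hx
  have t1 := ENNReal.tendsto_atTop_zero_of_tsum_ne_top hx.ne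
  have h0 := hW.nonneg x
  have t2 : Tendsto (fun n => (1 + W x) * (u x - v n x) ^ 2 + ‖G x - gradient (v n) x‖ ^ 2)
      atTop (𝓝 0) := by
    have := (ENNReal.tendsto_toReal ENNReal.zero_ne_top).comp t1
    refine this.congr fun n => ?_
    simp only [Function.comp]
    rw [ENNReal.toReal_ofReal (by positivity)]
  constructor
  · refine OBas_tendsto_sq (squeeze_zero (fun n => by positivity) (fun n => ?_) t2)
    rw [Real.norm_eq_abs, sq_abs]
    have := mul_nonneg h0 (sq_nonneg (u x - v n x))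
    nlinarith [sq_nonneg ‖G x - gradient (v n) x‖]
  · refine OBas_tendsto_sq (squeeze_zero (fun n => by positivity) (fun n => ?_) t2)
    have : 0 ≤ (1 + W x) * (u x - v n x) ^ 2 := by positivity
    linarith

theorem InF.OBas_sub (hW : Pot W) (h : InF Ω W u G) (h' : InF Ω W v H) :
    InF Ω W (fun x => u x - v x) (fun x => G x - H x) := by
  have := h.add hW (h'.smul hW (-1))
  simpa [sub_eq_add_neg] using this

theorem gdist_eq_ofReal (hW : Pot W) (h : InF Ω W u G) (h' : InF Ω W v H) :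
    gdist Ω W u G v H = ENNReal.ofReal
      (qf Ω W (fun x => u x - v x) (fun x => G x - H x) (fun x => u x - v x) (fun x => G x - H x) +
        ip Ω (fun x => u x - v x) (fun x => u x - v x)) := by
  have hs := h.OBas_sub hW h'
  have i1 := hs.integrable_inner hW hs
  have i2 := hs.integrable_W hW hs
  have i3 := hs.integrable_mul hW hs
  have i4 : Integrable (fun x => ⟪G x - H x, G x - H x⟫_ℝ + W x * (u x - v x) * (u x - v x))
      (volume.restrict Ω) := i1.add i2
  have i5 : Integrable (fun x => (⟪G x - H x, G x - H x⟫_ℝ + W x * (u x - v x) * (u x - v x)) +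
      (u x - v x) * (u x - v x)) (volume.restrict Ω) := i4.add i3
  unfold gdist qf ip
  rw [← integral_add i4 i3, ofReal_integral_eq_lintegral_ofReal i5]
  · refine lintegral_congr fun x => ?_
    rw [real_inner_self_eq_norm_sq]
    congr 1
    ring
  · refine Eventually.of_forall fun x => ?_
    have h0 := hW.nonneg x
    simp only [Pi.zero_apply]
    rw [real_inner_self_eq_norm_sq]
    have := mul_nonneg h0 (mul_self_nonneg (u x - v x))
    nlinarith [sq_nonneg ‖G x - H x‖, mul_self_nonneg (u x - v x)]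

theorem OBas_tendsto_toLp {X E : Type} [MeasurableSpace X] [NormedAddCommGroup E]
    [InnerProductSpace ℝ E] {μ : Measure X} {f : X → E} {fn : ℕ → X → E} (hf : MemLp f 2 μ)
    (hfn : ∀ n, MemLp (fn n) 2 μ)
    (t : Tendsto (fun n => ∫⁻ x, ENNReal.ofReal (‖f x - fn n x‖ ^ 2) ∂μ) atTop (𝓝 0)) :
    Tendsto (fun n => (hfn n).toLp (fn n)) atTop (𝓝 (hf.toLp f)) := by
  refine OBas_tendsto_sq ?_
  have := (ENNReal.tendsto_toReal ENNReal.zero_ne_top).comp t
  refine this.congr fun n => ?_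
  simp only [Function.comp]
  have hm : AEStronglyMeasurable (fun x => ‖f x - fn n x‖ ^ 2) μ :=
    (hf.sub (hfn n)).aestronglyMeasurable.norm.pow 2
  rw [← real_inner_self_eq_norm_sq, L2.inner_def,
    ← integral_eq_lintegral_of_nonneg_ae (Eventually.of_forall fun x => by positivity) hm]
  refine integral_congr_ae ?_
  filter_upwards [Lp.coeFn_sub (hf.toLp f) ((hfn n).toLp (fn n)), hf.coeFn_toLp,
    (hfn n).coeFn_toLp] with x e1 e2 e3
  rw [e1, Pi.sub_apply, e2, e3, real_inner_self_eq_norm_sq]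

theorem OBas_tendsto_inner {X E : Type} [MeasurableSpace X] [NormedAddCommGroup E]
    [InnerProductSpace ℝ E] {μ : Measure X} {f g : X → E} {fn gn : ℕ → X → E} (hf : MemLp f 2 μ)
    (hg : MemLp g 2 μ) (hfn : ∀ n, MemLp (fn n) 2 μ) (hgn : ∀ n, MemLp (gn n) 2 μ)
    (t1 : Tendsto (fun n => ∫⁻ x, ENNReal.ofReal (‖f x - fn n x‖ ^ 2) ∂μ) atTop (𝓝 0))
    (t2 : Tendsto (fun n => ∫⁻ x, ENNReal.ofReal (‖g x - gn n x‖ ^ 2) ∂μ) atTop (𝓝 0)) :
    Tendsto (fun n => ∫ x, ⟪fn n x, gn n x⟫_ℝ ∂μ) atTop (𝓝 (∫ x, ⟪f x, g x⟫_ℝ ∂μ)) := by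
  have e : ∀ {a b : X → E} (ha : MemLp a 2 μ) (hb : MemLp b 2 μ),
      ⟪ha.toLp a, hb.toLp b⟫_ℝ = ∫ x, ⟪a x, b x⟫_ℝ ∂μ := fun ha hb => by
    rw [L2.inner_def]
    refine integral_congr_ae ?_
    filter_upwards [ha.coeFn_toLp, hb.coeFn_toLp] with x e1 e2
    rw [e1, e2]
  have := (OBas_tendsto_toLp hf hfn t1).inner (𝕜 := ℝ) (OBas_tendsto_toLp hg hgn t2)
  simpa only [e] using this

theorem tendsto_qf (hW : Pot W) (h : InF Ω W u G) (h' : InF Ω W v H)
    {un vn : ℕ → R3 → ℝ} {Gn Hn : ℕ → R3 → R3} (hn : ∀ n, InF Ω W (un n) (Gn n))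
    (hn' : ∀ n, InF Ω W (vn n) (Hn n))
    (t1 : Tendsto (fun n => gdist Ω W u G (un n) (Gn n)) atTop (𝓝 0))
    (t2 : Tendsto (fun n => gdist Ω W v H (vn n) (Hn n)) atTop (𝓝 0)) :
    Tendsto (fun n => qf Ω W (un n) (Gn n) (vn n) (Hn n)) atTop (𝓝 (qf Ω W u G v H)) ∧
    Tendsto (fun n => ip Ω (un n) (vn n)) atTop (𝓝 (ip Ω u v)) ∧
    Tendsto (fun n => ∫ x in Ω, ⟪Gn n x, Hn n x⟫_ℝ) atTop (𝓝 (∫ x in Ω, ⟪G x, H x⟫_ℝ)) := by
  have hle : ∀ {a b : ℕ → ℝ≥0∞}, (∀ n, a n ≤ b n) → Tendsto b atTop (𝓝 0) →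
      Tendsto a atTop (𝓝 0) := fun hab hb =>
    tendsto_of_tendsto_of_tendsto_of_le_of_le tendsto_const_nhds hb (fun _ => zero_le) hab
  have a1 := OBas_tendsto_inner (h.memLp_G hW) (h'.memLp_G hW) (fun n => (hn n).memLp_G hW)
    (fun n => (hn' n).memLp_G hW) (hle (fun n => OBas_le_G hW) t1) (hle (fun n => OBas_le_G hW) t2)
  have a2 := OBas_tendsto_inner (h.memLp_u hW) (h'.memLp_u hW) (fun n => (hn n).memLp_u hW)
    (fun n => (hn' n).memLp_u hW) (hle (fun n => OBas_le_u hW) t1) (hle (fun n => OBas_le_u hW) t2)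
  have a3 := OBas_tendsto_inner (h.memLp_W hW) (h'.memLp_W hW) (fun n => (hn n).memLp_W hW)
    (fun n => (hn' n).memLp_W hW) (hle (fun n => OBas_le_W hW) t1) (hle (fun n => OBas_le_W hW) t2)
  have e : ∀ a b : ℝ, ⟪a, b⟫_ℝ = a * b := fun a b => by simp [mul_comm]
  simp only [e] at a2 a3
  simp only [OBas_sqrt hW] at a3
  refine ⟨?_, a2, a1⟩
  have hq : ∀ {u v : R3 → ℝ} {G H : R3 → R3}, InF Ω W u G → InF Ω W v H →
      qf Ω W u G v H = (∫ x in Ω, ⟪G x, H x⟫_ℝ) + ∫ x in Ω, W x * u x * v x := fun h h' =>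
    integral_add (h.integrable_inner hW h') (h.integrable_W hW h')
  rw [hq h h']
  exact (a1.add a3).congr fun n => (hq (hn n) (hn' n)).symm

theorem qf_comm : qf Ω W u G v H = qf Ω W v H u G := by
  unfold qf
  refine integral_congr_ae (Eventually.of_forall fun x => ?_)
  simp only
  rw [real_inner_comm]
  ring

theorem ip_comm : ip Ω u v = ip Ω v u := by
  unfold ip
  simp only [mul_comm]

theorem qf_nonneg (hW : Pot W) : 0 ≤ qf Ω W u G u G := by
  refine integral_nonneg fun x => ?_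
  have := mul_nonneg (hW.nonneg x) (mul_self_nonneg (u x))
  simp only [Pi.zero_apply]
  rw [real_inner_self_eq_norm_sq]
  nlinarith [sq_nonneg ‖G x‖]

theorem qf_split (hW : Pot W) (h : InF Ω W u G) (h' : InF Ω W v H) :
    qf Ω W u G v H = (∫ x in Ω, ⟪G x, H x⟫_ℝ) + ∫ x in Ω, W x * u x * v x := integral_add (h.integrable_inner hW h') (h.integrable_W hW h')

theorem grad_le_qf (hW : Pot W) (h : InF Ω W u G) :
    ∫ x in Ω, ‖G x‖ ^ 2 ≤ qf Ω W u G u G := by
  rw [qf_split hW h h]
  simp only [real_inner_self_eq_norm_sq]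
  have : 0 ≤ ∫ x in Ω, W x * u x * u x := integral_nonneg fun x => by
    have := mul_nonneg (hW.nonneg x) (mul_self_nonneg (u x))
    simpa [mul_assoc] using this
  linarith

theorem qf_sum_left (hW : Pot W) {I : Type} (s : Finset I) {e : I → R3 → ℝ} {g : I → R3 → R3}
    (h : ∀ a ∈ s, InF Ω W (e a) (g a)) (c : I → ℝ) (h' : InF Ω W v H) :
    qf Ω W (fun x => ∑ a ∈ s, c a * e a x) (fun x => ∑ a ∈ s, c a • g a x) v H =
      ∑ a ∈ s, c a * qf Ω W (e a) (g a) v H := by
  unfold qf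
  simp only [← integral_const_mul]
  rw [← integral_finsetSum]
  · refine integral_congr_ae (Eventually.of_forall fun x => ?_)
    simp only [sum_inner, real_inner_smul_left, Finset.mul_sum, Finset.sum_mul,
      ← Finset.sum_add_distrib]
    exact Finset.sum_congr rfl fun a _ => by ring
  · intro a ha
    exact (((h a ha).integrable_inner hW h').add ((h a ha).integrable_W hW h')).const_mul _

theorem ip_sum_left (hW : Pot W) {I : Type} (s : Finset I) {e : I → R3 → ℝ} {g : I → R3 → R3}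
    (h : ∀ a ∈ s, InF Ω W (e a) (g a)) (c : I → ℝ) (hv : MemLp v 2 (volume.restrict Ω)) :
    ip Ω (fun x => ∑ a ∈ s, c a * e a x) v = ∑ a ∈ s, c a * ip Ω (e a) v := by
  unfold ip
  simp only [← integral_const_mul]
  rw [← integral_finsetSum]
  · refine integral_congr_ae (Eventually.of_forall fun x => ?_)
    simp only [Finset.sum_mul]
    exact Finset.sum_congr rfl fun a _ => by ring
  · intro a ha
    exact (((h a ha).memLp_u hW).integrable_mul hv).const_mul _

theorem qf_lin (hW : Pot W) (h : InF Ω W u G) (h' : InF Ω W v H) (h'' : InF Ω W w K) (a b : ℝ) :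
    qf Ω W (fun x => a * u x + b * v x) (fun x => a • G x + b • H x) w K =
      a * qf Ω W u G w K + b * qf Ω W v H w K := by
  unfold qf
  simp only [← integral_const_mul]
  rw [← integral_add]
  · refine integral_congr_ae (Eventually.of_forall fun x => ?_)
    simp only [inner_add_left, real_inner_smul_left]
    ring
  · exact ((h.integrable_inner hW h'').add (h.integrable_W hW h'')).const_mul _
  · exact ((h'.integrable_inner hW h'').add (h'.integrable_W hW h'')).const_mul _

theorem qf_congr_ae {u' v' : R3 → ℝ} {G' H' : R3 → R3} (h1 : u =ᵐ[volume.restrict Ω] u')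
    (h2 : G =ᵐ[volume.restrict Ω] G') (h3 : v =ᵐ[volume.restrict Ω] v')
    (h4 : H =ᵐ[volume.restrict Ω] H') : qf Ω W u G v H = qf Ω W u' G' v' H' := by
  refine integral_congr_ae ?_
  filter_upwards [h1, h2, h3, h4] with x e1 e2 e3 e4
  rw [e1, e2, e3, e4]

theorem OBas_loc (hΩ : IsOpen Ω) {f : R3 → ℝ} (hf : MemLp f 2 (volume.restrict Ω)) :
    LocallyIntegrableOn f Ω volume := by
  intro x hx
  obtain ⟨s, hs, hi⟩ := hf.locallyIntegrable (by norm_num) x
  refine ⟨s ∩ Ω, inter_mem (mem_nhdsWithin_of_mem_nhds hs) self_mem_nhdsWithin, ?_⟩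
  unfold IntegrableOn at hi ⊢
  rwa [Measure.restrict_restrict' hΩ.measurableSet] at hi

/-- closability -/
theorem InF.unique (hW : Pot W) (hΩ : IsOpen Ω) (h : InF Ω W u G)
    (h0 : u =ᵐ[volume.restrict Ω] fun _ => 0) : G =ᵐ[volume.restrict Ω] fun _ => 0 := by
  have key : ∀ k : Fin 3, ∀ᵐ x : R3, x ∈ Ω → ⟪G x, uv k⟫_ℝ = 0 := by
    intro k
    have hG : MemLp (fun x => ⟪G x, uv k⟫_ℝ) 2 (volume.restrict Ω) :=
      (h.memLp_G hW).inner_const _
    refine hΩ.ae_eq_zero_of_integral_contDiff_smul_eq_zero (OBas_loc hΩ hG) ?_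
    intro ψ hψ hc hs
    have hψ1 : Cc1 ψ := ⟨hψ.of_le (by exact_mod_cast le_top), hc⟩
    obtain ⟨v, hv, t, -⟩ := h.seq hW
    have hle : ∀ {a b : ℕ → ℝ≥0∞}, (∀ n, a n ≤ b n) → Tendsto b atTop (𝓝 0) →
        Tendsto a atTop (𝓝 0) := fun hab hb =>
      tendsto_of_tendsto_of_tendsto_of_le_of_le tendsto_const_nhds hb (fun _ => zero_le) hab
    have hd : Continuous fun x => fderiv ℝ ψ x (uv k) :=
      (hψ1.1.continuous_fderiv one_ne_zero).clm_apply continuous_const
    have hdc : HasCompactSupport fun x => fderiv ℝ ψ x (uv k) := hc.fderiv_apply ℝ (uv k)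
    have m1 : MemLp (fun x => ψ x • uv k) 2 (volume.restrict Ω) :=
      ((hψ.continuous.smul continuous_const).memLp_of_hasCompactSupport
        (hc.smul_right (f' := fun _ => uv k))).restrict Ω
    have m2 : MemLp (fun x => fderiv ℝ ψ x (uv k)) 2 (volume.restrict Ω) :=
      (hd.memLp_of_hasCompactSupport hdc).restrict Ω
    have a1 := OBas_tendsto_inner m1 (h.memLp_G hW) (fun _ => m1) (fun n => (hv n).OBas_G)
      (by simp) (hle (fun n => OBas_le_G hW) t)
    have a2 := OBas_tendsto_inner m2 (h.memLp_u hW) (fun _ => m2) (fun n => (hv n).OBas_u)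
      (by simp) (hle (fun n => OBas_le_u hW) t)
    have z : ∫ x in Ω, ⟪fderiv ℝ ψ x (uv k), u x⟫_ℝ = 0 := by
      refine integral_eq_zero_of_ae ?_
      filter_upwards [h0] with x hx
      simp [hx]
    rw [z] at a2
    have hout : ∀ x, x ∉ Ω → ψ x = 0 := fun x hx =>
      image_eq_zero_of_notMem_tsupport fun h' => hx (hs h')
    have hout' : ∀ x, x ∉ Ω → fderiv ℝ ψ x = 0 := fun x hx => by
      by_contra hne
      exact hx (hs (tsupport_fderiv_subset ℝ (subset_tsupport _ hne)))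
    have ibp : ∀ n, ∫ x in Ω, ⟪ψ x • uv k, gradient (v n) x⟫_ℝ =
        -∫ x in Ω, ⟪fderiv ℝ ψ x (uv k), v n x⟫_ℝ := by
      intro n
      rw [setIntegral_eq_integral_of_forall_compl_eq_zero (fun x hx => by simp [hout x hx]),
        setIntegral_eq_integral_of_forall_compl_eq_zero (fun x hx => by simp [hout' x hx])]
      have c1 := (hv n).1.continuous
      have c2 : Continuous fun x => fderiv ℝ (v n) x (uv k) :=
        ((hv n).1.continuous_fderiv one_ne_zero).clm_apply continuous_const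
      have := integral_mul_fderiv_eq_neg_fderiv_mul_of_integrable (μ := volume) (f := ψ)
        (g := v n) (v := uv k)
        ((hd.mul c1).integrable_of_hasCompactSupport hdc.mul_right)
        ((hψ.continuous.mul c2).integrable_of_hasCompactSupport hc.mul_right)
        ((hψ.continuous.mul c1).integrable_of_hasCompactSupport hc.mul_right)
        (fun x _ => hψ1.1.differentiable one_ne_zero x)
        (fun x _ => (hv n).1.differentiable one_ne_zero x)
      have e1 : ∀ x, ⟪ψ x • uv k, gradient (v n) x⟫_ℝ = ψ x * fderiv ℝ (v n) x (uv k) := fun x => by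
        rw [real_inner_smul_left, real_inner_comm, inner_gradient_eq]
      have e2 : ∀ x, ⟪fderiv ℝ ψ x (uv k), v n x⟫_ℝ = fderiv ℝ ψ x (uv k) * v n x := fun x => by
        simp [mul_comm]
      simp only [e1, e2]
      exact this
    simp only [ibp] at a1
    have := tendsto_nhds_unique a1 a2.neg
    rw [setIntegral_eq_integral_of_forall_compl_eq_zero (fun x hx => by simp [hout x hx])] at this
    rw [neg_zero] at this
    rw [← this]
    congr 1
    funext x
    rw [real_inner_smul_left, real_inner_comm, smul_eq_mul]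
  rw [Filter.EventuallyEq, ae_restrict_iff' hΩ.measurableSet]
  filter_upwards [ae_all_iff.2 key] with x hx hxΩ
  ext k
  have := hx k hxΩ
  rw [uv, EuclideanSpace.inner_single_right] at this
  simpa using this

end Pool.Agent.Lib.MP_8fe63c_mp
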