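import Pool.Agent.Lib.MP_8fe63c_mp.HMarg
import Pool.Agent.Lib.MP_8fe63c_mp.OBas

/-!
The Green operator on nice sources: measurability, symmetries, `C^1` regularity.

Sketch. `|heat t F x| ≤ B min(1, t^(-3/2))` by `marg_lheat_le` (with `A = ∅`, `A' = ∅` or
`univ.erase j`). Write `heat t F x = ∫ pk t (x - y) F y dy`; the derivative in `x` is the integral of
`hasFDerivAt_pk`, of norm at most `C t^(-1/2) lheat (2t) |F| x ≤ C B t^(-1/2) min(1, t^(-3/2))`
(`norm_mul_pk_le`), locally uniformly dominated. Use `hasFDerivAt_integral_of_dominated_of_fderiv_le`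
twice and `continuous_of_dominated` for the derivative (`contDiff_one_iff_fderiv`).
-/

set_option linter.unusedSectionVars false

open MeasureTheory Set Filter Topology
open scoped ENNReal InnerProductSpace

namespace Pool.Agent.Lib.MP_8fe63c_mp

variable {ι : Type} [Fintype ι] [DecidableEq ι] {F F' : (ι → R3) → ℝ} {B B' : ℝ}

theorem HGreen_empty_ne (hι : 2 ≤ Fintype.card ι) : (∅ : Finset ι) ≠ Finset.univ := by
  intro e
  have := congrArg Finset.card e
  rw [Finset.card_empty, Finset.card_univ] at this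
  omega

theorem Nice0.bdd (hι : 2 ≤ Fintype.card ι) (h : Nice0 F B) (x : ι → R3) : |F x| ≤ B := by
  have h1 := h.mg ∅ (HGreen_empty_ne hι) x
  rw [marg_empty] at h1
  exact (ENNReal.ofReal_le_ofReal_iff (zero_le_one.trans h.one_le)).1 h1

theorem measurable_eabs {X : Type} [MeasurableSpace X] {f : X → ℝ} (h : Measurable f) :
    Measurable (eabs f) := by
  exact ENNReal.measurable_ofReal.comp (continuous_abs.measurable.comp h)

theorem Nice0.mono (h : Nice0 F B) (hB : B ≤ B') : Nice0 F B' := by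
  exact ⟨h.meas, h.ti, h.one_le.trans hB, fun A hA x =>
    (h.mg A hA x).trans (ENNReal.ofReal_le_ofReal hB)⟩

theorem Nice0.of_le (h : Nice0 F B) (hm : Measurable F') (ht : TI F') (hle : ∀ x, |F' x| ≤ |F x|) :
    Nice0 F' B := by
  exact ⟨hm, ht, h.one_le, fun A hA x =>
    (marg_mono A (fun y => ENNReal.ofReal_le_ofReal (hle y)) x).trans (h.mg A hA x)⟩

theorem Nice0.sub (h : Nice0 F B) (h' : Nice0 F' B') : Nice0 (fun x => F x - F' x) (B + B') := by
  have h0 : 0 ≤ B := zero_le_one.trans h.one_le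
  have h0' : 0 ≤ B' := zero_le_one.trans h'.one_le
  refine ⟨h.meas.sub h'.meas, fun x a => by rw [h.ti x a, h'.ti x a],
    h.one_le.trans (le_add_of_nonneg_right h0'), fun A hA x => ?_⟩
  refine (marg_mono (Ψ := fun y => eabs F y + eabs F' y) A (fun y => ?_) x).trans ?_
  · unfold eabs
    rw [← ENNReal.ofReal_add (abs_nonneg _) (abs_nonneg _)]
    exact ENNReal.ofReal_le_ofReal (abs_sub _ _)
  · rw [marg_add A (measurable_eabs h.meas), ENNReal.ofReal_add h0 h0']
    exact add_le_add (h.mg A hA x) (h'.mg A hA x)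

theorem measurable_heat (h : Measurable F) :
    Measurable (fun p : ℝ × (ι → R3) => heat p.1 F p.2) := by
  have h1 : Measurable fun q : (ℝ × (ι → R3)) × (ι → R3) => pk q.1.1 q.2 * F (q.1.2 - q.2) :=
    (measurable_pk.comp (measurable_fst.fst.prodMk measurable_snd)).mul
      (h.comp (measurable_fst.snd.sub measurable_snd))
  exact (h1.stronglyMeasurable.integral_prod_right' (ν := volume)).measurable

theorem measurable_green (m : ℝ) (h : Measurable F) : Measurable (green m F) := by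
  have h2 := (measurable_heat h).comp
    (measurable_snd.prodMk measurable_fst : Measurable fun q : (ι → R3) × ℝ => (q.2, q.1))
  have h3 : Measurable fun q : (ι → R3) × ℝ => Real.exp (-(m ^ 2) * q.2) := by fun_prop
  have h1 : Measurable fun q : (ι → R3) × ℝ => Real.exp (-(m ^ 2) * q.2) * heat q.2 F q.1 :=
    h3.fun_mul h2
  exact (h1.stronglyMeasurable.integral_prod_right' (ν := volume.restrict (Ioi 0))).measurable

theorem TI.green (m : ℝ) (h : TI F) : TI (green m F) := by
  intro x a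
  have e : ∀ t, heat t F (fun i => x i + a) = heat t F x := by
    intro t
    refine integral_congr_ae (Eventually.of_forall fun z => ?_)
    have e2 : (fun i => x i + a) - z = fun i => (x - z) i + a := by
      funext i
      simp only [Pi.sub_apply]
      abel
    simp only [e2, h (x - z) a]
  simp only [Pool.Agent.Lib.MP_8fe63c_mp.green, e]

theorem Symm.green (m : ℝ) (h : Symm F) : Symm (green m F) := by
  intro π x
  have e : ∀ t, heat t F (x ∘ π) = heat t F x := by
    intro t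
    have hp := volume_preserving_arrowCongr' π.symm (MeasurableEquiv.refl R3) (.id volume)
    unfold heat
    rw [← hp.integral_comp']
    refine integral_congr_ae (Eventually.of_forall fun z => ?_)
    change pk t (z ∘ π) * F ((x - z) ∘ π) = _
    rw [pk_perm, h π]
  simp only [Pool.Agent.Lib.MP_8fe63c_mp.green, e]

theorem eabs_heat_le {t : ℝ} (ht : 0 < t) (x : ι → R3) :
    eabs (heat t F) x ≤ lheat t (eabs F) x := by
  unfold eabs heat lheat
  rw [← Real.enorm_eq_ofReal_abs]
  refine (enorm_integral_le_lintegral_enorm _).trans (le_of_eq (lintegral_congr fun z => ?_))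
  rw [Real.enorm_eq_ofReal_abs, abs_mul, abs_of_pos (pk_pos ht z),
    ENNReal.ofReal_mul (pk_pos ht z).le]

theorem eabs_green_le (m : ℝ) (x : ι → R3) : eabs (green m F) x ≤ lgreen m (eabs F) x := by
  unfold green lgreen
  change ENNReal.ofReal _ ≤ _
  rw [← Real.enorm_eq_ofReal_abs]
  refine (enorm_integral_le_lintegral_enorm _).trans
    (setLIntegral_mono' measurableSet_Ioi fun t ht => ?_)
  rw [Real.enorm_eq_ofReal_abs, abs_mul, abs_of_pos (Real.exp_pos _),
    ENNReal.ofReal_mul (Real.exp_pos _).le]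
  exact mul_le_mul_right (eabs_heat_le ht x) _

theorem HGreen_lheat_le (hι : 2 ≤ Fintype.card ι) (h : Nice0 F B) {t : ℝ} (ht : 0 < t)
    (x : ι → R3) : lheat t (eabs F) x ≤
      ENNReal.ofReal (B * min 1 (t ^ (-(3 / 2 : ℝ) * ((Fintype.card ι : ℝ) - 1)))) := by
  have hm := measurable_eabs h.meas
  rcases le_total 1 (t ^ (-(3 / 2 : ℝ) * ((Fintype.card ι : ℝ) - 1))) with h1 | h1
  · have h2 := marg_lheat_le hm (Finset.Subset.refl ∅) (h.mg ∅ (HGreen_empty_ne hι)) ht x
    rw [marg_empty] at h2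
    rw [min_eq_left h1]
    simpa using h2
  · obtain ⟨j⟩ : Nonempty ι := Fintype.card_pos_iff.1 (by omega)
    have h2 := marg_lheat_le hm (Finset.empty_subset (Finset.univ.erase j))
      (h.mg _ (Finset.erase_ne_self.2 (Finset.mem_univ j))) ht x
    rw [marg_empty, Finset.sdiff_empty, Finset.card_erase_of_mem (Finset.mem_univ j),
      Finset.card_univ, Nat.cast_sub (by omega), Nat.cast_one] at h2
    rwa [min_eq_right h1, mul_comm]

theorem Nice0.heat_le (hι : 2 ≤ Fintype.card ι) (h : Nice0 F B) {t : ℝ} (ht : 0 < t) (x : ι → R3) :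
    |heat t F x| ≤ B * min 1 (t ^ (-(3 / 2 : ℝ) * ((Fintype.card ι : ℝ) - 1))) := by
  have h0 : 0 ≤ B := zero_le_one.trans h.one_le
  exact (ENNReal.ofReal_le_ofReal_iff (by positivity)).1
    ((eabs_heat_le ht x).trans (HGreen_lheat_le hι h ht x))

theorem HGreen_min_le (hι : 2 ≤ Fintype.card ι) {s t : ℝ} (ht : 0 < t) (hs : t ≤ s) :
    min 1 (s ^ (-(3 / 2 : ℝ) * ((Fintype.card ι : ℝ) - 1))) ≤ min 1 (t ^ (-(3 / 2 : ℝ))) := by
  refine le_min (min_le_left _ _) ?_
  have h2 : (2 : ℝ) ≤ Fintype.card ι := by exact_mod_cast hι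
  rcases le_total t 1 with h1 | h1
  · exact (min_le_left _ _).trans
      (Real.one_le_rpow_of_pos_of_le_one_of_nonpos ht h1 (by norm_num))
  · refine (min_le_right _ _).trans ?_
    exact (Real.rpow_le_rpow_of_exponent_le (h1.trans hs) (by nlinarith)).trans
      (Real.rpow_le_rpow_of_nonpos ht hs (by norm_num))

theorem HGreen_maj_int {a : ℝ} (h0 : 0 ≤ a) (h1 : a < 1) :
    IntegrableOn (fun t : ℝ => t ^ (-a) * min 1 (t ^ (-(3 / 2 : ℝ)))) (Ioi 0) := by
  have hm : Measurable fun t : ℝ => t ^ (-a) * min 1 (t ^ (-(3 / 2 : ℝ))) :=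
    (measurable_id.pow_const _).mul (measurable_const.min (measurable_id.pow_const _))
  rw [← Ioc_union_Ioi_eq_Ioi (zero_le_one : (0 : ℝ) ≤ 1)]
  refine IntegrableOn.union ?_ ?_
  · have h2 : IntegrableOn (fun t : ℝ => t ^ (-a)) (Ioc 0 1) :=
      (intervalIntegral.intervalIntegrable_rpow' (by linarith)).1
    refine Integrable.mono' h2 hm.aestronglyMeasurable
      ((ae_restrict_iff' measurableSet_Ioc).2 (Eventually.of_forall fun t ht => ?_))
    have := ht.1
    rw [Real.norm_of_nonneg (by positivity)]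
    exact mul_le_of_le_one_right (by positivity) (min_le_left _ _)
  · have h2 : IntegrableOn (fun t : ℝ => t ^ (-(3 / 2 : ℝ))) (Ioi 1) :=
      integrableOn_Ioi_rpow_of_lt (by norm_num) zero_lt_one
    refine Integrable.mono' h2 hm.aestronglyMeasurable
      ((ae_restrict_iff' measurableSet_Ioi).2 (Eventually.of_forall fun t ht => ?_))
    have h3 : 1 < t := ht
    have h4 : 0 < t := by linarith
    rw [Real.norm_of_nonneg (by positivity)]
    exact (mul_le_of_le_one_left (by positivity)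
      (Real.rpow_le_one_of_one_le_of_nonpos h3.le (by linarith))).trans (min_le_right _ _)

theorem HGreen_exp_le (m : ℝ) {t : ℝ} (ht : 0 < t) : Real.exp (-(m ^ 2) * t) ≤ 1 :=
  Real.exp_le_one_iff.2 (mul_nonpos_of_nonpos_of_nonneg (neg_nonpos.2 (sq_nonneg m)) ht.le)

theorem HGreen_time_le (hι : 2 ≤ Fintype.card ι) (h : Nice0 F B) (m : ℝ) {t : ℝ} (ht : 0 < t)
    (x : ι → R3) : ‖Real.exp (-(m ^ 2) * t) * heat t F x‖ ≤
      B * (t ^ (-(0 : ℝ)) * min 1 (t ^ (-(3 / 2 : ℝ)))) := by
  have h0 : 0 ≤ B := zero_le_one.trans h.one_le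
  rw [neg_zero, Real.rpow_zero, one_mul, Real.norm_eq_abs, abs_mul, abs_of_pos (Real.exp_pos _)]
  exact (mul_le_of_le_one_left (abs_nonneg _) (HGreen_exp_le m ht)).trans
    ((h.heat_le hι ht x).trans (mul_le_mul_of_nonneg_left (HGreen_min_le hι ht le_rfl) h0))

theorem HGreen_time_meas (h : Measurable F) (m : ℝ) (x : ι → R3) :
    Measurable fun t => Real.exp (-(m ^ 2) * t) * heat t F x := by
  have h2 := (measurable_heat h).comp
    (measurable_id.prodMk measurable_const : Measurable fun t : ℝ => (t, x))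
  have h3 : Measurable fun t : ℝ => Real.exp (-(m ^ 2) * t) := by fun_prop
  exact h3.fun_mul h2

theorem Nice0.integrableOn (hι : 2 ≤ Fintype.card ι) (h : Nice0 F B) (m : ℝ) (x : ι → R3) :
    IntegrableOn (fun t => Real.exp (-(m ^ 2) * t) * heat t F x) (Ioi 0) := by
  exact Integrable.mono' ((HGreen_maj_int le_rfl zero_lt_one).const_mul B)
    (HGreen_time_meas h.meas m x).aestronglyMeasurable
    ((ae_restrict_iff' measurableSet_Ioi).2
      (Eventually.of_forall fun t ht => HGreen_time_le hι h m ht x))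

theorem HGreen_heat_int (hm : Measurable F) {M : ℝ} (hM : ∀ x, |F x| ≤ M) {t : ℝ} (ht : 0 < t)
    (x : ι → R3) : Integrable fun z => pk t z * F (x - z) :=
  (integrable_pk ht).mul_bdd (hm.comp (measurable_id.const_sub x)).aestronglyMeasurable
    (Eventually.of_forall fun z => hM (x - z))

theorem green_sub (hι : 2 ≤ Fintype.card ι) (h : Nice0 F B) (h' : Nice0 F' B') (m : ℝ)
    (x : ι → R3) : green m (fun y => F y - F' y) x = green m F x - green m F' x := by
  unfold green
  rw [← integral_sub (h.integrableOn hι m x) (h'.integrableOn hι m x)]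
  refine setIntegral_congr_fun measurableSet_Ioi fun t ht => ?_
  simp only [heat, mul_sub]
  rw [integral_sub (HGreen_heat_int h.meas (h.bdd hι) ht x)
    (HGreen_heat_int h'.meas (h'.bdd hι) ht x), mul_sub]

theorem green_eq_toReal (hm : Measurable F) (h0 : ∀ x, 0 ≤ F x) {M : ℝ} (hM : ∀ x, F x ≤ M)
    (m : ℝ) (x : ι → R3) : green m F x = (lgreen m (eabs F) x).toReal := by
  have hb : ∀ x, |F x| ≤ M := fun x => by rw [abs_of_nonneg (h0 x)]; exact hM x
  have hn : ∀ t, 0 < t → ∀ z, 0 ≤ pk t z * F (x - z) := fun t ht z =>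
    mul_nonneg (pk_pos ht z).le (h0 _)
  unfold green lgreen
  rw [integral_eq_lintegral_of_nonneg_ae (f := fun t => Real.exp (-(m ^ 2) * t) * heat t F x)
    ((ae_restrict_iff' measurableSet_Ioi).2 (Eventually.of_forall fun t ht =>
      mul_nonneg (Real.exp_pos _).le (integral_nonneg (hn t ht))))
    (HGreen_time_meas hm m x).aestronglyMeasurable]
  congr 1
  refine setLIntegral_congr_fun measurableSet_Ioi fun t ht => ?_
  simp only [heat, lheat, eabs]
  rw [ENNReal.ofReal_mul (Real.exp_pos _).le, ofReal_integral_eq_lintegral_ofReal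
    (HGreen_heat_int hm hb ht x) (Eventually.of_forall (hn t ht))]
  congr 1
  refine lintegral_congr fun z => ?_
  rw [ENNReal.ofReal_mul (pk_pos ht z).le, abs_of_nonneg (h0 _)]

theorem HGreen_slice_deriv {κ : (ι → R3) → ℝ} {x : ι → R3} {i : ι} {y : R3}
    (h : DifferentiableAt ℝ κ (Function.update x i y)) (v : R3) :
    fderiv ℝ (fun y => κ (Function.update x i y)) y v =
      fderiv ℝ κ (Function.update x i y) (Pi.single i v) := by
  have h1 := (h.hasFDerivAt.comp y (hasFDerivAt_update (𝕜 := ℝ) x y)).fderiv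
  change fderiv ℝ (fun y => κ (Function.update x i y)) y = _ at h1
  rw [h1, ContinuousLinearMap.comp_apply]
  congr 1
  funext j
  rcases eq_or_ne j i with rfl | hj
  · simp
  · simp [hj]

theorem pgrad_eq {κ : (ι → R3) → ℝ} {x : ι → R3} (h : DifferentiableAt ℝ κ x) (i : ι) (v : R3) :
    ⟪pgrad κ i x, v⟫_ℝ = fderiv ℝ κ x (Pi.single i v) := by
  have h1 : DifferentiableAt ℝ κ (Function.update x i (x i)) := by
    rwa [Function.update_eq_self]
  rw [pgrad, inner_gradient_eq, HGreen_slice_deriv h1, Function.update_eq_self]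

theorem HGreen_exists_L (i : ι) : ∃ L : ((ι → R3) →L[ℝ] ℝ) →L[ℝ] R3,
    ∀ φ v, ⟪L φ, v⟫_ℝ = φ (Pi.single i v) := by
  let L : ((ι → R3) →L[ℝ] ℝ) →ₗ[ℝ] R3 :=
    { toFun := fun φ => (InnerProductSpace.toDual ℝ R3).symm
        (φ.comp (ContinuousLinearMap.single ℝ (fun _ : ι => R3) i))
      map_add' := fun φ ψ => by rw [ContinuousLinearMap.add_comp, map_add]
      map_smul' := fun c φ => by
        rw [ContinuousLinearMap.smul_comp, map_smulₛₗ]
        rfl }
  exact ⟨LinearMap.toContinuousLinearMap L, fun φ v => InnerProductSpace.toDual_symm_apply⟩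

theorem HGreen_pgrad_L {i : ι} {L : ((ι → R3) →L[ℝ] ℝ) →L[ℝ] R3}
    (hL : ∀ φ v, ⟪L φ, v⟫_ℝ = φ (Pi.single i v)) {κ : (ι → R3) → ℝ} {x : ι → R3}
    (h : DifferentiableAt ℝ κ x) : pgrad κ i x = L (fderiv ℝ κ x) :=
  ext_inner_right ℝ fun v => by rw [pgrad_eq h, hL]

theorem Cb1.continuous_pgrad {κ : (ι → R3) → ℝ} (h : Cb1 κ) (i : ι) : Continuous (pgrad κ i) := by
  obtain ⟨L, hL⟩ := HGreen_exists_L i
  obtain ⟨h1, h2⟩ := contDiff_one_iff_fderiv.1 h.1
  have e : pgrad κ i = fun x => L (fderiv ℝ κ x) := funext fun x => HGreen_pgrad_L hL (h1 x)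
  rw [e]
  exact L.continuous.comp h2

theorem Cb1.pgrad_bdd {κ : (ι → R3) → ℝ} (h : Cb1 κ) : ∃ M : ℝ, ∀ i x, ‖pgrad κ i x‖ ≤ M := by
  obtain ⟨h1, M, hM⟩ := h
  refine ⟨M, fun i x => ?_⟩
  have h0 : 0 ≤ M := (abs_nonneg _).trans (hM x).1
  have h2 := pgrad_eq ((contDiff_one_iff_fderiv.1 h1).1 x) i (pgrad κ i x)
  rw [real_inner_self_eq_norm_mul_norm] at h2
  have h3 := (fderiv ℝ κ x).le_of_opNorm_le (hM x).2 (Pi.single i (pgrad κ i x))
  rw [← h2, Pi.norm_single, Real.norm_of_nonneg (by positivity)] at h3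
  rcases (norm_nonneg (pgrad κ i x)).eq_or_lt with h4 | h4
  · rwa [← h4]
  · exact le_of_mul_le_mul_right h3 h4

theorem Cb1.slice {κ : (ι → R3) → ℝ} (h : Cb1 κ) (i : ι) (x : ι → R3) :
    Cb1 (fun y => κ (Function.update x i y)) := by
  obtain ⟨h1, M, hM⟩ := h
  refine ⟨h1.comp (contDiff_update 1 x i), M, fun y => ⟨(hM _).1, ?_⟩⟩
  refine ContinuousLinearMap.opNorm_le_bound _ ((abs_nonneg _).trans (hM x).1) fun v => ?_
  rw [HGreen_slice_deriv ((contDiff_one_iff_fderiv.1 h1).1 _)]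
  have h3 := (fderiv ℝ κ (Function.update x i y)).le_of_opNorm_le (hM _).2 (Pi.single i v)
  rwa [Pi.norm_single] at h3

theorem Cc1.slice {κ : (ι → R3) → ℝ} (h : Cc1 κ) (i : ι) (x : ι → R3) :
    Cc1 (fun y => κ (Function.update x i y)) := by
  exact ⟨h.1.comp (contDiff_update 1 x i),
    h.2.comp_isClosedEmbedding (isClosedEmbedding_update x i)⟩

theorem gradient_slice (κ : (ι → R3) → ℝ) (i : ι) (x : ι → R3) (y : R3) :
    gradient (fun y => κ (Function.update x i y)) y = pgrad κ i (Function.update x i y) := by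
  simp only [pgrad, Function.update_idem, Function.update_self]

/-- the derivative of the kernel -/
noncomputable def HGreen_dk (t : ℝ) (z : ι → R3) : (ι → R3) →L[ℝ] ℝ :=
  ∑ i, (-(pk t z) / (2 * t)) • ((innerSL ℝ (z i)).comp (ContinuousLinearMap.proj i))

/-- the derivative of the heat flow -/
noncomputable def HGreen_D (t : ℝ) (F : (ι → R3) → ℝ) (x : ι → R3) : (ι → R3) →L[ℝ] ℝ :=
  ∫ z, F (x - z) • HGreen_dk t z

theorem HGreen_dk_apply (t : ℝ) (z v : ι → R3) :
    HGreen_dk t z v = ∑ i, -(pk t z) / (2 * t) * ⟪z i, v i⟫_ℝ := by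
  simp [HGreen_dk]

theorem HGreen_dk_norm {t : ℝ} (ht : 0 < t) (z : ι → R3) : ‖HGreen_dk t z‖ ≤
    Fintype.card ι * 3 ^ (Fintype.card ι + 1) * t ^ (-(1 / 2 : ℝ)) * pk (2 * t) z := by
  have hp := pk_pos ht z
  have hp2 := pk_pos (by positivity : 0 < 2 * t) z
  have hs : 0 < √t := Real.sqrt_pos.2 ht
  have e : t ^ (-(1 / 2 : ℝ)) = √t / t := by
    rw [Real.rpow_neg ht.le, ← Real.sqrt_eq_rpow, Real.sqrt_div_self', one_div]
  refine ContinuousLinearMap.opNorm_le_bound _ (by positivity) fun v => ?_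
  rw [HGreen_dk_apply]
  refine (norm_sum_le _ _).trans ((Finset.sum_le_card_nsmul _ _
    (3 ^ (Fintype.card ι + 1) * t ^ (-(1 / 2 : ℝ)) * pk (2 * t) z * ‖v‖) fun i _ => ?_).trans
    (le_of_eq ?_))
  · have h1 := norm_mul_pk_le ht z i
    have h2 : ‖⟪z i, v i⟫_ℝ‖ ≤ ‖z i‖ * ‖v‖ :=
      (norm_inner_le_norm _ _).trans (mul_le_mul_of_nonneg_left (norm_le_pi_norm v i)
        (norm_nonneg _))
    rw [norm_mul, neg_div, norm_neg, Real.norm_of_nonneg (by positivity), e]
    calc pk t z / (2 * t) * ‖⟪z i, v i⟫_ℝ‖ ≤ pk t z / t * (‖z i‖ * ‖v‖) := by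
          gcongr
          linarith
      _ = ‖z i‖ * pk t z * (‖v‖ / t) := by ring
      _ ≤ 3 ^ (Fintype.card ι + 1) * √t * pk (2 * t) z * (‖v‖ / t) := by gcongr
      _ = _ := by ring
  · rw [Finset.card_univ, nsmul_eq_mul]
    ring

theorem HGreen_cont_lin (i : ι) : Continuous fun z : ι → R3 =>
    ((innerSL ℝ (z i)).comp (ContinuousLinearMap.proj i) : (ι → R3) →L[ℝ] ℝ) :=
  ((innerSL ℝ).continuous.comp (continuous_apply i)).clm_comp continuous_const

theorem HGreen_dk_cont (t : ℝ) : Continuous (HGreen_dk t : (ι → R3) → _) :=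
  continuous_finsetSum _ fun i _ =>
    ((continuous_pk t).neg.div_const _).smul (HGreen_cont_lin i)

theorem HGreen_dk_meas : StronglyMeasurable fun p : ℝ × (ι → R3) => HGreen_dk p.1 p.2 :=
  Finset.stronglyMeasurable_fun_sum _ fun i _ =>
    (measurable_pk.neg.div (measurable_fst.const_mul 2)).stronglyMeasurable.smul
      ((HGreen_cont_lin i).comp continuous_snd).stronglyMeasurable

theorem HGreen_qk_shift {s : ℝ} (hs : 0 < s) : ∃ c : ℝ, 0 ≤ c ∧ ∀ z h : R3, ‖h‖ ≤ 1 →
    qk s (z + h) ≤ c * qk (2 * s) z := by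
  have hπ := Real.pi_pos
  have h1 : 0 < (4 * Real.pi * (2 * s)) ^ (-(3 / 2 : ℝ)) := by positivity
  refine ⟨(4 * Real.pi * s) ^ (-(3 / 2 : ℝ)) * Real.exp (1 / (4 * s)) /
    (4 * Real.pi * (2 * s)) ^ (-(3 / 2 : ℝ)), by positivity, fun z h hh => ?_⟩
  have h2 : ‖z‖ ≤ ‖z + h‖ + 1 := by
    have := norm_sub_le (z + h) h
    rw [add_sub_cancel_right] at this
    linarith
  have h3 : ‖z‖ ^ 2 ≤ 2 * ‖z + h‖ ^ 2 + 2 := by
    nlinarith [norm_nonneg z, norm_nonneg (z + h), sq_nonneg (‖z + h‖ - 1)]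
  have h4 : -‖z + h‖ ^ 2 / (4 * s) ≤ 1 / (4 * s) + -‖z‖ ^ 2 / (4 * (2 * s)) := by
    have e : 1 / (4 * s) + -‖z‖ ^ 2 / (4 * (2 * s)) = (1 - ‖z‖ ^ 2 / 2) / (4 * s) := by
      field_simp
      ring
    rw [e]
    gcongr
    linarith
  unfold qk
  rw [← mul_assoc, div_mul_cancel₀ _ h1.ne', mul_assoc _ (Real.exp _), ← Real.exp_add]
  gcongr

theorem HGreen_pk_shift {s : ℝ} (hs : 0 < s) : ∃ c : ℝ, 0 ≤ c ∧ ∀ z h : ι → R3, ‖h‖ ≤ 1 →
    pk s (z + h) ≤ c * pk (2 * s) z := by
  obtain ⟨c, h0, hc⟩ := HGreen_qk_shift hs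
  refine ⟨∏ _i : ι, c, Finset.prod_nonneg fun _ _ => h0, fun z h hh => ?_⟩
  unfold pk
  rw [← Finset.prod_mul_distrib]
  exact Finset.prod_le_prod (fun i _ => (qk_pos hs _).le) fun i _ =>
    hc _ _ ((norm_le_pi_norm h i).trans hh)

theorem HGreen_negInv : (volume : Measure (ι → R3)).IsNegInvariant :=
  Measure.pi.isNegInvariant _

theorem HGreen_cb1 {κ : (ι → R3) → ℝ} {D : (ι → R3) → (ι → R3) →L[ℝ] ℝ} (h1 : Continuous D)
    (h2 : ∀ x, HasFDerivAt κ (D x) x) {a b : ℝ} (ha : ∀ x, |κ x| ≤ a) (hb : ∀ x, ‖D x‖ ≤ b) :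
    Cb1 κ :=
  ⟨contDiff_one_iff_hasFDerivAt.2 ⟨D, h1, h2⟩, max a b, fun x =>
    ⟨(ha x).trans (le_max_left _ _), by
      rw [(h2 x).fderiv]
      exact (hb x).trans (le_max_right _ _)⟩⟩

theorem HGreen_D_eq (t : ℝ) (x : ι → R3) : HGreen_D t F x = ∫ y, F y • HGreen_dk t (x - y) := by
  have := HGreen_negInv (ι := ι)
  unfold HGreen_D
  rw [← integral_sub_left_eq_self _ volume x]
  simp only [sub_sub_cancel]

theorem HGreen_heat_deriv (hm : Measurable F) {M : ℝ} (hM : ∀ x, |F x| ≤ M) {t : ℝ}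
    (ht : 0 < t) :
    Continuous (HGreen_D t F) ∧ ∀ x, HasFDerivAt (heat t F) (HGreen_D t F x) x := by
  have := HGreen_negInv (ι := ι)
  obtain ⟨c, h0, hc⟩ := HGreen_pk_shift (ι := ι) (by positivity : 0 < 2 * t)
  set K : ℝ := Fintype.card ι * 3 ^ (Fintype.card ι + 1) * t ^ (-(1 / 2 : ℝ)) with hK
  have hK0 : 0 ≤ K := by positivity
  have hb : ∀ x₀ y x : ι → R3, x ∈ Metric.closedBall x₀ 1 →
      ‖F y • HGreen_dk t (x - y)‖ ≤ M * (K * (c * pk (2 * (2 * t)) (x₀ - y))) := by
    intro x₀ y x hx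
    rw [norm_smul]
    refine mul_le_mul (hM y) ((HGreen_dk_norm ht _).trans (mul_le_mul_of_nonneg_left ?_ hK0))
      (norm_nonneg _) ((abs_nonneg _).trans (hM y))
    have e : x - y = x₀ - y + (x - x₀) := by abel
    rw [e]
    exact hc _ _ (mem_closedBall_iff_norm.1 hx)
  have hi : ∀ x₀ : ι → R3, Integrable fun y => M * (K * (c * pk (2 * (2 * t)) (x₀ - y))) :=
    fun x₀ => ((((integrable_pk (by positivity)).comp_sub_left x₀).const_mul c).const_mul
      K).const_mul M
  have hs : ∀ x : ι → R3, AEStronglyMeasurable (fun y => F y • HGreen_dk t (x - y)) volume :=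
    fun x => hm.aestronglyMeasurable.smul
      ((HGreen_dk_cont t).comp (continuous_const.sub continuous_id)).aestronglyMeasurable
  have e1 : HGreen_D t F = fun x : ι → R3 => ∫ y : ι → R3, F y • HGreen_dk t (x - y) :=
    funext fun x => HGreen_D_eq t x
  have e2 : heat t F = fun x => ∫ y, F y * pk t (x - y) := by
    funext x
    unfold heat
    rw [← integral_sub_left_eq_self _ volume x]
    simp only [sub_sub_cancel, mul_comm]
  rw [e1, e2]
  refine ⟨continuous_iff_continuousAt.2 fun x₀ => ?_, fun x₀ => ?_⟩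
  · refine continuousAt_of_dominated (Eventually.of_forall hs) ?_ (hi x₀)
      (Eventually.of_forall fun y => ?_)
    · filter_upwards [Metric.closedBall_mem_nhds x₀ zero_lt_one] with x hx
      exact Eventually.of_forall fun y => hb x₀ y x hx
    · have h1 : Continuous fun x : ι → R3 => HGreen_dk t (x - y) :=
        (HGreen_dk_cont t).comp (continuous_id.sub continuous_const)
      exact (h1.fun_const_smul (F y)).continuousAt
  · refine hasFDerivAt_integral_of_dominated_of_fderiv_le (𝕜 := ℝ) (μ := volume)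
      (F := fun x y => F y * pk t (x - y)) (s := Metric.closedBall x₀ 1)
      (bound := fun y => M * (K * (c * pk (2 * (2 * t)) (x₀ - y))))
      (F' := fun x y => F y • HGreen_dk t (x - y)) (Metric.closedBall_mem_nhds x₀ zero_lt_one)
      (Eventually.of_forall fun x => ?_) ?_ (hs x₀) (Eventually.of_forall (hb x₀)) (hi x₀)
      (Eventually.of_forall fun y x _ => ?_)
    · exact hm.aestronglyMeasurable.mul
        ((continuous_pk t).comp (continuous_const.sub continuous_id)).aestronglyMeasurable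
    · exact ((integrable_pk ht).comp_sub_left x₀).bdd_mul hm.aestronglyMeasurable
        (Eventually.of_forall hM)
    · exact ((hasFDerivAt_comp_sub y).2 (hasFDerivAt_pk ht (x - y))).const_mul (F y)

theorem HGreen_D_int (hm : Measurable F) {M : ℝ} (hM : ∀ x, |F x| ≤ M) {t : ℝ} (ht : 0 < t)
    (x : ι → R3) : Integrable fun z => F (x - z) • HGreen_dk t z := by
  refine Integrable.mono' (((integrable_pk (by positivity : 0 < 2 * t)).const_mul
    (Fintype.card ι * 3 ^ (Fintype.card ι + 1) * t ^ (-(1 / 2 : ℝ)))).const_mul M)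
    ((hm.comp (measurable_id.const_sub x)).aestronglyMeasurable.smul
      (HGreen_dk_cont t).aestronglyMeasurable) (Eventually.of_forall fun z => ?_)
  rw [norm_smul]
  exact mul_le_mul (hM _) (HGreen_dk_norm ht _) (norm_nonneg _) ((abs_nonneg _).trans (hM z))

theorem HGreen_D_norm (hι : 2 ≤ Fintype.card ι) (h : Nice0 F B) {t : ℝ} (ht : 0 < t)
    (x : ι → R3) : ‖HGreen_D t F x‖ ≤ Fintype.card ι * 3 ^ (Fintype.card ι + 1) * B *
      (t ^ (-(1 / 2 : ℝ)) * min 1 (t ^ (-(3 / 2 : ℝ)))) := by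
  have h0 : 0 ≤ B := zero_le_one.trans h.one_le
  have h2 : 0 < 2 * t := by positivity
  have ha : Nice0 (fun x => |F x|) B :=
    h.of_le (continuous_abs.measurable.comp h.meas) (fun x a => by rw [h.ti x a])
      fun x => (abs_abs _).le
  set K : ℝ := Fintype.card ι * 3 ^ (Fintype.card ι + 1) * t ^ (-(1 / 2 : ℝ)) with hK
  have hK0 : 0 ≤ K := by positivity
  have h1 : ‖HGreen_D t F x‖ ≤ ∫ z, K * (pk (2 * t) z * |F (x - z)|) := by
    refine norm_integral_le_of_norm_le ((HGreen_heat_int ha.meas (ha.bdd hι) h2 x).const_mul K)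
      (Eventually.of_forall fun z => ?_)
    rw [norm_smul, ← mul_assoc, mul_comm]
    exact mul_le_mul_of_nonneg_right (HGreen_dk_norm ht z) (norm_nonneg _)
  rw [integral_const_mul] at h1
  have h3 := (le_abs_self _).trans ((ha.heat_le hι h2 x).trans
    (mul_le_mul_of_nonneg_left (HGreen_min_le hι ht (by linarith)) h0))
  refine h1.trans ((mul_le_mul_of_nonneg_left h3 hK0).trans (le_of_eq ?_))
  rw [hK]
  ring

theorem Nice0.cb1_heat (hι : 2 ≤ Fintype.card ι) (h : Nice0 F B) {t : ℝ} (ht : 0 < t) :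
    Cb1 (heat t F) := by
  obtain ⟨h1, h2⟩ := HGreen_heat_deriv h.meas (h.bdd hι) ht
  exact HGreen_cb1 h1 h2 (h.heat_le hι ht) (HGreen_D_norm hι h ht)

theorem Nice0.pgrad_heat (hι : 2 ≤ Fintype.card ι) (h : Nice0 F B) {t : ℝ} (ht : 0 < t) (i : ι)
    (x : ι → R3) :
    pgrad (heat t F) i x = ∫ z, (-(pk t z) / (2 * t) * F (x - z)) • z i := by
  obtain ⟨L, hL⟩ := HGreen_exists_L i
  have h2 := (HGreen_heat_deriv h.meas (h.bdd hι) ht).2 x
  rw [HGreen_pgrad_L hL h2.differentiableAt, h2.fderiv, HGreen_D,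
    ← L.integral_comp_comm (HGreen_D_int h.meas (h.bdd hι) ht x)]
  refine integral_congr_ae (Eventually.of_forall fun z => ext_inner_right ℝ fun v => ?_)
  rw [hL, smul_apply, HGreen_dk_apply, Finset.sum_eq_single i,
    Pi.single_eq_same, real_inner_smul_left, smul_eq_mul]
  · ring
  · intro j _ hj
    rw [Pi.single_eq_of_ne hj, inner_zero_right, mul_zero]
  · simp

theorem HGreen_E_meas (h : Measurable F) (m : ℝ) (x : ι → R3) :
    StronglyMeasurable fun t => Real.exp (-(m ^ 2) * t) • HGreen_D t F x := by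
  have h1 : StronglyMeasurable fun p : ℝ × (ι → R3) => F (x - p.2) • HGreen_dk p.1 p.2 :=
    (h.comp (measurable_snd.const_sub x)).stronglyMeasurable.smul HGreen_dk_meas
  exact (Real.measurable_exp.comp (measurable_id.const_mul _)).stronglyMeasurable.smul
    (h1.integral_prod_right' (ν := volume))

theorem HGreen_E_norm (hι : 2 ≤ Fintype.card ι) (h : Nice0 F B) (m : ℝ) {t : ℝ} (ht : 0 < t)
    (x : ι → R3) : ‖Real.exp (-(m ^ 2) * t) • HGreen_D t F x‖ ≤
      Fintype.card ι * 3 ^ (Fintype.card ι + 1) * B *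
        (t ^ (-(1 / 2 : ℝ)) * min 1 (t ^ (-(3 / 2 : ℝ)))) := by
  rw [norm_smul, Real.norm_of_nonneg (Real.exp_pos _).le]
  exact (mul_le_of_le_one_left (norm_nonneg _) (HGreen_exp_le m ht)).trans
    (HGreen_D_norm hι h ht x)

theorem HGreen_green_deriv (hι : 2 ≤ Fintype.card ι) (h : Nice0 F B) (m : ℝ) (x : ι → R3) :
    HasFDerivAt (green m F)
      (∫ t in Ioi (0 : ℝ), Real.exp (-(m ^ 2) * t) • HGreen_D t F x) x :=
  hasFDerivAt_integral_of_dominated_of_fderiv_le
    (F := fun x t => Real.exp (-(m ^ 2) * t) * heat t F x)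
    (F' := fun x t => Real.exp (-(m ^ 2) * t) • HGreen_D t F x) univ_mem
    (Eventually.of_forall fun y => (HGreen_time_meas h.meas m y).aestronglyMeasurable)
    (h.integrableOn hι m x) (HGreen_E_meas h.meas m x).aestronglyMeasurable
    ((ae_restrict_iff' measurableSet_Ioi).2
      (Eventually.of_forall fun _ ht y _ => HGreen_E_norm hι h m ht y))
    ((HGreen_maj_int (by norm_num) (by norm_num)).const_mul _)
    ((ae_restrict_iff' measurableSet_Ioi).2 (Eventually.of_forall fun _ ht y _ =>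
      ((HGreen_heat_deriv h.meas (h.bdd hι) ht).2 y).const_mul _))

theorem Nice0.cb1_green (hι : 2 ≤ Fintype.card ι) (h : Nice0 F B) (m : ℝ) : Cb1 (green m F) := by
  have hi := (HGreen_maj_int (a := 1 / 2) (by norm_num) (by norm_num)).const_mul
    (Fintype.card ι * 3 ^ (Fintype.card ι + 1) * B)
  have hb := fun x => (ae_restrict_iff' (μ := volume) measurableSet_Ioi).2
    (Eventually.of_forall fun (t : ℝ) (ht : t ∈ Ioi 0) => HGreen_E_norm hι h m ht x)
  exact HGreen_cb1
    (continuous_of_dominated (fun x => (HGreen_E_meas h.meas m x).aestronglyMeasurable) hb hi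
      ((ae_restrict_iff' measurableSet_Ioi).2 (Eventually.of_forall fun t ht =>
        (HGreen_heat_deriv h.meas (h.bdd hι) ht).1.fun_const_smul _)))
    (HGreen_green_deriv hι h m)
    (fun x => norm_integral_le_of_norm_le ((HGreen_maj_int le_rfl zero_lt_one).const_mul B)
      ((ae_restrict_iff' measurableSet_Ioi).2
        (Eventually.of_forall fun t ht => HGreen_time_le hι h m ht x)))
    fun x => norm_integral_le_of_norm_le hi (hb x)

theorem Nice0.pgrad_green (hι : 2 ≤ Fintype.card ι) (h : Nice0 F B) (m : ℝ) (i : ι) (x : ι → R3) :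
    IntegrableOn (fun t => Real.exp (-(m ^ 2) * t) • pgrad (heat t F) i x) (Ioi 0) ∧
    pgrad (green m F) i x =
      ∫ t in Ioi (0 : ℝ), Real.exp (-(m ^ 2) * t) • pgrad (heat t F) i x := by
  obtain ⟨L, hL⟩ := HGreen_exists_L i
  have hi : IntegrableOn (fun t => Real.exp (-(m ^ 2) * t) • HGreen_D t F x) (Ioi 0) :=
    Integrable.mono' ((HGreen_maj_int (a := 1 / 2) (by norm_num) (by norm_num)).const_mul _)
      (HGreen_E_meas h.meas m x).aestronglyMeasurable
      ((ae_restrict_iff' measurableSet_Ioi).2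
        (Eventually.of_forall fun t ht => HGreen_E_norm hι h m ht x))
  have e : EqOn (fun t => L (Real.exp (-(m ^ 2) * t) • HGreen_D t F x))
      (fun t => Real.exp (-(m ^ 2) * t) • pgrad (heat t F) i x) (Ioi 0) := by
    intro t ht
    have h2 := (HGreen_heat_deriv h.meas (h.bdd hι) ht).2 x
    simp only [map_smul, HGreen_pgrad_L hL h2.differentiableAt, h2.fderiv]
  have h3 := HGreen_green_deriv hι h m x
  refine ⟨IntegrableOn.congr_fun (L.integrable_comp hi) e measurableSet_Ioi, ?_⟩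
  rw [HGreen_pgrad_L hL h3.differentiableAt, h3.fderiv, ← L.integral_comp_comm hi]
  exact setIntegral_congr_fun measurableSet_Ioi e

end Pool.Agent.Lib.MP_8fe63c_mp
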