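import Pool.Agent.Lib.MP_8fe63c_mp.OBas

/-!
Chain rule and multipliers in the form domain.

Sketch. Take `v n` from `InF.seq`. For the chain rule `Φ ∘ v n` is `Cc1`,
`|Φ(v n) - Φ u| ≤ L |v n - u|`, and
`Φ'(v n) ∇ v n - Φ'(u) G = Φ'(v n) (∇ v n - G) + (Φ'(v n) - Φ'(u)) G`, the last term tends to zero
in `L^2` by dominated convergence. For `BF.cube` apply the chain rule to a `C^1` function with bounded
derivative that equals `t^3` on `[-M, M]` (for instance `t^3 χ(t)` with a bump `χ`).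
-/

set_option linter.unusedSectionVars false

open MeasureTheory Set Filter Topology
open scoped ENNReal InnerProductSpace

namespace Pool.Agent.Lib.MP_8fe63c_mp

variable {Ω : Set R3} {W : R3 → ℝ} {u v w : R3 → ℝ} {G H K : R3 → R3}

theorem OChain_of_tendsto (hu : Measurable u) (hG : Measurable G) {z : ℕ → R3 → ℝ}
    (hz : ∀ n, Cc1 (z n)) {a : ℕ → ℝ≥0∞} (ha : Tendsto a atTop (𝓝 0))
    (hle : ∀ n, gdist Ω W u G (z n) (gradient (z n)) ≤ a n) : InF Ω W u G := by
  refine ⟨hu, hG, fun ε hε => ?_⟩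
  obtain ⟨n, hn⟩ := (ENNReal.tendsto_nhds_zero.1 ha ε hε).exists
  exact ⟨z n, hz n, (hle n).trans hn⟩

theorem OChain_cont_grad {f : R3 → ℝ} (hf : ContDiff ℝ 1 f) : Continuous (gradient f) :=
  (InnerProductSpace.toDual ℝ R3).symm.continuous.comp (hf.continuous_fderiv one_ne_zero)

theorem OChain_grad_comp {f : R3 → ℝ} {Φ : ℝ → ℝ} {x : R3} (hf : DifferentiableAt ℝ f x)
    (hΦ : DifferentiableAt ℝ Φ (f x)) :
    gradient (fun y => Φ (f y)) x = deriv Φ (f x) • gradient f x := by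
  have h := (hΦ.hasDerivAt.comp_hasFDerivAt x hf.hasFDerivAt).fderiv
  have e : gradient (fun y => Φ (f y)) x =
      (InnerProductSpace.toDual ℝ R3).symm (fderiv ℝ (Φ ∘ f) x) := rfl
  rw [e, h, map_smul]
  rfl

theorem OChain_sq_add (a b : R3) : ‖a + b‖ ^ 2 ≤ 2 * ‖a‖ ^ 2 + 2 * ‖b‖ ^ 2 := by
  have h1 : ‖a + b‖ ^ 2 ≤ (‖a‖ + ‖b‖) ^ 2 := pow_le_pow_left₀ (norm_nonneg _) (norm_add_le a b) 2
  nlinarith [sq_nonneg (‖a‖ - ‖b‖)]

theorem OChain_smul_sq (c : ℝ) (a : R3) : ‖c • a‖ ^ 2 = c ^ 2 * ‖a‖ ^ 2 := by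
  rw [norm_smul, mul_pow, Real.norm_eq_abs, sq_abs]

theorem OChain_pt_mult {ω c s t M : ℝ} {A B g : R3} (hω : 0 ≤ ω) (hc : |c| ≤ M) (hg : ‖g‖ ≤ M) :
    (1 + ω) * (c * s - c * t) ^ 2 + ‖c • A + s • g - (c • B + t • g)‖ ^ 2 ≤
      3 * M ^ 2 * ((1 + ω) * (s - t) ^ 2 + ‖A - B‖ ^ 2) := by
  have e : c • A + s • g - (c • B + t • g) = c • (A - B) + (s - t) • g := by
    rw [smul_sub, sub_smul]
    abel
  have h1 := OChain_sq_add (c • (A - B)) ((s - t) • g)
  rw [OChain_smul_sq, OChain_smul_sq] at h1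
  have h2 : c ^ 2 ≤ M ^ 2 := by
    rw [← sq_abs c]
    exact pow_le_pow_left₀ (abs_nonneg _) hc 2
  have h3 : ‖g‖ ^ 2 ≤ M ^ 2 := pow_le_pow_left₀ (norm_nonneg _) hg 2
  have h4 := mul_le_mul_of_nonneg_right h2 (sq_nonneg ‖A - B‖)
  have h5 := mul_le_mul_of_nonneg_left h3 (sq_nonneg (s - t))
  have h6 := mul_le_mul_of_nonneg_right h2 (mul_nonneg (by linarith : 0 ≤ 1 + ω) (sq_nonneg (s - t)))
  have h7 := mul_nonneg (sq_nonneg M) (mul_nonneg hω (sq_nonneg (s - t)))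
  have h8 := mul_nonneg (sq_nonneg M) (sq_nonneg ‖A - B‖)
  rw [e]
  nlinarith

theorem OChain_pt_chain {ω a b s t p q L : ℝ} {A B : R3} (hω : 0 ≤ ω) (hab : |a - b| ≤ L * |s - t|)
    (hq : |q| ≤ L) :
    (1 + ω) * (a - b) ^ 2 + ‖p • A - q • B‖ ^ 2 ≤
      2 * L ^ 2 * ((1 + ω) * (s - t) ^ 2 + ‖A - B‖ ^ 2) + 2 * (p - q) ^ 2 * ‖A‖ ^ 2 := by
  have e : p • A - q • B = q • (A - B) + (p - q) • A := by
    rw [smul_sub, sub_smul]
    abel
  have h1 := OChain_sq_add (q • (A - B)) ((p - q) • A)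
  rw [OChain_smul_sq, OChain_smul_sq] at h1
  have h2 : q ^ 2 ≤ L ^ 2 := by
    rw [← sq_abs q]
    exact pow_le_pow_left₀ (abs_nonneg _) hq 2
  have h3 : (a - b) ^ 2 ≤ L ^ 2 * (s - t) ^ 2 := by
    rw [← sq_abs (a - b), ← sq_abs (s - t), ← mul_pow]
    exact pow_le_pow_left₀ (abs_nonneg _) hab 2
  have h4 := mul_le_mul_of_nonneg_right h2 (sq_nonneg ‖A - B‖)
  have h5 := mul_le_mul_of_nonneg_left h3 (by linarith : 0 ≤ 1 + ω)
  have h6 := mul_nonneg (sq_nonneg L) (mul_nonneg (by linarith : 0 ≤ 1 + ω) (sq_nonneg (s - t)))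
  rw [e]
  nlinarith

theorem OChain_cc1_mul {χ : R3 → ℝ} (hχ : ContDiff ℝ 1 χ) (hv : Cc1 v) :
    Cc1 (fun x => χ x * v x) :=
  ⟨hχ.mul hv.1, hv.2.mul_left⟩

theorem OChain_exists_cube (M : ℝ) : ∃ Φ : ℝ → ℝ, ContDiff ℝ 1 Φ ∧ Φ 0 = 0 ∧
    (∀ t, |deriv Φ t| ≤ 3 * M ^ 2) ∧ ∀ t, |t| ≤ M → Φ t = t ^ 3 ∧ deriv Φ t = 3 * t ^ 2 := by
  have hc : Continuous fun s : ℝ => 3 * min (s ^ 2) (M ^ 2) := by fun_prop
  have hd : ∀ t, HasDerivAt (fun t : ℝ => ∫ s in (0 : ℝ)..t, 3 * min (s ^ 2) (M ^ 2))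
      (3 * min (t ^ 2) (M ^ 2)) t := fun t => (hc.integral_hasStrictDerivAt 0 t).hasDerivAt
  have hde : deriv (fun t : ℝ => ∫ s in (0 : ℝ)..t, 3 * min (s ^ 2) (M ^ 2)) =
      fun t => 3 * min (t ^ 2) (M ^ 2) := funext fun t => (hd t).deriv
  have hmin : ∀ t, |t| ≤ M → min (t ^ 2) (M ^ 2) = t ^ 2 := fun t ht => by
    refine min_eq_left ?_
    rw [← sq_abs t]
    exact pow_le_pow_left₀ (abs_nonneg _) ht 2
  refine ⟨fun t : ℝ => ∫ s in (0 : ℝ)..t, 3 * min (s ^ 2) (M ^ 2), ?_, by simp, fun t => ?_,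
    fun t ht => ⟨?_, ?_⟩⟩
  · rw [contDiff_one_iff_deriv, hde]
    exact ⟨fun t => (hd t).differentiableAt, hc⟩
  · rw [hde, abs_of_nonneg (mul_nonneg (by norm_num) (le_min (sq_nonneg _) (sq_nonneg _)))]
    have := min_le_right (t ^ 2) (M ^ 2)
    linarith
  · have e : ∫ s in (0 : ℝ)..t, 3 * min (s ^ 2) (M ^ 2) = ∫ s in (0 : ℝ)..t, 3 * s ^ 2 := by
      refine intervalIntegral.integral_congr fun s hs => ?_
      have h1 : |s| ≤ |t| := by
        simpa using abs_sub_left_of_mem_uIcc hs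
      simp only [hmin s (h1.trans ht)]
    simp only [e]
    rw [intervalIntegral.integral_const_mul, integral_pow]
    ring
  · rw [hde]
    simp only [hmin t ht]

theorem InF.chain (hW : Pot W) (h : InF Ω W u G) {Φ : ℝ → ℝ} (hΦ : ContDiff ℝ 1 Φ) (h0 : Φ 0 = 0)
    {L : ℝ} (hL : ∀ t, |deriv Φ t| ≤ L) :
    InF Ω W (fun x => Φ (u x)) (fun x => deriv Φ (u x) • G x) := by
  obtain ⟨z, hz, t1, t2⟩ := h.seq hW
  have hΦd : Differentiable ℝ Φ := hΦ.differentiable one_ne_zero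
  have hΦc : Continuous (deriv Φ) := hΦ.continuous_deriv_one
  have hmu := h.mu
  have hmG := h.mG
  have hlip : ∀ s t, |Φ s - Φ t| ≤ L * |s - t| := fun s t =>
    Convex.norm_image_sub_le_of_norm_deriv_le (f := Φ) (s := univ) (fun x _ => hΦd x)
      (fun x _ => hL x) convex_univ (mem_univ t) (mem_univ s)
  have hmeas : ∀ n, Measurable fun x =>
      ENNReal.ofReal (2 * (deriv Φ (u x) - deriv Φ (z n x)) ^ 2 * ‖G x‖ ^ 2) := fun n => by
    have h1 : Measurable fun x => deriv Φ (u x) := hΦc.measurable.comp hmu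
    have h2 : Measurable fun x => deriv Φ (z n x) :=
      hΦc.measurable.comp (hz n).1.continuous.measurable
    fun_prop
  have t3 : Tendsto (fun n => ∫⁻ x in Ω,
      ENNReal.ofReal (2 * (deriv Φ (u x) - deriv Φ (z n x)) ^ 2 * ‖G x‖ ^ 2)) atTop (𝓝 0) := by
    have hint : Integrable (fun x => 8 * L ^ 2 * ‖G x‖ ^ 2) (volume.restrict Ω) :=
      ((memLp_two_iff_integrable_sq_norm (h.memLp_G hW).1).1 (h.memLp_G hW)).const_mul _
    have h3 := tendsto_lintegral_of_dominated_convergence (μ := volume.restrict Ω)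
      (f := fun _ => 0) (fun x => ENNReal.ofReal (8 * L ^ 2 * ‖G x‖ ^ 2)) hmeas
      (fun n => Eventually.of_forall fun x => by
        refine ENNReal.ofReal_le_ofReal (mul_le_mul_of_nonneg_right ?_ (sq_nonneg _))
        have a1 := abs_le.1 (hL (u x))
        have a2 := abs_le.1 (hL (z n x))
        nlinarith)
      hint.lintegral_lt_top.ne (by
        filter_upwards [t2] with x hx
        have a1 : Tendsto (fun n => deriv Φ (z n x)) atTop (𝓝 (deriv Φ (u x))) :=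
          (hΦc.tendsto _).comp hx.1
        have a2 := ENNReal.tendsto_ofReal
          (((((tendsto_const_nhds (x := deriv Φ (u x))).sub a1).pow 2).const_mul 2).mul_const
            (‖G x‖ ^ 2))
        simpa using a2)
    simpa using h3
  refine OChain_of_tendsto (z := fun n x => Φ (z n x)) (hΦ.continuous.measurable.comp hmu)
    ((hΦc.measurable.comp hmu).smul hmG)
    (fun n => ⟨hΦ.comp (hz n).1, (hz n).2.comp_left h0⟩)
    (a := fun n => ENNReal.ofReal (2 * L ^ 2) * gdist Ω W u G (z n) (gradient (z n)) +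
      ∫⁻ x in Ω, ENNReal.ofReal (2 * (deriv Φ (u x) - deriv Φ (z n x)) ^ 2 * ‖G x‖ ^ 2)) ?_
    fun n => ?_
  · have a1 := ENNReal.Tendsto.const_mul (a := ENNReal.ofReal (2 * L ^ 2)) t1
      (Or.inr ENNReal.ofReal_ne_top)
    simpa using a1.add t3
  · unfold gdist
    rw [← lintegral_const_mul' _ _ ENNReal.ofReal_ne_top, ← lintegral_add_right _ (hmeas n)]
    refine lintegral_mono fun x => ?_
    rw [← ENNReal.ofReal_mul (by positivity), OChain_grad_comp
      ((hz n).1.differentiable one_ne_zero x) (hΦd _)]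
    refine le_trans (ENNReal.ofReal_le_ofReal ?_) ENNReal.ofReal_add_le
    exact OChain_pt_chain (hW.nonneg x) (hlip _ _) (hL _)

theorem InF.mult (hW : Pot W) (h : InF Ω W u G) {χ : R3 → ℝ} (hχ : Cb1 χ) :
    InF Ω W (fun x => χ x * u x) (fun x => χ x • G x + u x • gradient χ x) := by
  obtain ⟨z, hz, t1, -⟩ := h.seq hW
  obtain ⟨hχ, M, hM⟩ := hχ
  have hmχ := hχ.continuous.measurable
  refine OChain_of_tendsto (z := fun n x => χ x * z n x) (hmχ.mul h.mu)
    ((hmχ.smul h.mG).add (h.mu.smul (OChain_cont_grad hχ).measurable))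
    (fun n => OChain_cc1_mul hχ (hz n))
    (a := fun n => ENNReal.ofReal (3 * M ^ 2) * gdist Ω W u G (z n) (gradient (z n))) ?_
    fun n => ?_
  · simpa only [mul_zero] using ENNReal.Tendsto.const_mul (a := ENNReal.ofReal (3 * M ^ 2)) t1
      (Or.inr ENNReal.ofReal_ne_top)
  · unfold gdist
    rw [← lintegral_const_mul' _ _ ENNReal.ofReal_ne_top]
    refine lintegral_mono fun x => ?_
    rw [← ENNReal.ofReal_mul (by positivity), gradient_mul' (hχ.differentiable one_ne_zero x)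
      ((hz n).1.differentiable one_ne_zero x)]
    exact ENNReal.ofReal_le_ofReal
      (OChain_pt_mult (hW.nonneg x) (hM x).1 ((norm_gradient_eq χ x).trans_le (hM x).2))

theorem InF.mult_ext (hΩ : MeasurableSet Ω) (h : InF Ω (fun _ => 0) u G) {θ : R3 → ℝ} (hθ : Cc1 θ)
    (hs : tsupport θ ⊆ Ω) :
    InF univ (fun _ => 0) (fun x => θ x * u x) (fun x => θ x • G x + u x • gradient θ x) := by
  obtain ⟨z, hz, t1, -⟩ := h.seq pot_zero
  obtain ⟨hχ, M, hM⟩ := hθ.cb1
  have hmχ := hχ.continuous.measurable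
  refine OChain_of_tendsto (z := fun n x => θ x * z n x) (hmχ.mul h.mu)
    ((hmχ.smul h.mG).add (h.mu.smul (OChain_cont_grad hχ).measurable))
    (fun n => OChain_cc1_mul hχ (hz n))
    (a := fun n => ENNReal.ofReal (3 * M ^ 2) *
      gdist Ω (fun _ => 0) u G (z n) (gradient (z n))) ?_ fun n => ?_
  · simpa only [mul_zero] using ENNReal.Tendsto.const_mul (a := ENNReal.ofReal (3 * M ^ 2)) t1
      (Or.inr ENNReal.ofReal_ne_top)
  · unfold gdist
    rw [← lintegral_const_mul' _ _ ENNReal.ofReal_ne_top, Measure.restrict_univ,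
      ← lintegral_indicator hΩ]
    refine lintegral_mono fun x => ?_
    rw [gradient_mul' (hχ.differentiable one_ne_zero x) ((hz n).1.differentiable one_ne_zero x)]
    by_cases hx : x ∈ Ω
    · rw [indicator_of_mem hx, ← ENNReal.ofReal_mul (by positivity)]
      exact ENNReal.ofReal_le_ofReal
        (OChain_pt_mult le_rfl (hM x).1 ((norm_gradient_eq θ x).trans_le (hM x).2))
    · have hx' : x ∉ tsupport θ := fun hh => hx (hs hh)
      have e1 : θ x = 0 := image_eq_zero_of_notMem_tsupport hx'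
      have e2 : gradient θ x = 0 := by
        rw [← norm_eq_zero, norm_gradient_eq, norm_eq_zero]
        exact Function.notMem_support.1 fun hh => hx' (support_fderiv_subset ℝ hh)
      simp [e1, e2]

theorem BF.cube (hW : Pot W) {M : ℝ} (h : BF W u G M) (hM : 1 ≤ M) :
    BF W (fun x => u x ^ 3) (fun x => (3 * u x ^ 2) • G x) (3 * M ^ 3) := by
  obtain ⟨Φ, h1, h2, h3, h4⟩ := OChain_exists_cube M
  have hM0 : 0 ≤ M := zero_le_one.trans hM
  have h5 := h.inF.chain hW h1 h2 h3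
  have hu4 : ∀ x, u x ^ 4 ≤ M ^ 4 := fun x => by
    rw [← Even.pow_abs (by decide : Even 4)]
    exact pow_le_pow_left₀ (abs_nonneg _) (h.bdd x) 4
  simp only [fun x => (h4 (u x) (h.bdd x)).1, fun x => (h4 (u x) (h.bdd x)).2] at h5
  refine ⟨h5, fun x => ?_, ?_, ?_⟩
  · rw [abs_pow]
    have a1 := pow_le_pow_left₀ (abs_nonneg _) (h.bdd x) 3
    have a2 := pow_nonneg hM0 3
    linarith
  · have hint : Integrable fun x => u x ^ 2 := by
      simpa only [integrableOn_univ, ← sq] using h.inF.integrable_mul hW h.inF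
    calc ∫ x, (u x ^ 3) ^ 2 ≤ ∫ x, M ^ 4 * u x ^ 2 := by
          refine integral_mono_of_nonneg (Eventually.of_forall fun x => sq_nonneg _)
            (hint.const_mul _) (Eventually.of_forall fun x => ?_)
          have a1 := mul_le_mul_of_nonneg_right (hu4 x) (sq_nonneg (u x))
          change (u x ^ 3) ^ 2 ≤ M ^ 4 * u x ^ 2
          nlinarith
      _ = M ^ 4 * ∫ x, u x ^ 2 := integral_const_mul _ _
      _ ≤ M ^ 4 * M ^ 2 := mul_le_mul_of_nonneg_left h.l2 (pow_nonneg hM0 4)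
      _ ≤ (3 * M ^ 3) ^ 2 := by nlinarith [pow_nonneg hM0 6]
  · have hint := (h.inF.integrable_inner hW h.inF).add (h.inF.integrable_W hW h.inF)
    calc qf univ W (fun x => u x ^ 3) (fun x => (3 * u x ^ 2) • G x) (fun x => u x ^ 3)
          (fun x => (3 * u x ^ 2) • G x)
        ≤ ∫ x in univ, 9 * M ^ 4 * (⟪G x, G x⟫_ℝ + W x * u x * u x) := by
          refine integral_mono_of_nonneg (Eventually.of_forall fun x => ?_)
            (hint.const_mul _) (Eventually.of_forall fun x => ?_)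
          · refine add_nonneg real_inner_self_nonneg ?_
            rw [mul_assoc]
            exact mul_nonneg (hW.nonneg x) (mul_self_nonneg _)
          · have a0 : 0 ≤ W x * u x ^ 2 := mul_nonneg (hW.nonneg x) (sq_nonneg _)
            have a1 := mul_le_mul_of_nonneg_right (hu4 x) a0
            have a2 := mul_le_mul_of_nonneg_right (hu4 x) (real_inner_self_nonneg (x := G x))
            have a3 := mul_nonneg (pow_nonneg hM0 4) a0
            change ⟪(3 * u x ^ 2) • G x, (3 * u x ^ 2) • G x⟫_ℝ + W x * u x ^ 3 * u x ^ 3 ≤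
              9 * M ^ 4 * (⟪G x, G x⟫_ℝ + W x * u x * u x)
            rw [real_inner_smul_left, real_inner_smul_right]
            nlinarith
      _ = 9 * M ^ 4 * qf univ W u G u G := integral_const_mul _ _
      _ ≤ 9 * M ^ 4 * M ^ 2 := mul_le_mul_of_nonneg_left h.en (by positivity)
      _ = (3 * M ^ 3) ^ 2 := by ring

theorem BF.mono {M M' : ℝ} (h : BF W u G M) (hM : M ≤ M') : BF W u G M' := by
  have h1 : M ^ 2 ≤ M' ^ 2 := pow_le_pow_left₀ ((abs_nonneg _).trans (h.bdd 0)) hM 2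
  exact ⟨h.inF, fun x => (h.bdd x).trans hM, h.l2.trans h1, h.en.trans h1⟩

theorem Cc1.exists_BF (hW : Pot W) (hv : Cc1 v) : ∃ M, BF W v (gradient v) M := by
  obtain ⟨-, M, hM⟩ := hv.cb1
  have h0 : 0 ≤ M := (abs_nonneg _).trans (hM 0).1
  have h1 : 0 ≤ ∫ x, v x ^ 2 := integral_nonneg fun x => sq_nonneg _
  have h2 : 0 ≤ qf univ W v (gradient v) v (gradient v) := qf_nonneg hW
  refine ⟨M + (∫ x, v x ^ 2) + qf univ W v (gradient v) v (gradient v) + 1, hv.inF,
    fun x => by linarith [(hM x).1], ?_, ?_⟩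
  · nlinarith [sq_nonneg (M + (∫ x, v x ^ 2) + qf univ W v (gradient v) v (gradient v))]
  · nlinarith [sq_nonneg (M + (∫ x, v x ^ 2) + qf univ W v (gradient v) v (gradient v))]

end Pool.Agent.Lib.MP_8fe63c_mp
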