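import Pool.Agent.Lib.MP_8fe63c_mp.OBas

/-!
Elementary consequences of the eigenbasis property; eigenbasis containing a simple ground state.

Sketch of `EB.with_ground`: `ν a = qf (e a) ≥ μ`. By Parseval `∑ (ν a - μ) ⟨e a, φ⟩^2 = 0`, so `φ`
has a nonzero coefficient on some `o` with `ν o = μ`. For any `a` with `ν a = μ`, the function
`e a - ⟨e a, φ⟩ φ` has energy `μ` times its squared norm (use `eig` for the cross term) and is
orthogonal to `φ`, so it vanishes a.e.; hence there is only one such `a` and `e o = ± φ` a.e.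
(and `g o = ± gφ` a.e. by `InF.unique`). Replace `e o, g o` by `φ, gφ`. The gap comes from `fin`.
-/

set_option linter.unusedSectionVars false

open MeasureTheory Set Filter Topology
open scoped ENNReal InnerProductSpace

namespace Pool.Agent.Lib.MP_8fe63c_mp

variable {Ω : Set R3} {W : R3 → ℝ}

theorem OGs_ip_self (u : R3 → ℝ) : ip Ω u u = ∫ x in Ω, u x ^ 2 := by
  simp only [ip, sq]

theorem OGs_qf_self (u : R3 → ℝ) (G : R3 → R3) :
    qf Ω W u G u G = ∫ x in Ω, (‖G x‖ ^ 2 + W x * u x ^ 2) := by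
  simp only [qf, real_inner_self_eq_norm_sq, sq, mul_assoc]

theorem OGs_ip_congr {u u' : R3 → ℝ} {σ : ℝ} (h : u' =ᵐ[volume.restrict Ω] fun x => σ * u x)
    (f : R3 → ℝ) : ip Ω u' f = σ * ip Ω u f := by
  rw [ip, ip, ← integral_const_mul]
  refine integral_congr_ae ?_
  filter_upwards [h] with x hx
  rw [hx, mul_assoc]

theorem OGs_qf_congr {u u' : R3 → ℝ} {G G' : R3 → R3} {σ : ℝ}
    (h : u' =ᵐ[volume.restrict Ω] fun x => σ * u x)
    (h' : G' =ᵐ[volume.restrict Ω] fun x => σ • G x) (v : R3 → ℝ) (H : R3 → R3) :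
    qf Ω W u' G' v H = σ * qf Ω W u G v H := by
  rw [qf, qf, ← integral_const_mul]
  refine integral_congr_ae ?_
  filter_upwards [h, h'] with x hx hx'
  rw [hx, hx', real_inner_smul_left]
  ring

theorem OGs_ip_lin (hW : Pot W) {u v w : R3 → ℝ} {G H K : R3 → R3} (h : InF Ω W u G)
    (h' : InF Ω W v H) (h'' : InF Ω W w K) (a b : ℝ) :
    ip Ω (fun x => a * u x + b * v x) w = a * ip Ω u w + b * ip Ω v w := by
  rw [ip, ip, ip, ← integral_const_mul, ← integral_const_mul,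
    ← integral_add ((h.integrable_mul hW h'').const_mul a) ((h'.integrable_mul hW h'').const_mul b)]
  refine integral_congr_ae (Eventually.of_forall fun x => ?_)
  ring

theorem EB.OGs_qf_eq (B : EB Ω W) (a : B.J) : qf Ω W (B.e a) (B.g a) (B.e a) (B.g a) = B.ν a := by
  rw [B.eig a _ _ (B.inF a), B.nrm, mul_one]

theorem EB.OGs_coef (hW : Pot W) (B : EB Ω W) (M : ℝ) (c : B.I M → ℝ) (a : B.I M) :
    ip Ω (B.e a.1) (fun x => ∑ b, c b * B.e b.1 x) = c a := by
  rw [ip_comm, ip_sum_left hW Finset.univ (fun (b : B.I M) _ => B.inF b.1) c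
    ((B.inF a.1).memLp_u hW), Finset.sum_eq_single a]
  · rw [B.nrm, mul_one]
  · intro b _ hb
    rw [B.orth b.1 a.1 fun h => hb (Subtype.ext h), mul_zero]
  · exact fun h => absurd (Finset.mem_univ a) h

/-- change of signs and modification on null sets -/
def EB.OGs_mod (B : EB Ω W) (e' : B.J → R3 → ℝ) (g' : B.J → R3 → R3) (σ : B.J → ℝ)
    (hin : ∀ a, InF Ω W (e' a) (g' a)) (hσ : ∀ a, σ a * σ a = 1)
    (he : ∀ a, e' a =ᵐ[volume.restrict Ω] fun x => σ a * B.e a x)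
    (hg : ∀ a, g' a =ᵐ[volume.restrict Ω] fun x => σ a • B.g a x) : EB Ω W where
  J := B.J
  e := e'
  g := g'
  ν := B.ν
  inF := hin
  nrm a := by
    rw [OGs_ip_congr (he a), ip_comm, OGs_ip_congr (he a), B.nrm, mul_one, hσ]
  orth a b hab := by
    rw [OGs_ip_congr (he a), ip_comm, OGs_ip_congr (he b), B.orth b a hab.symm, mul_zero, mul_zero]
  eig a u G h := by
    rw [OGs_qf_congr (he a) (hg a), OGs_ip_congr (he a), B.eig a u G h]
    ring
  fin := B.fin
  par0 f hf := by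
    have h : ∀ a, ip Ω (e' a) f ^ 2 = ip Ω (B.e a) f ^ 2 := fun a => by
      rw [OGs_ip_congr (he a), mul_pow, sq (σ a), hσ, one_mul]
    simp only [h]
    exact B.par0 f hf
  par1 u G hu := by
    have h : ∀ a, ip Ω (e' a) u ^ 2 = ip Ω (B.e a) u ^ 2 := fun a => by
      rw [OGs_ip_congr (he a), mul_pow, sq (σ a), hσ, one_mul]
    simp only [h]
    exact B.par1 u G hu

theorem EB.ν_nonneg (hW : Pot W) (B : EB Ω W) (a : B.J) : 0 ≤ B.ν a := by
  rw [← B.OGs_qf_eq a]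
  exact qf_nonneg hW

theorem EB.norm_sum (hW : Pot W) (B : EB Ω W) (M : ℝ) (c : B.I M → ℝ) :
    ∫ x in Ω, (∑ a, c a * B.e a.1 x) ^ 2 = ∑ a, c a ^ 2 := by
  have hin := InF.sum hW Finset.univ (fun (a : B.I M) _ => B.inF a.1) c
  rw [← OGs_ip_self, ip_sum_left hW Finset.univ (fun (a : B.I M) _ => B.inF a.1) c
    (hin.memLp_u hW)]
  refine Finset.sum_congr rfl fun a _ => ?_
  rw [B.OGs_coef hW M c a, sq]

theorem EB.qf_sum (hW : Pot W) (B : EB Ω W) (M : ℝ) (c : B.I M → ℝ) :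
    ∫ x in Ω, (‖∑ a, c a • B.g a.1 x‖ ^ 2 + W x * (∑ a, c a * B.e a.1 x) ^ 2) =
      ∑ a, B.ν a.1 * c a ^ 2 := by
  have hin := InF.sum hW Finset.univ (fun (a : B.I M) _ => B.inF a.1) c
  rw [← OGs_qf_self, qf_sum_left hW Finset.univ (fun (a : B.I M) _ => B.inF a.1) c hin]
  refine Finset.sum_congr rfl fun a _ => ?_
  rw [B.eig a.1 _ _ hin, B.OGs_coef hW M c a]
  ring

/-- finite sums over the Galerkin index converge to the full sum -/
theorem EB.tendsto_sum (B : EB Ω W) {f : B.J → ℝ} {S : ℝ} (h : HasSum f S) :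
    Tendsto (fun M : ℝ => ∑ a : B.I M, f a.1) atTop (𝓝 S) := by
  have h1 : Tendsto (fun M : ℝ => (B.fin M).toFinset) atTop atTop := by
    refine tendsto_atTop_finset_of_monotone (fun M M' hM a ha => ?_) fun a => ⟨B.ν a, by simp⟩
    rw [Set.Finite.mem_toFinset] at ha ⊢
    exact le_trans ha hM
  have h2 : Tendsto (fun s : Finset B.J => ∑ a ∈ s, f a) atTop (𝓝 S) := h
  refine (h2.comp h1).congr fun M => ?_
  exact Finset.sum_subtype _ (fun a => by simp) f

theorem EB.gap_ineq (hW : Pot W) (B : EB Ω W) (o : B.J) {μ γ : ℝ} (ho : B.ν o = μ)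
    (hγ : ∀ a, a ≠ o → μ + γ ≤ B.ν a) {u : R3 → ℝ} {G : R3 → R3} (h : InF Ω W u G) :
    μ * ip Ω u u + γ * (ip Ω u u - (ip Ω (B.e o) u) ^ 2) ≤ qf Ω W u G u G := by
  classical
  have h0 := B.par0 u (h.memLp_u hW)
  rw [← OGs_ip_self] at h0
  have h2 : HasSum (fun a => if a = o then γ * (ip Ω (B.e o) u) ^ 2 else 0)
      (γ * (ip Ω (B.e o) u) ^ 2) := hasSum_ite_eq o _
  have h3 := hasSum_le (fun a => ?_) ((h0.mul_left (μ + γ)).sub h2) (B.par1 u G h)
  · linarith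
  · by_cases ha : a = o
    · rw [if_pos ha, ha, ho]
      linarith
    · rw [if_neg ha, sub_zero]
      exact mul_le_mul_of_nonneg_right (hγ a ha) (sq_nonneg _)

theorem EB.with_ground (hW : Pot W) (hΩ : IsOpen Ω) (B : EB Ω W) {φ : R3 → ℝ} {gφ : R3 → R3}
    {μ : ℝ} (hφ : InF Ω W φ gφ) (h1 : ip Ω φ φ = 1) (hμ : qf Ω W φ gφ φ gφ = μ)
    (hmin : ∀ u G, InF Ω W u G → μ * ip Ω u u ≤ qf Ω W u G u G)
    (hsimple : ∀ u G, InF Ω W u G → qf Ω W u G u G = μ * ip Ω u u → ip Ω φ u = 0 →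
      u =ᵐ[volume.restrict Ω] fun _ => 0) :
    ∃ (B' : EB Ω W) (o : B'.J) (γ : ℝ), B'.e o = φ ∧ B'.g o = gφ ∧ B'.ν o = μ ∧ 0 < γ ∧
      ∀ a, a ≠ o → μ + γ ≤ B'.ν a := by
  classical
  have hge : ∀ a, μ ≤ B.ν a := fun a => by
    have := hmin _ _ (B.inF a)
    rwa [B.nrm, mul_one, B.OGs_qf_eq] at this
  have h0 := B.par0 φ (hφ.memLp_u hW)
  rw [← OGs_ip_self, h1] at h0
  have h2 := (B.par1 φ gφ hφ).sub (h0.mul_left μ)
  rw [hμ, mul_one, sub_self] at h2
  have hnn : ∀ a, 0 ≤ B.ν a * ip Ω (B.e a) φ ^ 2 - μ * ip Ω (B.e a) φ ^ 2 := fun a =>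
    sub_nonneg.2 (mul_le_mul_of_nonneg_right (hge a) (sq_nonneg _))
  obtain ⟨o, ho⟩ : ∃ o, ip Ω (B.e o) φ ≠ 0 := by
    by_contra hn
    push Not at hn
    simp only [hn, ne_eq, OfNat.ofNat_ne_zero, not_false_eq_true, zero_pow] at h0
    exact one_ne_zero (h0.unique hasSum_zero)
  have hνo : B.ν o = μ := by
    have h3 := le_hasSum h2 o fun a _ => hnn a
    have h4 : (B.ν o - μ) * ip Ω (B.e o) φ ^ 2 = 0 := by linarith [hnn o]
    rcases mul_eq_zero.1 h4 with h5 | h5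
    · linarith
    · exact absurd h5 (pow_ne_zero 2 ho)
  have key : ∀ a, B.ν a = μ →
      (B.e a =ᵐ[volume.restrict Ω] fun x => ip Ω (B.e a) φ * φ x) ∧
      (B.g a =ᵐ[volume.restrict Ω] fun x => ip Ω (B.e a) φ • gφ x) := by
    intro a ha
    obtain ⟨c, hc⟩ : ∃ c, c = ip Ω (B.e a) φ := ⟨_, rfl⟩
    rw [← hc]
    have hu : InF Ω W (fun x => 1 * B.e a x + -c * φ x) (fun x => (1 : ℝ) • B.g a x + -c • gφ x) :=
      ((B.inF a).smul hW 1).add hW (hφ.smul hW (-c))
    have k1 : ip Ω φ (fun x => 1 * B.e a x + -c * φ x) = 0 := by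
      rw [ip_comm, OGs_ip_lin hW (B.inF a) hφ hφ, ← hc, h1]
      ring
    have k2 : ip Ω (B.e a) (fun x => 1 * B.e a x + -c * φ x) = 1 - c ^ 2 := by
      rw [ip_comm, OGs_ip_lin hW (B.inF a) hφ (B.inF a), B.nrm, ip_comm, ← hc]
      ring
    have k3 : qf Ω W φ gφ (fun x => 1 * B.e a x + -c * φ x)
        (fun x => (1 : ℝ) • B.g a x + -c • gφ x) = 0 := by
      rw [qf_comm, qf_lin hW (B.inF a) hφ hφ, B.eig a _ _ hφ, ← hc, hμ, ha]
      ring
    have k4 := hsimple _ _ hu (by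
      rw [qf_lin hW (B.inF a) hφ hu, OGs_ip_lin hW (B.inF a) hφ hu, B.eig a _ _ hu, k1, k3, ha]
      ring) k1
    have k5 := hu.unique hW hΩ k4
    constructor
    · filter_upwards [k4] with x hx
      linarith
    · filter_upwards [k5] with x hx
      rw [one_smul, neg_smul, add_neg_eq_zero] at hx
      exact hx
  have hsq : ∀ a, B.ν a = μ → ∀ b, B.ν b = μ →
      ip Ω (B.e a) (B.e b) = ip Ω (B.e a) φ * ip Ω (B.e b) φ := fun a ha b hb => by
    rw [ip_comm, OGs_ip_congr (key b hb).1, ip_comm (u := φ), mul_comm]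
  have hc1 : ip Ω (B.e o) φ * ip Ω (B.e o) φ = 1 := by rw [← hsq o hνo o hνo, B.nrm]
  have hgt : ∀ a, a ≠ o → μ < B.ν a := fun a hao => by
    refine lt_of_le_of_ne (hge a) fun ha => ?_
    have k1 := hsq a ha.symm a ha.symm
    have k2 := hsq a ha.symm o hνo
    rw [B.nrm] at k1
    rw [B.orth a o hao] at k2
    rcases mul_eq_zero.1 k2.symm with k | k
    · rw [k, mul_zero] at k1
      exact one_ne_zero k1
    · exact ho k
  obtain ⟨γ, hγ0, hγ⟩ : ∃ γ : ℝ, 0 < γ ∧ ∀ a, a ≠ o → μ + γ ≤ B.ν a := by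
    have k1 : ∀ᶠ γ in 𝓝[>] (0 : ℝ), ∀ a ∈ {a | B.ν a ≤ μ + 1}, a ≠ o → μ + γ ≤ B.ν a := by
      rw [Filter.eventually_all_finite (B.fin (μ + 1))]
      intro a _
      by_cases hao : a = o
      · exact Eventually.of_forall fun _ h => absurd hao h
      · filter_upwards [Ioo_mem_nhdsGT (sub_pos.2 (hgt a hao))] with γ hγ _
        linarith [hγ.2]
    obtain ⟨γ, k2, k3⟩ := (k1.and (Ioo_mem_nhdsGT zero_lt_one)).exists
    refine ⟨γ, k3.1, fun a hao => ?_⟩
    by_cases ha : B.ν a ≤ μ + 1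
    · exact k2 a ha hao
    · linarith [k3.2, not_le.1 ha]
  refine ⟨B.OGs_mod (fun a => if a = o then φ else B.e a) (fun a => if a = o then gφ else B.g a)
    (fun a => if a = o then ip Ω (B.e o) φ else 1) (fun a => ?_) (fun a => ?_) (fun a => ?_)
    (fun a => ?_), o, γ, if_pos rfl, if_pos rfl, hνo, hγ0, hγ⟩
  · split_ifs
    · exact hφ
    · exact B.inF a
  · split_ifs
    · exact hc1
    · exact one_mul 1
  · split_ifs with hao
    · filter_upwards [(key o hνo).1] with x hx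
      rw [hao, hx, ← mul_assoc, hc1, one_mul]
    · exact Eventually.of_forall fun x => (one_mul _).symm
  · split_ifs with hao
    · filter_upwards [(key o hνo).2] with x hx
      rw [hao, hx, smul_smul, hc1, one_smul]
    · exact Eventually.of_forall fun x => (one_smul _ _).symm

/-- modification of the basis functions on null sets -/
theorem EB.modify (B : EB Ω W) (e' : B.J → R3 → ℝ) (hm : ∀ a, Measurable (e' a))
    (he : ∀ a, B.e a =ᵐ[volume.restrict Ω] e' a) :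
    ∃ (B' : EB Ω W) (π : B'.J ≃ B.J), (∀ a, B'.e a = e' (π a)) ∧ (∀ a, B'.g a = B.g (π a)) ∧
      ∀ a, B'.ν a = B.ν (π a) := by
  refine ⟨B.OGs_mod e' B.g (fun _ => 1)
    (fun a => (B.inF a).congr_ae (hm a) (B.inF a).mG (he a) EventuallyEq.rfl)
    (fun _ => one_mul 1) (fun a => ?_) (fun a => Eventually.of_forall fun x => (one_smul _ _).symm),
    Equiv.refl _, fun _ => rfl, fun _ => rfl, fun _ => rfl⟩
  filter_upwards [he a] with x hx
  rw [one_mul, hx]

theorem EB.frame_bes1 (hW : Pot W) (B : EB univ W) (M : ℝ) (c : B.I M → ℝ) :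
    ∫ x, ‖∑ a, c a • B.g a.1 x‖ ^ 2 ≤ ∑ a, B.ν a.1 * c a ^ 2 := by
  have hin := InF.sum hW Finset.univ (fun (a : B.I M) _ => B.inF a.1) c
  have h := grad_le_qf hW hin
  rw [OGs_qf_self, B.qf_sum hW M c, Measure.restrict_univ] at h
  exact h

/-- the frame given by an eigenbasis on the whole space -/
noncomputable def EB.frame (hW : Pot W) (B : EB univ W) (M : ℝ) : EFrame (B.I M) W univ where
  e a := B.e a.1
  g a := B.g a.1
  lt a := B.ν a.1
  lt_nonneg a := B.ν_nonneg hW a.1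
  inF a := (B.inF a.1).to_zero hW
  bes0 c := by simpa using (B.norm_sum hW M c).le
  bes1 c := B.frame_bes1 hW M c
  ν a := B.ν a.1
  ν_nonneg a := B.ν_nonneg hW a.1
  ν_le _ := le_rfl
  inFW a := B.inF a.1
  eig a u G h _ := B.eig a.1 u G h
  besS c := (B.qf_sum hW M c).le

end Pool.Agent.Lib.MP_8fe63c_mp
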