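import Pool.Agent.Lib.MP_8fe63c_mp.OBas

/-!
Cubes and the Poincaré inequality.

Sketch. For `Cc1 v` and `Q = cube c l` (convex, diameter squared `≤ 3 l^2`):
`|v x - v y|^2 ≤ 3 l^2 ∫_0^1 ‖∇ v ((1-t) x + t y)‖^2 dt`. For `t ≤ 1/2` integrate first in `x`
(the map `x ↦ (1-t) x + t y` sends `Q` into `Q` and has Jacobian `(1-t)^3 ≥ 1/8`), for `t ≥ 1/2`
first in `y`. Hence `∫_Q ∫_Q |v x - v y|^2 ≤ 24 l^2 |Q| ∫_Q ‖∇ v‖^2`, and the left side is
`2 |Q| ∫_Q (v - avg)^2`. Extend by `InF.seq` / `tendsto_qf` after `InF.restrict`, `InF.to_zero`.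
`conf_cube`: subdivide into `m^3` subcubes; the faces have measure zero (countably many hyperplanes,
`Measure.addHaar_submodule` or product structure).
-/

set_option linter.unusedSectionVars false

open MeasureTheory Set Filter Topology
open scoped ENNReal InnerProductSpace

namespace Pool.Agent.Lib.MP_8fe63c_mp

variable {Ω : Set R3} {W : R3 → ℝ} {u : R3 → ℝ} {G : R3 → R3}

theorem isOpen_cube (c : R3) (l : ℝ) : IsOpen (cube c l) := by
  have e : cube c l = ⋂ k, {x : R3 | c k < x k} ∩ {x : R3 | x k < c k + l} := by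
    ext x
    simp [cube]
  rw [e]
  exact isOpen_iInter_of_finite fun k =>
    (isOpen_lt continuous_const (by fun_prop)).inter (isOpen_lt (by fun_prop) continuous_const)

theorem convex_cube (c : R3) (l : ℝ) : Convex ℝ (cube c l) := by
  intro x hx y hy a b ha hb hab k
  exact convex_Ioo (c k) (c k + l) (hx k) (hy k) ha hb hab

theorem volume_cube (c : R3) {l : ℝ} (hl : 0 ≤ l) : volume (cube c l) = ENNReal.ofReal (l ^ 3) := by
  have e : cube c l = WithLp.ofLp ⁻¹' (pi univ fun k => Ioo (c k) (c k + l)) := by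
    ext x
    simp [cube]
  rw [e, (PiLp.volume_preserving_ofLp (Fin 3)).measure_preimage
    (MeasurableSet.univ_pi fun _ => measurableSet_Ioo).nullMeasurableSet, Real.volume_pi_Ioo,
    ENNReal.ofReal_pow hl]
  simp

theorem cube_dist {c : R3} {l : ℝ} {x y : R3} (hx : x ∈ cube c l) (hy : y ∈ cube c l) :
    ‖x - y‖ ^ 2 ≤ 3 * l ^ 2 := by
  rw [EuclideanSpace.real_norm_sq_eq]
  have h : ∀ k, (x - y) k ^ 2 ≤ l ^ 2 := fun k => by
    have h1 := hx k
    have h2 := hy k
    rw [PiLp.sub_apply]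
    exact sq_le_sq' (by linarith) (by linarith)
  refine (Finset.sum_le_sum fun k _ => h k).trans (le_of_eq ?_)
  simp

/-- almost every point has no coordinate in `a + l ℤ` -/
theorem ae_not_grid (a : R3) (l : ℝ) : ∀ᵐ x : R3, ∀ (k : Fin 3) (z : ℤ), x k ≠ a k + l * z := by
  rw [ae_all_iff]
  intro k
  rw [ae_all_iff]
  intro z
  exact (PiLp.volume_preserving_ofLp (Fin 3)).quasiMeasurePreserving.ae
    (Measure.ae_eval_ne (fun _ : Fin 3 => (volume : Measure ℝ)) k (a k + l * z))

theorem OPoin_cs {f : ℝ → ℝ} (hf : Continuous f) :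
    (∫ t in (0 : ℝ)..1, f t) ^ 2 ≤ ∫ t in (0 : ℝ)..1, f t ^ 2 := by
  set a := ∫ t in (0 : ℝ)..1, f t with ha
  have h0 : 0 ≤ ∫ t in (0 : ℝ)..1, (f t - a) ^ 2 :=
    intervalIntegral.integral_nonneg zero_le_one fun t _ => sq_nonneg _
  have e : ∀ t, (f t - a) ^ 2 = f t ^ 2 - 2 * a * f t + a ^ 2 := fun t => by ring
  simp only [e] at h0
  rw [intervalIntegral.integral_add (Continuous.intervalIntegrable (by fun_prop) _ _)
      (Continuous.intervalIntegrable (by fun_prop) _ _),
    intervalIntegral.integral_sub (Continuous.intervalIntegrable (by fun_prop) _ _)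
      (Continuous.intervalIntegrable (by fun_prop) _ _),
    intervalIntegral.integral_const_mul, ← ha] at h0
  simp only [intervalIntegral.integral_const, sub_zero, smul_eq_mul, one_mul] at h0
  nlinarith

theorem OPoin_pt {v : R3 → ℝ} (hv : Cc1 v) (x y : R3) :
    (v x - v y) ^ 2 ≤ ‖x - y‖ ^ 2 * ∫ t in (0 : ℝ)..1, ‖gradient v ((1 - t) • x + t • y)‖ ^ 2 := by
  have hg := hv.continuous_gradient
  have hd : ∀ t : ℝ, HasDerivAt (fun t : ℝ => v ((1 - t) • x + t • y))
      ⟪gradient v ((1 - t) • x + t • y), y - x⟫_ℝ t := fun t => by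
    have h1 : HasDerivAt (fun t : ℝ => (1 - t) • x + t • y) (y - x) t := by
      have := (((hasDerivAt_id t).const_sub 1).smul_const x).add ((hasDerivAt_id t).smul_const y)
      rw [neg_smul, one_smul, one_smul, neg_add_eq_sub] at this
      exact this
    rw [inner_gradient_eq]
    exact ((hv.1.differentiable one_ne_zero) _).hasFDerivAt.comp_hasDerivAt t h1
  have hc : Continuous fun t : ℝ => ⟪gradient v ((1 - t) • x + t • y), y - x⟫_ℝ := by fun_prop
  have e := intervalIntegral.integral_eq_sub_of_hasDerivAt (a := 0) (b := 1) (fun t _ => hd t)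
    (hc.intervalIntegrable _ _)
  simp only [sub_self, zero_smul, one_smul, zero_add, sub_zero, add_zero] at e
  rw [sub_sq_comm, ← e, ← intervalIntegral.integral_const_mul]
  refine (OPoin_cs hc).trans (intervalIntegral.integral_mono_on zero_le_one
    (Continuous.intervalIntegrable (by fun_prop) _ _)
    (Continuous.intervalIntegrable (by fun_prop) _ _) fun t _ => ?_)
  rw [← mul_pow, norm_sub_rev, mul_comm, ← sq_abs]
  exact pow_le_pow_left₀ (abs_nonneg _) (abs_real_inner_le_norm _ _) 2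

theorem OPoin_scale {Q : Set R3} (hQ : MeasurableSet Q) {g : R3 → ℝ≥0∞} (hg : Measurable g)
    {a : ℝ} (ha : 1 / 2 ≤ a) {b : R3} (h : ∀ x ∈ Q, a • x + b ∈ Q) :
    ∫⁻ x in Q, g (a • x + b) ≤ 8 * ∫⁻ x in Q, g x := by
  have ha0 : 0 < a := by linarith
  have hF : Measurable (Q.indicator g) := hg.indicator hQ
  have h1 : ∫⁻ x in Q, g (a • x + b) ≤ ∫⁻ x, Q.indicator g (a • x + b) := by
    refine le_trans (le_of_eq ?_) (setLIntegral_le_lintegral Q _)
    exact setLIntegral_congr_fun hQ fun x hx => (indicator_of_mem (h x hx) g).symm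
  have h2 : ∫⁻ x, Q.indicator g (a • x + b) =
      ∫⁻ x, Q.indicator g (x + b) ∂(Measure.map (a • ·) volume) :=
    (lintegral_map (hF.comp (measurable_add_const b)) (measurable_const_smul a)).symm
  rw [h2, Measure.map_addHaar_smul _ ha0.ne', lintegral_smul_measure,
    lintegral_add_right_eq_self (Q.indicator g), lintegral_indicator hQ, smul_eq_mul] at h1
  refine h1.trans (mul_le_mul_left ?_ _)
  rw [finrank_euclideanSpace_fin, abs_of_pos (by positivity), ← ENNReal.ofReal_ofNat]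
  refine ENNReal.ofReal_le_ofReal ?_
  rw [inv_le_comm₀ (by positivity) (by norm_num)]
  calc (8 : ℝ)⁻¹ = (1 / 2) ^ 3 := by norm_num
    _ ≤ a ^ 3 := by gcongr

theorem OPoin_dbl {Q : Set R3} (hQ : MeasurableSet Q) (hc : Convex ℝ Q) {g : R3 → ℝ≥0∞}
    (hg : Measurable g) {t : ℝ} (h0 : 0 ≤ t) (h1 : t ≤ 1) :
    ∫⁻ p : R3 × R3, g ((1 - t) • p.1 + t • p.2) ∂(volume.restrict Q).prod (volume.restrict Q) ≤
      8 * (∫⁻ x in Q, g x) * volume Q := by
  have hm : Measurable fun p : R3 × R3 => g ((1 - t) • p.1 + t • p.2) := hg.comp (by fun_prop)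
  rw [← setLIntegral_const]
  rcases le_total t (1 / 2) with ht | ht
  · rw [lintegral_prod_symm _ hm.aemeasurable]
    refine setLIntegral_mono' hQ fun y hy => ?_
    exact OPoin_scale hQ hg (by linarith) fun x hx => hc hx hy (by linarith) h0 (by ring)
  · rw [lintegral_prod _ hm.aemeasurable]
    refine setLIntegral_mono' hQ fun x hx => ?_
    simp only [add_comm ((1 - t) • x)]
    exact OPoin_scale hQ hg ht fun y hy => hc hy hx h0 (by linarith) (by ring)

theorem OPoin_smooth {v : R3 → ℝ} (hv : Cc1 v) (c : R3) {l : ℝ} (hl : 0 < l) :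
    ∫⁻ p : R3 × R3, ENNReal.ofReal ((v p.1 - v p.2) ^ 2)
        ∂(volume.restrict (cube c l)).prod (volume.restrict (cube c l)) ≤
      ENNReal.ofReal (24 * l ^ 5 * ∫ x in cube c l, ‖gradient v x‖ ^ 2) := by
  have hQ := (isOpen_cube c l).measurableSet
  have hgc := hv.continuous_gradient
  let g : R3 → ℝ≥0∞ := fun x => ENNReal.ofReal (‖gradient v x‖ ^ 2)
  have hg : Measurable g := ENNReal.measurable_ofReal.comp (by fun_prop)
  have hI : ∫⁻ x in cube c l, g x = ENNReal.ofReal (∫ x in cube c l, ‖gradient v x‖ ^ 2) :=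
    (ofReal_integral_eq_lintegral_ofReal
      ((InF.memLp_G pot_zero hv.inF).norm.integrable_sq)
      (Eventually.of_forall fun x => sq_nonneg _)).symm
  have h1 : ∀ᵐ p : R3 × R3 ∂(volume.restrict (cube c l)).prod (volume.restrict (cube c l)),
      ENNReal.ofReal ((v p.1 - v p.2) ^ 2) ≤
        ENNReal.ofReal (3 * l ^ 2) * ∫⁻ t in Ioc (0 : ℝ) 1, g ((1 - t) • p.1 + t • p.2) := by
    filter_upwards [Measure.quasiMeasurePreserving_fst.ae (ae_restrict_mem hQ),
      Measure.quasiMeasurePreserving_snd.ae (ae_restrict_mem hQ)] with p hx hy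
    have hc : Continuous fun t : ℝ => ‖gradient v ((1 - t) • p.1 + t • p.2)‖ ^ 2 := by fun_prop
    rw [← ofReal_integral_eq_lintegral_ofReal (hc.intervalIntegrable 0 1).1
      (Eventually.of_forall fun x => sq_nonneg _), ← ENNReal.ofReal_mul (by positivity),
      ← intervalIntegral.integral_of_le zero_le_one]
    refine ENNReal.ofReal_le_ofReal ((OPoin_pt hv _ _).trans ?_)
    exact mul_le_mul_of_nonneg_right (cube_dist hx hy)
      (intervalIntegral.integral_nonneg zero_le_one fun t _ => sq_nonneg _)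
  refine (lintegral_mono_ae h1).trans ?_
  have hm : Measurable (Function.uncurry fun (p : R3 × R3) (t : ℝ) =>
      g ((1 - t) • p.1 + t • p.2)) :=
    hg.comp (f := fun q : (R3 × R3) × ℝ => (1 - q.2) • q.1.1 + q.2 • q.1.2) (by fun_prop)
  rw [lintegral_const_mul' _ _ ENNReal.ofReal_ne_top, lintegral_lintegral_swap hm.aemeasurable]
  have h2 : ∫⁻ t in Ioc (0 : ℝ) 1, ∫⁻ p : R3 × R3, g ((1 - t) • p.1 + t • p.2)
      ∂(volume.restrict (cube c l)).prod (volume.restrict (cube c l)) ≤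
      8 * (∫⁻ x in cube c l, g x) * volume (cube c l) := by
    refine (setLIntegral_mono' measurableSet_Ioc fun t ht =>
      OPoin_dbl hQ (convex_cube c l) hg ht.1.le ht.2).trans ?_
    simp
  refine (mul_le_mul_right h2 _).trans (le_of_eq ?_)
  have hn : 0 ≤ ∫ x in cube c l, ‖gradient v x‖ ^ 2 := integral_nonneg fun x => sq_nonneg _
  rw [hI, volume_cube c hl.le, ← ENNReal.ofReal_ofNat, ← ENNReal.ofReal_mul (by norm_num),
    ← ENNReal.ofReal_mul (by positivity), ← ENNReal.ofReal_mul (by positivity)]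
  congr 1
  ring

theorem OPoin_var {μ : Measure R3} [IsFiniteMeasure μ] (hu : MemLp u 2 μ) :
    ∫⁻ p : R3 × R3, ENNReal.ofReal ((u p.1 - u p.2) ^ 2) ∂μ.prod μ =
      ENNReal.ofReal (2 * μ.real univ * (∫ x, u x ^ 2 ∂μ) - 2 * (∫ x, u x ∂μ) ^ 2) := by
  have h1 : Integrable u μ := hu.integrable one_le_two
  have h2 : Integrable (fun x => u x ^ 2) μ := hu.integrable_sq
  have h3 : Integrable (fun _ : R3 => (1 : ℝ)) μ := integrable_const _
  have e : ∀ p : R3 × R3, (u p.1 - u p.2) ^ 2 =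
      u p.1 ^ 2 * 1 + 1 * u p.2 ^ 2 - 2 * (u p.1 * u p.2) := fun p => by ring
  have i1 := h2.mul_prod h3
  have i2 := h3.mul_prod h2
  have i3 := (h1.mul_prod h1).const_mul 2
  have i4 : Integrable (fun z : R3 × R3 => u z.1 ^ 2 * 1 + 1 * u z.2 ^ 2) (μ.prod μ) := i1.add i2
  rw [← ofReal_integral_eq_lintegral_ofReal _ (Eventually.of_forall fun x => sq_nonneg _)]
  · simp only [e]
    rw [integral_sub i4 i3, integral_add i1 i2, integral_const_mul 2,
      integral_prod_mul (fun x => u x ^ 2) fun _ => (1 : ℝ),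
      integral_prod_mul (fun _ => (1 : ℝ)) fun x => u x ^ 2, integral_prod_mul u u]
    congr 1
    simp only [integral_const, smul_eq_mul, mul_one]
    ring
  · simp only [e]
    exact (i1.add i2).sub i3

theorem poincare_cube (hW : Pot W) (h : InF Ω W u G) {c : R3} {l : ℝ} (hl : 0 < l)
    (hc : cube c l ⊆ Ω) :
    (∫ x in cube c l, u x ^ 2) - (∫ x in cube c l, u x) ^ 2 / l ^ 3 ≤
      12 * l ^ 2 * ∫ x in cube c l, ‖G x‖ ^ 2 := by
  have h0 : InF (cube c l) (fun _ => 0) u G := (h.restrict hc).to_zero hW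
  obtain ⟨v, hv, ht, hae⟩ := h0.seq pot_zero
  have h3 := (tendsto_qf pot_zero h0 h0 (fun n => (hv n).inF) (fun n => (hv n).inF) ht ht).2.2
  simp only [real_inner_self_eq_norm_sq] at h3
  have : IsFiniteMeasure (volume.restrict (cube c l)) :=
    ⟨by rw [Measure.restrict_apply_univ, volume_cube c hl.le]; exact ENNReal.ofReal_lt_top⟩
  have hv2 := OPoin_var (h0.memLp_u pot_zero)
  have hm : ∀ n, Measurable fun p : R3 × R3 => ENNReal.ofReal ((v n p.1 - v n p.2) ^ 2) :=
    fun n => by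
      have := (hv n).1.continuous
      exact ENNReal.measurable_ofReal.comp (by fun_prop)
  have hF := lintegral_liminf_le (u := atTop)
    (μ := (volume.restrict (cube c l)).prod (volume.restrict (cube c l))) hm
  have e1 : ∀ᵐ p : R3 × R3 ∂(volume.restrict (cube c l)).prod (volume.restrict (cube c l)),
      liminf (fun n => ENNReal.ofReal ((v n p.1 - v n p.2) ^ 2)) atTop =
        ENNReal.ofReal ((u p.1 - u p.2) ^ 2) := by
    filter_upwards [Measure.quasiMeasurePreserving_fst.ae hae,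
      Measure.quasiMeasurePreserving_snd.ae hae] with p hx hy
    exact (ENNReal.tendsto_ofReal ((hx.1.sub hy.1).pow 2)).liminf_eq
  rw [lintegral_congr_ae e1, hv2] at hF
  have h4 := hF.trans (liminf_le_liminf (Eventually.of_forall fun n => OPoin_smooth (hv n) c hl))
  rw [(ENNReal.tendsto_ofReal (h3.const_mul (24 * l ^ 5))).liminf_eq] at h4
  have hn : 0 ≤ ∫ x in cube c l, ‖G x‖ ^ 2 := integral_nonneg fun x => sq_nonneg _
  rw [ENNReal.ofReal_le_ofReal_iff (by positivity), Measure.real, Measure.restrict_apply_univ,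
    volume_cube c hl.le, ENNReal.toReal_ofReal (by positivity)] at h4
  rw [sub_le_iff_le_add, ← sub_le_iff_le_add', le_div_iff₀ (by positivity)]
  linarith

/-- grid points -/
noncomputable def OPoin_gp (a : R3) (l : ℝ) (z : Fin 3 → ℤ) : R3 :=
  WithLp.toLp 2 fun k => a k + l * z k

theorem OPoin_disj (a : R3) {l : ℝ} (hl : 0 < l) {z z' : Fin 3 → ℤ}
    (h : OPoin_gp a l z ≠ OPoin_gp a l z') :
    Disjoint (cube (OPoin_gp a l z) l) (cube (OPoin_gp a l z') l) := by
  rw [Set.disjoint_left]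
  intro x hx hx'
  refine h (congrArg _ (funext fun k => ?_))
  have h1 : a k + l * z k < x k ∧ x k < a k + l * z k + l := hx k
  have h2 : a k + l * z' k < x k ∧ x k < a k + l * z' k + l := hx' k
  have h3 : (z k : ℝ) < z' k + 1 := lt_of_mul_lt_mul_left (by linarith) hl.le
  have h4 : (z' k : ℝ) < z k + 1 := lt_of_mul_lt_mul_left (by linarith) hl.le
  have h5 : z k < z' k + 1 := by exact_mod_cast h3
  have h6 : z' k < z k + 1 := by exact_mod_cast h4
  omega

theorem OPoin_mem (a : R3) {l : ℝ} (hl : 0 < l) {x : R3}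
    (hx : ∀ (k : Fin 3) (z : ℤ), x k ≠ a k + l * z) :
    x ∈ cube (OPoin_gp a l fun k => ⌊(x k - a k) / l⌋) l := by
  intro k
  show a k + l * ⌊(x k - a k) / l⌋ < x k ∧ x k < a k + l * ⌊(x k - a k) / l⌋ + l
  have h1 := (le_div_iff₀ hl).1 (Int.floor_le ((x k - a k) / l))
  have h2 := (div_lt_iff₀ hl).1 (Int.lt_floor_add_one ((x k - a k) / l))
  exact ⟨lt_of_le_of_ne (by linarith) (hx k _).symm, by linarith⟩

theorem conf_univ (hW : Pot W) (hg : Grows W) : Conf univ W := by
  classical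
  intro ε hε
  obtain ⟨R, hR⟩ := hg ε⁻¹
  refine ⟨(Fintype.piFinset fun _ : Fin 3 => Finset.Icc ⌊-R / ε⌋ ⌊R / ε⌋).image (OPoin_gp 0 ε),
    ε, hε, le_rfl, fun _ _ => subset_univ _, ?_, ?_⟩
  · intro c hc c' hc' hne
    obtain ⟨z, -, rfl⟩ := Finset.mem_image.1 hc
    obtain ⟨z', -, rfl⟩ := Finset.mem_image.1 hc'
    exact OPoin_disj 0 hε hne
  · rw [Measure.restrict_univ]
    filter_upwards [ae_not_grid 0 ε] with x hx hn
    have h1 : R ≤ ‖x‖ := by
      by_contra hlt
      refine hn _ (Finset.mem_image_of_mem _ ?_) (OPoin_mem 0 hε hx)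
      rw [Fintype.mem_piFinset]
      intro k
      have h2 := abs_le.1 ((PiLp.norm_apply_le x k).trans (not_le.1 hlt).le)
      rw [Finset.mem_Icc, PiLp.zero_apply, sub_zero]
      exact ⟨Int.floor_le_floor (div_le_div_of_nonneg_right h2.1 hε.le),
        Int.floor_le_floor (div_le_div_of_nonneg_right h2.2 hε.le)⟩
    have h3 := mul_le_mul_of_nonneg_left (hR x h1) hε.le
    rwa [mul_inv_cancel₀ hε.ne'] at h3

theorem conf_cube (c : R3) {l : ℝ} (hl : 0 < l) : Conf (cube c l) (fun _ => 0) := by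
  classical
  intro ε hε
  obtain ⟨m, hm⟩ := exists_nat_gt (l / ε)
  have hm0 : (0 : ℝ) < m := (div_pos hl hε).trans hm
  have hl' : 0 < l / m := div_pos hl hm0
  have e : l / m * m = l := div_mul_cancel₀ _ hm0.ne'
  refine ⟨(Fintype.piFinset fun _ : Fin 3 => Finset.Ico (0 : ℤ) m).image (OPoin_gp c (l / m)),
    l / m, hl', ?_, ?_, ?_, ?_⟩
  · rw [div_lt_iff₀ hε] at hm
    rw [div_le_iff₀ hm0]
    linarith
  · intro c' hc x hx k
    obtain ⟨z, hz, rfl⟩ := Finset.mem_image.1 hc
    have h1 : c k + l / m * z k < x k ∧ x k < c k + l / m * z k + l / m := hx k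
    have h2 := Finset.mem_Ico.1 (Fintype.mem_piFinset.1 hz k)
    have h3 : (0 : ℝ) ≤ z k := by exact_mod_cast h2.1
    have h4 : (z k : ℝ) + 1 ≤ m := by exact_mod_cast h2.2
    constructor <;> nlinarith
  · intro c₁ hc c₂ hc' hne
    obtain ⟨z, -, rfl⟩ := Finset.mem_image.1 hc
    obtain ⟨z', -, rfl⟩ := Finset.mem_image.1 hc'
    exact OPoin_disj c hl' hne
  · filter_upwards [ae_restrict_of_ae (ae_not_grid c (l / m)),
      ae_restrict_mem (isOpen_cube c l).measurableSet] with x hx hQ hn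
    refine absurd (OPoin_mem c hl' hx) (hn _ (Finset.mem_image_of_mem _ ?_))
    rw [Fintype.mem_piFinset]
    intro k
    have h1 := hQ k
    rw [Finset.mem_Ico, Int.floor_nonneg, Int.floor_lt, div_lt_iff₀ hl']
    refine ⟨div_nonneg (by linarith) hl'.le, ?_⟩
    push_cast
    linarith

end Pool.Agent.Lib.MP_8fe63c_mp
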