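import Pool.Agent.Lib.MP_8fe63c_mp.OEig
import Pool.Agent.Lib.MP_8fe63c_mp.OGs
import Pool.Agent.Lib.MP_8fe63c_mp.OChain
import Pool.Agent.Lib.MP_8fe63c_mp.OPoin

/-!
Neumann eigenbasis of a cube, cutoff functions and the associated frame on the whole space.

Sketch. `exists_boxEB`: the constant is in the form domain of the cube (it agrees on the cube with
a `Cc1` function which is constant near the cube), `EB.with_ground` with `μ = 0`, simplicity and the
explicit gap from `poincare_cube`. `exists_cutoffs`: products over the three coordinates of rescaled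
one-dimensional `C^1` profiles (`Real.smoothTransition`), first for the unit cube, then
`θ x = θ₁ (l⁻¹ • (x - c))`. `box_frame`: `InF.mult_ext`; on `S` the new functions and gradients
equal the old ones.
-/

set_option linter.unusedSectionVars false

open MeasureTheory Set Filter Topology
open scoped ENNReal InnerProductSpace

namespace Pool.Agent.Lib.MP_8fe63c_mp

/-- the vector with all coordinates equal to `t` -/
noncomputable def OBox_vec (t : ℝ) : R3 := WithLp.toLp 2 fun _ => t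

theorem OBox_vec_apply (t : ℝ) (k : Fin 3) : OBox_vec t k = t := rfl

theorem OBox_meas (c : R3) (l : ℝ) : MeasurableSet (cube c l) := (isOpen_cube c l).measurableSet

theorem OBox_centre (c : R3) {l : ℝ} (hl : 0 < l) : c + OBox_vec (l / 2) ∈ cube c l := by
  intro k
  rw [PiLp.add_apply, OBox_vec_apply]
  constructor <;> linarith

theorem OBox_ball (c : R3) {l : ℝ} (hl : 0 < l) :
    cube c l ⊆ Metric.ball (c + OBox_vec (l / 2)) (2 * l) := by
  intro x hx
  have h := cube_dist hx (OBox_centre c hl)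
  rw [Metric.mem_ball, dist_eq_norm]
  refine lt_of_pow_lt_pow_left₀ 2 (by positivity) ?_
  nlinarith

theorem OBox_vol (c : R3) {l : ℝ} (hl : 0 ≤ l) (t : ℝ) : ∫ _x in cube c l, t = l ^ 3 * t := by
  rw [setIntegral_const, Measure.real, volume_cube c hl, ENNReal.toReal_ofReal (by positivity),
    smul_eq_mul]

theorem OBox_const (c : R3) {l : ℝ} (hl : 0 < l) (t : ℝ) :
    InF (cube c l) (fun _ => 0) (fun _ => t) (fun _ => 0) := by
  let b : ContDiffBump (c + OBox_vec (l / 2)) := ⟨2 * l, 3 * l, by positivity, by linarith⟩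
  have hv : Cc1 (fun x => t * b x) :=
    ⟨contDiff_const.mul b.contDiff, b.hasCompactSupport.mul_left⟩
  have he : ∀ x ∈ cube c l, (fun x => t * b x) =ᶠ[𝓝 x] fun _ => t := by
    intro x hx
    filter_upwards [b.eventuallyEq_one_of_mem_ball (OBox_ball c hl hx)] with y hy
    rw [hy, Pi.one_apply, mul_one]
  refine hv.inF.congr_ae measurable_const measurable_const ?_ ?_
  · exact ae_restrict_of_forall_mem (OBox_meas c l) fun x hx => (he x hx).self_of_nhds
  · refine ae_restrict_of_forall_mem (OBox_meas c l) fun x hx => ?_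
    rw [(he x hx).gradient_eq, gradient_fun_const]

theorem OBox_poin {c : R3} {l : ℝ} (hl : 0 < l) {u : R3 → ℝ} {G : R3 → R3}
    (h : InF (cube c l) (fun _ => 0) u G) (h0 : ip (cube c l) (fun _ => (√(l ^ 3))⁻¹) u = 0) :
    ∫ x in cube c l, u x ^ 2 ≤ 12 * l ^ 2 * qf (cube c l) (fun _ => 0) u G u G := by
  have h1 := poincare_cube pot_zero h hl subset_rfl
  have h2 : ∫ x in cube c l, u x = 0 := by
    rw [ip, integral_const_mul] at h0
    exact (mul_eq_zero.1 h0).resolve_left (by positivity)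
  have h3 := mul_le_mul_of_nonneg_left (grad_le_qf pot_zero h) (by positivity : 0 ≤ 12 * l ^ 2)
  rw [h2] at h1
  simp only [ne_eq, OfNat.ofNat_ne_zero, not_false_eq_true, zero_pow, zero_div, sub_zero] at h1
  exact h1.trans h3

theorem exists_boxEB (c : R3) {l : ℝ} (hl : 0 < l) :
    ∃ (B : EB (cube c l) (fun _ => 0)) (o : B.J), (∀ x, B.e o x = (√(l ^ 3))⁻¹) ∧
      (∀ x, B.g o x = 0) ∧ B.ν o = 0 ∧ ∀ a, a ≠ o → 1 / (12 * l ^ 2) ≤ B.ν a := by
  obtain ⟨B0⟩ := exists_EB pot_zero (isOpen_cube c l) (conf_cube c hl)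
  have hl3 : 0 < l ^ 3 := by positivity
  obtain ⟨B, o, γ, h1, h2, h3, -, -⟩ := B0.with_ground pot_zero (isOpen_cube c l) (μ := 0)
    (OBox_const c hl (√(l ^ 3))⁻¹)
    (by rw [ip, OBox_vol c hl.le, ← mul_inv, Real.mul_self_sqrt hl3.le, mul_inv_cancel₀ hl3.ne'])
    (by simp [qf]) (fun u G _ => by rw [zero_mul]; exact qf_nonneg pot_zero)
    (fun u G h hq h0 => by
      have h4 := OBox_poin hl h h0
      rw [hq, zero_mul, mul_zero] at h4
      have h5 : Integrable (fun x => u x ^ 2) (volume.restrict (cube c l)) :=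
        (h.memLp_u pot_zero).integrable_sq
      have h6 := (integral_eq_zero_iff_of_nonneg (fun x => sq_nonneg (u x)) h5).1
        (le_antisymm h4 (integral_nonneg fun x => sq_nonneg (u x)))
      filter_upwards [h6] with x hx
      exact pow_eq_zero_iff two_ne_zero |>.1 hx)
  refine ⟨B, o, fun x => by rw [h1], fun x => by rw [h2], h3, fun a ha => ?_⟩
  have h4 := OBox_poin hl (B.inF a) (by rw [← h1]; exact B.orth o a ha.symm)
  have h5 : ∫ x in cube c l, B.e a x ^ 2 = 1 := by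
    rw [← B.nrm a, ip]
    simp only [sq]
  rw [h5, B.eig a _ _ (B.inF a), B.nrm a, mul_one] at h4
  rw [div_le_iff₀ (by positivity)]
  linarith

/-- two nested cutoff functions for a cube -/
structure Cutoffs (c : R3) (l κ η : ℝ) (θ θ' : R3 → ℝ) : Prop where
  cθ : Cc1 θ
  cθ' : Cc1 θ'
  r : ∀ x, 0 ≤ θ x ∧ θ x ≤ 1
  r' : ∀ x, 0 ≤ θ' x ∧ θ' x ≤ 1
  gr : ∀ x, ‖gradient θ x‖ ≤ κ / l
  gr' : ∀ x, ‖gradient θ' x‖ ≤ κ / l
  supp : tsupport θ' ⊆ cube c l
  one : ∀ x ∈ tsupport θ, θ' x = 1 ∧ gradient θ' x = 0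
  big : (1 - η) * l ^ 3 ≤ ∫ x, θ x ^ 3

theorem OBox_profile (a : ℝ) {δ : ℝ} (hδ : 0 < δ) :
    ∃ f : R3 → ℝ, ContDiff ℝ 1 f ∧ (∀ x, 0 ≤ f x ∧ f x ≤ 1) ∧
      (∀ x, f x ≠ 0 → ∀ k, a ≤ x k ∧ x k ≤ 1 - a) ∧
      ∀ x : R3, (∀ k, a + δ ≤ x k ∧ x k ≤ 1 - (a + δ)) → f x = 1 := by
  refine ⟨fun x => ∏ k, (Real.smoothTransition ((x k - a) / δ) *
    Real.smoothTransition ((1 - a - x k) / δ)), ?_, fun x => ⟨?_, ?_⟩, fun x hx k => ?_,
    fun x hx => ?_⟩
  · refine contDiff_prod fun k _ => ContDiff.mul ?_ ?_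
    · exact Real.smoothTransition.contDiff.comp (by fun_prop)
    · exact Real.smoothTransition.contDiff.comp (by fun_prop)
  · exact Finset.prod_nonneg fun k _ =>
      mul_nonneg (Real.smoothTransition.nonneg _) (Real.smoothTransition.nonneg _)
  · exact Finset.prod_le_one (fun k _ =>
      mul_nonneg (Real.smoothTransition.nonneg _) (Real.smoothTransition.nonneg _)) fun k _ =>
      mul_le_one₀ (Real.smoothTransition.le_one _) (Real.smoothTransition.nonneg _)
        (Real.smoothTransition.le_one _)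
  · have h1 := Finset.prod_ne_zero_iff.1 hx k (Finset.mem_univ k)
    constructor
    · by_contra h2
      refine left_ne_zero_of_mul h1 (Real.smoothTransition.zero_of_nonpos ?_)
      exact div_nonpos_of_nonpos_of_nonneg (by linarith [not_le.1 h2]) hδ.le
    · by_contra h2
      refine right_ne_zero_of_mul h1 (Real.smoothTransition.zero_of_nonpos ?_)
      exact div_nonpos_of_nonpos_of_nonneg (by linarith [not_le.1 h2]) hδ.le
  · refine Finset.prod_eq_one fun k _ => ?_
    rw [Real.smoothTransition.one_of_one_le, Real.smoothTransition.one_of_one_le, one_mul]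
    · rw [le_div_iff₀ hδ]; linarith [(hx k).2]
    · rw [le_div_iff₀ hδ]; linarith [(hx k).1]

theorem OBox_coord (c : R3) (l : ℝ) (x : R3) (k : Fin 3) :
    (l⁻¹ • (x - c)) k = (x k - c k) / l := by
  rw [PiLp.smul_apply, PiLp.sub_apply, smul_eq_mul, inv_mul_eq_div]

theorem OBox_supp {a : ℝ} {f : R3 → ℝ} (hf : ∀ x, f x ≠ 0 → ∀ k, a ≤ x k ∧ x k ≤ 1 - a) (c : R3)
    {l : ℝ} (hl : 0 < l) : tsupport (fun x => f (l⁻¹ • (x - c))) ⊆
      {x | ∀ k, c k + a * l ≤ x k ∧ x k ≤ c k + (1 - a) * l} := by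
  refine closure_minimal (fun x hx k => ?_) ?_
  · have h1 := hf _ hx k
    rw [OBox_coord, le_div_iff₀ hl, div_le_iff₀ hl] at h1
    constructor <;> linarith [h1.1, h1.2]
  · rw [Set.ofPred_forall]
    refine isClosed_iInter fun k => ?_
    have hk : Continuous fun x : R3 => x k := by fun_prop
    exact (isClosed_le continuous_const hk).inter (isClosed_le hk continuous_const)

theorem OBox_supp' {a : ℝ} (ha : 0 < a) {f : R3 → ℝ}
    (hf : ∀ x, f x ≠ 0 → ∀ k, a ≤ x k ∧ x k ≤ 1 - a) (c : R3) {l : ℝ} (hl : 0 < l) :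
    tsupport (fun x => f (l⁻¹ • (x - c))) ⊆ cube c l := by
  intro x hx k
  have h1 := OBox_supp hf c hl hx k
  have h2 := mul_pos ha hl
  constructor <;> nlinarith [h1.1, h1.2]

theorem OBox_cc1 {a : ℝ} (ha : 0 < a) {f : R3 → ℝ} (hc : ContDiff ℝ 1 f)
    (hf : ∀ x, f x ≠ 0 → ∀ k, a ≤ x k ∧ x k ≤ 1 - a) (c : R3) {l : ℝ} (hl : 0 < l) :
    Cc1 (fun x => f (l⁻¹ • (x - c))) :=
  ⟨hc.comp (by fun_prop), Metric.isCompact_of_isClosed_isBounded (isClosed_tsupport _)
    (Metric.isBounded_ball.subset ((OBox_supp' ha hf c hl).trans (OBox_ball c hl)))⟩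

theorem OBox_grad {a : ℝ} (ha : 0 < a) {f : R3 → ℝ} (hc : ContDiff ℝ 1 f)
    (hf : ∀ x, f x ≠ 0 → ∀ k, a ≤ x k ∧ x k ≤ 1 - a) :
    ∃ M : ℝ, ∀ (c : R3) (l : ℝ), 0 < l → ∀ x,
      ‖gradient (fun x => f (l⁻¹ • (x - c))) x‖ ≤ M / l := by
  have h1 := OBox_cc1 ha hc hf 0 one_pos
  simp only [inv_one, sub_zero, one_smul] at h1
  obtain ⟨-, M, hM⟩ := h1.cb1
  refine ⟨M, fun c l hl x => ?_⟩
  have h2 : HasFDerivAt (fun x : R3 => l⁻¹ • (x - c)) (l⁻¹ • ContinuousLinearMap.id ℝ R3) x :=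
    ((hasFDerivAt_id x).sub_const c).const_smul l⁻¹
  have h3 := ((hc.differentiable one_ne_zero) (l⁻¹ • (x - c))).hasFDerivAt.comp x h2
  rw [norm_gradient_eq]
  have h4 : fderiv ℝ (fun x => f (l⁻¹ • (x - c))) x = _ := h3.fderiv
  rw [h4, ContinuousLinearMap.comp_smul, ContinuousLinearMap.comp_id, norm_smul, norm_inv,
    Real.norm_of_nonneg hl.le, inv_mul_eq_div]
  exact div_le_div_of_nonneg_right (hM _).2 hl.le

theorem OBox_int {θ : R3 → ℝ} (h : Cc1 θ) : Integrable (fun x => θ x ^ 3) := by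
  have h1 : Continuous fun x => θ x ^ 3 := h.1.continuous.pow 3
  have h2 : HasCompactSupport fun x => θ x ^ 3 :=
    h.2.comp_left (g := fun t : ℝ => t ^ 3) (by norm_num)
  exact h1.integrable_of_hasCompactSupport h2

theorem OBox_one {a : ℝ} {f : R3 → ℝ} (hf : ∀ x : R3, (∀ k, a ≤ x k ∧ x k ≤ 1 - a) → f x = 1)
    (c : R3) {l : ℝ} (hl : 0 < l) {x : R3}
    (hx : x ∈ cube (c + OBox_vec (a * l)) ((1 - 2 * a) * l)) : f (l⁻¹ • (x - c)) = 1 := by
  refine hf _ fun k => ?_
  have h1 := hx k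
  rw [PiLp.add_apply, OBox_vec_apply] at h1
  rw [OBox_coord, le_div_iff₀ hl, div_le_iff₀ hl]
  constructor <;> linarith [h1.1, h1.2]

theorem exists_cutoffs {η : ℝ} (hη : 0 < η) :
    ∃ κ : ℝ, 1 ≤ κ ∧ ∀ (c : R3) (l : ℝ), 0 < l → ∃ θ θ', Cutoffs c l κ η θ θ' := by
  obtain ⟨δ, hδ, hδ1, hδ2⟩ : ∃ δ : ℝ, 0 < δ ∧ δ ≤ η / 24 ∧ δ ≤ 1 / 16 :=
    ⟨min (η / 24) (1 / 16), by positivity, min_le_left _ _, min_le_right _ _⟩
  obtain ⟨f, hf1, hf2, hf3, hf4⟩ := OBox_profile (3 * δ) hδ
  obtain ⟨f', hf1', hf2', hf3', hf4'⟩ := OBox_profile δ hδ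
  obtain ⟨M, hM⟩ := OBox_grad (by positivity) hf1 hf3
  obtain ⟨M', hM'⟩ := OBox_grad hδ hf1' hf3'
  refine ⟨max 1 (max M M'), le_max_left _ _, fun c l hl =>
    ⟨fun x => f (l⁻¹ • (x - c)), fun x => f' (l⁻¹ • (x - c)), ?_⟩⟩
  have hc := OBox_cc1 (by positivity) hf1 hf3 c hl
  refine ⟨hc, OBox_cc1 hδ hf1' hf3' c hl, fun x => hf2 _, fun x => hf2' _, fun x => ?_,
    fun x => ?_, OBox_supp' hδ hf3' c hl, fun x hx => ?_, ?_⟩
  · exact (hM c l hl x).trans
      (div_le_div_of_nonneg_right ((le_max_left _ _).trans (le_max_right _ _)) hl.le)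
  · exact (hM' c l hl x).trans
      (div_le_div_of_nonneg_right ((le_max_right _ _).trans (le_max_right _ _)) hl.le)
  · have h1 : x ∈ cube (c + OBox_vec ((δ + δ) * l)) ((1 - 2 * (δ + δ)) * l) := by
      intro k
      have h2 := OBox_supp hf3 c hl hx k
      have h3 := mul_pos hδ hl
      rw [PiLp.add_apply, OBox_vec_apply]
      constructor <;> nlinarith [h2.1, h2.2]
    have h2 : (fun x => f' (l⁻¹ • (x - c))) =ᶠ[𝓝 x] fun _ => 1 := by
      filter_upwards [(isOpen_cube _ _).mem_nhds h1] with y hy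
      exact OBox_one hf4' c hl hy
    exact ⟨h2.self_of_nhds, by rw [h2.gradient_eq, gradient_fun_const]⟩
  · have hi : Integrable (fun x => f (l⁻¹ • (x - c)) ^ 3) := OBox_int hc
    have h1 := setIntegral_le_integral
      (s := cube (c + OBox_vec ((3 * δ + δ) * l)) ((1 - 2 * (3 * δ + δ)) * l)) hi
      (Eventually.of_forall fun x => pow_nonneg (hf2 _).1 3)
    rw [setIntegral_congr_fun (g := fun _ => (1 : ℝ)) (OBox_meas _ _)
      (fun x hx => by simp only [OBox_one hf4 c hl hx, one_pow]),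
      OBox_vol _ (mul_nonneg (by linarith) hl.le), mul_one, mul_pow] at h1
    refine le_trans (mul_le_mul_of_nonneg_right ?_ (by positivity)) h1
    have h2 : 0 ≤ δ ^ 2 * (3 - 8 * δ) := mul_nonneg (sq_nonneg δ) (by linarith)
    nlinarith

theorem OBox_out {θ : R3 → ℝ} {x : R3} (hx : x ∉ tsupport θ) : θ x = 0 ∧ gradient θ x = 0 := by
  have h := notMem_tsupport_iff_eventuallyEq.1 hx
  refine ⟨h.self_of_nhds, ?_⟩
  rw [h.gradient_eq]
  exact gradient_fun_const x 0

theorem OBox_sum_e {I : Type} [Fintype I] (c e : I → ℝ) (t : ℝ) :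
    ∑ a, c a * (t * e a) = t * ∑ a, c a * e a := by
  rw [Finset.mul_sum]
  exact Finset.sum_congr rfl fun a _ => by ring

theorem OBox_sum_g {I : Type} [Fintype I] (c e : I → ℝ) (g : I → R3) (t : ℝ) (v : R3) :
    ∑ a, c a • (t • g a + e a • v) = t • ∑ a, c a • g a + (∑ a, c a * e a) • v := by
  rw [Finset.smul_sum, Finset.sum_smul, ← Finset.sum_add_distrib]
  exact Finset.sum_congr rfl fun a _ => by rw [smul_add, smul_comm (c a) t, smul_smul (c a)]

theorem OBox_norm {t u K : ℝ} (h0 : 0 ≤ t) (h1 : t ≤ 1) (g : R3) {v : R3} (hv : ‖v‖ ≤ K) :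
    ‖t • g + u • v‖ ^ 2 ≤ 2 * ‖g‖ ^ 2 + 2 * K ^ 2 * u ^ 2 := by
  have h2 : ‖t • g + u • v‖ ≤ ‖g‖ + |u| * K := by
    refine (norm_add_le _ _).trans (add_le_add ?_ ?_)
    · rw [norm_smul, Real.norm_of_nonneg h0]
      exact mul_le_of_le_one_left (norm_nonneg _) h1
    · rw [norm_smul, Real.norm_eq_abs]
      exact mul_le_mul_of_nonneg_left hv (abs_nonneg _)
  have h3 := pow_le_pow_left₀ (norm_nonneg _) h2 2
  have h4 : (|u| * K) ^ 2 = K ^ 2 * u ^ 2 := by rw [mul_pow, sq_abs, mul_comm]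
  nlinarith [sq_nonneg (‖g‖ - |u| * K)]

theorem box_frame {c : R3} {l κ η : ℝ} (hl : 0 < l) {θ θ' : R3 → ℝ} (h : Cutoffs c l κ η θ θ')
    (B : EB (cube c l) (fun _ => 0)) (M : ℝ) :
    ∃ fr : EFrame (B.I M) (fun _ => 0) (tsupport θ),
      (∀ a x, fr.e a x = θ' x * B.e a.1 x) ∧ (∀ a, fr.ν a = B.ν a.1) ∧
      ∀ a, fr.lt a = 2 * B.ν a.1 + 2 * (κ / l) ^ 2 := by
  have hS : tsupport θ ⊆ cube c l := fun x hx =>
    h.supp (subset_tsupport _ (by rw [Function.mem_support, (h.one x hx).1]; exact one_ne_zero))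
  have hout : ∀ x, x ∉ cube c l → θ' x = 0 ∧ gradient θ' x = 0 := fun x hx =>
    OBox_out fun hx' => hx (h.supp hx')
  have hinF := fun a : B.I M => (B.inF a.1).mult_ext (OBox_meas c l) h.cθ' h.supp
  have hsum := fun b : B.I M → ℝ => InF.sum pot_zero Finset.univ
    (e := fun a : B.I M => B.e a.1) (g := fun a : B.I M => B.g a.1) (fun a _ => B.inF a.1) b
  have hi0 : ∀ b : B.I M → ℝ, Integrable (fun x => (∑ a, b a * B.e a.1 x) ^ 2)
      (volume.restrict (cube c l)) := fun b => ((hsum b).memLp_u pot_zero).integrable_sq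
  have hi1 : ∀ b : B.I M → ℝ, Integrable (fun x => ‖∑ a, b a • B.g a.1 x‖ ^ 2)
      (volume.restrict (cube c l)) := fun b => ((hsum b).memLp_G pot_zero).norm.integrable_sq
  have hq : ∀ b : B.I M → ℝ,
      ∫ x in cube c l, ‖∑ a, b a • B.g a.1 x‖ ^ 2 = ∑ a, B.ν a.1 * b a ^ 2 := fun b => by
    simpa only [zero_mul, add_zero] using B.qf_sum pot_zero M b
  refine ⟨{
    e := fun a x => θ' x * B.e a.1 x
    g := fun a x => θ' x • B.g a.1 x + B.e a.1 x • gradient θ' x
    lt := fun a => 2 * B.ν a.1 + 2 * (κ / l) ^ 2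
    lt_nonneg := fun a => by have := B.ν_nonneg pot_zero a.1; positivity
    inF := hinF
    bes0 := fun b => ?_
    bes1 := fun b => ?_
    ν := fun a => B.ν a.1
    ν_nonneg := fun a => B.ν_nonneg pot_zero a.1
    ν_le := fun a => by have := B.ν_nonneg pot_zero a.1; nlinarith [sq_nonneg (κ / l)]
    inFW := hinF
    eig := fun a u G hu h0 => ?_
    besS := fun b => ?_ }, fun _ _ => rfl, fun _ => rfl, fun _ => rfl⟩
  · simp only [OBox_sum_e]
    rw [← setIntegral_eq_integral_of_forall_compl_eq_zero (s := cube c l)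
      (fun x hx => by rw [(hout x hx).1]; simp), ← B.norm_sum pot_zero M b]
    refine integral_mono_of_nonneg (Eventually.of_forall fun x => sq_nonneg _) (hi0 b)
      (Eventually.of_forall fun x => ?_)
    simp only [mul_pow]
    exact mul_le_of_le_one_left (sq_nonneg _) (pow_le_one₀ (h.r' x).1 (h.r' x).2)
  · simp only [OBox_sum_g]
    rw [← setIntegral_eq_integral_of_forall_compl_eq_zero (s := cube c l)
      (fun x hx => by rw [(hout x hx).1, (hout x hx).2]; simp)]
    have h1 := (hi1 b).const_mul 2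
    have h2 := (hi0 b).const_mul (2 * (κ / l) ^ 2)
    refine (integral_mono_of_nonneg (Eventually.of_forall fun x => sq_nonneg _) (h1.add h2)
      (Eventually.of_forall fun x => OBox_norm (h.r' x).1 (h.r' x).2 _ (h.gr' x))).trans ?_
    simp only [Pi.add_apply]
    rw [integral_add h1 h2, integral_const_mul, integral_const_mul, hq, B.norm_sum pot_zero M b,
      Finset.mul_sum, Finset.mul_sum, ← Finset.sum_add_distrib]
    exact le_of_eq (Finset.sum_congr rfl fun a _ => by ring)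
  · have h1 := B.eig a.1 u G (hu.restrict (subset_univ _))
    have h2 : ∀ x, x ∉ cube c l → u x = 0 ∧ G x = 0 := fun x hx => h0 x fun hx' => hx (hS hx')
    unfold qf ip at h1 ⊢
    rw [setIntegral_eq_integral_of_forall_compl_eq_zero
        (fun x hx => by rw [(h2 x hx).1, (h2 x hx).2]; simp),
      setIntegral_eq_integral_of_forall_compl_eq_zero
        (fun x hx => by rw [(h2 x hx).1]; simp)] at h1
    rw [Measure.restrict_univ]
    have h3 : ∀ x, θ' x * B.e a.1 x * u x = B.e a.1 x * u x := fun x => by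
      by_cases hx : x ∈ tsupport θ
      · rw [(h.one x hx).1, one_mul]
      · rw [(h0 x hx).1, mul_zero, mul_zero]
    have h4 : ∀ x, ⟪θ' x • B.g a.1 x + B.e a.1 x • gradient θ' x, G x⟫_ℝ
        = ⟪B.g a.1 x, G x⟫_ℝ := fun x => by
      by_cases hx : x ∈ tsupport θ
      · rw [(h.one x hx).1, (h.one x hx).2, one_smul, smul_zero, add_zero]
      · rw [(h0 x hx).2, inner_zero_right, inner_zero_right]
    simp only [h3, h4, zero_mul, add_zero] at h1 ⊢
    exact h1
  · simp only [OBox_sum_g, zero_mul, add_zero]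
    rw [setIntegral_congr_fun (g := fun x => ‖∑ a, b a • B.g a.1 x‖ ^ 2)
      (isClosed_tsupport θ).measurableSet
      (fun x hx => by simp only [(h.one x hx).1, (h.one x hx).2, one_smul, smul_zero, add_zero]),
      ← hq b]
    exact setIntegral_mono_set (hi1 b) (Eventually.of_forall fun x => sq_nonneg _)
      hS.eventuallyLE

end Pool.Agent.Lib.MP_8fe63c_mp
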