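import Pool.Agent.Lib.MP_8fe63c_mp.OChain

/-!
Sobolev inequality and translation estimates on the form domain.

Sketch. For `Cc1` functions use `eLpNorm_le_eLpNorm_fderiv_of_eq` (dimension 3, `p = 2`, `p' = 6`),
then Fatou along `InF.seq`. `L^4`: `u^4 ≤ (u^2 / t + t u^6)/2`-type bound or Hölder. Translation:
for `Cc1 v`, `v (x+h) - v x = ∫_0^1 ⟪∇ v (x + t h), h⟫ dt`, Cauchy-Schwarz (or Jensen), Tonelli and
translation invariance; then Fatou along `InF.seq` (a.e. convergence is kept under translation).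
-/

set_option linter.unusedSectionVars false

open MeasureTheory Set Filter Topology
open scoped ENNReal InnerProductSpace

namespace Pool.Agent.Lib.MP_8fe63c_mp

variable {W : R3 → ℝ} {u v : R3 → ℝ} {G H : R3 → R3}

theorem OSob_fatou {f : ℕ → R3 → ℝ} {g : R3 → ℝ} {a : ℕ → ℝ} {b : ℝ}
    (hm : ∀ n, Measurable (f n)) (hc : ∀ᵐ x, Tendsto (fun n => f n x) atTop (𝓝 (g x)))
    (hb : ∀ n, ∫⁻ x, ENNReal.ofReal (f n x) ≤ ENNReal.ofReal (a n))
    (ha : Tendsto a atTop (𝓝 b)) : ∫⁻ x, ENNReal.ofReal (g x) ≤ ENNReal.ofReal b := by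
  calc ∫⁻ x, ENNReal.ofReal (g x)
      = ∫⁻ x, liminf (fun n => ENNReal.ofReal (f n x)) atTop :=
        lintegral_congr_ae (hc.mono fun x hx => (ENNReal.tendsto_ofReal hx).liminf_eq.symm)
    _ ≤ liminf (fun n => ∫⁻ x, ENNReal.ofReal (f n x)) atTop :=
        lintegral_liminf_le' fun n => (hm n).ennreal_ofReal.aemeasurable
    _ ≤ liminf (fun n => ENNReal.ofReal (a n)) atTop :=
        liminf_le_liminf (Eventually.of_forall hb)
    _ = ENNReal.ofReal b := (ENNReal.tendsto_ofReal ha).liminf_eq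

theorem OSob_of_lint {f : R3 → ℝ} {a : ℝ} (hm : Measurable f) (h0 : ∀ x, 0 ≤ f x) (ha : 0 ≤ a)
    (h : ∫⁻ x, ENNReal.ofReal (f x) ≤ ENNReal.ofReal a) : Integrable f ∧ ∫ x, f x ≤ a := by
  refine ⟨⟨hm.aestronglyMeasurable, ?_⟩, ?_⟩
  · rw [hasFiniteIntegral_iff_ofReal (Eventually.of_forall h0)]
    exact h.trans_lt ENNReal.ofReal_lt_top
  · rw [integral_eq_lintegral_of_nonneg_ae (Eventually.of_forall h0) hm.aestronglyMeasurable]
    exact ENNReal.toReal_le_of_le_ofReal ha h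

theorem OSob_int_u (hW : Pot W) (h : InF univ W u G) : Integrable (fun x => u x ^ 2) := by
  have h1 := h.memLp_u hW
  rw [Measure.restrict_univ] at h1
  exact h1.integrable_sq

theorem OSob_int_G (hW : Pot W) (h : InF univ W u G) : Integrable (fun x => ‖G x‖ ^ 2) := by
  have h1 := h.memLp_G hW
  rw [Measure.restrict_univ] at h1
  exact h1.norm.integrable_sq

theorem OSob_lint_G (hW : Pot W) (h : InF univ W u G) :
    ∫⁻ x, ENNReal.ofReal (‖G x‖ ^ 2) = ENNReal.ofReal (∫ x, ‖G x‖ ^ 2) :=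
  (ofReal_integral_eq_lintegral_ofReal (OSob_int_G hW h)
    (Eventually.of_forall fun _ => sq_nonneg _)).symm

theorem OSob_seq (hW : Pot W) (h : InF univ W u G) :
    ∃ v : ℕ → R3 → ℝ, (∀ n, Cc1 (v n)) ∧
      (∀ᵐ x, Tendsto (fun n => v n x) atTop (𝓝 (u x))) ∧
      Tendsto (fun n => ∫ x, ‖gradient (v n) x‖ ^ 2) atTop (𝓝 (∫ x, ‖G x‖ ^ 2)) := by
  obtain ⟨v, hv, ht, hae⟩ := h.seq hW
  rw [Measure.restrict_univ] at hae
  refine ⟨v, hv, hae.mono fun x hx => hx.1, ?_⟩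
  have h1 := (tendsto_qf hW h h (fun n => (hv n).inF) (fun n => (hv n).inF) ht ht).2.2
  simpa only [Measure.restrict_univ, real_inner_self_eq_norm_sq] using h1

theorem OSob_enorm_pow {E : Type} [NormedAddCommGroup E] (y : E) (n : ℕ) :
    ‖y‖ₑ ^ (n : ℝ) = ENNReal.ofReal (‖y‖ ^ n) := by
  rw [ENNReal.rpow_natCast, ENNReal.ofReal_pow (norm_nonneg y), ofReal_norm]

theorem OSob_eLp6 (f : R3 → ℝ) :
    eLpNorm f 6 volume ^ 6 = ∫⁻ x, ENNReal.ofReal (f x ^ 6) := by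
  have h1 := eLpNorm_nnreal_pow_eq_lintegral (μ := (volume : Measure R3)) (f := f)
    (p := ((6 : ℕ) : NNReal)) (by norm_num)
  rw [NNReal.coe_natCast, ENNReal.rpow_natCast] at h1
  simp only [OSob_enorm_pow, Real.norm_eq_abs, (by decide : Even 6).pow_abs] at h1
  exact h1

theorem OSob_eLp2 {E : Type} [NormedAddCommGroup E] (f : R3 → E) :
    eLpNorm f 2 volume ^ 2 = ∫⁻ x, ENNReal.ofReal (‖f x‖ ^ 2) := by
  have h1 := eLpNorm_nnreal_pow_eq_lintegral (μ := (volume : Measure R3)) (f := f)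
    (p := ((2 : ℕ) : NNReal)) (by norm_num)
  rw [NNReal.coe_natCast, ENNReal.rpow_natCast] at h1
  simp only [OSob_enorm_pow] at h1
  exact h1

theorem OSob_cc : ∃ C : ℝ, 1 ≤ C ∧ ∀ v : R3 → ℝ, Cc1 v →
    ∫⁻ x, ENNReal.ofReal (v x ^ 6) ≤ ENNReal.ofReal (C * (∫ x, ‖gradient v x‖ ^ 2) ^ 3) := by
  set K : NNReal := SNormLESNormFDerivOfEqConst ℝ (volume : Measure R3) ((2 : NNReal) : ℝ) with hK
  refine ⟨(K : ℝ) ^ 6 + 1, by linarith [pow_nonneg K.coe_nonneg 6], fun v hv => ?_⟩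
  have h1 : eLpNorm v ((6 : NNReal) : ℝ≥0∞) volume
      ≤ K * eLpNorm (fderiv ℝ v) ((2 : NNReal) : ℝ≥0∞) volume :=
    eLpNorm_le_eLpNorm_fderiv_of_eq (volume : Measure R3) hv.1 hv.2 (p := 2) (p' := 6)
      (by norm_num) (by simp) (by
        rw [finrank_euclideanSpace_fin]
        norm_num)
  have h2 : eLpNorm v 6 volume ≤ K * eLpNorm (fderiv ℝ v) 2 volume := h1
  have h3 : ∫⁻ x, ENNReal.ofReal (‖fderiv ℝ v x‖ ^ 2)
      = ENNReal.ofReal (∫ x, ‖gradient v x‖ ^ 2) := by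
    rw [← OSob_lint_G pot_zero hv.inF]
    simp only [norm_gradient_eq]
  have h4 : 0 ≤ ∫ x, ‖gradient v x‖ ^ 2 := integral_nonneg fun _ => sq_nonneg _
  calc ∫⁻ x, ENNReal.ofReal (v x ^ 6) = eLpNorm v 6 volume ^ 6 := (OSob_eLp6 v).symm
    _ ≤ (K * eLpNorm (fderiv ℝ v) 2 volume) ^ 6 := pow_le_pow_left' h2 6
    _ = (K : ℝ≥0∞) ^ 6 * (eLpNorm (fderiv ℝ v) 2 volume ^ 2) ^ 3 := by
        rw [mul_pow, ← pow_mul]
    _ = ENNReal.ofReal ((K : ℝ) ^ 6 * (∫ x, ‖gradient v x‖ ^ 2) ^ 3) := by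
        rw [OSob_eLp2, h3, ENNReal.ofReal_mul (by positivity), ENNReal.ofReal_pow K.coe_nonneg,
          ENNReal.ofReal_coe_nnreal, ENNReal.ofReal_pow h4]
    _ ≤ _ := ENNReal.ofReal_le_ofReal (by nlinarith [pow_nonneg h4 3])

theorem sobolev6 : ∃ C : ℝ, 1 ≤ C ∧ ∀ (W : R3 → ℝ) (u : R3 → ℝ) (G : R3 → R3), Pot W →
    InF univ W u G → Integrable (fun x => u x ^ 6) ∧ ∫ x, u x ^ 6 ≤ C * (∫ x, ‖G x‖ ^ 2) ^ 3 := by
  obtain ⟨C, hC, h⟩ := OSob_cc
  refine ⟨C, hC, fun W u G hW hu => ?_⟩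
  obtain ⟨v, hv, hae, ht⟩ := OSob_seq hW hu
  have h4 : 0 ≤ ∫ x, ‖G x‖ ^ 2 := integral_nonneg fun _ => sq_nonneg _
  refine OSob_of_lint (hu.mu.pow_const 6) (fun x => by positivity) (by positivity) ?_
  exact OSob_fatou (f := fun n x => v n x ^ 6)
    (fun n => (hv n).1.continuous.measurable.pow_const 6)
    (hae.mono fun x hx => hx.pow 6) (fun n => h _ (hv n)) ((ht.pow 3).const_mul C)

theorem sobolev4 : ∃ C : ℝ, 1 ≤ C ∧ ∀ (W : R3 → ℝ) (u : R3 → ℝ) (G : R3 → R3), Pot W →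
    InF univ W u G → Integrable (fun x => u x ^ 4) ∧
      ∫ x, u x ^ 4 ≤ C * ((∫ x, u x ^ 2) + ∫ x, ‖G x‖ ^ 2) ^ 2 := by
  obtain ⟨C, hC, h⟩ := sobolev6
  refine ⟨C, hC, fun W u G hW hu => ?_⟩
  obtain ⟨i6, b6⟩ := h W u G hW hu
  have i2 := OSob_int_u hW hu
  have hpt : ∀ t : ℝ, ∀ x, 2 * t * u x ^ 4 ≤ t ^ 2 * u x ^ 2 + u x ^ 6 := fun t x => by
    nlinarith [sq_nonneg (t * u x - u x ^ 3)]
  have i4 : Integrable (fun x => u x ^ 4) := by
    refine (i2.add i6).mono' (hu.mu.pow_const 4).aestronglyMeasurable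
      (Eventually.of_forall fun x => ?_)
    have h1 := hpt 1 x
    have h2 : 0 ≤ u x ^ 4 := by positivity
    rw [Real.norm_of_nonneg h2, Pi.add_apply]
    linarith
  refine ⟨i4, ?_⟩
  have hint : ∀ t : ℝ, 2 * t * ∫ x, u x ^ 4 ≤ t ^ 2 * (∫ x, u x ^ 2) + ∫ x, u x ^ 6 := by
    intro t
    rw [← integral_const_mul, ← integral_const_mul, ← integral_add (i2.const_mul _) i6]
    exact integral_mono (i4.const_mul _) ((i2.const_mul _).add i6) (hpt t)
  have hA : 0 ≤ ∫ x, u x ^ 2 := integral_nonneg fun _ => sq_nonneg _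
  have hB : 0 ≤ ∫ x, ‖G x‖ ^ 2 := integral_nonneg fun _ => sq_nonneg _
  generalize (∫ x, u x ^ 2) = A at *
  generalize (∫ x, ‖G x‖ ^ 2) = B at *
  generalize (∫ x, u x ^ 4) = D at *
  generalize (∫ x, u x ^ 6) = E at *
  rcases (add_nonneg hA hB).eq_or_lt with h0 | h0
  · have hA0 : A = 0 := by linarith
    have hB0 : B = 0 := by linarith
    have h1 := hint 1
    rw [hB0] at b6
    rw [hA0] at h1
    rw [← h0]
    nlinarith
  · have h1 := hint (A + B)
    have h2 : B ^ 3 ≤ (A + B) ^ 3 := pow_le_pow_left₀ hB (by linarith) 3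
    have h3 : (A + B) ^ 2 * A ≤ (A + B) ^ 3 := by nlinarith [sq_nonneg (A + B)]
    have h4 : 0 < (A + B) ^ 3 := by positivity
    have h5 : (A + B) * D ≤ (A + B) * (C * (A + B) ^ 2) := by nlinarith
    exact le_of_mul_le_mul_left h5 h0

theorem InF.memLp6 (hW : Pot W) (h : InF univ W u G) : MemLp u 6 volume := by
  obtain ⟨C, -, hC⟩ := sobolev6
  have i6 := (hC W u G hW h).1
  refine ⟨h.mu.aestronglyMeasurable, ?_⟩
  have h1 : eLpNorm u 6 volume ^ 6 < ∞ := by
    rw [OSob_eLp6, ← ofReal_integral_eq_lintegral_ofReal i6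
      (Eventually.of_forall fun x => by positivity)]
    exact ENNReal.ofReal_lt_top
  by_contra hc
  rw [not_lt, top_le_iff] at hc
  rw [hc] at h1
  simp at h1

theorem OSob_int6 [Fact ((1 : ℝ≥0∞) ≤ 6)] {f : R3 → ℝ} (hf : MemLp f 6 volume) :
    ∫ x, f x ^ 6 = ‖hf.toLp f‖ ^ 6 := by
  rw [Lp.norm_toLp, ← ENNReal.toReal_pow, OSob_eLp6]
  exact integral_eq_lintegral_of_nonneg_ae (f := fun x => f x ^ 6)
    (Eventually.of_forall fun x => by positivity) (hf.1.pow 6)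

theorem tendsto_int6 (hW : Pot W) (h : InF univ W u G) {un : ℕ → R3 → ℝ} {Gn : ℕ → R3 → R3}
    (hn : ∀ n, InF univ W (un n) (Gn n))
    (t1 : Tendsto (fun n => gdist univ W u G (un n) (Gn n)) atTop (𝓝 0)) :
    Tendsto (fun n => ∫ x, un n x ^ 6) atTop (𝓝 (∫ x, u x ^ 6)) := by
  have : Fact ((1 : ℝ≥0∞) ≤ 6) := ⟨by norm_num⟩
  obtain ⟨C, -, hC⟩ := sobolev6
  have hd := fun n => (hn n).add hW (h.smul hW (-1))
  have t2 : Tendsto (fun n => ENNReal.ofReal (∫ x, ‖Gn n x + (-1 : ℝ) • G x‖ ^ 2)) atTop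
      (𝓝 0) := by
    refine tendsto_of_tendsto_of_tendsto_of_le_of_le tendsto_const_nhds t1
      (fun n => zero_le) fun n => ?_
    simp only [gdist, Measure.restrict_univ]
    rw [← OSob_lint_G hW (hd n)]
    refine lintegral_mono fun x => ENNReal.ofReal_le_ofReal ?_
    rw [neg_one_smul, ← sub_eq_add_neg, norm_sub_rev]
    have h1 := hW.nonneg x
    have h2 : 0 ≤ (1 + W x) * (u x - un n x) ^ 2 := by positivity
    linarith
  have t3 : Tendsto (fun n => ∫ x, ‖Gn n x + (-1 : ℝ) • G x‖ ^ 2) atTop (𝓝 0) := by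
    have h1 := (ENNReal.tendsto_toReal ENNReal.zero_ne_top).comp t2
    refine h1.congr fun n => ?_
    exact ENNReal.toReal_ofReal (integral_nonneg fun _ => sq_nonneg _)
  have t4 : Tendsto (fun n => C * (∫ x, ‖Gn n x + (-1 : ℝ) • G x‖ ^ 2) ^ 3) atTop (𝓝 0) := by
    simpa using (t3.pow 3).const_mul C
  have t5 : Tendsto (fun n => ((hn n).memLp6 hW).toLp (un n)) atTop
      (𝓝 ((h.memLp6 hW).toLp u)) := by
    rw [tendsto_iff_norm_sub_tendsto_zero]
    refine tendsto_order.2 ⟨fun a ha => Eventually.of_forall fun n =>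
      ha.trans_le (norm_nonneg _), fun a ha => ?_⟩
    filter_upwards [(tendsto_order.1 t4).2 (a ^ 6) (by positivity)] with n hlt
    refine lt_of_pow_lt_pow_left₀ 6 ha.le (lt_of_le_of_lt ?_ hlt)
    rw [← MemLp.toLp_sub, ← OSob_int6]
    refine le_trans (le_of_eq ?_) (hC W _ _ hW (hd n)).2
    refine integral_congr_ae (Eventually.of_forall fun x => ?_)
    simp only [Pi.sub_apply]
    ring
  simp only [OSob_int6 ((hn _).memLp6 hW), OSob_int6 (h.memLp6 hW)]
  exact t5.norm.pow 6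

theorem OSob_cs {g : ℝ → ℝ} (hg : Continuous g) :
    (∫ t in (0 : ℝ)..1, g t) ^ 2 ≤ ∫ t in (0 : ℝ)..1, g t ^ 2 := by
  set m := ∫ t in (0 : ℝ)..1, g t with hm
  have h1 : 0 ≤ ∫ t in (0 : ℝ)..1, (g t - m) ^ 2 :=
    intervalIntegral.integral_nonneg zero_le_one fun t _ => sq_nonneg _
  have h2 : ∫ t in (0 : ℝ)..1, (g t - m) ^ 2 = ∫ t in (0 : ℝ)..1, (g t ^ 2 - 2 * m * g t + m ^ 2) :=
    intervalIntegral.integral_congr fun t _ => by ring
  have i1 : IntervalIntegrable (fun t => g t ^ 2) volume 0 1 := (hg.pow 2).intervalIntegrable _ _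
  have i2 : IntervalIntegrable (fun t => 2 * m * g t) volume 0 1 :=
    (continuous_const.mul hg).intervalIntegrable _ _
  rw [h2, intervalIntegral.integral_add (i1.sub i2) intervalIntegrable_const,
    intervalIntegral.integral_sub i1 i2, intervalIntegral.integral_const_mul, ← hm,
    intervalIntegral.integral_const] at h1
  simp only [sub_zero, smul_eq_mul, one_mul] at h1
  nlinarith

theorem OSob_pt (hv : Cc1 v) (a x : R3) :
    ENNReal.ofReal ((v (x + a) - v x) ^ 2) ≤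
      ∫⁻ t in Ioc (0 : ℝ) 1, ENNReal.ofReal (‖gradient v (x + t • a)‖ ^ 2 * ‖a‖ ^ 2) := by
  have hc : Continuous fun t : ℝ => gradient v (x + t • a) :=
    hv.continuous_gradient.comp (by fun_prop)
  have hg : Continuous fun t : ℝ => ⟪gradient v (x + t • a), a⟫_ℝ := hc.inner continuous_const
  have hder : ∀ t : ℝ, HasDerivAt (fun t : ℝ => v (x + t • a)) ⟪gradient v (x + t • a), a⟫_ℝ t := by
    intro t
    have h1 : HasDerivAt (fun t : ℝ => x + t • a) a t := by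
      simpa using ((hasDerivAt_id t).smul_const a).const_add x
    rw [inner_gradient_eq]
    exact ((hv.1.differentiable one_ne_zero) _).hasFDerivAt.comp_hasDerivAt t h1
  have h1 := intervalIntegral.integral_eq_sub_of_hasDerivAt (a := 0) (b := 1)
    (fun t _ => hder t) (hg.intervalIntegrable _ _)
  simp only [one_smul, zero_smul, add_zero] at h1
  have hc2 : Continuous fun t : ℝ => ‖gradient v (x + t • a)‖ ^ 2 * ‖a‖ ^ 2 :=
    (hc.norm.pow 2).mul continuous_const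
  have h2 : (v (x + a) - v x) ^ 2
      ≤ ∫ t in (0 : ℝ)..1, ‖gradient v (x + t • a)‖ ^ 2 * ‖a‖ ^ 2 := by
    rw [← h1]
    refine (OSob_cs hg).trans (intervalIntegral.integral_mono_on zero_le_one
      ((hg.pow 2).intervalIntegrable _ _) (hc2.intervalIntegrable _ _) fun t _ => ?_)
    rw [← mul_pow, ← sq_abs]
    exact pow_le_pow_left₀ (abs_nonneg _) (abs_real_inner_le_norm _ _) 2
  rw [intervalIntegral.integral_of_le zero_le_one] at h2
  rw [← ofReal_integral_eq_lintegral_ofReal (hc2.integrableOn_Ioc)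
    (Eventually.of_forall fun t => by positivity)]
  exact ENNReal.ofReal_le_ofReal h2

theorem OSob_tr (hv : Cc1 v) (a : R3) :
    ∫⁻ x, ENNReal.ofReal ((v (x + a) - v x) ^ 2) ≤
      ENNReal.ofReal ((∫ x, ‖gradient v x‖ ^ 2) * ‖a‖ ^ 2) := by
  refine (lintegral_mono fun x => OSob_pt hv a x).trans (le_of_eq ?_)
  have hc : Continuous fun p : R3 × ℝ => ‖gradient v (p.1 + p.2 • a)‖ ^ 2 * ‖a‖ ^ 2 :=
    ((hv.continuous_gradient.comp (by fun_prop)).norm.pow 2).mul continuous_const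
  rw [lintegral_lintegral_swap hc.measurable.ennreal_ofReal.aemeasurable]
  have h1 : ∀ t : ℝ, ∫⁻ x, ENNReal.ofReal (‖gradient v (x + t • a)‖ ^ 2 * ‖a‖ ^ 2)
      = ENNReal.ofReal ((∫ x, ‖gradient v x‖ ^ 2) * ‖a‖ ^ 2) := by
    intro t
    rw [lintegral_add_right_eq_self
      (fun x => ENNReal.ofReal (‖gradient v x‖ ^ 2 * ‖a‖ ^ 2)) (t • a), ← integral_mul_const]
    exact (ofReal_integral_eq_lintegral_ofReal ((OSob_int_G pot_zero hv.inF).mul_const _)
      (Eventually.of_forall fun x => by positivity)).symm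
  simp only [h1]
  rw [setLIntegral_const]
  simp

theorem InF.translate_le (hW : Pot W) (h : InF univ W u G) (a : R3) :
    ∫⁻ x, ENNReal.ofReal ((u (x + a) - u x) ^ 2) ≤
      ENNReal.ofReal ((∫ x, ‖G x‖ ^ 2) * ‖a‖ ^ 2) := by
  obtain ⟨v, hv, hae, ht⟩ := OSob_seq hW h
  have hae2 := (measurePreserving_add_right (volume : Measure R3) a).quasiMeasurePreserving.ae hae
  refine OSob_fatou (f := fun n x => (v n (x + a) - v n x) ^ 2) (fun n => ?_) ?_
    (fun n => OSob_tr (hv n) a) (ht.mul_const _)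
  · have hm := (hv n).1.continuous.measurable
    exact ((hm.comp (measurable_add_const a)).sub hm).pow_const 2
  · filter_upwards [hae, hae2] with x h1 h2
    exact (h2.sub h1).pow 2

theorem BF.lip2 (hW : Pot W) {M : ℝ} (h : BF W u G M) : Lip2 u M := by
  refine ⟨h.inF.mu, h.bdd, ?_, fun a => (h.inF.translate_le hW a).trans ?_⟩
  · rw [← ofReal_integral_eq_lintegral_ofReal (OSob_int_u hW h.inF)
      (Eventually.of_forall fun _ => sq_nonneg _)]
    exact ENNReal.ofReal_le_ofReal h.l2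
  · have h1 := grad_le_qf hW h.inF
    rw [Measure.restrict_univ] at h1
    exact ENNReal.ofReal_le_ofReal
      (mul_le_mul_of_nonneg_right (h1.trans h.en) (sq_nonneg _))

theorem Lip2.nonneg {M : ℝ} (h : Lip2 u M) : 0 ≤ M := (abs_nonneg _).trans (h.bdd 0)

theorem Lip2.mono {M M' : ℝ} (h : Lip2 u M) (hM : M ≤ M') : Lip2 u M' := by
  have h2 : M ^ 2 ≤ M' ^ 2 := pow_le_pow_left₀ h.nonneg hM 2
  exact ⟨h.meas, fun x => (h.bdd x).trans hM, h.l2.trans (ENNReal.ofReal_le_ofReal h2),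
    fun a => (h.tr a).trans
      (ENNReal.ofReal_le_ofReal (mul_le_mul_of_nonneg_right h2 (sq_nonneg _)))⟩

theorem Lip2.mul {M M' : ℝ} (h : Lip2 u M) (h' : Lip2 v M') :
    Lip2 (fun x => u x * v x) (2 * M * M') := by
  have hM := h.nonneg
  have hM' := h'.nonneg
  have hu : ∀ x, u x ^ 2 ≤ M ^ 2 := fun x => by
    rw [← sq_abs]
    exact pow_le_pow_left₀ (abs_nonneg _) (h.bdd x) 2
  have hv : ∀ x, v x ^ 2 ≤ M' ^ 2 := fun x => by
    rw [← sq_abs]
    exact pow_le_pow_left₀ (abs_nonneg _) (h'.bdd x) 2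
  refine ⟨h.meas.mul h'.meas, fun x => ?_, ?_, fun a => ?_⟩
  · rw [abs_mul]
    have h1 := mul_le_mul (h.bdd x) (h'.bdd x) (abs_nonneg _) hM
    nlinarith [mul_nonneg hM hM']
  · calc ∫⁻ x, ENNReal.ofReal ((u x * v x) ^ 2)
        ≤ ∫⁻ x, ENNReal.ofReal (M' ^ 2) * ENNReal.ofReal (u x ^ 2) := by
          refine lintegral_mono fun x => ?_
          rw [← ENNReal.ofReal_mul (sq_nonneg _)]
          refine ENNReal.ofReal_le_ofReal ?_
          nlinarith [hv x, sq_nonneg (u x)]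
      _ = ENNReal.ofReal (M' ^ 2) * ∫⁻ x, ENNReal.ofReal (u x ^ 2) :=
          lintegral_const_mul' _ _ ENNReal.ofReal_ne_top
      _ ≤ ENNReal.ofReal (M' ^ 2) * ENNReal.ofReal (M ^ 2) := mul_le_mul_right h.l2 _
      _ ≤ _ := by
          rw [← ENNReal.ofReal_mul (sq_nonneg _)]
          refine ENNReal.ofReal_le_ofReal ?_
          nlinarith [sq_nonneg (M * M')]
  · have m1 : Measurable fun x =>
        ENNReal.ofReal (2 * M' ^ 2) * ENNReal.ofReal ((u (x + a) - u x) ^ 2) :=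
      (((h.meas.comp (measurable_add_const a)).sub h.meas).pow_const 2).ennreal_ofReal.const_mul _
    calc ∫⁻ x, ENNReal.ofReal ((u (x + a) * v (x + a) - u x * v x) ^ 2)
        ≤ ∫⁻ x, (ENNReal.ofReal (2 * M' ^ 2) * ENNReal.ofReal ((u (x + a) - u x) ^ 2)
            + ENNReal.ofReal (2 * M ^ 2) * ENNReal.ofReal ((v (x + a) - v x) ^ 2)) := by
          refine lintegral_mono fun x => ?_
          rw [← ENNReal.ofReal_mul (by positivity), ← ENNReal.ofReal_mul (by positivity),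
            ← ENNReal.ofReal_add (by positivity) (by positivity)]
          refine ENNReal.ofReal_le_ofReal ?_
          have e : u (x + a) * v (x + a) - u x * v x
              = (u (x + a) - u x) * v (x + a) + u x * (v (x + a) - v x) := by ring
          have h1 := mul_le_mul_of_nonneg_left (hv (x + a)) (sq_nonneg (u (x + a) - u x))
          have h2 := mul_le_mul_of_nonneg_left (hu x) (sq_nonneg (v (x + a) - v x))
          rw [e]
          nlinarith [sq_nonneg ((u (x + a) - u x) * v (x + a) - u x * (v (x + a) - v x))]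
      _ = ENNReal.ofReal (2 * M' ^ 2) * (∫⁻ x, ENNReal.ofReal ((u (x + a) - u x) ^ 2))
            + ENNReal.ofReal (2 * M ^ 2) * ∫⁻ x, ENNReal.ofReal ((v (x + a) - v x) ^ 2) := by
          rw [lintegral_add_left m1, lintegral_const_mul' _ _ ENNReal.ofReal_ne_top,
            lintegral_const_mul' _ _ ENNReal.ofReal_ne_top]
      _ ≤ ENNReal.ofReal (2 * M' ^ 2) * ENNReal.ofReal (M ^ 2 * ‖a‖ ^ 2)
            + ENNReal.ofReal (2 * M ^ 2) * ENNReal.ofReal (M' ^ 2 * ‖a‖ ^ 2) :=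
          add_le_add (mul_le_mul_right (h.tr a) _) (mul_le_mul_right (h'.tr a) _)
      _ = _ := by
          rw [← ENNReal.ofReal_mul (by positivity), ← ENNReal.ofReal_mul (by positivity),
            ← ENNReal.ofReal_add (by positivity) (by positivity)]
          congr 1
          ring

theorem Lip2.memLp {M : ℝ} (h : Lip2 u M) : MemLp u 2 volume :=
  (memLp_two_iff_integrable_sq h.meas.aestronglyMeasurable).2
    (OSob_of_lint (h.meas.pow_const 2) (fun _ => sq_nonneg _) (sq_nonneg _) h.l2).1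

end Pool.Agent.Lib.MP_8fe63c_mp
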