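import Pool.Agent.Lib.MP_8fe63c_mp.OGP

/-!
The linearised operator is nonnegative; Euler-Lagrange equation.

Sketch. For normalised `u` and `t ∈ [0,1]` apply `InF.sqrt_add` to `√(1-t) φ` and `√t u`: the
function `ρ = √((1-t) φ^2 + t u^2)` is normalised, so
`gpE φ ≤ (1-t) qf φ + t qf u + b/6 ∫ ((1-t) φ^2 + t u^2)^3`. The right side is a polynomial in `t`
(all products are integrable by `MemLp 6` and Hölder) that equals the left side at `t = 0`; its
derivative at `0` is therefore nonnegative. The form `qD` is nonnegative and vanishes at `φ`, hence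
`qD (φ, ζ) = 0` (expand at `φ + t ζ`).
-/

set_option linter.unusedSectionVars false

open MeasureTheory Set Filter Topology
open scoped ENNReal InnerProductSpace

namespace Pool.Agent.Lib.MP_8fe63c_mp

variable {W : R3 → ℝ} {b : ℝ} {φ : R3 → ℝ} {G : R3 → R3}

/-- the chemical potential -/
noncomputable def chem (W : R3 → ℝ) (b : ℝ) (φ : R3 → ℝ) (G : R3 → R3) : ℝ :=
  qf univ W φ G φ G + b / 2 * ∫ x, φ x ^ 6

theorem OLin_abs_le (x y : ℝ) {i j : ℕ} (hij : i + j = 6) : |x ^ i * y ^ j| ≤ x ^ 6 + y ^ 6 := by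
  have hx : x ^ 6 = |x| ^ 6 := (Even.pow_abs (by decide) x).symm
  have hy : y ^ 6 = |y| ^ 6 := (Even.pow_abs (by decide) y).symm
  rw [abs_mul, abs_pow, abs_pow, hx, hy]
  have h0x := abs_nonneg x
  have h0y := abs_nonneg y
  rcases le_total |x| |y| with h | h
  · calc |x| ^ i * |y| ^ j ≤ |y| ^ i * |y| ^ j := by gcongr
      _ = |y| ^ 6 := by rw [← pow_add, hij]
      _ ≤ |x| ^ 6 + |y| ^ 6 := le_add_of_nonneg_left (by positivity)
  · calc |x| ^ i * |y| ^ j ≤ |x| ^ i * |x| ^ j := by gcongr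
      _ = |x| ^ 6 := by rw [← pow_add, hij]
      _ ≤ |x| ^ 6 + |y| ^ 6 := le_add_of_nonneg_right (by positivity)

theorem OLin_int6 (hW : Pot W) {u : R3 → ℝ} {H : R3 → R3} (hu : InF univ W u H) :
    Integrable (fun x => u x ^ 6) := by
  obtain ⟨C, -, hC⟩ := sobolev6
  exact (hC W u H hW hu).1

theorem OLin_int (hW : Pot W) {u v : R3 → ℝ} {H K : R3 → R3} (hu : InF univ W u H)
    (hv : InF univ W v K) {i j : ℕ} (hij : i + j = 6) :
    Integrable (fun x => u x ^ i * v x ^ j) := by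
  refine Integrable.mono' ((OLin_int6 hW hu).add (OLin_int6 hW hv)) ?_ ?_
  · exact ((hu.mu.pow_const i).mul (hv.mu.pow_const j)).aestronglyMeasurable
  · exact Eventually.of_forall fun x => OLin_abs_le (u x) (v x) hij

theorem OLin_int2 (hW : Pot W) {u v : R3 → ℝ} {H K : R3 → R3} (hu : InF univ W u H)
    (hv : InF univ W v K) : Integrable (fun x => u x * v x) :=
  integrableOn_univ.1 (hu.integrable_mul hW hv)

theorem OLin_add3 {f g k : R3 → ℝ} (hf : Integrable f) (hg : Integrable g) (hk : Integrable k) :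
    (∫ x, f x) + (∫ x, g x) + ∫ x, k x = ∫ x, (f x + g x + k x) := by
  have h1 : Integrable (fun x => f x + g x) := hf.add hg
  rw [integral_add h1 hk, integral_add hf hg]

theorem OLin_add4 {f g k l : R3 → ℝ} (hf : Integrable f) (hg : Integrable g) (hk : Integrable k)
    (hl : Integrable l) :
    (∫ x, f x) + (∫ x, g x) + (∫ x, k x) + ∫ x, l x = ∫ x, (f x + g x + k x + l x) := by
  have h1 : Integrable (fun x => f x + g x + k x) := (hf.add hg).add hk
  rw [integral_add h1 hl, OLin_add3 hf hg hk]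

theorem OLin_ip (u v : R3 → ℝ) : ip univ u v = ∫ x, u x * v x := by
  unfold ip
  rw [Measure.restrict_univ]

theorem OLin_qf_smul (c : ℝ) (u : R3 → ℝ) (H : R3 → R3) :
    qf univ W (fun x => c * u x) (fun x => c • H x) (fun x => c * u x) (fun x => c • H x) =
      c ^ 2 * qf univ W u H u H := by
  unfold qf
  rw [← integral_const_mul]
  refine integral_congr_ae (Eventually.of_forall fun x => ?_)
  simp only [inner_smul_left, inner_smul_right, conj_trivial]
  ring

theorem OLin_lim {R : ℝ → ℝ} (hR : Continuous R) {δ : ℝ} (hδ : 0 < δ)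
    (h : ∀ s, 0 < s → s < δ → 0 ≤ s * R s) : 0 ≤ R 0 := by
  have h1 : Tendsto R (𝓝[>] 0) (𝓝 (R 0)) := (hR.tendsto 0).mono_left nhdsWithin_le_nhds
  refine ge_of_tendsto h1 ?_
  filter_upwards [Ioo_mem_nhdsGT hδ] with s hs
  exact nonneg_of_mul_nonneg_right (h s hs.1 hs.2) hs.1 |>.trans_eq rfl

theorem OLin_cube (hW : Pot W) {u : R3 → ℝ} {H : R3 → R3} (hφ : InF univ W φ G)
    (hu : InF univ W u H) (α s : ℝ) :
    ∫ x, (α * φ x ^ 2 + s * u x ^ 2) ^ 3 =
      α ^ 3 * (∫ x, φ x ^ 6) + 3 * α ^ 2 * s * (∫ x, φ x ^ 4 * u x ^ 2) +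
        3 * α * s ^ 2 * (∫ x, φ x ^ 2 * u x ^ 4) + s ^ 3 * ∫ x, u x ^ 6 := by
  have i0 := (OLin_int6 hW hφ).const_mul (α ^ 3)
  have i1 := (OLin_int hW hφ hu (i := 4) (j := 2) rfl).const_mul (3 * α ^ 2 * s)
  have i2 := (OLin_int hW hφ hu (i := 2) (j := 4) rfl).const_mul (3 * α * s ^ 2)
  have i3 := (OLin_int6 hW hu).const_mul (s ^ 3)
  rw [← integral_const_mul, ← integral_const_mul, ← integral_const_mul, ← integral_const_mul,
    OLin_add4 i0 i1 i2 i3]
  refine integral_congr_ae (Eventually.of_forall fun x => ?_)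
  simp only
  ring

theorem OLin_step (hW : Pot W) (h : IsMin W b φ G) {u : R3 → ℝ} {H : R3 → R3}
    (hu : InF univ W u H) {α s : ℝ} (hα : 0 ≤ α) (hs : 0 ≤ s) (hn : α + s * ip univ u u = 1) :
    gpE W b φ G ≤ α * qf univ W φ G φ G + s * qf univ W u H u H +
      b / 6 * ∫ x, (α * φ x ^ 2 + s * u x ^ 2) ^ 3 := by
  obtain ⟨K, hK, hq⟩ := InF.sqrt_add hW (h.inF.smul hW √α) (hu.smul hW √s)
  have e : ∀ x, (√α * φ x) ^ 2 + (√s * u x) ^ 2 = α * φ x ^ 2 + s * u x ^ 2 := by
    intro x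
    rw [mul_pow, mul_pow, Real.sq_sqrt hα, Real.sq_sqrt hs]
  have e0 : ∀ x, 0 ≤ α * φ x ^ 2 + s * u x ^ 2 := fun x => by positivity
  rw [OLin_qf_smul, OLin_qf_smul, Real.sq_sqrt hα, Real.sq_sqrt hs] at hq
  have hnrm : ip univ (fun x => √((√α * φ x) ^ 2 + (√s * u x) ^ 2))
      (fun x => √((√α * φ x) ^ 2 + (√s * u x) ^ 2)) = 1 := by
    have h1 := h.nrm
    rw [OLin_ip] at hn h1 ⊢
    have i0 := (OLin_int2 hW h.inF h.inF).const_mul α
    have i1 := (OLin_int2 hW hu hu).const_mul s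
    calc ∫ x, √((√α * φ x) ^ 2 + (√s * u x) ^ 2) * √((√α * φ x) ^ 2 + (√s * u x) ^ 2)
        = ∫ x, (α * (φ x * φ x) + s * (u x * u x)) := by
          refine integral_congr_ae (Eventually.of_forall fun x => ?_)
          simp only
          rw [e, Real.mul_self_sqrt (e0 x)]
          ring
      _ = 1 := by
          rw [integral_add i0 i1, integral_const_mul, integral_const_mul, h1, mul_one, hn]
  have hm := h.min _ K hK hnrm
  have e6 : ∫ x, √((√α * φ x) ^ 2 + (√s * u x) ^ 2) ^ 6 =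
      ∫ x, (α * φ x ^ 2 + s * u x ^ 2) ^ 3 := by
    refine integral_congr_ae (Eventually.of_forall fun x => ?_)
    simp only
    rw [e, show (6 : ℕ) = 2 * 3 from rfl, pow_mul, Real.sq_sqrt (e0 x)]
  refine hm.trans ?_
  unfold gpE
  rw [e6]
  linarith

theorem IsMin.lin_nonneg (hW : Pot W) (hb : 0 ≤ b) (h : IsMin W b φ G) {u : R3 → ℝ} {H : R3 → R3}
    (hu : InF univ W u H) :
    chem W b φ G * ip univ u u ≤ qf univ W u H u H + b / 2 * ∫ x, φ x ^ 4 * u x ^ 2 := by
  have _hb := hb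
  set n := ip univ u u with hn
  set Q := qf univ W φ G φ G with hQ
  set q := qf univ W u H u H with hq
  set A0 := ∫ x, φ x ^ 6 with hA0
  set A1 := ∫ x, φ x ^ 4 * u x ^ 2 with hA1
  set A2 := ∫ x, φ x ^ 2 * u x ^ 4 with hA2
  set A3 := ∫ x, u x ^ 6 with hA3
  have hn0 : 0 ≤ n := by
    rw [hn, OLin_ip]
    exact integral_nonneg fun x => mul_self_nonneg _
  have hc : Continuous fun s : ℝ => q - n * Q + b / 6 * ((-3 * n + 3 * s * n ^ 2 - s ^ 2 * n ^ 3) * A0 +
      3 * (1 - s * n) ^ 2 * A1 + 3 * (1 - s * n) * s * A2 + s ^ 2 * A3) := by fun_prop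
  have key : 0 ≤ (fun s : ℝ => q - n * Q + b / 6 * ((-3 * n + 3 * s * n ^ 2 - s ^ 2 * n ^ 3) * A0 +
      3 * (1 - s * n) ^ 2 * A1 + 3 * (1 - s * n) * s * A2 + s ^ 2 * A3)) 0 := by
    refine OLin_lim hc (δ := 1 / (n + 1)) (by positivity) ?_
    intro s hs hs'
    have hα : 0 ≤ 1 - s * n := by
      rw [lt_div_iff₀ (by positivity)] at hs'
      nlinarith
    have h1 := OLin_step hW h hu hα hs.le (by ring)
    rw [OLin_cube hW h.inF hu] at h1
    unfold gpE at h1
    rw [← hQ, ← hq, ← hA0, ← hA1, ← hA2, ← hA3] at h1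
    nlinarith [h1]
  simp only at key
  unfold chem
  rw [← hQ, ← hA0]
  nlinarith [key]

theorem IsMin.el (hW : Pot W) (hb : 0 ≤ b) (h : IsMin W b φ G) {u : R3 → ℝ} {H : R3 → R3}
    (hu : InF univ W u H) :
    qf univ W φ G u H + b / 2 * ∫ x, φ x ^ 5 * u x = chem W b φ G * ip univ φ u := by
  set μ := chem W b φ G with hμ
  set L := qf univ W φ G u H + b / 2 * (∫ x, φ x ^ 5 * u x) - μ * ip univ φ u with hL
  set D := qf univ W u H u H + b / 2 * (∫ x, φ x ^ 4 * u x ^ 2) - μ * ip univ u u with hD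
  have key : ∀ t : ℝ, 0 ≤ 2 * t * L + t ^ 2 * D := by
    intro t
    have hw : InF univ W (fun x => 1 * φ x + t * u x) (fun x => (1 : ℝ) • G x + t • H x) :=
      (h.inF.smul hW 1).add hW (hu.smul hW t)
    have h1 := h.lin_nonneg hW hb hw
    have e1 : qf univ W (fun x => 1 * φ x + t * u x) (fun x => (1 : ℝ) • G x + t • H x)
        (fun x => 1 * φ x + t * u x) (fun x => (1 : ℝ) • G x + t • H x) =
        qf univ W φ G φ G + 2 * t * qf univ W φ G u H + t ^ 2 * qf univ W u H u H := by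
      rw [qf_lin hW h.inF hu hw, qf_comm (u := φ), qf_lin hW h.inF hu h.inF, qf_comm (u := u)
        (v := fun x => 1 * φ x + t * u x), qf_lin hW h.inF hu hu, qf_comm (u := u) (v := φ)]
      ring
    have e2 : ip univ (fun x => 1 * φ x + t * u x) (fun x => 1 * φ x + t * u x) =
        1 + 2 * t * ip univ φ u + t ^ 2 * ip univ u u := by
      have h2 := h.nrm
      rw [OLin_ip] at h2
      have i0 := OLin_int2 hW h.inF h.inF
      have i1 := (OLin_int2 hW h.inF hu).const_mul (2 * t)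
      have i2 := (OLin_int2 hW hu hu).const_mul (t ^ 2)
      have h3 := OLin_add3 i0 i1 i2
      rw [h2, integral_const_mul, integral_const_mul] at h3
      rw [OLin_ip, OLin_ip, OLin_ip, h3]
      refine integral_congr_ae (Eventually.of_forall fun x => ?_)
      simp only
      ring
    have e3 : ∫ x, φ x ^ 4 * (1 * φ x + t * u x) ^ 2 =
        (∫ x, φ x ^ 6) + 2 * t * (∫ x, φ x ^ 5 * u x) + t ^ 2 * ∫ x, φ x ^ 4 * u x ^ 2 := by
      have i0 := OLin_int6 hW h.inF
      have i1 := (OLin_int hW h.inF hu (i := 5) (j := 1) rfl).const_mul (2 * t)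
      have i2 := (OLin_int hW h.inF hu (i := 4) (j := 2) rfl).const_mul (t ^ 2)
      simp only [pow_one] at i1
      rw [← integral_const_mul, ← integral_const_mul,
        OLin_add3 i0 i1 i2]
      refine integral_congr_ae (Eventually.of_forall fun x => ?_)
      simp only
      ring
    rw [e1, e2, e3, ← hμ] at h1
    have e4 : μ = qf univ W φ G φ G + b / 2 * ∫ x, φ x ^ 6 := rfl
    rw [hL, hD]
    nlinarith [h1, e4]
  have hL0 : L = 0 := by
    have hD0 : 0 ≤ D := by
      have k1 := key 1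
      have k2 := key (-1)
      nlinarith
    have k := key (-L / (D + 1))
    have hD1 : 0 < D + 1 := by linarith
    have e : 2 * (-L / (D + 1)) * L + (-L / (D + 1)) ^ 2 * D =
        -(L ^ 2 * (D + 2)) / (D + 1) ^ 2 := by
      field_simp
      ring
    rw [e, le_div_iff₀ (by positivity), zero_mul] at k
    have : L ^ 2 ≤ 0 := by nlinarith [sq_nonneg L]
    exact pow_eq_zero_iff (two_ne_zero) |>.1 (le_antisymm this (sq_nonneg L))
  linarith

end Pool.Agent.Lib.MP_8fe63c_mp
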