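import Pool.Agent.Lib.MP_8fe63c_mp.OHil

/-!
The diamagnetic inequality.

Sketch. Take `Cc1` approximations `a n → a`, `b n → b` and `δ n → 0`;
`ρ n = √(a n ^2 + b n ^2 + δ n ^2) - δ n` is `Cc1` with `‖∇ ρ n‖^2 ≤ ‖∇ a n‖^2 + ‖∇ b n‖^2` and
`ρ n ^2 ≤ a n ^2 + b n ^2`; `|ρ n - √(a n^2 + b n^2)| ≤ min (δ n) (√(a n ^2 + b n ^2))` and
`|√(a n^2 + b n^2) - √(a^2+b^2)|^2 ≤ (a n - a)^2 + (b n - b)^2`; choose `δ n` so small that
`δ n ^2 * volume (support) ≤ 1/(n+1)`. Conclude with `InF.lsc` and `tendsto_qf`.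
-/

set_option linter.unusedSectionVars false

open MeasureTheory Set Filter Topology
open scoped ENNReal InnerProductSpace

namespace Pool.Agent.Lib.MP_8fe63c_mp

variable {W : R3 → ℝ} {a b : R3 → ℝ} {G H : R3 → R3}

/-- the regularised modulus -/
noncomputable def OSqrt_r (δ s t : ℝ) : ℝ := √(s ^ 2 + t ^ 2 + δ ^ 2) - δ

theorem OSqrt_lip (δ s t s' t' : ℝ) :
    (OSqrt_r δ s t - OSqrt_r δ s' t') ^ 2 ≤ (s' - s) ^ 2 + (t' - t) ^ 2 := by
  have h1 : 0 ≤ s ^ 2 + t ^ 2 + δ ^ 2 := by positivity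
  have h2 : 0 ≤ s' ^ 2 + t' ^ 2 + δ ^ 2 := by positivity
  have h3 : s * s' + t * t' + δ ^ 2 ≤
      √(s ^ 2 + t ^ 2 + δ ^ 2) * √(s' ^ 2 + t' ^ 2 + δ ^ 2) := by
    rw [← Real.sqrt_mul h1]
    refine Real.le_sqrt_of_sq_le ?_
    nlinarith [sq_nonneg (s * t' - t * s'), sq_nonneg (δ * (s - s')), sq_nonneg (δ * (t - t'))]
  have h4 := Real.sq_sqrt h1
  have h5 := Real.sq_sqrt h2
  unfold OSqrt_r
  nlinarith

theorem OSqrt_nonneg (δ s t : ℝ) : 0 ≤ OSqrt_r δ s t :=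
  sub_nonneg.mpr (Real.le_sqrt_of_sq_le (by nlinarith [sq_nonneg s, sq_nonneg t]))

theorem OSqrt_le {δ : ℝ} (hδ : 0 ≤ δ) (s t : ℝ) : OSqrt_r δ s t ≤ √(s ^ 2 + t ^ 2) := by
  have h1 := Real.sq_sqrt (show 0 ≤ s ^ 2 + t ^ 2 by positivity)
  have h2 := Real.sqrt_nonneg (s ^ 2 + t ^ 2)
  refine sub_le_iff_le_add.mpr (Real.sqrt_le_iff.mpr ⟨by positivity, ?_⟩)
  nlinarith [mul_nonneg h2 hδ]

theorem OSqrt_ge (δ s t : ℝ) : √(s ^ 2 + t ^ 2) - δ ≤ OSqrt_r δ s t :=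
  sub_le_sub_right (Real.sqrt_le_sqrt (by nlinarith [sq_nonneg δ])) δ

theorem OSqrt_sq_le {δ : ℝ} (hδ : 0 ≤ δ) (s t : ℝ) : OSqrt_r δ s t ^ 2 ≤ s ^ 2 + t ^ 2 := by
  rw [← Real.sq_sqrt (show 0 ≤ s ^ 2 + t ^ 2 by positivity)]
  exact pow_le_pow_left₀ (OSqrt_nonneg δ s t) (OSqrt_le hδ s t) 2

theorem OSqrt_cc1 {δ : ℝ} (hδ : 0 < δ) (ha : Cc1 a) (hb : Cc1 b) :
    Cc1 fun x => OSqrt_r δ (a x) (b x) := by
  refine ⟨ContDiff.sub (ContDiff.sqrt (((ha.1.pow 2).add (hb.1.pow 2)).add contDiff_const)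
    fun x => by positivity) contDiff_const, ?_⟩
  refine HasCompactSupport.intro (ha.2.isCompact.union hb.2.isCompact) fun x hx => ?_
  rw [mem_union, not_or] at hx
  rw [image_eq_zero_of_notMem_tsupport hx.1, image_eq_zero_of_notMem_tsupport hx.2, OSqrt_r]
  simp [Real.sqrt_sq hδ.le]

theorem OSqrt_grad {δ : ℝ} (hδ : 0 < δ) (ha : Cc1 a) (hb : Cc1 b) (x : R3) :
    ‖gradient (fun x => OSqrt_r δ (a x) (b x)) x‖ ^ 2 ≤
      ‖gradient a x‖ ^ 2 + ‖gradient b x‖ ^ 2 := by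
  have h1 := (ha.1.differentiable one_ne_zero x).hasFDerivAt
  have h2 := (hb.1.differentiable one_ne_zero x).hasFDerivAt
  have hq : 0 < a x ^ 2 + b x ^ 2 + δ ^ 2 := by positivity
  have h3 : HasFDerivAt (fun x => OSqrt_r δ (a x) (b x)) _ x :=
    (HasFDerivAt.sqrt (((h1.pow 2).add (h2.pow 2)).add_const (δ ^ 2)) hq.ne').sub_const δ
  rw [norm_gradient_eq, norm_gradient_eq, norm_gradient_eq, h3.fderiv]
  have hs := Real.sqrt_pos.mpr hq
  have hs2 := Real.sq_sqrt hq.le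
  have h4 : ‖(2 • a x ^ (2 - 1)) • fderiv ℝ a x + (2 • b x ^ (2 - 1)) • fderiv ℝ b x‖ ≤
      2 * (|a x| * ‖fderiv ℝ a x‖ + |b x| * ‖fderiv ℝ b x‖) := by
    refine (norm_add_le _ _).trans (le_of_eq ?_)
    simp only [norm_smul, Nat.add_one_sub_one, pow_one, nsmul_eq_mul, Nat.cast_ofNat, norm_mul,
      Real.norm_eq_abs, abs_two]
    ring
  have h5 : (|a x| * ‖fderiv ℝ a x‖ + |b x| * ‖fderiv ℝ b x‖) ^ 2 ≤
      (a x ^ 2 + b x ^ 2 + δ ^ 2) * (‖fderiv ℝ a x‖ ^ 2 + ‖fderiv ℝ b x‖ ^ 2) := by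
    rw [← sq_abs (a x), ← sq_abs (b x)]
    nlinarith [sq_nonneg (|a x| * ‖fderiv ℝ b x‖ - |b x| * ‖fderiv ℝ a x‖),
      sq_nonneg (δ * ‖fderiv ℝ a x‖), sq_nonneg (δ * ‖fderiv ℝ b x‖)]
  have h6 := pow_le_pow_left₀ (norm_nonneg _) h4 2
  simp only [Pi.add_apply]
  rw [norm_smul, mul_pow, Real.norm_eq_abs, sq_abs, div_pow, mul_pow, hs2, one_pow,
    div_mul_eq_mul_div, one_mul, div_le_iff₀ (by positivity)]
  nlinarith

theorem OSqrt_qf (hW : Pot W) {δ : ℝ} (hδ : 0 < δ) (ha : Cc1 a) (hb : Cc1 b) :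
    qf univ W (fun x => OSqrt_r δ (a x) (b x)) (gradient fun x => OSqrt_r δ (a x) (b x))
      (fun x => OSqrt_r δ (a x) (b x)) (gradient fun x => OSqrt_r δ (a x) (b x)) ≤
      qf univ W a (gradient a) a (gradient a) + qf univ W b (gradient b) b (gradient b) := by
  have hi : ∀ {v : R3 → ℝ}, Cc1 v → Integrable
      (fun x => ⟪gradient v x, gradient v x⟫_ℝ + W x * v x * v x) (volume.restrict univ) :=
    fun hv => (InF.integrable_inner hW hv.inF hv.inF).add (InF.integrable_W hW hv.inF hv.inF)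
  unfold qf
  rw [← integral_add (hi ha) (hi hb)]
  refine integral_mono (hi (OSqrt_cc1 hδ ha hb)) ((hi ha).add (hi hb)) fun x => ?_
  have h1 := OSqrt_grad hδ ha hb x
  have h2 := mul_le_mul_of_nonneg_left (OSqrt_sq_le hδ.le (a x) (b x)) (hW.nonneg x)
  simp only [real_inner_self_eq_norm_sq]
  nlinarith

theorem OSqrt_l2 (hW : Pot W) (v : R3 → ℝ) (K : R3 → R3) :
    ∫⁻ x in univ, ENNReal.ofReal ((a x - v x) ^ 2) ≤ gdist univ W a G v K :=
  lintegral_mono fun x => ENNReal.ofReal_le_ofReal (by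
    nlinarith [mul_nonneg (hW.nonneg x) (sq_nonneg (a x - v x)), sq_nonneg ‖G x - K x‖])

theorem OSqrt_dom (hW : Pot W) (ha : InF univ W a G) (hb : InF univ W b H) {δ : ℕ → ℝ}
    (hδ : ∀ n, 0 ≤ δ n) (h0 : Tendsto δ atTop (𝓝 0)) :
    Tendsto (fun n => ∫⁻ x in univ,
      ENNReal.ofReal ((OSqrt_r (δ n) (a x) (b x) - √(a x ^ 2 + b x ^ 2)) ^ 2)) atTop (𝓝 0) := by
  have h1 := ha.mu
  have h2 := hb.mu
  have hi : Integrable (fun x => a x ^ 2 + b x ^ 2) (volume.restrict univ) :=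
    (ha.memLp_u hW).integrable_sq.add (hb.memLp_u hW).integrable_sq
  have h3 := tendsto_lintegral_of_dominated_convergence (μ := volume.restrict univ)
    (F := fun n x => ENNReal.ofReal ((OSqrt_r (δ n) (a x) (b x) - √(a x ^ 2 + b x ^ 2)) ^ 2))
    (f := fun _ => 0) (fun x => ENNReal.ofReal (a x ^ 2 + b x ^ 2))
    (fun n => by unfold OSqrt_r; fun_prop) (fun n => Eventually.of_forall fun x => ?_)
    hi.lintegral_lt_top.ne (Eventually.of_forall fun x => ?_)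
  · simpa only [lintegral_zero] using h3
  · refine ENNReal.ofReal_le_ofReal ?_
    have h4 := OSqrt_nonneg (δ n) (a x) (b x)
    have h5 := OSqrt_le (hδ n) (a x) (b x)
    have h6 := Real.sq_sqrt (show 0 ≤ a x ^ 2 + b x ^ 2 by positivity)
    nlinarith
  · rw [← ENNReal.ofReal_zero]
    refine ENNReal.tendsto_ofReal (squeeze_zero (fun n => sq_nonneg _) (g := fun n => δ n ^ 2)
      (fun n => ?_) (by simpa using h0.pow 2))
    have h4 := OSqrt_ge (δ n) (a x) (b x)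
    have h5 := OSqrt_le (hδ n) (a x) (b x)
    exact sq_le_sq' (by linarith) (by linarith [hδ n])

theorem InF.sqrt_add (hW : Pot W) (ha : InF univ W a G) (hb : InF univ W b H) :
    ∃ K, InF univ W (fun x => √(a x ^ 2 + b x ^ 2)) K ∧
      qf univ W (fun x => √(a x ^ 2 + b x ^ 2)) K (fun x => √(a x ^ 2 + b x ^ 2)) K ≤
        qf univ W a G a G + qf univ W b H b H := by
  obtain ⟨an, ha1, ha2, -⟩ := ha.seq hW
  obtain ⟨bn, hb1, hb2, -⟩ := hb.seq hW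
  have hδ : ∀ n : ℕ, (0 : ℝ) < 1 / ((n : ℝ) + 1) := fun n => by positivity
  have h1 := ha.mu
  have h2 := hb.mu
  refine InF.lsc hW (fun n => (OSqrt_cc1 (hδ n) (ha1 n) (hb1 n)).inF)
    (fun n => OSqrt_qf hW (hδ n) (ha1 n) (hb1 n))
    ((tendsto_qf hW ha ha (fun n => (ha1 n).inF) (fun n => (ha1 n).inF) ha2 ha2).1.add
      (tendsto_qf hW hb hb (fun n => (hb1 n).inF) (fun n => (hb1 n).inF) hb2 hb2).1)
    (by fun_prop) ?_
  have h3 := ENNReal.Tendsto.const_mul (a := 2) ((ha2.add hb2).add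
    (OSqrt_dom hW ha hb (fun n => (hδ n).le) tendsto_one_div_add_atTop_nhds_zero_nat))
    (Or.inr ENNReal.ofNat_ne_top)
  rw [add_zero, add_zero, mul_zero] at h3
  refine tendsto_of_tendsto_of_tendsto_of_le_of_le tendsto_const_nhds h3 (fun _ => zero_le)
    fun n => ?_
  have h4 : Measurable (an n) := (ha1 n).1.continuous.measurable
  have h5 : Measurable (bn n) := (hb1 n).1.continuous.measurable
  refine le_trans ?_ (mul_le_mul_right (add_le_add_left (add_le_add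
    (OSqrt_l2 hW (an n) (gradient (an n))) (OSqrt_l2 hW (bn n) (gradient (bn n)))) _) 2)
  rw [← lintegral_add_left (by fun_prop), ← lintegral_add_left (by fun_prop),
    ← lintegral_const_mul' _ _ ENNReal.ofNat_ne_top]
  refine lintegral_mono fun x => ?_
  rw [← ENNReal.ofReal_add (sq_nonneg _) (sq_nonneg _),
    ← ENNReal.ofReal_add (by positivity) (sq_nonneg _), ← ENNReal.ofReal_ofNat 2,
    ← ENNReal.ofReal_mul (by norm_num)]
  refine ENNReal.ofReal_le_ofReal ?_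
  have h6 := OSqrt_lip (1 / ((n : ℝ) + 1)) (an n x) (bn n x) (a x) (b x)
  nlinarith [sq_nonneg (OSqrt_r (1 / ((n : ℝ) + 1)) (an n x) (bn n x) -
    2 * OSqrt_r (1 / ((n : ℝ) + 1)) (a x) (b x) + √(a x ^ 2 + b x ^ 2))]

theorem InF.abs (hW : Pot W) (ha : InF univ W a G) :
    ∃ K, InF univ W (fun x => |a x|) K ∧
      qf univ W (fun x => |a x|) K (fun x => |a x|) K ≤ qf univ W a G a G := by
  have h := InF.sqrt_add hW ha (InF.zero (Ω := univ) (W := W))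
  have h0 : qf univ W (fun _ => 0) (fun _ => 0) (fun _ => 0) (fun _ => 0) = 0 := by simp [qf]
  simpa only [h0, ne_eq, OfNat.ofNat_ne_zero, not_false_eq_true, zero_pow, add_zero,
    Real.sqrt_sq_eq_abs] using h

end Pool.Agent.Lib.MP_8fe63c_mp
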