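import Pool.Agent.Lib.MP_8fe63c_mp.OChain
import Pool.Agent.Lib.MP_8fe63c_mp.OPoin
import Pool.Agent.Lib.MP_8fe63c_mp.OSqrt

/-!
Nonnegative ground states are positive; the ground state is simple.

Sketch of `pos_or_zero`. Fix a cube `Q` and a `Cc1` cutoff `χ` equal to `1` on `Q`. For `δ > 0`
test with `ζ = χ^2 / (u + δ) = χ^2/δ + χ^2 Φ(u)`, where `Φ` is `C^1` with bounded derivative,
`Φ t = 1/(t+δ) - 1/δ` for `t ≥ 0` (`InF.chain`, `InF.mult`). This gives
`∫ χ^2 ‖G‖^2/(u+δ)^2 ≤ 2 ∫ |χ| ‖∇χ‖ ‖G‖/(u+δ) + ∫ (W + |μ|) χ^2`, so `∫_Q ‖G‖^2/(u+δ)^2 ≤ C`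
uniformly in `δ`. The function `L = log (1 + u/δ)` is in the form domain with gradient `G/(u+δ)`.
By `poincare_cube`, `∫_Q∫_Q (L x - L y)^2 ≤ C'`. If both `{u = 0} ∩ Q` and `{u > η} ∩ Q` have positive
measure the left side is at least `c (log (1 + η/δ))^2 → ∞`. Exhaust the space by large cubes.
`simple_ground`: the set of `u` with `qf u = μ ‖u‖^2` is a subspace on which the form
`qf - μ ip` vanishes against every test; it contains `|u|` with `u` (`InF.abs`), hence
`u⁺ = (|u| + u)/2` and `u⁻`.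
-/

set_option linter.unusedSectionVars false

open MeasureTheory Set Filter Topology
open scoped ENNReal InnerProductSpace

namespace Pool.Agent.Lib.MP_8fe63c_mp

variable {W : R3 → ℝ} {μ : ℝ}

/-- chain rule for nonnegative functions -/
theorem OPos_chain (hW : Pot W) {u : R3 → ℝ} {G : R3 → R3} (h : InF univ W u G)
    (h0 : ∀ x, 0 ≤ u x) {φ F : ℝ → ℝ} (hφ : Continuous φ) {L : ℝ} (hL : ∀ t, |φ t| ≤ L)
    (hF : ∀ t, 0 ≤ t → HasDerivAt F (φ t) t) (hF0 : F 0 = 0) :
    InF univ W (fun x => F (u x)) (fun x => φ (u x) • G x) := by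
  have hd : ∀ t, HasDerivAt (fun s => ∫ r in (0 : ℝ)..s, φ r) (φ t) t := fun t =>
    (hφ.integral_hasStrictDerivAt 0 t).hasDerivAt
  have hder : deriv (fun s => ∫ r in (0 : ℝ)..s, φ r) = φ := funext fun t => (hd t).deriv
  have hc : ContDiff ℝ 1 (fun s => ∫ r in (0 : ℝ)..s, φ r) := by
    rw [contDiff_one_iff_deriv]
    exact ⟨fun t => (hd t).differentiableAt, by rw [hder]; exact hφ⟩
  have key := InF.chain hW h hc (by simp) (L := L) (by rw [hder]; exact hL)
  rw [hder] at key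
  have e : (fun x => ∫ r in (0 : ℝ)..(u x), φ r) = fun x => F (u x) := by
    funext x
    rw [intervalIntegral.integral_eq_sub_of_hasDerivAt (f := F) ?_ (hφ.intervalIntegrable _ _),
      hF0, sub_zero]
    intro t ht
    rw [uIcc_of_le (h0 x)] at ht
    exact hF t ht.1
  rw [e] at key
  exact key

theorem OPos_log (hW : Pot W) {u : R3 → ℝ} {G : R3 → R3} (h : InF univ W u G)
    (h0 : ∀ x, 0 ≤ u x) {δ : ℝ} (hδ : 0 < δ) :
    InF univ W (fun x => Real.log (u x + δ) - Real.log δ) (fun x => (u x + δ)⁻¹ • G x) := by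
  have hne : ∀ t : ℝ, |t| + δ ≠ 0 := fun t => by positivity
  have key := OPos_chain hW h h0 (φ := fun t => (|t| + δ)⁻¹)
    (F := fun t => Real.log (t + δ) - Real.log δ)
    ((continuous_abs.add continuous_const).inv₀ hne) (L := δ⁻¹) ?_ ?_ (by simp)
  · have e : (fun x => (|u x| + δ)⁻¹ • G x) = fun x => (u x + δ)⁻¹ • G x := by
      funext x; rw [abs_of_nonneg (h0 x)]
    rw [e] at key
    exact key
  · intro t
    rw [abs_of_nonneg (by positivity)]
    exact inv_anti₀ hδ (by linarith [abs_nonneg t])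
  · intro t ht
    have h1 : HasDerivAt (fun s : ℝ => s + δ) 1 t := (hasDerivAt_id t).add_const δ
    have h2 := (h1.log (by positivity : t + δ ≠ 0)).sub_const (Real.log δ)
    rw [abs_of_nonneg ht]
    simpa using h2

theorem OPos_inv (hW : Pot W) {u : R3 → ℝ} {G : R3 → R3} (h : InF univ W u G)
    (h0 : ∀ x, 0 ≤ u x) {δ : ℝ} (hδ : 0 < δ) :
    InF univ W (fun x => (u x + δ)⁻¹ - δ⁻¹) (fun x => (-((u x + δ) ^ 2)⁻¹) • G x) := by
  have hne : ∀ t : ℝ, (|t| + δ) ^ 2 ≠ 0 := fun t => by positivity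
  have key := OPos_chain hW h h0 (φ := fun t => -((|t| + δ) ^ 2)⁻¹)
    (F := fun t => (t + δ)⁻¹ - δ⁻¹)
    (((continuous_abs.add continuous_const).pow 2).inv₀ hne).neg (L := (δ ^ 2)⁻¹) ?_ ?_ (by simp)
  · have e : (fun x => (-((|u x| + δ) ^ 2)⁻¹) • G x) = fun x => (-((u x + δ) ^ 2)⁻¹) • G x := by
      funext x; rw [abs_of_nonneg (h0 x)]
    rw [e] at key
    exact key
  · intro t
    rw [abs_neg, abs_of_nonneg (by positivity)]
    exact inv_anti₀ (by positivity) (pow_le_pow_left₀ hδ.le (by linarith [abs_nonneg t]) 2)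
  · intro t ht
    have h1 : HasDerivAt (fun s : ℝ => s + δ) 1 t := (hasDerivAt_id t).add_const δ
    have h2 := (h1.fun_inv (by positivity : t + δ ≠ 0)).sub_const δ⁻¹
    rw [neg_div, one_div] at h2
    rw [abs_of_nonneg ht]
    exact h2

/-- the test function `χ^2 / (u + δ)` -/
theorem OPos_test (hW : Pot W) {u : R3 → ℝ} {G : R3 → R3} (h : InF univ W u G)
    (h0 : ∀ x, 0 ≤ u x) {δ : ℝ} (hδ : 0 < δ) {χ : R3 → ℝ} (hχ : Cc1 χ) :
    InF univ W (fun x => χ x * χ x * (u x + δ)⁻¹)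
      (fun x => (-(χ x * χ x) * ((u x + δ) ^ 2)⁻¹) • G x +
        (2 * χ x * (u x + δ)⁻¹) • gradient χ x) := by
  have h1 := ((OPos_inv hW h h0 hδ).mult hW hχ.cb1).add hW ((hχ.inF (Ω := univ) (W := W)).smul hW δ⁻¹)
  have h2 := h1.mult hW hχ.cb1
  convert h2 using 1
  · funext x; ring
  · funext x
    simp only [smul_add, smul_smul]
    rw [add_assoc, add_assoc, ← add_smul, ← add_smul]
    congr 1
    · congr 1; ring
    · congr 1; ring

theorem OPos_grad_bound (hW : Pot W) {u : R3 → ℝ} {G : R3 → R3} (h : InF univ W u G)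
    (h0 : ∀ x, 0 ≤ u x)
    (he : ∀ v H, InF univ W v H → qf univ W u G v H = μ * ip univ u v) {Q : Set R3}
    (hQ : MeasurableSet Q) {χ : R3 → ℝ} (hχ : Cc1 χ) (h1 : ∀ x ∈ Q, χ x = 1) :
    ∃ C : ℝ, ∀ δ : ℝ, 0 < δ → ∫ x in Q, ‖(u x + δ)⁻¹ • G x‖ ^ 2 ≤ C := by
  have hc := hχ.inF (Ω := univ) (W := W)
  have i1 := hc.integrable_inner hW hc
  have i2 := hc.integrable_W hW hc
  have i3 := hc.integrable_mul hW hc
  rw [integrableOn_univ] at i1 i2 i3
  have iB : Integrable (fun x => 2 * ⟪gradient χ x, gradient χ x⟫_ℝ + W x * χ x * χ x +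
      |μ| * (χ x * χ x)) := ((i1.const_mul 2).add i2).add (i3.const_mul _)
  refine ⟨2 * ∫ x, (2 * ⟪gradient χ x, gradient χ x⟫_ℝ + W x * χ x * χ x + |μ| * (χ x * χ x)),
    fun δ hδ => ?_⟩
  have ht := OPos_test hW h h0 hδ hχ
  have j1 := h.integrable_inner hW ht
  have j2 := h.integrable_W hW ht
  have j3 := h.integrable_mul hW ht
  rw [integrableOn_univ] at j1 j2 j3
  have hE := he _ _ ht
  unfold qf ip at hE
  have j12 : Integrable (fun x => ⟪G x, (-(χ x * χ x) * ((u x + δ) ^ 2)⁻¹) • G x +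
      (2 * χ x * (u x + δ)⁻¹) • gradient χ x⟫_ℝ + W x * u x * (χ x * χ x * (u x + δ)⁻¹)) :=
    j1.add j2
  beta_reduce at hE
  rw [Measure.restrict_univ, ← integral_const_mul, ← sub_eq_zero,
    ← integral_sub j12 (j3.const_mul μ)] at hE
  have hA0 : Integrable (fun x => ‖(u x + δ)⁻¹ • G x‖ ^ 2) := by
    have := (OPos_log hW h h0 hδ).memLp_G hW
    rw [Measure.restrict_univ] at this
    exact (memLp_two_iff_integrable_sq_norm this.1).1 this
  have hA : Integrable (Q.indicator fun x => ‖(u x + δ)⁻¹ • G x‖ ^ 2) := hA0.indicator hQ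
  rw [← integral_indicator hQ]
  have hle := integral_mono (j12.sub (j3.const_mul μ)) (iB.sub (hA.const_mul (1 / 2))) ?_
  · simp only [Pi.sub_apply] at hle
    rw [hE, integral_sub iB (hA.const_mul (1 / 2)), integral_const_mul] at hle
    linarith
  · intro x
    simp only [Pi.sub_apply]
    have hp : 0 < u x + δ := by linarith [h0 x]
    set r := (u x + δ)⁻¹ with hr
    have hr0 : 0 < r := inv_pos.2 hp
    have hur : u x * r ≤ 1 := by
      rw [hr, ← div_eq_mul_inv, div_le_one hp]; linarith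
    have hur0 : 0 ≤ u x * r := mul_nonneg (h0 x) hr0.le
    have hind : Q.indicator (fun x => ‖(u x + δ)⁻¹ • G x‖ ^ 2) x ≤
        χ x * χ x * r ^ 2 * ‖G x‖ ^ 2 := by
      by_cases hx : x ∈ Q
      · rw [indicator_of_mem hx, h1 x hx, norm_smul, mul_pow, Real.norm_eq_abs, sq_abs]
        simp [hr]
      · rw [indicator_of_notMem hx]
        have := mul_self_nonneg (χ x)
        positivity
    rw [← inv_pow, ← hr, inner_add_right, inner_smul_right, inner_smul_right,
      real_inner_self_eq_norm_sq, real_inner_self_eq_norm_sq]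
    have hcs : χ x * r * ⟪G x, gradient χ x⟫_ℝ ≤ (|χ x| * r * ‖G x‖) * ‖gradient χ x‖ := by
      have a1 := abs_real_inner_le_norm (G x) (gradient χ x)
      calc χ x * r * ⟪G x, gradient χ x⟫_ℝ ≤ |χ x * r * ⟪G x, gradient χ x⟫_ℝ| := le_abs_self _
        _ = |χ x| * r * |⟪G x, gradient χ x⟫_ℝ| := by rw [abs_mul, abs_mul, abs_of_pos hr0]
        _ ≤ |χ x| * r * (‖G x‖ * ‖gradient χ x‖) := by gcongr
        _ = _ := by ring
    have hsq : (|χ x| * r * ‖G x‖) ^ 2 = χ x * χ x * r ^ 2 * ‖G x‖ ^ 2 := by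
      rw [mul_pow, mul_pow, sq_abs]; ring
    have hW1 : W x * u x * (χ x * χ x * r) ≤ W x * χ x * χ x := by
      have a : 0 ≤ W x * (χ x * χ x) := mul_nonneg (hW.nonneg x) (mul_self_nonneg _)
      calc W x * u x * (χ x * χ x * r) = W x * (χ x * χ x) * (u x * r) := by ring
        _ ≤ W x * (χ x * χ x) * 1 := by gcongr
        _ = _ := by ring
    have hμ1 : -(μ * (u x * (χ x * χ x * r))) ≤ |μ| * (χ x * χ x) := by
      have a : 0 ≤ χ x * χ x := mul_self_nonneg _
      calc -(μ * (u x * (χ x * χ x * r))) = (-μ) * ((χ x * χ x) * (u x * r)) := by ring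
        _ ≤ |μ| * ((χ x * χ x) * (u x * r)) := by gcongr; exact neg_le_abs μ
        _ ≤ |μ| * ((χ x * χ x) * 1) := by gcongr
        _ = _ := by ring
    nlinarith [sq_nonneg (|χ x| * r * ‖G x‖ - 2 * ‖gradient χ x‖)]

theorem OPos_cutoff (y : R3) (R : ℝ) (hR : 0 < R) :
    ∃ χ : R3 → ℝ, Cc1 χ ∧ ∀ x, ‖x - y‖ ≤ R → χ x = 1 := by
  let f : ContDiffBump y := ⟨R, R + 1, hR, by linarith⟩
  refine ⟨f, ⟨f.contDiff, f.hasCompactSupport⟩, fun x hx => f.one_of_mem_closedBall ?_⟩
  rw [Metric.mem_closedBall, dist_eq_norm]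
  exact hx

/-- lower bound for the variance -/
theorem OPos_var {ν : Measure R3} [IsFiniteMeasure ν] {f : R3 → ℝ} (hf : MemLp f 2 ν) {V : ℝ}
    (hV : 0 < V) (hν : ν.real univ = V) {Z P : Set R3} {lam : ℝ} (hlam : 0 ≤ lam)
    (hZ : ∀ x ∈ Z, f x = 0) (hP : ∀ x ∈ P, lam ≤ f x) :
    lam ^ 2 / 4 * min (ν.real Z) (ν.real P) ≤ (∫ x, f x ^ 2 ∂ν) - (∫ x, f x ∂ν) ^ 2 / V := by
  set m := (∫ x, f x ∂ν) / V with hm
  have i1 : Integrable f ν := hf.integrable (by norm_num)
  have i2 : Integrable (fun x => f x ^ 2) ν := hf.integrable_sq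
  have e1 : (fun x => (f x - m) ^ 2) = fun x => (f x ^ 2 - 2 * m * f x) + m ^ 2 := by
    funext x; ring
  have i3 : Integrable (fun x => (f x - m) ^ 2) ν := by
    rw [e1]; exact (i2.sub (i1.const_mul _)).add (integrable_const _)
  have e2 : ∫ x, (f x - m) ^ 2 ∂ν = (∫ x, f x ^ 2 ∂ν) - (∫ x, f x ∂ν) ^ 2 / V := by
    have i4 : Integrable (fun x => f x ^ 2 - 2 * m * f x) ν := i2.sub (i1.const_mul _)
    rw [e1, integral_add i4 (integrable_const _),
      integral_sub i2 (i1.const_mul _), integral_const_mul, integral_const, hν, smul_eq_mul, hm]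
    field_simp
    ring
  rw [← e2]
  have key := mul_meas_ge_le_integral_of_nonneg (μ := ν) (f := fun x => (f x - m) ^ 2)
    (Eventually.of_forall fun x => sq_nonneg _) i3 (lam ^ 2 / 4)
  refine le_trans ?_ key
  refine mul_le_mul_of_nonneg_left ?_ (by positivity)
  rcases le_total (lam / 2) m with hc | hc
  · refine (min_le_left _ _).trans (measureReal_mono fun x hx => ?_)
    show lam ^ 2 / 4 ≤ (f x - m) ^ 2
    rw [hZ x hx]
    nlinarith
  · refine (min_le_right _ _).trans (measureReal_mono fun x hx => ?_)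
    show lam ^ 2 / 4 ≤ (f x - m) ^ 2
    have := hP x hx
    nlinarith

theorem OPos_cube (hW : Pot W) {u : R3 → ℝ} {G : R3 → R3} (h : InF univ W u G)
    (h0 : ∀ x, 0 ≤ u x)
    (he : ∀ v H, InF univ W v H → qf univ W u G v H = μ * ip univ u v) (c : R3) {l η : ℝ}
    (hl : 0 < l) (hη : 0 < η) (hZ : volume ({x | u x = 0} ∩ cube c l) ≠ 0)
    (hP : volume ({x | η < u x} ∩ cube c l) ≠ 0) : False := by
  have hQ : MeasurableSet (cube c l) := (isOpen_cube c l).measurableSet
  obtain ⟨y, -, hy⟩ := nonempty_of_measure_ne_zero hZ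
  obtain ⟨χ, hχ, h1⟩ := OPos_cutoff y (2 * l) (by positivity)
  obtain ⟨C, hC⟩ := OPos_grad_bound hW h h0 he hQ hχ (fun x hx => h1 x (by
    have := cube_dist hx hy
    nlinarith [norm_nonneg (x - y)]))
  have hfin : volume (cube c l) ≠ ⊤ := by rw [volume_cube c hl.le]; exact ENNReal.ofReal_ne_top
  have : IsFiniteMeasure (volume.restrict (cube c l)) := isFiniteMeasure_restrict.2 hfin
  have hν : (volume.restrict (cube c l)).real univ = l ^ 3 := by
    rw [measureReal_def, Measure.restrict_apply_univ, volume_cube c hl.le,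
      ENNReal.toReal_ofReal (by positivity)]
  set a := min ((volume.restrict (cube c l)).real {x | u x = 0})
    ((volume.restrict (cube c l)).real {x | η < u x}) with ha
  have ha0 : 0 < a := by
    refine lt_min ?_ ?_
    · rw [measureReal_def]
      refine ENNReal.toReal_pos ?_ (measure_ne_top _ _)
      rwa [Measure.restrict_apply' hQ]
    · rw [measureReal_def]
      refine ENNReal.toReal_pos ?_ (measure_ne_top _ _)
      rwa [Measure.restrict_apply' hQ]
  have main : ∀ T : ℝ, 0 ≤ T → T ^ 2 / 4 * a ≤ 12 * l ^ 2 * C := by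
    intro T hT
    have hδ : 0 < η * Real.exp (-T) := by positivity
    have hL := OPos_log hW h h0 hδ
    have p1 := poincare_cube hW hL hl (subset_univ (cube c l))
    have p2 := OPos_var (ν := volume.restrict (cube c l))
      ((hL.restrict (subset_univ (cube c l))).memLp_u hW) (V := l ^ 3) (by positivity) hν
      (Z := {x | u x = 0}) (P := {x | η < u x}) hT (fun x hx => by
        have : u x = 0 := hx
        simp [this]) (fun x hx => by
        have hx' : η < u x := hx
        rw [Real.log_mul hη.ne' (Real.exp_pos _).ne', Real.log_exp]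
        have : Real.log η ≤ Real.log (u x + η * Real.exp (-T)) :=
          Real.log_le_log hη (by linarith)
        linarith)
    have p3 := hC _ hδ
    calc T ^ 2 / 4 * a ≤ _ := p2
      _ ≤ _ := p1
      _ ≤ 12 * l ^ 2 * C := by gcongr
  have hT : 0 ≤ 4 * |12 * l ^ 2 * C| / a + 1 := by positivity
  have m1 := main _ hT
  have m2 : 4 * |12 * l ^ 2 * C| / a + 1 ≤ (4 * |12 * l ^ 2 * C| / a + 1) ^ 2 := by
    have : 0 ≤ 4 * |12 * l ^ 2 * C| / a := by positivity
    nlinarith
  have m3 : (4 * |12 * l ^ 2 * C| / a + 1) / 4 * a = |12 * l ^ 2 * C| + a / 4 := by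
    field_simp
  have m4 : (4 * |12 * l ^ 2 * C| / a + 1) / 4 * a ≤ (4 * |12 * l ^ 2 * C| / a + 1) ^ 2 / 4 * a := by
    gcongr
  linarith [le_abs_self (12 * l ^ 2 * C)]

/-- the centred cube of half side `n + 1` -/
noncomputable def OPos_Q (n : ℕ) : Set R3 :=
  cube (WithLp.toLp 2 fun _ => -((n : ℝ) + 1)) (2 * ((n : ℝ) + 1))

theorem OPos_Q_mono {n m : ℕ} (h : n ≤ m) : OPos_Q n ⊆ OPos_Q m := by
  intro x hx k
  have h1 := hx k
  have h2 : (n : ℝ) ≤ m := Nat.cast_le.2 h
  simp only at h1 ⊢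
  constructor <;> linarith [h1.1, h1.2]

theorem OPos_Q_mem (x : R3) {n : ℕ} (h : ‖x‖ ≤ n) : x ∈ OPos_Q n := by
  intro k
  have h1 : |x k| ≤ ‖x‖ := by simpa using PiLp.norm_apply_le x k
  have h2 := abs_le.1 h1
  simp only
  constructor <;> linarith [h2.1, h2.2]

theorem pos_or_zero (hW : Pot W) {u : R3 → ℝ} {G : R3 → R3} (h : InF univ W u G)
    (h0 : ∀ x, 0 ≤ u x)
    (he : ∀ v H, InF univ W v H → qf univ W u G v H = μ * ip univ u v) :
    (∀ᵐ x, u x = 0) ∨ ∀ᵐ x, 0 < u x := by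
  by_contra hcon
  rw [not_or, ae_iff, ae_iff] at hcon
  obtain ⟨c1, c2⟩ := hcon
  have d1 : ∃ n : ℕ, volume ({x | 1 / ((n : ℝ) + 1) < u x} ∩ OPos_Q n) ≠ 0 := by
    by_contra hn
    push Not at hn
    refine c1 (measure_mono_null (fun x hx => ?_) (measure_iUnion_null hn))
    have hx' : 0 < u x := lt_of_le_of_ne (h0 x) (Ne.symm hx)
    obtain ⟨n₁, hn₁⟩ := exists_nat_one_div_lt hx'
    obtain ⟨n₂, hn₂⟩ := exists_nat_ge ‖x‖
    refine mem_iUnion.2 ⟨max n₁ n₂, ?_, OPos_Q_mono (le_max_right _ _) (OPos_Q_mem x hn₂)⟩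
    refine lt_of_le_of_lt ?_ hn₁
    exact Nat.one_div_le_one_div (le_max_left _ _)
  have d2 : ∃ n : ℕ, volume ({x | u x = 0} ∩ OPos_Q n) ≠ 0 := by
    by_contra hn
    push Not at hn
    refine c2 (measure_mono_null (fun x hx => ?_) (measure_iUnion_null hn))
    obtain ⟨n₂, hn₂⟩ := exists_nat_ge ‖x‖
    exact mem_iUnion.2 ⟨n₂, le_antisymm (not_lt.1 hx) (h0 x), OPos_Q_mem x hn₂⟩
  obtain ⟨n₁, d1⟩ := d1
  obtain ⟨n₂, d2⟩ := d2
  refine OPos_cube hW h h0 he (WithLp.toLp 2 fun _ => -(((max n₁ n₂ : ℕ) : ℝ) + 1))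
    (l := 2 * (((max n₁ n₂ : ℕ) : ℝ) + 1)) (η := 1 / ((n₁ : ℝ) + 1)) (by positivity)
    (by positivity) (fun hz => d2 (measure_mono_null ?_ hz)) (fun hz => d1 (measure_mono_null ?_ hz))
  · exact inter_subset_inter_right _ (OPos_Q_mono (le_max_right _ _))
  · exact inter_subset_inter_right _ (OPos_Q_mono (le_max_left _ _))

theorem OPos_ip_lin (hW : Pot W) {u v w : R3 → ℝ} {G H K : R3 → R3} (h : InF univ W u G)
    (h' : InF univ W v H) (h'' : InF univ W w K) (a b : ℝ) :
    ip univ (fun x => a * u x + b * v x) w = a * ip univ u w + b * ip univ v w := by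
  unfold ip
  have i1 : Integrable _ _ := h.integrable_mul hW h''
  have i2 : Integrable _ _ := h'.integrable_mul hW h''
  rw [← integral_const_mul, ← integral_const_mul, ← integral_add (i1.const_mul a) (i2.const_mul b)]
  congr 1
  funext x
  ring

/-- minimisers satisfy the eigenvalue equation -/
theorem OPos_eig (hW : Pot W) (hmin : ∀ u G, InF univ W u G → μ * ip univ u u ≤ qf univ W u G u G)
    {u : R3 → ℝ} {G : R3 → R3} (h : InF univ W u G) (hu : qf univ W u G u G = μ * ip univ u u)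
    (v : R3 → ℝ) (H : R3 → R3) (hv : InF univ W v H) : qf univ W u G v H = μ * ip univ u v := by
  have quad : ∀ t : ℝ, 0 ≤ 2 * t * (qf univ W u G v H - μ * ip univ u v) +
      t ^ 2 * (qf univ W v H v H - μ * ip univ v v) := by
    intro t
    have hw := (h.smul hW 1).add hW (hv.smul hW t)
    have k := hmin _ _ hw
    rw [qf_lin hW h hv hw, OPos_ip_lin hW h hv hw, qf_comm (u := u), qf_comm (u := v),
      ip_comm (u := u), ip_comm (u := v), qf_lin hW h hv h, qf_lin hW h hv hv,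
      OPos_ip_lin hW h hv h, OPos_ip_lin hW h hv hv, hu, qf_comm (u := v) (v := u),
      ip_comm (u := v) (v := u)] at k
    linarith
  set A := qf univ W u G v H - μ * ip univ u v with hA
  set B := qf univ W v H v H - μ * ip univ v v with hB
  have hB0 : 0 ≤ B := sub_nonneg.2 (hmin v H hv)
  have k := quad (-A / (B + 1))
  have e : 2 * (-A / (B + 1)) * A + (-A / (B + 1)) ^ 2 * B = -(A ^ 2 * (B + 2)) / (B + 1) ^ 2 := by
    field_simp
    ring
  rw [e, le_div_iff₀ (by positivity), zero_mul] at k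
  have : A ^ 2 = 0 := by nlinarith [sq_nonneg A]
  have : A = 0 := by simpa using this
  linarith

theorem simple_ground (hW : Pot W) {φ : R3 → ℝ} {gφ : R3 → R3} (hφ : InF univ W φ gφ)
    (h0 : ∀ x, 0 ≤ φ x) (h1 : ip univ φ φ = 1) (hμ : qf univ W φ gφ φ gφ = μ)
    (hmin : ∀ u G, InF univ W u G → μ * ip univ u u ≤ qf univ W u G u G)
    {u : R3 → ℝ} {G : R3 → R3} (h : InF univ W u G) (hu : qf univ W u G u G = μ * ip univ u u)
    (horth : ip univ φ u = 0) : u =ᵐ[volume.restrict univ] fun _ => 0 := by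
  rw [Measure.restrict_univ]
  have hφpos : ∀ᵐ x, 0 < φ x := by
    rcases pos_or_zero hW hφ h0 (OPos_eig hW hmin hφ (by rw [hμ, h1, mul_one])) with hz | hz
    · exfalso
      have : ip univ φ φ = 0 := by
        unfold ip
        rw [Measure.restrict_univ]
        refine integral_eq_zero_of_ae ?_
        filter_upwards [hz] with x hx
        simp [hx]
      linarith
    · exact hz
  obtain ⟨K, hK, hKle⟩ := h.abs hW
  have e1 : ip univ (fun x => |u x|) (fun x => |u x|) = ip univ u u := by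
    unfold ip
    simp only [abs_mul_abs_self]
  have hKeq : qf univ W (fun x => |u x|) K (fun x => |u x|) K =
      μ * ip univ (fun x => |u x|) (fun x => |u x|) :=
    le_antisymm (by rw [e1, ← hu]; exact hKle) (hmin _ _ hK)
  have hp := (hK.smul hW 1).add hW (h.smul hW 1)
  have hsign := pos_or_zero (μ := μ) hW hp (fun x => by linarith [neg_abs_le (u x)])
    (fun v H hv => by
      rw [qf_lin hW hK h hv, OPos_ip_lin hW hK h hv, OPos_eig hW hmin hK hKeq v H hv,
        OPos_eig hW hmin h hu v H hv]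
      ring)
  have hi : Integrable (fun x => φ x * u x) := by
    have := hφ.integrable_mul hW h
    rwa [integrableOn_univ] at this
  unfold ip at horth
  rw [Measure.restrict_univ] at horth
  have hz : ∀ᵐ x, φ x * u x = 0 := by
    rcases hsign with hs | hs
    · have hn : 0 ≤ᵐ[volume] fun x => -(φ x * u x) := by
        filter_upwards [hs] with x hx
        have : u x ≤ 0 := by linarith [abs_nonneg (u x)]
        exact neg_nonneg.2 (mul_nonpos_of_nonneg_of_nonpos (h0 x) this)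
      have := (integral_eq_zero_iff_of_nonneg_ae hn hi.neg).1 (by rw [integral_neg, horth, neg_zero])
      filter_upwards [this] with x hx
      simpa using hx
    · have hn : 0 ≤ᵐ[volume] fun x => φ x * u x := by
        filter_upwards [hs] with x hx
        have : 0 ≤ u x := by
          by_contra hneg
          rw [abs_of_neg (not_le.1 hneg)] at hx
          linarith
        exact mul_nonneg (h0 x) this
      exact (integral_eq_zero_iff_of_nonneg_ae hn hi).1 horth
  filter_upwards [hz, hφpos] with x hx hx'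
  exact (mul_eq_zero.1 hx).resolve_left hx'.ne'

end Pool.Agent.Lib.MP_8fe63c_mp
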