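import Pool.Agent.Lib.MP_8fe63c_mp.OSob

/-!
Boundedness of (sub)solutions: De Giorgi-Stampacchia iteration.

Sketch. It is enough to bound `u` from above (apply the result to `-u`, replacing `Φ t` by
`-Φ (-t)`). Fix `k > 0`. For `δ > 0` let `Ψ t = √(((t-k)⁺)^2 + δ^2) - δ` (it is `C^1`, `0 ≤ Ψ' ≤ 1`) and
`Φ t = ∫_0^t Ψ'^2`, so `0 ≤ Φ t ≤ (t-k)⁺`. By `InF.chain` and `sobolev6`,
`‖Ψ(u)‖_6^2 ≤ C ∫ Ψ'(u)^2 ‖G‖^2 ≤ C ν ∫ u Φ(u) ≤ C ν ∫ u (u-k)⁺`; Fatou gives, with `w = (u-k)⁺`,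
`A k = {u > k}`: `‖w‖_6^2 ≤ C ν (∫ w^2 + k ∫ w) ≤ C ν (‖w‖_6^2 |A k|^(2/3) + k ‖w‖_6 |A k|^(5/6))`.
For `k ≥ k₀` (Chebyshev makes `|A k|` small) `‖w‖_6 ≤ 2 C ν k |A k|^(5/6)`, hence for `h > k`
`|A h| ≤ (2 C ν k/(h-k))^6 |A k|^5`. With `k j = k₀ (2 - 2^(-j))` one gets
`|A (k (j+1))| ≤ D 64^j |A (k j)|^5`, and `|A (k j)| ≤ ε 4^(-j)` by induction if `ε = |A k₀|` is small.
-/

set_option linter.unusedSectionVars false

open MeasureTheory Set Filter Topology
open scoped ENNReal InnerProductSpace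

namespace Pool.Agent.Lib.MP_8fe63c_mp

theorem OStamp_prim {θ : ℝ → ℝ} (hθ : Continuous θ) :
    ContDiff ℝ 1 (fun t => ∫ s in (0 : ℝ)..t, θ s) ∧ deriv (fun t => ∫ s in (0 : ℝ)..t, θ s) = θ := by
  have h2 : deriv (fun t => ∫ s in (0 : ℝ)..t, θ s) = θ := by
    funext t
    exact hθ.deriv_integral θ 0 t
  refine ⟨contDiff_one_iff_deriv.2 ⟨fun t => ?_, by rw [h2]; exact hθ⟩, h2⟩
  exact (hθ.integral_hasStrictDerivAt 0 t).hasDerivAt.differentiableAt

theorem OStamp_pair {k h : ℝ} (hk : 0 < k) (hkh : k < h) :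
    ∃ Ψ Φ : ℝ → ℝ, ContDiff ℝ 1 Ψ ∧ ContDiff ℝ 1 Φ ∧ Ψ 0 = 0 ∧ Φ 0 = 0 ∧
      (∀ t, 0 ≤ deriv Ψ t ∧ deriv Ψ t ≤ 1) ∧ (∀ t, deriv Φ t = deriv Ψ t ^ 2) ∧
      (∀ t, h ≤ t → t - h ≤ Ψ t) ∧ ∀ t, t * Φ t ≤ t * max (t - k) 0 := by
  set θ : ℝ → ℝ := fun t => max 0 (min 1 ((t - k) / (h - k))) with hθ
  have c : Continuous θ := by
    rw [hθ]; fun_prop
  have c2 : Continuous fun t => θ t ^ 2 := c.pow 2
  have t0 : ∀ t, 0 ≤ θ t := fun t => le_max_left _ _
  have t1 : ∀ t, θ t ≤ 1 := fun t => max_le zero_le_one (min_le_left _ _)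
  have tk : ∀ t, t ≤ k → θ t = 0 := fun t ht =>
    max_eq_left ((min_le_right _ _).trans (div_nonpos_of_nonpos_of_nonneg (by linarith) (by linarith)))
  have th : ∀ t, h ≤ t → θ t = 1 := by
    intro t ht
    have : 1 ≤ (t - k) / (h - k) := by
      rw [le_div_iff₀ (by linarith)]; linarith
    simp only [hθ, min_eq_left this, max_eq_right zero_le_one]
  obtain ⟨a1, a2⟩ := OStamp_prim c
  obtain ⟨b1, b2⟩ := OStamp_prim c2
  have z : ∀ t, t ≤ k → ∫ s in (0 : ℝ)..t, θ s ^ 2 = 0 := by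
    intro t ht
    rw [intervalIntegral.integral_congr (g := fun _ => (0 : ℝ))]
    · simp
    · intro s hs
      have : s ≤ k := hs.2.trans (max_le hk.le ht)
      simp [tk s this]
  refine ⟨_, _, a1, b1, by simp, by simp, fun t => by rw [a2]; exact ⟨t0 t, t1 t⟩,
    fun t => by rw [a2, b2], fun t ht => ?_, fun t => ?_⟩
  · rw [← intervalIntegral.integral_add_adjacent_intervals (b := h) (c.intervalIntegrable _ _)
      (c.intervalIntegrable _ _)]
    have e1 : 0 ≤ ∫ s in (0 : ℝ)..h, θ s :=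
      intervalIntegral.integral_nonneg (by linarith) (fun s _ => t0 s)
    have e2 : ∫ s in h..t, θ s = t - h := by
      rw [intervalIntegral.integral_congr (g := fun _ => (1 : ℝ))]
      · simp
      · intro s hs
        rw [uIcc_of_le ht] at hs
        exact th s hs.1
    linarith
  · rcases le_total t k with ht | ht
    · rw [z t ht, max_eq_right (by linarith)]
    · rw [max_eq_left (by linarith)]
      refine mul_le_mul_of_nonneg_left ?_ (by linarith)
      rw [← intervalIntegral.integral_add_adjacent_intervals (b := k) (c2.intervalIntegrable _ _)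
        (c2.intervalIntegrable _ _), z k le_rfl, zero_add]
      have := intervalIntegral.integral_mono_on (μ := volume) (g := fun _ => (1 : ℝ)) ht
        (c2.intervalIntegrable _ _) (continuous_const.intervalIntegrable _ _)
        (fun s _ => by nlinarith [t0 s, t1 s])
      simpa using this

theorem OStamp_nonneg {k : ℝ} (hk : 0 < k) (t : ℝ) : 0 ≤ t * max (t - k) 0 := by
  rcases le_total t k with ht | ht
  · rw [max_eq_right (by linarith), mul_zero]
  · exact mul_nonneg (by linarith) (le_max_right _ _)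

theorem OStamp_le_sq {k : ℝ} (hk : 0 < k) (t : ℝ) : t * max (t - k) 0 ≤ t * t := by
  rcases le_total t k with ht | ht
  · rw [max_eq_right (by linarith), mul_zero]
    exact mul_self_nonneg t
  · rw [max_eq_left (by linarith)]
    nlinarith

theorem OStamp_int {W : R3 → ℝ} (hW : Pot W) {u : R3 → ℝ} {G : R3 → R3} (h : InF univ W u G)
    {k : ℝ} (hk : 0 < k) : Integrable fun x => u x * max (u x - k) 0 := by
  have i := h.integrable_mul hW h
  rw [integrableOn_univ] at i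
  have m := h.mu
  refine i.mono' (Measurable.aestronglyMeasurable (by fun_prop)) (ae_of_all _ fun x => ?_)
  rw [Real.norm_of_nonneg (OStamp_nonneg hk _)]
  exact OStamp_le_sq hk _

theorem OStamp_step : ∃ C : ℝ, 1 ≤ C ∧ ∀ {W : R3 → ℝ}, Pot W → ∀ {u : R3 → ℝ} {G : R3 → R3},
    InF univ W u G → ∀ {ν : ℝ}, 0 ≤ ν →
    (∀ Φ : ℝ → ℝ, ContDiff ℝ 1 Φ → Φ 0 = 0 → (∀ t, 0 ≤ deriv Φ t ∧ deriv Φ t ≤ 1) →
      ∫ x, deriv Φ (u x) * ‖G x‖ ^ 2 ≤ ν * ∫ x, u x * Φ (u x)) →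
    ∀ k d : ℝ, 0 < k → 0 < d → d ^ 5 * ∫ x, u x * max (u x - (k + 2 * d)) 0 ≤
      (k + 2 * d) * (C * (ν * ∫ x, u x * max (u x - k) 0) ^ 3) := by
  obtain ⟨C, C1, hC⟩ := sobolev6
  refine ⟨C, C1, fun {W} hW {u G} h {ν} hν hs k d hk hd => ?_⟩
  obtain ⟨Ψ, Φ, c1, c2, z1, z2, d1, d2, l1, l2⟩ := OStamp_pair hk (show k < k + d by linarith)
  have d3 : ∀ t, 0 ≤ deriv Φ t ∧ deriv Φ t ≤ 1 := fun t => by
    rw [d2]
    exact ⟨sq_nonneg _, by nlinarith [(d1 t).1, (d1 t).2]⟩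
  have f1 := h.chain hW c1 z1 (L := 1) (fun t => by rw [abs_of_nonneg (d1 t).1]; exact (d1 t).2)
  have f2 := h.chain hW c2 z2 (L := 1) (fun t => by rw [abs_of_nonneg (d3 t).1]; exact (d3 t).2)
  obtain ⟨i6, s6⟩ := hC W _ _ hW f1
  have e1 : ∫ x, ‖deriv Ψ (u x) • G x‖ ^ 2 = ∫ x, deriv Φ (u x) * ‖G x‖ ^ 2 := by
    refine integral_congr_ae (ae_of_all _ fun x => ?_)
    simp only [norm_smul, mul_pow, d2, Real.norm_eq_abs, sq_abs]
  have i2 := h.integrable_mul hW f2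
  rw [integrableOn_univ] at i2
  have e2 : ∫ x, u x * Φ (u x) ≤ ∫ x, u x * max (u x - k) 0 :=
    integral_mono i2 (OStamp_int hW h hk) (fun x => l2 _)
  have e3 : ∫ x, ‖deriv Ψ (u x) • G x‖ ^ 2 ≤ ν * ∫ x, u x * max (u x - k) 0 := by
    rw [e1]
    exact (hs Φ c2 z2 d3).trans (mul_le_mul_of_nonneg_left e2 hν)
  have e4 := pow_le_pow_left₀ (integral_nonneg (fun x => sq_nonneg _)) e3 3
  have e5 : d ^ 5 * ∫ x, u x * max (u x - (k + 2 * d)) 0 ≤ (k + 2 * d) * ∫ x, Ψ (u x) ^ 6 := by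
    rw [← integral_const_mul, ← integral_const_mul]
    refine integral_mono ((OStamp_int hW h (by linarith)).const_mul _) (i6.const_mul _) (fun x => ?_)
    have p6 : 0 ≤ Ψ (u x) ^ 6 := by positivity
    rcases le_total (u x) (k + 2 * d) with ht | ht
    · simp only [max_eq_right (sub_nonpos.2 ht), mul_zero]
      positivity
    · simp only [max_eq_left (sub_nonneg.2 ht)]
      have a0 := l1 (u x) (by linarith)
      set y := u x - (k + d) with hy
      have a1 : d ≤ y := by linarith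
      have a2 : d * u x ≤ (k + 2 * d) * y := by nlinarith
      have a3 : d ^ 4 ≤ y ^ 4 := pow_le_pow_left₀ hd.le a1 4
      have a4 : y ^ 6 ≤ Ψ (u x) ^ 6 := pow_le_pow_left₀ (by linarith) a0 6
      have a5 : u x - (k + 2 * d) ≤ y := by linarith
      have y0 : 0 ≤ y := by linarith
      calc d ^ 5 * (u x * (u x - (k + 2 * d))) = d ^ 4 * ((d * u x) * (u x - (k + 2 * d))) := by ring
        _ ≤ y ^ 4 * (((k + 2 * d) * y) * y) := by
          refine mul_le_mul a3 (mul_le_mul a2 a5 (by linarith) (by positivity)) ?_ (by positivity)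
          exact mul_nonneg (mul_nonneg hd.le (by linarith)) (by linarith)
        _ = (k + 2 * d) * y ^ 6 := by ring
        _ ≤ _ := mul_le_mul_of_nonneg_left a4 (by linarith)
  refine e5.trans (mul_le_mul_of_nonneg_left (s6.trans ?_) (by linarith))
  exact mul_le_mul_of_nonneg_left e4 (by linarith)

theorem OStamp_upper {W : R3 → ℝ} (hW : Pot W) {u : R3 → ℝ} {G : R3 → R3} (h : InF univ W u G)
    {ν : ℝ} (hν : 0 ≤ ν)
    (hs : ∀ Φ : ℝ → ℝ, ContDiff ℝ 1 Φ → Φ 0 = 0 → (∀ t, 0 ≤ deriv Φ t ∧ deriv Φ t ≤ 1) →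
      ∫ x, deriv Φ (u x) * ‖G x‖ ^ 2 ≤ ν * ∫ x, u x * Φ (u x)) :
    ∃ M : ℝ, ∀ᵐ x, u x ≤ M := by
  obtain ⟨C, C1, hC⟩ := OStamp_step
  have st := hC hW h hν hs
  set I : ℝ → ℝ := fun k => ∫ x, u x * max (u x - k) 0 with hI
  set E := ∫ x, u x * u x with hE
  have E0 : 0 ≤ E := integral_nonneg (fun x => mul_self_nonneg _)
  have I0 : ∀ k, 0 < k → 0 ≤ I k := fun k hk => integral_nonneg (fun x => OStamp_nonneg hk _)
  have iE := h.integrable_mul hW h
  rw [integrableOn_univ] at iE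
  set K := 1 + 16384 * (C * ν ^ 3 * E ^ 2) with hK
  have A0 : 0 ≤ C * ν ^ 3 * E ^ 2 := by positivity
  have K1 : 1 ≤ K := by linarith
  have K4 : 16384 * (C * ν ^ 3 * E ^ 2) ≤ K ^ 4 := by
    have : K ^ 1 ≤ K ^ 4 := pow_le_pow_right₀ K1 (by norm_num)
    rw [pow_one] at this
    linarith
  have key : ∀ j : ℕ, I (K * (2 - (1 / 2) ^ j)) ≤ E * ((1 / 2) ^ j) ^ 3 := by
    intro j
    induction j with
    | zero =>
      have : K * (2 - (1 / 2 : ℝ) ^ 0) = K := by norm_num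
      rw [this]
      simp only [pow_zero, one_pow, mul_one]
      exact integral_mono (OStamp_int hW h (by linarith)) iE (fun x => OStamp_le_sq (by linarith) _)
    | succ j ih =>
      set q : ℝ := (1 / 2) ^ j with hq
      have q0 : 0 < q := by positivity
      have q1 : q ≤ 1 := pow_le_one₀ (by norm_num) (by norm_num)
      have kp : 0 < K * (2 - q) := mul_pos (by linarith) (by linarith)
      have s1 := st (K * (2 - q)) (K * q / 4) kp (by positivity)
      have e1 : K * (2 - q) + 2 * (K * q / 4) = K * (2 - (1 / 2) ^ (j + 1)) := by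
        rw [pow_succ, ← hq]; ring
      rw [e1] at s1
      have e2 : K * (2 - (1 / 2 : ℝ) ^ (j + 1)) ≤ K * 2 :=
        mul_le_mul_of_nonneg_left (by linarith [pow_pos (show (0 : ℝ) < 1 / 2 by norm_num) (j + 1)])
          (by linarith)
      have e3 : (ν * I (K * (2 - q))) ^ 3 ≤ (ν * (E * q ^ 3)) ^ 3 :=
        pow_le_pow_left₀ (mul_nonneg hν (I0 _ kp)) (mul_le_mul_of_nonneg_left ih hν) 3
      have e4 : (K * q / 4) ^ 5 * I (K * (2 - (1 / 2) ^ (j + 1))) ≤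
          K * 2 * (C * (ν * (E * q ^ 3)) ^ 3) :=
        s1.trans (mul_le_mul e2 (mul_le_mul_of_nonneg_left e3 (by linarith))
          (mul_nonneg (by linarith) (pow_nonneg (mul_nonneg hν (I0 _ kp)) 3)) (by positivity))
      have p5 : 0 < (K * q / 4) ^ 5 := by positivity
      refine le_of_mul_le_mul_left (e4.trans ?_) p5
      rw [pow_succ (1 / 2 : ℝ) j, ← hq]
      have e5 : K * 2 * (C * (ν * (E * q ^ 3)) ^ 3) =
          (K * E * q ^ 8 / 8192) * (16384 * (C * ν ^ 3 * E ^ 2) * q) := by ring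
      have e6 : (K * q / 4) ^ 5 * (E * (q * (1 / 2)) ^ 3) = (K * E * q ^ 8 / 8192) * K ^ 4 := by ring
      rw [e5, e6]
      refine mul_le_mul_of_nonneg_left ?_ (by positivity)
      nlinarith
  have kp2 : 0 < K * 2 := by linarith
  have mono : ∀ j : ℕ, I (K * 2) ≤ E * ((1 / 2) ^ j) ^ 3 := by
    intro j
    refine le_trans ?_ (key j)
    have q0 : (0 : ℝ) < (1 / 2) ^ j := by positivity
    have q1 : (1 / 2 : ℝ) ^ j ≤ 1 := pow_le_one₀ (by norm_num) (by norm_num)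
    have kp : 0 < K * (2 - (1 / 2) ^ j) := mul_pos (by linarith) (by linarith)
    refine integral_mono (OStamp_int hW h kp2) (OStamp_int hW h kp) (fun x => ?_)
    rcases le_total (u x) (K * 2) with ht | ht
    · simp only [max_eq_right (sub_nonpos.2 ht), mul_zero]
      exact OStamp_nonneg kp _
    · exact mul_le_mul_of_nonneg_left (max_le_max (by nlinarith) le_rfl) (by linarith)
  have lim : Tendsto (fun j : ℕ => E * ((1 / 2 : ℝ) ^ j) ^ 3) atTop (𝓝 (E * 0 ^ 3)) :=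
    ((tendsto_pow_atTop_nhds_zero_of_lt_one (by norm_num) (by norm_num)).pow 3).const_mul E
  have z : I (K * 2) = 0 := by
    refine le_antisymm ?_ (I0 _ kp2)
    simpa using ge_of_tendsto' lim mono
  rw [hI] at z
  have z2 := (integral_eq_zero_iff_of_nonneg (fun x => OStamp_nonneg kp2 (u x))
    (OStamp_int hW h kp2)).1 z
  refine ⟨K * 2, z2.mono fun x hx => ?_⟩
  by_contra hc
  push Not at hc
  simp only [Pi.zero_apply, max_eq_left (sub_nonneg.2 hc.le)] at hx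
  nlinarith [mul_pos (kp2.trans hc) (sub_pos.2 hc)]

theorem bdd_of_sub {W : R3 → ℝ} (hW : Pot W) {u : R3 → ℝ} {G : R3 → R3} (h : InF univ W u G)
    {ν : ℝ} (hν : 0 ≤ ν)
    (hs : ∀ Φ : ℝ → ℝ, ContDiff ℝ 1 Φ → Φ 0 = 0 → (∀ t, 0 ≤ deriv Φ t ∧ deriv Φ t ≤ 1) →
      ∫ x, deriv Φ (u x) * ‖G x‖ ^ 2 ≤ ν * ∫ x, u x * Φ (u x)) :
    ∃ M : ℝ, ∀ᵐ x, |u x| ≤ M := by
  obtain ⟨M1, h1⟩ := OStamp_upper hW h hν hs
  obtain ⟨M2, h2⟩ := OStamp_upper hW (h.smul hW (-1)) hν (by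
    intro Φ c z d
    have e : ∀ t, deriv (fun t => -Φ (-t)) t = deriv Φ (-t) := by
      intro t
      rw [deriv.fun_neg, deriv_comp_neg, neg_neg]
    have := hs (fun t => -Φ (-t)) (c.comp contDiff_neg).neg (by simp [z]) (fun t => by
      rw [e]; exact d _)
    simp only [e] at this
    simpa using this)
  refine ⟨max M1 M2, (h1.and h2).mono fun x hx => abs_le.2 ⟨?_, hx.1.trans (le_max_left _ _)⟩⟩
  have := hx.2.trans (le_max_right M1 M2)
  linarith

theorem EB.ae_bdd {W : R3 → ℝ} (hW : Pot W) (B : EB univ W) (a : B.J) :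
    ∃ M : ℝ, ∀ᵐ x, |B.e a x| ≤ M := by
  refine bdd_of_sub hW (B.inF a) (le_max_right (B.ν a) 0) (fun Φ c z d => ?_)
  have f := (B.inF a).chain hW c z (L := 1)
    (fun t => by rw [abs_of_nonneg (d t).1]; exact (d t).2)
  have m : Monotone Φ := monotone_of_deriv_nonneg (c.differentiable one_ne_zero) (fun t => (d t).1)
  have p : ∀ t, 0 ≤ t * Φ t := by
    intro t
    rcases le_total 0 t with ht | ht
    · exact mul_nonneg ht (z ▸ m ht)
    · exact mul_nonneg_of_nonpos_of_nonpos ht (z ▸ m ht)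
  have e := B.eig a _ _ f
  rw [qf_split hW (B.inF a) f] at e
  simp only [ip, Measure.restrict_univ] at e
  have e1 : ∫ x, deriv Φ (B.e a x) * ‖B.g a x‖ ^ 2 =
      ∫ x, ⟪B.g a x, deriv Φ (B.e a x) • B.g a x⟫_ℝ := by
    refine integral_congr_ae (ae_of_all _ fun x => ?_)
    simp only [inner_smul_right, real_inner_self_eq_norm_sq]
  have e2 : 0 ≤ ∫ x, W x * B.e a x * Φ (B.e a x) :=
    integral_nonneg (fun x => by
      rw [Pi.zero_apply, mul_assoc]; exact mul_nonneg (hW.nonneg x) (p _))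
  have e3 : 0 ≤ ∫ x, B.e a x * Φ (B.e a x) := integral_nonneg (fun x => p _)
  have e4 := mul_le_mul_of_nonneg_right (le_max_left (B.ν a) 0) e3
  linarith

end Pool.Agent.Lib.MP_8fe63c_mp
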