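import Pool.Agent.Lib.MP_8fe63c_mp.OEig
import Pool.Agent.Lib.MP_8fe63c_mp.OGs
import Pool.Agent.Lib.MP_8fe63c_mp.OLin
import Pool.Agent.Lib.MP_8fe63c_mp.OStamp
import Pool.Agent.Lib.MP_8fe63c_mp.OPos

/-!
Assembly of the trap data.

Sketch. Take a minimiser `φ₀`; it is a.e. bounded by `bdd_of_sub` with `IsMin.el` (test `Φ(φ₀) ≥ 0`,
drop the nonnegative potential terms, `ν = chem ≥ 0`). Replace it by `φ = min φ₀ M` (a.e. equal, again
a minimiser). `W₁ = W + b/2 φ^4` is a `Pot`, grows, and has the same form domain (`InF.mono_pot`);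
`qf W₁ u = qf W u + b/2 ∫ φ^4 u^2`. Use `exists_EB`, `EB.with_ground` with `simple_ground`, then
`EB.ae_bdd` and `EB.modify` (clamp `e a` for `a ≠ o`, keep `e o = φ`).
-/

set_option linter.unusedSectionVars false

open MeasureTheory Set Filter Topology
open scoped ENNReal InnerProductSpace

namespace Pool.Agent.Lib.MP_8fe63c_mp

variable {W : R3 → ℝ} {b : ℝ}

theorem OTrap_ae_bdd (hW : Pot W) (hb : 0 ≤ b) {φ : R3 → ℝ} {G : R3 → R3} (h : IsMin W b φ G) :
    ∃ M : ℝ, ∀ᵐ x, |φ x| ≤ M := by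
  have hν : 0 ≤ chem W b φ G :=
    add_nonneg (qf_nonneg hW) (mul_nonneg (by linarith) (integral_nonneg fun x => by positivity))
  refine bdd_of_sub hW h.inF hν fun Φ h1 h2 h3 => ?_
  have hu := h.inF.chain hW h1 h2 (L := 1) fun t => by
    rw [abs_of_nonneg (h3 t).1]
    exact (h3 t).2
  have hpos : ∀ x, 0 ≤ Φ (φ x) := fun x => by
    rw [← h2]
    exact monotone_of_deriv_nonneg (h1.differentiable one_ne_zero) (fun t => (h3 t).1) (h.nonneg x)
  have e := h.el hW hb hu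
  rw [qf_split hW h.inF hu] at e
  unfold ip at e
  simp only [Measure.restrict_univ, real_inner_smul_right, real_inner_self_eq_norm_sq] at e
  have a1 : 0 ≤ ∫ x, W x * φ x * Φ (φ x) :=
    integral_nonneg fun x => mul_nonneg (mul_nonneg (hW.nonneg x) (h.nonneg x)) (hpos x)
  have a2 : 0 ≤ b / 2 * ∫ x, φ x ^ 5 * Φ (φ x) := mul_nonneg (by linarith)
    (integral_nonneg fun x => mul_nonneg (pow_nonneg (h.nonneg x) 5) (hpos x))
  linarith

theorem OTrap_bdd_min (hW : Pot W) (hg : Grows W) (hb : 0 ≤ b) :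
    ∃ (φ : R3 → ℝ) (G : R3 → R3) (M : ℝ), IsMin W b φ G ∧ ∀ x, φ x ≤ M := by
  obtain ⟨φ, G, h⟩ := exists_isMin hW hg hb
  obtain ⟨M, hM⟩ := OTrap_ae_bdd hW hb h
  have hae : φ =ᵐ[volume] fun x => min (φ x) (max M 0) := by
    filter_upwards [hM] with x hx
    exact (min_eq_left ((le_abs_self _).trans (hx.trans (le_max_left _ _)))).symm
  have hae' : φ =ᵐ[volume.restrict univ] fun x => min (φ x) (max M 0) := by
    rwa [Measure.restrict_univ]
  refine ⟨fun x => min (φ x) (max M 0), G, max M 0,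
    ⟨h.inF.congr_ae (h.inF.mu.min measurable_const) h.inF.mG hae' EventuallyEq.rfl,
      fun x => le_min (h.nonneg x) (le_max_right _ _), ?_, fun u H hu h1 => ?_⟩,
    fun x => min_le_right _ _⟩
  · rw [← h.nrm]
    exact (integral_congr_ae (hae'.mul hae')).symm
  · refine le_trans (le_of_eq ?_) (h.min u H hu h1)
    unfold gpE
    rw [← qf_congr_ae hae' EventuallyEq.rfl hae' EventuallyEq.rfl]
    congr 2
    refine integral_congr_ae ?_
    filter_upwards [hae] with x hx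
    rw [← hx]

theorem OTrap_pow4_le {φ : R3 → ℝ} {M : ℝ} (h0 : ∀ x, 0 ≤ φ x) (hM : ∀ x, φ x ≤ M) (x : R3) :
    φ x ^ 4 ≤ M ^ 4 := pow_le_pow_left₀ (h0 x) (hM x) 4

theorem OTrap_pot (hW : Pot W) (hb : 0 ≤ b) {φ : R3 → ℝ} (hm : Measurable φ) {M : ℝ}
    (h0 : ∀ x, 0 ≤ φ x) (hM : ∀ x, φ x ≤ M) : Pot (fun x => W x + b / 2 * φ x ^ 4) :=
  hW.add_bdd ((hm.pow_const 4).const_mul _)
    (fun x => mul_nonneg (by linarith) (pow_nonneg (h0 x) 4)) (M := b / 2 * M ^ 4)
    fun x => mul_le_mul_of_nonneg_left (OTrap_pow4_le h0 hM x) (by linarith)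

theorem OTrap_qf (hW : Pot W) {φ : R3 → ℝ} (hm : Measurable φ) {M : ℝ}
    (h0 : ∀ x, 0 ≤ φ x) (hM : ∀ x, φ x ≤ M) {u : R3 → ℝ} {H : R3 → R3} (hu : InF univ W u H) :
    qf univ (fun x => W x + b / 2 * φ x ^ 4) u H u H =
      qf univ W u H u H + b / 2 * ∫ x, φ x ^ 4 * u x ^ 2 := by
  have h1 : Integrable fun x => ⟪H x, H x⟫_ℝ + W x * u x * u x :=
    integrableOn_univ.1 ((hu.integrable_inner hW hu).add (hu.integrable_W hW hu))
  have h2 : Integrable fun x => u x ^ 2 := by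
    simpa only [integrableOn_univ, ← sq] using hu.integrable_mul hW hu
  have h3 : Integrable fun x => φ x ^ 4 * u x ^ 2 :=
    h2.bdd_mul (c := M ^ 4) (hm.pow_const 4).aestronglyMeasurable (Eventually.of_forall fun x => by
      rw [Real.norm_eq_abs, abs_of_nonneg (pow_nonneg (h0 x) 4)]
      exact OTrap_pow4_le h0 hM x)
  unfold qf
  rw [Measure.restrict_univ, ← integral_const_mul, ← integral_add h1 (h3.const_mul _)]
  refine integral_congr_ae (Eventually.of_forall fun x => ?_)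
  ring

theorem exists_trap (hW : Pot W) (hg : Grows W) (hb : 0 ≤ b) : Nonempty (Trap W b) := by
  classical
  obtain ⟨φ, G, M, h, hM⟩ := OTrap_bdd_min hW hg hb
  have hm := h.inF.mu
  have hW1 := OTrap_pot hW hb hm h.nonneg hM
  have hnn : ∀ x, 0 ≤ b / 2 * φ x ^ 4 := fun x =>
    mul_nonneg (by linarith) (pow_nonneg (h.nonneg x) 4)
  have hg1 : Grows (fun x => W x + b / 2 * φ x ^ 4) := fun A => by
    obtain ⟨R, hR⟩ := hg A
    exact ⟨R, fun x hx => (hR x hx).trans (le_add_of_nonneg_right (hnn x))⟩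
  have hdown : ∀ u H, InF univ (fun x => W x + b / 2 * φ x ^ 4) u H → InF univ W u H :=
    fun u H hu => hu.mono_pot hW1 hW (C := 1) fun x => by linarith [hnn x]
  have hφ : InF univ (fun x => W x + b / 2 * φ x ^ 4) φ G :=
    h.inF.mono_pot hW hW1 (C := 1 + b / 2 * M ^ 4) fun x => by
      have a1 : b / 2 * φ x ^ 4 ≤ b / 2 * M ^ 4 :=
        mul_le_mul_of_nonneg_left (OTrap_pow4_le h.nonneg hM x) (by linarith)
      have a2 := mul_nonneg ((hnn x).trans a1) (hW.nonneg x)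
      nlinarith
  have hμ : qf univ (fun x => W x + b / 2 * φ x ^ 4) φ G φ G = chem W b φ G := by
    rw [OTrap_qf hW hm h.nonneg hM h.inF, chem]
    simp only [← pow_add]
  have hmin : ∀ u H, InF univ (fun x => W x + b / 2 * φ x ^ 4) u H →
      chem W b φ G * ip univ u u ≤ qf univ (fun x => W x + b / 2 * φ x ^ 4) u H u H :=
    fun u H hu => by
      rw [OTrap_qf hW hm h.nonneg hM (hdown u H hu)]
      exact h.lin_nonneg hW hb (hdown u H hu)
  obtain ⟨B⟩ := exists_EB hW1 isOpen_univ (conf_univ hW1 hg1)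
  obtain ⟨B1, o, γ, ho, -, hν, hγ, hgap⟩ := B.with_ground hW1 isOpen_univ hφ h.nrm hμ hmin
    fun u H hu h1 h2 => simple_ground hW1 hφ h.nonneg h.nrm hμ hmin hu h1 h2
  choose K hK using B1.ae_bdd hW1
  obtain ⟨B2, π, he, -, hν2⟩ := B1.modify
    (fun a => if a = o then φ else fun x => max (-K a) (min (K a) (B1.e a x)))
    (fun a => by
      split_ifs
      · exact hm
      · exact measurable_const.max (measurable_const.min (B1.inF a).mu))
    (fun a => by
      split_ifs with ha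
      · rw [ha, ho]
      · rw [Measure.restrict_univ]
        filter_upwards [hK a] with x hx
        rw [min_eq_right (abs_le.1 hx).2, max_eq_right (abs_le.1 hx).1])
  refine ⟨⟨φ, chem W b φ G, γ, M, B2, π.symm o, ?_, ?_, hγ, fun a ha => ?_, h.nonneg, hM,
    fun a => ?_, ?_⟩⟩
  · rw [he, Equiv.apply_symm_apply, if_pos rfl]
  · rw [hν2, Equiv.apply_symm_apply, hν]
  · rw [hν2]
    exact hgap _ fun e => ha (by rw [← e, Equiv.symm_apply_apply])
  · rw [he]
    split_ifs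
    · exact ⟨M, fun x => by rw [abs_of_nonneg (h.nonneg x)]; exact hM x⟩
    · refine ⟨|K (π a)|, fun x => abs_le.2 ⟨?_, max_le (neg_le_abs _) ?_⟩⟩
      · exact (neg_le_neg (le_abs_self _)).trans (le_max_left _ _)
      · exact (min_le_left _ _).trans (le_abs_self _)
  · rw [h.eGP_eq hW hb, gpE, chem]
    ring

theorem Trap.meas (T : Trap W b) : Measurable T.φ := by
  have h := (T.B.inF T.o).mu
  rwa [T.e_o] at h

theorem Trap.pot (hW : Pot W) (hb : 0 ≤ b) (T : Trap W b) :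
    Pot (fun x => W x + b / 2 * T.φ x ^ 4) := OTrap_pot hW hb T.meas T.φ_nonneg T.φ_le

theorem Trap.μ_nonneg (hW : Pot W) (hb : 0 ≤ b) (T : Trap W b) : 0 ≤ T.μ := by
  rw [← T.ν_o]
  exact T.B.ν_nonneg (T.pot hW hb) T.o

theorem Trap.nrm (T : Trap W b) : ∫ x, T.φ x ^ 2 = 1 := by
  have h := T.B.nrm T.o
  rw [T.e_o] at h
  simpa only [ip, Measure.restrict_univ, ← sq] using h

/-- uniform bounds for the modes below a level -/
theorem Trap.exists_BF (hW : Pot W) (hb : 0 ≤ b) (T : Trap W b) (L : ℝ) :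
    ∃ M : ℝ, 1 ≤ M ∧ ∀ a, T.B.ν a ≤ L →
      BF (fun x => W x + b / 2 * T.φ x ^ 4) (T.B.e a) (T.B.g a) M := by
  choose K hK using T.bdd
  have hS : 0 ≤ ∑ a ∈ (T.B.fin L).toFinset, |K a| := Finset.sum_nonneg fun a _ => abs_nonneg _
  have hL := abs_nonneg L
  obtain ⟨M, hM⟩ : ∃ M : ℝ, M = 1 + |L| + ∑ a ∈ (T.B.fin L).toFinset, |K a| := ⟨_, rfl⟩
  have h1 : 1 ≤ M := by linarith
  have h2 : M ≤ M ^ 2 := by nlinarith
  refine ⟨M, h1, fun a ha => ⟨T.B.inF a, fun x => ?_, ?_, ?_⟩⟩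
  · have h3 : |K a| ≤ ∑ a ∈ (T.B.fin L).toFinset, |K a| :=
      Finset.single_le_sum (f := fun a => |K a|) (fun a _ => abs_nonneg _)
        ((T.B.fin L).mem_toFinset.2 ha)
    linarith [hK a x, le_abs_self (K a)]
  · have h3 := T.B.nrm a
    simp only [ip, Measure.restrict_univ, ← sq] at h3
    linarith
  · rw [T.B.eig a _ _ (T.B.inF a), T.B.nrm a]
    linarith [le_abs_self L]

end Pool.Agent.Lib.MP_8fe63c_mp
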