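import Pool.Agent.Lib.MP_8fe63c_mp.NDefs
import Pool.Agent.Lib.MP_8fe63c_mp.HGreen
import Pool.Agent.Lib.MP_8fe63c_mp.OBox
import Pool.Agent.Lib.MP_8fe63c_mp.OTrap
import Pool.Agent.Lib.MP_8fe63c_mp.OSob

/-!
Rough condensation by sliding Neumann boxes: definitions.
-/

open MeasureTheory Set
open scoped ENNReal InnerProductSpace

namespace Pool.Agent.Lib.MP_8fe63c_mp

variable {ι : Type} [Fintype ι] [DecidableEq ι]

/-- a jump kernel `J` and a mollifier `ρ` at scale `r` with `∇ ρ h = - J h • h` -/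
structure Moll (r c₀ : ℝ) (J ρ : R3 → ℝ) : Prop where
  r_pos : 0 < r
  cJ : Continuous J
  J_nonneg : ∀ h, 0 ≤ J h
  J_neg : ∀ h, J (-h) = J h
  J_supp : ∀ h, J h ≠ 0 → ‖h‖ ≤ r
  J_int : ∫ h, J h ≤ c₀ / r ^ 2
  cρ : Cc1 ρ
  ρ_nonneg : ∀ h, 0 ≤ ρ h
  ρ_le : ∀ h, ρ h ≤ r ^ 2 * J h
  ρ_int : ∫ h, ρ h = 1
  grad : ∀ h, gradient ρ h = -(J h) • h

/-- the nonlocal energy of `u` on `Ω` -/
noncomputable def nl (Ω : Set R3) (J u : R3 → ℝ) : ℝ≥0∞ :=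
  ∫⁻ y in Ω, ∫⁻ z in Ω, ENNReal.ofReal (J (y - z) * (u y - u z) ^ 2)

/-- density of the nonlocal energy in the variable `i` -/
noncomputable def nlD (Ω : Set R3) (J : R3 → ℝ) (F : (ι → R3) → ℝ) (i : ι) (x : ι → R3) : ℝ≥0∞ :=
  ∫⁻ z in Ω, ENNReal.ofReal (J (x i - z) * (F x - F (Function.update x i z)) ^ 2)

/-- convolution -/
noncomputable def cv (ρ f : R3 → ℝ) (x : R3) : ℝ := ∫ h, ρ h * f (x - h)

/-- average over the cubes of side `l` that contain `y` of a function of the corner -/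
noncomputable def avg (l : ℝ) (f : R3 → ℝ) (y : R3) : ℝ := (∫ h in cube 0 l, f (y - h)) / l ^ 3

/-- the inequality for particles labelled by `κ` in the box `Ω` -/
def BoxOK (Ω : Set R3) (J : R3 → ℝ) (ε : ℝ) (UN : (Fin 3 → R3) → ℝ) (κ : Type) [Fintype κ]
    [DecidableEq κ] (p q : ℝ) : Prop :=
  ∀ F : (κ → R3) → ℝ, Cc1 F →
    ∫⁻ x, (ENNReal.ofReal (p * F x ^ 2) + ENNReal.ofReal (1 - ε) * ∑ i, nlD Ω J F i x) ∂muP Ω κ ≤
      ∫⁻ x, ENNReal.ofReal ((∑ i, ‖pgrad F i x‖ ^ 2) + intP UN x * F x ^ 2 + q * F x ^ 2)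
        ∂muP Ω κ

/-- indicator of the configurations with all points of `G` in `Ω` -/
noncomputable def inQ (Ω : Set R3) (G : Finset ι) (x : ι → R3) : ℝ≥0∞ :=
  indicator {x : ι → R3 | ∀ i ∈ G, x i ∈ Ω} 1 x

/-- interaction inside the group `G` -/
noncomputable def intG (UN : (Fin 3 → R3) → ℝ) (G : Finset ι) (x : ι → R3) : ℝ :=
  (1 / 6 : ℝ) * ∑ σ : Fin 3 ↪ ι, if ∀ j, σ j ∈ G then UN (x ∘ σ) else 0

/-- the box inequality for the group `G`, the other particles being frozen -/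
def Loc (Ω : Set R3) (J : R3 → ℝ) (ε : ℝ) (UN : (Fin 3 → R3) → ℝ) (F : (ι → R3) → ℝ)
    (G : Finset ι) (p q : ℝ) : Prop :=
  ∀ ψ : (ι → R3) → ℝ≥0∞, Measurable ψ → (∀ x y, (∀ i, i ∉ G → x i = y i) → ψ x = ψ y) →
    ∫⁻ x, ψ x * inQ Ω G x *
        (ENNReal.ofReal (p * F x ^ 2) + ENNReal.ofReal (1 - ε) * ∑ i ∈ G, nlD Ω J F i x) ≤
      ∫⁻ x, ψ x * inQ Ω G x *
        ENNReal.ofReal ((∑ i ∈ G, ‖pgrad F i x‖ ^ 2) + intG UN G x * F x ^ 2 + q * F x ^ 2)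

/-- the inequality for one cell, with any number of particles in it -/
def Cell (Ω : Set R3) (J : R3 → ℝ) (ε : ℝ) (UN : (Fin 3 → R3) → ℝ) (F : (ι → R3) → ℝ)
    (lam η C : ℝ) : Prop :=
  ∫⁻ x, ∑ i, indicator Ω (1 : R3 → ℝ≥0∞) (x i) *
      (ENNReal.ofReal (lam * F x ^ 2) + ENNReal.ofReal (1 - ε) * nlD Ω J F i x) ≤
    (∫⁻ x, ((∑ i, indicator Ω (1 : R3 → ℝ≥0∞) (x i) *
        ENNReal.ofReal (‖pgrad F i x‖ ^ 2 + η * F x ^ 2)) +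
      ∑ σ : Fin 3 ↪ ι, indicator Ω (1 : R3 → ℝ≥0∞) (x (σ 0)) *
        ENNReal.ofReal ((1 / 6 : ℝ) * UN (x ∘ σ) * F x ^ 2))) +
      ENNReal.ofReal C * ∫⁻ x, ENNReal.ofReal (F x ^ 2)

/-- the one-body gap inequality for the nonlocal energy -/
def GapOK (φ W V J : R3 → ℝ) (m γ ε η : ℝ) : Prop :=
  ∀ u : R3 → ℝ, Cc1 u →
    ENNReal.ofReal m * ∫⁻ y, ENNReal.ofReal (u y ^ 2) ≤
      ENNReal.ofReal (1 - ε) * nl univ J u +
        (∫⁻ y, ENNReal.ofReal ((W y + V y + η) * u y ^ 2)) +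
        ENNReal.ofReal (γ * (∫ y, φ y * u y) ^ 2)

end Pool.Agent.Lib.MP_8fe63c_mp
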