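import Pool.Agent.Lib.MP_8fe63c_mp.BNl

/-!
Freezing of the other particles, superadditivity, decomposition by the set of particles in a cell.

Sketch. `BoxOK.loc`: `∫⁻ f = marg Gᶜ (marg G f) x₀` (`marg_univ`, `marg_union`), `marg_mul_left` takes `ψ`
out, and by definition of `lmarginal`, `marg G f x = ∫⁻ y : G → R3, f (Function.updateFinset x G y)`; the
indicator `inQ` turns the product of Lebesgue measures into `muP Ω G` (`Measure.restrict_pi_pi`). Apply
the hypothesis to `y ↦ F (updateFinset x G y)`, which is `Cc1` (composition with an affine isometric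
embedding); `updateFinset x G (update y i z) = update (updateFinset x G y) i z` identifies `pgrad` and `nlD`,
and embeddings `Fin 3 ↪ G` correspond to embeddings `Fin 3 ↪ ι` with values in `G`. `Loc.union`: use the
hypotheses with `ψ * inQ Ω G'` and `ψ * inQ Ω G`, add, and `intG G + intG G' ≤ intG (G ∪ G')`.
`loc_all`: strong induction on the cardinality, remove a subset with `n₀` elements. `cell_of_loc`: sum over
all `G` the inequalities with `ψ = inQ Ωᶜ Gᶜ`; for each `x` exactly one `G` contributes.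
-/

set_option linter.unusedSectionVars false

open MeasureTheory Set Filter Topology
open scoped ENNReal InnerProductSpace

namespace Pool.Agent.Lib.MP_8fe63c_mp

variable {ι : Type} [Fintype ι] [DecidableEq ι]

variable {Ω : Set R3} {J : R3 → ℝ} {ε : ℝ} {UN : (Fin 3 → R3) → ℝ} {F : (ι → R3) → ℝ}

theorem measurable_inQ (hΩ : MeasurableSet Ω) (G : Finset ι) : Measurable (inQ Ω G) := by
  refine measurable_one.indicator ?_
  have e : {x : ι → R3 | ∀ i ∈ G, x i ∈ Ω} = ⋂ i ∈ G, (fun x : ι → R3 => x i) ⁻¹' Ω := by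
    ext x
    simp
  rw [e]
  exact G.measurableSet_biInter fun i _ => measurable_pi_apply i hΩ

theorem measurable_intG (hU : Measurable UN) (G : Finset ι) : Measurable (intG UN G) := by
  refine Measurable.const_mul (Finset.measurable_sum _ fun σ _ => ?_) _
  split_ifs
  · exact hU.comp (measurable_pi_lambda _ fun j => measurable_pi_apply _)
  · exact measurable_const

theorem BFrz_mA (Ω : Set R3) (hJ : Measurable J) (hF : Cc1 F) (ε p : ℝ) (G : Finset ι) :
    Measurable fun x =>
      ENNReal.ofReal (p * F x ^ 2) + ENNReal.ofReal (1 - ε) * ∑ i ∈ G, nlD Ω J F i x :=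
  (((hF.1.continuous.measurable.pow_const 2).const_mul p).ennreal_ofReal).add
    ((Finset.measurable_sum _ fun i _ =>
      measurable_nlD Ω hJ hF.1.continuous.measurable i).const_mul _)

theorem BFrz_mB (hU : Measurable UN) (hF : Cc1 F) (q : ℝ) (G : Finset ι) :
    Measurable fun x =>
      ENNReal.ofReal ((∑ i ∈ G, ‖pgrad F i x‖ ^ 2) + intG UN G x * F x ^ 2 + q * F x ^ 2) :=
  (((Finset.measurable_sum _ fun i _ =>
    (hF.cb1.continuous_pgrad i).measurable.norm.pow_const 2).add
    ((measurable_intG hU G).mul (hF.1.continuous.measurable.pow_const 2))).add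
    ((hF.1.continuous.measurable.pow_const 2).const_mul q)).ennreal_ofReal

theorem BFrz_upd (G : Finset ι) (x : ι → R3) (y : G → R3) (i : G) :
    Function.updateFinset x G y i = y i := by
  simp [Function.updateFinset]

theorem BFrz_upd2 (G : Finset ι) (x : ι → R3) (y : G → R3) (i : G) (z : R3) :
    Function.updateFinset x G (Function.update y i z) =
      Function.update (Function.updateFinset x G y) i z := by
  funext j
  by_cases e : j = i
  · subst e
    rw [BFrz_upd, Function.update_self, Function.update_self]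
  · rw [Function.update_of_ne e]
    by_cases hj : j ∈ G
    · have e' : (⟨j, hj⟩ : G) ≠ i := fun h => e (congrArg Subtype.val h)
      simp [Function.updateFinset, hj, Function.update_of_ne e']
    · simp [Function.updateFinset, hj]

theorem BFrz_split (hΩ : MeasurableSet Ω) (G : Finset ι) {f ψ : (ι → R3) → ℝ≥0∞}
    (hf : Measurable f) (hψ : Measurable ψ) (hc : ∀ x y, (∀ i, i ∉ G → x i = y i) → ψ x = ψ y) :
    ∫⁻ x, ψ x * inQ Ω G x * f x =
      marg Gᶜ (fun x => ψ x * ∫⁻ y, f (Function.updateFinset x G y) ∂muP Ω G) 0 := by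
  have hm : Measurable fun x => inQ Ω G x * f x := (measurable_inQ hΩ G).mul hf
  simp only [mul_assoc]
  rw [← marg_univ 0, ← Finset.union_compl G, Finset.union_comm,
    marg_union (hψ.fun_mul hm) disjoint_compl_left]
  congr 1
  funext x
  rw [marg_mul_left G hm hc, HMarg_def, muP, ← Measure.restrict_pi_pi,
    ← lintegral_indicator (MeasurableSet.univ_pi fun _ => hΩ)]
  congr 1
  refine lintegral_congr fun y => ?_
  have e : Function.updateFinset x G y ∈ {x : ι → R3 | ∀ i ∈ G, x i ∈ Ω} ↔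
      y ∈ univ.pi fun _ : G => Ω := by
    refine ⟨fun h i _ => ?_, fun h i hi => ?_⟩
    · rw [← BFrz_upd G x y i]
      exact h i i.2
    · have := h ⟨i, hi⟩ (mem_univ _)
      rwa [← BFrz_upd G x y] at this
  by_cases hy : y ∈ univ.pi fun _ : G => Ω
  · rw [inQ, indicator_of_mem hy, indicator_of_mem (e.2 hy), Pi.one_apply, one_mul]
  · rw [inQ, indicator_of_notMem hy, indicator_of_notMem (mt e.1 hy), zero_mul]

theorem BFrz_cc1 (hF : Cc1 F) (G : Finset ι) (x : ι → R3) :
    Cc1 fun y : G → R3 => F (Function.updateFinset x G y) := by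
  have h1 : ContDiff ℝ 1 fun y : G → R3 => Function.updateFinset x G y := by
    refine contDiff_pi.2 fun i => ?_
    by_cases hi : i ∈ G
    · simp only [Function.updateFinset, hi, dite_true]
      exact contDiff_apply ℝ R3 _
    · simp only [Function.updateFinset, hi, dite_false]
      exact contDiff_const
  refine ⟨hF.1.comp h1, hF.2.comp_isClosedEmbedding ?_⟩
  exact Function.LeftInverse.isClosedEmbedding (f := fun (x : ι → R3) (i : G) => x i)
    (fun y => funext fun i => BFrz_upd G x y i) (continuous_pi fun i => continuous_apply _)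
    h1.continuous

theorem BFrz_int (UN : (Fin 3 → R3) → ℝ) (G : Finset ι) (x : ι → R3) (y : G → R3) :
    intP UN y = intG UN G (Function.updateFinset x G y) := by
  unfold intP intG
  congr 1
  refine Finset.sum_of_injOn (fun σ => σ.trans (Function.Embedding.subtype _)) ?_
    (fun _ _ => Finset.mem_coe.2 (Finset.mem_univ _)) (fun σ _ hσ => if_neg fun h => hσ ?_)
    fun σ _ => ?_
  · intro σ _ τ _ h
    ext j
    exact congrArg (fun e : Fin 3 ↪ ι => e j) h
  · exact ⟨σ.codRestrict _ h, Finset.mem_coe.2 (Finset.mem_univ _), rfl⟩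
  · refine Eq.trans ?_ (if_pos fun j => (σ j).2).symm
    congr 1
    funext j
    exact (BFrz_upd G x y (σ j)).symm

theorem BoxOK.loc (hΩ : MeasurableSet Ω) (hJ : Measurable J) (hU : Measurable UN) (hF : Cc1 F)
    {G : Finset ι} {p q : ℝ} (h : BoxOK Ω J ε UN G p q) : Loc Ω J ε UN F G p q := by
  intro ψ hψ hc
  rw [BFrz_split hΩ G (BFrz_mA Ω hJ hF ε p G) hψ hc, BFrz_split hΩ G (BFrz_mB hU hF q G) hψ hc]
  refine marg_mono _ (fun x => mul_le_mul_right ?_ _) _
  have h1 := h _ (BFrz_cc1 hF G x)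
  have e1 : ∀ y : G → R3, ∑ i, nlD Ω J (fun y : G → R3 => F (Function.updateFinset x G y)) i y =
      ∑ i ∈ G, nlD Ω J F i (Function.updateFinset x G y) := fun y => by
    rw [← Finset.sum_coe_sort G]
    simp only [nlD, BFrz_upd, BFrz_upd2]
  have e2 : ∀ y : G → R3, ∑ i, ‖pgrad (fun y : G → R3 => F (Function.updateFinset x G y)) i y‖ ^ 2 =
      ∑ i ∈ G, ‖pgrad F i (Function.updateFinset x G y)‖ ^ 2 := fun y => by
    rw [← Finset.sum_coe_sort G]
    simp only [pgrad, BFrz_upd, BFrz_upd2]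
  simpa only [e1, e2, BFrz_int UN G x] using h1

theorem BFrz_inQ (Ω : Set R3) [DecidablePred (· ∈ Ω)] (G : Finset ι) (x : ι → R3) :
    inQ Ω G x = if ∀ i ∈ G, x i ∈ Ω then 1 else 0 := by
  split_ifs with h
  · exact indicator_of_mem (s := {x : ι → R3 | ∀ i ∈ G, x i ∈ Ω}) h _
  · exact indicator_of_notMem (s := {x : ι → R3 | ∀ i ∈ G, x i ∈ Ω}) h _

theorem BFrz_inQ_union (Ω : Set R3) (G G' : Finset ι) (x : ι → R3) :
    inQ Ω (G ∪ G') x = inQ Ω G x * inQ Ω G' x := by
  classical
  simp only [BFrz_inQ, Finset.forall_mem_union, ite_and, mul_ite, mul_one, mul_zero]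
  split_ifs <;> rfl

theorem BFrz_inQ_congr (Ω : Set R3) {G : Finset ι} {x y : ι → R3} (h : ∀ i ∈ G, x i = y i) :
    inQ Ω G x = inQ Ω G y := by
  classical
  rw [BFrz_inQ, BFrz_inQ]
  exact if_congr (forall₂_congr fun i hi => by rw [h i hi]) rfl rfl

theorem BFrz_intG_nonneg (hU0 : ∀ x, 0 ≤ UN x) (G : Finset ι) (x : ι → R3) : 0 ≤ intG UN G x := by
  refine mul_nonneg (by norm_num) (Finset.sum_nonneg fun σ _ => ?_)
  split_ifs
  · exact hU0 _
  · exact le_rfl

theorem BFrz_intG_union (hU0 : ∀ x, 0 ≤ UN x) {G G' : Finset ι} (hd : Disjoint G G')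
    (x : ι → R3) : intG UN G x + intG UN G' x ≤ intG UN (G ∪ G') x := by
  unfold intG
  rw [← mul_add, ← Finset.sum_add_distrib]
  refine mul_le_mul_of_nonneg_left (Finset.sum_le_sum fun σ _ => ?_) (by norm_num)
  by_cases h : ∀ j, σ j ∈ G
  · rw [if_pos h, if_neg fun h' => Finset.disjoint_left.1 hd (h 0) (h' 0),
      if_pos fun j => Finset.mem_union_left _ (h j), add_zero]
  · rw [if_neg h, zero_add]
    by_cases h' : ∀ j, σ j ∈ G'
    · rw [if_pos h', if_pos fun j => Finset.mem_union_right _ (h' j)]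
    · rw [if_neg h']
      split_ifs
      · exact hU0 _
      · exact le_rfl

theorem Loc.union (hΩ : MeasurableSet Ω) (hJ : Measurable J) (hU : Measurable UN)
    (hU0 : ∀ x, 0 ≤ UN x) (hF : Cc1 F) {G G' : Finset ι} (hd : Disjoint G G') {p q p' q' : ℝ}
    (hp : 0 ≤ p) (hq : 0 ≤ q) (hp' : 0 ≤ p') (hq' : 0 ≤ q') (h : Loc Ω J ε UN F G p q)
    (h' : Loc Ω J ε UN F G' p' q') : Loc Ω J ε UN F (G ∪ G') (p + p') (q + q') := by
  intro ψ hψ hc
  have a1 := h (fun x => ψ x * inQ Ω G' x) (hψ.mul (measurable_inQ hΩ G')) fun x y e => by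
    rw [hc x y fun i hi => e i fun h => hi (Finset.mem_union_left _ h),
      BFrz_inQ_congr Ω fun i hi => e i (Finset.disjoint_right.1 hd hi)]
  have a2 := h' (fun x => ψ x * inQ Ω G x) (hψ.mul (measurable_inQ hΩ G)) fun x y e => by
    rw [hc x y fun i hi => e i fun h => hi (Finset.mem_union_right _ h),
      BFrz_inQ_congr Ω fun i hi => e i (Finset.disjoint_left.1 hd hi)]
  have hw : Measurable fun x => ψ x * inQ Ω G' x * inQ Ω G x :=
    (hψ.mul (measurable_inQ hΩ G')).mul (measurable_inQ hΩ G)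
  refine le_trans (le_of_eq ?_) ((add_le_add a1 a2).trans ?_)
  · rw [← lintegral_add_left (hw.fun_mul (BFrz_mA Ω hJ hF ε p G))]
    refine lintegral_congr fun x => ?_
    rw [BFrz_inQ_union, Finset.sum_union hd, add_mul p,
      ENNReal.ofReal_add (by positivity) (by positivity)]
    ring
  · rw [← lintegral_add_left (hw.fun_mul (BFrz_mB hU hF q G))]
    refine lintegral_mono fun x => ?_
    have i1 := BFrz_intG_nonneg hU0 G x
    have i2 := BFrz_intG_nonneg hU0 G' x
    beta_reduce
    rw [BFrz_inQ_union, mul_right_comm (ψ x) (inQ Ω G' x), ← mul_add, ← mul_assoc,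
      ← ENNReal.ofReal_add (by positivity) (by positivity), Finset.sum_union hd]
    refine mul_le_mul_right (ENNReal.ofReal_le_ofReal ?_) _
    have := mul_le_mul_of_nonneg_right (BFrz_intG_union hU0 hd x) (sq_nonneg (F x))
    linarith

theorem loc_all (hΩ : MeasurableSet Ω) (hJ : Measurable J) (hU : Measurable UN)
    (hU0 : ∀ x, 0 ≤ UN x) (hF : Cc1 F) {n₀ : ℕ} (hn : 1 ≤ n₀) {lam η C : ℝ} (hlam : 0 ≤ lam)
    (hη : 0 ≤ η) (hC : 0 ≤ C)
    (h1 : ∀ G : Finset ι, G.card ≤ n₀ → Loc Ω J ε UN F G (lam * G.card) (η * G.card + C))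
    (h2 : ∀ G : Finset ι, G.card = n₀ → Loc Ω J ε UN F G (lam * G.card) (η * G.card))
    (G : Finset ι) : Loc Ω J ε UN F G (lam * G.card) (η * G.card + C) := by
  induction G using Finset.strongInduction with
  | H G ih =>
    by_cases e : G.card ≤ n₀
    · exact h1 G e
    obtain ⟨G₀, hs, hc⟩ := Finset.exists_subset_card_eq (not_le.1 e).le
    have hne : G₀.Nonempty := Finset.card_pos.1 (by omega)
    have a := (h2 G₀ hc).union hΩ hJ hU hU0 hF Finset.disjoint_sdiff (by positivity)
      (by positivity) (by positivity) (by positivity) (ih (G \ G₀) (Finset.sdiff_ssubset hs hne))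
    have b : (G.card : ℝ) = G₀.card + (G \ G₀).card := by
      rw [← Finset.card_sdiff_add_card_eq_card hs]
      push_cast
      ring
    rw [Finset.union_sdiff_of_subset hs] at a
    rw [b, mul_add, mul_add, add_assoc]
    exact a

theorem BFrz_one (Ω : Set R3) [DecidablePred (· ∈ Ω)] (x : ι → R3) (f : Finset ι → ℝ≥0∞) :
    ∑ G : Finset ι, inQ Ωᶜ Gᶜ x * inQ Ω G x * f G = f (Finset.univ.filter fun i => x i ∈ Ω) := by
  rw [Finset.sum_eq_single (Finset.univ.filter fun i => x i ∈ Ω)]
  · rw [BFrz_inQ, BFrz_inQ, if_pos (by simp), if_pos (by simp), one_mul, one_mul]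
  · intro G _ hG
    rw [BFrz_inQ, BFrz_inQ]
    split_ifs with h1 h2
    · refine absurd (Finset.ext fun i => ?_) hG
      rw [Finset.mem_filter]
      exact ⟨fun hi => ⟨Finset.mem_univ _, h2 i hi⟩,
        fun hi => by_contra fun hc => h1 i (Finset.mem_compl.2 hc) hi.2⟩
    all_goals simp
  · simp

theorem BFrz_ind (Ω : Set R3) [DecidablePred (· ∈ Ω)] (x : ι → R3) (f : ι → ℝ≥0∞) :
    ∑ i, indicator Ω (1 : R3 → ℝ≥0∞) (x i) * f i =
      ∑ i ∈ Finset.univ.filter fun i => x i ∈ Ω, f i := by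
  rw [Finset.sum_filter]
  refine Finset.sum_congr rfl fun i _ => ?_
  split_ifs with h
  · rw [indicator_of_mem h, Pi.one_apply, one_mul]
  · rw [indicator_of_notMem h, zero_mul]

theorem cell_of_loc (hΩ : MeasurableSet Ω) (hJ : Measurable J) (hU : Measurable UN)
    (hU0 : ∀ x, 0 ≤ UN x) (hF : Cc1 F) {lam η C : ℝ} (hlam : 0 ≤ lam) (hη : 0 ≤ η) (hC : 0 ≤ C)
    (h : ∀ G : Finset ι, Loc Ω J ε UN F G (lam * G.card) (η * G.card + C)) :
    Cell Ω J ε UN F lam η C := by
  classical
  have hw : ∀ G : Finset ι, Measurable fun x => inQ Ωᶜ Gᶜ x * inQ Ω G x := fun G =>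
    (measurable_inQ hΩ.compl _).mul (measurable_inQ hΩ G)
  have a := Finset.sum_le_sum fun G (_ : G ∈ Finset.univ) =>
    h G (inQ Ωᶜ Gᶜ) (measurable_inQ hΩ.compl _) fun x y e =>
      BFrz_inQ_congr _ fun i hi => e i (Finset.mem_compl.1 hi)
  rw [← lintegral_finsetSum _ fun G _ => (hw G).fun_mul (BFrz_mA Ω hJ hF ε _ G),
    ← lintegral_finsetSum _ fun G _ => (hw G).fun_mul (BFrz_mB hU hF _ G)] at a
  have m2 : Measurable fun x => ENNReal.ofReal (F x ^ 2) :=
    (hF.1.continuous.measurable.pow_const 2).ennreal_ofReal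
  unfold Cell
  rw [← lintegral_const_mul _ m2, ← lintegral_add_right _ (m2.const_mul _)]
  refine le_trans (le_of_eq (lintegral_congr fun x => ?_)) (a.trans (lintegral_mono fun x => ?_))
  · rw [BFrz_one, BFrz_ind, Finset.sum_add_distrib, Finset.mul_sum,
      ← ENNReal.ofReal_sum_of_nonneg fun _ _ => by positivity, Finset.sum_const, nsmul_eq_mul]
    congr 2
    ring
  · beta_reduce
    rw [BFrz_one, BFrz_ind, ← ENNReal.ofReal_sum_of_nonneg fun _ _ => by positivity,
      ← ENNReal.ofReal_mul hC]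
    obtain ⟨G, hG⟩ : ∃ G, G = Finset.univ.filter fun i => x i ∈ Ω := ⟨_, rfl⟩
    rw [← hG]
    have e : (∑ i ∈ G, ‖pgrad F i x‖ ^ 2) + intG UN G x * F x ^ 2 + (η * G.card + C) * F x ^ 2 =
        (∑ i ∈ G, (‖pgrad F i x‖ ^ 2 + η * F x ^ 2)) + intG UN G x * F x ^ 2 + C * F x ^ 2 := by
      rw [Finset.sum_add_distrib, Finset.sum_const, nsmul_eq_mul]
      ring
    rw [e]
    refine ENNReal.ofReal_add_le.trans (add_le_add_left
      (ENNReal.ofReal_add_le.trans (add_le_add_right ?_ _)) _)
    rw [intG, Finset.mul_sum, Finset.sum_mul, ENNReal.ofReal_sum_of_nonneg fun σ _ => by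
      have := hU0 (x ∘ σ)
      positivity]
    refine Finset.sum_le_sum fun σ _ => ?_
    split_ifs with h1
    · have h2 := h1 0
      rw [hG, Finset.mem_filter] at h2
      rw [indicator_of_mem h2.2, Pi.one_apply, one_mul]
    · simp

end Pool.Agent.Lib.MP_8fe63c_mp
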