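import Mathlib

/-!
Elementary real inequalities for the rough condensation estimate.
-/

namespace Pool.Agent.Lib.MP_8fe63c_mp

theorem BReal_key {δ d x y z : ℝ} (hδ : 0 < δ) (hδ1 : δ ≤ 1 / 4) (hdd : δ * d = 1) (hd : 0 < d)
    (hx : 0 ≤ x) (hz : 0 ≤ z) (h : x ≤ (1 + δ) * y + (1 + d) * z) :
    (1 - 2 * δ) * x ≤ (1 - δ) * y + d * z ∧ (1 - 2 * δ) * x ≤ y + d * z := by
  have e : (1 + d) = (1 + δ) * d := by linarith
  have h' : x ≤ (1 + δ) * (y + d * z) := by rw [e] at h; linarith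
  have hy : 0 ≤ y + d * z := by
    by_contra hc
    push Not at hc
    nlinarith
  have hdz : 0 ≤ d * z := by positivity
  have h1 : (1 - 2 * δ) * x ≤ (1 - 2 * δ) * ((1 + δ) * (y + d * z)) :=
    mul_le_mul_of_nonneg_left h' (by linarith)
  have h2 : (1 - 2 * δ) * (1 + δ) ≤ 1 - δ := by nlinarith
  have h3 := mul_le_mul_of_nonneg_right h2 hy
  have h4 := mul_nonneg hδ.le hy
  have h5 := mul_nonneg hδ.le hdz
  constructor <;> nlinarith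

theorem BReal_g5 {δ d x y z : ℝ} (hδ : 0 < δ) (hδ1 : δ ≤ 1 / 4) (hdd : δ * d = 1) (hd : 0 < d)
    (hy : 0 ≤ y) (hz : 0 ≤ z) (h : x ≤ (1 + δ) * y + (1 + d) * z) :
    (1 - 4 * δ) * x ≤ (1 - 3 * δ) * y + d * z := by
  have e : (1 + d) = (1 + δ) * d := by linarith
  have h' : x ≤ (1 + δ) * (y + d * z) := by rw [e] at h; linarith
  have hdz : 0 ≤ d * z := by positivity
  have h1 : (1 - 4 * δ) * x ≤ (1 - 4 * δ) * ((1 + δ) * (y + d * z)) :=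
    mul_le_mul_of_nonneg_left h' (by linarith)
  have h2 : (1 - 4 * δ) * (1 + δ) ≤ 1 - 3 * δ := by nlinarith
  have h3 := mul_le_mul_of_nonneg_right h2 (add_nonneg hy hdz)
  have h5 := mul_nonneg hδ.le hdz
  nlinarith

theorem BReal_g6 {δ d x y z : ℝ} (hδ : 0 < δ) (hδ1 : δ ≤ 1 / 4) (hd : 4 ≤ d)
    (hy : 0 ≤ y) (hz : 0 ≤ z) (h : x ≤ (1 + δ) * y + (1 + d) * (2 * z)) :
    (1 - 3 * δ) * x ≤ y + 4 * d * z := by
  have h1 := mul_le_mul_of_nonneg_left h (show 0 ≤ 1 - 3 * δ by linarith)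
  have a1 : (1 - 3 * δ) * (1 + δ) ≤ 1 := by nlinarith
  have a2 : (1 - 3 * δ) * (1 + d) ≤ 2 * d := by nlinarith
  have b1 := mul_le_mul_of_nonneg_right a1 hy
  have b2 := mul_le_mul_of_nonneg_right a2 hz
  nlinarith

theorem gap_real {m γ δ η L2 A₀ MW MV k r2 A T Tf Af Av E Gv Wu Wf Wv Vu Vf Vv Pv p pv : ℝ}
    (hγ : 0 ≤ γ) (hm : γ ≤ m) (hδ : 0 < δ) (hδ1 : δ ≤ 1 / 4) (hk : 0 ≤ k) (hMW : 0 ≤ MW)
    (hMV : 0 ≤ MV) (hL2 : 0 ≤ L2)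
    (n1 : 4 * δ * m ≤ η / 3) (n2 : m + 4 * γ / δ ≤ A₀) (n3 : L2 / δ ≤ η / 3)
    (n4 : 2 * k ≤ η / 3) (n5 : k ≤ δ / 2)
    (n6 : r2 * ((MW + MV + m + 4 * γ) / δ + 2 * k) ≤ δ / 2)
    (hA : 0 ≤ A) (hTf : 0 ≤ Tf) (hO : Af ≤ A) (hAv : 0 ≤ Av) (hE : 0 ≤ E)
    (hGv : 0 ≤ Gv) (hWv : 0 ≤ Wv) (hVv : 0 ≤ Vv)
    (h1 : Tf ≤ (1 + δ) * T + (1 + 1 / δ) * L2 * A) (h2 : Gv ≤ Tf) (h3 : E ≤ r2 * Tf)
    (h4 : Wf + A₀ * (A - Af) ≤ Wu) (h5 : Wv ≤ (1 + δ) * Wf + (1 + 1 / δ) * MW * E)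
    (h6 : Vf ≤ Vu) (h6' : Vv ≤ (1 + δ) * Vf + (1 + 1 / δ) * MV * E)
    (h7 : Pv ≤ Vv + k * (Av + Gv)) (h8 : m * Av - γ * pv ^ 2 ≤ Gv + Wv + Pv)
    (h9 : Af ≤ (1 + δ) * Av + (1 + 1 / δ) * E) (h9' : Av ≤ 2 * Af + 2 * E)
    (h10 : pv ^ 2 ≤ (1 + δ) * p ^ 2 + (1 + 1 / δ) * (2 * (A - Af) + 2 * E)) :
    m * A ≤ (1 - δ) * T + Wu + (1 - δ) * Vu + η * A + γ * p ^ 2 := by
  have hm0 : 0 ≤ m := hγ.trans hm
  have hd0 : 0 < 1 / δ := by positivity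
  have hdd : δ * (1 / δ) = 1 := by field_simp
  have hd4 : 4 ≤ 1 / δ := by rw [le_div_iff₀ hδ]; linarith
  have n2' : m + 4 * γ * (1 / δ) ≤ A₀ := by rwa [mul_one_div]
  have n3' : (1 / δ) * L2 ≤ η / 3 := by rwa [one_div_mul_eq_div]
  have n6' : r2 * ((MW + MV + m + 4 * γ) * (1 / δ) + 2 * k) ≤ δ / 2 := by rwa [mul_one_div]
  generalize 1 / δ = d at *
  have k1 := (BReal_key (y := T) hδ hδ1 hdd hd0 hTf (mul_nonneg hL2 hA) (by linarith)).1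
  have k5 := (BReal_key (y := Wf) hδ hδ1 hdd hd0 hWv (mul_nonneg hMW hE) (by linarith)).2
  have k6 := (BReal_key (y := Vf) hδ hδ1 hdd hd0 hVv (mul_nonneg hMV hE) (by linarith)).1
  have hκ : 0 ≤ 1 - 3 * δ := by linarith
  have g1 := mul_le_mul_of_nonneg_left h8 hκ
  have g2 := mul_le_mul_of_nonneg_left h7 hκ
  have g2a := mul_nonneg hδ.le hVv
  have g2b := mul_nonneg hδ.le (mul_nonneg hk (add_nonneg hAv hGv))
  have g3 := mul_nonneg hδ.le hWv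
  have g4 := mul_le_mul_of_nonneg_left h2 hκ
  have g5 := mul_le_mul_of_nonneg_left (BReal_g5 hδ hδ1 hdd hd0 hAv hE h9) hm0
  have g6 := mul_le_mul_of_nonneg_left (BReal_g6 (x := pv ^ 2) (z := A - Af + E) hδ hδ1 hd4
    (sq_nonneg p) (by linarith) (by linarith)) hγ
  have g7 : k * (Av + Gv) ≤ k * (2 * A + 2 * E + Tf) :=
    mul_le_mul_of_nonneg_left (by linarith) hk
  have hc : 0 ≤ (MW + MV + m + 4 * γ) * d + 2 * k := by positivity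
  have g8 := mul_le_mul_of_nonneg_left h3 hc
  have g8' := mul_le_mul_of_nonneg_right n6' hTf
  have g9 := mul_le_mul_of_nonneg_right n2' (sub_nonneg.2 hO)
  have g10 := mul_le_mul_of_nonneg_right n1 hA
  have g11 := mul_le_mul_of_nonneg_right n3' hA
  have g12 := mul_le_mul_of_nonneg_right n4 hA
  have g13 := mul_le_mul_of_nonneg_right n5 hTf
  have g14 : (1 - δ) * Vf ≤ (1 - δ) * Vu := mul_le_mul_of_nonneg_left h6 (by linarith)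
  have g15 : 4 * δ * m * Af ≤ 4 * δ * m * A := mul_le_mul_of_nonneg_left hO (by positivity)
  linarith

end Pool.Agent.Lib.MP_8fe63c_mp
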