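import Pool.Agent.Lib.MP_8fe63c_mp.BConv
import Pool.Agent.Lib.MP_8fe63c_mp.BReal

/-!
The spectral gap survives when the kinetic energy is replaced by the nonlocal energy.

Sketch. `trap_gap`: `T.B.par0`, `T.B.par1` for `v` (`Cc1.inF`), `ν a ≥ μ + γ` for `a ≠ o`, `ν o = μ`,
`e o = φ`; `qf_split`. `gap_nl`: let `m = μ + γ`, `C₄` the constant of `sobolev4`. Choose `δ ≤ 1/4` with
`4 δ m ≤ η/3`, `A₀ = m + 4 γ/δ`, `R₁` with `W ≥ A₀` outside the ball of radius `R₁` (`Grows`) and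
`3 (L₀/R₁)^2/δ ≤ η/3` (`exists_chi`), `MW` a bound of `W` on the ball of radius `2 R₁ + 1`, `R = 2 R₁ + 2`,
`ε = δ`, and `ξ ≤ 1` so small that the last three numerical hypotheses of `gap_real` hold with
`k = b/2 * ξ * √C₄`, `r2 = r^2 ≤ ξ^2`, `MV = b/2 * M^4`. For `u` put `f = χ u`, `v = cv ρ f` and apply `gap_real`
to `A = ∫ u^2`, `T = (nl univ J u).toReal` (finite by `nl_le_cc1`), `Tf = (nl univ J f).toReal`,
`Af = ∫ f^2`, `Av = ∫ v^2`, `E = ∫ (v - f)^2`, `Gv = ∫ ‖∇v‖^2`, `Wu = ∫ W u^2`, `Wf`, `Wv`, `Vu = b/2 ∫ V u^2`, `Vf`,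
`Vv`, `Pv = b/2 ∫ φ^4 v^2`, `p = ∫ φ u`, `pv = ∫ φ v`. The hypotheses follow from `nl_mul_le`, `cv_grad`,
`cv_close`, the pointwise inequality `a^2 ≤ (1 + δ) b^2 + (1 + 1/δ) (a - b)^2`, Cauchy-Schwarz
(`∫ (φ^4 - V) v^2 ≤ ξ * √(∫ v^4)`, `v = 0` outside the ball of radius `R`), and
`(1 - χ)^2 ≤ 1 - χ^2`.
-/

set_option linter.unusedSectionVars false

open MeasureTheory Set Filter Topology
open scoped ENNReal InnerProductSpace

namespace Pool.Agent.Lib.MP_8fe63c_mp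

variable {W : R3 → ℝ} {b : ℝ}

theorem BGap_sub {u v : R3 → ℝ} (hu : Cc1 u) (hv : Cc1 v) : Cc1 (fun y => u y - v y) :=
  ⟨hu.1.sub hv.1, hu.2.sub hv.2⟩

theorem BGap_int {v : R3 → ℝ} (hv : Cc1 v) : Integrable (fun y => v y ^ 2) :=
  OSob_int_u pot_zero hv.inF

theorem BGap_intP {P v : R3 → ℝ} (hP : Pot P) (hv : Cc1 v) :
    Integrable (fun y => P y * v y ^ 2) := by
  have h := (hv.inF (Ω := univ)).integrable_W hP hv.inF
  rw [integrableOn_univ] at h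
  refine h.congr (Eventually.of_forall fun y => ?_)
  simp only
  ring

theorem BGap_pot {P : R3 → ℝ} (hm : Measurable P) {M : ℝ} (h : ∀ y, 0 ≤ P y ∧ P y ≤ M) : Pot P :=
  ⟨hm, fun y => (h y).1, fun _ => ⟨M, fun y _ => (h y).2⟩⟩

theorem BGap_pt {δ : ℝ} (hδ : 0 < δ) (a c : ℝ) :
    a ^ 2 ≤ (1 + δ) * c ^ 2 + (1 + 1 / δ) * (a - c) ^ 2 := by
  have h : (1 + δ) * c ^ 2 + (1 + 1 / δ) * (a - c) ^ 2 - a ^ 2 = (δ * c - (a - c)) ^ 2 / δ := by
    field_simp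
    ring
  have h2 : 0 ≤ (δ * c - (a - c)) ^ 2 / δ := by positivity
  linarith

theorem BGap_cmp {P u v : R3 → ℝ} (hP : Pot P) (hu : Cc1 u) (hv : Cc1 v) {M δ : ℝ} (hδ : 0 < δ)
    (hM : ∀ y, u y - v y ≠ 0 → P y ≤ M) :
    ∫ y, P y * u y ^ 2 ≤
      (1 + δ) * (∫ y, P y * v y ^ 2) + (1 + 1 / δ) * M * ∫ y, (u y - v y) ^ 2 := by
  have i1 := (BGap_intP hP hv).const_mul (1 + δ)
  have i2 := (BGap_int (BGap_sub hu hv)).const_mul ((1 + 1 / δ) * M)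
  rw [← integral_const_mul, ← integral_const_mul, ← integral_add i1 i2]
  refine integral_mono (BGap_intP hP hu) (i1.add i2) fun y => ?_
  have h1 := mul_le_mul_of_nonneg_left (BGap_pt hδ (u y) (v y)) (hP.nonneg y)
  have h2 : P y * (u y - v y) ^ 2 ≤ M * (u y - v y) ^ 2 := by
    by_cases h : u y - v y = 0
    · rw [h]
      simp
    · exact mul_le_mul_of_nonneg_right (hM y h) (sq_nonneg _)
  have h3 := mul_le_mul_of_nonneg_left h2 (show 0 ≤ 1 + 1 / δ by positivity)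
  simp only
  linarith

theorem BGap_cmp1 {u v : R3 → ℝ} (hu : Cc1 u) (hv : Cc1 v) {δ : ℝ} (hδ : 0 < δ) :
    ∫ y, u y ^ 2 ≤ (1 + δ) * (∫ y, v y ^ 2) + (1 + 1 / δ) * ∫ y, (u y - v y) ^ 2 := by
  have h := BGap_cmp (P := fun _ => 1) (M := 1)
    (BGap_pot measurable_const (M := 1) fun _ => ⟨zero_le_one, le_rfl⟩) hu hv hδ fun _ _ => le_rfl
  simpa only [one_mul, mul_one] using h

theorem BGap_cs {f g : R3 → ℝ} (hf : Integrable (fun y => f y ^ 2))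
    (hg : Integrable (fun y => g y ^ 2)) (hfg : Integrable (fun y => f y * g y)) :
    (∫ y, f y * g y) ^ 2 ≤ (∫ y, f y ^ 2) * ∫ y, g y ^ 2 := by
  have h := discrim_le_zero (a := ∫ y, f y ^ 2) (b := 2 * ∫ y, f y * g y) (c := ∫ y, g y ^ 2)
    fun t => by
      have e : ∫ y, (t * f y + g y) ^ 2 =
          (∫ y, f y ^ 2) * (t * t) + 2 * (∫ y, f y * g y) * t + ∫ y, g y ^ 2 := by
        have i1 := hf.mul_const (t * t)
        have i2 := (hfg.const_mul 2).mul_const t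
        have i3 : Integrable fun y => f y ^ 2 * (t * t) + 2 * (f y * g y) * t := i1.add i2
        rw [← integral_mul_const, ← integral_const_mul, ← integral_mul_const,
          ← integral_add i1 i2, ← integral_add i3 hg]
        refine integral_congr_ae (Eventually.of_forall fun y => ?_)
        simp only
        ring
      rw [← e]
      exact integral_nonneg fun y => sq_nonneg _
  rw [discrim] at h
  linarith

theorem BGap_bessel (T : Trap W b) {w : R3 → ℝ} (hw : Cc1 w) :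
    (∫ y, T.φ y * w y) ^ 2 ≤ ∫ y, w y ^ 2 := by
  have h := le_hasSum (T.B.par0 w hw.OBas_u) T.o fun _ _ => sq_nonneg _
  rw [T.e_o] at h
  simpa only [ip, Measure.restrict_univ] using h

theorem BGap_intφ (hW : Pot W) (hb : 0 ≤ b) (T : Trap W b) {w : R3 → ℝ} (hw : Cc1 w) :
    Integrable (fun y => T.φ y * w y) := by
  have h := (T.B.inF T.o).integrable_mul (T.pot hW hb) hw.inF
  rwa [T.e_o, integrableOn_univ] at h

theorem BGap_h10 (hW : Pot W) (hb : 0 ≤ b) (T : Trap W b) {u v χ : R3 → ℝ} (hu : Cc1 u)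
    (hv : Cc1 v) (hχ : Cc1 χ) (h01 : ∀ y, 0 ≤ χ y ∧ χ y ≤ 1) {δ : ℝ} (hδ : 0 < δ) :
    (∫ y, T.φ y * v y) ^ 2 ≤ (1 + δ) * (∫ y, T.φ y * u y) ^ 2 + (1 + 1 / δ) *
      (2 * ((∫ y, u y ^ 2) - ∫ y, (χ y * u y) ^ 2) + 2 * ∫ y, (v y - χ y * u y) ^ 2) := by
  have hf := OChain_cc1_mul hχ.1 hu
  have h1 := BGap_pt hδ (∫ y, T.φ y * v y) (∫ y, T.φ y * u y)
  have h2 := BGap_bessel T (BGap_sub hv hu)
  have e : ∫ y, T.φ y * (v y - u y) = (∫ y, T.φ y * v y) - ∫ y, T.φ y * u y := by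
    rw [← integral_sub (BGap_intφ hW hb T hv) (BGap_intφ hW hb T hu)]
    simp only [mul_sub]
  have h3 : ∫ y, (v y - u y) ^ 2 ≤
      2 * ((∫ y, u y ^ 2) - ∫ y, (χ y * u y) ^ 2) + 2 * ∫ y, (v y - χ y * u y) ^ 2 := by
    have i0 : Integrable fun y => u y ^ 2 - (χ y * u y) ^ 2 := (BGap_int hu).sub (BGap_int hf)
    have i1 := i0.const_mul 2
    have i2 := (BGap_int (BGap_sub hv hf)).const_mul 2
    rw [← integral_sub (BGap_int hu) (BGap_int hf), ← integral_const_mul, ← integral_const_mul,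
      ← integral_add i1 i2]
    refine integral_mono (BGap_int (BGap_sub hv hu)) (i1.add i2) fun y => ?_
    have a1 := mul_nonneg (mul_nonneg (h01 y).1 (sub_nonneg.2 (h01 y).2)) (sq_nonneg (u y))
    simp only
    nlinarith [sq_nonneg (v y - χ y * u y - (χ y * u y - u y))]
  rw [e] at h2
  have h4 := mul_le_mul_of_nonneg_left (h2.trans h3) (show 0 ≤ 1 + 1 / δ by positivity)
  linarith

theorem BGap_h7 {φ V v : R3 → ℝ} {M R ξ C : ℝ} (hφ : Measurable φ) (hV : Measurable V)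
    (hφ4 : ∀ y, 0 ≤ φ y ^ 4 ∧ φ y ^ 4 ≤ M) (hV4 : ∀ y, 0 ≤ V y ∧ V y ≤ M) (hv : Cc1 v)
    (hs : ∀ y, v y ≠ 0 → ‖y‖ < R) (hξ : 0 ≤ ξ) (hC : 1 ≤ C)
    (hI : ∫⁻ y in Metric.ball (0 : R3) R, ENNReal.ofReal ((V y - φ y ^ 4) ^ 2) ≤
      ENNReal.ofReal (ξ ^ 2))
    (h4 : Integrable (fun x => v x ^ 4) ∧
      ∫ x, v x ^ 4 ≤ C * ((∫ x, v x ^ 2) + ∫ x, ‖gradient v x‖ ^ 2) ^ 2) :
    ∫ y, φ y ^ 4 * v y ^ 2 ≤
      (∫ y, V y * v y ^ 2) + ξ * C * ((∫ x, v x ^ 2) + ∫ x, ‖gradient v x‖ ^ 2) := by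
  have i1 := BGap_intP (BGap_pot (hφ.pow_const 4) hφ4) hv
  have i2 := BGap_intP (BGap_pot hV hV4) hv
  obtain ⟨f, hf⟩ : ∃ f : R3 → ℝ, f = indicator (Metric.ball (0 : R3) R) fun y => φ y ^ 4 - V y :=
    ⟨_, rfl⟩
  have hfm : Measurable f := by
    rw [hf]
    exact ((hφ.pow_const 4).sub hV).indicator measurableSet_ball
  have e1 : ∀ y, f y * v y ^ 2 = φ y ^ 4 * v y ^ 2 - V y * v y ^ 2 := fun y => by
    by_cases h : v y = 0
    · rw [h]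
      ring
    · rw [hf, indicator_of_mem (mem_ball_zero_iff.2 (hs y h))]
      ring
  obtain ⟨j1, j2⟩ := OSob_of_lint (f := fun y => f y ^ 2) (hfm.pow_const 2) (fun _ => sq_nonneg _)
    (sq_nonneg ξ) (by
      refine le_trans (le_of_eq ?_) hI
      rw [← lintegral_indicator measurableSet_ball]
      refine lintegral_congr fun y => ?_
      by_cases h : y ∈ Metric.ball (0 : R3) R
      · rw [hf, indicator_of_mem h, indicator_of_mem h]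
        congr 1
        ring
      · rw [hf, indicator_of_notMem h, indicator_of_notMem h]
        simp)
  have e2 : ∀ y, (v y ^ 2) ^ 2 = v y ^ 4 := fun y => by ring
  have h := BGap_cs (g := fun y => v y ^ 2) j1 (by simpa only [e2] using h4.1)
    (by simp only [e1]; exact i1.sub i2)
  simp only [e1, e2] at h
  rw [integral_sub i1 i2] at h
  obtain ⟨S, hS⟩ : ∃ S, S = (∫ x, v x ^ 2) + ∫ x, ‖gradient v x‖ ^ 2 := ⟨_, rfl⟩
  have hS0 : 0 ≤ S := by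
    rw [hS]
    exact add_nonneg (integral_nonneg fun _ => sq_nonneg _) (integral_nonneg fun _ => sq_nonneg _)
  rw [← hS] at h4 ⊢
  have a1 : (∫ y, f y ^ 2) * ∫ y, v y ^ 4 ≤ ξ ^ 2 * (C * S ^ 2) :=
    mul_le_mul j2 h4.2 (integral_nonneg fun _ => by positivity) (sq_nonneg _)
  have a2 : ξ ^ 2 * (C * S ^ 2) ≤ (ξ * C * S) ^ 2 := by
    have a3 : C ≤ C ^ 2 := by nlinarith
    have a4 := mul_le_mul_of_nonneg_left a3 (mul_nonneg (sq_nonneg ξ) (sq_nonneg S))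
    linarith
  have a5 := abs_le_of_sq_le_sq' (h.trans (a1.trans a2)) (by positivity)
  linarith [a5.2]

theorem BGap_small {X Y : ℝ} (hX : 0 ≤ X) (hY : 0 < Y) :
    ∃ ξ : ℝ, 0 < ξ ∧ ξ ≤ 1 ∧ ξ * X ≤ Y := by
  refine ⟨min 1 (Y / (X + 1)), lt_min one_pos (by positivity), min_le_left _ _, ?_⟩
  have h1 : min 1 (Y / (X + 1)) * X ≤ Y / (X + 1) * (X + 1) :=
    mul_le_mul (min_le_right _ _) (by linarith) hX (by positivity)
  rwa [div_mul_cancel₀ _ (by positivity)] at h1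

theorem trap_gap (hW : Pot W) (hb : 0 ≤ b) (T : Trap W b) {v : R3 → ℝ} (hv : Cc1 v) :
    (T.μ + T.γ) * (∫ y, v y ^ 2) - T.γ * (∫ y, T.φ y * v y) ^ 2 ≤
      (∫ y, ‖gradient v y‖ ^ 2) + (∫ y, W y * v y ^ 2) + b / 2 * ∫ y, T.φ y ^ 4 * v y ^ 2 := by
  have h := T.B.gap_ineq (T.pot hW hb) T.o T.ν_o T.gap hv.inF
  rw [T.e_o, OTrap_qf hW T.meas T.φ_nonneg T.φ_le hv.inF, qf_split hW hv.inF hv.inF] at h
  simp only [ip, Measure.restrict_univ, real_inner_self_eq_norm_sq, ← sq, mul_assoc] at h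
  linarith

theorem BGap_core (hW : Pot W) (hb : 0 ≤ b) (T : Trap W b) {δ η L A₀ MW R₁ ξ C r c₀ t : ℝ}
    {J ρ V χ u : R3 → ℝ} (hδ : 0 < δ) (hδ1 : δ ≤ 1 / 4) (hξ : 0 < ξ) (hξ1 : ξ ≤ 1) (hC : 1 ≤ C)
    (hR : 0 ≤ R₁) (n1 : 4 * δ * (T.μ + T.γ) ≤ η / 3) (n2 : T.μ + T.γ + 4 * T.γ / δ ≤ A₀)
    (n3 : 3 * L ^ 2 / δ ≤ η / 3)
    (n4 : ξ * (b * C + (MW + b / 2 * T.M ^ 4 + (T.μ + T.γ) + 4 * T.γ) / δ) ≤ min (η / 3) (δ / 2))
    (hA : ∀ y, R₁ ≤ ‖y‖ → A₀ ≤ W y) (hMW : ∀ y, ‖y‖ ≤ 2 * R₁ + 1 → W y ≤ MW)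
    (hS : ∀ v : R3 → ℝ, Cc1 v → Integrable (fun x => v x ^ 4) ∧
      ∫ x, v x ^ 4 ≤ C * ((∫ x, v x ^ 2) + ∫ x, ‖gradient v x‖ ^ 2) ^ 2)
    (hχ : Cc1 χ) (h01 : ∀ y, 0 ≤ χ y ∧ χ y ≤ 1) (hχ1 : ∀ y, ‖y‖ ≤ R₁ → χ y = 1)
    (hχ0 : ∀ y, χ y ≠ 0 → ‖y‖ ≤ 2 * R₁) (hL : ∀ y z, |χ y - χ z| ≤ L * ‖y - z‖)
    (h : Moll r c₀ J ρ) (hr : r ≤ ξ) (hV : Measurable V) (hV4 : ∀ y, 0 ≤ V y ∧ V y ≤ T.M ^ 4)
    (hI : ∫⁻ y in Metric.ball (0 : R3) (2 * R₁ + 2), ENNReal.ofReal ((V y - T.φ y ^ 4) ^ 2) ≤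
      ENNReal.ofReal (ξ ^ 2)) (hu : Cc1 u) (ht0 : 0 ≤ t) (ht : nl univ J u = ENNReal.ofReal t) :
    (T.μ + T.γ) * (∫ y, u y ^ 2) ≤ (1 - δ) * t + (∫ y, W y * u y ^ 2) +
      (1 - δ) * (b / 2 * ∫ y, V y * u y ^ 2) + η * (∫ y, u y ^ 2) +
      T.γ * (∫ y, T.φ y * u y) ^ 2 := by
  have hf := OChain_cc1_mul hχ.1 hu
  have hv := h.cv_cc1 hf
  have hγ := T.γ_pos
  have hμ := T.μ_nonneg hW hb
  have hr0 := h.r_pos
  have hb2 : 0 ≤ b / 2 := by linarith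
  have hMW0 : 0 ≤ MW := (hW.nonneg 0).trans (hMW 0 (by rw [norm_zero]; linarith))
  have hMV0 : 0 ≤ b / 2 * T.M ^ 4 := by positivity
  obtain ⟨Q, hQ⟩ : ∃ Q, Q = (MW + b / 2 * T.M ^ 4 + (T.μ + T.γ) + 4 * T.γ) / δ := ⟨_, rfl⟩
  have hQ0 : 0 ≤ Q := by
    rw [hQ]
    positivity
  rw [← hQ] at n4
  have hbC : 0 ≤ b * C := mul_nonneg hb (by linarith)
  have p1 := mul_nonneg hξ.le hQ0
  have p2 := mul_nonneg hξ.le hbC
  have p3 := n4.trans (min_le_left _ _)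
  have p4 := n4.trans (min_le_right _ _)
  have p5 : r ^ 2 ≤ ξ := by nlinarith
  have p6 : ξ * (b * C) ≤ b * C := mul_le_of_le_one_left hbC hξ1
  have p7 : r ^ 2 * (Q + ξ * (b * C)) ≤ ξ * (b * C + Q) :=
    mul_le_mul p5 (by linarith) (by linarith) hξ.le
  have q1 : 0 ≤ b / 2 * (ξ * C) := by linarith
  have q2 : 2 * (b / 2 * (ξ * C)) ≤ η / 3 := by linarith
  have q3 : b / 2 * (ξ * C) ≤ δ / 2 := by linarith
  have q4 : r ^ 2 * (Q + 2 * (b / 2 * (ξ * C))) ≤ δ / 2 := by linarith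
  have q5 : T.γ ≤ T.μ + T.γ := by linarith
  rw [hQ] at q4
  clear p1 p2 p3 p4 p5 p6 p7 n4 hQ0 hQ hbC
  have hPV := BGap_pot hV hV4
  have fs : ∀ y, χ y * u y ≠ 0 → ‖y‖ ≤ 2 * R₁ := fun y hy => hχ0 y (left_ne_zero_of_mul hy)
  have vs := h.cv_supp fs
  have hfin : nl univ J (fun y => χ y * u y) ≠ ⊤ := by
    refine ne_top_of_le_ne_top ?_ (nl_le_cc1 h MeasurableSet.univ convex_univ hf)
    rw [Measure.restrict_univ, OSob_lint_G pot_zero hf.inF]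
    exact ENNReal.ofReal_ne_top
  obtain ⟨tf, htf0, htf⟩ : ∃ tf : ℝ, 0 ≤ tf ∧ nl univ J (fun y => χ y * u y) = ENNReal.ofReal tf :=
    ⟨_, ENNReal.toReal_nonneg, (ENNReal.ofReal_toReal hfin).symm⟩
  have hA0 : 0 ≤ ∫ y, u y ^ 2 := integral_nonneg fun _ => sq_nonneg _
  have h1 : tf ≤ (1 + δ) * t + (1 + 1 / δ) * (3 * L ^ 2) * ∫ y, u y ^ 2 := by
    have a := nl_mul_le h hχ.1.continuous.measurable hu.1.continuous.measurable
      (fun y => by rw [abs_of_nonneg (h01 y).1]; exact (h01 y).2) hL hδ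
    rw [htf, ht, ← ofReal_integral_eq_lintegral_ofReal (BGap_int hu)
      (Eventually.of_forall fun _ => sq_nonneg _), ← ENNReal.ofReal_mul (by positivity),
      ← ENNReal.ofReal_mul (by positivity),
      ← ENNReal.ofReal_add (by positivity) (by positivity)] at a
    exact (ENNReal.ofReal_le_ofReal_iff (by positivity)).1 a
  have h2 := (OSob_of_lint (hv.continuous_gradient.measurable.norm.pow_const 2)
    (fun _ => sq_nonneg _) htf0 (htf ▸ h.cv_grad hf)).2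
  have h3 := (OSob_of_lint ((BGap_sub hv hf).1.continuous.measurable.pow_const 2)
    (fun _ => sq_nonneg _) (mul_nonneg (sq_nonneg r) htf0) (by
      rw [ENNReal.ofReal_mul (sq_nonneg r), ← htf]
      exact h.cv_close hf)).2
  have h8 := trap_gap hW hb T hv
  have h10 := BGap_h10 hW hb T hu hv hχ h01 hδ
  have h7 := BGap_h7 T.meas hV
    (fun y => ⟨pow_nonneg (T.φ_nonneg y) 4, OTrap_pow4_le T.φ_nonneg T.φ_le y⟩) hV4 hv
    (fun y hy => by linarith [vs y hy]) hξ.le hC hI (hS _ hv)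
  have h5 := BGap_cmp hW hv hf (M := MW) hδ fun y hy => hMW y (by
    by_cases e : χ y * u y = 0
    · rw [e, sub_zero] at hy
      linarith [vs y hy]
    · linarith [fs y e])
  have h6' := BGap_cmp hPV hv hf hδ fun y _ => (hV4 y).2
  have h9 := BGap_cmp1 hf hv hδ
  have h9' := BGap_cmp1 hv hf one_pos
  have e9 : ∫ y, (χ y * u y - cv ρ (fun y => χ y * u y) y) ^ 2 =
      ∫ y, (cv ρ (fun y => χ y * u y) y - χ y * u y) ^ 2 :=
    integral_congr_ae (Eventually.of_forall fun y => by simp only; ring)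
  rw [e9] at h9
  have hsq : ∀ y, (χ y * u y) ^ 2 ≤ u y ^ 2 := fun y => by
    have a1 : χ y ^ 2 ≤ 1 := pow_le_one₀ (h01 y).1 (h01 y).2
    have a2 := mul_le_mul_of_nonneg_right a1 (sq_nonneg (u y))
    rw [mul_pow]
    linarith
  have hO : ∫ y, (χ y * u y) ^ 2 ≤ ∫ y, u y ^ 2 := integral_mono (BGap_int hf) (BGap_int hu) hsq
  have h6 : ∫ y, V y * (χ y * u y) ^ 2 ≤ ∫ y, V y * u y ^ 2 :=
    integral_mono (BGap_intP hPV hf) (BGap_intP hPV hu) fun y =>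
      mul_le_mul_of_nonneg_left (hsq y) (hV4 y).1
  have h4 : (∫ y, W y * (χ y * u y) ^ 2) + A₀ * ((∫ y, u y ^ 2) - ∫ y, (χ y * u y) ^ 2) ≤
      ∫ y, W y * u y ^ 2 := by
    have i0 : Integrable fun y => u y ^ 2 - (χ y * u y) ^ 2 := (BGap_int hu).sub (BGap_int hf)
    have i1 := i0.const_mul A₀
    rw [← integral_sub (BGap_int hu) (BGap_int hf), ← integral_const_mul,
      ← integral_add (BGap_intP hW hf) i1]
    refine integral_mono ((BGap_intP hW hf).add i1) (BGap_intP hW hu) fun y => ?_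
    simp only
    rcases le_total ‖y‖ R₁ with e | e
    · rw [hχ1 y e, one_mul, sub_self, mul_zero, add_zero]
    · have a := mul_le_mul_of_nonneg_right (hA y e) (sub_nonneg.2 (hsq y))
      linarith
  refine gap_real (k := b / 2 * (ξ * C)) (r2 := r ^ 2) (MV := b / 2 * T.M ^ 4)
    (Vf := b / 2 * ∫ y, V y * (χ y * u y) ^ 2)
    (Vv := b / 2 * ∫ y, V y * cv ρ (fun y => χ y * u y) y ^ 2)
    hγ.le q5 hδ hδ1 q1 hMW0 hMV0 (by positivity) n1 n2 n3 q2 q3 q4 hA0 htf0 hO (integral_nonneg fun _ => sq_nonneg _)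
    (integral_nonneg fun _ => sq_nonneg _) (integral_nonneg fun _ => sq_nonneg _)
    (integral_nonneg fun y => mul_nonneg (hW.nonneg y) (sq_nonneg _))
    (mul_nonneg hb2 (integral_nonneg fun y => mul_nonneg (hV4 y).1 (sq_nonneg _)))
    h1 h2 h3 h4 h5 (mul_le_mul_of_nonneg_left h6 hb2) ?_ ?_ h8 h9 (h9'.trans_eq (by ring)) h10
  · exact (mul_le_mul_of_nonneg_left h6' hb2).trans_eq (by ring)
  · exact (mul_le_mul_of_nonneg_left h7 hb2).trans_eq (by ring)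

theorem gap_nl (hW : Pot W) (hg : Grows W) (hb : 0 ≤ b) (T : Trap W b) {η : ℝ} (hη : 0 < η) :
    ∃ ε R ξ : ℝ, 0 < ε ∧ ε ≤ 1 ∧ 0 < R ∧ 0 < ξ ∧ ∀ {r c₀ : ℝ} {J ρ V : R3 → ℝ}, Moll r c₀ J ρ →
      r ≤ ξ → Measurable V → (∀ y, 0 ≤ V y ∧ V y ≤ T.M ^ 4) →
      ∫⁻ y in Metric.ball (0 : R3) R, ENNReal.ofReal ((V y - T.φ y ^ 4) ^ 2) ≤
        ENNReal.ofReal (ξ ^ 2) →
      GapOK T.φ W (fun y => (1 - ε) * (b / 2) * V y) J (T.μ + T.γ) T.γ ε η := by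
  have hγ := T.γ_pos
  have hμ := T.μ_nonneg hW hb
  obtain ⟨C, hC, hS⟩ := sobolev4
  obtain ⟨L₀, hL₀, hχ⟩ := exists_chi
  obtain ⟨δ', hδ', hδ1', n1'⟩ := BGap_small (X := T.μ + T.γ) (Y := η / 3) (by linarith) (by linarith)
  obtain ⟨δ, hδe⟩ : ∃ δ, δ = δ' / 4 := ⟨_, rfl⟩
  have hδ : 0 < δ := by linarith
  have hδ1 : δ ≤ 1 / 4 := by linarith
  have n1 : 4 * δ * (T.μ + T.γ) ≤ η / 3 := by
    rw [hδe]
    linarith
  obtain ⟨R', hR'⟩ := hg (T.μ + T.γ + 4 * T.γ / δ)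
  obtain ⟨s, hs, hs1, n3'⟩ := BGap_small (X := 3 * L₀ ^ 2 / δ) (Y := η / 3) (by positivity)
    (by linarith)
  obtain ⟨R₁, hR₁⟩ : ∃ R₁, R₁ = max R' (1 / s) := ⟨_, rfl⟩
  have hR1 : 1 / s ≤ R₁ := hR₁ ▸ le_max_right _ _
  have hR0 : 0 < R₁ := lt_of_lt_of_le (by positivity) hR1
  have n3 : 3 * (L₀ / R₁) ^ 2 / δ ≤ η / 3 := by
    have a1 : 1 / R₁ ≤ s := by
      rw [div_le_iff₀ hR0]
      rw [div_le_iff₀ hs] at hR1
      linarith
    have a2 : (1 / R₁) ^ 2 ≤ s := by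
      have a3 : 0 < 1 / R₁ := by positivity
      nlinarith
    have a4 := mul_le_mul_of_nonneg_right a2 (show 0 ≤ 3 * L₀ ^ 2 / δ by positivity)
    refine le_trans (le_of_eq ?_) (a4.trans n3')
    ring
  obtain ⟨χ, c1, c2, c3, c4, c5⟩ := hχ R₁ hR0
  obtain ⟨MW, hMW⟩ := hW.locBdd (2 * R₁ + 1)
  have hMW0 : 0 ≤ MW := (hW.nonneg 0).trans (hMW 0 (by rw [norm_zero]; linarith))
  obtain ⟨ξ, hξ, hξ1, n4⟩ := BGap_small
    (X := b * C + (MW + b / 2 * T.M ^ 4 + (T.μ + T.γ) + 4 * T.γ) / δ) (Y := min (η / 3) (δ / 2))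
    (by positivity) (lt_min (by linarith) (by linarith))
  refine ⟨δ, 2 * R₁ + 2, ξ, hδ, by linarith, by linarith, hξ,
    fun {r c₀ J ρ V} h hr hV hV4 hI u hu => ?_⟩
  have hfin : nl univ J u ≠ ⊤ := by
    refine ne_top_of_le_ne_top ?_ (nl_le_cc1 h MeasurableSet.univ convex_univ hu)
    rw [Measure.restrict_univ, OSob_lint_G pot_zero hu.inF]
    exact ENNReal.ofReal_ne_top
  have ht := (ENNReal.ofReal_toReal hfin).symm
  have key := BGap_core hW hb T hδ hδ1 hξ hξ1 hC hR0.le n1 le_rfl n3 n4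
    (fun y hy => hR' y ((hR₁ ▸ le_max_left _ _ : R' ≤ R₁).trans hy)) hMW
    (fun v hv => hS _ v _ pot_zero hv.inF) c1 c2 c3 c4 c5 h hr hV hV4 hI hu
    ENNReal.toReal_nonneg ht
  have hd : 0 ≤ 1 - δ := by linarith
  have hc : 0 ≤ (1 - δ) * (b / 2) := mul_nonneg hd (by linarith)
  have i1 := BGap_intP hW hu
  have i2 := (BGap_intP (BGap_pot hV hV4) hu).const_mul ((1 - δ) * (b / 2))
  have i3 := (BGap_int hu).const_mul η
  have i4 : Integrable fun y => W y * u y ^ 2 + (1 - δ) * (b / 2) * (V y * u y ^ 2) := i1.add i2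
  have e1 : ∀ y, (W y + (1 - δ) * (b / 2) * V y + η) * u y ^ 2 =
      W y * u y ^ 2 + (1 - δ) * (b / 2) * (V y * u y ^ 2) + η * u y ^ 2 := fun y => by ring
  have nn : ∀ y, 0 ≤ W y * u y ^ 2 + (1 - δ) * (b / 2) * (V y * u y ^ 2) + η * u y ^ 2 := fun y =>
    add_nonneg (add_nonneg (mul_nonneg (hW.nonneg y) (sq_nonneg _))
      (mul_nonneg hc (mul_nonneg (hV4 y).1 (sq_nonneg _)))) (mul_nonneg hη.le (sq_nonneg _))
  have i5 : Integrable fun y =>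
      W y * u y ^ 2 + (1 - δ) * (b / 2) * (V y * u y ^ 2) + η * u y ^ 2 := i4.add i3
  simp only [e1]
  rw [ht, ← ofReal_integral_eq_lintegral_ofReal (BGap_int hu)
      (Eventually.of_forall fun _ => sq_nonneg _),
    ← ofReal_integral_eq_lintegral_ofReal i5 (Eventually.of_forall nn),
    ← ENNReal.ofReal_mul (by linarith), ← ENNReal.ofReal_mul hd,
    ← ENNReal.ofReal_add (mul_nonneg hd ENNReal.toReal_nonneg) (integral_nonneg nn),
    ← ENNReal.ofReal_add (add_nonneg (mul_nonneg hd ENNReal.toReal_nonneg) (integral_nonneg nn))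
      (mul_nonneg hγ.le (sq_nonneg _))]
  refine ENNReal.ofReal_le_ofReal ?_
  rw [integral_add i4 i3, integral_add i1 i2, integral_const_mul, integral_const_mul]
  linarith

end Pool.Agent.Lib.MP_8fe63c_mp
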