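import Pool.Agent.Lib.MP_8fe63c_mp.HGreen

/-!
The weak equation for the Green operator.

Sketch. Fix `Cc1 ζ` and put `φ t = ∫ ζ x * heat t F x dx = ∫ z, pk (1/2) z * ∫ y, F y * ζ (y + √(2t) z)`
(Fubini, `pk_scale`, `integral_comp_smul`-type change of variables). Differentiate under the integral:
`φ' t = ∫∫ pk (1/2) z F y ∑ i ⟪pgrad ζ i (y + √(2t) z), z i⟫ / √(2t)`, and by
`Nice0.pgrad_heat` this equals `- ∫ ∑ i ⟪pgrad (heat t F) i x, pgrad ζ i x⟫ dx`. Also `φ t → ∫ F ζ` as
`t → 0` (dominated convergence, translation is continuous in `L^1` for `ζ`), `φ t → 0` as `t → ∞`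
(`Nice0.heat_le`). Integrate the derivative of `exp (-m^2 t) φ t` over `Ioi 0`
(`integral_Ioi_of_hasDerivAt_of_tendsto`) and exchange the integrals in `t` and `x`.
-/

set_option linter.unusedSectionVars false

open MeasureTheory Set Filter Topology
open scoped ENNReal InnerProductSpace

namespace Pool.Agent.Lib.MP_8fe63c_mp

variable {ι : Type} [Fintype ι] [DecidableEq ι] {F : (ι → R3) → ℝ} {B : ℝ}

theorem HWeak_scale {t : ℝ} (ht : 0 < t) (H : (ι → R3) → ℝ) :
    ∫ z, pk t z * H z = ∫ z, pk (1 / 2) z * H (√(2 * t) • z) := by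
  have hc : 0 < √(2 * t) := Real.sqrt_pos.2 (by linarith)
  have h1 := MeasureTheory.Measure.integral_comp_smul (volume : Measure (ι → R3))
    (fun z => pk t z * H z) (√(2 * t))
  have h2 : Module.finrank ℝ (ι → R3) = 3 * Fintype.card ι := by
    rw [Module.finrank_pi_fintype]; simp [mul_comm]
  rw [h2] at h1
  have h3 : ∀ z : ι → R3, pk (1 / 2) z * H (√(2 * t) • z) =
      √(2 * t) ^ (3 * Fintype.card ι) * (pk t (√(2 * t) • z) * H (√(2 * t) • z)) := by
    intro z; rw [← pk_scale ht z]; ring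
  simp_rw [h3]
  rw [integral_const_mul, h1, abs_of_pos (by positivity), smul_eq_mul, ← mul_assoc,
    mul_inv_cancel₀ (by positivity), one_mul]

theorem HWeak_norm_le (z : ι → R3) : ‖z‖ ≤ ∑ i, ‖z i‖ :=
  (pi_norm_le_iff_of_nonneg (Finset.sum_nonneg fun _ _ => norm_nonneg _)).2 fun i =>
    Finset.single_le_sum (f := fun i => ‖z i‖) (fun _ _ => norm_nonneg _) (Finset.mem_univ i)

theorem HWeak_norm_pk {t : ℝ} (ht : 0 < t) (z : ι → R3) :
    ‖z‖ * pk t z ≤ Fintype.card ι * 3 ^ (Fintype.card ι + 1) * √t * pk (2 * t) z := by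
  calc ‖z‖ * pk t z ≤ (∑ i, ‖z i‖) * pk t z :=
        mul_le_mul_of_nonneg_right (HWeak_norm_le z) (pk_pos ht z).le
    _ = ∑ i, ‖z i‖ * pk t z := Finset.sum_mul _ _ _
    _ ≤ ∑ _i : ι, 3 ^ (Fintype.card ι + 1) * √t * pk (2 * t) z :=
        Finset.sum_le_sum fun i _ => norm_mul_pk_le ht z i
    _ = _ := by simp; ring

theorem HWeak_int_norm_pk {t : ℝ} (ht : 0 < t) :
    Integrable (fun z : ι → R3 => ‖z‖ * pk t z) := by
  refine ((integrable_pk (ι := ι) (t := 2 * t) (by linarith)).const_mul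
    (Fintype.card ι * 3 ^ (Fintype.card ι + 1) * √t)).mono'
    (continuous_norm.mul (continuous_pk t)).aestronglyMeasurable (ae_of_all _ fun z => ?_)
  rw [Real.norm_eq_abs, abs_of_nonneg (mul_nonneg (norm_nonneg _) (pk_pos ht z).le)]
  exact HWeak_norm_pk ht z

theorem HWeak_sum_pgrad {ζ : (ι → R3) → ℝ} (hζ : Cc1 ζ) (x z : ι → R3) :
    ∑ i, ⟪z i, pgrad ζ i x⟫_ℝ = fderiv ℝ ζ x z := by
  have hd : DifferentiableAt ℝ ζ x := (hζ.1.differentiable one_ne_zero) x
  conv_rhs => rw [← Finset.univ_sum_single z]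
  rw [map_sum]
  exact Finset.sum_congr rfl fun i _ => by rw [real_inner_comm, pgrad_eq hd]

/-- correlation of the source with a test function -/
noncomputable def HWeak_K (F ζ : (ι → R3) → ℝ) (w : ι → R3) : ℝ := ∫ x, F (x - w) * ζ x

noncomputable def HWeak_DK (F ζ : (ι → R3) → ℝ) (w : ι → R3) : (ι → R3) →L[ℝ] ℝ :=
  ∫ x, F (x - w) • fderiv ℝ ζ x

theorem HWeak_int_smul {E : Type} [NormedAddCommGroup E] [NormedSpace ℝ E]
    (hm : Measurable F) (hb : ∀ x, |F x| ≤ B) {g : (ι → R3) → E} (hg : Integrable g) (w : ι → R3) :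
    Integrable (fun x => F (x - w) • g x) :=
  hg.bdd_smul B (hm.comp (measurable_id.sub_const w)).aestronglyMeasurable
    (ae_of_all _ fun _ => hb _)

theorem HWeak_int_fderiv {ζ : (ι → R3) → ℝ} (hζ : Cc1 ζ) : Integrable (fderiv ℝ ζ) :=
  (hζ.1.continuous_fderiv one_ne_zero).integrable_of_hasCompactSupport (hζ.2.fderiv ℝ)

theorem HWeak_int {ζ : (ι → R3) → ℝ} (hζ : Cc1 ζ) : Integrable ζ :=
  hζ.1.continuous.integrable_of_hasCompactSupport hζ.2

theorem HWeak_hasFDerivAt (hm : Measurable F) (hb : ∀ x, |F x| ≤ B) {ζ : (ι → R3) → ℝ}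
    (hζ : Cc1 ζ) (w : ι → R3) : HasFDerivAt (HWeak_K F ζ) (HWeak_DK F ζ w) w := by
  have hl : LocallyIntegrable (fun t : ι → R3 => F (-t)) volume := by
    refine (locallyIntegrable_const B).mono (hm.comp measurable_neg).aestronglyMeasurable
      (ae_of_all _ fun x => ?_)
    exact (hb _).trans (le_abs_self B)
  have : (volume : Measure (ι → R3)).IsNegInvariant := by
    refine ⟨?_⟩
    have := Measure.map_addHaar_smul (volume : Measure (ι → R3)) (r := -1) (by norm_num)
    have h0 : Measure.map (fun x : ι → R3 => -x) volume = volume := by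
      simpa [abs_inv, abs_pow] using this
    exact h0
  have h1 := hζ.2.hasFDerivAt_convolution_right (ContinuousLinearMap.lsmul ℝ ℝ) hl hζ.1 w
  have h2 : (MeasureTheory.convolution (fun t : ι → R3 => F (-t)) ζ
      (ContinuousLinearMap.lsmul ℝ ℝ) volume) = HWeak_K F ζ := by
    funext u
    rw [MeasureTheory.convolution, HWeak_K, ← integral_sub_left_eq_self _ volume u]
    simp
  rw [h2] at h1
  refine h1.congr_fderiv ?_
  rw [MeasureTheory.convolution, HWeak_DK, ← integral_sub_left_eq_self _ volume w]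
  refine integral_congr_ae (ae_of_all _ fun x => ?_)
  ext v
  simp

theorem HWeak_DK_le (hb : ∀ x, |F x| ≤ B) {ζ : (ι → R3) → ℝ}
    (hζ : Cc1 ζ) (w : ι → R3) : ‖HWeak_DK F ζ w‖ ≤ B * ∫ x, ‖fderiv ℝ ζ x‖ := by
  rw [← integral_const_mul]
  refine norm_integral_le_of_norm_le ((HWeak_int_fderiv hζ).norm.const_mul B)
    (ae_of_all _ fun x => ?_)
  rw [norm_smul]
  exact mul_le_mul_of_nonneg_right (hb _) (norm_nonneg _)

theorem HWeak_K_le (hb : ∀ x, |F x| ≤ B) {ζ : (ι → R3) → ℝ}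
    (hζ : Cc1 ζ) (w : ι → R3) : ‖HWeak_K F ζ w‖ ≤ B * ∫ x, ‖ζ x‖ := by
  rw [← integral_const_mul]
  refine norm_integral_le_of_norm_le ((HWeak_int hζ).norm.const_mul B)
    (ae_of_all _ fun x => ?_)
  rw [norm_mul]
  exact mul_le_mul_of_nonneg_right (hb _) (norm_nonneg _)

theorem HWeak_DK_apply (hm : Measurable F) (hb : ∀ x, |F x| ≤ B) {ζ : (ι → R3) → ℝ}
    (hζ : Cc1 ζ) (w v : ι → R3) :
    HWeak_DK F ζ w v = ∫ x, F (x - w) * fderiv ℝ ζ x v := by
  rw [HWeak_DK, ContinuousLinearMap.integral_apply (HWeak_int_smul hm hb (HWeak_int_fderiv hζ) w)]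
  simp

theorem HWeak_K_cont (hm : Measurable F) (hb : ∀ x, |F x| ≤ B) {ζ : (ι → R3) → ℝ}
    (hζ : Cc1 ζ) : Continuous (HWeak_K F ζ) :=
  continuous_iff_continuousAt.2 fun w => (HWeak_hasFDerivAt hm hb hζ w).continuousAt

theorem HWeak_DK_meas (hm : Measurable F) (hb : ∀ x, |F x| ≤ B) {ζ : (ι → R3) → ℝ}
    (hζ : Cc1 ζ) : Measurable (fun w => HWeak_DK F ζ w w) := by
  simp_rw [HWeak_DK_apply hm hb hζ]
  have : Measurable (fun p : (ι → R3) × (ι → R3) => F (p.2 - p.1) * fderiv ℝ ζ p.2 p.1) :=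
    (hm.comp (measurable_snd.sub measurable_fst)).mul
      (((hζ.1.continuous_fderiv one_ne_zero).comp continuous_snd).clm_apply
        continuous_fst).measurable
  exact (this.stronglyMeasurable.integral_prod_right').measurable

noncomputable def HWeak_phi (F ζ : (ι → R3) → ℝ) (t : ℝ) : ℝ :=
  ∫ z, pk (1 / 2) z * HWeak_K F ζ (√(2 * t) • z)

theorem HWeak_phi_cont (hm : Measurable F) (hb : ∀ x, |F x| ≤ B) {ζ : (ι → R3) → ℝ}
    (hζ : Cc1 ζ) : Continuous (HWeak_phi F ζ) := by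
  have hK := HWeak_K_cont hm hb hζ
  refine continuous_of_dominated (bound := fun z => pk (1 / 2) z * (B * ∫ x, ‖ζ x‖))
    (fun t => ?_) (fun t => ae_of_all _ fun z => ?_)
    ((integrable_pk (by norm_num)).mul_const _) (ae_of_all _ fun z => ?_)
  · exact ((continuous_pk _).mul (hK.comp (continuous_const_smul _))).aestronglyMeasurable
  · rw [norm_mul, Real.norm_of_nonneg (pk_pos (by norm_num) z).le]
    exact mul_le_mul_of_nonneg_left (HWeak_K_le hb hζ _) (pk_pos (by norm_num) z).le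
  · exact continuous_const.mul (hK.comp (by fun_prop))

theorem HWeak_phi_zero {ζ : (ι → R3) → ℝ} : HWeak_phi F ζ 0 = ∫ x, F x * ζ x := by
  simp only [HWeak_phi, mul_zero, Real.sqrt_zero, zero_smul]
  rw [integral_mul_const, integral_pk (by norm_num), one_mul, HWeak_K]
  simp

theorem HWeak_phi_eq (hm : Measurable F) (hb : ∀ x, |F x| ≤ B) {ζ : (ι → R3) → ℝ}
    (hζ : Cc1 ζ) {t : ℝ} (ht : 0 < t) : HWeak_phi F ζ t = ∫ x, heat t F x * ζ x := by
  rw [HWeak_phi, ← HWeak_scale ht]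
  simp only [HWeak_K, heat]
  simp_rw [← integral_const_mul, ← integral_mul_const]
  rw [integral_integral_swap]
  · simp_rw [mul_assoc]
  · have h1 : Integrable (fun p : (ι → R3) × (ι → R3) => pk t p.1 * ζ p.2) (volume.prod volume) :=
      (integrable_pk ht).mul_prod (HWeak_int hζ)
    have h2 := h1.bdd_mul (c := B) (f := fun p : (ι → R3) × (ι → R3) => F (p.2 - p.1))
      (hm.comp (measurable_snd.sub measurable_fst)).aestronglyMeasurable
      (ae_of_all _ fun p => hb _)
    refine h2.congr (ae_of_all _ fun p => ?_)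
    simp only [Function.uncurry]
    ring

/-- the gradient pairing at time `t` -/
noncomputable def HWeak_A (F ζ : (ι → R3) → ℝ) (t : ℝ) (x : ι → R3) : ℝ :=
  ∫ z, (-(pk t z) / (2 * t) * F (x - z)) * fderiv ℝ ζ x z

theorem HWeak_phi_deriv (hm : Measurable F) (hb : ∀ x, |F x| ≤ B) {ζ : (ι → R3) → ℝ}
    (hζ : Cc1 ζ) {t : ℝ} (ht : 0 < t) :
    HasDerivAt (HWeak_phi F ζ) (-∫ x, HWeak_A F ζ t x) t := by
  have hK := HWeak_K_cont hm hb hζ
  have hB : 0 ≤ B := (abs_nonneg _).trans (hb 0)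
  set M := B * ∫ x, ‖fderiv ℝ ζ x‖ with hM
  have hM0 : 0 ≤ M := mul_nonneg hB (integral_nonneg fun _ => norm_nonneg _)
  have hst : 0 < √t := Real.sqrt_pos.2 ht
  have key := hasDerivAt_integral_of_dominated_loc_of_deriv_le (μ := (volume : Measure (ι → R3)))
    (F := fun s z => pk (1 / 2) z * HWeak_K F ζ (√(2 * s) • z))
    (F' := fun s z => pk (1 / 2) z *
      (HWeak_DK F ζ (√(2 * s) • z) (√(2 * s) • z) / (2 * s)))
    (x₀ := t) (s := Ioi (t / 2)) (bound := fun z => ‖z‖ * pk (1 / 2) z * (M / √t))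
    (Ioi_mem_nhds (by linarith))
    (Eventually.of_forall fun s =>
      ((continuous_pk _).mul (hK.comp (continuous_const_smul _))).aestronglyMeasurable)
    ?_ ?_ ?_ ((HWeak_int_norm_pk (by norm_num)).mul_const _) ?_
  · refine HasDerivAt.congr_deriv key.2 (Eq.symm ?_)
    rw [← HWeak_scale ht (fun w => HWeak_DK F ζ w w / (2 * t))]
    simp only [HWeak_A]
    rw [integral_integral_swap, ← integral_neg]
    · refine integral_congr_ae (ae_of_all _ fun z => ?_)
      simp only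
      rw [HWeak_DK_apply hm hb hζ, ← integral_div, ← integral_const_mul, ← integral_neg]
      refine integral_congr_ae (ae_of_all _ fun x => ?_)
      simp only
      ring
    · have h1 : Integrable (fun p : (ι → R3) × (ι → R3) =>
          ‖fderiv ℝ ζ p.1‖ * (‖p.2‖ * pk t p.2)) (volume.prod volume) :=
        (HWeak_int_fderiv hζ).norm.mul_prod (HWeak_int_norm_pk ht)
      refine (h1.const_mul (B / (2 * t))).mono' ?_ (ae_of_all _ fun p => ?_)
      · refine Measurable.aestronglyMeasurable ?_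
        exact (((((continuous_pk t).measurable.comp measurable_snd).neg).div_const _).mul
          (hm.comp (measurable_fst.sub measurable_snd))).mul
          (((hζ.1.continuous_fderiv one_ne_zero).comp continuous_fst).clm_apply
            continuous_snd).measurable
      · simp only [Function.uncurry, norm_mul, norm_div, norm_neg, Real.norm_eq_abs]
        rw [abs_of_pos (pk_pos ht _), abs_two, abs_of_pos ht]
        have h3 := (fderiv ℝ ζ p.1).le_opNorm p.2
        rw [Real.norm_eq_abs] at h3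
        have h4 := pk_pos ht p.2
        calc pk t p.2 / (2 * t) * |F (p.1 - p.2)| * |fderiv ℝ ζ p.1 p.2|
            ≤ pk t p.2 / (2 * t) * B * (‖fderiv ℝ ζ p.1‖ * ‖p.2‖) := by
              gcongr; exact hb _
          _ = _ := by ring
  · refine ((integrable_pk (t := 1 / 2) (by norm_num)).mul_const (B * ∫ x, ‖ζ x‖)).mono'
      ((continuous_pk _).mul (hK.comp (continuous_const_smul _))).aestronglyMeasurable
      (ae_of_all _ fun z => ?_)
    rw [norm_mul, Real.norm_of_nonneg (pk_pos (by norm_num) z).le]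
    exact mul_le_mul_of_nonneg_left (HWeak_K_le hb hζ _) (pk_pos (by norm_num) z).le
  · exact ((continuous_pk _).measurable.mul (((HWeak_DK_meas hm hb hζ).comp
      (continuous_const_smul _).measurable).div_const _)).aestronglyMeasurable
  · refine ae_of_all _ fun z s hs => ?_
    have hs' : t / 2 < s := hs
    have hs0 : 0 < 2 * s := by linarith
    have hq : 0 < √(2 * s) := Real.sqrt_pos.2 hs0
    have hp := pk_pos (t := 1 / 2) (by norm_num) z
    have h1 : √t ≤ √(2 * s) := Real.sqrt_le_sqrt (by linarith)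
    have h2 := (HWeak_DK F ζ (√(2 * s) • z)).le_opNorm (√(2 * s) • z)
    have h3 := HWeak_DK_le hb hζ (√(2 * s) • z)
    rw [norm_smul, Real.norm_of_nonneg hq.le] at h2
    rw [norm_mul, norm_div, Real.norm_of_nonneg hp.le, Real.norm_of_nonneg hs0.le]
    have h4 : ‖HWeak_DK F ζ (√(2 * s) • z) (√(2 * s) • z)‖ / (2 * s) ≤ ‖z‖ * (M / √t) := by
      calc ‖HWeak_DK F ζ (√(2 * s) • z) (√(2 * s) • z)‖ / (2 * s)
          ≤ M * (√(2 * s) * ‖z‖) / (2 * s) := by
            gcongr
            exact h2.trans (mul_le_mul_of_nonneg_right h3 (by positivity))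
        _ = ‖z‖ * (M / √(2 * s)) := by
            nth_rewrite 2 [← Real.mul_self_sqrt hs0.le]
            field_simp
        _ ≤ ‖z‖ * (M / √t) := by gcongr
    calc pk (1 / 2) z * (‖HWeak_DK F ζ (√(2 * s) • z) (√(2 * s) • z)‖ / (2 * s))
        ≤ pk (1 / 2) z * (‖z‖ * (M / √t)) := mul_le_mul_of_nonneg_left h4 hp.le
      _ = _ := by ring
  · refine ae_of_all _ fun z s hs => ?_
    have hs' : t / 2 < s := hs
    have hs0 : 0 < 2 * s := by linarith
    have hq : 0 < √(2 * s) := Real.sqrt_pos.2 hs0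
    have h1 : HasDerivAt (fun s : ℝ => √(2 * s)) (2 / (2 * √(2 * s))) s := by
      have := ((hasDerivAt_id s).const_mul 2).sqrt hs0.ne'
      simpa using this
    have h2 := (HWeak_hasFDerivAt hm hb hζ (√(2 * s) • z)).comp_hasDerivAt s (h1.smul_const z)
    have h3 := h2.const_mul (pk (1 / 2) z)
    refine HasDerivAt.congr_deriv h3 ?_
    rw [map_smul, map_smul, smul_eq_mul, smul_eq_mul]
    have e : 2 / (2 * √(2 * s)) = √(2 * s) / (2 * s) := by
      rw [div_eq_div_iff (by positivity) hs0.ne']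
      nlinarith [Real.mul_self_sqrt hs0.le]
    rw [e]
    ring

theorem HWeak_A_eq (hι : 2 ≤ Fintype.card ι) (h : Nice0 F B) {ζ : (ι → R3) → ℝ} (hζ : Cc1 ζ)
    {t : ℝ} (ht : 0 < t) (x : ι → R3) :
    ∑ i, ⟪pgrad (heat t F) i x, pgrad ζ i x⟫_ℝ = HWeak_A F ζ t x := by
  have hi : ∀ i, Integrable (fun z : ι → R3 => (-(pk t z) / (2 * t) * F (x - z)) • z i) := by
    intro i
    refine ((HWeak_int_norm_pk ht).const_mul (B / (2 * t))).mono' ?_ (ae_of_all _ fun z => ?_)
    · exact ((((continuous_pk t).measurable.neg.div_const _).mul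
        (h.meas.comp (measurable_const.sub measurable_id))).aestronglyMeasurable).smul
        (continuous_apply i).aestronglyMeasurable
    · simp only [norm_smul, norm_mul, norm_div, norm_neg, Real.norm_eq_abs]
      rw [abs_of_pos (pk_pos ht _), abs_two, abs_of_pos ht]
      have h4 := pk_pos ht z
      have hB : 0 ≤ B := zero_le_one.trans h.one_le
      calc pk t z / (2 * t) * |F (x - z)| * ‖z i‖ ≤ pk t z / (2 * t) * B * ‖z‖ := by
            gcongr
            · exact h.bdd hι _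
            · exact norm_le_pi_norm z i
        _ = _ := by ring
  simp_rw [h.pgrad_heat hι ht]
  have h1 : ∀ i, ⟪∫ z : ι → R3, (-(pk t z) / (2 * t) * F (x - z)) • z i, pgrad ζ i x⟫_ℝ =
      ∫ z : ι → R3, ⟪pgrad ζ i x, (-(pk t z) / (2 * t) * F (x - z)) • z i⟫_ℝ := by
    intro i; rw [real_inner_comm, integral_inner (hi i)]
  simp_rw [h1]
  rw [← integral_finsetSum _ fun i _ => (hi i).const_inner _, HWeak_A]
  refine integral_congr_ae (ae_of_all _ fun z => ?_)
  simp only
  rw [← HWeak_sum_pgrad hζ, Finset.mul_sum]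
  exact Finset.sum_congr rfl fun i _ => by rw [inner_smul_right, real_inner_comm]

/-- time majorant -/
noncomputable def HWeak_G (t : ℝ) : ℝ := min (t ^ (-(1 / 2 : ℝ))) (t ^ (-(3 / 2 : ℝ)))

theorem HWeak_G_int : IntegrableOn HWeak_G (Ioi 0) := by
  have hm : Measurable HWeak_G :=
    (measurable_id.pow_const _).min (measurable_id.pow_const _)
  have h0 : ∀ t : ℝ, 0 < t → 0 ≤ HWeak_G t := fun t ht =>
    le_min (Real.rpow_nonneg ht.le _) (Real.rpow_nonneg ht.le _)
  rw [← Ioc_union_Ioi_eq_Ioi (zero_le_one' ℝ)]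
  refine IntegrableOn.union ?_ ?_
  · have h1 : IntegrableOn (fun t : ℝ => t ^ (-(1 / 2 : ℝ))) (Ioc 0 1) :=
      (intervalIntegrable_iff_integrableOn_Ioc_of_le zero_le_one).1
        (intervalIntegral.intervalIntegrable_rpow' (by norm_num))
    refine Integrable.mono' h1 hm.aestronglyMeasurable ?_
    filter_upwards [ae_restrict_mem measurableSet_Ioc] with t ht
    rw [Real.norm_of_nonneg (h0 t ht.1)]
    exact min_le_left _ _
  · have h1 : IntegrableOn (fun t : ℝ => t ^ (-(3 / 2 : ℝ))) (Ioi 1) :=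
      integrableOn_Ioi_rpow_of_lt (by norm_num) one_pos
    refine Integrable.mono' h1 hm.aestronglyMeasurable ?_
    filter_upwards [ae_restrict_mem measurableSet_Ioi] with t ht
    rw [Real.norm_of_nonneg (h0 t (one_pos.trans ht))]
    exact min_le_right _ _

theorem HWeak_min_le (hι : 2 ≤ Fintype.card ι) {t s : ℝ} (ht : 0 < t) (hs : t ≤ s) :
    min 1 (s ^ (-(3 / 2 : ℝ) * ((Fintype.card ι : ℝ) - 1))) ≤ min 1 (t ^ (-(3 / 2 : ℝ))) := by
  have hc : (2 : ℝ) ≤ Fintype.card ι := by exact_mod_cast hι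
  rcases le_total t 1 with h1 | h1
  · refine le_min (min_le_left _ _) ((min_le_left _ _).trans ?_)
    exact Real.one_le_rpow_of_pos_of_le_one_of_nonpos ht h1 (by norm_num)
  · refine le_min (min_le_left _ _) ((min_le_right _ _).trans ?_)
    calc s ^ (-(3 / 2 : ℝ) * ((Fintype.card ι : ℝ) - 1)) ≤ s ^ (-(3 / 2 : ℝ)) :=
          Real.rpow_le_rpow_of_exponent_le (h1.trans hs) (by nlinarith)
      _ ≤ t ^ (-(3 / 2 : ℝ)) := Real.rpow_le_rpow_of_nonpos ht hs (by norm_num)

theorem HWeak_min_G {t : ℝ} (ht : 0 < t) :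
    min 1 (t ^ (-(3 / 2 : ℝ))) ≤ HWeak_G t ∧
      √t / t * min 1 (t ^ (-(3 / 2 : ℝ))) ≤ HWeak_G t := by
  have e : √t / t = t ^ (-(1 / 2 : ℝ)) := by
    rw [Real.sqrt_eq_rpow, show (-(1 / 2 : ℝ)) = 1 / 2 - 1 by norm_num, Real.rpow_sub ht,
      Real.rpow_one]
  have p1 : 0 < t ^ (-(1 / 2 : ℝ)) := Real.rpow_pos_of_pos ht _
  have p3 : 0 < t ^ (-(3 / 2 : ℝ)) := Real.rpow_pos_of_pos ht _
  rw [e]
  rcases le_total t 1 with h1 | h1
  · have a1 : 1 ≤ t ^ (-(1 / 2 : ℝ)) :=
      Real.one_le_rpow_of_pos_of_le_one_of_nonpos ht h1 (by norm_num)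
    have a2 : t ^ (-(1 / 2 : ℝ)) ≤ t ^ (-(3 / 2 : ℝ)) :=
      Real.rpow_le_rpow_of_exponent_ge ht h1 (by norm_num)
    rw [HWeak_G, min_eq_left a2, min_eq_left (a1.trans a2)]
    exact ⟨a1, by rw [mul_one]⟩
  · have a1 : t ^ (-(1 / 2 : ℝ)) ≤ 1 := Real.rpow_le_one_of_one_le_of_nonpos h1 (by norm_num)
    have a2 : t ^ (-(3 / 2 : ℝ)) ≤ t ^ (-(1 / 2 : ℝ)) :=
      Real.rpow_le_rpow_of_exponent_le h1 (by norm_num)
    rw [HWeak_G, min_eq_right a2, min_eq_right (a2.trans a1)]
    exact ⟨le_rfl, by nlinarith⟩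

theorem HWeak_heat_le (hι : 2 ≤ Fintype.card ι) (h : Nice0 F B) {t : ℝ} (ht : 0 < t) (x : ι → R3) :
    |heat t F x| ≤ B * HWeak_G t :=
  (h.heat_le hι ht x).trans (mul_le_mul_of_nonneg_left
    ((HWeak_min_le hι ht le_rfl).trans (HWeak_min_G ht).1) (zero_le_one.trans h.one_le))

theorem HWeak_A_le (hι : 2 ≤ Fintype.card ι) (h : Nice0 F B) (ζ : (ι → R3) → ℝ)
    {t : ℝ} (ht : 0 < t) (x : ι → R3) :
    |HWeak_A F ζ t x| ≤
      Fintype.card ι * 3 ^ (Fintype.card ι + 1) * B * HWeak_G t * ‖fderiv ℝ ζ x‖ := by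
  have hB : 0 ≤ B := zero_le_one.trans h.one_le
  have ha : Nice0 (fun y => |F y|) B :=
    h.of_le h.meas.abs (fun y a => by rw [h.ti y a]) (fun y => by rw [abs_abs])
  have h1 := (le_abs_self _).trans (ha.heat_le hι (t := 2 * t) (by linarith) x)
  have h2 := HWeak_min_le hι ht (show t ≤ 2 * t by linarith)
  have h3 := (HWeak_min_G ht).2
  set C : ℝ := Fintype.card ι * 3 ^ (Fintype.card ι + 1) with hC
  have hC0 : 0 ≤ C := by positivity
  have hi : Integrable (fun z : ι → R3 => pk (2 * t) z * |F (x - z)|) :=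
    (integrable_pk (t := 2 * t) (by linarith)).mul_bdd (c := B)
      (h.meas.comp (measurable_const.sub measurable_id)).abs.aestronglyMeasurable
      (ae_of_all _ fun z => by rw [Real.norm_eq_abs, abs_abs]; exact h.bdd hι _)
  have h4 : |HWeak_A F ζ t x| ≤
      C * (√t / t) * ‖fderiv ℝ ζ x‖ * heat (2 * t) (fun y => |F y|) x := by
    rw [heat, ← integral_const_mul, HWeak_A, ← Real.norm_eq_abs]
    refine norm_integral_le_of_norm_le (hi.const_mul _) (ae_of_all _ fun z => ?_)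
    simp only [norm_mul, norm_div, norm_neg, Real.norm_eq_abs]
    rw [abs_of_pos (pk_pos ht _), abs_two, abs_of_pos ht]
    have h5 := (fderiv ℝ ζ x).le_opNorm z
    rw [Real.norm_eq_abs] at h5
    have h6 := pk_pos ht z
    have h7 := HWeak_norm_pk ht z
    have h8 := pk_pos (t := 2 * t) (by linarith) z
    calc pk t z / (2 * t) * |F (x - z)| * |fderiv ℝ ζ x z|
        ≤ pk t z / t * |F (x - z)| * (‖fderiv ℝ ζ x‖ * ‖z‖) := by gcongr; linarith
      _ = (‖z‖ * pk t z) * (|F (x - z)| * ‖fderiv ℝ ζ x‖ / t) := by ring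
      _ ≤ (C * √t * pk (2 * t) z) * (|F (x - z)| * ‖fderiv ℝ ζ x‖ / t) := by gcongr
      _ = _ := by ring
  calc |HWeak_A F ζ t x|
      ≤ C * (√t / t) * ‖fderiv ℝ ζ x‖ * (B * min 1 (t ^ (-(3 / 2 : ℝ)))) := by
        refine h4.trans (mul_le_mul_of_nonneg_left (h1.trans ?_) (by positivity))
        exact mul_le_mul_of_nonneg_left h2 hB
    _ = C * B * (√t / t * min 1 (t ^ (-(3 / 2 : ℝ)))) * ‖fderiv ℝ ζ x‖ := by ring
    _ ≤ _ := by gcongr

theorem HWeak_A_meas (hm : Measurable F) {ζ : (ι → R3) → ℝ} (hζ : Cc1 ζ) :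
    Measurable (fun p : ℝ × (ι → R3) => HWeak_A F ζ p.1 p.2) := by
  have : Measurable (fun q : (ℝ × (ι → R3)) × (ι → R3) =>
      (-(pk q.1.1 q.2) / (2 * q.1.1) * F (q.1.2 - q.2)) * fderiv ℝ ζ q.1.2 q.2) :=
    ((((measurable_pk.comp (measurable_fst.fst.prodMk measurable_snd)).neg).div
      (measurable_fst.fst.const_mul 2)).mul (hm.comp (measurable_fst.snd.sub measurable_snd))).mul
      (((hζ.1.continuous_fderiv one_ne_zero).comp continuous_fst.snd).clm_apply
        continuous_snd).measurable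
  exact (this.stronglyMeasurable.integral_prod_right').measurable

theorem Nice0.weak (hι : 2 ≤ Fintype.card ι) (h : Nice0 F B) (m : ℝ) :
    WeakEq (m ^ 2) F (green m F) := by
  intro ζ hζ
  have hB : 0 ≤ B := zero_le_one.trans h.one_le
  have hb := h.bdd hι
  set C : ℝ := Fintype.card ι * 3 ^ (Fintype.card ι + 1) * B with hC
  have he : ∀ t : ℝ, 0 < t → Real.exp (-(m ^ 2) * t) ≤ 1 := fun t ht =>
    Real.exp_le_one_iff.2 (by nlinarith [sq_nonneg m])
  have hG0 : ∀ t : ℝ, 0 < t → 0 ≤ HWeak_G t := fun t ht =>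
    le_min (Real.rpow_nonneg ht.le _) (Real.rpow_nonneg ht.le _)
  set f : ℝ → (ι → R3) → ℝ := fun t x =>
    Real.exp (-(m ^ 2) * t) * (HWeak_A F ζ t x + m ^ 2 * (heat t F x * ζ x)) with hf
  have hw : Integrable (fun x => C * ‖fderiv ℝ ζ x‖ + m ^ 2 * (B * ‖ζ x‖)) :=
    ((HWeak_int_fderiv hζ).norm.const_mul C).add (((HWeak_int hζ).norm.const_mul B).const_mul _)
  have hint : Integrable (Function.uncurry f) ((volume.restrict (Ioi (0 : ℝ))).prod volume) := by
    refine (Integrable.mul_prod HWeak_G_int hw).mono' ?_ ?_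
    · refine Measurable.aestronglyMeasurable ?_
      exact (Real.measurable_exp.comp (measurable_fst.const_mul _)).mul
        ((HWeak_A_meas h.meas hζ).add (((measurable_heat h.meas).mul
          (hζ.1.continuous.measurable.comp measurable_snd)).const_mul _))
    · have : ∀ᵐ p : ℝ × (ι → R3) ∂((volume.restrict (Ioi (0 : ℝ))).prod volume), p.1 ∈ Ioi 0 :=
        (Measure.quasiMeasurePreserving_fst).ae (ae_restrict_mem measurableSet_Ioi)
      filter_upwards [this] with p hp
      have hp' : 0 < p.1 := hp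
      have a1 := HWeak_A_le hι h ζ hp' p.2
      have a2 := HWeak_heat_le hι h hp' p.2
      have a3 := hG0 _ hp'
      simp only [Function.uncurry, hf, norm_mul, Real.norm_eq_abs]
      rw [abs_of_pos (Real.exp_pos _)]
      calc Real.exp (-(m ^ 2) * p.1) *
            |HWeak_A F ζ p.1 p.2 + m ^ 2 * (heat p.1 F p.2 * ζ p.2)|
          ≤ 1 * (|HWeak_A F ζ p.1 p.2| + m ^ 2 * (|heat p.1 F p.2| * |ζ p.2|)) := by
            refine mul_le_mul (he _ hp') ((abs_add_le _ _).trans ?_) (abs_nonneg _) zero_le_one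
            rw [abs_mul, abs_mul, abs_of_nonneg (sq_nonneg m)]
        _ ≤ 1 * (C * HWeak_G p.1 * ‖fderiv ℝ ζ p.2‖ +
              m ^ 2 * (B * HWeak_G p.1 * |ζ p.2|)) := by gcongr
        _ = _ := by ring
  have hpt : ∀ x, (∑ i, ⟪pgrad (green m F) i x, pgrad ζ i x⟫_ℝ) +
      m ^ 2 * (green m F x * ζ x) = ∫ t in Ioi (0 : ℝ), f t x := by
    intro x
    have h1 : ∀ i, ⟪pgrad (green m F) i x, pgrad ζ i x⟫_ℝ = ∫ t in Ioi (0 : ℝ),
        ⟪pgrad ζ i x, Real.exp (-(m ^ 2) * t) • pgrad (heat t F) i x⟫_ℝ := by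
      intro i
      rw [(h.pgrad_green hι m i x).2, real_inner_comm, integral_inner (h.pgrad_green hι m i x).1]
    have h2 : ∀ i, IntegrableOn (fun t =>
        ⟪pgrad ζ i x, Real.exp (-(m ^ 2) * t) • pgrad (heat t F) i x⟫_ℝ) (Ioi 0) := fun i =>
      Integrable.const_inner _ (h.pgrad_green hι m i x).1
    simp_rw [h1]
    rw [← integral_finsetSum _ fun i _ => h2 i, green, ← integral_mul_const, ← integral_const_mul,
      ← integral_add (integrable_finsetSum _ fun i _ => h2 i)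
        (((h.integrableOn hι m x).mul_const _).const_mul _)]
    refine setIntegral_congr_fun measurableSet_Ioi fun t ht => ?_
    simp only [hf]
    rw [← HWeak_A_eq hι h hζ ht x, mul_add, Finset.mul_sum]
    congr 1
    · exact Finset.sum_congr rfl fun i _ => by rw [inner_smul_right, real_inner_comm]
    · ring
  simp_rw [hpt]
  rw [← integral_integral_swap hint]
  have hder : ∀ t ∈ Ioi (0 : ℝ), HasDerivAt
      (fun t => -(Real.exp (-(m ^ 2) * t) * HWeak_phi F ζ t)) (∫ x, f t x) t := by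
    intro t ht
    have ht' : 0 < t := ht
    have d1 : HasDerivAt (fun t : ℝ => Real.exp (-(m ^ 2) * t))
        (Real.exp (-(m ^ 2) * t) * (-(m ^ 2))) t := by
      simpa using ((hasDerivAt_id t).const_mul (-(m ^ 2))).exp
    have d2 := (d1.mul (HWeak_phi_deriv h.meas hb hζ ht')).neg
    refine HasDerivAt.congr_deriv d2 (Eq.symm ?_)
    have i1 : Integrable (fun x => HWeak_A F ζ t x) := by
      refine ((HWeak_int_fderiv hζ).norm.const_mul (C * HWeak_G t)).mono'
        ((HWeak_A_meas h.meas hζ).comp (measurable_const.prodMk measurable_id)).aestronglyMeasurable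
        (ae_of_all _ fun x => HWeak_A_le hι h ζ ht' x)
    have i2 : Integrable (fun x => heat t F x * ζ x) :=
      (HWeak_int hζ).bdd_mul (c := B * HWeak_G t)
        ((measurable_heat h.meas).comp (measurable_const.prodMk measurable_id)).aestronglyMeasurable
        (ae_of_all _ fun x => HWeak_heat_le hι h ht' x)
    simp only [hf]
    rw [integral_const_mul, integral_add i1 (i2.const_mul _), integral_const_mul,
      HWeak_phi_eq h.meas hb hζ ht']
    ring
  have hlim : Tendsto (fun t => -(Real.exp (-(m ^ 2) * t) * HWeak_phi F ζ t)) atTop (𝓝 0) := by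
    have l1 : Tendsto (fun t : ℝ => B * t ^ (-(3 / 2 : ℝ)) * ∫ x, ‖ζ x‖) atTop (𝓝 0) := by
      have := ((tendsto_rpow_neg_atTop (y := 3 / 2) (by norm_num)).const_mul B).mul_const
        (∫ x, ‖ζ x‖)
      simpa using this
    refine squeeze_zero_norm' ?_ l1
    filter_upwards [eventually_gt_atTop 0] with t ht
    rw [norm_neg, norm_mul, Real.norm_of_nonneg (Real.exp_pos _).le, HWeak_phi_eq h.meas hb hζ ht]
    refine (mul_le_of_le_one_left (norm_nonneg _) (he t ht)).trans ?_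
    rw [← integral_const_mul]
    refine norm_integral_le_of_norm_le ((HWeak_int hζ).norm.const_mul _) (ae_of_all _ fun x => ?_)
    rw [norm_mul]
    refine mul_le_mul_of_nonneg_right ((HWeak_heat_le hι h ht x).trans ?_) (norm_nonneg _)
    exact mul_le_mul_of_nonneg_left (min_le_right _ _) hB
  have hcont : ContinuousWithinAt
      (fun t => -(Real.exp (-(m ^ 2) * t) * HWeak_phi F ζ t)) (Ici 0) 0 :=
    (((Real.continuous_exp.comp (continuous_const.mul continuous_id)).mul
      (HWeak_phi_cont h.meas hb hζ)).neg).continuousWithinAt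
  rw [integral_Ioi_of_hasDerivAt_of_tendsto hcont hder hint.integral_prod_left hlim]
  simp [HWeak_phi_zero]

theorem Nice0.gd (hι : 2 ≤ Fintype.card ι) (h : Nice0 F B) (m : ℝ) :
    GD (m ^ 2) F (green m F) :=
  ⟨h.meas, ⟨B, h.bdd hι⟩, h.cb1_green hι m, h.weak hι m⟩

end Pool.Agent.Lib.MP_8fe63c_mp
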