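import Pool.Agent.Lib.MP_8fe63c_mp.HDecay
import Pool.Agent.Lib.MP_8fe63c_mp.HWeak

/-!
Rescaled Green data and majorants.

Sketch. Everything follows from `marg_scale`, the chain rule
`pgrad (sc A s κ) i x = (A * s) • pgrad κ i (s • x)`, `vw s x = vw 1 (s • x)`, and the change of variables
`x ↦ s • x` in the weak equation (test function `ζ (s⁻¹ • y)`). `MajS.red` uses `marg_snoc`.
-/

set_option linter.unusedSectionVars false

open MeasureTheory Set Filter Topology
open scoped ENNReal InnerProductSpace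

namespace Pool.Agent.Lib.MP_8fe63c_mp

/-- the rescaled Green function with macroscopic mass `mm` of the source `sc A s F` -/
noncomputable def kap {ι : Type} [Fintype ι] [DecidableEq ι] (A s mm : ℝ) (F : (ι → R3) → ℝ) :
    (ι → R3) → ℝ := sc (A / s ^ 2) s (green (mm / s) F)

structure Mac {p : ℕ} (A s mm C : ℝ) (F : (Fin p → R3) → ℝ) : Prop where
  gd : GD (mm ^ 2) (sc A s F) (kap A s mm F)
  ti : TI (kap A s mm F)
  l2 : L2rel (kap A s mm F) (C * A ^ 2 / s ^ (3 * p + 1) * (if p = 2 then s else 1))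
  wg : WGrad s (kap A s mm F) (C * A ^ 2 / s ^ (3 * p - 1) * (if p = 2 then s else 1))
  mg : ∀ B : Finset (Fin p), B.card + 2 ≤ p →
    MargLe B (eabs (kap A s mm F)) (C * A / s ^ (3 * B.card + 2))
  mg' : ∀ B : Finset (Fin p), B.card + 1 = p →
    MargLe B (eabs (kap A s mm F)) (C * A / (s ^ (3 * B.card) * mm ^ 2))
  diff : ∀ x, |kap A s mm F x - A / s ^ 2 * green 0 F (s • x)| ≤
    C * A / s ^ 2 * (if p = 2 then mm / s else (mm / s) ^ 2)

section aux

variable {ι : Type} [Fintype ι] [DecidableEq ι]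

theorem HMac_meas_smul (s : ℝ) : Measurable (fun x : ι → R3 => s • x) :=
  (continuous_const_smul s).measurable

theorem HMac_marg_const {Φ : (ι → R3) → ℝ≥0∞} (h : Measurable Φ) (A : Finset ι) (c : ℝ≥0∞)
    (x : ι → R3) : marg A (fun y => c * Φ y) x = c * marg A Φ x :=
  marg_mul_left A h (c := fun _ => c) (fun _ _ _ => rfl) x

theorem HMac_marg_sc {Φ : (ι → R3) → ℝ≥0∞} (h : Measurable Φ) (A : Finset ι) {a s : ℝ}
    (ha : 0 ≤ a) (hs : 0 < s) (x : ι → R3) :
    marg A (fun y => ENNReal.ofReal a * Φ (s • y)) x =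
      ENNReal.ofReal (a / s ^ (3 * A.card)) * marg A Φ (s • x) := by
  rw [HMac_marg_const (Φ := fun y => Φ (s • y)) (h.comp (HMac_meas_smul s)), marg_scale A h hs,
    ← mul_assoc, ← ENNReal.ofReal_mul ha, mul_one_div]

theorem HMac_margLe {Φ Ψ : (ι → R3) → ℝ≥0∞} (h : Measurable Φ) {A : Finset ι} {a s c c' : ℝ}
    (ha : 0 ≤ a) (hs : 0 < s) (hc : MargLe A Φ c)
    (hΨ : ∀ y, Ψ y ≤ ENNReal.ofReal a * Φ (s • y)) (hc' : a / s ^ (3 * A.card) * c ≤ c') :
    MargLe A Ψ c' := by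
  intro x
  refine (marg_mono A hΨ x).trans ?_
  rw [HMac_marg_sc h A ha hs]
  refine (mul_le_mul_right (hc _) _).trans ?_
  rw [← ENNReal.ofReal_mul (by positivity)]
  exact ENNReal.ofReal_le_ofReal hc'

theorem HMac_hw (s : ℝ) (r : R3) : hw 1 (s • r) = hw s r := by
  simp only [hw, norm_smul, mul_pow, Real.norm_eq_abs, sq_abs, one_pow, one_mul]

theorem HMac_hw_nonneg (s : ℝ) (r : R3) : 0 ≤ hw s r := by
  unfold hw
  positivity

theorem HMac_hw' (s : ℝ) (x : ι → R3) (a b : ι) :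
    hw 1 ((s • x) a - (s • x) b) = hw s (x a - x b) := by
  rw [← HMac_hw s (x a - x b), smul_sub]
  rfl

theorem HMac_vw (s : ℝ) (x : ι → R3) : vw 1 (s • x) = vw s x := by
  simp only [vw, HMac_hw']

theorem HMac_meas_vw (s : ℝ) : Measurable (vw s : (ι → R3) → ℝ) := by
  unfold vw hw
  refine Finset.measurable_sum _ fun a _ => Finset.measurable_sum _ fun b _ => ?_
  split_ifs
  · exact measurable_const
  · fun_prop

theorem HMac_ti {β : Type} {F : (ι → R3) → β} (h : TI F) (s : ℝ) : TI (fun x => F (s • x)) := by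
  intro x a
  have e : (s • fun i => x i + a) = fun i => (s • x) i + s • a := by
    funext i
    simp only [Pi.smul_apply, smul_add]
  simp only [e]
  exact h _ _

theorem HMac_eabs_sc {F : (ι → R3) → ℝ} {A : ℝ} (hA : 0 ≤ A) (s : ℝ) (x : ι → R3) :
    eabs (sc A s F) x = ENNReal.ofReal A * eabs F (s • x) := by
  simp only [eabs, sc]
  rw [abs_mul, abs_of_nonneg hA, ENNReal.ofReal_mul hA]

theorem HMac_hasF {κ : (ι → R3) → ℝ} (h : ContDiff ℝ 1 κ) (A s : ℝ) (x : ι → R3) :
    HasFDerivAt (sc A s κ) ((A * s) • fderiv ℝ κ (s • x)) x := by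
  have h1 : HasFDerivAt κ (fderiv ℝ κ (s • x)) (s • x) :=
    (h.differentiable one_ne_zero _).hasFDerivAt
  have h2 := (h1.comp x ((hasFDerivAt_id x).const_smul s)).const_mul A
  refine h2.congr_fderiv ?_
  ext v
  simp [mul_assoc]

theorem HMac_pgrad {κ : (ι → R3) → ℝ} (h : ContDiff ℝ 1 κ) (A s : ℝ) (i : ι) (x : ι → R3) :
    pgrad (sc A s κ) i x = (A * s) • pgrad κ i (s • x) := by
  refine ext_inner_right ℝ fun v => ?_
  rw [pgrad_eq (HMac_hasF h A s x).differentiableAt, (HMac_hasF h A s x).fderiv,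
    real_inner_smul_left, pgrad_eq (h.differentiable one_ne_zero _)]
  rfl

theorem HMac_contDiff {κ : (ι → R3) → ℝ} (h : ContDiff ℝ 1 κ) (A s : ℝ) :
    ContDiff ℝ 1 (sc A s κ) :=
  contDiff_const.mul (h.comp (contDiff_id.const_smul s))

theorem HMac_cb1 {κ : (ι → R3) → ℝ} (h : Cb1 κ) (A s : ℝ) : Cb1 (sc A s κ) := by
  obtain ⟨h1, M, hM⟩ := h
  have hM0 : 0 ≤ M := (abs_nonneg _).trans (hM 0).1
  refine ⟨HMac_contDiff h1 A s, (|A| + |A * s|) * M, fun x => ⟨?_, ?_⟩⟩
  · rw [sc, abs_mul]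
    exact mul_le_mul (le_add_of_nonneg_right (abs_nonneg _)) (hM _).1 (abs_nonneg _)
      (by positivity)
  · rw [(HMac_hasF h1 A s x).fderiv, norm_smul, Real.norm_eq_abs]
    exact mul_le_mul (le_add_of_nonneg_left (abs_nonneg _)) (hM _).2 (norm_nonneg _)
      (by positivity)

theorem HMac_cc1 {ζ : (ι → R3) → ℝ} (h : Cc1 ζ) {s : ℝ} (hs : s ≠ 0) : Cc1 (sc 1 s ζ) := by
  refine ⟨HMac_contDiff h.1 1 s, ?_⟩
  have h2 := h.2.comp_homeomorph (Homeomorph.smulOfNeZero s hs)
  have e : sc 1 s ζ = ζ ∘ (Homeomorph.smulOfNeZero s hs) := by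
    funext x
    simp [sc]
  rwa [e]

theorem HMac_gd {F κ : (ι → R3) → ℝ} {m2 : ℝ} (h : GD m2 F κ) (A : ℝ) {s : ℝ} (hs : 0 < s) :
    GD (s ^ 2 * m2) (sc A s F) (sc (A / s ^ 2) s κ) := by
  refine ⟨(h.mF.comp (HMac_meas_smul s)).const_mul A, ?_, HMac_cb1 h.cb _ _, fun ζ hζ => ?_⟩
  · obtain ⟨M, hM⟩ := h.bF
    refine ⟨|A| * M, fun x => ?_⟩
    rw [sc, abs_mul]
    exact mul_le_mul_of_nonneg_left (hM _) (abs_nonneg _)
  · have hζ' := HMac_cc1 hζ (inv_ne_zero hs.ne')
    have hw := h.weak _ hζ'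
    obtain ⟨ζ', hζe⟩ : ∃ ζ', ζ' = sc 1 s⁻¹ ζ := ⟨_, rfl⟩
    rw [← hζe] at hw hζ'
    have e0 : ζ = sc 1 s ζ' := by
      funext x
      simp [hζe, sc, smul_smul, hs.ne']
    have e1 : ∀ x, (∑ i, ⟪pgrad (sc (A / s ^ 2) s κ) i x, pgrad ζ i x⟫_ℝ) +
        s ^ 2 * m2 * (sc (A / s ^ 2) s κ x * ζ x) =
        A * (fun y => (∑ i, ⟪pgrad κ i y, pgrad ζ' i y⟫_ℝ) + m2 * (κ y * ζ' y)) (s • x) := by
      intro x
      rw [e0]
      simp only [HMac_pgrad h.cb.1, HMac_pgrad hζ'.1, real_inner_smul_left,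
        real_inner_smul_right, sc, mul_add, Finset.mul_sum]
      congr 1
      · refine Finset.sum_congr rfl fun i _ => ?_
        field_simp
      · field_simp
    have e2 : ∀ x, sc A s F x * ζ x = A * (fun y => F y * ζ' y) (s • x) := by
      intro x
      rw [e0]
      simp only [sc]
      ring
    simp only [e1, e2]
    rw [integral_const_mul, integral_const_mul,
      Measure.integral_comp_smul volume
        (fun y => (∑ i, ⟪pgrad κ i y, pgrad ζ' i y⟫_ℝ) + m2 * (κ y * ζ' y)) s,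
      Measure.integral_comp_smul volume (fun y => F y * ζ' y) s, hw]

theorem HMac_tri_nonneg (s : ℝ) (S : Finset ι) (x : ι → R3) :
    0 ≤ ∑ a ∈ S, ∑ b ∈ S, ∑ c ∈ S,
      if a ≠ b ∧ a ≠ c ∧ b ≠ c then hw s (x a - x b) * hw s (x a - x c) else 0 := by
  refine Finset.sum_nonneg fun a _ => Finset.sum_nonneg fun b _ => Finset.sum_nonneg fun c _ => ?_
  split_ifs
  · exact mul_nonneg (HMac_hw_nonneg _ _) (HMac_hw_nonneg _ _)
  · exact le_rfl

theorem HMac_compl {p : ℕ} (A : Finset (Fin p)) :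
    (insert (Fin.last p) (A.map Fin.castSuccEmb))ᶜ = Aᶜ.map Fin.castSuccEmb := by
  ext i
  refine Fin.lastCases ?_ (fun j => ?_) i
  · simp [(Fin.castSucc_lt_last _).ne]
  · simp [(Fin.castSucc_lt_last _).ne]

theorem HMac_card {p : ℕ} (A : Finset (Fin p)) :
    (insert (Fin.last p) (A.map Fin.castSuccEmb)).card = A.card + 1 := by
  rw [Finset.card_insert_of_notMem, Finset.card_map]
  simp [(Fin.castSucc_lt_last _).ne]

theorem HMac_meas_snoc {p : ℕ} :
    Measurable (fun q : (Fin p → R3) × R3 => (Fin.snoc q.1 q.2 : Fin (p + 1) → R3)) := by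
  refine measurable_pi_lambda _ fun i => ?_
  refine Fin.lastCases ?_ (fun j => ?_) i
  · simp only [Fin.snoc_last]
    exact measurable_snd
  · simp only [Fin.snoc_castSucc]
    exact (measurable_pi_apply j).comp measurable_fst

end aux

theorem exists_mac (p : ℕ) (hp : 2 ≤ p) (B : ℝ) : ∃ C : ℝ, 1 ≤ C ∧
    ∀ (F : (Fin p → R3) → ℝ) (A s mm : ℝ), Nice F B → 0 ≤ A → 1 ≤ mm → mm ≤ s →
      Mac A s mm C F := by
  obtain ⟨C, hC1, hC⟩ := green_norms p hp B
  refine ⟨max C (3 * B), hC1.trans (le_max_left _ _), fun F A s mm hF hA h1 h2 => ?_⟩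
  obtain ⟨C', hC'⟩ : ∃ C', C' = max C (3 * B) := ⟨_, rfl⟩
  rw [← hC']
  have hCC : C ≤ C' := hC' ▸ le_max_left _ _
  have hBC : 3 * B ≤ C' := hC' ▸ le_max_right _ _
  have hB1 := hF.one_le
  have hmm : 0 < mm := by linarith
  have hs : 0 < s := by linarith
  have hm0 : 0 < mm / s := by positivity
  have hcard : 2 ≤ Fintype.card (Fin p) := by rwa [Fintype.card_fin]
  obtain ⟨hl2, hwg, hdiff⟩ := hC F (mm / s) hF hm0.le ((div_le_one hs).2 h2) fun _ => hm0
  have hcb := hF.toNice0.cb1_green hcard (mm / s)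
  have hg : Measurable (green (mm / s) F) := measurable_green _ hF.meas
  have hif : C * (if p = 2 then (mm / s)⁻¹ else 1) ≤ C' * (if p = 2 then s else 1) := by
    refine mul_le_mul hCC ?_ ?_ (by linarith)
    · split_ifs
      · rw [inv_div]
        exact div_le_self hs.le h1
      · exact le_rfl
    · split_ifs
      · positivity
      · exact zero_le_one
  obtain ⟨q, rfl⟩ : ∃ q, p = q + 1 := ⟨p - 1, by omega⟩
  have hce : ∀ j : Fin (q + 1), (Finset.univ.erase j).card = q := fun j => by simp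
  have hlg : Measurable (lgreen (mm / s) (eabs F)) :=
    measurable_lgreen _ (measurable_eabs hF.meas)
  have hle : ∀ y, eabs (kap A s mm F) y ≤
      ENNReal.ofReal (A / s ^ 2) * lgreen (mm / s) (eabs F) (s • y) := fun y => by
    rw [kap, HMac_eabs_sc (by positivity)]
    exact mul_le_mul_right (eabs_green_le _ _) _
  refine ⟨?_, ?_, fun j => ?_, fun i j => ?_, fun S hS => ?_, fun S hS => ?_, fun x => ?_⟩
  · have h := HMac_gd (hF.toNice0.gd hcard (mm / s)) A hs
    have e : s ^ 2 * (mm / s) ^ 2 = mm ^ 2 := by field_simp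
    rwa [e] at h
  · intro x a
    exact congrArg (fun t => A / s ^ 2 * t) (HMac_ti (hF.ti.green (mm / s)) s x a)
  · refine HMac_margLe (a := (A / s ^ 2) ^ 2) (hg.pow_const 2).ennreal_ofReal (by positivity) hs
      (hl2 j) (fun y => ?_) ?_
    · rw [← ENNReal.ofReal_mul (by positivity), kap, sc, mul_pow]
    · refine (mul_le_mul_of_nonneg_left hif (by positivity)).trans (le_of_eq ?_)
      rw [hce, show 3 * (q + 1) + 1 = 3 * q + 4 by ring, pow_add]
      field_simp
  · refine HMac_margLe (a := (A / s) ^ 2)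
      ((((hcb.continuous_pgrad i).measurable.norm.pow_const 2).div
        (HMac_meas_vw 1)).ennreal_ofReal) (by positivity) hs (hwg i j) (fun y => ?_) ?_
    · rw [← ENNReal.ofReal_mul (by positivity), kap, HMac_pgrad hcb.1, Pi.div_apply, HMac_vw,
        norm_smul,
        mul_pow, Real.norm_eq_abs, sq_abs, mul_div_assoc,
        show A / s ^ 2 * s = A / s by field_simp]
    · refine (mul_le_mul_of_nonneg_left hif (by positivity)).trans (le_of_eq ?_)
      rw [hce, show 3 * (q + 1) - 1 = 3 * q + 2 by omega, pow_add]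
      field_simp
  · refine HMac_margLe hlg (by positivity) hs
      (marg_lgreen_le (measurable_eabs hF.meas) (by linarith) hF.mg (mm / s)
        (by rwa [Fintype.card_fin])) hle ?_
    refine (mul_le_mul_of_nonneg_left hBC (by positivity)).trans (le_of_eq ?_)
    rw [pow_add]
    field_simp
  · have hSu : S ≠ Finset.univ := by
      rintro rfl
      simp at hS
    refine HMac_margLe hlg (by positivity) hs
      (marg_lgreen_le' (measurable_eabs hF.meas) (hF.mg S hSu) hm0) hle ?_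
    have h3 : B / (mm / s) ^ 2 ≤ C' / (mm / s) ^ 2 :=
      div_le_div_of_nonneg_right (by linarith) (by positivity)
    refine (mul_le_mul_of_nonneg_left h3 (by positivity)).trans (le_of_eq ?_)
    field_simp
  · rw [kap, sc, ← mul_sub, abs_mul, abs_of_nonneg (by positivity : 0 ≤ A / s ^ 2)]
    have h3 : C * (if q + 1 = 2 then mm / s else (mm / s) ^ 2) ≤
        C' * (if q + 1 = 2 then mm / s else (mm / s) ^ 2) := by
      refine mul_le_mul_of_nonneg_right hCC ?_
      split_ifs <;> positivity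
    refine (mul_le_mul_of_nonneg_left ((hdiff _).trans h3) (by positivity)).trans (le_of_eq ?_)
    ring

theorem Symm.kap {ι : Type} [Fintype ι] [DecidableEq ι] {F : (ι → R3) → ℝ} (h : Symm F)
    (A s mm : ℝ) : Symm (kap A s mm F) := fun π x =>
  congrArg (fun t => A / s ^ 2 * t) (h.green (mm / s) π (s • x))

theorem MajS.scale {ι : Type} [Fintype ι] [DecidableEq ι] {F : (ι → R3) → ℝ} {K A s : ℝ}
    (h : MajS 1 (eabs F) K) (hA : 0 ≤ A) (hs : 0 < s) : MajS s (eabs (sc A s F)) (A * K) := by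
  have e : eabs (sc A s F) = fun x => ENNReal.ofReal A * eabs F (s • x) :=
    funext (HMac_eabs_sc hA s)
  rw [e]
  refine ⟨(h.meas.comp (HMac_meas_smul s)).const_mul _, fun x a => ?_, fun S hS => ?_,
    fun S hS x => ?_⟩
  · exact congrArg (fun t => ENNReal.ofReal A * t) (HMac_ti h.ti s x a)
  · refine HMac_margLe h.meas hA hs (h.mg S hS) (fun _ => le_rfl) (le_of_eq ?_)
    rw [one_pow]
    ring
  · rw [HMac_marg_sc h.meas S hA hs]
    refine (mul_le_mul_right (h.tri S hS _) _).trans (le_of_eq ?_)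
    rw [← ENNReal.ofReal_mul (by positivity)]
    simp only [HMac_hw', one_pow]
    congr 1
    ring

theorem MajS.smul {ι : Type} [Fintype ι] [DecidableEq ι] {Φ : (ι → R3) → ℝ≥0∞} {κ s c : ℝ}
    (h : MajS s Φ κ) (hc : 0 ≤ c) : MajS s (fun x => ENNReal.ofReal c * Φ x) (c * κ) := by
  refine ⟨h.meas.const_mul _, fun x a => ?_, fun S hS x => ?_, fun S hS x => ?_⟩
  · exact congrArg (fun t => ENNReal.ofReal c * t) (h.ti x a)
  · rw [HMac_marg_const h.meas]
    refine (mul_le_mul_right (h.mg S hS x) _).trans (le_of_eq ?_)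
    rw [← ENNReal.ofReal_mul hc, mul_div_assoc]
  · rw [HMac_marg_const h.meas]
    refine (mul_le_mul_right (h.tri S hS x) _).trans (le_of_eq ?_)
    rw [← ENNReal.ofReal_mul hc, mul_div_assoc, mul_assoc]

theorem MajS.mono {ι : Type} [Fintype ι] [DecidableEq ι] {Φ : (ι → R3) → ℝ≥0∞} {κ κ' s : ℝ}
    (h : MajS s Φ κ) (hs : 0 < s) (hκ : κ ≤ κ') : MajS s Φ κ' := by
  have h1 : ∀ n : ℕ, κ / s ^ n ≤ κ' / s ^ n := fun n =>
    div_le_div_of_nonneg_right hκ (by positivity)
  exact ⟨h.meas, h.ti, fun S hS x => (h.mg S hS x).trans (ENNReal.ofReal_le_ofReal (h1 _)),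
    fun S hS x => (h.tri S hS x).trans (ENNReal.ofReal_le_ofReal
      (mul_le_mul_of_nonneg_right (h1 _) (HMac_tri_nonneg _ _ _)))⟩

theorem MajS.red {p : ℕ} {Φ : (Fin (p + 1) → R3) → ℝ≥0∞} {κ s : ℝ} (h : MajS s Φ κ) (hs : 0 < s) :
    MajS s (fun x : Fin p → R3 => ∫⁻ y, Φ (Fin.snoc x y)) (κ / s ^ 3) := by
  have e1 : ∀ n : ℕ, κ / s ^ (3 * (n + 1)) = κ / s ^ 3 / s ^ (3 * n) := fun n => by
    rw [mul_add, pow_add, mul_one, div_div, mul_comm]
  refine ⟨(h.meas.comp HMac_meas_snoc).lintegral_prod_right', fun x a => ?_, fun S hS x => ?_,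
    fun S hS x => ?_⟩
  · have e : ∀ y : R3, Φ (Fin.snoc (fun i => x i + a) y) = Φ (Fin.snoc x (y - a)) := fun y => by
      rw [← h.ti (Fin.snoc x (y - a)) a]
      congr 1
      funext i
      refine Fin.lastCases ?_ (fun j => ?_) i
      · simp
      · simp
    simp only [e]
    exact lintegral_sub_right_eq_self (fun y => Φ (Fin.snoc x y)) a
  · rw [marg_snoc h.meas S x 0, ← e1, ← HMac_card]
    refine h.mg _ (fun hu => hS ?_) _
    have h2 := HMac_card S
    rw [hu, Finset.card_univ, Fintype.card_fin] at h2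
    exact Finset.eq_univ_of_card S (by rw [Fintype.card_fin]; omega)
  · rw [marg_snoc h.meas S x 0]
    refine (h.tri _ (by rwa [HMac_compl, Finset.card_map]) _).trans (le_of_eq ?_)
    rw [HMac_card, e1, HMac_compl]
    simp only [Finset.sum_map, Fin.coe_castSuccEmb, Fin.snoc_castSucc, ne_eq, Fin.castSucc_inj]

end Pool.Agent.Lib.MP_8fe63c_mp
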