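import Pool.Agent.Lib.MP_8fe63c_mp.NDefs
import Pool.Agent.Lib.MP_8fe63c_mp.HMac
import Pool.Agent.Lib.MP_8fe63c_mp.ABas

/-!
Bessel inequalities for synthesised functions, coefficients, reduction of sources.

Sketch. `marg_synth_le`: induction on `B` (`marg_union`, `marg_single`); for one leg `j`, write
`synth A c x = ∑ a, (synth (A.erase j) (c with α j = a) x) * e a (x j)` and use `bes0`. `coef_bil`:
`sum_cfg_split` and linearity of the integral (`F` and all products are in `L^2`).
-/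

set_option linter.unusedSectionVars false

open MeasureTheory Set Filter Topology
open scoped ENNReal InnerProductSpace

namespace Pool.Agent.Lib.MP_8fe63c_mp

variable {I κ ι : Type} [Fintype I] [DecidableEq I] [Fintype κ] [DecidableEq κ]
  [Fintype ι] [DecidableEq ι]


theorem muP_univ (κ : Type) [Fintype κ] : muP univ κ = volume := by
  simp only [muP, Measure.restrict_univ]
  rfl

theorem Frame.meas (fr : Frame I) (a : I) : Measurable (fr.e a) := (fr.inF a).mu

theorem Frame.memLp (fr : Frame I) (a : I) : MemLp (fr.e a) 2 volume := by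
  have h := (fr.inF a).memLp_u ⟨measurable_const, fun _ => le_rfl, fun _ => ⟨0, fun _ _ => le_rfl⟩⟩
  rwa [Measure.restrict_univ] at h

theorem memLp_tens {Ω : Set R3} {u : κ → R3 → ℝ} (h : ∀ j, MemLp (u j) 2 (volume.restrict Ω)) :
    MemLp (tens u) 2 (muP Ω κ) := by
  have hm : AEStronglyMeasurable (tens u) (muP Ω κ) := by
    unfold tens muP
    exact Finset.aestronglyMeasurable_fun_prod _ fun j _ =>
      (h j).aestronglyMeasurable.comp_quasiMeasurePreserving
        (Measure.quasiMeasurePreserving_eval (fun _ : κ => (volume : Measure R3).restrict Ω) j)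
  refine (memLp_two_iff_integrable_sq hm).2 ?_
  have h2 := Integrable.fintype_prod (f := fun j y => u j y ^ 2)
    (μ := fun _ : κ => (volume : Measure R3).restrict Ω) fun j => (h j).integrable_sq
  refine h2.congr (Eventually.of_forall fun x => ?_)
  simp only [tens, Finset.prod_pow]

theorem measurable_prodE {e : I → R3 → ℝ} (h : ∀ a, Measurable (e a)) (α : κ → I) :
    Measurable (prodE e α) :=
  Finset.measurable_prod _ fun j _ => (h (α j)).comp (measurable_pi_apply j)

theorem measurable_hat {e : I → R3 → ℝ} (h : ∀ a, Measurable (e a)) (c : (κ → I) → ℝ) :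
    Measurable (hat e c) :=
  Finset.measurable_sum _ fun α _ => (measurable_prodE h α).const_mul _

theorem measurable_synth (L : Lv I) {e : I → R3 → ℝ} (h : ∀ a, Measurable (e a)) (A : Finset κ)
    (c : (κ → I) → ℝ) : Measurable (synth L e A c) :=
  Finset.measurable_sum _ fun α _ =>
    (Finset.measurable_prod _ fun j _ => (h (α j)).comp (measurable_pi_apply j)).const_mul _

theorem memLp_prodE {Ω : Set R3} {e : I → R3 → ℝ} (h : ∀ a, MemLp (e a) 2 (volume.restrict Ω))
    (α : κ → I) : MemLp (prodE e α) 2 (muP Ω κ) :=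
  memLp_tens (u := fun j => e (α j)) fun j => h (α j)

theorem memLp_hat {Ω : Set R3} {e : I → R3 → ℝ} (h : ∀ a, MemLp (e a) 2 (volume.restrict Ω))
    (c : (κ → I) → ℝ) : MemLp (hat e c) 2 (muP Ω κ) :=
  memLp_finsetSum _ fun α _ => (memLp_prodE h α).const_mul (c α)

theorem synth_congr (L : Lv I) (e : I → R3 → ℝ) (A : Finset κ) (c : (κ → I) → ℝ) {x y : κ → R3}
    (h : ∀ j ∈ A, x j = y j) : synth L e A c x = synth L e A c y :=
  Finset.sum_congr rfl fun α _ => by
    rw [Finset.prod_congr rfl fun j hj => by rw [h j hj]]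

theorem synth_univ (L : Lv I) (e : I → R3 → ℝ) (c : (κ → I) → ℝ) :
    synth L e Finset.univ c = hat e c := by
  funext x
  simp only [synth, hat, prodE, L.cfg_univ]

theorem NBes_mem_cfg (L : Lv I) {A : Finset κ} {α : κ → I} :
    α ∈ L.cfg A ↔ ∀ j, j ∉ A → α j = L.o := by
  simp [Lv.cfg]

theorem NBes_sum_piecewise {M : Type} [AddCommMonoid M] (L : Lv I) {A B : Finset κ} (hB : B ⊆ A)
    (f : (κ → I) → M) :
    ∑ η ∈ L.cfg B, ∑ α ∈ L.cfg (A \ B), f (B.piecewise η α) = ∑ α ∈ L.cfg A, f α := by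
  rw [← Finset.sum_product']
  refine Finset.sum_nbij' (fun p => B.piecewise p.1 p.2) (fun α => (L.pr B α, L.pr (A \ B) α))
    ?_ ?_ ?_ ?_ fun _ _ => rfl
  · rintro ⟨η, α⟩ hp
    obtain ⟨h1, h2⟩ := Finset.mem_product.1 hp
    rw [NBes_mem_cfg] at h1 h2 ⊢
    intro j hj
    have hj' : j ∉ B := fun h => hj (hB h)
    rw [Finset.piecewise_eq_of_notMem _ _ _ hj']
    exact h2 j fun h => hj (Finset.mem_sdiff.1 h).1
  · intro α _
    refine Finset.mem_product.2 ⟨?_, ?_⟩ <;> rw [NBes_mem_cfg] <;> intro j hj <;>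
      simp only [Lv.pr, if_neg hj]
  · rintro ⟨η, α⟩ hp
    obtain ⟨h1, h2⟩ := Finset.mem_product.1 hp
    rw [NBes_mem_cfg] at h1 h2
    refine Prod.ext (funext fun j => ?_) (funext fun j => ?_)
    · by_cases hj : j ∈ B
      · simp only [Lv.pr, if_pos hj, Finset.piecewise_eq_of_mem _ _ _ hj]
      · simp only [Lv.pr, if_neg hj]
        exact (h1 j hj).symm
    · by_cases hj : j ∈ A \ B
      · simp only [Lv.pr, if_pos hj,
          Finset.piecewise_eq_of_notMem _ _ _ (Finset.mem_sdiff.1 hj).2]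
      · simp only [Lv.pr, if_neg hj]
        exact (h2 j hj).symm
  · intro α hα
    rw [NBes_mem_cfg] at hα
    funext j
    by_cases hj : j ∈ B
    · simp only [Lv.pr, if_pos hj, Finset.piecewise_eq_of_mem _ _ _ hj]
    · simp only [Finset.piecewise_eq_of_notMem _ _ _ hj, Lv.pr]
      by_cases hA : j ∈ A
      · rw [if_pos (Finset.mem_sdiff.2 ⟨hA, hj⟩)]
      · rw [if_neg fun h => hA (Finset.mem_sdiff.1 h).1]
        exact (hα j hA).symm

theorem synth_split (L : Lv I) (e : I → R3 → ℝ) {A B : Finset κ} (hB : B ⊆ A) (c : (κ → I) → ℝ)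
    (x : κ → R3) : synth L e A c x = ∑ η ∈ L.cfg B,
      synth L e (A \ B) (fun α => c (B.piecewise η α)) x * ∏ j ∈ B, e (η j) (x j) := by
  unfold synth
  rw [← NBes_sum_piecewise L hB]
  refine Finset.sum_congr rfl fun η _ => ?_
  rw [Finset.sum_mul]
  refine Finset.sum_congr rfl fun α _ => ?_
  rw [← Finset.prod_sdiff hB, mul_assoc]
  congr 2
  · exact Finset.prod_congr rfl fun j hj => by
      rw [Finset.piecewise_eq_of_notMem _ _ _ (Finset.mem_sdiff.1 hj).2]
  · exact Finset.prod_congr rfl fun j hj => by rw [Finset.piecewise_eq_of_mem _ _ _ hj]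

theorem sum_cfg_piecewise (L : Lv I) {A B : Finset κ} (hB : B ⊆ A) (f : (κ → I) → ℝ) :
    ∑ η ∈ L.cfg B, ∑ α ∈ L.cfg (A \ B), f (B.piecewise η α) = ∑ α ∈ L.cfg A, f α :=
  NBes_sum_piecewise L hB f

theorem NBes_sum_single {M : Type} [AddCommMonoid M] (L : Lv I) (j : κ) (f : (κ → I) → M) :
    ∑ θ ∈ L.cfg {j}, f θ = ∑ a, f (Function.update (fun _ => L.o) j a) := by
  symm
  refine Finset.sum_nbij' (fun a => Function.update (fun _ => L.o) j a) (fun θ => θ j)
    ?_ (fun _ _ => Finset.mem_univ _) ?_ ?_ fun _ _ => rfl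
  · intro a _
    rw [NBes_mem_cfg]
    intro i hi
    rw [Function.update_of_ne (by simpa using hi)]
  · intro a _
    simp
  · intro θ hθ
    rw [NBes_mem_cfg] at hθ
    funext i
    by_cases hi : i = j
    · subst hi; simp
    · rw [Function.update_of_ne hi]
      exact (hθ i (by simpa using hi)).symm

theorem NBes_bes (fr : Frame I) (c : I → ℝ) :
    ∫⁻ y, ENNReal.ofReal ((∑ a, c a * fr.e a y) ^ 2) ≤ ∑ a, ENNReal.ofReal (c a ^ 2) := by
  have h1 : MemLp (fun y => ∑ a, c a * fr.e a y) 2 volume :=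
    memLp_finsetSum _ fun a _ => (fr.memLp a).const_mul (c a)
  rw [← ofReal_integral_eq_lintegral_ofReal h1.integrable_sq
    (Eventually.of_forall fun y => sq_nonneg _),
    ← ENNReal.ofReal_sum_of_nonneg fun a _ => sq_nonneg _]
  exact ENNReal.ofReal_le_ofReal (fr.bes0 c)

theorem NBes_single (L : Lv I) (fr : Frame I) {A : Finset κ} {j : κ} (hj : j ∈ A)
    (c : (κ → I) → ℝ) (x : κ → R3) :
    ∫⁻ y, ENNReal.ofReal (synth L fr.e A c (Function.update x j y) ^ 2) ≤ ∑ θ ∈ L.cfg {j},
      ENNReal.ofReal (synth L fr.e (A \ {j})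
        (fun α => c (({j} : Finset κ).piecewise θ α)) x ^ 2) := by
  rw [NBes_sum_single]
  refine le_trans (le_of_eq (lintegral_congr fun y => ?_)) (NBes_bes fr _)
  rw [synth_split L fr.e (Finset.singleton_subset_iff.2 hj), NBes_sum_single]
  congr 2
  refine Finset.sum_congr rfl fun a _ => ?_
  rw [Finset.prod_singleton, Function.update_self, Function.update_self]
  congr 1
  refine synth_congr L _ _ _ fun i hi => Function.update_of_ne ?_ _ _
  simpa using (Finset.mem_sdiff.1 hi).2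

theorem NBes_meas_sq (L : Lv I) (fr : Frame I) (A : Finset κ) (c : (κ → I) → ℝ) :
    Measurable fun y => ENNReal.ofReal (synth L fr.e A c y ^ 2) :=
  ((measurable_synth L fr.meas A c).pow_const 2).ennreal_ofReal

theorem marg_synth_le (L : Lv I) (fr : Frame I) {A B : Finset κ} (hB : B ⊆ A) (c : (κ → I) → ℝ)
    (x : κ → R3) :
    marg B (fun y => ENNReal.ofReal (synth L fr.e A c y ^ 2)) x ≤ ∑ η ∈ L.cfg B,
      ENNReal.ofReal (synth L fr.e (A \ B) (fun α => c (B.piecewise η α)) x ^ 2) := by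
  induction B using Finset.induction_on generalizing x with
  | empty => simp [marg_empty, L.cfg_empty]
  | insert j B hj ih =>
    have hB' : B ⊆ A := (Finset.subset_insert j B).trans hB
    have hjA : j ∈ A \ B := Finset.mem_sdiff.2 ⟨hB (Finset.mem_insert_self j B), hj⟩
    rw [HMarg_insert (NBes_meas_sq L fr A c) hj]
    refine (lintegral_mono fun y => ih hB' _).trans ?_
    have hm : ∀ η ∈ L.cfg B, Measurable fun y : R3 => ENNReal.ofReal (synth L fr.e (A \ B)
        (fun α => c (B.piecewise η α)) (Function.update x j y) ^ 2) := fun η _ =>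
      (NBes_meas_sq L fr _ _).comp (measurable_update x (a := j))
    rw [lintegral_finsetSum _ hm, ← NBes_sum_piecewise L (Finset.subset_insert j B)]
    refine Finset.sum_le_sum fun η _ => (NBes_single L fr hjA _ x).trans (le_of_eq ?_)
    have e1 : insert j B \ B = {j} := by
      ext i
      simp only [Finset.mem_sdiff, Finset.mem_insert, Finset.mem_singleton]
      constructor
      · rintro ⟨h | h, h'⟩
        · exact h
        · exact absurd h h'
      · rintro rfl
        exact ⟨Or.inl rfl, hj⟩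
    have e2 : A \ insert j B = (A \ B) \ {j} := by
      ext i
      simp only [Finset.mem_sdiff, Finset.mem_insert, Finset.mem_singleton]
      tauto
    rw [e1, e2]
    refine Finset.sum_congr rfl fun θ _ => ?_
    congr 3
    funext α
    congr 1
    funext i
    by_cases h1 : i ∈ B
    · simp [Finset.piecewise, h1]
    · by_cases h2 : i = j
      · simp [Finset.piecewise, h2, hj]
      · simp [Finset.piecewise, h1, h2]

theorem margLe_synth (L : Lv I) (fr : Frame I) (A : Finset κ) (c : (κ → I) → ℝ) :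
    MargLe A (fun y => ENNReal.ofReal (synth L fr.e A c y ^ 2)) (∑ α ∈ L.cfg A, c α ^ 2) := by
  intro x
  refine (marg_synth_le L fr (Finset.Subset.refl A) c x).trans (le_of_eq ?_)
  rw [ENNReal.ofReal_sum_of_nonneg fun a _ => sq_nonneg _]
  refine Finset.sum_congr rfl fun η hη => ?_
  rw [NBes_mem_cfg] at hη
  have e : A.piecewise η (fun _ => L.o) = η := by
    funext j
    by_cases hj : j ∈ A
    · rw [Finset.piecewise_eq_of_mem _ _ _ hj]
    · rw [Finset.piecewise_eq_of_notMem _ _ _ hj, hη j hj]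
  simp only [synth, Finset.sdiff_self, L.cfg_empty, Finset.sum_singleton, Finset.prod_empty,
    mul_one, e]

theorem NBes_memLp_prodE (fr : Frame I) (α : κ → I) : MemLp (prodE fr.e α) 2 volume := by
  have h := memLp_prodE (Ω := univ) (e := fr.e)
    (fun a => by rw [Measure.restrict_univ]; exact fr.memLp a) α
  rwa [muP_univ] at h

theorem NBes_memLp_hat (fr : Frame I) (c : (κ → I) → ℝ) : MemLp (hat fr.e c) 2 volume := by
  have h := memLp_hat (Ω := univ) (e := fr.e)
    (fun a => by rw [Measure.restrict_univ]; exact fr.memLp a) c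
  rwa [muP_univ] at h

theorem hat_l2_le (fr : Frame I) (c : (κ → I) → ℝ) :
    ∫ x, hat fr.e c x ^ 2 ≤ ∑ α : κ → I, c α ^ 2 := by
  rcases isEmpty_or_nonempty κ with hκ | hκ
  · have h1 : (volume : Measure (κ → R3)) univ = 1 := by
      rw [← muP_univ, muP, Measure.pi_empty_univ]
    simp [hat, prodE, Measure.real, h1]
  rcases isEmpty_or_nonempty I with hI | ⟨⟨o⟩⟩
  · simp [hat]
  let L : Lv I := ⟨o, ∅, fun _ => 0⟩
  have h := margLe_synth L fr Finset.univ c (fun _ => 0)
  rw [marg_univ, synth_univ, L.cfg_univ, ← ofReal_integral_eq_lintegral_ofReal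
    (NBes_memLp_hat fr c).integrable_sq (Eventually.of_forall fun y => sq_nonneg _)] at h
  exact (ENNReal.ofReal_le_ofReal_iff (Finset.sum_nonneg fun a _ => sq_nonneg _)).1 h

theorem coef_sum (fr : Frame I) {F : (κ → R3) → ℝ} (hF : MemLp F 2 volume) (c : (κ → I) → ℝ) :
    ∑ α, coef fr.e F α * c α = ∫ x, F x * hat fr.e c x := by
  simp only [coef, hat, Finset.mul_sum]
  have hi : ∀ α ∈ (Finset.univ : Finset (κ → I)),
      Integrable fun x => F x * (c α * prodE fr.e α x) := fun α _ =>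
    hF.integrable_mul ((NBes_memLp_prodE fr α).const_mul (c α))
  rw [integral_finsetSum _ hi]
  refine Finset.sum_congr rfl fun α _ => ?_
  rw [← integral_mul_const]
  exact integral_congr_ae (Eventually.of_forall fun x => by simp only; ring)

theorem coef_bil (L : Lv I) (fr : Frame I) {F : (κ → R3) → ℝ} (hF : MemLp F 2 volume)
    (R : Finset κ) (ζ h : (κ → I) → ℝ) :
    ∑ α, coef fr.e F α * ζ (L.pr Rᶜ α) * h (L.pr R α) =
      ∫ x, F x * synth L fr.e Rᶜ ζ x * synth L fr.e R h x := by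
  simp only [mul_assoc]
  rw [coef_sum fr hF]
  refine integral_congr_ae (Eventually.of_forall fun x => ?_)
  simp only [hat, synth]
  congr 1
  rw [Finset.sum_mul_sum, ← L.sum_cfg_split R]
  refine Finset.sum_congr rfl fun α _ => ?_
  have e1 : ∏ j ∈ Rᶜ, fr.e (L.pr Rᶜ α j) (x j) = ∏ j ∈ Rᶜ, fr.e (α j) (x j) :=
    Finset.prod_congr rfl fun j hj => by simp only [Lv.pr, if_pos hj]
  have e2 : ∏ j ∈ R, fr.e (L.pr R α j) (x j) = ∏ j ∈ R, fr.e (α j) (x j) :=
    Finset.prod_congr rfl fun j hj => by simp only [Lv.pr, if_pos hj]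
  rw [e1, e2, prodE, ← Finset.prod_compl_mul_prod R]
  ring

theorem coef_bessel (fr : Frame I) {F : (κ → R3) → ℝ} (hF : MemLp F 2 volume) :
    ∑ α : κ → I, coef fr.e F α ^ 2 ≤ ∫ x, F x ^ 2 := by
  have h1 := coef_sum fr hF (coef fr.e F)
  have h2 := hat_l2_le fr (coef fr.e F)
  have hH := NBes_memLp_hat fr (coef fr.e F)
  have h3 : ∫ x, 2 * (F x * hat fr.e (coef fr.e F) x) ≤
      ∫ x, (F x ^ 2 + hat fr.e (coef fr.e F) x ^ 2) :=
    integral_mono ((hF.integrable_mul hH).const_mul 2) (hF.integrable_sq.add hH.integrable_sq)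
      fun x => by
        simp only
        nlinarith [sq_nonneg (F x - hat fr.e (coef fr.e F) x)]
  rw [integral_const_mul, integral_add hF.integrable_sq hH.integrable_sq, ← h1] at h3
  simp only [← sq] at h3
  linarith

theorem coef_lin (fr : Frame I) {F F' : (κ → R3) → ℝ} (hF : MemLp F 2 volume)
    (hF' : MemLp F' 2 volume) (a b : ℝ) (α : κ → I) :
    coef fr.e (fun x => a * F x + b * F' x) α = a * coef fr.e F α + b * coef fr.e F' α := by
  have h1 : Integrable (fun x => F x * prodE fr.e α x) := hF.integrable_mul (NBes_memLp_prodE fr α)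
  have h2 : Integrable (fun x => F' x * prodE fr.e α x) :=
    hF'.integrable_mul (NBes_memLp_prodE fr α)
  simp only [coef]
  rw [← integral_const_mul, ← integral_const_mul, ← integral_add (h1.const_mul a) (h2.const_mul b)]
  exact integral_congr_ae (Eventually.of_forall fun x => by simp only; ring)

theorem NBes_perm (Ω : Set R3) (π : Equiv.Perm κ) :
    MeasurePreserving (MeasurableEquiv.piCongrLeft (fun _ : κ => R3) π).symm
      (muP Ω κ) (muP Ω κ) :=
  (measurePreserving_piCongrLeft (fun _ : κ => (volume : Measure R3).restrict Ω) π).symm _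

theorem measurePreserving_comp_perm (Ω : Set R3) (π : Equiv.Perm κ) :
    MeasurePreserving (fun x : κ → R3 => x ∘ π) (muP Ω κ) (muP Ω κ) := NBes_perm Ω π

theorem integral_comp_perm (π : Equiv.Perm κ) (F : (κ → R3) → ℝ) :
    ∫ x, F (x ∘ π) = ∫ x, F x := by
  have h := (NBes_perm univ π).integral_comp' F
  rw [muP_univ] at h
  exact h

theorem coef_perm (e : I → R3 → ℝ) (F : (κ → R3) → ℝ) (π : Equiv.Perm κ) (α : κ → I) :
    coef e F (α ∘ π) = coef e (fun x => F (x ∘ π)) α := by
  simp only [coef]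
  rw [← integral_comp_perm π fun x => F x * prodE e (α ∘ π) x]
  refine integral_congr_ae (Eventually.of_forall fun x => ?_)
  simp only [prodE, Function.comp_apply]
  rw [Equiv.prod_comp π fun j => e (α j) (x j)]

theorem NBes_snoc (p : ℕ) : ∃ e : R3 × (Fin p → R3) ≃ᵐ (Fin (p + 1) → R3),
    MeasurePreserving e (volume.prod volume) volume ∧ ∀ y x, e (y, x) = Fin.snoc x y := by
  refine ⟨(MeasurableEquiv.piFinSuccAbove (fun _ : Fin (p + 1) => R3) (Fin.last p)).symm,
    (volume_preserving_piFinSuccAbove (fun _ : Fin (p + 1) => R3) (Fin.last p)).symm _,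
    fun y x => ?_⟩
  simp [MeasurableEquiv.piFinSuccAbove_symm_apply, Fin.insertNthEquiv, Fin.insertNth_last']

theorem integral_snoc {p : ℕ} {F : (Fin (p + 1) → R3) → ℝ} (h : Integrable F) :
    ∫ x, F x = ∫ x : Fin p → R3, ∫ y, F (Fin.snoc x y) := by
  obtain ⟨e, he, h2⟩ := NBes_snoc p
  rw [← he.integral_comp' F,
    integral_prod_symm (fun z => F (e z)) ((he.integrable_comp_emb e.measurableEmbedding).2 h)]
  simp only [h2]

theorem lintegral_snoc {p : ℕ} {F : (Fin (p + 1) → R3) → ℝ≥0∞} (h : Measurable F) :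
    ∫⁻ x, F x = ∫⁻ x : Fin p → R3, ∫⁻ y, F (Fin.snoc x y) := by
  obtain ⟨e, he, h2⟩ := NBes_snoc p
  rw [← he.lintegral_comp h,
    lintegral_prod_symm (fun z => F (e z)) (h.comp e.measurable).aemeasurable]
  simp only [h2]

theorem measurable_red {p : ℕ} {F : (Fin (p + 1) → R3) → ℝ} (h : Measurable F) {a : R3 → ℝ}
    (ha : Measurable a) : Measurable (red F a) :=
  (((h.comp HMac_meas_snoc).mul (ha.comp measurable_snd)).stronglyMeasurable.integral_prod_right'
    (ν := volume)).measurable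

theorem coef_snoc (fr : Frame I) {p : ℕ} {F : (Fin (p + 1) → R3) → ℝ} (hF : MemLp F 2 volume)
    (α : Fin p → I) (a : I) : coef fr.e F (Fin.snoc α a) = coef fr.e (red F (fr.e a)) α := by
  simp only [coef, red]
  have hi : Integrable fun x => F x * prodE fr.e (Fin.snoc α a) x :=
    hF.integrable_mul (NBes_memLp_prodE fr (Fin.snoc α a))
  rw [integral_snoc hi]
  refine integral_congr_ae (Eventually.of_forall fun x => ?_)
  simp only
  rw [← integral_mul_const]
  refine integral_congr_ae (Eventually.of_forall fun y => ?_)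
  simp only [prodE, Fin.prod_univ_castSucc, Fin.snoc_castSucc, Fin.snoc_last]
  ring

theorem Src.memLp {q : ℕ} {s κ ϱ : ℝ} {F : (Fin (q + 1) → R3) → ℝ}
    {Φ : (Fin (q + 1) → R3) → ℝ≥0∞} (h : Src s F Φ κ ϱ) (hs : 0 < s) :
    MemLp F 2 volume ∧ ∫ x, F x ^ 2 ≤ κ ^ 2 * ϱ / s ^ (3 * q) := by
  obtain ⟨u, hu, hu1, hu2, hF⟩ := h.ex
  have h0 : ∀ x, Φ x ≤ ENNReal.ofReal κ := fun x => by
    have := h.maj.mg ∅ Finset.univ_nonempty.ne_empty.symm x
    simpa [marg_empty] using this
  have h1 := h.maj.mg (Finset.univ.erase 0) (by simp)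
  rw [Finset.card_erase_of_mem (Finset.mem_univ _), Finset.card_univ, Fintype.card_fin,
    Nat.add_sub_cancel] at h1
  have h2 := lintegral_mul_single_le h.maj.meas 0 h1
    (a := fun y => ENNReal.ofReal (u y ^ 2)) (hu.pow_const 2).ennreal_ofReal
  have hκ := h.κ_nonneg
  have hϱ := h.ϱ_nonneg
  have h3 : ∫⁻ x, ENNReal.ofReal (F x ^ 2) ≤ ENNReal.ofReal (κ ^ 2 * ϱ / s ^ (3 * q)) := by
    calc ∫⁻ x, ENNReal.ofReal (F x ^ 2)
        ≤ ∫⁻ x, ENNReal.ofReal κ * (Φ x * ENNReal.ofReal (u (x 0) ^ 2)) := by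
          refine lintegral_mono fun x => ?_
          have e1 : ENNReal.ofReal (F x ^ 2) = eabs F x * eabs F x := by
            rw [eabs, ← ENNReal.ofReal_mul (abs_nonneg _), abs_mul_abs_self, sq]
          have e2 : ENNReal.ofReal (u (x 0) ^ 2) = eabs u (x 0) * eabs u (x 0) := by
            rw [eabs, ← ENNReal.ofReal_mul (abs_nonneg _), abs_mul_abs_self, sq]
          rw [e1, e2]
          calc eabs F x * eabs F x ≤ (Φ x * eabs u (x 0)) * (Φ x * eabs u (x 0)) :=
                mul_le_mul' (hF x) (hF x)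
            _ = Φ x * (Φ x * (eabs u (x 0) * eabs u (x 0))) := by ring
            _ ≤ _ := mul_le_mul' (h0 x) le_rfl
      _ = ENNReal.ofReal κ * ∫⁻ x, Φ x * ENNReal.ofReal (u (x 0) ^ 2) :=
          lintegral_const_mul' _ _ ENNReal.ofReal_ne_top
      _ ≤ ENNReal.ofReal κ * (ENNReal.ofReal (κ / s ^ (3 * q)) * ENNReal.ofReal ϱ) :=
          mul_le_mul' le_rfl (h2.trans (mul_le_mul' le_rfl hu2))
      _ = _ := by
          rw [← ENNReal.ofReal_mul (by positivity), ← ENNReal.ofReal_mul hκ]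
          congr 1
          ring
  have h4 : Integrable (fun x => F x ^ 2) := by
    refine ⟨(h.meas.pow_const 2).aestronglyMeasurable, ?_⟩
    rw [hasFiniteIntegral_iff_ofReal (Eventually.of_forall fun x => sq_nonneg _)]
    exact h3.trans_lt ENNReal.ofReal_lt_top
  refine ⟨(memLp_two_iff_integrable_sq h.meas.aestronglyMeasurable).2 h4, ?_⟩
  rw [← ofReal_integral_eq_lintegral_ofReal h4 (Eventually.of_forall fun y => sq_nonneg _)] at h3
  exact (ENNReal.ofReal_le_ofReal_iff (by positivity)).1 h3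

theorem Src.le {q : ℕ} {s κ ϱ : ℝ} {F : (Fin (q + 1) → R3) → ℝ}
    {Φ : (Fin (q + 1) → R3) → ℝ≥0∞} (h : Src s F Φ κ ϱ) (x : Fin (q + 1) → R3) :
    eabs F x ≤ Φ x := by
  obtain ⟨u, -, hu1, -, hF⟩ := h.ex
  refine (hF x).trans ?_
  have : eabs u (x 0) ≤ 1 := ENNReal.ofReal_le_one.2 (hu1 _)
  simpa using mul_le_mul' (le_refl (Φ x)) this

theorem Src.red {q : ℕ} {s κ ϱ : ℝ} {F : (Fin (q + 2) → R3) → ℝ}
    {Φ : (Fin (q + 2) → R3) → ℝ≥0∞} (h : Src s F Φ κ ϱ) (hs : 0 < s) {a : R3 → ℝ}
    (ha : Measurable a) {M : ℝ} (hM : ∀ y, |a y| ≤ M) :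
    Src s (red F a) (fun x => ENNReal.ofReal M * ∫⁻ y, Φ (Fin.snoc x y)) (M * (κ / s ^ 3)) ϱ := by
  obtain ⟨u, hu, hu1, hu2, hF⟩ := h.ex
  have hM0 : 0 ≤ M := (abs_nonneg _).trans (hM 0)
  have hκ := h.κ_nonneg
  refine ⟨measurable_red h.meas ha, (h.maj.red hs).smul hM0, by positivity, h.ϱ_nonneg,
    u, hu, hu1, hu2, fun x => ?_⟩
  have h1 : eabs (Pool.Agent.Lib.MP_8fe63c_mp.red F a) x ≤
      ∫⁻ y, ENNReal.ofReal ‖F (Fin.snoc x y) * a y‖ := by
    have := enorm_integral_le_lintegral_enorm (μ := (volume : Measure R3))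
      (fun y => F (Fin.snoc x y) * a y)
    simp only [← ofReal_norm] at this
    exact this
  refine h1.trans ?_
  rw [← lintegral_const_mul' _ _ ENNReal.ofReal_ne_top,
    ← lintegral_mul_const' _ _ (by exact ENNReal.ofReal_ne_top)]
  refine lintegral_mono fun y => ?_
  have h2 := hF (Fin.snoc x y)
  have e : (Fin.snoc x y : Fin (q + 2) → R3) 0 = x 0 := by
    rw [← Fin.castSucc_zero, Fin.snoc_castSucc]
  rw [e] at h2
  rw [Real.norm_eq_abs, abs_mul, ENNReal.ofReal_mul (abs_nonneg _), mul_assoc, mul_comm]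
  exact mul_le_mul' (ENNReal.ofReal_le_ofReal (hM y)) h2

/-- a rescaled kernel times a product of bounded square integrable functions is a source -/
theorem src_tens {q : ℕ} {F : (Fin (q + 1) → R3) → ℝ} (hF : Measurable F) {K A s M ϱ : ℝ}
    (h : MajS 1 (eabs F) K) (hK : 0 ≤ K) (hA : 0 ≤ A) (hs : 0 < s) {u : Fin (q + 1) → R3 → ℝ}
    (hu : ∀ j, Measurable (u j)) (hM : 0 < M) (hb : ∀ j y, |u j y| ≤ M) (hϱ : 0 ≤ ϱ)
    (hl : ∫⁻ y, ENNReal.ofReal (u 0 y ^ 2) ≤ ENNReal.ofReal (M ^ 2 * ϱ)) :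
    Src s (fun x => sc A s F x * tens u x)
      (fun x => ENNReal.ofReal (M ^ (q + 1)) * eabs (sc A s F) x) (M ^ (q + 1) * (A * K)) ϱ := by
  have hsc : Measurable (sc A s F) := (hF.comp (HMac_meas_smul s)).const_mul A
  have ht : Measurable (tens u) :=
    Finset.measurable_prod _ fun j _ => (hu j).comp (measurable_pi_apply j)
  refine ⟨hsc.mul ht, (h.scale hA hs).smul (by positivity), by positivity, hϱ,
    fun y => u 0 y / M, (hu 0).div_const M, fun y => ?_, ?_, fun x => ?_⟩
  · rw [abs_div, abs_of_pos hM, div_le_one hM]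
    exact hb 0 y
  · have e : ∀ y, ENNReal.ofReal ((u 0 y / M) ^ 2) =
        ENNReal.ofReal ((M ^ 2)⁻¹) * ENNReal.ofReal (u 0 y ^ 2) := fun y => by
      rw [← ENNReal.ofReal_mul (by positivity)]
      congr 1
      field_simp
    simp only [e]
    rw [lintegral_const_mul' _ _ ENNReal.ofReal_ne_top]
    refine (mul_le_mul' le_rfl hl).trans (le_of_eq ?_)
    rw [← ENNReal.ofReal_mul (by positivity)]
    congr 1
    field_simp
  · simp only [eabs]
    rw [← ENNReal.ofReal_mul (by positivity), ← ENNReal.ofReal_mul (by positivity)]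
    refine ENNReal.ofReal_le_ofReal ?_
    have h1 : |∏ j : Fin q, u j.succ (x j.succ)| ≤ M ^ q := by
      rw [Finset.abs_prod]
      refine (Finset.prod_le_prod (g := fun _ => M) (fun j _ => abs_nonneg _)
        fun j _ => hb _ _).trans ?_
      simp
    rw [tens, Fin.prod_univ_succ, abs_mul, abs_mul, abs_div, abs_of_pos hM]
    have h2 : M ^ (q + 1) * |sc A s F x| * (|u 0 (x 0)| / M) =
        |sc A s F x| * (|u 0 (x 0)| * M ^ q) := by
      field_simp
      ring
    rw [h2]
    gcongr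

end Pool.Agent.Lib.MP_8fe63c_mp
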