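import Pool.Agent.Lib.MP_8fe63c_mp.BNl
import Pool.Agent.Lib.MP_8fe63c_mp.BAvg
import Pool.Agent.Lib.MP_8fe63c_mp.NBes

/-!
Integration over the position of the cell; slicing of the one-body gap; passage to real integrals.

Sketch. `slide`: integrate `Cell (cube c l)` over `c`, exchange the integrals
(`lintegral_lintegral_swap`, `measurable_cube_ind`), use `lintegral_cube_ind`, `lintegral_cube_avg` and, where
`J (x i - z) ≠ 0`, `lintegral_cube_ind2`; at the end cancel the factor `ofReal (l^3)`. (Write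
`∫⁻ z in cube c l, g z = ∫⁻ z, indicator (cube c l) 1 z * g z`.) `GapOK.many`: `lintegral_slice_le` with the
slices `Cc1.slice`; on a slice `projI φ F i = φ y * p` with `p = ∫ φ * slice` and `∫ φ^2 = 1`.
`real_of_lint`: all functions are integrable (`F` is continuous with compact support, `W` is locally
bounded, `∫⁻ projI^2 ≤ ∫⁻ F^2` by Cauchy-Schwarz on slices); `ofReal_integral_eq_lintegral_ofReal`.
-/

set_option linter.unusedSectionVars false

open MeasureTheory Set Filter Topology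
open scoped ENNReal InnerProductSpace

namespace Pool.Agent.Lib.MP_8fe63c_mp

variable {ι : Type} [Fintype ι] [DecidableEq ι]

variable {J ρ : R3 → ℝ} {UN : (Fin 3 → R3) → ℝ} {F : (ι → R3) → ℝ}

theorem BSlide_mχ (l : ℝ) (i : ι) : Measurable fun p : R3 × (ι → R3) =>
    indicator (cube p.1 l) (1 : R3 → ℝ≥0∞) (p.2 i) :=
  (measurable_cube_ind l).comp
    (measurable_fst.prodMk ((measurable_pi_apply i).comp measurable_snd))

theorem BSlide_mχ1 (l : ℝ) (y : R3) : Measurable fun c : R3 =>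
    indicator (cube c l) (1 : R3 → ℝ≥0∞) y :=
  (measurable_cube_ind l).comp (measurable_id.prodMk measurable_const)

theorem BSlide_A {l : ℝ} (hl : 0 < l) (i : ι) {g : (ι → R3) → ℝ≥0∞} (hg : Measurable g) :
    ∫⁻ p : R3 × (ι → R3), indicator (cube p.1 l) (1 : R3 → ℝ≥0∞) (p.2 i) * g p.2
      ∂(volume.prod volume) = ENNReal.ofReal (l ^ 3) * ∫⁻ x, g x := by
  have hm : Measurable fun p : R3 × (ι → R3) =>
      indicator (cube p.1 l) (1 : R3 → ℝ≥0∞) (p.2 i) * g p.2 :=
    (BSlide_mχ l i).mul (hg.comp measurable_snd)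
  rw [lintegral_prod_symm _ hm.aemeasurable, ← lintegral_const_mul _ hg]
  refine lintegral_congr fun x => ?_
  simp only
  rw [lintegral_mul_const _ (BSlide_mχ1 l (x i)), lintegral_cube_ind hl]

theorem BSlide_mB (l : ℝ) (i : ι) (hF : Measurable F) {lam : R3 → ℝ} (hlam : Measurable lam) :
    Measurable fun p : R3 × (ι → R3) => indicator (cube p.1 l) (1 : R3 → ℝ≥0∞) (p.2 i) *
      ENNReal.ofReal (lam p.1 * F p.2 ^ 2) :=
  (BSlide_mχ l i).mul
    ((hlam.comp measurable_fst).mul ((hF.comp measurable_snd).pow_const 2)).ennreal_ofReal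

theorem BSlide_B {l M : ℝ} (hl : 0 < l) (i : ι) (hF : Measurable F) {lam : R3 → ℝ}
    (hlam : Measurable lam) (hb : ∀ c, 0 ≤ lam c ∧ lam c ≤ M) :
    ∫⁻ p : R3 × (ι → R3), indicator (cube p.1 l) (1 : R3 → ℝ≥0∞) (p.2 i) *
      ENNReal.ofReal (lam p.1 * F p.2 ^ 2) ∂(volume.prod volume) =
      ENNReal.ofReal (l ^ 3) * ∫⁻ x, ENNReal.ofReal (avg l lam (x i) * F x ^ 2) := by
  have hm : Measurable fun x : ι → R3 => ENNReal.ofReal (avg l lam (x i) * F x ^ 2) :=
    (((measurable_avg l hlam).comp (measurable_pi_apply i)).mul (hF.pow_const 2)).ennreal_ofReal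
  rw [lintegral_prod_symm _ (BSlide_mB l i hF hlam).aemeasurable, ← lintegral_const_mul _ hm]
  refine lintegral_congr fun x => ?_
  simp only [ENNReal.ofReal_mul' (sq_nonneg (F x)), ← mul_assoc]
  rw [lintegral_mul_const _ ((BSlide_mχ1 l (x i)).fun_mul hlam.ennreal_ofReal),
    lintegral_cube_avg hl hlam hb, ENNReal.ofReal_mul (pow_pos hl 3).le]

theorem BSlide_nlD (c : R3) (l : ℝ) (i : ι) (x : ι → R3) :
    nlD (cube c l) J F i x = ∫⁻ z, indicator (cube c l) (1 : R3 → ℝ≥0∞) z *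
      ENNReal.ofReal (J (x i - z) * (F x - F (Function.update x i z)) ^ 2) := by
  rw [nlD, ← lintegral_indicator (OBox_meas c l)]
  refine lintegral_congr fun z => ?_
  by_cases hz : z ∈ cube c l
  · simp [hz]
  · simp [hz]

theorem BSlide_mD (hJ : Measurable J) (hF : Measurable F) (i : ι) :
    Measurable fun q : (ι → R3) × R3 =>
      ENNReal.ofReal (J (q.1 i - q.2) * (F q.1 - F (Function.update q.1 i q.2)) ^ 2) :=
  ((hJ.comp (((measurable_pi_apply i).comp measurable_fst).sub measurable_snd)).mul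
    (((hF.comp measurable_fst).sub (hF.comp measurable_update')).pow_const 2)).ennreal_ofReal

theorem BSlide_mN (l : ℝ) (hJ : Measurable J) (hF : Measurable F) (i : ι) :
    Measurable fun p : R3 × (ι → R3) => nlD (cube p.1 l) J F i p.2 := by
  simp only [BSlide_nlD]
  refine Measurable.lintegral_prod_right' (f := fun q : (R3 × (ι → R3)) × R3 =>
    indicator (cube q.1.1 l) (1 : R3 → ℝ≥0∞) q.2 * ENNReal.ofReal
      (J (q.1.2 i - q.2) * (F q.1.2 - F (Function.update q.1.2 i q.2)) ^ 2)) ?_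
  exact ((measurable_cube_ind l).comp (measurable_fst.fst.prodMk measurable_snd)).mul
    ((BSlide_mD hJ hF i).comp (measurable_fst.snd.prodMk measurable_snd))

theorem BSlide_C {δ l c₀ : ℝ} (h : Moll (δ * l) c₀ J ρ) (hl : 0 < l) (hδ : δ ≤ 1)
    (hF : Measurable F) (i : ι) :
    ENNReal.ofReal ((1 - δ) ^ 3 * l ^ 3) * ∫⁻ x, nlD univ J F i x ≤
      ∫⁻ p : R3 × (ι → R3), indicator (cube p.1 l) (1 : R3 → ℝ≥0∞) (p.2 i) *
        nlD (cube p.1 l) J F i p.2 ∂(volume.prod volume) := by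
  have hJ := h.cJ.measurable
  rw [lintegral_prod_symm _ ((BSlide_mχ l i).fun_mul (BSlide_mN l hJ hF i)).aemeasurable,
    ← lintegral_const_mul _ (measurable_nlD univ hJ hF i)]
  refine lintegral_mono fun x => ?_
  have hD : Measurable fun z =>
      ENNReal.ofReal (J (x i - z) * (F x - F (Function.update x i z)) ^ 2) :=
    (BSlide_mD hJ hF i).comp (measurable_const.prodMk measurable_id)
  have h1 : ∀ c : R3, indicator (cube c l) (1 : R3 → ℝ≥0∞) (x i) * nlD (cube c l) J F i x =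
      ∫⁻ z, indicator (cube c l) (1 : R3 → ℝ≥0∞) (x i) * indicator (cube c l) (1 : R3 → ℝ≥0∞) z *
        ENNReal.ofReal (J (x i - z) * (F x - F (Function.update x i z)) ^ 2) := by
    intro c
    rw [BSlide_nlD, ← lintegral_const_mul _
      ((measurable_one.indicator (OBox_meas c l)).fun_mul hD)]
    simp only [mul_assoc]
  simp only [h1]
  have hm : Measurable (Function.uncurry fun c z : R3 =>
      indicator (cube c l) (1 : R3 → ℝ≥0∞) (x i) * indicator (cube c l) (1 : R3 → ℝ≥0∞) z *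
        ENNReal.ofReal (J (x i - z) * (F x - F (Function.update x i z)) ^ 2)) :=
    (((BSlide_mχ1 l (x i)).comp measurable_fst).mul (measurable_cube_ind l)).mul
      (hD.comp measurable_snd)
  rw [lintegral_lintegral_swap hm.aemeasurable, nlD,
    Measure.restrict_univ, ← lintegral_const_mul _ hD]
  refine lintegral_mono fun z => ?_
  simp only
  rw [lintegral_mul_const _ ((BSlide_mχ1 l (x i)).fun_mul (BSlide_mχ1 l z))]
  by_cases hz : J (x i - z) = 0
  · simp [hz]
  · exact mul_le_mul_left (lintegral_cube_ind2 hl hδ (h.J_supp _ hz)) _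

theorem BSlide_mU (hU : Measurable UN) (σ : Fin 3 ↪ ι) :
    Measurable fun x : ι → R3 => UN (x ∘ σ) :=
  hU.comp (measurable_pi_lambda _ fun k => measurable_pi_apply (σ k))

theorem BSlide_mI (hU : Measurable UN) : Measurable (intP UN : (ι → R3) → ℝ) :=
  (Finset.measurable_sum _ fun σ _ => BSlide_mU hU σ).const_mul _

theorem BSlide_I0 (hU0 : ∀ x, 0 ≤ UN x) (x : ι → R3) : 0 ≤ intP UN x :=
  mul_nonneg (by norm_num) (Finset.sum_nonneg fun _ _ => hU0 _)

theorem BSlide_pt {η : ℝ} (hη : 0 ≤ η) (hU0 : ∀ x, 0 ≤ UN x) (x : ι → R3) :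
    (∑ i, ENNReal.ofReal (‖pgrad F i x‖ ^ 2 + η * F x ^ 2)) +
      ∑ σ : Fin 3 ↪ ι, ENNReal.ofReal ((1 / 6 : ℝ) * UN (x ∘ σ) * F x ^ 2) =
      ENNReal.ofReal ((∑ i, ‖pgrad F i x‖ ^ 2) + intP UN x * F x ^ 2) +
        ENNReal.ofReal (η * Fintype.card ι) * ENNReal.ofReal (F x ^ 2) := by
  have h1 := BSlide_I0 hU0 x
  have h2 : ∀ σ : Fin 3 ↪ ι, 0 ≤ (1 / 6 : ℝ) * UN (x ∘ σ) * F x ^ 2 := fun σ => by
    have := hU0 (x ∘ σ)
    positivity
  rw [← ENNReal.ofReal_sum_of_nonneg fun i _ => by positivity,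
    ← ENNReal.ofReal_sum_of_nonneg fun σ _ => h2 σ,
    ← ENNReal.ofReal_add (by positivity) (Finset.sum_nonneg fun σ _ => h2 σ),
    ← ENNReal.ofReal_mul (by positivity), ← ENNReal.ofReal_add (by positivity) (by positivity)]
  congr 1
  rw [Finset.sum_add_distrib, Finset.sum_const, Finset.card_univ, nsmul_eq_mul, intP,
    Finset.mul_sum, Finset.sum_mul]
  ring

theorem slide {δ l c₀ ε η M Ct : ℝ} (h : Moll (δ * l) c₀ J ρ) (hl : 0 < l) (hδ : δ ≤ 1)
    (hε : ε ≤ 1) (hη : 0 ≤ η) (hCt : 0 ≤ Ct) (hU : Measurable UN) (hU0 : ∀ x, 0 ≤ UN x)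
    (hF : Cc1 F) {lam C : R3 → ℝ} (hlam : Measurable lam) (hb : ∀ c, 0 ≤ lam c ∧ lam c ≤ M)
    (hC : ∫⁻ c, ENNReal.ofReal (C c) ≤ ENNReal.ofReal (l ^ 3 * Ct))
    (hCm : Measurable C) (hcell : ∀ c, Cell (cube c l) J ε UN F (lam c) η (C c)) :
    ∑ i, ((∫⁻ x, ENNReal.ofReal (avg l lam (x i) * F x ^ 2)) +
        ENNReal.ofReal ((1 - ε) * (1 - δ) ^ 3) * ∫⁻ x, nlD univ J F i x) ≤
      (∫⁻ x, ENNReal.ofReal ((∑ i, ‖pgrad F i x‖ ^ 2) + intP UN x * F x ^ 2)) +
        ENNReal.ofReal (η * Fintype.card ι + Ct) * ∫⁻ x, ENNReal.ofReal (F x ^ 2) := by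
  have hJ := h.cJ.measurable
  have mF : Measurable F := hF.1.continuous.measurable
  have mg : ∀ i, Measurable fun x => ENNReal.ofReal (‖pgrad F i x‖ ^ 2 + η * F x ^ 2) := fun i =>
    (((hF.cb1.continuous_pgrad i).measurable.norm.pow_const 2).add
      ((mF.pow_const 2).const_mul η)).ennreal_ofReal
  have mu : ∀ σ : Fin 3 ↪ ι,
      Measurable fun x => ENNReal.ofReal ((1 / 6 : ℝ) * UN (x ∘ σ) * F x ^ 2) := fun σ =>
    (((BSlide_mU hU σ).const_mul _).mul (mF.pow_const 2)).ennreal_ofReal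
  have mN := fun i => (BSlide_mχ l i).fun_mul (BSlide_mN l hJ mF i)
  have mL : ∀ i, Measurable fun p : R3 × (ι → R3) =>
      indicator (cube p.1 l) (1 : R3 → ℝ≥0∞) (p.2 i) * (ENNReal.ofReal (lam p.1 * F p.2 ^ 2) +
        ENNReal.ofReal (1 - ε) * nlD (cube p.1 l) J F i p.2) := fun i =>
    (BSlide_mχ l i).mul
      (((hlam.comp measurable_fst).mul ((mF.comp measurable_snd).pow_const 2)).ennreal_ofReal.add
        ((BSlide_mN l hJ mF i).const_mul _))
  have mR1 : ∀ i, Measurable fun p : R3 × (ι → R3) =>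
      indicator (cube p.1 l) (1 : R3 → ℝ≥0∞) (p.2 i) *
        ENNReal.ofReal (‖pgrad F i p.2‖ ^ 2 + η * F p.2 ^ 2) :=
    fun i => (BSlide_mχ l i).mul ((mg i).comp measurable_snd)
  have mR2 : ∀ σ : Fin 3 ↪ ι, Measurable fun p : R3 × (ι → R3) =>
      indicator (cube p.1 l) (1 : R3 → ℝ≥0∞) (p.2 (σ 0)) *
        ENNReal.ofReal ((1 / 6 : ℝ) * UN (p.2 ∘ σ) * F p.2 ^ 2) :=
    fun σ => (BSlide_mχ l (σ 0)).mul ((mu σ).comp measurable_snd)
  have mR : Measurable fun p : R3 × (ι → R3) =>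
      (∑ i, indicator (cube p.1 l) (1 : R3 → ℝ≥0∞) (p.2 i) *
        ENNReal.ofReal (‖pgrad F i p.2‖ ^ 2 + η * F p.2 ^ 2)) +
      ∑ σ : Fin 3 ↪ ι, indicator (cube p.1 l) (1 : R3 → ℝ≥0∞) (p.2 (σ 0)) *
        ENNReal.ofReal ((1 / 6 : ℝ) * UN (p.2 ∘ σ) * F p.2 ^ 2) :=
    (Finset.measurable_sum _ fun i _ => mR1 i).add (Finset.measurable_sum _ fun σ _ => mR2 σ)
  have h1 := lintegral_mono (μ := (volume : Measure R3)) fun c => hcell c
  rw [lintegral_add_right _ (hCm.ennreal_ofReal.mul_const _),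
    lintegral_mul_const _ hCm.ennreal_ofReal] at h1
  have e1 := lintegral_prod (μ := (volume : Measure R3)) (ν := (volume : Measure (ι → R3))) _
    (Finset.measurable_sum Finset.univ fun i _ => mL i).aemeasurable
  have e2 := lintegral_prod (μ := (volume : Measure R3)) (ν := (volume : Measure (ι → R3))) _
    mR.aemeasurable
  simp only at e1 e2
  rw [← e1, ← e2, lintegral_finsetSum _ fun i _ => mL i,
    lintegral_add_left (Finset.measurable_sum _ fun i _ => mR1 i),
    lintegral_finsetSum _ fun i _ => mR1 i, lintegral_finsetSum _ fun σ _ => mR2 σ] at h1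
  rw [Finset.sum_congr rfl fun i _ => BSlide_A hl i (mg i),
    Finset.sum_congr rfl fun (σ : Fin 3 ↪ ι) _ => BSlide_A hl (σ 0) (mu σ), ← Finset.mul_sum,
    ← Finset.mul_sum, ← mul_add, ← lintegral_finsetSum _ fun i _ => mg i,
    ← lintegral_finsetSum _ fun σ _ => mu σ,
    ← lintegral_add_left (Finset.measurable_sum _ fun i _ => mg i)] at h1
  simp only [BSlide_pt hη hU0] at h1
  rw [lintegral_add_right _ ((mF.pow_const 2).ennreal_ofReal.const_mul _),
    lintegral_const_mul _ (mF.pow_const 2).ennreal_ofReal] at h1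
  have hl3 : 0 < l ^ 3 := pow_pos hl 3
  refine (ENNReal.mul_le_mul_iff_right (a := ENNReal.ofReal (l ^ 3))
    (ENNReal.ofReal_pos.2 hl3).ne' ENNReal.ofReal_ne_top).1 (le_trans ?_ (h1.trans ?_))
  · rw [Finset.mul_sum]
    refine Finset.sum_le_sum fun i _ => ?_
    simp only [mul_add, mul_left_comm _ (ENNReal.ofReal (1 - ε))]
    rw [lintegral_add_left (BSlide_mB l i mF hlam), BSlide_B hl i mF hlam hb,
      lintegral_const_mul _ (mN i)]
    refine add_le_add_right (le_trans (le_of_eq ?_) (mul_le_mul_right (BSlide_C h hl hδ mF i) _)) _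
    rw [ENNReal.ofReal_mul (sub_nonneg.2 hε), ENNReal.ofReal_mul' hl3.le]
    ring
  · rw [ENNReal.ofReal_add (by positivity) hCt, add_mul, ← add_assoc, mul_add _ (_ + _)]
    refine add_le_add_right ?_ _
    rw [← mul_assoc, ← ENNReal.ofReal_mul hl3.le]
    exact mul_le_mul_left hC _

theorem BSlide_mP {φ : R3 → ℝ} (hφ : Measurable φ) (hF : Measurable F) (i : ι) :
    Measurable (projI φ F i) :=
  (hφ.comp (measurable_pi_apply i)).mul
    (((hφ.comp measurable_snd).mul (hF.comp measurable_update')).stronglyMeasurable.integral_prod_right'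
      (ν := volume)).measurable

theorem BSlide_P {φ : R3 → ℝ} (hφ : Measurable φ) (hn : ∫ y, φ y ^ 2 = 1) (i : ι) (x : ι → R3) :
    ∫⁻ y, ENNReal.ofReal (projI φ F i (Function.update x i y) ^ 2) =
      ENNReal.ofReal ((∫ y, φ y * F (Function.update x i y)) ^ 2) := by
  simp only [projI, Function.update_idem, Function.update_self, mul_pow,
    ENNReal.ofReal_mul' (sq_nonneg (∫ y, φ y * F (Function.update x i y)))]
  rw [lintegral_mul_const _ (hφ.pow_const 2).ennreal_ofReal,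
    ← ofReal_integral_eq_lintegral_ofReal (integrable_of_integral_eq_one hn)
      (Eventually.of_forall fun y => sq_nonneg _), hn, ENNReal.ofReal_one, one_mul]

theorem GapOK.many {φ W V : R3 → ℝ} {m γ ε η : ℝ} (h : GapOK φ W V J m γ ε η) (hφ : Measurable φ)
    (hn : ∫ y, φ y ^ 2 = 1) (hW : Measurable W) (hV : Measurable V) (hJ : Measurable J)
    (hγ : 0 ≤ γ) (hF : Cc1 F) (i : ι) :
    ENNReal.ofReal m * ∫⁻ x, ENNReal.ofReal (F x ^ 2) ≤
      ENNReal.ofReal (1 - ε) * (∫⁻ x, nlD univ J F i x) +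
        (∫⁻ x, ENNReal.ofReal ((W (x i) + V (x i) + η) * F x ^ 2)) +
        ENNReal.ofReal γ * ∫⁻ x, ENNReal.ofReal (projI φ F i x ^ 2) := by
  have mF : Measurable F := hF.1.continuous.measurable
  have m1 : Measurable fun x => ENNReal.ofReal (F x ^ 2) := (mF.pow_const 2).ennreal_ofReal
  have m2 := measurable_nlD univ hJ mF i
  have m3 : Measurable fun x : ι → R3 => ENNReal.ofReal ((W (x i) + V (x i) + η) * F x ^ 2) :=
    ((((hW.comp (measurable_pi_apply i)).add (hV.comp (measurable_pi_apply i))).add_const η).mul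
      (mF.pow_const 2)).ennreal_ofReal
  have m4 : Measurable fun x => ENNReal.ofReal (projI φ F i x ^ 2) :=
    ((BSlide_mP hφ mF i).pow_const 2).ennreal_ofReal
  rw [← lintegral_const_mul _ m1, ← lintegral_const_mul _ m2, ← lintegral_const_mul _ m4,
    ← lintegral_add_right _ m3, ← lintegral_add_right _ (m4.const_mul _)]
  refine lintegral_slice_le (m1.const_mul _) (((m2.const_mul _).add m3).add (m4.const_mul _)) i
    fun x => ?_
  have hu : Measurable (Function.update x i) := measurable_update x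
  have h1 := h _ (hF.slice i x)
  have h2 := nlD_slice univ univ J F i x
  have n1 : Measurable fun y => ENNReal.ofReal (F (Function.update x i y) ^ 2) := m1.comp hu
  have n2 : Measurable fun y => nlD univ J F i (Function.update x i y) := m2.comp hu
  have n3 : Measurable fun y => ENNReal.ofReal ((W (Function.update x i y i) +
    V (Function.update x i y i) + η) * F (Function.update x i y) ^ 2) := m3.comp hu
  have n4 : Measurable fun y => ENNReal.ofReal (projI φ F i (Function.update x i y) ^ 2) :=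
    m4.comp hu
  rw [Measure.restrict_univ] at h2
  rw [lintegral_add_right _ (n4.const_mul _), lintegral_add_right _ n3, lintegral_const_mul _ n1,
    lintegral_const_mul _ n2, lintegral_const_mul _ n4, h2, BSlide_P hφ hn,
    ← ENNReal.ofReal_mul hγ]
  simpa only [nl, Measure.restrict_univ, Function.update_self] using h1

theorem BSlide_cs {φ u : R3 → ℝ} (hφ : MemLp φ 2 volume) (hu : MemLp u 2 volume)
    (hn : ∫ y, φ y ^ 2 = 1) : (∫ y, φ y * u y) ^ 2 ≤ ∫ y, u y ^ 2 := by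
  have i1 : Integrable fun y => φ y * u y := hφ.integrable_mul hu
  have h1 : 0 ≤ ∫ y, ((∫ y, φ y * u y) * φ y - u y) ^ 2 := integral_nonneg fun _ => sq_nonneg _
  have h2 : ∀ p : ℝ, ∫ y, (p * φ y - u y) ^ 2 =
      p ^ 2 * (∫ y, φ y ^ 2) - 2 * p * (∫ y, φ y * u y) + ∫ y, u y ^ 2 := by
    intro p
    have i2 : Integrable fun y => p ^ 2 * φ y ^ 2 - 2 * p * (φ y * u y) :=
      (hφ.integrable_sq.const_mul _).sub (i1.const_mul _)
    rw [← integral_const_mul, ← integral_const_mul,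
      ← integral_sub (hφ.integrable_sq.const_mul _) (i1.const_mul _),
      ← integral_add i2 hu.integrable_sq]
    refine integral_congr_ae (Eventually.of_forall fun y => ?_)
    simp only
    ring
  rw [h2, hn] at h1
  nlinarith

theorem BSlide_iF (hF : Cc1 F) : Integrable fun x => F x ^ 2 :=
  (hF.1.continuous.memLp_of_hasCompactSupport (p := 2) hF.2).integrable_sq

theorem BSlide_iP {φ : R3 → ℝ} (hφ : Measurable φ) (hn : ∫ y, φ y ^ 2 = 1) (hF : Cc1 F) (i : ι) :
    Integrable fun x => projI φ F i x ^ 2 := by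
  have mF : Measurable F := hF.1.continuous.measurable
  have mP := (BSlide_mP hφ mF i).pow_const 2
  have l2 : MemLp φ 2 volume := (memLp_two_iff_integrable_sq hφ.aestronglyMeasurable).2
    (integrable_of_integral_eq_one hn)
  refine ⟨mP.aestronglyMeasurable,
    (hasFiniteIntegral_iff_ofReal (Eventually.of_forall fun x => sq_nonneg _)).2 ?_⟩
  refine lt_of_le_of_lt (lintegral_slice_le mP.ennreal_ofReal (mF.pow_const 2).ennreal_ofReal i
    fun x => ?_) ((hasFiniteIntegral_iff_ofReal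
      (Eventually.of_forall fun x => sq_nonneg _)).1 (BSlide_iF hF).2)
  have hs := hF.slice i x
  have h1 : MemLp (fun y => F (Function.update x i y)) 2 volume :=
    hs.1.continuous.memLp_of_hasCompactSupport hs.2
  rw [BSlide_P hφ hn, ← ofReal_integral_eq_lintegral_ofReal h1.integrable_sq
    (Eventually.of_forall fun y => sq_nonneg _)]
  exact ENNReal.ofReal_le_ofReal (BSlide_cs l2 h1 hn)

theorem BSlide_iG (hF : Cc1 F) (i : ι) : Integrable fun x => ‖pgrad F i x‖ ^ 2 := by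
  have cp : Continuous (pgrad F i) := hF.cb1.continuous_pgrad i
  have hs : HasCompactSupport (pgrad F i) := by
    obtain ⟨L, hL⟩ := HGreen_exists_L i
    have e : pgrad F i = fun x => L (fderiv ℝ F x) :=
      funext fun x => HGreen_pgrad_L hL ((contDiff_one_iff_fderiv.1 hF.1).1 x)
    rw [e]
    exact (hF.2.fderiv (𝕜 := ℝ)).comp_left (g := fun φ => L φ) (map_zero L)
  exact (cp.memLp_of_hasCompactSupport (p := 2) hs).norm.integrable_sq

theorem BSlide_iW {W : R3 → ℝ} (hW : Pot W) (hF : Cc1 F) (i : ι) :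
    Integrable fun x => W (x i) * F x ^ 2 := by
  obtain ⟨R, hR⟩ := hF.2.isCompact.isBounded.subset_closedBall 0
  obtain ⟨M, hM⟩ := hW.locBdd R
  refine ((BSlide_iF hF).const_mul M).mono' ((hW.meas.comp (measurable_pi_apply i)).mul
    (hF.1.continuous.measurable.pow_const 2)).aestronglyMeasurable
    (Eventually.of_forall fun x => ?_)
  by_cases hx : F x = 0
  · simp [hx]
  · have h1 := hR (subset_tsupport _ hx)
    rw [mem_closedBall_zero_iff] at h1
    rw [Real.norm_of_nonneg (mul_nonneg (hW.nonneg _) (sq_nonneg _))]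
    exact mul_le_mul_of_nonneg_right (hM _ ((norm_le_pi_norm x i).trans h1)) (sq_nonneg _)

theorem BSlide_iU (hU : Measurable UN) (hU0 : ∀ x, 0 ≤ UN x) {K : ℝ} (hUK : ∀ x, UN x ≤ K)
    (hF : Cc1 F) : Integrable fun x => intP UN x * F x ^ 2 := by
  refine ((BSlide_iF hF).const_mul ((1 / 6 : ℝ) * ∑ _σ : Fin 3 ↪ ι, K)).mono'
    ((BSlide_mI hU).mul (hF.1.continuous.measurable.pow_const 2)).aestronglyMeasurable
    (Eventually.of_forall fun x => ?_)
  rw [Real.norm_of_nonneg (mul_nonneg (BSlide_I0 hU0 x) (sq_nonneg _))]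
  exact mul_le_mul_of_nonneg_right (mul_le_mul_of_nonneg_left
    (Finset.sum_le_sum fun σ _ => hUK _) (by norm_num)) (sq_nonneg _)

theorem real_of_lint {φ W : R3 → ℝ} (hW : Pot W) (hφ : Measurable φ) (hn : ∫ y, φ y ^ 2 = 1)
    (hU : Measurable UN) (hU0 : ∀ x, 0 ≤ UN x) {K : ℝ} (hUK : ∀ x, UN x ≤ K) (hF : Cc1 F)
    {m a γ : ℝ} (hm : 0 ≤ m) (ha : 0 ≤ a) (hγ : 0 ≤ γ)
    (h : ENNReal.ofReal m * ∫⁻ x, ENNReal.ofReal (F x ^ 2) ≤
      (∫⁻ x, ENNReal.ofReal ((∑ i, ‖pgrad F i x‖ ^ 2) + intP UN x * F x ^ 2)) +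
        (∑ i, ∫⁻ x, ENNReal.ofReal (W (x i) * F x ^ 2)) +
        ENNReal.ofReal a * (∫⁻ x, ENNReal.ofReal (F x ^ 2)) +
        ENNReal.ofReal γ * ∑ i, ∫⁻ x, ENNReal.ofReal (projI φ F i x ^ 2)) :
    (m - a - γ * Fintype.card ι) * (∫ x, F x ^ 2) + γ * NP φ F ≤ QO univ W UN F := by
  have i1 := BSlide_iF hF
  have i2 := BSlide_iP hφ hn hF
  have i3 : Integrable fun x => ∑ i, ‖pgrad F i x‖ ^ 2 :=
    integrable_finsetSum _ fun i _ => BSlide_iG hF i
  have i4 := BSlide_iW hW hF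
  have i5 := BSlide_iU hU hU0 hUK hF
  have i6 : Integrable fun x => (∑ i, ‖pgrad F i x‖ ^ 2) + intP UN x * F x ^ 2 := i3.add i5
  have p6 : ∀ x, 0 ≤ (∑ i, ‖pgrad F i x‖ ^ 2) + intP UN x * F x ^ 2 := fun x =>
    add_nonneg (by positivity) (mul_nonneg (BSlide_I0 hU0 x) (sq_nonneg _))
  have p4 : ∀ i x, 0 ≤ W (x i) * F x ^ 2 := fun i x => mul_nonneg (hW.nonneg _) (sq_nonneg _)
  have q1 : 0 ≤ ∫ x, F x ^ 2 := integral_nonneg fun _ => sq_nonneg _
  have q2 : ∀ i, 0 ≤ ∫ x, projI φ F i x ^ 2 := fun i => integral_nonneg fun _ => sq_nonneg _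
  have q4 : ∀ i, 0 ≤ ∫ x, W (x i) * F x ^ 2 := fun i => integral_nonneg (p4 i)
  have q6 : 0 ≤ ∫ x, ((∑ i, ‖pgrad F i x‖ ^ 2) + intP UN x * F x ^ 2) := integral_nonneg p6
  have s2 := Finset.sum_nonneg fun i (_ : i ∈ Finset.univ) => q2 i
  have s4 := Finset.sum_nonneg fun i (_ : i ∈ Finset.univ) => q4 i
  rw [← ofReal_integral_eq_lintegral_ofReal i1 (Eventually.of_forall fun _ => sq_nonneg _),
    ← ofReal_integral_eq_lintegral_ofReal i6 (Eventually.of_forall p6),
    Finset.sum_congr rfl fun i _ =>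
      (ofReal_integral_eq_lintegral_ofReal (i4 i) (Eventually.of_forall (p4 i))).symm,
    Finset.sum_congr rfl fun i _ =>
      (ofReal_integral_eq_lintegral_ofReal (i2 i) (Eventually.of_forall fun _ => sq_nonneg _)).symm,
    ← ENNReal.ofReal_sum_of_nonneg fun i _ => q4 i, ← ENNReal.ofReal_sum_of_nonneg fun i _ => q2 i,
    ← ENNReal.ofReal_mul hm, ← ENNReal.ofReal_mul ha, ← ENNReal.ofReal_mul hγ,
    ← ENNReal.ofReal_add q6 s4, ← ENNReal.ofReal_add (by positivity) (by positivity),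
    ← ENNReal.ofReal_add (by positivity) (by positivity),
    ENNReal.ofReal_le_ofReal_iff (by positivity)] at h
  have e : QO univ W UN F = (∫ x, ((∑ i, ‖pgrad F i x‖ ^ 2) + intP UN x * F x ^ 2)) +
      ∑ i, ∫ x, W (x i) * F x ^ 2 := by
    rw [QO, muP_univ, ← integral_finsetSum _ fun i _ => i4 i,
      ← integral_add i6 (integrable_finsetSum _ fun i _ => i4 i)]
    refine integral_congr_ae (Eventually.of_forall fun x => ?_)
    simp only [Finset.sum_add_distrib]
    ring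
  rw [e, NP, Finset.sum_sub_distrib, Finset.sum_const, Finset.card_univ, nsmul_eq_mul]
  linarith

end Pool.Agent.Lib.MP_8fe63c_mp
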