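import Pool.Agent.Lib.MP_8fe63c_mp.BBox
import Pool.Agent.Lib.MP_8fe63c_mp.BFrz
import Pool.Agent.Lib.MP_8fe63c_mp.BSlide
import Pool.Agent.Lib.MP_8fe63c_mp.BGap

/-!
Rough condensation: the energy controls the number of particles outside the condensate.
-/

set_option linter.unusedSectionVars false

open MeasureTheory Set Filter Topology
open scoped ENNReal InnerProductSpace

namespace Pool.Agent.Lib.MP_8fe63c_mp

variable {ι : Type} [Fintype ι] [DecidableEq ι]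

theorem BFin_tan {a n X : ℝ} (ha : 0 ≤ a) (hn : 0 ≤ n) (hX : 0 < X) :
    a ^ 2 * n / 2 - a ^ 3 * X / 3 ≤ n ^ 3 / (6 * X ^ 2) := by
  rw [le_div_iff₀ (by positivity)]
  have : 0 ≤ (n - a * X) ^ 2 * (n + 2 * (a * X)) := by positivity
  nlinarith

theorem BFin_big {a m n X : ℝ} (ha : 0 ≤ a) (ham : a ≤ m) (hX : 0 < X) (hn : (2 * m + 1) * X ≤ n) :
    a ^ 2 * n / 2 ≤ n ^ 3 / (6 * X ^ 2) := by
  have hm : 0 ≤ m := ha.trans ham
  have hn0 : 0 ≤ n := le_trans (by positivity) hn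
  rw [le_div_iff₀ (by positivity)]
  have h1 : 2 * a * X ≤ n := by nlinarith
  have h2 : (2 * a * X) ^ 2 ≤ n ^ 2 := pow_le_pow_left₀ (by positivity) h1 2
  have h3 := mul_le_mul_of_nonneg_left h2 hn0
  have h4 : 0 ≤ n * (a * X) ^ 2 := by positivity
  nlinarith

/-- the cell inequality from the box inequality -/
theorem BFin_cell {Ω : Set R3} (hΩ : MeasurableSet Ω) {J : R3 → ℝ} (hJ : Measurable J)
    {UN : (Fin 3 → R3) → ℝ} (hU : Wt3 UN) {F : (ι → R3) → ℝ} (hF : Cc1 F)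
    {ε ε' η b a m X k : ℝ} (hε : ε ≤ 1) (hε' : 0 ≤ ε') (hεε : ε' ≤ ε) (hη : 0 ≤ η) (hb : 0 ≤ b)
    (ha : 0 ≤ a) (ham : a ≤ m) (hX : 1 ≤ X) (hk : 0 ≤ k) (hkX : k ≤ η * X)
    (hbox : ∀ (κ : Type) [Fintype κ] [DecidableEq κ], (Fintype.card κ : ℝ) ≤ (2 * m + 2) * X →
      ∀ p q : ℝ, 0 ≤ p → 0 ≤ q →
        p - q ≤ (1 - ε') * b * (Fintype.card κ : ℝ) ^ 3 / (6 * X ^ 2) - η * Fintype.card κ - k →
        BoxOK Ω J ε' UN κ p q) :
    Cell Ω J ε' UN F ((1 - ε) * (b / 2) * a ^ 2) (2 * η) (b / 3 * a ^ 3 * X + k) := by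
  have hm : 0 ≤ m := ha.trans ham
  have hX0 : 0 < X := by linarith
  have h1ε : 0 ≤ 1 - ε := by linarith
  have hlam : 0 ≤ (1 - ε) * (b / 2) * a ^ 2 := by positivity
  have hC : 0 ≤ b / 3 * a ^ 3 * X + k := by positivity
  have hn1 : (2 * m + 1) * X ≤ (⌈(2 * m + 1) * X⌉₊ : ℝ) := Nat.le_ceil _
  have hn2 : (⌈(2 * m + 1) * X⌉₊ : ℝ) ≤ (2 * m + 2) * X := by
    have := Nat.ceil_lt_add_one (show 0 ≤ (2 * m + 1) * X by positivity)
    linarith
  have key : ∀ {n y z : ℝ}, 0 ≤ n → 0 ≤ z → a ^ 2 * n / 2 - z ≤ y →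
      (1 - ε) * (b / 2) * a ^ 2 * n - b * z ≤ (1 - ε') * b * y := by
    intro n y z hn hz h
    have e1 := mul_le_mul_of_nonneg_left h (show 0 ≤ (1 - ε') * b from
      mul_nonneg (by linarith) hb)
    have e2 : 0 ≤ (ε - ε') * (b * (a ^ 2 * n)) := mul_nonneg (by linarith) (by positivity)
    have e3 : 0 ≤ ε' * (b * z) := by positivity
    nlinarith
  refine cell_of_loc hΩ hJ hU.meas hU.nonneg hF hlam (by positivity) hC
    (loc_all hΩ hJ hU.meas hU.nonneg hF (n₀ := ⌈(2 * m + 1) * X⌉₊)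
      (Nat.ceil_pos.2 (by positivity)) hlam (by positivity) hC (fun G hG => ?_) fun G hG => ?_)
  · have hG' : (G.card : ℝ) ≤ ⌈(2 * m + 1) * X⌉₊ := by exact_mod_cast hG
    have hn : (0 : ℝ) ≤ G.card := Nat.cast_nonneg _
    refine BoxOK.loc hΩ hJ hU.meas hF (hbox G ?_ _ _ (by positivity) (by positivity) ?_)
    · rw [Fintype.card_coe]
      exact hG'.trans hn2
    · rw [Fintype.card_coe, mul_div_assoc]
      have := key hn (by positivity) (BFin_tan ha hn hX0)
      have h2 := mul_nonneg hη hn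
      linarith
  · have hG' : (G.card : ℝ) = ⌈(2 * m + 1) * X⌉₊ := by exact_mod_cast hG
    have hn : (0 : ℝ) ≤ G.card := Nat.cast_nonneg _
    refine BoxOK.loc hΩ hJ hU.meas hF (hbox G ?_ _ _ (by positivity) (by positivity) ?_)
    · rw [Fintype.card_coe]
      exact hG'.le.trans hn2
    · rw [Fintype.card_coe, mul_div_assoc]
      have := key (z := 0) hn le_rfl
        ((sub_zero _).le.trans (BFin_big ha ham hX0 (hn1.trans hG'.ge)))
      have h2 : X ≤ G.card := by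
        have : X ≤ (2 * m + 1) * X := le_mul_of_one_le_left hX0.le (by linarith)
        linarith
      have h3 := mul_le_mul_of_nonneg_left h2 hη
      linarith

/-- combination of the sliding estimate and of the one-body gap -/
theorem BFin_sum {φ W V J : R3 → ℝ} {m γ ε η t a : ℝ} (h : GapOK φ W V J m γ ε η)
    (hφ : Measurable φ) (hn : ∫ y, φ y ^ 2 = 1) (hW : Pot W) (hV : Measurable V)
    (hJ : Measurable J) (hm : 0 ≤ m) (hγ : 0 ≤ γ) (hη : 0 ≤ η) (ha : 0 ≤ a) (ht : 1 - ε ≤ t)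
    {UN : (Fin 3 → R3) → ℝ} (hU : Wt3 UN) {F : (ι → R3) → ℝ} (hF : Cc1 F)
    (hs : ∑ i, ((∫⁻ x, ENNReal.ofReal (V (x i) * F x ^ 2)) +
        ENNReal.ofReal t * ∫⁻ x, nlD univ J F i x) ≤
      (∫⁻ x, ENNReal.ofReal ((∑ i, ‖pgrad F i x‖ ^ 2) + intP UN x * F x ^ 2)) +
        ENNReal.ofReal a * ∫⁻ x, ENNReal.ofReal (F x ^ 2)) :
    (m * Fintype.card ι - (a + η * Fintype.card ι) - γ * Fintype.card ι) * (∫ x, F x ^ 2) +
      γ * NP φ F ≤ QO univ W UN F := by
  obtain ⟨K, hK⟩ := hU.bdd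
  have hFm : Measurable F := hF.1.continuous.measurable
  refine real_of_lint hW hφ hn hU.meas hU.nonneg hK hF (by positivity) (by positivity) hγ ?_
  set A := ∫⁻ x, ENNReal.ofReal (F x ^ 2) with hA
  have h1 : ∀ i, ENNReal.ofReal m * A ≤
      ((∫⁻ x, ENNReal.ofReal (V (x i) * F x ^ 2)) + ENNReal.ofReal t * ∫⁻ x, nlD univ J F i x) +
        (∫⁻ x, ENNReal.ofReal (W (x i) * F x ^ 2)) + ENNReal.ofReal η * A +
        ENNReal.ofReal γ * ∫⁻ x, ENNReal.ofReal (projI φ F i x ^ 2) := by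
    intro i
    refine (h.many hφ hn hW.meas hV hJ hγ hF i).trans (add_le_add ?_ le_rfl)
    have m1 : Measurable fun x : ι → R3 => ENNReal.ofReal (V (x i) * F x ^ 2) :=
      ((hV.comp (measurable_pi_apply i)).mul (hFm.pow_const 2)).ennreal_ofReal
    have m2 : Measurable fun x : ι → R3 => ENNReal.ofReal (W (x i) * F x ^ 2) :=
      ((hW.meas.comp (measurable_pi_apply i)).mul (hFm.pow_const 2)).ennreal_ofReal
    have h2 : ∫⁻ x, ENNReal.ofReal ((W (x i) + V (x i) + η) * F x ^ 2) ≤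
        (∫⁻ x, ENNReal.ofReal (V (x i) * F x ^ 2)) + (∫⁻ x, ENNReal.ofReal (W (x i) * F x ^ 2)) +
          ENNReal.ofReal η * A := by
      rw [hA, ← lintegral_const_mul _ (hFm.pow_const 2).ennreal_ofReal, ← lintegral_add_left m1,
        ← lintegral_add_left (m1.fun_add m2)]
      refine lintegral_mono fun x => ?_
      rw [← ENNReal.ofReal_mul hη, show (W (x i) + V (x i) + η) * F x ^ 2 =
        V (x i) * F x ^ 2 + W (x i) * F x ^ 2 + η * F x ^ 2 by ring]
      exact ENNReal.ofReal_add_le.trans (add_le_add ENNReal.ofReal_add_le le_rfl)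
    calc _ ≤ ENNReal.ofReal t * (∫⁻ x, nlD univ J F i x) +
          ((∫⁻ x, ENNReal.ofReal (V (x i) * F x ^ 2)) +
            (∫⁻ x, ENNReal.ofReal (W (x i) * F x ^ 2)) + ENNReal.ofReal η * A) :=
          add_le_add (mul_le_mul_left (ENNReal.ofReal_le_ofReal ht) _) h2
      _ = _ := by ring
  have hc : ∀ y : ℝ, 0 ≤ y → ENNReal.ofReal (y * Fintype.card ι) * A =
      ∑ _i : ι, ENNReal.ofReal y * A := by
    intro y hy
    rw [Finset.sum_const, Finset.card_univ, nsmul_eq_mul, ENNReal.ofReal_mul hy,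
      ENNReal.ofReal_natCast]
    ring
  rw [hc m hm]
  refine (Finset.sum_le_sum fun i _ => h1 i).trans ?_
  rw [Finset.sum_add_distrib, Finset.sum_add_distrib, Finset.sum_add_distrib, ← hc η hη,
    ← Finset.mul_sum, ENNReal.ofReal_add ha (by positivity), add_mul]
  refine add_le_add ((add_le_add (add_le_add hs le_rfl) le_rfl).trans_eq ?_) le_rfl
  ring

theorem BFin_large {s₁ : ℝ} {N : ℕ} (h : ⌈s₁ ^ 2⌉₊ ≤ N) : s₁ ≤ √(N : ℝ) :=
  Real.le_sqrt_of_sq_le ((Nat.le_ceil _).trans (by exact_mod_cast h))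

theorem rough_bec {W : R3 → ℝ} (hW : Pot W) (hg : Grows W) {U : (Fin 3 → R3) → ℝ} (S : Micro U)
    {b : ℝ} (hb : b = relInt (F3o U S.ω)) (hb0 : 0 ≤ b) (T : Trap W b) :
    ∃ γ' : ℝ, 0 < γ' ∧ ∀ η : ℝ, 0 < η → ∃ N₀ : ℕ, ∀ (ι : Type) [Fintype ι] [DecidableEq ι],
      N₀ ≤ Fintype.card ι → ∀ F : (ι → R3) → ℝ, Cc1 F →
        (eGP W b - η) * Fintype.card ι * (∫ x, F x ^ 2) + γ' * NP T.φ F ≤
          QO univ W (sc (√(Fintype.card ι : ℝ) ^ 2) √(Fintype.card ι : ℝ) U) F := by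
  refine ⟨T.γ, T.γ_pos, fun η hη => ?_⟩
  obtain ⟨ε, R, ξ, hε, hε1, hR, hξ, hgap⟩ := gap_nl hW hg hb0 T (η := η / 4) (by positivity)
  obtain ⟨c₀, hc₀, hmoll⟩ := exists_moll
  obtain ⟨M₁, -, hBF⟩ := T.exists_BF hW hb0 T.μ
  have hL1 : Lip2 T.φ M₁ := by
    have := (hBF T.o T.ν_o.le).lip2 (T.pot hW hb0)
    rwa [T.e_o] at this
  obtain ⟨M₄, hL4⟩ : ∃ M₄, Lip2 (fun y => T.φ y ^ 4) M₄ := by
    have e : (fun y => T.φ y ^ 4) = fun y => T.φ y * T.φ y * (T.φ y * T.φ y) := by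
      funext y
      ring
    exact ⟨_, e ▸ (hL1.mul hL1).mul (hL1.mul hL1)⟩
  have hM₄ := hL4.nonneg
  have hM : 0 ≤ T.M := (T.φ_nonneg 0).trans (T.φ_le 0)
  have hφ := T.meas
  have hφ6 : Integrable fun y => T.φ y ^ 6 := by
    have := (T.B.inF T.o).memLp6 (T.pot hW hb0)
    rw [T.e_o] at this
    have h2 := this.integrable_norm_pow (p := 6) (by norm_num)
    refine h2.congr (ae_of_all _ fun y => ?_)
    simp only [Real.norm_eq_abs, abs_of_nonneg (T.φ_nonneg y)]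
  obtain ⟨l₀, hl₀, hbox⟩ := box_bound S (hb ▸ hb0) (ε := ε / 2) (η := η / 8)
    (ρb := 2 * T.M ^ 2 + 2) (δ := ε / 6) (c₀ := c₀) (by positivity) (by linarith) (by positivity)
    (by linarith [sq_nonneg T.M]) (by positivity) hc₀
  obtain ⟨l, hl, hl0, hl1, hlξ, hlM⟩ : ∃ l : ℝ, 0 < l ∧ l ≤ l₀ ∧ l ≤ 1 ∧ l ≤ ξ ∧
      l ≤ ξ / (2 * M₄ + 1) :=
    ⟨min l₀ (min 1 (min ξ (ξ / (2 * M₄ + 1)))), by positivity, min_le_left _ _,
      (min_le_right _ _).trans (min_le_left _ _),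
      (min_le_right _ _).trans ((min_le_right _ _).trans (min_le_left _ _)),
      (min_le_right _ _).trans ((min_le_right _ _).trans (min_le_right _ _))⟩
  obtain ⟨K', s₀, hK', hs₀, hbox⟩ := hbox l hl hl0
  obtain ⟨J, ρ, hJ⟩ := hmoll (ε / 6 * l) (by positivity)
  set Bl := Metric.ball (0 : R3) (R + 2) with hBl
  have hBm : MeasurableSet Bl := Metric.isOpen_ball.measurableSet
  set vB := (volume Bl).toReal with hvB
  have hvB0 : 0 ≤ vB := ENNReal.toReal_nonneg
  have hind : Measurable (indicator Bl fun y => T.φ y ^ 4) := (hφ.pow_const 4).indicator hBm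
  have hindb : ∀ y, 0 ≤ indicator Bl (fun y => T.φ y ^ 4) y ∧
      indicator Bl (fun y => T.φ y ^ 4) y ≤ T.M ^ 4 := by
    intro y
    by_cases hy : y ∈ Bl
    · rw [indicator_of_mem hy]
      exact ⟨by positivity, pow_le_pow_left₀ (T.φ_nonneg y) (T.φ_le y) 4⟩
    · rw [indicator_of_notMem hy]
      exact ⟨le_rfl, by positivity⟩
  have hG := hgap (V := avg l (indicator Bl fun y => T.φ y ^ 4)) hJ
    ((mul_le_of_le_one_left hl.le (by linarith)).trans hlξ) (measurable_avg l hind) (avg_bounds hl hind hindb)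
    ((avg_close hl hl1 hL4 R).trans (ENNReal.ofReal_le_ofReal (by
      rw [le_div_iff₀ (by positivity)] at hlM
      have h1 : (l * (2 * M₄ + 1)) ^ 2 ≤ ξ ^ 2 := pow_le_pow_left₀ (by positivity) hlM 2
      linarith [mul_nonneg (sq_nonneg l) hM₄, mul_nonneg (sq_nonneg l) (sq_nonneg M₄),
        sq_nonneg l])))
  refine ⟨⌈(s₀ + 1 / l ^ 3 + 8 * K' / (η * l ^ 3) + 4 * K' * vB / (η * l ^ 3)) ^ 2⌉₊,
    fun ι _ _ hN F hF => ?_⟩
  have hs := BFin_large hN
  have hss : √(Fintype.card ι : ℝ) ^ 2 = Fintype.card ι := Real.sq_sqrt (Nat.cast_nonneg _)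
  set s := √(Fintype.card ι : ℝ) with hsd
  have p1 : 0 ≤ 1 / l ^ 3 := by positivity
  have p2 : 0 ≤ 8 * K' / (η * l ^ 3) := by positivity
  have p3 : 0 ≤ 4 * K' * vB / (η * l ^ 3) := by positivity
  have hs1 : 1 ≤ s := by linarith
  have hs0 : 0 < s := by linarith
  have hl3 : 0 < l ^ 3 := by positivity
  have hX : 1 ≤ s ^ 2 * l ^ 3 := by
    have h1 : 1 / l ^ 3 ≤ s := by linarith
    rw [div_le_iff₀ hl3] at h1
    linarith [mul_le_mul_of_nonneg_right hs1 (mul_pos hs0 hl3).le]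
  have hk : K' * s ≤ η / 8 * (s ^ 2 * l ^ 3) := by
    have h1 : 8 * K' / (η * l ^ 3) ≤ s := by linarith
    rw [div_le_iff₀ (by positivity)] at h1
    linarith [mul_le_mul_of_nonneg_right h1 hs0.le]
  have hkv : K' * s * vB / l ^ 3 ≤ η / 4 * s ^ 2 := by
    have h1 : 4 * K' * vB / (η * l ^ 3) ≤ s := by linarith
    rw [div_le_iff₀ (by positivity)] at h1
    rw [div_le_iff₀ hl3]
    linarith [mul_le_mul_of_nonneg_right h1 hs0.le]
  have hU : Wt3 (sc (s ^ 2) s U) := wt3_sc S.pot (by positivity) s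
  have h1ε : 0 ≤ 1 - ε := by linarith
  have hI6 : 0 ≤ ∫ y, T.φ y ^ 6 := integral_nonneg fun y => by positivity
  have hsl := slide (ι := ι) (ε := ε / 2) (η := 2 * (η / 8)) (M := (1 - ε) * (b / 2) * T.M ^ 4)
    (Ct := b / 3 * (∫ y, T.φ y ^ 6) * s ^ 2 + K' * s * vB / l ^ 3) hJ hl (by linarith)
    (by linarith) (by positivity) (by positivity) hU.meas hU.nonneg hF
    (lam := fun c => (1 - ε) * (b / 2) * indicator Bl (fun y => T.φ y ^ 4) c)
    (C := indicator Bl fun c => b / 3 * T.φ c ^ 6 * (s ^ 2 * l ^ 3) + K' * s)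
    (measurable_const.mul hind)
    (fun c => ⟨mul_nonneg (by positivity) (hindb c).1,
      mul_le_mul_of_nonneg_left (hindb c).2 (by positivity)⟩) ?_
    ((((hφ.pow_const 6).const_mul _).mul_const _).add_const _ |>.indicator hBm) ?_
  · simp only [avg_mul] at hsl
    have hfin := BFin_sum hG hφ T.nrm hW (measurable_const.mul (measurable_avg l hind)) hJ.mJ
      (add_nonneg (T.μ_nonneg hW hb0) T.γ_pos.le) T.γ_pos.le (by positivity) (by positivity)
      (t := (1 - ε / 2) * (1 - ε / 6) ^ 3) ?_ hU hF hsl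
    · refine le_trans (add_le_add (mul_le_mul_of_nonneg_right ?_
        (integral_nonneg fun x => by positivity)) le_rfl) hfin
      rw [T.eGP_eq, ← hss]
      linarith [mul_nonneg hη.le (sq_nonneg s)]
    · have h1 : 1 - ε / 2 ≤ (1 - ε / 6) ^ 3 := by
        have := one_add_mul_le_pow (show (-2 : ℝ) ≤ -(ε / 6) by linarith) 3
        push_cast at this
        rw [show 1 - ε / 6 = 1 + -(ε / 6) by ring]
        linarith
      have h2 := mul_le_mul_of_nonneg_left h1 (show 0 ≤ 1 - ε / 2 by linarith)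
      linarith [sq_nonneg ε]
  · have e : ∀ c, ENNReal.ofReal (indicator Bl
        (fun c => b / 3 * T.φ c ^ 6 * (s ^ 2 * l ^ 3) + K' * s) c) ≤
        ENNReal.ofReal (b / 3 * (s ^ 2 * l ^ 3) * T.φ c ^ 6) +
          indicator Bl (fun _ => ENNReal.ofReal (K' * s)) c := by
      intro c
      by_cases hc : c ∈ Bl
      · rw [indicator_of_mem hc, indicator_of_mem hc, mul_right_comm]
        exact ENNReal.ofReal_add_le
      · rw [indicator_of_notMem hc, ENNReal.ofReal_zero]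
        exact zero_le
    refine (lintegral_mono e).trans_eq ?_
    rw [lintegral_add_left ((hφ.pow_const 6).const_mul _).ennreal_ofReal,
      lintegral_indicator_const hBm, ← ofReal_integral_eq_lintegral_ofReal (hφ6.const_mul _)
        (ae_of_all _ fun y => by positivity), integral_const_mul,
      ← ENNReal.ofReal_toReal (measure_ball_lt_top (μ := volume) (x := (0 : R3))
        (r := R + 2)).ne, ← ENNReal.ofReal_mul (by positivity),
      ← ENNReal.ofReal_add (by positivity) (by positivity)]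
    congr 1
    rw [← hBl, ← hvB]
    field_simp
  · intro c
    have hΩ := OBox_meas c l
    by_cases hc : c ∈ Bl
    · have := BFin_cell hΩ hJ.mJ hU hF (ε := ε) (ε' := ε / 2) (η := η / 8) (b := b)
        (a := T.φ c ^ 2) (m := T.M ^ 2) (X := s ^ 2 * l ^ 3) (k := K' * s) hε1 (by positivity)
        (by linarith) (by positivity) hb0 (by positivity)
        (pow_le_pow_left₀ (T.φ_nonneg c) (T.φ_le c) 2) hX (by positivity) hk
        fun κ _ _ hκ p q hp hq hpq => hbox s (by linarith) c J ρ hJ κ (by linarith) p q hp hq (by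
          rw [← hb, show l ^ 6 * s ^ 4 = (s ^ 2 * l ^ 3) ^ 2 by ring]
          exact hpq)
      simp only [indicator_of_mem hc]
      rwa [← pow_mul, ← pow_mul] at this
    · simp only [indicator_of_notMem hc, mul_zero]
      exact cell_weak hJ hΩ (convex_cube c l) (by positivity) (by positivity) hU.meas hF

end Pool.Agent.Lib.MP_8fe63c_mp
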