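import Pool.Agent.Lib.MP_8fe63c_mp.RLoc1

/-!
Localisation: a translation invariant kernel at scale `1/s` acts like a delta function.

Sketch. `integral_rel`: for `j = 0` split off the first point (`MeasurableEquiv.piFinSuccAbove`), translate and
rescale; the general case by `TI.marg_erase` applied to the positive and negative parts (or by a shear).
`loc_move`: with `r i = x i - x a`, `∫ (A y - A (y + r b))^2 dy ≤ min (M^2 ‖r b‖^2) (4 M^2)`. `locA`: for
`|a j| ≤ M`, `|∏ a j - (1/p) ∑ (a j)^p| ≤ M^(p-2) ∑ j k, (a j - a k)^2` (`p = 2, 3, 4`; for `p = 4`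
`a^4+b^4+c^4+d^4-4abcd = (a^2-b^2)^2+(c^2-d^2)^2+2(ab-cd)^2`). `loc3`: by symmetry replace the product by the
permanent `/6`, and `perm = (1/4) ∑ ε₁ ε₂ ∏ j, (A 0 + ε₁ A 1 + ε₂ A 2) (x j)` (sum over signs); apply `locA`.
`two_pt_le`: Cauchy-Schwarz, `marg_scale`, `lintegral_mul_single_le`.
-/

set_option linter.unusedSectionVars false

open MeasureTheory Set Filter Topology
open scoped ENNReal InnerProductSpace

namespace Pool.Agent.Lib.MP_8fe63c_mp

variable {I κ ι : Type} [Fintype I] [DecidableEq I] [Fintype κ] [DecidableEq κ]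
  [Fintype ι] [DecidableEq ι]


variable {q : ℕ} {Φ : (Fin (q + 1) → R3) → ℝ} {B s : ℝ}

theorem RLoc_sq {a M : ℝ} (h : |a| ≤ M) : a ^ 2 ≤ M ^ 2 := by
  rw [← sq_abs]
  exact pow_le_pow_left₀ (abs_nonneg a) h 2

theorem RLoc_alg2 (a b : ℝ) : |a * b - (a ^ 2 + b ^ 2) / 2| ≤ 2 * (a - b) ^ 2 := by
  rw [abs_le]
  constructor <;> nlinarith [sq_nonneg (a - b)]

theorem RLoc_alg3 {a b c M : ℝ} (ha : |a| ≤ M) (hb : |b| ≤ M) (hc : |c| ≤ M) :
    |a * b * c - (a ^ 3 + b ^ 3 + c ^ 3) / 3| ≤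
      M * (2 * ((a - b) ^ 2 + (a - c) ^ 2 + (b - c) ^ 2)) := by
  have hS : 0 ≤ (a - b) ^ 2 + (a - c) ^ 2 + (b - c) ^ 2 := by positivity
  have e : a * b * c - (a ^ 3 + b ^ 3 + c ^ 3) / 3 =
      -((a + b + c) / 6) * ((a - b) ^ 2 + (a - c) ^ 2 + (b - c) ^ 2) := by ring
  rw [e, abs_mul, abs_of_nonneg hS, ← mul_assoc]
  refine mul_le_mul_of_nonneg_right ?_ hS
  have h0 := (abs_nonneg a).trans ha
  rw [abs_le] at ha hb hc ⊢
  constructor <;> linarith [ha.1, ha.2, hb.1, hb.2, hc.1, hc.2]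

theorem RLoc_alg4 {a b c d M : ℝ} (ha : |a| ≤ M) (hb : |b| ≤ M) (hc : |c| ≤ M) (hd : |d| ≤ M) :
    |a * b * c * d - (a ^ 4 + b ^ 4 + c ^ 4 + d ^ 4) / 4| ≤ M ^ 2 *
      (2 * ((a - b) ^ 2 + (a - c) ^ 2 + (a - d) ^ 2 + (b - c) ^ 2 + (b - d) ^ 2 + (c - d) ^ 2)) := by
  have e : a * b * c * d - (a ^ 4 + b ^ 4 + c ^ 4 + d ^ 4) / 4 =
      -(((a + b) ^ 2 * (a - b) ^ 2 + (c + d) ^ 2 * (c - d) ^ 2 +
        2 * (a * (b - d) + d * (a - c)) ^ 2) / 4) := by ring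
  rw [e, abs_neg, abs_of_nonneg (by positivity)]
  have sa := RLoc_sq ha
  have sb := RLoc_sq hb
  have sc := RLoc_sq hc
  have sd := RLoc_sq hd
  have h1 : (a + b) ^ 2 * (a - b) ^ 2 ≤ 4 * M ^ 2 * (a - b) ^ 2 :=
    mul_le_mul_of_nonneg_right (by nlinarith [sq_nonneg (a - b)]) (sq_nonneg _)
  have h2 : (c + d) ^ 2 * (c - d) ^ 2 ≤ 4 * M ^ 2 * (c - d) ^ 2 :=
    mul_le_mul_of_nonneg_right (by nlinarith [sq_nonneg (c - d)]) (sq_nonneg _)
  have h3 : (a * (b - d) + d * (a - c)) ^ 2 ≤ 2 * (a ^ 2 * (b - d) ^ 2) + 2 * (d ^ 2 * (a - c) ^ 2) := by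
    nlinarith [sq_nonneg (a * (b - d) - d * (a - c))]
  have h4 := mul_le_mul_of_nonneg_right sa (sq_nonneg (b - d))
  have h5 := mul_le_mul_of_nonneg_right sd (sq_nonneg (a - c))
  have k1 := mul_nonneg (sq_nonneg M) (sq_nonneg (a - b))
  have k2 := mul_nonneg (sq_nonneg M) (sq_nonneg (a - c))
  have k3 := mul_nonneg (sq_nonneg M) (sq_nonneg (a - d))
  have k4 := mul_nonneg (sq_nonneg M) (sq_nonneg (b - c))
  have k5 := mul_nonneg (sq_nonneg M) (sq_nonneg (b - d))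
  have k6 := mul_nonneg (sq_nonneg M) (sq_nonneg (c - d))
  linarith

theorem RLoc_alg (hq : 1 ≤ q) (hq' : q ≤ 3) {a : Fin (q + 1) → ℝ} {M : ℝ} (h : ∀ j, |a j| ≤ M) :
    |∏ j, a j - (∑ j, a j ^ (q + 1)) / ((q : ℝ) + 1)| ≤ M ^ (q - 1) * ∑ j, ∑ k, (a j - a k) ^ 2 := by
  have k2 : ∀ a : Fin 2 → ℝ, |∏ j, a j - (∑ j, a j ^ (1 + 1)) / (((1 : ℕ) : ℝ) + 1)| ≤
      M ^ (1 - 1) * ∑ j, ∑ k, (a j - a k) ^ 2 := fun a => by
    simp only [Fin.prod_univ_two, Fin.sum_univ_two]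
    convert RLoc_alg2 (a 0) (a 1) using 1
    · norm_num
    · ring
  have k3 : ∀ a : Fin 3 → ℝ, (∀ j, |a j| ≤ M) →
      |∏ j, a j - (∑ j, a j ^ (2 + 1)) / (((2 : ℕ) : ℝ) + 1)| ≤
      M ^ (2 - 1) * ∑ j, ∑ k, (a j - a k) ^ 2 := fun a h => by
    simp only [Fin.prod_univ_three, Fin.sum_univ_three]
    convert RLoc_alg3 (h 0) (h 1) (h 2) using 1
    · norm_num
    · ring
  have k4 : ∀ a : Fin 4 → ℝ, (∀ j, |a j| ≤ M) →
      |∏ j, a j - (∑ j, a j ^ (3 + 1)) / (((3 : ℕ) : ℝ) + 1)| ≤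
      M ^ (3 - 1) * ∑ j, ∑ k, (a j - a k) ^ 2 := fun a h => by
    simp only [Fin.prod_univ_four, Fin.sum_univ_four]
    convert RLoc_alg4 (h 0) (h 1) (h 2) (h 3) using 1
    · norm_num
    · ring
  interval_cases q
  · exact k2 a
  · exact k3 a h
  · exact k4 a h

theorem RLoc_int_sq {A : R3 → ℝ} {M : ℝ} (hA : Lip2 A M) : Integrable fun y => A y ^ 2 :=
  hA.memLp.integrable_sq

theorem RLoc_int_pow (hq : 1 ≤ q) {A : R3 → ℝ} {M : ℝ} (hA : Lip2 A M) :
    Integrable fun y => A y ^ (q + 1) := by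
  obtain ⟨k, rfl⟩ := Nat.exists_eq_add_of_le' hq
  refine ((RLoc_int_sq hA).const_mul (M ^ k)).mono' (hA.meas.pow_const _).aestronglyMeasurable
    (Eventually.of_forall fun y => ?_)
  rw [Real.norm_eq_abs, add_assoc, pow_add, abs_mul, abs_pow, abs_pow, sq_abs]
  exact mul_le_mul_of_nonneg_right (pow_le_pow_left₀ (abs_nonneg _) (hA.bdd y) k) (sq_nonneg _)

theorem locA (hq : 1 ≤ q) (hq' : q ≤ 3) (h : Nice0 Φ B) (hs : 0 < s) {c M : ℝ} (hc : 0 ≤ c)
    (hm : Mom s Φ c) {A : R3 → ℝ} (hA : Lip2 A M) :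
    |(∫ x : Fin (q + 1) → R3, Φ (s • x) * ∏ j, A (x j)) -
      relInt Φ / s ^ (3 * q) * ∫ y, A y ^ (q + 1)| ≤ 64 * M ^ (q + 1) * c / s ^ (3 * q) := by
  have hM := hA.nonneg
  have hAm := hA.meas
  have hΦ : Measurable fun x : Fin (q + 1) → R3 => Φ (s • x) := h.meas.comp (HMac_meas_smul s)
  set D : (Fin (q + 1) → R3) → ℝ := fun x =>
    Φ (s • x) * (∏ j, A (x j) - (∑ j, A (x j) ^ (q + 1)) / ((q : ℝ) + 1)) with hD
  have mD : Measurable D := hΦ.mul (by fun_prop)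
  have mE : ∀ a b : Fin (q + 1), Measurable fun x : Fin (q + 1) → R3 =>
      eabs Φ (s • x) * ENNReal.ofReal ((A (x a) - A (x b)) ^ 2) := fun a b =>
    ((RLoc_meas_eabs h.meas).comp (HMac_meas_smul s)).mul (by fun_prop)
  have h1 : ∫⁻ x, ENNReal.ofReal ‖D x‖ ≤ ENNReal.ofReal (64 * M ^ (q + 1) * c / s ^ (3 * q)) := by
    calc ∫⁻ x, ENNReal.ofReal ‖D x‖
        ≤ ∫⁻ x : Fin (q + 1) → R3, ENNReal.ofReal (M ^ (q - 1)) * ∑ a, ∑ b,
            eabs Φ (s • x) * ENNReal.ofReal ((A (x a) - A (x b)) ^ 2) := by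
          refine lintegral_mono fun x => ?_
          simp only [← Finset.mul_sum, ← ENNReal.ofReal_sum_of_nonneg fun _ _ => sq_nonneg _]
          rw [← ENNReal.ofReal_sum_of_nonneg fun _ _ => Finset.sum_nonneg fun _ _ => sq_nonneg _,
            mul_left_comm, ← ENNReal.ofReal_mul (pow_nonneg hM _), hD, Real.norm_eq_abs, abs_mul,
            ENNReal.ofReal_mul (abs_nonneg _)]
          exact mul_le_mul' le_rfl
            (ENNReal.ofReal_le_ofReal (RLoc_alg hq hq' fun j => hA.bdd (x j)))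
      _ = ENNReal.ofReal (M ^ (q - 1)) * ∑ a, ∑ b, ∫⁻ x : Fin (q + 1) → R3,
            eabs Φ (s • x) * ENNReal.ofReal ((A (x a) - A (x b)) ^ 2) := by
          rw [lintegral_const_mul' _ _ ENNReal.ofReal_ne_top,
            lintegral_finsetSum _ fun a _ => Finset.measurable_sum _ fun b _ => mE a b]
          congr 1
          exact Finset.sum_congr rfl fun a _ => lintegral_finsetSum _ fun b _ => mE a b
      _ ≤ ENNReal.ofReal (M ^ (q - 1)) * ∑ _a : Fin (q + 1), ∑ _b : Fin (q + 1),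
            ENNReal.ofReal (4 * M ^ 2 * c / s ^ (3 * q)) :=
          mul_le_mul' le_rfl (Finset.sum_le_sum fun a _ => Finset.sum_le_sum fun b _ =>
            loc_move h.meas h.ti hs hc hm hA a b)
      _ ≤ _ := by
          have hp : 0 ≤ 4 * M ^ 2 * c / s ^ (3 * q) := by positivity
          rw [← ENNReal.ofReal_sum_of_nonneg fun _ _ => hp,
            ← ENNReal.ofReal_sum_of_nonneg fun _ _ => Finset.sum_nonneg fun _ _ => hp,
            ← ENNReal.ofReal_mul (pow_nonneg hM _)]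
          refine ENNReal.ofReal_le_ofReal ?_
          simp only [Finset.sum_const, Finset.card_univ, Fintype.card_fin, nsmul_eq_mul]
          have e : M ^ (q + 1) = M ^ (q - 1) * M ^ 2 := by
            rw [← pow_add]
            congr 1
            omega
          have h4 : ((q + 1 : ℕ) : ℝ) ≤ 4 := by exact_mod_cast Nat.succ_le_succ hq'
          calc _ ≤ M ^ (q - 1) * (4 * (4 * (4 * M ^ 2 * c / s ^ (3 * q)))) := by gcongr
            _ = _ := by rw [e]; ring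
  have iD : Integrable D := by
    refine ⟨mD.aestronglyMeasurable, ?_⟩
    rw [hasFiniteIntegral_iff_norm]
    exact h1.trans_lt ENNReal.ofReal_lt_top
  have iP := fun j => integrable_sc_single h hs j (hAm.pow_const (q + 1)) (RLoc_int_pow hq hA)
  have hq0 : (q : ℝ) + 1 ≠ 0 := by positivity
  have e1 : ∫ x : Fin (q + 1) → R3, Φ (s • x) * ∏ j, A (x j) =
      (∫ x, D x) + relInt Φ / s ^ (3 * q) * ∫ y, A y ^ (q + 1) := by
    have e2 : ∫ x : Fin (q + 1) → R3, (∑ j, Φ (s • x) * A (x j) ^ (q + 1)) / ((q : ℝ) + 1) =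
        relInt Φ / s ^ (3 * q) * ∫ y, A y ^ (q + 1) := by
      rw [integral_div, integral_finsetSum _ fun j _ => iP j, Finset.sum_congr rfl fun j _ =>
        integral_rel h hs j (hAm.pow_const (q + 1)) (RLoc_int_pow hq hA)]
      simp only [Finset.sum_const, Finset.card_univ, Fintype.card_fin, nsmul_eq_mul]
      push_cast
      field_simp
    rw [← e2, ← integral_add iD ((integrable_finsetSum _ fun j _ => iP j).div_const _)]
    refine integral_congr_ae (Eventually.of_forall fun x => ?_)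
    simp only [hD, ← Finset.mul_sum]
    ring
  rw [e1, add_sub_cancel_right]
  exact (norm_integral_le_lintegral_norm D).trans
    (ENNReal.toReal_le_of_le_ofReal (by positivity) h1)

theorem Lip2.add {A A' : R3 → ℝ} {M M' : ℝ} (h : Lip2 A M) (h' : Lip2 A' M') :
    Lip2 (fun x => A x + A' x) (M + M') := by
  refine ⟨h.meas.add h'.meas, fun x => (abs_add_le _ _).trans (add_le_add (h.bdd x) (h'.bdd x)),
    RLoc_mink h.meas h'.meas h.nonneg h'.nonneg h.l2 h'.l2, fun a => ?_⟩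
  have h1 := RLoc_mink (f := fun x => A (x + a) - A x) (g := fun x => A' (x + a) - A' x)
    ((h.meas.comp (measurable_add_const a)).sub h.meas)
    ((h'.meas.comp (measurable_add_const a)).sub h'.meas)
    (mul_nonneg h.nonneg (norm_nonneg a)) (mul_nonneg h'.nonneg (norm_nonneg a))
    (by rw [mul_pow]; exact h.tr a) (by rw [mul_pow]; exact h'.tr a)
  rw [← add_mul, mul_pow] at h1
  refine le_trans (le_of_eq (lintegral_congr fun x => ?_)) h1
  congr 2
  ring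

theorem Lip2.neg {A : R3 → ℝ} {M : ℝ} (h : Lip2 A M) : Lip2 (fun x => -A x) M := by
  refine ⟨h.meas.neg, fun x => by rw [abs_neg]; exact h.bdd x, by simpa only [neg_sq] using h.l2,
    fun a => le_trans (le_of_eq (lintegral_congr fun x => ?_)) (h.tr a)⟩
  congr 1
  ring

theorem RLoc_abs3 {a b c M : ℝ} (hc : |c| ≤ M) : |a * b * c| ≤ M * a ^ 2 + M * b ^ 2 := by
  have h0 := (abs_nonneg c).trans hc
  have h1 : |a * b| ≤ a ^ 2 + b ^ 2 := by
    rw [abs_le]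
    constructor <;> nlinarith [sq_nonneg (a - b), sq_nonneg (a + b)]
  rw [abs_mul, ← mul_add, mul_comm M]
  exact mul_le_mul h1 hc (abs_nonneg c) (by positivity)

/-- the trilinear form of a kernel -/
noncomputable def RLoc_K (Φ : (Fin 3 → R3) → ℝ) (s : ℝ) (f g k : R3 → ℝ) (x : Fin 3 → R3) : ℝ :=
  Φ (s • x) * (f (x 0) * g (x 1) * k (x 2))

theorem RLoc_int_K {Φ : (Fin 3 → R3) → ℝ} (h : Nice0 Φ B) (hs : 0 < s) {f g k : R3 → ℝ}
    {M M' M'' : ℝ} (hf : Lip2 f M) (hg : Lip2 g M') (hk : Lip2 k M'') :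
    Integrable (RLoc_K Φ s f g k) := by
  have i1 := integrable_sc_single (q := 2) h hs 0 (hf.meas.pow_const 2) (RLoc_int_sq hf)
  have i2 := integrable_sc_single (q := 2) h hs 1 (hg.meas.pow_const 2) (RLoc_int_sq hg)
  have m1 := hf.meas
  have m2 := hg.meas
  have m3 := hk.meas
  have hm : Measurable (RLoc_K Φ s f g k) := (h.meas.comp (HMac_meas_smul s)).mul (by fun_prop)
  refine ((i1.abs.const_mul M'').add (i2.abs.const_mul M'')).mono' hm.aestronglyMeasurable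
    (Eventually.of_forall fun x => ?_)
  have h1 := mul_le_mul_of_nonneg_left (RLoc_abs3 (a := f (x 0)) (b := g (x 1)) (hk.bdd (x 2)))
    (abs_nonneg (Φ (s • x)))
  simp only [RLoc_K, Real.norm_eq_abs, Pi.add_apply, abs_mul (Φ _), abs_pow, sq_abs]
  linarith

theorem RLoc_int_diag {f g k : R3 → ℝ} {M M' M'' : ℝ} (hf : Lip2 f M) (hg : Lip2 g M')
    (hk : Lip2 k M'') : Integrable fun y => f y * g y * k y :=
  (((RLoc_int_sq hf).const_mul M'').add ((RLoc_int_sq hg).const_mul M'')).mono'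
    ((hf.meas.mul hg.meas).mul hk.meas).aestronglyMeasurable
    (Eventually.of_forall fun y => RLoc_abs3 (hk.bdd y))

theorem RLoc_sw01 {Φ : (Fin 3 → R3) → ℝ} (hsy : Symm Φ) (s : ℝ) (f g k : R3 → ℝ) :
    ∫ x, RLoc_K Φ s f g k x = ∫ x, RLoc_K Φ s g f k x := by
  rw [← integral_comp_perm (Equiv.swap 0 1) (RLoc_K Φ s f g k)]
  refine integral_congr_ae (Eventually.of_forall fun x => ?_)
  have e : Φ (s • (x ∘ Equiv.swap (0 : Fin 3) 1)) = Φ (s • x) := hsy (Equiv.swap 0 1) (s • x)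
  have e2 : Equiv.swap (0 : Fin 3) 1 2 = 2 := by decide
  simp only [RLoc_K, e, Function.comp_apply, Equiv.swap_apply_left, Equiv.swap_apply_right, e2]
  ring

theorem RLoc_sw12 {Φ : (Fin 3 → R3) → ℝ} (hsy : Symm Φ) (s : ℝ) (f g k : R3 → ℝ) :
    ∫ x, RLoc_K Φ s f g k x = ∫ x, RLoc_K Φ s f k g x := by
  rw [← integral_comp_perm (Equiv.swap 1 2) (RLoc_K Φ s f g k)]
  refine integral_congr_ae (Eventually.of_forall fun x => ?_)
  have e : Φ (s • (x ∘ Equiv.swap (1 : Fin 3) 2)) = Φ (s • x) := hsy (Equiv.swap 1 2) (s • x)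
  have e2 : Equiv.swap (1 : Fin 3) 2 0 = 0 := by decide
  simp only [RLoc_K, e, Function.comp_apply, Equiv.swap_apply_left, Equiv.swap_apply_right, e2]
  ring

theorem RLoc_four {X : Type} [MeasurableSpace X] {μ : Measure X} {f₁ f₂ f₃ f₄ g : X → ℝ}
    (h₁ : Integrable f₁ μ) (h₂ : Integrable f₂ μ) (h₃ : Integrable f₃ μ) (h₄ : Integrable f₄ μ)
    (h : ∀ x, f₁ x - f₂ x - f₃ x + f₄ x = g x) :
    ∫ x, f₁ x ∂μ - ∫ x, f₂ x ∂μ - ∫ x, f₃ x ∂μ + ∫ x, f₄ x ∂μ = ∫ x, g x ∂μ := by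
  rw [← integral_sub' h₁ h₂, ← integral_sub' (h₁.sub h₂) h₃,
    ← integral_add' ((h₁.sub h₂).sub h₃) h₄]
  exact integral_congr_ae (Eventually.of_forall h)

theorem loc3 {Φ : (Fin 3 → R3) → ℝ} (h : Nice0 Φ B) (hsy : Symm Φ) (hs : 0 < s) {c M : ℝ}
    (hc : 0 ≤ c) (hm : Mom s Φ c) {A : Fin 3 → R3 → ℝ} (hA : ∀ j, Lip2 (A j) M) :
    |(∫ x : Fin 3 → R3, Φ (s • x) * ∏ j, A j (x j)) - relInt Φ / s ^ 6 * ∫ y, ∏ j, A j y| ≤
      300 * M ^ 3 * c / s ^ 6 := by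
  have hM := (hA 0).nonneg
  have key : ∀ {u : R3 → ℝ}, Lip2 u (M + M + M) →
      |(∫ x, RLoc_K Φ s u u u x) - relInt Φ / s ^ 6 * ∫ y, u y * u y * u y| ≤
        1728 * (M ^ 3 * c / s ^ 6) := by
    intro u hu
    have h1 := locA (q := 2) (by norm_num) (by norm_num) h hs hc hm hu
    have e1 : ∀ x : Fin 3 → R3, ∏ j, u (x j) = u (x 0) * u (x 1) * u (x 2) := fun x =>
      Fin.prod_univ_three _
    have e2 : ∀ y, u y ^ (2 + 1) = u y * u y * u y := fun y => by ring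
    simp only [e2] at h1
    refine le_trans (le_of_eq ?_) (h1.trans (le_of_eq (by ring)))
    congr 3
    funext x
    rw [RLoc_K, ← e1]
  have l1 := ((hA 0).add (hA 1)).add (hA 2)
  have l2 := ((hA 0).add (hA 1)).add (hA 2).neg
  have l3 := ((hA 0).add (hA 1).neg).add (hA 2)
  have l4 := ((hA 0).add (hA 1).neg).add (hA 2).neg
  have iK := fun i j k => RLoc_int_K h hs (hA i) (hA j) (hA k)
  have e1 := RLoc_four (RLoc_int_K h hs l1 l1 l1) (RLoc_int_K h hs l2 l2 l2)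
    (RLoc_int_K h hs l3 l3 l3) (RLoc_int_K h hs l4 l4 l4)
    (g := fun x => 4 * (RLoc_K Φ s (A 0) (A 1) (A 2) + RLoc_K Φ s (A 0) (A 2) (A 1) +
      RLoc_K Φ s (A 1) (A 0) (A 2) + RLoc_K Φ s (A 1) (A 2) (A 0) +
      RLoc_K Φ s (A 2) (A 0) (A 1) + RLoc_K Φ s (A 2) (A 1) (A 0)) x)
    (fun x => by simp only [RLoc_K, Pi.add_apply]; ring)
  have j2 := (iK 0 1 2).add (iK 0 2 1)
  have j3 := j2.add (iK 1 0 2)
  have j4 := j3.add (iK 1 2 0)
  have j5 := j4.add (iK 2 0 1)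
  rw [integral_const_mul, integral_add' j5 (iK 2 1 0), integral_add' j4 (iK 2 0 1),
    integral_add' j3 (iK 1 2 0), integral_add' j2 (iK 1 0 2),
    integral_add' (iK 0 1 2) (iK 0 2 1)] at e1
  have s1 := RLoc_sw12 hsy s (A 0) (A 2) (A 1)
  have s2 := RLoc_sw01 hsy s (A 1) (A 0) (A 2)
  have s3 := RLoc_sw12 hsy s (A 1) (A 2) (A 0)
  have s4 := RLoc_sw01 hsy s (A 2) (A 0) (A 1)
  have s5 := RLoc_sw01 hsy s (A 2) (A 1) (A 0)
  have e2 := RLoc_four (RLoc_int_diag l1 l1 l1) (RLoc_int_diag l2 l2 l2)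
    (RLoc_int_diag l3 l3 l3) (RLoc_int_diag l4 l4 l4)
    (g := fun y => 24 * (A 0 y * A 1 y * A 2 y)) (fun y => by ring)
  rw [integral_const_mul] at e2
  have e3 := congrArg (fun t => relInt Φ / s ^ 6 * t) e2
  have k1 := abs_le.1 (key l1)
  have k2 := abs_le.1 (key l2)
  have k3 := abs_le.1 (key l3)
  have k4 := abs_le.1 (key l4)
  have hp : 0 ≤ M ^ 3 * c / s ^ 6 := by positivity
  have e4 : 300 * M ^ 3 * c / s ^ 6 = 300 * (M ^ 3 * c / s ^ 6) := by ring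
  simp only [Fin.prod_univ_three]
  change |(∫ x, RLoc_K Φ s (A 0) (A 1) (A 2) x) - _| ≤ _
  rw [e4, abs_le]
  constructor <;> linarith [k1.1, k1.2, k2.1, k2.2, k3.1, k3.2, k4.1, k4.2]

theorem RLoc_cs {X : Type} [MeasurableSpace X] {μ : Measure X} {w f g : X → ℝ}
    (hw : ∀ x, 0 ≤ w x) (hf : Integrable (fun x => w x * f x ^ 2) μ)
    (hg : Integrable (fun x => w x * g x ^ 2) μ) (hfg : Integrable (fun x => w x * (f x * g x)) μ) :
    (∫ x, w x * (f x * g x) ∂μ) ^ 2 ≤ (∫ x, w x * f x ^ 2 ∂μ) * ∫ x, w x * g x ^ 2 ∂μ := by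
  have h1 : ∀ t : ℝ, 0 ≤ (∫ x, w x * f x ^ 2 ∂μ) * (t * t) +
      2 * (∫ x, w x * (f x * g x) ∂μ) * t + ∫ x, w x * g x ^ 2 ∂μ := by
    intro t
    rw [← integral_mul_const, ← integral_const_mul, ← integral_mul_const,
      ← integral_add' (hf.mul_const _) ((hfg.const_mul _).mul_const _),
      ← integral_add' ((hf.mul_const _).add ((hfg.const_mul _).mul_const _)) hg]
    refine integral_nonneg fun x => ?_
    have h2 := mul_nonneg (hw x) (sq_nonneg (t * f x + g x))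
    simp only [Pi.add_apply, Pi.zero_apply]
    linarith
  have h2 := discrim_le_zero h1
  rw [discrim] at h2
  linarith

theorem two_pt_le (h : Nice0 Φ B) (hs : 0 < s) {T : (Fin (q + 1) → R3) → ℝ} {K : ℝ}
    (hT : ∀ x, |T x| ≤ K) {f g : R3 → ℝ} (hf : Measurable f) (hg : Measurable g)
    (hf2 : MemLp f 2 volume) (hg2 : MemLp g 2 volume) (a b : Fin (q + 1)) :
    (∫ x : Fin (q + 1) → R3, Φ (s • x) * T x * f (x a) * g (x b)) ^ 2 ≤
      (B * K / s ^ (3 * q)) ^ 2 * (∫ y, f y ^ 2) * ∫ y, g y ^ 2 := by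
  have hK : 0 ≤ K := (abs_nonneg _).trans (hT 0)
  have hB : 0 ≤ B := zero_le_one.trans h.one_le
  have n : Nice0 (fun x => |Φ x|) B := RLoc_nice_le h (continuous_abs.measurable.comp h.meas)
    (fun x a => congrArg abs (h.ti x a)) fun x => (abs_abs _).le
  have one : ∀ {u : R3 → ℝ}, Measurable u → MemLp u 2 volume → ∀ j : Fin (q + 1),
      Integrable (fun x : Fin (q + 1) → R3 => |Φ (s • x)| * |u (x j)| ^ 2) ∧
      ∫ x : Fin (q + 1) → R3, |Φ (s • x)| * |u (x j)| ^ 2 ≤ B / s ^ (3 * q) * ∫ y, u y ^ 2 := by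
    intro u hu hu2 j
    simp only [sq_abs]
    refine ⟨integrable_sc_single n hs j (hu.pow_const 2) hu2.integrable_sq, ?_⟩
    rw [integral_rel n hs j (hu.pow_const 2) hu2.integrable_sq]
    have h1 := (le_abs_self _).trans (relInt_le n)
    have h2 : 0 ≤ ∫ y, u y ^ 2 := integral_nonneg fun _ => sq_nonneg _
    gcongr
  obtain ⟨i1, b1⟩ := one hf hf2 a
  obtain ⟨i2, b2⟩ := one hg hg2 b
  have hΦ : Measurable fun x : Fin (q + 1) → R3 => Φ (s • x) := h.meas.comp (HMac_meas_smul s)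
  have i3 : Integrable fun x : Fin (q + 1) → R3 => |Φ (s • x)| * (|f (x a)| * |g (x b)|) := by
    have ma := continuous_abs.measurable (α := ℝ)
    refine (i1.add i2).mono' ((ma.comp hΦ).mul ((ma.comp (hf.comp (measurable_pi_apply a))).mul
      (ma.comp (hg.comp (measurable_pi_apply b))))).aestronglyMeasurable
      (Eventually.of_forall fun x => ?_)
    rw [Real.norm_of_nonneg (by positivity), Pi.add_apply, ← mul_add]
    refine mul_le_mul_of_nonneg_left ?_ (abs_nonneg _)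
    nlinarith [sq_nonneg (|f (x a)| - |g (x b)|), mul_nonneg (abs_nonneg (f (x a)))
      (abs_nonneg (g (x b)))]
  have h1 := RLoc_cs (fun x => abs_nonneg (Φ (s • x))) i1 i2 i3
  have h2 : ‖∫ x : Fin (q + 1) → R3, Φ (s • x) * T x * f (x a) * g (x b)‖ ≤
      K * ∫ x : Fin (q + 1) → R3, |Φ (s • x)| * (|f (x a)| * |g (x b)|) := by
    rw [← integral_const_mul]
    refine norm_integral_le_of_norm_le (i3.const_mul K) (Eventually.of_forall fun x => ?_)
    rw [Real.norm_eq_abs, abs_mul, abs_mul, abs_mul]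
    calc _ = |T x| * (|Φ (s • x)| * (|f (x a)| * |g (x b)|)) := by ring
      _ ≤ _ := mul_le_mul_of_nonneg_right (hT x) (by positivity)
  have p2 : 0 ≤ ∫ x : Fin (q + 1) → R3, |Φ (s • x)| * |g (x b)| ^ 2 :=
    integral_nonneg fun x => by positivity
  have p3 : 0 ≤ ∫ y, f y ^ 2 := integral_nonneg fun _ => sq_nonneg _
  calc _ ≤ (K * ∫ x : Fin (q + 1) → R3, |Φ (s • x)| * (|f (x a)| * |g (x b)|)) ^ 2 :=
        RLoc_sq (M := _) h2
    _ ≤ K ^ 2 * ((B / s ^ (3 * q) * ∫ y, f y ^ 2) * (B / s ^ (3 * q) * ∫ y, g y ^ 2)) := by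
        rw [mul_pow]
        exact mul_le_mul_of_nonneg_left (h1.trans (mul_le_mul b1 b2 p2 (by positivity)))
          (sq_nonneg K)
    _ = _ := by ring

end Pool.Agent.Lib.MP_8fe63c_mp
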