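import Pool.Agent.Lib.MP_8fe63c_mp.BBx
import Pool.Agent.Lib.MP_8fe63c_mp.RLoc

/-!
Elementary properties of the box data.

Sketch. `θ` and its gradient vanish outside `tsupport θ`, and `tsupport θ ⊆ cube c l` because `θ' = 1` there
(`subset_tsupport`), so integrals of `θ^2`, `‖∇θ‖^2` are at most `l^3 ≤ 1`, `(κ/l)^2 l^3`. `(√(l^3))⁻¹^2 = 1/l^3`
and `(√(l^3))⁻¹ ≤ 1/l^2`. `integral_muP_eq`: `muP Ω κ = volume.restrict (univ.pi fun _ => Ω)`
(`Measure.restrict_pi_pi`), `setIntegral_eq_integral_of_forall_compl_eq_zero`. `F3_eq`, `y3_sq`: `sqU_inner`,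
`sqU_norm_sq` (the function `(1 - ω (s • x)) * Φ x` is bounded and measurable, the measure is finite), then
`integral_muP_eq`; where `Φ x ≠ 0` all `θ' (x j) = 1`. `F3_symm`: `coef_perm`, `Micro.symm_F3`.
`src_src`: `src_tens` with `M = (√(l^3))⁻¹`, `ϱ = l^3`.
-/

set_option linter.unusedSectionVars false

open MeasureTheory Set Filter Topology
open scoped ENNReal InnerProductSpace

namespace Pool.Agent.Lib.MP_8fe63c_mp

variable {ι : Type} [Fintype ι] [DecidableEq ι]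

theorem integral_muP_eq {Ω : Set R3} (hΩ : MeasurableSet Ω) {f : (ι → R3) → ℝ}
    (h : ∀ x, f x ≠ 0 → ∀ j, x j ∈ Ω) : ∫ x, f x ∂muP Ω ι = ∫ x, f x := by
  have e : muP Ω ι = (volume : Measure (ι → R3)).restrict (univ.pi fun _ => Ω) :=
    (Measure.restrict_pi_pi (fun _ : ι => (volume : Measure R3)) fun _ => Ω).symm
  rw [e]
  refine setIntegral_eq_integral_of_forall_compl_eq_zero fun x hx => ?_
  by_contra h0
  exact hx (mem_univ_pi.2 (h x h0))

theorem BId_sq {l : ℝ} (hl : 0 < l) : (√(l ^ 3))⁻¹ ^ 2 = 1 / l ^ 3 := by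
  rw [inv_pow, Real.sq_sqrt (by positivity), one_div]

theorem BId_inv_le {l : ℝ} (hl : 0 < l) (hl1 : l ≤ 1) : (√(l ^ 3))⁻¹ ≤ 1 / l ^ 2 := by
  rw [one_div]
  refine inv_anti₀ (by positivity) (Real.le_sqrt_of_sq_le ?_)
  rw [← pow_mul]
  exact pow_le_pow_of_le_one hl.le hl1 (by norm_num)

theorem BId_lint {c : R3} {l A : ℝ} (hl : 0 < l) (hA : 0 ≤ A) {f : R3 → ℝ} (h : ∀ y, f y ≤ A)
    (h0 : ∀ y, y ∉ cube c l → f y = 0) :
    ∫⁻ y, ENNReal.ofReal (f y) ≤ ENNReal.ofReal (A * l ^ 3) := by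
  rw [ENNReal.ofReal_mul hA, ← volume_cube c hl.le, ← lintegral_indicator_const (OBox_meas c l)]
  refine lintegral_mono fun y => ?_
  by_cases hy : y ∈ cube c l
  · rw [indicator_of_mem hy]
    exact ENNReal.ofReal_le_ofReal (h y)
  · rw [h0 y hy, ENNReal.ofReal_zero]
    exact bot_le

theorem BId_int {c : R3} {l A : ℝ} (hl : 0 < l) {f : R3 → ℝ} (h : ∀ y, 0 ≤ f y ∧ f y ≤ A)
    (h0 : ∀ y, y ∉ cube c l → f y = 0) : ∫ y, f y ≤ A * l ^ 3 := by
  have hi : Integrable ((cube c l).indicator fun _ => A) :=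
    (integrableOn_const (by rw [volume_cube c hl.le]; exact ENNReal.ofReal_ne_top)
      ).integrable_indicator (OBox_meas c l)
  rw [mul_comm, ← OBox_vol c hl.le, ← integral_indicator (OBox_meas c l)]
  refine integral_mono_of_nonneg (Eventually.of_forall fun y => (h y).1) hi
    (Eventually.of_forall fun y => ?_)
  by_cases hy : y ∈ cube c l
  · simp only [indicator_of_mem hy]
    exact (h y).2
  · simp only [indicator_of_notMem hy]
    exact (h0 y hy).le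

theorem BId_grad_zero {f : R3 → ℝ} {x : R3} (hx : x ∉ tsupport f) : gradient f x = 0 := by
  rw [(notMem_tsupport_iff_eventuallyEq.1 hx).gradient_eq]
  exact gradient_fun_const x 0

theorem BId_qf (u : R3 → ℝ) (G : R3 → R3) :
    qf univ (fun _ => 0) u G u G = ∫ x, ‖G x‖ ^ 2 := by
  simp only [qf, Measure.restrict_univ, zero_mul, add_zero, real_inner_self_eq_norm_sq]

namespace Bx

variable {c : R3} {l κ η : ℝ} (X : Bx c l κ η) {U : (Fin 3 → R3) → ℝ} {s M K : ℝ}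

include X in
theorem Λ_ge : 1 ≤ 1 / (12 * l ^ 2) := by
  have h1 := X.l_pos
  have h2 := X.l_le
  rw [le_div_iff₀ (by positivity)]
  nlinarith

theorem ν_nonneg (a : X.B.J) : 0 ≤ X.B.ν a := X.B.ν_nonneg pot_zero a

theorem supp_θ : tsupport X.θ ⊆ cube c l := fun x hx =>
  X.cut.supp (subset_tsupport _ (by rw [Function.mem_support, (X.cut.one x hx).1]; norm_num))

theorem cc1_u : Cc1 X.u := ⟨contDiff_const.mul X.cut.cθ.1, X.cut.cθ.2.mul_left⟩

theorem u_bounds (x : R3) : 0 ≤ X.u x ∧ X.u x ≤ (√(l ^ 3))⁻¹ :=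
  ⟨mul_nonneg (by positivity) (X.cut.r x).1, mul_le_of_le_one_right (by positivity) (X.cut.r x).2⟩

theorem BId_grad_u (x : R3) : gradient X.u x = (√(l ^ 3))⁻¹ • gradient X.θ x := by
  have h := gradient_mul' (f := fun _ => (√(l ^ 3))⁻¹) (g := X.θ) (x := x)
    (differentiableAt_const _) (X.cut.cθ.1.differentiable one_ne_zero _)
  rw [gradient_fun_const, smul_zero, add_zero] at h
  exact h

theorem u_zero (x : R3) (hx : x ∉ tsupport X.θ) : X.u x = 0 ∧ gradient X.u x = 0 :=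
  ⟨by rw [u, image_eq_zero_of_notMem_tsupport hx, mul_zero],
    by rw [X.BId_grad_u, BId_grad_zero hx, smul_zero]⟩

theorem BId_u_sq (y : R3) : X.u y ^ 2 ≤ 1 / l ^ 3 := by
  rw [← BId_sq X.l_pos]
  exact pow_le_pow_left₀ (X.u_bounds y).1 (X.u_bounds y).2 2

theorem u_l2 : ∫⁻ y, ENNReal.ofReal (X.u y ^ 2) ≤ 1 := by
  have hl := X.l_pos
  have h := BId_lint (c := c) hl (by positivity) X.BId_u_sq fun y hy => by
    rw [(X.u_zero y fun h => hy (X.supp_θ h)).1, zero_pow two_ne_zero]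
  rwa [one_div_mul_cancel (by positivity), ENNReal.ofReal_one] at h

theorem bf_u : BF (fun _ => 0) X.u (gradient X.u) (κ / l ^ 2) := by
  have hl := X.l_pos
  have hl1 : l ≤ 1 := X.l_le.trans (by norm_num)
  have hκ := X.κ_ge
  have h1 : 1 / l ^ 2 ≤ κ / l ^ 2 := div_le_div_of_nonneg_right hκ (by positivity)
  have h2 : κ / l ≤ κ / l ^ 2 :=
    div_le_div_of_nonneg_left (by linarith) (by positivity) (by nlinarith)
  have h3 : 1 ≤ κ / l := (one_le_div hl).2 (hl1.trans hκ)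
  refine ⟨X.cc1_u.inF, fun x => ?_, ?_, ?_⟩
  · rw [abs_of_nonneg (X.u_bounds x).1]
    exact (X.u_bounds x).2.trans ((BId_inv_le hl hl1).trans h1)
  · have h := BId_int (c := c) hl (fun y => ⟨sq_nonneg _, X.BId_u_sq y⟩) fun y hy => by
      rw [(X.u_zero y fun h => hy (X.supp_θ h)).1, zero_pow two_ne_zero]
    rw [one_div_mul_cancel (by positivity)] at h
    exact h.trans (one_le_pow₀ (h3.trans h2))
  · rw [BId_qf]
    have h := BId_int (c := c) (A := 1 / l ^ 3 * (κ / l) ^ 2) hl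
      (f := fun y => ‖gradient X.u y‖ ^ 2) (fun y => ⟨sq_nonneg _, by
        rw [X.BId_grad_u, norm_smul, mul_pow, Real.norm_eq_abs, sq_abs, BId_sq hl]
        exact mul_le_mul_of_nonneg_left (pow_le_pow_left₀ (norm_nonneg _) (X.cut.gr y) 2)
          (by positivity)⟩) fun y hy => by
      rw [(X.u_zero y fun h => hy (X.supp_θ h)).2, norm_zero, zero_pow two_ne_zero]
    rw [mul_right_comm, one_div_mul_cancel (by positivity), one_mul] at h
    exact h.trans (pow_le_pow_left₀ (by positivity) h2 2)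

theorem bf_θ : BF (fun _ => 0) X.θ (gradient X.θ) κ := by
  have hl := X.l_pos
  have hl1 : l ≤ 1 := X.l_le.trans (by norm_num)
  have hκ := X.κ_ge
  refine ⟨X.cut.cθ.inF, fun x => ?_, ?_, ?_⟩
  · rw [abs_of_nonneg (X.cut.r x).1]
    exact (X.cut.r x).2.trans hκ
  · have h := BId_int (c := c) (A := 1) hl (f := fun y => X.θ y ^ 2)
      (fun y => ⟨sq_nonneg _, pow_le_one₀ (X.cut.r y).1 (X.cut.r y).2⟩) fun y hy => by
      rw [image_eq_zero_of_notMem_tsupport fun h => hy (X.supp_θ h), zero_pow two_ne_zero]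
    rw [one_mul] at h
    exact h.trans ((pow_le_one₀ hl.le hl1).trans (one_le_pow₀ hκ))
  · rw [BId_qf]
    have h := BId_int (c := c) (A := (κ / l) ^ 2) hl (f := fun y => ‖gradient X.θ y‖ ^ 2)
      (fun y => ⟨sq_nonneg _, pow_le_pow_left₀ (norm_nonneg _) (X.cut.gr y) 2⟩) fun y hy => by
      rw [BId_grad_zero fun h => hy (X.supp_θ h), norm_zero, zero_pow two_ne_zero]
    rw [show (κ / l) ^ 2 * l ^ 3 = κ ^ 2 * l by field_simp] at h
    exact h.trans (mul_le_of_le_one_right (sq_nonneg _) hl1)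

theorem lv_hi (hM : 0 ≤ M) {fr : EFrame (X.B.I M) (fun _ => 0) (tsupport X.θ)} (h : X.IsFr fr)
    (a : X.B.I M) (ha : a ∉ (X.lv hM).low) :
    1 / (12 * l ^ 2) ≤ (X.lv hM).lam a ∧ fr.lt a ≤ (2 + 24 * κ ^ 2) * (X.lv hM).lam a := by
  have hl := X.l_pos
  have h1 : 1 / (12 * l ^ 2) ≤ X.B.ν a.1 :=
    X.gap a.1 fun e => ha (Finset.mem_singleton.2 (Subtype.ext e))
  refine ⟨h1, ?_⟩
  rw [h.lt_eq]
  change _ ≤ (2 + 24 * κ ^ 2) * X.B.ν a.1
  have h2 := mul_le_mul_of_nonneg_left h1 (show 0 ≤ 24 * κ ^ 2 by positivity)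
  have h3 : 24 * κ ^ 2 * (1 / (12 * l ^ 2)) = 2 * (κ / l) ^ 2 := by
    field_simp
    ring
  linarith

theorem fr_o (hM : 0 ≤ M) {fr : EFrame (X.B.I M) (fun _ => 0) (tsupport X.θ)} (h : X.IsFr fr)
    (y : R3) : |fr.e (X.oM hM) y| ≤ (√(l ^ 3))⁻¹ := by
  rw [h.e_eq]
  change |X.θ' y * X.B.e X.o y| ≤ _
  rw [X.e_o, abs_of_nonneg (mul_nonneg (X.cut.r' y).1 (by positivity))]
  exact mul_le_of_le_one_left (by positivity) (X.cut.r' y).2

theorem BId_supp {x : Fin 3 → R3} (hx : X.Φ x ≠ 0) (j : Fin 3) : x j ∈ tsupport X.θ := by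
  by_contra h
  exact hx (Finset.prod_eq_zero (f := fun i => X.u (x i)) (Finset.mem_univ j) (X.u_zero _ h).1)

theorem BId_memLp (S : Micro U) (s : ℝ) :
    MemLp (fun x => (1 - S.ω (s • x)) * X.Φ x) 2 (muP (cube c l) (Fin 3)) := by
  have h : MemLp X.Φ 2 (muP (cube c l) (Fin 3)) := memLp_tens fun _ => X.cc1_u.OBas_u
  refine h.of_le_mul (c := 1 + S.K) (((S.ω_meas.comp (HMac_meas_smul s)).const_sub
    1).aestronglyMeasurable.mul h.1) (Eventually.of_forall fun x => ?_)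
  rw [norm_mul]
  refine mul_le_mul_of_nonneg_right ((norm_sub_le _ _).trans ?_) (norm_nonneg _)
  rw [norm_one]
  exact add_le_add le_rfl (S.ω_bdd _)

theorem BId_F3 (S : Micro U) (hM : 0 ≤ M) (w : X.B.I M → X.B.I M → ℝ) (α β : Fin 3 → X.B.I M) :
    (X.dat U S.ω s hM w).F3 α β = coef (X.B.eM M) (X.src U S.ω s) α := by
  change ⟪sqU _ _ _, sqU _ _ _⟫_ℝ = _
  rw [sqU_inner (wt3_sc S.pot (sq_nonneg s) s) (memLp_prodE (X.B.on pot_zero M).l2 α)
    (X.BId_memLp S s), integral_muP_eq (OBox_meas c l) fun x hx j => X.supp_θ (X.BId_supp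
      (right_ne_zero_of_mul (right_ne_zero_of_mul hx)) j), coef]
  refine integral_congr_ae (Eventually.of_forall fun x => ?_)
  simp only [src, sc, F3o]
  ring

theorem BId_Φ_sq (x : Fin 3 → R3) : X.Φ x * X.Φ x = 1 / l ^ 9 * ∏ j, X.θ (x j) ^ 2 := by
  have h := BId_sq X.l_pos
  have e : 1 / l ^ 9 = ((√(l ^ 3))⁻¹ ^ 2) ^ 3 := by rw [h, div_pow, one_pow, ← pow_mul]
  rw [e]
  simp only [Φ, tens, u, Fin.prod_univ_three]
  ring

theorem F3_eq (S : Micro U) (hM : 0 ≤ M) (w : X.B.I M → X.B.I M → ℝ)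
    {fr : EFrame (X.B.I M) (fun _ => 0) (tsupport X.θ)} (h : X.IsFr fr) (α β : Fin 3 → X.B.I M) :
    (X.dat U S.ω s hM w).F3 α β = coef fr.e (X.src U S.ω s) α := by
  rw [X.BId_F3]
  refine integral_congr_ae (Eventually.of_forall fun x => ?_)
  by_cases hx : X.Φ x = 0
  · simp only [src, hx, mul_zero, zero_mul]
  · simp only [prodE, h.e_eq, fun j => (X.cut.one _ (X.BId_supp hx j)).1, one_mul, EB.eM]

theorem F3_symm (S : Micro U) (hM : 0 ≤ M) (w : X.B.I M → X.B.I M → ℝ) (π : Equiv.Perm (Fin 3))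
    (α β : Fin 3 → X.B.I M) :
    (X.dat U S.ω s hM w).F3 (α ∘ π) (β ∘ π) = (X.dat U S.ω s hM w).F3 α β := by
  rw [X.BId_F3, X.BId_F3, coef_perm]
  congr 1
  funext x
  have h1 : F3o U S.ω (s • (x ∘ π)) = F3o U S.ω (s • x) := S.symm_F3 π (s • x)
  have h2 : X.Φ (x ∘ π) = X.Φ x := Equiv.prod_comp π fun j => X.u (x j)
  simp only [src, sc, h1, h2]

theorem F3_oo (S : Micro U) (hM : 0 ≤ M) (w : X.B.I M → X.B.I M → ℝ) :
    (X.dat U S.ω s hM w).F3 ((X.dat U S.ω s hM w).oo 3) ((X.dat U S.ω s hM w).oo 3) =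
      s ^ 2 / l ^ 9 * ∫ x : Fin 3 → R3, F3o U S.ω (s • x) * ∏ j, X.θ (x j) := by
  have h := BId_sq X.l_pos
  have e : s ^ 2 / l ^ 9 = s ^ 2 * ((√(l ^ 3))⁻¹ ^ 2) ^ 3 := by
    rw [h, div_pow, one_pow, ← pow_mul, mul_one_div]
  rw [X.BId_F3, coef, ← integral_const_mul, e]
  refine integral_congr_ae (Eventually.of_forall fun x => ?_)
  have h1 : prodE (X.B.eM M) ((X.dat U S.ω s hM w).oo 3) x = ∏ _j : Fin 3, (√(l ^ 3))⁻¹ :=
    Finset.prod_congr rfl fun j _ => X.e_o (x j)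
  simp only [h1, src, sc, Φ, tens, u, Fin.prod_univ_three]
  ring

theorem y3_sq (S : Micro U) (hM : 0 ≤ M) (w : X.B.I M → X.B.I M → ℝ) (β : Fin 3 → X.B.I M) :
    ‖(X.dat U S.ω s hM w).y3 β‖ ^ 2 =
      s ^ 2 / l ^ 9 * ∫ x : Fin 3 → R3, F3o U S.ω (s • x) * (1 - S.ω (s • x)) *
        ∏ j, X.θ (x j) ^ 2 := by
  change ‖sqU _ _ _‖ ^ 2 = _
  rw [sqU_norm_sq (wt3_sc S.pot (sq_nonneg s) s) (X.BId_memLp S s),
    integral_muP_eq (OBox_meas c l) fun x hx j => X.supp_θ (X.BId_supp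
      (right_ne_zero_of_mul (pow_ne_zero_iff two_ne_zero |>.1 (right_ne_zero_of_mul hx))) j),
    ← integral_const_mul]
  refine integral_congr_ae (Eventually.of_forall fun x => ?_)
  simp only [mul_pow, sc, F3o]
  rw [sq (X.Φ x), X.BId_Φ_sq]
  ring

theorem Φ_sq (x : Fin 3 → R3) : X.Φ x * X.Φ x = 1 / l ^ 9 * ∏ j, X.θ (x j) ^ 2 :=
  X.BId_Φ_sq x

theorem src_src {S : Micro U} (hK : MicroB S K) (hs : 0 < s) :
    ∃ Ψ, Src s (X.src U S.ω s) Ψ ((√(l ^ 3))⁻¹ ^ 3 * (s ^ 2 * K)) (l ^ 3) := by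
  have hl := X.l_pos
  refine ⟨_, src_tens (q := 2) (u := fun _ => X.u) hK.n3.meas hK.m3
    (zero_le_one.trans hK.n3.one_le) (sq_nonneg s) hs (fun _ => X.cc1_u.1.continuous.measurable)
    (by positivity) (fun _ y => ?_) (by positivity) ?_⟩
  · rw [abs_of_nonneg (X.u_bounds y).1]
    exact (X.u_bounds y).2
  · rw [BId_sq hl, one_div_mul_cancel (by positivity), ENNReal.ofReal_one]
    exact X.u_l2

/-- crude bound for integrals against the product of the cutoffs -/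
theorem int_le {G : (Fin 3 → R3) → ℝ} {B : ℝ} (hG : Nice0 G B) (hs : 0 < s)
    {T : (Fin 3 → R3) → ℝ} (hT : Measurable T) {k : ℝ} (hk : ∀ x, |T x| ≤ k) {n : ℕ} (hn : 1 ≤ n) :
    Integrable (fun x : Fin 3 → R3 => G (s • x) * T x * ∏ j, X.θ (x j) ^ n) ∧
      |∫ x : Fin 3 → R3, G (s • x) * T x * ∏ j, X.θ (x j) ^ n| ≤ B * k * l ^ 3 / s ^ 6 := by
  have hl := X.l_pos
  have hk0 : 0 ≤ k := (abs_nonneg _).trans (hk 0)
  have hB0 : 0 ≤ B := zero_le_one.trans hG.one_le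
  have hθ : Measurable X.θ := X.cut.cθ.1.continuous.measurable
  have hm : Measurable fun x : Fin 3 → R3 => G (s • x) * T x * ∏ j, X.θ (x j) ^ n :=
    ((hG.meas.comp (HMac_meas_smul s)).mul hT).mul
      (Finset.measurable_prod _ fun j _ => (hθ.comp (measurable_pi_apply j)).pow_const n)
  have hE : Measurable (eabs G) := hG.meas.abs.ennreal_ofReal
  have h1 : MargLe (Finset.univ.erase (0 : Fin 3))
      (fun y => ENNReal.ofReal k * eabs G (s • y)) (k / s ^ 6 * B) :=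
    HMac_margLe hE hk0 hs (hG.mg _ (by simp)) (fun _ => le_rfl) le_rfl
  have h2 := lintegral_mul_single_le ((hE.comp (HMac_meas_smul s)).const_mul _) 0 h1
    (a := fun y => ENNReal.ofReal (X.θ y)) hθ.ennreal_ofReal
  have h3 := BId_lint (c := c) hl zero_le_one (fun y => (X.cut.r y).2) fun y hy =>
    image_eq_zero_of_notMem_tsupport fun h => hy (X.supp_θ h)
  have h4 : ∫⁻ x : Fin 3 → R3, ENNReal.ofReal ‖G (s • x) * T x * ∏ j, X.θ (x j) ^ n‖ ≤
      ENNReal.ofReal (B * k * l ^ 3 / s ^ 6) := by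
    refine le_trans (lintegral_mono fun x => ?_) (h2.trans ((mul_le_mul' le_rfl h3).trans ?_))
    · have h5 : ∀ j, 0 ≤ X.θ (x j) ^ n := fun j => pow_nonneg (X.cut.r _).1 n
      have h6 : ∀ j, X.θ (x j) ^ n ≤ 1 := fun j => pow_le_one₀ (X.cut.r _).1 (X.cut.r _).2
      have h7 : ∏ j, X.θ (x j) ^ n ≤ X.θ (x 0) := by
        rw [Fin.prod_univ_three, mul_assoc]
        exact (mul_le_of_le_one_right (h5 0) (mul_le_one₀ (h6 1) (h5 2) (h6 2))).trans
          (pow_le_of_le_one (X.cut.r _).1 (X.cut.r _).2 (by omega))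
      simp only [Function.comp_apply, eabs]
      rw [← ENNReal.ofReal_mul hk0, ← ENNReal.ofReal_mul (by positivity), Real.norm_eq_abs,
        abs_mul, abs_mul, abs_of_nonneg (Finset.prod_nonneg fun j _ => h5 j), mul_comm k]
      exact ENNReal.ofReal_le_ofReal (mul_le_mul (mul_le_mul_of_nonneg_left (hk x) (abs_nonneg _))
        h7 (Finset.prod_nonneg fun j _ => h5 j) (by positivity))
    · rw [← ENNReal.ofReal_mul (by positivity)]
      exact le_of_eq (by congr 1; ring)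
  refine ⟨⟨hm.aestronglyMeasurable, ?_⟩, ?_⟩
  · rw [hasFiniteIntegral_iff_norm]
    exact h4.trans_lt ENNReal.ofReal_lt_top
  · exact (norm_integral_le_lintegral_norm _).trans
      (ENNReal.toReal_le_of_le_ofReal (by positivity) h4)

end Bx

end Pool.Agent.Lib.MP_8fe63c_mp
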