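import Pool.Agent.Lib.MP_8fe63c_mp.BDefs

/-!
The jump kernel and the mollifier.

Sketch. `exists_moll`: for `r = 1` take `ρ₁ h = A * expNegInvGlue (1 - ‖h‖^2)` with `A` such that `∫ ρ₁ = 1`
and `J₁ h = 2 * A * deriv expNegInvGlue (1 - ‖h‖^2)`; by
`expNegInvGlue.hasDerivAt_polynomial_eval_inv_mul` with `p = 1` the derivative is
`x⁻¹^2 * expNegInvGlue x ≥ expNegInvGlue x` for `x ≤ 1`. Put `c₀ = ∫ J₁`, `ρ h = r⁻¹^3 * ρ₁ (r⁻¹ • h)`,
`J h = r⁻¹^5 * J₁ (r⁻¹ • h)` (`Measure.integral_comp_smul`). `iso`: `fderiv ρ h e = - J h * ⟪h, e⟫`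
(`inner_gradient_eq`), integrate by parts `∫ ⟪h, e⟫ * fderiv ρ h e = - ∫ ‖e‖^2 * ρ h`
(`integral_mul_fderiv_eq_neg_fderiv_mul_of_integrable`). `mean_zero`: the integrand is odd
(`integral_neg_eq_self`). `lint_mom2`: `‖x‖^2 = ∑ k, ⟪x, uv k⟫^2`.
-/

set_option linter.unusedSectionVars false

open MeasureTheory Set Filter Topology
open scoped ENNReal InnerProductSpace

namespace Pool.Agent.Lib.MP_8fe63c_mp

variable {ι : Type} [Fintype ι] [DecidableEq ι]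

variable {r c₀ : ℝ} {J ρ : R3 → ℝ}

theorem BMoll_profile : ∃ g g' : ℝ → ℝ, (∀ t, HasDerivAt g (g' t) t) ∧ ContDiff ℝ 1 g ∧
    Continuous g' ∧ (∀ t, 0 ≤ g t) ∧ (∀ t, 0 ≤ g' t) ∧ (∀ t, t ≤ 1 → g t ≤ g' t) ∧
    (∀ t, t ≤ 0 → g' t = 0) ∧ g 1 ≠ 0 := by
  have hd : ∀ t, HasDerivAt expNegInvGlue (t⁻¹ ^ 2 * expNegInvGlue t) t := fun t => by
    simpa using expNegInvGlue.hasDerivAt_polynomial_eval_inv_mul 1 t
  have hc : ContDiff ℝ 1 expNegInvGlue := expNegInvGlue.contDiff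
  refine ⟨expNegInvGlue, fun t => t⁻¹ ^ 2 * expNegInvGlue t, hd, hc, ?_, expNegInvGlue.nonneg,
    fun t => mul_nonneg (sq_nonneg _) (expNegInvGlue.nonneg t), fun t ht => ?_, fun t ht => ?_,
    (expNegInvGlue.pos_of_pos one_pos).ne'⟩
  · have e : (fun t => t⁻¹ ^ 2 * expNegInvGlue t) = deriv expNegInvGlue :=
      funext fun t => (hd t).deriv.symm
    rw [e]
    exact hc.continuous_deriv_one
  · rcases le_or_gt t 0 with h0 | h0
    · simp only [expNegInvGlue.zero_of_nonpos h0, mul_zero, le_refl]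
    · exact le_mul_of_one_le_left (expNegInvGlue.nonneg t)
        (one_le_pow₀ ((one_le_inv₀ h0).2 ht))
  · simp only [expNegInvGlue.zero_of_nonpos ht, mul_zero]

theorem BMoll_cs {f : R3 → ℝ} {R : ℝ} (h : ∀ x, f x ≠ 0 → ‖x‖ ≤ R) : HasCompactSupport f :=
  HasCompactSupport.intro (isCompact_closedBall (0 : R3) R) fun x hx => by
    by_contra h0
    exact hx (mem_closedBall_zero_iff.2 (h x h0))

theorem BMoll_scale (f : ℝ → ℝ) (hr : 0 < r) :
    ∫ x : R3, f (1 - r⁻¹ ^ 2 * ‖x‖ ^ 2) = r ^ 3 * ∫ x : R3, f (1 - ‖x‖ ^ 2) := by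
  have h := Measure.integral_comp_inv_smul_of_nonneg (volume : Measure R3)
    (fun x : R3 => f (1 - ‖x‖ ^ 2)) hr.le
  rw [finrank_euclideanSpace_fin, smul_eq_mul] at h
  rw [← h]
  refine integral_congr_ae (Eventually.of_forall fun x => ?_)
  simp only [norm_smul, mul_pow, Real.norm_eq_abs, sq_abs]

theorem exists_moll : ∃ c₀ : ℝ, 0 ≤ c₀ ∧ ∀ r : ℝ, 0 < r → ∃ J ρ, Moll r c₀ J ρ := by
  obtain ⟨g, g', hd, hc, hc', g0, g0', hle, hz, h1⟩ := BMoll_profile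
  have hz0 : ∀ t, t ≤ 0 → g t = 0 := fun t ht =>
    le_antisymm ((hle t (ht.trans zero_le_one)).trans (hz t ht).le) (g0 t)
  have hsup : ∀ r : ℝ, 0 < r → ∀ x : R3, ¬ ‖x‖ ≤ r → 1 - r⁻¹ ^ 2 * ‖x‖ ^ 2 ≤ 0 := by
    intro r hr x hx
    have h2 : 1 ≤ r⁻¹ * ‖x‖ := by
      rw [← div_eq_inv_mul, one_le_div hr]
      exact (not_le.1 hx).le
    have h3 : 1 ≤ (r⁻¹ * ‖x‖) ^ 2 := one_le_pow₀ h2
    rw [mul_pow] at h3
    linarith
  obtain ⟨A, hA⟩ : ∃ A, A = ∫ x : R3, g (1 - ‖x‖ ^ 2) := ⟨_, rfl⟩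
  obtain ⟨B, hB⟩ : ∃ B, B = ∫ x : R3, g' (1 - ‖x‖ ^ 2) := ⟨_, rfl⟩
  have hA0 : 0 < A := by
    rw [hA]
    refine Continuous.integral_pos_of_hasCompactSupport_nonneg_nonzero (x := 0)
      (hc.continuous.comp (by fun_prop)) (BMoll_cs (R := 1) fun x hx => ?_) (fun x => g0 _)
      (by simpa using h1)
    by_contra h0
    exact hx (hz0 _ (by simpa using hsup 1 one_pos x h0))
  have hB0 : 0 ≤ B := hB ▸ integral_nonneg fun x => g0' _
  refine ⟨2 * B / A, by positivity, fun r hr =>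
    ⟨fun x => 2 * (A⁻¹ * r⁻¹ ^ 5) * g' (1 - r⁻¹ ^ 2 * ‖x‖ ^ 2),
      fun x => A⁻¹ * r⁻¹ ^ 3 * g (1 - r⁻¹ ^ 2 * ‖x‖ ^ 2), hr,
      continuous_const.mul (hc'.comp (by fun_prop)),
      fun x => mul_nonneg (by positivity) (g0' _), fun x => by simp only [norm_neg],
      fun x hx => ?_, ?_, ⟨?_, BMoll_cs (R := r) fun x hx => ?_⟩,
      fun x => mul_nonneg (by positivity) (g0 _), fun x => ?_, ?_, fun x => ?_⟩⟩
  · by_contra h0
    exact hx (by simp only [hz _ (hsup r hr x h0), mul_zero])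
  · rw [integral_const_mul, BMoll_scale g' hr, ← hB]
    refine le_of_eq ?_
    field_simp
  · exact contDiff_const.mul (hc.comp (contDiff_const.sub
      (contDiff_const.mul (contDiff_norm_sq ℝ))))
  · by_contra h0
    exact hx (by simp only [hz0 _ (hsup r hr x h0), mul_zero])
  · have h2 := hle (1 - r⁻¹ ^ 2 * ‖x‖ ^ 2) (sub_le_self _ (by positivity))
    have h3 := g0' (1 - r⁻¹ ^ 2 * ‖x‖ ^ 2)
    have e : r ^ 2 * (2 * (A⁻¹ * r⁻¹ ^ 5) * g' (1 - r⁻¹ ^ 2 * ‖x‖ ^ 2)) =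
        A⁻¹ * r⁻¹ ^ 3 * (2 * g' (1 - r⁻¹ ^ 2 * ‖x‖ ^ 2)) := by
      field_simp
    rw [e]
    exact mul_le_mul_of_nonneg_left (by linarith) (by positivity)
  · rw [integral_const_mul, BMoll_scale g hr, ← hA]
    field_simp
  · have h2 := (((hasStrictFDerivAt_norm_sq x).hasFDerivAt.const_mul (r⁻¹ ^ 2)).const_sub 1)
    have h3 := ((hd _).comp_hasFDerivAt x h2).const_mul (A⁻¹ * r⁻¹ ^ 3)
    refine ext_inner_right ℝ fun y => ?_
    rw [inner_gradient_eq]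
    refine (DFunLike.congr_fun h3.fderiv y).trans ?_
    rw [real_inner_smul_left]
    simp
    ring

theorem Moll.J_cs (h : Moll r c₀ J ρ) : HasCompactSupport J := BMoll_cs h.J_supp

theorem Moll.mJ (h : Moll r c₀ J ρ) : Measurable J := h.cJ.measurable

theorem Moll.ρ_supp (h : Moll r c₀ J ρ) (x : R3) (hx : ρ x ≠ 0) : ‖x‖ ≤ r := by
  refine h.J_supp x fun h0 => hx (le_antisymm ?_ (h.ρ_nonneg x))
  have h1 := h.ρ_le x
  rwa [h0, mul_zero] at h1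

theorem Moll.J_integrable (h : Moll r c₀ J ρ) : Integrable J :=
  h.cJ.integrable_of_hasCompactSupport h.J_cs

theorem Moll.J_bdd (h : Moll r c₀ J ρ) : ∃ M : ℝ, 0 ≤ M ∧ ∀ x, J x ≤ M := by
  obtain ⟨M, hM⟩ := h.J_cs.exists_bound_of_continuous h.cJ
  exact ⟨M, (norm_nonneg _).trans (hM 0), fun x => (le_abs_self _).trans (hM x)⟩

theorem Moll.c_nonneg (h : Moll r c₀ J ρ) : 0 ≤ c₀ / r ^ 2 :=
  (integral_nonneg h.J_nonneg).trans h.J_int

theorem Moll.lint_J (h : Moll r c₀ J ρ) :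
    ∫⁻ x, ENNReal.ofReal (J x) ≤ ENNReal.ofReal (c₀ / r ^ 2) := by
  rw [← ofReal_integral_eq_lintegral_ofReal h.J_integrable (Eventually.of_forall h.J_nonneg)]
  exact ENNReal.ofReal_le_ofReal h.J_int

theorem Moll.lint_ρ (h : Moll r c₀ J ρ) : ∫⁻ x, ENNReal.ofReal (ρ x) = 1 := by
  rw [← ofReal_integral_eq_lintegral_ofReal
    (h.cρ.1.continuous.integrable_of_hasCompactSupport h.cρ.2) (Eventually.of_forall h.ρ_nonneg),
    h.ρ_int, ENNReal.ofReal_one]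

theorem BMoll_int (h : Moll r c₀ J ρ) {f : R3 → ℝ} (hf : Continuous f) :
    Integrable fun x => J x * f x :=
  (h.cJ.mul hf).integrable_of_hasCompactSupport h.J_cs.mul_right

theorem Moll.iso (h : Moll r c₀ J ρ) (e : R3) : ∫ x, J x * ⟪x, e⟫_ℝ ^ 2 = ‖e‖ ^ 2 := by
  have e1 : ∀ x, fderiv ℝ ρ x e = -(J x) * ⟪x, e⟫_ℝ := fun x => by
    rw [← inner_gradient_eq, h.grad, real_inner_smul_left]
  have e2 : ∀ x : R3, fderiv ℝ (fun y : R3 => innerSL ℝ e y) x e = ‖e‖ ^ 2 := fun x => by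
    rw [(innerSL ℝ e).fderiv, innerSL_apply_apply, real_inner_self_eq_norm_sq]
  have e3 : ∀ x : R3, innerSL ℝ e x * fderiv ℝ ρ x e = -(J x * ⟪x, e⟫_ℝ ^ 2) := fun x => by
    rw [e1, innerSL_apply_apply, real_inner_comm]
    ring
  have iρ := h.cρ.1.continuous.integrable_of_hasCompactSupport (μ := volume) h.cρ.2
  have key := integral_mul_fderiv_eq_neg_fderiv_mul_of_integrable (μ := (volume : Measure R3))
    (f := fun y : R3 => innerSL ℝ e y) (g := ρ) (v := e)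
    (by simpa only [e2] using iρ.const_mul _)
    (by
      simp only [e3]
      exact (BMoll_int h (by fun_prop)).neg)
    (((innerSL ℝ e).continuous.mul h.cρ.1.continuous).integrable_of_hasCompactSupport
      h.cρ.2.mul_left)
    (fun x _ => (innerSL ℝ e).differentiableAt)
    (fun x _ => h.cρ.1.differentiable one_ne_zero x)
  simp only [e2, e3] at key
  rw [integral_neg, integral_const_mul, h.ρ_int, mul_one] at key
  exact neg_injective key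

theorem Moll.lint_iso (h : Moll r c₀ J ρ) (e : R3) :
    ∫⁻ x, ENNReal.ofReal (J x * ⟪x, e⟫_ℝ ^ 2) = ENNReal.ofReal (‖e‖ ^ 2) := by
  rw [← ofReal_integral_eq_lintegral_ofReal (BMoll_int h (by fun_prop))
    (Eventually.of_forall fun x => mul_nonneg (h.J_nonneg x) (sq_nonneg _)), h.iso]

theorem Moll.mean_zero (h : Moll r c₀ J ρ) (e : R3) : ∫ x, J x * ⟪x, e⟫_ℝ = 0 := by
  have h1 := integral_neg_eq_self (fun x : R3 => J x * ⟪x, e⟫_ℝ) volume
  simp only [h.J_neg, inner_neg_left, mul_neg] at h1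
  rw [integral_neg] at h1
  linarith

theorem Moll.lint_mom2 (h : Moll r c₀ J ρ) :
    ∫⁻ x, ENNReal.ofReal (J x * ‖x‖ ^ 2) = ENNReal.ofReal 3 := by
  have e1 : ∀ x : R3, J x * ‖x‖ ^ 2 = ∑ k : Fin 3, J x * ⟪x, uv k⟫_ℝ ^ 2 := fun x => by
    rw [EuclideanSpace.real_norm_sq_eq, Finset.mul_sum]
    refine Finset.sum_congr rfl fun k _ => ?_
    rw [uv, EuclideanSpace.inner_single_right]
    simp
  rw [← ofReal_integral_eq_lintegral_ofReal (BMoll_int h (by fun_prop))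
    (Eventually.of_forall fun x => mul_nonneg (h.J_nonneg x) (sq_nonneg _))]
  congr 1
  simp only [e1]
  rw [integral_finsetSum _ fun k _ => BMoll_int h (by fun_prop)]
  simp only [h.iso]
  simp [uv]

end Pool.Agent.Lib.MP_8fe63c_mp
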