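import Pool.Agent.Lib.MP_8fe63c_mp.BMoll

/-!
The nonlocal energy is bounded by the Neumann energy.

Sketch. `nl_le_cc1`: for `y, z ∈ Ω` put `h = y - z`; then
`(u y - u z)^2 ≤ ∫_0^1 ⟪h, ∇u (y - t • h)⟫^2 dt` (fundamental theorem of calculus and Cauchy-Schwarz, compare
the auxiliary lemmas of `OPoin` and `OSob`) and `y - t • h ∈ Ω`. So the double integral is at most
`∫ dt ∫ dh ∫ dy 1_Ω (y - t h) J h ⟪h, ∇u (y - t h)⟫^2 = ∫ dt ∫_Ω dw ∫ dh J h ⟪h, ∇u w⟫^2`, use `lint_iso`
(`lintegral_sub_right_eq_self`, `lintegral_lintegral_swap`). `nl_le_inF`: Fatou on the product measure along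
`InF.seq`, `tendsto_qf` for the right side. `nl_le_l2`: `(a - b)^2 ≤ 2 a^2 + 2 b^2`. `nl_mul_le`:
`χ y u y - χ z u z = χ y (u y - u z) + (χ y - χ z) u z`, `lint_mom2`. `cell_weak`: leg by leg; write
`∫⁻ f = marg (univ.erase i) (marg {i} f)` (`marg_univ`, `marg_union`, `marg_single`) and use `nl_le_cc1`
for the slices (`Cc1.slice`, `gradient_slice`); this is `lintegral_slice_le`.
-/

set_option linter.unusedSectionVars false

open MeasureTheory Set Filter Topology
open scoped ENNReal InnerProductSpace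

namespace Pool.Agent.Lib.MP_8fe63c_mp

variable {ι : Type} [Fintype ι] [DecidableEq ι]

variable {r c₀ : ℝ} {J ρ : R3 → ℝ} {Ω : Set R3}

theorem measurable_nlD (Ω : Set R3) (hJ : Measurable J) {F : (ι → R3) → ℝ} (hF : Measurable F)
    (i : ι) : Measurable (nlD Ω J F i) := by
  have h1 : Measurable fun q : (ι → R3) × R3 => J (q.1 i - q.2) := hJ.comp (by fun_prop)
  have h2 : Measurable fun q : (ι → R3) × R3 => F (Function.update q.1 i q.2) :=
    hF.comp measurable_update'
  have h3 : Measurable fun q : (ι → R3) × R3 => ENNReal.ofReal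
      (J (q.1 i - q.2) * (F q.1 - F (Function.update q.1 i q.2)) ^ 2) :=
    (h1.mul (((hF.comp measurable_fst).sub h2).pow_const 2)).ennreal_ofReal
  exact h3.lintegral_prod_right' (ν := (volume : Measure R3).restrict Ω)

/-- an inequality on all slices in the variable `i` can be integrated -/
theorem lintegral_slice_le {f g : (ι → R3) → ℝ≥0∞} (hf : Measurable f) (hg : Measurable g) (i : ι)
    (h : ∀ x, ∫⁻ y, f (Function.update x i y) ≤ ∫⁻ y, g (Function.update x i y)) :
    ∫⁻ x, f x ≤ ∫⁻ x, g x := by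
  rw [volume_pi, lintegral_eq_lmarginal_univ 0, lintegral_eq_lmarginal_univ 0,
    lmarginal_erase' _ hf (Finset.mem_univ i), lmarginal_erase' _ hg (Finset.mem_univ i)]
  exact lmarginal_mono h _

theorem nlD_slice (Ω Ω' : Set R3) (J : R3 → ℝ) (F : (ι → R3) → ℝ) (i : ι) (x : ι → R3) :
    ∫⁻ y in Ω', nlD Ω J F i (Function.update x i y) =
      ∫⁻ y in Ω', ∫⁻ z in Ω, ENNReal.ofReal
        (J (y - z) * (F (Function.update x i y) - F (Function.update x i z)) ^ 2) := by
  simp only [nlD, Function.update_self, Function.update_idem]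

theorem BNl_pt {u : R3 → ℝ} (hu : Cc1 u) (y a : R3) :
    (u y - u (y - a)) ^ 2 ≤ ∫ t in (0 : ℝ)..1, ⟪a, gradient u (y - t • a)⟫_ℝ ^ 2 := by
  have hg := hu.continuous_gradient
  have hd : ∀ t : ℝ, HasDerivAt (fun t : ℝ => -u (y - t • a))
      ⟪a, gradient u (y - t • a)⟫_ℝ t := fun t => by
    have h1 : HasDerivAt (fun t : ℝ => y - t • a) (-a) t := by
      have := ((hasDerivAt_id t).smul_const a).const_sub y
      rwa [one_smul] at this
    have h2 := (((hu.1.differentiable one_ne_zero) _).hasFDerivAt.comp_hasDerivAt t h1).neg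
    rw [map_neg, neg_neg, ← inner_gradient_eq, real_inner_comm] at h2
    exact h2
  have hc : Continuous fun t : ℝ => ⟪a, gradient u (y - t • a)⟫_ℝ := by fun_prop
  have e := intervalIntegral.integral_eq_sub_of_hasDerivAt (a := 0) (b := 1) (fun t _ => hd t)
    (hc.intervalIntegrable _ _)
  simp only [zero_smul, one_smul, sub_zero] at e
  rw [show u y - u (y - a) = -u (y - a) - -u y by ring, ← e]
  exact OSob_cs hc

theorem nl_le_cc1 (h : Moll r c₀ J ρ) (hΩ : MeasurableSet Ω) (hc : Convex ℝ Ω) {u : R3 → ℝ}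
    (hu : Cc1 u) : nl Ω J u ≤ ∫⁻ y in Ω, ENNReal.ofReal (‖gradient u y‖ ^ 2) := by
  have hg := hu.continuous_gradient
  have hJ := h.cJ
  set Φ : R3 → R3 → ℝ≥0∞ := fun a w =>
    indicator Ω (1 : R3 → ℝ≥0∞) w * ENNReal.ofReal (J a * ⟪a, gradient u w⟫_ℝ ^ 2) with hΦ
  have hm : Measurable fun p : R3 × R3 => Φ p.1 p.2 := by
    have h1 : Continuous fun p : R3 × R3 => J p.1 * ⟪p.1, gradient u p.2⟫_ℝ ^ 2 := by fun_prop
    exact ((measurable_one.indicator hΩ).comp measurable_snd).mul h1.measurable.ennreal_ofReal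
  have h1 : ∀ y ∈ Ω, ∀ z ∈ Ω, ENNReal.ofReal (J (y - z) * (u y - u z) ^ 2) ≤
      ∫⁻ t in Ioc (0 : ℝ) 1, Φ (y - z) (y - t • (y - z)) := by
    intro y hy z hz
    have hc1 : Continuous fun t : ℝ =>
        J (y - z) * ⟪y - z, gradient u (y - t • (y - z))⟫_ℝ ^ 2 := by fun_prop
    have h2 : ∫⁻ t in Ioc (0 : ℝ) 1, Φ (y - z) (y - t • (y - z)) = ∫⁻ t in Ioc (0 : ℝ) 1,
        ENNReal.ofReal (J (y - z) * ⟪y - z, gradient u (y - t • (y - z))⟫_ℝ ^ 2) := by
      refine setLIntegral_congr_fun measurableSet_Ioc fun t ht => ?_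
      have h3 : y - t • (y - z) ∈ Ω := by
        have := hc hy hz (sub_nonneg.2 ht.2) ht.1.le (by ring)
        rwa [show (1 - t) • y + t • z = y - t • (y - z) by module] at this
      simp only [hΦ, indicator_of_mem h3, Pi.one_apply, one_mul]
    rw [h2, ← ofReal_integral_eq_lintegral_ofReal (hc1.intervalIntegrable 0 1).1
      (Eventually.of_forall fun t => mul_nonneg (h.J_nonneg _) (sq_nonneg _)),
      ← intervalIntegral.integral_of_le zero_le_one, intervalIntegral.integral_const_mul]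
    refine ENNReal.ofReal_le_ofReal (mul_le_mul_of_nonneg_left ?_ (h.J_nonneg _))
    have := BNl_pt hu y (y - z)
    rwa [sub_sub_cancel] at this
  have hm3 : Measurable fun q : (R3 × R3) × ℝ => Φ q.1.2 (q.1.1 - q.2 • q.1.2) :=
    hm.comp (f := fun q : (R3 × R3) × ℝ => (q.1.2, q.1.1 - q.2 • q.1.2)) (by fun_prop)
  calc nl Ω J u ≤ ∫⁻ y, ∫⁻ z, ∫⁻ t in Ioc (0 : ℝ) 1, Φ (y - z) (y - t • (y - z)) := by
        refine le_trans (setLIntegral_mono' hΩ fun y hy => ?_) (setLIntegral_le_lintegral Ω _)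
        exact le_trans (setLIntegral_mono' hΩ fun z hz => h1 y hy z hz)
          (setLIntegral_le_lintegral Ω _)
    _ = ∫⁻ y, ∫⁻ a, ∫⁻ t in Ioc (0 : ℝ) 1, Φ a (y - t • a) :=
        lintegral_congr fun y => lintegral_sub_left_eq_self
          (fun a => ∫⁻ t in Ioc (0 : ℝ) 1, Φ a (y - t • a)) y
    _ = ∫⁻ a, ∫⁻ y, ∫⁻ t in Ioc (0 : ℝ) 1, Φ a (y - t • a) :=
        lintegral_lintegral_swap (hm3.lintegral_prod_right'
          (ν := (volume : Measure ℝ).restrict (Ioc 0 1))).aemeasurable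
    _ = ∫⁻ a, ∫⁻ w, Φ a w := by
        refine lintegral_congr fun a => ?_
        have h4 : Measurable fun q : R3 × ℝ => Φ a (q.1 - q.2 • a) :=
          hm.comp (f := fun q : R3 × ℝ => (a, q.1 - q.2 • a)) (by fun_prop)
        rw [lintegral_lintegral_swap (f := fun (y : R3) (t : ℝ) => Φ a (y - t • a))
          h4.aemeasurable]
        simp only [lintegral_sub_right_eq_self (Φ a)]
        simp
    _ = ∫⁻ w, ∫⁻ a, Φ a w := lintegral_lintegral_swap hm.aemeasurable
    _ = _ := by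
        rw [← lintegral_indicator hΩ]
        refine lintegral_congr fun w => ?_
        by_cases hw : w ∈ Ω
        · simp only [hΦ, indicator_of_mem hw, Pi.one_apply, one_mul]
          exact h.lint_iso _
        · simp [hΦ, indicator_of_notMem hw]

theorem BNl_meas (hJ : Measurable J) {u : R3 → ℝ} (hu : Measurable u) :
    Measurable fun p : R3 × R3 => ENNReal.ofReal (J (p.1 - p.2) * (u p.1 - u p.2) ^ 2) := by
  fun_prop

theorem BNl_prod (hJ : Measurable J) {u : R3 → ℝ} (hu : Measurable u) :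
    nl Ω J u = ∫⁻ p : R3 × R3, ENNReal.ofReal (J (p.1 - p.2) * (u p.1 - u p.2) ^ 2)
      ∂(volume.restrict Ω).prod (volume.restrict Ω) :=
  (lintegral_prod _ (BNl_meas hJ hu).aemeasurable).symm

theorem nl_le_inF (h : Moll r c₀ J ρ) (hΩ : MeasurableSet Ω) (hc : Convex ℝ Ω) {W u : R3 → ℝ}
    {G : R3 → R3} (hW : Pot W) (hu : InF Ω W u G) :
    nl Ω J u ≤ ENNReal.ofReal (∫ y in Ω, ‖G y‖ ^ 2) := by
  obtain ⟨v, hv, ht, hae⟩ := hu.seq hW
  have t0 : Tendsto (fun n => ∫⁻ x in Ω, ENNReal.ofReal (‖G x - gradient (v n) x‖ ^ 2)) atTop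
      (𝓝 0) := tendsto_of_tendsto_of_tendsto_of_le_of_le tendsto_const_nhds ht
        (fun _ => zero_le) fun n => OBas_le_G hW
  have t1 := OBas_tendsto_inner (hu.memLp_G hW) (hu.memLp_G hW) (fun n => (hv n).OBas_G)
    (fun n => (hv n).OBas_G) t0 t0
  simp only [real_inner_self_eq_norm_sq] at t1
  rw [BNl_prod h.mJ hu.mu]
  calc _ = ∫⁻ p : R3 × R3, liminf (fun n =>
          ENNReal.ofReal (J (p.1 - p.2) * (v n p.1 - v n p.2) ^ 2)) atTop
          ∂(volume.restrict Ω).prod (volume.restrict Ω) := by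
        refine lintegral_congr_ae ?_
        filter_upwards [Measure.quasiMeasurePreserving_fst.ae hae,
          Measure.quasiMeasurePreserving_snd.ae hae] with p h1 h2
        exact (ENNReal.tendsto_ofReal (((h1.1.sub h2.1).pow 2).const_mul _)).liminf_eq.symm
    _ ≤ liminf (fun n => nl Ω J (v n)) atTop := by
        simp only [fun n => BNl_prod (Ω := Ω) h.mJ (hv n).1.continuous.measurable]
        exact lintegral_liminf_le fun n => BNl_meas h.mJ (hv n).1.continuous.measurable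
    _ ≤ liminf (fun n => ENNReal.ofReal (∫ y in Ω, ‖gradient (v n) y‖ ^ 2)) atTop := by
        refine liminf_le_liminf (Eventually.of_forall fun n => ?_)
        rw [ofReal_integral_eq_lintegral_ofReal (hv n).OBas_G.norm.integrable_sq
          (Eventually.of_forall fun _ => sq_nonneg _)]
        exact nl_le_cc1 h hΩ hc (hv n)
    _ = _ := (ENNReal.tendsto_ofReal t1).liminf_eq

theorem BNl_left {K f : R3 → ℝ≥0∞} (hK : Measurable K) (hf : Measurable f) :
    ∫⁻ y in Ω, ∫⁻ z in Ω, K (y - z) * f y ≤ (∫⁻ a, K a) * ∫⁻ y in Ω, f y := by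
  rw [← lintegral_const_mul _ hf]
  refine lintegral_mono fun y => ?_
  refine (setLIntegral_le_lintegral Ω _).trans (le_of_eq ?_)
  rw [lintegral_mul_const _ (f := fun z => K (y - z)) (hK.comp (by fun_prop)),
    lintegral_sub_left_eq_self K y]

theorem BNl_right {K f : R3 → ℝ≥0∞} (hK : Measurable K) (hf : Measurable f) :
    ∫⁻ y in Ω, ∫⁻ z in Ω, K (y - z) * f z ≤ (∫⁻ a, K a) * ∫⁻ y in Ω, f y := by
  have hm : Measurable fun p : R3 × R3 => K (p.1 - p.2) * f p.2 := by fun_prop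
  rw [← lintegral_const_mul _ hf,
    lintegral_lintegral_swap (f := fun y z => K (y - z) * f z) hm.aemeasurable]
  refine lintegral_mono fun z => ?_
  refine (setLIntegral_le_lintegral Ω _).trans (le_of_eq ?_)
  rw [lintegral_mul_const _ (f := fun y => K (y - z)) (hK.comp (by fun_prop)),
    lintegral_sub_right_eq_self K z]

theorem BNl_add {f g : R3 → R3 → ℝ≥0∞} (hf : Measurable fun p : R3 × R3 => f p.1 p.2) :
    ∫⁻ y in Ω, ∫⁻ z in Ω, (f y z + g y z) =
      (∫⁻ y in Ω, ∫⁻ z in Ω, f y z) + ∫⁻ y in Ω, ∫⁻ z in Ω, g y z := by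
  rw [← lintegral_add_left (hf.lintegral_prod_right' (ν := (volume : Measure R3).restrict Ω))]
  exact lintegral_congr fun y => lintegral_add_left (hf.comp measurable_prodMk_left) _

theorem nl_le_l2 (h : Moll r c₀ J ρ) {u : R3 → ℝ} (hu : Measurable u) :
    nl Ω J u ≤ ENNReal.ofReal (4 * (c₀ / r ^ 2)) * ∫⁻ y in Ω, ENNReal.ofReal (u y ^ 2) := by
  have hJ := h.mJ
  have hK : Measurable fun a => ENNReal.ofReal (2 * J a) := by fun_prop
  have hf : Measurable fun y => ENNReal.ofReal (u y ^ 2) := by fun_prop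
  have hI : ∫⁻ a, ENNReal.ofReal (2 * J a) ≤ ENNReal.ofReal (2 * (c₀ / r ^ 2)) := by
    simp only [← OBas_two_mul]
    rw [lintegral_const_mul _ hJ.ennreal_ofReal]
    exact mul_le_mul_right h.lint_J _
  calc nl Ω J u ≤ ∫⁻ y in Ω, ∫⁻ z in Ω,
        (ENNReal.ofReal (2 * J (y - z)) * ENNReal.ofReal (u y ^ 2) +
          ENNReal.ofReal (2 * J (y - z)) * ENNReal.ofReal (u z ^ 2)) := by
        refine lintegral_mono fun y => lintegral_mono fun z => ?_
        have h0 := h.J_nonneg (y - z)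
        rw [← ENNReal.ofReal_mul (by positivity), ← ENNReal.ofReal_mul (by positivity),
          ← ENNReal.ofReal_add (by positivity) (by positivity)]
        refine ENNReal.ofReal_le_ofReal ?_
        nlinarith [mul_nonneg h0 (sq_nonneg (u y + u z))]
    _ ≤ ENNReal.ofReal (2 * (c₀ / r ^ 2)) * (∫⁻ y in Ω, ENNReal.ofReal (u y ^ 2)) +
          ENNReal.ofReal (2 * (c₀ / r ^ 2)) * ∫⁻ y in Ω, ENNReal.ofReal (u y ^ 2) := by
        rw [BNl_add (by fun_prop)]
        exact add_le_add ((BNl_left hK hf).trans (mul_le_mul_left hI _))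
          ((BNl_right hK hf).trans (mul_le_mul_left hI _))
    _ = _ := by
        have := h.c_nonneg
        rw [← add_mul, ← ENNReal.ofReal_add (by positivity) (by positivity)]
        congr 2
        ring

theorem nl_mul_le (h : Moll r c₀ J ρ) {χ u : R3 → ℝ} (hχ : Measurable χ) (hu : Measurable u)
    (h1 : ∀ y, |χ y| ≤ 1) {L δ : ℝ} (hL : ∀ y z, |χ y - χ z| ≤ L * ‖y - z‖) (hδ : 0 < δ) :
    nl univ J (fun y => χ y * u y) ≤ ENNReal.ofReal (1 + δ) * nl univ J u +
      ENNReal.ofReal ((1 + 1 / δ) * (3 * L ^ 2)) * ∫⁻ y, ENNReal.ofReal (u y ^ 2) := by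
  have hJ := h.mJ
  have hA : 0 ≤ (1 + 1 / δ) * L ^ 2 := by positivity
  have hK : Measurable fun a : R3 =>
      ENNReal.ofReal ((1 + 1 / δ) * L ^ 2) * ENNReal.ofReal (J a * ‖a‖ ^ 2) := by fun_prop
  have hf : Measurable fun y => ENNReal.ofReal (u y ^ 2) := by fun_prop
  have hI : ∫⁻ a : R3, ENNReal.ofReal ((1 + 1 / δ) * L ^ 2) * ENNReal.ofReal (J a * ‖a‖ ^ 2) =
      ENNReal.ofReal ((1 + 1 / δ) * (3 * L ^ 2)) := by
    rw [lintegral_const_mul' _ _ ENNReal.ofReal_ne_top, h.lint_mom2, ← ENNReal.ofReal_mul hA]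
    congr 1
    ring
  have h2 := BNl_right (Ω := univ) hK hf
  rw [hI] at h2
  have hm := BNl_meas hJ hu
  calc nl univ J (fun y => χ y * u y) ≤ ∫⁻ y in univ, ∫⁻ z in univ,
        (ENNReal.ofReal (1 + δ) * ENNReal.ofReal (J (y - z) * (u y - u z) ^ 2) +
          ENNReal.ofReal ((1 + 1 / δ) * L ^ 2) * ENNReal.ofReal (J (y - z) * ‖y - z‖ ^ 2) *
            ENNReal.ofReal (u z ^ 2)) := by
        refine lintegral_mono fun y => lintegral_mono fun z => ?_
        have h0 := h.J_nonneg (y - z)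
        rw [← ENNReal.ofReal_mul (by positivity), ← ENNReal.ofReal_mul hA,
          ← ENNReal.ofReal_mul (by positivity),
          ← ENNReal.ofReal_add (by positivity) (by positivity)]
        refine ENNReal.ofReal_le_ofReal ?_
        have a1 : χ y ^ 2 ≤ 1 := by
          rw [← sq_abs]
          exact pow_le_one₀ (abs_nonneg _) (h1 y)
        have a2 : (χ y - χ z) ^ 2 ≤ L ^ 2 * ‖y - z‖ ^ 2 := by
          rw [← sq_abs, ← mul_pow]
          exact pow_le_pow_left₀ (abs_nonneg _) (hL y z) 2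
        have a3 : ∀ a b : ℝ, (a + b) ^ 2 ≤ (1 + δ) * a ^ 2 + (1 + 1 / δ) * b ^ 2 := by
          intro a b
          have : (1 + δ) * a ^ 2 + (1 + 1 / δ) * b ^ 2 - (a + b) ^ 2 = (δ * a - b) ^ 2 / δ := by
            field_simp
            ring
          have h3 : 0 ≤ (δ * a - b) ^ 2 / δ := by positivity
          linarith
        have a4 := a3 (χ y * (u y - u z)) ((χ y - χ z) * u z)
        have a5 : (χ y * (u y - u z)) ^ 2 ≤ (u y - u z) ^ 2 := by
          rw [mul_pow]
          exact mul_le_of_le_one_left (sq_nonneg _) a1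
        have a6 : ((χ y - χ z) * u z) ^ 2 ≤ L ^ 2 * ‖y - z‖ ^ 2 * u z ^ 2 := by
          rw [mul_pow]
          exact mul_le_mul_of_nonneg_right a2 (sq_nonneg _)
        have a7 : (χ y * u y - χ z * u z) ^ 2 ≤
            (1 + δ) * (u y - u z) ^ 2 + (1 + 1 / δ) * (L ^ 2 * ‖y - z‖ ^ 2 * u z ^ 2) := by
          rw [show χ y * u y - χ z * u z = χ y * (u y - u z) + (χ y - χ z) * u z by ring]
          refine a4.trans (add_le_add ?_ ?_)
          · exact mul_le_mul_of_nonneg_left a5 (by positivity)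
          · exact mul_le_mul_of_nonneg_left a6 (by positivity)
        calc _ ≤ J (y - z) * ((1 + δ) * (u y - u z) ^ 2 +
              (1 + 1 / δ) * (L ^ 2 * ‖y - z‖ ^ 2 * u z ^ 2)) := mul_le_mul_of_nonneg_left a7 h0
          _ = _ := by ring
    _ ≤ _ := by
        rw [BNl_add (hm.const_mul _)]
        refine add_le_add (le_of_eq ?_) ?_
        · simp only [lintegral_const_mul' _ _ ENNReal.ofReal_ne_top]
          rfl
        · simpa only [Measure.restrict_univ] using h2

theorem cell_weak (h : Moll r c₀ J ρ) (hΩ : MeasurableSet Ω) (hc : Convex ℝ Ω) {ε η : ℝ}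
    (hε : 0 ≤ ε) (hη : 0 ≤ η) {UN : (Fin 3 → R3) → ℝ} (hU : Measurable UN) {F : (ι → R3) → ℝ}
    (hF : Cc1 F) : Cell Ω J ε UN F 0 η 0 := by
  have hFm : Measurable F := hF.1.continuous.measurable
  have hi : ∀ i : ι, Measurable fun x : ι → R3 => indicator Ω (1 : R3 → ℝ≥0∞) (x i) := fun i =>
    (measurable_one.indicator hΩ).comp (measurable_pi_apply i)
  have hp : ∀ i : ι, Measurable fun x : ι → R3 => ENNReal.ofReal (‖pgrad F i x‖ ^ 2) := fun i =>
    ((hF.cb1.continuous_pgrad i).measurable.norm.pow_const 2).ennreal_ofReal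
  have key : ∀ i : ι, ∫⁻ x, indicator Ω (1 : R3 → ℝ≥0∞) (x i) * nlD Ω J F i x ≤
      ∫⁻ x, indicator Ω (1 : R3 → ℝ≥0∞) (x i) * ENNReal.ofReal (‖pgrad F i x‖ ^ 2) := by
    intro i
    refine lintegral_slice_le ((hi i).mul (measurable_nlD Ω h.mJ hFm i)) ((hi i).mul (hp i)) i
      fun x => ?_
    have e : ∀ f : R3 → ℝ≥0∞, ∫⁻ y, indicator Ω (1 : R3 → ℝ≥0∞) y * f y = ∫⁻ y in Ω, f y := by
      intro f
      rw [← lintegral_indicator hΩ]
      refine lintegral_congr fun y => ?_
      by_cases hy : y ∈ Ω <;> simp [hy]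
    simp only [Function.update_self]
    rw [e, e, nlD_slice]
    simp only [← gradient_slice]
    exact nl_le_cc1 h hΩ hc (hF.slice i x)
  unfold Cell
  calc _ ≤ ∫⁻ x, ∑ i, indicator Ω (1 : R3 → ℝ≥0∞) (x i) * nlD Ω J F i x := by
        refine lintegral_mono fun x => Finset.sum_le_sum fun i _ => mul_le_mul_right ?_ _
        rw [zero_mul, ENNReal.ofReal_zero, zero_add]
        exact mul_le_of_le_one_left' (ENNReal.ofReal_le_one.2 (by linarith))
    _ ≤ ∫⁻ x, ∑ i, indicator Ω (1 : R3 → ℝ≥0∞) (x i) * ENNReal.ofReal (‖pgrad F i x‖ ^ 2) := by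
        rw [lintegral_finsetSum _ fun i _ => (hi i).fun_mul (measurable_nlD Ω h.mJ hFm i),
          lintegral_finsetSum _ fun i _ => (hi i).fun_mul (hp i)]
        exact Finset.sum_le_sum fun i _ => key i
    _ ≤ _ := by
        refine le_trans (lintegral_mono fun x => ?_) le_self_add
        refine le_trans (Finset.sum_le_sum fun i _ => mul_le_mul_right ?_ _) le_self_add
        exact ENNReal.ofReal_le_ofReal (le_add_of_nonneg_right (by positivity))

end Pool.Agent.Lib.MP_8fe63c_mp
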