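import Pool.Agent.Lib.MP_8fe63c_mp.PVs

/-!
A lower bound for all arrays gives a lower bound for all functions.

Sketch. Take `Ψ = coefO F`; `EB.Ham_eq`, `EB.bessel_leg` with `Cc1.legF`, `QO_eq`; let the level tend to
infinity (`EB.tendsto_hat`, `EB.parseval`, `L2lim.sq`, `BForm.tendsto_dens`).
-/

set_option linter.unusedSectionVars false

open MeasureTheory Set Filter Topology
open scoped ENNReal InnerProductSpace

namespace Pool.Agent.Lib.MP_8fe63c_mp

variable {I κ ι : Type} [Fintype I] [DecidableEq I] [Fintype κ] [DecidableEq κ]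
  [Fintype ι] [DecidableEq ι]


theorem transfer_lower {Ω : Set R3} {W : R3 → ℝ} (hW : Pot W) (B : EB Ω W)
    {UN : (Fin 3 → R3) → ℝ} (h : Wt3 UN) (A : BForm Ω) (μ c : ℝ)
    (hb : ∀ᶠ M : ℝ in atTop, ∃ L : Lv (B.I M), (∀ a, L.lam a = B.ν a.1 - μ) ∧
      ∀ Ψ : (ι → B.I M) → ℝ, c * nsq Ψ ≤
        L.Ham (ups Ω UN (B.eM M)) (fun a b => A.form (B.eM M a) (B.eM M b)) Ψ)
    {F : (ι → R3) → ℝ} (hF : Cc1 F) :
    c * ∫ x, F x ^ 2 ∂muP Ω ι ≤ QO Ω W UN F - μ * Fintype.card ι * (∫ x, F x ^ 2 ∂muP Ω ι) -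
      ∑ i, ∫ x, A.dens F i x ∂muP Ω ι := by
  have hF2 : MemLp F 2 (muP Ω ι) := hF.memLp
  have hFm : Measurable F := hF.1.continuous.measurable
  have hlim := B.tendsto_hat hW hF2
  have hm : ∀ M : ℝ, Measurable (hat (B.eM M) (coefO Ω (B.eM M) F)) := fun M =>
    measurable_hat (B.on hW M).meas _
  have h2 : ∀ M : ℝ, MemLp (hat (B.eM M) (coefO Ω (B.eM M) F)) 2 (muP Ω ι) := fun M =>
    memLp_hat (B.on hW M).l2 _
  have tn : Tendsto (fun M : ℝ => nsq (coefO Ω (B.eM M) F)) atTop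
      (𝓝 (∫ x, F x ^ 2 ∂muP Ω ι)) := by
    simpa only [nsq, sq] using B.parseval hW hF2 hF2
  have td := tendsto_finsetSum (Finset.univ : Finset ι) fun i _ =>
    A.tendsto_dens hm h2 hFm hF2 hlim i
  obtain ⟨K, hK⟩ := h.bdd
  have tu := tendsto_finsetSum (Finset.univ : Finset (Fin 3 ↪ ι)) fun σ _ =>
    hlim.sq h2 hF2 (a := fun x => UN (x ∘ σ))
      (h.meas.comp (measurable_pi_lambda _ fun j => measurable_pi_apply (σ j))) (M := K)
      fun x => by rw [abs_of_nonneg (h.nonneg _)]; exact hK _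
  have tr := ((((tendsto_const_nhds (x := ∑ i, qleg Ω W i F (pgrad F i) F (pgrad F i))).sub
    (tn.const_mul (μ * Fintype.card ι))).sub td).add (tu.const_mul (1 / 6 : ℝ)))
  have key := le_of_tendsto_of_tendsto (tn.const_mul c) tr (by
    filter_upwards [hb] with M ⟨L, hL, hΨ⟩
    have h3 := hΨ (coefO Ω (B.eM M) F)
    rw [B.Ham_eq hW M L hL h A] at h3
    have h4 := Finset.sum_le_sum fun i (_ : i ∈ Finset.univ) =>
      B.bessel_leg hW M (hF.legF (Ω := Ω) hW i)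
    linarith)
  rw [QO_eq hW h hF]
  linarith

end Pool.Agent.Lib.MP_8fe63c_mp
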