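import Pool.Agent.Lib.MP_8fe63c_mp.BNl
import Pool.Agent.Lib.MP_8fe63c_mp.PT2

/-!
The nonlocal energy as a bounded one-body form.

Sketch. `J` is bounded, even and integrable and `Ω` has finite measure, so for `u, v ∈ L^2(Ω)` the functions
`J (y - z) * u y * v z`, `J (y - z) * u y * v y` are integrable on `Ω × Ω` and
`A.form u v = t * ∫∫ J (y - z) (u y - u z) (v y - v z)` (expand, `integral_integral_swap`, `J_neg`). This gives
symmetry, bilinearity and `form_eq`. `IsJ.w_le`: `InF.sum`, `nl_le_inF`, and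
`∫ ‖∑ c a • g a‖^2 = qf = ∑ ν a * c a^2` (`qf_sum_left`, `B.eig`, `ip_sum_left`, `B.nrm`, `B.orth`).
`IsJ.w_le'`: `nl_le_l2`. `dens_eq`: `integral_leg` and `lintegral_leg` with the constant function
`h = 1 / volume Ω`; on each slice `∫ y in Ω, dens (update x i y) = A.form u u` for `u = y ↦ F (update x i y)`
(`Cc1.slice`, `nlD_slice`); finiteness by `nl_le_l2`. `boxOK_of_real`: both sides of `BoxOK` are `ofReal` of
real integrals (`ofReal_integral_eq_lintegral_ofReal`, `Cc1.memLp`, `Cc1.legF`).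
-/

set_option linter.unusedSectionVars false

open MeasureTheory Set Filter Topology
open scoped ENNReal InnerProductSpace

namespace Pool.Agent.Lib.MP_8fe63c_mp

variable {ι : Type} [Fintype ι] [DecidableEq ι]

/-- the form is `t` times the nonlocal energy -/
structure IsJ {Ω : Set R3} (A : BForm Ω) (t : ℝ) (J : R3 → ℝ) : Prop where
  a_eq : ∀ x, A.a x = 2 * t * ∫ z in Ω, J (x - z)
  k_eq : ∀ x z, A.k x z = 2 * t * J (x - z)

variable {r c₀ t : ℝ} {J ρ : R3 → ℝ} {Ω : Set R3} {A : BForm Ω}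

theorem BW_mJ (h : Moll r c₀ J ρ) : Measurable fun p : R3 × R3 => J (p.1 - p.2) :=
  h.mJ.comp (measurable_fst.sub measurable_snd)

theorem BW_l2 {u v : R3 → ℝ} (hu : MemLp u 2 (volume.restrict Ω))
    (hv : MemLp v 2 (volume.restrict Ω)) :
    MemLp (fun p : R3 × R3 => u p.1 * v p.2) 2 ((volume.restrict Ω).prod (volume.restrict Ω)) := by
  refine (memLp_two_iff_integrable_sq (hu.1.comp_fst.mul hv.1.comp_snd)).2 ?_
  refine (hu.integrable_sq.mul_prod hv.integrable_sq).congr (Eventually.of_forall fun p => ?_)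
  simp only [Pi.mul_apply, mul_pow]

theorem BW_kint (A : BForm Ω) {u v : R3 → ℝ} (hu : MemLp u 2 (volume.restrict Ω))
    (hv : MemLp v 2 (volume.restrict Ω)) :
    Integrable (fun p : R3 × R3 => A.k p.1 p.2 * (u p.1 * v p.2))
      ((volume.restrict Ω).prod (volume.restrict Ω)) :=
  A.l2_k.integrable_mul (BW_l2 hu hv)

theorem BW_aint (A : BForm Ω) {u v : R3 → ℝ} (hu : MemLp u 2 (volume.restrict Ω))
    (hv : MemLp v 2 (volume.restrict Ω)) :
    Integrable (fun x => A.a x * u x * v x) (volume.restrict Ω) := by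
  obtain ⟨M, hM⟩ := A.a_bdd
  exact PVs_int_mul A.m_a hM hu hv

theorem BW_in (A : BForm Ω) (u v : R3 → ℝ) (x : R3) :
    ∫ z in Ω, A.k x z * (u x * v z) = u x * ∫ z in Ω, A.k x z * v z := by
  rw [← integral_const_mul]
  exact integral_congr_ae (Eventually.of_forall fun z => by simp only; ring)

theorem BW_kint' (A : BForm Ω) {u v : R3 → ℝ} (hu : MemLp u 2 (volume.restrict Ω))
    (hv : MemLp v 2 (volume.restrict Ω)) :
    Integrable (fun x => u x * ∫ z in Ω, A.k x z * v z) (volume.restrict Ω) := by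
  have := (BW_kint A hu hv).integral_prod_left
  simpa only [BW_in] using this

theorem BW_form (A : BForm Ω) {u v : R3 → ℝ} (hu : MemLp u 2 (volume.restrict Ω))
    (hv : MemLp v 2 (volume.restrict Ω)) :
    A.form u v = (∫ x in Ω, A.a x * u x * v x) -
      ∫ p : R3 × R3, A.k p.1 p.2 * (u p.1 * v p.2)
        ∂(volume.restrict Ω).prod (volume.restrict Ω) := by
  rw [integral_prod _ (BW_kint A hu hv)]
  simp only [BW_in]
  rfl

theorem exists_isJ (h : Moll r c₀ J ρ) (hv : volume Ω ≠ ⊤) (t : ℝ) :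
    ∃ A : BForm Ω, IsJ A t J := by
  have : IsFiniteMeasure (volume.restrict Ω) := isFiniteMeasure_restrict.2 hv
  obtain ⟨M, -, hM⟩ := h.J_bdd
  have hb : ∀ x, ‖J x‖ ≤ M := fun x => by
    rw [Real.norm_eq_abs, abs_of_nonneg (h.J_nonneg x)]; exact hM x
  refine ⟨⟨fun x => 2 * t * ∫ z in Ω, J (x - z), fun x z => 2 * t * J (x - z), ?_, ?_, ?_, ?_⟩,
    fun _ => rfl, fun _ _ => rfl⟩
  · exact ((BW_mJ h).stronglyMeasurable.integral_prod_right'
      (ν := (volume : Measure R3).restrict Ω)).measurable.const_mul _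
  · exact (BW_mJ h).const_mul _
  · refine ⟨|2 * t| * (M * (volume.restrict Ω).real univ), fun x => ?_⟩
    rw [abs_mul]
    exact mul_le_mul_of_nonneg_left
      (norm_integral_le_of_norm_le_const (Eventually.of_forall fun z => hb _)) (abs_nonneg _)
  · exact (MemLp.of_bound (BW_mJ h).aestronglyMeasurable M
      (Eventually.of_forall fun p => hb _)).const_mul _

theorem IsJ.form_symm (hA : IsJ A t J) (h : Moll r c₀ J ρ) (hv : volume Ω ≠ ⊤) {u v : R3 → ℝ}
    (hu : Measurable u) (hu2 : MemLp u 2 (volume.restrict Ω)) (hv' : Measurable v)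
    (hv2 : MemLp v 2 (volume.restrict Ω)) : A.form u v = A.form v u := by
  have _ := hv
  have _ := hu
  have _ := hv'
  rw [BW_form A hu2 hv2, BW_form A hv2 hu2,
    ← integral_prod_swap fun p : R3 × R3 => A.k p.1 p.2 * (u p.1 * v p.2)]
  congr 1
  · exact integral_congr_ae (Eventually.of_forall fun x => by simp only; ring)
  · refine integral_congr_ae (Eventually.of_forall fun p => ?_)
    simp only [Prod.fst_swap, Prod.snd_swap, hA.k_eq]
    rw [← h.J_neg, neg_sub]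
    ring

theorem IsJ.form_eq (hA : IsJ A t J) (h : Moll r c₀ J ρ) (hv : volume Ω ≠ ⊤) {u : R3 → ℝ}
    (hu : Measurable u) (hu2 : MemLp u 2 (volume.restrict Ω)) :
    A.form u u = t * (nl Ω J u).toReal := by
  have : IsFiniteMeasure (volume.restrict Ω) := isFiniteMeasure_restrict.2 hv
  obtain ⟨M, -, hM⟩ := h.J_bdd
  have hb : ∀ x, ‖J x‖ ≤ M := fun x => by
    rw [Real.norm_eq_abs, abs_of_nonneg (h.J_nonneg x)]; exact hM x
  have hJ := (BW_mJ h).aestronglyMeasurable
    (μ := ((volume : Measure R3).restrict Ω).prod (volume.restrict Ω))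
  have i1 : Integrable (fun p : R3 × R3 => J (p.1 - p.2) * u p.1 ^ 2)
      ((volume.restrict Ω).prod (volume.restrict Ω)) :=
    (hu2.integrable_sq.comp_fst _).bdd_mul hJ (Eventually.of_forall fun p => hb _)
  have i2 : Integrable (fun p : R3 × R3 => J (p.1 - p.2) * u p.2 ^ 2)
      ((volume.restrict Ω).prod (volume.restrict Ω)) :=
    (hu2.integrable_sq.comp_snd _).bdd_mul hJ (Eventually.of_forall fun p => hb _)
  have i3 : Integrable (fun p : R3 × R3 => J (p.1 - p.2) * (u p.1 * u p.2))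
      ((volume.restrict Ω).prod (volume.restrict Ω)) :=
    ((BW_l2 hu2 hu2).integrable one_le_two).bdd_mul hJ (Eventually.of_forall fun p => hb _)
  have hx : (fun p : R3 × R3 => J (p.1 - p.2) * (u p.1 - u p.2) ^ 2) = fun p =>
      (J (p.1 - p.2) * u p.1 ^ 2 + J (p.1 - p.2) * u p.2 ^ 2) -
        2 * (J (p.1 - p.2) * (u p.1 * u p.2)) := funext fun p => by ring
  have i12 : Integrable (fun p : R3 × R3 => J (p.1 - p.2) * u p.1 ^ 2 + J (p.1 - p.2) * u p.2 ^ 2)
      ((volume.restrict Ω).prod (volume.restrict Ω)) := i1.add i2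
  have i4 : Integrable (fun p : R3 × R3 => J (p.1 - p.2) * (u p.1 - u p.2) ^ 2)
      ((volume.restrict Ω).prod (volume.restrict Ω)) := by
    rw [hx]; exact (i1.add i2).sub (i3.const_mul 2)
  have hm : Measurable fun p : R3 × R3 => ENNReal.ofReal (J (p.1 - p.2) * (u p.1 - u p.2) ^ 2) :=
    ((BW_mJ h).mul (((hu.comp measurable_fst).sub (hu.comp measurable_snd)).pow_const 2)).ennreal_ofReal
  have h0 : ∀ p : R3 × R3, 0 ≤ J (p.1 - p.2) * (u p.1 - u p.2) ^ 2 := fun p =>
    mul_nonneg (h.J_nonneg _) (sq_nonneg _)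
  have e1 : nl Ω J u = ENNReal.ofReal (∫ p : R3 × R3, J (p.1 - p.2) * (u p.1 - u p.2) ^ 2
      ∂(volume.restrict Ω).prod (volume.restrict Ω)) := by
    rw [ofReal_integral_eq_lintegral_ofReal i4 (Eventually.of_forall h0),
      lintegral_prod _ hm.aemeasurable]
    rfl
  have e2 : ∫ p : R3 × R3, J (p.1 - p.2) * u p.2 ^ 2 ∂(volume.restrict Ω).prod (volume.restrict Ω) =
      ∫ p : R3 × R3, J (p.1 - p.2) * u p.1 ^ 2 ∂(volume.restrict Ω).prod (volume.restrict Ω) := by
    rw [← integral_prod_swap fun p : R3 × R3 => J (p.1 - p.2) * u p.1 ^ 2]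
    refine integral_congr_ae (Eventually.of_forall fun p => ?_)
    simp only [Prod.fst_swap, Prod.snd_swap]
    rw [← h.J_neg, neg_sub]
  have e3 : ∫ x in Ω, A.a x * u x * u x = 2 * t * ∫ p : R3 × R3, J (p.1 - p.2) * u p.1 ^ 2
      ∂(volume.restrict Ω).prod (volume.restrict Ω) := by
    rw [integral_prod _ i1, ← integral_const_mul]
    refine integral_congr_ae (Eventually.of_forall fun x => ?_)
    simp only [hA.a_eq, integral_mul_const]
    ring
  have e4 : ∫ p : R3 × R3, A.k p.1 p.2 * (u p.1 * u p.2)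
      ∂(volume.restrict Ω).prod (volume.restrict Ω) =
      2 * t * ∫ p : R3 × R3, J (p.1 - p.2) * (u p.1 * u p.2)
        ∂(volume.restrict Ω).prod (volume.restrict Ω) := by
    rw [← integral_const_mul]
    refine integral_congr_ae (Eventually.of_forall fun p => ?_)
    simp only [hA.k_eq]
    ring
  rw [BW_form A hu2 hu2, e1, ENNReal.toReal_ofReal (integral_nonneg h0), e3, e4, hx,
    integral_sub i12 (i3.const_mul 2), integral_add i1 i2, integral_const_mul, e2]
  ring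

theorem BForm.form_sum (A : BForm Ω) {I : Type} [Fintype I] {e : I → R3 → ℝ}
    (hm : ∀ a, Measurable (e a)) (h2 : ∀ a, MemLp (e a) 2 (volume.restrict Ω)) (c : I → ℝ) :
    ∑ a, ∑ b, A.form (e a) (e b) * c a * c b =
      A.form (fun x => ∑ a, c a * e a x) (fun x => ∑ a, c a * e a x) := by
  have _ := hm
  have hs : MemLp (fun x => ∑ a, c a * e a x) 2 (volume.restrict Ω) :=
    memLp_finsetSum _ fun a _ => (h2 a).const_mul _
  have e1 : ∫ x in Ω, A.a x * (∑ a, c a * e a x) * (∑ a, c a * e a x) =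
      ∑ a, ∑ b, (∫ x in Ω, A.a x * e a x * e b x) * c a * c b := by
    simp only [← integral_mul_const]
    have hi : ∀ a b, Integrable (fun x => A.a x * e a x * e b x * c a * c b)
        (volume.restrict Ω) := fun a b => ((BW_aint A (h2 a) (h2 b)).mul_const _).mul_const _
    simp only [← integral_finsetSum _ fun b _ => hi _ b]
    rw [← integral_finsetSum _ fun a _ => integrable_finsetSum _ fun b _ => hi a b]
    refine integral_congr_ae (Eventually.of_forall fun x => ?_)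
    simp only
    rw [mul_assoc, Finset.sum_mul_sum, Finset.mul_sum]
    refine Finset.sum_congr rfl fun a _ => ?_
    rw [Finset.mul_sum]
    exact Finset.sum_congr rfl fun b _ => by ring
  have e2 : ∫ p : R3 × R3, A.k p.1 p.2 * ((∑ a, c a * e a p.1) * ∑ a, c a * e a p.2)
      ∂(volume.restrict Ω).prod (volume.restrict Ω) =
      ∑ a, ∑ b, (∫ p : R3 × R3, A.k p.1 p.2 * (e a p.1 * e b p.2)
        ∂(volume.restrict Ω).prod (volume.restrict Ω)) * c a * c b := by
    simp only [← integral_mul_const]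
    have hi : ∀ a b, Integrable (fun p : R3 × R3 => A.k p.1 p.2 * (e a p.1 * e b p.2) * c a * c b)
        ((volume.restrict Ω).prod (volume.restrict Ω)) := fun a b =>
      ((BW_kint A (h2 a) (h2 b)).mul_const _).mul_const _
    simp only [← integral_finsetSum _ fun b _ => hi _ b]
    rw [← integral_finsetSum _ fun a _ => integrable_finsetSum _ fun b _ => hi a b]
    refine integral_congr_ae (Eventually.of_forall fun x => ?_)
    simp only
    rw [Finset.sum_mul_sum, Finset.mul_sum]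
    refine Finset.sum_congr rfl fun a _ => ?_
    rw [Finset.mul_sum]
    exact Finset.sum_congr rfl fun b _ => by ring
  rw [BW_form A hs hs, e1, e2, ← Finset.sum_sub_distrib]
  refine Finset.sum_congr rfl fun a _ => ?_
  rw [← Finset.sum_sub_distrib]
  refine Finset.sum_congr rfl fun b _ => ?_
  rw [BW_form A (h2 a) (h2 b)]
  ring

theorem BW_inF (B : EB Ω (fun _ => 0)) (M : ℝ) (c : B.I M → ℝ) :
    InF Ω (fun _ => 0) (fun x => ∑ a, c a * B.eM M a x) (fun x => ∑ a, c a • B.gM M a x) :=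
  InF.sum pot_zero Finset.univ (e := B.eM M) (g := B.gM M) (fun a _ => B.inF a.1) c

theorem BW_w (hA : IsJ A t J) (h : Moll r c₀ J ρ) (hv : volume Ω ≠ ⊤)
    (B : EB Ω (fun _ => 0)) (M : ℝ) (c : B.I M → ℝ) :
    ∑ a, ∑ b, A.form (B.eM M a) (B.eM M b) * c a * c b =
      t * (nl Ω J fun x => ∑ a, c a * B.eM M a x).toReal := by
  rw [A.form_sum (B.on pot_zero M).meas (B.on pot_zero M).l2,
    hA.form_eq h hv (BW_inF B M c).mu ((BW_inF B M c).memLp_u pot_zero)]

theorem BW_ip (B : EB Ω (fun _ => 0)) (M : ℝ) (c : B.I M → ℝ) (a : B.I M) :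
    ip Ω (B.eM M a) (fun x => ∑ b, c b * B.eM M b x) = c a := by
  have ho := B.on pot_zero M
  rw [ip_comm, ip_sum_left pot_zero Finset.univ (e := B.eM M) (g := B.gM M)
    (fun a _ => B.inF a.1) c (ho.l2 a), Finset.sum_eq_single a, ho.nrm, mul_one]
  · intro b _ hb
    rw [ho.orth b a hb, mul_zero]
  · intro ha
    exact absurd (Finset.mem_univ a) ha

theorem IsJ.w_nonneg (hA : IsJ A t J) (h : Moll r c₀ J ρ) (hv : volume Ω ≠ ⊤) (ht : 0 ≤ t)
    (B : EB Ω (fun _ => 0)) (M : ℝ) (c : B.I M → ℝ) :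
    0 ≤ ∑ a, ∑ b, A.form (B.eM M a) (B.eM M b) * c a * c b := by
  rw [BW_w hA h hv]
  exact mul_nonneg ht ENNReal.toReal_nonneg

theorem IsJ.w_le (hA : IsJ A t J) (h : Moll r c₀ J ρ) (hΩ : MeasurableSet Ω) (hc : Convex ℝ Ω)
    (hv : volume Ω ≠ ⊤) (ht : 0 ≤ t) (B : EB Ω (fun _ => 0)) (M : ℝ) (c : B.I M → ℝ) :
    ∑ a, ∑ b, A.form (B.eM M a) (B.eM M b) * c a * c b ≤ t * ∑ a, B.ν a.1 * c a ^ 2 := by
  rw [BW_w hA h hv]
  refine mul_le_mul_of_nonneg_left ?_ ht
  have hs := BW_inF B M c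
  refine (ENNReal.toReal_le_of_le_ofReal (integral_nonneg fun _ => sq_nonneg _)
    (nl_le_inF h hΩ hc pot_zero hs)).trans (le_of_eq ?_)
  have e1 := qf_sum_left pot_zero Finset.univ (e := B.eM M) (g := B.gM M)
    (fun a _ => B.inF a.1) c hs
  have e2 : ∀ a : B.I M, qf Ω (fun _ => 0) (B.eM M a) (B.gM M a) (fun x => ∑ a, c a * B.eM M a x)
      (fun x => ∑ a, c a • B.gM M a x) = B.ν a.1 * c a := fun a => by
    rw [← BW_ip B M c a]
    exact B.eig a.1 _ _ hs
  simp only [e2] at e1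
  have e3 : ∑ a, c a * (B.ν a.1 * c a) = ∑ a, B.ν a.1 * c a ^ 2 :=
    Finset.sum_congr rfl fun a _ => by ring
  rw [← e3, ← e1]
  unfold qf
  simp only [real_inner_self_eq_norm_sq, zero_mul, add_zero]

theorem IsJ.w_le' (hA : IsJ A t J) (h : Moll r c₀ J ρ) (hv : volume Ω ≠ ⊤) (ht : 0 ≤ t)
    (ht1 : t ≤ 1) (B : EB Ω (fun _ => 0)) (M : ℝ) (c : B.I M → ℝ) :
    ∑ a, ∑ b, A.form (B.eM M a) (B.eM M b) * c a * c b ≤ 4 * (c₀ / r ^ 2) * ∑ a, c a ^ 2 := by
  have _ := ht
  rw [BW_w hA h hv]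
  have hs := BW_inF B M c
  have h2 := hs.memLp_u pot_zero
  have h4 : 0 ≤ 4 * (c₀ / r ^ 2) := mul_nonneg (by norm_num) h.c_nonneg
  have e1 : ∫ y in Ω, (∑ a, c a * B.eM M a y) ^ 2 = ∑ a, c a ^ 2 := by
    have e := ip_sum_left pot_zero Finset.univ (e := B.eM M) (g := B.gM M)
      (fun a _ => B.inF a.1) c h2
    simp only [BW_ip] at e
    simp only [sq]
    exact e
  have h1 := nl_le_l2 (Ω := Ω) h hs.mu
  rw [← ofReal_integral_eq_lintegral_ofReal h2.integrable_sq
    (Eventually.of_forall fun _ => sq_nonneg _), ← ENNReal.ofReal_mul h4, e1] at h1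
  have h5 := ENNReal.toReal_le_of_le_ofReal
    (mul_nonneg h4 (Finset.sum_nonneg fun _ _ => sq_nonneg _)) h1
  exact (mul_le_of_le_one_left ENNReal.toReal_nonneg ht1).trans h5

theorem IsJ.dens_eq (hA : IsJ A t J) (h : Moll r c₀ J ρ) (hv0 : volume Ω ≠ 0) (hv : volume Ω ≠ ⊤)
    {F : (ι → R3) → ℝ} (hF : Cc1 F) (i : ι) :
    ∫⁻ x, nlD Ω J F i x ∂muP Ω ι ≠ ⊤ ∧
      ∫ x, A.dens F i x ∂muP Ω ι = t * (∫⁻ x, nlD Ω J F i x ∂muP Ω ι).toReal := by
  have _ := hv0
  have hFm : Measurable F := hF.1.continuous.measurable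
  have hF2 : MemLp F 2 (muP Ω ι) := hF.memLp
  have hc : ∀ z : {j : ι // j ≠ i} → R3, Cc1 fun y => F (PLeg_gl i y z) := fun z => by
    simpa only [PLeg_gl_upd] using hF.slice i (PLeg_gl i 0 z)
  have hm : ∀ z : {j : ι // j ≠ i} → R3, Measurable fun y => F (PLeg_gl i y z) := fun z =>
    (hc z).1.continuous.measurable
  have h2 : ∀ z : {j : ι // j ≠ i} → R3,
      MemLp (fun y => F (PLeg_gl i y z)) 2 (volume.restrict Ω) := fun z =>
    (hc z).1.continuous.memLp_of_hasCompactSupport (hc z).2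
  have hD := (measurable_nlD Ω h.mJ hFm i).comp (PLeg_meas_gl i)
  have hs : ∀ z : {j : ι // j ≠ i} → R3, ∫⁻ y in Ω, nlD Ω J F i (PLeg_gl i y z) =
      nl Ω J fun y => F (PLeg_gl i y z) := fun z => by
    simp only [nlD, nl, PLeg_gl_self, PLeg_gl_upd]
  have hN : Measurable fun z : {j : ι // j ≠ i} → R3 => nl Ω J fun y => F (PLeg_gl i y z) := by
    simp only [← hs]
    exact hD.lintegral_prod_left' (μ := (volume : Measure R3).restrict Ω)
  have e1 : ∫⁻ x, nlD Ω J F i x ∂muP Ω ι =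
      ∫⁻ z, (nl Ω J fun y => F (PLeg_gl i y z)) ∂muP Ω {j : ι // j ≠ i} := by
    simp only [← hs]
    rw [PLeg_lint0 i]
    exact lintegral_prod_symm _ hD.aemeasurable
  have hQ : Measurable fun p : R3 × ({j : ι // j ≠ i} → R3) =>
      ENNReal.ofReal (F (PLeg_gl i p.1 p.2) ^ 2) :=
    ((hFm.comp (PLeg_meas_gl i)).pow_const 2).ennreal_ofReal
  have e2 : ∫⁻ z, (∫⁻ y in Ω, ENNReal.ofReal (F (PLeg_gl i y z) ^ 2)) ∂muP Ω {j : ι // j ≠ i} =
      ENNReal.ofReal (∫ x, F x ^ 2 ∂muP Ω ι) := by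
    rw [ofReal_integral_eq_lintegral_ofReal hF2.integrable_sq
      (Eventually.of_forall fun _ => sq_nonneg _), PLeg_lint0 i]
    exact (lintegral_prod_symm _ hQ.aemeasurable).symm
  have hfin : ∫⁻ z, (nl Ω J fun y => F (PLeg_gl i y z)) ∂muP Ω {j : ι // j ≠ i} ≠ ⊤ := by
    refine ne_top_of_le_ne_top ?_ (lintegral_mono fun z => nl_le_l2 h (hm z))
    rw [lintegral_const_mul' _ _ ENNReal.ofReal_ne_top, e2]
    exact ENNReal.mul_ne_top ENNReal.ofReal_ne_top ENNReal.ofReal_ne_top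
  rw [e1]
  refine ⟨hfin, ?_⟩
  rw [PLeg_int i (A.integrable_dens hFm hF2 i), ← integral_toReal hN.aemeasurable
    (ae_lt_top hN hfin), ← integral_const_mul]
  refine integral_congr_ae (Eventually.of_forall fun z => ?_)
  simp only
  rw [← hA.form_eq h hv (hm z) (h2 z), BForm.form,
    ← integral_sub (BW_aint A (h2 z) (h2 z)) (BW_kint' A (h2 z) (h2 z))]
  refine integral_congr_ae (Eventually.of_forall fun y => ?_)
  simp only [BForm.dens, PLeg_gl_self, PLeg_gl_upd]
  ring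

theorem boxOK_of_real {ε : ℝ} (hA : IsJ A (1 - ε) J) (h : Moll r c₀ J ρ) (hε : ε ≤ 1)
    (hv0 : volume Ω ≠ 0) (hv : volume Ω ≠ ⊤) {UN : (Fin 3 → R3) → ℝ} (hU : Wt3 UN) {c p q : ℝ}
    (hp : 0 ≤ p) (hq : 0 ≤ q) (hpq : p - q ≤ c)
    (hb : ∀ F : (ι → R3) → ℝ, Cc1 F → c * ∫ x, F x ^ 2 ∂muP Ω ι ≤
      QO Ω (fun _ => 0) UN F - ∑ i, ∫ x, A.dens F i x ∂muP Ω ι) : BoxOK Ω J ε UN ι p q := by
  intro F hF
  have hFm : Measurable F := hF.1.continuous.measurable
  have hF2 : MemLp F 2 (muP Ω ι) := hF.memLp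
  have hε' : 0 ≤ 1 - ε := sub_nonneg.2 hε
  have hd := fun i => hA.dens_eq h hv0 hv hF i
  have hN : 0 ≤ ∫ x, F x ^ 2 ∂muP Ω ι := integral_nonneg fun _ => sq_nonneg _
  have hd0 : ∀ i, 0 ≤ ∫ x, A.dens F i x ∂muP Ω ι := fun i => by
    rw [(hd i).2]; exact mul_nonneg hε' ENNReal.toReal_nonneg
  have i1 : Integrable (fun x => (∑ i, (‖pgrad F i x‖ ^ 2 + 0 * F x ^ 2)) +
      intP UN x * F x ^ 2) (muP Ω ι) := by
    simp only [PVs_intP]
    exact (integrable_finsetSum _ fun i _ => PVs_int1 pot_zero hF i).add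
      ((integrable_finsetSum _ fun σ _ => PVs_int2 hU hF.memLp σ).const_mul _)
  have eQ : QO Ω (fun _ => 0) UN F =
      ∫ x, ((∑ i, ‖pgrad F i x‖ ^ 2) + intP UN x * F x ^ 2) ∂muP Ω ι := by
    simp only [QO, zero_mul, add_zero]
  simp only [zero_mul, add_zero] at i1
  have i2 : Integrable (fun x => q * F x ^ 2) (muP Ω ι) := hF2.integrable_sq.const_mul q
  have i3 : Integrable (fun x => p * F x ^ 2) (muP Ω ι) := hF2.integrable_sq.const_mul p
  have hP : ∀ x : ι → R3, 0 ≤ intP UN x := fun x =>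
    mul_nonneg (by norm_num) (Finset.sum_nonneg fun σ _ => hU.nonneg _)
  have eR : ∫⁻ x, ENNReal.ofReal ((∑ i, ‖pgrad F i x‖ ^ 2) + intP UN x * F x ^ 2 + q * F x ^ 2)
      ∂muP Ω ι = ENNReal.ofReal (QO Ω (fun _ => 0) UN F + q * ∫ x, F x ^ 2 ∂muP Ω ι) := by
    rw [eQ, ← integral_const_mul, ← integral_add i1 i2]
    refine (ofReal_integral_eq_lintegral_ofReal (i1.add i2) (Eventually.of_forall fun x => ?_)).symm
    exact add_nonneg (add_nonneg (Finset.sum_nonneg fun _ _ => sq_nonneg _)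
      (mul_nonneg (hP x) (sq_nonneg _))) (mul_nonneg hq (sq_nonneg _))
  have eL : ∫⁻ x, (ENNReal.ofReal (p * F x ^ 2) + ENNReal.ofReal (1 - ε) * ∑ i, nlD Ω J F i x)
      ∂muP Ω ι = ENNReal.ofReal (p * (∫ x, F x ^ 2 ∂muP Ω ι) +
        ∑ i, ∫ x, A.dens F i x ∂muP Ω ι) := by
    rw [lintegral_add_left ((hFm.pow_const 2).const_mul p).ennreal_ofReal,
      lintegral_const_mul' _ _ ENNReal.ofReal_ne_top,
      lintegral_finsetSum _ fun i _ => measurable_nlD Ω h.mJ hFm i,
      ← ofReal_integral_eq_lintegral_ofReal i3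
        (Eventually.of_forall fun x => mul_nonneg hp (sq_nonneg _)), integral_const_mul,
      ENNReal.ofReal_add (mul_nonneg hp hN) (Finset.sum_nonneg fun i _ => hd0 i),
      ENNReal.ofReal_sum_of_nonneg fun i _ => hd0 i, Finset.mul_sum]
    congr 1
    refine Finset.sum_congr rfl fun i _ => ?_
    rw [(hd i).2, ENNReal.ofReal_mul hε', ENNReal.ofReal_toReal (hd i).1]
  rw [eL, eR]
  refine ENNReal.ofReal_le_ofReal ?_
  have h1 := hb F hF
  have h2 := mul_le_mul_of_nonneg_right hpq hN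
  linarith

end Pool.Agent.Lib.MP_8fe63c_mp
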