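import Pool.Agent.Lib.MP_8fe63c_mp.DDefs
import Pool.Agent.Lib.MP_8fe63c_mp.PVs
import Pool.Agent.Lib.MP_8fe63c_mp.RCmp
import Pool.Agent.Lib.MP_8fe63c_mp.RLoc
import Pool.Agent.Lib.MP_8fe63c_mp.NSrc

/-!
Basic identities for the data of the trapped gas.

Sketch. `F3_eq`: `sqU_inner`, `muP_univ`. `F4_eq`: `⟪υ α', y4 δ⟫ = coef (UN (om 3 x) * Y4 x) (snoc α' δ)` (`coef_snoc`;
`om 3 (snoc x z) = x`), then `coef_perm`, linearity (`coef` is an integral of an integrable function) and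
`Micro.F4_avg` at the point `s • x`. `FB_eq`, `FD_eq`, `FE_eq`: `Fin.append α γ` is an iterated `Fin.snoc`,
`coef_snoc`, `memLp_red`. `cmp`, `mac`: `exists_cmp`, `exists_mac` with the fields of `MicroB`.
-/

set_option linter.unusedSectionVars false

open MeasureTheory Set Filter Topology
open scoped ENNReal InnerProductSpace

namespace Pool.Agent.Lib.MP_8fe63c_mp

section aux

variable {ι : Type} [Fintype ι] [DecidableEq ι]

theorem DBas_meas_sc {F : (ι → R3) → ℝ} (h : Measurable F) (A s : ℝ) : Measurable (sc A s F) :=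
  (h.comp (HMac_meas_smul s)).const_mul A

theorem DBas_meas_tens {u : ι → R3 → ℝ} (h : ∀ j, Measurable (u j)) : Measurable (tens u) := by
  unfold tens
  exact Finset.measurable_prod _ fun j _ => (h j).comp (measurable_pi_apply j)

theorem DBas_memLp_tens {u : ι → R3 → ℝ} (h : ∀ j, MemLp (u j) 2 volume) :
    MemLp (tens u) 2 volume := by
  have := memLp_tens (Ω := univ) (u := u) fun j => by
    rw [Measure.restrict_univ]
    exact h j
  rwa [muP_univ] at this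

theorem DBas_sc_bdd [Nonempty ι] {F : (ι → R3) → ℝ} {K A : ℝ} (h : Nice0 F K) (hA : 0 ≤ A) (s : ℝ)
    (x : ι → R3) : |sc A s F x| ≤ A * K := by
  have h1 := h.mg ∅ Finset.univ_nonempty.ne_empty.symm (s • x)
  rw [marg_empty] at h1
  have h2 := (ENNReal.ofReal_le_ofReal_iff (zero_le_one.trans h.one_le)).mp h1
  unfold sc
  rw [abs_mul, abs_of_nonneg hA]
  exact mul_le_mul_of_nonneg_left h2 hA

theorem DBas_inner {UN f g : (Fin 3 → R3) → ℝ} (h : Wt3 UN) (hf : MemLp f 2 volume)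
    (hg : MemLp g 2 volume) : ⟪sqU univ UN f, sqU univ UN g⟫_ℝ = ∫ x, UN x * f x * g x := by
  have := sqU_inner (Ω := univ) h (f := f) (g := g) (by rwa [muP_univ]) (by rwa [muP_univ])
  rw [this, muP_univ]

theorem DBas_om_snoc (x : Fin 3 → R3) (y : R3) : om 3 (Fin.snoc x y) = x := by
  funext j
  fin_cases j <;> rfl

theorem DBas_marg_hw {F : (Fin 3 → R3) → ℝ} {K s : ℝ} (h : MajS 1 (eabs F) K) {a b c : Fin 3}
    (hF : ∀ y, F y ≠ 0 → ‖y a - y b‖ ≤ K) (hs : 0 < s) (hac : a ≠ c) (hbc : b ≠ c)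
    (x : Fin 3 → R3) : marg {c} (eabs (sc (s ^ 2) s F)) x ≤
      ENNReal.ofReal (K * (1 + K ^ 2) / s * hw s (x a - x b)) := by
  have h1 := h.scale (sq_nonneg s) hs
  have hc : ({c} : Finset (Fin 3)) ≠ Finset.univ := fun e =>
    hac (Finset.mem_singleton.mp (e ▸ Finset.mem_univ a))
  have h2 := h1.mg {c} hc x
  have h3 : ∀ y, eabs (sc (s ^ 2) s F) y ≤
      ENNReal.ofReal ((1 + K ^ 2) * hw s (y a - y b)) * eabs (sc (s ^ 2) s F) y := fun y => by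
    by_cases h0 : F (s • y) = 0
    · simp [eabs, sc, h0]
    · have h4 := HMicro_one_le_hw (hF _ h0)
      rw [HMac_hw'] at h4
      exact le_mul_of_one_le_left' (ENNReal.one_le_ofReal.mpr h4)
  refine (marg_mono _ h3 x).trans ?_
  rw [marg_mul_left _ h1.meas (c := fun y => ENNReal.ofReal ((1 + K ^ 2) * hw s (y a - y b)))
    fun y z hyz => by
      rw [hyz a (by simpa using hac), hyz b (by simpa using hbc)]]
  refine (mul_le_mul_right h2 _).trans (le_of_eq ?_)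
  have h5 := HMac_hw_nonneg s (x a - x b)
  rw [← ENNReal.ofReal_mul (by positivity), Finset.card_singleton]
  congr 1
  field_simp

theorem DBas_mac_mono {p : ℕ} {A s mm C C' : ℝ} {F : (Fin p → R3) → ℝ} (h : Mac A s mm C F)
    (hA : 0 ≤ A) (h1 : 1 ≤ mm) (hs : mm ≤ s) (hC : C ≤ C') : Mac A s mm C' F := by
  have m0 : 0 < mm := by linarith
  have s0 : 0 < s := by linarith
  have i1 : 0 ≤ (if p = 2 then s else 1) := by split_ifs <;> positivity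
  have i2 : 0 ≤ (if p = 2 then mm / s else (mm / s) ^ 2) := by split_ifs <;> positivity
  exact ⟨h.gd, h.ti, fun j => RCmp_margLe (h.l2 j) (by gcongr),
    fun i j => RCmp_margLe (h.wg i j) (by gcongr),
    fun B hB => RCmp_margLe (h.mg B hB) (by gcongr),
    fun B hB => RCmp_margLe (h.mg' B hB) (by gcongr), fun x => (h.diff x).trans (by gcongr)⟩

theorem DBas_sch {F : (ι → R3) → ℝ} {x t : ℝ} (h : Sch F x) (ht : 1 ≤ t) : Sch F (t * x) :=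
  fun j => by
    obtain ⟨m, m', h0, h0', h1, h2, h3⟩ := h j
    exact ⟨m, m', h0, h0', h1, h2,
      h3.trans (le_mul_of_one_le_left ((mul_nonneg h0 h0').trans h3) ht)⟩

theorem DBas_cmp_mono {m2 s ε x y t ε' x' y' : ℝ} {F k : (ι → R3) → ℝ} (h : Cmp m2 s ε x y F k)
    (ht : 1 ≤ t) (e1 : ε' = t * ε) (e2 : x' = t * x) (e3 : y' = t * y) :
    Cmp m2 s ε' x' y' F k := by
  subst e1 e2 e3
  have t0 : 0 < t := by linarith
  have h1 : ε ≤ t * ε := le_mul_of_one_le_left h.ε_pos.le ht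
  refine ⟨h.gd, h.m2_nonneg, h.s_pos, mul_pos t0 h.ε_pos, fun j => RCmp_margLe (h.l2 j) h1,
    fun i j => RCmp_margLe (h.wg i j) (by gcongr), DBas_sch h.sk ht, DBas_sch h.sF ht, ?_,
    mul_le_mul_of_nonneg_left h.x_le t0.le⟩
  have := mul_le_mul_of_nonneg_left h.xy (sq_nonneg t)
  linarith

end aux

namespace TS

variable (X : TS) {Λ mm s M : ℝ}

theorem K_ge : 1 ≤ X.K := X.hK.nU.one_le

theorem pot3 : Pot3 X.U X.K := X.S.pot.mono X.hK.K_le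

theorem wt (s : ℝ) : Wt3 (X.UN s) := wt3_sc X.pot3 (sq_nonneg s) s

theorem on (M : ℝ) : ON univ (X.e M) := X.T.B.on X.hWp M

theorem e_o (hM : X.T.μ ≤ M) : X.e M (X.dat Λ mm s M hM).o = X.T.φ := X.T.e_o

theorem prodE_oo (hM : X.T.μ ≤ M) (p : ℕ) :
    prodE (X.e M) ((X.dat Λ mm s M hM).oo p) = X.ph p := by
  funext x
  exact Finset.prod_congr rfl fun j _ => congrFun (X.e_o (Λ := Λ) (mm := mm) (s := s) hM) (x j)

theorem lam_eq (hM : X.T.μ ≤ M) (a : X.I M) :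
    (X.dat Λ mm s M hM).lam a = X.T.B.ν a.1 - X.T.μ := rfl

theorem mem_low (hM : X.T.μ ≤ M) (a : X.I M) :
    a ∈ (X.dat Λ mm s M hM).low ↔ X.T.B.ν a.1 ≤ X.T.μ + Λ := by
  simp only [dat, lv, Finset.mem_filter, Finset.mem_univ, true_and]

theorem mem_lowF (hM : X.T.μ ≤ M) {p : ℕ} (β : Fin p → X.I M) :
    β ∈ (X.dat Λ mm s M hM).lowF p ↔ ∀ j, X.T.B.ν (β j).1 ≤ X.T.μ + Λ := by
  unfold Lv.lowF
  rw [Fintype.mem_piFinset]
  exact forall_congr' fun j => X.mem_low hM (β j)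

theorem μ_nonneg : 0 ≤ X.T.μ := X.T.μ_nonneg X.hW X.hb0

theorem lam_nonneg (hM : X.T.μ ≤ M) (a : X.I M) : 0 ≤ (X.dat Λ mm s M hM).lam a := by
  rw [lam_eq]
  by_cases h : a.1 = X.T.o
  · rw [h, X.T.ν_o, sub_self]
  · have h1 := X.T.gap _ h
    have h2 := X.T.γ_pos
    linarith

theorem hi (h : X.Par Λ mm) (hM : X.T.μ ≤ M) (a : X.I M) (ha : a ∉ (X.dat Λ mm s M hM).low) :
    Λ ≤ (X.dat Λ mm s M hM).lam a ∧ (X.fr M).lt a ≤ 2 * (X.dat Λ mm s M hM).lam a := by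
  rw [mem_low, not_le] at ha
  have h1 := h.μ_le
  have h2 : (X.fr M).lt a = X.T.B.ν a.1 := rfl
  rw [lam_eq, h2]
  constructor <;> linarith

theorem hi3 (h : X.Par Λ mm) (hM : X.T.μ ≤ M) (a : X.I M) (ha : a ∉ (X.dat Λ mm s M hM).low) :
    1 ≤ (X.dat Λ mm s M hM).lam a ∧ (X.fr M).lt a + 1 ≤ 3 * (X.dat Λ mm s M hM).lam a := by
  obtain ⟨h1, h2⟩ := X.hi (s := s) h hM a ha
  have h3 := h.one_le
  constructor <;> linarith

theorem ν_le (hM : X.T.μ ≤ M) (a : X.I M) :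
    X.T.B.ν a.1 + 1 ≤ (1 + X.T.μ) * ((X.dat Λ mm s M hM).lam a + 1) := by
  have h1 := X.lam_nonneg (Λ := Λ) (mm := mm) (s := s) hM a
  have h2 := X.μ_nonneg
  have h3 := mul_nonneg h1 h2
  rw [lam_eq] at h1 h3 ⊢
  nlinarith

/-- bounds for the condensate wave function -/
structure Cond (M₀ : ℝ) : Prop where
  one_le : 1 ≤ M₀
  bf : BF X.Wp X.T.φ (X.T.B.g X.T.o) M₀
  bf2 : BF X.Wp (fun x => X.T.φ x ^ 2) (fun x => (2 * X.T.φ x) • X.T.B.g X.T.o x) M₀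
  l1 : Lip2 X.T.φ M₀
  l2 : Lip2 (fun x => X.T.φ x ^ 2) M₀
  l4 : Lip2 (fun x => X.T.φ x ^ 4) M₀

theorem exists_cond : ∃ M₀, X.Cond M₀ := by
  obtain ⟨M, h1, h⟩ := X.T.exists_BF X.hW X.hb0 X.T.μ
  have bf : BF X.Wp X.T.φ (X.T.B.g X.T.o) M := by
    have := h X.T.o X.T.ν_o.le
    rwa [X.T.e_o] at this
  have bf2 := bf.sq X.hWp h1
  have l2 := bf2.lip2 X.hWp
  have l4 := l2.mul l2
  have e : (fun x => X.T.φ x ^ 2 * X.T.φ x ^ 2) = fun x => X.T.φ x ^ 4 := by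
    funext x
    ring
  rw [e] at l4
  have a2 : 1 ≤ M ^ 2 := one_le_pow₀ h1
  have b2 : 2 * M ^ 2 ≤ 2 * (2 * M ^ 2) * (2 * M ^ 2) := by nlinarith
  have b1 : M ≤ 2 * (2 * M ^ 2) * (2 * M ^ 2) := by nlinarith
  exact ⟨_, h1.trans b1, bf.mono b1, bf2.mono b2, (bf.lip2 X.hWp).mono b1, l2.mono b2, l4⟩

/-- bounds for the low modes -/
theorem exists_low (Λ : ℝ) : ∃ M₁ : ℝ, 1 ≤ M₁ ∧
    (∀ a, X.T.B.ν a ≤ X.T.μ + Λ → BF X.Wp (X.T.B.e a) (X.T.B.g a) M₁) ∧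
    ∀ (mm s M : ℝ) (hM : X.T.μ ≤ M), ((X.dat Λ mm s M hM).low.card : ℝ) ≤ M₁ := by
  obtain ⟨M₀, h1, h⟩ := X.T.exists_BF X.hW X.hb0 (X.T.μ + Λ)
  refine ⟨max M₀ (X.T.B.fin (X.T.μ + Λ)).toFinset.card, h1.trans (le_max_left _ _),
    fun a ha => (h a ha).mono (le_max_left _ _), fun mm s M hM => le_trans ?_ (le_max_right _ _)⟩
  refine Nat.cast_le.mpr (Finset.card_le_card_of_injOn (fun a => a.1) (fun a ha => ?_)
    fun a _ b _ hab => Subtype.ext hab)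
  exact Finset.mem_coe.mpr ((Set.Finite.mem_toFinset _).mpr
    ((X.mem_low hM a).mp (Finset.mem_coe.mp ha)))

theorem ev_low {κ : Type} [Fintype κ] (L : ℝ) {P : (κ → X.T.B.J) → ℝ → Prop}
    (h : ∀ β, (∀ j, X.T.B.ν (β j) ≤ L) → ∀ᶠ M : ℝ in atTop, P β M) :
    ∀ᶠ M : ℝ in atTop, ∀ β, (∀ j, X.T.B.ν (β j) ≤ L) → P β M :=
  (eventually_all_finite (Set.Finite.pi' fun _ : κ => X.T.B.fin L)).mpr h

theorem UN_mul_fN (s : ℝ) (x : Fin 3 → R3) : X.UN s x * X.fN s x = X.F3N s x := by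
  unfold UN fN F3N sc F3o
  ring

theorem meas_F3N (s : ℝ) : Measurable (X.F3N s) := DBas_meas_sc X.hK.n3.meas _ _

theorem meas_F4N (s : ℝ) : Measurable (X.F4N s) := DBas_meas_sc X.hK.n4.meas _ _

theorem meas_v2N (s : ℝ) : Measurable (X.v2N s) := DBas_meas_sc X.hK.n2.meas _ _

theorem meas_fN (s : ℝ) : Measurable (X.fN s) :=
  (X.S.ω_meas.comp (HMac_meas_smul s)).const_sub 1

theorem meas_yN (s : ℝ) : Measurable (X.yN s) := (X.S.meas_y 3).comp (HMac_meas_smul s)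

theorem meas_ph (p : ℕ) : Measurable (X.ph p) := DBas_meas_tens fun _ => X.T.meas

theorem meas_ph2 : Measurable X.ph2 := DBas_meas_tens fun _ => X.T.meas.pow_const 2

theorem meas_Y4 (s : ℝ) : Measurable (X.Y4 s) := (X.meas_yN s).mul (X.meas_ph 4)

theorem memLp_φ : MemLp X.T.φ 2 volume := by
  obtain ⟨M, h⟩ := X.exists_cond
  exact h.l1.memLp

theorem memLp_e (a : X.I M) : MemLp (X.e M a) 2 volume := (X.fr M).toFrame.memLp a

theorem memLp_ph (p : ℕ) : MemLp (X.ph p) 2 volume := DBas_memLp_tens fun _ => X.memLp_φ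

theorem memLp_ph2 : MemLp X.ph2 2 volume := by
  obtain ⟨M, h⟩ := X.exists_cond
  exact DBas_memLp_tens fun _ => h.l2.memLp

/-- a bounded measurable factor preserves `L^2` -/
theorem memLp_bdd_mul {Y : Type} [MeasurableSpace Y] {μ : Measure Y} {a f : Y → ℝ} {K : ℝ}
    (ha : Measurable a) (hK : ∀ x, |a x| ≤ K) (hf : MemLp f 2 μ) :
    MemLp (fun x => a x * f x) 2 μ := PPar_memLp_mul hf ha hK

theorem F3N_bdd (s : ℝ) (x : Fin 3 → R3) : |X.F3N s x| ≤ s ^ 2 * X.K :=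
  DBas_sc_bdd X.hK.n3.toNice0 (sq_nonneg s) s x

theorem F4N_bdd (s : ℝ) (x : Fin 4 → R3) : |X.F4N s x| ≤ s ^ 2 * X.K :=
  DBas_sc_bdd X.hK.n4.toNice0 (sq_nonneg s) s x

theorem memLp_Y4 (s : ℝ) : MemLp (X.Y4 s) 2 volume :=
  memLp_bdd_mul (X.meas_yN s) (fun x => X.hK.y_bdd (s • x)) (X.memLp_ph 4)

theorem memLp_FA (s : ℝ) (β : Fin 3 → X.I M) :
    MemLp (fun x => X.F3N s x * prodE (X.e M) β x) 2 volume :=
  memLp_bdd_mul (X.meas_F3N s) (X.F3N_bdd s) (NBes_memLp_prodE (X.fr M).toFrame β)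

theorem memLp_FC (s : ℝ) : MemLp (fun x => X.F4N s x * X.ph 4 x) 2 volume :=
  memLp_bdd_mul (X.meas_F4N s) (X.F4N_bdd s) (X.memLp_ph 4)

theorem F3_eq (hM : X.T.μ ≤ M) (α β : Fin 3 → X.I M) : (X.dat Λ mm s M hM).F3 α β =
    coef (X.e M) (fun x => X.F3N s x * prodE (X.e M) β x) α := by
  have h1 : MemLp (fun x => X.fN s x * prodE (X.e M) β x) 2 volume :=
    memLp_bdd_mul (X.meas_fN s) (fun x => X.hK.f_bdd (s • x))
      (NBes_memLp_prodE (X.fr M).toFrame β)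
  refine (DBas_inner (X.wt s) (NBes_memLp_prodE (X.fr M).toFrame α) h1).trans ?_
  refine integral_congr_ae (Eventually.of_forall fun x => ?_)
  show X.UN s x * prodE (X.e M) α x * (X.fN s x * prodE (X.e M) β x) =
    X.F3N s x * prodE (X.e M) β x * prodE (X.e M) α x
  rw [← UN_mul_fN]
  ring

theorem FA_eq (hM : X.T.μ ≤ M) (β : Fin 3 → X.I M) : (X.dat Λ mm s M hM).FA β =
    coef (X.e M) fun x => X.F3N s x * prodE (X.e M) β x :=
  funext fun α => X.F3_eq hM α β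

theorem F4_eq (hM : X.T.μ ≤ M) :
    (X.dat Λ mm s M hM).F4 = coef (X.e M) fun x => X.F4N s x * X.ph 4 x := by
  funext α
  obtain ⟨K, hK⟩ := (X.wt s).bdd
  have mU : Measurable fun x : Fin 4 → R3 => X.UN s (om 3 x) :=
    (X.wt s).meas.comp (HMicro_om_meas 3)
  have bU : ∀ x : Fin 4 → R3, |X.UN s (om 3 x)| ≤ K := fun x => by
    rw [abs_of_nonneg ((X.wt s).nonneg _)]
    exact hK _
  have hG : MemLp (fun x => X.UN s (om 3 x) * X.Y4 s x) 2 volume :=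
    memLp_bdd_mul mU bU (X.memLp_Y4 s)
  have h1 : ∀ π : Equiv.Perm (Fin 4),
      ⟪(X.dat Λ mm s M hM).υ (fun j => α (π (Fin.castSucc j))),
        (X.dat Λ mm s M hM).y4 (α (π (Fin.last 3)))⟫_ℝ =
      ∫ x, X.UN s (om 3 (x ∘ π)) * X.Y4 s (x ∘ π) * prodE (X.e M) α x := fun π => by
    have e1 : α ∘ π = Fin.snoc (fun j => α (π (Fin.castSucc j))) (α (π (Fin.last 3))) :=
      (Fin.snoc_init_self (α ∘ π)).symm
    have e2 := coef_perm (X.e M) (fun x => X.UN s (om 3 x) * X.Y4 s x) π α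
    have e3 := coef_snoc (X.fr M).toFrame hG (fun j => α (π (Fin.castSucc j)))
      (α (π (Fin.last 3)))
    refine Eq.trans ?_ ((e3.symm.trans (congrArg _ e1.symm)).trans e2)
    refine (DBas_inner (X.wt s) (NBes_memLp_prodE (X.fr M).toFrame _)
      (memLp_red (X.meas_Y4 s) (X.memLp_Y4 s) ((X.on M).meas _) (X.memLp_e _))).trans ?_
    refine integral_congr_ae (Eventually.of_forall fun x => ?_)
    have e4 : red (fun x => X.UN s (om 3 x) * X.Y4 s x) (X.e M (α (π (Fin.last 3)))) x =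
        X.UN s x * red (X.Y4 s) (X.e M (α (π (Fin.last 3)))) x := by
      unfold red
      rw [← integral_const_mul]
      refine integral_congr_ae (Eventually.of_forall fun y => ?_)
      simp only [DBas_om_snoc]
      ring
    show X.UN s x * prodE (X.e M) (fun j => α (π (Fin.castSucc j))) x *
        red (X.Y4 s) (X.e M (α (π (Fin.last 3)))) x =
      red (fun x => X.UN s (om 3 x) * X.Y4 s x) (X.e M (α (π (Fin.last 3)))) x *
        prodE (X.e M) (fun j => α (π (Fin.castSucc j))) x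
    rw [e4]
    ring
  have h2 : ∀ π : Equiv.Perm (Fin 4), Integrable fun x : Fin 4 → R3 =>
      X.UN s (om 3 (x ∘ π)) * X.Y4 s (x ∘ π) * prodE (X.e M) α x := fun π => by
    have mp := measurePreserving_comp_perm univ π
    rw [muP_univ] at mp
    exact (hG.comp_measurePreserving mp).integrable_mul (NBes_memLp_prodE (X.fr M).toFrame α)
  unfold Dat.F4
  rw [Finset.sum_congr rfl fun π _ => h1 π, ← integral_finsetSum _ fun π _ => h2 π,
    ← integral_const_mul]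
  refine integral_congr_ae (Eventually.of_forall fun x => ?_)
  have e5 : ∀ π : Equiv.Perm (Fin 4), X.UN s (om 3 (x ∘ π)) * X.Y4 s (x ∘ π) * prodE (X.e M) α x =
      X.U (om 3 ((s • x) ∘ π)) * y4o X.S.ω X.S.g 3 ((s • x) ∘ π) *
        (s ^ 2 * X.ph 4 x * prodE (X.e M) α x) := fun π => by
    have e6 : X.ph 4 (x ∘ π) = X.ph 4 x := Equiv.prod_comp π fun j => X.T.φ (x j)
    have e7 : X.UN s (om 3 (x ∘ π)) = s ^ 2 * X.U (om 3 ((s • x) ∘ π)) := rfl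
    have e8 : X.Y4 s (x ∘ π) = y4o X.S.ω X.S.g 3 ((s • x) ∘ π) * X.ph 4 (x ∘ π) := rfl
    rw [e7, e8, e6]
    ring
  show (1 / 6 : ℝ) * ∑ π : Equiv.Perm (Fin 4),
      X.UN s (om 3 (x ∘ π)) * X.Y4 s (x ∘ π) * prodE (X.e M) α x =
    s ^ 2 * F4o X.U X.S.ω X.S.g (s • x) * X.ph 4 x * prodE (X.e M) α x
  rw [Finset.sum_congr rfl fun π _ => e5 π, ← Finset.sum_mul, ← mul_assoc, X.S.F4_avg]
  ring

theorem FB_eq (hM : X.T.μ ≤ M) (γ : Fin 1 → X.I M) (β : Fin 3 → X.I M) :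
    (X.dat Λ mm s M hM).FB γ β =
      coef (X.e M) (red (fun x => X.F3N s x * prodE (X.e M) β x) (X.e M (γ 0))) := by
  funext α
  unfold Dat.FB
  rw [F3_eq, Fin.append_right_eq_snoc]
  exact coef_snoc (X.fr M).toFrame (X.memLp_FA s β) α (γ 0)

theorem FD_eq (hM : X.T.μ ≤ M) (γ : Fin 1 → X.I M) : (X.dat Λ mm s M hM).FD γ =
    coef (X.e M) (red (fun x => X.F4N s x * X.ph 4 x) (X.e M (γ 0))) := by
  funext α
  unfold Dat.FD
  rw [F4_eq, Fin.append_right_eq_snoc]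
  exact coef_snoc (X.fr M).toFrame (X.memLp_FC s) α (γ 0)

theorem FE_eq (hM : X.T.μ ≤ M) (γ : Fin 2 → X.I M) : (X.dat Λ mm s M hM).FE γ =
    coef (X.e M) (red (red (fun x => X.F4N s x * X.ph 4 x) (X.e M (γ 1))) (X.e M (γ 0))) := by
  funext α
  unfold Dat.FE
  have e : (Fin.append α γ : Fin 4 → X.I M) = Fin.snoc (Fin.snoc α (γ 0) : Fin 3 → X.I M) (γ 1) := by
    funext j
    fin_cases j <;> rfl
  rw [F4_eq, e]
  exact (coef_snoc (X.fr M).toFrame (X.memLp_FC s) _ (γ 1)).trans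
    (coef_snoc (X.fr M).toFrame (memLp_red ((X.meas_F4N s).mul (X.meas_ph 4)) (X.memLp_FC s)
      ((X.on M).meas _) (X.memLp_e _)) α (γ 0))

theorem sum_υ (hM : X.T.μ ≤ M) (c : (Fin 3 → X.I M) → ℝ) :
    ∑ α, c α • (X.dat Λ mm s M hM).υ α = sqU univ (X.UN s) (hat (X.e M) c) :=
  sum_ups (X.wt s) (X.on M).l2 c

theorem norm_sqU (s : ℝ) {f : (Fin 3 → R3) → ℝ} (hf : MemLp f 2 volume) :
    ‖sqU univ (X.UN s) f‖ ^ 2 = ∫ x, X.UN s x * f x ^ 2 := by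
  have h := sqU_norm_sq (Ω := univ) (X.wt s) (f := f) (by rwa [muP_univ])
  rw [h, muP_univ]

theorem norm_sum_υ (hM : X.T.μ ≤ M) (c : (Fin 3 → X.I M) → ℝ) :
    ‖∑ α, c α • (X.dat Λ mm s M hM).υ α‖ ^ 2 = ∫ x, X.UN s x * hat (X.e M) c x ^ 2 := by
  rw [sum_υ]
  exact X.norm_sqU s (NBes_memLp_hat (X.fr M).toFrame c)

theorem DBas_norm {A : Type} [Fintype A] (τ : A → Fin 3 → X.I M) (c : A → ℝ) (s : ℝ) :
    ‖∑ q, c q • ups univ (X.UN s) (X.e M) (τ q)‖ ^ 2 =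
      ∫ x, X.UN s x * (∑ q, c q * prodE (X.e M) (τ q) x) ^ 2 := by
  unfold ups
  rw [sqU_sum (X.wt s) _ fun q _ => memLp_prodE (X.on M).l2 (τ q)]
  exact X.norm_sqU s (memLp_finsetSum _ fun q _ =>
    (NBes_memLp_prodE (X.fr M).toFrame (τ q)).const_mul (c q))

/-- two free legs and the condensate in the last leg -/
theorem norm_sum_υ2 (hM : X.T.μ ≤ M) (c : X.I M → X.I M → ℝ) :
    ‖∑ a, ∑ b, c a b • (X.dat Λ mm s M hM).υ ![a, b, (X.dat Λ mm s M hM).o]‖ ^ 2 =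
      ∫ x, X.UN s x * ((∑ a, ∑ b, c a b * X.e M a (x 0) * X.e M b (x 1)) * X.T.φ (x 2)) ^ 2 := by
  rw [← Fintype.sum_prod_type' fun a b =>
    c a b • (X.dat Λ mm s M hM).υ ![a, b, (X.dat Λ mm s M hM).o]]
  refine (X.DBas_norm (fun q : X.I M × X.I M => ![q.1, q.2, (X.dat Λ mm s M hM).o])
    (fun q => c q.1 q.2) s).trans ?_
  refine integral_congr_ae (Eventually.of_forall fun x => ?_)
  simp only [Fintype.sum_prod_type, Finset.sum_mul, prodE, Fin.prod_univ_three, mul_assoc,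
    Matrix.cons_val_zero, Matrix.cons_val_one, Matrix.cons_val, X.e_o hM]

theorem norm_sum_υ3 (hM : X.T.μ ≤ M) (c : X.I M → X.I M → X.I M → ℝ) :
    ‖∑ a, ∑ b, ∑ d, c a b d • (X.dat Λ mm s M hM).υ ![a, b, d]‖ ^ 2 =
      ∫ x, X.UN s x *
        (∑ a, ∑ b, ∑ d, c a b d * X.e M a (x 0) * X.e M b (x 1) * X.e M d (x 2)) ^ 2 := by
  have e : ∑ a, ∑ b, ∑ d, c a b d • (X.dat Λ mm s M hM).υ ![a, b, d] =
      ∑ q : X.I M × X.I M × X.I M, c q.1 q.2.1 q.2.2 •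
        (X.dat Λ mm s M hM).υ ![q.1, q.2.1, q.2.2] := by
    simp only [Fintype.sum_prod_type]
  rw [e]
  refine (X.DBas_norm (fun q : X.I M × X.I M × X.I M => ![q.1, q.2.1, q.2.2])
    (fun q => c q.1 q.2.1 q.2.2) s).trans ?_
  refine integral_congr_ae (Eventually.of_forall fun x => ?_)
  simp only [Fintype.sum_prod_type, prodE, Fin.prod_univ_three, mul_assoc,
    Matrix.cons_val_zero, Matrix.cons_val_one, Matrix.cons_val]

theorem w_eq (hM : X.T.μ ≤ M) (a b : X.I M) : (X.dat Λ mm s M hM).w a b =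
    ∫ x, X.b / 2 * X.T.φ x ^ 4 * X.e M a x * X.e M b x := by
  refine (BForm.mul_form _ X.a_meas X.a_bdd _ _).trans ?_
  rw [Measure.restrict_univ]

theorem v2N_eq (hs : 0 < s) (x : Fin 2 → R3) : X.v2N s x = ∫ y, X.F3N s (Fin.snoc x y) := by
  have e : ∀ y : R3, X.F3N s (Fin.snoc x y) =
      s ^ 2 * F3o X.U X.S.ω (Fin.snoc (s • x) (s • y)) := fun y => by
    have : s • (Fin.snoc x y : Fin 3 → R3) = Fin.snoc (s • x) (s • y) := by
      funext j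
      fin_cases j <;> rfl
    rw [← this]
    rfl
  have h := Measure.integral_comp_smul (volume : Measure R3)
    (fun y => F3o X.U X.S.ω (Fin.snoc (s • x) y)) s
  rw [finrank_euclideanSpace_fin, abs_of_nonneg (by positivity), smul_eq_mul] at h
  simp only [e]
  rw [integral_const_mul, h, ← mul_assoc]
  have e2 : s ^ 2 * (s ^ 3)⁻¹ = s⁻¹ := by field_simp
  rw [e2]
  rfl

theorem UN_le (s : ℝ) (x : Fin 3 → R3) : X.UN s x ≤ s ^ 2 * X.K :=
  mul_le_mul_of_nonneg_left (X.pot3.le _) (sq_nonneg s)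

theorem UN_le_hw (s : ℝ) (x : Fin 3 → R3) (a b : Fin 3) :
    X.UN s x ≤ s ^ 2 * X.K * (1 + X.K ^ 2) * hw s (x a - x b) := by
  have hK := X.K_ge
  have h0 := HMac_hw_nonneg s (x a - x b)
  by_cases h : X.U (s • x) = 0
  · have : X.UN s x = 0 := by
      show s ^ 2 * X.U (s • x) = 0
      rw [h, mul_zero]
    rw [this]
    positivity
  · have h1 := HMicro_one_le_hw (X.pot3.supp _ h a b)
    rw [HMac_hw'] at h1
    rw [mul_assoc (s ^ 2 * X.K)]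
    exact (X.UN_le s x).trans (le_mul_of_one_le_right (by positivity) h1)

theorem marg_UN (hs : 0 < s) {A : Finset (Fin 3)} (hA : A ≠ Finset.univ) :
    MargLe A (eabs (X.UN s)) (s ^ 2 * X.K / s ^ (3 * A.card)) :=
  (X.hK.mU.scale (sq_nonneg s) hs).mg A hA

/-- integration of one point of the three-body kernels keeps the other two points close -/
theorem marg_UN_hw (hs : 0 < s) {a b c : Fin 3} (hab : a ≠ b) (hac : a ≠ c) (hbc : b ≠ c)
    (x : Fin 3 → R3) :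
    marg {c} (eabs (X.UN s)) x ≤ ENNReal.ofReal (X.K * (1 + X.K ^ 2) / s * hw s (x a - x b)) ∧
    marg {c} (eabs (X.F3N s)) x ≤
      ENNReal.ofReal (X.K * (1 + X.K ^ 2) / s * hw s (x a - x b)) :=
  ⟨DBas_marg_hw X.hK.mU (fun y hy => X.pot3.supp y hy a b) hs hac hbc x,
    DBas_marg_hw X.hK.m3 (fun y hy => X.pot3.supp y (left_ne_zero_of_mul hy) a b) hs hac hbc x⟩

theorem b_le : X.b ≤ X.K := by
  rw [X.hb]
  exact (le_abs_self _).trans (relInt_le X.hK.n3.toNice0)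

theorem mac : ∃ C : ℝ, 1 ≤ C ∧ ∀ mm s : ℝ, 1 ≤ mm → mm ≤ s →
    Mac s⁻¹ s mm C (v2o X.U X.S.ω) ∧ Mac (s ^ 2) s mm C (F3o X.U X.S.ω) ∧
      Mac (s ^ 2) s mm C (F4o X.U X.S.ω X.S.g) := by
  obtain ⟨C2, a2, h2⟩ := exists_mac 2 le_rfl X.K
  obtain ⟨C3, a3, h3⟩ := exists_mac 3 (by norm_num) X.K
  obtain ⟨C4, a4, h4⟩ := exists_mac 4 (by norm_num) X.K
  refine ⟨C2 + C3 + C4, by linarith, fun mm s h1 hs => ?_⟩
  have s0 : 0 < s := by linarith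
  exact ⟨DBas_mac_mono (h2 _ _ _ _ X.hK.n2 (by positivity) h1 hs) (by positivity) h1 hs
      (by linarith),
    DBas_mac_mono (h3 _ _ _ _ X.hK.n3 (by positivity) h1 hs) (by positivity) h1 hs (by linarith),
    DBas_mac_mono (h4 _ _ _ _ X.hK.n4 (by positivity) h1 hs) (by positivity) h1 hs (by linarith)⟩

theorem cmp : ∃ C : ℝ, 1 ≤ C ∧ ∀ mm s : ℝ, 1 ≤ mm → mm ≤ s →
    Cmp (mm ^ 2) s (C / s ^ 8) (C / s ^ 8) (C / s ^ 8) (X.v2N s) (X.k2 mm s) ∧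
    Cmp (mm ^ 2) s (C / s ^ 6) (C / s ^ 7) (C / s ^ 5) (X.F3N s) (X.k3 mm s) ∧
    Cmp (mm ^ 2) s (C / s ^ 9) (C / s ^ 10) (C / s ^ 8) (X.F4N s) (X.k4 mm s) := by
  obtain ⟨C2, a2, h2⟩ := exists_cmp 2 le_rfl X.K
  obtain ⟨C3, a3, h3⟩ := exists_cmp 3 (by norm_num) X.K
  obtain ⟨C4, a4, h4⟩ := exists_cmp 4 (by norm_num) X.K
  have b23 := one_le_mul_of_one_le_of_one_le a2 a3
  have b24 := one_le_mul_of_one_le_of_one_le a2 a4
  have b34 := one_le_mul_of_one_le_of_one_le a3 a4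
  refine ⟨C2 * C3 * C4, one_le_mul_of_one_le_of_one_le b23 a4, fun mm s h1 hs => ?_⟩
  have s0 : 0 < s := by linarith
  refine ⟨DBas_cmp_mono (h2 _ _ _ _ X.hK.n2 (inv_pos.mpr s0) h1 hs) b34 ?_ ?_ ?_,
    DBas_cmp_mono (h3 _ _ _ _ X.hK.n3 (pow_pos s0 2) h1 hs) b24 ?_ ?_ ?_,
    DBas_cmp_mono (h4 _ _ _ _ X.hK.n4 (pow_pos s0 2) h1 hs) b23 ?_ ?_ ?_⟩ <;>
  · norm_num
    field_simp

theorem k_diff : ∃ C : ℝ, 1 ≤ C ∧ ∀ mm s : ℝ, 1 ≤ mm → mm ≤ s →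
    (∀ x, |X.k2 mm s x - green 0 (v2o X.U X.S.ω) (s • x) / s ^ 3| ≤ C * mm / s ^ 4) ∧
    (∀ x, |X.k3 mm s x - X.S.ω (s • x)| ≤ C * mm ^ 2 / s ^ 2) ∧
    ∀ x, |X.k4 mm s x + X.S.g (s • x)| ≤ C * mm ^ 2 / s ^ 2 := by
  obtain ⟨C, hC, h⟩ := X.mac
  refine ⟨C, hC, fun mm s h1 hs => ?_⟩
  have s0 : 0 < s := by linarith
  obtain ⟨h2, h3, h4⟩ := h mm s h1 hs
  have e1 : s ^ 2 / s ^ 2 = 1 := div_self (by positivity)
  refine ⟨fun x => ?_, fun x => ?_, fun x => ?_⟩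
  · have := h2.diff x
    rw [if_pos rfl] at this
    have e2 : s⁻¹ / s ^ 2 * green 0 (v2o X.U X.S.ω) (s • x) =
        green 0 (v2o X.U X.S.ω) (s • x) / s ^ 3 := by field_simp
    have e3 : C * s⁻¹ / s ^ 2 * (mm / s) = C * mm / s ^ 4 := by field_simp
    rwa [e2, e3] at this
  · have := h3.diff x
    rw [if_neg (by norm_num), e1, one_mul, ← X.S.ω_eq] at this
    have e3 : C * s ^ 2 / s ^ 2 * (mm / s) ^ 2 = C * mm ^ 2 / s ^ 2 := by field_simp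
    rwa [e3] at this
  · have := h4.diff x
    rw [if_neg (by norm_num), e1, one_mul] at this
    have e3 : C * s ^ 2 / s ^ 2 * (mm / s) ^ 2 = C * mm ^ 2 / s ^ 2 := by field_simp
    rw [X.S.g_eq, ← sub_eq_add_neg]
    rwa [e3] at this

theorem memLp_T (h1 : 1 ≤ mm) (h2 : mm ≤ s) :
    (Measurable (X.T2 mm s) ∧ MemLp (X.T2 mm s) 2 volume) ∧
    (Measurable (X.T3 mm s) ∧ MemLp (X.T3 mm s) 2 volume) ∧
    (Measurable (X.T4 mm s) ∧ MemLp (X.T4 mm s) 2 volume) := by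
  obtain ⟨C, -, h⟩ := X.mac
  obtain ⟨g2, g3, g4⟩ := h mm s h1 h2
  obtain ⟨m2, K2, b2⟩ := RCmp_kb g2.gd
  obtain ⟨m3, K3, b3⟩ := RCmp_kb g3.gd
  obtain ⟨m4, K4, b4⟩ := RCmp_kb g4.gd
  exact ⟨⟨m2.mul X.meas_ph2, memLp_bdd_mul m2 b2 X.memLp_ph2⟩,
    ⟨m3.mul (X.meas_ph 3), memLp_bdd_mul m3 b3 (X.memLp_ph 3)⟩,
    m4.mul (X.meas_ph 4), memLp_bdd_mul m4 b4 (X.memLp_ph 4)⟩

variable {X}
variable {P Q : ℝ → ℝ → (M : ℝ) → Dat (X.I M) (Lp ℝ 2 (muP univ (Fin 3))) → Prop}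

theorem Ev.and (h : X.Ev Λ mm P) (h' : X.Ev Λ mm Q) :
    X.Ev Λ mm fun C s M D => P C s M D ∧ Q C s M D :=
  (Eventually.and h h').mono fun _ hC s hs =>
    ((hC.1 s hs).and (hC.2 s hs)).mono fun _ hM h0 => ⟨hM.1 h0, hM.2 h0⟩

theorem Ev.mono (h : X.Ev Λ mm P)
    (h' : ∀ C s M (hM : X.T.μ ≤ M), mm ≤ s → P C s M (X.dat Λ mm s M hM) →
      Q C s M (X.dat Λ mm s M hM)) : X.Ev Λ mm Q :=
  Eventually.mono h fun C hC s hs => (hC s hs).mono fun M hM h0 => h' C s M h0 hs (hM h0)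

theorem Ev.of (C₁ : ℝ) (h : ∀ s, mm ≤ s → ∀ᶠ M : ℝ in atTop, ∀ hM : X.T.μ ≤ M, ∀ C, C₁ ≤ C →
    P C s M (X.dat Λ mm s M hM)) : X.Ev Λ mm P :=
  (eventually_ge_atTop C₁).mono fun C hC s hs => (h s hs).mono fun _ hM h0 => hM h0 C hC

theorem Ev.of_all (C₁ : ℝ) (h : ∀ C, C₁ ≤ C → ∀ s, mm ≤ s → ∀ (M : ℝ) (hM : X.T.μ ≤ M),
    P C s M (X.dat Λ mm s M hM)) : X.Ev Λ mm P :=
  (eventually_ge_atTop C₁).mono fun C hC s hs => Eventually.of_forall (h C hC s hs)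

/-- a single constant -/
theorem Ev.exists (h : X.Ev Λ mm P) : ∃ C : ℝ, 1 ≤ C ∧ ∀ s : ℝ, mm ≤ s → ∀ᶠ M : ℝ in atTop,
    ∀ hM : X.T.μ ≤ M, P C s M (X.dat Λ mm s M hM) :=
  ((eventually_ge_atTop (1 : ℝ)).and h).exists

end TS

end Pool.Agent.Lib.MP_8fe63c_mp
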