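import Pool.Agent.Lib.MP_8fe63c_mp.DBas
import Pool.Agent.Lib.MP_8fe63c_mp.ASos

/-!
Basic hypotheses, Hardy inequalities, symmetry of the trial kernels, tangent inequality.

Sketch. Symmetries: `coef_perm`, `integral_comp_perm`, `Micro.symm_F3`, `Symm.kap`. `h0`: `norm_sum_υ`,
`UN_le_hw`, `hardy_synth` with `A = univ`, `b = 0` (`synth_univ`, `cfg_univ`, `marg_univ`), `ν_le`. `h1`: integrate
the point `2` (`marg_UN_hw`, `φ ≤ M₀`), then `hardy_synth` for two legs (or for `A = {0, 1}`). `h2`: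
`lintegral_mul_single_le`, `marg_UN`. `sos`: `sos_point` with `v a = e a y`, `lam = N φ y ^ 2`, multiply by
`b / (6 N^2)` and integrate over `y`; `∑ a ∈ low, e a y ^ 2 ≤ M₁^3` and its integral is the number of low modes.
-/

set_option linter.unusedSectionVars false

open MeasureTheory Set Filter Topology
open scoped ENNReal InnerProductSpace

namespace Pool.Agent.Lib.MP_8fe63c_mp

section aux

variable {I ι κ : Type} [Fintype I] [DecidableEq I] [Fintype ι] [DecidableEq ι]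
  [Fintype κ] [DecidableEq κ]

theorem DBase_int_le {Y : Type} [MeasurableSpace Y] {μ : Measure Y} {f : Y → ℝ} {c : ℝ}
    (h0 : ∀ x, 0 ≤ f x) (hc : 0 ≤ c) (h : ∫⁻ x, ENNReal.ofReal (f x) ∂μ ≤ ENNReal.ofReal c) :
    ∫ x, f x ∂μ ≤ c := by
  by_cases hf : Integrable f μ
  · rw [← ofReal_integral_eq_lintegral_ofReal hf (Eventually.of_forall h0)] at h
    exact (ENNReal.ofReal_le_ofReal_iff hc).1 h
  · rw [integral_undef hf]
    exact hc

theorem DBase_hi (L : Lv I) (π : Equiv.Perm κ) (α : κ → I) : L.Hi (α ∘ π) ↔ L.Hi α :=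
  ⟨fun h j => by simpa using h (π.symm j), fun h j => h (π j)⟩

theorem DBase_coef (e : I → R3 → ℝ) {F : (κ → R3) → ℝ} (hF : Symm F) (π : Equiv.Perm κ)
    (α : κ → I) : coef e F (α ∘ π) = coef e F α := by
  rw [coef_perm]
  congr 1
  exact funext (hF π)

theorem DBase_symm_mul {k : (κ → R3) → ℝ} (hk : Symm k) (u : R3 → ℝ) :
    Symm fun x => k x * tens (fun _ => u) x := fun π x => by
  simp only [hk π x, tens, Function.comp_apply]
  rw [Equiv.prod_comp π fun j => u (x j)]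

theorem DBase_symm_sc {F : (κ → R3) → ℝ} (hF : Symm F) (A s : ℝ) : Symm (sc A s F) :=
  fun π x => congrArg (fun t => A * t) (hF π (s • x))

theorem DBase_prodE (e : I → R3 → ℝ) (π : Equiv.Perm κ) (α : κ → I) (x : κ → R3) :
    prodE e (α ∘ π) (x ∘ π) = prodE e α x :=
  Equiv.prod_comp π fun j => e (α j) (x j)

theorem DBase_cfg (L : Lv I) (f : (Fin 3 → I) → ℝ) :
    ∑ α ∈ L.cfg {0, 1}, f α = ∑ a, ∑ b, f ![a, b, L.o] := by
  rw [Lv.cfg, Finset.sum_filter, ASos_sum3]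
  refine Finset.sum_congr rfl fun a _ => Finset.sum_congr rfl fun b _ => ?_
  rw [Finset.sum_eq_single L.o]
  · rw [if_pos]
    intro j hj
    fin_cases j
    · simp at hj
    · simp at hj
    · rfl
  · intro c _ hc
    exact if_neg fun h => hc (h 2 (by decide))
  · intro h
    exact absurd (Finset.mem_univ _) h

theorem DBase_meas_hw (s : ℝ) (a b : κ) : Measurable fun x : κ → R3 => hw s (x a - x b) := by
  unfold hw
  fun_prop

theorem DBase_hw_nonneg (s : ℝ) (r : R3) : 0 ≤ hw s r := by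
  unfold hw
  positivity

/-- integrable with a given integral -/
def DBase_HI (f : R3 → ℝ) (r : ℝ) : Prop := Integrable f ∧ ∫ y, f y = r

theorem DBase_HI.sum {α : Type} (S : Finset α) {f : α → R3 → ℝ} {r : α → ℝ}
    (h : ∀ a ∈ S, DBase_HI (f a) (r a)) : DBase_HI (fun y => ∑ a ∈ S, f a y) (∑ a ∈ S, r a) :=
  ⟨integrable_finsetSum _ fun a ha => (h a ha).1, by
    rw [integral_finsetSum _ fun a ha => (h a ha).1]
    exact Finset.sum_congr rfl fun a ha => (h a ha).2⟩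

theorem DBase_HI.mul_const {f : R3 → ℝ} {r : ℝ} (h : DBase_HI f r) (c : ℝ) :
    DBase_HI (fun y => f y * c) (r * c) :=
  ⟨h.1.mul_const c, by rw [integral_mul_const, h.2]⟩

theorem DBase_HI.const_mul {f : R3 → ℝ} {r : ℝ} (h : DBase_HI f r) (c : ℝ) :
    DBase_HI (fun y => c * f y) (c * r) :=
  ⟨h.1.const_mul c, by rw [integral_const_mul, h.2]⟩

theorem DBase_HI.add {f g : R3 → ℝ} {r t : ℝ} (h : DBase_HI f r) (h' : DBase_HI g t) :
    DBase_HI (fun y => f y + g y) (r + t) :=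
  ⟨h.1.add h'.1, by rw [integral_add h.1 h'.1, h.2, h'.2]⟩

theorem DBase_HI.le {f g : R3 → ℝ} {r t : ℝ} (h : DBase_HI f r) (h' : DBase_HI g t)
    (hle : ∀ y, f y ≤ g y) : r ≤ t := by
  rw [← h.2, ← h'.2]
  exact integral_mono h.1 h'.1 hle

theorem DBase_HI_ob (L : Lv I) {k : R3 → I → I → ℝ} {w : I → I → ℝ}
    (h : ∀ a b, DBase_HI (fun y => k y a b) (w a b)) (Ψ : (ι → I) → ℝ) :
    DBase_HI (fun y => ob (L.wLL (k y)) Ψ) (ob (L.wLL w) Ψ) := by
  refine DBase_HI.sum _ fun i _ => DBase_HI.sum _ fun α _ => DBase_HI.sum _ fun δ _ =>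
    DBase_HI.mul_const (DBase_HI.mul_const ?_ _) _
  unfold Lv.wLL
  split_ifs
  · exact h _ _
  · exact ⟨integrable_zero _ _ _, integral_zero _ _⟩

theorem DBase_HI_T3 (L : Lv I) {k : R3 → (Fin 3 → I) → (Fin 3 → I) → ℝ}
    {B : (Fin 3 → I) → (Fin 3 → I) → ℝ} (h : ∀ β β', DBase_HI (fun y => k y β β') (B β β'))
    (Ψ : (ι → I) → ℝ) : DBase_HI (fun y => L.T3 (k y) Ψ) (L.T3 B Ψ) :=
  DBase_HI.const_mul (DBase_HI.sum _ fun _ _ => DBase_HI.sum _ fun _ _ => DBase_HI.sum _ fun _ _ =>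
    DBase_HI.sum _ fun _ _ => DBase_HI.mul_const (DBase_HI.mul_const (h _ _) _) _) _

theorem DBase_ob_mul (L : Lv I) (t : ℝ) (w : I → I → ℝ) (Ψ : (ι → I) → ℝ) :
    ob (L.wLL fun a b => t * w a b) Ψ = t * ob (L.wLL w) Ψ := by
  simp only [ob, Finset.mul_sum]
  refine Finset.sum_congr rfl fun i _ => Finset.sum_congr rfl fun α _ =>
    Finset.sum_congr rfl fun δ _ => ?_
  unfold Lv.wLL
  split_ifs <;> ring

theorem DBase_T3_mul (L : Lv I) (t : ℝ) (B : (Fin 3 → I) → (Fin 3 → I) → ℝ) (Ψ : (ι → I) → ℝ) :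
    L.T3 (fun β β' => t * B β β') Ψ = t * L.T3 B Ψ := by
  simp only [Lv.T3, Finset.mul_sum]
  refine Finset.sum_congr rfl fun _ _ => Finset.sum_congr rfl fun _ _ =>
    Finset.sum_congr rfl fun _ _ => Finset.sum_congr rfl fun _ _ => ?_
  ring

end aux

namespace TS

variable (X : TS) {Λ mm s M : ℝ}

theorem trialS (hM : X.T.μ ≤ M) : (X.dat Λ mm s M hM).TrialS := by
  refine ⟨fun π α => ?_, fun π α => ?_, fun π α => ?_, fun α h => if_neg h, fun α h => if_neg h,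
    fun α h => if_neg h⟩
  · have h : Symm (X.T2 mm s) := DBase_symm_mul (X.S.symm_v2.kap _ _ _) _
    exact if_congr (DBase_hi _ π α) (by rw [DBase_coef _ h]) rfl
  · have h : Symm (X.T3 mm s) := DBase_symm_mul (X.S.symm_F3.kap _ _ _) _
    exact if_congr (DBase_hi _ π α) (by rw [DBase_coef _ h]) rfl
  · have h : Symm (X.T4 mm s) := DBase_symm_mul (X.S.symm_F4.kap _ _ _) _
    exact if_congr (DBase_hi _ π α) (by rw [DBase_coef _ h]) rfl

theorem DBase_υ_symm (hM : X.T.μ ≤ M) (π : Equiv.Perm (Fin 3)) (c : (Fin 3 → X.I M) → ℝ) :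
    ‖∑ α, c α • (X.dat Λ mm s M hM).υ (α ∘ π)‖ = ‖∑ α, c α • (X.dat Λ mm s M hM).υ α‖ := by
  let E : (Fin 3 → X.I M) ≃ (Fin 3 → X.I M) :=
    ⟨fun α => α ∘ π, fun α => α ∘ π.symm, fun α => by funext j; simp, fun α => by funext j; simp⟩
  have h1 : ∑ α, c α • (X.dat Λ mm s M hM).υ (α ∘ π) =
      ∑ α, c (E.symm α) • (X.dat Λ mm s M hM).υ α := by
    rw [← E.sum_comp fun α => c (E.symm α) • (X.dat Λ mm s M hM).υ α]
    simp only [Equiv.symm_apply_apply]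
    rfl
  refine (sq_eq_sq₀ (norm_nonneg _) (norm_nonneg _)).1 ?_
  rw [h1, X.norm_sum_υ, X.norm_sum_υ, ← integral_comp_perm π]
  congr 1
  funext x
  have h2 : hat (X.e M) (fun α => c (E.symm α)) (x ∘ π) = hat (X.e M) c x := by
    unfold hat
    rw [← E.sum_comp fun α => c (E.symm α) * prodE (X.e M) α (x ∘ π)]
    simp only [Equiv.symm_apply_apply]
    exact Finset.sum_congr rfl fun α _ => congrArg (fun t => c α * t) (DBase_prodE _ π α x)
  have h3 : X.UN s (x ∘ π) = X.UN s x := DBase_symm_sc X.S.pot.symm _ _ π x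
  rw [h2, h3]

theorem base (h : X.Par Λ mm) (C₀ : ℝ) (hC : 1 ≤ C₀) :
    X.Ev Λ mm fun C s _ D => D.Univ s Λ C₀ → D.Base X.T.γ Λ C₀ C := by
  obtain ⟨M₁, -, -, hcard⟩ := X.exists_low Λ
  refine Ev.of_all (max C₀ M₁) fun C hC' s _ M hM u => ?_
  have ho : X.T.B.ν (X.dat Λ mm s M hM).o.1 = X.T.μ := X.T.ν_o
  refine ⟨?_, ?_, X.T.γ_pos, fun a ha => ?_, h.one_le, fun a ha => (X.hi h hM a ha).1, hC,
    (le_max_left _ _).trans hC', (hcard mm s M hM).trans ((le_max_right _ _).trans hC'),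
    fun a b => ?_, u.w_op, fun π α β => ?_, X.DBase_υ_symm hM⟩
  · rw [X.mem_low, ho]
    linarith [h.one_le]
  · rw [X.lam_eq, ho, sub_self]
  · have := X.T.gap a.1 fun e => ha (Subtype.ext e)
    rw [X.lam_eq]
    linarith
  · rw [X.w_eq, X.w_eq]
    congr 1
    funext x
    ring
  · rw [X.F3_eq, X.F3_eq, coef_perm]
    congr 1
    funext x
    have h3 : X.F3N s (x ∘ π) = X.F3N s x := DBase_symm_sc X.S.symm_F3 _ _ π x
    rw [h3, DBase_prodE]

theorem DBase_lt_le (hM : X.T.μ ≤ M) (a : X.I M) :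
    (X.fr M).lt a ≤ (1 + X.T.μ) * ((X.dat Λ mm s M hM).lam a + 1) :=
  (le_add_of_nonneg_right zero_le_one).trans (X.ν_le hM a)

theorem DBase_h0 (hs : 0 < s) (hM : X.T.μ ≤ M) (c : (Fin 3 → X.I M) → ℝ) :
    ‖∑ α, c α • (X.dat Λ mm s M hM).υ α‖ ^ 2 ≤ 4 * (X.K * (1 + X.K ^ 2)) * (1 + X.T.μ) *
      ∑ α, ((X.dat Λ mm s M hM).lam (α 0) + 1) * c α ^ 2 := by
  have hK := X.K_ge
  have hK1 : 0 ≤ s ^ 2 * X.K * (1 + X.K ^ 2) := by positivity
  have h1 := hardy_synth (X.lv Λ M hM) (X.fr M).toFrame hs (A := Finset.univ) (a := (1 : Fin 3))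
    (b := 0) (by decide) (Finset.mem_univ _) c 0
  rw [marg_univ, synth_univ, Lv.cfg_univ] at h1
  have hn : 0 ≤ ∑ α : Fin 3 → X.I M, (X.fr M).lt (α 0) * c α ^ 2 :=
    Finset.sum_nonneg fun α _ => mul_nonneg ((X.fr M).lt_nonneg _) (sq_nonneg _)
  have h2 : ∫ x, X.UN s x * hat (X.e M) c x ^ 2 ≤ s ^ 2 * X.K * (1 + X.K ^ 2) *
      (4 / s ^ 2 * ∑ α : Fin 3 → X.I M, (X.fr M).lt (α 0) * c α ^ 2) := by
    refine DBase_int_le (fun x => mul_nonneg ((X.wt s).nonneg x) (sq_nonneg _))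
      (by positivity) ?_
    rw [ENNReal.ofReal_mul hK1]
    refine le_trans ?_ (mul_le_mul' le_rfl h1)
    rw [← lintegral_const_mul' _ _ ENNReal.ofReal_ne_top]
    refine lintegral_mono fun x => ?_
    rw [← ENNReal.ofReal_mul hK1, ← mul_assoc]
    exact ENNReal.ofReal_le_ofReal
      (mul_le_mul_of_nonneg_right (X.UN_le_hw s x 1 0) (sq_nonneg _))
  rw [X.norm_sum_υ]
  refine h2.trans ?_
  have h3 : ∑ α : Fin 3 → X.I M, (X.fr M).lt (α 0) * c α ^ 2 ≤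
      (1 + X.T.μ) * ∑ α, ((X.dat Λ mm s M hM).lam (α 0) + 1) * c α ^ 2 := by
    rw [Finset.mul_sum]
    refine Finset.sum_le_sum fun α _ => ?_
    rw [← mul_assoc]
    exact mul_le_mul_of_nonneg_right (X.DBase_lt_le hM _) (sq_nonneg _)
  have e : s ^ 2 * X.K * (1 + X.K ^ 2) *
      (4 / s ^ 2 * ∑ α : Fin 3 → X.I M, (X.fr M).lt (α 0) * c α ^ 2) =
      4 * (X.K * (1 + X.K ^ 2)) * ∑ α : Fin 3 → X.I M, (X.fr M).lt (α 0) * c α ^ 2 := by
    field_simp
  rw [e, mul_assoc (4 * (X.K * (1 + X.K ^ 2)))]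
  exact mul_le_mul_of_nonneg_left h3 (by positivity)

theorem DBase_φ_sq (y : R3) : X.T.φ y ^ 2 ≤ X.T.M ^ 2 :=
  pow_le_pow_left₀ (X.T.φ_nonneg y) (X.T.φ_le y) 2

theorem DBase_eabs (s : ℝ) (x : Fin 3 → R3) : eabs (X.UN s) x = ENNReal.ofReal (X.UN s x) := by
  rw [eabs, abs_of_nonneg ((X.wt s).nonneg x)]

theorem DBase_meas_UN (s : ℝ) : Measurable (eabs (X.UN s)) :=
  (X.wt s).meas.abs.ennreal_ofReal

theorem DBase_h1 (hs : 0 < s) (hM : X.T.μ ≤ M) (c : X.I M → X.I M → ℝ) :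
    ‖∑ a, ∑ b, c a b • (X.dat Λ mm s M hM).υ ![a, b, (X.dat Λ mm s M hM).o]‖ ^ 2 ≤
      4 * (X.K * (1 + X.K ^ 2)) * (1 + X.T.μ) * X.T.M ^ 2 / s ^ 3 *
        ∑ a, ∑ b, ((X.dat Λ mm s M hM).lam a + 1) * c a b ^ 2 := by
  have hK := X.K_ge
  have hK1 : 0 ≤ X.T.M ^ 2 * (X.K * (1 + X.K ^ 2) / s) := by positivity
  let L := X.lv Λ M hM
  let g := synth L (X.e M) ({0, 1} : Finset (Fin 3)) fun α => c (α 0) (α 1)
  have hg : ∀ x, g x = ∑ a, ∑ b, c a b * X.e M a (x 0) * X.e M b (x 1) := by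
    intro x
    simp only [g, synth]
    rw [DBase_cfg]
    refine Finset.sum_congr rfl fun a _ => Finset.sum_congr rfl fun b _ => ?_
    rw [Finset.prod_pair (by decide), mul_assoc]
    rfl
  have hgm : Measurable g := measurable_synth L (X.on M).meas _ _
  have h1 : marg {0, 1} (fun x => ENNReal.ofReal (hw s (x 1 - x 0) * g x ^ 2)) 0 ≤ _ :=
    hardy_synth L (X.fr M).toFrame hs (A := {0, 1}) (a := (1 : Fin 3))
      (b := 0) (by decide) (by decide) (fun α => c (α 0) (α 1)) 0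
  rw [DBase_cfg] at h1
  have hn : 0 ≤ ∑ a, ∑ b, (X.fr M).lt a * c a b ^ 2 := Finset.sum_nonneg fun a _ =>
    Finset.sum_nonneg fun b _ => mul_nonneg ((X.fr M).lt_nonneg _) (sq_nonneg _)
  have h2 : ∫ x, X.UN s x * (g x * X.T.φ (x 2)) ^ 2 ≤ X.T.M ^ 2 * (X.K * (1 + X.K ^ 2) / s) *
      (4 / s ^ 2 * ∑ a, ∑ b, (X.fr M).lt a * c a b ^ 2) := by
    refine DBase_int_le (fun x => mul_nonneg ((X.wt s).nonneg x) (sq_nonneg _))
      (by positivity) ?_
    have hG : Measurable fun x => ENNReal.ofReal (X.T.M ^ 2 * g x ^ 2) :=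
      ((hgm.pow_const 2).const_mul _).ennreal_ofReal
    calc ∫⁻ x, ENNReal.ofReal (X.UN s x * (g x * X.T.φ (x 2)) ^ 2)
        ≤ ∫⁻ x, ENNReal.ofReal (X.T.M ^ 2 * g x ^ 2) * eabs (X.UN s) x := by
          refine lintegral_mono fun x => ?_
          rw [X.DBase_eabs, ← ENNReal.ofReal_mul (by positivity), mul_comm (_ * _), mul_pow,
            mul_comm (X.T.M ^ 2)]
          exact ENNReal.ofReal_le_ofReal (mul_le_mul_of_nonneg_left
            (mul_le_mul_of_nonneg_left (X.DBase_φ_sq _) (sq_nonneg _)) ((X.wt s).nonneg x))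
      _ = marg {0, 1} (marg {2}
            fun x => ENNReal.ofReal (X.T.M ^ 2 * g x ^ 2) * eabs (X.UN s) x) 0 := by
          rw [← marg_union (hG.fun_mul (X.DBase_meas_UN s)) (by decide), ← marg_univ 0]
          congr 1
      _ ≤ marg {0, 1} (fun x => ENNReal.ofReal (X.T.M ^ 2 * (X.K * (1 + X.K ^ 2) / s)) *
            ENNReal.ofReal (hw s (x 1 - x 0) * g x ^ 2)) 0 := by
          refine marg_mono _ (fun x => ?_) 0
          rw [marg_mul_left {2} (X.DBase_meas_UN s)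
            (c := fun x => ENNReal.ofReal (X.T.M ^ 2 * g x ^ 2)) fun x y hxy => by
              simp only [hg, hxy 0 (by decide), hxy 1 (by decide)]]
          refine (mul_le_mul' le_rfl (X.marg_UN_hw hs (a := 1) (b := 0) (c := 2) (by decide)
            (by decide) (by decide) x).1).trans (le_of_eq ?_)
          rw [← ENNReal.ofReal_mul (by positivity), ← ENNReal.ofReal_mul hK1]
          congr 1
          ring
      _ ≤ _ := by
          rw [marg_mul_left _ ((DBase_meas_hw s 1 0).fun_mul (hgm.pow_const 2)).ennreal_ofReal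
            (c := fun _ => ENNReal.ofReal (X.T.M ^ 2 * (X.K * (1 + X.K ^ 2) / s)))
            (fun _ _ _ => rfl), ENNReal.ofReal_mul hK1]
          exact mul_le_mul' le_rfl h1
  rw [X.norm_sum_υ2]
  simp only [← hg]
  refine h2.trans ?_
  have h3 : ∑ a, ∑ b, (X.fr M).lt a * c a b ^ 2 ≤
      (1 + X.T.μ) * ∑ a, ∑ b, ((X.dat Λ mm s M hM).lam a + 1) * c a b ^ 2 := by
    simp only [Finset.mul_sum]
    refine Finset.sum_le_sum fun a _ => Finset.sum_le_sum fun b _ => ?_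
    rw [← mul_assoc]
    exact mul_le_mul_of_nonneg_right (X.DBase_lt_le hM _) (sq_nonneg _)
  refine (mul_le_mul_of_nonneg_left (mul_le_mul_of_nonneg_left h3 (by positivity)) hK1).trans
    (le_of_eq ?_)
  field_simp

theorem DBase_h2 (hs : 0 < s) (hM : X.T.μ ≤ M) (c : X.I M → ℝ) :
    ‖∑ a, c a • (X.dat Λ mm s M hM).υ ![a, (X.dat Λ mm s M hM).o, (X.dat Λ mm s M hM).o]‖ ^ 2 ≤
      X.T.M ^ 2 * X.T.M ^ 2 * X.K / s ^ 4 * ∑ a, c a ^ 2 := by
  have hK := X.K_ge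
  have h0 := X.norm_sum_υ2 (Λ := Λ) (mm := mm) (s := s) hM
    fun a b => if b = (X.dat Λ mm s M hM).o then c a else 0
  simp only [ite_smul, zero_smul, ite_mul, zero_mul, Finset.sum_ite_eq', Finset.mem_univ,
    if_true, X.e_o hM] at h0
  rw [h0]
  have hm : Measurable fun y => ENNReal.ofReal ((∑ a, c a * X.e M a y) ^ 2) :=
    ((Finset.measurable_sum _ fun a _ => ((X.on M).meas a).const_mul _).pow_const 2).ennreal_ofReal
  have h1 := lintegral_mul_single_le (X.DBase_meas_UN s) 0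
    (X.marg_UN hs (A := Finset.univ.erase 0) (by decide)) hm
  have h2 : ∫⁻ y, ENNReal.ofReal ((∑ a, c a * X.e M a y) ^ 2) ≤ _ := NBes_bes (X.fr M).toFrame c
  rw [← ENNReal.ofReal_sum_of_nonneg fun a _ => sq_nonneg _] at h2
  have hc : ((Finset.univ : Finset (Fin 3)).erase 0).card = 2 := by decide
  rw [hc] at h1
  refine DBase_int_le (fun x => mul_nonneg ((X.wt s).nonneg x) (sq_nonneg _)) (by positivity) ?_
  calc _ ≤ ∫⁻ x : Fin 3 → R3, ENNReal.ofReal (X.T.M ^ 2 * X.T.M ^ 2) *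
        (eabs (X.UN s) x * ENNReal.ofReal ((∑ a, c a * X.e M a (x 0)) ^ 2)) := by
        refine lintegral_mono fun x => ?_
        rw [X.DBase_eabs, ← ENNReal.ofReal_mul ((X.wt s).nonneg x),
          ← ENNReal.ofReal_mul (by positivity), ← Finset.sum_mul]
        refine ENNReal.ofReal_le_ofReal ?_
        have h3 := mul_le_mul (X.DBase_φ_sq (x 1)) (X.DBase_φ_sq (x 2)) (sq_nonneg _)
          (sq_nonneg _)
        have h4 := mul_le_mul_of_nonneg_right h3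
          (mul_nonneg ((X.wt s).nonneg x) (sq_nonneg (∑ a, c a * X.e M a (x 0))))
        refine le_trans (le_of_eq ?_) h4
        ring
    _ ≤ ENNReal.ofReal (X.T.M ^ 2 * X.T.M ^ 2) * (ENNReal.ofReal (s ^ 2 * X.K / s ^ (3 * 2)) *
        ENNReal.ofReal (∑ a, c a ^ 2)) := by
        rw [lintegral_const_mul' _ _ ENNReal.ofReal_ne_top]
        exact mul_le_mul' le_rfl (h1.trans (mul_le_mul' le_rfl h2))
    _ = _ := by
        rw [← ENNReal.ofReal_mul (by positivity), ← ENNReal.ofReal_mul (by positivity)]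
        congr 1
        field_simp

theorem hardy (h : X.Par Λ mm) : X.Ev Λ mm fun C s _ D => D.Hardy s C := by
  refine Ev.of_all (max (4 * (X.K * (1 + X.K ^ 2)) * (1 + X.T.μ))
    (max (4 * (X.K * (1 + X.K ^ 2)) * (1 + X.T.μ) * X.T.M ^ 2) (X.T.M ^ 2 * X.T.M ^ 2 * X.K)))
    fun C hC s hs M hM => ?_
  have hs0 : 0 < s := by linarith [h.mm_ge]
  have hl : ∀ a, 0 ≤ (X.dat Λ mm s M hM).lam a + 1 := fun a => by
    linarith [X.lam_nonneg (Λ := Λ) (mm := mm) (s := s) hM a]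
  simp only [max_le_iff] at hC
  refine ⟨fun c => (X.DBase_h0 hs0 hM c).trans ?_, fun c => (X.DBase_h1 hs0 hM c).trans ?_,
    fun c => (X.DBase_h2 hs0 hM c).trans ?_⟩
  · exact mul_le_mul_of_nonneg_right hC.1
      (Finset.sum_nonneg fun α _ => mul_nonneg (hl _) (sq_nonneg _))
  · exact mul_le_mul_of_nonneg_right (div_le_div_of_nonneg_right hC.2.1 (by positivity))
      (Finset.sum_nonneg fun a _ => Finset.sum_nonneg fun b _ => mul_nonneg (hl _) (sq_nonneg _))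
  · exact mul_le_mul_of_nonneg_right (div_le_div_of_nonneg_right hC.2.2 (by positivity))
      (Finset.sum_nonneg fun a _ => sq_nonneg _)

theorem M_oo (hM : X.T.μ ≤ M) : (X.dat Λ mm s M hM).M ((X.dat Λ mm s M hM).oo 3)
    ((X.dat Λ mm s M hM).oo 3) = -3 * X.eC := by
  have e : (X.dat Λ mm s M hM).M ((X.dat Λ mm s M hM).oo 3) ((X.dat Λ mm s M hM).oo 3) =
      X.b * ∫ y, ∏ _j : Fin 3, (X.e M (X.dat Λ mm s M hM).o y * X.e M (X.dat Λ mm s M hM).o y) :=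
    rfl
  have e2 : ∀ y, ∏ _j : Fin 3, (X.T.φ y * X.T.φ y) = X.T.φ y ^ 6 := fun y => by
    rw [Fin.prod_const]
    ring
  rw [e, X.e_o hM, eC]
  simp only [e2]
  ring

theorem w_oo (hM : X.T.μ ≤ M) : (X.dat Λ mm s M hM).w (X.dat Λ mm s M hM).o
    (X.dat Λ mm s M hM).o = -(3 / 2) * X.eC := by
  have e2 : ∀ y, X.b / 2 * X.T.φ y ^ 4 * X.T.φ y * X.T.φ y = X.b / 2 * X.T.φ y ^ 6 :=
    fun y => by ring
  rw [X.w_eq, X.e_o hM, eC]
  simp only [e2]
  rw [integral_const_mul]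
  ring

theorem DBase_int2 {k : R3 → ℝ} (hk : Measurable k) {K : ℝ} (hK : ∀ y, |k y| ≤ K) (a b : X.I M) :
    Integrable fun y => k y * X.e M a y * X.e M b y :=
  (memLp_bdd_mul hk hK (X.memLp_e a)).integrable_mul (X.memLp_e b)

theorem DBase_int6 (β β' : Fin 3 → X.I M) :
    Integrable fun y => ∏ j, (X.e M (β j) y * X.e M (β' j) y) := by
  have hb : ∀ a : X.I M, ∃ K : ℝ, ∀ y, |X.e M a y| ≤ K := fun a => X.T.bdd a.1
  choose K hK using hb
  have hm := (X.on M).meas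
  have h := X.DBase_int2 (k := fun y => X.e M (β 0) y * X.e M (β' 0) y *
      (X.e M (β 1) y * X.e M (β' 1) y)) (((hm _).mul (hm _)).mul ((hm _).mul (hm _)))
    (K := K (β 0) * K (β' 0) * (K (β 1) * K (β' 1))) (fun y => by
      have h0 : ∀ a, 0 ≤ K a := fun a => (abs_nonneg _).trans (hK a y)
      simp only [abs_mul]
      exact mul_le_mul (mul_le_mul (hK _ y) (hK _ y) (abs_nonneg _) (h0 _))
        (mul_le_mul (hK _ y) (hK _ y) (abs_nonneg _) (h0 _)) (by positivity)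
        (mul_nonneg (h0 _) (h0 _))) (β 2) (β' 2)
  refine h.congr (Eventually.of_forall fun y => ?_)
  simp only [Fin.prod_univ_three]
  ring

theorem sos (h : X.Par Λ mm) : X.Ev Λ mm fun C s M D => ∀ (ι : Type) [Fintype ι] [DecidableEq ι],
    s ^ 2 = Fintype.card ι → ∀ Ψ : (ι → X.I M) → ℝ,
      (X.eC * s ^ 2 - C) * nsq Ψ ≤ D.T3 D.M Ψ / s ^ 4 - ob (D.wLL D.w) Ψ := by
  obtain ⟨M₁, hM₁, hbf, hcard⟩ := X.exists_low Λ
  refine Ev.of_all (X.b / 2 * M₁ ^ 7) fun C hC s hs M hM ι _ _ hN Ψ => ?_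
  have hs0 : 0 < s := by linarith [h.mm_ge]
  have hb := X.hb0
  have hn : 0 ≤ nsq Ψ := Finset.sum_nonneg fun _ _ => sq_nonneg _
  obtain ⟨Ka, hKa⟩ := X.a_bdd
  set D := X.dat Λ mm s M hM with hD
  have I1 : DBase_HI (fun y => ob (D.wLL fun a b =>
      X.b / 2 * X.T.φ y ^ 4 * (X.e M a y * X.e M b y)) Ψ) (ob (D.wLL D.w) Ψ) := by
    refine DBase_HI_ob _ (fun a b => ?_) Ψ
    simp only [← mul_assoc]
    exact ⟨X.DBase_int2 X.a_meas hKa a b, (X.w_eq hM a b).symm⟩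
  have I2 : DBase_HI (fun y => D.T3 (fun β β' =>
      X.b * ∏ j, (X.e M (β j) y * X.e M (β' j) y)) Ψ) (D.T3 D.M Ψ) :=
    DBase_HI_T3 _ (fun β β' => DBase_HI.const_mul ⟨X.DBase_int6 β β', rfl⟩ _) Ψ
  have I3 : DBase_HI (fun y => X.T.φ y ^ 6) (∫ y, X.T.φ y ^ 6) := by
    refine ⟨(X.DBase_int6 (M := M) (fun _ => D.o) fun _ => D.o).congr
      (Eventually.of_forall fun y => ?_), rfl⟩
    have e : X.e M D.o = X.T.φ := X.e_o hM
    simp only [e, Fin.prod_const]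
    ring
  have I4 : DBase_HI (fun y => ∑ a ∈ D.low, X.e M a y ^ 2) (∑ _a ∈ D.low, 1) := by
    refine DBase_HI.sum _ fun a _ => ⟨(X.memLp_e a).integrable_sq, ?_⟩
    have := (X.on M).nrm a
    simpa only [ip, Measure.restrict_univ, sq] using this
  have hρ : ∀ y, (∑ a ∈ D.low, X.e M a y ^ 2) ^ 3 ≤ M₁ ^ 6 * ∑ a ∈ D.low, X.e M a y ^ 2 := by
    intro y
    have h0 : 0 ≤ ∑ a ∈ D.low, X.e M a y ^ 2 := Finset.sum_nonneg fun _ _ => sq_nonneg _
    have h1 : ∑ a ∈ D.low, X.e M a y ^ 2 ≤ M₁ ^ 3 := by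
      have h2 : ∑ a ∈ D.low, X.e M a y ^ 2 ≤ ∑ _a ∈ D.low, M₁ ^ 2 :=
        Finset.sum_le_sum fun a ha => by
          rw [← sq_abs]
          exact pow_le_pow_left₀ (abs_nonneg _) ((hbf a.1 ((X.mem_low hM a).1 ha)).bdd y) 2
      rw [Finset.sum_const, nsmul_eq_mul] at h2
      have h3 := mul_le_mul_of_nonneg_right (hcard mm s M hM) (sq_nonneg M₁)
      calc _ ≤ M₁ * M₁ ^ 2 := h2.trans h3
        _ = _ := by ring
    have h2 := mul_le_mul_of_nonneg_right (pow_le_pow_left₀ h0 h1 2) h0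
    calc _ = (∑ a ∈ D.low, X.e M a y ^ 2) ^ 2 * ∑ a ∈ D.low, X.e M a y ^ 2 := by ring
      _ ≤ _ := h2
      _ = _ := by ring
  have key := I1.le (((I2.mul_const (1 / s ^ 4)).add
    (I3.mul_const (X.b / 3 * s ^ 2 * nsq Ψ))).add (I4.mul_const (X.b / 2 * M₁ ^ 6 * nsq Ψ)))
    fun y => by
      have h1 := sos_point D.toLv (fun a => X.e M a y) (lam := s ^ 2 * X.T.φ y ^ 2)
        (by positivity) Ψ
      rw [← hN] at h1
      have h2 := mul_le_mul_of_nonneg_left h1 (show 0 ≤ X.b / (6 * s ^ 4) by positivity)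
      have h3 := mul_le_mul_of_nonneg_right (hρ y) (show 0 ≤ X.b / 2 * nsq Ψ by positivity)
      rw [DBase_ob_mul, DBase_T3_mul]
      generalize ob (D.wLL fun a b => X.e M a y * X.e M b y) Ψ = A at h2 ⊢
      generalize D.T3 (fun β β' => ∏ j, (X.e M (β j) y * X.e M (β' j) y)) Ψ = B at h2 ⊢
      generalize ∑ a ∈ D.low, X.e M a y ^ 2 = ρ at h2 h3 ⊢
      have e1 : X.b / (6 * s ^ 4) * (3 * (s ^ 2 * X.T.φ y ^ 2) ^ 2 * A -
          (2 * (s ^ 2 * X.T.φ y ^ 2) ^ 3 + 3 * ρ ^ 3 * (s ^ 2) ^ 2) * nsq Ψ) =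
          X.b / 2 * X.T.φ y ^ 4 * A - X.T.φ y ^ 6 * (X.b / 3 * s ^ 2 * nsq Ψ) -
            ρ ^ 3 * (X.b / 2 * nsq Ψ) := by
        field_simp
        ring
      have e2 : X.b / (6 * s ^ 4) * (6 * B) = X.b * B * (1 / s ^ 4) := by
        field_simp
      rw [e1, e2] at h2
      linarith
  rw [Finset.sum_const, nsmul_eq_mul, mul_one] at key
  have h5 := mul_le_mul_of_nonneg_right (hcard mm s M hM)
    (show 0 ≤ X.b / 2 * M₁ ^ 6 * nsq Ψ by positivity)
  have h6 := mul_le_mul_of_nonneg_right hC hn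
  rw [eC, div_eq_mul_one_div (D.T3 D.M Ψ)]
  linarith

end TS

end Pool.Agent.Lib.MP_8fe63c_mp
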