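import Pool.Agent.Lib.MP_8fe63c_mp.PDefs
import Pool.Agent.Lib.MP_8fe63c_mp.HMicro
import Pool.Agent.Lib.MP_8fe63c_mp.HMac
import Pool.Agent.Lib.MP_8fe63c_mp.OTrap

/-!
The data of the trapped gas.
-/

open MeasureTheory Set Filter
open scoped ENNReal InnerProductSpace

namespace Pool.Agent.Lib.MP_8fe63c_mp

/-- trap, interaction, scattering solutions and Gross-Pitaevskii minimiser -/
structure TS where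
  W : R3 → ℝ
  U : (Fin 3 → R3) → ℝ
  b : ℝ
  K : ℝ
  Km : ℝ
  S : Micro U
  T : Trap W b
  hW : Pot W
  hb : b = relInt (F3o U S.ω)
  hb0 : 0 ≤ b
  hK : MicroB S K
  Km_nonneg : 0 ≤ Km
  mom : ∀ s : ℝ, 1 ≤ s → Mom s (fun x => U (om 3 x) * y4o S.ω S.g 3 x) (Km / s) ∧
    Mom s (F4o U S.ω S.g) (Km / s)

namespace TS

variable (X : TS)

/-- the potential of the linearised operator -/
noncomputable abbrev Wp : R3 → ℝ := fun x => X.W x + X.b / 2 * X.T.φ x ^ 4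

theorem hWp : Pot X.Wp := X.T.pot X.hW X.hb0

abbrev I (M : ℝ) : Type := X.T.B.I M

noncomputable abbrev e (M : ℝ) : X.I M → R3 → ℝ := X.T.B.eM M

/-- the frame of the Galerkin modes -/
noncomputable abbrev fr (M : ℝ) : EFrame (X.I M) X.Wp univ := X.T.B.frame X.hWp M

noncomputable def UN (s : ℝ) : (Fin 3 → R3) → ℝ := sc (s ^ 2) s X.U

noncomputable def F3N (s : ℝ) : (Fin 3 → R3) → ℝ := sc (s ^ 2) s (F3o X.U X.S.ω)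

noncomputable def F4N (s : ℝ) : (Fin 4 → R3) → ℝ := sc (s ^ 2) s (F4o X.U X.S.ω X.S.g)

noncomputable def v2N (s : ℝ) : (Fin 2 → R3) → ℝ := sc s⁻¹ s (v2o X.U X.S.ω)

noncomputable def fN (s : ℝ) (x : Fin 3 → R3) : ℝ := 1 - X.S.ω (s • x)

noncomputable def yN (s : ℝ) (x : Fin 4 → R3) : ℝ := y4o X.S.ω X.S.g 3 (s • x)

noncomputable def k2 (mm s : ℝ) : (Fin 2 → R3) → ℝ := kap s⁻¹ s mm (v2o X.U X.S.ω)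

noncomputable def k3 (mm s : ℝ) : (Fin 3 → R3) → ℝ := kap (s ^ 2) s mm (F3o X.U X.S.ω)

noncomputable def k4 (mm s : ℝ) : (Fin 4 → R3) → ℝ := kap (s ^ 2) s mm (F4o X.U X.S.ω X.S.g)

/-- the product of condensate wave functions -/
noncomputable def ph (p : ℕ) : (Fin p → R3) → ℝ := tens fun _ => X.T.φ

/-- the product of two densities -/
noncomputable def ph2 : (Fin 2 → R3) → ℝ := tens fun _ y => X.T.φ y ^ 2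

noncomputable def Y4 (s : ℝ) (x : Fin 4 → R3) : ℝ := X.yN s x * X.ph 4 x

noncomputable def T2 (mm s : ℝ) (x : Fin 2 → R3) : ℝ := X.k2 mm s x * X.ph2 x

noncomputable def T3 (mm s : ℝ) (x : Fin 3 → R3) : ℝ := X.k3 mm s x * X.ph 3 x

noncomputable def T4 (mm s : ℝ) (x : Fin 4 → R3) : ℝ := X.k4 mm s x * X.ph 4 x

theorem a_meas : Measurable fun x => X.b / 2 * X.T.φ x ^ 4 :=
  (X.T.meas.pow_const 4).const_mul _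

theorem a_bdd : ∃ M : ℝ, ∀ x, |X.b / 2 * X.T.φ x ^ 4| ≤ M := by
  refine ⟨X.b / 2 * X.T.M ^ 4, fun x => ?_⟩
  have h0 := X.T.φ_nonneg x
  have h1 := X.T.φ_le x
  have hb := X.hb0
  rw [abs_of_nonneg (by positivity)]
  gcongr

/-- the mean field potential as a form -/
noncomputable def A : BForm univ :=
  BForm.mul univ (fun x => X.b / 2 * X.T.φ x ^ 4) X.a_meas X.a_bdd

noncomputable def lv (Λ M : ℝ) (hM : X.T.μ ≤ M) : Lv (X.I M) where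
  o := ⟨X.T.o, X.T.ν_o.le.trans hM⟩
  low := Finset.univ.filter fun a => X.T.B.ν a.1 ≤ X.T.μ + Λ
  lam a := X.T.B.ν a.1 - X.T.μ

noncomputable def dat (Λ mm s M : ℝ) (hM : X.T.μ ≤ M) :
    Dat (X.I M) (Lp ℝ 2 (muP univ (Fin 3))) where
  toLv := X.lv Λ M hM
  w a b := X.A.form (X.e M a) (X.e M b)
  υ := ups univ (X.UN s) (X.e M)
  y3 β := sqU univ (X.UN s) fun x => X.fN s x * prodE (X.e M) β x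
  y4 δ := sqU univ (X.UN s) (red (X.Y4 s) (X.e M δ))
  M β β' := X.b * ∫ y, ∏ j, (X.e M (β j) y * X.e M (β' j) y)
  G2 α := if (X.lv Λ M hM).Hi α then -(s ^ 2 * coef (X.e M) (X.T2 mm s) α) else 0
  G3 α := if (X.lv Λ M hM).Hi α then -(1 * coef (X.e M) (X.T3 mm s) α) else 0
  G4 α := if (X.lv Λ M hM).Hi α then -(1 * coef (X.e M) (X.T4 mm s) α) else 0

/-- the approximate two-body source -/
noncomputable def FBt (s M : ℝ) : (Fin 2 → X.I M) → ℝ :=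
  coef (X.e M) fun x => X.v2N s x * X.ph2 x

noncomputable def eC : ℝ := -(X.b / 3) * ∫ x, X.T.φ x ^ 6

noncomputable def i8 : ℝ := ∫ x, X.T.φ x ^ 8

noncomputable def r1 : ℝ := relInt (F4o X.U X.S.ω X.S.g)

noncomputable def r2 : ℝ := relInt fun x => F3o X.U X.S.ω (om 3 x) * y4o X.S.ω X.S.g 3 x

noncomputable def r3 : ℝ := relInt fun x => X.U (om 3 x) * y4o X.S.ω X.S.g 3 x ^ 2

noncomputable def r4 : ℝ := relInt fun x => F4o X.U X.S.ω X.S.g x * X.S.g x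

noncomputable def r5 : ℝ := relInt fun x => F4o X.U X.S.ω X.S.g x * X.S.ω (om 3 x)

noncomputable def r6 : ℝ := relInt fun x => v2o X.U X.S.ω x * green 0 (v2o X.U X.S.ω) x

/-- the coefficient of `√N` -/
noncomputable def cC : ℝ :=
  X.i8 * (X.r1 / 12 - X.r2 / 3 - X.r3 / 6 + X.r4 / 24 - X.r5 / 3 - X.r6 / 2)

/-- admissible parameters -/
structure Par (Λ mm : ℝ) : Prop where
  one_le : 1 ≤ Λ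
  μ_le : X.T.μ ≤ Λ
  mm_ge : 1 ≤ mm

/-- for large constants, all scales and large Galerkin level -/
def Ev (Λ mm : ℝ)
    (P : ℝ → ℝ → (M : ℝ) → Dat (X.I M) (Lp ℝ 2 (muP univ (Fin 3))) → Prop) : Prop :=
  ∀ᶠ C : ℝ in atTop, ∀ s : ℝ, mm ≤ s → ∀ᶠ M : ℝ in atTop, ∀ hM : X.T.μ ≤ M,
    P C s M (X.dat Λ mm s M hM)

end TS

namespace Dat

variable {I E : Type} [Fintype I] [DecidableEq I] [NormedAddCommGroup E] [InnerProductSpace ℝ E]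
  (D : Dat I E)

/-- the bounds whose constant does not depend on the cutoff -/
structure Univ (s Λ C₀ : ℝ) : Prop where
  w_op : ∀ ζ h : I → ℝ,
    (∑ a, ∑ b, D.w a b * ζ a * h b) ^ 2 ≤ C₀ ^ 2 * (∑ a, ζ a ^ 2) * ∑ b, h b ^ 2
  fB0 : D.FamOK s Λ (D.resK (D.FB (D.oo 1) (D.oo 3))) (C₀ ^ 2 / s ^ 2) (C₀ ^ 2 / s ^ 2)
  l1b : ∀ (t : Fin 3) (ζ c : I → ℝ),
    (∑ a, ∑ d, ζ a * c d * D.F3 ![a, D.o, D.o] (Function.update (D.oo 3) t d)) ^ 2 ≤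
      C₀ ^ 2 / s ^ 8 * (∑ a, ζ a ^ 2) * ∑ d, c d ^ 2
  l1b' : ∀ ζ c : I → ℝ,
    (∑ a, ∑ d, ζ a * c d * D.F3 ![a, d, D.o] (D.oo 3)) ^ 2 ≤
      C₀ ^ 2 / s ^ 8 * (∑ a, ζ a ^ 2) * ∑ d, c d ^ 2

structure NormsA (s Λ C : ℝ) : Prop where
  fA : ∀ β ∈ D.lowF 3, D.FamOK s Λ (D.resK (D.FA β)) (C * s ^ 4) (C * s ^ 4)
  fB : ∀ γ ∈ D.lowF 1, ∀ β ∈ D.lowF 3, D.FamOK s Λ (D.resK (D.FB γ β)) (C / s ^ 2) (C / s ^ 2)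
  fC : D.FamOK s Λ (D.resK D.F4) (C * s ^ 4) (C * s ^ 4)
  fD : ∀ γ ∈ D.lowF 1, D.FamOK s Λ (D.resK (D.FD γ)) (C / s ^ 2) (C / s ^ 2)
  fE : ∀ γ ∈ D.lowF 2, D.FamOK s Λ (D.resK (D.FE γ)) (C / s ^ 8) (C / s ^ 8)
  uA : ∀ β ∈ D.lowF 3, ∑ α, D.resK (D.FA β) α ^ 2 ≤ C / s ^ 6
  uB : ∀ γ ∈ D.lowF 1, ∀ β ∈ D.lowF 3, ∑ α, D.resK (D.FB γ β) α ^ 2 ≤ C / s ^ 8
  uC : ∑ α, D.resK D.F4 α ^ 2 ≤ C / s ^ 8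
  uD : ∀ γ ∈ D.lowF 1, ∑ α, D.resK (D.FD γ) α ^ 2 ≤ C / s ^ 10
  uE : ∀ γ ∈ D.lowF 2, ∑ α, D.resK (D.FE γ) α ^ 2 ≤ C / s ^ 12

structure NormsB (s C : ℝ) : Prop where
  l1a : ∑ a, (D.F3 ![a, D.o, D.o] (D.oo 3) - 2 * D.w a D.o / s ^ 4) ^ 2 ≤ C / s ^ 10
  l1c : ∀ γ ∈ D.lowF 2, ∀ β ∈ D.lowF 3, ∑ a, D.F3 (Fin.append ![a] γ) β ^ 2 ≤ C / s ^ 8
  l1d : ∀ γ ∈ D.lowF 3, ∑ a, D.F4 (Fin.append ![a] γ) ^ 2 ≤ C / s ^ 14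
  y4_op : ∀ c : I → ℝ, ‖∑ δ, c δ • D.y4 δ‖ ^ 2 ≤ C / s ^ 10 * ∑ δ, c δ ^ 2
  y4_hs : ∑ δ, ‖D.y4 δ‖ ^ 2 ≤ C / s ^ 7
  y3_le : ∀ β ∈ D.lowF 3, ‖D.y3 β‖ ^ 2 ≤ C / s ^ 4

theorem Norms.of {s Λ C₀ C : ℝ} (u : D.Univ s Λ C₀) (a : D.NormsA s Λ C) (b : D.NormsB s C) :
    D.Norms s Λ C₀ C :=
  ⟨a.fA, a.fB, u.fB0, a.fC, a.fD, a.fE, a.uA, a.uB, a.uC, a.uD, a.uE, b.l1a, u.l1b, u.l1b', b.l1c,
    b.l1d, b.y4_op, b.y4_hs, b.y3_le⟩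

structure TrialS : Prop where
  s2 : ∀ (π : Equiv.Perm (Fin 2)) α, D.G2 (α ∘ π) = D.G2 α
  s3 : ∀ (π : Equiv.Perm (Fin 3)) α, D.G3 (α ∘ π) = D.G3 α
  s4 : ∀ (π : Equiv.Perm (Fin 4)) α, D.G4 (α ∘ π) = D.G4 α
  z2 : ∀ α, ¬D.Hi α → D.G2 α = 0
  z3 : ∀ α, ¬D.Hi α → D.G3 α = 0
  z4 : ∀ α, ¬D.Hi α → D.G4 α = 0

structure TrialK (s C : ℝ) : Prop where
  u3 : D.FamU D.G3 fun r => if r = 0 then C / s ^ 6 else C / s ^ 7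
  u4 : D.FamU D.G4 fun r => if r = 0 then C / s ^ 8 else C / s ^ 9
  k2 : ∑ α, (∑ j, D.lam (α j)) * (D.G2 α + s ^ 2 * D.resK (D.FB (D.oo 1) (D.oo 3)) α) ^ 2 ≤
    C / s ^ 4
  k3 : ∑ α, (∑ j, D.lam (α j)) * (D.G3 α + D.resK (D.FA (D.oo 3)) α) ^ 2 ≤ C / s ^ 6
  k4 : ∑ α, (∑ j, D.lam (α j)) * (D.G4 α + D.resK D.F4 α) ^ 2 ≤ C / s ^ 8

def TrialV1 (s C : ℝ) : Prop :=
  ‖D.υ (D.oo 3) + (∑ β, D.G3 β • D.υ β) - D.y3 (D.oo 3)‖ ^ 2 ≤ C / s ^ 6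

def TrialV2 (s C : ℝ) : Prop :=
  ∑ δ ∈ D.lowᶜ, ‖(∑ β, D.G4 (Fin.snoc β δ) • D.υ β) +
      (∑ a, ∑ b, D.G3 ![a, b, δ] • (D.υ ![a, b, D.o] + D.υ ![a, D.o, b] + D.υ ![D.o, a, b])) -
      D.y4 δ‖ ^ 2 ≤ C / s ^ 8

structure TrialA (s C : ℝ) : Prop where
  a2 : ∀ h : I → ℝ, ∑ η, ‖∑ a, ∑ b, (D.G2 ![a, η] * h b) • D.υ ![a, b, D.o]‖ ^ 2 ≤
    C / s ^ 6 * ∑ b, h b ^ 2
  a3 : ∀ h : I → ℝ, ∑ η, ∑ η', ‖∑ a, ∑ b, (D.G3 ![a, η, η'] * h b) • D.υ ![a, b, D.o]‖ ^ 2 ≤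
    C / s ^ 8 * ∑ b, h b ^ 2
  a4 : ∀ h : I → ℝ, ∑ η, ∑ η', ∑ η'',
    ‖∑ a, ∑ b, (D.G4 ![a, η, η', η''] * h b) • D.υ ![a, b, D.o]‖ ^ 2 ≤ C / s ^ 10 * ∑ b, h b ^ 2
  b2 : ∀ h : I → I → ℝ, ∑ η, ‖∑ a, ∑ b, ∑ d, (D.G2 ![a, η] * h b d) • D.υ ![a, b, d]‖ ^ 2 ≤
    C / s ^ 4 * ∑ b, ∑ d, h b d ^ 2
  b3 : ∀ h : I → I → ℝ, ∑ η, ∑ η',
    ‖∑ a, ∑ b, ∑ d, (D.G3 ![a, η, η'] * h b d) • D.υ ![a, b, d]‖ ^ 2 ≤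
      C / s ^ 6 * ∑ b, ∑ d, h b d ^ 2
  b4 : ∀ h : I → I → ℝ, ∑ η, ∑ η', ∑ η'',
    ‖∑ a, ∑ b, ∑ d, (D.G4 ![a, η, η', η''] * h b d) • D.υ ![a, b, d]‖ ^ 2 ≤
      C / s ^ 8 * ∑ b, ∑ d, h b d ^ 2

structure TrialC (s C : ℝ) : Prop where
  c2 : ∀ h : I → ℝ, ‖∑ a, ∑ b, ∑ d, (D.G2 ![a, b] * h d) • D.υ ![a, b, d]‖ ^ 2 ≤
    C / s ^ 4 * ∑ d, h d ^ 2
  c3 : ∀ h : I → ℝ, ∑ η, ‖∑ a, ∑ b, ∑ d, (D.G3 ![a, b, η] * h d) • D.υ ![a, b, d]‖ ^ 2 ≤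
    C / s ^ 6 * ∑ d, h d ^ 2
  c4 : ∀ h : I → ℝ, ∑ η, ∑ η',
    ‖∑ a, ∑ b, ∑ d, (D.G4 ![a, b, η, η'] * h d) • D.υ ![a, b, d]‖ ^ 2 ≤
      C / s ^ 8 * ∑ d, h d ^ 2

theorem Trial.of {s C : ℝ} (t : D.TrialS)
    (u2 : D.FamU D.G2 fun r => if r = 0 then C / s ^ 4 else 1 / (2 ^ 30 * s ^ 4))
    (k : D.TrialK s C) (v1 : D.TrialV1 s C) (v2 : D.TrialV2 s C) (a : D.TrialA s C)
    (c : D.TrialC s C) : D.Trial s C :=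
  ⟨t.s2, t.s3, t.s4, t.z2, t.z3, t.z4, u2, k.u3, k.u4, k.k2, k.k3, k.k4, v1, v2, a.a2, a.a3, a.a4,
    a.b2, a.b3, a.b4, c.c2, c.c3, c.c4⟩

end Dat

end Pool.Agent.Lib.MP_8fe63c_mp
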