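import Pool.Agent.Lib.MP_8fe63c_mp.DBas

/-!
The effective three-body interaction on the low modes.

Sketch. Let `u = prodE e β`, `u' = prodE e β'`, `ωN = ω (s • x)`. `F3 β' β = ∫ F3N u u'`,
`⟪y3 β, y3 β'⟫ = ∫ F3N fN u u'`, and by `cmp_gam` (for fixed `β β' : Fin 3 → J`, then `ev_low`, for instance with
`κ = Fin 3 ⊕ Fin 3` or twice) `GA β β' = ∫ F3N k3 u u' + O(s^(-6))`. By `k_diff` replace `k3` by `ωN`
(`two_pt_le`). Since `2 - fN - ωN = 1` the sum is `∫ F3N u u'`, and `loc3` with `A j = e (β j) * e (β' j)`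
(`BF.lip2`, `Lip2.mul`, `mom_of_supp`) compares it with `b/s^4 ∫ ∏ A j`.
-/

set_option linter.unusedSectionVars false

open MeasureTheory Set Filter Topology
open scoped ENNReal InnerProductSpace

namespace Pool.Agent.Lib.MP_8fe63c_mp

namespace TS

variable (X : TS) {Λ mm s M : ℝ}

theorem DM3_loc (hs : 0 < s) {u u' : Fin 3 → R3 → ℝ} {G G' : Fin 3 → R3 → R3} {M₁ : ℝ}
    (hu : ∀ j, BF X.Wp (u j) (G j) M₁) (hu' : ∀ j, BF X.Wp (u' j) (G' j) M₁) :
    |(∫ x, X.F3N s x * tens u x * tens u' x) - (X.b * ∫ y, ∏ j, (u j y * u' j y)) / s ^ 4| ≤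
      300 * (2 * M₁ * M₁) ^ 3 * (X.K * X.K ^ 2) / s ^ 6 := by
  have hK := X.K_ge
  have hn := X.hK.n3.toNice0
  have hm := mom_of_supp hn hs (K := X.K) fun x hx =>
    X.pot3.supp x fun h0 => hx (by rw [F3o, h0, zero_mul])
  have h := loc3 hn X.S.symm_F3 hs (by positivity) hm (A := fun j y => u j y * u' j y)
    fun j => ((hu j).lip2 X.hWp).mul ((hu' j).lip2 X.hWp)
  have e1 : ∫ x, X.F3N s x * tens u x * tens u' x =
      s ^ 2 * ∫ x : Fin 3 → R3, F3o X.U X.S.ω (s • x) * ∏ j, (u j (x j) * u' j (x j)) := by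
    rw [← integral_const_mul]
    refine integral_congr_ae (Eventually.of_forall fun x => ?_)
    simp only [F3N, sc, tens, Finset.prod_mul_distrib]
    ring
  have e2 : (X.b * ∫ y, ∏ j, (u j y * u' j y)) / s ^ 4 =
      s ^ 2 * (relInt (F3o X.U X.S.ω) / s ^ 6 * ∫ y, ∏ j, (u j y * u' j y)) := by
    rw [← X.hb]
    field_simp
  rw [e1, e2, ← mul_sub, abs_mul, abs_of_nonneg (sq_nonneg s)]
  refine (mul_le_mul_of_nonneg_left h (sq_nonneg s)).trans (le_of_eq ?_)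
  field_simp

theorem DM3_two (hs : 0 < s) {u u' : Fin 3 → R3 → ℝ} {G G' : Fin 3 → R3 → R3} {M₁ : ℝ}
    (hu : ∀ j, BF X.Wp (u j) (G j) M₁) (hu' : ∀ j, BF X.Wp (u' j) (G' j) M₁)
    {d : (Fin 3 → R3) → ℝ} {c : ℝ} (hd : ∀ x, |d x| ≤ c / s ^ 2) :
    |∫ x, X.F3N s x * d x * tens u x * tens u' x| ≤ X.K * c * M₁ ^ 6 / s ^ 6 := by
  have hK := X.K_ge
  have hM : 0 ≤ M₁ := (abs_nonneg _).trans ((hu 0).bdd 0)
  have hc : 0 ≤ c / s ^ 2 := (abs_nonneg _).trans (hd 0)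
  have hc' : 0 ≤ c := by
    have := mul_nonneg hc (sq_nonneg s)
    rwa [div_mul_cancel₀ _ (by positivity)] at this
  have l2 : ∀ {v : R3 → ℝ} {H : R3 → R3}, BF X.Wp v H M₁ → MemLp v 2 volume := fun hv => by
    have := hv.inF.memLp_u X.hWp
    rwa [Measure.restrict_univ] at this
  have hT : ∀ x : Fin 3 → R3, |d x * (u 1 (x 1) * u 2 (x 2) * (u' 1 (x 1) * u' 2 (x 2)))| ≤
      c / s ^ 2 * (M₁ * M₁ * (M₁ * M₁)) := by
    intro x
    simp only [abs_mul]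
    have := (hu 1).bdd (x 1)
    have := (hu 2).bdd (x 2)
    have := (hu' 1).bdd (x 1)
    have := (hu' 2).bdd (x 2)
    have := hd x
    gcongr
  have h := two_pt_le X.hK.n3.toNice0 hs hT (hu 0).inF.mu (hu' 0).inF.mu (l2 (hu 0)) (l2 (hu' 0))
    0 0
  have h2 : |∫ x : Fin 3 → R3, F3o X.U X.S.ω (s • x) *
      (d x * (u 1 (x 1) * u 2 (x 2) * (u' 1 (x 1) * u' 2 (x 2)))) * u 0 (x 0) * u' 0 (x 0)| ≤
      X.K * (c / s ^ 2 * (M₁ * M₁ * (M₁ * M₁))) / s ^ (3 * 2) * M₁ * M₁ := by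
    refine abs_le_of_sq_le_sq (h.trans ?_) (by positivity)
    rw [mul_pow, mul_pow]
    have := (hu 0).l2
    have := (hu' 0).l2
    have : 0 ≤ ∫ y, u' 0 y ^ 2 := integral_nonneg fun y => sq_nonneg _
    gcongr
  have e1 : ∫ x, X.F3N s x * d x * tens u x * tens u' x =
      s ^ 2 * ∫ x : Fin 3 → R3, F3o X.U X.S.ω (s • x) *
      (d x * (u 1 (x 1) * u 2 (x 2) * (u' 1 (x 1) * u' 2 (x 2)))) * u 0 (x 0) * u' 0 (x 0) := by
    rw [← integral_const_mul]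
    refine integral_congr_ae (Eventually.of_forall fun x => ?_)
    simp only [F3N, sc, tens, Fin.prod_univ_three]
    ring
  rw [e1, abs_mul, abs_of_nonneg (sq_nonneg s)]
  refine (mul_le_mul_of_nonneg_left h2 (sq_nonneg s)).trans (le_of_eq ?_)
  field_simp
  ring

theorem DM3_int (s : ℝ) {v v' d : (Fin 3 → R3) → ℝ} (hv : MemLp v 2 volume)
    (hv' : MemLp v' 2 volume) (hm : Measurable d) {c : ℝ} (hd : ∀ x, |d x| ≤ c) :
    Integrable fun x => X.F3N s x * d x * v x * v' x := by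
  have h1 := memLp_bdd_mul (X.meas_F3N s) (X.F3N_bdd s) (memLp_bdd_mul hm hd hv)
  refine (h1.integrable_mul hv').congr (Eventually.of_forall fun x => ?_)
  simp only [Pi.mul_apply, mul_assoc]

theorem DM3_sum (hs : 0 < s) {u u' : Fin 3 → R3 → ℝ} {G G' : Fin 3 → R3 → R3} {M₁ : ℝ}
    (hu : ∀ j, BF X.Wp (u j) (G j) M₁) (hu' : ∀ j, BF X.Wp (u' j) (G' j) M₁)
    {k : (Fin 3 → R3) → ℝ} (hk : Cb1 k) {c : ℝ} (hd : ∀ x, |k x - X.S.ω (s • x)| ≤ c / s ^ 2) :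
    |2 * (∫ x, X.F3N s x * tens u x * tens u' x) -
      (∫ x, X.F3N s x * X.fN s x * tens u x * tens u' x) -
      (∫ x, X.F3N s x * k x * tens u x * tens u' x) -
      (X.b * ∫ y, ∏ j, (u j y * u' j y)) / s ^ 4| ≤
      (300 * (2 * M₁ * M₁) ^ 3 * (X.K * X.K ^ 2) + X.K * c * M₁ ^ 6) / s ^ 6 := by
  have m1 : MemLp (tens u) 2 volume := by
    rw [← muP_univ]
    exact memLp_tens fun j => (hu j).inF.memLp_u X.hWp
  have m2 : MemLp (tens u') 2 volume := by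
    rw [← muP_univ]
    exact memLp_tens fun j => (hu' j).inF.memLp_u X.hWp
  obtain ⟨hk1, Mk, hMk⟩ := hk
  have i0 : Integrable fun x => X.F3N s x * tens u x * tens u' x := by
    simpa only [mul_one] using X.DM3_int s m1 m2 (d := fun _ => 1) measurable_const (c := 1)
      fun _ => by simp
  have i1 := X.DM3_int s m1 m2 (X.meas_fN s) (c := X.K) fun x => X.hK.f_bdd _
  have i2 := X.DM3_int s m1 m2 hk1.continuous.measurable fun x => (hMk x).1
  have i3 : Integrable fun x => X.F3N s x * X.fN s x * tens u x * tens u' x +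
      X.F3N s x * k x * tens u x * tens u' x := i1.add i2
  have e : ∫ x, X.F3N s x * (k x - X.S.ω (s • x)) * tens u x * tens u' x =
      (∫ x, X.F3N s x * X.fN s x * tens u x * tens u' x) +
        (∫ x, X.F3N s x * k x * tens u x * tens u' x) -
        ∫ x, X.F3N s x * tens u x * tens u' x := by
    rw [← integral_add i1 i2, ← integral_sub i3 i0]
    refine integral_congr_ae (Eventually.of_forall fun x => ?_)
    simp only [fN]
    ring
  have h1 := X.DM3_loc hs hu hu'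
  have h2 := X.DM3_two hs hu hu' hd
  rw [e] at h2
  rw [add_div]
  rw [abs_le] at h1 h2 ⊢
  constructor <;> linarith [h1.1, h1.2, h2.1, h2.2]

theorem m3 (h : X.Par Λ mm) : X.Ev Λ mm fun C s _ D => ∀ β ∈ D.lowF 3, ∀ β' ∈ D.lowF 3,
    |2 * D.F3 β' β - ⟪D.y3 β, D.y3 β'⟫_ℝ - D.GA β β' - D.M β β' / s ^ 4| ≤ C / s ^ 6 := by
  obtain ⟨M₁, hM₁, hBF, hcard⟩ := X.exists_low Λ
  obtain ⟨C₁, -, hcmp⟩ := X.cmp
  obtain ⟨C₂, -, hkd⟩ := X.k_diff
  have hμ := X.μ_nonneg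
  have hmm := h.mm_ge
  obtain ⟨cG, -, hG⟩ := cmp_gam (mm ^ 2 + M₁ + X.T.μ)
  refine Ev.of (300 * (2 * M₁ * M₁) ^ 3 * (X.K * X.K ^ 2) + X.K * (C₂ * mm ^ 2) * M₁ ^ 6 +
    cG * C₁) fun s hs => ?_
  have hs0 : 0 < s := by linarith
  have hc := (hcmp mm s hmm hs).2.1
  have hle : M₁ ≤ mm ^ 2 + M₁ + X.T.μ := by nlinarith [sq_nonneg mm]
  have key := X.ev_low (κ := Fin 3) (X.T.μ + Λ) fun β hβ =>
    X.ev_low (κ := Fin 3) (X.T.μ + Λ) fun β' hβ' =>
      hG X.T.B X.T.μ (mm ^ 2) s _ _ _ (X.F3N s) (X.k3 mm s) (fun j => X.T.B.e (β j))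
        (fun j => X.T.B.e (β' j)) (fun j => X.T.B.g (β j)) (fun j => X.T.B.g (β' j)) X.hWp
        (by simp) (by simp) hc (by linarith) (fun j => (hBF _ (hβ j)).mono hle)
        (fun j => (hBF _ (hβ' j)).mono hle) hμ (by nlinarith [sq_nonneg mm])
  filter_upwards [key] with M hkey hM C hC β hβ β' hβ'
  rw [X.mem_lowF] at hβ hβ'
  have h1 := hkey (fun j => (β j).1) hβ (fun j => (β' j).1) hβ' (X.dat Λ mm s M hM).toLv
    (fun a => rfl) (fun a ha => (X.hi3 h hM a ha).1) ((hcard mm s M hM).trans hle)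
  have h2 := X.DM3_sum hs0 (u := fun j => X.T.B.e (β j).1) (u' := fun j => X.T.B.e (β' j).1)
    (fun j => hBF _ (hβ j)) (fun j => hBF _ (hβ' j)) hc.gd.cb (hkd mm s hmm hs).2.1
  have e1 : (X.dat Λ mm s M hM).F3 β' β = ∫ x, X.F3N s x *
      tens (fun j => X.T.B.e (β j).1) x * tens (fun j => X.T.B.e (β' j).1) x := by
    rw [X.F3_eq]
    rfl
  have e2 : ⟪(X.dat Λ mm s M hM).y3 β, (X.dat Λ mm s M hM).y3 β'⟫_ℝ = ∫ x, X.F3N s x * X.fN s x *
      tens (fun j => X.T.B.e (β j).1) x * tens (fun j => X.T.B.e (β' j).1) x := by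
    have m : ∀ γ : Fin 3 → X.I M,
        MemLp (fun x => X.fN s x * prodE (X.e M) γ x) 2 (muP univ (Fin 3)) := fun γ =>
      memLp_bdd_mul (X.meas_fN s) (K := X.K) (fun x => X.hK.f_bdd _) (memLp_prodE (X.on M).l2 γ)
    refine (sqU_inner (X.wt s) (m β) (m β')).trans ?_
    rw [muP_univ]
    refine integral_congr_ae (Eventually.of_forall fun x => ?_)
    change X.UN s x * (X.fN s x * prodE (X.e M) β x) * (X.fN s x * prodE (X.e M) β' x) =
      X.F3N s x * X.fN s x * prodE (X.e M) β x * prodE (X.e M) β' x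
    rw [← X.UN_mul_fN]
    ring
  have e3 : (X.dat Λ mm s M hM).GA β β' = ∑ α, (X.dat Λ mm s M hM).toLv.resK
      (coef (X.T.B.eM M) fun z => X.F3N s z * tens (fun j => X.T.B.e (β j).1) z) α *
      coef (X.T.B.eM M) (fun z => X.F3N s z * tens (fun j => X.T.B.e (β' j).1) z) α := by
    rw [Dat.GA, X.FA_eq, X.FA_eq]
    rfl
  have e4 : (X.dat Λ mm s M hM).M β β' =
      X.b * ∫ y, ∏ j, (X.T.B.e (β j).1 y * X.T.B.e (β' j).1 y) := rfl
  rw [e1, e2, e3, e4]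
  refine le_trans ?_ (div_le_div_of_nonneg_right hC (by positivity))
  rw [add_div, mul_div_assoc cG]
  rw [abs_le] at h1 h2 ⊢
  constructor <;> linarith [h1.1, h1.2, h2.1, h2.2]

end TS

end Pool.Agent.Lib.MP_8fe63c_mp
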