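import Pool.Agent.Lib.MP_8fe63c_mp.DBas

/-!
Operator norms of the five families.

Sketch. `FA_eq`, .., `FE_eq`; `src_tens` with the bounds of `exists_low` and `exists_cond` (`ϱ = 1`), `Src.red`
once or twice, `src_bounds` with `c₁ = 2`, `Lv.FamOK.mono`. For `uA` use the third part of `cmp_res` with
`X.cmp` (`prodE e β = tens (e ∘ β)`, `S = univ`, `hi3`).
-/

set_option linter.unusedSectionVars false

open MeasureTheory Set Filter Topology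
open scoped ENNReal InnerProductSpace

namespace Pool.Agent.Lib.MP_8fe63c_mp

namespace TS

variable (X : TS) {Λ mm s M : ℝ}

/-- `src_bounds` for the data of the trap, with `c₁ = 2` and `ϱ = 1`. -/
theorem DNA_src (h : X.Par Λ mm) : ∃ cS : ℝ, 1 ≤ cS ∧ ∀ (s M : ℝ) (hM : X.T.μ ≤ M) (q : ℕ)
    (κ A : ℝ) (F : (Fin (q + 1) → R3) → ℝ) (Φ : (Fin (q + 1) → R3) → ℝ≥0∞), mm ≤ s → 1 ≤ q →
    q ≤ 3 → Src s F Φ κ 1 → cS * κ ^ 2 ≤ A →
    (X.dat Λ mm s M hM).FamOK s Λ ((X.dat Λ mm s M hM).resK (coef (X.e M) F)) A A ∧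
      ∑ α, (X.dat Λ mm s M hM).resK (coef (X.e M) F) α ^ 2 ≤ A / s ^ (3 * (q + 1)) := by
  obtain ⟨cS, h1, hS⟩ := src_bounds
  refine ⟨cS * 2 ^ 2, by linarith, fun s M hM q κ A F Φ hs hq hq3 hF hA => ?_⟩
  have hs1 : 1 ≤ s := h.mm_ge.trans hs
  have hs0 : 0 < s := one_pos.trans_le hs1
  obtain ⟨h2, h3⟩ := hS (X.dat Λ mm s M hM).toLv (X.fr M).toFrame q 2 Λ s κ 1 F Φ hq hq3
    one_le_two h.one_le hs1 (X.hi h hM) hF
  rw [mul_one] at h2 h3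
  exact ⟨h2.mono hs0 (one_pos.trans_le h.one_le) (fun a _ => X.lam_nonneg hM a) hA hA,
    h3.trans (div_le_div_of_nonneg_right hA (by positivity))⟩

/-- a rescaled kernel times a product of bounded functions is a source -/
theorem DNA_tens {q : ℕ} {F : (Fin (q + 1) → R3) → ℝ} (hF : Measurable F)
    (hm : MajS 1 (eabs F) X.K) (hs : 0 < s) {M₁ : ℝ} (h1 : 1 ≤ M₁) {u : Fin (q + 1) → R3 → ℝ}
    {G : Fin (q + 1) → R3 → R3} (hu : ∀ j, BF X.Wp (u j) (G j) M₁) :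
    ∃ Φ, Src s (fun x => sc (s ^ 2) s F x * tens u x) Φ (M₁ ^ (q + 1) * (s ^ 2 * X.K)) 1 :=
  ⟨_, src_tens hF hm (zero_le_one.trans X.K_ge) (by positivity) hs (fun j => (hu j).inF.mu)
    (one_pos.trans_le h1) (fun j => (hu j).bdd) zero_le_one (by
      rw [mul_one]
      exact ((hu 0).lip2 X.hWp).l2)⟩

theorem DNA_amp {cS M₁ K C : ℝ} (hc : 1 ≤ cS) (h1 : 1 ≤ M₁) {n : ℕ} (hn : n ≤ 6)
    (hC : cS * (M₁ ^ 6 * K) ^ 2 ≤ C) : cS * (M₁ ^ n * K) ^ 2 ≤ C := by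
  refine le_trans (mul_le_mul_of_nonneg_left ?_ (zero_le_one.trans hc)) hC
  rw [mul_pow, mul_pow]
  exact mul_le_mul_of_nonneg_right
    (pow_le_pow_left₀ (by positivity) (pow_le_pow_right₀ h1 hn) 2) (sq_nonneg K)

theorem normsA (h : X.Par Λ mm) : X.Ev Λ mm fun C s _ D => D.NormsA s Λ C := by
  obtain ⟨cS, hcS, hS⟩ := X.DNA_src h
  obtain ⟨M₁, hM₁, hlow, -⟩ := X.exists_low Λ
  obtain ⟨Cc, hCc, hcmp⟩ := X.cmp
  have hμ := X.μ_nonneg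
  obtain ⟨cG, hcG, hG⟩ := cmp_res (M₁ + mm ^ 2 + X.T.μ + 3)
  refine Ev.of_all (cS * (M₁ ^ 6 * X.K) ^ 2 + cG * Cc) fun C hC s hs M hM => ?_
  have hs1 : 1 ≤ s := h.mm_ge.trans hs
  have hs0 : 0 < s := one_pos.trans_le hs1
  have hC1 : cS * (M₁ ^ 6 * X.K) ^ 2 ≤ C := le_trans (le_add_of_nonneg_right (by positivity)) hC
  have hC2 : cG * Cc ≤ C := le_trans (le_add_of_nonneg_left (by positivity)) hC
  have hC0 : 0 ≤ C := le_trans (by positivity) hC2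
  have hbf : ∀ {p : ℕ} {β : Fin p → X.I M}, β ∈ (X.dat Λ mm s M hM).lowF p → ∀ j,
      BF X.Wp (X.e M (β j)) (X.T.B.g (β j).1) M₁ := fun hβ j =>
    hlow _ ((X.mem_lowF hM _).1 hβ j)
  have hφ : BF X.Wp X.T.φ (X.T.B.g X.T.o) M₁ := by
    have := hlow X.T.o (by rw [X.T.ν_o]; linarith [h.one_le])
    rwa [X.T.e_o] at this
  have sA : ∀ β ∈ (X.dat Λ mm s M hM).lowF 3, ∃ Φ,
      Src s (fun x => X.F3N s x * prodE (X.e M) β x) Φ (M₁ ^ 3 * (s ^ 2 * X.K)) 1 := fun β hβ =>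
    X.DNA_tens X.hK.n3.meas X.hK.m3 hs0 hM₁ (hbf hβ)
  have sC' : ∃ Φ, Src s (fun x => X.F4N s x * X.ph 4 x) Φ (M₁ ^ 4 * (s ^ 2 * X.K)) 1 := by
    exact X.DNA_tens X.hK.n4.meas X.hK.m4 hs0 hM₁ (u := fun _ => X.T.φ) fun _ => hφ
  obtain ⟨Φ4, sC⟩ := sC'
  have a3 := DNA_amp hcS hM₁ (n := 3) (by norm_num) hC1
  have a4 := DNA_amp hcS hM₁ (n := 4) (by norm_num) hC1
  have a5 := DNA_amp hcS hM₁ (n := 5) (by norm_num) hC1
  have bA : cS * (M₁ ^ 3 * (s ^ 2 * X.K)) ^ 2 ≤ C * s ^ 4 :=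
    le_trans (le_of_eq (by ring)) (mul_le_mul_of_nonneg_right a3 (by positivity))
  have bB : cS * (M₁ * (M₁ ^ 3 * (s ^ 2 * X.K) / s ^ 3)) ^ 2 ≤ C / s ^ 2 :=
    le_trans (le_of_eq (by field_simp)) (div_le_div_of_nonneg_right a4 (by positivity))
  have bC : cS * (M₁ ^ 4 * (s ^ 2 * X.K)) ^ 2 ≤ C * s ^ 4 :=
    le_trans (le_of_eq (by ring)) (mul_le_mul_of_nonneg_right a4 (by positivity))
  have bD : cS * (M₁ * (M₁ ^ 4 * (s ^ 2 * X.K) / s ^ 3)) ^ 2 ≤ C / s ^ 2 :=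
    le_trans (le_of_eq (by field_simp)) (div_le_div_of_nonneg_right a5 (by positivity))
  have bE : cS * (M₁ * (M₁ * (M₁ ^ 4 * (s ^ 2 * X.K) / s ^ 3) / s ^ 3)) ^ 2 ≤ C / s ^ 8 :=
    le_trans (le_of_eq (by field_simp)) (div_le_div_of_nonneg_right hC1 (by positivity))
  have rB : ∀ γ ∈ (X.dat Λ mm s M hM).lowF 1, ∀ β ∈ (X.dat Λ mm s M hM).lowF 3,
      (X.dat Λ mm s M hM).FamOK s Λ ((X.dat Λ mm s M hM).resK ((X.dat Λ mm s M hM).FB γ β))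
        (C / s ^ 2) (C / s ^ 2) ∧
      ∑ α, (X.dat Λ mm s M hM).resK ((X.dat Λ mm s M hM).FB γ β) α ^ 2 ≤
        C / s ^ 2 / s ^ (3 * (1 + 1)) := fun γ hγ β hβ => by
    obtain ⟨Φ, hΦ⟩ := sA β hβ
    rw [X.FB_eq]
    exact hS s M hM 1 _ _ _ _ hs le_rfl (by norm_num)
      (hΦ.red hs0 (hbf hγ 0).inF.mu (hbf hγ 0).bdd) bB
  have rC := hS s M hM 3 _ _ _ _ hs (by norm_num) le_rfl sC bC
  rw [← X.F4_eq (Λ := Λ) (mm := mm) hM] at rC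
  have rD : ∀ γ ∈ (X.dat Λ mm s M hM).lowF 1,
      (X.dat Λ mm s M hM).FamOK s Λ ((X.dat Λ mm s M hM).resK ((X.dat Λ mm s M hM).FD γ))
        (C / s ^ 2) (C / s ^ 2) ∧
      ∑ α, (X.dat Λ mm s M hM).resK ((X.dat Λ mm s M hM).FD γ) α ^ 2 ≤
        C / s ^ 2 / s ^ (3 * (2 + 1)) := fun γ hγ => by
    rw [X.FD_eq]
    exact hS s M hM 2 _ _ _ _ hs (by norm_num) (by norm_num)
      (sC.red hs0 (hbf hγ 0).inF.mu (hbf hγ 0).bdd) bD
  have rE : ∀ γ ∈ (X.dat Λ mm s M hM).lowF 2,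
      (X.dat Λ mm s M hM).FamOK s Λ ((X.dat Λ mm s M hM).resK ((X.dat Λ mm s M hM).FE γ))
        (C / s ^ 8) (C / s ^ 8) ∧
      ∑ α, (X.dat Λ mm s M hM).resK ((X.dat Λ mm s M hM).FE γ) α ^ 2 ≤
        C / s ^ 8 / s ^ (3 * (1 + 1)) := fun γ hγ => by
    rw [X.FE_eq]
    exact hS s M hM 1 _ _ _ _ hs le_rfl (by norm_num)
      ((sC.red hs0 (hbf hγ 1).inF.mu (hbf hγ 1).bdd).red hs0 (hbf hγ 0).inF.mu (hbf hγ 0).bdd) bE
  refine ⟨fun β hβ => ?_, fun γ hγ β hβ => (rB γ hγ β hβ).1, rC.1, fun γ hγ => (rD γ hγ).1,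
    fun γ hγ => (rE γ hγ).1, fun β hβ => ?_,
    fun γ hγ β hβ => (rB γ hγ β hβ).2.trans (le_of_eq (by field_simp)),
    rC.2.trans (le_of_eq (by field_simp)), fun γ hγ => (rD γ hγ).2.trans ?_,
    fun γ hγ => (rE γ hγ).2.trans ?_⟩
  · obtain ⟨Φ, hΦ⟩ := sA β hβ
    rw [X.FA_eq]
    exact (hS s M hM 2 _ _ _ _ hs (by norm_num) (by norm_num) hΦ bA).1
  · rw [X.FA_eq]
    have h3 := (hG (X.fr M) (X.dat Λ mm s M hM).toLv X.T.μ (mm ^ 2) s _ _ _ _ _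
      (fun j => X.e M (β j)) (fun j => X.T.B.g (β j).1) X.hWp MeasurableSet.univ (by simp)
      (by simp) (hcmp mm s h.mm_ge hs).2.1 (by linarith)
      (fun j => (hbf hβ j).mono (by nlinarith [sq_nonneg mm]))
      (fun j z hz => absurd (mem_univ z) hz)
      (by rw [abs_of_nonneg hμ]; nlinarith [sq_nonneg mm]) (fun a => rfl) fun a ha => by
        obtain ⟨h4, h5⟩ := X.hi3 h hM a ha
        refine ⟨h4, h5.trans (mul_le_mul_of_nonneg_right ?_ (zero_le_one.trans h4))⟩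
        nlinarith [sq_nonneg mm]).2.2
    refine le_trans h3 ?_
    rw [← mul_div_assoc]
    exact div_le_div_of_nonneg_right hC2 (by positivity)
  · rw [div_div, ← pow_add]
    exact div_le_div_of_nonneg_left hC0 (by positivity) (pow_le_pow_right₀ hs1 (by norm_num))
  · rw [div_div, ← pow_add]
    exact div_le_div_of_nonneg_left hC0 (by positivity) (pow_le_pow_right₀ hs1 (by norm_num))

end TS

end Pool.Agent.Lib.MP_8fe63c_mp
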