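import Pool.Agent.Lib.MP_8fe63c_mp.DM4a
import Pool.Agent.Lib.MP_8fe63c_mp.DNA

/-!
Four-body constant, second order terms.

Sketch. `GCC`: `cmp_gam` with `X.cmp`, then `k_diff` (`k4 ≈ - g (s • x)`, the error is
`C mm^2/s^2 ∫ |F4N| ph^2`, `lintegral_sc_single_le` or `two_pt_le`), then `loc4`. `GAD`: `Lv.gam_cross` with
`Ω = coef T3`; `cmp_res`, `cmp_low`; `Lv.gam_le_fam` with `fD` of `normsA`; the low mass of `FD` by `Src.bil`,
`Src.red` and `low_mass` (size `s^(-11)`). `∑ Ω FD` tends to `∫ T3 * red (F4N ph) φ = ∫ F4N x k3 (om 3 x) ph^2`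
(`EB.parseval`, `integral_snoc`); `k_diff`, `loc4`.
-/

set_option linter.unusedSectionVars false

open MeasureTheory Set Filter Topology
open scoped ENNReal InnerProductSpace

namespace Pool.Agent.Lib.MP_8fe63c_mp

theorem DM4b_om (x : Fin 3 → R3) (y : R3) : om 3 (Fin.snoc x y) = x := by
  funext i
  fin_cases i <;> rfl

theorem DM4b_sqrt {a b A B s : ℝ} {m n : ℕ} (hs : 1 ≤ s) (hA : 0 ≤ A) (hB : 0 ≤ B) (hb0 : 0 ≤ b)
    (ha : a ≤ A / s ^ m) (hb : b ≤ B / s ^ n) (h : 16 ≤ m + n) :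
    √(a * b) ≤ √(A * B) / s ^ 8 := by
  have hs0 : 0 < s := by linarith
  rw [Real.sqrt_le_iff]
  refine ⟨by positivity, ?_⟩
  rw [div_pow, Real.sq_sqrt (by positivity), ← pow_mul]
  calc a * b ≤ A / s ^ m * (B / s ^ n) := mul_le_mul ha hb hb0 (by positivity)
    _ = A * B / s ^ (m + n) := by rw [pow_add]; field_simp
    _ ≤ _ := div_le_div_of_nonneg_left (by positivity) (by positivity) (pow_le_pow_right₀ hs h)

namespace TS

variable (X : TS) {Λ mm s M : ℝ}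

theorem DM4b_ph (x : Fin 3 → R3) (y : R3) : X.ph 4 (Fin.snoc x y) = X.ph 3 x * X.T.φ y := by
  simp only [ph, tens, Fin.prod_univ_four, Fin.prod_univ_three]
  rfl

theorem DM4b_int (s : ℝ) {k : (Fin 4 → R3) → ℝ} (hk : Measurable k) {B : ℝ}
    (hb : ∀ x, |k x| ≤ B) : Integrable fun z => X.F4N s z * k z * X.ph 4 z * X.ph 4 z := by
  refine ((X.memLp_FC s).integrable_mul (memLp_bdd_mul hk hb (X.memLp_ph 4))).congr
    (Eventually.of_forall fun z => ?_)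
  simp only [Pi.mul_apply]
  ring

/-- replacing a kernel by its microscopic limit -/
theorem DM4b_J {y : (Fin 4 → R3) → ℝ} (hy : Measurable y) (ht : TI y) (hb : ∀ x, |y x| ≤ X.K)
    (c : ℝ) : ∃ C : ℝ, 0 ≤ C ∧ ∀ (s : ℝ) (k : (Fin 4 → R3) → ℝ), 1 ≤ s → Measurable k →
      (∀ x, |k x - y (s • x)| ≤ c / s ^ 2) →
      |(∫ z, X.F4N s z * k z * X.ph 4 z * X.ph 4 z) -
        (relInt fun x => F4o X.U X.S.ω X.S.g x * y x) * X.i8 / s ^ 7| ≤ C / s ^ 8 := by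
  obtain ⟨M₀, hc⟩ := X.exists_cond
  obtain ⟨C, hC, hl⟩ := X.loc4 (X.K * X.K) (X.K * X.Km)
  have hK := X.K_ge
  have hM := hc.one_le
  have n := X.hK.n4.toNice0
  refine ⟨X.K * |c| * M₀ ^ 4 + C, by positivity, fun s k hs hk hd => ?_⟩
  have hs0 : 0 < s := by linarith
  have h0 := hl (fun x => F4o X.U X.S.ω X.S.g x * y x) s hs
    (mul_nonneg (by linarith) X.Km_nonneg) (n.mul_bdd hK hy ht hb) (by
      rw [mul_div_assoc]
      refine (X.mom s hs).2.of_le n.meas (by linarith) fun x => ?_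
      rw [abs_mul, mul_comm]
      exact mul_le_mul_of_nonneg_right (hb x) (abs_nonneg _))
  have hd' : ∀ x, |k x - y (s • x)| ≤ |c| / s ^ 2 := fun x =>
    (hd x).trans (div_le_div_of_nonneg_right (le_abs_self c) (by positivity))
  have my : Measurable fun z : Fin 4 → R3 => y (s • z) := hy.comp (HMac_meas_smul s)
  have bk : ∀ z, |k z| ≤ |c| / s ^ 2 + X.K := fun z => by
    have := abs_add_le (k z - y (s • z)) (y (s • z))
    rw [sub_add_cancel] at this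
    linarith [hd' z, hb (s • z)]
  have hT : ∀ x : Fin 4 → R3, |(k x - y (s • x)) * X.T.φ (x 2) ^ 2 * X.T.φ (x 3) ^ 2| ≤
      |c| / s ^ 2 * M₀ * M₀ := fun x => by
    rw [abs_mul, abs_mul]
    have a1 := hd' x
    have a2 := hc.l2.bdd (x 2)
    have a3 := hc.l2.bdd (x 3)
    gcongr
  have h1 := two_pt_le n hs0 hT hc.l2.meas hc.l2.meas hc.l2.memLp hc.l2.memLp 0 1
  have h2 : ∫ y, (X.T.φ y ^ 2) ^ 2 ≤ M₀ ^ 2 :=
    (OSob_of_lint (hc.l2.meas.pow_const 2) (fun _ => sq_nonneg _) (sq_nonneg _) hc.l2.l2).2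
  have h3 : 0 ≤ ∫ y, (X.T.φ y ^ 2) ^ 2 := integral_nonneg fun _ => sq_nonneg _
  have h4 : |∫ x : Fin 4 → R3, F4o X.U X.S.ω X.S.g (s • x) *
      ((k x - y (s • x)) * X.T.φ (x 2) ^ 2 * X.T.φ (x 3) ^ 2) * X.T.φ (x 0) ^ 2 *
        X.T.φ (x 1) ^ 2| ≤ X.K * (|c| / s ^ 2 * M₀ * M₀) / s ^ (3 * 3) * M₀ ^ 2 := by
    refine abs_le_of_sq_le_sq' (h1.trans ?_) (by positivity) |> abs_le.2
    rw [mul_pow _ (M₀ ^ 2), mul_assoc, sq (M₀ ^ 2)]
    gcongr
  have e0 : ∫ x : Fin 4 → R3, s ^ 2 * (F4o X.U X.S.ω X.S.g (s • x) * y (s • x)) * X.ph 4 x ^ 2 =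
      ∫ z, X.F4N s z * y (s • z) * X.ph 4 z * X.ph 4 z :=
    integral_congr_ae (Eventually.of_forall fun z => by simp only [F4N, sc]; ring)
  rw [e0] at h0
  have h5 : |(∫ z, X.F4N s z * k z * X.ph 4 z * X.ph 4 z) -
      ∫ z, X.F4N s z * y (s • z) * X.ph 4 z * X.ph 4 z| ≤ X.K * |c| * M₀ ^ 4 / s ^ 8 := by
    rw [← integral_sub (X.DM4b_int s hk bk) (X.DM4b_int s my fun z => hb _)]
    calc _ = |s ^ 2 * ∫ x : Fin 4 → R3, F4o X.U X.S.ω X.S.g (s • x) *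
        ((k x - y (s • x)) * X.T.φ (x 2) ^ 2 * X.T.φ (x 3) ^ 2) * X.T.φ (x 0) ^ 2 *
          X.T.φ (x 1) ^ 2| := by
          rw [← integral_const_mul]
          congr 1
          refine integral_congr_ae (Eventually.of_forall fun z => ?_)
          simp only [F4N, sc, ph, tens, Fin.prod_univ_four]
          ring
      _ ≤ s ^ 2 * (X.K * (|c| / s ^ 2 * M₀ * M₀) / s ^ (3 * 3) * M₀ ^ 2) := by
          rw [abs_mul, abs_of_pos (pow_pos hs0 2)]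
          gcongr
      _ = X.K * |c| * M₀ ^ 4 / s ^ 9 := by
          field_simp
          ring
      _ ≤ _ := by
          gcongr
          norm_num
  rw [add_div]
  exact (abs_sub_le _ _ _).trans (add_le_add h5 h0)

theorem DM4b_CC (h : X.Par Λ mm) : X.Ev Λ mm fun C s _ D =>
    |D.GCC + X.r4 * X.i8 / s ^ 7| ≤ C / s ^ 8 := by
  obtain ⟨M₀, hc⟩ := X.exists_cond
  obtain ⟨M₁, hM₁, -, hl⟩ := X.exists_low Λ
  obtain ⟨Cc, hCc, hcmp⟩ := X.cmp
  obtain ⟨Ck, hCk, hk⟩ := X.k_diff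
  have hM₀ := hc.one_le
  have hμ := X.μ_nonneg
  obtain ⟨cG, hcG, hg⟩ := cmp_gam (mm ^ 2 + M₀ + X.T.μ + M₁)
  obtain ⟨CJ, hCJ, hJ⟩ := X.DM4b_J (y := fun x => -X.S.g x) X.S.g_meas.neg
    (fun x a => congrArg Neg.neg (X.S.g_ti x a))
    (fun x => by rw [abs_neg]; exact (X.S.g_bdd x).trans X.hK.K_le) (Ck * mm ^ 2)
  have er : (relInt fun x => F4o X.U X.S.ω X.S.g x * -X.S.g x) = -X.r4 := by
    simp only [r4, relInt, mul_neg, integral_neg]
  refine Ev.of (cG * Cc + CJ) fun s hs => ?_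
  have hs1 : 1 ≤ s := h.mm_ge.trans hs
  have hs0 : 0 < s := by linarith
  have c4 := (hcmp mm s h.mm_ge hs).2.2
  have bf : ∀ _ : Fin 4, BF X.Wp X.T.φ (X.T.B.g X.T.o) (mm ^ 2 + M₀ + X.T.μ + M₁) := fun _ =>
    hc.bf.mono (by nlinarith [sq_nonneg mm])
  have h1 := hg X.T.B X.T.μ (mm ^ 2) s _ _ _ (X.F4N s) (X.k4 mm s) (fun _ => X.T.φ)
    (fun _ => X.T.φ) _ _ X.hWp (by simp) (by simp) c4 (by linarith) bf bf hμ
    (by nlinarith [sq_nonneg mm])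
  filter_upwards [h1] with M h1 hM C hC
  have h2 := h1 (X.dat Λ mm s M hM).toLv (fun a => X.lam_eq hM a)
    (fun a ha => (X.hi3 h hM a ha).1) ((hl mm s M hM).trans (by nlinarith [sq_nonneg mm]))
  have h3 := hJ s (X.k4 mm s) hs1 (RCmp_kb c4.gd).1 fun x => by
    rw [sub_neg_eq_add]; exact (hk mm s h.mm_ge hs).2.2 x
  rw [er] at h3
  have h4 : |(X.dat Λ mm s M hM).GCC - ∫ z, X.F4N s z * X.k4 mm s z * X.ph 4 z * X.ph 4 z| ≤
      cG * Cc / s ^ 8 := by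
    rw [Dat.GCC, X.F4_eq hM]
    refine le_trans h2 ?_
    rw [← mul_div_assoc]
    gcongr
    norm_num
  have h5 := (abs_sub_le _ _ _).trans (add_le_add h4 h3)
  rw [neg_mul, neg_div, sub_neg_eq_add, ← add_div] at h5
  exact h5.trans (by gcongr)

theorem DM4b_lim (h1 : 1 ≤ mm) (hs : mm ≤ s) : Tendsto (fun M : ℝ => ∑ α : Fin 3 → X.I M,
      coef (X.e M) (X.T3 mm s) α *
        coef (X.e M) (red (fun x => X.F4N s x * X.ph 4 x) X.T.φ) α) atTop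
    (𝓝 (∫ z, X.F4N s z * X.k3 mm s (om 3 z) * X.ph 4 z * X.ph 4 z)) := by
  obtain ⟨Cc, -, hcmp⟩ := X.cmp
  obtain ⟨mk, B, hB⟩ := RCmp_kb (hcmp mm s h1 hs).2.1.gd
  have lr : MemLp (red (fun x => X.F4N s x * X.ph 4 x) X.T.φ) 2 volume :=
    memLp_red ((X.meas_F4N s).mul (X.meas_ph 4)) (X.memLp_FC s) X.T.meas X.memLp_φ
  have h := EB.parseval X.hWp X.T.B (F := X.T3 mm s)
    (F' := red (fun x => X.F4N s x * X.ph 4 x) X.T.φ)
    (by rw [muP_univ]; exact (X.memLp_T h1 hs).2.1.2) (by rw [muP_univ]; exact lr)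
  simp only [coefO_univ, muP_univ] at h
  have e : ∫ z, X.F4N s z * X.k3 mm s (om 3 z) * X.ph 4 z * X.ph 4 z =
      ∫ x, X.T3 mm s x * red (fun x => X.F4N s x * X.ph 4 x) X.T.φ x := by
    rw [integral_snoc (X.DM4b_int s (k := fun z => X.k3 mm s (om 3 z))
      (mk.comp (HMicro_om_meas 3)) fun z => hB _)]
    refine integral_congr_ae (Eventually.of_forall fun x => ?_)
    simp only [red, ← integral_const_mul, DM4b_om, DM4b_ph, T3]
    refine integral_congr_ae (Eventually.of_forall fun y => ?_)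
    simp only
    ring
  rw [e]
  exact h

theorem DM4b_AD (h : X.Par Λ mm) : X.Ev Λ mm fun C s _ D =>
    |D.GAD - X.r5 * X.i8 / s ^ 7| ≤ C / s ^ 8 := by
  obtain ⟨M₀, hc⟩ := X.exists_cond
  obtain ⟨M₁, hM₁, -, hl⟩ := X.exists_low Λ
  obtain ⟨Cc, hCc, hcmp⟩ := X.cmp
  obtain ⟨Ck, hCk, hk⟩ := X.k_diff
  obtain ⟨CA, hCA, hA⟩ := (X.normsA h).exists
  have hM₀ := hc.one_le
  have hμ := X.μ_nonneg
  have hK := X.K_ge
  obtain ⟨cR, hcR, hR⟩ := cmp_res (mm ^ 2 + M₀ + X.T.μ + M₁ + 3)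
  obtain ⟨cL, hcL, hL⟩ := cmp_low (mm ^ 2 + M₀ + X.T.μ + M₁ + 3)
  obtain ⟨CJ, hCJ, hJ⟩ := X.DM4b_J (y := fun x => X.S.ω (om 3 x))
    (X.S.ω_meas.comp (HMicro_om_meas 3)) (HMicro_om_ti X.S.ω_ti 3)
    (fun x => (X.S.ω_bdd _).trans X.hK.K_le) (Ck * mm ^ 2)
  refine Ev.of (√(cR * Cc * (3 * CA)) + √(cL * Cc * (3 * M₁ * (M₀ ^ 5 * X.K) ^ 2)) + 1 + CJ)
    fun s hs => ?_
  have hs1 : 1 ≤ s := h.mm_ge.trans hs
  have hs0 : 0 < s := by linarith
  have c3 := (hcmp mm s h.mm_ge hs).2.1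
  have bf : ∀ _ : Fin 3, BF X.Wp X.T.φ (X.T.B.g X.T.o) (mm ^ 2 + M₀ + X.T.μ + M₁ + 3) := fun _ =>
    hc.bf.mono (by nlinarith [sq_nonneg mm])
  have h1 := (Metric.tendsto_nhds.1 (X.DM4b_lim h.mm_ge hs)) (1 / s ^ 8) (by positivity)
  have h3 := hJ s (fun z => X.k3 mm s (om 3 z)) hs1 ((RCmp_kb c3.gd).1.comp (HMicro_om_meas 3))
    fun x => (hk mm s h.mm_ge hs).2.1 (om 3 x)
  have src := (src_tens X.hK.n4.meas X.hK.m4 (by linarith) (sq_nonneg s) hs0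
    (u := fun _ : Fin 4 => X.T.φ) (fun _ => X.T.meas) (by linarith : 0 < M₀)
    (fun _ => hc.l1.bdd) zero_le_one (by rw [mul_one]; exact hc.l1.l2)).red hs0 X.T.meas hc.l1.bdd
  filter_upwards [h1, hA s hs] with M h1 hA hM C hC
  set D := X.dat Λ mm s M hM with hD
  have eA : D.FA (D.oo 3) = coef (X.e M) fun x => X.F3N s x * X.ph 3 x := by
    rw [hD, X.FA_eq hM, X.prodE_oo hM]
  have eD : D.FD (D.oo 1) = coef (X.e M) (red (fun x => X.F4N s x * X.ph 4 x) X.T.φ) := by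
    rw [hD, X.FD_eq hM]
    exact congrArg (fun a => coef (X.e M) (red (fun z => X.F4N s z * X.ph 4 z) a)) (X.e_o hM)
  have hh : ∀ a, a ∉ D.low → 0 < D.lam a := fun a ha => by linarith [(X.hi3 h hM a ha).1]
  have g1 := Lv.gam_cross D.toLv hh (coef (X.e M) (X.T3 mm s)) (D.FA (D.oo 3)) (D.FD (D.oo 1))
  have b1 : D.res (coef (X.e M) (X.T3 mm s)) (D.FA (D.oo 3)) ≤ cR * Cc / s ^ 6 := by
    rw [eA, mul_div_assoc]
    exact (hR (X.fr M) D.toLv X.T.μ (mm ^ 2) s _ _ _ _ _ (fun _ => X.T.φ) _ X.hWp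
      MeasurableSet.univ (by simp) (by simp) c3 (by linarith) bf
      (fun j z hz => absurd (mem_univ z) hz)
      (by rw [abs_of_nonneg hμ]; nlinarith [sq_nonneg mm]) (fun a => rfl) fun a ha => by
        obtain ⟨h4, h5⟩ := X.hi3 h hM a ha
        refine ⟨h4, h5.trans (mul_le_mul_of_nonneg_right ?_ (zero_le_one.trans h4))⟩
        nlinarith [sq_nonneg mm]).1
  have ho : D.oo 1 ∈ D.lowF 1 := (X.mem_lowF hM _).2 fun j => by
    change X.T.B.ν X.T.o ≤ _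
    rw [X.T.ν_o]
    linarith [h.one_le]
  have b2 : ∑ α, D.resK (D.FD (D.oo 1)) α * D.FD (D.oo 1) α ≤ 3 * CA / s ^ 10 := by
    refine (Lv.gam_le_fam D.toLv (p := 3) (by norm_num) (fun a => X.lam_nonneg hM a) hh hs1
      (by positivity) ((hA hM).fD _ ho)).trans (le_of_eq ?_)
    push_cast
    field_simp
  have b2' : 0 ≤ ∑ α, D.resK (D.FD (D.oo 1)) α * D.FD (D.oo 1) α := by
    refine Finset.sum_nonneg fun α _ => ?_
    rw [Lv.resK]
    split_ifs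
    · rw [div_mul_eq_mul_div]
      exact div_nonneg (mul_self_nonneg _) (Finset.sum_nonneg fun j _ => X.lam_nonneg hM _)
    · rw [zero_mul]
  have b3 : D.lowM (coef (X.e M) (X.T3 mm s)) ≤ cL * Cc / s ^ 7 := by
    rw [mul_div_assoc]
    exact (hL X.T.B M D.toLv (mm ^ 2) s _ _ _ _ _ (fun _ => X.T.φ) _ X.hWp (by simp) (by simp) c3
      (by linarith) bf ((hl mm s M hM).trans (by nlinarith [sq_nonneg mm]))).1
  have b4 : D.lowM (D.FD (D.oo 1)) ≤ 3 * M₁ * (M₀ ^ 5 * X.K) ^ 2 / s ^ 11 := by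
    rw [eD]
    refine (low_mass D.toLv (by positivity) fun j => src.bil D.toLv (X.fr M).toFrame hs0
      (Finset.singleton_nonempty j) (by revert j; decide)).trans ?_
    have := hl mm s M hM
    calc _ ≤ (3 : ℝ) * M₁ * ((M₀ * (M₀ ^ (3 + 1) * (s ^ 2 * X.K) / s ^ 3)) ^ 2 /
          s ^ (3 * (2 + 1))) := by
          rw [Fintype.card_fin]
          push_cast
          gcongr
      _ = _ := by
          field_simp
          ring
  have b4' : 0 ≤ D.lowM (D.FD (D.oo 1)) :=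
    Finset.sum_nonneg fun α _ => by split_ifs <;> positivity
  have q1 := DM4b_sqrt hs1 (by positivity) (by positivity) b2' b1 b2 (by norm_num)
  have q2 := DM4b_sqrt hs1 (by positivity) (by positivity) b4' b3 b4 (by norm_num)
  rw [Real.dist_eq, ← eD] at h1
  have t1 := (abs_sub_le _ _ _).trans (add_le_add (g1.trans (add_le_add q1 q2)) h1.le)
  have t2 := (abs_sub_le _ _ _).trans (add_le_add t1 h3)
  rw [← add_div, ← add_div, ← add_div] at t2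
  exact t2.trans (by gcongr)

theorem m4b (h : X.Par Λ mm) : X.Ev Λ mm fun C s _ D =>
    |D.GCC + X.r4 * X.i8 / s ^ 7| ≤ C / s ^ 8 ∧ |D.GAD - X.r5 * X.i8 / s ^ 7| ≤ C / s ^ 8 :=
  (X.DM4b_CC h).and (X.DM4b_AD h)

end TS

end Pool.Agent.Lib.MP_8fe63c_mp
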