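import Pool.Agent.Lib.MP_8fe63c_mp.DBas
import Pool.Agent.Lib.MP_8fe63c_mp.DNA

/-!
The two-body source.

Sketch. `dB`: `Lv.gam_le_of_dual` with `c₁ = 2`. With `h = hat c`, `v2N_eq` and `integral_snoc`,
`∑ (FB - FBt) c = ∫ F3N x φ (x 0) φ (x 1) (φ (x 2)^2 - φ (x 0) φ (x 1)) h (x 0, x 1)`. Cauchy-Schwarz with weight
`|F3N|` (`sq_integral_le`): `|φ₂^2 - φ₀ φ₁| ≤ M₀ (|φ₂ - φ₀| + |φ₂ - φ₁|)` and `loc_move` give `s^(-6)`;
`marg_UN_hw` and `hardy_synth` give `s^(-3) ∑ lt c^2`. `GBB`: `Lv.gam_pert`; `cmp_gam` with `u = u' = φ^2`;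
`k_diff`; `locA` with `q = 1`, `A = φ^4`, kernel `v2o * green 0 v2o` (bounded factor by `Nice0.cb1_green` or
`HMicro_green_bdd`, `v_supp`, `mom_of_supp`).
-/

set_option linter.unusedSectionVars false

open MeasureTheory Set Filter Topology
open scoped ENNReal InnerProductSpace

namespace Pool.Agent.Lib.MP_8fe63c_mp

theorem DM4c_int {Y : Type} [MeasurableSpace Y] {μ : Measure Y} {F f g : Y → ℝ}
    (hF : Measurable F) (hf : Measurable f) (hg : Measurable g) {a b : ℝ}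
    (h1 : ∫⁻ x, eabs F x * ENNReal.ofReal (f x ^ 2) ∂μ ≤ ENNReal.ofReal a)
    (h2 : ∫⁻ x, eabs F x * ENNReal.ofReal (g x ^ 2) ∂μ ≤ ENNReal.ofReal b) :
    Integrable (fun x => F x * f x * g x) μ := by
  refine ⟨((hF.mul hf).mul hg).aestronglyMeasurable, ?_⟩
  have h3 : ∫⁻ x, ‖F x * f x * g x‖ₑ ∂μ ≤
      ∫⁻ x, (eabs F x * ENNReal.ofReal (f x ^ 2) + eabs F x * ENNReal.ofReal (g x ^ 2)) ∂μ := by
    refine lintegral_mono fun x => ?_
    rw [RLoc_enorm, eabs, ← ENNReal.ofReal_mul (abs_nonneg _), ← ENNReal.ofReal_mul (abs_nonneg _),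
      ← ENNReal.ofReal_add (by positivity) (by positivity)]
    refine ENNReal.ofReal_le_ofReal ?_
    rw [abs_mul, abs_mul, ← mul_add, mul_assoc]
    refine mul_le_mul_of_nonneg_left ?_ (abs_nonneg _)
    rw [← sq_abs (f x), ← sq_abs (g x)]
    nlinarith [sq_nonneg (|f x| - |g x|), mul_nonneg (abs_nonneg (f x)) (abs_nonneg (g x))]
  have m1 : Measurable fun x => eabs F x * ENNReal.ofReal (f x ^ 2) :=
    (measurable_eabs hF).mul (hf.pow_const 2).ennreal_ofReal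
  rw [lintegral_add_left m1] at h3
  exact h3.trans_lt (ENNReal.add_lt_top.2
    ⟨h1.trans_lt ENNReal.ofReal_lt_top, h2.trans_lt ENNReal.ofReal_lt_top⟩)

theorem DM4c_alg {a b c M : ℝ} (ha : |a| ≤ M) (hb : |b| ≤ M) (hc : |c| ≤ M) :
    (a * b * (c ^ 2 - a * b)) ^ 2 ≤ 2 * M ^ 6 * (c - a) ^ 2 + 2 * M ^ 6 * (c - b) ^ 2 := by
  have h1 := RLoc_sq ha
  have h2 := RLoc_sq hb
  have h3 := RLoc_sq hc
  have h4 : (c ^ 2 - a * b) ^ 2 ≤ 2 * M ^ 2 * (c - a) ^ 2 + 2 * M ^ 2 * (c - b) ^ 2 := by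
    have e : c ^ 2 - a * b = c * (c - a) + a * (c - b) := by ring
    have h5 := mul_le_mul_of_nonneg_right h3 (sq_nonneg (c - a))
    have h6 := mul_le_mul_of_nonneg_right h1 (sq_nonneg (c - b))
    rw [e]
    nlinarith [sq_nonneg (c * (c - a) - a * (c - b))]
  calc _ = a ^ 2 * b ^ 2 * (c ^ 2 - a * b) ^ 2 := by ring
    _ ≤ M ^ 2 * M ^ 2 * (2 * M ^ 2 * (c - a) ^ 2 + 2 * M ^ 2 * (c - b) ^ 2) := by gcongr
    _ = _ := by ring

theorem DM4c_s0 (x : Fin 2 → R3) (y : R3) : (Fin.snoc x y : Fin 3 → R3) 0 = x 0 := rfl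

theorem DM4c_s1 (x : Fin 2 → R3) (y : R3) : (Fin.snoc x y : Fin 3 → R3) 1 = x 1 := rfl

theorem DM4c_s2 (x : Fin 2 → R3) (y : R3) : (Fin.snoc x y : Fin 3 → R3) 2 = y := rfl

theorem DM4c_upd (x : Fin 2 → R3) (y z : R3) :
    Function.update (Fin.snoc x z : Fin 3 → R3) 2 y = Fin.snoc x y :=
  Fin.update_snoc_last (α := fun _ : Fin 3 => R3) z x y

theorem DM4c_meas_init : Measurable fun z : Fin 3 → R3 => (Fin.init z : Fin 2 → R3) :=
  measurable_pi_iff.2 fun i => measurable_pi_apply i.castSucc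

theorem DM4c_meas_snoc (x : Fin 2 → R3) : Measurable fun y : R3 => (Fin.snoc x y : Fin 3 → R3) :=
  HMac_meas_snoc.comp (measurable_const.prodMk measurable_id)

theorem DM4c_final {G Γ J J0 m s C1 C2 C3 C4 R : ℝ} (hs : 1 ≤ s) (h1 : 0 ≤ C1)
    (hG : |G - Γ| ≤ 2 * √(Γ * (C1 / s ^ 9)) + C1 / s ^ 9) (h2 : |Γ - J| ≤ C2 / s ^ 8)
    (h3 : |J - J0| ≤ C3 / s ^ 8) (h4 : |J0 - m / s ^ 7| ≤ C4 / s ^ 8) (hm : |m| ≤ R) :
    |G - m / s ^ 7| ≤
      (2 * √((|C2| + |C3| + |C4| + R) * C1) + C1 + |C2| + |C3| + |C4|) / s ^ 8 := by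
  have hs0 : 0 < s := by linarith
  have hR : 0 ≤ R := (abs_nonneg _).trans hm
  have k : ∀ c : ℝ, c / s ^ 8 ≤ |c| / s ^ 8 := fun c => by gcongr; exact le_abs_self c
  have k7 : ∀ c : ℝ, |c| / s ^ 8 ≤ |c| / s ^ 7 := fun c => by
    gcongr
    norm_num
  have k9 : C1 / s ^ 9 ≤ C1 / s ^ 8 := by
    gcongr
    norm_num
  have hm' : m / s ^ 7 ≤ R / s ^ 7 := by gcongr; exact (le_abs_self m).trans hm
  have hΓ : Γ ≤ (|C2| + |C3| + |C4| + R) / s ^ 7 := by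
    have a2 := (le_abs_self _).trans (h2.trans ((k C2).trans (k7 C2)))
    have a3 := (le_abs_self _).trans (h3.trans ((k C3).trans (k7 C3)))
    have a4 := (le_abs_self _).trans (h4.trans ((k C4).trans (k7 C4)))
    rw [add_div, add_div, add_div]
    linarith
  have hq : √(Γ * (C1 / s ^ 9)) ≤ √((|C2| + |C3| + |C4| + R) * C1) / s ^ 8 := by
    rw [Real.sqrt_le_iff]
    refine ⟨by positivity, ?_⟩
    rw [div_pow, Real.sq_sqrt (by positivity)]
    calc _ ≤ (|C2| + |C3| + |C4| + R) / s ^ 7 * (C1 / s ^ 9) := by gcongr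
      _ = _ := by field_simp
  have t : |G - m / s ^ 7| ≤ |G - Γ| + |Γ - J| + |J - J0| + |J0 - m / s ^ 7| := by
    have e : G - m / s ^ 7 = (G - Γ) + (Γ - J) + (J - J0) + (J0 - m / s ^ 7) := by ring
    rw [e]
    exact (abs_add_le _ _).trans (by
      gcongr
      exact (abs_add_le _ _).trans (by gcongr; exact abs_add_le _ _))
  have a2 := h2.trans (k C2)
  have a3 := h3.trans (k C3)
  have a4 := h4.trans (k C4)
  rw [add_div, add_div, add_div, add_div, mul_div_assoc]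
  linarith

namespace TS

variable (X : TS) {Λ mm s M : ℝ}

/-- the defect of the density -/
noncomputable def DM4c_D (z : Fin 3 → R3) : ℝ :=
  X.T.φ (z 0) * X.T.φ (z 1) * (X.T.φ (z 2) ^ 2 - X.T.φ (z 0) * X.T.φ (z 1))

theorem DM4c_meas_D : Measurable X.DM4c_D := by
  have h : ∀ j : Fin 3, Measurable fun z : Fin 3 → R3 => X.T.φ (z j) := fun j =>
    X.T.meas.comp (measurable_pi_apply j)
  exact ((h 0).mul (h 1)).mul (((h 2).pow_const 2).sub ((h 0).mul (h 1)))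

theorem DM4c_b1 {M₀ : ℝ} (hc : X.Cond M₀) (hs : 0 < s) :
    ∫⁻ z, eabs (X.F3N s) z * ENNReal.ofReal (X.DM4c_D z ^ 2) ≤
      ENNReal.ofReal (16 * M₀ ^ 8 * X.K ^ 3 / s ^ 6) := by
  have n := X.hK.n3.toNice0
  have hK := X.K_ge
  have hM := hc.one_le
  have hm : Mom s (F3o X.U X.S.ω) (X.K * X.K ^ 2 / s ^ 2) :=
    mom_of_supp n hs fun x hx => X.pot3.supp x (left_ne_zero_of_mul hx)
  have one := fun a b : Fin 3 => loc_move n.meas n.ti hs (by positivity) hm hc.l1 a b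
  have me : ∀ a b : Fin 3, Measurable fun z : Fin 3 → R3 => eabs (F3o X.U X.S.ω) (s • z) *
      ENNReal.ofReal ((X.T.φ (z a) - X.T.φ (z b)) ^ 2) := fun a b =>
    ((measurable_eabs n.meas).comp (HMac_meas_smul s)).mul
      (((X.T.meas.comp (measurable_pi_apply a)).sub
        (X.T.meas.comp (measurable_pi_apply b))).pow_const 2).ennreal_ofReal
  calc _ ≤ ∫⁻ z : Fin 3 → R3, ENNReal.ofReal (s ^ 2 * (2 * M₀ ^ 6)) *
        (eabs (F3o X.U X.S.ω) (s • z) * ENNReal.ofReal ((X.T.φ (z 2) - X.T.φ (z 0)) ^ 2) +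
          eabs (F3o X.U X.S.ω) (s • z) * ENNReal.ofReal ((X.T.φ (z 2) - X.T.φ (z 1)) ^ 2)) := by
        refine lintegral_mono fun z => ?_
        rw [F3N, HMac_eabs_sc (sq_nonneg s), ← mul_add,
          ← ENNReal.ofReal_add (sq_nonneg _) (sq_nonneg _), ENNReal.ofReal_mul (sq_nonneg s),
          mul_assoc, mul_assoc, mul_left_comm (ENNReal.ofReal (2 * M₀ ^ 6)),
          ← ENNReal.ofReal_mul (by positivity)]
        refine mul_le_mul_right (mul_le_mul_right (ENNReal.ofReal_le_ofReal ?_) _) _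
        exact (DM4c_alg (hc.l1.bdd _) (hc.l1.bdd _) (hc.l1.bdd _)).trans_eq (by ring)
    _ ≤ ENNReal.ofReal (s ^ 2 * (2 * M₀ ^ 6)) *
        (ENNReal.ofReal (4 * M₀ ^ 2 * (X.K * X.K ^ 2 / s ^ 2) / s ^ (3 * 2)) +
          ENNReal.ofReal (4 * M₀ ^ 2 * (X.K * X.K ^ 2 / s ^ 2) / s ^ (3 * 2))) := by
        rw [lintegral_const_mul' _ _ ENNReal.ofReal_ne_top, lintegral_add_left (me 2 0)]
        exact mul_le_mul_right (add_le_add (one 2 0) (one 2 1)) _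
    _ = _ := by
        rw [← ENNReal.ofReal_add (by positivity) (by positivity),
          ← ENNReal.ofReal_mul (by positivity)]
        congr 1
        field_simp
        ring

theorem DM4c_slice (hs : 0 < s) (x : Fin 2 → R3) :
    ∫⁻ y, eabs (X.F3N s) (Fin.snoc x y) ≤
      ENNReal.ofReal (X.K * (1 + X.K ^ 2) / s * hw s (x 0 - x 1)) := by
  have h := (X.marg_UN_hw hs (a := 0) (b := 1) (c := 2) (by decide) (by decide) (by decide)
    (Fin.snoc x 0)).2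
  rw [marg_single] at h
  simp only [DM4c_upd] at h
  exact h

theorem DM4c_int_slice (hs : 0 < s) (x : Fin 2 → R3) :
    Integrable fun y => X.F3N s (Fin.snoc x y) := by
  refine ⟨((X.meas_F3N s).comp (DM4c_meas_snoc x)).aestronglyMeasurable, ?_⟩
  refine lt_of_le_of_lt (le_of_eq (lintegral_congr fun y => ?_))
    ((X.DM4c_slice hs x).trans_lt ENNReal.ofReal_lt_top)
  exact RLoc_enorm _

theorem DM4c_b2 (hs : 0 < s) (L : Lv (X.I M)) (c : (Fin 2 → X.I M) → ℝ) :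
    ∫⁻ z, eabs (X.F3N s) z * ENNReal.ofReal (hat (X.e M) c (Fin.init z) ^ 2) ≤
      ENNReal.ofReal (4 * X.K * (1 + X.K ^ 2) / s ^ 3 *
        ∑ α : Fin 2 → X.I M, (∑ j, (X.fr M).lt (α j)) * c α ^ 2) := by
  have hK := X.K_ge
  have mh : Measurable (hat (X.e M) c) := measurable_hat (X.on M).meas c
  have h1 := hardy_synth L (X.fr M).toFrame hs (A := Finset.univ) (a := (0 : Fin 2)) (b := 1)
    (by decide) (Finset.mem_univ _) c 0
  rw [marg_univ, synth_univ, Lv.cfg_univ] at h1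
  have m1 : Measurable fun z : Fin (2 + 1) → R3 =>
      eabs (X.F3N s) z * ENNReal.ofReal (hat (X.e M) c (Fin.init z) ^ 2) :=
    (measurable_eabs (X.meas_F3N s)).mul ((mh.comp DM4c_meas_init).pow_const 2).ennreal_ofReal
  rw [lintegral_snoc m1]
  calc _ ≤ ∫⁻ x : Fin 2 → R3, ENNReal.ofReal (X.K * (1 + X.K ^ 2) / s) *
        ENNReal.ofReal (hw s (x 0 - x 1) * hat (X.e M) c x ^ 2) := by
        refine lintegral_mono fun x => ?_
        simp only [Fin.init_snoc]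
        rw [lintegral_mul_const' _ _ ENNReal.ofReal_ne_top, ENNReal.ofReal_mul (hw_pos _ _).le,
          ← mul_assoc, ← ENNReal.ofReal_mul (by positivity)]
        exact mul_le_mul_left (X.DM4c_slice hs x) _
    _ ≤ ENNReal.ofReal (X.K * (1 + X.K ^ 2) / s) *
        ENNReal.ofReal (4 / s ^ 2 * ∑ α : Fin 2 → X.I M, (X.fr M).lt (α 1) * c α ^ 2) := by
        rw [lintegral_const_mul' _ _ ENNReal.ofReal_ne_top]
        exact mul_le_mul_right h1 _
    _ ≤ _ := by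
        rw [← ENNReal.ofReal_mul (by positivity)]
        refine ENNReal.ofReal_le_ofReal ?_
        have h2 : ∑ α : Fin 2 → X.I M, (X.fr M).lt (α 1) * c α ^ 2 ≤
            ∑ α : Fin 2 → X.I M, (∑ j, (X.fr M).lt (α j)) * c α ^ 2 := by
          refine Finset.sum_le_sum fun α _ => mul_le_mul_of_nonneg_right ?_ (sq_nonneg _)
          rw [Fin.sum_univ_two]
          linarith [(X.fr M).lt_nonneg (α 0)]
        calc _ = 4 * X.K * (1 + X.K ^ 2) / s ^ 3 *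
              ∑ α : Fin 2 → X.I M, (X.fr M).lt (α 1) * c α ^ 2 := by field_simp
          _ ≤ _ := by gcongr

theorem DM4c_v2N_bdd (hs : 0 < s) (x : Fin 2 → R3) : |X.v2N s x| ≤ s⁻¹ * X.K := by
  rw [v2N, sc, abs_mul, abs_of_pos (inv_pos.2 hs)]
  exact mul_le_mul_of_nonneg_left (X.hK.n2.toNice0.bdd (by simp) _) (inv_pos.2 hs).le

theorem DM4c_memLp (hs : 0 < s) : MemLp (fun x => X.v2N s x * X.ph2 x) 2 volume :=
  memLp_bdd_mul (X.meas_v2N s) (X.DM4c_v2N_bdd hs) X.memLp_ph2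

theorem DM4c_pt (hs : 0 < s) (x : Fin 2 → R3) :
    red (fun z => X.F3N s z * X.ph 3 z) X.T.φ x - X.v2N s x * X.ph2 x =
      ∫ y, X.F3N s (Fin.snoc x y) * X.DM4c_D (Fin.snoc x y) := by
  have i := X.DM4c_int_slice hs x
  have hb : ∀ y, ‖X.T.φ y ^ 2‖ ≤ X.T.M ^ 2 := fun y => by
    rw [Real.norm_of_nonneg (sq_nonneg _)]
    exact pow_le_pow_left₀ (X.T.φ_nonneg y) (X.T.φ_le y) 2
  have i2 : Integrable fun y => X.F3N s (Fin.snoc x y) * X.T.φ y ^ 2 :=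
    i.mul_bdd (X.T.meas.pow_const 2).aestronglyMeasurable (Eventually.of_forall hb)
  rw [red, X.v2N_eq hs, ← integral_mul_const, ← integral_sub ?_ (i.mul_const _)]
  · refine integral_congr_ae (Eventually.of_forall fun y => ?_)
    simp only [ph, ph2, tens, DM4c_D, Fin.prod_univ_three, Fin.prod_univ_two, DM4c_s0, DM4c_s1,
      DM4c_s2]
    ring
  · refine (i2.mul_const (X.T.φ (x 0) * X.T.φ (x 1))).congr (Eventually.of_forall fun y => ?_)
    simp only [ph, tens, Fin.prod_univ_three, DM4c_s0, DM4c_s1, DM4c_s2]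
    ring

theorem DM4c_dual {M₀ : ℝ} (hc : X.Cond M₀) (hs : 0 < s) (hM : X.T.μ ≤ M)
    (c : (Fin 2 → X.I M) → ℝ) :
    (∑ α, ((X.dat Λ mm s M hM).FB ((X.dat Λ mm s M hM).oo 1) ((X.dat Λ mm s M hM).oo 3) α -
      X.FBt s M α) * c α) ^ 2 ≤ 64 * M₀ ^ 8 * X.K ^ 4 * (1 + X.K ^ 2) / s ^ 9 *
        ∑ α : Fin 2 → X.I M, (∑ j, (X.fr M).lt (α j)) * c α ^ 2 := by
  have hK := X.K_ge
  have hM0 := hc.one_le
  have mh : Measurable (hat (X.e M) c) := measurable_hat (X.on M).meas c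
  have lh : MemLp (hat (X.e M) c) 2 volume := NBes_memLp_hat (X.fr M).toFrame c
  have l3 : MemLp (fun z => X.F3N s z * X.ph 3 z) 2 volume :=
    memLp_bdd_mul (X.meas_F3N s) (X.F3N_bdd s) (X.memLp_ph 3)
  have lr : MemLp (red (fun z => X.F3N s z * X.ph 3 z) X.T.φ) 2 volume :=
    memLp_red ((X.meas_F3N s).mul (X.meas_ph 3)) l3 X.T.meas X.memLp_φ
  have e1 : (X.dat Λ mm s M hM).FB ((X.dat Λ mm s M hM).oo 1) ((X.dat Λ mm s M hM).oo 3) =
      coef (X.e M) (red (fun z => X.F3N s z * X.ph 3 z) X.T.φ) := by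
    rw [X.FB_eq hM, X.prodE_oo hM]
    exact congrArg (fun a => coef (X.e M) (red (fun z => X.F3N s z * X.ph 3 z) a)) (X.e_o hM)
  have b1 := X.DM4c_b1 hc hs
  have b2 := X.DM4c_b2 hs (X.lv Λ M hM) c
  have mi : Measurable fun z : Fin (2 + 1) → R3 => hat (X.e M) c (Fin.init z) :=
    mh.comp DM4c_meas_init
  have e2 : ∑ α, ((X.dat Λ mm s M hM).FB ((X.dat Λ mm s M hM).oo 1)
      ((X.dat Λ mm s M hM).oo 3) α - X.FBt s M α) * c α =
      ∫ z, X.F3N s z * X.DM4c_D z * hat (X.e M) c (Fin.init z) := by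
    have s1 : ∑ α, coef (X.e M) (red (fun z => X.F3N s z * X.ph 3 z) X.T.φ) α * c α =
        ∫ x, red (fun z => X.F3N s z * X.ph 3 z) X.T.φ x * hat (X.e M) c x :=
      coef_sum (X.fr M).toFrame lr c
    have s2 : ∑ α, X.FBt s M α * c α = ∫ x, X.v2N s x * X.ph2 x * hat (X.e M) c x :=
      coef_sum (X.fr M).toFrame (X.DM4c_memLp hs) c
    have i1 : Integrable fun x => red (fun z => X.F3N s z * X.ph 3 z) X.T.φ x * hat (X.e M) c x :=
      lr.integrable_mul lh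
    have i2 : Integrable fun x => X.v2N s x * X.ph2 x * hat (X.e M) c x :=
      (X.DM4c_memLp hs).integrable_mul lh
    simp only [sub_mul]
    rw [Finset.sum_sub_distrib, e1, s1, s2, ← integral_sub i1 i2,
      integral_snoc (DM4c_int (X.meas_F3N s) X.DM4c_meas_D mi b1 b2)]
    refine integral_congr_ae (Eventually.of_forall fun x => ?_)
    simp only [Fin.init_snoc]
    rw [integral_mul_const, ← X.DM4c_pt hs x, sub_mul]
  have p : 0 ≤ ∑ α : Fin 2 → X.I M, (∑ j, (X.fr M).lt (α j)) * c α ^ 2 :=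
    Finset.sum_nonneg fun α _ =>
      mul_nonneg (Finset.sum_nonneg fun j _ => (X.fr M).lt_nonneg _) (sq_nonneg _)
  rw [e2]
  refine (sq_integral_le (measurable_eabs (X.meas_F3N s)) X.DM4c_meas_D mi (fun _ => le_rfl)
    (by positivity) (by positivity) b1 b2).trans_eq ?_
  field_simp
  ring

theorem DM4c_dB (h : X.Par Λ mm) {M₀ : ℝ} (hc : X.Cond M₀) (hs : mm ≤ s) (hM : X.T.μ ≤ M) :
    ∑ α, (X.dat Λ mm s M hM).resK (fun α => (X.dat Λ mm s M hM).FB ((X.dat Λ mm s M hM).oo 1)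
      ((X.dat Λ mm s M hM).oo 3) α - X.FBt s M α) α *
      ((X.dat Λ mm s M hM).FB ((X.dat Λ mm s M hM).oo 1) ((X.dat Λ mm s M hM).oo 3) α -
        X.FBt s M α) ≤ 128 * M₀ ^ 8 * X.K ^ 4 * (1 + X.K ^ 2) / s ^ 9 := by
  have hs0 : 0 < s := by linarith [h.mm_ge]
  have hK := X.K_ge
  have hM0 := hc.one_le
  refine (Lv.gam_le_of_dual (X.dat Λ mm s M hM).toLv (lt := (X.fr M).lt) (c₁ := 2)
    (fun a ha => ⟨by linarith [(X.hi (s := s) h hM a ha).1, h.one_le], (X.hi h hM a ha).2⟩)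
    (by norm_num) (by positivity) (X.DM4c_dual hc hs0 hM)).trans_eq ?_
  ring

theorem dB (h : X.Par Λ mm) : X.Ev Λ mm fun C s M D =>
    ∑ α, D.resK (fun α => D.FB (D.oo 1) (D.oo 3) α - X.FBt s M α) α *
      (D.FB (D.oo 1) (D.oo 3) α - X.FBt s M α) ≤ C / s ^ 9 := by
  obtain ⟨M₀, hc⟩ := X.exists_cond
  refine Ev.of_all (128 * M₀ ^ 8 * X.K ^ 4 * (1 + X.K ^ 2)) fun C hC s hs M hM => ?_
  have hs0 : 0 < s := by linarith [h.mm_ge]
  exact (X.DM4c_dB h hc hs hM).trans (by gcongr)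

theorem DM4c_ph (x : Fin 2 → R3) : X.ph2 x * X.ph2 x = X.T.φ (x 0) ^ 4 * X.T.φ (x 1) ^ 4 := by
  simp only [ph2, tens, Fin.prod_univ_two]
  ring

theorem DM4c_l4 {M₀ : ℝ} (hc : X.Cond M₀) : ∫ y, (X.T.φ y ^ 4) ^ 2 ≤ M₀ ^ 2 :=
  (OSob_of_lint (hc.l4.meas.pow_const 2) (fun _ => sq_nonneg _) (sq_nonneg _) hc.l4.l2).2

theorem DM4c_i8 : ∫ y, (X.T.φ y ^ 4) ^ 2 = X.i8 :=
  integral_congr_ae (Eventually.of_forall fun y => by ring)

theorem DM4c_nice : Nice0 (fun x => v2o X.U X.S.ω x * green 0 (v2o X.U X.S.ω) x)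
    (X.K * (3 * X.K)) := by
  have n := X.hK.n2.toNice0
  exact n.mul_bdd (by linarith [X.K_ge]) (measurable_green 0 n.meas) (n.ti.green 0)
    (HMicro_green_bdd n (by simp))

theorem DM4c_int2 (hs : 0 < s) {k : (Fin 2 → R3) → ℝ} (hk : Measurable k) {B : ℝ}
    (hb : ∀ x, |k x| ≤ B) : Integrable fun z => X.v2N s z * k z * X.ph2 z * X.ph2 z := by
  refine ((X.DM4c_memLp hs).integrable_mul (memLp_bdd_mul hk hb X.memLp_ph2)).congr
    (Eventually.of_forall fun z => ?_)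
  simp only [Pi.mul_apply]
  ring

theorem DM4c_J {M₀ : ℝ} (hc : X.Cond M₀) (hs : 0 < s) {k : (Fin 2 → R3) → ℝ} (hk : Measurable k)
    {c : ℝ} (hd : ∀ x, |k x - green 0 (v2o X.U X.S.ω) (s • x) / s ^ 3| ≤ c / s ^ 4) :
    |(∫ z, X.v2N s z * k z * X.ph2 z * X.ph2 z) -
      ∫ z, X.v2N s z * (green 0 (v2o X.U X.S.ω) (s • z) / s ^ 3) * X.ph2 z * X.ph2 z| ≤
      X.K * c * M₀ ^ 2 / s ^ 8 := by
  have n := X.hK.n2.toNice0
  have hK := X.K_ge
  have hc0 : 0 ≤ c / s ^ 4 := (abs_nonneg _).trans (hd 0)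
  have mg : Measurable fun z : Fin 2 → R3 => green 0 (v2o X.U X.S.ω) (s • z) / s ^ 3 :=
    ((measurable_green 0 n.meas).comp (HMac_meas_smul s)).div_const _
  have bg : ∀ z : Fin 2 → R3, |green 0 (v2o X.U X.S.ω) (s • z) / s ^ 3| ≤ 3 * X.K / s ^ 3 :=
    fun z => by
      rw [abs_div, abs_of_pos (pow_pos hs 3)]
      gcongr
      exact HMicro_green_bdd n (by simp) _
  have bk : ∀ z, |k z| ≤ c / s ^ 4 + 3 * X.K / s ^ 3 := fun z => by
    have := abs_add_le (k z - green 0 (v2o X.U X.S.ω) (s • z) / s ^ 3)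
      (green 0 (v2o X.U X.S.ω) (s • z) / s ^ 3)
    rw [sub_add_cancel] at this
    linarith [hd z, bg z]
  have h1 := two_pt_le n hs hd hc.l4.meas hc.l4.meas hc.l4.memLp hc.l4.memLp 0 1
  have h2 := X.DM4c_l4 hc
  have h3 : 0 ≤ ∫ y, (X.T.φ y ^ 4) ^ 2 := integral_nonneg fun _ => sq_nonneg _
  have h4 : |∫ x : Fin 2 → R3, v2o X.U X.S.ω (s • x) *
      (k x - green 0 (v2o X.U X.S.ω) (s • x) / s ^ 3) * X.T.φ (x 0) ^ 4 * X.T.φ (x 1) ^ 4| ≤
      X.K * (c / s ^ 4) / s ^ (3 * 1) * M₀ ^ 2 := by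
    refine abs_le_of_sq_le_sq' (h1.trans ?_) (by positivity) |> abs_le.2
    rw [mul_pow _ (M₀ ^ 2), mul_assoc, sq (M₀ ^ 2)]
    gcongr
  rw [← integral_sub (X.DM4c_int2 hs hk bk) (X.DM4c_int2 hs mg bg)]
  calc _ = |s⁻¹ * ∫ x : Fin 2 → R3, v2o X.U X.S.ω (s • x) *
      (k x - green 0 (v2o X.U X.S.ω) (s • x) / s ^ 3) * X.T.φ (x 0) ^ 4 * X.T.φ (x 1) ^ 4| := by
        rw [← integral_const_mul]
        congr 1
        refine integral_congr_ae (Eventually.of_forall fun z => ?_)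
        simp only [mul_assoc _ (X.ph2 z), X.DM4c_ph z, v2N, sc]
        ring
    _ ≤ s⁻¹ * (X.K * (c / s ^ 4) / s ^ (3 * 1) * M₀ ^ 2) := by
        rw [abs_mul, abs_of_pos (inv_pos.2 hs)]
        gcongr
    _ = _ := by
        field_simp
        ring

theorem DM4c_J0 {M₀ : ℝ} (hc : X.Cond M₀) (hs : 1 ≤ s) :
    |(∫ z, X.v2N s z * (green 0 (v2o X.U X.S.ω) (s • z) / s ^ 3) * X.ph2 z * X.ph2 z) -
      X.r6 * X.i8 / s ^ 7| ≤ 192 * M₀ ^ 2 * X.K ^ 4 / s ^ 8 := by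
  have hs0 : 0 < s := by linarith
  have hK := X.K_ge
  have n := X.DM4c_nice
  have hm : Mom s (fun x => v2o X.U X.S.ω x * green 0 (v2o X.U X.S.ω) x)
      (X.K * (3 * X.K) * X.K ^ 2 / s ^ 2) := by
    refine mom_of_supp n hs0 fun x hx a b => ?_
    have h1 := X.hK.v_supp x (left_ne_zero_of_mul hx)
    have h2 : ‖x 1 - x 0‖ ≤ X.K := by rwa [norm_sub_rev]
    fin_cases a <;> fin_cases b
    · simpa using by linarith
    · exact h1
    · exact h2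
    · simpa using by linarith
  have h1 := locA (q := 1) le_rfl (by norm_num) n hs0 (by positivity) hm hc.l4
  rw [X.DM4c_i8] at h1
  calc _ = |(s ^ 4)⁻¹ * ((∫ x : Fin 2 → R3, (v2o X.U X.S.ω (s • x) *
        green 0 (v2o X.U X.S.ω) (s • x)) * ∏ j, X.T.φ (x j) ^ 4) -
        X.r6 / s ^ (3 * 1) * X.i8)| := by
        rw [mul_sub, ← integral_const_mul]
        congr 2
        · refine integral_congr_ae (Eventually.of_forall fun z => ?_)
          simp only [mul_assoc _ (X.ph2 z), X.DM4c_ph z, v2N, sc, Fin.prod_univ_two]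
          field_simp
        · field_simp
    _ ≤ (s ^ 4)⁻¹ * (64 * M₀ ^ (1 + 1) * (X.K * (3 * X.K) * X.K ^ 2 / s ^ 2) / s ^ (3 * 1)) := by
        rw [abs_mul, abs_of_pos (by positivity)]
        exact mul_le_mul_of_nonneg_left h1 (by positivity)
    _ = 192 * M₀ ^ 2 * X.K ^ 4 / s ^ 9 := by
        field_simp
        ring
    _ ≤ _ := by
        gcongr
        norm_num

theorem m4c (h : X.Par Λ mm) : X.Ev Λ mm fun C s _ D =>
    |D.GBB - X.r6 * X.i8 / s ^ 7| ≤ C / s ^ 8 := by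
  obtain ⟨M₀, hc⟩ := X.exists_cond
  obtain ⟨M₁, hM₁, -, hl⟩ := X.exists_low Λ
  obtain ⟨Cc, hCc, hcmp⟩ := X.cmp
  obtain ⟨Ck, hCk, hk⟩ := X.k_diff
  have hM₀ := hc.one_le
  have hμ := X.μ_nonneg
  have hK := X.K_ge
  obtain ⟨cG, hcG, hg⟩ := cmp_gam (mm ^ 2 + M₀ + X.T.μ + M₁)
  refine Ev.of (2 * √((|cG * Cc| + |X.K * (Ck * mm) * M₀ ^ 2| + |192 * M₀ ^ 2 * X.K ^ 4| +
      |X.r6 * X.i8|) * (128 * M₀ ^ 8 * X.K ^ 4 * (1 + X.K ^ 2))) +
      128 * M₀ ^ 8 * X.K ^ 4 * (1 + X.K ^ 2) + |cG * Cc| + |X.K * (Ck * mm) * M₀ ^ 2| +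
      |192 * M₀ ^ 2 * X.K ^ 4|) fun s hs => ?_
  have hs1 : 1 ≤ s := h.mm_ge.trans hs
  have hs0 : 0 < s := by linarith
  have c2 := (hcmp mm s h.mm_ge hs).1
  have bf : ∀ _ : Fin 2, BF X.Wp (fun x => X.T.φ x ^ 2)
      (fun x => (2 * X.T.φ x) • X.T.B.g X.T.o x) (mm ^ 2 + M₀ + X.T.μ + M₁) := fun _ =>
    hc.bf2.mono (by nlinarith [sq_nonneg mm])
  have h1 := hg X.T.B X.T.μ (mm ^ 2) s _ _ _ (X.v2N s) (X.k2 mm s) (fun _ y => X.T.φ y ^ 2)
    (fun _ y => X.T.φ y ^ 2) _ _ X.hWp (by simp) (by simp) c2 (by linarith) bf bf hμ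
    (by nlinarith [sq_nonneg mm])
  filter_upwards [h1] with M h1 hM C hC
  have h2 := h1 (X.dat Λ mm s M hM).toLv (fun a => X.lam_eq hM a)
    (fun a ha => (X.hi3 h hM a ha).1) ((hl mm s M hM).trans (by nlinarith [sq_nonneg mm]))
  rw [← mul_div_assoc] at h2
  have h3 := X.DM4c_J hc hs0 (RCmp_kb c2.gd).1 (hk mm s h.mm_ge hs).1
  have h4 := X.DM4c_J0 hc hs1
  have h5 := Lv.gam_pert (X.dat Λ mm s M hM).toLv (fun a _ => X.lam_nonneg hM a) _ _
    (X.DM4c_dB h hc hs hM)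
  exact (DM4c_final hs1 (by positivity) h5 h2 h3 h4 le_rfl).trans (by gcongr)

end TS

end Pool.Agent.Lib.MP_8fe63c_mp
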