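import Pool.Agent.Lib.MP_8fe63c_mp.DBas

/-!
One-leg bounds and the size of the vectors `y3`, `y4`.

Sketch. `l1a`, `l1c`, `l1d` by `sum_sq_le_of_dual` with `h = ∑ c a e a`. For `l1a`: by `integral_rel`,
`2 ∑ c a w a o / s^4 = ∫ F3N x * h (x 0) φ (x 0)^5`, and
`(∫ F3N h φ (x 0) (φ (x 1)^2 φ (x 2)^2 - φ (x 0)^4))^2 ≤ (∫ |F3N| h^2 φ^2) (∫ |F3N| (..)^2)`, use
`lintegral_sc_single_le`, `loc_move`, `mom_of_supp`. `l1c`, `l1d`: `two_pt_le`. `y4_op`:
`∑ c δ • y4 δ = sqU (red Y4 h)`, `(∫ yN φ h)^2 ≤ (∫ |yN|) (∫ |yN| φ^2 h^2)` with `y_mg`, `marg_scale`, then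
`lintegral_snoc` and `lintegral_sc_single_le` for `nUy`. `y4_hs`: `bessel_red` for `G x = √(UN (om 3 x)) * Y4 x`.
-/

set_option linter.unusedSectionVars false

open MeasureTheory Set Filter Topology
open scoped ENNReal InnerProductSpace

namespace Pool.Agent.Lib.MP_8fe63c_mp

section aux

variable {Y : Type} [MeasurableSpace Y] {ν : Measure Y} {q : ℕ} {Φ : (Fin (q + 1) → R3) → ℝ}
  {B s : ℝ} {I : Type} [Fintype I] [DecidableEq I]

theorem DNB_abs {f : Y → ℝ} (h : Measurable f) : Measurable fun x => |f x| :=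
  continuous_abs.measurable.comp h

theorem DNB_int {f : Y → ℝ} {a : ℝ} (hm : Measurable f) (h0 : ∀ x, 0 ≤ f x) (ha : 0 ≤ a)
    (h : ∫⁻ x, ENNReal.ofReal (f x) ∂ν ≤ ENNReal.ofReal a) :
    Integrable f ν ∧ ∫ x, f x ∂ν ≤ a := by
  have h1 : Integrable f ν := ⟨hm.aestronglyMeasurable,
    (hasFiniteIntegral_iff_ofReal (Eventually.of_forall h0)).2 (h.trans_lt ENNReal.ofReal_lt_top)⟩
  rw [← ofReal_integral_eq_lintegral_ofReal h1 (Eventually.of_forall h0),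
    ENNReal.ofReal_le_ofReal_iff ha] at h
  exact ⟨h1, h⟩

theorem DNB_cs {w u v : Y → ℝ} (hw : Measurable w) (hu : Measurable u) (hv : Measurable v)
    (i1 : Integrable (fun x => |w x| * u x ^ 2) ν) (i2 : Integrable (fun x => |w x| * v x ^ 2) ν) :
    (∫ x, w x * u x * v x ∂ν) ^ 2 ≤ (∫ x, |w x| * u x ^ 2 ∂ν) * ∫ x, |w x| * v x ^ 2 ∂ν := by
  have e : ∀ (f : Y → ℝ) x, (√|w x| * |f x|) ^ 2 = |w x| * f x ^ 2 := fun f x => by
    rw [mul_pow, Real.sq_sqrt (abs_nonneg _), sq_abs]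
  have l : ∀ {f : Y → ℝ}, Measurable f → Integrable (fun x => |w x| * f x ^ 2) ν →
      MemLp (fun x => √|w x| * |f x|) 2 ν := fun hf i =>
    (memLp_two_iff_integrable_sq ((DNB_abs hw).sqrt.fun_mul (DNB_abs hf)).aestronglyMeasurable).2
      (by simpa only [e] using i)
  have h := PPar_cs (l hu i1) (l hv i2)
  simp only [e] at h
  refine (RLoc_sq (abs_integral_le_integral_abs.trans_eq ?_)).trans h
  refine integral_congr_ae (Eventually.of_forall fun x => ?_)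
  simp only [abs_mul]
  rw [mul_mul_mul_comm, Real.mul_self_sqrt (abs_nonneg _), mul_assoc]

theorem DNB_one (h : Nice0 Φ B) (hs : 0 < s) (j : Fin (q + 1)) {g : R3 → ℝ} (hg : Measurable g)
    (hg2 : MemLp g 2 volume) :
    Integrable (fun x : Fin (q + 1) → R3 => |Φ (s • x)| * g (x j) ^ 2) ∧
      ∫ x : Fin (q + 1) → R3, |Φ (s • x)| * g (x j) ^ 2 ≤ B / s ^ (3 * q) * ∫ y, g y ^ 2 := by
  have n : Nice0 (fun x => |Φ x|) B := RLoc_nice_le h (DNB_abs h.meas)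
    (fun x a => congrArg abs (h.ti x a)) fun x => (abs_abs _).le
  refine ⟨integrable_sc_single n hs j (hg.pow_const 2) hg2.integrable_sq, ?_⟩
  rw [integral_rel n hs j (hg.pow_const 2) hg2.integrable_sq]
  have h1 := (le_abs_self _).trans (relInt_le n)
  have h2 : 0 ≤ ∫ y, g y ^ 2 := integral_nonneg fun _ => sq_nonneg _
  gcongr

theorem DNB_le (h : Nice0 Φ B) (hs : 0 < s) (j : Fin (q + 1)) {g : R3 → ℝ} (hg : Measurable g)
    (hg2 : MemLp g 2 volume) {F : (Fin (q + 1) → R3) → ℝ} (hm : Measurable F) {K : ℝ} (hK : 0 ≤ K)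
    (h0 : ∀ x, 0 ≤ F x) (hF : ∀ x, F x ≤ K * (|Φ (s • x)| * g (x j) ^ 2)) :
    Integrable F ∧ ∫ x, F x ≤ K * (B / s ^ (3 * q) * ∫ y, g y ^ 2) := by
  obtain ⟨h1, h2⟩ := DNB_one h hs j hg hg2
  have h3 : Integrable F := (h1.const_mul K).mono' hm.aestronglyMeasurable
    (Eventually.of_forall fun x => by rw [Real.norm_of_nonneg (h0 x)]; exact hF x)
  refine ⟨h3, (integral_mono h3 (h1.const_mul K) hF).trans ?_⟩
  rw [integral_const_mul]
  exact mul_le_mul_of_nonneg_left h2 hK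

theorem DNB_h (fr : Frame I) (c : I → ℝ) : Measurable (fun y => ∑ a, c a * fr.e a y) ∧
    MemLp (fun y => ∑ a, c a * fr.e a y) 2 volume :=
  ⟨Finset.measurable_sum _ fun a _ => (fr.meas a).const_mul _,
    memLp_finsetSum _ fun a _ => (fr.memLp a).const_mul _⟩

theorem DNB_leg (fr : Frame I) {F R : (Fin (q + 1) → R3) → ℝ} (hF : MemLp F 2 volume)
    (α : I → Fin (q + 1) → I) (hα : ∀ a x, F x * prodE fr.e (α a) x = R x * fr.e a (x 0))
    (c : I → ℝ) : ∑ a, coef fr.e F (α a) * c a = ∫ x, R x * ∑ a, c a * fr.e a (x 0) := by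
  simp only [coef, ← integral_mul_const]
  rw [← integral_finsetSum (f := fun a x => F x * prodE fr.e (α a) x * c a) _ fun a _ =>
    (hF.integrable_mul (NBes_memLp_prodE fr (α a))).mul_const (c a)]
  refine integral_congr_ae (Eventually.of_forall fun x => ?_)
  simp only [hα, Finset.mul_sum]
  exact Finset.sum_congr rfl fun a _ => by ring

theorem DNB_two (h : Nice0 Φ B) (hs : 0 < s) (fr : Frame I) {F T : (Fin (q + 1) → R3) → ℝ}
    (hF : MemLp F 2 volume) (α : I → Fin (q + 1) → I) {K n : ℝ} (hT : ∀ x, |T x| ≤ K)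
    {g : R3 → ℝ} (hg : Measurable g) (hg2 : MemLp g 2 volume) (hn : ∫ y, g y ^ 2 ≤ n)
    (hα : ∀ a x, F x * prodE fr.e (α a) x = Φ (s • x) * T x * g (x 0) * fr.e a (x 0)) :
    ∑ a, coef fr.e F (α a) ^ 2 ≤ (B * K / s ^ (3 * q)) ^ 2 * n := by
  have h0 : 0 ≤ ∫ y, g y ^ 2 := integral_nonneg fun _ => sq_nonneg _
  have h1 := h0.trans hn
  refine sum_sq_le_of_dual (by positivity) fun c => ?_
  rw [DNB_leg fr hF α hα]
  refine (two_pt_le h hs hT hg (DNB_h fr c).1 hg2 (DNB_h fr c).2 0 0).trans ?_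
  exact mul_le_mul (mul_le_mul_of_nonneg_left hn (sq_nonneg _)) (fr.bes0 c)
    (integral_nonneg fun _ => sq_nonneg _) (by positivity)

theorem DNB_mul {a b A A' : ℝ} (h : |a| ≤ A) (h' : |b| ≤ A') : |a * b| ≤ A * A' := by
  rw [abs_mul]
  exact mul_le_mul h h' (abs_nonneg _) ((abs_nonneg _).trans h)

theorem DNB_om (x : Fin 3 → R3) (y : R3) : om 3 (Fin.snoc x y) = x := by
  funext i
  show (Fin.snoc x y : Fin 4 → R3) ((Fin.last 3).succAbove i) = x i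
  rw [Fin.succAbove_last, Fin.snoc_castSucc]

theorem DNB_snoc {p : ℕ} (x : Fin p → R3) :
    Measurable fun y : R3 => (Fin.snoc x y : Fin (p + 1) → R3) := by
  refine measurable_pi_iff.2 fun j => ?_
  refine Fin.lastCases ?_ (fun i => ?_) j
  · simpa only [Fin.snoc_last] using measurable_id'
  · simpa only [Fin.snoc_castSucc] using measurable_const

end aux

namespace TS

variable (X : TS) {Λ mm s M : ℝ}

theorem norm_y4 (hM : X.T.μ ≤ M) (δ : X.I M) : ‖(X.dat Λ mm s M hM).y4 δ‖ ^ 2 =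
    ∫ x, red (fun z => √(X.UN s (om 3 z)) * X.Y4 s z) (X.e M δ) x ^ 2 := by
  refine (X.norm_sqU s (memLp_red (X.meas_Y4 s) (X.memLp_Y4 s) ((X.on M).meas δ)
    (X.memLp_e δ))).trans (integral_congr_ae (Eventually.of_forall fun x => ?_))
  simp only [red, DNB_om, mul_assoc, integral_const_mul, mul_pow]
  rw [Real.sq_sqrt ((X.wt s).nonneg x)]

variable {M₀ M₁ : ℝ}

theorem DNB_ph (hc : X.Cond M₀) (p : ℕ) (x : Fin p → R3) : |X.ph p x| ≤ M₀ ^ p := by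
  rw [ph, tens, Finset.abs_prod]
  refine (Finset.prod_le_prod (fun _ _ => abs_nonneg _) fun j _ => hc.l1.bdd (x j)).trans_eq ?_
  simp

theorem DNB_abs_U (s : ℝ) (z : Fin 4 → R3) : X.UN s (om 3 z) * |X.yN s z| =
    s ^ 2 * |(fun x => X.U (om 3 x) * y4o X.S.ω X.S.g 3 x) (s • z)| := by
  simp only [abs_mul]
  rw [abs_of_nonneg (X.pot3.nonneg _), ← mul_assoc]
  rfl

theorem DNB_y3 (hs : 0 < s) (hM : X.T.μ ≤ M) {β : Fin 3 → X.I M}
    (hb : ∀ j y, |X.e M (β j) y| ≤ M₁) (hl : ∫ y, X.e M (β 0) y ^ 2 ≤ M₁ ^ 2) :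
    ‖(X.dat Λ mm s M hM).y3 β‖ ^ 2 ≤ X.K ^ 3 * M₁ ^ 6 / s ^ 4 := by
  have hK := X.K_ge
  have hp := measurable_prodE (X.on M).meas β
  refine (X.norm_sqU s (memLp_bdd_mul (X.meas_fN s) (fun x => X.hK.f_bdd _)
    (NBes_memLp_prodE (X.fr M).toFrame β))).trans_le ?_
  refine (DNB_le X.hK.nU.toNice0 hs 0 ((X.on M).meas (β 0)) (X.memLp_e (β 0))
    ((X.wt s).meas.fun_mul (((X.meas_fN s).fun_mul hp).pow_const 2))
    (K := s ^ 2 * (X.K * (M₁ * M₁)) ^ 2) (by positivity)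
    (fun x => mul_nonneg ((X.wt s).nonneg x) (sq_nonneg _)) fun x => ?_).2.trans ?_
  · have h1 := RLoc_sq (DNB_mul (X.hK.f_bdd (s • x)) (DNB_mul (hb 1 (x 1)) (hb 2 (x 2))))
    have h2 := X.pot3.nonneg (s • x)
    rw [abs_of_nonneg h2]
    refine Eq.trans_le ?_ ((mul_le_mul_of_nonneg_left h1
      (show 0 ≤ s ^ 2 * X.U (s • x) * X.e M (β 0) (x 0) ^ 2 by positivity)).trans_eq (by ring))
    simp only [UN, sc, fN, prodE, Fin.prod_univ_three]
    ring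
  · refine (mul_le_mul_of_nonneg_left (mul_le_mul_of_nonneg_left hl (by positivity))
      (by positivity)).trans_eq ?_
    field_simp
    ring

theorem DNB_l1c (hs : 0 < s) (hM : X.T.μ ≤ M) {γ : Fin 2 → X.I M} {β : Fin 3 → X.I M}
    (hγ : ∀ j y, |X.e M (γ j) y| ≤ M₁) (hb : ∀ j y, |X.e M (β j) y| ≤ M₁)
    (hl : ∫ y, X.e M (β 0) y ^ 2 ≤ M₁ ^ 2) :
    ∑ a, (X.dat Λ mm s M hM).F3 (Fin.append ![a] γ) β ^ 2 ≤ X.K ^ 2 * M₁ ^ 10 / s ^ 8 := by
  simp only [F3_eq]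
  refine (DNB_two X.hK.n3.toNice0 hs (X.fr M).toFrame (X.memLp_FA s β)
    (fun a => Fin.append (m := 1) (n := 2) ![a] γ) (fun x => DNB_mul (abs_sq s).le (DNB_mul (DNB_mul (hb 1 (x 1))
      (hb 2 (x 2))) (DNB_mul (hγ 0 (x 1)) (hγ 1 (x 2))))) ((X.on M).meas (β 0)) (X.memLp_e (β 0))
    hl fun a x => ?_).trans_eq ?_
  · simp only [F3N, sc, prodE, Fin.prod_univ_three]
    rw [Fin.prod_univ_three]
    show _ * (X.e M a (x 0) * X.e M (γ 0) (x 1) * X.e M (γ 1) (x 2)) = _ * X.e M a (x 0)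
    ring
  · field_simp
    ring

theorem DNB_l1d (hc : X.Cond M₀) (hs : 0 < s) (hM : X.T.μ ≤ M) {γ : Fin 3 → X.I M}
    (hγ : ∀ j y, |X.e M (γ j) y| ≤ M₁) :
    ∑ a, (X.dat Λ mm s M hM).F4 (Fin.append ![a] γ) ^ 2 ≤
      X.K ^ 2 * M₀ ^ 6 * M₁ ^ 6 / s ^ 14 := by
  simp only [F4_eq]
  have hb := hc.l1.bdd
  refine (DNB_two X.hK.n4.toNice0 hs (X.fr M).toFrame (X.memLp_FC s)
    (fun a => Fin.append (m := 1) (n := 3) ![a] γ)
    (fun x => DNB_mul (abs_sq s).le (DNB_mul (DNB_mul (hb (x 1))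
      (DNB_mul (hb (x 2)) (hb (x 3)))) (DNB_mul (hγ 0 (x 1)) (DNB_mul (hγ 1 (x 2)) (hγ 2 (x 3))))))
    X.T.meas X.memLp_φ X.T.nrm.le fun a x => ?_).trans_eq ?_
  · simp only [F4N, sc, ph, tens, prodE, Fin.prod_univ_four]
    rw [Fin.prod_univ_four]
    show _ * (X.e M a (x 0) * X.e M (γ 0) (x 1) * X.e M (γ 1) (x 2) * X.e M (γ 2) (x 3)) =
      _ * X.e M a (x 0)
    ring
  · field_simp
    ring

theorem DNB_hs (hc : X.Cond M₀) (hs : 0 < s) (hM : X.T.μ ≤ M) :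
    ∑ δ, ‖(X.dat Λ mm s M hM).y4 δ‖ ^ 2 ≤ X.K ^ 2 * M₀ ^ 6 / s ^ 7 := by
  have hK := X.K_ge
  have hb := hc.l1.bdd
  have hm : Measurable fun z : Fin 4 → R3 => √(X.UN s (om 3 z)) * X.Y4 s z :=
    ((X.wt s).meas.comp (HMicro_om_meas 3)).sqrt.mul (X.meas_Y4 s)
  obtain ⟨h1, h2⟩ := DNB_le X.hK.nUy.toNice0 hs 0 X.T.meas X.memLp_φ (hm.pow_const 2)
    (K := s ^ 2 * X.K * (M₀ * (M₀ * M₀)) ^ 2) (by positivity) (fun _ => sq_nonneg _) fun z => by
      have h1 := mul_le_mul (X.hK.y_bdd (s • z))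
        (RLoc_sq (DNB_mul (hb (z 1)) (DNB_mul (hb (z 2)) (hb (z 3))))) (sq_nonneg _) (by positivity)
      have h2 := X.DNB_abs_U s z
      refine Eq.trans_le ?_ ((mul_le_mul_of_nonneg_left h1 (mul_nonneg (mul_nonneg (sq_nonneg s)
        (abs_nonneg _)) (sq_nonneg (X.T.φ (z 0))))).trans_eq (by ring))
      rw [← h2, mul_pow, Real.sq_sqrt ((X.wt s).nonneg _), Y4, mul_pow, ← sq_abs (X.yN s z)]
      simp only [ph, tens, yN, Fin.prod_univ_four]
      ring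
  simp only [norm_y4]
  refine (bessel_red (X.fr M).toFrame hm
    ((memLp_two_iff_integrable_sq hm.aestronglyMeasurable).2 h1)).trans (h2.trans_eq ?_)
  rw [X.T.nrm]
  field_simp
  ring

theorem DNB_slice (hs : 0 < s) (x : Fin 3 → R3) :
    Integrable (fun y => |X.yN s (Fin.snoc x y)|) ∧
      ∫ y, |X.yN s (Fin.snoc x y)| ≤ X.K / s ^ 3 := by
  have hK := X.K_ge
  refine DNB_int (DNB_abs ((X.meas_yN s).comp (DNB_snoc x))) (fun _ => abs_nonneg _)
    (by positivity) ?_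
  have h1 := marg_scale {3} (RLoc_meas_eabs (X.S.meas_y 3)) hs (Fin.snoc x 0)
  rw [marg_single] at h1
  have h2 : ∀ y : R3, Function.update (Fin.snoc x 0 : Fin 4 → R3) 3 y = Fin.snoc x y := fun y =>
    Fin.update_snoc_last (α := fun _ => R3) 0 x y
  simp only [h2] at h1
  refine h1.trans_le ((mul_le_mul_right (X.hK.y_mg _) _).trans_eq ?_)
  rw [← ENNReal.ofReal_mul (by positivity), Finset.card_singleton]
  congr 1
  ring

theorem DNB_op (hc : X.Cond M₀) (hs : 0 < s) (hM : X.T.μ ≤ M) (c : X.I M → ℝ) :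
    ‖∑ δ, c δ • (X.dat Λ mm s M hM).y4 δ‖ ^ 2 ≤ X.K ^ 2 * M₀ ^ 8 / s ^ 10 * ∑ δ, c δ ^ 2 := by
  have hK := X.K_ge
  have hM₀ := hc.one_le
  obtain ⟨m, l⟩ := DNB_h (X.fr M).toFrame c
  have bes := (X.fr M).toFrame.bes0 c
  set h : R3 → ℝ := fun y => ∑ a, c a * (X.fr M).toFrame.e a y with hh
  have hy : ∀ z, |X.yN s z| ≤ X.K := fun z => X.hK.y_bdd _
  have hr : ∀ δ, MemLp (red (X.Y4 s) (X.e M δ)) 2 volume := fun δ =>
    memLp_red (X.meas_Y4 s) (X.memLp_Y4 s) ((X.on M).meas δ) (X.memLp_e δ)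
  have e1 : (fun x => ∑ δ, c δ * red (X.Y4 s) (X.e M δ) x) = red (X.Y4 s) h := by
    funext x
    have hl : MemLp (fun y => X.Y4 s (Fin.snoc x y)) 2 volume := by
      refine (memLp_bdd_mul (a := fun y => X.yN s (Fin.snoc x y) * X.ph 3 x)
        (((X.meas_yN s).comp (DNB_snoc x)).mul_const _)
        (fun y => DNB_mul (hy _) (X.DNB_ph hc 3 x)) X.memLp_φ).ae_eq
          (Eventually.of_forall fun y => ?_)
      simp only [Y4, ph, tens]
      rw [Fin.prod_univ_castSucc (n := 3)]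
      simp only [Fin.snoc_castSucc, Fin.snoc_last, mul_assoc]
    simp only [red, ← integral_const_mul]
    rw [← integral_finsetSum (f := fun δ y => c δ * (X.Y4 s (Fin.snoc x y) * X.e M δ y)) _
      fun δ _ => (hl.integrable_mul (X.memLp_e δ)).const_mul (c δ)]
    refine integral_congr_ae (Eventually.of_forall fun y => ?_)
    simp only [hh, Finset.mul_sum]
    exact Finset.sum_congr rfl fun a _ => mul_left_comm _ _ _
  have e2 : ∑ δ, c δ • (X.dat Λ mm s M hM).y4 δ = sqU univ (X.UN s) (red (X.Y4 s) h) := by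
    rw [← e1]
    exact sqU_sum (X.wt s) _ (fun δ _ => (muP_univ (Fin 3)).symm ▸ hr δ) c
  rw [e2, X.norm_sqU s (memLp_red (X.meas_Y4 s) (X.memLp_Y4 s) m l)]
  have hv : Measurable fun z : Fin 4 → R3 => X.ph 4 z * h (z 3) :=
    (X.meas_ph 4).mul (m.comp (measurable_pi_apply 3))
  have hv2 : ∀ z : Fin 4 → R3, (X.ph 4 z * h (z 3)) ^ 2 ≤ (M₀ ^ 4) ^ 2 * h (z 3) ^ 2 := fun z => by
    rw [mul_pow]
    exact mul_le_mul_of_nonneg_right (RLoc_sq (X.DNB_ph hc 4 z)) (sq_nonneg _)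
  have hm : Measurable fun z : Fin 4 → R3 =>
      √(X.UN s (om 3 z) * |X.yN s z|) * (X.ph 4 z * h (z 3)) :=
    (((X.wt s).meas.comp (HMicro_om_meas 3)).mul (DNB_abs (X.meas_yN s))).sqrt.mul hv
  have e3 : ∀ z : Fin 4 → R3, (√(X.UN s (om 3 z) * |X.yN s z|) * (X.ph 4 z * h (z 3))) ^ 2 =
      X.UN s (om 3 z) * |X.yN s z| * (X.ph 4 z * h (z 3)) ^ 2 := fun z => by
    rw [mul_pow, Real.sq_sqrt (mul_nonneg ((X.wt s).nonneg _) (abs_nonneg _))]
  obtain ⟨h1, h2⟩ := DNB_le X.hK.nUy.toNice0 hs 3 m l (hm.pow_const 2)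
    (K := s ^ 2 * (M₀ ^ 4) ^ 2) (by positivity) (fun _ => sq_nonneg _) fun z => by
      rw [e3, X.DNB_abs_U]
      exact (mul_le_mul_of_nonneg_left (hv2 z) (by positivity)).trans_eq (by ring)
  have h3 := (PPar_slice hm ((memLp_two_iff_integrable_sq hm.aestronglyMeasurable).2 h1)).2
  rw [integral_snoc h1] at h2
  refine (integral_mono_of_nonneg
    (Eventually.of_forall fun x => mul_nonneg ((X.wt s).nonneg x) (sq_nonneg _))
    (h3.const_mul (X.K / s ^ 3)) (Eventually.of_forall fun x => ?_)).trans ?_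
  · obtain ⟨h4, h5⟩ := X.DNB_slice hs x
    have h6 := (X.meas_yN s).comp (DNB_snoc x)
    have h7 := hv.comp (DNB_snoc x)
    have h8 := DNB_cs (ν := volume) h6 (measurable_const (a := (1 : ℝ))) h7 (by simpa using h4)
      ((l.integrable_sq.const_mul (X.K * (M₀ ^ 4) ^ 2)).mono'
        ((DNB_abs h6).mul (h7.pow_const 2)).aestronglyMeasurable (Eventually.of_forall fun y => by
          rw [Real.norm_of_nonneg (by positivity), mul_assoc]
          exact mul_le_mul (hy _) (hv2 _) (sq_nonneg _) (by positivity)))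
    simp only [Function.comp_apply, one_pow, mul_one] at h8
    have h9 := mul_le_mul_of_nonneg_left (h8.trans (mul_le_mul_of_nonneg_right h5
      (integral_nonneg fun y => by positivity))) ((X.wt s).nonneg x)
    simp only [e3]
    simp only [DNB_om, mul_assoc, integral_const_mul]
    refine Eq.trans_le ?_ (h9.trans_eq (mul_left_comm _ _ _))
    simp only [red, Y4, mul_assoc]
    rfl
  · rw [integral_const_mul]
    refine (mul_le_mul_of_nonneg_left (h2.trans (mul_le_mul_of_nonneg_left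
      (mul_le_mul_of_nonneg_left bes (by positivity)) (by positivity))) (by positivity)).trans_eq ?_
    field_simp

theorem DNB_l1a (hc : X.Cond M₀) (hs : 0 < s) (hM : X.T.μ ≤ M) :
    ∑ a, ((X.dat Λ mm s M hM).F3 ![a, (X.dat Λ mm s M hM).o, (X.dat Λ mm s M hM).o]
      ((X.dat Λ mm s M hM).oo 3) - 2 * (X.dat Λ mm s M hM).w a (X.dat Λ mm s M hM).o / s ^ 4) ^ 2 ≤
        16 * X.K ^ 4 * M₀ ^ 6 / s ^ 10 := by
  have hK := X.K_ge
  have hM₀ := hc.one_le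
  refine sum_sq_le_of_dual (by positivity) fun c => ?_
  obtain ⟨m, l⟩ := DNB_h (X.fr M).toFrame c
  have bes := (X.fr M).toFrame.bes0 c
  have n3 := X.hK.n3.toNice0
  have mφ := X.T.meas
  have e1 := DNB_leg (X.fr M).toFrame (X.memLp_FA s ((X.dat Λ mm s M hM).oo 3))
    (fun a => ![a, (X.dat Λ mm s M hM).o, (X.dat Λ mm s M hM).o])
    (R := fun x => s ^ 2 * F3o X.U X.S.ω (s • x) * X.T.φ (x 0) * (X.T.φ (x 1) ^ 2 * X.T.φ (x 2) ^ 2))
    (fun a x => by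
      rw [X.prodE_oo]
      simp only [F3N, sc, ph, tens, prodE, Fin.prod_univ_three]
      rw [Fin.prod_univ_three]
      show _ * (X.e M a (x 0) * X.e M (X.dat Λ mm s M hM).o (x 1) *
        X.e M (X.dat Λ mm s M hM).o (x 2)) = _ * X.e M a (x 0)
      rw [X.e_o]
      ring) c
  have e2 : ∑ a, (X.dat Λ mm s M hM).w a (X.dat Λ mm s M hM).o * c a =
      X.b / 2 * ∫ y, X.T.φ y * (∑ a, c a * (X.fr M).toFrame.e a y) * X.T.φ y ^ 4 := by
    simp only [w_eq, e_o, ← integral_mul_const, ← integral_const_mul]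
    obtain ⟨A, hA⟩ := X.a_bdd
    rw [← integral_finsetSum _ fun a _ =>
      (PVs_int_mul X.a_meas hA (X.memLp_e a) X.memLp_φ).mul_const (c a)]
    refine integral_congr_ae (Eventually.of_forall fun y => ?_)
    simp only [Finset.mul_sum, Finset.sum_mul]
    refine Finset.sum_congr rfl fun a _ => ?_
    show _ = _ * (_ * (_ * X.e M a y) * _)
    ring
  set h : R3 → ℝ := fun y => ∑ a, c a * (X.fr M).toFrame.e a y with hh
  have mu : Measurable fun y => X.T.φ y * h y := mφ.mul m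
  have iu : Integrable fun y => X.T.φ y * h y := X.memLp_φ.integrable_mul l
  have lu : MemLp (fun y => X.T.φ y * h y) 2 volume := memLp_bdd_mul mφ hc.l1.bdd l
  have i0 := integrable_sc_single n3 hs 0 mu iu
  have mj : ∀ (j : Fin 3) (n : ℕ), Measurable fun x : Fin 3 → R3 => X.T.φ (x j) ^ n := fun j n =>
    (mφ.comp (measurable_pi_apply j)).pow_const n
  have i1 := i0.mul_bdd ((mj 1 2).fun_mul (mj 2 2)).aestronglyMeasurable
    (Eventually.of_forall fun x => DNB_mul (hc.l2.bdd (x 1)) (hc.l2.bdd (x 2)))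
  have i2 := i0.mul_bdd (mj 0 4).aestronglyMeasurable (Eventually.of_forall fun x => hc.l4.bdd (x 0))
  have e3 := integral_rel n3 hs 0 (mu.fun_mul (mφ.pow_const 4))
    (iu.mul_bdd (mφ.pow_const 4).aestronglyMeasurable (Eventually.of_forall hc.l4.bdd))
  have e4 : ∑ a, ((X.dat Λ mm s M hM).F3 ![a, (X.dat Λ mm s M hM).o, (X.dat Λ mm s M hM).o]
      ((X.dat Λ mm s M hM).oo 3) - 2 * (X.dat Λ mm s M hM).w a (X.dat Λ mm s M hM).o / s ^ 4) *
        c a = s ^ 2 * ∫ x : Fin 3 → R3, F3o X.U X.S.ω (s • x) * (X.T.φ (x 0) * h (x 0)) *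
          (X.T.φ (x 1) ^ 2 * X.T.φ (x 2) ^ 2 - X.T.φ (x 0) ^ 4) := by
    have e5 : ∀ a, 2 * (X.dat Λ mm s M hM).w a (X.dat Λ mm s M hM).o / s ^ 4 * c a =
        2 / s ^ 4 * ((X.dat Λ mm s M hM).w a (X.dat Λ mm s M hM).o * c a) := fun a => by ring
    simp only [sub_mul, Finset.sum_sub_distrib, e5, ← Finset.mul_sum, F3_eq, mul_sub]
    rw [e2, integral_sub i1 i2, mul_sub]
    refine congrArg₂ _ (e1.trans ?_) ?_
    · rw [← integral_const_mul]
      exact integral_congr_ae (Eventually.of_forall fun x => by simp only; ring)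
    · simp only [mul_assoc] at e3 ⊢
      rw [e3, ← X.hb]
      simp only [hh]
      field_simp
      ring
  have mv : ∀ j : Fin 3, _ := fun j => DNB_int (ν := volume)
    (f := fun x : Fin 3 → R3 => |F3o X.U X.S.ω (s • x)| * (X.T.φ (x j) ^ 2 - X.T.φ (x 0) ^ 2) ^ 2)
    ((DNB_abs (n3.meas.comp (HMac_meas_smul s))).mul (((mj j 2).sub (mj 0 2)).pow_const 2))
    (a := 4 * M₀ ^ 2 * (X.K * X.K ^ 2 / s ^ 2) / s ^ 6) (fun x => by positivity) (by positivity) (by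
      simp only [ENNReal.ofReal_mul (abs_nonneg _)]
      exact loc_move n3.meas n3.ti hs (by positivity) (mom_of_supp n3 hs fun x hx =>
        X.pot3.supp x (left_ne_zero_of_mul hx)) hc.l2 j 0)
  have mw : Measurable fun x => F3o X.U X.S.ω (s • x) := n3.meas.comp (HMac_meas_smul s)
  have m3 := ((mj 1 2).fun_mul (mj 2 2)).fun_sub (mj 0 4)
  have pv : ∀ x : Fin 3 → R3, |F3o X.U X.S.ω (s • x)| *
      (X.T.φ (x 1) ^ 2 * X.T.φ (x 2) ^ 2 - X.T.φ (x 0) ^ 4) ^ 2 ≤ 2 * M₀ ^ 2 *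
        (|F3o X.U X.S.ω (s • x)| * (X.T.φ (x 1) ^ 2 - X.T.φ (x 0) ^ 2) ^ 2 +
          |F3o X.U X.S.ω (s • x)| * (X.T.φ (x 2) ^ 2 - X.T.φ (x 0) ^ 2) ^ 2) := fun x => by
    rw [← mul_add, mul_left_comm]
    refine mul_le_mul_of_nonneg_left ?_ (abs_nonneg _)
    have a1 := mul_le_mul_of_nonneg_right (RLoc_sq (hc.l2.bdd (x 1)))
      (sq_nonneg (X.T.φ (x 2) ^ 2 - X.T.φ (x 0) ^ 2))
    have a2 := mul_le_mul_of_nonneg_right (RLoc_sq (hc.l2.bdd (x 0)))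
      (sq_nonneg (X.T.φ (x 1) ^ 2 - X.T.φ (x 0) ^ 2))
    nlinarith [sq_nonneg (X.T.φ (x 1) ^ 2 * (X.T.φ (x 2) ^ 2 - X.T.φ (x 0) ^ 2) -
      X.T.φ (x 0) ^ 2 * (X.T.φ (x 1) ^ 2 - X.T.φ (x 0) ^ 2))]
  have i3 := ((mv 1).1.add (mv 2).1).const_mul (2 * M₀ ^ 2)
  have i4 := i3.mono' ((DNB_abs mw).fun_mul (m3.pow_const 2)).aestronglyMeasurable
    (Eventually.of_forall fun x => by
      rw [Real.norm_of_nonneg (mul_nonneg (abs_nonneg _) (sq_nonneg _))]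
      exact pv x)
  have b2 := integral_mono i4 i3 pv
  rw [integral_const_mul, integral_add' (mv 1).1 (mv 2).1] at b2
  obtain ⟨i5, b1⟩ := DNB_one n3 hs 0 mu lu
  have b3 : ∫ y, (X.T.φ y * h y) ^ 2 ≤ M₀ ^ 2 * ∑ a, c a ^ 2 := by
    refine (integral_mono lu.integrable_sq (l.integrable_sq.const_mul (M₀ ^ 2)) fun y => ?_).trans ?_
    · simp only [mul_pow]
      exact mul_le_mul_of_nonneg_right (RLoc_sq (hc.l1.bdd y)) (sq_nonneg _)
    · rw [integral_const_mul]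
      exact mul_le_mul_of_nonneg_left bes (sq_nonneg _)
  have b4 := (DNB_cs mw (mu.fun_comp (measurable_pi_apply 0)) m3 i5 i4).trans (mul_le_mul
    (b1.trans (mul_le_mul_of_nonneg_left b3 (by positivity)))
    (b2.trans (mul_le_mul_of_nonneg_left (add_le_add (mv 1).2 (mv 2).2) (by positivity)))
    (integral_nonneg fun x => mul_nonneg (abs_nonneg _) (sq_nonneg _)) (by positivity))
  rw [e4, mul_pow]
  refine (mul_le_mul_of_nonneg_left b4 (by positivity)).trans_eq ?_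
  field_simp
  ring

theorem normsB (h : X.Par Λ mm) : X.Ev Λ mm fun C s _ D => D.NormsB s C := by
  obtain ⟨M₀, hc⟩ := X.exists_cond
  obtain ⟨M₁, h1, hb, -⟩ := X.exists_low Λ
  have hK := X.K_ge
  have h0 := hc.one_le
  have p1 : 0 ≤ 16 * X.K ^ 4 * M₀ ^ 6 := by positivity
  have p2 : 0 ≤ X.K ^ 2 * M₁ ^ 10 := by positivity
  have p3 : 0 ≤ X.K ^ 2 * M₀ ^ 6 * M₁ ^ 6 := by positivity
  have p4 : 0 ≤ X.K ^ 2 * M₀ ^ 8 := by positivity
  have p5 : 0 ≤ X.K ^ 2 * M₀ ^ 6 := by positivity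
  have p6 : 0 ≤ X.K ^ 3 * M₁ ^ 6 := by positivity
  refine Ev.of_all (16 * X.K ^ 4 * M₀ ^ 6 + X.K ^ 2 * M₁ ^ 10 + X.K ^ 2 * M₀ ^ 6 * M₁ ^ 6 +
    X.K ^ 2 * M₀ ^ 8 + X.K ^ 2 * M₀ ^ 6 + X.K ^ 3 * M₁ ^ 6) fun C hC s hs M hM => ?_
  have s0 : 0 < s := one_pos.trans_le (h.mm_ge.trans hs)
  have d : ∀ {A : ℝ} (n : ℕ), A ≤ C → A / s ^ n ≤ C / s ^ n := fun n hA =>
    div_le_div_of_nonneg_right hA (by positivity)
  have lo : ∀ {p : ℕ} {β : Fin p → X.I M}, β ∈ (X.dat Λ mm s M hM).lowF p → ∀ j,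
      BF X.Wp (X.e M (β j)) (X.T.B.g (β j).1) M₁ := fun hβ j =>
    hb _ ((X.mem_lowF hM _).1 hβ j)
  exact ⟨(X.DNB_l1a hc s0 hM).trans (d _ (by linarith)),
    fun γ hγ β hβ => (X.DNB_l1c s0 hM (fun j => (lo hγ j).bdd) (fun j => (lo hβ j).bdd)
      (lo hβ 0).l2).trans (d _ (by linarith)),
    fun γ hγ => (X.DNB_l1d hc s0 hM fun j => (lo hγ j).bdd).trans (d _ (by linarith)),
    fun c => (X.DNB_op hc s0 hM c).trans (mul_le_mul_of_nonneg_right (d _ (by linarith))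
      (Finset.sum_nonneg fun _ _ => sq_nonneg _)),
    (X.DNB_hs hc s0 hM).trans (d _ (by linarith)),
    fun β hβ => (X.DNB_y3 s0 hM (fun j => (lo hβ j).bdd) (lo hβ 0).l2).trans (d _ (by linarith))⟩

end TS

end Pool.Agent.Lib.MP_8fe63c_mp
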