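import Pool.Agent.Lib.MP_8fe63c_mp.PVs

/-!
A kernel with `r` legs in the interaction and `t` spectator legs: reduction to sup bounds.

Sketch. Let `Ω = coef e T`, `T η x = coef e (z ↦ T (append x z)) η`. Then `Ω (append a η) = coef e (T η) a` (Fubini),
`∑ η, T η x ^ 2 ≤ ∫ T (append x z)^2 dz ≤ n` (`coef_bessel`), and
`∑ η ∫ (hat (coef (T η)) - T η)^2 = ∑ η ∫ (T η)^2 - ∑ Ω^2 ≤ ∫ T^2 - ∑ Ω^2`. Split
`hat (1_high Ω) = T η + (hat (coef (T η)) - T η) - hat (1_(not high) Ω)` for high `η` (it is zero otherwise).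
For the last part, `r = 1`: `(∑ a ∈ low, Ω e a x)^2 ≤ (∑ a ∈ low, e a x^2) ∑ a, Ω^2`. For `r = 2`:
`1_(not high) = 1_(a low) + 1_(a high, b low)`; each part is bounded by `c` times the square of an `L^2` function of one
point.
-/

set_option linter.unusedSectionVars false

open MeasureTheory Set Filter Topology
open scoped ENNReal InnerProductSpace

namespace Pool.Agent.Lib.MP_8fe63c_mp

variable {I κ ι : Type} [Fintype I] [DecidableEq I] [Fintype κ] [DecidableEq κ]
  [Fintype ι] [DecidableEq ι]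


section DGal

variable {X J : Type} [MeasurableSpace X] {μ : Measure X} [Fintype J] [DecidableEq J]

/-- a finite orthonormal family -/
structure DGal_ON (μ : Measure X) (u : J → X → ℝ) : Prop where
  meas : ∀ a, Measurable (u a)
  l2 : ∀ a, MemLp (u a) 2 μ
  ip : ∀ a b, ∫ x, u a x * u b x ∂μ = if a = b then 1 else 0

theorem DGal_ON.memLp {u : J → X → ℝ} (h : DGal_ON μ u) (k : J → ℝ) :
    MemLp (fun x => ∑ a, k a * u a x) 2 μ :=
  memLp_finsetSum _ fun a _ => (h.l2 a).const_mul (k a)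

theorem DGal_ON.measurable {u : J → X → ℝ} (h : DGal_ON μ u) (k : J → ℝ) :
    Measurable fun x => ∑ a, k a * u a x :=
  Finset.measurable_sum _ fun a _ => (h.meas a).const_mul (k a)

theorem DGal_ON.pair {u : J → X → ℝ} (h : DGal_ON μ u) (k : J → ℝ) {f : X → ℝ}
    (hf : MemLp f 2 μ) : ∫ x, f x * ∑ a, k a * u a x ∂μ = ∑ a, k a * ∫ x, f x * u a x ∂μ := by
  simp only [Finset.mul_sum]
  rw [integral_finsetSum (f := fun a x => f x * (k a * u a x)) _ fun a _ =>
    hf.integrable_mul ((h.l2 a).const_mul (k a))]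
  refine Finset.sum_congr rfl fun a _ => ?_
  rw [← integral_const_mul]
  exact integral_congr_ae (Eventually.of_forall fun x => by simp only; ring)

theorem DGal_ON.sq {u : J → X → ℝ} (h : DGal_ON μ u) (k : J → ℝ) :
    ∫ x, (∑ a, k a * u a x) ^ 2 ∂μ = ∑ a, k a ^ 2 := by
  simp only [pow_two]
  rw [h.pair k (h.memLp k)]
  refine Finset.sum_congr rfl fun a _ => ?_
  have h1 := h.pair k (h.l2 a)
  simp only [h.ip, mul_ite, mul_one, mul_zero, Finset.sum_ite_eq, Finset.mem_univ, if_true] at h1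
  rw [← h1]
  exact congrArg _ (integral_congr_ae (Eventually.of_forall fun x => mul_comm _ _))

theorem DGal_ON.dist {u : J → X → ℝ} (h : DGal_ON μ u) {f : X → ℝ} (hf : MemLp f 2 μ)
    (k : J → ℝ) (hk : ∀ a, k a = ∫ x, f x * u a x ∂μ) :
    ∫ x, (∑ a, k a * u a x - f x) ^ 2 ∂μ = (∫ x, f x ^ 2 ∂μ) - ∑ a, k a ^ 2 := by
  have h1 := h.pair k hf
  simp only [← hk, ← pow_two] at h1
  have h2 := h.sq k
  have i1 := (h.memLp k).integrable_sq
  have i2 := hf.integrable_sq
  have i3 : Integrable (fun x => f x * ∑ a, k a * u a x) μ := hf.integrable_mul (h.memLp k)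
  have h3 : ∫ x, (∑ a, k a * u a x - f x) ^ 2 ∂μ =
      ∫ x, ((∑ a, k a * u a x) ^ 2 + f x ^ 2 - 2 * (f x * ∑ a, k a * u a x)) ∂μ :=
    integral_congr_ae (Eventually.of_forall fun x => by simp only; ring)
  have i4 : Integrable (fun x => (∑ a, k a * u a x) ^ 2 + f x ^ 2) μ := i1.add i2
  rw [h3, integral_sub i4 (i3.const_mul 2), integral_add i1 i2, integral_const_mul, h1, h2]
  ring

theorem DGal_memLp_prod {Y : Type} [MeasurableSpace Y] {ν : Measure Y} [SFinite μ] [SFinite ν]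
    {f : X → ℝ} {g : Y → ℝ} (hf : MemLp f 2 μ) (hg : MemLp g 2 ν) (mf : Measurable f)
    (mg : Measurable g) : MemLp (fun p : X × Y => f p.1 * g p.2) 2 (μ.prod ν) := by
  have h : Measurable fun p : X × Y => f p.1 * g p.2 :=
    (mf.comp measurable_fst).mul (mg.comp measurable_snd)
  refine (memLp_two_iff_integrable_sq h.aestronglyMeasurable).2 ?_
  simpa only [mul_pow] using hf.integrable_sq.mul_prod hg.integrable_sq

theorem DGal_ON.prod {Y J' : Type} [MeasurableSpace Y] {ν : Measure Y} [SFinite μ] [SFinite ν]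
    [Fintype J'] [DecidableEq J'] {u : J → X → ℝ} {v : J' → Y → ℝ} (h : DGal_ON μ u)
    (h' : DGal_ON ν v) :
    DGal_ON (μ.prod ν) fun (a : J × J') (p : X × Y) => u a.1 p.1 * v a.2 p.2 := by
  refine ⟨fun a => ((h.meas _).comp measurable_fst).mul ((h'.meas _).comp measurable_snd),
    fun a => DGal_memLp_prod (h.l2 _) (h'.l2 _) (h.meas _) (h'.meas _), fun a b => ?_⟩
  have h1 := integral_prod_mul (μ := μ) (ν := ν) (fun x => u a.1 x * u b.1 x)
    fun y => v a.2 y * v b.2 y
  rw [h.ip, h'.ip] at h1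
  rw [show (fun p : X × Y => u a.1 p.1 * v a.2 p.2 * (u b.1 p.1 * v b.2 p.2)) =
    fun p : X × Y => u a.1 p.1 * u b.1 p.1 * (v a.2 p.2 * v b.2 p.2) from
      funext fun p => by ring, h1]
  by_cases h2 : a.1 = b.1 <;> by_cases h3 : a.2 = b.2 <;> simp [h2, h3, Prod.ext_iff]

theorem DGal_on {e : I → R3 → ℝ} (he : ON univ e) : DGal_ON volume e := by
  refine ⟨he.meas, fun a => by simpa using he.l2 a, fun a b => ?_⟩
  split_ifs with h
  · simpa [ip, h] using he.nrm b
  · simpa [ip] using he.orth a b h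

theorem DGal_int {Y : Type} [MeasurableSpace Y] {ν : Measure Y} {φ : X → Y}
    (hφ : MeasurePreserving φ μ ν) {f : Y → ℝ} (hf : Measurable f) :
    ∫ x, f (φ x) ∂μ = ∫ y, f y ∂ν := by
  rw [← hφ.map_eq, integral_map hφ.measurable.aemeasurable hf.aestronglyMeasurable]

theorem DGal_core [SFinite μ] {u : J → X → ℝ} (h : DGal_ON μ u) {e : I → R3 → ℝ} (he : ON univ e)
    {S : X × (κ → R3) → ℝ} (hm : Measurable S) (hS : MemLp S 2 (μ.prod volume)) {n : ℝ}
    (h0 : 0 ≤ n) (hn : ∀ x, ∫⁻ z, ENNReal.ofReal (S (x, z) ^ 2) ≤ ENNReal.ofReal n)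
    (Ω : J → (κ → I) → ℝ)
    (hΩ : ∀ a η, Ω a η = ∫ p, S p * (u a p.1 * prodE e η p.2) ∂μ.prod volume) :
    ∃ (P : (κ → I) → X → ℝ) (E : X → ℝ), Measurable E ∧ (∀ x, 0 ≤ E x) ∧ Integrable E μ ∧
      ∫ x, E x ∂μ ≤ (∫ p, S p ^ 2 ∂μ.prod volume) - ∑ a, ∑ η, Ω a η ^ 2 ∧
      ∀ x, ∑ η, P η x ^ 2 ≤ n ∧ ∑ η, (∑ a, Ω a η * u a x - P η x) ^ 2 = E x := by
  have hp : ∀ η : κ → I, MemLp (prodE e η) 2 volume := fun η => by
    simpa only [muP_univ] using memLp_prodE he.l2 η
  have mp : ∀ η : κ → I, Measurable (prodE e η) := measurable_prodE he.meas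
  set P : (κ → I) → X → ℝ := fun η x => ∫ z, S (x, z) * prodE e η z with hP
  have mP : ∀ η, Measurable (P η) := fun η =>
    ((hm.mul ((mp η).comp measurable_snd)).stronglyMeasurable.integral_prod_right').measurable
  have ms : ∀ x, Measurable fun z => S (x, z) := fun x => hm.comp measurable_prodMk_left
  have i1 : ∀ x, Integrable fun z => S (x, z) ^ 2 := fun x =>
    ⟨((ms x).pow_const 2).aestronglyMeasurable,
      (hasFiniteIntegral_iff_ofReal (Eventually.of_forall fun z => sq_nonneg _)).2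
        ((hn x).trans_lt ENNReal.ofReal_lt_top)⟩
  have b1 : ∀ x, ∑ η, P η x ^ 2 ≤ ∫ z, S (x, z) ^ 2 := fun x => by
    have h1 : MemLp (fun z => S (x, z)) 2 (muP univ κ) := by
      rw [muP_univ]
      exact (memLp_two_iff_integrable_sq (ms x).aestronglyMeasurable).2 (i1 x)
    simpa only [coefO_univ, muP_univ, coef] using he.bessel h1
  have b2 : ∀ x, ∫ z, S (x, z) ^ 2 ≤ n := fun x => by
    rw [integral_eq_lintegral_of_nonneg_ae (Eventually.of_forall fun z => sq_nonneg _) (i1 x).1]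
    exact ENNReal.toReal_le_of_le_ofReal h0 (hn x)
  have i2 : Integrable (fun x => ∫ z, S (x, z) ^ 2) μ := hS.integrable_sq.integral_prod_left
  have lP : ∀ η, MemLp (P η) 2 μ := fun η => by
    refine (memLp_two_iff_integrable_sq (mP η).aestronglyMeasurable).2
      (i2.mono' ((mP η).pow_const 2).aestronglyMeasurable (Eventually.of_forall fun x => ?_))
    rw [Real.norm_of_nonneg (sq_nonneg _)]
    exact (Finset.single_le_sum (f := fun η => P η x ^ 2) (fun _ _ => sq_nonneg _)
      (Finset.mem_univ η)).trans (b1 x)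
  have hk : ∀ η a, Ω a η = ∫ x, P η x * u a x ∂μ := fun η a => by
    rw [hΩ, integral_prod (fun p => S p * (u a p.1 * prodE e η p.2))
      (hS.integrable_mul (DGal_memLp_prod (h.l2 a) (hp η) (h.meas a) (mp η)))]
    refine integral_congr_ae (Eventually.of_forall fun x => ?_)
    simp only [hP]
    rw [← integral_mul_const]
    exact integral_congr_ae (Eventually.of_forall fun z => by simp only; ring)
  have iD : ∀ η, Integrable (fun x => (∑ a, Ω a η * u a x - P η x) ^ 2) μ := fun η =>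
    ((h.memLp fun a => Ω a η).sub (lP η)).integrable_sq
  refine ⟨P, fun x => ∑ η, (∑ a, Ω a η * u a x - P η x) ^ 2,
    Finset.measurable_sum _ fun η _ => ((h.measurable fun a => Ω a η).sub (mP η)).pow_const 2,
    fun x => Finset.sum_nonneg fun _ _ => sq_nonneg _, integrable_finsetSum _ fun η _ => iD η,
    ?_, fun x => ⟨(b1 x).trans (b2 x), rfl⟩⟩
  rw [integral_finsetSum _ fun η _ => iD η,
    Finset.sum_congr rfl fun η _ => h.dist (lP η) (fun a => Ω a η) (hk η), Finset.sum_sub_distrib,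
    Finset.sum_comm, ← integral_finsetSum _ fun η _ => (lP η).integrable_sq,
    integral_prod _ hS.integrable_sq]
  exact sub_le_sub_right
    (integral_mono (integrable_finsetSum _ fun η _ => (lP η).integrable_sq) i2 b1) _

end DGal

theorem DGal_cons (p : ℕ) : MeasurePreserving
    (fun q : R3 × (Fin p → R3) => (Fin.cons q.1 q.2 : Fin (p + 1) → R3)) (volume.prod volume)
      volume := by
  have h := (volume_preserving_piFinSuccAbove (fun _ : Fin (p + 1) => R3) 0).symm _
  have h2 : (fun q : R3 × (Fin p → R3) => (Fin.cons q.1 q.2 : Fin (p + 1) → R3)) =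
      (MeasurableEquiv.piFinSuccAbove (fun _ : Fin (p + 1) => R3) 0).symm := by
    funext q
    simp [MeasurableEquiv.piFinSuccAbove_symm_apply, Fin.insertNthEquiv, Fin.insertNth_zero']
  rw [h2]
  exact h

theorem DGal_marg {Φ : (ι → R3) → ℝ≥0∞} (A : Finset ι) (f : κ → ι) (hf : Function.Injective f)
    (hA : A = Finset.univ.image f) (x : ι → R3) {g : (κ → R3) → ℝ≥0∞} (hg : Measurable g)
    (h : ∀ y : ι → R3, (∀ i, i ∉ A → y i = x i) → Φ y = g (y ∘ f)) :
    marg A Φ x = ∫⁻ z, g z := by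
  have h1 : marg A Φ x = marg A (fun y => g (y ∘ f)) x := by
    rw [HMarg_def, HMarg_def]
    refine lintegral_congr fun w => h _ fun i hi => ?_
    simp [Function.updateFinset, hi]
  have h2 := lmarginal_image (μ := fun _ : ι => (volume : Measure R3)) hf Finset.univ
    (f := g) hg x
  rw [lmarginal_univ] at h2
  rw [h1, hA]
  exact h2

theorem DGal_sum {p : ℕ} (f : (Fin (p + 1) → I) → ℝ) :
    ∑ α, f α = ∑ a, ∑ η : Fin p → I, f (Fin.cons a η) := by
  rw [← (Fin.consEquiv fun _ : Fin (p + 1) => I).sum_comp, Fintype.sum_prod_type]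
  rfl

theorem DGal_hi (L : Lv I) {p : ℕ} (a : I) (η : Fin p → I) :
    L.Hi (Fin.cons a η : Fin (p + 1) → I) ↔ a ∉ L.low ∧ L.Hi η := by
  simp [Lv.Hi, Fin.forall_fin_succ]

theorem DGal_prodE (e : I → R3 → ℝ) {p : ℕ} (a : I) (η : Fin p → I) (y : R3) (z : Fin p → R3) :
    prodE e (Fin.cons a η : Fin (p + 1) → I) (Fin.cons y z) = e a y * prodE e η z := by
  simp [prodE, Fin.prod_univ_succ]

theorem DGal_low (s : Finset I) (v k : I → ℝ) {c : ℝ} (hc : ∑ a ∈ s, v a ^ 2 ≤ c) :
    (∑ a ∈ s, k a * v a) ^ 2 ≤ c * ∑ a, k a ^ 2 := by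
  have h0 : 0 ≤ ∑ a ∈ s, v a ^ 2 := Finset.sum_nonneg fun _ _ => sq_nonneg _
  refine (Finset.sum_mul_sq_le_sq_mul_sq s k v).trans ?_
  rw [mul_comm]
  exact mul_le_mul hc (Finset.sum_le_sum_of_subset_of_nonneg (Finset.subset_univ s)
    fun _ _ _ => sq_nonneg _) (Finset.sum_nonneg fun _ _ => sq_nonneg _) (h0.trans hc)

theorem DGal_split (s : Finset I) (f : I → ℝ) :
    ∑ a, (if a ∉ s then f a else 0) = ∑ a, f a - ∑ a ∈ s, f a := by
  rw [← Finset.sum_filter, eq_sub_iff_add_eq, ← Finset.sum_compl_add_sum s f]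
  congr 2
  ext a
  simp

/-- one leg: a pointwise bound up to an error that is small in `L^1` -/
theorem gal_one {e : I → R3 → ℝ} (he : ON univ e) (L : Lv I) {c n : ℝ}
    (hc : ∀ y, ∑ a ∈ L.low, e a y ^ 2 ≤ c) {t : ℕ} {T : (Fin (t + 1) → R3) → ℝ} (hm : Measurable T)
    (hT : MemLp T 2 volume) (h0 : 0 ≤ n)
    (hn : MargLe {0}ᶜ (fun x => ENNReal.ofReal (T x ^ 2)) n) :
    ∃ E : R3 → ℝ, Measurable E ∧ (∀ y, 0 ≤ E y) ∧ Integrable E ∧
      ∫ y, E y ≤ (∫ x, T x ^ 2) - ∑ α, coef e T α ^ 2 ∧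
      ∀ y, ∑ η : Fin t → I, (∑ a, (if L.Hi (Fin.cons a η : Fin (t + 1) → I) then
        coef e T (Fin.cons a η) else 0) * e a y) ^ 2 ≤
        3 * n + 3 * E y + 3 * c * ∑ α, coef e T α ^ 2 := by
  have hφ := DGal_cons t
  have hc0 : 0 ≤ c := (Finset.sum_nonneg fun _ _ => sq_nonneg _).trans (hc 0)
  obtain ⟨P, E, e1, e2, e3, e4, e5⟩ := DGal_core (DGal_on he) he (hm.comp hφ.measurable)
    (hT.comp_measurePreserving hφ) h0 (fun y => by
      have mg : Measurable fun z : Fin t → R3 => ENNReal.ofReal (T (Fin.cons y z) ^ 2) :=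
        (((hm.comp hφ.measurable).comp measurable_prodMk_left).pow_const 2).ennreal_ofReal
      refine le_trans (le_of_eq (DGal_marg {0}ᶜ Fin.succ (Fin.succ_injective t) ?_ (fun _ => y) mg
        fun w hw => ?_).symm) (hn _)
      · ext i
        refine Fin.cases ?_ (fun j => ?_) i <;> simp
      · rw [← hw 0 (by simp)]
        exact congrArg (fun v => ENNReal.ofReal (T v ^ 2)) (Fin.cons_self_tail w).symm)
    (fun a η => coef e T (Fin.cons a η)) (fun a η => by
      rw [coef, ← DGal_int hφ (f := fun x => T x * prodE e (Fin.cons a η) x)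
        (hm.mul (measurable_prodE he.meas _))]
      simp only [DGal_prodE, Function.comp_apply])
  refine ⟨E, e1, e2, e3, ?_, fun y => ?_⟩
  · rw [← DGal_int hφ (hm.pow_const 2), DGal_sum]
    exact e4
  obtain ⟨f1, f2⟩ := e5 y
  rw [DGal_sum, Finset.sum_comm, ← f2, Finset.mul_sum, Finset.mul_sum, add_assoc,
    ← Finset.sum_add_distrib]
  refine le_trans ?_ (add_le_add_left (mul_le_mul_of_nonneg_left f1 (by norm_num)) _)
  rw [Finset.mul_sum, ← Finset.sum_add_distrib]
  refine Finset.sum_le_sum fun η _ => ?_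
  have g1 := DGal_low L.low (fun a => e a y) (fun a => coef e T (Fin.cons a η)) (hc y)
  by_cases hη : L.Hi η
  · simp only [DGal_hi, hη, and_true, ite_mul, zero_mul]
    rw [DGal_split]
    generalize ∑ a, coef e T (Fin.cons a η) * e a y = H at *
    generalize ∑ a ∈ L.low, coef e T (Fin.cons a η) * e a y = U at *
    nlinarith [sq_nonneg (P η y - (H - P η y)), sq_nonneg (P η y + U), sq_nonneg (H - P η y + U)]
  · simp only [DGal_hi, hη, and_false, if_false, zero_mul, Finset.sum_const_zero]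
    have := (sq_nonneg _).trans g1
    nlinarith [sq_nonneg (P η y), sq_nonneg (∑ a, coef e T (Fin.cons a η) * e a y - P η y)]

/-- two legs -/
theorem gal_two {e : I → R3 → ℝ} (he : ON univ e) (L : Lv I) {c n : ℝ}
    (hc : ∀ y, ∑ a ∈ L.low, e a y ^ 2 ≤ c) {t : ℕ} {T : (Fin (t + 2) → R3) → ℝ} (hm : Measurable T)
    (hT : MemLp T 2 volume) (h0 : 0 ≤ n)
    (hn : MargLe {0, 1}ᶜ (fun x => ENNReal.ofReal (T x ^ 2)) n) :
    ∃ (E : R3 × R3 → ℝ) (A B : R3 → ℝ), Measurable E ∧ (∀ y, 0 ≤ E y) ∧ Integrable E ∧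
      ∫ y, E y ≤ (∫ x, T x ^ 2) - ∑ α, coef e T α ^ 2 ∧
      Measurable A ∧ (∀ y, 0 ≤ A y) ∧ Integrable A ∧ ∫ y, A y ≤ c * ∑ α, coef e T α ^ 2 ∧
      Measurable B ∧ (∀ y, 0 ≤ B y) ∧ Integrable B ∧ ∫ y, B y ≤ c * ∑ α, coef e T α ^ 2 ∧
      ∀ y z, ∑ η : Fin t → I, (∑ a, ∑ b,
        (if L.Hi (Fin.cons a (Fin.cons b η) : Fin (t + 2) → I) then
          coef e T (Fin.cons a (Fin.cons b η)) else 0) * e a y * e b z) ^ 2 ≤
        4 * (n + E (y, z) + A y + B z) := by
  have hφ : MeasurePreserving (fun q : (R3 × R3) × (Fin t → R3) =>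
      (Fin.cons q.1.1 (Fin.cons q.1.2 q.2) : Fin (t + 2) → R3)) ((volume.prod volume).prod volume)
      volume :=
    ((DGal_cons (t + 1)).comp ((MeasurePreserving.id volume).prod (DGal_cons t))).comp
      (measurePreserving_prodAssoc volume volume volume)
  have hc0 : 0 ≤ c := (Finset.sum_nonneg fun _ _ => sq_nonneg _).trans (hc 0)
  have ho := DGal_on he
  set Ω : I → I → (Fin t → I) → ℝ := fun a b η => coef e T (Fin.cons a (Fin.cons b η)) with hΩ
  have hs : ∑ α, coef e T α ^ 2 = ∑ a, ∑ b, ∑ η, Ω a b η ^ 2 := by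
    rw [DGal_sum]
    exact Finset.sum_congr rfl fun a _ => DGal_sum _
  obtain ⟨P, E, e1, e2, e3, e4, e5⟩ := DGal_core (ho.prod ho) he (hm.comp hφ.measurable)
    (hT.comp_measurePreserving hφ) h0 (fun y => by
      have mg : Measurable fun z : Fin t → R3 =>
          ENNReal.ofReal (T (Fin.cons y.1 (Fin.cons y.2 z)) ^ 2) :=
        (((hm.comp hφ.measurable).comp measurable_prodMk_left).pow_const 2).ennreal_ofReal
      refine le_trans (le_of_eq (DGal_marg {0, 1}ᶜ (fun j => Fin.succ (Fin.succ j))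
        ((Fin.succ_injective _).comp (Fin.succ_injective t)) ?_
        (Fin.cons y.1 fun _ => y.2) mg fun w hw => ?_).symm) (hn _)
      · ext i
        refine Fin.cases ?_ (fun j => Fin.cases ?_ (fun l => ?_) j) i
        · simp
        · simpa using fun x : Fin t => Fin.succ_succ_ne_one x
        · simp only [Finset.mem_compl, Finset.mem_insert, Finset.mem_singleton, Finset.mem_image,
            Finset.mem_univ, true_and, exists_apply_eq_apply, iff_true, not_or]
          exact ⟨Fin.succ_ne_zero _, Fin.succ_succ_ne_one l⟩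
      · have w0 : w 0 = y.1 := hw 0 (by simp)
        have w1 : w 1 = y.2 := hw 1 (by simp)
        refine congrArg (fun v => ENNReal.ofReal (T v ^ 2)) (funext fun i => ?_)
        refine Fin.cases ?_ (fun j => Fin.cases ?_ (fun l => ?_) j) i
        · exact w0
        · exact w1
        · rfl)
    (fun a η => Ω a.1 a.2 η) (fun a η => by
      rw [hΩ]
      simp only
      rw [coef, ← DGal_int hφ (f := fun x => T x * prodE e (Fin.cons a.1 (Fin.cons a.2 η)) x)
        (hm.mul (measurable_prodE he.meas _))]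
      simp only [DGal_prodE, Function.comp_apply, mul_assoc])
  have iA : ∀ k : (Fin t → I) → I → I → ℝ,
      Measurable (fun y => c * ∑ η, ∑ b, (∑ a, k η b a * e a y) ^ 2) ∧
      (∀ y, 0 ≤ c * ∑ η, ∑ b, (∑ a, k η b a * e a y) ^ 2) ∧
      Integrable (fun y => c * ∑ η, ∑ b, (∑ a, k η b a * e a y) ^ 2) ∧
      ∫ y, c * ∑ η, ∑ b, (∑ a, k η b a * e a y) ^ 2 = c * ∑ η, ∑ b, ∑ a, k η b a ^ 2 := fun k => by
    have j1 : ∀ η b, Integrable fun y => (∑ a, k η b a * e a y) ^ 2 := fun η b =>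
      (ho.memLp _).integrable_sq
    have j2 : ∀ η, Integrable fun y => ∑ b, (∑ a, k η b a * e a y) ^ 2 := fun η =>
      integrable_finsetSum _ fun b _ => j1 η b
    refine ⟨(Finset.measurable_sum _ fun η _ => Finset.measurable_sum _ fun b _ =>
      (ho.measurable _).pow_const 2).const_mul c, fun y => by positivity,
      (integrable_finsetSum _ fun η _ => j2 η).const_mul c, ?_⟩
    rw [integral_const_mul, integral_finsetSum _ fun η _ => j2 η]
    refine congrArg _ (Finset.sum_congr rfl fun η _ => ?_)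
    rw [integral_finsetSum _ fun b _ => j1 η b]
    exact Finset.sum_congr rfl fun b _ => ho.sq _
  obtain ⟨a1, a2, a3, a4⟩ := iA fun η b a => if a ∉ L.low then Ω a b η else 0
  obtain ⟨b1, b2, b3, b4⟩ := iA fun η a b => Ω a b η
  refine ⟨E, _, _, e1, e2, e3, ?_, a1, a2, a3, ?_, b1, b2, b3, ?_, fun y z => ?_⟩
  · rw [← DGal_int hφ (hm.pow_const 2), hs]
    rw [Fintype.sum_prod_type] at e4
    exact e4
  · rw [a4, hs, Finset.sum_comm (f := fun a b => ∑ η, Ω a b η ^ 2), Finset.sum_comm]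
    refine mul_le_mul_of_nonneg_left (Finset.sum_le_sum fun b _ => ?_) hc0
    rw [Finset.sum_comm]
    refine Finset.sum_le_sum fun a _ => Finset.sum_le_sum fun η _ => ?_
    split_ifs
    · simpa using sq_nonneg (Ω a b η)
    · exact le_rfl
  · rw [b4, hs, Finset.sum_comm]
    exact le_of_eq (congrArg _ (Finset.sum_congr rfl fun a _ => Finset.sum_comm))
  obtain ⟨f1, f2⟩ := e5 (y, z)
  refine le_trans ?_ (mul_le_mul_of_nonneg_left
    (add_le_add_left (add_le_add_left (add_le_add_left f1 _) _) _) (by norm_num))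
  rw [← f2, Finset.mul_sum, Finset.mul_sum, ← Finset.sum_add_distrib, ← Finset.sum_add_distrib,
    ← Finset.sum_add_distrib, Finset.mul_sum]
  refine Finset.sum_le_sum fun η _ => ?_
  have g1 := DGal_low L.low (fun a => e a y) (fun a => ∑ b, Ω a b η * e b z) (hc y)
  have g2 := DGal_low L.low (fun b => e b z)
    (fun b => ∑ a, (if a ∉ L.low then Ω a b η else 0) * e a y) (hc z)
  rw [Fintype.sum_prod_type]
  by_cases hη : L.Hi η
  · have k1 : ∑ a, ∑ b, (if L.Hi (Fin.cons a (Fin.cons b η) : Fin (t + 2) → I) then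
          coef e T (Fin.cons a (Fin.cons b η)) else 0) * e a y * e b z =
        ∑ a, ∑ b, Ω a b η * (e a y * e b z) - ∑ a ∈ L.low, (∑ b, Ω a b η * e b z) * e a y -
          ∑ b ∈ L.low, (∑ a, (if a ∉ L.low then Ω a b η else 0) * e a y) * e b z := by
      have k2 : ∑ a, ∑ b, Ω a b η * (e a y * e b z) = ∑ a, (∑ b, Ω a b η * e b z) * e a y := by
        refine Finset.sum_congr rfl fun a _ => ?_
        rw [Finset.sum_mul]
        exact Finset.sum_congr rfl fun b _ => by ring
      have k3 : ∑ a, (if a ∉ L.low then (∑ b, Ω a b η * e b z) * e a y else 0) =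
          ∑ b, (∑ a, (if a ∉ L.low then Ω a b η else 0) * e a y) * e b z := by
        simp only [Finset.sum_mul]
        rw [Finset.sum_comm]
        refine Finset.sum_congr rfl fun a _ => ?_
        split_ifs
        · simp
        · exact Finset.sum_congr rfl fun b _ => by ring
      rw [k2, ← DGal_split, k3, ← DGal_split, Finset.sum_comm]
      refine Finset.sum_congr rfl fun b _ => ?_
      simp only [DGal_hi, hη, and_true, Finset.sum_mul]
      by_cases hb : b ∈ L.low
      · simp [hb]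
      · simp only [hb, not_false_eq_true, and_true, if_true, hΩ]
    rw [k1]
    generalize ∑ a, ∑ b, Ω a b η * (e a y * e b z) = H at *
    generalize ∑ a ∈ L.low, (∑ b, Ω a b η * e b z) * e a y = U at *
    generalize ∑ b ∈ L.low, (∑ a, (if a ∉ L.low then Ω a b η else 0) * e a y) * e b z = V at *
    nlinarith [sq_nonneg (P η (y, z) - (H - P η (y, z))), sq_nonneg (P η (y, z) + U),
      sq_nonneg (H - P η (y, z) + U), sq_nonneg (P η (y, z) + V), sq_nonneg (H - P η (y, z) + V),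
      sq_nonneg (U - V)]
  · simp only [DGal_hi, hη, and_false, if_false, zero_mul, Finset.sum_const_zero]
    have := (sq_nonneg _).trans g1
    have := (sq_nonneg _).trans g2
    nlinarith [sq_nonneg (P η (y, z)),
      sq_nonneg (∑ a, ∑ b, Ω a b η * (e a y * e b z) - P η (y, z))]

end Pool.Agent.Lib.MP_8fe63c_mp
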