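import Pool.Agent.Lib.MP_8fe63c_mp.DBas
import Pool.Agent.Lib.MP_8fe63c_mp.DGal

/-!
The trial kernels with one leg in the interaction.

By `norm_sum_υ3` the left sides are `∫ UN x * (∑ η, Gη (x 0)^2) * H (x 1, x 2)^2`. The first factor is
bounded by `gal_one` up to an error that is small in `L^1` (`EB.parseval`).
-/

set_option linter.unusedSectionVars false

open MeasureTheory Set Filter Topology
open scoped ENNReal InnerProductSpace

namespace Pool.Agent.Lib.MP_8fe63c_mp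

theorem DTA_sum_cons {I : Type} [Fintype I] {n : ℕ} (f : (Fin (n + 1) → I) → ℝ) :
    ∑ β, f β = ∑ a, ∑ β : Fin n → I, f (Fin.cons a β) := by
  rw [← Fintype.sum_prod_type']
  exact (Fintype.sum_equiv (Fin.consEquiv fun _ => I) _ _ fun _ => rfl).symm

theorem DTA_sum_one {I : Type} [Fintype I] (f : (Fin 1 → I) → ℝ) : ∑ β, f β = ∑ a, f ![a] := by
  rw [DTA_sum_cons]
  refine Finset.sum_congr rfl fun a _ => ?_
  rw [Fintype.sum_unique]
  rfl

theorem DTA_sum_two {I : Type} [Fintype I] (f : (Fin 2 → I) → ℝ) :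
    ∑ β, f β = ∑ a, ∑ b, f ![a, b] := by
  rw [DTA_sum_cons]
  exact Finset.sum_congr rfl fun a _ => DTA_sum_one _

theorem DTA_sum_three {I : Type} [Fintype I] (f : (Fin 3 → I) → ℝ) :
    ∑ β, f β = ∑ a, ∑ b, ∑ c, f ![a, b, c] := by
  rw [DTA_sum_cons]
  exact Finset.sum_congr rfl fun a _ => DTA_sum_two _

theorem DTA_sum_int {Y J : Type} [MeasurableSpace Y] [Fintype J] {μ : Measure Y} {f : J → Y → ℝ}
    (hm : ∀ j, Measurable (f j)) (h0 : ∀ j x, 0 ≤ f j x) {B : ℝ} (hB : 0 ≤ B)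
    (h : ∫⁻ x, ENNReal.ofReal (∑ j, f j x) ∂μ ≤ ENNReal.ofReal B) : ∑ j, ∫ x, f j x ∂μ ≤ B := by
  have h1 : ∀ x, 0 ≤ ∑ j, f j x := fun x => Finset.sum_nonneg fun j _ => h0 j x
  have h2 : Measurable fun x => ∑ j, f j x := Finset.measurable_sum _ fun j _ => hm j
  have h3 : Integrable (fun x => ∑ j, f j x) μ :=
    (lintegral_ofReal_ne_top_iff_integrable h2.aestronglyMeasurable
      (Eventually.of_forall h1)).1 (ne_top_of_le_ne_top ENNReal.ofReal_ne_top h)
  have h4 : ∀ j, Integrable (f j) μ := fun j => h3.mono' (hm j).aestronglyMeasurable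
    (Eventually.of_forall fun x => by
      rw [Real.norm_of_nonneg (h0 j x)]
      exact Finset.single_le_sum (f := fun j => f j x) (fun j _ => h0 j x) (Finset.mem_univ j))
  rw [← integral_finsetSum _ fun j _ => h4 j,
    integral_eq_lintegral_of_nonneg_ae (Eventually.of_forall h1) h2.aestronglyMeasurable]
  exact ENNReal.toReal_le_of_le_ofReal hB h

theorem DTA_tail {p : ℕ} {Φ : (Fin (p + 1) → R3) → ℝ≥0∞} (h : Measurable Φ) {c : ℝ}
    (hc : MargLe {0} Φ c) {b : (Fin p → R3) → ℝ≥0∞} (hb : Measurable b) :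
    ∫⁻ x, Φ x * b (Fin.tail x) ≤ ENNReal.ofReal c * ∫⁻ z, b z := by
  have he := (volume_preserving_piFinSuccAbove (fun _ : Fin (p + 1) => R3) 0).symm _
  have ht : Measurable fun x : Fin (p + 1) → R3 => Fin.tail x :=
    measurable_pi_iff.2 fun i => measurable_pi_apply _
  have hF : Measurable fun x => Φ x * b (Fin.tail x) := h.mul (hb.comp ht)
  have h2 : ∀ y z, (MeasurableEquiv.piFinSuccAbove (fun _ : Fin (p + 1) => R3) 0).symm (y, z) =
      Fin.cons y z := fun y z => by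
    simp [MeasurableEquiv.piFinSuccAbove_symm_apply, Fin.insertNthEquiv, Fin.insertNth_zero']
  rw [← he.lintegral_comp hF, Measure.volume_eq_prod, lintegral_prod_symm _
    (by exact (hF.comp (MeasurableEquiv.measurable _)).aemeasurable), ← lintegral_const_mul _ hb]
  refine lintegral_mono fun z => ?_
  simp only [h2, Fin.tail_cons]
  have h3 : Measurable fun y : R3 => Φ (Fin.cons y z) := by
    have := h.comp (measurable_update (Fin.cons 0 z : Fin (p + 1) → R3) (a := 0))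
    simpa only [Function.comp_def, Fin.update_cons_zero] using this
  rw [lintegral_mul_const _ h3]
  have h4 := hc (Fin.cons 0 z)
  rw [marg_single] at h4
  simp only [Fin.update_cons_zero] at h4
  exact mul_le_mul_left h4 _

namespace TS

variable (X : TS) {Λ mm s M : ℝ}

/-- the function of the two spectator points -/
noncomputable def DTA_H (M : ℝ) (h : X.I M → X.I M → ℝ) : (Fin 2 → R3) → ℝ :=
  hat (X.e M) fun β => h (β 0) (β 1)

theorem DTA_H_eq (h : X.I M → X.I M → ℝ) (z : Fin 2 → R3) :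
    X.DTA_H M h z = ∑ b, ∑ d, h b d * X.e M b (z 0) * X.e M d (z 1) := by
  rw [DTA_H, hat, DTA_sum_two]
  simp [prodE, mul_assoc]

theorem DTA_H_meas (h : X.I M → X.I M → ℝ) : Measurable (X.DTA_H M h) := by
  have := (X.on M).meas
  rw [funext (X.DTA_H_eq h)]
  exact Finset.measurable_sum _ fun b _ => Finset.measurable_sum _ fun d _ =>
    (((this b).comp (measurable_pi_apply 0)).const_mul _).mul ((this d).comp (measurable_pi_apply 1))

theorem DTA_H_sq (h : X.I M → X.I M → ℝ) :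
    ∫⁻ z, ENNReal.ofReal (X.DTA_H M h z ^ 2) = ENNReal.ofReal (∑ b, ∑ d, h b d ^ 2) := by
  have h1 := (X.on M).hat_sq fun β : Fin 2 → X.I M => h (β 0) (β 1)
  have h2 := memLp_hat (X.on M).l2 fun β : Fin 2 → X.I M => h (β 0) (β 1)
  rw [muP_univ] at h1 h2
  rw [DTA_sum_two] at h1
  rw [DTA_H, ← ofReal_integral_eq_lintegral_ofReal h2.integrable_sq
    (Eventually.of_forall fun _ => sq_nonneg _), h1]
  rfl

theorem DTA_core (hM : X.T.μ ≤ M) {J : Type} [Fintype J] (G : J → X.I M → ℝ) {P Q δ κ : ℝ}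
    {E : R3 → ℝ} (hP : 0 ≤ P) (hQ : 0 ≤ Q) (hκ : 0 ≤ κ) (hE : Measurable E) (E0 : ∀ y, 0 ≤ E y)
    (Ei : Integrable E) (Eδ : ∫ y, E y ≤ δ)
    (hG : ∀ y, ∑ j, (∑ a, G j a * X.e M a y) ^ 2 ≤ P + Q * E y) (h : X.I M → X.I M → ℝ)
    (hh : ∫⁻ x, eabs (X.UN s) x * ENNReal.ofReal (X.DTA_H M h (Fin.tail x) ^ 2) ≤
      ENNReal.ofReal κ) :
    ∑ j, ‖∑ a, ∑ b, ∑ d, (G j a * h b d) • (X.dat Λ mm s M hM).υ ![a, b, d]‖ ^ 2 ≤
      P * κ + Q * (s ^ 2 * X.K) * δ * ∑ b, ∑ d, h b d ^ 2 := by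
  have hK : 0 ≤ X.K := zero_le_one.trans X.K_ge
  have hδ : 0 ≤ δ := (integral_nonneg E0).trans Eδ
  have ht : Measurable fun x : Fin 3 → R3 => Fin.tail x :=
    measurable_pi_iff.2 fun i => measurable_pi_apply _
  have hH := X.DTA_H_meas h
  have hU := (X.wt s).meas
  have U0 := (X.wt s).nonneg
  have e1 : ∀ j (x : Fin 3 → R3),
      ∑ a, ∑ b, ∑ d, G j a * h b d * X.e M a (x 0) * X.e M b (x 1) * X.e M d (x 2) =
        (∑ a, G j a * X.e M a (x 0)) * X.DTA_H M h (Fin.tail x) := fun j x => by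
    rw [X.DTA_H_eq, Finset.sum_mul]
    refine Finset.sum_congr rfl fun a _ => ?_
    rw [Finset.mul_sum]
    refine Finset.sum_congr rfl fun b _ => ?_
    rw [Finset.mul_sum]
    refine Finset.sum_congr rfl fun d _ => ?_
    change _ = _ * (_ * X.e M b (x 1) * X.e M d (x 2))
    ring
  simp only [X.norm_sum_υ3 hM, e1]
  refine DTA_sum_int (fun j => hU.mul ((Measurable.mul (Finset.measurable_sum _ fun a _ =>
    (((X.on M).meas a).comp (measurable_pi_apply 0)).const_mul _) (hH.comp ht)).pow_const 2))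
    (fun j x => mul_nonneg (U0 x) (sq_nonneg _)) (by positivity) ?_
  have hb : Measurable fun z => ENNReal.ofReal (X.DTA_H M h z ^ 2) :=
    (hH.pow_const 2).ennreal_ofReal
  have hE' : Measurable fun x : Fin 3 → R3 => ENNReal.ofReal (E (x 0)) :=
    (hE.comp (measurable_pi_apply 0)).ennreal_ofReal
  have e2 := DTA_tail hE' (c := δ) (fun x => by
    rw [marg_single]
    simp only [Function.update_self]
    rw [← ofReal_integral_eq_lintegral_ofReal Ei (Eventually.of_forall E0)]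
    exact ENNReal.ofReal_le_ofReal Eδ) hb
  rw [X.DTA_H_sq] at e2
  calc _ ≤ ∫⁻ x, (ENNReal.ofReal P *
        (eabs (X.UN s) x * ENNReal.ofReal (X.DTA_H M h (Fin.tail x) ^ 2)) +
        ENNReal.ofReal (Q * (s ^ 2 * X.K)) *
        (ENNReal.ofReal (E (x 0)) * ENNReal.ofReal (X.DTA_H M h (Fin.tail x) ^ 2))) := by
        refine lintegral_mono fun x => ?_
        have a1 := U0 x
        have a2 := E0 (x 0)
        rw [eabs, abs_of_nonneg a1, ← ENNReal.ofReal_mul a1, ← ENNReal.ofReal_mul hP,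
          ← ENNReal.ofReal_mul a2, ← ENNReal.ofReal_mul (by positivity),
          ← ENNReal.ofReal_add (by positivity) (by positivity)]
        refine ENNReal.ofReal_le_ofReal ?_
        simp only [Pi.mul_apply, Function.comp_apply, mul_pow]
        rw [← Finset.mul_sum, ← Finset.sum_mul]
        have a3 := mul_le_mul_of_nonneg_left (mul_le_mul_of_nonneg_right (hG (x 0))
          (sq_nonneg (X.DTA_H M h (Fin.tail x)))) a1
        have a4 := mul_le_mul_of_nonneg_right (X.UN_le s x)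
          (show 0 ≤ Q * E (x 0) * X.DTA_H M h (Fin.tail x) ^ 2 by positivity)
        linarith
    _ ≤ _ := by
        have m1 : Measurable fun x =>
            eabs (X.UN s) x * ENNReal.ofReal (X.DTA_H M h (Fin.tail x) ^ 2) :=
          (continuous_abs.measurable.comp hU).ennreal_ofReal.mul (hb.comp ht)
        rw [lintegral_add_left (m1.const_mul _), lintegral_const_mul _ m1,
          lintegral_const_mul _ (by exact hE'.mul (hb.comp ht)),
          ENNReal.ofReal_add (by positivity) (by positivity), ENNReal.ofReal_mul hP, mul_assoc,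
          ENNReal.ofReal_mul (p := Q * (s ^ 2 * X.K)) (by positivity), ENNReal.ofReal_mul hδ]
        exact add_le_add (mul_le_mul_right hh _) (mul_le_mul_right e2 _)

theorem DTA_b (hs : 0 < s) (h : X.I M → X.I M → ℝ) :
    ∫⁻ x, eabs (X.UN s) x * ENNReal.ofReal (X.DTA_H M h (Fin.tail x) ^ 2) ≤
      ENNReal.ofReal (X.K / s * ∑ b, ∑ d, h b d ^ 2) := by
  have hK : 0 ≤ X.K := zero_le_one.trans X.K_ge
  have h1 := DTA_tail (Φ := eabs (X.UN s))
    (continuous_abs.measurable.comp (X.wt s).meas).ennreal_ofReal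
    (X.marg_UN hs (A := {0}) (by decide)) ((X.DTA_H_meas h).pow_const 2).ennreal_ofReal
  rw [X.DTA_H_sq] at h1
  rw [ENNReal.ofReal_mul (by positivity)]
  refine h1.trans (le_of_eq ?_)
  congr 2
  simp only [Finset.card_singleton, mul_one]
  field_simp

theorem DTA_a (hs : 0 < s) (hM : X.T.μ ≤ M) {M₀ : ℝ} (h0 : ∀ y, |X.T.φ y| ≤ M₀) (h : X.I M → ℝ) :
    ∫⁻ x, eabs (X.UN s) x * ENNReal.ofReal (X.DTA_H M
      (fun b d => if d = (X.dat Λ mm s M hM).o then h b else 0) (Fin.tail x) ^ 2) ≤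
      ENNReal.ofReal (M₀ ^ 2 * X.K / s ^ 4 * ∑ b, h b ^ 2) := by
  have hK : 0 ≤ X.K := zero_le_one.trans X.K_ge
  have hm := (X.on M).meas
  have m1 : Measurable fun y => ∑ b, h b * X.e M b y :=
    Finset.measurable_sum _ fun b _ => (hm b).const_mul _
  have m2 : Measurable (eabs (X.UN s)) :=
    (continuous_abs.measurable.comp (X.wt s).meas).ennreal_ofReal
  have h1 := lintegral_mul_single_le m2 1
    (X.marg_UN hs (A := Finset.univ.erase 1) (by decide)) (m1.pow_const 2).ennreal_ofReal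
  have h2 : ∫⁻ y, ENNReal.ofReal ((∑ b, h b * X.e M b y) ^ 2) = ENNReal.ofReal (∑ b, h b ^ 2) := by
    have a1 := (X.on M).hat_sq fun β : Fin 1 → X.I M => h (β 0)
    have a2 := memLp_hat (X.on M).l2 fun β : Fin 1 → X.I M => h (β 0)
    rw [muP_univ] at a1 a2
    rw [DTA_sum_one] at a1
    have a3 := ofReal_integral_eq_lintegral_ofReal a2.integrable_sq
      (Eventually.of_forall fun _ => sq_nonneg _)
    rw [a1] at a3
    refine Eq.trans ?_ a3.symm
    rw [← (volume_preserving_funUnique (Fin 1) R3).lintegral_comp (m1.pow_const 2).ennreal_ofReal]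
    refine lintegral_congr fun x => ?_
    rw [hat, DTA_sum_one]
    simp [prodE]
  rw [h2] at h1
  calc _ ≤ ∫⁻ x, ENNReal.ofReal (M₀ ^ 2) *
        (eabs (X.UN s) x * ENNReal.ofReal ((∑ b, h b * X.e M b (x 1)) ^ 2)) := by
        refine lintegral_mono fun x => ?_
        rw [mul_left_comm, ← ENNReal.ofReal_mul (sq_nonneg _)]
        refine mul_le_mul_right (ENNReal.ofReal_le_ofReal ?_) _
        have a1 : X.DTA_H M (fun b d => if d = (X.dat Λ mm s M hM).o then h b else 0)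
            (Fin.tail x) = X.T.φ (x 2) * ∑ b, h b * X.e M b (x 1) := by
          rw [X.DTA_H_eq, Finset.mul_sum]
          refine Finset.sum_congr rfl fun b _ => ?_
          simp only [ite_mul, zero_mul, Finset.sum_ite_eq', Finset.mem_univ, if_true]
          rw [X.e_o hM]
          change h b * X.e M b (x 1) * X.T.φ (x 2) = _
          ring
        rw [a1, mul_pow]
        exact mul_le_mul_of_nonneg_right (sq_le_sq' (abs_le.1 (h0 _)).1 (abs_le.1 (h0 _)).2)
          (sq_nonneg _)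
    _ ≤ _ := by
        rw [lintegral_const_mul _ (by
          exact m2.mul ((m1.comp (measurable_pi_apply 1)).pow_const 2).ennreal_ofReal)]
        refine (mul_le_mul_right h1 _).trans (le_of_eq ?_)
        rw [← ENNReal.ofReal_mul (by positivity), ← ENNReal.ofReal_mul (by positivity)]
        congr 1
        rw [show 3 * (Finset.univ.erase (1 : Fin 3)).card = 6 by decide]
        field_simp

theorem DTA_pt {M₀ M₁ : ℝ} (g0 : 1 ≤ M₀) (g1 : 1 ≤ M₁)
    (hl : ∀ a, X.T.B.ν a ≤ X.T.μ + Λ → BF X.Wp (X.T.B.e a) (X.T.B.g a) M₁)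
    (hc : ∀ (mm s M : ℝ) (hM : X.T.μ ≤ M), ((X.dat Λ mm s M hM).low.card : ℝ) ≤ M₁) {t : ℕ}
    (ht : t ≤ 3) {k : (Fin (t + 1) → R3) → ℝ} {u : R3 → ℝ} {g : R3 → R3} {ε δ : ℝ}
    (hu : BF X.Wp u g M₀) (hk : Measurable k) (hε : 0 ≤ ε) (h2 : L2rel k ε) (hδ : 0 < δ) (σ : ℝ) :
    ∀ᶠ M : ℝ in atTop, ∀ hM : X.T.μ ≤ M, ∃ E : R3 → ℝ, Measurable E ∧ (∀ y, 0 ≤ E y) ∧
      Integrable E ∧ ∫ y, E y ≤ δ ∧ ∀ y, ∑ η : Fin t → X.I M, (∑ a,
        (if (X.lv Λ M hM).Hi (Fin.cons a η : Fin (t + 1) → X.I M) then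
          -(σ * coef (X.e M) (fun x => k x * tens (fun _ => u) x) (Fin.cons a η)) else 0) *
          X.e M a y) ^ 2 ≤ σ ^ 2 * (6 * M₀ ^ 8 * M₁ ^ 3 * ε) + 3 * σ ^ 2 * E y := by
  obtain ⟨l1, l2⟩ := l2_mul_tens X.hWp hk (u := fun _ => u) (G := fun _ => g) (fun _ => hu) hε h2
  have hp : M₀ ^ (2 * Fintype.card (Fin (t + 1))) ≤ M₀ ^ 8 :=
    pow_le_pow_right₀ g0 (by rw [Fintype.card_fin]; omega)
  have mt : Measurable (tens fun _ : Fin (t + 1) => u) :=
    Finset.measurable_prod _ fun j _ => hu.inF.mu.comp (measurable_pi_apply j)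
  have h3 := X.T.B.parseval X.hWp (F := fun x => k x * tens (fun _ => u) x)
    (F' := fun x => k x * tens (fun _ => u) x) (by rwa [muP_univ]) (by rwa [muP_univ])
  simp only [coefO_univ, muP_univ, ← sq] at h3
  have hn : MargLe {0}ᶜ (fun x => ENNReal.ofReal ((k x * tens (fun _ => u) x) ^ 2))
      (M₀ ^ 8 * ε) := fun x => by
    rw [Finset.compl_singleton, ENNReal.ofReal_mul (by positivity)]
    refine (marg_mono _ (Ψ := fun x => ENNReal.ofReal (M₀ ^ 8) * ENNReal.ofReal (k x ^ 2))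
      (fun z => ?_) x).trans ?_
    · rw [← ENNReal.ofReal_mul (by positivity), mul_pow, mul_comm]
      refine ENNReal.ofReal_le_ofReal (mul_le_mul_of_nonneg_right (le_trans ?_ hp) (sq_nonneg _))
      rw [mul_comm, pow_mul, ← sq_abs, tens, Finset.abs_prod]
      refine pow_le_pow_left₀ (Finset.prod_nonneg fun _ _ => abs_nonneg _) ?_ 2
      simpa using Finset.prod_le_prod (s := Finset.univ) (f := fun j : Fin (t + 1) => |u (z j)|)
        (g := fun _ => M₀) (fun _ _ => abs_nonneg _) fun j _ => hu.bdd _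
    · rw [marg_mul_left _ (hk.pow_const 2).ennreal_ofReal (c := fun _ => ENNReal.ofReal (M₀ ^ 8))
        fun _ _ _ => rfl]
      exact mul_le_mul_right (h2 0 x) _
  filter_upwards [h3.eventually (lt_mem_nhds (sub_lt_self _ hδ))] with M hM' hM
  have h4 : ∀ y, ∑ a ∈ (X.lv Λ M hM).low, X.e M a y ^ 2 ≤ M₁ ^ 3 := fun y => by
    have a1 := Finset.sum_le_card_nsmul (X.lv Λ M hM).low (fun a => X.e M a y ^ 2) (M₁ ^ 2)
      fun a ha => by
        have := abs_le.1 ((hl a.1 ((X.mem_low (mm := 1) (s := 1) hM a).1 ha)).bdd y)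
        exact sq_le_sq' this.1 this.2
    rw [nsmul_eq_mul] at a1
    have a2 := mul_le_mul_of_nonneg_right (hc 1 1 M hM) (sq_nonneg M₁)
    exact a1.trans (a2.trans (le_of_eq (by ring)))
  obtain ⟨E, e1, e2, e3, e4, e5⟩ := gal_one (X.on M) (X.lv Λ M hM) h4
    (T := fun x => k x * tens (fun _ => u) x) (hk.mul mt) l1 (by positivity) hn
  refine ⟨E, e1, e2, e3, by linarith, fun y => ?_⟩
  have h5 : ∑ α, coef (X.e M) (fun x => k x * tens (fun _ => u) x) α ^ 2 ≤ M₀ ^ 8 * ε :=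
    (coef_bessel (X.fr M).toFrame l1).trans (l2.trans (mul_le_mul_of_nonneg_right hp hε))
  have h6 := mul_le_mul_of_nonneg_left h5 (show 0 ≤ 3 * M₁ ^ 3 by positivity)
  have h7 := mul_le_mul_of_nonneg_left (one_le_pow₀ (n := 3) g1)
    (show 0 ≤ 3 * (M₀ ^ 8 * ε) by positivity)
  have h8 := mul_le_mul_of_nonneg_left
    ((e5 y).trans (show _ ≤ 6 * M₀ ^ 8 * M₁ ^ 3 * ε + 3 * E y by linarith)) (sq_nonneg σ)
  refine le_trans (le_of_eq ?_) (h8.trans (le_of_eq (by ring)))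
  rw [Finset.mul_sum]
  refine Finset.sum_congr rfl fun η _ => ?_
  rw [← neg_sq σ, ← mul_pow, Finset.mul_sum]
  congr 1
  refine Finset.sum_congr rfl fun a _ => ?_
  split_ifs <;> ring

theorem DTA_both (hM : X.T.μ ≤ M) (hs : 1 ≤ s) {M₀ : ℝ} (g0 : 1 ≤ M₀) (h0 : ∀ y, |X.T.φ y| ≤ M₀)
    {J : Type} [Fintype J] (G : J → X.I M → ℝ) {A C σ ε : ℝ} {n : ℕ} (hn : n ≤ 8) (hA : 0 ≤ A)
    (hσ : σ ^ 2 ≤ s ^ 4) (hε : σ ^ 2 * ε ≤ A / s ^ n) (hC : A * (M₀ ^ 2 * X.K) + 3 * X.K ≤ C)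
    (hE : ∃ E : R3 → ℝ, Measurable E ∧ (∀ y, 0 ≤ E y) ∧ Integrable E ∧ ∫ y, E y ≤ 1 / s ^ 16 ∧
      ∀ y, ∑ j, (∑ a, G j a * X.e M a y) ^ 2 ≤ σ ^ 2 * ε + 3 * σ ^ 2 * E y) :
    (∀ h : X.I M → ℝ, ∑ j, ‖∑ a, ∑ b, (G j a * h b) •
      (X.dat Λ mm s M hM).υ ![a, b, (X.dat Λ mm s M hM).o]‖ ^ 2 ≤ C / s ^ (n + 2) * ∑ b, h b ^ 2) ∧
    ∀ h : X.I M → X.I M → ℝ, ∑ j, ‖∑ a, ∑ b, ∑ d, (G j a * h b d) •
      (X.dat Λ mm s M hM).υ ![a, b, d]‖ ^ 2 ≤ C / s ^ n * ∑ b, ∑ d, h b d ^ 2 := by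
  obtain ⟨E, e1, e2, e3, e4, e5⟩ := hE
  have hK : 0 ≤ X.K := zero_le_one.trans X.K_ge
  have s0 : 0 < s := one_pos.trans_le hs
  have e6 : ∀ y, ∑ j, (∑ a, G j a * X.e M a y) ^ 2 ≤ A / s ^ n + 3 * s ^ 4 * E y := fun y => by
    have := mul_le_mul_of_nonneg_right hσ (e2 y)
    linarith [e5 y]
  have hd : ∀ {a : ℝ} {i j : ℕ}, 0 ≤ a → i ≤ j → a / s ^ j ≤ a / s ^ i := fun ha hij =>
    div_le_div_of_nonneg_left ha (by positivity) (pow_le_pow_right₀ hs hij)
  have hq : 3 * s ^ 4 * (s ^ 2 * X.K) * (1 / s ^ 16) = 3 * X.K / s ^ 10 := by field_simp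
  have hC' : ∀ j : ℕ, A * (M₀ ^ 2 * X.K) / s ^ j + 3 * X.K / s ^ j ≤ C / s ^ j := fun j => by
    rw [← add_div]
    exact div_le_div_of_nonneg_right hC (by positivity)
  refine ⟨fun h => ?_, fun h => ?_⟩
  · have a1 := X.DTA_core (Λ := Λ) (mm := mm) hM G (by positivity) (by positivity) (by positivity)
      e1 e2 e3 e4 e6 _ (X.DTA_a (Λ := Λ) (mm := mm) s0 hM h0 h)
    simp only [mul_ite, mul_zero, ite_smul, zero_smul, ite_pow, ne_eq, OfNat.ofNat_ne_zero,
      not_false_eq_true, zero_pow, Finset.sum_ite_eq', Finset.mem_univ, if_true] at a1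
    refine a1.trans ?_
    rw [hq, ← mul_assoc, ← add_mul]
    refine mul_le_mul_of_nonneg_right (le_trans (add_le_add ?_ (hd (by positivity) (by omega)))
      (hC' _)) (by positivity)
    refine le_trans (le_of_eq ?_) (hd (j := n + 4) (by positivity) (by omega))
    rw [pow_add]
    field_simp
  · refine (X.DTA_core (Λ := Λ) (mm := mm) hM G (by positivity) (by positivity) (by positivity)
      e1 e2 e3 e4 e6 _ (X.DTA_b s0 h)).trans ?_
    rw [hq, ← mul_assoc, ← add_mul]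
    refine mul_le_mul_of_nonneg_right (le_trans (add_le_add ?_ (hd (by positivity) (by omega)))
      (hC' _)) (by positivity)
    refine le_trans ?_ (hd (j := n + 1) (by positivity) (by omega))
    rw [div_mul_div_comm, ← pow_succ]
    refine div_le_div_of_nonneg_right (mul_le_mul_of_nonneg_left ?_ hA) (by positivity)
    exact le_mul_of_one_le_left hK (one_le_pow₀ g0)

theorem trialA (h : X.Par Λ mm) : X.Ev Λ mm fun C s _ D => D.TrialA s C := by
  obtain ⟨M₀, c0⟩ := X.exists_cond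
  obtain ⟨M₁, g1, hl, hc⟩ := X.exists_low Λ
  obtain ⟨C₀, hC₀, hcmp⟩ := X.cmp
  have g0 := c0.one_le
  refine Ev.of (6 * M₀ ^ 8 * M₁ ^ 3 * C₀ * (M₀ ^ 2 * X.K) + 3 * X.K) fun s hs => ?_
  have s1 : 1 ≤ s := h.mm_ge.trans hs
  have s0 : 0 < s := one_pos.trans_le s1
  obtain ⟨c2, c3, c4⟩ := hcmp mm s h.mm_ge hs
  have hδ : 0 < 1 / s ^ 16 := by positivity
  have hA : 0 ≤ 6 * M₀ ^ 8 * M₁ ^ 3 * C₀ := by positivity
  have h1 : (1 : ℝ) ^ 2 ≤ s ^ 4 := by simpa using one_le_pow₀ (n := 4) s1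
  filter_upwards [X.DTA_pt g0 g1 hl hc (t := 1) (by omega) c0.bf2 (RCmp_kb c2.gd).1 c2.ε_pos.le
      c2.l2 hδ (s ^ 2),
    X.DTA_pt g0 g1 hl hc (t := 2) (by omega) c0.bf (RCmp_kb c3.gd).1 c3.ε_pos.le c3.l2 hδ 1,
    X.DTA_pt g0 g1 hl hc (t := 3) (by omega) c0.bf (RCmp_kb c4.gd).1 c4.ε_pos.le c4.l2 hδ 1]
    with M p2 p3 p4 hM C hC
  obtain ⟨a2, b2⟩ := X.DTA_both (Λ := Λ) (mm := mm) hM s1 g0 c0.bf.bdd _ (n := 4) (by omega) hA
    (le_of_eq (by ring)) (le_of_eq (by field_simp)) hC (p2 hM)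
  obtain ⟨a3, b3⟩ := X.DTA_both (Λ := Λ) (mm := mm) hM s1 g0 c0.bf.bdd _ (n := 6) (by omega) hA
    h1 (le_of_eq (by field_simp)) hC (p3 hM)
  obtain ⟨a4, b4⟩ := X.DTA_both (Λ := Λ) (mm := mm) hM s1 g0 c0.bf.bdd _ (n := 8) (by omega) hA
    h1 (by
      rw [one_pow, one_mul, ← mul_div_assoc]
      exact div_le_div_of_nonneg_left hA (by positivity) (pow_le_pow_right₀ s1 (by omega)))
    hC (p4 hM)
  simp only [DTA_sum_one] at a2 b2
  simp only [DTA_sum_two] at a3 b3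
  simp only [DTA_sum_three] at a4 b4
  exact ⟨a2, a3, a4, b2, b3, b4⟩

end TS

end Pool.Agent.Lib.MP_8fe63c_mp
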