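import Pool.Agent.Lib.MP_8fe63c_mp.DM4c

/-!
Norms of the trial kernels.

Sketch. `FamU`: for `R = ∅` use `bil_empty_iff`, `wtH_empty`, `cmp_res`; otherwise `bil_schur` with the majorant
`M₀^p |k|` and `Mac.mg`, `Mac.mg'`, then `Bil.hi`, `Bil.smul`, `Bil.mono`. For `G2` both marginals are
`C/(s^4 mm^2)`; choose `mm` with `2^30 C^2 M₀^4 ≤ mm^4`. `k2 k3 k4`: `Lv.res_eq`, `cmp_res`; for `k2` also
`Lv.res_pert` and `dB`.
-/

set_option linter.unusedSectionVars false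

open MeasureTheory Set Filter Topology
open scoped ENNReal InnerProductSpace

namespace Pool.Agent.Lib.MP_8fe63c_mp

theorem DTK_fam {I : Type} [Fintype I] [DecidableEq I] {p : ℕ} {W : R3 → ℝ} (hW : Pot W)
    (L : Lv I) (fr : Frame I) {k : (Fin p → R3) → ℝ} (hk : Measurable k)
    (hb : ∃ M : ℝ, ∀ x, |k x| ≤ M) {u : Fin p → R3 → ℝ} {G : Fin p → R3 → R3} {c : ℝ}
    (hu : ∀ j, BF W (u j) (G j) c) (hc : 0 ≤ c) (t x0 x1 : ℝ)
    (h0 : t ^ 2 * ∑ α, coef fr.e (fun z => k z * tens u z) α ^ 2 ≤ x0)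
    (h1 : ∀ R : Finset (Fin p), R.card ≠ 0 → R.card ≠ p → ∃ m m' : ℝ, 0 ≤ m ∧ 0 ≤ m' ∧
      MargLe R (eabs k) m ∧ MargLe Rᶜ (eabs k) m' ∧ t ^ 2 * (c ^ p * m * (c ^ p * m')) ≤ x1) :
    L.FamU (fun α => if L.Hi α then -(t * coef fr.e (fun z => k z * tens u z) α) else 0)
      fun r => if r = 0 then x0 else x1 := by
  intro R hR
  by_cases e : R = ∅
  · subst e
    have hx0 : 0 ≤ x0 :=
      (mul_nonneg (sq_nonneg t) (Finset.sum_nonneg fun _ _ => sq_nonneg _)).trans h0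
    rw [Lv.wtH_empty, Finset.card_empty]
    simp only [if_true]
    rw [Lv.bil_empty_iff hx0]
    refine le_trans ?_ h0
    rw [Finset.mul_sum]
    refine Finset.sum_le_sum fun α _ => ?_
    split_ifs
    · exact le_of_eq (by ring)
    · rw [zero_pow two_ne_zero]
      positivity
  · have hc0 : R.card ≠ 0 := fun h => e (Finset.card_eq_zero.1 h)
    have hcp : R.card ≠ p := fun h => hR (Finset.eq_univ_of_card R (by rw [h, Fintype.card_fin]))
    obtain ⟨m, m', a0, a0', a, a', hx⟩ := h1 R hc0 hcp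
    have me : Measurable (eabs k) := (continuous_abs.measurable.comp hk).ennreal_ofReal
    have hp : 0 ≤ c ^ p := by positivity
    have hle : ∀ z, eabs (fun z => k z * tens u z) z ≤ ENNReal.ofReal (c ^ p) * eabs k z := by
      intro z
      rw [eabs, eabs, ← ENNReal.ofReal_mul hp, abs_mul, mul_comm]
      refine ENNReal.ofReal_le_ofReal (mul_le_mul_of_nonneg_right ?_ (abs_nonneg _))
      rw [tens, Finset.abs_prod]
      refine (Finset.prod_le_prod (fun _ _ => abs_nonneg _) fun j _ => (hu j).bdd _).trans_eq ?_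
      rw [Finset.prod_const, Finset.card_univ, Fintype.card_fin]
    have hx1 : 0 ≤ x1 := le_trans (by positivity) hx
    have b1 := ((bil_schur L fr (RCmp_memLp hW hk hb hu) (me.const_mul _) hle R (mul_nonneg hp a0)
      (mul_nonneg hp a0') (NTb_const me hp a) (NTb_const me hp a')).smul (-t)).mono
      (wt' := fun _ => x1) fun _ _ => by rw [neg_sq]; exact hx
    have b2 := b1.hi hx1
    simp only [neg_mul] at b2
    simp only [if_neg hc0]
    exact b2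

theorem DTK_card {p : ℕ} (R : Finset (Fin p)) : Rᶜ.card + R.card = p := by
  rw [Finset.card_compl_add_card, Fintype.card_fin]

theorem DTK_mg {p : ℕ} {A s mm C : ℝ} {F : (Fin p → R3) → ℝ} (h : Mac A s mm C F) (hA : 0 ≤ A)
    (hC : 0 ≤ C) (hs : 0 < s) (h1 : 1 ≤ mm) (B : Finset (Fin p)) (hB : B.card + 1 = p) :
    MargLe B (eabs (kap A s mm F)) (C * A / s ^ (3 * B.card)) := by
  refine RCmp_margLe (h.mg' B hB) ?_
  refine div_le_div_of_nonneg_left (by positivity) (by positivity) ?_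
  exact le_mul_of_one_le_right (by positivity) (one_le_pow₀ h1)

theorem DTK_three {s mm C : ℝ} {F : (Fin 3 → R3) → ℝ} (h : Mac (s ^ 2) s mm C F) (hC : 0 ≤ C)
    (hs : 0 < s) (h1 : 1 ≤ mm) (R : Finset (Fin 3)) (r0 : R.card ≠ 0) (r3 : R.card ≠ 3) :
    ∃ m m' : ℝ, 0 ≤ m ∧ 0 ≤ m' ∧ MargLe R (eabs (kap (s ^ 2) s mm F)) m ∧
      MargLe Rᶜ (eabs (kap (s ^ 2) s mm F)) m' ∧ m * m' ≤ C ^ 2 / s ^ 7 := by
  have hc := DTK_card R
  have e : R.card = 1 ∨ R.card = 2 := by omega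
  rcases e with e | e
  · refine ⟨_, _, by positivity, by positivity, h.mg R (by omega),
      DTK_mg h (by positivity) hC hs h1 Rᶜ (by omega), le_of_eq ?_⟩
    rw [e, show Rᶜ.card = 2 by omega]
    field_simp
    ring
  · refine ⟨_, _, by positivity, by positivity, DTK_mg h (by positivity) hC hs h1 R (by omega),
      h.mg Rᶜ (by omega), le_of_eq ?_⟩
    rw [e, show Rᶜ.card = 1 by omega]
    field_simp
    ring

theorem DTK_four {s mm C : ℝ} {F : (Fin 4 → R3) → ℝ} (h : Mac (s ^ 2) s mm C F) (hC : 0 ≤ C)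
    (hs1 : 1 ≤ s) (h1 : 1 ≤ mm) (R : Finset (Fin 4)) (r0 : R.card ≠ 0) (r3 : R.card ≠ 4) :
    ∃ m m' : ℝ, 0 ≤ m ∧ 0 ≤ m' ∧ MargLe R (eabs (kap (s ^ 2) s mm F)) m ∧
      MargLe Rᶜ (eabs (kap (s ^ 2) s mm F)) m' ∧ m * m' ≤ C ^ 2 / s ^ 9 := by
  have hs : 0 < s := one_pos.trans_le hs1
  have hc := DTK_card R
  have k10 : C ^ 2 / s ^ 10 ≤ C ^ 2 / s ^ 9 :=
    div_le_div_of_nonneg_left (by positivity) (by positivity) (pow_le_pow_right₀ hs1 (by norm_num))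
  have k12 : C ^ 2 / s ^ 12 ≤ C ^ 2 / s ^ 9 :=
    div_le_div_of_nonneg_left (by positivity) (by positivity) (pow_le_pow_right₀ hs1 (by norm_num))
  have e : R.card = 1 ∨ R.card = 2 ∨ R.card = 3 := by omega
  rcases e with e | e | e
  · refine ⟨_, _, by positivity, by positivity, h.mg R (by omega),
      DTK_mg h (by positivity) hC hs h1 Rᶜ (by omega), le_trans (le_of_eq ?_) k10⟩
    rw [e, show Rᶜ.card = 3 by omega]
    field_simp
    ring
  · refine ⟨_, _, by positivity, by positivity, h.mg R (by omega), h.mg Rᶜ (by omega),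
      le_trans (le_of_eq ?_) k12⟩
    rw [e, show Rᶜ.card = 2 by omega]
    field_simp
    ring
  · refine ⟨_, _, by positivity, by positivity, DTK_mg h (by positivity) hC hs h1 R (by omega),
      h.mg Rᶜ (by omega), le_trans (le_of_eq ?_) k10⟩
    rw [e, show Rᶜ.card = 1 by omega]
    field_simp
    ring

theorem DTK_two {s mm C : ℝ} {F : (Fin 2 → R3) → ℝ} (h : Mac s⁻¹ s mm C F) (hC : 0 ≤ C)
    (hs : 0 < s) (h1 : 1 ≤ mm) (R : Finset (Fin 2)) (r0 : R.card ≠ 0) (r3 : R.card ≠ 2) :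
    ∃ m m' : ℝ, 0 ≤ m ∧ 0 ≤ m' ∧ MargLe R (eabs (kap s⁻¹ s mm F)) m ∧
      MargLe Rᶜ (eabs (kap s⁻¹ s mm F)) m' ∧ m * m' ≤ C ^ 2 / (s ^ 8 * mm ^ 4) := by
  have hc := DTK_card R
  have hm : 0 < mm := one_pos.trans_le h1
  refine ⟨_, _, by positivity, by positivity, h.mg' R (by omega), h.mg' Rᶜ (by omega),
    le_of_eq ?_⟩
  rw [show R.card = 1 by omega, show Rᶜ.card = 1 by omega]
  field_simp
  ring

namespace TS

variable (X : TS) {Λ mm s M : ℝ}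

/-- the comparison estimates for the three trial kernels -/
theorem DTK_res (h : X.Par Λ mm) : ∃ C : ℝ, 1 ≤ C ∧ ∀ s, mm ≤ s → ∀ (M : ℝ) (hM : X.T.μ ≤ M),
    ((X.lv Λ M hM).res (coef (X.e M) (X.T2 mm s)) (X.FBt s M) ≤ C / s ^ 8 ∧
      ∑ α, coef (X.e M) (X.T2 mm s) α ^ 2 ≤ C / s ^ 8) ∧
    ((X.lv Λ M hM).res (coef (X.e M) (X.T3 mm s))
        (coef (X.e M) fun x => X.F3N s x * X.ph 3 x) ≤ C / s ^ 6 ∧
      ∑ α, coef (X.e M) (X.T3 mm s) α ^ 2 ≤ C / s ^ 6) ∧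
    ((X.lv Λ M hM).res (coef (X.e M) (X.T4 mm s))
        (coef (X.e M) fun x => X.F4N s x * X.ph 4 x) ≤ C / s ^ 9 ∧
      ∑ α, coef (X.e M) (X.T4 mm s) α ^ 2 ≤ C / s ^ 9) := by
  obtain ⟨M₀, hc⟩ := X.exists_cond
  obtain ⟨Cc, hCc, hcmp⟩ := X.cmp
  have hμ := X.μ_nonneg
  have hM₀ := hc.one_le
  have hm2 := sq_nonneg mm
  obtain ⟨cG, hcG, hG⟩ := cmp_res (M₀ + mm ^ 2 + X.T.μ + 3)
  refine ⟨cG * Cc, one_le_mul_of_one_le_of_one_le hcG hCc, fun s hs M hM => ?_⟩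
  obtain ⟨c2, c3, c4⟩ := hcmp mm s h.mm_ge hs
  have hh : ∀ a, a ∉ (X.lv Λ M hM).low → 1 ≤ (X.lv Λ M hM).lam a ∧
      (X.fr M).lt a + 1 ≤ (M₀ + mm ^ 2 + X.T.μ + 3) * (X.lv Λ M hM).lam a := fun a ha => by
    obtain ⟨a1, a2⟩ := X.hi3 (s := s) h hM a ha
    exact ⟨a1, a2.trans (mul_le_mul_of_nonneg_right (by linarith) (zero_le_one.trans a1))⟩
  have b1 := hc.bf.mono (M' := M₀ + mm ^ 2 + X.T.μ + 3) (by linarith)
  have b2 := hc.bf2.mono (M' := M₀ + mm ^ 2 + X.T.μ + 3) (by linarith)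
  have e1 : mm ^ 2 ≤ M₀ + mm ^ 2 + X.T.μ + 3 := by linarith
  have e2 : |X.T.μ| ≤ M₀ + mm ^ 2 + X.T.μ + 3 := by rw [abs_of_nonneg hμ]; linarith
  have r2 := hG (X.fr M) (X.lv Λ M hM) X.T.μ _ _ _ _ _ _ _ (fun _ y => X.T.φ y ^ 2) _ X.hWp
    MeasurableSet.univ (by simp) (by simp) c2 e1 (fun _ => b2)
    (fun _ z hz => absurd (mem_univ z) hz) e2 (fun _ => rfl) hh
  have r3 := hG (X.fr M) (X.lv Λ M hM) X.T.μ _ _ _ _ _ _ _ (fun _ => X.T.φ) _ X.hWp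
    MeasurableSet.univ (by simp) (by simp) c3 e1 (fun _ => b1)
    (fun _ z hz => absurd (mem_univ z) hz) e2 (fun _ => rfl) hh
  have r4 := hG (X.fr M) (X.lv Λ M hM) X.T.μ _ _ _ _ _ _ _ (fun _ => X.T.φ) _ X.hWp
    MeasurableSet.univ (by simp) (by simp) c4 e1 (fun _ => b1)
    (fun _ z hz => absurd (mem_univ z) hz) e2 (fun _ => rfl) hh
  simp only [← mul_div_assoc] at r2 r3 r4
  exact ⟨⟨r2.1, r2.2.1⟩, ⟨r3.1, r3.2.1⟩, r4.1, r4.2.1⟩

theorem exists_mm : ∃ mm : ℝ, 1 ≤ mm ∧ ∀ Λ, X.Par Λ mm → X.Ev Λ mm fun C s _ D =>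
    D.FamU D.G2 fun r => if r = 0 then C / s ^ 4 else 1 / (2 ^ 30 * s ^ 4) := by
  obtain ⟨M₀, hc⟩ := X.exists_cond
  obtain ⟨Cm, hCm, hmac⟩ := X.mac
  have hM₀ := hc.one_le
  have k1 : 1 ≤ Cm * M₀ := one_le_mul_of_one_le_of_one_le hCm hM₀
  refine ⟨2 ^ 8 * (Cm * M₀), by linarith, fun Λ h => ?_⟩
  obtain ⟨Cr, hCr, hres⟩ := X.DTK_res h
  refine Ev.of_all Cr fun C hC s hs M hM => ?_
  have hs1 : 1 ≤ s := h.mm_ge.trans hs
  have hs0 : 0 < s := one_pos.trans_le hs1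
  have hm := (hmac _ s h.mm_ge hs).1
  have hk := RCmp_kb hm.gd
  refine DTK_fam X.hWp (X.lv Λ M hM) (X.fr M).toFrame hk.1 hk.2 (u := fun _ y => X.T.φ y ^ 2)
    (fun _ => hc.bf2) (zero_le_one.trans hM₀) (s ^ 2) _ _ ?_ fun R r0 r2 => ?_
  · refine (mul_le_mul_of_nonneg_left (hres s hs M hM).1.2 (by positivity)).trans ?_
    rw [show (s ^ 2) ^ 2 * (Cr / s ^ 8) = Cr / s ^ 4 by field_simp]
    gcongr
  · obtain ⟨m, m', a0, a0', a, a', hx⟩ := DTK_two hm (zero_le_one.trans hCm) hs0 h.mm_ge R r0 r2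
    refine ⟨m, m', a0, a0', a, a', ?_⟩
    rw [mul_mul_mul_comm]
    refine (mul_le_mul_of_nonneg_left (mul_le_mul_of_nonneg_left hx (by positivity))
      (by positivity)).trans ?_
    rw [show (s ^ 2) ^ 2 * (M₀ ^ 2 * M₀ ^ 2 * (Cm ^ 2 / (s ^ 8 * (2 ^ 8 * (Cm * M₀)) ^ 4))) =
      1 / (2 ^ 32 * Cm ^ 2 * s ^ 4) by field_simp]
    refine one_div_le_one_div_of_le (by positivity) (mul_le_mul_of_nonneg_right ?_ (by positivity))
    nlinarith [one_le_pow₀ (n := 2) hCm]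

theorem trialK (h : X.Par Λ mm) : X.Ev Λ mm fun C s _ D => D.TrialK s C := by
  obtain ⟨M₀, hc⟩ := X.exists_cond
  obtain ⟨Cm, hCm, hmac⟩ := X.mac
  obtain ⟨Cr, hCr, hres⟩ := X.DTK_res h
  obtain ⟨Cb, hCb, hdB⟩ := (X.dB h).exists
  have hM₀ := hc.one_le
  have hCm0 : 0 ≤ Cm := zero_le_one.trans hCm
  refine Ev.of (2 * Cr + 2 * Cb + M₀ ^ 8 * Cm ^ 2) fun s hs => (hdB s hs).mono ?_
  intro M hB hM C hC
  have hs1 : 1 ≤ s := h.mm_ge.trans hs
  have hs0 : 0 < s := one_pos.trans_le hs1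
  have p1 : 0 ≤ M₀ ^ 8 * Cm ^ 2 := by positivity
  have hC1 : Cr ≤ C := by linarith
  have hC2 : M₀ ^ 8 * Cm ^ 2 ≤ C := by linarith
  have hC3 : 2 * Cr + 2 * Cb ≤ C := by linarith
  have hC0 : 0 ≤ C := p1.trans hC2
  obtain ⟨-, m3, m4⟩ := hmac mm s h.mm_ge hs
  obtain ⟨⟨r2, -⟩, ⟨r3, q3⟩, r4, q4⟩ := hres s hs M hM
  have k3 := RCmp_kb m3.gd
  have k4 := RCmp_kb m4.gd
  have d9 : Cr / s ^ 9 ≤ C / s ^ 8 :=
    div_le_div₀ hC0 hC1 (by positivity) (pow_le_pow_right₀ hs1 (by norm_num))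
  have d6 : Cr / s ^ 6 ≤ C / s ^ 6 := div_le_div_of_nonneg_right hC1 (by positivity)
  refine ⟨?_, ?_, ?_, ?_, ?_⟩
  · refine DTK_fam X.hWp (X.lv Λ M hM) (X.fr M).toFrame k3.1 k3.2 (u := fun _ => X.T.φ)
      (fun _ => hc.bf) (zero_le_one.trans hM₀) 1 _ _ ?_ fun R r0 r1 => ?_
    · rw [one_pow, one_mul]
      exact q3.trans d6
    · obtain ⟨m, m', a0, a0', a, a', hx⟩ := DTK_three m3 hCm0 hs0 h.mm_ge R r0 r1
      refine ⟨m, m', a0, a0', a, a', ?_⟩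
      rw [one_pow, one_mul, mul_mul_mul_comm, ← pow_add]
      refine (mul_le_mul (pow_le_pow_right₀ hM₀ (by norm_num : 3 + 3 ≤ 8)) hx (mul_nonneg a0 a0')
        (by positivity)).trans ?_
      rw [← mul_div_assoc]
      exact div_le_div_of_nonneg_right hC2 (by positivity)
  · refine DTK_fam X.hWp (X.lv Λ M hM) (X.fr M).toFrame k4.1 k4.2 (u := fun _ => X.T.φ)
      (fun _ => hc.bf) (zero_le_one.trans hM₀) 1 _ _ ?_ fun R r0 r1 => ?_
    · rw [one_pow, one_mul]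
      exact q4.trans d9
    · obtain ⟨m, m', a0, a0', a, a', hx⟩ := DTK_four m4 hCm0 hs1 h.mm_ge R r0 r1
      refine ⟨m, m', a0, a0', a, a', ?_⟩
      rw [one_pow, one_mul, mul_mul_mul_comm, ← pow_add]
      refine (mul_le_mul_of_nonneg_left hx (by positivity)).trans ?_
      rw [← mul_div_assoc]
      exact div_le_div_of_nonneg_right hC2 (by positivity)
  · have e := (X.lv Λ M hM).res_eq (coef (X.e M) (X.T2 mm s))
      ((X.dat Λ mm s M hM).FB ((X.dat Λ mm s M hM).oo 1) ((X.dat Λ mm s M hM).oo 3)) (s ^ 2)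
    refine e.trans_le ?_
    have t := (X.lv Λ M hM).res_pert
      (fun a ha => one_pos.trans_le (X.hi3 (s := s) h hM a ha).1) (coef (X.e M) (X.T2 mm s))
      ((X.dat Λ mm s M hM).FB ((X.dat Λ mm s M hM).oo 1) ((X.dat Λ mm s M hM).oo 3)) (X.FBt s M)
    have t1 : Cb / s ^ 9 ≤ Cb / s ^ 8 := div_le_div_of_nonneg_left (zero_le_one.trans hCb)
      (by positivity) (pow_le_pow_right₀ hs1 (by norm_num))
    have t2 := (hB hM).trans t1
    have t3 := t.trans (add_le_add (mul_le_mul_of_nonneg_left r2 zero_le_two)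
      (mul_le_mul_of_nonneg_left t2 zero_le_two))
    refine (mul_le_mul_of_nonneg_left t3 (by positivity)).trans ?_
    rw [show (s ^ 2) ^ 2 * (2 * (Cr / s ^ 8) + 2 * (Cb / s ^ 8)) = (2 * Cr + 2 * Cb) / s ^ 4 by
      field_simp]
    exact div_le_div_of_nonneg_right hC3 (by positivity)
  · have e := (X.lv Λ M hM).res_eq (coef (X.e M) (X.T3 mm s))
      (coef (X.e M) fun x => X.F3N s x * X.ph 3 x) 1
    rw [X.FA_eq, X.prodE_oo]
    rw [one_pow, one_mul] at e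
    refine le_trans (le_of_eq ?_) (e.trans_le (r3.trans d6))
    exact Finset.sum_congr rfl fun α _ => by rw [one_mul ((X.lv Λ M hM).resK _ α)]; rfl
  · have e := (X.lv Λ M hM).res_eq (coef (X.e M) (X.T4 mm s))
      (coef (X.e M) fun x => X.F4N s x * X.ph 4 x) 1
    rw [X.F4_eq]
    rw [one_pow, one_mul] at e
    refine le_trans (le_of_eq ?_) (e.trans_le (r4.trans d9))
    exact Finset.sum_congr rfl fun α _ => by rw [one_mul ((X.lv Λ M hM).resK _ α)]; rfl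

end TS

end Pool.Agent.Lib.MP_8fe63c_mp
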