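import Pool.Agent.Lib.MP_8fe63c_mp.DBas

/-!
The bounds that do not depend on the cutoff.

Sketch. `w_op`: `w_eq`, Cauchy-Schwarz, `bes0`. `fB0`: `FB_eq`, `src_tens` (with `ϱ = 1`), `Src.red`,
`src_bounds` with `c₁ = 2` (`hi`), `Lv.FamOK.mono`. `l1b`, `l1b'`: `F3_eq`; the sum is
`∫ F3N x * (bounded product of four φ) * ζ (x 0) * c (x t)`, use `two_pt_le` and `bes0`.
-/

set_option linter.unusedSectionVars false

open MeasureTheory Set Filter Topology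
open scoped ENNReal InnerProductSpace

namespace Pool.Agent.Lib.MP_8fe63c_mp

theorem DUniv_int {q : ℕ} {Φ : (Fin (q + 1) → R3) → ℝ} {B s : ℝ} (h : Nice0 Φ B) (hs : 0 < s)
    {T : (Fin (q + 1) → R3) → ℝ} {K : ℝ} (hTm : Measurable T) (hT : ∀ x, |T x| ≤ K)
    {f g : R3 → ℝ} (hf : Measurable f) (hg : Measurable g) (hf2 : MemLp f 2 volume)
    (hg2 : MemLp g 2 volume) (a b : Fin (q + 1)) :
    Integrable fun x : Fin (q + 1) → R3 => Φ (s • x) * T x * f (x a) * g (x b) := by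
  have hK : 0 ≤ K := (abs_nonneg _).trans (hT 0)
  have h1 := (integrable_sc_single h hs a (hf.pow_const 2) hf2.integrable_sq).abs
  have h2 := (integrable_sc_single h hs b (hg.pow_const 2) hg2.integrable_sq).abs
  refine ((h1.add h2).const_mul K).mono'
    (((((h.meas.comp (HMac_meas_smul s)).mul hTm).mul (hf.comp (measurable_pi_apply a))).mul
      (hg.comp (measurable_pi_apply b))).aestronglyMeasurable) (Eventually.of_forall fun x => ?_)
  simp only [Real.norm_eq_abs, abs_mul, Pi.add_apply, abs_pow]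
  have h3 : |f (x a)| * |g (x b)| ≤ |f (x a)| ^ 2 + |g (x b)| ^ 2 := by
    nlinarith [sq_nonneg (|f (x a)| - |g (x b)|), abs_nonneg (f (x a)), abs_nonneg (g (x b)),
      mul_nonneg (abs_nonneg (f (x a))) (abs_nonneg (g (x b)))]
  have h4 := mul_le_mul (hT x) h3 (mul_nonneg (abs_nonneg _) (abs_nonneg _)) hK
  have h5 := mul_le_mul_of_nonneg_left h4 (abs_nonneg (Φ (s • x)))
  linarith

namespace TS

variable (X : TS) {Λ mm s M : ℝ}

theorem DUniv_meas (c : X.I M → ℝ) : Measurable fun y => ∑ a, c a * X.e M a y :=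
  Finset.measurable_sum _ fun a _ => ((X.on M).meas a).const_mul _

theorem DUniv_memLp (c : X.I M → ℝ) : MemLp (fun y => ∑ a, c a * X.e M a y) 2 volume :=
  memLp_finsetSum _ fun a _ => (X.memLp_e a).const_mul _

theorem DUniv_bes (c : X.I M → ℝ) : ∫ y, (∑ a, c a * X.e M a y) ^ 2 ≤ ∑ a, c a ^ 2 :=
  (X.fr M).bes0 c

/-- two free legs of the three-body source -/
theorem DUniv_two (hs : 0 < s) {T : (Fin 3 → R3) → ℝ} {K : ℝ} (hTm : Measurable T)
    (hT : ∀ x, |T x| ≤ K) (i j : Fin 3) (ζ c : X.I M → ℝ) :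
    (∑ a, ∑ d, ζ a * c d * ∫ x, X.F3N s x * T x * X.e M a (x i) * X.e M d (x j)) ^ 2 ≤
      (X.K * K) ^ 2 / s ^ 8 * (∑ a, ζ a ^ 2) * ∑ d, c d ^ 2 := by
  have hn : Nice0 (F3o X.U X.S.ω) X.K := X.hK.n3.toNice0
  have hI : ∀ a d, Integrable fun x : Fin 3 → R3 => ζ a * c d *
      (F3o X.U X.S.ω (s • x) * T x * X.e M a (x i) * X.e M d (x j)) := fun a d =>
    (DUniv_int hn hs hTm hT ((X.on M).meas a) ((X.on M).meas d) (X.memLp_e a) (X.memLp_e d)
      i j).const_mul _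
  have e1 : (∑ a, ∑ d, ζ a * c d * ∫ x, X.F3N s x * T x * X.e M a (x i) * X.e M d (x j)) =
      s ^ 2 * ∫ x : Fin 3 → R3, F3o X.U X.S.ω (s • x) * T x * (∑ a, ζ a * X.e M a (x i)) *
        ∑ d, c d * X.e M d (x j) := by
    have e2 : ∀ x : Fin 3 → R3, F3o X.U X.S.ω (s • x) * T x * (∑ a, ζ a * X.e M a (x i)) *
        ∑ d, c d * X.e M d (x j) = ∑ a, ∑ d, ζ a * c d *
          (F3o X.U X.S.ω (s • x) * T x * X.e M a (x i) * X.e M d (x j)) := fun x => by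
      rw [mul_assoc, Finset.sum_mul_sum, Finset.mul_sum]
      refine Finset.sum_congr rfl fun a _ => ?_
      rw [Finset.mul_sum]
      exact Finset.sum_congr rfl fun d _ => by ring
    simp only [e2]
    rw [integral_finsetSum _ fun a _ => integrable_finsetSum _ fun d _ => hI a d, Finset.mul_sum]
    refine Finset.sum_congr rfl fun a _ => ?_
    rw [integral_finsetSum _ fun d _ => hI a d, Finset.mul_sum]
    refine Finset.sum_congr rfl fun d _ => ?_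
    rw [← integral_const_mul, ← integral_const_mul]
    refine integral_congr_ae (Eventually.of_forall fun x => ?_)
    simp only [F3N, sc]
    ring
  have h1 := two_pt_le hn hs hT (X.DUniv_meas ζ) (X.DUniv_meas c) (X.DUniv_memLp ζ)
    (X.DUniv_memLp c) i j
  have h2 := X.DUniv_bes ζ
  have h3 := X.DUniv_bes c
  have h4 : 0 ≤ ∫ y, (∑ a, c a * X.e M a y) ^ 2 := integral_nonneg fun y => sq_nonneg _
  have h5 : 0 ≤ ∑ a, ζ a ^ 2 := Finset.sum_nonneg fun a _ => sq_nonneg _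
  rw [e1, mul_pow]
  calc _ ≤ (s ^ 2) ^ 2 * ((X.K * K / s ^ (3 * 2)) ^ 2 * (∑ a, ζ a ^ 2) * ∑ d, c d ^ 2) := by
        refine mul_le_mul_of_nonneg_left (h1.trans ?_) (sq_nonneg _)
        gcongr
    _ = _ := by
        field_simp
        ring

theorem DUniv_w (hM : X.T.μ ≤ M) {M₀ : ℝ} (hc : X.Cond M₀) (ζ h : X.I M → ℝ) :
    (∑ a, ∑ b, (X.dat Λ mm s M hM).w a b * ζ a * h b) ^ 2 ≤
      (X.K * M₀ ^ 4) ^ 2 * (∑ a, ζ a ^ 2) * ∑ b, h b ^ 2 := by
  have hK := X.K_ge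
  have hb := X.b_le
  have hb0 := X.hb0
  have hA : ∀ x, |X.b / 2 * X.T.φ x ^ 4| ≤ X.K * M₀ ^ 4 := fun x => by
    rw [abs_mul, abs_pow, abs_of_nonneg (by positivity : 0 ≤ X.b / 2)]
    have := hc.bf.bdd x
    gcongr
    linarith
  have hL : ∀ {f : R3 → ℝ}, MemLp f 2 volume →
      MemLp (fun x => X.b / 2 * X.T.φ x ^ 4 * f x) 2 volume := fun hf =>
    memLp_bdd_mul X.a_meas hA hf
  have hI : ∀ a b, Integrable fun x => ζ a * h b *
      (X.b / 2 * X.T.φ x ^ 4 * X.e M a x * X.e M b x) := fun a b =>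
    ((hL (X.memLp_e a)).integrable_mul (X.memLp_e b)).const_mul _
  have e1 : (∑ a, ∑ b, (X.dat Λ mm s M hM).w a b * ζ a * h b) =
      ∫ x, (X.b / 2 * X.T.φ x ^ 4 * ∑ a, ζ a * X.e M a x) * ∑ b, h b * X.e M b x := by
    have e2 : ∀ x, (X.b / 2 * X.T.φ x ^ 4 * ∑ a, ζ a * X.e M a x) * ∑ b, h b * X.e M b x =
        ∑ a, ∑ b, ζ a * h b * (X.b / 2 * X.T.φ x ^ 4 * X.e M a x * X.e M b x) := fun x => by
      rw [mul_assoc, Finset.sum_mul_sum, Finset.mul_sum]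
      refine Finset.sum_congr rfl fun a _ => ?_
      rw [Finset.mul_sum]
      exact Finset.sum_congr rfl fun d _ => by ring
    simp only [e2]
    rw [integral_finsetSum _ fun a _ => integrable_finsetSum _ fun d _ => hI a d]
    refine Finset.sum_congr rfl fun a _ => ?_
    rw [integral_finsetSum _ fun d _ => hI a d]
    refine Finset.sum_congr rfl fun d _ => ?_
    rw [integral_const_mul, X.w_eq]
    ring
  have h1 := PPar_cs (hL (X.DUniv_memLp ζ)) (X.DUniv_memLp h)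
  have h2 : ∫ x, (X.b / 2 * X.T.φ x ^ 4 * ∑ a, ζ a * X.e M a x) ^ 2 ≤
      (X.K * M₀ ^ 4) ^ 2 * ∑ a, ζ a ^ 2 := by
    refine le_trans ?_ (mul_le_mul_of_nonneg_left (X.DUniv_bes ζ) (sq_nonneg _))
    rw [← integral_const_mul]
    refine integral_mono (hL (X.DUniv_memLp ζ)).integrable_sq
      ((X.DUniv_memLp ζ).integrable_sq.const_mul _) fun x => ?_
    simp only [mul_pow]
    refine mul_le_mul_of_nonneg_right ?_ (sq_nonneg _)
    have := pow_le_pow_left₀ (abs_nonneg _) (hA x) 2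
    rw [sq_abs] at this
    simpa only [mul_pow] using this
  have h4 : 0 ≤ ∫ y, (∑ a, h a * X.e M a y) ^ 2 := integral_nonneg fun y => sq_nonneg _
  have h5 : 0 ≤ ∑ a, ζ a ^ 2 := Finset.sum_nonneg fun a _ => sq_nonneg _
  rw [e1]
  exact h1.trans (mul_le_mul h2 (X.DUniv_bes h) h4 (mul_nonneg (sq_nonneg _) h5))

theorem DUniv_l1b (hM : X.T.μ ≤ M) (hs : 0 < s) {M₀ : ℝ} (hc : X.Cond M₀) (t : Fin 3)
    (ζ c : X.I M → ℝ) :
    (∑ a, ∑ d, ζ a * c d * (X.dat Λ mm s M hM).F3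
      ![a, (X.dat Λ mm s M hM).o, (X.dat Λ mm s M hM).o]
        (Function.update ((X.dat Λ mm s M hM).oo 3) t d)) ^ 2 ≤
      (X.K * M₀ ^ 4) ^ 2 / s ^ 8 * (∑ a, ζ a ^ 2) * ∑ d, c d ^ 2 := by
  have hm := X.T.meas
  have hb := hc.bf.bdd
  have h0 : 0 ≤ M₀ := zero_le_one.trans hc.one_le
  have hTm : Measurable fun x : Fin 3 → R3 =>
      (∏ j ∈ Finset.univ.erase t, X.T.φ (x j)) * (X.T.φ (x 1) * X.T.φ (x 2)) :=
    (Finset.measurable_prod _ fun j _ => hm.comp (measurable_pi_apply j)).mul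
      ((hm.comp (measurable_pi_apply 1)).mul (hm.comp (measurable_pi_apply 2)))
  have hT : ∀ x : Fin 3 → R3,
      |(∏ j ∈ Finset.univ.erase t, X.T.φ (x j)) * (X.T.φ (x 1) * X.T.φ (x 2))| ≤ M₀ ^ 4 := by
    intro x
    have h1 : |∏ j ∈ Finset.univ.erase t, X.T.φ (x j)| ≤ M₀ ^ 2 := by
      rw [Finset.abs_prod]
      refine (Finset.prod_le_prod (fun j _ => abs_nonneg _) fun j _ => hb (x j)).trans ?_
      rw [Finset.prod_const, Finset.card_erase_of_mem (Finset.mem_univ t)]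
      simp
    rw [abs_mul, abs_mul]
    calc _ ≤ M₀ ^ 2 * (M₀ * M₀) := by
          gcongr
          · exact hb _
          · exact hb _
      _ = M₀ ^ 4 := by ring
  refine le_of_eq_of_le ?_ (X.DUniv_two hs hTm hT 0 t ζ c)
  congr 1
  refine Finset.sum_congr rfl fun a _ => Finset.sum_congr rfl fun d _ => ?_
  rw [X.F3_eq, coef]
  congr 1
  refine integral_congr_ae (Eventually.of_forall fun x => ?_)
  have e1 : prodE (X.e M) (Function.update ((X.dat Λ mm s M hM).oo 3) t d) x =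
      X.e M d (x t) * ∏ j ∈ Finset.univ.erase t, X.T.φ (x j) := by
    rw [prodE, ← Finset.mul_prod_erase _ _ (Finset.mem_univ t), Function.update_self]
    congr 1
    refine Finset.prod_congr rfl fun j hj => ?_
    rw [Function.update_of_ne (Finset.ne_of_mem_erase hj), Lv.oo, X.e_o hM]
  have e2 : prodE (X.e M) ![a, (X.dat Λ mm s M hM).o, (X.dat Λ mm s M hM).o] x =
      X.e M a (x 0) * X.T.φ (x 1) * X.T.φ (x 2) := by
    rw [prodE, Fin.prod_univ_three]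
    simp only [Matrix.cons_val_zero, Matrix.cons_val_one, Matrix.cons_val_two, Matrix.head_cons,
      Matrix.tail_cons, X.e_o hM]
  simp only [e1, e2]
  ring

theorem DUniv_l1b' (hM : X.T.μ ≤ M) (hs : 0 < s) {M₀ : ℝ} (hc : X.Cond M₀) (ζ c : X.I M → ℝ) :
    (∑ a, ∑ d, ζ a * c d * (X.dat Λ mm s M hM).F3 ![a, d, (X.dat Λ mm s M hM).o]
        ((X.dat Λ mm s M hM).oo 3)) ^ 2 ≤
      (X.K * M₀ ^ 4) ^ 2 / s ^ 8 * (∑ a, ζ a ^ 2) * ∑ d, c d ^ 2 := by
  have hm := X.T.meas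
  have hb := hc.bf.bdd
  have h0 : 0 ≤ M₀ := zero_le_one.trans hc.one_le
  have hTm : Measurable fun x : Fin 3 → R3 =>
      X.T.φ (x 0) * X.T.φ (x 1) * X.T.φ (x 2) * X.T.φ (x 2) :=
    (((hm.comp (measurable_pi_apply 0)).mul (hm.comp (measurable_pi_apply 1))).mul
      (hm.comp (measurable_pi_apply 2))).mul (hm.comp (measurable_pi_apply 2))
  have hT : ∀ x : Fin 3 → R3,
      |X.T.φ (x 0) * X.T.φ (x 1) * X.T.φ (x 2) * X.T.φ (x 2)| ≤ M₀ ^ 4 := by
    intro x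
    rw [abs_mul, abs_mul, abs_mul]
    calc _ ≤ M₀ * M₀ * M₀ * M₀ := by
          gcongr
          · exact hb _
          · exact hb _
          · exact hb _
          · exact hb _
      _ = M₀ ^ 4 := by ring
  refine le_of_eq_of_le ?_ (X.DUniv_two hs hTm hT 0 1 ζ c)
  congr 1
  refine Finset.sum_congr rfl fun a _ => Finset.sum_congr rfl fun d _ => ?_
  rw [X.F3_eq, coef]
  congr 1
  refine integral_congr_ae (Eventually.of_forall fun x => ?_)
  have e1 : prodE (X.e M) ((X.dat Λ mm s M hM).oo 3) x =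
      X.T.φ (x 0) * X.T.φ (x 1) * X.T.φ (x 2) := by
    rw [prodE, Fin.prod_univ_three]
    simp only [Lv.oo, X.e_o hM]
  have e2 : prodE (X.e M) ![a, d, (X.dat Λ mm s M hM).o] x =
      X.e M a (x 0) * X.e M d (x 1) * X.T.φ (x 2) := by
    rw [prodE, Fin.prod_univ_three]
    simp only [Matrix.cons_val_zero, Matrix.cons_val_one, Matrix.cons_val_two, Matrix.head_cons,
      Matrix.tail_cons, X.e_o hM]
  simp only [e1, e2]
  ring

theorem DUniv_src (hs : 0 < s) {M₀ : ℝ} (hc : X.Cond M₀) : ∃ Φ,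
    Src s (red (fun x => X.F3N s x * X.ph 3 x) X.T.φ) Φ (X.K * M₀ ^ 4 / s) 1 := by
  have h0 : 0 < M₀ := one_pos.trans_le hc.one_le
  have hK := X.K_ge
  have h1 := src_tens (q := 2) (A := s ^ 2) (s := s) (M := M₀) (ϱ := 1)
    (u := fun _ => X.T.φ) X.hK.n3.meas X.hK.m3 (by linarith) (by positivity) hs
    (fun _ => X.T.meas) h0 (fun _ y => hc.bf.bdd y) zero_le_one (by simpa using hc.l1.l2)
  have h2 := h1.red hs X.T.meas hc.bf.bdd
  have e : M₀ * (M₀ ^ (2 + 1) * (s ^ 2 * X.K) / s ^ 3) = X.K * M₀ ^ 4 / s := by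
    field_simp
  rw [e] at h2
  exact ⟨_, h2⟩

theorem exists_C0 : ∃ C₀ : ℝ, 1 ≤ C₀ ∧ |X.eC| ≤ C₀ ∧ ∀ (Λ mm s M : ℝ) (hM : X.T.μ ≤ M),
    X.Par Λ mm → 1 ≤ s → (X.dat Λ mm s M hM).Univ s Λ C₀ := by
  obtain ⟨M₀, hc⟩ := X.exists_cond
  obtain ⟨cS, hcS, hS⟩ := src_bounds
  have hK := X.K_ge
  have h1 : 1 ≤ X.K * M₀ ^ 4 := one_le_mul_of_one_le_of_one_le hK (one_le_pow₀ hc.one_le)
  obtain ⟨A, hA⟩ : ∃ A, A = X.K * M₀ ^ 4 := ⟨_, rfl⟩
  have he := abs_nonneg X.eC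
  have h2 : A ≤ 2 * cS * A + |X.eC| := by nlinarith
  have h3 : A ^ 2 ≤ (2 * cS * A + |X.eC|) ^ 2 := pow_le_pow_left₀ (by linarith) h2 2
  have h4 : cS * 2 ^ 2 * A ^ 2 ≤ (2 * cS * A + |X.eC|) ^ 2 := by
    have h5 : (2 * cS * A) ^ 2 ≤ (2 * cS * A + |X.eC|) ^ 2 :=
      pow_le_pow_left₀ (by nlinarith) (by linarith) 2
    have h6 : cS * (2 ^ 2 * A ^ 2) ≤ cS ^ 2 * (2 ^ 2 * A ^ 2) :=
      mul_le_mul_of_nonneg_right (by nlinarith) (by positivity)
    nlinarith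
  refine ⟨2 * cS * A + |X.eC|, by linarith, by nlinarith, fun Λ mm s M hM hP hs => ?_⟩
  have hs0 : 0 < s := one_pos.trans_le hs
  have hsq : ∀ c : X.I M → ℝ, 0 ≤ ∑ a, c a ^ 2 := fun c =>
    Finset.sum_nonneg fun a _ => sq_nonneg _
  refine ⟨fun ζ h => (X.DUniv_w hM hc ζ h).trans ?_, ?_,
    fun t ζ c => (X.DUniv_l1b hM hs0 hc t ζ c).trans ?_,
    fun ζ c => (X.DUniv_l1b' hM hs0 hc ζ c).trans ?_⟩
  · rw [← hA]
    have := hsq ζ
    have := hsq h
    gcongr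
  · obtain ⟨Φ, hΦ⟩ := X.DUniv_src hs0 hc
    have h5 := (hS (X.dat Λ mm s M hM).toLv (X.fr M).toFrame 1 2 Λ s _ _ _ Φ le_rfl (by norm_num)
      (by norm_num) hP.one_le hs (fun a ha => X.hi hP hM a ha) hΦ).1
    have h6 : cS * 2 ^ 2 * (X.K * M₀ ^ 4 / s) ^ 2 ≤ (2 * cS * A + |X.eC|) ^ 2 / s ^ 2 := by
      rw [← hA, div_pow, ← mul_div_assoc]
      gcongr
    have h7 : X.e M ((X.dat Λ mm s M hM).oo 1 0) = X.T.φ := X.e_o hM
    rw [mul_one] at h5
    rw [X.FB_eq, X.prodE_oo, h7]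
    exact h5.mono hs0 (one_pos.trans_le hP.one_le) (fun a _ => X.lam_nonneg hM a) h6 h6
  · rw [← hA]
    have := hsq ζ
    have := hsq c
    gcongr
  · rw [← hA]
    have := hsq ζ
    have := hsq c
    gcongr

end TS

end Pool.Agent.Lib.MP_8fe63c_mp
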