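import Pool.Agent.Lib.MP_8fe63c_mp.DV1

/-!
The four-body correlation of the trial state.

Sketch. For a high mode `δ`, `G4 (snoc β δ) = - Ω4 (snoc β δ) + Ω4l (snoc β δ)` and the same for `G3 ![a, b, δ]`, where
`Ωl` is the part outside the high modes. (i) `∑ δ ‖∑ β Ω4l • υ β‖^2` by `h0`, and the three sums with `Ω3l` by `h1`
and the symmetry of `υ` (`υ_symm` of `base`, or directly), with the last part of `cmp_low`.
(ii) Galerkin errors: `∑ β Ω4 (snoc β δ) • υ β = sqU (hat (coef (red T4 (e δ))))` (`coef_snoc`), and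
`∑ δ ∫ (hat (coef (red T (e δ))) - red T (e δ))^2 ≤ ∫ T^2 - ∑ (coef T)^2 → 0` (`ON.dist_eq`, `bessel_red`,
`EB.parseval`). For `Ω3` use the four-point function `T3 (om j x) φ (x j)`, `j = 0, 1, 2` (`k3` is symmetric),
whose coefficients at `snoc β δ` vanish unless `β j = o`. (iii) The rest is `sqU (red R (e δ))` with
`R = (- k4 - ∑ j ≠ 3, k3 (om j x) - yN) ph 4 = (-(k4 + gN) + ∑ j ≠ 3, (ωN - k3) (om j x)) ph 4`; by `bessel_red` the
sum is at most `∫ UN (om 3 x) R x^2`; one factor is `≤ C/s^2` (`k_diff`), the integral of the other over the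
point `3` is `≤ C/s^3` (`Mac.mg`, `g_mg`, `ω_mg`, `marg_scale`), and `int_UN_ph`.
-/

set_option linter.unusedSectionVars false

open MeasureTheory Set Filter Topology
open scoped ENNReal InnerProductSpace

namespace Pool.Agent.Lib.MP_8fe63c_mp

section Gen

variable {I : Type} [Fintype I] [DecidableEq I]

theorem DV2_sum3 {A : Type} [AddCommMonoid A] (g : (Fin 3 → I) → A) :
    ∑ x, g x = ∑ a, ∑ b, ∑ c, g ![a, b, c] := by
  let e : I × I × I ≃ (Fin 3 → I) :=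
    ⟨fun p => ![p.1, p.2.1, p.2.2], fun x => (x 0, x 1, x 2), fun p => rfl, fun x => by
      funext j
      fin_cases j <;> rfl⟩
  rw [← e.sum_comp, Fintype.sum_prod_type]
  refine Finset.sum_congr rfl fun a _ => ?_
  rw [Fintype.sum_prod_type]
  rfl

theorem DV2_sum_snoc {A : Type} [AddCommMonoid A] {p : ℕ} (g : (Fin (p + 1) → I) → A) :
    ∑ x, g x = ∑ δ, ∑ β : Fin p → I, g (Fin.snoc β δ) := by
  rw [← Fintype.sum_prod_type']
  exact (Fintype.sum_equiv (Fin.snocEquiv fun _ => I) _ _ fun _ => rfl).symm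

theorem DV2_six {E : Type} [NormedAddCommGroup E] (a b c d e f : E) :
    ‖a + b + c + d - e - f‖ ^ 2 ≤
      6 * (‖a‖ ^ 2 + ‖b‖ ^ 2 + ‖c‖ ^ 2 + ‖d‖ ^ 2 + ‖e‖ ^ 2 + ‖f‖ ^ 2) := by
  have h : ‖a + b + c + d - e - f‖ ≤ ‖a‖ + ‖b‖ + ‖c‖ + ‖d‖ + ‖e‖ + ‖f‖ := by
    have h1 := norm_sub_le (a + b + c + d - e) f
    have h2 := norm_sub_le (a + b + c + d) e
    have h3 := norm_add_le (a + b + c) d
    have h4 := norm_add_le (a + b) c
    have h5 := norm_add_le a b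
    linarith
  refine (pow_le_pow_left₀ (norm_nonneg _) h 2).trans ?_
  generalize ‖a‖ = A
  generalize ‖b‖ = B
  generalize ‖c‖ = C
  generalize ‖d‖ = D
  generalize ‖e‖ = E'
  generalize ‖f‖ = F
  nlinarith [sq_nonneg (A - B), sq_nonneg (A - C), sq_nonneg (A - D), sq_nonneg (A - E'),
    sq_nonneg (A - F), sq_nonneg (B - C), sq_nonneg (B - D), sq_nonneg (B - E'), sq_nonneg (B - F),
    sq_nonneg (C - D), sq_nonneg (C - E'), sq_nonneg (C - F), sq_nonneg (D - E'), sq_nonneg (D - F),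
    sq_nonneg (E' - F)]

theorem DV2_coef_om (e : I → R3 → ℝ) (j : Fin 4) (F : (Fin 3 → R3) → ℝ) (u : R3 → ℝ)
    (α : Fin 4 → I) : coef e (fun x => F (om j x) * u (x j)) α =
      (∫ y, u y * e (α j) y) * coef e F fun i => α (j.succAbove i) := by
  have h := volume_preserving_piFinSuccAbove (fun _ : Fin 4 => R3) j
  have h1 := h.integral_comp' fun p : R3 × (Fin 3 → R3) =>
    (u p.1 * e (α j) p.1) * (F p.2 * prodE e (fun i => α (j.succAbove i)) p.2)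
  rw [Measure.volume_eq_prod, integral_prod_mul (fun y => u y * e (α j) y)
    (fun z => F z * prodE e (fun i => α (j.succAbove i)) z)] at h1
  unfold coef
  rw [← h1]
  refine integral_congr_ae (Eventually.of_forall fun x => ?_)
  simp only [prodE]
  rw [Fin.prod_univ_succAbove _ j]
  change F (om j x) * u (x j) * (e (α j) (x j) * ∏ i, e (α (j.succAbove i)) (x (j.succAbove i))) =
    u (x j) * e (α j) (x j) * (F (om j x) * ∏ i, e (α (j.succAbove i)) (x (j.succAbove i)))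
  ring

theorem DV2_coef_add (fr : Frame I) {κ : Type} [Fintype κ] [DecidableEq κ]
    {F F' : (κ → R3) → ℝ} (hF : MemLp F 2 volume) (hF' : MemLp F' 2 volume) (α : κ → I) :
    coef fr.e (fun x => F x + F' x) α = coef fr.e F α + coef fr.e F' α := by
  have := coef_lin fr hF hF' 1 1 α
  simpa only [one_mul] using this

theorem DV2_om3 (x : Fin 3 → R3) (y : R3) : om 3 (Fin.snoc x y : Fin 4 → R3) = x := by
  funext i
  fin_cases i <;> rfl

theorem DV2_meas_om (j : Fin 4) : Measurable (om j) :=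
  measurable_pi_lambda _ fun _ => measurable_pi_apply _

theorem DV2_red_add {p : ℕ} {F G : (Fin (p + 1) → R3) → ℝ} (hF : Measurable F)
    (hF2 : MemLp F 2 volume) (hG : Measurable G) (hG2 : MemLp G 2 volume) {a : R3 → ℝ}
    (ha : MemLp a 2 volume) :
    (fun x => red F a x + red G a x) =ᵐ[volume] red (fun x => F x + G x) a := by
  filter_upwards [(PPar_slice hF hF2).1, (PPar_slice hG hG2).1] with x h1 h2
  unfold red
  have h3 := integral_add (h1.integrable_mul ha) (h2.integrable_mul ha)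
  simp only [Pi.mul_apply] at h3
  rw [← h3]
  refine integral_congr_ae (Eventually.of_forall fun y => ?_)
  simp only
  ring

/-- the Galerkin error after integrating the last point -/
theorem DV2_gal (fr : Frame I) (h : ON univ fr.e) {p : ℕ} {T : (Fin (p + 1) → R3) → ℝ}
    (hm : Measurable T) (hT : MemLp T 2 volume) :
    ∑ δ, ∫ x, (hat fr.e (coef fr.e (red T (fr.e δ))) x - red T (fr.e δ) x) ^ 2 ≤
      (∫ x, T x ^ 2) - ∑ α, coef fr.e T α ^ 2 := by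
  have h1 : ∀ δ, ∫ x, (hat fr.e (coef fr.e (red T (fr.e δ))) x - red T (fr.e δ) x) ^ 2 =
      (∫ x, red T (fr.e δ) x ^ 2) - ∑ β : Fin p → I, coef fr.e T (Fin.snoc β δ) ^ 2 := by
    intro δ
    have h2 : MemLp (red T (fr.e δ)) 2 (muP univ (Fin p)) := by
      rw [muP_univ]
      exact memLp_red hm hT (fr.meas δ) (fr.memLp δ)
    have h3 := h.dist_eq h2
    rw [muP_univ, coefO_univ] at h3
    rw [h3]
    simp only [coef_snoc fr hT]
  simp only [h1]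
  rw [Finset.sum_sub_distrib, ← DV2_sum_snoc fun α => coef fr.e T α ^ 2]
  linarith [bessel_red fr hm hT]

/-- the weighted Bessel inequality in the last leg -/
theorem DV2_bes (fr : Frame I) {UN : (Fin 3 → R3) → ℝ} (hU : Wt3 UN) {R : (Fin 4 → R3) → ℝ}
    (hm : Measurable R) (hR : MemLp R 2 volume) :
    ∑ δ, ∫ x, UN x * red R (fr.e δ) x ^ 2 ≤ ∫ x, UN (om 3 x) * R x ^ 2 := by
  obtain ⟨K, hK⟩ := hU.bdd
  have m1 : Measurable fun x : Fin 4 → R3 => √(UN (om 3 x)) :=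
    (hU.meas.comp (DV2_meas_om 3)).sqrt
  have h1 := bessel_red fr (G := fun x => √(UN (om 3 x)) * R x) (m1.mul hm)
    (PPar_memLp_mul hR m1 (M := √K) fun x => by
      rw [abs_of_nonneg (Real.sqrt_nonneg _)]
      exact Real.sqrt_le_sqrt (hK _))
  have h2 : ∀ δ x, red (fun x => √(UN (om 3 x)) * R x) (fr.e δ) x ^ 2 =
      UN x * red R (fr.e δ) x ^ 2 := by
    intro δ x
    unfold red
    simp only [DV2_om3, mul_assoc]
    rw [integral_const_mul, mul_pow, Real.sq_sqrt (hU.nonneg x)]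
  simp only [h2, mul_pow, Real.sq_sqrt (hU.nonneg _)] at h1
  exact h1

/-- one factor is small, the other has a small integral over the last point -/
theorem DV2_int {w : (Fin 3 → R3) → ℝ} {ρ : (Fin 4 → R3) → ℝ} {F : (Fin 4 → R3) → ℝ}
    {A B : ℝ} (hw : Measurable w) (hw0 : ∀ x, 0 ≤ w x) (hwi : Integrable w) (hρ : Measurable ρ)
    (hA : 0 ≤ A) (hB : 0 ≤ B) (h0 : ∀ x, 0 ≤ F x) (hF : ∀ x, F x ≤ A * (w (om 3 x) * |ρ x|))
    (hmg : MargLe {3} (eabs ρ) B) : ∫ x, F x ≤ A * B * ∫ x, w x := by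
  have hI : 0 ≤ ∫ x, w x := integral_nonneg hw0
  have m1 : Measurable fun x : Fin 4 → R3 => ENNReal.ofReal (w (om 3 x)) * eabs ρ x :=
    (hw.comp (DV2_meas_om 3)).ennreal_ofReal.mul (RLoc_meas_eabs hρ)
  have h1 : ∫⁻ x, ENNReal.ofReal (w (om 3 x)) * eabs ρ x ≤ ENNReal.ofReal (B * ∫ x, w x) := by
    rw [lintegral_snoc m1, ENNReal.ofReal_mul hB,
      ofReal_integral_eq_lintegral_ofReal hwi (Eventually.of_forall hw0),
      ← lintegral_const_mul _ hw.ennreal_ofReal]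
    refine lintegral_mono fun x => ?_
    simp only [DV2_om3]
    rw [lintegral_const_mul' _ _ ENNReal.ofReal_ne_top, mul_comm]
    refine mul_le_mul_left ?_ _
    have h2 := hmg (Fin.snoc x 0)
    rw [marg_single] at h2
    refine le_trans (le_of_eq ?_) h2
    refine lintegral_congr fun y => ?_
    rw [show (3 : Fin 4) = Fin.last 3 from rfl, Fin.update_snoc_last]
  have h3 : ∫⁻ x, ENNReal.ofReal (F x) ≤ ENNReal.ofReal (A * B * ∫ x, w x) := by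
    rw [mul_assoc, ENNReal.ofReal_mul hA]
    refine le_trans ?_ (mul_le_mul_right h1 _)
    rw [← lintegral_const_mul _ m1]
    refine lintegral_mono fun x => ?_
    rw [eabs, ← ENNReal.ofReal_mul (hw0 _), ← ENNReal.ofReal_mul hA]
    exact ENNReal.ofReal_le_ofReal (hF x)
  by_cases hi : Integrable F
  · rw [← ofReal_integral_eq_lintegral_ofReal hi (Eventually.of_forall h0)] at h3
    exact (ENNReal.ofReal_le_ofReal_iff (by positivity)).mp h3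
  · rw [integral_undef hi]
    positivity

theorem DV2_marg_om {F : (Fin 3 → R3) → ℝ≥0∞} {c : ℝ} (h : MargLe {2} F c) {j : Fin 4}
    (hj : j ≠ 3) : MargLe {3} (fun x => F (om j x)) c := by
  intro x
  have h2 := h (om j x)
  rw [marg_single] at h2 ⊢
  refine le_trans (le_of_eq ?_) h2
  refine lintegral_congr fun y => ?_
  congr 1
  funext i
  fin_cases j
  · fin_cases i <;> rfl
  · fin_cases i <;> rfl
  · fin_cases i <;> rfl
  · exact absurd rfl hj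

theorem DV2_marg_add {ι : Type} [Fintype ι] [DecidableEq ι] {F G : (ι → R3) → ℝ} {A : Finset ι}
    {a b : ℝ} (hF : Measurable F) (ha : 0 ≤ a) (hb : 0 ≤ b) (h1 : MargLe A (eabs F) a)
    (h2 : MargLe A (eabs G) b) : MargLe A (eabs fun x => F x + G x) (a + b) := by
  intro x
  rw [ENNReal.ofReal_add ha hb]
  refine le_trans (marg_mono A (Ψ := fun y => eabs F y + eabs G y) (fun y => ?_) x) ?_
  · simp only [eabs]
    rw [← ENNReal.ofReal_add (abs_nonneg _) (abs_nonneg _)]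
    exact ENNReal.ofReal_le_ofReal (abs_add_le _ _)
  · rw [marg_add A (RLoc_meas_eabs hF)]
    exact add_le_add (h1 x) (h2 x)

/-- the final bookkeeping -/
theorem DV2_alg {E : Type} [NormedAddCommGroup E] [InnerProductSpace ℝ E] (D : Dat I E)
    {s CH CL CR C : ℝ} (hs1 : 1 ≤ s) (hCH : 0 ≤ CH) (hCL : 0 ≤ CL) (hD : D.Hardy s CH)
    {l3 Ω3 : (Fin 3 → I) → ℝ} {l4 Ω4 : (Fin 4 → I) → ℝ} {P Q : I → E}
    (g3 : ∀ α, D.G3 α = l3 α - Ω3 α) (g4 : ∀ α, D.G4 α = l4 α - Ω4 α)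
    (L3 : ∑ α, (D.lam (α 0) + 1) * l3 α ^ 2 ≤ CL / s ^ 6)
    (L4 : ∑ α, (D.lam (α 0) + 1) * l4 α ^ 2 ≤ CL / s ^ 9)
    (pm : ∀ c : I → I → ℝ,
      ‖∑ a, ∑ b, c a b • D.υ ![a, D.o, b]‖ ^ 2 = ‖∑ a, ∑ b, c a b • D.υ ![a, b, D.o]‖ ^ 2 ∧
      ‖∑ a, ∑ b, c a b • D.υ ![D.o, a, b]‖ ^ 2 = ‖∑ a, ∑ b, c a b • D.υ ![a, b, D.o]‖ ^ 2)
    (sp : ∀ δ, (∑ β, Ω4 (Fin.snoc β δ) • D.υ β) +
      (∑ a, ∑ b, Ω3 ![a, b, δ] • (D.υ ![a, b, D.o] + D.υ ![a, D.o, b] + D.υ ![D.o, a, b])) +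
      D.y4 δ = P δ + Q δ)
    (bG : ∑ δ, ‖P δ‖ ^ 2 ≤ 1 / s ^ 8) (bR : ∑ δ, ‖Q δ‖ ^ 2 ≤ CR / s ^ 8)
    (hC : 6 * (4 * (CH * CL) + 1 + CR) ≤ C) : D.TrialV2 s C := by
  have hs0 : 0 < s := by linarith
  have b4 : ∑ δ, ‖∑ β, l4 (Fin.snoc β δ) • D.υ β‖ ^ 2 ≤ CH * CL / s ^ 8 := by
    refine (Finset.sum_le_sum fun δ _ => hD.h0 _).trans ?_
    rw [← Finset.mul_sum, mul_div_assoc]
    refine mul_le_mul_of_nonneg_left ?_ hCH
    rw [DV2_sum_snoc] at L4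
    exact L4.trans (div_le_div_of_nonneg_left hCL (by positivity)
      (pow_le_pow_right₀ hs1 (by norm_num)))
  have b3 : ∑ δ, ‖∑ a, ∑ b, l3 ![a, b, δ] • D.υ ![a, b, D.o]‖ ^ 2 ≤ CH * CL / s ^ 8 := by
    refine (Finset.sum_le_sum fun δ _ => hD.h1 _).trans ?_
    rw [← Finset.mul_sum]
    rw [DV2_sum3] at L3
    have e1 : ∑ δ, ∑ a, ∑ b, (D.lam a + 1) * l3 ![a, b, δ] ^ 2 =
        ∑ a, ∑ b, ∑ δ, (D.lam a + 1) * l3 ![a, b, δ] ^ 2 := by
      rw [Finset.sum_comm]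
      exact Finset.sum_congr rfl fun a _ => Finset.sum_comm
    rw [e1]
    refine (mul_le_mul_of_nonneg_left L3 (by positivity)).trans ?_
    rw [div_mul_div_comm, ← pow_add]
    exact div_le_div_of_nonneg_left (by positivity) (by positivity)
      (pow_le_pow_right₀ hs1 (by norm_num))
  unfold Dat.TrialV2
  refine (Finset.sum_le_univ_sum_of_nonneg fun δ => sq_nonneg _).trans ?_
  refine (Finset.sum_le_sum fun δ _ => (le_of_eq ?_).trans
    (DV2_six (∑ β, l4 (Fin.snoc β δ) • D.υ β) (∑ a, ∑ b, l3 ![a, b, δ] • D.υ ![a, b, D.o])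
      (∑ a, ∑ b, l3 ![a, b, δ] • D.υ ![a, D.o, b]) (∑ a, ∑ b, l3 ![a, b, δ] • D.υ ![D.o, a, b])
      (P δ) (Q δ))).trans ?_
  · rw [sub_sub _ (P δ), ← sp δ]
    simp only [g3, g4, sub_smul, smul_add, Finset.sum_sub_distrib, Finset.sum_add_distrib]
    congr 2
    abel
  · simp only [(pm _).1, (pm _).2]
    rw [← Finset.mul_sum]
    simp only [Finset.sum_add_distrib]
    have e1 : 6 * (4 * (CH * CL / s ^ 8) + 1 / s ^ 8 + CR / s ^ 8) ≤ C / s ^ 8 := by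
      refine le_trans (le_of_eq ?_) (div_le_div_of_nonneg_right hC (by positivity))
      ring
    linarith

end Gen

namespace TS

variable (X : TS) {Λ mm s M : ℝ}

/-- the four-point factor of the trial kernels -/
noncomputable def DV2_k (mm s : ℝ) (x : Fin 4 → R3) : ℝ :=
  X.k4 mm s x + X.k3 mm s (om 0 x) + X.k3 mm s (om 1 x) + X.k3 mm s (om 2 x)

noncomputable def DV2_T (mm s : ℝ) (x : Fin 4 → R3) : ℝ := X.DV2_k mm s x * X.ph 4 x

theorem DV2_ph (j : Fin 4) (x : Fin 4 → R3) : X.ph 4 x = X.ph 3 (om j x) * X.T.φ (x j) := by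
  simp only [ph, tens]
  rw [Fin.prod_univ_succAbove _ j, mul_comm]
  rfl

theorem DV2_kb (h1 : 1 ≤ mm) (h2 : mm ≤ s) :
    (Measurable (X.k3 mm s) ∧ ∃ M : ℝ, ∀ x, |X.k3 mm s x| ≤ M) ∧
      Measurable (X.k4 mm s) ∧ ∃ M : ℝ, ∀ x, |X.k4 mm s x| ≤ M := by
  obtain ⟨C, -, hC⟩ := X.cmp
  exact ⟨RCmp_kb (hC mm s h1 h2).2.1.gd, RCmp_kb (hC mm s h1 h2).2.2.gd⟩

theorem DV2_meas_k (h1 : 1 ≤ mm) (h2 : mm ≤ s) : Measurable (X.DV2_k mm s) := by
  obtain ⟨⟨m3, -⟩, m4, -⟩ := X.DV2_kb h1 h2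
  exact ((m4.add (m3.comp (DV2_meas_om 0))).add (m3.comp (DV2_meas_om 1))).add
    (m3.comp (DV2_meas_om 2))

theorem DV2_meas_T (h1 : 1 ≤ mm) (h2 : mm ≤ s) : Measurable (X.DV2_T mm s) :=
  (X.DV2_meas_k h1 h2).mul (X.meas_ph 4)

theorem DV2_memLp_om (h1 : 1 ≤ mm) (h2 : mm ≤ s) (j : Fin 4) :
    MemLp (fun x => X.T3 mm s (om j x) * X.T.φ (x j)) 2 volume := by
  obtain ⟨⟨m3, K, hK⟩, -⟩ := X.DV2_kb h1 h2
  have := PPar_memLp_mul (X.memLp_ph 4) (m3.comp (DV2_meas_om j)) (M := K) fun x => hK _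
  refine (memLp_congr_ae (Eventually.of_forall fun x => ?_)).mp this
  simp only [T3, Function.comp_apply, X.DV2_ph j x, mul_assoc]

theorem DV2_T_eq (mm s : ℝ) : X.DV2_T mm s = fun x => X.T4 mm s x +
    X.T3 mm s (om 0 x) * X.T.φ (x 0) + X.T3 mm s (om 1 x) * X.T.φ (x 1) +
      X.T3 mm s (om 2 x) * X.T.φ (x 2) := by
  funext x
  simp only [DV2_T, DV2_k, T3, T4, mul_assoc, ← X.DV2_ph]
  ring

theorem DV2_memLp_T (h1 : 1 ≤ mm) (h2 : mm ≤ s) : MemLp (X.DV2_T mm s) 2 volume := by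
  rw [X.DV2_T_eq]
  exact (((X.memLp_T h1 h2).2.2.2.add (X.DV2_memLp_om h1 h2 0)).add
    (X.DV2_memLp_om h1 h2 1)).add (X.DV2_memLp_om h1 h2 2)

theorem DV2_ip (hM : X.T.μ ≤ M) (a : X.I M) :
    ∫ y, X.T.φ y * X.e M a y = if (X.dat Λ mm s M hM).o = a then 1 else 0 := by
  have := PVs_ip (X.on M) (X.dat Λ mm s M hM).o a
  rwa [Measure.restrict_univ, X.e_o hM] at this

theorem DV2_coef (h1 : 1 ≤ mm) (h2 : mm ≤ s) (hM : X.T.μ ≤ M) (a b c δ : X.I M) :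
    coef (X.e M) (X.DV2_T mm s) (Fin.snoc ![a, b, c] δ) =
      coef (X.e M) (X.T4 mm s) (Fin.snoc ![a, b, c] δ) +
      (if (X.dat Λ mm s M hM).o = a then 1 else 0) * coef (X.e M) (X.T3 mm s) ![b, c, δ] +
      (if (X.dat Λ mm s M hM).o = b then 1 else 0) * coef (X.e M) (X.T3 mm s) ![a, c, δ] +
      (if (X.dat Λ mm s M hM).o = c then 1 else 0) * coef (X.e M) (X.T3 mm s) ![a, b, δ] := by
  have l4 := (X.memLp_T h1 h2).2.2.2
  have l0 := X.DV2_memLp_om h1 h2 0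
  have l1 := X.DV2_memLp_om h1 h2 1
  have l2 := X.DV2_memLp_om h1 h2 2
  have e1 := DV2_coef_add (X.fr M).toFrame ((l4.add l0).add l1) l2 (Fin.snoc ![a, b, c] δ)
  have e2 := DV2_coef_add (X.fr M).toFrame (l4.add l0) l1 (Fin.snoc ![a, b, c] δ)
  have e3 := DV2_coef_add (X.fr M).toFrame l4 l0 (Fin.snoc ![a, b, c] δ)
  have f0 := DV2_coef_om (X.e M) 0 (X.T3 mm s) X.T.φ (Fin.snoc ![a, b, c] δ)
  have f1 := DV2_coef_om (X.e M) 1 (X.T3 mm s) X.T.φ (Fin.snoc ![a, b, c] δ)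
  have f2 := DV2_coef_om (X.e M) 2 (X.T3 mm s) X.T.φ (Fin.snoc ![a, b, c] δ)
  rw [X.DV2_ip (Λ := Λ) (mm := mm) (s := s) hM] at f0 f1 f2
  have g0 : (fun i => (Fin.snoc ![a, b, c] δ : Fin 4 → X.I M) ((0 : Fin 4).succAbove i)) =
      ![b, c, δ] := by
    funext i
    fin_cases i <;> rfl
  have g1 : (fun i => (Fin.snoc ![a, b, c] δ : Fin 4 → X.I M) ((1 : Fin 4).succAbove i)) =
      ![a, c, δ] := by
    funext i
    fin_cases i <;> rfl
  have g2 : (fun i => (Fin.snoc ![a, b, c] δ : Fin 4 → X.I M) ((2 : Fin 4).succAbove i)) =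
      ![a, b, δ] := by
    funext i
    fin_cases i <;> rfl
  rw [g0] at f0
  rw [g1] at f1
  rw [g2] at f2
  rw [X.DV2_T_eq]
  exact e1.trans (congrArg₂ _ (e2.trans (congrArg₂ _ (e3.trans (congrArg₂ _ rfl f0)) f1)) f2)

theorem DV2_sum (h1 : 1 ≤ mm) (h2 : mm ≤ s) (hM : X.T.μ ≤ M) (δ : X.I M) :
    ∑ β, coef (X.e M) (X.DV2_T mm s) (Fin.snoc β δ) • (X.dat Λ mm s M hM).υ β =
      (∑ β, coef (X.e M) (X.T4 mm s) (Fin.snoc β δ) • (X.dat Λ mm s M hM).υ β) +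
      ∑ a, ∑ b, coef (X.e M) (X.T3 mm s) ![a, b, δ] •
        ((X.dat Λ mm s M hM).υ ![a, b, (X.dat Λ mm s M hM).o] +
          (X.dat Λ mm s M hM).υ ![a, (X.dat Λ mm s M hM).o, b] +
          (X.dat Λ mm s M hM).υ ![(X.dat Λ mm s M hM).o, a, b]) := by
  rw [DV2_sum3, DV2_sum3]
  simp only [X.DV2_coef (Λ := Λ) h1 h2 hM, add_smul, smul_add, Finset.sum_add_distrib, ite_mul,
    one_mul, zero_mul, ite_smul, zero_smul, Finset.sum_ite_eq, Finset.mem_univ, if_true,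
    Finset.sum_ite_irrel, Finset.sum_const_zero]
  abel

theorem DV2_perm (hM : X.T.μ ≤ M) {A : Type} [Fintype A] (c : A → ℝ) (α : A → Fin 3 → X.I M)
    (π : Equiv.Perm (Fin 3)) :
    ‖∑ i, c i • (X.dat Λ mm s M hM).υ (α i ∘ π)‖ ^ 2 =
      ‖∑ i, c i • (X.dat Λ mm s M hM).υ (α i)‖ ^ 2 := by
  have l : ∀ β : Fin 3 → X.I M, MemLp (prodE (X.e M) β) 2 (muP univ (Fin 3)) := fun β =>
    memLp_prodE (X.on M).l2 β
  have key : ∀ β : A → Fin 3 → X.I M, ‖∑ i, c i • (X.dat Λ mm s M hM).υ (β i)‖ ^ 2 =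
      ∫ x, X.UN s x * (∑ i, c i * prodE (X.e M) (β i) x) ^ 2 := by
    intro β
    have e1 := sqU_sum (X.wt s) Finset.univ (fun i _ => l (β i)) c
    have e2 : MemLp (fun x => ∑ i, c i * prodE (X.e M) (β i) x) 2 (muP univ (Fin 3)) :=
      memLp_finsetSum _ fun i _ => (l (β i)).const_mul _
    rw [muP_univ] at e2
    have e3 := X.norm_sqU s e2
    rw [← e1] at e3
    exact e3
  rw [key, key, ← integral_comp_perm π]
  refine integral_congr_ae (Eventually.of_forall fun x => ?_)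
  have e1 : X.UN s (x ∘ π) = X.UN s x := congrArg (s ^ 2 * ·) (X.pot3.symm π (s • x))
  have e2 : ∀ i, prodE (X.e M) (α i ∘ π) (x ∘ π) = prodE (X.e M) (α i) x := fun i =>
    Equiv.prod_comp π fun j => X.e M (α i j) (x j)
  simp only [e1, e2]

theorem DV2_perm2 (hM : X.T.μ ≤ M) (c : X.I M → X.I M → ℝ) :
    ‖∑ a, ∑ b, c a b • (X.dat Λ mm s M hM).υ ![a, (X.dat Λ mm s M hM).o, b]‖ ^ 2 =
      ‖∑ a, ∑ b, c a b • (X.dat Λ mm s M hM).υ ![a, b, (X.dat Λ mm s M hM).o]‖ ^ 2 ∧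
    ‖∑ a, ∑ b, c a b • (X.dat Λ mm s M hM).υ ![(X.dat Λ mm s M hM).o, a, b]‖ ^ 2 =
      ‖∑ a, ∑ b, c a b • (X.dat Λ mm s M hM).υ ![a, b, (X.dat Λ mm s M hM).o]‖ ^ 2 := by
  have e1 := X.DV2_perm (Λ := Λ) (mm := mm) (s := s) hM (fun p : X.I M × X.I M => c p.1 p.2)
    (fun p => ![p.1, p.2, (X.dat Λ mm s M hM).o]) (Equiv.swap 1 2)
  have e2 := X.DV2_perm (Λ := Λ) (mm := mm) (s := s) hM (fun p : X.I M × X.I M => c p.1 p.2)
    (fun p => ![p.1, p.2, (X.dat Λ mm s M hM).o]) (Equiv.swap 1 2 * Equiv.swap 0 1)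
  have g1 : ∀ a b d : X.I M, (![a, b, d] ∘ (Equiv.swap 1 2 : Equiv.Perm (Fin 3))) = ![a, d, b] := by
    intro a b d
    funext i
    fin_cases i <;> rfl
  have g2 : ∀ a b d : X.I M,
      (![a, b, d] ∘ (Equiv.swap 1 2 * Equiv.swap 0 1 : Equiv.Perm (Fin 3))) = ![d, a, b] := by
    intro a b d
    funext i
    fin_cases i <;> rfl
  simp only [g1, g2, Fintype.sum_prod_type] at e1 e2
  exact ⟨e1, e2⟩

/-- the remainder of the four-point function -/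
theorem DV2_rest (h1 : 1 ≤ mm) : ∃ C : ℝ, 0 ≤ C ∧ ∀ s : ℝ, mm ≤ s →
    ∫ x, X.UN s (om 3 x) * (X.DV2_T mm s x + X.Y4 s x) ^ 2 ≤ C / s ^ 8 := by
  obtain ⟨C1, hC1, k1⟩ := X.k_diff
  obtain ⟨C2, hC2, k2⟩ := X.mac
  obtain ⟨C3, hC3, k3⟩ := X.int_UN_ph
  have hK := X.K_ge
  have hm0 : 0 ≤ X.T.M := (X.T.φ_nonneg 0).trans (X.T.φ_le 0)
  refine ⟨X.T.M ^ 2 * (4 * (C1 * mm ^ 2)) * (4 * C2 + X.K) * C3, by positivity, fun s hs => ?_⟩
  have hs1 : 1 ≤ s := h1.trans hs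
  have hs0 : 0 < s := by linarith
  obtain ⟨-, d3, d4⟩ := k1 mm s h1 hs
  obtain ⟨-, a3, a4⟩ := k2 mm s h1 hs
  obtain ⟨⟨m3, -⟩, m4, -⟩ := X.DV2_kb h1 hs
  have hc : 0 ≤ C2 / s ^ 3 := by positivity
  have e5 : C2 * s ^ 2 / s ^ (3 * 1 + 2) = C2 / s ^ 3 := by
    field_simp
  have g3 : MargLe {2} (eabs (X.k3 mm s)) (C2 / s ^ 3) := by
    have := a3.mg {2} (by simp)
    rwa [Finset.card_singleton, e5] at this
  have g4 : MargLe {3} (eabs (X.k4 mm s)) (C2 / s ^ 3) := by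
    have := a4.mg {3} (by simp)
    rwa [Finset.card_singleton, e5] at this
  have gy : MargLe {3} (eabs (X.yN s)) (X.K / s ^ 3) := by
    refine HMac_margLe (a := 1) (RLoc_meas_eabs (X.S.meas_y 3)) zero_le_one hs0 X.hK.y_mg
      (fun y => ?_) (le_of_eq ?_)
    · rw [ENNReal.ofReal_one, one_mul]
      exact le_rfl
    · rw [Finset.card_singleton]
      ring
  have o0 : MargLe {3} (eabs fun x => X.k3 mm s (om 0 x)) (C2 / s ^ 3) :=
    DV2_marg_om g3 (by decide)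
  have o1 : MargLe {3} (eabs fun x => X.k3 mm s (om 1 x)) (C2 / s ^ 3) :=
    DV2_marg_om g3 (by decide)
  have o2 : MargLe {3} (eabs fun x => X.k3 mm s (om 2 x)) (C2 / s ^ 3) :=
    DV2_marg_om g3 (by decide)
  have n0 := m4.add (m3.comp (DV2_meas_om 0))
  have n1 := n0.add (m3.comp (DV2_meas_om 1))
  have p0 := DV2_marg_add m4 hc hc g4 o0
  have p1 := DV2_marg_add n0 (by positivity) hc p0 o1
  have p2 := DV2_marg_add n1 (by positivity) hc p1 o2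
  have p3 : MargLe {3} (eabs fun x => X.DV2_k mm s x + X.yN s x)
      (C2 / s ^ 3 + C2 / s ^ 3 + C2 / s ^ 3 + C2 / s ^ 3 + X.K / s ^ 3) :=
    DV2_marg_add (X.DV2_meas_k h1 hs) (by positivity) (by positivity) p2 gy
  have hb : ∀ x, |X.DV2_k mm s x + X.yN s x| ≤ 4 * (C1 * mm ^ 2 / s ^ 2) := by
    intro x
    have e1 : X.DV2_k mm s x + X.yN s x = (X.k4 mm s x + X.S.g (s • x)) +
        (X.k3 mm s (om 0 x) - X.S.ω (s • om 0 x)) + (X.k3 mm s (om 1 x) - X.S.ω (s • om 1 x)) +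
        (X.k3 mm s (om 2 x) - X.S.ω (s • om 2 x)) := by
      have e2 : Finset.univ.erase (3 : Fin 4) = {0, 1, 2} := by decide
      have e3 : ∀ j, om j (s • x) = s • om j x := fun _ => rfl
      simp only [DV2_k, yN, y4o, sig4, e2, e3]
      rw [Finset.sum_insert (by decide), Finset.sum_insert (by decide), Finset.sum_singleton]
      ring
    rw [e1]
    have q0 := abs_le.mp (d4 x)
    have q1 := abs_le.mp (d3 (om 0 x))
    have q2 := abs_le.mp (d3 (om 1 x))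
    have q3 := abs_le.mp (d3 (om 2 x))
    rw [abs_le]
    constructor <;> linarith [q0.1, q0.2, q1.1, q1.2, q2.1, q2.2, q3.1, q3.2]
  have hw := X.wt s
  have hwi : Integrable fun x => X.UN s x * X.ph 3 x ^ 2 := by
    have := PVs_int_mul hw.meas (M := s ^ 2 * X.K)
      (fun x => by rw [abs_of_nonneg (hw.nonneg x)]; exact X.UN_le s x) (X.memLp_ph 3)
      (X.memLp_ph 3)
    simpa only [sq, mul_assoc] using this
  have key := DV2_int (w := fun x => X.UN s x * X.ph 3 x ^ 2)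
    (F := fun x => X.UN s (om 3 x) * (X.DV2_T mm s x + X.Y4 s x) ^ 2)
    (A := X.T.M ^ 2 * (4 * (C1 * mm ^ 2 / s ^ 2))) (hw.meas.mul ((X.meas_ph 3).pow_const 2))
    (fun x => mul_nonneg (hw.nonneg x) (sq_nonneg _)) hwi
    ((X.DV2_meas_k h1 hs).add (X.meas_yN s)) (by positivity) (by positivity)
    (fun x => mul_nonneg (hw.nonneg _) (sq_nonneg _)) (fun x => ?_) p3
  · refine key.trans ?_
    refine (mul_le_mul_of_nonneg_left (k3 s hs0) (by positivity)).trans ?_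
    have e1 : X.T.M ^ 2 * (4 * (C1 * mm ^ 2 / s ^ 2)) *
        (C2 / s ^ 3 + C2 / s ^ 3 + C2 / s ^ 3 + C2 / s ^ 3 + X.K / s ^ 3) * (C3 / s ^ 4) =
        X.T.M ^ 2 * (4 * (C1 * mm ^ 2)) * (4 * C2 + X.K) * C3 / s ^ 9 := by
      field_simp
      ring
    rw [e1]
    exact div_le_div_of_nonneg_left (by positivity) (by positivity)
      (pow_le_pow_right₀ hs1 (by norm_num))
  · have e1 : X.UN s (om 3 x) * (X.DV2_T mm s x + X.Y4 s x) ^ 2 =
        (X.T.φ (x 3) ^ 2 * |X.DV2_k mm s x + X.yN s x|) *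
          (X.UN s (om 3 x) * X.ph 3 (om 3 x) ^ 2 * |X.DV2_k mm s x + X.yN s x|) := by
      have e2 := abs_mul_abs_self (X.DV2_k mm s x + X.yN s x)
      simp only [DV2_T, Y4, X.DV2_ph 3 x]
      linear_combination (-(X.T.φ (x 3) ^ 2 * X.UN s (om 3 x) * X.ph 3 (om 3 x) ^ 2)) * e2
    simp only [Pi.add_apply]
    rw [e1]
    refine mul_le_mul_of_nonneg_right ?_
      (mul_nonneg (mul_nonneg (hw.nonneg _) (sq_nonneg _)) (abs_nonneg _))
    exact mul_le_mul (pow_le_pow_left₀ (X.T.φ_nonneg _) (X.T.φ_le _) 2) (hb x) (abs_nonneg _)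
      (by positivity)

/-- the part of the trial kernels outside the high modes -/
theorem DV2_low (h : X.Par Λ mm) : ∃ C : ℝ, 0 ≤ C ∧ ∀ s : ℝ, mm ≤ s → ∀ (M : ℝ) (hM : X.T.μ ≤ M),
    ∑ α : Fin 3 → X.I M, ((X.dat Λ mm s M hM).lam (α 0) + 1) *
      (if (X.dat Λ mm s M hM).Hi α then 0 else coef (X.e M) (X.T3 mm s) α) ^ 2 ≤ C / s ^ 6 ∧
    ∑ α : Fin 4 → X.I M, ((X.dat Λ mm s M hM).lam (α 0) + 1) *
      (if (X.dat Λ mm s M hM).Hi α then 0 else coef (X.e M) (X.T4 mm s) α) ^ 2 ≤ C / s ^ 9 := by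
  obtain ⟨M₀, h0⟩ := X.exists_cond
  obtain ⟨M₁, hM₁, -, h1⟩ := X.exists_low Λ
  obtain ⟨C, hC, hc⟩ := X.cmp
  obtain ⟨cG, hcG, hG⟩ := cmp_low (mm ^ 2 + M₀ + M₁)
  have h00 := h0.one_le
  have hmm := sq_nonneg mm
  refine ⟨cG * C, by positivity, fun s hs M hM => ?_⟩
  obtain ⟨-, c3, c4⟩ := hc mm s h.mm_ge hs
  have hb : BF X.Wp X.T.φ (X.T.B.g X.T.o) (mm ^ 2 + M₀ + M₁) := h0.bf.mono (by linarith)
  have hl : ((X.dat Λ mm s M hM).low.card : ℝ) ≤ mm ^ 2 + M₀ + M₁ :=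
    (h1 mm s M hM).trans (by linarith)
  have key : ∀ {p : ℕ} (Ω : (Fin (p + 1) → X.I M) → ℝ),
      ∑ α : Fin (p + 1) → X.I M, ((X.dat Λ mm s M hM).lam (α 0) + 1) *
        (if (X.dat Λ mm s M hM).Hi α then 0 else Ω α) ^ 2 ≤
      ∑ α : Fin (p + 1) → X.I M, (if (X.dat Λ mm s M hM).Hi α then 0 else
        (∑ j, (X.T.B.ν (α j).1 + 1)) * Ω α ^ 2) := by
    intro p Ω
    refine Finset.sum_le_sum fun α _ => ?_
    split_ifs
    · simp
    · refine mul_le_mul_of_nonneg_right ?_ (sq_nonneg _)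
      have e1 := Finset.single_le_sum (f := fun j => X.T.B.ν (α j).1 + 1)
        (fun j _ => by linarith [X.T.B.ν_nonneg X.hWp (α j).1]) (Finset.mem_univ 0)
      rw [X.lam_eq]
      linarith [X.μ_nonneg]
  have r3 := (hG X.T.B M (X.dat Λ mm s M hM).toLv _ _ _ _ _ _ _ (fun _ => X.T.φ)
    (fun _ => X.T.B.g X.T.o) X.hWp (by simp) (by simp) c3 (by linarith) (fun _ => hb) hl).2.2
  have r4 := (hG X.T.B M (X.dat Λ mm s M hM).toLv _ _ _ _ _ _ _ (fun _ => X.T.φ)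
    (fun _ => X.T.B.g X.T.o) X.hWp (by simp) (by simp) c4 (by linarith) (fun _ => hb) hl).2.2
  rw [← mul_div_assoc] at r3 r4
  exact ⟨(key _).trans r3, (key _).trans r4⟩

/-- the Galerkin error is eventually small -/
theorem DV2_ev (h1 : 1 ≤ mm) (h2 : mm ≤ s) : ∀ᶠ M : ℝ in atTop,
    s ^ 2 * X.K * ((∫ x, X.DV2_T mm s x ^ 2) - ∑ α, coef (X.e M) (X.DV2_T mm s) α ^ 2) ≤
      1 / s ^ 8 := by
  have hs0 : 0 < s := by linarith
  have l : MemLp (X.DV2_T mm s) 2 (muP univ (Fin 4)) := by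
    rw [muP_univ]
    exact X.DV2_memLp_T h1 h2
  have e1 := PPar_par X.hWp X.T.B l
  simp only [coefO_univ, muP_univ] at e1
  have e2 := (e1.const_sub (∫ x, X.DV2_T mm s x ^ 2)).const_mul (s ^ 2 * X.K)
  rw [sub_self, mul_zero] at e2
  exact e2.eventually (ge_mem_nhds (by positivity))

theorem DV2_red (h1 : 1 ≤ mm) (h2 : mm ≤ s) (δ : X.I M) :
    MemLp (red (X.DV2_T mm s) (X.e M δ)) 2 volume ∧ MemLp (red (X.Y4 s) (X.e M δ)) 2 volume ∧
      MemLp (red (fun x => X.DV2_T mm s x + X.Y4 s x) (X.e M δ)) 2 volume :=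
  ⟨memLp_red (X.DV2_meas_T h1 h2) (X.DV2_memLp_T h1 h2) ((X.on M).meas δ) (X.memLp_e δ),
    memLp_red (X.meas_Y4 s) (X.memLp_Y4 s) ((X.on M).meas δ) (X.memLp_e δ),
    memLp_red ((X.DV2_meas_T h1 h2).add (X.meas_Y4 s)) ((X.DV2_memLp_T h1 h2).add (X.memLp_Y4 s))
      ((X.on M).meas δ) (X.memLp_e δ)⟩

/-- Galerkin error plus remainder -/
theorem DV2_split (h1 : 1 ≤ mm) (h2 : mm ≤ s) (hM : X.T.μ ≤ M) (δ : X.I M) :
    (∑ β, coef (X.e M) (X.DV2_T mm s) (Fin.snoc β δ) • (X.dat Λ mm s M hM).υ β) +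
      (X.dat Λ mm s M hM).y4 δ =
    (sqU univ (X.UN s) fun x => hat (X.e M) (coef (X.e M) (red (X.DV2_T mm s) (X.e M δ))) x -
      red (X.DV2_T mm s) (X.e M δ) x) +
    sqU univ (X.UN s) (red (fun x => X.DV2_T mm s x + X.Y4 s x) (X.e M δ)) := by
  obtain ⟨l1, l2, -⟩ := X.DV2_red (M := M) h1 h2 δ
  have e0 := DV2_red_add (X.DV2_meas_T h1 h2) (X.DV2_memLp_T h1 h2) (X.meas_Y4 s) (X.memLp_Y4 s)
    (X.memLp_e δ)
  rw [← muP_univ] at l1 l2 e0
  have e1 : (fun β : Fin 3 → X.I M => coef (X.e M) (X.DV2_T mm s) (Fin.snoc β δ)) =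
      coef (X.e M) (red (X.DV2_T mm s) (X.e M δ)) :=
    funext fun β => coef_snoc (X.fr M).toFrame (X.DV2_memLp_T h1 h2) β δ
  have e2 : sqU univ (X.UN s) (red (fun x => X.DV2_T mm s x + X.Y4 s x) (X.e M δ)) =
      sqU univ (X.UN s) (red (X.DV2_T mm s) (X.e M δ)) + (X.dat Λ mm s M hM).y4 δ := by
    refine Eq.trans ?_ (sqU_add (X.wt s) l1 l2).symm
    refine toE_congr ?_
    filter_upwards [e0] with x hx
    rw [hx]
  rw [X.sum_υ hM, e1, e2, ← sqU_sub (X.wt s) (memLp_hat (X.on M).l2 _) l1]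
  abel

theorem DV2_gal_le (h1 : 1 ≤ mm) (h2 : mm ≤ s) :
    ∑ δ : X.I M, ‖sqU univ (X.UN s) fun x =>
      hat (X.e M) (coef (X.e M) (red (X.DV2_T mm s) (X.e M δ))) x -
        red (X.DV2_T mm s) (X.e M δ) x‖ ^ 2 ≤
    s ^ 2 * X.K * ((∫ x, X.DV2_T mm s x ^ 2) - ∑ α, coef (X.e M) (X.DV2_T mm s) α ^ 2) := by
  have hK := X.K_ge
  have e1 := DV2_gal (X.fr M).toFrame (X.on M) (X.DV2_meas_T h1 h2) (X.DV2_memLp_T h1 h2)
  refine le_trans ?_ (mul_le_mul_of_nonneg_left e1 (by positivity))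
  rw [Finset.mul_sum]
  refine Finset.sum_le_sum fun δ _ => ?_
  have l : MemLp (fun x => hat (X.e M) (coef (X.e M) (red (X.DV2_T mm s) (X.e M δ))) x -
      red (X.DV2_T mm s) (X.e M δ) x) 2 volume :=
    (NBes_memLp_hat (X.fr M).toFrame _).sub (X.DV2_red h1 h2 δ).1
  rw [X.norm_sqU s l, ← integral_const_mul]
  refine integral_mono_of_nonneg (Eventually.of_forall fun x =>
    mul_nonneg ((X.wt s).nonneg x) (sq_nonneg _)) (l.integrable_sq.const_mul _)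
    (Eventually.of_forall fun x => mul_le_mul_of_nonneg_right (X.UN_le s x) (sq_nonneg _))

theorem DV2_rest_le (h1 : 1 ≤ mm) (h2 : mm ≤ s) :
    ∑ δ : X.I M, ‖sqU univ (X.UN s) (red (fun x => X.DV2_T mm s x + X.Y4 s x) (X.e M δ))‖ ^ 2 ≤
      ∫ x, X.UN s (om 3 x) * (X.DV2_T mm s x + X.Y4 s x) ^ 2 := by
  refine le_trans (le_of_eq (Finset.sum_congr rfl fun δ _ => ?_))
    (DV2_bes (X.fr M).toFrame (X.wt s) ((X.DV2_meas_T h1 h2).add (X.meas_Y4 s))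
      ((X.DV2_memLp_T h1 h2).add (X.memLp_Y4 s)))
  exact X.norm_sqU s (X.DV2_red h1 h2 δ).2.2

theorem trialV2 (h : X.Par Λ mm) : X.Ev Λ mm fun C s _ D => D.TrialV2 s C := by
  obtain ⟨CH, hCH, hH⟩ := (X.hardy h).exists
  obtain ⟨CL, hCL, hL⟩ := X.DV2_low h
  obtain ⟨CR, hCR, hR⟩ := X.DV2_rest h.mm_ge
  refine Ev.of (6 * (4 * (CH * CL) + 1 + CR)) fun s hs => ?_
  filter_upwards [hH s hs, X.DV2_ev h.mm_ge hs] with M hHM hE hM C hC
  obtain ⟨L3, L4⟩ := hL s hs M hM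
  refine DV2_alg _ (h.mm_ge.trans hs) (by linarith) hCL (hHM hM) (Ω3 := coef (X.e M) (X.T3 mm s))
    (Ω4 := coef (X.e M) (X.T4 mm s)) (fun α => ?_) (fun α => ?_) L3 L4 (X.DV2_perm2 hM)
    (fun δ => ?_) ((X.DV2_gal_le h.mm_ge hs).trans hE)
    ((X.DV2_rest_le h.mm_ge hs).trans (hR s hs)) hC
  · change (if (X.dat Λ mm s M hM).Hi α then _ else _) = _
    split_ifs <;> ring
  · change (if (X.dat Λ mm s M hM).Hi α then _ else _) = _
    split_ifs <;> ring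
  · rw [← X.DV2_sum h.mm_ge hs hM δ]
    exact X.DV2_split h.mm_ge hs hM δ

end TS

end Pool.Agent.Lib.MP_8fe63c_mp
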