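import Pool.Agent.Lib.MP_8fe63c_mp.DBase
import Pool.Agent.Lib.MP_8fe63c_mp.DUniv
import Pool.Agent.Lib.MP_8fe63c_mp.DNA
import Pool.Agent.Lib.MP_8fe63c_mp.DNB
import Pool.Agent.Lib.MP_8fe63c_mp.DM3
import Pool.Agent.Lib.MP_8fe63c_mp.DM4b
import Pool.Agent.Lib.MP_8fe63c_mp.DM4c
import Pool.Agent.Lib.MP_8fe63c_mp.DTK
import Pool.Agent.Lib.MP_8fe63c_mp.DV2
import Pool.Agent.Lib.MP_8fe63c_mp.DTA
import Pool.Agent.Lib.MP_8fe63c_mp.DTC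

/-!
The data of the trapped gas satisfy all the hypotheses of the many-body algebra.
-/

set_option linter.unusedSectionVars false

open MeasureTheory Set Filter Topology
open scoped ENNReal InnerProductSpace

namespace Pool.Agent.Lib.MP_8fe63c_mp

namespace TS

variable (X : TS) {Λ mm s M : ℝ}

theorem DFin_half {X : TS}
    {P : ℝ → ℝ → (M : ℝ) → Dat (X.I M) (Lp ℝ 2 (muP univ (Fin 3))) → Prop} (h : X.Ev Λ mm P) :
    X.Ev Λ mm fun C s M D => P (C / 2) s M D :=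
  (tendsto_id.atTop_div_const two_pos).eventually h

theorem m4 (h : X.Par Λ mm) : X.Ev Λ mm fun C s _ D => |D.ctot - X.cC / s ^ 7| ≤ C / s ^ 8 := by
  refine (DFin_half ((X.m4a h).and ((X.m4b h).and (X.m4c h)))).mono ?_
  rintro C s M hM - ⟨⟨h1, h2, h3⟩, ⟨h4, h5⟩, h6⟩
  have h0 := (abs_nonneg _).trans h1
  have e1 : C / s ^ 8 = 2 * (C / 2 / s ^ 8) := by ring
  have e2 : X.cC / s ^ 7 = (1 / 12) * (X.r1 * X.i8 / s ^ 7) - (1 / 3) * (X.r2 * X.i8 / s ^ 7) -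
      (1 / 6) * (X.r3 * X.i8 / s ^ 7) + (1 / 24) * (X.r4 * X.i8 / s ^ 7) -
      (1 / 3) * (X.r5 * X.i8 / s ^ 7) - (1 / 2) * (X.r6 * X.i8 / s ^ 7) := by
    rw [cC]
    ring
  rw [abs_le] at h1 h2 h3 h4 h5 h6 ⊢
  rw [e1, e2, Dat.ctot]
  constructor
  · linarith [h1.1, h2.2, h3.2, h4.2, h5.2, h6.2]
  · linarith [h1.2, h2.1, h3.1, h4.1, h5.1, h6.1]

theorem data : ∃ C₀ mm : ℝ, 1 ≤ mm ∧ ∀ Λ, 1 ≤ Λ → X.T.μ ≤ Λ → ∃ C : ℝ,
    ∀ (ι : Type) [Fintype ι] [DecidableEq ι], mm ≤ √(Fintype.card ι : ℝ) →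
      ∀ᶠ M : ℝ in atTop, ∀ hM : X.T.μ ≤ M,
        (X.dat Λ mm √(Fintype.card ι : ℝ) M hM).Base X.T.γ Λ C₀ C ∧
        (X.dat Λ mm √(Fintype.card ι : ℝ) M hM).Hardy √(Fintype.card ι : ℝ) C ∧
        (X.dat Λ mm √(Fintype.card ι : ℝ) M hM).Norms √(Fintype.card ι : ℝ) Λ C₀ C ∧
        (X.dat Λ mm √(Fintype.card ι : ℝ) M hM).Mains ι √(Fintype.card ι : ℝ) C₀ C X.eC X.cC ∧
        (X.dat Λ mm √(Fintype.card ι : ℝ) M hM).Trial √(Fintype.card ι : ℝ) C := by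
  obtain ⟨C₀, hC, he, hU⟩ := X.exists_C0
  obtain ⟨mm, hmm, hu2⟩ := X.exists_mm
  refine ⟨C₀, mm, hmm, fun Λ h1 h2 => ?_⟩
  have h : X.Par Λ mm := ⟨h1, h2, hmm⟩
  obtain ⟨C, -, hall⟩ := ((X.base h C₀ hC).and ((X.hardy h).and ((X.normsA h).and
    ((X.normsB h).and ((X.m3 h).and ((X.m4 h).and ((X.sos h).and ((hu2 Λ h).and
    ((X.trialK h).and ((X.trialV1 h).and ((X.trialV2 h).and ((X.trialA h).and
    (X.trialC h))))))))))))).exists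
  refine ⟨C, fun ι _ _ hs => ?_⟩
  filter_upwards [hall _ hs] with M hM' hM
  obtain ⟨b, ha, nA, nB, k3, k4, so, u2, tK, v1, v2, tA, tC⟩ := hM' hM
  have u := hU Λ mm _ M hM h (hmm.trans hs)
  exact ⟨b u, ha, Dat.Norms.of _ u nA nB,
    ⟨k3, k4, so ι (Real.sq_sqrt (Nat.cast_nonneg _)), X.M_oo hM, X.w_oo hM, he⟩,
    Dat.Trial.of _ (X.trialS hM) u2 tK v1 v2 tA tC⟩

end TS

end Pool.Agent.Lib.MP_8fe63c_mp
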