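import Pool.Agent.Lib.MP_8fe63c_mp.DNB

/-!
Four-body constant, the direct terms.

Sketch. Each term is `s^2 ∫ Φ (s • x) ∏ j, φ (x j)^2` for a kernel `Φ` dominated by `F4o` or by
`K |U (om 3 x) y4o x|` (`Mom.of_le`, `Nice0.mul_bdd`, `X.mom`); apply `locA` with `q = 3`, `A = φ^2`. For the second
term use `sqU_inner` and `integral_snoc`; for the third `norm_y4` and `EB.parseval_red` (the limit is
within `1/s^8` for large level).
-/

set_option linter.unusedSectionVars false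

open MeasureTheory Set Filter Topology
open scoped ENNReal InnerProductSpace

namespace Pool.Agent.Lib.MP_8fe63c_mp

namespace TS

variable (X : TS) {Λ mm s M : ℝ}

/-- localisation of a four-body kernel -/
theorem loc4 (B c : ℝ) : ∃ C : ℝ, 0 ≤ C ∧ ∀ (Φ : (Fin 4 → R3) → ℝ) (s : ℝ), 1 ≤ s → 0 ≤ c →
    Nice0 Φ B → Mom s Φ (c / s) →
    |(∫ x : Fin 4 → R3, s ^ 2 * Φ (s • x) * X.ph 4 x ^ 2) - relInt Φ * X.i8 / s ^ 7| ≤
      C / s ^ 8 := by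
  obtain ⟨M₀, hM⟩ := X.exists_cond
  refine ⟨64 * M₀ ^ 4 * |c|, by positivity, fun Φ s hs hc hΦ hm => ?_⟩
  have hs0 : 0 < s := by linarith
  have h1 := locA (q := 3) (by norm_num) le_rfl hΦ hs0 (div_nonneg hc hs0.le) hm hM.l2
  have h2 : ∀ x : Fin 4 → R3, s ^ 2 * Φ (s • x) * X.ph 4 x ^ 2 =
      s ^ 2 * (Φ (s • x) * ∏ j, X.T.φ (x j) ^ 2) := fun x => by
    rw [ph, tens, ← Finset.prod_pow, mul_assoc]
  have h3 : relInt Φ * X.i8 / s ^ 7 =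
      s ^ 2 * (relInt Φ / s ^ (3 * 3) * ∫ y, (X.T.φ y ^ 2) ^ (3 + 1)) := by
    simp only [← pow_mul, i8]
    field_simp
  simp only [h2]
  rw [integral_const_mul, h3, ← mul_sub, abs_mul, abs_of_pos (by positivity : 0 < s ^ 2),
    abs_of_nonneg hc]
  refine (mul_le_mul_of_nonneg_left h1 (by positivity)).trans (le_of_eq ?_)
  field_simp
  ring

theorem DM4a_om (x : Fin 3 → R3) (y : R3) : om 3 (Fin.snoc x y) = x := by
  funext i
  fin_cases i <;> rfl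

theorem DM4a_ph (x : Fin 3 → R3) (y : R3) : X.ph 4 (Fin.snoc x y) = X.ph 3 x * X.T.φ y := by
  simp only [ph, tens, Fin.prod_univ_castSucc (n := 3), Fin.snoc_castSucc, Fin.snoc_last]

theorem DM4a_mul {y : (Fin 4 → R3) → ℝ} (hm : Measurable y) (ht : TI y) (hb : ∀ x, |y x| ≤ X.K) :
    ∃ C : ℝ, ∀ s : ℝ, 1 ≤ s → |(∫ x : Fin 4 → R3,
      s ^ 2 * (X.U (om 3 (s • x)) * y4o X.S.ω X.S.g 3 (s • x) * y (s • x)) * X.ph 4 x ^ 2) -
        (relInt fun x => X.U (om 3 x) * y4o X.S.ω X.S.g 3 x * y x) * X.i8 / s ^ 7| ≤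
      C / s ^ 8 := by
  have hK : 0 ≤ X.K := zero_le_one.trans X.K_ge
  obtain ⟨C, -, hC⟩ := X.loc4 (X.K * X.K) (X.K * X.Km)
  refine ⟨C, fun s hs => hC _ s hs (mul_nonneg hK X.Km_nonneg)
    (X.hK.nUy.toNice0.mul_bdd X.K_ge hm ht hb) ?_⟩
  rw [mul_div_assoc]
  refine (X.mom s hs).1.of_le X.hK.nUy.meas hK fun x => ?_
  rw [abs_mul, mul_comm]
  exact mul_le_mul_of_nonneg_right (hb x) (abs_nonneg _)

theorem DM4a_inner (hM : X.T.μ ≤ M) :
    ⟪(X.dat Λ mm s M hM).y3 ((X.dat Λ mm s M hM).oo 3),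
      (X.dat Λ mm s M hM).y4 (X.dat Λ mm s M hM).o⟫_ℝ =
    ∫ x : Fin 4 → R3, s ^ 2 * (X.U (om 3 (s • x)) * y4o X.S.ω X.S.g 3 (s • x) *
      (1 - X.S.ω (om 3 (s • x)))) * X.ph 4 x ^ 2 := by
  have h1 : MemLp (fun x => X.fN s x * X.ph 3 x) 2 (muP univ (Fin 3)) := by
    rw [muP_univ]
    exact memLp_bdd_mul (X.meas_fN s) (fun x => X.hK.f_bdd _) (X.memLp_ph 3)
  have h2 : MemLp (red (X.Y4 s) X.T.φ) 2 (muP univ (Fin 3)) := by
    rw [muP_univ]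
    exact memLp_red (X.meas_Y4 s) (X.memLp_Y4 s) X.T.meas X.memLp_φ
  have h3 : Integrable fun x : Fin 4 → R3 => X.F3N s (om 3 x) * X.Y4 s x * X.ph 4 x :=
    PVs_int_mul ((X.meas_F3N s).comp (HMicro_om_meas 3)) (fun x => X.F3N_bdd s _) (X.memLp_Y4 s)
      (X.memLp_ph 4)
  have h4 : (X.dat Λ mm s M hM).y3 ((X.dat Λ mm s M hM).oo 3) =
      sqU univ (X.UN s) fun x => X.fN s x * X.ph 3 x := by
    rw [← X.prodE_oo (Λ := Λ) (mm := mm) (s := s) hM 3]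
    rfl
  have h5 : (X.dat Λ mm s M hM).y4 (X.dat Λ mm s M hM).o =
      sqU univ (X.UN s) (red (X.Y4 s) X.T.φ) := by
    rw [← X.e_o (Λ := Λ) (mm := mm) (s := s) hM]
    rfl
  rw [h4, h5, sqU_inner (X.wt s) h1 h2, muP_univ]
  refine Eq.trans ?_ ((integral_snoc h3).symm.trans (integral_congr_ae (ae_of_all _ fun x => ?_)))
  · refine integral_congr_ae (ae_of_all _ fun x => ?_)
    simp only [red, ← integral_const_mul, DM4a_om, DM4a_ph, ← X.UN_mul_fN]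
    exact integral_congr_ae (ae_of_all _ fun y => by ring)
  · have h6 : om 3 (s • x) = s • om 3 x := rfl
    simp only [F3N, sc, F3o, Y4, yN, h6]
    ring

theorem DM4a_lim (s : ℝ) : Tendsto (fun M : ℝ => ∑ δ : X.I M,
      ∫ x, red (fun z => √(X.UN s (om 3 z)) * X.Y4 s z) (X.e M δ) x ^ 2) atTop
    (𝓝 (∫ x : Fin 4 → R3, s ^ 2 * (X.U (om 3 (s • x)) * y4o X.S.ω X.S.g 3 (s • x) *
      y4o X.S.ω X.S.g 3 (s • x)) * X.ph 4 x ^ 2)) := by
  have h1 : Measurable fun z : Fin 4 → R3 => √(X.UN s (om 3 z)) :=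
    ((X.wt s).meas.comp (HMicro_om_meas 3)).sqrt
  have h2 := X.T.B.parseval_red X.hWp (h1.mul (X.meas_Y4 s))
    (memLp_bdd_mul (K := √(s ^ 2 * X.K)) h1 (fun z => by
      rw [abs_of_nonneg (Real.sqrt_nonneg _)]
      exact Real.sqrt_le_sqrt (X.UN_le s _)) (X.memLp_Y4 s))
  refine Tendsto.congr (fun _ => rfl) (h2.trans (le_of_eq (congrArg 𝓝
    (integral_congr_ae (ae_of_all _ fun x => ?_)))))
  have h6 : om 3 (s • x) = s • om 3 x := rfl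
  simp only [Pi.mul_apply, mul_pow, Real.sq_sqrt ((X.wt s).nonneg _)]
  simp only [UN, sc, Y4, yN, h6]
  ring

theorem m4a (h : X.Par Λ mm) : X.Ev Λ mm fun C s _ D =>
    |D.F4 (D.oo 4) - X.r1 * X.i8 / s ^ 7| ≤ C / s ^ 8 ∧
    |⟪D.y3 (D.oo 3), D.y4 D.o⟫_ℝ - X.r2 * X.i8 / s ^ 7| ≤ C / s ^ 8 ∧
    |(∑ δ, ‖D.y4 δ‖ ^ 2) - X.r3 * X.i8 / s ^ 7| ≤ C / s ^ 8 := by
  obtain ⟨C1, -, h1⟩ := X.loc4 X.K X.Km
  obtain ⟨C2, h2⟩ := X.DM4a_mul (y := fun x => 1 - X.S.ω (om 3 x))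
    (measurable_const.sub (X.S.ω_meas.comp (HMicro_om_meas 3)))
    (fun x a => congrArg (1 - ·) (HMicro_om_ti X.S.ω_ti 3 x a)) fun x => X.hK.f_bdd _
  obtain ⟨C3, h3⟩ := X.DM4a_mul (X.S.meas_y 3) (X.S.ti_y 3) X.hK.y_bdd
  have r2 : X.r2 = relInt fun x =>
      X.U (om 3 x) * y4o X.S.ω X.S.g 3 x * (1 - X.S.ω (om 3 x)) := by
    simp only [r2, F3o, mul_right_comm]
  have r3 : X.r3 = relInt fun x =>
      X.U (om 3 x) * y4o X.S.ω X.S.g 3 x * y4o X.S.ω X.S.g 3 x := by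
    simp only [r3, sq, mul_assoc]
  refine Ev.of (max C1 (max C2 (C3 + 1))) fun s hs => ?_
  have hs1 : 1 ≤ s := h.mm_ge.trans hs
  have hs8 : 0 < s ^ 8 := by positivity
  filter_upwards [Metric.tendsto_nhds.1 (X.DM4a_lim s) (1 / s ^ 8) (by positivity)]
    with M hlim hM C hC
  refine ⟨le_trans ?_ (div_le_div_of_nonneg_right ((le_max_left _ _).trans hC) hs8.le),
    le_trans ?_ (div_le_div_of_nonneg_right
      (((le_max_left _ _).trans (le_max_right _ _)).trans hC) hs8.le),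
    le_trans ?_ (div_le_div_of_nonneg_right
      (((le_max_right _ _).trans (le_max_right _ _)).trans hC) hs8.le)⟩
  · have a1 := h1 _ s hs1 X.Km_nonneg X.hK.n4.toNice0 (X.mom s hs1).2
    rw [X.F4_eq hM, coef, X.prodE_oo hM]
    simpa only [F4N, sc, r1, sq (X.ph 4 _), mul_assoc] using a1
  · rw [X.DM4a_inner hM, r2]
    exact h2 s hs1
  · simp only [X.norm_y4 hM]
    rw [r3, add_comm C3, add_div]
    exact (abs_sub_le _ _ _).trans (add_le_add hlim.le (h3 s hs1))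

end TS

end Pool.Agent.Lib.MP_8fe63c_mp
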