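import Pool.Agent.Lib.MP_8fe63c_mp.DBas
import Pool.Agent.Lib.MP_8fe63c_mp.DGal

/-!
The trial kernels with two legs in the interaction.

Sketch. By `norm_sum_υ3` the left sides are `∫ UN x * (∑ η, Gη (x 0, x 1)^2) * h (x 2)^2`. Use `gal_two` with
`n ≤ M₀^(2p) sup |k| * (marginal of |k| over the spectators)` (`Mac.mg` with `B = ∅` and `B = {0,1}ᶜ`):
`n = C/s^6, C/s^3, C/s^6` for `T2, T3, T4`. Constant part: `∫ UN h (x 2)^2 ≤ K/s^4 ∫ h^2`. Parts `A (x 0)`, `B (x 1)`: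
integrate the free point, `marg_UN` with one point gives `K/s`. Error part: `UN ≤ s^2 K` and `∫ E → 0`.
-/

set_option linter.unusedSectionVars false

open MeasureTheory Set Filter Topology
open scoped ENNReal InnerProductSpace

namespace Pool.Agent.Lib.MP_8fe63c_mp

theorem DTC_pair {Φ : (Fin 3 → R3) → ℝ≥0∞} (hΦ : Measurable Φ) {a b c : Fin 3} (hab : a ≠ b)
    (hac : a ≠ c) (hbc : b ≠ c) (hu : (Finset.univ : Finset (Fin 3)) = insert a (insert b {c}))
    {m : ℝ} (hm : MargLe {c} Φ m) {f g : R3 → ℝ≥0∞} (hf : Measurable f) (hg : Measurable g) :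
    ∫⁻ x, Φ x * (f (x a) * g (x b)) ≤ ENNReal.ofReal m * ((∫⁻ y, f y) * ∫⁻ y, g y) := by
  have hM : Measurable fun x : Fin 3 → R3 => f (x a) * g (x b) * Φ x :=
    ((hf.comp (measurable_pi_apply a)).mul (hg.comp (measurable_pi_apply b))).mul hΦ
  simp only [mul_comm (Φ _)]
  rw [← marg_univ 0, hu, HMarg_insert hM (by simp [hab, hac]), ← lintegral_mul_const _ hf,
    ← lintegral_const_mul _ (hf.mul_const _)]
  refine lintegral_mono fun y => ?_
  rw [HMarg_insert hM (by simp [hbc]), ← lintegral_const_mul _ hg,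
    ← lintegral_const_mul _ (hg.const_mul _)]
  refine lintegral_mono fun z => ?_
  rw [marg_mul_left {c} hΦ (c := fun x => f (x a) * g (x b)) fun x y h => by
    rw [h a (by simp [hac]), h b (by simp [hbc])], mul_comm]
  simp only [Function.update_self, Function.update_of_ne hab]
  exact mul_le_mul_left (hm _) _

theorem DTC_prod {E : R3 × R3 → ℝ≥0∞} (hE : Measurable E) {g : R3 → ℝ≥0∞} (hg : Measurable g) :
    ∫⁻ x : Fin 3 → R3, E (x 0, x 1) * g (x 2) = (∫⁻ y, E y) * ∫⁻ y, g y := by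
  have hM : Measurable fun x : Fin 3 → R3 => E (x 0, x 1) * g (x 2) :=
    (hE.comp ((measurable_pi_apply 0).prodMk (measurable_pi_apply 1))).mul
      (hg.comp (measurable_pi_apply 2))
  rw [← marg_univ 0, show (Finset.univ : Finset (Fin 3)) = insert 2 (insert 0 {1}) by decide,
    HMarg_insert hM (by decide), ← lintegral_const_mul _ hg]
  refine lintegral_congr fun z => ?_
  rw [HMarg_insert hM (by decide), Measure.volume_eq_prod, lintegral_prod _ hE.aemeasurable,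
    ← lintegral_mul_const _ hE.lintegral_prod_right']
  refine lintegral_congr fun y => ?_
  have hy : Measurable fun w => E (y, w) := hE.comp measurable_prodMk_left
  rw [marg_single, ← lintegral_mul_const _ hy]
  refine lintegral_congr fun w => ?_
  simp

theorem DTC_core {U : (Fin 3 → R3) → ℝ} (hU : Measurable U) (hU0 : ∀ x, 0 ≤ U x) {u1 u2 u3 : ℝ}
    (p1 : 0 ≤ u1) (p2 : 0 ≤ u2) (h1 : MargLe (Finset.univ.erase 2) (eabs U) u1)
    (h2 : MargLe {1} (eabs U) u2) (h2' : MargLe {0} (eabs U) u2) (h3 : ∀ x, U x ≤ u3)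
    {E : R3 × R3 → ℝ} {A B H : R3 → ℝ} (mE : Measurable E) (pE : ∀ y, 0 ≤ E y) (iE : Integrable E)
    (mA : Measurable A) (pA : ∀ y, 0 ≤ A y) (iA : Integrable A)
    (mB : Measurable B) (pB : ∀ y, 0 ≤ B y) (iB : Integrable B)
    (mH : Measurable H) (iH : Integrable fun y => H y ^ 2) {n : ℝ} (pn : 0 ≤ n)
    {J : Type} [Fintype J] {G : J → R3 → R3 → ℝ}
    (mG : ∀ η, Measurable fun x : Fin 3 → R3 => G η (x 0) (x 1))
    (hG : ∀ y z, ∑ η, G η y z ^ 2 ≤ 4 * (n + E (y, z) + A y + B z)) :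
    ∑ η, ∫ x, U x * (G η (x 0) (x 1) * H (x 2)) ^ 2 ≤
      4 * (u1 * n + u3 * (∫ y, E y) + u2 * (∫ y, A y) + u2 * ∫ y, B y) * ∫ y, H y ^ 2 := by
  have p3 : 0 ≤ u3 := (hU0 0).trans (h3 0)
  have qE : 0 ≤ ∫ y, E y := integral_nonneg pE
  have qA : 0 ≤ ∫ y, A y := integral_nonneg pA
  have qB : 0 ≤ ∫ y, B y := integral_nonneg pB
  have qH : 0 ≤ ∫ y, H y ^ 2 := integral_nonneg fun _ => sq_nonneg _
  have mf : ∀ η, Measurable fun x : Fin 3 → R3 => U x * (G η (x 0) (x 1) * H (x 2)) ^ 2 :=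
    fun η => hU.mul (((mG η).mul (mH.comp (measurable_pi_apply 2))).pow_const 2)
  have pf : ∀ η (x : Fin 3 → R3), 0 ≤ U x * (G η (x 0) (x 1) * H (x 2)) ^ 2 :=
    fun η x => mul_nonneg (hU0 x) (sq_nonneg _)
  have mU : Measurable (eabs U) := hU.abs.ennreal_ofReal
  have mh : Measurable fun y => ENNReal.ofReal (H y ^ 2) := (mH.pow_const 2).ennreal_ofReal
  have eH := (ofReal_integral_eq_lintegral_ofReal iH (Eventually.of_forall fun _ => sq_nonneg _)).symm
  have eE := (ofReal_integral_eq_lintegral_ofReal iE (Eventually.of_forall pE)).symm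
  have eA := (ofReal_integral_eq_lintegral_ofReal iA (Eventually.of_forall pA)).symm
  have eB := (ofReal_integral_eq_lintegral_ofReal iB (Eventually.of_forall pB)).symm
  have t1 := lintegral_mul_single_le mU 2 h1 (mh.const_mul (ENNReal.ofReal n))
  rw [lintegral_const_mul _ mh, eH] at t1
  have t2 : ∫⁻ x, eabs U x * (ENNReal.ofReal (E (x 0, x 1)) * ENNReal.ofReal (H (x 2) ^ 2)) ≤
      ENNReal.ofReal u3 * (ENNReal.ofReal (∫ y, E y) * ENNReal.ofReal (∫ y, H y ^ 2)) := by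
    rw [← eE, ← eH, ← DTC_prod mE.ennreal_ofReal mh, ← lintegral_const_mul' _ _ ENNReal.ofReal_ne_top]
    refine lintegral_mono fun x => mul_le_mul_left (ENNReal.ofReal_le_ofReal ?_) _
    rw [abs_of_nonneg (hU0 x)]
    exact h3 x
  have t3 := DTC_pair mU (a := 0) (b := 2) (c := 1) (by decide) (by decide) (by decide) (by decide)
    h2 mA.ennreal_ofReal mh
  have t4 := DTC_pair mU (a := 1) (b := 2) (c := 0) (by decide) (by decide) (by decide) (by decide)
    h2' mB.ennreal_ofReal mh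
  rw [eA, eH] at t3
  rw [eB, eH] at t4
  have m2 : Measurable fun x : Fin 3 → R3 => ENNReal.ofReal (H (x 2) ^ 2) :=
    mh.comp (measurable_pi_apply 2)
  have m3 : Measurable fun x : Fin 3 → R3 =>
      eabs U x * (ENNReal.ofReal (A (x 0)) * ENNReal.ofReal (H (x 2) ^ 2)) :=
    mU.mul ((mA.ennreal_ofReal.comp (measurable_pi_apply 0)).mul m2)
  have m4 : Measurable fun x : Fin 3 → R3 =>
      eabs U x * (ENNReal.ofReal (B (x 1)) * ENNReal.ofReal (H (x 2) ^ 2)) :=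
    mU.mul ((mB.ennreal_ofReal.comp (measurable_pi_apply 1)).mul m2)
  have m1 : Measurable fun x : Fin 3 → R3 =>
      eabs U x * (ENNReal.ofReal n * ENNReal.ofReal (H (x 2) ^ 2)) := mU.mul (m2.const_mul _)
  refine (ENNReal.ofReal_le_ofReal_iff (by positivity)).1 ?_
  rw [ENNReal.ofReal_sum_of_nonneg fun η _ => integral_nonneg (pf η)]
  calc ∑ η, ENNReal.ofReal (∫ x, U x * (G η (x 0) (x 1) * H (x 2)) ^ 2)
      ≤ ∑ η, ∫⁻ x, ENNReal.ofReal (U x * (G η (x 0) (x 1) * H (x 2)) ^ 2) := by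
        refine Finset.sum_le_sum fun η _ => ?_
        rw [integral_eq_lintegral_of_nonneg_ae (Eventually.of_forall (pf η))
          (mf η).aestronglyMeasurable]
        exact ENNReal.ofReal_toReal_le
    _ = ∫⁻ x, ∑ η, ENNReal.ofReal (U x * (G η (x 0) (x 1) * H (x 2)) ^ 2) :=
        (lintegral_finsetSum _ fun η _ => (mf η).ennreal_ofReal).symm
    _ ≤ ∫⁻ x, 4 * (eabs U x * (ENNReal.ofReal n * ENNReal.ofReal (H (x 2) ^ 2)) +
          eabs U x * (ENNReal.ofReal (E (x 0, x 1)) * ENNReal.ofReal (H (x 2) ^ 2)) +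
          eabs U x * (ENNReal.ofReal (A (x 0)) * ENNReal.ofReal (H (x 2) ^ 2)) +
          eabs U x * (ENNReal.ofReal (B (x 1)) * ENNReal.ofReal (H (x 2) ^ 2))) := by
        refine lintegral_mono fun x => ?_
        have a0 := hU0 x
        have a1 := pE (x 0, x 1)
        have a2 := pA (x 0)
        have a3 := pB (x 1)
        have a4 := sq_nonneg (H (x 2))
        rw [← ENNReal.ofReal_sum_of_nonneg fun η _ => pf η x, eabs, abs_of_nonneg a0,
          ← ENNReal.ofReal_mul pn, ← ENNReal.ofReal_mul a1, ← ENNReal.ofReal_mul a2,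
          ← ENNReal.ofReal_mul a3, ← ENNReal.ofReal_mul a0, ← ENNReal.ofReal_mul a0,
          ← ENNReal.ofReal_mul a0, ← ENNReal.ofReal_mul a0,
          ← ENNReal.ofReal_add (by positivity) (by positivity),
          ← ENNReal.ofReal_add (by positivity) (by positivity),
          ← ENNReal.ofReal_add (by positivity) (by positivity), ← ENNReal.ofReal_ofNat 4,
          ← ENNReal.ofReal_mul (by norm_num)]
        refine ENNReal.ofReal_le_ofReal ?_
        have a5 := mul_le_mul_of_nonneg_left (hG (x 0) (x 1)) (mul_nonneg a0 a4)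
        rw [Finset.mul_sum] at a5
        refine le_trans (le_of_eq (Finset.sum_congr rfl fun η _ => by ring)) (a5.trans (le_of_eq ?_))
        ring
    _ ≤ 4 * (ENNReal.ofReal u1 * (ENNReal.ofReal n * ENNReal.ofReal (∫ y, H y ^ 2)) +
          ENNReal.ofReal u3 * (ENNReal.ofReal (∫ y, E y) * ENNReal.ofReal (∫ y, H y ^ 2)) +
          ENNReal.ofReal u2 * (ENNReal.ofReal (∫ y, A y) * ENNReal.ofReal (∫ y, H y ^ 2)) +
          ENNReal.ofReal u2 * (ENNReal.ofReal (∫ y, B y) * ENNReal.ofReal (∫ y, H y ^ 2))) := by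
        rw [lintegral_const_mul' _ _ (by norm_num), lintegral_add_right _ m4,
          lintegral_add_right _ m3, lintegral_add_left m1]
        exact mul_le_mul_right (add_le_add (add_le_add (add_le_add t1 t2) t3) t4) _
    _ = _ := by
        rw [← ENNReal.ofReal_mul pn, ← ENNReal.ofReal_mul qE, ← ENNReal.ofReal_mul qA,
          ← ENNReal.ofReal_mul qB, ← ENNReal.ofReal_mul p1, ← ENNReal.ofReal_mul p3,
          ← ENNReal.ofReal_mul p2, ← ENNReal.ofReal_mul p2,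
          ← ENNReal.ofReal_add (by positivity) (by positivity),
          ← ENNReal.ofReal_add (by positivity) (by positivity),
          ← ENNReal.ofReal_add (by positivity) (by positivity), ← ENNReal.ofReal_ofNat 4,
          ← ENNReal.ofReal_mul (by norm_num)]
        congr 1
        ring

theorem DTC_sup {t : ℕ} {A s mm C m : ℝ} {F P : (Fin (t + 2) → R3) → ℝ} (h : Mac A s mm C F)
    (hA : 0 ≤ A) (hs : 0 < s) (hC : 0 ≤ C) (hP : ∀ x, |P x| ≤ m) :
    MargLe {0, 1}ᶜ (fun x => ENNReal.ofReal ((kap A s mm F x * P x) ^ 2))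
      (C * A / s ^ 2 * m ^ 2 * (C * A / s ^ (3 * t + 2))) := by
  have h0 := h.mg ∅ (by simp)
  have hc : ({0, 1}ᶜ : Finset (Fin (t + 2))).card = t := by
    rw [Finset.card_compl, Finset.card_pair Fin.zero_ne_one, Fintype.card_fin]
    rfl
  have h1 := h.mg {0, 1}ᶜ (by rw [hc])
  rw [hc] at h1
  have h2 := NTb_const h.gd.cb.1.continuous.measurable.abs.ennreal_ofReal
    (m := C * A / s ^ 2 * m ^ 2) (by positivity) h1
  refine fun x => le_trans (marg_mono _ (fun y => ?_) x) (h2 x)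
  have h3 := h0 y
  rw [marg_empty, eabs, ENNReal.ofReal_le_ofReal_iff (by positivity)] at h3
  simp only [Finset.card_empty, mul_zero, zero_add] at h3
  rw [← ENNReal.ofReal_mul (by positivity)]
  refine ENNReal.ofReal_le_ofReal ?_
  have h4 : P y ^ 2 ≤ m ^ 2 := by
    rw [← sq_abs]
    exact pow_le_pow_left₀ (abs_nonneg _) (hP y) 2
  have h5 := abs_nonneg (kap A s mm F y)
  calc (kap A s mm F y * P y) ^ 2 = |kap A s mm F y| * P y ^ 2 * |kap A s mm F y| := by
        rw [mul_pow, ← sq_abs (kap A s mm F y)]; ring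
    _ ≤ _ := by gcongr

theorem DTC_tens {p : ℕ} {u : R3 → ℝ} {m : ℝ} (h : ∀ y, |u y| ≤ m) (x : Fin p → R3) :
    |tens (fun _ => u) x| ≤ m ^ p := by
  rw [tens, Finset.abs_prod]
  refine (Finset.prod_le_prod (fun i _ => abs_nonneg _) fun i _ => h (x i)).trans (le_of_eq ?_)
  simp

theorem DTC_div {a b s : ℝ} (hs : 1 ≤ s) (hab : a ≤ b) (hb : 0 ≤ b) {i j : ℕ} (hij : j ≤ i) :
    a / s ^ i ≤ b / s ^ j :=
  (div_le_div_of_nonneg_right hab (by positivity)).trans
    (div_le_div_of_nonneg_left hb (by positivity) (pow_le_pow_right₀ hs hij))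

namespace TS

variable (X : TS) {Λ mm s M : ℝ}

theorem DTC_gal (hM : X.T.μ ≤ M) (hs : 1 ≤ s) {t r : ℕ} {T : (Fin (t + 2) → R3) → ℝ}
    (hm : Measurable T) (hT : MemLp T 2 volume) {κ c n δ q N Q : ℝ}
    (hc : ∀ y, ∑ a ∈ (X.lv Λ M hM).low, X.e M a y ^ 2 ≤ c) (h0 : 0 ≤ n)
    (hn : MargLe {0, 1}ᶜ (fun x => ENNReal.ofReal (T x ^ 2)) n)
    (hδ : (∫ x, T x ^ 2) - ∑ α, coef (X.e M) T α ^ 2 ≤ δ) (hq : ∫ x, T x ^ 2 ≤ q)
    (h1 : κ ^ 2 * n ≤ N / s ^ r) (h2 : κ ^ 2 * δ ≤ 1 / s ^ (r + 6))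
    (h3 : κ ^ 2 * q ≤ Q / s ^ (r + 3)) (h : X.I M → ℝ) :
    ∑ η : Fin t → X.I M, ‖∑ a, ∑ b, ∑ d,
      ((if (X.lv Λ M hM).Hi (Fin.cons a (Fin.cons b η) : Fin (t + 2) → X.I M) then
        -(κ * coef (X.e M) T (Fin.cons a (Fin.cons b η))) else 0) * h d) •
          (X.dat Λ mm s M hM).υ ![a, b, d]‖ ^ 2 ≤
      4 * X.K * (N + 1 + 2 * c * Q) / s ^ (r + 4) * ∑ d, h d ^ 2 := by
  obtain ⟨E, A, B, mE, pE, iE, hE, mA, pA, iA, hA, mB, pB, iB, hB, hG⟩ :=
    gal_two (X.on M) (X.lv Λ M hM) hc hm hT h0 hn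
  have s0 : 0 < s := by linarith
  have hK := X.K_ge
  have c0 : 0 ≤ c := (Finset.sum_nonneg fun _ _ => sq_nonneg _).trans (hc 0)
  have me := (X.on M).meas
  have mH : Measurable fun y => ∑ d, h d * X.e M d y :=
    Finset.measurable_sum _ fun d _ => (me d).const_mul _
  have lH : MemLp (fun y => ∑ d, h d * X.e M d y) 2 volume :=
    memLp_finsetSum _ fun d _ => (X.memLp_e d).const_mul _
  have u1 := X.marg_UN s0 (A := Finset.univ.erase 2) (by decide)
  have u2 := X.marg_UN s0 (A := {1}) (by decide)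
  have u2' := X.marg_UN s0 (A := {0}) (by decide)
  rw [show (Finset.univ.erase (2 : Fin 3)).card = 2 by decide] at u1
  rw [Finset.card_singleton] at u2 u2'
  have key := DTC_core (X.wt s).meas (X.wt s).nonneg (by positivity) (by positivity) u1 u2 u2'
    (X.UN_le s) mE pE iE mA pA iA mB pB iB (mH.const_mul (-κ)) (lH.const_mul (-κ)).integrable_sq h0
    (G := fun (η : Fin t → X.I M) y z => ∑ a, ∑ b,
      (if (X.lv Λ M hM).Hi (Fin.cons a (Fin.cons b η) : Fin (t + 2) → X.I M) then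
        coef (X.e M) T (Fin.cons a (Fin.cons b η)) else 0) * X.e M a y * X.e M b z)
    (fun η => Finset.measurable_sum _ fun a _ => Finset.measurable_sum _ fun b _ =>
      (((me a).comp (measurable_pi_apply 0)).const_mul _).mul
        ((me b).comp (measurable_pi_apply 1))) hG
  refine le_trans (le_of_eq (Finset.sum_congr rfl fun η _ => ?_)) (key.trans ?_)
  · rw [X.norm_sum_υ3 hM]
    refine integral_congr_ae (Eventually.of_forall fun x => ?_)
    simp only
    congr 2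
    rw [Finset.sum_mul]
    refine Finset.sum_congr rfl fun a _ => ?_
    rw [Finset.sum_mul]
    refine Finset.sum_congr rfl fun b _ => ?_
    rw [Finset.mul_sum, Finset.mul_sum]
    refine Finset.sum_congr rfl fun d _ => ?_
    split_ifs <;> ring
  · have b1 : ∑ α, coef (X.e M) T α ^ 2 ≤ ∫ x, T x ^ 2 := coef_bessel (X.fr M).toFrame hT
    have b2 : ∫ y, (∑ d, h d * X.e M d y) ^ 2 ≤ ∑ d, h d ^ 2 := (X.fr M).bes0 h
    have b3 : 0 ≤ ∫ y, (∑ d, h d * X.e M d y) ^ 2 := integral_nonneg fun _ => sq_nonneg _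
    have qE : 0 ≤ ∫ y, E y := integral_nonneg pE
    have qA : 0 ≤ ∫ y, A y := integral_nonneg pA
    have qB : 0 ≤ ∫ y, B y := integral_nonneg pB
    have b4 : c * ∑ α, coef (X.e M) T α ^ 2 ≤ c * q := mul_le_mul_of_nonneg_left (b1.trans hq) c0
    simp only [mul_pow, neg_sq]
    rw [integral_const_mul, ← mul_assoc]
    refine mul_le_mul ?_ b2 b3 ?_
    swap
    · have a1 : 0 ≤ N / s ^ r := le_trans (by positivity) h1
      have a2 : 0 ≤ Q / s ^ (r + 3) :=
        le_trans (mul_nonneg (sq_nonneg _)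
          ((integral_nonneg fun _ => sq_nonneg _).trans hq)) h3
      have a3 : 0 ≤ N := by simpa using (le_div_iff₀ (pow_pos s0 _)).1 a1
      have a4 : 0 ≤ Q := by simpa using (le_div_iff₀ (pow_pos s0 _)).1 a2
      positivity
    have k0 := sq_nonneg κ
    have a2 : κ ^ 2 * ∫ y, E y ≤ 1 / s ^ (r + 6) :=
      (mul_le_mul_of_nonneg_left (hE.trans hδ) k0).trans h2
    have a5 : κ ^ 2 * (c * q) ≤ c * (Q / s ^ (r + 3)) := by
      rw [mul_left_comm]
      exact mul_le_mul_of_nonneg_left h3 c0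
    have a3 : κ ^ 2 * ∫ y, A y ≤ c * (Q / s ^ (r + 3)) :=
      (mul_le_mul_of_nonneg_left (hA.trans b4) k0).trans a5
    have a4 : κ ^ 2 * ∫ y, B y ≤ c * (Q / s ^ (r + 3)) :=
      (mul_le_mul_of_nonneg_left (hB.trans b4) k0).trans a5
    calc _ = 4 * (s ^ 2 * X.K / s ^ (3 * 2) * (κ ^ 2 * n) + s ^ 2 * X.K * (κ ^ 2 * ∫ y, E y) +
          s ^ 2 * X.K / s ^ (3 * 1) * (κ ^ 2 * ∫ y, A y) +
          s ^ 2 * X.K / s ^ (3 * 1) * (κ ^ 2 * ∫ y, B y)) := by ring
      _ ≤ 4 * (s ^ 2 * X.K / s ^ (3 * 2) * (N / s ^ r) + s ^ 2 * X.K * (1 / s ^ (r + 6)) +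
          s ^ 2 * X.K / s ^ (3 * 1) * (c * (Q / s ^ (r + 3))) +
          s ^ 2 * X.K / s ^ (3 * 1) * (c * (Q / s ^ (r + 3)))) := by gcongr
      _ = _ := by
          field_simp
          ring

theorem DTC_par {κ : Type} [Fintype κ] [DecidableEq κ] {T : (κ → R3) → ℝ} (hT : MemLp T 2 volume)
    {δ : ℝ} (hδ : 0 < δ) :
    ∀ᶠ M : ℝ in atTop, (∫ x, T x ^ 2) - ∑ α, coef (X.e M) T α ^ 2 ≤ δ := by
  have h := X.T.B.parseval X.hWp (F := T) (F' := T) (by rwa [muP_univ]) (by rwa [muP_univ])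
  simp only [coefO_univ, muP_univ, ← sq] at h
  filter_upwards [h.eventually (lt_mem_nhds (sub_lt_self _ hδ))] with M hM
  linarith

theorem trialC (h : X.Par Λ mm) : X.Ev Λ mm fun C s _ D => D.TrialC s C := by
  obtain ⟨M₀, hc⟩ := X.exists_cond
  obtain ⟨M₁, hM₁, hl1, hl2⟩ := X.exists_low Λ
  obtain ⟨C₁, hC₁, hmac⟩ := X.mac
  obtain ⟨C₂, hC₂, hcmp⟩ := X.cmp
  have hM₀ := hc.one_le
  refine Ev.of (4 * X.K * (C₁ ^ 2 * M₀ ^ 8 + 1 + 2 * M₁ ^ 3 * (M₀ ^ 8 * C₂))) fun s hs => ?_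
  have s1 : 1 ≤ s := h.mm_ge.trans hs
  have s0 : 0 < s := by linarith
  obtain ⟨⟨m2, l2⟩, ⟨m3, l3⟩, m4, l4⟩ := X.memLp_T h.mm_ge hs
  obtain ⟨a2, a3, a4⟩ := hmac mm s h.mm_ge hs
  obtain ⟨b2, b3, b4⟩ := hcmp mm s h.mm_ge hs
  have hδ : 0 < 1 / s ^ 10 := by positivity
  filter_upwards [X.DTC_par l2 hδ, X.DTC_par l3 hδ, X.DTC_par l4 hδ] with M p2 p3 p4 hM C hC
  have hlow : ∀ y, ∑ a ∈ (X.lv Λ M hM).low, X.e M a y ^ 2 ≤ M₁ ^ 3 := by
    intro y
    have h1 : ∑ a ∈ (X.lv Λ M hM).low, X.e M a y ^ 2 ≤ (X.lv Λ M hM).low.card • M₁ ^ 2 := by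
      refine Finset.sum_le_card_nsmul _ _ _ fun a ha => ?_
      rw [← sq_abs]
      exact pow_le_pow_left₀ (abs_nonneg _)
        ((hl1 a.1 ((X.mem_low (mm := mm) (s := s) hM a).1 ha)).bdd y) 2
    rw [nsmul_eq_mul] at h1
    have h2 := mul_le_mul_of_nonneg_right (hl2 mm s M hM) (sq_nonneg M₁)
    exact h1.trans (h2.trans (le_of_eq (by ring)))
  have n2 := DTC_sup (t := 0) a2 (by positivity) s0 (by positivity) (DTC_tens hc.bf2.bdd)
  have n3 := DTC_sup (t := 1) a3 (by positivity) s0 (by positivity) (DTC_tens hc.bf.bdd)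
  have n4 := DTC_sup (t := 2) a4 (by positivity) s0 (by positivity) (DTC_tens hc.bf.bdd)
  have q2 := (l2_mul_tens X.hWp b2.gd.cb.1.continuous.measurable (fun _ => hc.bf2) b2.ε_pos.le
    b2.l2).2
  have q3 := (l2_mul_tens X.hWp b3.gd.cb.1.continuous.measurable (fun _ => hc.bf) b3.ε_pos.le
    b3.l2).2
  have q4 := (l2_mul_tens X.hWp b4.gd.cb.1.continuous.measurable (fun _ => hc.bf) b4.ε_pos.le
    b4.l2).2
  rw [Fintype.card_fin] at q2 q3 q4
  have hp : ∀ {i : ℕ}, i ≤ 8 → M₀ ^ i ≤ M₀ ^ 8 := fun hi => pow_le_pow_right₀ hM₀ hi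
  have hN : ∀ {i : ℕ}, i ≤ 8 → C₁ ^ 2 * M₀ ^ i ≤ C₁ ^ 2 * M₀ ^ 8 := fun hi =>
    mul_le_mul_of_nonneg_left (hp hi) (by positivity)
  have hQ : ∀ {i : ℕ}, i ≤ 8 → M₀ ^ i * C₂ ≤ M₀ ^ 8 * C₂ := fun hi =>
    mul_le_mul_of_nonneg_right (hp hi) (by positivity)
  have fin : ∀ (k : ℕ) (z : X.I M → ℝ),
      4 * X.K * (C₁ ^ 2 * M₀ ^ 8 + 1 + 2 * M₁ ^ 3 * (M₀ ^ 8 * C₂)) / s ^ k * ∑ d, z d ^ 2 ≤
        C / s ^ k * ∑ d, z d ^ 2 := fun k z =>
    mul_le_mul_of_nonneg_right (div_le_div_of_nonneg_right hC (by positivity))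
      (Finset.sum_nonneg fun _ _ => sq_nonneg _)
  refine ⟨fun z => le_trans ?_ (fin 4 z), fun z => le_trans ?_ (fin 6 z),
    fun z => le_trans ?_ (fin 8 z)⟩
  · refine le_trans (le_of_eq ?_) (X.DTC_gal (mm := mm) (t := 0) (r := 0) (κ := s ^ 2) hM s1 m2 l2
      hlow (by positivity) n2 p2 q2 ?_ ?_ ?_ z)
    · rw [Fintype.sum_subsingleton _ (![] : Fin 0 → X.I M)]
      rfl
    · refine le_trans (le_of_eq ?_) (DTC_div s1 (hN (i := 4) (by norm_num)) (by positivity)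
        (i := 2) (by norm_num))
      field_simp
      ring
    · refine le_of_eq ?_
      field_simp
    · refine le_trans (le_of_eq ?_) (DTC_div s1 (hQ (i := 4) (by norm_num)) (by positivity)
        (i := 4) (by norm_num))
      field_simp
  · refine le_trans (le_of_eq ?_) (X.DTC_gal (mm := mm) (t := 1) (r := 2) (κ := 1) hM s1 m3 l3
      hlow (by positivity) n3 p3 q3 ?_ ?_ ?_ z)
    · refine Fintype.sum_equiv (Equiv.funUnique (Fin 1) (X.I M)).symm _ _ fun η => ?_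
      rw [show (Equiv.funUnique (Fin 1) (X.I M)).symm η = ![η] from
        funext fun i => by fin_cases i; rfl]
      rfl
    · refine le_trans (le_of_eq ?_) (DTC_div s1 (hN (i := 6) (by norm_num)) (by positivity)
        (i := 3) (by norm_num))
      field_simp
      ring
    · refine le_trans (le_of_eq ?_) (DTC_div s1 le_rfl zero_le_one (i := 10) (by norm_num))
      ring
    · refine le_trans (le_of_eq ?_) (DTC_div s1 (hQ (i := 6) (by norm_num)) (by positivity)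
        (i := 6) (by norm_num))
      ring
  · refine le_trans (le_of_eq ?_) (X.DTC_gal (mm := mm) (t := 2) (r := 4) (κ := 1) hM s1 m4 l4
      hlow (by positivity) n4 p4 q4 ?_ ?_ ?_ z)
    · rw [← Fintype.sum_prod_type']
      exact Fintype.sum_equiv (finTwoArrowEquiv (X.I M)).symm _ _ fun η => rfl
    · refine le_trans (le_of_eq ?_) (DTC_div s1 (hN (i := 8) (by norm_num)) (by positivity)
        (i := 6) (by norm_num))
      field_simp
      ring
    · refine le_trans (le_of_eq ?_) (DTC_div s1 le_rfl zero_le_one (i := 10) (by norm_num))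
      ring
    · refine le_trans (le_of_eq ?_) (DTC_div s1 (hQ (i := 8) (by norm_num)) (by positivity)
        (i := 9) (by norm_num))
      ring

end TS

end Pool.Agent.Lib.MP_8fe63c_mp
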