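import Pool.Agent.Lib.MP_8fe63c_mp.DBase

/-!
The three-body correlation of the trial state.

Sketch. Let `Ω = coef T3`, `Ωl α = if Hi α then 0 else Ω α`. The vector is
`sqU (ωN ph - hat Ω) + ∑ Ωl β • υ β`, and `ωN ph - hat Ω = (ωN - k3) ph + (T3 - hat Ω)`. First term: `k_diff` and
`∫ UN ph^2 ≤ C/s^4`. Second term: `UN ≤ s^2 K` and `EB.tendsto_hat`. Third term: `h0` of `hardy` and the last
part of `cmp_low` (`lam + 1 ≤ ν + 1`).
-/

set_option linter.unusedSectionVars false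

open MeasureTheory Set Filter Topology
open scoped ENNReal InnerProductSpace

namespace Pool.Agent.Lib.MP_8fe63c_mp

theorem DV1_three {E : Type} [NormedAddCommGroup E] {u v w : E} {a b c : ℝ} (hu : ‖u‖ ^ 2 ≤ a)
    (hv : ‖v‖ ^ 2 ≤ b) (hw : ‖w‖ ^ 2 ≤ c) : ‖u + v + w‖ ^ 2 ≤ 3 * (a + b + c) := by
  have h1 : ‖u + v + w‖ ≤ ‖u‖ + ‖v‖ + ‖w‖ := norm_add₃_le
  have h2 := pow_le_pow_left₀ (norm_nonneg _) h1 2
  nlinarith [sq_nonneg (‖u‖ - ‖v‖), sq_nonneg (‖u‖ - ‖w‖), sq_nonneg (‖v‖ - ‖w‖)]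

theorem DV1_vec {I : Type} [Fintype I] [DecidableEq I] {Ω : Set R3} {UN : (Fin 3 → R3) → ℝ}
    (h : Wt3 UN) {e : I → R3 → ℝ} (he : ∀ a, MemLp (e a) 2 (volume.restrict Ω))
    {p ω k : (Fin 3 → R3) → ℝ} (hp : MemLp p 2 (muP Ω (Fin 3)))
    (hω : MemLp (fun x => ω x * p x) 2 (muP Ω (Fin 3)))
    (hk : MemLp (fun x => k x * p x) 2 (muP Ω (Fin 3))) (c c' : (Fin 3 → I) → ℝ) :
    sqU Ω UN p + (∑ β, (c' β - c β) • ups Ω UN e β) - sqU Ω UN (fun x => (1 - ω x) * p x) =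
      sqU Ω UN (fun x => ω x * p x - k x * p x) + sqU Ω UN (fun x => k x * p x - hat e c x) +
        ∑ β, c' β • ups Ω UN e β := by
  have e1 : (fun x => (1 - ω x) * p x) = fun x => p x - ω x * p x := by
    funext x
    ring
  simp only [sub_smul, Finset.sum_sub_distrib]
  rw [sum_ups h he c, e1, ← sqU_sub h hp hω, ← sqU_sub h hω hk, ← sqU_sub h hk (memLp_hat he c)]
  abel

theorem DV1_low {I : Type} [Fintype I] [DecidableEq I] (L : Lv I) {ν : I → ℝ} (hν : ∀ a, 0 ≤ ν a)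
    (hl : ∀ a, L.lam a ≤ ν a) (c : (Fin 3 → I) → ℝ) :
    ∑ α : Fin 3 → I, (L.lam (α 0) + 1) * (if L.Hi α then 0 else c α) ^ 2 ≤
      ∑ α : Fin 3 → I, if L.Hi α then 0 else (∑ j, (ν (α j) + 1)) * c α ^ 2 := by
  refine Finset.sum_le_sum fun α _ => ?_
  split_ifs
  · simp
  · refine mul_le_mul_of_nonneg_right ?_ (sq_nonneg _)
    rw [Fin.sum_univ_three]
    linarith [hl (α 0), hν (α 1), hν (α 2)]

namespace TS

variable (X : TS) {Λ mm s M : ℝ}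

theorem int_UN_ph : ∃ C : ℝ, 0 ≤ C ∧ ∀ s : ℝ, 0 < s → ∫ x, X.UN s x * X.ph 3 x ^ 2 ≤ C / s ^ 4 := by
  have hK : 0 ≤ X.K := zero_le_one.trans X.K_ge
  refine ⟨X.K * X.T.M ^ 4, by positivity, fun s hs => ?_⟩
  have hw := X.wt s
  rw [integral_eq_lintegral_of_nonneg_ae
    (Eventually.of_forall fun x => mul_nonneg (hw.nonneg x) (sq_nonneg _))
    (hw.meas.mul ((X.meas_ph 3).pow_const 2)).aestronglyMeasurable]
  refine ENNReal.toReal_le_of_le_ofReal (by positivity) ?_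
  have hA : (Finset.univ.erase (0 : Fin 3)) ≠ Finset.univ := by decide
  have hc : (Finset.univ.erase (0 : Fin 3)).card = 2 := by decide
  have h1 := X.marg_UN hs hA
  rw [hc] at h1
  have h2 := lintegral_mul_single_le (measurable_eabs hw.meas) 0 h1
    (a := fun y => ENNReal.ofReal (X.T.M ^ 4 * X.T.φ y ^ 2))
    ((X.T.meas.pow_const 2).const_mul _).ennreal_ofReal
  have h3 : ∫⁻ y, ENNReal.ofReal (X.T.M ^ 4 * X.T.φ y ^ 2) = ENNReal.ofReal (X.T.M ^ 4) := by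
    rw [← ofReal_integral_eq_lintegral_ofReal (X.memLp_φ.integrable_sq.const_mul _)
      (Eventually.of_forall fun y => by positivity), integral_const_mul, X.T.nrm, mul_one]
  rw [h3, ← ENNReal.ofReal_mul (by positivity)] at h2
  refine le_trans (lintegral_mono fun x => ?_) (h2.trans (le_of_eq ?_))
  · rw [eabs, abs_of_nonneg (hw.nonneg x), ← ENNReal.ofReal_mul (hw.nonneg x)]
    refine ENNReal.ofReal_le_ofReal (mul_le_mul_of_nonneg_left ?_ (hw.nonneg x))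
    have e : X.ph 3 x = X.T.φ (x 0) * X.T.φ (x 1) * X.T.φ (x 2) :=
      Fin.prod_univ_three fun j => X.T.φ (x j)
    have a1 := X.T.φ_nonneg (x 1)
    have a2 := X.T.φ_nonneg (x 2)
    have b : X.T.φ (x 1) * X.T.φ (x 2) ≤ X.T.M * X.T.M :=
      mul_le_mul (X.T.φ_le _) (X.T.φ_le _) a2 (a1.trans (X.T.φ_le _))
    have b2 := pow_le_pow_left₀ (mul_nonneg a1 a2) b 2
    rw [e]
    nlinarith [mul_le_mul_of_nonneg_left b2 (sq_nonneg (X.T.φ (x 0)))]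
  · congr 1
    field_simp
    ring

theorem DV1_memω (s : ℝ) : MemLp (fun x => X.S.ω (s • x) * X.ph 3 x) 2 volume :=
  memLp_bdd_mul (a := fun x => X.S.ω (s • x)) (X.S.ω_meas.comp (measurable_const_smul s))
    (fun _ => X.S.ω_bdd _) (X.memLp_ph 3)

theorem DV1_first : ∃ C : ℝ, 0 ≤ C ∧ ∀ mm s : ℝ, 1 ≤ mm → mm ≤ s →
    ‖sqU univ (X.UN s) fun x => X.S.ω (s • x) * X.ph 3 x - X.k3 mm s x * X.ph 3 x‖ ^ 2 ≤
      C * mm ^ 4 / s ^ 6 := by
  obtain ⟨C0, hC0, h0⟩ := X.int_UN_ph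
  obtain ⟨Ck, hCk, hk⟩ := X.k_diff
  refine ⟨Ck ^ 2 * C0, by positivity, fun mm s h1 h2 => ?_⟩
  have hs1 : 1 ≤ s := h1.trans h2
  have hs : 0 < s := by linarith
  have hw := X.wt s
  have hm : MemLp (fun x => X.S.ω (s • x) * X.ph 3 x - X.k3 mm s x * X.ph 3 x) 2 volume :=
    (X.DV1_memω s).sub (X.memLp_T h1 h2).2.1.2
  have hb : ∀ x, |X.UN s x| ≤ s ^ 2 * X.K := fun x => by
    rw [abs_of_nonneg (hw.nonneg x)]
    exact X.UN_le s x
  have i1 : Integrable fun x => X.UN s x * X.ph 3 x ^ 2 :=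
    (PVs_int_mul hw.meas hb (X.memLp_ph 3) (X.memLp_ph 3)).congr
      (Eventually.of_forall fun x => by simp only; ring)
  rw [X.norm_sqU s hm]
  have a1 : ∫ x, X.UN s x * (X.S.ω (s • x) * X.ph 3 x - X.k3 mm s x * X.ph 3 x) ^ 2 ≤
      ∫ x, (Ck * mm ^ 2 / s ^ 2) ^ 2 * (X.UN s x * X.ph 3 x ^ 2) := by
    refine integral_mono_of_nonneg
      (Eventually.of_forall fun x => mul_nonneg (hw.nonneg x) (sq_nonneg _)) (i1.const_mul _)
      (Eventually.of_forall fun x => ?_)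
    have b1 := pow_le_pow_left₀ (abs_nonneg _) ((hk mm s h1 h2).2.1 x) 2
    rw [sq_abs] at b1
    have b2 := mul_le_mul_of_nonneg_right b1 (mul_nonneg (hw.nonneg x) (sq_nonneg (X.ph 3 x)))
    simp only
    linarith
  rw [integral_const_mul] at a1
  refine a1.trans ((mul_le_mul_of_nonneg_left (h0 s hs) (sq_nonneg _)).trans ?_)
  have e : (Ck * mm ^ 2 / s ^ 2) ^ 2 * (C0 / s ^ 4) = Ck ^ 2 * C0 * mm ^ 4 / s ^ 8 := by
    field_simp
  rw [e]
  exact div_le_div_of_nonneg_left (by positivity) (by positivity)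
    (pow_le_pow_right₀ hs1 (by norm_num))

theorem DV1_second (h1 : 1 ≤ mm) (h2 : mm ≤ s) : ∀ᶠ M : ℝ in atTop,
    ‖sqU univ (X.UN s) fun x => X.k3 mm s x * X.ph 3 x -
      hat (X.e M) (coef (X.e M) (X.T3 mm s)) x‖ ^ 2 ≤ 1 / s ^ 6 := by
  have hs : 0 < s := by linarith
  have hw := X.wt s
  have hT : MemLp (X.T3 mm s) 2 volume := (X.memLp_T h1 h2).2.1.2
  have h3 := X.T.B.tendsto_hat X.hWp (F := X.T3 mm s) (by rwa [muP_univ])
  simp only [coefO_univ] at h3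
  rw [muP_univ] at h3
  have h4 := Tendsto.const_mul (s ^ 2 * X.K) h3
  rw [mul_zero] at h4
  filter_upwards [h4.eventually (eventually_le_nhds (b := 1 / s ^ 6) (by positivity))] with M hM
  have hH : MemLp (hat (X.e M) (coef (X.e M) (X.T3 mm s))) 2 volume := by
    rw [← muP_univ]
    exact memLp_hat (X.on M).l2 _
  have hm : MemLp (fun x => X.k3 mm s x * X.ph 3 x -
      hat (X.e M) (coef (X.e M) (X.T3 mm s)) x) 2 volume := hT.sub hH
  rw [X.norm_sqU s hm]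
  refine le_trans ?_ hM
  rw [← integral_const_mul]
  refine integral_mono_of_nonneg
    (Eventually.of_forall fun x => mul_nonneg (hw.nonneg x) (sq_nonneg _))
    ((hH.sub hT).integrable_sq.const_mul _) (Eventually.of_forall fun x => ?_)
  simp only
  rw [sub_sq_comm]
  exact mul_le_mul_of_nonneg_right (X.UN_le s x) (sq_nonneg _)

theorem DV1_third (h : X.Par Λ mm) : ∃ C : ℝ, 0 ≤ C ∧ ∀ s M : ℝ, mm ≤ s → ∀ hM : X.T.μ ≤ M,
    ∑ α : Fin 3 → X.I M, ((X.lv Λ M hM).lam (α 0) + 1) *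
      (if (X.lv Λ M hM).Hi α then 0 else coef (X.e M) (X.T3 mm s) α) ^ 2 ≤ C / s ^ 6 := by
  obtain ⟨M₀, h0⟩ := X.exists_cond
  obtain ⟨M₁, hM₁, -, hl⟩ := X.exists_low Λ
  obtain ⟨Cc, hCc, hc⟩ := X.cmp
  obtain ⟨cG, hcG, hG⟩ := cmp_low (mm ^ 2 + M₀ + M₁)
  refine ⟨cG * Cc, by positivity, fun s M hs hM => ?_⟩
  have a0 := h0.one_le
  have a1 := sq_nonneg mm
  have a2 : ((X.lv Λ M hM).low.card : ℝ) ≤ M₁ := hl mm s M hM
  have a3 := (hG X.T.B M (X.lv Λ M hM) _ _ _ _ _ _ _ (fun _ => X.T.φ) (fun _ => X.T.B.g X.T.o)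
    X.hWp (by simp) (by simp) (hc mm s h.mm_ge hs).2.1 (by linarith)
    (fun _ => h0.bf.mono (by linarith)) (by linarith)).2.2
  rw [mul_div_assoc]
  refine le_trans (DV1_low (X.lv Λ M hM) (ν := fun a => X.T.B.ν a.1)
    (fun a => X.T.B.ν_nonneg X.hWp a.1) (fun a => sub_le_self _ X.μ_nonneg) _) a3

theorem DV1_eq (h1 : 1 ≤ mm) (h2 : mm ≤ s) (hM : X.T.μ ≤ M) :
    (X.dat Λ mm s M hM).υ ((X.dat Λ mm s M hM).oo 3) +
      (∑ β, (X.dat Λ mm s M hM).G3 β • (X.dat Λ mm s M hM).υ β) -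
      (X.dat Λ mm s M hM).y3 ((X.dat Λ mm s M hM).oo 3) =
    sqU univ (X.UN s) (fun x => X.S.ω (s • x) * X.ph 3 x - X.k3 mm s x * X.ph 3 x) +
      sqU univ (X.UN s) (fun x => X.k3 mm s x * X.ph 3 x -
        hat (X.e M) (coef (X.e M) (X.T3 mm s)) x) +
      ∑ β, (if (X.lv Λ M hM).Hi β then 0 else coef (X.e M) (X.T3 mm s) β) •
        (X.dat Λ mm s M hM).υ β := by
  have e1 : (X.dat Λ mm s M hM).υ ((X.dat Λ mm s M hM).oo 3) = sqU univ (X.UN s) (X.ph 3) := by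
    rw [← X.prodE_oo (Λ := Λ) (mm := mm) (s := s) hM 3]
    rfl
  have e2 : (X.dat Λ mm s M hM).y3 ((X.dat Λ mm s M hM).oo 3) =
      sqU univ (X.UN s) fun x => (1 - X.S.ω (s • x)) * X.ph 3 x := by
    rw [← X.prodE_oo (Λ := Λ) (mm := mm) (s := s) hM 3]
    rfl
  have e3 : ∀ β, (X.dat Λ mm s M hM).G3 β =
      (if (X.lv Λ M hM).Hi β then 0 else coef (X.e M) (X.T3 mm s) β) -
        coef (X.e M) (X.T3 mm s) β := by
    intro β
    show (if (X.lv Λ M hM).Hi β then -(1 * coef (X.e M) (X.T3 mm s) β) else 0) = _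
    split_ifs
    · ring
    · ring
  rw [e1, e2]
  simp only [e3]
  exact DV1_vec (X.wt s) (X.on M).l2 (ω := fun x => X.S.ω (s • x)) (k := X.k3 mm s)
    (by rw [muP_univ]; exact X.memLp_ph 3) (by rw [muP_univ]; exact X.DV1_memω s)
    (by rw [muP_univ]; exact (X.memLp_T h1 h2).2.1.2) _ _

theorem trialV1 (h : X.Par Λ mm) : X.Ev Λ mm fun C s _ D => D.TrialV1 s C := by
  obtain ⟨C1, hC1, h1⟩ := X.DV1_first
  obtain ⟨C3, hC3, h3⟩ := X.DV1_third h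
  obtain ⟨CH, hCH, hH⟩ := (X.hardy h).exists
  refine Ev.of (3 * (C1 * mm ^ 4 + 1 + CH * C3)) fun s hs => ?_
  filter_upwards [hH s hs, X.DV1_second h.mm_ge hs] with M a1 a2 hM C hC
  have hs0 : 0 < s := by linarith [h.mm_ge]
  have a3 := ((a1 hM).h0 fun β =>
    if (X.lv Λ M hM).Hi β then 0 else coef (X.e M) (X.T3 mm s) β).trans
    (mul_le_mul_of_nonneg_left (h3 s M hs hM) (by linarith))
  unfold Dat.TrialV1
  rw [X.DV1_eq h.mm_ge hs hM]
  refine (DV1_three (h1 mm s h.mm_ge hs) a2 a3).trans ?_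
  have e : 3 * (C1 * mm ^ 4 / s ^ 6 + 1 / s ^ 6 + CH * (C3 / s ^ 6)) =
      3 * (C1 * mm ^ 4 + 1 + CH * C3) / s ^ 6 := by ring
  rw [e]
  exact div_le_div_of_nonneg_right hC (by positivity)

end TS

end Pool.Agent.Lib.MP_8fe63c_mp
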