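import Pool.Agent.Lib.MP_8fe63c_mp.Stmt

/-!
Reduction from a Lebesgue measurable to a Borel measurable three-body potential.
-/

open MeasureTheory Set Filter

namespace Pool.Agent.Lib.MP_8fe63c_mp

theorem FAe_comp {E F : Type} [NormedAddCommGroup E] [NormedSpace ℝ E] [MeasurableSpace E]
    [BorelSpace E] [FiniteDimensional ℝ E] [NormedAddCommGroup F] [NormedSpace ℝ F]
    [MeasurableSpace F] [BorelSpace F] [FiniteDimensional ℝ F] (μ : Measure E) (ν : Measure F)
    [μ.IsAddHaarMeasure] [ν.IsAddHaarMeasure] (L : E →ₗ[ℝ] F) (hL : Function.Surjective L)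
    {f g : F → ℝ} (h : f =ᵐ[ν] g) : ∀ᵐ x ∂μ, f (L x) = g (L x) := by
  obtain ⟨t, ht, hm, hs⟩ := h.exists_measurable_mem
  filter_upwards [(ae_comp_linearMap_mem_iff L μ ν hL hm).2 ht] with x hx
  exact hs _ hx

theorem FAe_haar : (volume : Measure (R3 × R3)).IsAddHaarMeasure :=
  Measure.prod.instIsAddHaarMeasure _ _

theorem bM_congr {V V' : R3 × R3 → ℝ} (h : V =ᵐ[volume] V') : bM V = bM V' := by
  have key : ∀ φ : R3 × R3 → ℝ, ∫ x, (2 * mGradSq φ x + V x * (1 - φ x) ^ 2) =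
      ∫ x, (2 * mGradSq φ x + V' x * (1 - φ x) ^ 2) := fun φ =>
    integral_congr_ae (by filter_upwards [h] with x hx; rw [hx])
  simp only [bM, key]

/-- the relative coordinates of three particles -/
noncomputable def FAe_rel {N : ℕ} (s : ℝ) (i j k : Fin N) : (Fin N → R3) →ₗ[ℝ] R3 × R3 :=
  LinearMap.prod
    (s • ((LinearMap.proj i : (Fin N → R3) →ₗ[ℝ] R3) - (LinearMap.proj j : (Fin N → R3) →ₗ[ℝ] R3)))
    (s • ((LinearMap.proj i : (Fin N → R3) →ₗ[ℝ] R3) - (LinearMap.proj k : (Fin N → R3) →ₗ[ℝ] R3)))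

theorem FAe_rel_surj {N : ℕ} {s : ℝ} (hs : s ≠ 0) {i j k : Fin N} (h1 : i < j) (h2 : j < k) :
    Function.Surjective (FAe_rel s i j k) := by
  rintro ⟨a, b⟩
  refine ⟨fun l => if l = j then -(s⁻¹ • a) else if l = k then -(s⁻¹ • b) else 0, ?_⟩
  have e1 : i ≠ j := h1.ne
  have e2 : i ≠ k := (h1.trans h2).ne
  have e3 : k ≠ j := h2.ne'
  simp [FAe_rel, e1, e2, e3, smul_smul, hs]

theorem EN_congr_V {V V' : R3 × R3 → ℝ} (h : V =ᵐ[volume] V') (W : R3 → ℝ) (N : ℕ) :
    EN V W N = EN V' W N := by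
  have := FAe_haar
  have hp : ∀ᵐ x : Fin N → R3, potN V W N x = potN V' W N x := by
    have : ∀ᵐ x : Fin N → R3, ∀ i j k : Fin N, i < j ∧ j < k →
        V (√(N : ℝ) • (x i - x j), √(N : ℝ) • (x i - x k)) =
          V' (√(N : ℝ) • (x i - x j), √(N : ℝ) • (x i - x k)) := by
      simp only [ae_all_iff]
      intro i j k hijk
      have hN : √(N : ℝ) ≠ 0 := by
        have : 0 < N := lt_of_le_of_lt (Nat.zero_le _) i.2
        positivity
      filter_upwards [FAe_comp volume volume (FAe_rel √(N : ℝ) i j k)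
        (FAe_rel_surj hN hijk.1 hijk.2) h] with x hx
      exact hx
    filter_upwards [this] with x hx
    unfold potN
    congr 1
    refine Finset.sum_congr rfl fun i _ => Finset.sum_congr rfl fun j _ =>
      Finset.sum_congr rfl fun k _ => ?_
    split_ifs with hc
    · rw [hx i j k hc]
    · rfl
  have key : ∀ Ψ : (Fin N → R3) → ℂ,
      ∫ x, ((∑ i : Fin N, ∑ k : Fin 3, ‖fderiv ℝ Ψ x (Pi.single i (uv k))‖ ^ 2) +
        potN V W N x * ‖Ψ x‖ ^ 2) =
      ∫ x, ((∑ i : Fin N, ∑ k : Fin 3, ‖fderiv ℝ Ψ x (Pi.single i (uv k))‖ ^ 2) +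
        potN V' W N x * ‖Ψ x‖ ^ 2) := fun Ψ =>
    integral_congr_ae (by filter_upwards [hp] with x hx; rw [hx])
  simp only [EN, key]

/-- the linear map `(x, y) ↦ (a x + b y, c x + d y)` -/
noncomputable def FAe_lin (a b c d : ℝ) : R3 × R3 →ₗ[ℝ] R3 × R3 :=
  LinearMap.prod (a • LinearMap.fst ℝ R3 R3 + b • LinearMap.snd ℝ R3 R3)
    (c • LinearMap.fst ℝ R3 R3 + d • LinearMap.snd ℝ R3 R3)

theorem FAe_lin_apply (a b c d : ℝ) (x y : R3) :
    FAe_lin a b c d (x, y) = (a • x + b • y, c • x + d • y) := rfl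

theorem FAe_lin_surj {a b c d : ℝ} (h : a * d - b * c ≠ 0) :
    Function.Surjective (FAe_lin a b c d) := by
  rintro ⟨u, v⟩
  refine ⟨((a * d - b * c)⁻¹ • (d • u - b • v), (a * d - b * c)⁻¹ • (a • v - c • u)), ?_⟩
  rw [FAe_lin_apply]
  refine Prod.ext ?_ ?_
  · have : a • (a * d - b * c)⁻¹ • (d • u - b • v) + b • (a * d - b * c)⁻¹ • (a • v - c • u) =
        ((a * d - b * c)⁻¹ * (a * d - b * c)) • u := by module
    rw [this, inv_mul_cancel₀ h, one_smul]
  · have : c • (a * d - b * c)⁻¹ • (d • u - b • v) + d • (a * d - b * c)⁻¹ • (a • v - c • u) =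
        ((a * d - b * c)⁻¹ * (a * d - b * c)) • v := by module
    rw [this, inv_mul_cancel₀ h, one_smul]

/-- symmetrisation -/
noncomputable def FAe_sym (V : R3 × R3 → ℝ) (p : R3 × R3) : ℝ :=
  (V (p.1, p.2) + V (p.2, p.1) + V (-p.1, p.2 - p.1) + V (p.2 - p.1, -p.1) + V (-p.2, p.1 - p.2) +
    V (p.1 - p.2, -p.2)) / 6

theorem exists_borel {V : R3 × R3 → ℝ} (hm : AEMeasurable V volume) (h0 : ∀ x, 0 ≤ V x)
    (hb : ∃ M : ℝ, ∀ x, V x ≤ M) (hc : HasCompactSupport V)
    (h1 : ∀ x y : R3, V (x, y) = V (y, x))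
    (h2 : ∀ x y z : R3, V (x - y, x - z) = V (y - x, y - z)) :
    ∃ V' : R3 × R3 → ℝ, V =ᵐ[volume] V' ∧ Measurable V' ∧ (∀ x, 0 ≤ V' x) ∧
      (∃ M : ℝ, ∀ x, V' x ≤ M) ∧ HasCompactSupport V' ∧ (∀ x y : R3, V' (x, y) = V' (y, x)) ∧
      (∀ x y z : R3, V' (x - y, x - z) = V' (y - x, y - z)) ∧
      ∀ x y z : R3, V' (y - x, y - z) = V' (z - y, z - x) := by
  have := FAe_haar
  obtain ⟨M, hM⟩ := hb
  obtain ⟨R, hR⟩ := hc.isCompact.isBounded.subset_closedBall 0
  have hM0 : 0 ≤ M := (h0 0).trans (hM 0)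
  set V₁ : R3 × R3 → ℝ :=
    (Metric.closedBall (0 : R3 × R3) R).indicator fun p => max 0 (min M (hm.mk V p)) with hV₁
  have m1 : Measurable V₁ :=
    (measurable_const.max (measurable_const.min hm.measurable_mk)).indicator
      measurableSet_closedBall
  have a1 : V =ᵐ[volume] V₁ := by
    filter_upwards [hm.ae_eq_mk] with p hp
    by_cases hpR : p ∈ Metric.closedBall (0 : R3 × R3) R
    · rw [hV₁, indicator_of_mem hpR, ← hp, min_eq_right (hM p), max_eq_right (h0 p)]
    · rw [hV₁, indicator_of_notMem hpR]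
      exact image_eq_zero_of_notMem_tsupport fun h => hpR (hR h)
  have b1 : ∀ p, 0 ≤ V₁ p ∧ V₁ p ≤ M := fun p => by
    by_cases hpR : p ∈ Metric.closedBall (0 : R3 × R3) R
    · rw [hV₁, indicator_of_mem hpR]
      exact ⟨le_max_left _ _, max_le hM0 (min_le_left _ _)⟩
    · rw [hV₁, indicator_of_notMem hpR]
      exact ⟨le_rfl, hM0⟩
  have z1 : ∀ x y : R3, R < ‖x‖ ∨ R < ‖y‖ → V₁ (x, y) = 0 := fun x y h => by
    rw [hV₁, indicator_of_notMem]
    rw [mem_closedBall_zero_iff, Prod.norm_def, not_le]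
    rcases h with h | h
    · exact lt_max_of_lt_left h
    · exact lt_max_of_lt_right h
  have s2 : ∀ x y : R3, V (-x, y - x) = V (x, y) := fun x y => by
    have := h2 0 x (x - y)
    simp only [zero_sub, neg_sub, sub_zero, sub_sub_cancel] at this
    exact this
  refine ⟨FAe_sym V₁, ?_, ?_, fun p => ?_, ⟨M, fun p => ?_⟩, ?_, fun x y => ?_, fun x y z => ?_,
    fun x y z => ?_⟩
  · have g := fun a b c d (h : a * d - b * c ≠ 0) =>
      FAe_comp volume volume (FAe_lin a b c d) (FAe_lin_surj h) a1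
    filter_upwards [a1, g 0 1 1 0 (by norm_num), g (-1) 0 (-1) 1 (by norm_num),
      g (-1) 1 (-1) 0 (by norm_num), g 0 (-1) 1 (-1) (by norm_num),
      g 1 (-1) 0 (-1) (by norm_num)] with p e1 e2 e3 e4 e5 e6
    obtain ⟨x, y⟩ := p
    simp only [FAe_lin_apply, zero_smul, one_smul, neg_smul, zero_add, add_zero,
      neg_add_eq_sub, ← sub_eq_add_neg, zero_sub] at e2 e3 e4 e5 e6
    simp only [FAe_sym]
    rw [← e1, ← e2, ← e3, ← e4, ← e5, ← e6, h1 y x, h1 (y - x) (-x), s2 x y, h1 (x - y) (-y),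
      s2 y x, h1 y x]
    ring
  · unfold FAe_sym
    refine Measurable.div_const (Measurable.add (Measurable.add (Measurable.add (Measurable.add
      (Measurable.add ?_ ?_) ?_) ?_) ?_) ?_) _ <;> exact m1.comp (by fun_prop)
  · unfold FAe_sym
    have := fun q => (b1 q).1
    refine div_nonneg ?_ (by norm_num)
    exact add_nonneg (add_nonneg (add_nonneg (add_nonneg (add_nonneg (this _) (this _)) (this _))
      (this _)) (this _)) (this _)
  · unfold FAe_sym
    linarith [(b1 (p.1, p.2)).2, (b1 (p.2, p.1)).2, (b1 (-p.1, p.2 - p.1)).2,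
      (b1 (p.2 - p.1, -p.1)).2, (b1 (-p.2, p.1 - p.2)).2, (b1 (p.1 - p.2, -p.2)).2]
  · refine HasCompactSupport.intro (isCompact_closedBall (0 : R3 × R3) (2 * |R|)) ?_
    rintro ⟨x, y⟩ hp
    rw [mem_closedBall_zero_iff, Prod.norm_def, not_le, lt_max_iff] at hp
    have hR1 := le_abs_self R
    have hR2 := abs_nonneg R
    have t1 : ‖y‖ ≤ ‖y - x‖ + ‖x‖ := by simpa using norm_add_le (y - x) x
    have t2 : ‖x‖ ≤ ‖x - y‖ + ‖y‖ := by simpa using norm_add_le (x - y) y
    have q1 : R < ‖x‖ ∨ R < ‖y‖ := by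
      rcases hp with hp | hp
      · left; simp only at hp; linarith
      · right; simp only at hp; linarith
    have q2 : R < ‖-x‖ ∨ R < ‖y - x‖ := by
      rw [norm_neg]
      by_contra hc
      push Not at hc
      rcases hp with hp | hp <;> simp only at hp <;> linarith [hc.1, hc.2]
    have q3 : R < ‖-y‖ ∨ R < ‖x - y‖ := by
      rw [norm_neg]
      by_contra hc
      push Not at hc
      rcases hp with hp | hp <;> simp only at hp <;> linarith [hc.1, hc.2]
    simp only [FAe_sym]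
    rw [z1 _ _ q1, z1 _ _ q1.symm, z1 _ _ q2, z1 _ _ q2.symm, z1 _ _ q3, z1 _ _ q3.symm]
    norm_num
  · simp only [FAe_sym]
    ring
  · simp only [FAe_sym]
    have e1 : -(x - y) = y - x := by abel
    have e2 : x - z - (x - y) = y - z := by abel
    have e3 : -(x - z) = z - x := by abel
    have e4 : x - y - (x - z) = z - y := by abel
    have e5 : -(y - x) = x - y := by abel
    have e6 : y - z - (y - x) = x - z := by abel
    have e7 : -(y - z) = z - y := by abel
    have e8 : y - x - (y - z) = z - x := by abel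
    rw [e1, e2, e3, e4, e5, e6, e7, e8]
    ring
  · simp only [FAe_sym]
    have e1 : -(y - x) = x - y := by abel
    have e2 : y - z - (y - x) = x - z := by abel
    have e3 : -(y - z) = z - y := by abel
    have e4 : y - x - (y - z) = z - x := by abel
    have e5 : -(z - y) = y - z := by abel
    have e6 : z - x - (z - y) = y - x := by abel
    have e7 : -(z - x) = x - z := by abel
    have e8 : z - y - (z - x) = x - y := by abel
    rw [e1, e2, e3, e4, e5, e6, e7, e8]
    ring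

end Pool.Agent.Lib.MP_8fe63c_mp
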