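import Pool.Agent.Lib.MP_8fe63c_mp.PVs
import Pool.Agent.Lib.MP_8fe63c_mp.HMicro

/-!
From real functions to the ground state energy; reduction of the hypotheses on the trap.

Sketch. `potN_eq`: the summand `f i j k = N U (√N • ![x i, x j, x k])` is symmetric; the embeddings of `Fin 3` are
the triples of distinct indices, and each is a permutation of exactly one increasing triple (split the
sum over triples of distinct indices in the six orderings and rename). `energy_eq`: real and imaginary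
parts are `Cc1`, `‖z‖^2 = re^2 + im^2`, `pgrad_eq`, `EuclideanSpace.norm_sq_eq`; all integrands are continuous or
locally bounded with compact support. `EN_le`: normalise `F`; the set is bounded below by `0`.
`exists_pot`: take a measurable version `W₀`, a measurable null set `Z` outside of which all the countably
many conditions hold, and put `W x = C ‖x‖^α` on `Z`. `EN_congr`: each projection `x ↦ x i` is quasi measure
preserving.
-/

set_option linter.unusedSectionVars false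

open MeasureTheory Set Filter Topology
open scoped ENNReal InnerProductSpace

namespace Pool.Agent.Lib.MP_8fe63c_mp

variable {I κ ι : Type} [Fintype I] [DecidableEq I] [Fintype κ] [DecidableEq κ]
  [Fintype ι] [DecidableEq ι]


variable {V : R3 × R3 → ℝ} {W : R3 → ℝ} {K : ℝ}

theorem FCx_emb {N : ℕ} (f : Fin N → Fin N → Fin N → ℝ) :
    ∑ σ : Fin 3 ↪ Fin N, f (σ 0) (σ 1) (σ 2) =
      ∑ i, ∑ j, ∑ k, if i ≠ j ∧ i ≠ k ∧ j ≠ k then f i j k else 0 := by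
  have e : (∑ i, ∑ j, ∑ k, if i ≠ j ∧ i ≠ k ∧ j ≠ k then f i j k else 0) =
      ∑ p ∈ (Finset.univ : Finset (Fin N × Fin N × Fin N)).filter
        (fun p => p.1 ≠ p.2.1 ∧ p.1 ≠ p.2.2 ∧ p.2.1 ≠ p.2.2), f p.1 p.2.1 p.2.2 := by
    rw [Finset.sum_filter, Fintype.sum_prod_type]
    refine Finset.sum_congr rfl fun i _ => ?_
    rw [Fintype.sum_prod_type]
  rw [e]
  refine Finset.sum_nbij (fun σ => (σ 0, σ 1, σ 2)) (fun σ _ => ?_) (fun σ _ τ _ hst => ?_)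
    (fun p hp => ?_) fun _ _ => rfl
  · rw [Finset.mem_filter]
    exact ⟨Finset.mem_univ _, σ.injective.ne (by decide), σ.injective.ne (by decide),
      σ.injective.ne (by decide)⟩
  · simp only [Prod.mk.injEq] at hst
    refine DFunLike.ext _ _ fun a => ?_
    fin_cases a
    · exact hst.1
    · exact hst.2.1
    · exact hst.2.2
  · obtain ⟨i, j, k⟩ := p
    obtain ⟨h1, h2, h3⟩ := (Finset.mem_filter.1 (Finset.mem_coe.1 hp)).2
    refine ⟨⟨![i, j, k], fun a b hab => ?_⟩, Finset.mem_coe.2 (Finset.mem_univ _), rfl⟩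
    fin_cases a <;> fin_cases b <;> simp_all [eq_comm]

theorem FCx_six {N : ℕ} (f : Fin N → Fin N → Fin N → ℝ) (h1 : ∀ i j k, f j i k = f i j k)
    (h2 : ∀ i j k, f i k j = f i j k) :
    ∑ σ : Fin 3 ↪ Fin N, f (σ 0) (σ 1) (σ 2) =
      6 * ∑ i, ∑ j, ∑ k, if i < j ∧ j < k then f i j k else 0 := by
  set T : Fin N → Fin N → Fin N → ℝ := fun i j k => if i < j ∧ j < k then f i j k else 0 with hT
  have key : ∀ i j k, (if i ≠ j ∧ i ≠ k ∧ j ≠ k then f i j k else 0) =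
      T i j k + T i k j + T j i k + T j k i + T k i j + T k j i := by
    intro i j k
    have e1 : f j k i = f i j k := by rw [h2 j i k, h1]
    have e2 : f k i j = f i j k := by rw [h1 i k j, h2]
    have e3 : f k j i = f i j k := by rw [h1 j k i, e1]
    simp only [hT, h1 i j k, h2 i j k, e1, e2, e3, Fin.lt_def, ne_eq, Fin.ext_iff]
    split_ifs <;> first | omega | simp
  have s1 : ∑ i, ∑ j, ∑ k, T i k j = ∑ i, ∑ j, ∑ k, T i j k :=
    Finset.sum_congr rfl fun i _ => Finset.sum_comm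
  have s2 : ∑ i, ∑ j, ∑ k, T j i k = ∑ i, ∑ j, ∑ k, T i j k := Finset.sum_comm
  have s3 : ∑ i, ∑ j, ∑ k, T j k i = ∑ i, ∑ j, ∑ k, T i j k :=
    Finset.sum_comm.trans (Finset.sum_congr rfl fun i _ => Finset.sum_comm)
  have s4 : ∑ i, ∑ j, ∑ k, T k i j = ∑ i, ∑ j, ∑ k, T i j k :=
    (Finset.sum_congr rfl fun i _ => Finset.sum_comm).trans Finset.sum_comm
  have s5 : ∑ i, ∑ j, ∑ k, T k j i = ∑ i, ∑ j, ∑ k, T i j k :=
    (Finset.sum_comm.trans (Finset.sum_congr rfl fun i _ => Finset.sum_comm)).trans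
      Finset.sum_comm
  rw [FCx_emb]
  simp only [key, Finset.sum_add_distrib, s1, s2, s3, s4, s5]
  ring

theorem FCx_norm_pgrad {F : (ι → R3) → ℝ} {x : ι → R3} (h : DifferentiableAt ℝ F x) (i : ι) :
    ‖pgrad F i x‖ ^ 2 = ∑ k : Fin 3, fderiv ℝ F x (Pi.single i (uv k)) ^ 2 := by
  rw [EuclideanSpace.norm_sq_eq]
  refine Finset.sum_congr rfl fun k _ => ?_
  rw [← pgrad_eq h, uv, EuclideanSpace.inner_single_right, Real.norm_eq_abs, sq_abs]
  simp

theorem FCx_int {W : R3 → ℝ} {UN : (Fin 3 → R3) → ℝ} (hW : Pot W) (h : Wt3 UN)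
    {F : (ι → R3) → ℝ} (hF : Cc1 F) :
    Integrable (fun x => (∑ i, (‖pgrad F i x‖ ^ 2 + W (x i) * F x ^ 2)) +
      intP UN x * F x ^ 2) (muP univ ι) := by
  simp only [PVs_intP]
  exact (integrable_finsetSum _ fun i _ => PVs_int1 hW hF i).add
    ((integrable_finsetSum _ fun σ _ => PVs_int2 h hF.memLp σ).const_mul _)

theorem FCx_sq (z : ℂ) : ‖z‖ ^ 2 = z.re ^ 2 + z.im ^ 2 := by
  rw [Complex.sq_norm, Complex.normSq_apply]
  ring

theorem FCx_QO_mul (W : R3 → ℝ) (UN : (Fin 3 → R3) → ℝ) {F : (ι → R3) → ℝ} (hF : Cc1 F) (a : ℝ) :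
    QO univ W UN (fun x => a * F x) = a ^ 2 * QO univ W UN F := by
  unfold QO
  rw [← integral_const_mul]
  refine integral_congr_ae (Eventually.of_forall fun x => ?_)
  have hd : DifferentiableAt ℝ F x := hF.1.differentiable one_ne_zero x
  have e : ∀ i, pgrad (fun x => a * F x) i x = a • pgrad F i x := fun i =>
    ext_inner_right ℝ fun v => by
      rw [pgrad_eq (hd.const_mul a), real_inner_smul_left, pgrad_eq hd, fderiv_const_mul hd]
      rfl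
  simp only [e, norm_smul, mul_pow, Real.norm_eq_abs, sq_abs, mul_add, Finset.mul_sum]
  congr 1
  · refine Finset.sum_congr rfl fun i _ => ?_
    ring
  · ring

theorem potN_eq (h : Pot3 (Uof V) K) (W : R3 → ℝ) (N : ℕ) (x : Fin N → R3) :
    potN V W N x = (∑ i, W (x i)) + intP (sc (√(N : ℝ) ^ 2) √(N : ℝ) (Uof V)) x := by
  set f : Fin N → Fin N → Fin N → ℝ :=
    fun i j k => sc (√(N : ℝ) ^ 2) √(N : ℝ) (Uof V) ![x i, x j, x k] with hf
  have hs : ∀ (π : Equiv.Perm (Fin 3)) (y : Fin 3 → R3),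
      sc (√(N : ℝ) ^ 2) √(N : ℝ) (Uof V) (y ∘ π) = sc (√(N : ℝ) ^ 2) √(N : ℝ) (Uof V) y := by
    intro π y
    unfold sc
    rw [← h.symm π (√(N : ℝ) • y)]
    rfl
  have h1 : ∀ i j k, f j i k = f i j k := fun i j k => by
    simp only [hf]
    rw [← hs (Equiv.swap 0 1) ![x i, x j, x k]]
    congr 1
    funext a
    fin_cases a <;> rfl
  have h2 : ∀ i j k, f i k j = f i j k := fun i j k => by
    simp only [hf]
    rw [← hs (Equiv.swap 1 2) ![x i, x j, x k]]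
    congr 1
    funext a
    fin_cases a <;> rfl
  have h3 : ∀ σ : Fin 3 ↪ Fin N,
      sc (√(N : ℝ) ^ 2) √(N : ℝ) (Uof V) (x ∘ σ) = f (σ 0) (σ 1) (σ 2) := fun σ => by
    simp only [hf]
    congr 1
    funext a
    fin_cases a <;> rfl
  have h4 : ∀ i j k, (N : ℝ) * V (√(N : ℝ) • (x i - x j), √(N : ℝ) • (x i - x k)) = f i j k := by
    intro i j k
    simp only [hf, sc, Uof, Real.sq_sqrt (Nat.cast_nonneg N), smul_sub]
    rfl
  unfold potN intP
  simp only [h3, h4]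
  rw [FCx_six f h1 h2]
  ring

theorem energy_eq (h : Pot3 (Uof V) K) (hW : Pot W) {N : ℕ} {Ψ : (Fin N → R3) → ℂ}
    (h1 : ContDiff ℝ 1 Ψ) (h2 : HasCompactSupport Ψ) :
    Cc1 (fun x => (Ψ x).re) ∧ Cc1 (fun x => (Ψ x).im) ∧
    ∫ x, ‖Ψ x‖ ^ 2 = (∫ x, (Ψ x).re ^ 2) + ∫ x, (Ψ x).im ^ 2 ∧
    ∫ x, ((∑ i : Fin N, ∑ k : Fin 3, ‖fderiv ℝ Ψ x (Pi.single i (uv k))‖ ^ 2) +
        potN V W N x * ‖Ψ x‖ ^ 2) =
      QO univ W (sc (√(N : ℝ) ^ 2) √(N : ℝ) (Uof V)) (fun x => (Ψ x).re) +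
        QO univ W (sc (√(N : ℝ) ^ 2) √(N : ℝ) (Uof V)) (fun x => (Ψ x).im) := by
  have hr : Cc1 (fun x => (Ψ x).re) :=
    ⟨Complex.reCLM.contDiff.comp h1, h2.comp_left (g := Complex.re) rfl⟩
  have hi : Cc1 (fun x => (Ψ x).im) :=
    ⟨Complex.imCLM.contDiff.comp h1, h2.comp_left (g := Complex.im) rfl⟩
  have hw := wt3_sc h (sq_nonneg √(N : ℝ)) √(N : ℝ)
  refine ⟨hr, hi, ?_, ?_⟩
  · have i1 := (hr.memLp (Ω := univ)).integrable_sq
    have i2 := (hi.memLp (Ω := univ)).integrable_sq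
    rw [muP_univ] at i1 i2
    rw [← integral_add i1 i2]
    exact integral_congr_ae (Eventually.of_forall fun x => FCx_sq _)
  · unfold QO
    rw [← integral_add (FCx_int hW hw hr) (FCx_int hW hw hi), muP_univ]
    refine integral_congr_ae (Eventually.of_forall fun x => ?_)
    have hd : DifferentiableAt ℝ Ψ x := h1.differentiable one_ne_zero x
    have e1 : ∀ v, fderiv ℝ (fun x => (Ψ x).re) x v = (fderiv ℝ Ψ x v).re := fun v => by
      have := (Complex.reCLM.hasFDerivAt.comp x hd.hasFDerivAt).fderiv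
      exact congrArg (fun L : (Fin N → R3) →L[ℝ] ℝ => L v) this
    have e2 : ∀ v, fderiv ℝ (fun x => (Ψ x).im) x v = (fderiv ℝ Ψ x v).im := fun v => by
      have := (Complex.imCLM.hasFDerivAt.comp x hd.hasFDerivAt).fderiv
      exact congrArg (fun L : (Fin N → R3) →L[ℝ] ℝ => L v) this
    simp only [FCx_norm_pgrad (hr.1.differentiable one_ne_zero x),
      FCx_norm_pgrad (hi.1.differentiable one_ne_zero x), e1, e2, potN_eq h, FCx_sq,
      Finset.sum_add_distrib, ← Finset.sum_mul]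
    ring

/-- two-sided bound for the ground state energy -/
theorem EN_bounds (h : Pot3 (Uof V) K) (hW : Pot W) {N : ℕ} {c c' : ℝ}
    (hl : ∀ F : (Fin N → R3) → ℝ, Cc1 F →
      c * ∫ x, F x ^ 2 ≤ QO univ W (sc (√(N : ℝ) ^ 2) √(N : ℝ) (Uof V)) F)
    {F : (Fin N → R3) → ℝ} (hF : Cc1 F) (hs : Symm F) (h0 : 0 < ∫ x, F x ^ 2)
    (hu : QO univ W (sc (√(N : ℝ) ^ 2) √(N : ℝ) (Uof V)) F ≤ c' * ∫ x, F x ^ 2) :
    c ≤ EN V W N ∧ EN V W N ≤ c' := by
  have hlow : ∀ r ∈ {r : ℝ | ∃ Ψ : (Fin N → R3) → ℂ, ContDiff ℝ 1 Ψ ∧ HasCompactSupport Ψ ∧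
      (∀ (π : Equiv.Perm (Fin N)) (x : Fin N → R3), Ψ (x ∘ π) = Ψ x) ∧
      (∫ x, ‖Ψ x‖ ^ 2) = 1 ∧
      r = ∫ x, ((∑ i : Fin N, ∑ k : Fin 3, ‖fderiv ℝ Ψ x (Pi.single i (uv k))‖ ^ 2) +
        potN V W N x * ‖Ψ x‖ ^ 2)}, c ≤ r := by
    rintro r ⟨Ψ, h1, h2, -, h4, rfl⟩
    obtain ⟨hr, hi, e1, e2⟩ := energy_eq h hW h1 h2
    have l1 := hl _ hr
    have l2 := hl _ hi
    rw [e2]
    rw [h4] at e1
    calc c = c * ((∫ x, (Ψ x).re ^ 2) + ∫ x, (Ψ x).im ^ 2) := by rw [← e1, mul_one]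
      _ ≤ _ := by rw [mul_add]; exact add_le_add l1 l2
  set m := ∫ x, F x ^ 2 with hm
  set a := (√m)⁻¹ with ha
  have ha2 : a ^ 2 * m = 1 := by
    rw [ha, inv_pow, Real.sq_sqrt h0.le]
    exact inv_mul_cancel₀ h0.ne'
  set Ψ : (Fin N → R3) → ℂ := fun x => ((a * F x : ℝ) : ℂ) with hΨ
  have h1 : ContDiff ℝ 1 Ψ := Complex.ofRealCLM.contDiff.comp (contDiff_const.mul hF.1)
  have h2 : HasCompactSupport Ψ :=
    hF.2.comp_left (g := fun t : ℝ => ((a * t : ℝ) : ℂ)) (by simp)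
  have h3 : ∀ (π : Equiv.Perm (Fin N)) (x : Fin N → R3), Ψ (x ∘ π) = Ψ x := fun π x => by
    simp only [hΨ, hs π x]
  have h4 : (∫ x, ‖Ψ x‖ ^ 2) = 1 := by
    rw [← ha2, hm, ← integral_const_mul]
    refine integral_congr_ae (Eventually.of_forall fun x => ?_)
    simp only [hΨ, Complex.norm_real, Real.norm_eq_abs, sq_abs, mul_pow]
  have e2 := (energy_eq h hW h1 h2).2.2.2
  have er : (fun x => (Ψ x).re) = fun x => a * F x := funext fun x => Complex.ofReal_re _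
  have ei : (fun x => (Ψ x).im) = fun x => 0 * F x :=
    funext fun x => by rw [zero_mul]; exact Complex.ofReal_im _
  rw [er, ei, FCx_QO_mul _ _ hF, FCx_QO_mul _ _ hF] at e2
  refine ⟨le_csInf ⟨_, Ψ, h1, h2, h3, h4, rfl⟩ hlow,
    (csInf_le ⟨c, hlow⟩ ⟨Ψ, h1, h2, h3, h4, rfl⟩).trans ?_⟩
  rw [e2]
  have h5 := mul_le_mul_of_nonneg_left hu (sq_nonneg a)
  calc _ = a ^ 2 * QO univ W (sc (√(N : ℝ) ^ 2) √(N : ℝ) (Uof V)) F := by ring
    _ ≤ a ^ 2 * (c' * m) := h5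
    _ = c' * (a ^ 2 * m) := by ring
    _ = c' := by rw [ha2, mul_one]

theorem exists_pot {Vext : R3 → ℝ} (hm : AEStronglyMeasurable Vext volume)
    (hb : ∀ R : ℝ, ∃ M : ℝ, ∀ᵐ x, ‖x‖ ≤ R → |Vext x| ≤ M) {C α : ℝ} (hC : 0 < C) (hα : 0 < α)
    (hg : ∀ᵐ x, C * ‖x‖ ^ α ≤ Vext x) : ∃ W : R3 → ℝ, Pot W ∧ Grows W ∧ W =ᵐ[volume] Vext := by
  classical
  choose M hM using hb
  have hG : ∀ᵐ x, Vext x = hm.mk Vext x ∧ C * ‖x‖ ^ α ≤ Vext x ∧
      ∀ n : ℕ, ‖x‖ ≤ n → |Vext x| ≤ M n := by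
    filter_upwards [hm.ae_eq_mk, hg, ae_all_iff.2 fun n : ℕ => hM n] with x h1 h2 h3
    exact ⟨h1, h2, h3⟩
  obtain ⟨Z, hZ1, hZ2, hZ3⟩ := exists_measurable_superset_of_null (ae_iff.1 hG)
  have hgood : ∀ x, x ∉ Z → Vext x = hm.mk Vext x ∧ C * ‖x‖ ^ α ≤ Vext x ∧
      ∀ n : ℕ, ‖x‖ ≤ n → |Vext x| ≤ M n := fun x hx => by
    by_contra hc
    exact hx (hZ1 hc)
  set W : R3 → ℝ := fun x => if x ∈ Z then C * ‖x‖ ^ α else hm.mk Vext x with hW
  have hlow : ∀ x, C * ‖x‖ ^ α ≤ W x := fun x => by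
    by_cases hx : x ∈ Z
    · simp only [hW, if_pos hx, le_refl]
    · simp only [hW, if_neg hx]
      rw [← (hgood x hx).1]
      exact (hgood x hx).2.1
  refine ⟨W, ⟨?_, fun x => le_trans (by positivity) (hlow x), fun R => ?_⟩, fun A => ?_, ?_⟩
  · exact Measurable.ite hZ2 ((measurable_norm.pow_const α).const_mul C)
      hm.stronglyMeasurable_mk.measurable
  · refine ⟨max (M ⌈R⌉₊) (C * (⌈R⌉₊ : ℝ) ^ α), fun x hx => ?_⟩
    have hx' : ‖x‖ ≤ (⌈R⌉₊ : ℝ) := hx.trans (Nat.le_ceil R)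
    by_cases hz : x ∈ Z
    · simp only [hW, if_pos hz]
      exact le_max_of_le_right (mul_le_mul_of_nonneg_left
        (Real.rpow_le_rpow (norm_nonneg _) hx' hα.le) hC.le)
    · simp only [hW, if_neg hz]
      rw [← (hgood x hz).1]
      exact le_max_of_le_left ((le_abs_self _).trans ((hgood x hz).2.2 _ hx'))
  · have ht : Tendsto (fun t : ℝ => C * t ^ α) atTop atTop :=
      (tendsto_rpow_atTop hα).const_mul_atTop hC
    obtain ⟨R, hR⟩ := eventually_atTop.1 (ht.eventually_ge_atTop A)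
    exact ⟨R, fun x hx => (hR _ hx).trans (hlow x)⟩
  · filter_upwards [measure_eq_zero_iff_ae_notMem.1 hZ3] with x hx
    simp only [hW, if_neg hx]
    exact (hgood x hx).1.symm

theorem EN_congr {W W' : R3 → ℝ} (h : W =ᵐ[volume] W') (V : R3 × R3 → ℝ) (N : ℕ) :
    EN V W N = EN V W' N := by
  have h1 : ∀ᵐ x : Fin N → R3, ∀ i, W (x i) = W' (x i) := ae_all_iff.2 fun i =>
    (Measure.quasiMeasurePreserving_eval (fun _ : Fin N => (volume : Measure R3)) i).ae_eq_comp h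
  have h2 : ∀ Ψ : (Fin N → R3) → ℂ,
      ∫ x, ((∑ i : Fin N, ∑ k : Fin 3, ‖fderiv ℝ Ψ x (Pi.single i (uv k))‖ ^ 2) +
        potN V W N x * ‖Ψ x‖ ^ 2) =
      ∫ x, ((∑ i : Fin N, ∑ k : Fin 3, ‖fderiv ℝ Ψ x (Pi.single i (uv k))‖ ^ 2) +
        potN V W' N x * ‖Ψ x‖ ^ 2) := fun Ψ => by
    refine integral_congr_ae ?_
    filter_upwards [h1] with x hx
    simp only [potN, hx]
  simp only [EN, h2]

theorem eGP_congr {W W' : R3 → ℝ} (h : W =ᵐ[volume] W') (b : ℝ) : eGP W b = eGP W' b := by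
  have h2 : ∀ u : R3 → ℂ,
      ∫ x, ((∑ k : Fin 3, ‖fderiv ℝ u x (uv k)‖ ^ 2) + W x * ‖u x‖ ^ 2 + b / 6 * ‖u x‖ ^ 6) =
      ∫ x, ((∑ k : Fin 3, ‖fderiv ℝ u x (uv k)‖ ^ 2) + W' x * ‖u x‖ ^ 2 + b / 6 * ‖u x‖ ^ 6) :=
    fun u => by
      refine integral_congr_ae ?_
      filter_upwards [h] with x hx
      rw [hx]
  simp only [eGP, h2]

end Pool.Agent.Lib.MP_8fe63c_mp
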