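import Pool.Agent.Lib.MP_8fe63c_mp.HB1

/-!
Identification of the scattering energy.

Sketch. Put `w (r, r') = ω ![0, -r, -r']`, so that `ω x = w (x 0 - x 1, x 0 - x 2)`; `w` is `C^1` with
bounded derivative and square integrable (`green_norms` with `m = 0`). Let
`Bf φ ψ = 2 ∑ k (∂₁φ ∂₁ψ + ∂₂φ ∂₂ψ) + ∑ k (∂₁φ ∂₂ψ + ∂₂φ ∂₁ψ)`, so `Bf φ φ = 2 mGradSq φ`. Testing the weak
equation on nine variables with `ϑ (x 0) ζ (x 0 - x 1, x 0 - x 2)`, `∫ ϑ = 1`, and changing variables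
gives `∫ Bf w ζ = ∫ V (1 - w) ζ` for `Cc1 ζ` (the term with `∇ϑ` vanishes since `∫ ∇ϑ = 0`). Testing with
`χ_R^2 w`: `∫ Bf (χ_R w) (χ_R w) = ∫ V (1-w) χ_R^2 w + ∫ w^2 Bf χ_R χ_R`, the last term is `O(R^(-2))`.
Upper bound: trial function `χ_R w`. Lower bound: for `Cc1 φ`, positivity of the form at
`φ - χ_R w` for `R` large. Finally `relInt` is `∫ V (1 - w)` after the reflection `y ↦ -y`
(`MeasurableEquiv.piFinTwo`).
-/

set_option linter.unusedSectionVars false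

open MeasureTheory Set Filter Topology
open scoped ENNReal InnerProductSpace

namespace Pool.Agent.Lib.MP_8fe63c_mp

theorem HB_cut : ∃ M : ℝ, ∀ R : ℝ, 0 < R → ∃ χ : R3 × R3 → ℝ, Cc1 χ ∧
    (∀ y, ‖y‖ < R → χ y = 1 ∧ fderiv ℝ χ y = 0) ∧ ∀ y, ‖fderiv ℝ χ y‖ ≤ M / R := by
  let f : ContDiffBump (0 : R3 × R3) := ⟨1, 2, one_pos, one_lt_two⟩
  have hf : Cc1 (f : R3 × R3 → ℝ) := ⟨f.contDiff, f.hasCompactSupport⟩
  obtain ⟨M, hM⟩ := hf.cb1.2
  refine ⟨M, fun R hR => ?_⟩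
  let L : R3 × R3 →L[ℝ] R3 × R3 := R⁻¹ • ContinuousLinearMap.id ℝ (R3 × R3)
  have hL : ∀ y, ‖L y‖ = ‖y‖ / R := fun y => by
    change ‖R⁻¹ • y‖ = _
    rw [norm_smul, Real.norm_eq_abs, abs_of_pos (inv_pos.2 hR), div_eq_inv_mul]
  have h1 : ∀ y, ‖y‖ < R → f (L y) = 1 := fun y hy => by
    refine f.one_of_mem_closedBall ?_
    rw [mem_closedBall_zero_iff, hL]
    exact (div_le_one hR).2 hy.le
  refine ⟨fun y => f (L y), ⟨hf.1.comp L.contDiff, ?_⟩, fun y hy => ⟨h1 y hy, ?_⟩, fun y => ?_⟩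
  · refine HasCompactSupport.intro (isCompact_closedBall 0 (2 * R)) fun y hy => ?_
    refine f.zero_of_le_dist ?_
    rw [mem_closedBall_zero_iff, not_le] at hy
    rw [dist_zero_right, hL]
    exact (le_div_iff₀ hR).2 hy.le
  · have h2 : (fun y => f (L y)) =ᶠ[𝓝 y] fun _ => (1 : ℝ) := by
      filter_upwards [Metric.isOpen_ball.mem_nhds (mem_ball_zero_iff.2 hy)] with z hz
      exact h1 z (mem_ball_zero_iff.1 hz)
    rw [h2.fderiv_eq]
    simp
  · have d1 : HasFDerivAt (fun y => f (L y)) ((fderiv ℝ f (L y)).comp L) y :=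
      (hf.1.differentiable one_ne_zero _).hasFDerivAt.comp y L.hasFDerivAt
    rw [d1.fderiv]
    have hM0 : 0 ≤ M := (norm_nonneg _).trans (hM 0).2
    refine ContinuousLinearMap.opNorm_le_bound _ (by positivity) fun v => ?_
    calc ‖fderiv ℝ f (L y) (L v)‖ ≤ ‖fderiv ℝ f (L y)‖ * ‖L v‖ := ContinuousLinearMap.le_opNorm _ _
      _ ≤ M * (‖v‖ / R) := by
          rw [hL]
          exact mul_le_mul_of_nonneg_right (hM _).2 (by positivity)
      _ = M / R * ‖v‖ := by ring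

theorem HB_bdd {V : R3 × R3 → ℝ} (h0 : ∀ x, 0 ≤ V x) :
    ∀ r ∈ {r : ℝ | ∃ φ : R3 × R3 → ℝ, ContDiff ℝ 1 φ ∧ HasCompactSupport φ ∧
      r = ∫ x, (2 * mGradSq φ x + V x * (1 - φ x) ^ 2)}, 0 ≤ r := by
  rintro r ⟨φ, -, -, rfl⟩
  refine integral_nonneg fun x => add_nonneg ?_ (mul_nonneg (h0 x) (sq_nonneg _))
  rw [HB_mGrad]
  exact HB_Bl_nonneg _

theorem HB_int_V {V g : R3 × R3 → ℝ} {K : ℝ} (hm : Measurable V) (h0 : ∀ y, 0 ≤ V y)
    (hK : ∀ y, V y ≤ K) (hs : ∀ y, V y ≠ 0 → ‖y‖ ≤ K) (hg : Continuous g) :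
    Integrable fun y => V y * g y := by
  have h1 : Integrable ((Metric.closedBall (0 : R3 × R3) K).indicator g) :=
    (integrable_indicator_iff measurableSet_closedBall).2
      (hg.continuousOn.integrableOn_compact (isCompact_closedBall 0 K))
  have h2 := h1.bdd_mul hm.aestronglyMeasurable (c := K) (Eventually.of_forall fun y => by
    rw [Real.norm_eq_abs, abs_of_nonneg (h0 y)]; exact hK y)
  refine h2.congr (Eventually.of_forall fun y => ?_)
  by_cases h : V y = 0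
  · simp [h]
  · simp only []
    rw [indicator_of_mem (mem_closedBall_zero_iff.2 (hs y h))]

theorem HB_prod {χ w : R3 × R3 → ℝ} (hχ : ContDiff ℝ 1 χ) (hw : ContDiff ℝ 1 w) (y : R3 × R3) :
    fderiv ℝ (fun y => χ y * w y) y = χ y • fderiv ℝ w y + w y • fderiv ℝ χ y :=
  ((hχ.differentiable one_ne_zero y).hasFDerivAt.fun_mul
    (hw.differentiable one_ne_zero y).hasFDerivAt).fderiv

theorem HB_ims {χ w : R3 × R3 → ℝ} (hχ : ContDiff ℝ 1 χ) (hw : ContDiff ℝ 1 w) (y : R3 × R3) :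
    HB_Bl (fderiv ℝ (fun y => χ y * w y) y) (fderiv ℝ (fun y => χ y * w y) y) =
      HB_Bl (fderiv ℝ w y) (fderiv ℝ (fun y => χ y * (χ y * w y)) y) +
        w y ^ 2 * HB_Bl (fderiv ℝ χ y) (fderiv ℝ χ y) := by
  rw [HB_prod hχ (hχ.mul hw), HB_prod hχ hw]
  unfold HB_Bl
  rw [Finset.mul_sum, ← Finset.sum_add_distrib]
  refine Finset.sum_congr rfl fun k _ => ?_
  simp only [add_apply, smul_apply, smul_eq_mul]
  ring

theorem HB_Bl_sub (L L' : R3 × R3 →L[ℝ] ℝ) :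
    HB_Bl (L - L') (L - L') = HB_Bl L L - 2 * HB_Bl L' L + HB_Bl L' L' := by
  unfold HB_Bl
  rw [Finset.mul_sum, ← Finset.sum_sub_distrib, ← Finset.sum_add_distrib]
  refine Finset.sum_congr rfl fun k _ => ?_
  simp only [sub_apply]
  ring

theorem HB_main {V w : R3 × R3 → ℝ} {K : ℝ} (hm : Measurable V) (h0 : ∀ y, 0 ≤ V y)
    (hK : ∀ y, V y ≤ K) (hs : ∀ y, V y ≠ 0 → ‖y‖ ≤ K) (hw : ContDiff ℝ 1 w)
    (hl2 : Integrable fun y => w y ^ 2)
    (hweak : ∀ ζ, Cc1 ζ → ∫ y, HB_Bl (fderiv ℝ w y) (fderiv ℝ ζ y) = ∫ y, V y * (1 - w y) * ζ y) :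
    bM V = ∫ y, V y * (1 - w y) := by
  obtain ⟨M, hM⟩ := HB_cut
  have iV : ∀ {g : R3 × R3 → ℝ}, Continuous g → Integrable fun y => V y * g y :=
    fun hg => HB_int_V hm h0 hK hs hg
  have cw := hw.continuous
  set c := 18 * M ^ 2 * ∫ y, w y ^ 2 with hc
  have hlim : Tendsto (fun R : ℝ => c / R ^ 2) atTop (𝓝 0) :=
    tendsto_const_nhds.div_atTop (tendsto_pow_atTop two_ne_zero)
  -- the cut-off function
  have key : ∀ R : ℝ, 0 < R → K < R → ∃ u : R3 × R3 → ℝ, Cc1 u ∧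
      (∀ y, ‖y‖ < R → u y = w y ∧ fderiv ℝ u y = fderiv ℝ w y) ∧
      ∫ y, HB_Bl (fderiv ℝ u y) (fderiv ℝ u y) ≤ (∫ y, V y * ((1 - w y) * w y)) + c / R ^ 2 := by
    intro R hR hKR
    obtain ⟨χ, hχ, hχ1, hχ2⟩ := hM R hR
    have hu : Cc1 fun y => χ y * w y := ⟨hχ.1.mul hw, hχ.2.mul_right⟩
    have hu2 : Cc1 fun y => χ y * (χ y * w y) := ⟨hχ.1.mul hu.1, hχ.2.mul_right⟩
    refine ⟨fun y => χ y * w y, hu, fun y hy => ⟨?_, ?_⟩, ?_⟩
    · simp only [(hχ1 y hy).1, one_mul]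
    · rw [HB_prod hχ.1 hw, (hχ1 y hy).1, (hχ1 y hy).2, one_smul, smul_zero, add_zero]
    · simp only [HB_ims hχ.1 hw]
      have i2 := HB_int_Bl (g := fun y => w y ^ 2) (cw.pow 2) hχ.1 hχ
      rw [integral_add (HB_int_Bl' hw hu2) i2, hweak _ hu2]
      refine add_le_add (le_of_eq ?_) ?_
      · refine integral_congr_ae (Eventually.of_forall fun y => ?_)
        by_cases h : V y = 0
        · simp [h]
        · simp only [(hχ1 y ((hs y h).trans_lt hKR)).1]
          ring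
      · calc ∫ y, w y ^ 2 * HB_Bl (fderiv ℝ χ y) (fderiv ℝ χ y)
            ≤ ∫ y, 18 * (M / R) ^ 2 * w y ^ 2 := by
              refine integral_mono i2 (hl2.const_mul _) fun y => ?_
              have a1 := HB_Bl_le (fderiv ℝ χ y)
              have a2 := pow_le_pow_left₀ (norm_nonneg _) (hχ2 y) 2
              have a3 := sq_nonneg (w y)
              simp only []
              nlinarith
          _ = c / R ^ 2 := by
              rw [integral_const_mul, hc]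
              ring
  have hE : ∀ φ, Cc1 φ → ∫ x, (2 * mGradSq φ x + V x * (1 - φ x) ^ 2) =
      (∫ y, HB_Bl (fderiv ℝ φ y) (fderiv ℝ φ y)) + ∫ y, V y * (1 - φ y) ^ 2 := by
    intro φ hφ
    simp only [HB_mGrad]
    exact integral_add (HB_int_Bl' hφ.1 hφ) (iV ((continuous_const.sub hφ.1.continuous).pow 2))
  refine le_antisymm ?_ ?_
  · have h1 : Tendsto (fun R : ℝ => (∫ y, V y * (1 - w y)) + c / R ^ 2) atTop
        (𝓝 ((∫ y, V y * (1 - w y)) + 0)) := tendsto_const_nhds.add hlim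
    rw [add_zero] at h1
    refine ge_of_tendsto h1 ?_
    filter_upwards [eventually_gt_atTop 0, eventually_gt_atTop K] with R hR hKR
    obtain ⟨u, hu, hu1, hu2⟩ := key R hR hKR
    refine (csInf_le ⟨0, HB_bdd h0⟩ ⟨u, hu.1, hu.2, rfl⟩).trans ?_
    rw [hE u hu]
    have e1 : ∫ y, V y * (1 - w y) =
        (∫ y, V y * ((1 - w y) * w y)) + ∫ y, V y * (1 - u y) ^ 2 := by
      have j3 : Integrable fun y => V y * ((1 - w y) * w y) :=
        iV ((continuous_const.sub cw).mul cw)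
      have j1 : Integrable fun y => V y * (1 - u y) ^ 2 :=
        iV ((continuous_const.sub hu.1.continuous).pow 2)
      rw [← integral_add j3 j1]
      refine integral_congr_ae (Eventually.of_forall fun y => ?_)
      by_cases h : V y = 0
      · simp [h]
      · simp only [(hu1 y ((hs y h).trans_lt hKR)).1]
        ring
    linarith
  · refine le_csInf ⟨_, fun _ => 0, contDiff_const, HasCompactSupport.zero, rfl⟩ ?_
    rintro r ⟨φ, hφ1, hφ2, rfl⟩
    have hφ : Cc1 φ := ⟨hφ1, hφ2⟩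
    have cφ := hφ1.continuous
    obtain ⟨R', hR'⟩ := hφ2.isCompact.isBounded.subset_closedBall 0
    rw [hE φ hφ]
    have h1 : Tendsto (fun R : ℝ => ((∫ y, HB_Bl (fderiv ℝ φ y) (fderiv ℝ φ y)) +
        ∫ y, V y * (1 - φ y) ^ 2) + c / R ^ 2) atTop (𝓝 (_ + 0)) := tendsto_const_nhds.add hlim
    rw [add_zero] at h1
    refine ge_of_tendsto h1 ?_
    filter_upwards [eventually_gt_atTop 0, eventually_gt_atTop K, eventually_gt_atTop R']
      with R hR hKR hRR
    obtain ⟨u, hu, hu1, hu2⟩ := key R hR hKR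
    have e1 : ∀ y, HB_Bl (fderiv ℝ u y) (fderiv ℝ φ y) = HB_Bl (fderiv ℝ w y) (fderiv ℝ φ y) := by
      intro y
      by_cases h : y ∈ tsupport φ
      · rw [(hu1 y ((mem_closedBall_zero_iff.1 (hR' h)).trans_lt hRR)).2]
      · rw [fderiv_of_notMem_tsupport ℝ h, HB_Bl_zero, HB_Bl_zero]
    have e2 : 0 ≤ ∫ y, (HB_Bl (fderiv ℝ φ y) (fderiv ℝ φ y) -
        2 * HB_Bl (fderiv ℝ w y) (fderiv ℝ φ y) + HB_Bl (fderiv ℝ u y) (fderiv ℝ u y)) := by
      refine integral_nonneg fun y => ?_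
      have := HB_Bl_nonneg (fderiv ℝ φ y - fderiv ℝ u y)
      rw [HB_Bl_sub, e1] at this
      exact this
    have i1 := HB_int_Bl' hφ1 hφ
    have i2 := (HB_int_Bl' hw hφ).const_mul 2
    have i12 : Integrable fun y => HB_Bl (fderiv ℝ φ y) (fderiv ℝ φ y) -
        2 * HB_Bl (fderiv ℝ w y) (fderiv ℝ φ y) := i1.sub i2
    rw [integral_add i12 (HB_int_Bl' hu.1 hu), integral_sub i1 i2, integral_const_mul,
      hweak φ hφ] at e2
    have j1 : Integrable fun y => V y * (1 - φ y) ^ 2 := iV ((continuous_const.sub cφ).pow 2)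
    have j2 : Integrable fun y => V y * (1 - w y) := iV (continuous_const.sub cw)
    have j3 : Integrable fun y => V y * ((1 - w y) * w y) := iV ((continuous_const.sub cw).mul cw)
    have j4 : Integrable fun y => 2 * (V y * (1 - w y) * φ y) := by
      have := (iV ((continuous_const (y := (1 : ℝ)).sub cw).mul cφ)).const_mul 2
      simpa only [mul_assoc, Pi.mul_apply, Pi.sub_apply] using this
    have j12 : Integrable fun y => V y * (1 - φ y) ^ 2 - V y * (1 - w y) := j1.sub j2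
    have j123 : Integrable fun y => V y * (1 - φ y) ^ 2 - V y * (1 - w y) -
        V y * ((1 - w y) * w y) := j12.sub j3
    have e3 : 0 ≤ ∫ y, (V y * (1 - φ y) ^ 2 - V y * (1 - w y) - V y * ((1 - w y) * w y) +
        2 * (V y * (1 - w y) * φ y)) := by
      refine integral_nonneg fun y => ?_
      have := mul_nonneg (h0 y) (sq_nonneg (φ y - w y))
      simp only [Pi.zero_apply]
      linarith
    rw [integral_add j123 j4, integral_sub j12 j3, integral_sub j1 j2, integral_const_mul] at e3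
    linarith

theorem bM_eq {V : R3 × R3 → ℝ} (S : Micro (Uof V)) : bM V = relInt (F3o (Uof V) S.ω) := by
  obtain ⟨K, hB⟩ := S.exists_B
  have hω : S.ω = green 0 (F3o (Uof V) S.ω) := funext S.ω_eq
  have hcb : Cb1 S.ω := by
    rw [hω]
    exact hB.n3.toNice0.cb1_green (by simp) 0
  have hwk : WeakEq (0 ^ 2) (F3o (Uof V) S.ω) S.ω := by
    have := hB.n3.toNice0.weak (by simp) 0
    rwa [← hω] at this
  obtain ⟨C, -, hC⟩ := green_norms 3 (by norm_num) K
  have hL := (hC _ 0 hB.n3 le_rfl zero_le_one (by norm_num)).1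
  rw [← hω] at hL
  have hV : ∀ y, V y = Uof V (HB_s y) := fun y => by
    change V y = V (HB_T (HB_s y))
    rw [HB_Ts]
  have hw : ContDiff ℝ 1 fun y => S.ω (HB_s y) := hcb.1.comp HB_s.contDiff
  have e1 : (fun x => S.ω (HB_s (HB_T x))) = S.ω := funext (HB_sT S.ω_ti)
  have e2 : (fun x => V (HB_T x) * (1 - S.ω (HB_s (HB_T x)))) = F3o (Uof V) S.ω := by
    funext x
    rw [HB_sT S.ω_ti]
    rfl
  have hm : Measurable V := by
    rw [funext hV]
    exact S.pot.meas.comp HB_s.continuous.measurable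
  rw [← e2, HB_relInt fun y => V y * (1 - S.ω (HB_s y))]
  refine HB_main (K := S.K) hm (fun y => by rw [hV]; exact S.pot.nonneg _)
    (fun y => by rw [hV]; exact S.pot.le _) (fun y hy => ?_) hw
    (HB_l2 hw.continuous (by rw [e1]; exact hL)) fun ζ hζ => ?_
  · rw [hV] at hy
    have a1 := S.pot.supp _ hy 0 1
    have a2 := S.pot.supp _ hy 0 2
    rw [HB_s0, HB_s1, zero_sub, neg_neg] at a1
    rw [HB_s0, HB_s2, zero_sub, neg_neg] at a2
    exact max_le a1 a2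
  · refine HB_weak (f := fun y => V y * (1 - S.ω (HB_s y))) hw
      (hm.mul (measurable_const.sub hw.continuous.measurable)) ?_ hζ
    rw [e2, e1]
    exact hwk

theorem bM_nonneg {V : R3 × R3 → ℝ} (h0 : ∀ x, 0 ≤ V x) : 0 ≤ bM V :=
  Real.sInf_nonneg (HB_bdd h0)

end Pool.Agent.Lib.MP_8fe63c_mp
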