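import Pool.Agent.Lib.MP_8fe63c_mp.HMom1

/-!
Truncated second moments of the four-body kernels.

Sketch. Let `wt y = min (‖y a - y b‖^2/s^2) 1`. `mom_lgreen`: `wt (y + w) ≤ 2 wt y + 2 wt w`. The first part gives
`lgreen 0 (wt Φ)` (`marg_lgreen_le`). For the second part `wt w * pk t w ≤ C min 1 (t/s^2) pk (2t) w`
(`pk_le_double`, `normsq_mul_pk_le`), `marg {b} (lheat (2t) Φ) ≤ B min 1 t^(-3/2)` (`marg_lheat_le` with
`A' = {b}` and `A' = {b, c}`), and `∫ min 1 (t/s^2) min 1 t^(-3/2) dt ≤ 5/s`.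
`Micro.mom`: first `ω = green 0 F3o` (`eabs_green_le`; on the support of `F3o`, `wt ≤ K^2/s^2`). Then the
Born term `S₄ = ∑ l, U (om l x) σ_l`: all proper marginals of `wt * U (om l) |σ_l|` are `≤ C/s`. If `l ∉ {a, b}`
then `wt ≤ K^2/s^2` on the support. If `l = b` and `l ∈ A` integrate first the point `l` (moment of `ω`; replace
`a` by a neighbour with `wt_ab ≤ 2 wt_cb + 2 K^2/s^2`), then use the marginals of `U`. If `l ∉ A` and
`A ≠ univ.erase l` use `HMicro_sig_pd` (`hw 1 r * ‖r‖^2 ≤ 1`). If `A = univ.erase l` use `TI.marg_erase`.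
So the one-point moments of `g` and `y4o` are `≤ C/s`. For `F4o` use `Micro.F4_avg` and `marg_perm`.
-/

set_option linter.unusedSectionVars false

open MeasureTheory Set Filter Topology
open scoped ENNReal InnerProductSpace

namespace Pool.Agent.Lib.MP_8fe63c_mp

variable {I κ ι : Type} [Fintype I] [DecidableEq I] [Fintype κ] [DecidableEq κ]
  [Fintype ι] [DecidableEq ι]


theorem mom_lgreen : ∃ cM : ℝ, 1 ≤ cM ∧ ∀ {ι : Type} [Fintype ι] [DecidableEq ι]
    (Φ : (ι → R3) → ℝ≥0∞) (B B' s : ℝ) (a b : ι), 3 ≤ Fintype.card ι → Fintype.card ι ≤ 4 →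
    Measurable Φ → 0 ≤ B → 0 ≤ B' → 1 ≤ s → (∀ A : Finset ι, A ≠ Finset.univ → MargLe A Φ B) →
    (∀ A : Finset ι, A ≠ Finset.univ →
      MargLe A (fun y => Φ y * ENNReal.ofReal (min (‖y a - y b‖ ^ 2 / s ^ 2) 1)) B') →
    MargLe {b} (fun y => lgreen 0 Φ y * ENNReal.ofReal (min (‖y a - y b‖ ^ 2 / s ^ 2) 1))
      (cM * (B' + B / s)) :=
  ⟨23328, by norm_num, fun Φ B B' s a b h3 h4 h hB hB' hs hm hm' =>
    HMom_lgreen Φ B B' s a b h3 h4 h hB hB' hs hm hm'⟩

theorem HMom_margLe_add {A : Finset ι} {Φ Ψ : (ι → R3) → ℝ≥0∞} {c c' : ℝ} (hm : Measurable Φ)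
    (h : MargLe A Φ c) (h' : MargLe A Ψ c') (hc : 0 ≤ c) (hc' : 0 ≤ c') :
    MargLe A (fun x => Φ x + Ψ x) (c + c') := fun x => by
  rw [marg_add A hm, ENNReal.ofReal_add hc hc']
  exact add_le_add (h x) (h' x)

theorem HMom_eabs_sum {X κ : Type} (T : Finset κ) (f : κ → X → ℝ) (x : X) :
    eabs (fun x => ∑ k ∈ T, f k x) x ≤ ∑ k ∈ T, eabs (f k) x := by
  unfold eabs
  rw [← ENNReal.ofReal_sum_of_nonneg fun k _ => abs_nonneg _]
  exact ENNReal.ofReal_le_ofReal (Finset.abs_sum_le_sum_abs _ _)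

theorem HMom_margLe_sum {κ : Type} (T : Finset κ) {A : Finset ι} {Ψ : κ → (ι → R3) → ℝ≥0∞} {c : ℝ}
    (hm : ∀ k ∈ T, Measurable (Ψ k)) (h : ∀ k ∈ T, MargLe A (Ψ k) c) :
    MargLe A (fun x => ∑ k ∈ T, Ψ k x) (T.card * c) := fun x => by
  rw [marg_sum T A hm]
  refine (Finset.sum_le_card_nsmul _ _ _ fun k hk => h k hk x).trans (le_of_eq ?_)
  rw [ENNReal.ofReal_mul (Nat.cast_nonneg _), ENNReal.ofReal_natCast, nsmul_eq_mul]

theorem HMom_sum4 {f : Fin 4 → (ι → R3) → ℝ} {W : (ι → R3) → ℝ≥0∞} {A : Finset ι} {c : ℝ}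
    (hW : Measurable W) (hm : ∀ l, Measurable (f l))
    (h : ∀ l, MargLe A (fun x => eabs (f l) x * W x) c) :
    MargLe A (fun x => eabs (fun x => ∑ l, f l x) x * W x) (4 * c) := by
  refine HMicro_margLe_mono (HMom_margLe_sum Finset.univ (Ψ := fun l x => eabs (f l) x * W x)
    (fun l _ => (measurable_eabs (hm l)).mul hW) fun l _ => h l) (fun x => ?_) (by simp)
  rw [← Finset.sum_mul]
  exact mul_le_mul_left (HMom_eabs_sum _ f x) _

theorem HMom_supp {F : (ι → R3) → ℝ} {K s : ℝ} (hs : 1 ≤ s) {a b : ι} {x : ι → R3}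
    (h : F x ≠ 0 → ‖x a - x b‖ ≤ K) :
    eabs F x * HMom_W s a b x ≤ ENNReal.ofReal (K ^ 2 / s) * eabs F x := by
  by_cases h0 : F x = 0
  · simp [eabs, h0]
  · rw [mul_comm]
    exact mul_le_mul_left (ENNReal.ofReal_le_ofReal (HMom_w_small hs (h h0))) _

theorem HMom_marg_om {Ψ : (Fin 3 → R3) → ℝ≥0∞} {c : ℝ} {i : Fin 3} (h : MargLe {i} Ψ c)
    (j : Fin 4) : MargLe {j.succAbove i} (fun x => Ψ (om j x)) c := fun x => by
  have h1 := h (om j x)
  rw [marg_single] at h1 ⊢
  refine le_trans (le_of_eq (lintegral_congr fun y => ?_)) h1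
  exact congrArg Ψ (Function.update_comp_eq_of_injective x Fin.succAbove_right_injective i y)

/-- on the support of the potential the weighted function has a majorant with small marginal -/
def HMom_one (U : (Fin 3 → R3) → ℝ) (s : ℝ) (y : (Fin 4 → R3) → ℝ) (l : Fin 4) (c : ℝ) : Prop :=
  ∀ a, a ≠ l → ∃ Ψ : (Fin 4 → R3) → ℝ≥0∞, Measurable Ψ ∧ MargLe {l} Ψ c ∧
    ∀ x, U (om l x) ≠ 0 → eabs y x * HMom_W s a l x ≤ Ψ x

theorem HMom_key {U : (Fin 3 → R3) → ℝ} {K : ℝ} (h : Pot3 U K) {y : (Fin 4 → R3) → ℝ} {K' s : ℝ}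
    (hK' : 1 ≤ K') (hs : 1 ≤ s) (hm : Measurable y) (ht : TI y) (hb : ∀ x, |y x| ≤ K') (l : Fin 4)
    (hl : MargLe {l} (eabs y) K')
    (hp : ∀ x a, a ≠ l → U (om l x) ≠ 0 → |y x| ≤ K' * hw 1 (x a - x l))
    (h1 : HMom_one U s y l (K' / s)) (a b : Fin 4) (A : Finset (Fin 4)) (hA : A ≠ Finset.univ) :
    MargLe A (fun x => eabs (fun x => U (om l x) * y x) x * HMom_W s a b x)
      (K ^ 2 * (K * (8 * K ^ 3) ^ 2 * K') / s) := by
  have hN := niceUy h hK' hm ht hb l hl
  have hU : Measurable fun x => U (om l x) := h.meas.comp (HMicro_om_meas l)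
  have hF := measurable_eabs hN.meas
  have hK := h.one_le
  have hP := hK.trans (HMicro_K_le hK)
  have hs0 : 0 < s := by linarith
  set P := K * (8 * K ^ 3) ^ 2 with hPd
  have hle : K' / s * P ≤ K ^ 2 * (P * K') / s := by
    rw [div_mul_eq_mul_div]
    refine div_le_div_of_nonneg_right ?_ hs0.le
    rw [mul_comm K' P]
    exact le_mul_of_one_le_left (by positivity) (one_le_pow₀ hK)
  have e1 : ∀ x, eabs (fun x => U (om l x) * y x) x = eabs (fun x => U (om l x)) x * eabs y x :=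
    fun x => by simp only [eabs, abs_mul, ENNReal.ofReal_mul (abs_nonneg _)]
  have key : ∀ a, a ≠ l → ∀ (A : Finset (Fin 4)) (j : Fin 4), j ∉ A → j ≠ l →
      MargLe A (fun x => eabs (fun x => U (om l x) * y x) x * HMom_W s a l x) (K' / s * P) := by
    intro a ha A j hj hjl
    have hFW : Measurable fun x => eabs (fun x => U (om l x) * y x) x * HMom_W s a l x :=
      hF.mul (HMom_W_meas s a l)
    by_cases hA : l ∈ A
    · have h2 := marg_union hFW (A := A.erase l) (B := {l}) (by simp)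
      rw [Finset.union_comm, ← Finset.insert_eq, Finset.insert_erase hA] at h2
      obtain ⟨Ψ, m1, m2, m3⟩ := h1 a ha
      intro x
      rw [h2]
      refine HMicro_margLe_mul (measurable_eabs hU) (HMicro_margU h (Finset.notMem_erase l A)
        (fun e => hj (Finset.mem_of_mem_erase e)) hjl) (by positivity) (fun x => ?_) x
      refine (marg_mono (Ψ := fun x => eabs (fun x => U (om l x)) x * Ψ x) _
        (fun x => ?_) x).trans ?_
      · by_cases h0 : U (om l x) = 0
        · simp [eabs, h0]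
        · rw [e1, mul_assoc]
          exact mul_le_mul_right (m3 x h0) _
      · rw [marg_mul_left _ m1, mul_comm]
        · exact mul_le_mul_left (m2 x) _
        · intro x y h
          have : om l x = om l y := funext fun i => h _ (by simp)
          simp only [eabs, this]
    · refine HMicro_margLe_mul (measurable_eabs hU) (HMicro_margU h hA hj hjl) (by positivity)
        fun x => ?_
      by_cases h0 : U (om l x) = 0
      · simp [eabs, h0]
      · rw [e1, mul_assoc, mul_comm]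
        refine mul_le_mul_left ?_ _
        unfold eabs HMom_W
        rw [← ENNReal.ofReal_mul (abs_nonneg _)]
        refine ENNReal.ofReal_le_ofReal ?_
        calc |y x| * HMom_w s (x a - x l) ≤ K' * hw 1 (x a - x l) * HMom_w s (x a - x l) :=
              mul_le_mul_of_nonneg_right (hp x a ha h0) (HMom_w_nonneg _ _)
          _ ≤ K' * (1 / s) := by
              rw [mul_assoc]
              exact mul_le_mul_of_nonneg_left (HMom_w_hw hs _) (by linarith)
          _ = _ := by ring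
  have key2 : ∀ a, a ≠ l →
      MargLe A (fun x => eabs (fun x => U (om l x) * y x) x * HMom_W s a l x) (K' / s * P) := by
    intro a ha
    by_cases h2 : ∃ j, j ∉ A ∧ j ≠ l
    · obtain ⟨j, hj, hjl⟩ := h2
      exact key a ha A j hj hjl
    · have h3 : A = Finset.univ.erase l := by
        ext j
        simp only [Finset.mem_erase, Finset.mem_univ, and_true]
        refine ⟨fun hj e => hA (Finset.eq_univ_of_forall fun k => ?_),
          fun hj => not_not.mp fun hj' => h2 ⟨j, hj', hj⟩⟩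
        by_contra hk
        exact h2 ⟨k, hk, fun e' => hk (e' ▸ e ▸ hj)⟩
      intro x
      have hT : TI fun x => eabs (fun x => U (om l x) * y x) x * HMom_W s a l x := fun x c => by
        have e2 := hN.ti x c
        simp only [eabs, HMom_W_ti s a l x c] at e2 ⊢
        rw [e2]
      have hFW : Measurable fun x => eabs (fun x => U (om l x) * y x) x * HMom_W s a l x :=
        hF.mul (HMom_W_meas s a l)
      rw [h3, hT.marg_erase hFW l (l.succAbove 0) x x]
      exact key a ha _ _ (Finset.notMem_erase _ _) (Fin.succAbove_ne l 0) x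
  by_cases hb : b = l
  · subst hb
    by_cases ha : a = b
    · subst ha
      intro x
      refine (marg_mono (Ψ := fun _ => 0) A (fun x => by rw [HMom_W_self, mul_zero]) x).trans ?_
      simp [HMarg_def]
    · exact HMicro_margLe_mono (key2 a ha) (fun _ => le_rfl) hle
  by_cases ha : a = l
  · subst ha
    rw [HMom_W_comm]
    exact HMicro_margLe_mono (key2 b hb) (fun _ => le_rfl) hle
  · exact HMicro_margLe_mono (HMicro_margLe_mul (k := K ^ 2 / s) hF (hN.mg A hA) (by positivity)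
      fun x => HMom_supp hs fun hx => HMicro_om_supp h (left_ne_zero_of_mul hx) ha hb)
      (fun _ => le_rfl) (le_of_eq (by ring))

theorem HMom_one_mono {U : (Fin 3 → R3) → ℝ} {s c c' : ℝ} {y : (Fin 4 → R3) → ℝ} {l : Fin 4}
    (h : HMom_one U s y l c) (hc : c ≤ c') : HMom_one U s y l c' := fun a ha => by
  obtain ⟨Ψ, m1, m2, m3⟩ := h a ha
  exact ⟨Ψ, m1, HMicro_margLe_mono m2 (fun _ => le_rfl) hc, m3⟩

theorem HMom_one_sub {U : (Fin 3 → R3) → ℝ} {s c c' : ℝ} {y y' : (Fin 4 → R3) → ℝ} {l : Fin 4}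
    (h : HMom_one U s y l c) (h' : HMom_one U s y' l c') (hc : 0 ≤ c) (hc' : 0 ≤ c') :
    HMom_one U s (fun x => y x - y' x) l (c + c') := fun a ha => by
  obtain ⟨Ψ, m1, m2, m3⟩ := h a ha
  obtain ⟨Ψ', n1, n2, n3⟩ := h' a ha
  refine ⟨fun x => Ψ x + Ψ' x, m1.add n1, HMom_margLe_add m1 m2 n2 hc hc', fun x hx => ?_⟩
  refine le_trans ?_ (add_le_add (m3 x hx) (n3 x hx))
  rw [← add_mul]
  refine mul_le_mul_left ?_ _
  unfold eabs
  rw [← ENNReal.ofReal_add (abs_nonneg _) (abs_nonneg _)]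
  exact ENNReal.ofReal_le_ofReal (abs_sub _ _)

variable {U : (Fin 3 → R3) → ℝ}

theorem HMom_omega (S : Micro U) : ∃ C : ℝ, 0 ≤ C ∧ ∀ s : ℝ, 1 ≤ s → ∀ a b : Fin 3,
    MargLe {b} (fun x => eabs S.ω x * HMom_W s a b x) (C / s) := by
  have hK := S.pot.one_le
  have hf : ∀ x, |1 - S.ω x| ≤ 2 * S.K := fun x =>
    (abs_sub _ _).trans (by rw [abs_one]; linarith [S.ω_bdd x])
  have n3 : Nice0 (F3o U S.ω) (2 * S.K * (S.K * (8 * S.K ^ 3) ^ 2)) :=
    HMicro_nice0_mul S.pot.nice.toNice0 (by linarith) (measurable_const.sub S.ω_meas)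
      (fun x a => by simp only [S.ω_ti x a]) hf
  set B := 2 * S.K * (S.K * (8 * S.K ^ 3) ^ 2)
  have hB : 0 ≤ B := by linarith [n3.one_le]
  refine ⟨23328 * (S.K ^ 2 * B + B), by positivity, fun s hs a b => ?_⟩
  have hs0 : 0 < s := by linarith
  refine HMicro_margLe_mono (HMom_lgreen (eabs (F3o U S.ω)) B (S.K ^ 2 / s * B) s a b (by simp)
    (by simp) (measurable_eabs n3.meas) hB (by positivity) hs n3.mg fun A hA =>
      HMicro_margLe_mul (measurable_eabs n3.meas) (n3.mg A hA) (by positivity) fun x =>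
        HMom_supp hs fun hx => S.pot.supp x (left_ne_zero_of_mul hx) a b)
    (fun x => mul_le_mul_left ?_ _) (le_of_eq (by ring))
  refine le_trans (le_of_eq ?_) (eabs_green_le 0 x)
  simp only [eabs, ← S.ω_eq x]

theorem HMom_sig (S : Micro U) : ∃ C : ℝ, 0 ≤ C ∧ ∀ s : ℝ, 1 ≤ s → ∀ l : Fin 4,
    HMom_one U s (sig4 S.ω l) l (C / s) := by
  obtain ⟨C, hC, h⟩ := HMom_omega S
  have hK := S.pot.one_le
  refine ⟨3 * (2 * C + 2 * S.K ^ 2 * S.K), by positivity, fun s hs l a ha => ?_⟩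
  have hs0 : 0 < s := by linarith
  have key : ∀ j : Fin 4, ∃ Ψ : (Fin 4 → R3) → ℝ≥0∞, j ≠ l → Measurable Ψ ∧
      MargLe {l} Ψ (2 * (C / s) + 2 * (S.K ^ 2 / s) * S.K) ∧
      ∀ x, U (om l x) ≠ 0 → eabs (fun x => S.ω (om j x)) x * HMom_W s a l x ≤ Ψ x := by
    intro j
    by_cases hj : j = l
    · exact ⟨0, fun h => absurd hj h⟩
    obtain ⟨c, hcj, hcl⟩ := (by decide : ∀ j l : Fin 4, ∃ c : Fin 4, c ≠ j ∧ c ≠ l) j l
    obtain ⟨i, hi⟩ := Fin.exists_succAbove_eq hcj
    obtain ⟨i', hi'⟩ := Fin.exists_succAbove_eq (Ne.symm hj)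
    have hω : Measurable (eabs fun x => S.ω (om j x)) :=
      measurable_eabs (S.ω_meas.comp (HMicro_om_meas j))
    have m1 : Measurable fun x => eabs (fun x => S.ω (om j x)) x * HMom_W s c l x :=
      hω.mul (HMom_W_meas s c l)
    have m2 : MargLe {l} (fun x => eabs (fun x => S.ω (om j x)) x * HMom_W s c l x) (C / s) := by
      rw [← hi, ← hi']
      exact HMom_marg_om (h s hs i i') j
    refine ⟨fun x => ENNReal.ofReal 2 * (eabs (fun x => S.ω (om j x)) x * HMom_W s c l x) +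
      ENNReal.ofReal (2 * (S.K ^ 2 / s)) * eabs (fun x => S.ω (om j x)) x, fun _ =>
      ⟨(m1.const_mul _).add (hω.const_mul _), HMom_margLe_add (m1.const_mul _)
        (HMicro_margLe_mul m1 m2 zero_le_two fun _ => le_rfl)
        (HMicro_margLe_mul hω (HMicro_marg_om S.ω_mg (Ne.symm hj)) (by positivity)
          fun _ => le_rfl) (by positivity) (by positivity), fun x hx => ?_⟩⟩
    have e : x a - x l = (x c - x l) + (x a - x c) := by abel
    have h1 : HMom_w s (x a - x l) ≤ 2 * HMom_w s (x c - x l) + 2 * (S.K ^ 2 / s) := by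
      have h2 := HMom_w_small hs (HMicro_om_supp S.pot hx ha hcl)
      have h3 := HMom_w_add s (x c - x l) (x a - x c)
      rw [← e] at h3
      linarith
    have h4 := ENNReal.ofReal_le_ofReal h1
    rw [ENNReal.ofReal_add (mul_nonneg zero_le_two (HMom_w_nonneg _ _)) (by positivity),
      ENNReal.ofReal_mul zero_le_two] at h4
    refine (mul_le_mul_right h4 _).trans (le_of_eq ?_)
    unfold HMom_W
    ring
  choose Ψ hΨ using key
  refine ⟨fun x => ∑ j ∈ Finset.univ.erase l, Ψ j x,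
    Finset.measurable_sum _ fun j hj => (hΨ j (Finset.mem_erase.mp hj).1).1,
    HMicro_margLe_mono (HMom_margLe_sum _ (fun j hj => (hΨ j (Finset.mem_erase.mp hj).1).1)
      fun j hj => (hΨ j (Finset.mem_erase.mp hj).1).2.1) (fun _ => le_rfl) (le_of_eq ?_),
    fun x hx => ?_⟩
  · have h3 : (((Finset.univ : Finset (Fin 4)).erase l).card : ℝ) = 3 := by simp
    rw [h3]
    ring
  · refine (mul_le_mul_left (HMom_eabs_sum _ (fun j x => S.ω (om j x)) x) _).trans ?_
    rw [Finset.sum_mul]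
    exact Finset.sum_le_sum fun j hj => (hΨ j (Finset.mem_erase.mp hj).1).2.2 x hx

theorem HMom_g (S : Micro U)
    (hg : ∀ x, |S.g x| ≤ |green 0 (fun x => ∑ l, U (om l x) * sig4 S.ω l x) x|) :
    ∃ C : ℝ, 0 ≤ C ∧ ∀ s : ℝ, 1 ≤ s → ∀ l : Fin 4, HMom_one U s S.g l (C / s) := by
  obtain ⟨C, hC, h⟩ := HMom_sig S
  have hK := S.pot.one_le
  have hQ : 0 ≤ S.K * S.K ^ 2 := by positivity
  set K' := 6 * S.K * (1 + S.K ^ 2) + C with hK'
  have b1 : ∀ l x, |sig4 S.ω l x| ≤ K' := fun l x =>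
    (HMicro_sig_le fun j _ => S.ω_bdd _).trans (by nlinarith)
  have b2 : ∀ l, MargLe {l} (eabs (sig4 S.ω l)) K' := fun l =>
    HMicro_margLe_mono (HMicro_sig_mg S.ω_meas S.ω_mg l) (fun _ => le_rfl) (by nlinarith)
  have b3 : 1 ≤ K' := by nlinarith
  have hN := (HMicro_nice_sum fun l => niceUy S.pot b3 (HMicro_sig_meas S.ω_meas l)
    (HMicro_sig_ti S.ω_ti l) (b1 l) l (b2 l)).toNice0
  set B := S.K * (8 * S.K ^ 3) ^ 2 * K'
  have hB : 0 ≤ B := by linarith [hN.one_le]
  refine ⟨23328 * (4 * (S.K ^ 2 * B) + 4 * B), by positivity, fun s hs l a ha => ?_⟩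
  have hs0 : 0 < s := by linarith
  refine ⟨_, (measurable_lgreen 0 (measurable_eabs hN.meas)).mul (HMom_W_meas s a l),
    HMicro_margLe_mono (HMom_lgreen _ (4 * B) (4 * (S.K ^ 2 * B / s)) s a l (by simp) (by simp)
      (measurable_eabs hN.meas) (by positivity) (by positivity) hs hN.mg fun A hA =>
        HMom_sum4 (HMom_W_meas s a l)
          (fun k => (S.pot.meas.comp (HMicro_om_meas k)).mul (HMicro_sig_meas S.ω_meas k))
          fun k => HMom_key S.pot b3 hs (HMicro_sig_meas S.ω_meas k) (HMicro_sig_ti S.ω_ti k)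
            (b1 k) k (b2 k) (fun x c hc hx => ?_) (HMom_one_mono (h s hs k) ?_) a l A hA)
      (fun _ => le_rfl) (le_of_eq (by ring)), fun x _ => mul_le_mul_left ?_ _⟩
  · exact (HMicro_sig_pd S.pot (by linarith) S.ω_pd hc hx).trans
      (mul_le_mul_of_nonneg_right (by linarith) (HMicro_hw_pos _).le)
  · exact div_le_div_of_nonneg_right (by nlinarith) hs0.le
  · exact le_trans (ENNReal.ofReal_le_ofReal (hg x)) (eabs_green_le 0 x)

theorem Micro.mom {U : (Fin 3 → R3) → ℝ} (S : Micro U)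
    (hg : ∀ x, |S.g x| ≤ |green 0 (fun x => ∑ l, U (om l x) * sig4 S.ω l x) x|) :
    ∃ C : ℝ, 1 ≤ C ∧ ∀ s : ℝ, 1 ≤ s →
      Mom s (fun x => U (om 3 x) * y4o S.ω S.g 3 x) (C / s) ∧ Mom s (F4o U S.ω S.g) (C / s) := by
  obtain ⟨C, hC, h⟩ := HMom_sig S
  obtain ⟨D, hD, h'⟩ := HMom_g S hg
  have hK := S.pot.one_le
  have hQ : 0 ≤ S.K * S.K ^ 2 := by positivity
  set K' := 7 * S.K * (1 + S.K ^ 2) + (D + C) with hK'
  have b3 : 1 ≤ K' := by nlinarith
  set E := S.K ^ 2 * (S.K * (8 * S.K ^ 3) ^ 2 * K') with hE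
  have hE1 : 1 ≤ E := one_le_mul_of_one_le_of_one_le (one_le_pow₀ hK)
    (one_le_mul_of_one_le_of_one_le (hK.trans (HMicro_K_le hK)) b3)
  refine ⟨4 * E, by linarith, fun s hs => ?_⟩
  have hs0 : 0 < s := by linarith
  have key : ∀ l a b : Fin 4, MargLe (Finset.univ.erase a)
      (fun x => eabs (fun x => U (om l x) * y4o S.ω S.g l x) x * HMom_W s a b x) (E / s) := by
    intro l a b
    refine HMom_key S.pot b3 hs (S.meas_y l) (S.ti_y l)
      (fun x => (HMicro_y_bdd S l x).trans (by nlinarith)) l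
      (HMicro_margLe_mono (HMicro_y_mg S l) (fun _ => le_rfl) (by nlinarith)) (fun x c hc hx => ?_)
      (HMom_one_mono (HMom_one_sub (h' s hs l) (h s hs l) (by positivity) (by positivity)) ?_)
      a b _ fun e => Finset.notMem_erase a Finset.univ (e.symm ▸ Finset.mem_univ a)
    · have h2 := HMicro_sig_pd S.pot (by linarith) S.ω_pd hc hx
      have h3 := S.g_pd x c l hc
      have h5 := HMicro_hw_pos (x c - x l)
      have h6 : 0 ≤ S.K * S.K ^ 2 * hw 1 (x c - x l) := by positivity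
      have h7 : 0 ≤ (D + C) * hw 1 (x c - x l) := by positivity
      exact (abs_sub _ _).trans (by nlinarith)
    · rw [← add_div]
      exact div_le_div_of_nonneg_right (by nlinarith) hs0.le
  refine ⟨fun a b => HMicro_margLe_mono (key 3 a b) (fun _ => le_rfl)
    (div_le_div_of_nonneg_right (by linarith) hs0.le), fun a b => ?_⟩
  exact HMicro_margLe_mono (HMom_sum4 (HMom_W_meas s a b) (fun l => (HMicro_nUy S l).meas)
    fun l => key l a b) (fun _ => le_rfl) (le_of_eq (by ring))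

end Pool.Agent.Lib.MP_8fe63c_mp
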