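import Pool.Agent.Lib.MP_8fe63c_mp.FReal
import Pool.Agent.Lib.MP_8fe63c_mp.FCx
import Pool.Agent.Lib.MP_8fe63c_mp.HMom
import Pool.Agent.Lib.MP_8fe63c_mp.HB
import Pool.Agent.Lib.MP_8fe63c_mp.FAe

/-!
The final statement.
-/

set_option linter.unusedSectionVars false

open MeasureTheory Set Filter Topology
open scoped ENNReal InnerProductSpace

namespace Pool.Agent.Lib.MP_8fe63c_mp

variable {I κ ι : Type} [Fintype I] [DecidableEq I] [Fintype κ] [DecidableEq κ]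
  [Fintype ι] [DecidableEq ι]


theorem exists_TS {V : R3 × R3 → ℝ} {K : ℝ} (h : Pot3 (Uof V) K) (h0 : ∀ x, 0 ≤ V x) {W : R3 → ℝ}
    (hW : Pot W) (hg : Grows W) : ∃ X : TS, X.W = W ∧ X.U = Uof V ∧ X.b = bM V := by
  obtain ⟨S, hS⟩ := exists_micro' h
  obtain ⟨K', hK'⟩ := S.exists_B
  obtain ⟨Km, hKm, hm⟩ := S.mom hS
  obtain ⟨T⟩ := exists_trap hW hg (bM_nonneg h0)
  exact ⟨⟨W, Uof V, bM V, K', Km, S, T, hW, bM_eq S, bM_nonneg h0, hK', by linarith, hm⟩,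
    rfl, rfl, rfl⟩

theorem main_pot {V : R3 × R3 → ℝ} {K : ℝ} (h : Pot3 (Uof V) K) (h0 : ∀ x, 0 ≤ V x) {W : R3 → ℝ}
    (hW : Pot W) (hg : Grows W) :
    ∃ C K' : ℝ, ∀ N : ℕ, |EN V W N - N * eGP W (bM V) - √(N : ℝ) * C| ≤ K' := by
  obtain ⟨X, rfl, hU, hb⟩ := exists_TS h h0 hW hg
  obtain ⟨K₁, N₁, hl⟩ := X.real_lower hg
  obtain ⟨K₂, N₂, hu⟩ := X.real_upper
  have key : ∀ N : ℕ, max N₁ N₂ ≤ N →
      |EN V X.W N - N * eGP X.W (bM V) - √(N : ℝ) * X.cC| ≤ |K₁| + |K₂| := by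
    intro N hN
    have hl' := hl (Fin N) (by rw [Fintype.card_fin]; omega)
    obtain ⟨F, hF, hs, hp, hq⟩ := hu (Fin N) (by rw [Fintype.card_fin]; omega)
    simp only [Fintype.card_fin, TS.UN, hU, hb] at hl' hq
    obtain ⟨a, b⟩ := EN_bounds h hW hl' hF hs hp hq
    rw [abs_le]
    constructor
    · linarith [le_abs_self K₁, abs_nonneg K₂]
    · linarith [le_abs_self K₂, abs_nonneg K₁]
  refine ⟨X.cC, |K₁| + |K₂| + ∑ N ∈ Finset.range (max N₁ N₂),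
    |EN V X.W N - N * eGP X.W (bM V) - √(N : ℝ) * X.cC|, fun N => ?_⟩
  have hs : 0 ≤ ∑ N ∈ Finset.range (max N₁ N₂),
      |EN V X.W N - N * eGP X.W (bM V) - √(N : ℝ) * X.cC| :=
    Finset.sum_nonneg fun _ _ => abs_nonneg _
  by_cases hN : max N₁ N₂ ≤ N
  · linarith [key N hN]
  · have := Finset.single_le_sum
      (f := fun N : ℕ => |EN V X.W N - N * eGP X.W (bM V) - √(N : ℝ) * X.cC|)
      (fun _ _ => abs_nonneg _) (Finset.mem_range.mpr (not_le.mp hN))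
    linarith [abs_nonneg K₁, abs_nonneg K₂]

theorem main {V : R3 × R3 → ℝ} {Vext : R3 → ℝ} (hm : AEMeasurable V volume) (h0 : ∀ x, 0 ≤ V x)
    (hb : ∃ M : ℝ, ∀ x, V x ≤ M) (hc : HasCompactSupport V)
    (h1 : ∀ x y : R3, V (x, y) = V (y, x))
    (h2 : ∀ x y z : R3, V (x - y, x - z) = V (y - x, y - z))
    (em : AEStronglyMeasurable Vext volume)
    (eb : ∀ R : ℝ, ∃ M : ℝ, ∀ᵐ x, ‖x‖ ≤ R → |Vext x| ≤ M)
    (eg : ∃ C α : ℝ, 0 < C ∧ 0 < α ∧ ∀ᵐ x, C * ‖x‖ ^ α ≤ Vext x) :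
    ∃ C K : ℝ, ∀ N : ℕ, |EN V Vext N - N * eGP Vext (bM V) - √(N : ℝ) * C| ≤ K := by
  obtain ⟨C, α, hC, hα, hg⟩ := eg
  obtain ⟨W, hW, hG, hae⟩ := exists_pot em eb hC hα hg
  obtain ⟨V', hV, m, p0, pb, pc, p1, p2, p3⟩ := exists_borel hm h0 hb hc h1 h2
  obtain ⟨K, hK⟩ := pot3_Uof m p0 pb pc p1 p2 p3
  obtain ⟨C', K', h⟩ := main_pot hK p0 hW hG
  refine ⟨C', K', fun N => ?_⟩
  rw [← EN_congr hae, ← eGP_congr hae, EN_congr_V hV, bM_congr hV]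
  exact h N

end Pool.Agent.Lib.MP_8fe63c_mp
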