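import Pool.Agent.Lib.MP_8fe63c_mp.PVs

/-!
Arrays are limits of smooth compactly supported functions.

Sketch. `approx_hat`: `F n = hat (v n) Ψ` with `v n a → e a` from `InF.seq`; `pgrad (hat (v n) Ψ) = ghat (v n) (gradient (v n)) Ψ`;
all integrals are finite sums of products of `ip` and `qf` (`qleg_tens`, `qleg_hat_left`,
`integral_fintype_prod_eq_prod`), which converge by `tendsto_qf`. `NP_hat`:
`projI (e o) (hat e Ψ) i = hat e (α ↦ if α i = o then Ψ α else 0)`. `tendsto_NP`: `projI φ · i` is linear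
and a contraction in `L^2` (Cauchy-Schwarz and `lintegral_leg`).
-/

set_option linter.unusedSectionVars false

open MeasureTheory Set Filter Topology
open scoped ENNReal InnerProductSpace

namespace Pool.Agent.Lib.MP_8fe63c_mp

variable {I κ ι : Type} [Fintype I] [DecidableEq I] [Fintype κ] [DecidableEq κ]
  [Fintype ι] [DecidableEq ι]


variable {W : R3 → ℝ} {UN : (Fin 3 → R3) → ℝ}

theorem PT1_cc1 {v : I → R3 → ℝ} (hv : ∀ a, Cc1 (v a)) (Ψ : (ι → I) → ℝ) : Cc1 (hat v Ψ) := by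
  constructor
  · refine ContDiff.sum fun α _ => contDiff_const.mul ?_
    exact contDiff_prod fun j _ => (hv (α j)).1.comp (contDiff_apply ℝ R3 j)
  · have hK : IsCompact (Set.pi univ fun _ : ι => ⋃ a, tsupport (v a)) :=
      isCompact_univ_pi fun _ => isCompact_iUnion fun a => (hv a).2
    refine HasCompactSupport.intro hK fun x hx => ?_
    rw [Set.mem_univ_pi] at hx
    push Not at hx
    obtain ⟨j, hj⟩ := hx
    refine Finset.sum_eq_zero fun α _ => ?_
    have h0 : v (α j) (x j) = 0 :=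
      image_eq_zero_of_notMem_tsupport fun hm => hj (mem_iUnion.2 ⟨α j, hm⟩)
    rw [prodE, Finset.prod_eq_zero (Finset.mem_univ j) h0, mul_zero]

theorem PT1_symm (v : I → R3 → ℝ) {Ψ : (ι → I) → ℝ}
    (hΨ : ∀ (π : Equiv.Perm ι) α, Ψ (α ∘ π) = Ψ α) : Symm (hat v Ψ) := by
  intro π x
  unfold hat
  symm
  refine Fintype.sum_equiv (Equiv.arrowCongr π.symm (Equiv.refl I)) _ _ fun α => ?_
  have e : (Equiv.arrowCongr π.symm (Equiv.refl I)) α = α ∘ π := by
    funext j
    simp
  rw [e, hΨ]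
  simp only [prodE, Function.comp_apply]
  rw [Equiv.prod_comp π fun j => v (α j) (x j)]

theorem PT1_pgrad {v : I → R3 → ℝ} (hv : ∀ a, Cc1 (v a)) (Ψ : (ι → I) → ℝ) (i : ι) :
    pgrad (hat v Ψ) i = ghat v (fun a => gradient (v a)) Ψ i := by
  funext x
  have e : (fun y => hat v Ψ (Function.update x i y)) =
      fun y => ∑ α, (Ψ α * ∏ j ∈ Finset.univ.erase i, v (α j) (x j)) * v (α i) y := by
    funext y
    refine Finset.sum_congr rfl fun α _ => ?_
    rw [prodE, ← Finset.prod_erase_mul _ _ (Finset.mem_univ i), Function.update_self, mul_assoc]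
    congr 2
    refine Finset.prod_congr rfl fun j hj => ?_
    rw [Function.update_of_ne (Finset.ne_of_mem_erase hj)]
  have hd : ∀ a, DifferentiableAt ℝ (v a) (x i) := fun a =>
    (hv a).1.differentiable one_ne_zero _
  have h1 : HasFDerivAt
      (fun y => ∑ α, (Ψ α * ∏ j ∈ Finset.univ.erase i, v (α j) (x j)) * v (α i) y)
      (∑ α, (Ψ α * ∏ j ∈ Finset.univ.erase i, v (α j) (x j)) • fderiv ℝ (v (α i)) (x i)) (x i) :=
    HasFDerivAt.fun_sum fun α _ => (hd (α i)).hasFDerivAt.const_mul _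
  refine ext_inner_right ℝ fun y => ?_
  rw [pgrad, e, inner_gradient_eq, h1.fderiv, ghat, sum_inner, _root_.sum_apply]
  refine Finset.sum_congr rfl fun α _ => ?_
  rw [gprod, gtens, smul_smul, real_inner_smul_left, inner_gradient_eq]
  rfl

theorem PT1_hat_mul {Ω : Set R3} {u u' : I → R3 → ℝ} (h : ∀ a, MemLp (u a) 2 (volume.restrict Ω))
    (h' : ∀ a, MemLp (u' a) 2 (volume.restrict Ω)) (c c' : (ι → I) → ℝ) :
    ∫ x, hat u c x * hat u' c' x ∂muP Ω ι =
      ∑ α, (∑ β, c β * ∏ j, ip Ω (u (β j)) (u' (α j))) * c' α := by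
  rw [← coefO_sum h' (memLp_hat h c) c']
  refine Finset.sum_congr rfl fun α _ => ?_
  congr 1
  have e : coefO Ω u' (hat u c) α = ∫ x, prodE u' α x * hat u c x ∂muP Ω ι := by
    simp only [coefO, mul_comm]
  rw [e, ← coefO_sum h (memLp_prodE h' α) c]
  refine Finset.sum_congr rfl fun β _ => ?_
  rw [mul_comm]
  congr 1
  simp only [coefO, prodE, ← Finset.prod_mul_distrib]
  rw [muP, integral_fintype_prod_eq_prod fun j y => u' (α j) y * u (β j) y]
  exact Finset.prod_congr rfl fun j _ => ip_comm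

theorem PT1_qleg (hW : Pot W) {Ω : Set R3} {e : I → R3 → ℝ} {g : I → R3 → R3}
    (h : ∀ a, InF Ω W (e a) (g a)) (Ψ : (ι → I) → ℝ) (i : ι) :
    qleg Ω W i (hat e Ψ) (ghat e g Ψ i) (hat e Ψ) (ghat e g Ψ i) =
      ∑ α, Ψ α * ∑ β, Ψ β * (qf Ω W (e (β i)) (g (β i)) (e (α i)) (g (α i)) *
        ∏ j ∈ Finset.univ.erase i, ip Ω (e (β j)) (e (α j))) := by
  rw [qleg_hat_left hW h Ψ (legF_hat hW h Ψ i)]
  refine Finset.sum_congr rfl fun α _ => ?_
  have hα : LegF Ω W (prodE e α) i (gprod e g α i) :=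
    legF_tens hW (u := fun j => e (α j)) (G := fun j => g (α j)) (fun j => h (α j)) i
  rw [qleg_comm, qleg_hat_left hW h Ψ hα]
  congr 1
  refine Finset.sum_congr rfl fun β _ => ?_
  congr 1
  exact qleg_tens hW (u := fun j => e (β j)) (G := fun j => g (β j)) (v := fun j => e (α j))
    (H := fun j => g (α j)) (fun j => h (β j)) (fun j => h (α j)) i

theorem approx_hat (hW : Pot W) {e : I → R3 → ℝ} {g : I → R3 → R3}
    (h : ∀ a, InF univ W (e a) (g a)) (Ψ : (ι → I) → ℝ) :
    ∃ F : ℕ → (ι → R3) → ℝ, (∀ n, Cc1 (F n)) ∧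
      ((∀ (π : Equiv.Perm ι) α, Ψ (α ∘ π) = Ψ α) → ∀ n, Symm (F n)) ∧
      L2lim volume atTop F (hat e Ψ) ∧
      ∀ i, Tendsto (fun n => qleg univ W i (F n) (pgrad (F n) i) (F n) (pgrad (F n) i)) atTop
        (𝓝 (qleg univ W i (hat e Ψ) (ghat e g Ψ i) (hat e Ψ) (ghat e g Ψ i))) := by
  choose v hv ht _ using fun a => (h a).seq hW
  have hin : ∀ a n, InF univ W (v a n) (gradient (v a n)) := fun a n => (hv a n).inF
  have t1 : ∀ a b, Tendsto (fun n => ip univ (v a n) (v b n)) atTop (𝓝 (ip univ (e a) (e b))) :=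
    fun a b => (tendsto_qf hW (h a) (h b) (hin a) (hin b) (ht a) (ht b)).2.1
  have t2 : ∀ a b, Tendsto (fun n => qf univ W (v a n) (gradient (v a n)) (v b n) (gradient (v b n)))
      atTop (𝓝 (qf univ W (e a) (g a) (e b) (g b))) :=
    fun a b => (tendsto_qf hW (h a) (h b) (hin a) (hin b) (ht a) (ht b)).1
  have t3 : ∀ a b, Tendsto (fun n => ip univ (v a n) (e b)) atTop (𝓝 (ip univ (e a) (e b))) := by
    intro a b
    refine (tendsto_qf hW (h a) (h b) (hin a) (fun _ => h b) (ht a) ?_).2.1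
    simp [gdist]
  refine ⟨fun n => hat (fun a => v a n) Ψ, fun n => PT1_cc1 (fun a => hv a n) Ψ,
    fun hΨ n => PT1_symm _ hΨ, ?_, fun i => ?_⟩
  · have he : ∀ a, MemLp (e a) 2 (volume.restrict univ) := fun a => (h a).memLp_u hW
    have hvn : ∀ n a, MemLp (v a n) 2 (volume.restrict univ) := fun n a => (hin a n).memLp_u hW
    have e1 : ∀ n, ∫ x, (hat (fun a => v a n) Ψ x - hat e Ψ x) ^ 2 ∂muP univ ι =
        (∑ α, (∑ β, Ψ β * ∏ j, ip univ (v (β j) n) (v (α j) n)) * Ψ α) -
          2 * (∑ α, (∑ β, Ψ β * ∏ j, ip univ (v (β j) n) (e (α j))) * Ψ α) +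
          ∑ α, (∑ β, Ψ β * ∏ j, ip univ (e (β j)) (e (α j))) * Ψ α := by
      intro n
      have m1 := memLp_hat (hvn n) Ψ
      have m2 := memLp_hat he Ψ
      have i1 : Integrable (fun x => hat (fun a => v a n) Ψ x * hat (fun a => v a n) Ψ x)
        (muP univ ι) := m1.integrable_mul m1
      have i2 : Integrable (fun x => 2 * (hat (fun a => v a n) Ψ x * hat e Ψ x)) (muP univ ι) :=
        (m1.integrable_mul m2).const_mul 2
      have i3 : Integrable (fun x => hat e Ψ x * hat e Ψ x) (muP univ ι) := m2.integrable_mul m2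
      have i4 : Integrable (fun x => hat (fun a => v a n) Ψ x * hat (fun a => v a n) Ψ x -
        2 * (hat (fun a => v a n) Ψ x * hat e Ψ x)) (muP univ ι) := i1.sub i2
      rw [← PT1_hat_mul (hvn n) (hvn n), ← PT1_hat_mul (hvn n) he, ← PT1_hat_mul he he,
        ← integral_const_mul, ← integral_sub i1 i2, ← integral_add i4 i3]
      refine integral_congr_ae (Eventually.of_forall fun x => ?_)
      ring
    unfold L2lim
    rw [← muP_univ]
    simp only [e1]
    have z : (0 : ℝ) = (∑ α, (∑ β, Ψ β * ∏ j, ip univ (e (β j)) (e (α j))) * Ψ α) -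
        2 * (∑ α, (∑ β, Ψ β * ∏ j, ip univ (e (β j)) (e (α j))) * Ψ α) +
        ∑ α, (∑ β, Ψ β * ∏ j, ip univ (e (β j)) (e (α j))) * Ψ α := by ring
    rw [z]
    refine (Tendsto.sub ?_ (Tendsto.const_mul _ ?_)).add tendsto_const_nhds
    · exact tendsto_finsetSum _ fun α _ => (tendsto_finsetSum _ fun β _ =>
        (tendsto_finsetProd _ fun j _ => t1 _ _).const_mul _).mul_const _
    · exact tendsto_finsetSum _ fun α _ => (tendsto_finsetSum _ fun β _ =>
        (tendsto_finsetProd _ fun j _ => t3 _ _).const_mul _).mul_const _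
  · have e1 : ∀ n, qleg univ W i (hat (fun a => v a n) Ψ) (pgrad (hat (fun a => v a n) Ψ) i)
        (hat (fun a => v a n) Ψ) (pgrad (hat (fun a => v a n) Ψ) i) =
        ∑ α, Ψ α * ∑ β, Ψ β * (qf univ W (v (β i) n) (gradient (v (β i) n)) (v (α i) n)
          (gradient (v (α i) n)) * ∏ j ∈ Finset.univ.erase i, ip univ (v (β j) n) (v (α j) n)) := by
      intro n
      rw [PT1_pgrad fun a => hv a n]
      exact PT1_qleg hW (fun a => hin a n) Ψ i
    simp only [e1]
    rw [PT1_qleg hW h]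
    exact tendsto_finsetSum _ fun α _ => (tendsto_finsetSum _ fun β _ =>
      ((t2 _ _).mul (tendsto_finsetProd _ fun j _ => t1 _ _)).const_mul _).const_mul _

/-- the rank one form of `φ` -/
noncomputable def PT1_form {φ : R3 → ℝ} (hφ : Measurable φ) (h2 : MemLp φ 2 volume) :
    BForm univ where
  a := fun _ => 0
  k := fun x z => φ x * φ z
  m_a := measurable_const
  m_k := (hφ.comp measurable_fst).mul (hφ.comp measurable_snd)
  a_bdd := ⟨0, fun _ => by simp⟩
  l2_k := by
    rw [Measure.restrict_univ]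
    have hm : Measurable fun p : R3 × R3 => φ p.1 * φ p.2 :=
      (hφ.comp measurable_fst).mul (hφ.comp measurable_snd)
    refine (memLp_two_iff_integrable_sq hm.aestronglyMeasurable).2 ?_
    simp only [mul_pow]
    exact h2.integrable_sq.mul_prod h2.integrable_sq

theorem PT1_dens {φ : R3 → ℝ} (hφ : Measurable φ) (h2 : MemLp φ 2 volume) (F : (ι → R3) → ℝ)
    (i : ι) (x : ι → R3) : (PT1_form hφ h2).dens F i x =
      -(F x * φ (x i) * ∫ y, φ y * F (Function.update x i y)) := by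
  simp only [BForm.dens, PT1_form, Measure.restrict_univ, zero_mul, zero_sub, mul_assoc]
  rw [integral_const_mul]

theorem PT1_proj {φ : R3 → ℝ} (hφ : Measurable φ) (h2 : MemLp φ 2 volume) {F : (ι → R3) → ℝ}
    (hm : Measurable F) (hF : MemLp F 2 volume) (i : ι) :
    ∫ x, projI φ F i x ^ 2 =
      -(∫ y, φ y ^ 2) * ∫ x, (PT1_form hφ h2).dens F i x ∂muP univ ι := by
  by_cases hc : ∫ y, φ y ^ 2 = 0
  · have h0 := (integral_eq_zero_iff_of_nonneg (fun y => sq_nonneg (φ y)) h2.integrable_sq).1 hc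
    have h1 : ∀ x, projI φ F i x = 0 := by
      intro x
      rw [projI, integral_eq_zero_of_ae, mul_zero]
      filter_upwards [h0] with y hy
      have : φ y = 0 := pow_eq_zero_iff two_ne_zero |>.1 hy
      simp [this]
    simp [h1, hc]
  · have hc0 : 0 ≤ ∫ y, φ y ^ 2 := integral_nonneg fun y => sq_nonneg _
    have hI := (PT1_form hφ h2).integrable_dens hm (by rwa [muP_univ]) i
    rw [integral_leg i hI (h := fun y => φ y ^ 2 / ∫ z, φ z ^ 2) ((hφ.pow_const 2).div_const _)
      (fun y => div_nonneg (sq_nonneg _) hc0)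
      (by rw [Measure.restrict_univ, integral_div, div_self hc]), muP_univ, ← integral_const_mul]
    refine integral_congr_ae (Eventually.of_forall fun x => ?_)
    have e : ∀ y, (PT1_form hφ h2).dens F i (Function.update x i y) =
        -(∫ y, φ y * F (Function.update x i y)) * (φ y * F (Function.update x i y)) := by
      intro y
      rw [PT1_dens]
      simp only [Function.update_idem, Function.update_self]
      ring
    simp only [e, Measure.restrict_univ]
    rw [integral_const_mul, projI]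
    field_simp

theorem NP_hat {e : I → R3 → ℝ} (he : ON univ e) (L : Lv I) (Ψ : (ι → I) → ℝ) :
    NP (e L.o) (hat e Ψ) = ex (fun α => (L.npN α : ℝ)) Ψ := by
  have hφ := he.meas L.o
  have h2 : MemLp (e L.o) 2 volume := by
    have := he.l2 L.o
    rwa [Measure.restrict_univ] at this
  have hF : MemLp (hat e Ψ) 2 volume := by
    have := memLp_hat he.l2 Ψ
    rwa [muP_univ] at this
  have h1 : ∫ y, e L.o y ^ 2 = 1 := by
    have := he.nrm L.o
    simpa only [ip, Measure.restrict_univ, sq] using this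
  have hip : ∀ a, ∫ x, e a x * e L.o x = if a = L.o then 1 else 0 := by
    intro a
    split_ifs with ha
    · rw [ha]
      simpa only [ip, Measure.restrict_univ] using he.nrm L.o
    · simpa only [ip, Measure.restrict_univ] using he.orth _ _ ha
  have hform : ∀ a b, (PT1_form hφ h2).form (e a) (e b) =
      -((if a = L.o then 1 else 0) * if b = L.o then 1 else 0) := by
    intro a b
    simp only [BForm.form, PT1_form, Measure.restrict_univ, zero_mul, integral_zero, zero_sub,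
      mul_assoc]
    simp only [integral_const_mul]
    simp only [← mul_assoc]
    rw [integral_mul_const, hip, ← hip b]
    simp only [mul_comm]
  have hob := ob_eq (PT1_form hφ h2) he Ψ
  have hsq : ∫ x, hat e Ψ x ^ 2 = ∑ α, Ψ α ^ 2 := by
    rw [← muP_univ]
    exact he.hat_sq Ψ
  unfold NP
  simp only [PT1_proj hφ h2 (measurable_hat he.meas Ψ) hF, h1, hsq, neg_mul, one_mul,
    sub_neg_eq_add]
  rw [Finset.sum_add_distrib, ← hob]
  simp only [ob, hform, ex]
  rw [← Finset.sum_add_distrib]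
  simp only [← Finset.sum_add_distrib]
  rw [Finset.sum_comm]
  refine Finset.sum_congr rfl fun α _ => ?_
  rw [Lv.npN, Finset.card_filter, Nat.cast_sum, Finset.sum_mul]
  refine Finset.sum_congr rfl fun i _ => ?_
  rw [Finset.sum_eq_single L.o (fun δ _ hδ => by simp [hδ]) (by simp)]
  by_cases hi : α i = L.o
  · rw [← hi, Function.update_eq_self]
    simp [sq]
  · simp [hi]

theorem tendsto_NP {φ : R3 → ℝ} (hφ : Measurable φ) (h2 : MemLp φ 2 volume)
    {F : ℕ → (ι → R3) → ℝ} {F₀ : (ι → R3) → ℝ} (hm : ∀ n, Measurable (F n))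
    (h1 : ∀ n, MemLp (F n) 2 volume) (hm0 : Measurable F₀) (h0 : MemLp F₀ 2 volume)
    (h : L2lim volume atTop F F₀) : Tendsto (fun n => NP φ (F n)) atTop (𝓝 (NP φ F₀)) := by
  unfold NP
  refine tendsto_finsetSum _ fun i _ => Tendsto.sub ?_ ?_
  · simpa only [one_mul] using
      h.sq h1 h0 (a := fun _ => 1) measurable_const (M := 1) fun _ => by simp
  · simp only [fun n => PT1_proj hφ h2 (hm n) (h1 n) i, PT1_proj hφ h2 hm0 h0 i]
    refine Tendsto.const_mul _ ((PT1_form hφ h2).tendsto_dens hm ?_ hm0 ?_ ?_ i)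
    · rwa [muP_univ]
    · rwa [muP_univ]
    · rwa [muP_univ]

theorem transfer_upper (hW : Pot W) (B : EB univ W) (M : ℝ) (L : Lv (B.I M)) {μ : ℝ}
    (hL : ∀ a, L.lam a = B.ν a.1 - μ) (h : Wt3 UN) (A : BForm univ) (Ψ : (ι → B.I M) → ℝ) :
    ∃ F : ℕ → (ι → R3) → ℝ, (∀ n, Cc1 (F n)) ∧
      ((∀ (π : Equiv.Perm ι) α, Ψ (α ∘ π) = Ψ α) → ∀ n, Symm (F n)) ∧
      Tendsto (fun n => ∫ x, F n x ^ 2) atTop (𝓝 (nsq Ψ)) ∧
      Tendsto (fun n => NP (B.eM M L.o) (F n)) atTop (𝓝 (ex (fun α => (L.npN α : ℝ)) Ψ)) ∧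
      Tendsto (fun n => QO univ W UN (F n) - μ * Fintype.card ι * (∫ x, F n x ^ 2) -
          ∑ i, ∫ x, A.dens (F n) i x ∂muP univ ι) atTop
        (𝓝 (L.Ham (ups univ UN (B.eM M)) (fun a b => A.form (B.eM M a) (B.eM M b)) Ψ)) := by
  have he := B.on hW M
  obtain ⟨F, hF, hS, hL2, hq⟩ := approx_hat hW (e := B.eM M) (g := B.gM M) (fun a => B.inF a.1) Ψ
  have hm : ∀ n, Measurable (F n) := fun n => (hF n).1.continuous.measurable
  have h1 : ∀ n, MemLp (F n) 2 (muP univ ι) := fun n => (hF n).memLp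
  have hm0 := measurable_hat he.meas Ψ
  have h0 := memLp_hat he.l2 Ψ
  have hL2' : L2lim (muP univ ι) atTop F (hat (B.eM M) Ψ) := by rwa [muP_univ]
  have t1 : Tendsto (fun n => ∫ x, F n x ^ 2) atTop (𝓝 (nsq Ψ)) := by
    have := hL2'.sq h1 h0 (a := fun _ => 1) measurable_const (M := 1) fun _ => by simp
    simp only [one_mul] at this
    rw [he.hat_sq, muP_univ] at this
    exact this
  refine ⟨F, hF, hS, t1, ?_, ?_⟩
  · rw [← NP_hat he L Ψ]
    have h2 := he.l2 L.o
    rw [Measure.restrict_univ] at h2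
    rw [muP_univ] at h1 h0
    exact tendsto_NP (he.meas _) h2 hm h1 hm0 h0 hL2
  · rw [B.Ham_eq hW M L hL h A Ψ]
    simp only [fun n => QO_eq (Ω := univ) hW h (hF n)]
    obtain ⟨K, hK⟩ := h.bdd
    have t2 : Tendsto (fun n => ∑ i, qleg univ W i (F n) (pgrad (F n) i) (F n) (pgrad (F n) i))
        atTop (𝓝 (∑ i, ∑ α, B.ν (α i).1 * Ψ α ^ 2)) := by
      refine tendsto_finsetSum _ fun i _ => ?_
      have := hq i
      rw [B.qleg_hat hW M] at this
      simpa only [sq, mul_assoc] using this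
    have t3 : Tendsto (fun n => ∑ σ : Fin 3 ↪ ι, ∫ x, UN (x ∘ σ) * F n x ^ 2 ∂muP univ ι) atTop
        (𝓝 (∑ σ : Fin 3 ↪ ι, ∫ x, UN (x ∘ σ) * hat (B.eM M) Ψ x ^ 2 ∂muP univ ι)) := by
      refine tendsto_finsetSum _ fun σ _ => hL2'.sq h1 h0 (a := fun x => UN (x ∘ σ))
        (h.meas.comp (measurable_pi_lambda _ fun j => measurable_pi_apply _)) (M := K) fun x => ?_
      rw [abs_of_nonneg (h.nonneg _)]
      exact hK _
    have t4 : Tendsto (fun n => ∑ i, ∫ x, A.dens (F n) i x ∂muP univ ι) atTop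
        (𝓝 (∑ i, ∫ x, A.dens (hat (B.eM M) Ψ) i x ∂muP univ ι)) :=
      tendsto_finsetSum _ fun i _ => A.tendsto_dens hm h1 hm0 h0 hL2' i
    have t5 := ((t2.add (t3.const_mul (1 / 6 : ℝ))).sub
      (t1.const_mul (μ * Fintype.card ι))).sub t4
    convert t5 using 2
    ring

end Pool.Agent.Lib.MP_8fe63c_mp
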