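import Pool.Agent.Lib.MP_8fe63c_mp.DFin
import Pool.Agent.Lib.MP_8fe63c_mp.BFin
import Pool.Agent.Lib.MP_8fe63c_mp.PT1
import Pool.Agent.Lib.MP_8fe63c_mp.PT2
import Pool.Agent.Lib.MP_8fe63c_mp.AClose
import Pool.Agent.Lib.MP_8fe63c_mp.AUp
import Pool.Agent.Lib.MP_8fe63c_mp.AIms

/-!
Two-sided bounds for real functions.

Sketch. Take `C₀, mm` from `data`, `Λ = max (Λ₀, 1, μ)` with `Λ₀` from `fine_lower` (or `fine_upper`), then `C`.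
`(dat ..).H = Ham (lv ..) (ups univ (UN s) e) (A.form e e)` by definition, `eGP = μ + eC` (`eGP_eq`), and
`QO Wp - ∑ ∫ A.dens = QO W` (`QO_add_pot`, `muP_univ`). Lower bound: `rough_bec` with `η = γ' ε / 4` passes to
arrays by `transfer_upper` (`le_of_tendsto_of_tendsto'`), then `ims`, then `transfer_lower`. Upper bound: pick one
large level, `fine_upper`, `transfer_upper`; since `nsq Ψ > 0`, for large `n` the function `F n` works with `K + 1`.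
-/

set_option linter.unusedSectionVars false

open MeasureTheory Set Filter Topology
open scoped ENNReal InnerProductSpace

namespace Pool.Agent.Lib.MP_8fe63c_mp

namespace TS

variable (X : TS) {Λ mm s M : ℝ}

theorem eGP_eq : eGP X.W X.b = X.T.μ + X.eC := by
  rw [X.T.eGP_eq, eC]
  ring

theorem FReal_QO (s : ℝ) {ι : Type} [Fintype ι] [DecidableEq ι] {F : (ι → R3) → ℝ} (hF : Cc1 F) :
    QO univ X.Wp (X.UN s) F - ∑ i, ∫ x, X.A.dens F i x ∂muP univ ι = QO univ X.W (X.UN s) F :=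
  QO_add_pot X.hW (X.wt s) X.a_meas X.a_bdd hF

theorem FReal_up (Λ mm s M : ℝ) (hM : X.T.μ ≤ M) {ι : Type} [Fintype ι] [DecidableEq ι]
    (Ψ : (ι → X.I M) → ℝ) :
    ∃ F : ℕ → (ι → R3) → ℝ, (∀ n, Cc1 (F n)) ∧
      ((∀ (π : Equiv.Perm ι) α, Ψ (α ∘ π) = Ψ α) → ∀ n, Symm (F n)) ∧
      Tendsto (fun n => ∫ x, F n x ^ 2) atTop (𝓝 (nsq Ψ)) ∧
      Tendsto (fun n => NP X.T.φ (F n)) atTop
        (𝓝 (ex (fun α => ((X.dat Λ mm s M hM).npN α : ℝ)) Ψ)) ∧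
      Tendsto (fun n => QO univ X.W (X.UN s) (F n) - X.T.μ * Fintype.card ι * ∫ x, F n x ^ 2)
        atTop (𝓝 ((X.dat Λ mm s M hM).H Ψ)) := by
  obtain ⟨F, h1, h2, h3, h4, h5⟩ := transfer_upper X.hWp X.T.B M (X.lv Λ M hM) (μ := X.T.μ)
    (fun _ => rfl) (X.wt s) X.A Ψ
  have e : X.T.B.eM M (X.lv Λ M hM).o = X.T.φ := X.T.e_o
  rw [e] at h4
  refine ⟨F, h1, h2, h3, h4, h5.congr fun n => ?_⟩
  rw [← X.FReal_QO s (h1 n)]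
  ring

theorem FReal_sqrt {mm : ℝ} {N : ℕ} (h : ⌈mm ^ 2⌉₊ ≤ N) : mm ≤ √(N : ℝ) :=
  Real.le_sqrt_of_sq_le (Nat.ceil_le.1 h)

theorem real_lower (hg : Grows X.W) : ∃ (K : ℝ) (N₀ : ℕ), ∀ (ι : Type) [Fintype ι] [DecidableEq ι],
    N₀ ≤ Fintype.card ι → ∀ F : (ι → R3) → ℝ, Cc1 F →
      (Fintype.card ι * eGP X.W X.b + √(Fintype.card ι : ℝ) * X.cC - K) * ∫ x, F x ^ 2 ≤
        QO univ X.W (X.UN √(Fintype.card ι : ℝ)) F := by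
  obtain ⟨C₀, mm, -, hd⟩ := X.data
  obtain ⟨Λ₀, hΛ₀⟩ := fine_lower X.T.γ C₀ X.T.γ_pos
  obtain ⟨C, hC⟩ := hd (max Λ₀ (max 1 X.T.μ)) ((le_max_left _ _).trans (le_max_right _ _))
    ((le_max_right _ _).trans (le_max_right _ _))
  obtain ⟨ε, K, N₁, hε, hl⟩ := hΛ₀ (max Λ₀ (max 1 X.T.μ)) (le_max_left _ _) C
  obtain ⟨γ', hγ', hr⟩ := rough_bec X.hW hg X.S X.hb X.hb0 X.T
  obtain ⟨N₂, hr⟩ := hr (γ' * ε / 4) (by positivity)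
  obtain ⟨K', N₃, hi⟩ := ims C₀ C γ' ε K X.eC X.cC hγ' hε
  refine ⟨K', N₁ + N₂ + N₃ + ⌈mm ^ 2⌉₊, fun ι _ _ hN F hF => ?_⟩
  have key := transfer_lower (ι := ι) X.hWp X.T.B (X.wt √(Fintype.card ι : ℝ)) X.A X.T.μ
    (X.eC * Fintype.card ι + X.cC * √(Fintype.card ι : ℝ) - K') ?_ hF
  · have e := X.FReal_QO √(Fintype.card ι : ℝ) hF
    rw [muP_univ] at key e
    rw [X.eGP_eq]
    linarith
  filter_upwards [hC ι (FReal_sqrt (by omega)), eventually_ge_atTop X.T.μ] with M h hM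
  obtain ⟨h1, h2, h3, h4, -⟩ := h hM
  refine ⟨X.lv _ M hM, fun _ => rfl, fun Ψ => hi _ _ _ (by omega) h1 h2 (fun Ψ => ?_)
    (hl _ _ _ (by omega) h1 h3 h4) Ψ⟩
  obtain ⟨G, hG, -, t1, t2, t3⟩ :=
    X.FReal_up (max Λ₀ (max 1 X.T.μ)) mm √(Fintype.card ι : ℝ) M hM Ψ
  refine le_of_tendsto_of_tendsto' ((t1.const_mul _).add (t2.const_mul γ')) t3 fun n => ?_
  have a := hr ι (by omega) (G n) (hG n)
  rw [X.eGP_eq] at a
  unfold UN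
  linarith

theorem real_upper : ∃ (K : ℝ) (N₀ : ℕ), ∀ (ι : Type) [Fintype ι] [DecidableEq ι],
    N₀ ≤ Fintype.card ι → ∃ F : (ι → R3) → ℝ, Cc1 F ∧ Symm F ∧ 0 < ∫ x, F x ^ 2 ∧
      QO univ X.W (X.UN √(Fintype.card ι : ℝ)) F ≤
        (Fintype.card ι * eGP X.W X.b + √(Fintype.card ι : ℝ) * X.cC + K) * ∫ x, F x ^ 2 := by
  obtain ⟨C₀, mm, -, hd⟩ := X.data
  obtain ⟨Λ₀, hΛ₀⟩ := fine_upper C₀
  obtain ⟨C, hC⟩ := hd (max Λ₀ (max 1 X.T.μ)) ((le_max_left _ _).trans (le_max_right _ _))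
    ((le_max_right _ _).trans (le_max_right _ _))
  obtain ⟨K, N₁, hu⟩ := hΛ₀ (max Λ₀ (max 1 X.T.μ)) (le_max_left _ _) C
  refine ⟨K + 1, N₁ + ⌈mm ^ 2⌉₊, fun ι _ _ hN => ?_⟩
  obtain ⟨M, h, hM⟩ := ((hC ι (FReal_sqrt (by omega))).and (eventually_ge_atTop X.T.μ)).exists
  obtain ⟨h1, h2, h3, h4, h5⟩ := h hM
  obtain ⟨Ψ, s1, s2, s3⟩ := hu (ι := ι) _ _ _ _ (by omega) h1 h2 h3 h4 h5
  obtain ⟨G, hG, hS, t1, -, t3⟩ :=
    X.FReal_up (max Λ₀ (max 1 X.T.μ)) mm √(Fintype.card ι : ℝ) M hM Ψ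
  have t4 := t1.const_mul (X.eC * Fintype.card ι + X.cC * √(Fintype.card ι : ℝ) + K + 1)
  obtain ⟨n, a1, a2⟩ :=
    ((t1.eventually_const_lt s2).and (t3.eventually_lt t4 (by linarith))).exists
  refine ⟨G n, hG n, hS s1 n, a1, ?_⟩
  rw [X.eGP_eq]
  linarith

end TS

end Pool.Agent.Lib.MP_8fe63c_mp
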