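import Pool.Agent.Lib.MP_8fe63c_mp.HMicro
import Pool.Agent.Lib.MP_8fe63c_mp.HWeak

/-!
Relative coordinates: change of variables and the weak equation on six variables.
-/

set_option linter.unusedSectionVars false

open MeasureTheory Set Filter Topology
open scoped ENNReal InnerProductSpace

namespace Pool.Agent.Lib.MP_8fe63c_mp

/-- coordinate projections -/
noncomputable def HB_p (i : Fin 3) : (Fin 3 → R3) →L[ℝ] R3 := ContinuousLinearMap.proj i

theorem HB_p_apply (i : Fin 3) (x : Fin 3 → R3) : HB_p i x = x i := rfl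

/-- relative coordinates -/
noncomputable def HB_T : (Fin 3 → R3) →L[ℝ] R3 × R3 :=
  ContinuousLinearMap.prod (HB_p 0 - HB_p 1) (HB_p 0 - HB_p 2)

/-- a section of the relative coordinates -/
noncomputable def HB_s : R3 × R3 →L[ℝ] (Fin 3 → R3) :=
  ContinuousLinearMap.pi ![0, -ContinuousLinearMap.fst ℝ R3 R3, -ContinuousLinearMap.snd ℝ R3 R3]

theorem HB_T_apply (x : Fin 3 → R3) : HB_T x = (x 0 - x 1, x 0 - x 2) := rfl

theorem HB_s0 (y : R3 × R3) : HB_s y 0 = 0 := rfl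

theorem HB_s1 (y : R3 × R3) : HB_s y 1 = -y.1 := rfl

theorem HB_s2 (y : R3 × R3) : HB_s y 2 = -y.2 := rfl

theorem HB_Ts (y : R3 × R3) : HB_T (HB_s y) = y := by
  rw [HB_T_apply, HB_s0, HB_s1, HB_s2]
  simp

theorem HB_sT {β : Type} {ω : (Fin 3 → R3) → β} (h : TI ω) (x : Fin 3 → R3) :
    ω (HB_s (HB_T x)) = ω x := by
  rw [← h x (-(x 0))]
  congr 1
  funext i
  fin_cases i
  · change HB_s (HB_T x) 0 = x 0 + -x 0
    rw [HB_s0]; simp
  · change HB_s (HB_T x) 1 = x 1 + -x 0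
    rw [HB_s1, HB_T_apply, neg_sub, sub_eq_add_neg]
  · change HB_s (HB_T x) 2 = x 2 + -x 0
    rw [HB_s2, HB_T_apply, neg_sub, sub_eq_add_neg]

theorem HB_T0 (v : R3) : HB_T (Pi.single 0 v) = (v, 0) + (0, v) := by
  rw [HB_T_apply]; simp

theorem HB_T1 (v : R3) : HB_T (Pi.single 1 v) = -(v, 0) := by
  rw [HB_T_apply]; simp

theorem HB_T2 (v : R3) : HB_T (Pi.single 2 v) = -(0, v) := by
  rw [HB_T_apply]; simp

instance HB_haar : (volume : Measure (R3 × R3)).IsAddHaarMeasure :=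
  Measure.prod.instIsAddHaarMeasure (volume : Measure R3) (volume : Measure R3)

instance HB_neg : (volume : Measure (R3 × R3)).IsNegInvariant :=
  ⟨((Measure.measurePreserving_neg (volume : Measure R3)).prod
    (Measure.measurePreserving_neg (volume : Measure R3))).map_eq⟩

theorem HB_mp : MeasurePreserving (fun x : Fin 3 → R3 => (x 0, HB_T x)) volume
    ((volume : Measure R3).prod (volume : Measure (R3 × R3))) := by
  have h1 := volume_preserving_piFinSuccAbove (fun _ : Fin 3 => R3) 0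
  have h2 := (MeasurePreserving.id (volume : Measure R3)).prod (volume_preserving_finTwoArrow R3)
  have h3 : MeasurePreserving (fun p : R3 × (R3 × R3) => (id p.1, (p.1, p.1) - p.2))
      ((volume : Measure R3).prod (volume : Measure (R3 × R3)))
      ((volume : Measure R3).prod (volume : Measure (R3 × R3))) := by
    refine (MeasurePreserving.id (volume : Measure R3)).skew_product
      (g := fun a y => ((a, a) : R3 × R3) - y) ?_ ?_
    · exact (measurable_fst.prodMk measurable_fst).sub measurable_snd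
    · exact Eventually.of_forall fun a => (Measure.measurePreserving_sub_left volume _).map_eq
  exact h3.comp (h2.comp h1)

theorem HB_cov {Ψ : R3 × (R3 × R3) → ℝ} (h : Measurable Ψ) :
    ∫ x : Fin 3 → R3, Ψ (x 0, HB_T x) =
      ∫ p, Ψ p ∂((volume : Measure R3).prod (volume : Measure (R3 × R3))) := by
  rw [← HB_mp.map_eq, integral_map HB_mp.measurable.aemeasurable h.aestronglyMeasurable]

theorem HB_inner (a b : R3) : ⟪a, b⟫_ℝ = ∑ k : Fin 3, ⟪a, uv k⟫_ℝ * ⟪b, uv k⟫_ℝ := by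
  simp only [uv, PiLp.inner_apply]
  refine Finset.sum_congr rfl fun k _ => ?_
  simp [mul_comm]

/-- the bilinear form on covectors -/
noncomputable def HB_Bl (L L' : R3 × R3 →L[ℝ] ℝ) : ℝ :=
  ∑ k : Fin 3, (2 * (L (uv k, 0) * L' (uv k, 0)) + 2 * (L (0, uv k) * L' (0, uv k)) +
    L (uv k, 0) * L' (0, uv k) + L (0, uv k) * L' (uv k, 0))

theorem HB_Bl_nonneg (L : R3 × R3 →L[ℝ] ℝ) : 0 ≤ HB_Bl L L :=
  Finset.sum_nonneg fun k _ => by
    nlinarith [sq_nonneg (L (uv k, 0) + L (0, uv k)), sq_nonneg (L (uv k, 0)),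
      sq_nonneg (L (0, uv k))]

theorem HB_Bl_le (L : R3 × R3 →L[ℝ] ℝ) : HB_Bl L L ≤ 18 * ‖L‖ ^ 2 := by
  have hu : ∀ k, ‖uv k‖ = 1 := fun k => by simp [uv]
  have h : ∀ k : Fin 3, 2 * (L (uv k, 0) * L (uv k, 0)) + 2 * (L (0, uv k) * L (0, uv k)) +
      L (uv k, 0) * L (0, uv k) + L (0, uv k) * L (uv k, 0) ≤ 6 * ‖L‖ ^ 2 := by
    intro k
    have a1 : |L (uv k, 0)| ≤ ‖L‖ := by
      have := L.le_opNorm (uv k, 0)
      simpa [hu] using this
    have a2 : |L (0, uv k)| ≤ ‖L‖ := by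
      have := L.le_opNorm (0, uv k)
      simpa [hu] using this
    have b1 : L (uv k, 0) ^ 2 ≤ ‖L‖ ^ 2 := sq_le_sq' (abs_le.1 a1).1 (abs_le.1 a1).2
    have b2 : L (0, uv k) ^ 2 ≤ ‖L‖ ^ 2 := sq_le_sq' (abs_le.1 a2).1 (abs_le.1 a2).2
    nlinarith [sq_nonneg (L (uv k, 0) - L (0, uv k))]
  calc HB_Bl L L ≤ ∑ _k : Fin 3, 6 * ‖L‖ ^ 2 := Finset.sum_le_sum fun k _ => h k
    _ = 18 * ‖L‖ ^ 2 := by simp; ring

theorem HB_Bl_zero (L : R3 × R3 →L[ℝ] ℝ) : HB_Bl L 0 = 0 := by simp [HB_Bl]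

theorem HB_mGrad (φ : R3 × R3 → ℝ) (y : R3 × R3) :
    2 * mGradSq φ y = HB_Bl (fderiv ℝ φ y) (fderiv ℝ φ y) := by
  unfold mGradSq dX dY HB_Bl
  rw [Finset.mul_sum]
  refine Finset.sum_congr rfl fun k _ => ?_
  have h3 : √3 ^ 2 = (3 : ℝ) := Real.sq_sqrt (by norm_num)
  have h2 : √2 ^ 2 = (2 : ℝ) := Real.sq_sqrt (by norm_num)
  have h2' : (√2 : ℝ) ≠ 0 := by positivity
  have e1 : ((√3 + 1) / (2 * √2)) ^ 2 + ((√3 - 1) / (2 * √2)) ^ 2 = (1 : ℝ) := by
    rw [div_pow, div_pow, mul_pow, h2]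
    linear_combination (1 / 4 : ℝ) * h3
  have e2 : ((√3 + 1) / (2 * √2)) * ((√3 - 1) / (2 * √2)) = (1 / 4 : ℝ) := by
    rw [div_mul_div_comm, ← sq, mul_pow, h2]
    linear_combination (1 / 8 : ℝ) * h3
  generalize (√3 + 1) / (2 * √2) = α at e1 e2 ⊢
  generalize (√3 - 1) / (2 * √2) = β at e1 e2 ⊢
  generalize fderiv ℝ φ y (uv k, 0) = a
  generalize fderiv ℝ φ y (0, uv k) = b
  linear_combination (2 * a ^ 2 + 2 * b ^ 2) * e1 + 8 * a * b * e2

theorem HB_cont_Bl {φ ψ : R3 × R3 → ℝ} (hφ : ContDiff ℝ 1 φ) (hψ : ContDiff ℝ 1 ψ) :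
    Continuous fun y => HB_Bl (fderiv ℝ φ y) (fderiv ℝ ψ y) := by
  have h1 := hφ.continuous_fderiv one_ne_zero
  have h2 := hψ.continuous_fderiv one_ne_zero
  unfold HB_Bl
  fun_prop

theorem HB_int_Bl {g φ ψ : R3 × R3 → ℝ} (hg : Continuous g) (hφ : ContDiff ℝ 1 φ) (hψ : Cc1 ψ) :
    Integrable fun y => g y * HB_Bl (fderiv ℝ φ y) (fderiv ℝ ψ y) := by
  refine (hg.mul (HB_cont_Bl hφ hψ.1)).integrable_of_hasCompactSupport ?_
  refine HasCompactSupport.intro hψ.2 fun y hy => ?_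
  rw [Pi.mul_apply, fderiv_of_notMem_tsupport ℝ hy, HB_Bl_zero, mul_zero]

theorem HB_int_Bl' {φ ψ : R3 × R3 → ℝ} (hφ : ContDiff ℝ 1 φ) (hψ : Cc1 ψ) :
    Integrable fun y => HB_Bl (fderiv ℝ φ y) (fderiv ℝ ψ y) := by
  simpa using HB_int_Bl (g := fun _ => 1) continuous_const hφ hψ

theorem HB_theta : ∃ θ : R3 → ℝ, Cc1 θ ∧ ∫ x, θ x = 1 := by
  let f : ContDiffBump (0 : R3) := ⟨1, 2, one_pos, one_lt_two⟩
  exact ⟨f.normed volume, ⟨f.contDiff_normed, f.hasCompactSupport_normed⟩, f.integral_normed⟩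

theorem HB_int_deriv {θ : R3 → ℝ} (h : Cc1 θ) (v : R3) :
    Integrable (fun x => fderiv ℝ θ x v) ∧ ∫ x, fderiv ℝ θ x v = 0 := by
  have h1 : Continuous fun x => fderiv ℝ θ x v :=
    (h.1.continuous_fderiv one_ne_zero).clm_apply continuous_const
  have h2 : Integrable (fun x => fderiv ℝ θ x v) :=
    h1.integrable_of_hasCompactSupport (h.2.fderiv_apply ℝ v)
  have h3 : Integrable θ := h.1.continuous.integrable_of_hasCompactSupport h.2
  refine ⟨h2, ?_⟩
  have := integral_mul_fderiv_eq_neg_fderiv_mul_of_integrable (μ := (volume : Measure R3))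
    (f := fun _ : R3 => (1 : ℝ)) (g := θ) (v := v) (by simp) (by simpa using h2)
    (by simpa using h3) (fun x _ => by fun_prop)
    (fun x _ => h.1.differentiable one_ne_zero x)
  simpa using this

theorem HB_cc1_test {θ : R3 → ℝ} {ζ : R3 × R3 → ℝ} (hθ : Cc1 θ) (hζ : Cc1 ζ) :
    Cc1 fun x : Fin 3 → R3 => θ (HB_p 0 x) * ζ (HB_T x) := by
  refine ⟨(hθ.1.comp (HB_p 0).contDiff).mul (hζ.1.comp HB_T.contDiff), ?_⟩
  obtain ⟨R, hR⟩ := hθ.2.isCompact.isBounded.subset_closedBall 0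
  obtain ⟨R', hR'⟩ := hζ.2.isCompact.isBounded.subset_closedBall 0
  refine HasCompactSupport.intro (isCompact_closedBall 0 (|R| + |R'|)) fun x hx => ?_
  by_contra h
  apply hx
  have h1 : ‖x 0‖ ≤ R :=
    mem_closedBall_zero_iff.1 (hR (subset_tsupport _ (left_ne_zero_of_mul h)))
  have h2 : ‖HB_T x‖ ≤ R' :=
    mem_closedBall_zero_iff.1 (hR' (subset_tsupport _ (right_ne_zero_of_mul h)))
  have h3 : ‖x 0 - x 1‖ ≤ R' := (norm_fst_le (HB_T x)).trans h2
  have h4 : ‖x 0 - x 2‖ ≤ R' := (norm_snd_le (HB_T x)).trans h2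
  have a1 := le_abs_self R
  have a2 := le_abs_self R'
  have a3 := abs_nonneg R'
  rw [mem_closedBall_zero_iff, pi_norm_le_iff_of_nonneg (by positivity)]
  intro i
  fin_cases i
  · change ‖x 0‖ ≤ _
    linarith
  · change ‖x 1‖ ≤ _
    have := norm_sub_le (x 0) (x 0 - x 1)
    rw [sub_sub_cancel] at this
    linarith
  · change ‖x 2‖ ≤ _
    have := norm_sub_le (x 0) (x 0 - x 2)
    rw [sub_sub_cancel] at this
    linarith

theorem HB_pointwise {w ζ : R3 × R3 → ℝ} {θ : R3 → ℝ} (hw : ContDiff ℝ 1 w) (hθ : Cc1 θ)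
    (hζ : Cc1 ζ) (x : Fin 3 → R3) :
    ∑ i, ⟪pgrad (fun x => w (HB_T x)) i x,
        pgrad (fun x : Fin 3 → R3 => θ (HB_p 0 x) * ζ (HB_T x)) i x⟫_ℝ =
      θ (x 0) * HB_Bl (fderiv ℝ w (HB_T x)) (fderiv ℝ ζ (HB_T x)) +
        ∑ k : Fin 3, fderiv ℝ θ (x 0) (uv k) *
          (ζ (HB_T x) * fderiv ℝ w (HB_T x) ((uv k, 0) + (0, uv k))) := by
  have d1 : HasFDerivAt (fun x => w (HB_T x)) ((fderiv ℝ w (HB_T x)).comp HB_T) x :=
    (hw.differentiable one_ne_zero _).hasFDerivAt.comp x HB_T.hasFDerivAt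
  have d2 : HasFDerivAt (fun x => ζ (HB_T x)) ((fderiv ℝ ζ (HB_T x)).comp HB_T) x :=
    (hζ.1.differentiable one_ne_zero _).hasFDerivAt.comp x HB_T.hasFDerivAt
  have d3 : HasFDerivAt (fun x => θ (HB_p 0 x)) ((fderiv ℝ θ (x 0)).comp (HB_p 0)) x :=
    (hθ.1.differentiable one_ne_zero _).hasFDerivAt.comp x (HB_p 0).hasFDerivAt
  have d4 := d3.fun_mul d2
  have e : ∀ i, ⟪pgrad (fun x => w (HB_T x)) i x,
        pgrad (fun x : Fin 3 → R3 => θ (HB_p 0 x) * ζ (HB_T x)) i x⟫_ℝ =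
      ∑ k : Fin 3, fderiv ℝ w (HB_T x) (HB_T (Pi.single i (uv k))) *
        (θ (x 0) * fderiv ℝ ζ (HB_T x) (HB_T (Pi.single i (uv k))) +
          ζ (HB_T x) * fderiv ℝ θ (x 0) (HB_p 0 (Pi.single i (uv k)))) := by
    intro i
    rw [HB_inner]
    refine Finset.sum_congr rfl fun k _ => ?_
    rw [pgrad_eq d1.differentiableAt, pgrad_eq d4.differentiableAt, d1.fderiv, d4.fderiv]
    rfl
  simp only [e]
  rw [Finset.sum_comm, HB_Bl, Finset.mul_sum, ← Finset.sum_add_distrib]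
  refine Finset.sum_congr rfl fun k _ => ?_
  have p0 : HB_p 0 (Pi.single 0 (uv k)) = uv k := by rw [HB_p_apply]; simp
  have p1 : HB_p 0 (Pi.single 1 (uv k)) = 0 := by rw [HB_p_apply]; simp
  have p2 : HB_p 0 (Pi.single 2 (uv k)) = 0 := by rw [HB_p_apply]; simp
  rw [Fin.sum_univ_three, HB_T0, HB_T1, HB_T2, p0, p1, p2]
  simp only [map_add, map_neg, map_zero]
  ring

/-- the weak equation in relative coordinates -/
theorem HB_weak {w f : R3 × R3 → ℝ} (hw : ContDiff ℝ 1 w) (hf : Measurable f)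
    (h : WeakEq (0 ^ 2) (fun x => f (HB_T x)) (fun x => w (HB_T x))) {ζ : R3 × R3 → ℝ}
    (hζ : Cc1 ζ) : ∫ y, HB_Bl (fderiv ℝ w y) (fderiv ℝ ζ y) = ∫ y, f y * ζ y := by
  obtain ⟨θ, hθ, hθ1⟩ := HB_theta
  have h1 := h _ (HB_cc1_test hθ hζ)
  have cθ := hθ.1.continuous
  have cζ := hζ.1.continuous
  have cθ' := hθ.1.continuous_fderiv one_ne_zero
  have cw' := hw.continuous_fderiv one_ne_zero
  have cB := HB_cont_Bl hw hζ.1
  have iθ : Integrable θ := cθ.integrable_of_hasCompactSupport hθ.2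
  have iB := HB_int_Bl' hw hζ
  have iC : ∀ k : Fin 3, Integrable fun y => ζ y * fderiv ℝ w y ((uv k, 0) + (0, uv k)) :=
    fun k => (cζ.mul (cw'.clm_apply continuous_const)).integrable_of_hasCompactSupport
      hζ.2.mul_right
  have l1 : ∫ x, ((∑ i, ⟪pgrad (fun x => w (HB_T x)) i x,
        pgrad (fun x : Fin 3 → R3 => θ (HB_p 0 x) * ζ (HB_T x)) i x⟫_ℝ) +
        0 ^ 2 * (w (HB_T x) * (θ (HB_p 0 x) * ζ (HB_T x)))) =
      ∫ y, HB_Bl (fderiv ℝ w y) (fderiv ℝ ζ y) := by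
    have m1 : Measurable fun p : R3 × (R3 × R3) =>
        θ p.1 * HB_Bl (fderiv ℝ w p.2) (fderiv ℝ ζ p.2) +
          ∑ k : Fin 3, fderiv ℝ θ p.1 (uv k) *
            (ζ p.2 * fderiv ℝ w p.2 ((uv k, 0) + (0, uv k))) := by
      refine Continuous.measurable ?_
      refine ((cθ.comp continuous_fst).mul (cB.comp continuous_snd)).add ?_
      fun_prop
    have e1 := HB_cov m1
    rw [integral_add (iθ.mul_prod iB)
      (integrable_finsetSum _ fun k _ => (HB_int_deriv hθ (uv k)).1.mul_prod (iC k)),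
      integral_finsetSum _ fun k _ => (HB_int_deriv hθ (uv k)).1.mul_prod (iC k),
      integral_prod_mul θ fun y => HB_Bl (fderiv ℝ w y) (fderiv ℝ ζ y), hθ1, one_mul] at e1
    have e2 : ∀ k : Fin 3, ∫ p : R3 × (R3 × R3), fderiv ℝ θ p.1 (uv k) *
        (ζ p.2 * fderiv ℝ w p.2 ((uv k, 0) + (0, uv k)))
          ∂((volume : Measure R3).prod (volume : Measure (R3 × R3))) = 0 := by
      intro k
      rw [integral_prod_mul (fun a => fderiv ℝ θ a (uv k))
        fun y => ζ y * fderiv ℝ w y ((uv k, 0) + (0, uv k)), (HB_int_deriv hθ (uv k)).2, zero_mul]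
    rw [Finset.sum_eq_zero fun k _ => e2 k, add_zero] at e1
    rw [← e1]
    refine integral_congr_ae (Eventually.of_forall fun x => ?_)
    simp only []
    rw [HB_pointwise hw hθ hζ x]
    ring
  have l2 : ∫ x : Fin 3 → R3, f (HB_T x) * (θ (HB_p 0 x) * ζ (HB_T x)) = ∫ y, f y * ζ y := by
    have m1 : Measurable fun p : R3 × (R3 × R3) => θ p.1 * (f p.2 * ζ p.2) :=
      (cθ.measurable.comp measurable_fst).mul
        ((hf.comp measurable_snd).mul (cζ.measurable.comp measurable_snd))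
    have e1 := HB_cov m1
    rw [integral_prod_mul θ fun y => f y * ζ y, hθ1, one_mul] at e1
    rw [← e1]
    refine integral_congr_ae (Eventually.of_forall fun x => ?_)
    simp only [HB_p_apply]
    ring
  rw [← l1, ← l2]
  exact h1

theorem HB_l2 {w : R3 × R3 → ℝ} (hw : Continuous w) {c : ℝ}
    (h : L2rel (fun x => w (HB_T x)) c) : Integrable fun y => w y ^ 2 := by
  have m1 : Measurable fun y => ENNReal.ofReal (w y ^ 2) := (hw.measurable.pow_const 2).ennreal_ofReal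
  have m2 : Measurable ((Metric.ball (0 : R3) 1).indicator fun _ => (1 : ℝ≥0∞)) :=
    measurable_const.indicator measurableSet_ball
  have h1 := lintegral_mul_single_le (m1.comp HB_T.continuous.measurable) 0 (h 0) m2
  have m3 : Measurable fun p : R3 × (R3 × R3) =>
      (Metric.ball (0 : R3) 1).indicator (fun _ => (1 : ℝ≥0∞)) p.1 * ENNReal.ofReal (w p.2 ^ 2) :=
    (m2.comp measurable_fst).mul (m1.comp measurable_snd)
  have h2 := HB_mp.lintegral_comp m3
  rw [lintegral_prod_mul m2.aemeasurable m1.aemeasurable] at h2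
  have h3 : (∫⁻ a, (Metric.ball (0 : R3) 1).indicator (fun _ => (1 : ℝ≥0∞)) a) *
      ∫⁻ y, ENNReal.ofReal (w y ^ 2) ≤
      ENNReal.ofReal c * ∫⁻ a, (Metric.ball (0 : R3) 1).indicator (fun _ => (1 : ℝ≥0∞)) a := by
    rw [← h2]
    refine le_trans (le_of_eq ?_) h1
    exact lintegral_congr fun x => mul_comm _ _
  rw [lintegral_indicator measurableSet_ball, setLIntegral_one, mul_comm] at h3
  have h4 := (ENNReal.mul_le_mul_iff_left (Metric.measure_ball_pos volume (0 : R3) one_pos).ne'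
    measure_ball_lt_top.ne).1 h3
  exact ⟨(hw.measurable.pow_const 2).aestronglyMeasurable,
    (hasFiniteIntegral_iff_ofReal (Eventually.of_forall fun x => sq_nonneg _)).2
      (h4.trans_lt ENNReal.ofReal_lt_top)⟩

theorem HB_relInt (f : R3 × R3 → ℝ) : relInt (fun x : Fin 3 → R3 => f (HB_T x)) = ∫ y, f y := by
  unfold relInt
  rw [← integral_neg_eq_self f volume,
    ← (volume_preserving_finTwoArrow R3).integral_comp' fun y => f (-y)]
  refine integral_congr_ae (Eventually.of_forall fun y => ?_)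
  simp only []
  congr 1
  rw [HB_T_apply]
  change (0 - y 0, 0 - y 1) = -(y 0, y 1)
  simp

end Pool.Agent.Lib.MP_8fe63c_mp
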