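import Pool.Agent.Lib.MP_8fe63c_mp.HGreen

/-!
Decay and norm bounds for Green functions.

Sketch. `pd_green`: `1 + ‖x a - x b‖^2 ≤ 2 (1 + ‖y a - y b‖^2) + 2 ‖z a - z b‖^2` for `x = y + z`, so
`(1 + ‖x a - x b‖^2) lheat t |S| x ≤ 2 B lheat t Φ x + C B t lheat (2t) Φ x` (`normsq_mul_pk_le`), and
`lheat t Φ ≤ ∑ k B min(1, t^(-3))` by `marg_lheat_le`. `green_norms`: a pointwise bound
`|κ| ≤ ∫ w(t) lheat (c t) |F| dt` gives by Cauchy-Schwarz in `t` with a weight (or Minkowski)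
`marg A κ^2 ≤ (∫ w(t) √(sup (lheat) * marg A (lheat)) dt)^2`; `sup lheat ≤ B min(1, t^(-3(p-1)/2))`,
`marg A lheat ≤ B`. For the gradient, `1/√(vw 1 x) ≤ C (1 + ∑ i ‖z i‖)` when `F (x - z) ≠ 0` (close pair), so
`‖pgrad (heat t F) i x‖ / √(vw 1 x) ≤ C (t^(-1/2) + 1) lheat (2t) |F| x`. For `p = 2`,
`∫_1^∞ exp(-m^2 t) t^(-3/4) dt ≤ C m^(-1/2)`. Differences: `1 - exp(-m^2 t) ≤ min(1, m^2 t)`.
-/

set_option linter.unusedSectionVars false

open MeasureTheory Set Filter Topology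
open scoped ENNReal InnerProductSpace

namespace Pool.Agent.Lib.MP_8fe63c_mp

/-- an integrable majorant on the half line -/
noncomputable def HDecay_g (t : ℝ) : ℝ := if t ≤ 1 then t ^ (-(1 / 2 : ℝ)) else t ^ (-(3 / 2 : ℝ))

lemma HDecay_g_nonneg {t : ℝ} (ht : 0 < t) : 0 ≤ HDecay_g t := by
  unfold HDecay_g; split_ifs <;> positivity

lemma HDecay_g_int : IntegrableOn HDecay_g (Ioi 0) := by
  have h1 : IntegrableOn HDecay_g (Ioc 0 1) := by
    have : IntegrableOn (fun t : ℝ => t ^ (-(1 / 2 : ℝ))) (Ioc 0 1) := by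
      rw [integrableOn_Ioc_iff_integrableOn_Ioo]
      exact (intervalIntegral.integrableOn_Ioo_rpow_iff one_pos).mpr (by norm_num)
    exact this.congr_fun (fun t ht => by simp [HDecay_g, ht.2]) measurableSet_Ioc
  have h2 : IntegrableOn HDecay_g (Ioi 1) := by
    have : IntegrableOn (fun t : ℝ => t ^ (-(3 / 2 : ℝ))) (Ioi 1) :=
      integrableOn_Ioi_rpow_of_lt (by norm_num) one_pos
    exact this.congr_fun (fun t ht => by simp [HDecay_g, not_le.mpr (mem_Ioi.mp ht)])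
      measurableSet_Ioi
  have := h1.union h2
  rwa [Ioc_union_Ioi_eq_Ioi zero_le_one] at this

/-- the integral of the majorant -/
noncomputable def HDecay_I : ℝ := ∫ t in Ioi (0 : ℝ), HDecay_g t

lemma HDecay_I_nonneg : 0 ≤ HDecay_I :=
  setIntegral_nonneg measurableSet_Ioi fun _ ht => HDecay_g_nonneg ht

lemma HDecay_lint {K : ℝ} (hK : 0 ≤ K) {f : ℝ → ℝ≥0∞}
    (hf : ∀ t, 0 < t → f t ≤ ENNReal.ofReal (K * HDecay_g t)) :
    ∫⁻ t in Ioi (0 : ℝ), f t ≤ ENNReal.ofReal (K * HDecay_I) := by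
  refine (setLIntegral_mono' measurableSet_Ioi fun t ht => hf t ht).trans (le_of_eq ?_)
  rw [← ofReal_integral_eq_lintegral_ofReal (HDecay_g_int.const_mul K), integral_const_mul]
  · rfl
  · exact (ae_restrict_iff' measurableSet_Ioi).mpr
      (ae_of_all _ fun t ht => mul_nonneg hK (HDecay_g_nonneg ht))

lemma HDecay_le_g {t : ℝ} (ht : 0 < t) : (1 + t) * min 1 (t ^ (-(3 : ℝ))) ≤ 2 * HDecay_g t := by
  unfold HDecay_g
  split_ifs with h
  · have h1 : 1 ≤ t ^ (-(1 / 2 : ℝ)) := Real.one_le_rpow_of_pos_of_le_one_of_nonpos ht h (by norm_num)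
    have h2 : min 1 (t ^ (-(3 : ℝ))) ≤ 1 := min_le_left _ _
    have h3 : 0 ≤ min 1 (t ^ (-(3 : ℝ))) := le_min zero_le_one (by positivity)
    nlinarith
  · have h1 : 1 ≤ t := (not_le.mp h).le
    have h2 : min 1 (t ^ (-(3 : ℝ))) ≤ t ^ (-(3 : ℝ)) := min_le_right _ _
    have h3 : t * t ^ (-(3 : ℝ)) ≤ t ^ (-(3 / 2 : ℝ)) := by
      have : t * t ^ (-(3 : ℝ)) = t ^ (-(2 : ℝ)) := by
        rw [show (-(2 : ℝ)) = 1 + -3 by norm_num, Real.rpow_add ht, Real.rpow_one]
      rw [this]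
      exact Real.rpow_le_rpow_of_exponent_le h1 (by norm_num)
    have h4 : 0 ≤ t ^ (-(3 : ℝ)) := by positivity
    calc (1 + t) * min 1 (t ^ (-(3 : ℝ))) ≤ (t + t) * t ^ (-(3 : ℝ)) :=
          mul_le_mul (by linarith) h2 (le_min zero_le_one h4) (by linarith)
      _ ≤ _ := by nlinarith

lemma HDecay_le_g' {t : ℝ} (ht : 0 < t) :
    (t ^ (-(1 / 2 : ℝ)) + 1) * min 1 (t ^ (-(3 / 2 : ℝ))) ≤ 2 * HDecay_g t := by
  unfold HDecay_g
  have h3 : 0 ≤ min 1 (t ^ (-(3 / 2 : ℝ))) := le_min zero_le_one (by positivity)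
  split_ifs with h
  · have h1 : 1 ≤ t ^ (-(1 / 2 : ℝ)) := Real.one_le_rpow_of_pos_of_le_one_of_nonpos ht h (by norm_num)
    have h2 : min 1 (t ^ (-(3 / 2 : ℝ))) ≤ 1 := min_le_left _ _
    nlinarith
  · have h1 : t ^ (-(1 / 2 : ℝ)) ≤ 1 :=
      Real.rpow_le_one_of_one_le_of_nonpos (not_le.mp h).le (by norm_num)
    have h2 : min 1 (t ^ (-(3 / 2 : ℝ))) ≤ t ^ (-(3 / 2 : ℝ)) := min_le_right _ _
    nlinarith

lemma HDecay_le_34 {t : ℝ} (ht : 0 < t) :
    (t ^ (-(1 / 2 : ℝ)) + 1) * min 1 (t ^ (-(3 / 4 : ℝ))) ≤ 2 * t ^ (-(3 / 4 : ℝ)) := by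
  have h3 : 0 ≤ min 1 (t ^ (-(3 / 4 : ℝ))) := le_min zero_le_one (by positivity)
  rcases le_total t 1 with h | h
  · have h1 : 1 ≤ t ^ (-(1 / 2 : ℝ)) := Real.one_le_rpow_of_pos_of_le_one_of_nonpos ht h (by norm_num)
    have h2 : min 1 (t ^ (-(3 / 4 : ℝ))) ≤ 1 := min_le_left _ _
    have h4 : t ^ (-(1 / 2 : ℝ)) ≤ t ^ (-(3 / 4 : ℝ)) :=
      Real.rpow_le_rpow_of_exponent_ge ht h (by norm_num)
    nlinarith
  · have h1 : t ^ (-(1 / 2 : ℝ)) ≤ 1 := Real.rpow_le_one_of_one_le_of_nonpos h (by norm_num)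
    have h2 : min 1 (t ^ (-(3 / 4 : ℝ))) ≤ t ^ (-(3 / 4 : ℝ)) := min_le_right _ _
    nlinarith

lemma HDecay_min_le_g {s : ℝ} (hs : 0 < s) : (1 - Real.exp (-s)) * s ^ (-(3 / 2 : ℝ)) ≤ HDecay_g s := by
  have h0 : 0 ≤ s ^ (-(3 / 2 : ℝ)) := by positivity
  unfold HDecay_g
  split_ifs with h
  · have h1 : 1 - Real.exp (-s) ≤ s := by linarith [Real.add_one_le_exp (-s)]
    have h2 : s * s ^ (-(3 / 2 : ℝ)) = s ^ (-(1 / 2 : ℝ)) := by
      rw [show (-(1 / 2 : ℝ)) = 1 + -(3 / 2) by norm_num, Real.rpow_add hs, Real.rpow_one]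
    rw [← h2]
    exact mul_le_mul_of_nonneg_right h1 h0
  · have := Real.exp_pos (-s)
    nlinarith

lemma HDecay_gamma {m : ℝ} (hm : 0 < m) :
    ∫⁻ t in Ioi (0 : ℝ), ENNReal.ofReal (t ^ (-(3 / 4 : ℝ)) * Real.exp (-(m ^ 2 * t))) =
      ENNReal.ofReal (Real.Gamma (1 / 4) * m ^ (-(1 / 2 : ℝ))) := by
  have h := Real.integral_rpow_mul_exp_neg_mul_Ioi (a := 1 / 4) (r := m ^ 2) (by norm_num)
    (by positivity)
  have e : (1 / m ^ 2) ^ (1 / 4 : ℝ) = m ^ (-(1 / 2 : ℝ)) := by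
    rw [one_div, ← Real.rpow_natCast, ← Real.rpow_neg hm.le, ← Real.rpow_mul hm.le]
    norm_num
  rw [show (1 / 4 : ℝ) - 1 = -(3 / 4) by norm_num, e, mul_comm] at h
  have hpos : 0 < Real.Gamma (1 / 4) * m ^ (-(1 / 2 : ℝ)) :=
    mul_pos (Real.Gamma_pos_of_pos (by norm_num)) (by positivity)
  rw [← h, ofReal_integral_eq_lintegral_ofReal]
  · exact Integrable.of_integral_ne_zero (by rw [h]; exact hpos.ne')
  · exact (ae_restrict_iff' measurableSet_Ioi).mpr
      (ae_of_all _ fun t ht => by have : 0 < t := ht; positivity)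

section
variable {ι : Type} [Fintype ι] [DecidableEq ι]

lemma HDecay_swap {L : ℝ → (ι → R3) → ℝ≥0∞} (hL : Measurable fun p : ℝ × (ι → R3) => L p.1 p.2)
    (A : Finset ι) (x : ι → R3) :
    marg A (fun y => ∫⁻ t in Ioi (0 : ℝ), L t y) x = ∫⁻ t in Ioi (0 : ℝ), marg A (L t) x := by
  unfold marg lmarginal
  refine lintegral_lintegral_swap (Measurable.aemeasurable ?_)
  exact hL.comp (measurable_snd.prodMk (measurable_updateFinset.comp measurable_fst))

lemma HDecay_cs {L : ℝ → (ι → R3) → ℝ≥0∞} (hL : Measurable fun p : ℝ × (ι → R3) => L p.1 p.2)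
    {w u : ℝ → ℝ≥0∞} (hw : Measurable w) (hu : Measurable u)
    (hs : ∀ t, 0 < t → ∀ x, L t x ≤ u t ^ 2) {A : Finset ι} {c : ℝ≥0∞}
    (hm : ∀ t, 0 < t → ∀ x, marg A (L t) x ≤ c) {G : (ι → R3) → ℝ≥0∞}
    (hG : ∀ x, G x ≤ ∫⁻ t in Ioi (0 : ℝ), w t * L t x) (x : ι → R3) :
    marg A (fun y => G y ^ 2) x ≤ (∫⁻ t in Ioi (0 : ℝ), w t * u t) ^ 2 * c := by
  set I := ∫⁻ t in Ioi (0 : ℝ), w t * u t with hI
  have hL' : Measurable fun p : ℝ × (ι → R3) => w p.1 * u p.1 * L p.1 p.2 :=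
    ((hw.comp measurable_fst).mul (hu.comp measurable_fst)).mul hL
  have h1 : ∀ y, G y ^ 2 ≤ I * ∫⁻ t in Ioi (0 : ℝ), w t * u t * L t y := by
    intro y
    have hLy : Measurable fun t => L t y := hL.comp (measurable_id.prodMk measurable_const)
    have h2 := ENNReal.lintegral_mul_le_Lp_mul_Lq (volume.restrict (Ioi (0 : ℝ)))
      Real.HolderConjugate.two_two (f := fun t => (w t * u t) ^ (1 / 2 : ℝ))
      (g := fun t => (w t * u t * L t y) ^ (1 / 2 : ℝ))
      ((hw.mul hu).pow_const _).aemeasurable (((hw.mul hu).mul hLy).pow_const _).aemeasurable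
    simp only [← ENNReal.rpow_mul, Pi.mul_apply] at h2
    norm_num at h2
    have h3 : G y ≤ I ^ (1 / 2 : ℝ) * (∫⁻ t in Ioi (0 : ℝ), w t * u t * L t y) ^ (1 / 2 : ℝ) := by
      refine (hG y).trans (le_trans (setLIntegral_mono' measurableSet_Ioi fun t ht => ?_) h2)
      rw [← ENNReal.mul_rpow_of_nonneg _ _ (by norm_num)]
      have h4 : (w t * L t y) ^ 2 ≤ w t * u t * (w t * u t * L t y) := by
        calc (w t * L t y) ^ 2 = w t ^ 2 * L t y * L t y := by ring
          _ ≤ w t ^ 2 * u t ^ 2 * L t y := by gcongr; exact hs t ht y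
          _ = _ := by ring
      calc w t * L t y = ((w t * L t y) ^ 2) ^ (1 / 2 : ℝ) := by
            rw [← ENNReal.rpow_natCast, ← ENNReal.rpow_mul]; norm_num
        _ ≤ _ := ENNReal.rpow_le_rpow h4 (by norm_num)
    calc G y ^ 2 ≤ (I ^ (1 / 2 : ℝ) *
          (∫⁻ t in Ioi (0 : ℝ), w t * u t * L t y) ^ (1 / 2 : ℝ)) ^ 2 := by gcongr
      _ = _ := by
        rw [← ENNReal.mul_rpow_of_nonneg _ _ (by norm_num), ← ENNReal.rpow_natCast,
          ← ENNReal.rpow_mul]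
        norm_num
  refine (marg_mono A h1 x).trans ?_
  rw [marg_mul_left A (c := fun _ => I) hL'.lintegral_prod_left' (fun _ _ _ => rfl),
    HDecay_swap (L := fun t y => w t * u t * L t y) hL', pow_two, mul_assoc]
  gcongr
  rw [hI, ← lintegral_mul_const c (f := fun t => w t * u t) (hw.mul hu)]
  refine setLIntegral_mono' measurableSet_Ioi fun t ht => ?_
  rw [marg_mul_left A (c := fun _ => w t * u t) (Φ := L t)
    (hL.comp (measurable_const.prodMk measurable_id)) (fun _ _ _ => rfl)]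
  gcongr
  exact hm t ht x

end

section
variable {ι : Type} [Fintype ι] [DecidableEq ι]

lemma HDecay_hw (x z : ι → R3) (a b : ι) :
    hw 1 ((x - z) a - (x - z) b) ≤ hw 1 (x a - x b) * (2 + 4 * (‖z a‖ * ‖z a‖) + 4 * (‖z b‖ * ‖z b‖)) := by
  unfold hw
  set r := ‖(x - z) a - (x - z) b‖ with hr
  have h1 : ‖x a - x b‖ ≤ r + (‖z a‖ + ‖z b‖) := by
    have e : x a - x b = ((x - z) a - (x - z) b) + (z a - z b) := by simp only [Pi.sub_apply]; abel
    rw [e]
    exact (norm_add_le _ _).trans (add_le_add le_rfl (norm_sub_le _ _))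
  have h0 : 0 ≤ r := norm_nonneg _
  have ha := norm_nonneg (z a)
  have hb := norm_nonneg (z b)
  have h2 : ‖x a - x b‖ ^ 2 ≤ (r + (‖z a‖ + ‖z b‖)) ^ 2 := by gcongr
  rw [← div_eq_inv_mul, one_pow, one_mul, one_mul, le_div_iff₀ (by positivity),
    inv_mul_le_iff₀ (by positivity)]
  have h3 : (r + (‖z a‖ + ‖z b‖)) ^ 2 ≤ 2 * r ^ 2 + 4 * (‖z a‖ * ‖z a‖) + 4 * (‖z b‖ * ‖z b‖) := by
    nlinarith [sq_nonneg (r - (‖z a‖ + ‖z b‖)), sq_nonneg (‖z a‖ - ‖z b‖)]
  have h4 : 0 ≤ r ^ 2 * (4 * (‖z a‖ * ‖z a‖) + 4 * (‖z b‖ * ‖z b‖)) := by positivity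
  nlinarith

lemma HDecay_hw_nonneg (r : R3) : 0 ≤ hw 1 r := by unfold hw; positivity

lemma HDecay_pk_mom {t : ℝ} (ht : 0 < t) (z : ι → R3) (a b : ι) :
    pk t z * (2 + 4 * (‖z a‖ * ‖z a‖) + 4 * (‖z b‖ * ‖z b‖)) ≤
      8 * 3 ^ (Fintype.card ι + 2) * (1 + t) * pk (2 * t) z := by
  have h1 := pk_le_double ht z
  have h2 := normsq_mul_pk_le ht z a a
  have h3 := normsq_mul_pk_le ht z b b
  have h4 := pk_pos (t := 2 * t) (by positivity) z
  have h5 : (3 : ℝ) ^ (Fintype.card ι + 2) = 9 * 3 ^ Fintype.card ι := by ring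
  have h6 : 0 < (3 : ℝ) ^ Fintype.card ι * pk (2 * t) z := by positivity
  rw [h5] at h2 h3 ⊢
  nlinarith

lemma HDecay_lheat_le {Φ : (ι → R3) → ℝ≥0∞} (h : Measurable Φ) {A : Finset ι} {B : ℝ} (hB : 0 ≤ B)
    (h0 : MargLe ∅ Φ B) (hA : MargLe A Φ B) {t : ℝ} (ht : 0 < t) (x : ι → R3) :
    lheat (2 * t) Φ x ≤ ENNReal.ofReal (B * min 1 (t ^ (-(3 / 2 : ℝ) * (A.card : ℝ)))) := by
  have h1 := marg_lheat_le h (Finset.Subset.refl ∅) h0 (t := 2 * t) (by positivity) x
  have h2 := marg_lheat_le h (Finset.empty_subset A) hA (t := 2 * t) (by positivity) x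
  rw [marg_empty] at h1 h2
  simp only [Finset.sdiff_empty, Finset.card_empty, Nat.cast_zero, mul_zero, Real.rpow_zero,
    one_mul] at h1 h2
  rcases min_choice 1 (t ^ (-(3 / 2 : ℝ) * (A.card : ℝ))) with e | e <;> rw [e]
  · rwa [mul_one]
  · refine h2.trans (ENNReal.ofReal_le_ofReal ?_)
    rw [mul_comm B]
    refine mul_le_mul_of_nonneg_right ?_ hB
    refine Real.rpow_le_rpow_of_nonpos ht (by linarith) ?_
    have : (0 : ℝ) ≤ A.card := Nat.cast_nonneg _
    nlinarith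

end

theorem pd_green (p n : ℕ) (B : ℝ) : ∃ C : ℝ, 1 ≤ C ∧ ∀ (S : (Fin p → R3) → ℝ)
    (Φ : Fin n → (Fin p → R3) → ℝ≥0∞) (A : Fin n → Finset (Fin p)),
    Measurable S → (∀ k, Measurable (Φ k)) → (∀ k, (A k).card = 2) →
    (∀ k, MargLe ∅ (Φ k) B) → (∀ k, MargLe (A k) (Φ k) B) →
    (∀ x a b, a ≠ b → eabs S x ≤ ENNReal.ofReal (B * hw 1 (x a - x b)) * ∑ k, Φ k x) →
    PD (green 0 S) C := by
  set K : ℝ := |B| * (8 * 3 ^ (p + 2)) * (n * |B|) * 2 with hK
  have hK0 : 0 ≤ K := by positivity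
  have hI := HDecay_I_nonneg
  refine ⟨1 + K * HDecay_I, by nlinarith, fun S Φ A _ hΦ hA h0 h2 hS x a b hab => ?_⟩
  have hw0 := HDecay_hw_nonneg (x a - x b)
  have hm : ∀ {A : Finset (Fin p)} {Ψ : (Fin p → R3) → ℝ≥0∞}, MargLe A Ψ B → MargLe A Ψ |B| :=
    fun h y => (h y).trans (ENNReal.ofReal_le_ofReal (le_abs_self B))
  have key : eabs (green 0 S) x ≤ ENNReal.ofReal (hw 1 (x a - x b) * K * HDecay_I) := by
    refine (eabs_green_le 0 x).trans (HDecay_lint (by positivity) fun t ht => ?_)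
    have e1 : lheat t (eabs S) x ≤
        ENNReal.ofReal (hw 1 (x a - x b) * (|B| * (8 * 3 ^ (p + 2)) * (1 + t))) *
          ∑ k, lheat (2 * t) (Φ k) x := by
      unfold lheat
      rw [← lintegral_finsetSum, ← lintegral_const_mul' _ _ ENNReal.ofReal_ne_top]
      · refine lintegral_mono fun z => ?_
        refine (mul_le_mul_right (hS (x - z) a b hab) _).trans ?_
        rw [← Finset.mul_sum, ← mul_assoc, ← mul_assoc,
          ← ENNReal.ofReal_mul (pk_pos ht z).le, ← ENNReal.ofReal_mul (by positivity)]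
        refine mul_le_mul_left (ENNReal.ofReal_le_ofReal ?_) _
        have h3 := HDecay_hw x z a b
        have h4 := HDecay_pk_mom ht z a b
        have h5 := pk_pos ht z
        have h6 := HDecay_hw_nonneg ((x - z) a - (x - z) b)
        rw [Fintype.card_fin] at h4
        calc pk t z * (B * hw 1 ((x - z) a - (x - z) b))
            ≤ pk t z * (|B| * (hw 1 (x a - x b) *
              (2 + 4 * (‖z a‖ * ‖z a‖) + 4 * (‖z b‖ * ‖z b‖)))) := by
              gcongr; exact le_abs_self B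
          _ = |B| * hw 1 (x a - x b) *
              (pk t z * (2 + 4 * (‖z a‖ * ‖z a‖) + 4 * (‖z b‖ * ‖z b‖))) := by ring
          _ ≤ |B| * hw 1 (x a - x b) * (8 * 3 ^ (p + 2) * (1 + t) * pk (2 * t) z) := by gcongr
          _ = _ := by ring
      · intro k _
        exact ((continuous_pk _).measurable.ennreal_ofReal).mul
          ((hΦ k).comp (measurable_const.sub measurable_id))
    have e2 : ∑ k, lheat (2 * t) (Φ k) x ≤ ENNReal.ofReal (n * (|B| * min 1 (t ^ (-(3 : ℝ))))) := by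
      have : ∀ k, lheat (2 * t) (Φ k) x ≤ ENNReal.ofReal (|B| * min 1 (t ^ (-(3 : ℝ)))) := by
        intro k
        have := HDecay_lheat_le (hΦ k) (abs_nonneg B) (hm (h0 k)) (hm (h2 k)) ht x
        rw [hA k] at this
        norm_num at this ⊢
        exact this
      refine (Finset.sum_le_sum fun k _ => this k).trans (le_of_eq ?_)
      rw [Finset.sum_const, Finset.card_univ, Fintype.card_fin, nsmul_eq_mul,
        ENNReal.ofReal_mul (Nat.cast_nonneg n), ENNReal.ofReal_natCast]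
    simp only [ne_eq, OfNat.ofNat_ne_zero, not_false_eq_true, zero_pow, neg_zero, zero_mul,
      Real.exp_zero, ENNReal.ofReal_one, one_mul]
    refine e1.trans ((mul_le_mul_right e2 _).trans ?_)
    rw [← ENNReal.ofReal_mul (by positivity)]
    refine ENNReal.ofReal_le_ofReal ?_
    have h3 := HDecay_le_g ht
    calc _ = hw 1 (x a - x b) * (|B| * (8 * 3 ^ (p + 2)) * (n * |B|)) *
          ((1 + t) * min 1 (t ^ (-(3 : ℝ)))) := by ring
      _ ≤ hw 1 (x a - x b) * (|B| * (8 * 3 ^ (p + 2)) * (n * |B|)) * (2 * HDecay_g t) := by gcongr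
      _ = _ := by rw [hK]; ring
  unfold eabs at key
  rw [ENNReal.ofReal_le_ofReal_iff (by positivity)] at key
  nlinarith

section
variable {ι : Type} [Fintype ι] [DecidableEq ι] {F : (ι → R3) → ℝ} {B : ℝ}

lemma HDecay_vw_nonneg (x : ι → R3) : 0 ≤ vw 1 x := by
  unfold vw
  refine Finset.sum_nonneg fun a _ => Finset.sum_nonneg fun b _ => ?_
  split_ifs
  · exact le_rfl
  · exact HDecay_hw_nonneg _

lemma HDecay_vw (x : ι → R3) {a b : ι} (hab : a ≠ b) : √((vw 1 x)⁻¹) ≤ 1 + ‖x a - x b‖ := by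
  have hn : ∀ a b : ι, 0 ≤ if a = b then 0 else hw 1 (x a - x b) := by
    intro a b
    split_ifs
    · exact le_rfl
    · exact HDecay_hw_nonneg _
  have h1 : hw 1 (x a - x b) ≤ vw 1 x := by
    unfold vw
    refine le_trans ?_ (Finset.single_le_sum
      (f := fun a => ∑ b, if a = b then 0 else hw 1 (x a - x b))
      (fun a _ => Finset.sum_nonneg fun b _ => hn a b) (Finset.mem_univ a))
    refine le_trans ?_ (Finset.single_le_sum
      (f := fun b => if a = b then 0 else hw 1 (x a - x b)) (fun b _ => hn a b) (Finset.mem_univ b))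
    simp [hab]
  have h0 := norm_nonneg (x a - x b)
  rw [Real.sqrt_le_left (by positivity)]
  refine le_trans (inv_le_of_inv_le₀ (a := 1 + 1 ^ 2 * ‖x a - x b‖ ^ 2) (by positivity) h1) ?_
  nlinarith

lemma HDecay_double {Φ : (ι → R3) → ℝ≥0∞} {t K : ℝ} (ht : 0 < t) (hK : 3 ^ Fintype.card ι ≤ K)
    (x : ι → R3) : lheat t Φ x ≤ ENNReal.ofReal K * lheat (2 * t) Φ x := by
  unfold lheat
  rw [← lintegral_const_mul' _ _ ENNReal.ofReal_ne_top]
  refine lintegral_mono fun z => ?_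
  rw [← mul_assoc, ← ENNReal.ofReal_mul (le_trans (by positivity) hK)]
  refine mul_le_mul_left (ENNReal.ofReal_le_ofReal ((pk_le_double ht z).trans ?_)) _
  exact mul_le_mul_of_nonneg_right hK (pk_pos (by positivity) z).le

lemma HDecay_grad_heat (hι : 2 ≤ Fintype.card ι) (h : Nice F B) {t : ℝ} (ht : 0 < t) (i : ι)
    (x : ι → R3) :
    ENNReal.ofReal (√((vw 1 x)⁻¹)) * ‖pgrad (heat t F) i x‖ₑ ≤
      ENNReal.ofReal ((1 + B) * 3 ^ (Fintype.card ι + 2) * (t ^ (-(1 / 2 : ℝ)) + 1)) *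
        lheat (2 * t) (eabs F) x := by
  have hB := h.one_le
  rw [h.toNice0.pgrad_heat hι ht]
  refine (mul_le_mul_right (enorm_integral_le_lintegral_enorm _) _).trans ?_
  unfold lheat eabs
  rw [← lintegral_const_mul' _ _ ENNReal.ofReal_ne_top,
    ← lintegral_const_mul' _ _ ENNReal.ofReal_ne_top]
  refine lintegral_mono fun z => ?_
  have h4 := pk_pos (t := 2 * t) (by positivity) z
  have h5 := pk_pos ht z
  rw [← ofReal_norm, ← ENNReal.ofReal_mul (Real.sqrt_nonneg _), ← ENNReal.ofReal_mul h4.le,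
    ← ENNReal.ofReal_mul (by positivity)]
  refine ENNReal.ofReal_le_ofReal ?_
  by_cases hF : F (x - z) = 0
  · simp [hF]
  obtain ⟨a, b, hab, hc⟩ := h.close _ hF
  have h1 : ‖x a - x b‖ ≤ B + (‖z a‖ + ‖z b‖) := by
    have e : x a - x b = ((x - z) a - (x - z) b) + (z a - z b) := by simp only [Pi.sub_apply]; abel
    rw [e]
    exact (norm_add_le _ _).trans (add_le_add hc (norm_sub_le _ _))
  have h2 := HDecay_vw x hab
  have h3 := norm_mul_pk_le ht z i
  have h6 := normsq_mul_pk_le ht z a i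
  have h7 := normsq_mul_pk_le ht z b i
  have hs : √t = t * t ^ (-(1 / 2 : ℝ)) := by
    rw [Real.sqrt_eq_rpow, show (1 / 2 : ℝ) = 1 + -(1 / 2) by norm_num, Real.rpow_add ht,
      Real.rpow_one]
    norm_num
  have hr : 0 < t ^ (-(1 / 2 : ℝ)) := by positivity
  rw [norm_smul, norm_mul, norm_div, norm_neg, Real.norm_of_nonneg h5.le,
    Real.norm_of_nonneg (by positivity : 0 ≤ 2 * t), Real.norm_eq_abs]
  have h8 : (3 : ℝ) ^ (Fintype.card ι + 2) = 3 * 3 ^ (Fintype.card ι + 1) := by ring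
  set P : ℝ := 3 ^ (Fintype.card ι + 1) with hP
  have hP0 : 0 < P := by positivity
  have h9 : √((vw 1 x)⁻¹) * (‖z i‖ * pk t z) ≤
      (1 + B) * (3 * P) * (t ^ (-(1 / 2 : ℝ)) + 1) * pk (2 * t) z * (2 * t) := by
    rw [h8] at h6 h7
    rw [hs] at h3
    have g1 : 0 < P * (t * t ^ (-(1 / 2 : ℝ))) * pk (2 * t) z := by positivity
    have g2 : 0 < P * t * pk (2 * t) z := by positivity
    calc √((vw 1 x)⁻¹) * (‖z i‖ * pk t z) ≤ (1 + B + (‖z a‖ + ‖z b‖)) * (‖z i‖ * pk t z) := by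
          gcongr; linarith
      _ = (1 + B) * (‖z i‖ * pk t z) + ‖z a‖ * ‖z i‖ * pk t z + ‖z b‖ * ‖z i‖ * pk t z := by ring
      _ ≤ (1 + B) * (P * (t * t ^ (-(1 / 2 : ℝ))) * pk (2 * t) z) + 3 * P * t * pk (2 * t) z
          + 3 * P * t * pk (2 * t) z := by gcongr
      _ ≤ _ := by nlinarith
  rw [h8]
  calc √((vw 1 x)⁻¹) * (pk t z / (2 * t) * |F (x - z)| * ‖z i‖)
      = √((vw 1 x)⁻¹) * (‖z i‖ * pk t z) / (2 * t) * |F (x - z)| := by ring
    _ ≤ (1 + B) * (3 * P) * (t ^ (-(1 / 2 : ℝ)) + 1) * pk (2 * t) z * |F (x - z)| := by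
      gcongr
      rw [div_le_iff₀ (by positivity)]
      exact h9
    _ = _ := by ring

lemma HDecay_diff (hι : 2 ≤ Fintype.card ι) (h : Nice0 F B) (m : ℝ) (x : ι → R3) {g : ℝ → ℝ}
    (hg : IntegrableOn g (Ioi 0))
    (hle : ∀ t, 0 < t → (1 - Real.exp (-(m ^ 2 * t))) *
      min 1 (t ^ (-(3 / 2 : ℝ) * ((Fintype.card ι : ℝ) - 1))) ≤ g t) :
    |green m F x - green 0 F x| ≤ B * ∫ t in Ioi (0 : ℝ), g t := by
  unfold green
  rw [← integral_sub (h.integrableOn hι m x) (h.integrableOn hι 0 x), ← integral_const_mul,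
    ← Real.norm_eq_abs]
  refine norm_integral_le_of_norm_le (hg.const_mul B)
    ((ae_restrict_iff' measurableSet_Ioi).mpr (ae_of_all _ fun t ht => ?_))
  have ht' : 0 < t := ht
  have h1 := h.heat_le hι ht' x
  have h2 : Real.exp (-(m ^ 2 * t)) ≤ 1 := Real.exp_le_one_iff.mpr (by
    have : 0 ≤ m ^ 2 * t := by positivity
    linarith)
  have hB := h.one_le
  have e : Real.exp (-(m ^ 2) * t) * heat t F x - Real.exp (-(0 ^ 2) * t) * heat t F x =
      -((1 - Real.exp (-(m ^ 2 * t))) * heat t F x) := by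
    simp; ring
  rw [e, norm_neg, norm_mul, Real.norm_of_nonneg (by linarith), Real.norm_eq_abs]
  calc _ ≤ (1 - Real.exp (-(m ^ 2 * t))) *
        (B * min 1 (t ^ (-(3 / 2 : ℝ) * ((Fintype.card ι : ℝ) - 1)))) := by gcongr
    _ = B * ((1 - Real.exp (-(m ^ 2 * t))) *
        min 1 (t ^ (-(3 / 2 : ℝ) * ((Fintype.card ι : ℝ) - 1)))) := by ring
    _ ≤ _ := by gcongr; exact hle t ht'

end

lemma HDecay_min_mono {t a b : ℝ} (ht : 0 < t) (hab : a ≤ b) (hb : b ≤ 0) :
    min 1 (t ^ a) ≤ min 1 (t ^ b) := by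
  refine le_min (min_le_left _ _) ?_
  rcases le_total t 1 with h | h
  · exact (min_le_left _ _).trans (Real.one_le_rpow_of_pos_of_le_one_of_nonpos ht h hb)
  · exact (min_le_right _ _).trans (Real.rpow_le_rpow_of_exponent_le h hab)

lemma HDecay_wu (p : ℕ) (hp : 2 ≤ p) {K m : ℝ} (hK : 0 ≤ K) (hm : p = 2 → 0 < m) :
    ∫⁻ t in Ioi (0 : ℝ), ENNReal.ofReal (K * (Real.exp (-(m ^ 2) * t) *
      ((t ^ (-(1 / 2 : ℝ)) + 1) * min 1 (t ^ (-(3 / 4 : ℝ) * ((p : ℝ) - 1)))))) ≤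
      ENNReal.ofReal (2 * K * (HDecay_I + Real.Gamma (1 / 4)) *
        (if p = 2 then m ^ (-(1 / 2 : ℝ)) else 1)) := by
  have hI := HDecay_I_nonneg
  have hG : 0 < Real.Gamma (1 / 4) := Real.Gamma_pos_of_pos (by norm_num)
  split_ifs with h
  · have hm0 := hm h
    subst h
    calc _ ≤ ∫⁻ t in Ioi (0 : ℝ), ENNReal.ofReal (2 * K) *
          ENNReal.ofReal (t ^ (-(3 / 4 : ℝ)) * Real.exp (-(m ^ 2 * t))) := by
          refine setLIntegral_mono' measurableSet_Ioi fun t ht => ?_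
          rw [← ENNReal.ofReal_mul (by positivity)]
          refine ENNReal.ofReal_le_ofReal ?_
          have h1 := HDecay_le_34 (t := t) ht
          rw [show -(3 / 4 : ℝ) * (((2 : ℕ) : ℝ) - 1) = -(3 / 4) by norm_num, neg_mul]
          calc _ ≤ K * (Real.exp (-(m ^ 2 * t)) * (2 * t ^ (-(3 / 4 : ℝ)))) := by gcongr
            _ = _ := by ring
      _ ≤ _ := by
          rw [lintegral_const_mul' _ _ ENNReal.ofReal_ne_top, HDecay_gamma hm0,
            ← ENNReal.ofReal_mul (by positivity)]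
          refine ENNReal.ofReal_le_ofReal ?_
          have : 0 ≤ K * HDecay_I * m ^ (-(1 / 2 : ℝ)) := by positivity
          nlinarith
  · have h3 : (3 : ℝ) ≤ p := by exact_mod_cast (show 3 ≤ p by omega)
    refine (HDecay_lint (K := 2 * K) (by positivity) fun t ht => ENNReal.ofReal_le_ofReal ?_).trans
      (ENNReal.ofReal_le_ofReal (by nlinarith))
    have h1 := HDecay_le_g' ht
    have h2 : Real.exp (-(m ^ 2) * t) ≤ 1 := Real.exp_le_one_iff.mpr (by
      have : 0 ≤ m ^ 2 * t := by positivity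
      linarith)
    have h4 := HDecay_min_mono (a := -(3 / 4 : ℝ) * ((p : ℝ) - 1)) (b := -(3 / 2 : ℝ)) ht
      (by linarith) (by norm_num)
    have h5 : 0 ≤ min 1 (t ^ (-(3 / 4 : ℝ) * ((p : ℝ) - 1))) := le_min zero_le_one (by positivity)
    calc _ ≤ K * (1 * ((t ^ (-(1 / 2 : ℝ)) + 1) * min 1 (t ^ (-(3 / 2 : ℝ))))) := by gcongr
      _ ≤ K * (1 * (2 * HDecay_g t)) := by gcongr
      _ = _ := by ring

lemma HDecay_main (p : ℕ) (hp : 2 ≤ p) {B K m : ℝ} (hK : 0 ≤ K) (hm : p = 2 → 0 < m)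
    {F : (Fin p → R3) → ℝ} (h : Nice0 F B) {G : (Fin p → R3) → ℝ≥0∞}
    (hG : ∀ x, G x ≤ ∫⁻ t in Ioi (0 : ℝ), ENNReal.ofReal (Real.exp (-(m ^ 2) * t)) *
      (ENNReal.ofReal (K * (t ^ (-(1 / 2 : ℝ)) + 1)) * lheat (2 * t) (eabs F) x)) (j : Fin p) :
    MargLe (Finset.univ.erase j) (fun y => G y ^ 2)
      ((2 * (K * B) * (HDecay_I + Real.Gamma (1 / 4))) ^ 2 * B * (if p = 2 then m⁻¹ else 1)) := by
  intro x
  have hB := h.one_le
  have hI := HDecay_I_nonneg
  have hΓ : 0 < Real.Gamma (1 / 4) := Real.Gamma_pos_of_pos (by norm_num)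
  have hΦ := measurable_eabs h.meas
  have hne : Finset.univ.erase j ≠ Finset.univ := fun e =>
    Finset.notMem_erase j Finset.univ (e.symm ▸ Finset.mem_univ j)
  have hemp : (∅ : Finset (Fin p)) ≠ Finset.univ := fun e =>
    Finset.notMem_empty j (e.symm ▸ Finset.mem_univ j)
  have hc : ((Finset.univ.erase j).card : ℝ) = p - 1 := by
    rw [Finset.card_erase_of_mem (Finset.mem_univ j), Finset.card_univ, Fintype.card_fin,
      Nat.cast_sub (by omega), Nat.cast_one]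
  have hL : Measurable fun q : ℝ × (Fin p → R3) => lheat (2 * q.1) (eabs F) q.2 := by
    have h2 : Measurable fun q : ℝ × (Fin p → R3) => (2 * q.1, q.2) := by fun_prop
    have := (measurable_lheat hΦ).comp h2
    simpa only [Function.comp_def] using this
  have hw : Measurable fun t : ℝ => ENNReal.ofReal (Real.exp (-(m ^ 2) * t)) *
      ENNReal.ofReal (K * (t ^ (-(1 / 2 : ℝ)) + 1)) := by fun_prop
  have hu : Measurable fun t : ℝ =>
      ENNReal.ofReal (B * min 1 (t ^ (-(3 / 4 : ℝ) * ((p : ℝ) - 1)))) := by fun_prop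
  have key := HDecay_cs (L := fun t => lheat (2 * t) (eabs F)) hL hw hu ?_
    (A := Finset.univ.erase j) (c := ENNReal.ofReal B) ?_ (G := G)
    (fun y => by simpa only [mul_assoc] using hG y) x
  · refine key.trans ?_
    have h1 := HDecay_wu p hp (K := K * B) (m := m) (by positivity) hm
    have h2 : ∫⁻ t in Ioi (0 : ℝ), ENNReal.ofReal (Real.exp (-(m ^ 2) * t)) *
        ENNReal.ofReal (K * (t ^ (-(1 / 2 : ℝ)) + 1)) *
        ENNReal.ofReal (B * min 1 (t ^ (-(3 / 4 : ℝ) * ((p : ℝ) - 1)))) ≤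
        ENNReal.ofReal (2 * (K * B) * (HDecay_I + Real.Gamma (1 / 4)) *
          (if p = 2 then m ^ (-(1 / 2 : ℝ)) else 1)) := by
      refine le_trans (setLIntegral_mono' measurableSet_Ioi fun t ht => le_of_eq ?_) h1
      have : 0 < t := ht
      rw [← ENNReal.ofReal_mul (by positivity), ← ENNReal.ofReal_mul (by positivity)]
      congr 1; ring
    have h3 : 0 ≤ (if p = 2 then m ^ (-(1 / 2 : ℝ)) else 1) := by
      split_ifs with e
      · have := hm e; positivity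
      · exact zero_le_one
    have h4 : (if p = 2 then m ^ (-(1 / 2 : ℝ)) else 1) ^ 2 = if p = 2 then m⁻¹ else 1 := by
      split_ifs with e
      · rw [← Real.rpow_natCast, ← Real.rpow_mul (hm e).le, ← Real.rpow_neg_one]; norm_num
      · exact one_pow 2
    refine (mul_le_mul_left (pow_le_pow_left' h2 2) _).trans (le_of_eq ?_)
    rw [← ENNReal.ofReal_pow (by positivity), ← ENNReal.ofReal_mul (by positivity), mul_pow _ (ite _ _ _),
      h4]
    congr 1; ring
  · intro t ht y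
    have h1 := HDecay_lheat_le hΦ (by linarith) (h.mg ∅ hemp) (h.mg _ hne) ht y
    rw [hc] at h1
    have h5 : 0 ≤ min 1 (t ^ (-(3 / 4 : ℝ) * ((p : ℝ) - 1))) := le_min zero_le_one (by positivity)
    refine h1.trans ?_
    rw [← ENNReal.ofReal_pow (by positivity)]
    refine ENNReal.ofReal_le_ofReal ?_
    have h6 : min 1 (t ^ (-(3 / 2 : ℝ) * ((p : ℝ) - 1))) ≤
        min 1 (t ^ (-(3 / 4 : ℝ) * ((p : ℝ) - 1))) ^ 2 := by
      rcases min_choice 1 (t ^ (-(3 / 4 : ℝ) * ((p : ℝ) - 1))) with e | e <;> rw [e]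
      · rw [one_pow]; exact min_le_left _ _
      · refine (min_le_right _ _).trans (le_of_eq ?_)
        rw [← Real.rpow_natCast, ← Real.rpow_mul ht.le]
        congr 1; push_cast; ring
    rw [mul_pow]
    exact mul_le_mul (by nlinarith) h6 (le_min zero_le_one (by positivity)) (by positivity)
  · intro t ht y
    have := marg_lheat_le hΦ (Finset.Subset.refl _) (h.mg _ hne) (t := 2 * t) (by positivity) y
    simpa using this

theorem green_norms (p : ℕ) (hp : 2 ≤ p) (B : ℝ) : ∃ C : ℝ, 1 ≤ C ∧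
    ∀ (F : (Fin p → R3) → ℝ) (m : ℝ), Nice F B → 0 ≤ m → m ≤ 1 → (p = 2 → 0 < m) →
      L2rel (green m F) (C * (if p = 2 then m⁻¹ else 1)) ∧
      WGrad 1 (green m F) (C * (if p = 2 then m⁻¹ else 1)) ∧
      ∀ x, |green m F x - green 0 F x| ≤ C * (if p = 2 then m else m ^ 2) := by
  have hI := HDecay_I_nonneg
  set K : ℝ := (1 + B) * 3 ^ (p + 2) with hK
  set J : ℝ := (2 * (K * B) * (HDecay_I + Real.Gamma (1 / 4))) ^ 2 with hJ
  have hJ0 : 0 ≤ J := sq_nonneg _
  have hJ1 : 0 ≤ J * |B| := by positivity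
  have hJ2 : 0 ≤ 2 * |B| * HDecay_I := by positivity
  refine ⟨1 + J * |B| + 2 * |B| * HDecay_I, by linarith, fun F m h hm0 _ hm => ?_⟩
  have hB := h.one_le
  have hK0 : 0 ≤ K := by positivity
  have hι : 2 ≤ Fintype.card (Fin p) := by rwa [Fintype.card_fin]
  rw [abs_of_nonneg (by linarith : 0 ≤ B)] at hJ1 hJ2 ⊢
  have hi : 0 ≤ (if p = 2 then m⁻¹ else 1) := by split_ifs <;> positivity
  have hC : ENNReal.ofReal (J * B * (if p = 2 then m⁻¹ else 1)) ≤
      ENNReal.ofReal ((1 + J * B + 2 * B * HDecay_I) * (if p = 2 then m⁻¹ else 1)) :=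
    ENNReal.ofReal_le_ofReal (mul_le_mul_of_nonneg_right (by linarith) hi)
  refine ⟨fun j x => ?_, fun i j x => ?_, fun x => ?_⟩
  · have := HDecay_main p hp hK0 hm h.toNice0 (G := eabs (green m F)) (fun y => ?_) j x
    · refine le_trans (marg_mono _ (fun y => le_of_eq ?_) x) (this.trans hC)
      unfold eabs
      rw [← ENNReal.ofReal_pow (abs_nonneg _), sq_abs]
    · refine (eabs_green_le m y).trans (setLIntegral_mono' measurableSet_Ioi fun t ht => ?_)
      have ht' : 0 < t := ht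
      refine mul_le_mul_right (HDecay_double ht' ?_ y) _
      rw [Fintype.card_fin, hK, pow_add]
      have h1 : 0 < t ^ (-(1 / 2 : ℝ)) := by positivity
      have h2 : (0 : ℝ) < 3 ^ p := by positivity
      have h3 : 0 < (1 + B) * (3 ^ p * 3 ^ 2) * t ^ (-(1 / 2 : ℝ)) := by positivity
      nlinarith
  · have := HDecay_main p hp hK0 hm h.toNice0
      (G := fun y => ENNReal.ofReal (√((vw 1 y)⁻¹)) * ‖pgrad (green m F) i y‖ₑ) (fun y => ?_) j x
    · refine le_trans (marg_mono _ (fun y => le_of_eq ?_) x) (this.trans hC)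
      rw [← ofReal_norm, ← ENNReal.ofReal_mul (Real.sqrt_nonneg _),
        ← ENNReal.ofReal_pow (by positivity), mul_pow,
        Real.sq_sqrt (inv_nonneg.mpr (HDecay_vw_nonneg y)), div_eq_inv_mul]
    · rw [(h.toNice0.pgrad_green hι m i y).2]
      refine (mul_le_mul_right (enorm_integral_le_lintegral_enorm _) _).trans ?_
      rw [← lintegral_const_mul' _ _ ENNReal.ofReal_ne_top]
      refine setLIntegral_mono' measurableSet_Ioi fun t ht => ?_
      have h1 := HDecay_grad_heat hι h (t := t) ht i y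
      rw [Fintype.card_fin] at h1
      rw [enorm_smul, Real.enorm_eq_ofReal (Real.exp_pos _).le, mul_left_comm]
      exact mul_le_mul_right h1 _
  · split_ifs with e
    · have hm1 := hm e
      have hm2 : 0 < m ^ 2 := by positivity
      have hg : IntegrableOn (fun t => HDecay_g (m ^ 2 * t)) (Ioi 0) :=
        (integrableOn_Ioi_comp_mul_left_iff HDecay_g 0 hm2).mpr (by
          rw [mul_zero]; exact HDecay_g_int)
      have := HDecay_diff hι h.toNice0 m x (g := fun t => m ^ 3 * HDecay_g (m ^ 2 * t))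
        (hg.const_mul _) fun t ht => ?_
      · rw [integral_const_mul, integral_comp_mul_left_Ioi HDecay_g 0 hm2, mul_zero,
          smul_eq_mul] at this
        refine this.trans ?_
        change B * (m ^ 3 * ((m ^ 2)⁻¹ * HDecay_I)) ≤ _
        have e2 : m ^ 3 * ((m ^ 2)⁻¹ * HDecay_I) = m * HDecay_I := by field_simp
        rw [e2]
        nlinarith
      · have h1 := HDecay_min_le_g (s := m ^ 2 * t) (by positivity)
        have h2 : Real.exp (-(m ^ 2 * t)) ≤ 1 := Real.exp_le_one_iff.mpr (by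
          have : 0 ≤ m ^ 2 * t := by positivity
          linarith)
        have h3 : m ^ 3 * (m ^ 2 * t) ^ (-(3 / 2 : ℝ)) = t ^ (-(3 / 2 : ℝ)) := by
          rw [Real.mul_rpow hm2.le ht.le, ← Real.rpow_natCast m 2, ← Real.rpow_mul hm0,
            ← Real.rpow_natCast m 3, ← mul_assoc, ← Real.rpow_add hm1]
          norm_num
        rw [Fintype.card_fin, e, show -(3 / 2 : ℝ) * (((2 : ℕ) : ℝ) - 1) = -(3 / 2) by norm_num]
        calc _ ≤ (1 - Real.exp (-(m ^ 2 * t))) * t ^ (-(3 / 2 : ℝ)) := by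
              gcongr; exact min_le_right _ _
          _ = m ^ 3 * ((1 - Real.exp (-(m ^ 2 * t))) * (m ^ 2 * t) ^ (-(3 / 2 : ℝ))) := by
              rw [← h3]; ring
          _ ≤ _ := by gcongr
    · have h3 : (3 : ℝ) ≤ p := by exact_mod_cast (show 3 ≤ p by omega)
      have := HDecay_diff hι h.toNice0 m x (g := fun t => 2 * m ^ 2 * HDecay_g t)
        (HDecay_g_int.const_mul _) fun t ht => ?_
      · rw [integral_const_mul] at this
        refine this.trans ?_
        change B * (2 * m ^ 2 * HDecay_I) ≤ _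
        have : 0 ≤ (1 + J * B) * m ^ 2 := by positivity
        nlinarith
      · have h1 := HDecay_le_g ht
        have h2 : 1 - Real.exp (-(m ^ 2 * t)) ≤ m ^ 2 * (1 + t) := by
          nlinarith [Real.add_one_le_exp (-(m ^ 2 * t)), sq_nonneg m]
        have h4 := HDecay_min_mono (a := -(3 / 2 : ℝ) * ((p : ℝ) - 1)) (b := -(3 : ℝ)) ht
          (by linarith) (by norm_num)
        rw [Fintype.card_fin]
        calc _ ≤ m ^ 2 * (1 + t) * min 1 (t ^ (-(3 : ℝ))) :=
              mul_le_mul h2 h4 (le_min zero_le_one (by positivity)) (by positivity)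
          _ = m ^ 2 * ((1 + t) * min 1 (t ^ (-(3 : ℝ)))) := by ring
          _ ≤ m ^ 2 * (2 * HDecay_g t) := by gcongr
          _ = _ := by ring

end Pool.Agent.Lib.MP_8fe63c_mp
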