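import Pool.Agent.Lib.MP_8fe63c_mp.ODefs

/-!
Heat kernel, Green operators, translation invariant kernels, scattering data.
-/

open MeasureTheory Set
open scoped ENNReal InnerProductSpace

namespace Pool.Agent.Lib.MP_8fe63c_mp

variable {ι : Type} [Fintype ι] [DecidableEq ι]

/-- heat kernel on `R3` -/
noncomputable def qk (t : ℝ) (x : R3) : ℝ :=
  (4 * Real.pi * t) ^ (-(3 / 2 : ℝ)) * Real.exp (-‖x‖ ^ 2 / (4 * t))

/-- heat kernel on `ι → R3` -/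
noncomputable def pk (t : ℝ) (z : ι → R3) : ℝ := ∏ i, qk t (z i)

noncomputable def heat (t : ℝ) (F : (ι → R3) → ℝ) (x : ι → R3) : ℝ := ∫ z, pk t z * F (x - z)

noncomputable def green (m : ℝ) (F : (ι → R3) → ℝ) (x : ι → R3) : ℝ :=
  ∫ t in Ioi (0 : ℝ), Real.exp (-(m ^ 2) * t) * heat t F x

noncomputable def lheat (t : ℝ) (Φ : (ι → R3) → ℝ≥0∞) (x : ι → R3) : ℝ≥0∞ :=
  ∫⁻ z, ENNReal.ofReal (pk t z) * Φ (x - z)

noncomputable def lgreen (m : ℝ) (Φ : (ι → R3) → ℝ≥0∞) (x : ι → R3) : ℝ≥0∞ :=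
  ∫⁻ t in Ioi (0 : ℝ), ENNReal.ofReal (Real.exp (-(m ^ 2) * t)) * lheat t Φ x

/-- invariance under simultaneous translation of all points -/
def TI {β : Type} (F : (ι → R3) → β) : Prop := ∀ (x : ι → R3) (a : R3), F (fun i => x i + a) = F x

/-- invariance under permutations -/
def Symm {β : Type} (F : (ι → R3) → β) : Prop := ∀ (π : Equiv.Perm ι) (x : ι → R3), F (x ∘ π) = F x

/-- integral over the coordinates in `A` -/
noncomputable def marg (A : Finset ι) (Φ : (ι → R3) → ℝ≥0∞) (x : ι → R3) : ℝ≥0∞ :=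
  (∫⋯∫⁻_A, Φ ∂(fun _ => (volume : Measure R3))) x

/-- uniform bound for a marginal -/
def MargLe (A : Finset ι) (Φ : (ι → R3) → ℝ≥0∞) (c : ℝ) : Prop :=
  ∀ x, marg A Φ x ≤ ENNReal.ofReal c

/-- `|F|` as an extended nonnegative function -/
noncomputable def eabs {X : Type} (F : X → ℝ) (x : X) : ℝ≥0∞ := ENNReal.ofReal |F x|

/-- translation invariant, all proper marginals of `|F|` are bounded by `B` -/
structure Nice0 (F : (ι → R3) → ℝ) (B : ℝ) : Prop where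
  meas : Measurable F
  ti : TI F
  one_le : 1 ≤ B
  mg : ∀ A : Finset ι, A ≠ Finset.univ → MargLe A (eabs F) B

/-- in addition two points are close on the support -/
structure Nice (F : (ι → R3) → ℝ) (B : ℝ) : Prop extends Nice0 F B where
  close : ∀ x, F x ≠ 0 → ∃ a b, a ≠ b ∧ ‖x a - x b‖ ≤ B

/-- Hardy weight at scale `s` -/
noncomputable def hw (s : ℝ) (r : R3) : ℝ := (1 + s ^ 2 * ‖r‖ ^ 2)⁻¹

/-- sum of the Hardy weights over all pairs -/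
noncomputable def vw (s : ℝ) (x : ι → R3) : ℝ :=
  ∑ a, ∑ b, if a = b then 0 else hw s (x a - x b)

/-- decay in every pair distance -/
def PD (F : (ι → R3) → ℝ) (B : ℝ) : Prop := ∀ x a b, a ≠ b → |F x| ≤ B * hw 1 (x a - x b)

/-- the weak equation `(-Δ + m2) κ = F` -/
def WeakEq (m2 : ℝ) (F κ : (ι → R3) → ℝ) : Prop :=
  ∀ ζ : (ι → R3) → ℝ, Cc1 ζ →
    ∫ x, ((∑ i, ⟪pgrad κ i x, pgrad ζ i x⟫_ℝ) + m2 * (κ x * ζ x)) = ∫ x, F x * ζ x

/-- a bounded source and a `C^1` weak solution -/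
structure GD (m2 : ℝ) (F κ : (ι → R3) → ℝ) : Prop where
  mF : Measurable F
  bF : ∃ M : ℝ, ∀ x, |F x| ≤ M
  cb : Cb1 κ
  weak : WeakEq m2 F κ

/-- bound for the relative `L^2` norm squared -/
def L2rel (κ : (ι → R3) → ℝ) (n : ℝ) : Prop :=
  ∀ j, MargLe (Finset.univ.erase j) (fun x => ENNReal.ofReal (κ x ^ 2)) n

/-- bound for the weighted relative `L^2` norm squared of the gradient -/
def WGrad (s : ℝ) (κ : (ι → R3) → ℝ) (n : ℝ) : Prop :=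
  ∀ i j, MargLe (Finset.univ.erase j)
    (fun x => ENNReal.ofReal (‖pgrad κ i x‖ ^ 2 / vw s x)) n

/-- integral over the relative coordinates -/
noncomputable def relInt {q : ℕ} (Φ : (Fin (q + 1) → R3) → ℝ) : ℝ :=
  ∫ y : Fin q → R3, Φ (Fin.cons 0 y)

/-- rescaling -/
noncomputable def sc (A s : ℝ) (F : (ι → R3) → ℝ) (x : ι → R3) : ℝ := A * F (s • x)

/-- majorant at scale `s` with amplitude `κ` -/
structure MajS (s : ℝ) (Φ : (ι → R3) → ℝ≥0∞) (κ : ℝ) : Prop where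
  meas : Measurable Φ
  ti : TI Φ
  mg : ∀ A : Finset ι, A ≠ Finset.univ → MargLe A Φ (κ / s ^ (3 * A.card))
  tri : ∀ A : Finset ι, 3 ≤ Aᶜ.card → ∀ x, marg A Φ x ≤
    ENNReal.ofReal (κ / s ^ (3 * A.card) * ∑ a ∈ Aᶜ, ∑ b ∈ Aᶜ, ∑ c ∈ Aᶜ,
      if a ≠ b ∧ a ≠ c ∧ b ≠ c then hw s (x a - x b) * hw s (x a - x c) else 0)

/-- the three-body potential as a function of three points -/
def Uof (V : R3 × R3 → ℝ) (x : Fin 3 → R3) : ℝ := V (x 0 - x 1, x 0 - x 2)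

structure Pot3 (U : (Fin 3 → R3) → ℝ) (K : ℝ) : Prop where
  meas : Measurable U
  nonneg : ∀ x, 0 ≤ U x
  le : ∀ x, U x ≤ K
  ti : TI U
  symm : Symm U
  supp : ∀ x, U x ≠ 0 → ∀ a b, ‖x a - x b‖ ≤ K
  one_le : 1 ≤ K

/-- omit the `j`-th point -/
def om (j : Fin 4) (x : Fin 4 → R3) : Fin 3 → R3 := fun i => x (j.succAbove i)

noncomputable def F3o (U ω : (Fin 3 → R3) → ℝ) (x : Fin 3 → R3) : ℝ := U x * (1 - ω x)

noncomputable def sig4 (ω : (Fin 3 → R3) → ℝ) (l : Fin 4) (x : Fin 4 → R3) : ℝ :=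
  ∑ j ∈ Finset.univ.erase l, ω (om j x)

noncomputable def y4o (ω : (Fin 3 → R3) → ℝ) (g : (Fin 4 → R3) → ℝ) (l : Fin 4)
    (x : Fin 4 → R3) : ℝ := g x - sig4 ω l x

noncomputable def F4o (U ω : (Fin 3 → R3) → ℝ) (g : (Fin 4 → R3) → ℝ) (x : Fin 4 → R3) : ℝ :=
  ∑ l : Fin 4, U (om l x) * y4o ω g l x

noncomputable def v2o (U ω : (Fin 3 → R3) → ℝ) (x : Fin 2 → R3) : ℝ :=
  ∫ y : R3, F3o U ω (Fin.snoc x y)

/-- three-body and four-body scattering solutions -/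
structure Micro (U : (Fin 3 → R3) → ℝ) where
  ω : (Fin 3 → R3) → ℝ
  g : (Fin 4 → R3) → ℝ
  K : ℝ
  pot : Pot3 U K
  ω_meas : Measurable ω
  ω_ti : TI ω
  ω_symm : Symm ω
  ω_bdd : ∀ x, |ω x| ≤ K
  ω_pd : PD ω K
  ω_mg : ∀ j, MargLe {j} (eabs ω) K
  ω_eq : ∀ x, ω x = green 0 (F3o U ω) x
  g_meas : Measurable g
  g_ti : TI g
  g_symm : Symm g
  g_bdd : ∀ x, |g x| ≤ K
  g_pd : PD g K
  g_mg : ∀ j, MargLe {j} (eabs g) K
  g_eq : ∀ x, g x = -green 0 (F4o U ω g) x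

end Pool.Agent.Lib.MP_8fe63c_mp
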