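import Pool.Agent.Lib.MP_8fe63c_mp.HDefs

/-!
Elementary properties of the heat kernel.

Sketch. Normalisation: `GaussianFourier.integral_rexp_neg_mul_sq_norm` on `R3`, products by
`integral_fintype_prod_volume_eq_prod` (or similar). Semigroup: complete the square,
`‖x - y‖^2/(4 s) + ‖y‖^2/(4 t) = ‖x‖^2/(4 (s+t)) + (s+t)/(4 s t) ‖y - t/(s+t) x‖^2`, translation
invariance of the measure. Moment bounds: `r e^(-r) ≤ 1`, `qk t x = 2^(3/2) e^(-‖x‖^2/(8t)) qk (2t) x`.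
-/

set_option linter.unusedSectionVars false

open MeasureTheory Set Filter Topology
open scoped ENNReal InnerProductSpace

namespace Pool.Agent.Lib.MP_8fe63c_mp

variable {ι : Type} [Fintype ι] [DecidableEq ι]

theorem qk_pos {t : ℝ} (ht : 0 < t) (x : R3) : 0 < qk t x := by
  unfold qk
  have h : 0 < 4 * Real.pi * t := by positivity
  exact mul_pos (Real.rpow_pos_of_pos h _) (Real.exp_pos _)

theorem qk_le {t : ℝ} (ht : 0 < t) (x : R3) : qk t x ≤ t ^ (-(3 / 2 : ℝ)) := by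
  unfold qk
  have h1 : t ≤ 4 * Real.pi * t := by nlinarith [Real.pi_gt_three]
  have h2 : (4 * Real.pi * t) ^ (-(3 / 2 : ℝ)) ≤ t ^ (-(3 / 2 : ℝ)) :=
    Real.rpow_le_rpow_of_nonpos ht h1 (by norm_num)
  have h3 : Real.exp (-‖x‖ ^ 2 / (4 * t)) ≤ 1 := by
    rw [Real.exp_le_one_iff]
    apply div_nonpos_of_nonpos_of_nonneg
    · have := sq_nonneg ‖x‖
      linarith
    · positivity
  have h4 : 0 ≤ t ^ (-(3 / 2 : ℝ)) := Real.rpow_nonneg ht.le _
  calc _ ≤ t ^ (-(3 / 2 : ℝ)) * 1 :=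
        mul_le_mul h2 h3 (Real.exp_pos _).le h4
    _ = _ := mul_one _

theorem qk_neg (t : ℝ) (x : R3) : qk t (-x) = qk t x := by
  unfold qk
  rw [norm_neg]

theorem measurable_qk : Measurable (fun p : ℝ × R3 => qk p.1 p.2) := by
  unfold qk
  fun_prop

theorem continuous_qk (t : ℝ) : Continuous (qk t) := by
  unfold qk
  fun_prop

theorem HKer_integral_qk {t : ℝ} (ht : 0 < t) : ∫ x, qk t x = 1 := by
  unfold qk
  rw [integral_const_mul]
  have hb : 0 < 1 / (4 * t) := by positivity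
  have h := GaussianFourier.integral_rexp_neg_mul_sq_norm (V := R3) hb
  have e : ∀ x : R3, Real.exp (-‖x‖ ^ 2 / (4 * t)) = Real.exp (-(1 / (4 * t)) * ‖x‖ ^ 2) := by
    intro x
    congr 1
    ring
  simp_rw [e]
  rw [h]
  have hr : (Module.finrank ℝ R3 : ℝ) = 3 := by simp
  rw [hr]
  have e2 : Real.pi / (1 / (4 * t)) = 4 * Real.pi * t := by
    field_simp
  rw [e2, ← Real.rpow_add (by positivity)]
  norm_num

theorem integrable_qk {t : ℝ} (ht : 0 < t) : Integrable (qk t) := by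
  apply Integrable.of_integral_ne_zero
  rw [HKer_integral_qk ht]
  exact one_ne_zero

theorem integral_qk {t : ℝ} (ht : 0 < t) : ∫ x, qk t x = 1 := HKer_integral_qk ht

theorem lintegral_qk {t : ℝ} (ht : 0 < t) : ∫⁻ x, ENNReal.ofReal (qk t x) = 1 := by
  rw [← ofReal_integral_eq_lintegral_ofReal (integrable_qk ht)
    (Eventually.of_forall fun x => (qk_pos ht x).le), integral_qk ht, ENNReal.ofReal_one]

theorem HKer_qk_mul {s t : ℝ} (hs : 0 < s) (ht : 0 < t) (x y : R3) :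
    qk s (x - y) * qk t y = qk (s + t) x * qk (s * t / (s + t)) (y - (t / (s + t)) • x) := by
  unfold qk
  have hst : 0 < s + t := by positivity
  have e1 : (4 * Real.pi * s) ^ (-(3 / 2 : ℝ)) * (4 * Real.pi * t) ^ (-(3 / 2 : ℝ)) =
      (4 * Real.pi * (s + t)) ^ (-(3 / 2 : ℝ)) *
        (4 * Real.pi * (s * t / (s + t))) ^ (-(3 / 2 : ℝ)) := by
    rw [← Real.mul_rpow (by positivity) (by positivity),
      ← Real.mul_rpow (by positivity) (by positivity)]
    congr 1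
    field_simp
  have e2 : Real.exp (-‖x - y‖ ^ 2 / (4 * s)) * Real.exp (-‖y‖ ^ 2 / (4 * t)) =
      Real.exp (-‖x‖ ^ 2 / (4 * (s + t))) *
        Real.exp (-‖y - (t / (s + t)) • x‖ ^ 2 / (4 * (s * t / (s + t)))) := by
    rw [← Real.exp_add, ← Real.exp_add]
    congr 1
    rw [norm_sub_sq_real, norm_sub_sq_real, inner_smul_right, norm_smul, real_inner_comm x y,
      Real.norm_eq_abs, mul_pow, sq_abs]
    field_simp
    ring
  calc _ = ((4 * Real.pi * s) ^ (-(3 / 2 : ℝ)) * (4 * Real.pi * t) ^ (-(3 / 2 : ℝ))) *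
        (Real.exp (-‖x - y‖ ^ 2 / (4 * s)) * Real.exp (-‖y‖ ^ 2 / (4 * t))) := by ring
    _ = _ := by rw [e1, e2]; ring

theorem qk_conv {s t : ℝ} (hs : 0 < s) (ht : 0 < t) (x : R3) :
    ∫ y, qk s (x - y) * qk t y = qk (s + t) x := by
  simp_rw [HKer_qk_mul hs ht x]
  rw [integral_const_mul, integral_sub_right_eq_self (qk (s * t / (s + t))),
    integral_qk (by positivity), mul_one]

theorem pk_pos {t : ℝ} (ht : 0 < t) (z : ι → R3) : 0 < pk t z :=
  Finset.prod_pos fun i _ => qk_pos ht (z i)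

theorem pk_neg (t : ℝ) (z : ι → R3) : pk t (-z) = pk t z := by
  unfold pk
  exact Finset.prod_congr rfl fun i _ => qk_neg t (z i)

theorem pk_perm (t : ℝ) (π : Equiv.Perm ι) (z : ι → R3) : pk t (z ∘ π) = pk t z := by
  unfold pk
  exact Equiv.prod_comp π (fun i => qk t (z i))

theorem measurable_pk : Measurable (fun p : ℝ × (ι → R3) => pk p.1 p.2) := by
  unfold pk
  refine Finset.measurable_prod _ fun i _ => ?_
  have h : Measurable (fun p : ℝ × (ι → R3) => (p.1, p.2 i)) := by fun_prop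
  exact measurable_qk.comp h

theorem continuous_pk (t : ℝ) : Continuous (pk t : (ι → R3) → ℝ) := by
  unfold pk
  exact continuous_finset_prod _ fun i _ => (continuous_qk t).comp (continuous_apply i)

theorem HKer_integral_pk {t : ℝ} (ht : 0 < t) : ∫ z : ι → R3, pk t z = 1 := by
  unfold pk
  rw [integral_fintype_prod_volume_eq_prod (fun _ : ι => qk t)]
  simp [integral_qk ht]

theorem integrable_pk {t : ℝ} (ht : 0 < t) : Integrable (pk t : (ι → R3) → ℝ) := by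
  apply Integrable.of_integral_ne_zero
  rw [HKer_integral_pk ht]
  exact one_ne_zero

theorem integral_pk {t : ℝ} (ht : 0 < t) : ∫ z : ι → R3, pk t z = 1 := HKer_integral_pk ht

theorem lintegral_pk {t : ℝ} (ht : 0 < t) : ∫⁻ z : ι → R3, ENNReal.ofReal (pk t z) = 1 := by
  rw [← ofReal_integral_eq_lintegral_ofReal (integrable_pk ht)
    (Eventually.of_forall fun x => (pk_pos ht x).le), integral_pk ht, ENNReal.ofReal_one]

theorem HKer_pk_mul {s t : ℝ} (hs : 0 < s) (ht : 0 < t) (x y : ι → R3) :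
    pk s (x - y) * pk t y = pk (s + t) x * pk (s * t / (s + t)) (y - (t / (s + t)) • x) := by
  unfold pk
  rw [← Finset.prod_mul_distrib, ← Finset.prod_mul_distrib]
  exact Finset.prod_congr rfl fun i _ => HKer_qk_mul hs ht (x i) (y i)

theorem pk_conv {s t : ℝ} (hs : 0 < s) (ht : 0 < t) (x : ι → R3) :
    ∫⁻ y, ENNReal.ofReal (pk s (x - y)) * ENNReal.ofReal (pk t y) =
      ENNReal.ofReal (pk (s + t) x) := by
  have hst : 0 < s + t := by positivity
  have e : ∀ y : ι → R3, ENNReal.ofReal (pk s (x - y)) * ENNReal.ofReal (pk t y) =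
      ENNReal.ofReal (pk (s + t) x) *
        ENNReal.ofReal (pk (s * t / (s + t)) (y - (t / (s + t)) • x)) := by
    intro y
    rw [← ENNReal.ofReal_mul (pk_pos hs _).le, ← ENNReal.ofReal_mul (pk_pos hst _).le,
      HKer_pk_mul hs ht]
  simp_rw [e]
  rw [lintegral_const_mul' _ _ ENNReal.ofReal_ne_top,
    lintegral_sub_right_eq_self (fun y : ι → R3 => ENNReal.ofReal (pk (s * t / (s + t)) y)),
    lintegral_pk (by positivity), mul_one]

theorem HKer_qk_le_exp {t : ℝ} (ht : 0 < t) (x : R3) :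
    qk t x ≤ 3 * Real.exp (-‖x‖ ^ 2 / (8 * t)) * qk (2 * t) x := by
  unfold qk
  have e1 : (4 * Real.pi * t) ^ (-(3 / 2 : ℝ)) =
      (2 : ℝ) ^ (3 / 2 : ℝ) * (4 * Real.pi * (2 * t)) ^ (-(3 / 2 : ℝ)) := by
    have : 4 * Real.pi * (2 * t) = 2 * (4 * Real.pi * t) := by ring
    have h5 : (2 : ℝ) ^ (3 / 2 : ℝ) * (2 : ℝ) ^ (-(3 / 2 : ℝ)) = 1 := by
      rw [← Real.rpow_add (by norm_num)]
      norm_num
    rw [this, Real.mul_rpow (x := 2) (y := 4 * Real.pi * t) (by norm_num) (by positivity),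
      ← mul_assoc ((2 : ℝ) ^ (3 / 2 : ℝ)), h5, one_mul]
  have e2 : Real.exp (-‖x‖ ^ 2 / (4 * t)) =
      Real.exp (-‖x‖ ^ 2 / (8 * t)) * Real.exp (-‖x‖ ^ 2 / (4 * (2 * t))) := by
    rw [← Real.exp_add]
    congr 1
    field_simp
    ring
  have e3 : (2 : ℝ) ^ (3 / 2 : ℝ) ≤ 3 := by
    have h : ((2 : ℝ) ^ (3 / 2 : ℝ)) ^ 2 = 8 := by
      rw [← Real.rpow_natCast, ← Real.rpow_mul (by norm_num)]
      norm_num
    have h0 : 0 ≤ (2 : ℝ) ^ (3 / 2 : ℝ) := by positivity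
    nlinarith
  rw [e1, e2]
  have h4 : 0 ≤ (4 * Real.pi * (2 * t)) ^ (-(3 / 2 : ℝ)) *
      (Real.exp (-‖x‖ ^ 2 / (8 * t)) * Real.exp (-‖x‖ ^ 2 / (4 * (2 * t)))) := by positivity
  nlinarith [mul_le_mul_of_nonneg_right e3 h4]

theorem HKer_exp_le_one {t : ℝ} (ht : 0 < t) (x : R3) : Real.exp (-‖x‖ ^ 2 / (8 * t)) ≤ 1 := by
  rw [Real.exp_le_one_iff]
  apply div_nonpos_of_nonpos_of_nonneg
  · have := sq_nonneg ‖x‖
    linarith
  · positivity

theorem HKer_qk_le_three {t : ℝ} (ht : 0 < t) (x : R3) : qk t x ≤ 3 * 1 * qk (2 * t) x := by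
  refine (HKer_qk_le_exp ht x).trans ?_
  have h1 := HKer_exp_le_one ht x
  have h2 := (qk_pos (by positivity : 0 < 2 * t) x).le
  gcongr

theorem HKer_pk_le_exp {t : ℝ} (ht : 0 < t) (z : ι → R3) (k : ι) :
    pk t z ≤ 3 ^ Fintype.card ι * Real.exp (-‖z k‖ ^ 2 / (8 * t)) * pk (2 * t) z := by
  unfold pk
  have h : ∏ i, qk t (z i) ≤
      ∏ i, (3 * (if i = k then Real.exp (-‖z k‖ ^ 2 / (8 * t)) else 1) * qk (2 * t) (z i)) := by
    refine Finset.prod_le_prod (fun i _ => (qk_pos ht _).le) fun i _ => ?_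
    split_ifs with hi
    · subst hi
      exact HKer_qk_le_exp ht _
    · exact HKer_qk_le_three ht _
  refine h.trans (le_of_eq ?_)
  rw [Finset.prod_mul_distrib, Finset.prod_mul_distrib, Finset.prod_const, Finset.card_univ,
    Finset.prod_ite_eq']
  simp

theorem pk_le_double {t : ℝ} (ht : 0 < t) (z : ι → R3) :
    pk t z ≤ 3 ^ Fintype.card ι * pk (2 * t) z := by
  unfold pk
  have h : ∏ i, qk t (z i) ≤ ∏ i, (3 * 1 * qk (2 * t) (z i)) :=
    Finset.prod_le_prod (fun i _ => (qk_pos ht _).le) fun i _ => HKer_qk_le_three ht _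
  refine h.trans (le_of_eq ?_)
  rw [Finset.prod_mul_distrib, Finset.prod_const, Finset.card_univ, mul_one]

theorem HKer_mul_exp_le {t r : ℝ} (ht : 0 < t) :
    r * Real.exp (-r ^ 2 / (8 * t)) ≤ 3 * √t := by
  have hs : 0 < √t := Real.sqrt_pos.2 ht
  have hs2 : √t * √t = t := Real.mul_self_sqrt ht.le
  have h1 : 1 + r ^ 2 / (8 * t) ≤ Real.exp (r ^ 2 / (8 * t)) := by
    have := Real.add_one_le_exp (r ^ 2 / (8 * t))
    linarith
  have h2 : r ≤ 3 * √t * (1 + r ^ 2 / (8 * t)) := by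
    have e : 3 * √t * (1 + r ^ 2 / (8 * t)) = 3 * √t + 3 * r ^ 2 / (8 * √t) := by
      conv_lhs => rw [← hs2]
      rw [Real.sqrt_mul_self hs.le]
      field_simp
    rw [e]
    have h3 : r - 3 * √t ≤ 3 * r ^ 2 / (8 * √t) := by
      rw [le_div_iff₀ (by positivity)]
      nlinarith [sq_nonneg (r - 2 * √t), sq_nonneg r]
    linarith
  have e3 : Real.exp (-r ^ 2 / (8 * t)) = (Real.exp (r ^ 2 / (8 * t)))⁻¹ := by
    rw [← Real.exp_neg]
    congr 1
    ring
  rw [e3, ← div_eq_mul_inv, div_le_iff₀ (Real.exp_pos _)]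
  exact h2.trans (mul_le_mul_of_nonneg_left h1 (by positivity))

theorem HKer_sq_mul_exp_le {t r : ℝ} (ht : 0 < t) :
    r ^ 2 * Real.exp (-r ^ 2 / (8 * t)) ≤ 9 * t := by
  have h1 : 1 + r ^ 2 / (8 * t) ≤ Real.exp (r ^ 2 / (8 * t)) := by
    have := Real.add_one_le_exp (r ^ 2 / (8 * t))
    linarith
  have h2 : r ^ 2 ≤ 9 * t * (1 + r ^ 2 / (8 * t)) := by
    have e : 9 * t * (1 + r ^ 2 / (8 * t)) = 9 * t + 9 / 8 * r ^ 2 := by
      field_simp
    rw [e]
    nlinarith [sq_nonneg r]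
  have e3 : Real.exp (-r ^ 2 / (8 * t)) = (Real.exp (r ^ 2 / (8 * t)))⁻¹ := by
    rw [← Real.exp_neg]
    congr 1
    ring
  rw [e3, ← div_eq_mul_inv, div_le_iff₀ (Real.exp_pos _)]
  exact h2.trans (mul_le_mul_of_nonneg_left h1 (by positivity))

theorem norm_mul_pk_le {t : ℝ} (ht : 0 < t) (z : ι → R3) (i : ι) :
    ‖z i‖ * pk t z ≤ 3 ^ (Fintype.card ι + 1) * √t * pk (2 * t) z := by
  have h1 := HKer_pk_le_exp ht z i
  have h2 := HKer_mul_exp_le (r := ‖z i‖) ht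
  have h3 : 0 ≤ (3 : ℝ) ^ Fintype.card ι * pk (2 * t) z :=
    mul_nonneg (by positivity) (pk_pos (by positivity) z).le
  calc ‖z i‖ * pk t z
      ≤ ‖z i‖ * (3 ^ Fintype.card ι * Real.exp (-‖z i‖ ^ 2 / (8 * t)) * pk (2 * t) z) :=
        mul_le_mul_of_nonneg_left h1 (norm_nonneg _)
    _ = (‖z i‖ * Real.exp (-‖z i‖ ^ 2 / (8 * t))) * (3 ^ Fintype.card ι * pk (2 * t) z) := by
        ring
    _ ≤ (3 * √t) * (3 ^ Fintype.card ι * pk (2 * t) z) := mul_le_mul_of_nonneg_right h2 h3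
    _ = _ := by ring

theorem HKer_sq_mul_pk_le {t : ℝ} (ht : 0 < t) (z : ι → R3) (i : ι) :
    ‖z i‖ ^ 2 * pk t z ≤ 3 ^ (Fintype.card ι + 2) * t * pk (2 * t) z := by
  have h1 := HKer_pk_le_exp ht z i
  have h2 := HKer_sq_mul_exp_le (r := ‖z i‖) ht
  have h3 : 0 ≤ (3 : ℝ) ^ Fintype.card ι * pk (2 * t) z :=
    mul_nonneg (by positivity) (pk_pos (by positivity) z).le
  calc ‖z i‖ ^ 2 * pk t z
      ≤ ‖z i‖ ^ 2 * (3 ^ Fintype.card ι * Real.exp (-‖z i‖ ^ 2 / (8 * t)) * pk (2 * t) z) :=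
        mul_le_mul_of_nonneg_left h1 (by positivity)
    _ = (‖z i‖ ^ 2 * Real.exp (-‖z i‖ ^ 2 / (8 * t))) *
          (3 ^ Fintype.card ι * pk (2 * t) z) := by ring
    _ ≤ (9 * t) * (3 ^ Fintype.card ι * pk (2 * t) z) := mul_le_mul_of_nonneg_right h2 h3
    _ = _ := by ring

theorem normsq_mul_pk_le {t : ℝ} (ht : 0 < t) (z : ι → R3) (i j : ι) :
    ‖z i‖ * ‖z j‖ * pk t z ≤ 3 ^ (Fintype.card ι + 2) * t * pk (2 * t) z := by
  have hp := (pk_pos ht z).le
  rcases le_total ‖z i‖ ‖z j‖ with h | h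
  · refine le_trans (mul_le_mul_of_nonneg_right ?_ hp) (HKer_sq_mul_pk_le ht z j)
    nlinarith [norm_nonneg (z i), norm_nonneg (z j)]
  · refine le_trans (mul_le_mul_of_nonneg_right ?_ hp) (HKer_sq_mul_pk_le ht z i)
    nlinarith [norm_nonneg (z i), norm_nonneg (z j)]

theorem HKer_qk_scale {t : ℝ} (ht : 0 < t) (x : R3) :
    qk t (√(2 * t) • x) * √(2 * t) ^ 3 = qk (1 / 2) x := by
  unfold qk
  have h2 : 0 < 2 * t := by positivity
  have e1 : √(2 * t) ^ 3 = (2 * t) ^ (3 / 2 : ℝ) := by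
    rw [Real.sqrt_eq_rpow, ← Real.rpow_natCast, ← Real.rpow_mul h2.le]
    norm_num
  have e2 : (4 * Real.pi * t) ^ (-(3 / 2 : ℝ)) * (2 * t) ^ (3 / 2 : ℝ) =
      (4 * Real.pi * (1 / 2)) ^ (-(3 / 2 : ℝ)) := by
    have : 4 * Real.pi * t = (4 * Real.pi * (1 / 2)) * (2 * t) := by ring
    rw [this, Real.mul_rpow (by positivity) h2.le, mul_assoc, ← Real.rpow_add h2]
    norm_num
  have e3 : -‖√(2 * t) • x‖ ^ 2 / (4 * t) = -‖x‖ ^ 2 / (4 * (1 / 2)) := by
    rw [norm_smul, mul_pow, Real.norm_eq_abs, sq_abs, Real.sq_sqrt h2.le]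
    field_simp
  rw [e1, e3, ← e2]
  ring

/-- scaling of the kernel -/
theorem pk_scale {t : ℝ} (ht : 0 < t) (z : ι → R3) :
    pk t (√(2 * t) • z) * √(2 * t) ^ (3 * Fintype.card ι) = pk (1 / 2) z := by
  unfold pk
  rw [pow_mul, ← Finset.card_univ, ← Finset.prod_const, ← Finset.prod_mul_distrib]
  exact Finset.prod_congr rfl fun i _ => HKer_qk_scale ht (z i)

theorem HKer_hasFDerivAt_qk {t : ℝ} (ht : 0 < t) (x : R3) :
    HasFDerivAt (qk t) ((-(qk t x) / (2 * t)) • innerSL ℝ x) x := by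
  have h1 : HasFDerivAt (fun y : R3 => ‖y‖ ^ 2) (2 • innerSL ℝ x) x :=
    (hasStrictFDerivAt_norm_sq x).hasFDerivAt
  have h2 := ((h1.const_mul (-(1 / (4 * t)))).exp).const_mul
    ((4 * Real.pi * t) ^ (-(3 / 2 : ℝ)))
  have e : qk t = fun y : R3 => (4 * Real.pi * t) ^ (-(3 / 2 : ℝ)) *
      Real.exp (-(1 / (4 * t)) * ‖y‖ ^ 2) := by
    funext y
    unfold qk
    congr 2
    ring
  have e' : (-(qk t x) / (2 * t)) • innerSL ℝ x =
      (4 * Real.pi * t) ^ (-(3 / 2 : ℝ)) • Real.exp (-(1 / (4 * t)) * ‖x‖ ^ 2) •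
        (-(1 / (4 * t))) • (2 • innerSL ℝ x) := by
    rw [e]
    ext v
    simp only [ContinuousLinearMap.smul_apply, smul_eq_mul, nsmul_eq_mul, Nat.cast_ofNat]
    field_simp
    ring
  rw [e']
  rw [e]
  exact h2

/-- derivative of the kernel -/
theorem hasFDerivAt_pk {t : ℝ} (ht : 0 < t) (z : ι → R3) :
    HasFDerivAt (pk t : (ι → R3) → ℝ)
      (∑ i, (-(pk t z) / (2 * t)) • ((innerSL ℝ (z i)).comp (ContinuousLinearMap.proj i))) z := by
  have h : ∀ i ∈ (Finset.univ : Finset ι), HasFDerivAt (fun w : ι → R3 => qk t (w i))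
      (((-(qk t (z i)) / (2 * t)) • innerSL ℝ (z i)).comp
        (ContinuousLinearMap.proj i : (ι → R3) →L[ℝ] R3)) z := fun i _ =>
    HasFDerivAt.comp (g := qk t) (f := fun w : ι → R3 => w i) z (HKer_hasFDerivAt_qk ht (z i))
      (ContinuousLinearMap.proj i : (ι → R3) →L[ℝ] R3).hasFDerivAt
  have h2 := HasFDerivAt.finset_prod h
  have e : (∑ i, (-(pk t z) / (2 * t)) • ((innerSL ℝ (z i)).comp
      (ContinuousLinearMap.proj i : (ι → R3) →L[ℝ] R3))) =
      ∑ i, (∏ j ∈ Finset.univ.erase i, qk t (z j)) •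
        (((-(qk t (z i)) / (2 * t)) • innerSL ℝ (z i)).comp
          (ContinuousLinearMap.proj i : (ι → R3) →L[ℝ] R3)) := by
    refine Finset.sum_congr rfl fun i _ => ?_
    rw [ContinuousLinearMap.smul_comp, smul_smul]
    congr 1
    unfold pk
    rw [← Finset.mul_prod_erase Finset.univ (fun j => qk t (z j)) (Finset.mem_univ i)]
    ring
  rw [e]
  exact h2

end Pool.Agent.Lib.MP_8fe63c_mp
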