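import Pool.Agent.Lib.MP_8fe63c_mp.HKer

/-!
Marginals: general lemmas, and marginals of the heat and Green operators.

Sketch. `marg` is `MeasureTheory.lmarginal`; use `lmarginal_union`, `lmarginal_insert`,
`lmarginal_congr`. `marg_lheat_le`: by Tonelli `marg A (lheat t Φ) x = ∫ pk t z * marg A Φ (x - z)`
(translation invariance in the coordinates of `A`); integrate first the coordinates of `z` in
`A' \ A` with `qk ≤ t^(-3/2)`, then the other ones with `∫ qk = 1`. For the Green operator split
`t ≤ 1` (use `A' = A`) and `t ≥ 1` (use `A' = univ.erase j` with `j ∉ A`).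
-/

set_option linter.unusedSectionVars false

open MeasureTheory Set Filter Topology
open scoped ENNReal InnerProductSpace

namespace Pool.Agent.Lib.MP_8fe63c_mp

variable {ι : Type} [Fintype ι] [DecidableEq ι] {Φ Ψ : (ι → R3) → ℝ≥0∞}

theorem HMarg_def (A : Finset ι) (Φ : (ι → R3) → ℝ≥0∞) (x : ι → R3) :
    marg A Φ x = ∫⁻ y : A → R3, Φ (Function.updateFinset x A y)
      ∂Measure.pi fun _ : A => (volume : Measure R3) := rfl

theorem HMarg_eq (A : Finset ι) (Φ : (ι → R3) → ℝ≥0∞) :
    marg A Φ = lmarginal (fun _ => (volume : Measure R3)) A Φ := rfl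

theorem measurable_marg (A : Finset ι) (h : Measurable Φ) : Measurable (marg A Φ) :=
  h.lmarginal (fun _ => (volume : Measure R3))

theorem marg_empty : marg ∅ Φ = Φ := by
  rw [HMarg_eq, lmarginal_empty]

theorem marg_univ (x : ι → R3) : marg Finset.univ Φ x = ∫⁻ y, Φ y := by
  rw [HMarg_eq, lmarginal_univ]
  rfl

theorem marg_mono (A : Finset ι) (h : ∀ x, Φ x ≤ Ψ x) (x : ι → R3) : marg A Φ x ≤ marg A Ψ x :=
  lintegral_mono fun _ => h _

theorem marg_add (A : Finset ι) (h : Measurable Φ) (x : ι → R3) :
    marg A (fun y => Φ y + Ψ y) x = marg A Φ x + marg A Ψ x := by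
  simp only [HMarg_def]
  exact lintegral_add_left (h.comp measurable_updateFinset) _

theorem marg_sum {κ : Type} (s : Finset κ) (A : Finset ι) {f : κ → (ι → R3) → ℝ≥0∞}
    (h : ∀ k ∈ s, Measurable (f k)) (x : ι → R3) :
    marg A (fun y => ∑ k ∈ s, f k y) x = ∑ k ∈ s, marg A (f k) x := by
  simp only [HMarg_def]
  exact lintegral_finsetSum s fun k hk => (h k hk).comp measurable_updateFinset

theorem marg_union {A B : Finset ι} (h : Measurable Φ) (hd : Disjoint A B) :
    marg (A ∪ B) Φ = marg A (marg B Φ) :=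
  lmarginal_union (fun _ => (volume : Measure R3)) Φ h hd

theorem marg_single (j : ι) (x : ι → R3) :
    marg {j} Φ x = ∫⁻ y, Φ (Function.update x j y) := by
  rw [HMarg_eq, lmarginal_singleton]

theorem HMarg_insert (h : Measurable Φ) {A : Finset ι} {i : ι} (hi : i ∉ A) (x : ι → R3) :
    marg (insert i A) Φ x = ∫⁻ y, marg A Φ (Function.update x i y) :=
  lmarginal_insert (μ := fun _ => (volume : Measure R3)) Φ h hi x

/-- a factor that does not depend on the integrated coordinates comes out -/
theorem marg_mul_left (A : Finset ι) (h : Measurable Φ) {c : (ι → R3) → ℝ≥0∞}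
    (hc : ∀ x y, (∀ i, i ∉ A → x i = y i) → c x = c y) (x : ι → R3) :
    marg A (fun y => c y * Φ y) x = c x * marg A Φ x := by
  simp only [HMarg_def]
  have hm : Measurable (fun y : A → R3 => Φ (Function.updateFinset x A y)) :=
    h.comp measurable_updateFinset
  rw [← lintegral_const_mul _ hm]
  refine lintegral_congr fun y => ?_
  rw [hc (Function.updateFinset x A y) x fun i hi => by simp [Function.updateFinset, hi]]

theorem marg_congr (A : Finset ι) {x y : ι → R3} (h : ∀ i, i ∉ A → x i = y i) :
    marg A Φ x = marg A Φ y :=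
  lmarginal_congr (fun _ => (volume : Measure R3)) Φ h

theorem marg_translate (A : Finset ι) (h : Measurable Φ) (z x : ι → R3) :
    marg A (fun y => Φ (y - z)) x = marg A Φ (x - z) := by
  have hm : Measurable (fun y : ι → R3 => Φ (y - z)) := h.comp (measurable_id.sub_const z)
  induction A using Finset.induction_on generalizing x with
  | empty => simp only [marg_empty]
  | insert i A hi ih =>
    rw [HMarg_insert hm hi, HMarg_insert h hi,
      ← lintegral_sub_right_eq_self (fun y => marg A Φ (Function.update (x - z) i y)) (z i)]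
    refine lintegral_congr fun y => ?_
    rw [ih]
    congr 1
    funext l
    by_cases hl : l = i
    · subst hl
      simp
    · simp [hl]

theorem HMarg_reflect (A : Finset ι) (h : Measurable Φ) (z x : ι → R3) :
    marg A (fun y => Φ (z - y)) x = marg A Φ (z - x) := by
  have hm : Measurable (fun y : ι → R3 => Φ (z - y)) := h.comp (measurable_id.const_sub z)
  induction A using Finset.induction_on generalizing x with
  | empty => simp only [marg_empty]
  | insert i A hi ih =>
    rw [HMarg_insert hm hi, HMarg_insert h hi,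
      ← lintegral_sub_left_eq_self (fun y => marg A Φ (Function.update (z - x) i y)) (z i)]
    refine lintegral_congr fun y => ?_
    rw [ih]
    congr 1
    funext l
    by_cases hl : l = i
    · subst hl
      simp
    · simp [hl]

theorem TI.marg (A : Finset ι) (h : Measurable Φ) (hΦ : TI Φ) : TI (marg A Φ) := by
  intro x a
  have h1 := marg_translate A h (fun _ => -a) x
  have h2 : (fun y : ι → R3 => Φ (y - fun _ => -a)) = Φ := by
    funext y
    rw [← hΦ y a]
    congr 1
    funext i
    simp
  rw [h2] at h1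
  rw [h1]
  congr 1
  funext i
  simp

theorem HMarg_single_eq (h : Measurable Φ) (j : ι) {a : R3 → ℝ≥0∞} (x : ι → R3) :
    ∫⁻ x, Φ x * a (x j) = ∫⁻ y, a y *
      marg (Finset.univ.erase j) Φ (Function.update x j y) ∨ ¬ Measurable a := by
  by_cases ha : Measurable a
  · left
    have hm : Measurable (fun x : ι → R3 => a (x j) * Φ x) :=
      (ha.comp (measurable_pi_apply j)).mul h
    have e1 : ∫⁻ x, Φ x * a (x j) = marg Finset.univ (fun x => a (x j) * Φ x) x := by
      rw [marg_univ]
      exact lintegral_congr fun y => mul_comm _ _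
    rw [e1, ← Finset.insert_erase (Finset.mem_univ j), HMarg_insert hm (Finset.notMem_erase j _),
      Finset.insert_erase (Finset.mem_univ j)]
    refine lintegral_congr fun y => ?_
    rw [marg_mul_left _ h (c := fun x => a (x j))
      (fun u v huv => by rw [huv j (Finset.notMem_erase j _)])]
    simp
  · exact Or.inr ha

theorem HMarg_erase_const (h : Measurable Φ) (hΦ : TI Φ) (j : ι) (x y : ι → R3) :
    marg (Finset.univ.erase j) Φ x = marg (Finset.univ.erase j) Φ y := by
  rw [← TI.marg (Finset.univ.erase j) h hΦ x (y j - x j)]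
  refine marg_congr _ fun i hi => ?_
  have : i = j := by
    by_contra hne
    exact hi (Finset.mem_erase.2 ⟨hne, Finset.mem_univ i⟩)
  subst this
  simp

theorem HMarg_single_ti (h : Measurable Φ) (hΦ : TI Φ) (j : ι) {a : R3 → ℝ≥0∞}
    (ha : Measurable a) (h1 : ∫⁻ y, a y = 1) (x : ι → R3) :
    ∫⁻ x, Φ x * a (x j) = marg (Finset.univ.erase j) Φ x := by
  rw [(HMarg_single_eq h j x).resolve_right (not_not.2 ha)]
  simp only [fun y => HMarg_erase_const h hΦ j (Function.update x j y) x]
  rw [lintegral_mul_const _ ha, h1, one_mul]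

/-- for a translation invariant function the integral over all points but one does not depend on
the choice of the point or on its position -/
theorem TI.marg_erase (h : Measurable Φ) (hΦ : TI Φ) (j l : ι) (x y : ι → R3) :
    Pool.Agent.Lib.MP_8fe63c_mp.marg (Finset.univ.erase j) Φ x =
      Pool.Agent.Lib.MP_8fe63c_mp.marg (Finset.univ.erase l) Φ y := by
  set a : R3 → ℝ≥0∞ := fun u => ENNReal.ofReal (qk 1 u) with ha_def
  have ha : Measurable a := (continuous_qk 1).measurable.ennreal_ofReal
  have h1 : ∫⁻ u, a u = 1 := lintegral_qk one_pos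
  rw [← HMarg_single_ti h hΦ j ha h1 x, ← HMarg_single_ti h hΦ l ha h1 y]
  have e1 : ∀ w : ι → R3, Φ w * a (w j) = ∫⁻ u, Φ w * a (w j) * a (w l + u) := by
    intro w
    have hm : Measurable (fun u : R3 => a (w l + u)) := ha.comp (measurable_id.const_add _)
    rw [lintegral_const_mul _ hm, lintegral_add_left_eq_self a (w l), h1, mul_one]
  have e2 : ∀ w : ι → R3, Φ w * a (w l) = ∫⁻ u, Φ w * a (w l) * a (w j - u) := by
    intro w
    have hm : Measurable (fun u : R3 => a (w j - u)) := ha.comp (measurable_id.const_sub _)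
    rw [lintegral_const_mul _ hm, lintegral_sub_left_eq_self a (w j), h1, mul_one]
  have m1 : Measurable (fun p : (ι → R3) × R3 => Φ p.1 * a (p.1 j) * a (p.1 l + p.2)) := by
    fun_prop
  have m2 : Measurable (fun p : (ι → R3) × R3 => Φ p.1 * a (p.1 l) * a (p.1 j - p.2)) := by
    fun_prop
  rw [lintegral_congr e1, lintegral_congr e2,
    lintegral_lintegral_swap (f := fun w u => Φ w * a (w j) * a (w l + u)) m1.aemeasurable,
    lintegral_lintegral_swap (f := fun w u => Φ w * a (w l) * a (w j - u)) m2.aemeasurable]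
  refine lintegral_congr fun u => ?_
  rw [← lintegral_add_right_eq_self (fun w : ι → R3 => Φ w * a (w l) * a (w j - u)) (fun _ => u)]
  refine lintegral_congr fun w => ?_
  have e3 : Φ (w + fun _ => u) = Φ w := hΦ w u
  simp only [e3, Pi.add_apply, add_sub_cancel_right]
  ring

theorem marg_perm (A : Finset ι) (h : Measurable Φ) (π : Equiv.Perm ι) (x : ι → R3) :
    marg A (fun y => Φ (y ∘ π)) x = marg (A.map π.symm.toEmbedding) Φ (x ∘ π) := by
  have hm : Measurable (fun y : ι → R3 => Φ (y ∘ π)) :=
    h.comp (measurable_pi_iff.2 fun i => measurable_pi_apply (π i))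
  induction A using Finset.induction_on generalizing x with
  | empty => simp only [Finset.map_empty, marg_empty]
  | insert i A hi ih =>
    have hi' : π.symm.toEmbedding i ∉ A.map π.symm.toEmbedding := by
      rwa [Finset.mem_map' π.symm.toEmbedding]
    rw [Finset.map_insert, HMarg_insert hm hi, HMarg_insert h hi']
    refine lintegral_congr fun y => ?_
    rw [ih, Function.update_comp_equiv]
    rfl

theorem HMarg_lintegral_smul {f : R3 → ℝ≥0∞} (hf : Measurable f) {s : ℝ} (hs : 0 < s) :
    ∫⁻ y, f (s • y) = ENNReal.ofReal (1 / s ^ 3) * ∫⁻ y, f y := by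
  have h1 := Measure.map_addHaar_smul (volume : Measure R3) hs.ne'
  rw [← lintegral_map hf (measurable_const_smul s), h1, lintegral_smul_measure,
    finrank_euclideanSpace_fin, abs_of_pos (inv_pos.2 (pow_pos hs 3)), one_div, smul_eq_mul]

theorem marg_scale (A : Finset ι) (h : Measurable Φ) {s : ℝ} (hs : 0 < s) (x : ι → R3) :
    marg A (fun y => Φ (s • y)) x = ENNReal.ofReal (1 / s ^ (3 * A.card)) * marg A Φ (s • x) := by
  have hm : Measurable (fun y : ι → R3 => Φ (s • y)) := h.comp (measurable_const_smul s)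
  induction A using Finset.induction_on generalizing x with
  | empty => simp [marg_empty]
  | insert i A hi ih =>
    have hf : Measurable (fun y : R3 => marg A Φ (Function.update (s • x) i y)) :=
      (measurable_marg A h).comp (measurable_update _)
    rw [HMarg_insert hm hi, HMarg_insert h hi, Finset.card_insert_of_notMem hi]
    have e1 : ∀ y : R3, marg A (fun y => Φ (s • y)) (Function.update x i y) =
        ENNReal.ofReal (1 / s ^ (3 * A.card)) * marg A Φ (Function.update (s • x) i (s • y)) := by
      intro y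
      rw [ih, Function.update_smul]
    have hf2 : Measurable (fun y : R3 => marg A Φ (Function.update (s • x) i (s • y))) :=
      hf.comp (measurable_const_smul s)
    rw [lintegral_congr e1, lintegral_const_mul _ hf2,
      HMarg_lintegral_smul hf hs, ← mul_assoc, ← ENNReal.ofReal_mul (by positivity)]
    congr 2
    rw [mul_add, mul_one, pow_add]
    field_simp

/-- integration against a function of one point -/
theorem lintegral_mul_single_le (h : Measurable Φ) (j : ι) {c : ℝ}
    (hc : MargLe (Finset.univ.erase j) Φ c) {a : R3 → ℝ≥0∞} (ha : Measurable a) :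
    ∫⁻ x, Φ x * a (x j) ≤ ENNReal.ofReal c * ∫⁻ y, a y := by
  rw [(HMarg_single_eq h j 0).resolve_right (not_not.2 ha), mul_comm,
    ← lintegral_mul_const _ ha]
  exact lintegral_mono fun y => mul_le_mul_right (hc _) _

theorem marg_snoc {p : ℕ} {Φ : (Fin (p + 1) → R3) → ℝ≥0∞} (h : Measurable Φ) (A : Finset (Fin p))
    (x : Fin p → R3) (y₀ : R3) :
    marg A (fun x' => ∫⁻ y, Φ (Fin.snoc x' y)) x =
      marg (insert (Fin.last p) (A.map Fin.castSuccEmb)) Φ (Fin.snoc x y₀) := by
  have hs : Measurable (fun q : (Fin p → R3) × R3 =>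
      (Fin.snoc q.1 q.2 : Fin (p + 1) → R3)) := by
    refine measurable_pi_iff.2 fun i => ?_
    refine Fin.lastCases ?_ (fun i => ?_) i
    · simp only [Fin.snoc_last]
      exact measurable_snd
    · simp only [Fin.snoc_castSucc]
      exact (measurable_pi_apply i).comp measurable_fst
  have hm : Measurable (fun x' : Fin p → R3 => ∫⁻ y, Φ (Fin.snoc x' y)) :=
    (h.comp hs).lintegral_prod_right'
  induction A using Finset.induction_on generalizing x with
  | empty =>
    rw [marg_empty, Finset.map_empty, HMarg_insert h (Finset.notMem_empty _), marg_empty]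
    refine lintegral_congr fun y => ?_
    rw [Fin.update_snoc_last]
  | insert i A hi ih =>
    have hi' : Fin.castSuccEmb i ∉ insert (Fin.last p) (A.map Fin.castSuccEmb) := by
      rw [Finset.mem_insert, not_or]
      exact ⟨(Fin.castSucc_lt_last i).ne, by rwa [Finset.mem_map' Fin.castSuccEmb]⟩
    rw [Finset.map_insert, Finset.insert_comm, HMarg_insert hm hi, HMarg_insert h hi']
    refine lintegral_congr fun y => ?_
    rw [ih, Fin.snoc_update]
    rfl

theorem HMarg_meas_ker (h : Measurable Φ) :
    Measurable (fun q : (ℝ × (ι → R3)) × (ι → R3) =>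
      ENNReal.ofReal (pk q.1.1 q.2) * Φ (q.1.2 - q.2)) :=
  (measurable_pk.comp (measurable_fst.fst.prodMk measurable_snd)).ennreal_ofReal.mul
    (h.comp (measurable_fst.snd.sub measurable_snd))

theorem measurable_lheat (h : Measurable Φ) :
    Measurable (fun p : ℝ × (ι → R3) => lheat p.1 Φ p.2) :=
  (HMarg_meas_ker h).lintegral_prod_right'

theorem HMarg_meas_gker (m : ℝ) (h : Measurable Φ) :
    Measurable (fun q : (ι → R3) × ℝ =>
      ENNReal.ofReal (Real.exp (-(m ^ 2) * q.2)) * lheat q.2 Φ q.1) := by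
  have h1 : Measurable (fun q : (ι → R3) × ℝ => ENNReal.ofReal (Real.exp (-(m ^ 2) * q.2))) := by
    fun_prop
  have h2 : Measurable (fun q : (ι → R3) × ℝ => lheat q.2 Φ q.1) :=
    Measurable.comp (g := fun p : ℝ × (ι → R3) => lheat p.1 Φ p.2)
      (f := fun q : (ι → R3) × ℝ => (q.2, q.1)) (measurable_lheat h) measurable_swap
  exact h1.mul h2

theorem HMarg_meas_lheat (t : ℝ) (h : Measurable Φ) : Measurable (lheat t Φ) :=
  Measurable.comp (g := fun p : ℝ × (ι → R3) => lheat p.1 Φ p.2)
    (f := fun y : ι → R3 => (t, y)) (measurable_lheat h) measurable_prodMk_left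

theorem measurable_lgreen (m : ℝ) (h : Measurable Φ) : Measurable (lgreen m Φ) :=
  (HMarg_meas_gker m h).lintegral_prod_right'

theorem HMarg_meas_pk (t : ℝ) : Measurable (fun z : ι → R3 => ENNReal.ofReal (pk t z)) :=
  (continuous_pk t).measurable.ennreal_ofReal

theorem lheat_lheat (h : Measurable Φ) {s t : ℝ} (hs : 0 < s) (ht : 0 < t) :
    lheat s (lheat t Φ) = lheat (s + t) Φ := by
  funext x
  have hs' := HMarg_meas_pk (ι := ι) s
  have ht' := HMarg_meas_pk (ι := ι) t
  have e1 : ∀ z : ι → R3, ENNReal.ofReal (pk s z) * lheat t Φ (x - z) =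
      ∫⁻ w, ENNReal.ofReal (pk s z) * ENNReal.ofReal (pk t (w - z)) * Φ (x - w) := by
    intro z
    have hm : Measurable (fun w : ι → R3 => ENNReal.ofReal (pk t (w - z)) * Φ (x - w)) :=
      (ht'.comp (measurable_id.sub_const z)).mul (h.comp (measurable_id.const_sub x))
    simp only [mul_assoc]
    rw [lintegral_const_mul _ hm, lheat,
      ← lintegral_sub_right_eq_self (fun w => ENNReal.ofReal (pk t w) * Φ (x - z - w)) z]
    congr 1
    refine lintegral_congr fun w => ?_
    congr 2
    abel
  have m1 : Measurable (fun q : (ι → R3) × (ι → R3) =>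
      ENNReal.ofReal (pk s q.1) * ENNReal.ofReal (pk t (q.2 - q.1)) * Φ (x - q.2)) :=
    ((hs'.comp measurable_fst).mul (ht'.comp (measurable_snd.sub measurable_fst))).mul
      (h.comp (measurable_snd.const_sub x))
  change ∫⁻ z, ENNReal.ofReal (pk s z) * lheat t Φ (x - z) =
    ∫⁻ w, ENNReal.ofReal (pk (s + t) w) * Φ (x - w)
  rw [lintegral_congr e1, lintegral_lintegral_swap (f := fun z w =>
    ENNReal.ofReal (pk s z) * ENNReal.ofReal (pk t (w - z)) * Φ (x - w)) m1.aemeasurable]
  refine lintegral_congr fun w => ?_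
  have hm : Measurable (fun z : ι → R3 =>
      ENNReal.ofReal (pk s z) * ENNReal.ofReal (pk t (w - z))) :=
    hs'.mul (ht'.comp (measurable_id.const_sub w))
  rw [lintegral_mul_const _ hm, add_comm s t, ← pk_conv ht hs w]
  congr 1
  exact lintegral_congr fun z => mul_comm _ _

/-- a marginal commutes with an integral over a parameter -/
theorem HMarg_swap {Z : Type} [MeasurableSpace Z] (ν : Measure Z) [SFinite ν] (A : Finset ι)
    {F : (ι → R3) → Z → ℝ≥0∞} (hF : Measurable (fun q : (ι → R3) × Z => F q.1 q.2))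
    (x : ι → R3) :
    marg A (fun y => ∫⁻ z, F y z ∂ν) x = ∫⁻ z, marg A (fun y => F y z) x ∂ν := by
  simp only [HMarg_def]
  refine lintegral_lintegral_swap (f := fun (y : A → R3) z => F (Function.updateFinset x A y) z) ?_
  exact (hF.comp ((measurable_updateFinset.comp measurable_fst).prodMk
    measurable_snd)).aemeasurable

theorem HMarg_lheat (h : Measurable Φ) (A : Finset ι) (t : ℝ) (x : ι → R3) :
    marg A (lheat t Φ) x = ∫⁻ z, ENNReal.ofReal (pk t z) * marg A Φ (x - z) := by
  have hF : Measurable (fun q : (ι → R3) × (ι → R3) =>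
      ENNReal.ofReal (pk t q.2) * Φ (q.1 - q.2)) :=
    ((HMarg_meas_pk t).comp measurable_snd).mul (h.comp (measurable_fst.sub measurable_snd))
  have e := HMarg_swap volume A (F := fun y z => ENNReal.ofReal (pk t z) * Φ (y - z)) hF x
  refine e.trans (lintegral_congr fun z => ?_)
  rw [marg_mul_left A (Φ := fun y => Φ (y - z)) (h.comp (measurable_id.sub_const z))
    (c := fun _ => ENNReal.ofReal (pk t z)) (fun _ _ _ => rfl), marg_translate A h]

theorem HMarg_prod_qk {t : ℝ} (ht : 0 < t) (C : Finset ι) (x : ι → R3) :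
    marg C (fun z => ∏ i ∈ C, ENNReal.ofReal (qk t (z i))) x = 1 := by
  have hq : Measurable (fun u : R3 => ENNReal.ofReal (qk t u)) :=
    (continuous_qk t).measurable.ennreal_ofReal
  have hm : ∀ C : Finset ι, Measurable (fun z : ι → R3 => ∏ i ∈ C, ENNReal.ofReal (qk t (z i))) :=
    fun C => Finset.measurable_prod C fun i _ => hq.comp (measurable_pi_apply i)
  induction C using Finset.induction_on generalizing x with
  | empty => simp [marg_empty]
  | insert i C hi ih =>
    rw [HMarg_insert (hm _) hi, ← lintegral_qk ht]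
    refine lintegral_congr fun y => ?_
    simp only [Finset.prod_insert hi]
    rw [marg_mul_left C (hm C) (c := fun z => ENNReal.ofReal (qk t (z i)))
      (fun u v huv => by rw [huv i hi]), ih, mul_one, Function.update_self]

theorem marg_lheat_le (h : Measurable Φ) {A A' : Finset ι} (hA : A ⊆ A') {c : ℝ}
    (hc : MargLe A' Φ c) {t : ℝ} (ht : 0 < t) :
    MargLe A (lheat t Φ) (t ^ (-(3 / 2 : ℝ) * ((A' \ A).card : ℝ)) * c) := by
  intro x
  set B := A' \ A with hB
  set T : ℝ≥0∞ := ENNReal.ofReal (t ^ (-(3 / 2 : ℝ) * (B.card : ℝ))) with hT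
  have hq : Measurable (fun u : R3 => ENNReal.ofReal (qk t u)) :=
    (continuous_qk t).measurable.ennreal_ofReal
  have hm : Measurable (fun z : ι → R3 => ∏ i ∈ Bᶜ, ENNReal.ofReal (qk t (z i))) :=
    Finset.measurable_prod _ fun i _ => hq.comp (measurable_pi_apply i)
  have hG : Measurable (fun z : ι → R3 => marg A Φ (x - z)) :=
    (measurable_marg A h).comp (measurable_id.const_sub x)
  have hp : ∀ z : ι → R3, ENNReal.ofReal (pk t z) ≤
      T * ∏ i ∈ Bᶜ, ENNReal.ofReal (qk t (z i)) := by
    intro z
    rw [pk, ← Finset.prod_mul_prod_compl B, ENNReal.ofReal_mul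
      (Finset.prod_nonneg fun i _ => (qk_pos ht _).le),
      ENNReal.ofReal_prod_of_nonneg (s := Bᶜ) fun i _ => (qk_pos ht _).le]
    refine mul_le_mul_left (ENNReal.ofReal_le_ofReal ?_) _
    rw [Real.rpow_mul ht.le, Real.rpow_natCast, ← Finset.prod_const]
    exact Finset.prod_le_prod (fun i _ => (qk_pos ht _).le) fun i _ => qk_le ht _
  have hm2 : Measurable (fun z : ι → R3 =>
      (T * ∏ i ∈ Bᶜ, ENNReal.ofReal (qk t (z i))) * marg A Φ (x - z)) :=
    (hm.const_mul T).mul hG
  have hu : Bᶜ ∪ B = Finset.univ := by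
    rw [Finset.union_comm]
    exact Finset.union_compl B
  have hBA : B ∪ A = A' := Finset.sdiff_union_of_subset hA
  calc marg A (lheat t Φ) x
      ≤ ∫⁻ z, (T * ∏ i ∈ Bᶜ, ENNReal.ofReal (qk t (z i))) * marg A Φ (x - z) := by
        rw [HMarg_lheat h]
        exact lintegral_mono fun z => mul_le_mul_left (hp z) _
    _ = marg Bᶜ (marg B fun z => (T * ∏ i ∈ Bᶜ, ENNReal.ofReal (qk t (z i))) *
          marg A Φ (x - z)) x := by
        rw [← marg_union hm2 disjoint_compl_left, hu, marg_univ]
    _ ≤ marg Bᶜ (fun z => (T * ENNReal.ofReal c) * ∏ i ∈ Bᶜ, ENNReal.ofReal (qk t (z i))) x := by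
        refine marg_mono _ (fun z => ?_) x
        rw [marg_mul_left B hG (c := fun z => T * ∏ i ∈ Bᶜ, ENNReal.ofReal (qk t (z i)))
          (fun u v huv => by
            rw [Finset.prod_congr rfl fun i hi => by rw [huv i (Finset.mem_compl.1 hi)]]),
          HMarg_reflect B (measurable_marg A h), ← marg_union h Finset.sdiff_disjoint, hBA,
          mul_right_comm]
        exact mul_le_mul_left (mul_le_mul_right (hc _) _) _
    _ = T * ENNReal.ofReal c := by
        rw [marg_mul_left _ hm (c := fun _ => T * ENNReal.ofReal c) (fun _ _ _ => rfl),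
          HMarg_prod_qk ht, mul_one]
    _ = _ := by rw [hT, ENNReal.ofReal_mul (Real.rpow_nonneg ht.le _)]

theorem HMarg_lgreen (h : Measurable Φ) (A : Finset ι) (m : ℝ) (x : ι → R3) :
    marg A (lgreen m Φ) x = ∫⁻ t in Ioi (0 : ℝ),
      ENNReal.ofReal (Real.exp (-(m ^ 2) * t)) * marg A (lheat t Φ) x := by
  have e := HMarg_swap (volume.restrict (Ioi (0 : ℝ))) A (F := fun y t =>
    ENNReal.ofReal (Real.exp (-(m ^ 2) * t)) * lheat t Φ y) (HMarg_meas_gker m h) x
  refine e.trans (lintegral_congr fun t => ?_)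
  exact marg_mul_left A (Φ := lheat t Φ) (HMarg_meas_lheat t h)
    (c := fun _ => ENNReal.ofReal (Real.exp (-(m ^ 2) * t))) (fun _ _ _ => rfl) x

theorem HMarg_lheat_self (h : Measurable Φ) {A : Finset ι} {c : ℝ} (hc : MargLe A Φ c) {t : ℝ}
    (ht : 0 < t) : MargLe A (lheat t Φ) c := by
  simpa using marg_lheat_le h (Finset.Subset.refl A) hc ht

theorem marg_lgreen_le (h : Measurable Φ) {B : ℝ} (hB : 0 ≤ B)
    (hm : ∀ A : Finset ι, A ≠ Finset.univ → MargLe A Φ B) (m : ℝ) {A : Finset ι}
    (hA : A.card + 2 ≤ Fintype.card ι) : MargLe A (lgreen m Φ) (3 * B) := by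
  intro x
  have hAu : A ≠ Finset.univ := by
    rintro rfl
    rw [Finset.card_univ] at hA
    omega
  obtain ⟨j, hj⟩ : ∃ j, j ∉ A := by
    by_contra hne
    push Not at hne
    exact hAu (Finset.eq_univ_of_forall hne)
  have hsub : A ⊆ Finset.univ.erase j := fun i hi =>
    Finset.mem_erase.2 ⟨fun e => hj (e ▸ hi), Finset.mem_univ i⟩
  have hne : Finset.univ.erase j ≠ Finset.univ := fun e =>
    Finset.notMem_erase j Finset.univ (e.symm ▸ Finset.mem_univ j)
  have hcard : 1 ≤ (Finset.univ.erase j \ A).card := by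
    rw [Finset.card_sdiff_of_subset hsub, Finset.card_erase_of_mem (Finset.mem_univ j),
      Finset.card_univ]
    omega
  have hexp : ∀ t : ℝ, 0 < t → ENNReal.ofReal (Real.exp (-(m ^ 2) * t)) ≤ 1 := by
    intro t ht
    refine ENNReal.ofReal_le_one.2 (Real.exp_le_one_iff.2 ?_)
    nlinarith [sq_nonneg m]
  have h1 : ∫⁻ t in Ioc (0 : ℝ) 1, ENNReal.ofReal (Real.exp (-(m ^ 2) * t)) *
      marg A (lheat t Φ) x ≤ ENNReal.ofReal B := by
    calc _ ≤ ∫⁻ _ in Ioc (0 : ℝ) 1, ENNReal.ofReal B := by
          refine setLIntegral_mono' measurableSet_Ioc fun t ht => ?_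
          calc _ ≤ 1 * ENNReal.ofReal B :=
                mul_le_mul' (hexp t ht.1) (HMarg_lheat_self h (hm A hAu) ht.1 x)
            _ = _ := one_mul _
      _ = _ := by simp
  have h2 : ∫⁻ t in Ioi (1 : ℝ), ENNReal.ofReal (Real.exp (-(m ^ 2) * t)) *
      marg A (lheat t Φ) x ≤ ENNReal.ofReal (2 * B) := by
    have hi : IntegrableOn (fun t : ℝ => t ^ (-(3 / 2) : ℝ)) (Ioi 1) :=
      integrableOn_Ioi_rpow_of_lt (by norm_num) one_pos
    calc _ ≤ ∫⁻ t in Ioi (1 : ℝ), ENNReal.ofReal (t ^ (-(3 / 2) : ℝ) * B) := by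
          refine setLIntegral_mono' measurableSet_Ioi fun t ht => ?_
          have ht1 : (1 : ℝ) < t := ht
          have ht0 : 0 < t := one_pos.trans ht1
          calc _ ≤ 1 * ENNReal.ofReal (t ^ (-(3 / 2 : ℝ) *
                  ((Finset.univ.erase j \ A).card : ℝ)) * B) :=
                mul_le_mul' (hexp t ht0) (marg_lheat_le h hsub (hm _ hne) ht0 x)
            _ ≤ _ := by
                rw [one_mul]
                refine ENNReal.ofReal_le_ofReal (mul_le_mul_of_nonneg_right
                  (Real.rpow_le_rpow_of_exponent_le ht1.le ?_) hB)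
                have : (1 : ℝ) ≤ ((Finset.univ.erase j \ A).card : ℝ) := by exact_mod_cast hcard
                linarith
      _ = ENNReal.ofReal (∫ t in Ioi (1 : ℝ), t ^ (-(3 / 2) : ℝ) * B) := by
          rw [ofReal_integral_eq_lintegral_ofReal (hi.mul_const B)]
          refine (ae_restrict_iff' measurableSet_Ioi).2 (Eventually.of_forall fun t ht => ?_)
          exact mul_nonneg (Real.rpow_nonneg (zero_le_one.trans (le_of_lt ht)) _) hB
      _ = _ := by
          rw [integral_mul_const, integral_Ioi_rpow_of_lt (by norm_num) one_pos]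
          norm_num
  rw [HMarg_lgreen h, ← Ioc_union_Ioi_eq_Ioi zero_le_one]
  refine (lintegral_union_le _ _ _).trans ((add_le_add h1 h2).trans ?_)
  rw [← ENNReal.ofReal_add hB (by linarith)]
  exact ENNReal.ofReal_le_ofReal (by linarith)

theorem marg_lgreen_le' (h : Measurable Φ) {A : Finset ι} {B : ℝ} (hc : MargLe A Φ B) {m : ℝ}
    (hm : 0 < m) : MargLe A (lgreen m Φ) (B / m ^ 2) := by
  intro x
  have hm2 : -(m ^ 2) < 0 := neg_neg_of_pos (pow_pos hm 2)
  rw [HMarg_lgreen h]
  calc _ ≤ ∫⁻ t in Ioi (0 : ℝ), ENNReal.ofReal (Real.exp (-(m ^ 2) * t)) * ENNReal.ofReal B :=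
        setLIntegral_mono' measurableSet_Ioi fun t ht =>
          mul_le_mul_right (HMarg_lheat_self h hc ht x) _
    _ = ENNReal.ofReal (∫ t in Ioi (0 : ℝ), Real.exp (-(m ^ 2) * t)) * ENNReal.ofReal B := by
        have hme : Measurable (fun t : ℝ => ENNReal.ofReal (Real.exp (-(m ^ 2) * t))) := by
          fun_prop
        rw [lintegral_mul_const _ hme,
          ofReal_integral_eq_lintegral_ofReal (integrableOn_exp_mul_Ioi hm2 0)
            (Eventually.of_forall fun t => (Real.exp_pos _).le)]
    _ = _ := by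
        rw [integral_exp_mul_Ioi hm2, ← ENNReal.ofReal_mul (by
          rw [mul_zero, Real.exp_zero, neg_div_neg_eq]; positivity)]
        congr 1
        rw [mul_zero, Real.exp_zero]
        field_simp

end Pool.Agent.Lib.MP_8fe63c_mp
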