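import Pool.Agent.Lib.MP_8fe63c_mp.HScat
import Pool.Agent.Lib.MP_8fe63c_mp.HDecay

set_option linter.unusedSectionVars false

open MeasureTheory Set Filter Topology
open scoped ENNReal InnerProductSpace

namespace Pool.Agent.Lib.MP_8fe63c_mp

section general

variable {ι : Type} [Fintype ι] [DecidableEq ι]

theorem HMicro_hw_pos (r : R3) : 0 < hw 1 r := by unfold hw; positivity

theorem HMicro_hw_le_one (r : R3) : hw 1 r ≤ 1 :=
  inv_le_one_of_one_le₀ (le_add_of_nonneg_right (by positivity))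

theorem HMicro_hw_comm (a b : R3) : hw 1 (a - b) = hw 1 (b - a) := by
  unfold hw
  rw [norm_sub_rev]

theorem HMicro_one_le_hw {K : ℝ} {r : R3} (h : ‖r‖ ≤ K) : 1 ≤ (1 + K ^ 2) * hw 1 r := by
  unfold hw
  rw [← div_eq_mul_inv, one_le_div (by positivity)]
  nlinarith [norm_nonneg r]

theorem HMicro_hw_shift {K : ℝ} {a b c : R3} (h : ‖a - b‖ ≤ K) :
    hw 1 (b - c) ≤ 2 * (1 + K ^ 2) * hw 1 (a - c) := by
  unfold hw
  rw [← div_eq_mul_inv, ← one_div, div_le_div_iff₀ (by positivity) (by positivity)]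
  have h1 : ‖a - c‖ ≤ K + ‖b - c‖ := (norm_sub_le_norm_sub_add_norm_sub a b c).trans (by linarith)
  have h2 : ‖a - c‖ ^ 2 ≤ (K + ‖b - c‖) ^ 2 := pow_le_pow_left₀ (norm_nonneg _) h1 2
  nlinarith [sq_nonneg (K - ‖b - c‖), mul_nonneg (sq_nonneg K) (sq_nonneg ‖b - c‖)]

theorem HMicro_margLe_mono {A : Finset ι} {Φ Ψ : (ι → R3) → ℝ≥0∞} {c c' : ℝ} (h : MargLe A Ψ c)
    (hle : ∀ x, Φ x ≤ Ψ x) (hc : c ≤ c') : MargLe A Φ c' := fun x =>
  (marg_mono A hle x).trans ((h x).trans (ENNReal.ofReal_le_ofReal hc))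

theorem HMicro_margLe_mul {A : Finset ι} {Φ Ψ : (ι → R3) → ℝ≥0∞} {c k : ℝ} (hm : Measurable Ψ)
    (h : MargLe A Ψ c) (hk : 0 ≤ k) (hle : ∀ x, Φ x ≤ ENNReal.ofReal k * Ψ x) :
    MargLe A Φ (k * c) := fun x => by
  refine (marg_mono A hle x).trans ?_
  rw [marg_mul_left A hm (c := fun _ => ENNReal.ofReal k) (fun _ _ _ => rfl),
    ENNReal.ofReal_mul hk]
  exact mul_le_mul_right (h x) _

theorem HMicro_margLe_sum {κ : Type} (s : Finset κ) {A : Finset ι} {f : κ → (ι → R3) → ℝ} {c : ℝ}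
    (hm : ∀ k ∈ s, Measurable (f k)) (h : ∀ k ∈ s, MargLe A (eabs (f k)) c) :
    MargLe A (eabs fun x => ∑ k ∈ s, f k x) (s.card * c) := fun x => by
  have h1 : ∀ y, eabs (fun x => ∑ k ∈ s, f k x) y ≤ ∑ k ∈ s, eabs (f k) y := fun y => by
    unfold eabs
    rw [← ENNReal.ofReal_sum_of_nonneg fun k _ => abs_nonneg _]
    exact ENNReal.ofReal_le_ofReal (Finset.abs_sum_le_sum_abs _ _)
  refine (marg_mono A h1 x).trans ?_
  rw [marg_sum s A fun k hk => measurable_eabs (hm k hk)]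
  refine (Finset.sum_le_card_nsmul _ _ _ fun k hk => h k hk x).trans (le_of_eq ?_)
  rw [ENNReal.ofReal_mul (Nat.cast_nonneg _), ENNReal.ofReal_natCast, nsmul_eq_mul]

theorem HMicro_eabs_mul_le {X : Type} {F y : X → ℝ} {C : ℝ} {x : X} (hC : 0 ≤ C)
    (h : F x ≠ 0 → |y x| ≤ C) : eabs (fun x => F x * y x) x ≤ ENNReal.ofReal C * eabs F x := by
  unfold eabs
  rw [← ENNReal.ofReal_mul hC, abs_mul, mul_comm]
  refine ENNReal.ofReal_le_ofReal ?_
  by_cases h0 : F x = 0
  · simp [h0]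
  · exact mul_le_mul_of_nonneg_right (h h0) (abs_nonneg _)

theorem HMicro_nice0_mul {F y : (ι → R3) → ℝ} {B C : ℝ} (h : Nice0 F B) (hC : 1 ≤ C)
    (hm : Measurable y) (ht : TI y) (hb : ∀ x, |y x| ≤ C) : Nice0 (fun x => F x * y x) (C * B) where
  meas := h.meas.mul hm
  ti := fun x a => by simp only [h.ti x a, ht x a]
  one_le := one_le_mul_of_one_le_of_one_le hC h.one_le
  mg := fun A hA => HMicro_margLe_mul (measurable_eabs h.meas) (h.mg A hA) (by linarith)
    fun x => HMicro_eabs_mul_le (by linarith) fun _ => hb x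

theorem HMicro_nice_mono {F : (ι → R3) → ℝ} {B B' : ℝ} (h : Nice F B) (hB : B ≤ B') : Nice F B' :=
  ⟨h.toNice0.mono hB, fun x hx => by
    obtain ⟨a, b, hab, h1⟩ := h.close x hx
    exact ⟨a, b, hab, h1.trans hB⟩⟩

theorem HMicro_nice_sum {f : Fin 4 → (ι → R3) → ℝ} {B : ℝ} (h : ∀ l, Nice (f l) B) :
    Nice (fun x => ∑ l, f l x) (4 * B) where
  meas := Finset.measurable_sum _ fun l _ => (h l).meas
  ti := fun x a => Finset.sum_congr rfl fun l _ => (h l).ti x a
  one_le := by linarith [(h 0).one_le]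
  mg := fun A hA => by
    have := HMicro_margLe_sum Finset.univ (fun l _ => (h l).meas)
      fun l _ => (h l).mg A hA
    simpa using this
  close := fun x hx => by
    obtain ⟨l, -, hl⟩ := Finset.exists_ne_zero_of_sum_ne_zero hx
    obtain ⟨a, b, hab, h1⟩ := (h l).close x hl
    exact ⟨a, b, hab, by linarith [(h 0).one_le]⟩

theorem HMicro_majS_mono {Φ : (ι → R3) → ℝ≥0∞} {κ κ' : ℝ} (h : MajS 1 Φ κ) (hκ : κ ≤ κ') :
    MajS 1 Φ κ' where
  meas := h.meas
  ti := h.ti
  mg := fun A hA => HMicro_margLe_mono (h.mg A hA) (fun _ => le_rfl) (by simpa using hκ)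
  tri := fun A hA x => (h.tri A hA x).trans (ENNReal.ofReal_le_ofReal
    (mul_le_mul_of_nonneg_right (by simpa using hκ) (Finset.sum_nonneg fun a _ =>
      Finset.sum_nonneg fun b _ => Finset.sum_nonneg fun c _ => by
        split_ifs
        exacts [(mul_pos (HMicro_hw_pos _) (HMicro_hw_pos _)).le, le_rfl])))

theorem HMicro_tri (D : Finset ι) (x : ι → R3) {a b c : ι} (ha : a ∈ D) (hb : b ∈ D) (hc : c ∈ D)
    (h : a ≠ b ∧ a ≠ c ∧ b ≠ c) :
    hw 1 (x a - x b) * hw 1 (x a - x c) ≤ ∑ a ∈ D, ∑ b ∈ D, ∑ c ∈ D,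
      if a ≠ b ∧ a ≠ c ∧ b ≠ c then hw 1 (x a - x b) * hw 1 (x a - x c) else 0 := by
  have h0 : ∀ a b c : ι,
      0 ≤ if a ≠ b ∧ a ≠ c ∧ b ≠ c then hw 1 (x a - x b) * hw 1 (x a - x c) else 0 := by
    intro a b c
    split_ifs
    exacts [(mul_pos (HMicro_hw_pos _) (HMicro_hw_pos _)).le, le_rfl]
  refine le_trans ?_ (Finset.single_le_sum (fun a _ =>
    Finset.sum_nonneg fun b _ => Finset.sum_nonneg fun c _ => h0 a b c) ha)
  refine le_trans ?_ (Finset.single_le_sum (fun b _ => Finset.sum_nonneg fun c _ => h0 a b c) hb)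
  refine le_trans ?_ (Finset.single_le_sum (fun c _ => h0 a b c) hc)
  rw [if_pos h]

/-- indicator of a ball -/
noncomputable def HMicro_bl (K : ℝ) (r : R3) : ℝ≥0∞ := (Metric.closedBall (0 : R3) K).indicator 1 r

theorem HMicro_bl_meas (K : ℝ) : Measurable (HMicro_bl K) :=
  measurable_one.indicator measurableSet_closedBall

theorem HMicro_bl_int {K : ℝ} (hK : 0 ≤ K) (c : R3) :
    ∫⁻ y, HMicro_bl K (y - c) ≤ ENNReal.ofReal (8 * K ^ 3) := by
  rw [lintegral_sub_right_eq_self (HMicro_bl K) c]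
  unfold HMicro_bl
  rw [lintegral_indicator_one measurableSet_closedBall, EuclideanSpace.volume_closedBall_fin_three,
    ← ENNReal.ofReal_pow hK, ← ENNReal.ofReal_mul (by positivity)]
  refine ENNReal.ofReal_le_ofReal ?_
  nlinarith [Real.pi_le_four, pow_nonneg hK 3]

theorem HMicro_marg_ball {K : ℝ} (hK : 0 ≤ K) {j : ι} (A : Finset ι) (hj : j ∉ A) :
    MargLe A (fun y => ∏ a ∈ A, HMicro_bl K (y a - y j)) ((8 * K ^ 3) ^ A.card) := by
  have hm : ∀ A : Finset ι, Measurable fun y : ι → R3 => ∏ a ∈ A, HMicro_bl K (y a - y j) :=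
    fun A => Finset.measurable_prod _ fun a _ =>
      (HMicro_bl_meas K).comp ((measurable_pi_apply a).sub (measurable_pi_apply j))
  induction A using Finset.induction_on with
  | empty =>
    intro x
    rw [marg_empty]
    simp
  | insert a A ha ih =>
    intro x
    have hja : j ≠ a := fun h => hj (h ▸ Finset.mem_insert_self _ _)
    have hjA : j ∉ A := fun h => hj (Finset.mem_insert_of_mem h)
    have h1 : ∀ y, marg A (fun y => ∏ b ∈ insert a A, HMicro_bl K (y b - y j)) y ≤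
        ENNReal.ofReal ((8 * K ^ 3) ^ A.card) * HMicro_bl K (y a - y j) := fun y => by
      simp only [Finset.prod_insert ha]
      rw [marg_mul_left A (hm A) (c := fun y => HMicro_bl K (y a - y j))
        (fun x y h => by simp only [h a ha, h j hjA]), mul_comm]
      exact mul_le_mul_left (ih hjA y) _
    rw [Finset.card_insert_of_notMem ha]
    have h2 := marg_union (hm (insert a A)) (Finset.disjoint_singleton_left.mpr ha)
    rw [← Finset.insert_eq] at h2
    rw [h2]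
    refine (marg_mono _ h1 x).trans ?_
    rw [marg_single]
    simp only [Function.update_self, Function.update_of_ne hja]
    rw [lintegral_const_mul' _ _ ENNReal.ofReal_ne_top, pow_succ _ A.card,
      ENNReal.ofReal_mul (by positivity)]
    exact mul_le_mul_right (HMicro_bl_int hK _) _

/-- marginals of a bounded function whose support keeps the points of `A` near the point `j` -/
theorem HMicro_marg_supp {F : (ι → R3) → ℝ} {K : ℝ} (hK : 1 ≤ K) (hb : ∀ x, |F x| ≤ K) {j : ι}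
    {A : Finset ι} (hj : j ∉ A) (hA : A.card ≤ 2)
    (hs : ∀ x, F x ≠ 0 → ∀ a ∈ A, ‖x a - x j‖ ≤ K) : MargLe A (eabs F) (K * (8 * K ^ 3) ^ 2) := by
  have h8 : 1 ≤ 8 * K ^ 3 := by linarith [one_le_pow₀ (n := 3) hK]
  have h1 := HMicro_margLe_mul (Φ := eabs F) (k := K)
    (Ψ := fun y => ∏ a ∈ A, HMicro_bl K (y a - y j)) (Finset.measurable_prod _ fun a _ =>
    (HMicro_bl_meas K).comp ((measurable_pi_apply a).sub (measurable_pi_apply j)))
    (HMicro_marg_ball (by linarith) A hj) (by linarith) fun x => by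
      by_cases h0 : F x = 0
      · simp [eabs, h0]
      · have : ∏ a ∈ A, HMicro_bl K (x a - x j) = 1 := Finset.prod_eq_one fun a ha =>
          Set.indicator_of_mem (mem_closedBall_zero_iff.mpr (hs x h0 a ha)) _
        simp only [this, mul_one]
        exact ENNReal.ofReal_le_ofReal (hb x)
  exact HMicro_margLe_mono h1 (fun _ => le_rfl)
    (mul_le_mul_of_nonneg_left (pow_le_pow_right₀ h8 hA) (by linarith))

theorem HMicro_green_mg {F : (ι → R3) → ℝ} {B : ℝ} (h : Nice0 F B) {A : Finset ι}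
    (hA : A.card + 2 ≤ Fintype.card ι) : MargLe A (eabs (green 0 F)) (3 * B) :=
  HMicro_margLe_mono (marg_lgreen_le (measurable_eabs h.meas) (by linarith [h.one_le]) h.mg 0 hA)
    (eabs_green_le 0) le_rfl

theorem HMicro_green_bdd {F : (ι → R3) → ℝ} {B : ℝ} (h : Nice0 F B) (hι : 2 ≤ Fintype.card ι)
    (x : ι → R3) : |green 0 F x| ≤ 3 * B := by
  have := HMicro_green_mg h (A := ∅) (by simpa using hι) x
  rw [marg_empty] at this
  exact (ENNReal.ofReal_le_ofReal_iff (by linarith [h.one_le])).mp this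

theorem HMicro_green_neg (F : (ι → R3) → ℝ) (x : ι → R3) :
    green 0 (fun y => -F y) x = -green 0 F x := by
  simp only [green, heat, mul_neg, integral_neg]

theorem HMicro_abs_le {X : Type} {ψ G : X → ℝ} (h : ∀ x, 0 ≤ ψ x ∧ ψ x ≤ G x) (x : X) :
    |ψ x| ≤ |G x| := by
  rw [abs_of_nonneg (h x).1]
  exact (h x).2.trans (le_abs_self _)

end general

theorem HMicro_om_meas (l : Fin 4) : Measurable (om l) :=
  measurable_pi_lambda _ fun _ => measurable_pi_apply _

theorem HMicro_om_ti {β : Type} {F : (Fin 3 → R3) → β} (h : TI F) (l : Fin 4) :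
    TI fun x => F (om l x) := fun x a => h (om l x) a

theorem HMicro_om_perm {β : Type} {F : (Fin 3 → R3) → β} (h : Symm F) (l : Fin 4)
    (π : Equiv.Perm (Fin 4)) (x : Fin 4 → R3) : F (om l (x ∘ π)) = F (om (π l) x) := by
  let σ : Equiv.Perm (Fin 3) := (finSuccAboveEquiv l).trans
    ((π.subtypeEquiv (p := fun a => a ≠ l) (q := fun a => a ≠ π l)
      fun a => π.injective.ne_iff.symm).trans (finSuccAboveEquiv (π l)).symm)
  rw [← h σ (om (π l) x)]
  congr 1
  funext i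
  have : (π l).succAbove (σ i) = π (l.succAbove i) :=
    congrArg Subtype.val ((finSuccAboveEquiv (π l)).apply_symm_apply _)
  simp only [om, Function.comp, this]

theorem HMicro_om_supp {U : (Fin 3 → R3) → ℝ} {K : ℝ} (h : Pot3 U K) {l : Fin 4} {x : Fin 4 → R3}
    (hx : U (om l x) ≠ 0) {a b : Fin 4} (ha : a ≠ l) (hb : b ≠ l) : ‖x a - x b‖ ≤ K := by
  obtain ⟨i, rfl⟩ := Fin.exists_succAbove_eq ha
  obtain ⟨j, rfl⟩ := Fin.exists_succAbove_eq hb
  exact h.supp _ hx i j

theorem HMicro_abs_U {U : (Fin 3 → R3) → ℝ} {K : ℝ} (h : Pot3 U K) (x : Fin 3 → R3) :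
    |U x| ≤ K := by
  rw [abs_of_nonneg (h.nonneg x)]
  exact h.le x

theorem HMicro_margU {U : (Fin 3 → R3) → ℝ} {K : ℝ} (h : Pot3 U K) {l j : Fin 4}
    {A : Finset (Fin 4)} (hl : l ∉ A) (hj : j ∉ A) (hjl : j ≠ l) :
    MargLe A (eabs fun x => U (om l x)) (K * (8 * K ^ 3) ^ 2) := by
  refine HMicro_marg_supp h.one_le (fun x => HMicro_abs_U h _) hj ?_
    fun x hx a ha => HMicro_om_supp h hx (fun e => hl (e ▸ ha)) hjl
  have h1 := Finset.card_le_univ (insert j (insert l A))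
  rw [Finset.card_insert_of_notMem (by simp [hj, hjl]), Finset.card_insert_of_notMem hl,
    Fintype.card_fin] at h1
  omega

theorem HMicro_marg_self {U : (Fin 3 → R3) → ℝ} {y : (Fin 4 → R3) → ℝ} {K' : ℝ}
    (hm : Measurable y) (l : Fin 4) (hl : MargLe {l} (eabs y) K') (x : Fin 4 → R3) :
    marg {l} (eabs fun x => U (om l x) * y x) x ≤
      ENNReal.ofReal K' * eabs (fun x => U (om l x)) x := by
  have h1 : (eabs fun x => U (om l x) * y x) = fun x => eabs (fun x => U (om l x)) x * eabs y x := by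
    funext x
    simp only [eabs, abs_mul, ENNReal.ofReal_mul (abs_nonneg _)]
  rw [h1, marg_mul_left _ (measurable_eabs hm), mul_comm]
  · exact mul_le_mul_left (hl x) _
  · intro x y h
    have : om l x = om l y := funext fun i => h _ (by simp)
    simp only [eabs, this]

theorem HMicro_marg_om {ω : (Fin 3 → R3) → ℝ} {K : ℝ} (h : ∀ j, MargLe {j} (eabs ω) K)
    {j l : Fin 4} (hjl : l ≠ j) : MargLe {l} (eabs fun x => ω (om j x)) K := fun x => by
  obtain ⟨i, rfl⟩ := Fin.exists_succAbove_eq hjl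
  have h1 := h i (om j x)
  rw [marg_single] at h1 ⊢
  refine le_trans (le_of_eq (lintegral_congr fun y => ?_)) h1
  exact congrArg (eabs ω) (Function.update_comp_eq_of_injective x Fin.succAbove_right_injective i y)

section sig

variable {ω : (Fin 3 → R3) → ℝ} {K : ℝ}

theorem HMicro_sig_meas (h : Measurable ω) (l : Fin 4) : Measurable (sig4 ω l) :=
  Finset.measurable_sum _ fun j _ => h.comp (HMicro_om_meas j)

theorem HMicro_sig_ti (h : TI ω) (l : Fin 4) : TI (sig4 ω l) := fun x a =>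
  Finset.sum_congr rfl fun j _ => HMicro_om_ti h j x a

theorem HMicro_sig_perm (h : Symm ω) (l : Fin 4) (π : Equiv.Perm (Fin 4)) (x : Fin 4 → R3) :
    sig4 ω l (x ∘ π) = sig4 ω (π l) x :=
  Finset.sum_equiv π (fun j => by simp) fun j _ => HMicro_om_perm h j π x

theorem HMicro_sig_le {l : Fin 4} {x : Fin 4 → R3} {c : ℝ} (h : ∀ j, j ≠ l → |ω (om j x)| ≤ c) :
    |sig4 ω l x| ≤ 3 * c := by
  refine (Finset.abs_sum_le_sum_abs _ _).trans
    ((Finset.sum_le_card_nsmul _ _ c fun j hj => h j (Finset.mem_erase.mp hj).1).trans ?_)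
  simp

theorem HMicro_sig_mg (hm : Measurable ω) (h : ∀ j, MargLe {j} (eabs ω) K)
    (l : Fin 4) : MargLe {l} (eabs (sig4 ω l)) (3 * K) := by
  have := HMicro_margLe_sum (Finset.univ.erase l) (f := fun j x => ω (om j x))
    (fun j _ => hm.comp (HMicro_om_meas j))
    fun j hj => HMicro_marg_om h (Finset.mem_erase.mp hj).1.symm
  have h3 : (((Finset.univ : Finset (Fin 4)).erase l).card : ℝ) = 3 := by simp
  rwa [h3] at this

theorem HMicro_sig_pd {U : (Fin 3 → R3) → ℝ} {C : ℝ} (h : Pot3 U K) (hC : 0 ≤ C) (hp : PD ω C)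
    {l a : Fin 4} (ha : a ≠ l) {x : Fin 4 → R3} (hx : U (om l x) ≠ 0) :
    |sig4 ω l x| ≤ 6 * C * (1 + K ^ 2) * hw 1 (x a - x l) := by
  refine (HMicro_sig_le (c := C * (2 * (1 + K ^ 2) * hw 1 (x a - x l))) fun j hj => ?_).trans
    (le_of_eq (by ring))
  obtain ⟨c, hcj, hcl⟩ := (by decide : ∀ j l : Fin 4, ∃ c : Fin 4, c ≠ j ∧ c ≠ l) j l
  have h1 := HMicro_hw_shift (c := x l) (HMicro_om_supp h hx ha hcl)
  obtain ⟨i, hi⟩ := Fin.exists_succAbove_eq hcj
  obtain ⟨i', hi'⟩ := Fin.exists_succAbove_eq hj.symm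
  have h2 := hp (om j x) i i' fun e => hcl (by rw [← hi, ← hi', e])
  simp only [om, hi, hi'] at h2
  exact h2.trans (mul_le_mul_of_nonneg_left h1 hC)

theorem HMicro_sig_pd' {U : (Fin 3 → R3) → ℝ} {C : ℝ} (h : Pot3 U K) (hC : 0 ≤ C) (hp : PD ω C)
    {l a b : Fin 4} (hab : a ≠ b) {x : Fin 4 → R3} (hx : U (om l x) ≠ 0) :
    |sig4 ω l x| ≤ 6 * C * (1 + K ^ 2) * (1 + K ^ 2) * hw 1 (x a - x b) := by
  have h0 : 0 ≤ 6 * C * (1 + K ^ 2) := by positivity
  have h1 : hw 1 (x a - x b) ≤ (1 + K ^ 2) * hw 1 (x a - x b) :=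
    le_mul_of_one_le_left (HMicro_hw_pos _).le (by nlinarith)
  rw [mul_assoc _ (1 + K ^ 2) (hw 1 _)]
  by_cases hb : b = l
  · subst hb
    exact (HMicro_sig_pd h hC hp hab hx).trans (mul_le_mul_of_nonneg_left h1 h0)
  by_cases ha : a = l
  · subst ha
    refine (HMicro_sig_pd h hC hp hb hx).trans (mul_le_mul_of_nonneg_left ?_ h0)
    rwa [HMicro_hw_comm]
  · exact (HMicro_sig_pd h hC hp ha hx).trans (mul_le_mul_of_nonneg_left
      ((HMicro_hw_le_one _).trans (HMicro_one_le_hw (HMicro_om_supp h hx ha hb))) h0)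

end sig

end Pool.Agent.Lib.MP_8fe63c_mp
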