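import Pool.Agent.Lib.MP_8fe63c_mp.PDefs
import Pool.Agent.Lib.MP_8fe63c_mp.HMicro

/-!
Truncated second moments: the weight and the Green operator.
-/

set_option linter.unusedSectionVars false

open MeasureTheory Set Filter Topology
open scoped ENNReal InnerProductSpace

namespace Pool.Agent.Lib.MP_8fe63c_mp

variable {ι : Type} [Fintype ι] [DecidableEq ι]

/-- the truncated square at scale `s` -/
noncomputable def HMom_w (s : ℝ) (r : R3) : ℝ := min (‖r‖ ^ 2 / s ^ 2) 1

/-- the truncated square of a pair distance -/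
noncomputable def HMom_W (s : ℝ) (a b : ι) (y : ι → R3) : ℝ≥0∞ :=
  ENNReal.ofReal (HMom_w s (y a - y b))

theorem HMom_w_nonneg (s : ℝ) (r : R3) : 0 ≤ HMom_w s r :=
  le_min (by positivity) zero_le_one

theorem HMom_w_le_one (s : ℝ) (r : R3) : HMom_w s r ≤ 1 := min_le_right _ _

theorem HMom_w_le (s : ℝ) (r : R3) : HMom_w s r ≤ ‖r‖ ^ 2 / s ^ 2 := min_le_left _ _

theorem HMom_w_add (s : ℝ) (u v : R3) : HMom_w s (u + v) ≤ 2 * HMom_w s u + 2 * HMom_w s v := by
  have hu := HMom_w_nonneg s u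
  have hv := HMom_w_nonneg s v
  have h1 := HMom_w_le_one s (u + v)
  rcases le_total (‖u‖ ^ 2 / s ^ 2) 1 with h | h
  · rcases le_total (‖v‖ ^ 2 / s ^ 2) 1 with h' | h'
    · have e1 : HMom_w s u = ‖u‖ ^ 2 / s ^ 2 := min_eq_left h
      have e2 : HMom_w s v = ‖v‖ ^ 2 / s ^ 2 := min_eq_left h'
      have h2 : ‖u + v‖ ^ 2 ≤ (‖u‖ + ‖v‖) ^ 2 :=
        pow_le_pow_left₀ (norm_nonneg _) (norm_add_le u v) 2
      have h3 : ‖u + v‖ ^ 2 ≤ 2 * ‖u‖ ^ 2 + 2 * ‖v‖ ^ 2 := by
        nlinarith [sq_nonneg (‖u‖ - ‖v‖)]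
      refine (HMom_w_le s _).trans ?_
      rw [e1, e2, ← mul_div_assoc, ← mul_div_assoc, ← add_div]
      exact div_le_div_of_nonneg_right h3 (sq_nonneg s)
    · have e2 : HMom_w s v = 1 := min_eq_right h'
      linarith
  · have e1 : HMom_w s u = 1 := min_eq_right h
    linarith

theorem HMom_w_small {s K : ℝ} (hs : 1 ≤ s) {r : R3} (h : ‖r‖ ≤ K) : HMom_w s r ≤ K ^ 2 / s := by
  refine (HMom_w_le s r).trans ?_
  have h1 : ‖r‖ ^ 2 ≤ K ^ 2 := pow_le_pow_left₀ (norm_nonneg _) h 2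
  exact div_le_div₀ (sq_nonneg K) h1 (by linarith) (by nlinarith)

theorem HMom_w_hw {s : ℝ} (hs : 1 ≤ s) (r : R3) : hw 1 r * HMom_w s r ≤ 1 / s := by
  have h1 : hw 1 r * ‖r‖ ^ 2 ≤ 1 := by
    unfold hw
    rw [inv_mul_le_iff₀ (by positivity)]
    nlinarith
  calc hw 1 r * HMom_w s r ≤ hw 1 r * (‖r‖ ^ 2 / s ^ 2) :=
        mul_le_mul_of_nonneg_left (HMom_w_le s r) (HMicro_hw_pos r).le
    _ = hw 1 r * ‖r‖ ^ 2 / s ^ 2 := by ring
    _ ≤ 1 / s := div_le_div₀ zero_le_one h1 (by linarith) (by nlinarith)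

theorem HMom_W_meas (s : ℝ) (a b : ι) : Measurable (HMom_W s a b) := by
  unfold HMom_W HMom_w
  refine Measurable.ennreal_ofReal (Measurable.min ?_ measurable_const)
  exact ((((measurable_pi_apply a).sub (measurable_pi_apply b)).norm).pow_const 2).div_const _

theorem HMom_W_comm (s : ℝ) (a b : ι) : HMom_W s a b = HMom_W s b a := by
  funext y
  unfold HMom_W HMom_w
  rw [norm_sub_rev]

theorem HMom_W_self (s : ℝ) (a : ι) (y : ι → R3) : HMom_W s a a y = 0 := by
  simp [HMom_W, HMom_w]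

theorem HMom_W_ti (s : ℝ) (a b : ι) : TI (HMom_W s a b) := fun x c => by
  simp only [HMom_W, add_sub_add_right_eq_sub]

theorem HMom_w_pk (hι : Fintype.card ι ≤ 4) {s t : ℝ} (ht : 0 < t) (a b : ι) (z : ι → R3) :
    pk t z * HMom_w s (z a - z b) ≤ 2916 * min 1 (t / s ^ 2) * pk (2 * t) z := by
  have hp := (pk_pos ht z).le
  have hp2 := (pk_pos (show 0 < 2 * t by positivity) z).le
  have h3 : (3 : ℝ) ^ Fintype.card ι ≤ 3 ^ 4 := pow_le_pow_right₀ (by norm_num) hι
  rcases le_total 1 (t / s ^ 2) with h | h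
  · rw [min_eq_left h]
    have h1 := pk_le_double ht z
    have h2 := mul_le_mul_of_nonneg_right h3 hp2
    have h4 := mul_le_mul_of_nonneg_left (HMom_w_le_one s (z a - z b)) hp
    nlinarith
  · rw [min_eq_right h]
    have ha := HKer_sq_mul_pk_le ht z a
    have hb := HKer_sq_mul_pk_le ht z b
    have h2 : ‖z a - z b‖ ^ 2 ≤ (‖z a‖ + ‖z b‖) ^ 2 :=
      pow_le_pow_left₀ (norm_nonneg _) (norm_sub_le _ _) 2
    have h4 : ‖z a - z b‖ ^ 2 ≤ 2 * ‖z a‖ ^ 2 + 2 * ‖z b‖ ^ 2 := by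
      nlinarith [sq_nonneg (‖z a‖ - ‖z b‖)]
    have h5 : (3 : ℝ) ^ (Fintype.card ι + 2) * t * pk (2 * t) z ≤ 729 * (t * pk (2 * t) z) := by
      rw [pow_add, mul_assoc]
      exact mul_le_mul_of_nonneg_right (by linarith) (mul_nonneg ht.le hp2)
    have h6 : pk t z * ‖z a - z b‖ ^ 2 ≤ 2916 * (t * pk (2 * t) z) := by
      have := mul_le_mul_of_nonneg_left h4 hp
      linarith
    calc pk t z * HMom_w s (z a - z b) ≤ pk t z * (‖z a - z b‖ ^ 2 / s ^ 2) :=
          mul_le_mul_of_nonneg_left (HMom_w_le s _) hp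
      _ = pk t z * ‖z a - z b‖ ^ 2 / s ^ 2 := by ring
      _ ≤ 2916 * (t * pk (2 * t) z) / s ^ 2 := div_le_div_of_nonneg_right h6 (sq_nonneg s)
      _ = _ := by ring

theorem HMom_lheat (hι : Fintype.card ι ≤ 4) {Φ : (ι → R3) → ℝ≥0∞} (h : Measurable Φ) {s t : ℝ}
    (ht : 0 < t) (a b : ι) (y : ι → R3) :
    lheat t Φ y * HMom_W s a b y ≤ 2 * lheat t (fun x => Φ x * HMom_W s a b x) y +
      ENNReal.ofReal (5832 * min 1 (t / s ^ 2)) * lheat (2 * t) Φ y := by
  have hy : Measurable fun z : ι → R3 => Φ (y - z) := h.comp (measurable_id.const_sub y)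
  have hW : Measurable fun z : ι → R3 => HMom_W s a b (y - z) :=
    (HMom_W_meas s a b).comp (measurable_id.const_sub y)
  have m1 : Measurable fun z : ι → R3 => ENNReal.ofReal (pk t z) * Φ (y - z) :=
    (HMarg_meas_pk t).mul hy
  have m2 : Measurable fun z : ι → R3 =>
      ENNReal.ofReal (pk t z) * (Φ (y - z) * HMom_W s a b (y - z)) :=
    (HMarg_meas_pk t).mul (hy.mul hW)
  have m3 : Measurable fun z : ι → R3 => ENNReal.ofReal (pk (2 * t) z) * Φ (y - z) :=
    (HMarg_meas_pk (2 * t)).mul hy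
  have hm0 : 0 ≤ min 1 (t / s ^ 2) := le_min zero_le_one (by positivity)
  unfold lheat
  rw [← lintegral_mul_const _ m1, ← lintegral_const_mul _ m2, ← lintegral_const_mul _ m3,
    ← lintegral_add_left (m2.const_mul 2)]
  refine lintegral_mono fun z => ?_
  have hp := (pk_pos ht z).le
  have e : y a - y b = ((y - z) a - (y - z) b) + (z a - z b) := by
    simp only [Pi.sub_apply]
    abel
  have h1 : pk t z * HMom_w s (y a - y b) ≤ 2 * (pk t z * HMom_w s ((y - z) a - (y - z) b)) +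
      5832 * min 1 (t / s ^ 2) * pk (2 * t) z := by
    have h2 := mul_le_mul_of_nonneg_left (e ▸ HMom_w_add s ((y - z) a - (y - z) b) (z a - z b)) hp
    have h3 := HMom_w_pk hι (s := s) ht a b z
    linarith
  have h4 := ENNReal.ofReal_le_ofReal h1
  rw [ENNReal.ofReal_add (mul_nonneg zero_le_two (mul_nonneg hp (HMom_w_nonneg _ _)))
      (mul_nonneg (by positivity) (pk_pos (by positivity) z).le),
    ENNReal.ofReal_mul hp, ENNReal.ofReal_mul zero_le_two, ENNReal.ofReal_mul hp,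
    ENNReal.ofReal_mul (p := 5832 * min 1 (t / s ^ 2)) (by positivity), ENNReal.ofReal_ofNat] at h4
  calc ENNReal.ofReal (pk t z) * Φ (y - z) * HMom_W s a b y
      = ENNReal.ofReal (pk t z) * ENNReal.ofReal (HMom_w s (y a - y b)) * Φ (y - z) := by
        unfold HMom_W
        ring
    _ ≤ _ := mul_le_mul_left h4 _
    _ = _ := by
        unfold HMom_W
        ring

theorem HMom_int {s c : ℝ} (hs : 1 ≤ s) (hc : 0 ≤ c) :
    ∫⁻ t in Ioi (0 : ℝ), ENNReal.ofReal (min 1 (t / s ^ 2) * (t ^ (-(3 / 2 : ℝ)) * c)) ≤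
      ENNReal.ofReal (4 * c / s) := by
  have hs0 : 0 < s := by linarith
  have hs2 : 0 < s ^ 2 := by positivity
  have e1 : (s ^ 2) ^ (1 / 2 : ℝ) = s := by
    rw [← Real.sqrt_eq_rpow, Real.sqrt_sq hs0.le]
  have h1 : ∫⁻ t in Ioc (0 : ℝ) (s ^ 2),
      ENNReal.ofReal (min 1 (t / s ^ 2) * (t ^ (-(3 / 2 : ℝ)) * c)) ≤
      ENNReal.ofReal (2 * c / s) := by
    have hi : IntegrableOn (fun t : ℝ => t ^ (-(1 / 2) : ℝ)) (Ioc 0 (s ^ 2)) :=
      (intervalIntegrable_iff_integrableOn_Ioc_of_le hs2.le).1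
        (intervalIntegral.intervalIntegrable_rpow' (by norm_num))
    calc _ ≤ ∫⁻ t in Ioc (0 : ℝ) (s ^ 2), ENNReal.ofReal (t ^ (-(1 / 2) : ℝ) * (c / s ^ 2)) := by
          refine setLIntegral_mono' measurableSet_Ioc fun t ht => ENNReal.ofReal_le_ofReal ?_
          have ht0 : 0 < t := ht.1
          have e2 : t ^ (-(1 / 2) : ℝ) = t * t ^ (-(3 / 2 : ℝ)) := by
            rw [show (-(1 / 2) : ℝ) = 1 + -(3 / 2) by norm_num, Real.rpow_add ht0, Real.rpow_one]
          rw [e2]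
          refine (mul_le_mul_of_nonneg_right (min_le_right _ _)
            (mul_nonneg (Real.rpow_nonneg ht0.le _) hc)).trans (le_of_eq (by ring))
      _ = ENNReal.ofReal (∫ t in Ioc (0 : ℝ) (s ^ 2), t ^ (-(1 / 2) : ℝ) * (c / s ^ 2)) := by
          rw [ofReal_integral_eq_lintegral_ofReal (hi.mul_const _)]
          refine (ae_restrict_iff' measurableSet_Ioc).2 (Eventually.of_forall fun t ht => ?_)
          exact mul_nonneg (Real.rpow_nonneg ht.1.le _) (by positivity)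
      _ = _ := by
          rw [integral_mul_const, ← intervalIntegral.integral_of_le hs2.le,
            integral_rpow (Or.inl (by norm_num)),
            show (-(1 / 2) : ℝ) + 1 = 1 / 2 by norm_num, e1, Real.zero_rpow (by norm_num)]
          congr 1
          field_simp
          ring
  have h2 : ∫⁻ t in Ioi (s ^ 2),
      ENNReal.ofReal (min 1 (t / s ^ 2) * (t ^ (-(3 / 2 : ℝ)) * c)) ≤
      ENNReal.ofReal (2 * c / s) := by
    have hi : IntegrableOn (fun t : ℝ => t ^ (-(3 / 2) : ℝ)) (Ioi (s ^ 2)) :=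
      integrableOn_Ioi_rpow_of_lt (by norm_num) hs2
    calc _ ≤ ∫⁻ t in Ioi (s ^ 2), ENNReal.ofReal (t ^ (-(3 / 2) : ℝ) * c) := by
          refine setLIntegral_mono' measurableSet_Ioi fun t ht => ENNReal.ofReal_le_ofReal ?_
          have ht0 : 0 < t := hs2.trans ht
          exact mul_le_of_le_one_left (mul_nonneg (Real.rpow_nonneg ht0.le _) hc) (min_le_left _ _)
      _ = ENNReal.ofReal (∫ t in Ioi (s ^ 2), t ^ (-(3 / 2) : ℝ) * c) := by
          rw [ofReal_integral_eq_lintegral_ofReal (hi.mul_const _)]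
          refine (ae_restrict_iff' measurableSet_Ioi).2 (Eventually.of_forall fun t ht => ?_)
          exact mul_nonneg (Real.rpow_nonneg (hs2.trans ht).le _) hc
      _ = _ := by
          rw [integral_mul_const, integral_Ioi_rpow_of_lt (by norm_num) hs2,
            show (-(3 / 2) : ℝ) + 1 = -(1 / 2) by norm_num, Real.rpow_neg hs2.le, e1]
          congr 1
          field_simp
  rw [← Ioc_union_Ioi_eq_Ioi hs2.le]
  refine (lintegral_union_le _ _ _).trans ((add_le_add h1 h2).trans ?_)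
  rw [← ENNReal.ofReal_add (by positivity) (by positivity)]
  exact ENNReal.ofReal_le_ofReal (le_of_eq (by ring))

theorem HMom_lgreen (Φ : (ι → R3) → ℝ≥0∞) (B B' s : ℝ) (a b : ι) (h3 : 3 ≤ Fintype.card ι)
    (h4 : Fintype.card ι ≤ 4) (h : Measurable Φ) (hB : 0 ≤ B) (hB' : 0 ≤ B') (hs : 1 ≤ s)
    (hm : ∀ A : Finset ι, A ≠ Finset.univ → MargLe A Φ B)
    (hm' : ∀ A : Finset ι, A ≠ Finset.univ → MargLe A (fun y => Φ y * HMom_W s a b y) B') :
    MargLe {b} (fun y => lgreen 0 Φ y * HMom_W s a b y) (23328 * (B' + B / s)) := by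
  intro x
  have hW := HMom_W_meas s a b
  have hΦW : Measurable fun y => Φ y * HMom_W s a b y := h.mul hW
  obtain ⟨c, hcb⟩ := Fintype.exists_ne_of_one_lt_card (show 1 < Fintype.card ι by omega) b
  have hne : ({b, c} : Finset ι) ≠ Finset.univ := fun e => by
    have := Finset.card_le_two (a := b) (b := c)
    rw [e, Finset.card_univ] at this
    omega
  have hcard : (({b, c} : Finset ι) \ {b}).card = 1 := by
    rw [Finset.card_sdiff_of_subset (by simp), Finset.card_pair hcb.symm, Finset.card_singleton]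
  have e1 : (fun y => lgreen 0 Φ y * HMom_W s a b y) = fun y => ∫⁻ t in Ioi (0 : ℝ),
      ENNReal.ofReal (Real.exp (-(0 ^ 2) * t)) * lheat t Φ y * HMom_W s a b y := by
    funext y
    unfold lgreen
    rw [lintegral_mul_const' _ _ (show HMom_W s a b y ≠ ⊤ from ENNReal.ofReal_ne_top)]
  have key : ∀ t : ℝ, 0 < t → marg {b} (fun y =>
      ENNReal.ofReal (Real.exp (-(0 ^ 2) * t)) * lheat t Φ y * HMom_W s a b y) x ≤
      2 * (ENNReal.ofReal (Real.exp (-(0 ^ 2) * t)) *
        marg {b} (lheat t fun y => Φ y * HMom_W s a b y) x) +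
      ENNReal.ofReal (min 1 (t / s ^ 2) * (t ^ (-(3 / 2 : ℝ)) * (5832 * B))) := by
    intro t ht
    have e0 : ENNReal.ofReal (Real.exp (-(0 ^ 2) * t)) = 1 := by simp
    have hm0 : 0 ≤ min 1 (t / s ^ 2) := le_min zero_le_one (by positivity)
    simp only [e0, one_mul]
    refine (marg_mono _ (HMom_lheat h4 h ht a b) x).trans ?_
    rw [marg_add _ ((HMarg_meas_lheat t hΦW).const_mul 2),
      marg_mul_left _ (HMarg_meas_lheat t hΦW) (c := fun _ => 2) (fun _ _ _ => rfl),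
      marg_mul_left _ (HMarg_meas_lheat (2 * t) h)
        (c := fun _ => ENNReal.ofReal (5832 * min 1 (t / s ^ 2))) (fun _ _ _ => rfl)]
    refine add_le_add le_rfl ?_
    have h1 := marg_lheat_le h (A := {b}) (A' := {b, c}) (by simp) (hm _ hne)
      (show 0 < 2 * t by positivity) x
    rw [hcard, Nat.cast_one, mul_one] at h1
    refine (mul_le_mul_right h1 _).trans ?_
    rw [← ENNReal.ofReal_mul (by positivity)]
    refine ENNReal.ofReal_le_ofReal ?_
    have h2 : (2 * t) ^ (-(3 / 2 : ℝ)) ≤ t ^ (-(3 / 2 : ℝ)) :=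
      Real.rpow_le_rpow_of_nonpos ht (by linarith) (by norm_num)
    calc 5832 * min 1 (t / s ^ 2) * ((2 * t) ^ (-(3 / 2 : ℝ)) * B)
        ≤ 5832 * min 1 (t / s ^ 2) * (t ^ (-(3 / 2 : ℝ)) * B) :=
          mul_le_mul_of_nonneg_left (mul_le_mul_of_nonneg_right h2 hB) (by positivity)
      _ = _ := by ring
  have mk : Measurable fun t : ℝ =>
      ENNReal.ofReal (min 1 (t / s ^ 2) * (t ^ (-(3 / 2 : ℝ)) * (5832 * B))) := by
    refine Measurable.ennreal_ofReal ?_
    exact (measurable_const.min (measurable_id.div_const _)).mul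
      ((measurable_id.pow_const _).mul_const _)
  have hg := marg_lgreen_le hΦW hB' hm' 0 (A := {b}) (by rw [Finset.card_singleton]; omega) x
  rw [HMarg_lgreen hΦW] at hg
  rw [e1, HMarg_swap (volume.restrict (Ioi (0 : ℝ))) {b} (F := fun y t =>
    ENNReal.ofReal (Real.exp (-(0 ^ 2) * t)) * lheat t Φ y * HMom_W s a b y)
    ((HMarg_meas_gker 0 h).mul (hW.comp measurable_fst))]
  refine (setLIntegral_mono' measurableSet_Ioi fun t ht => key t ht).trans ?_
  rw [lintegral_add_right _ mk, lintegral_const_mul' _ _ ENNReal.ofNat_ne_top]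
  refine (add_le_add (mul_le_mul_right hg 2) (HMom_int hs (by positivity))).trans ?_
  rw [← ENNReal.ofReal_ofNat 2, ← ENNReal.ofReal_mul zero_le_two,
    ← ENNReal.ofReal_add (by positivity) (by positivity)]
  refine ENNReal.ofReal_le_ofReal ?_
  have : 4 * (5832 * B) / s = 23328 * (B / s) := by ring
  rw [this]
  linarith

end Pool.Agent.Lib.MP_8fe63c_mp
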