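import Pool.Agent.Lib.MP_8fe63c_mp.HGreen

/-!
Construction of scattering solutions by monotone iteration.

Sketch. Resolvent identity in `ℝ≥0∞`: for `0 ≤ δ < M`,
`lgreen δ Φ = lgreen M Φ + (M^2 - δ^2) lgreen δ (lgreen M Φ)` (Tonelli, `lheat_lheat`, and
`∫_0^u exp(-δ^2 s) exp(-M^2 (u-s)) ds = (exp(-δ^2 u) - exp(-M^2 u))/(M^2 - δ^2)`); the operators commute.
Let `M^2 = MU + 1`, `ψ 0 = 0`, `ψ (n+1) = lgreen M (S + (M^2 - 𝒰) ψ n)`; increasing, bounded by
`lgreen 0 S`; the supremum `ψ` solves the fixed point equation (monotone convergence). With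
`a = lgreen 0 S`, `c = lgreen 0 (𝒰 ψ)` (finite by hypothesis) show `ψ + c = a`: both `h₁ = ψ + c` and
`h₂ = a` satisfy `h = lgreen M S + M^2 lgreen M h`; the bounded difference `h` satisfies
`h = M^2 G_M h`, hence by the resolvent identity `h = δ^2 G_δ h` for all small `δ > 0`, and
`δ^2 G_δ (a + c) → 0` because `lheat t (lgreen 0 Φ) ≤ ∫_t^∞ lheat s Φ ds → 0` uniformly.
-/

set_option linter.unusedSectionVars false

open MeasureTheory Set Filter Topology
open scoped ENNReal InnerProductSpace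

namespace Pool.Agent.Lib.MP_8fe63c_mp

variable {ι : Type} [Fintype ι] [DecidableEq ι]

/-- the space-time measure of the Green operator -/
noncomputable def HScat_gm (ι : Type) [Fintype ι] (m : ℝ) : Measure (ℝ × (ι → R3)) :=
  ((volume.restrict (Ioi (0 : ℝ))).prod volume).withDensity
    fun p => ENNReal.ofReal (Real.exp (-(m ^ 2) * p.1)) * ENNReal.ofReal (pk p.1 p.2)

theorem HScat_meas {X : Type} [MeasurableSpace X] {Φ : (ι → R3) → ℝ≥0∞} (h : Measurable Φ)
    {f : X → ℝ} {g : X → ι → R3} (hf : Measurable f) (hg : Measurable g) :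
    Measurable fun a => lheat (f a) Φ (g a) := by
  have := (measurable_lheat h).comp (hf.prodMk hg)
  simpa only [Function.comp_def] using this

theorem HScat_rep {Φ : (ι → R3) → ℝ≥0∞} (h : Measurable Φ) (m : ℝ) (x : ι → R3) :
    lgreen m Φ x = ∫⁻ p, Φ (x - p.2) ∂(HScat_gm ι m) := by
  have h1 : Measurable fun p : ℝ × (ι → R3) =>
      ENNReal.ofReal (Real.exp (-(m ^ 2) * p.1)) * ENNReal.ofReal (pk p.1 p.2) :=
    (by fun_prop : Measurable fun p : ℝ × (ι → R3) =>
      ENNReal.ofReal (Real.exp (-(m ^ 2) * p.1))).mul measurable_pk.ennreal_ofReal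
  have h2 : Measurable fun p : ℝ × (ι → R3) => Φ (x - p.2) :=
    h.comp (measurable_const.sub measurable_snd)
  rw [HScat_gm, lintegral_withDensity_eq_lintegral_mul _ h1 h2,
    lintegral_prod _ (h1.mul h2).aemeasurable, lgreen]
  refine lintegral_congr fun t => ?_
  rw [lheat, ← lintegral_const_mul' _ _ ENNReal.ofReal_ne_top]
  refine lintegral_congr fun z => ?_
  simp only [Pi.mul_apply, mul_assoc]

theorem HScat_mono {Φ Ψ : (ι → R3) → ℝ≥0∞} (h : ∀ x, Φ x ≤ Ψ x) (m : ℝ) (x : ι → R3) :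
    lgreen m Φ x ≤ lgreen m Ψ x :=
  lintegral_mono fun _ => mul_le_mul_right (lintegral_mono fun _ => mul_le_mul_right (h _) _) _

theorem HScat_add {Φ Ψ : (ι → R3) → ℝ≥0∞} (h : Measurable Φ) (h' : Measurable Ψ) (m : ℝ)
    (x : ι → R3) : lgreen m (fun y => Φ y + Ψ y) x = lgreen m Φ x + lgreen m Ψ x := by
  rw [HScat_rep (h.fun_add h'), HScat_rep h, HScat_rep h']
  exact lintegral_add_left (h.comp (measurable_const.sub measurable_snd)) _

theorem HScat_const_mul {Φ : (ι → R3) → ℝ≥0∞} (h : Measurable Φ) (c : ℝ≥0∞) (m : ℝ)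
    (x : ι → R3) : lgreen m (fun y => c * Φ y) x = c * lgreen m Φ x := by
  rw [HScat_rep (h.const_mul c), HScat_rep h]
  exact lintegral_const_mul c (h.comp (measurable_const.sub measurable_snd))

theorem HScat_iSup {Φ : ℕ → (ι → R3) → ℝ≥0∞} (h : ∀ n, Measurable (Φ n)) (hm : Monotone Φ) (m : ℝ)
    (x : ι → R3) : lgreen m (fun y => ⨆ n, Φ n y) x = ⨆ n, lgreen m (Φ n) x := by
  rw [HScat_rep (Measurable.iSup h)]
  simp only [HScat_rep (h _)]
  exact lintegral_iSup (fun n => (h n).comp (measurable_const.sub measurable_snd))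
    fun a b hab p => hm hab _

theorem HScat_TI {Φ : (ι → R3) → ℝ≥0∞} (h : TI Φ) (m : ℝ) : TI (lgreen m Φ) := by
  intro x a
  refine lintegral_congr fun t => congrArg _ (lintegral_congr fun z => congrArg _ ?_)
  rw [← h (x - z) a]
  refine congrArg _ (funext fun i => ?_)
  simp only [Pi.sub_apply]
  abel

theorem HScat_Symm {Φ : (ι → R3) → ℝ≥0∞} (h : Symm Φ) (m : ℝ) : Symm (lgreen m Φ) := by
  intro π x
  refine lintegral_congr fun t => congrArg _ ?_
  have hp := volume_preserving_arrowCongr' π.symm (MeasurableEquiv.refl R3)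
    (MeasurePreserving.id volume)
  rw [lheat, lheat, hp.lintegral_map_equiv]
  refine lintegral_congr fun w => ?_
  change ENNReal.ofReal (pk t (w ∘ π)) * Φ ((x - w) ∘ π) = _
  rw [pk_perm, h]

theorem HScat_shift (f : ℝ → ℝ≥0∞) (a b : ℝ) (hab : a ≤ b) {s : ℝ} (hs : 0 < s) :
    ENNReal.ofReal (b - a) * (ENNReal.ofReal (Real.exp (-a * s)) *
      ∫⁻ t in Ioi (0 : ℝ), ENNReal.ofReal (Real.exp (-b * t)) * f (s + t)) =
    ∫⁻ u in Ioi (0 : ℝ), (if s < u then
      ENNReal.ofReal ((b - a) * Real.exp (-a * s - b * (u - s))) * f u else 0) := by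
  rw [← lintegral_const_mul' _ _ ENNReal.ofReal_ne_top,
    ← lintegral_const_mul' _ _ ENNReal.ofReal_ne_top, ← lintegral_indicator measurableSet_Ioi,
    ← lintegral_indicator measurableSet_Ioi, ← lintegral_add_left_eq_self (μ := volume)
      (Set.indicator (Ioi (0 : ℝ)) fun u => if s < u then
        ENNReal.ofReal ((b - a) * Real.exp (-a * s - b * (u - s))) * f u else 0) s]
  refine lintegral_congr fun t => ?_
  by_cases ht : 0 < t
  · rw [indicator_of_mem (show t ∈ Ioi (0 : ℝ) from ht),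
      indicator_of_mem (show s + t ∈ Ioi (0 : ℝ) from add_pos hs ht),
      if_pos (lt_add_of_pos_right s ht), ENNReal.ofReal_mul (sub_nonneg.2 hab),
      show -a * s - b * (s + t - s) = -a * s + -b * t by ring, Real.exp_add,
      ENNReal.ofReal_mul (Real.exp_pos _).le]
    ring
  · rw [indicator_of_notMem (show t ∉ Ioi (0 : ℝ) from ht), indicator_apply,
      if_neg (show ¬ s < s + t by linarith [not_lt.1 ht]), ite_self]

theorem HScat_inner (c : ℝ≥0∞) (a b : ℝ) (hab : a ≤ b) {u : ℝ} (hu : 0 < u) :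
    ∫⁻ s in Ioi (0 : ℝ), (if s < u then
      ENNReal.ofReal ((b - a) * Real.exp (-a * s - b * (u - s))) * c else 0) =
    ENNReal.ofReal (Real.exp (-a * u) - Real.exp (-b * u)) * c := by
  have hc : Continuous fun s : ℝ => (b - a) * Real.exp (-a * s - b * (u - s)) := by fun_prop
  have h1 : ∫ s in (0 : ℝ)..u, (b - a) * Real.exp (-a * s - b * (u - s)) =
      Real.exp (-a * u) - Real.exp (-b * u) := by
    rw [intervalIntegral.integral_eq_sub_of_hasDerivAt
      (f := fun s => Real.exp (-a * s - b * (u - s))) (fun s _ => ?_) (hc.intervalIntegrable _ _)]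
    · simp
    · have h2 : HasDerivAt (fun s : ℝ => -a * s - b * (u - s)) (-a * 1 - b * (0 - 1)) s :=
        ((hasDerivAt_id s).const_mul (-a)).sub
          (((hasDerivAt_const s u).sub (hasDerivAt_id s)).const_mul b)
      exact h2.exp.congr_deriv (by ring)
  have h3 : (fun s : ℝ => if s < u then
      ENNReal.ofReal ((b - a) * Real.exp (-a * s - b * (u - s))) * c else 0) =
      Set.indicator (Iio u)
        fun s => ENNReal.ofReal ((b - a) * Real.exp (-a * s - b * (u - s))) * c := by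
    funext s
    rw [indicator_apply]
    rfl
  rw [h3, lintegral_indicator measurableSet_Iio, Measure.restrict_restrict measurableSet_Iio,
    Iio_inter_Ioi, lintegral_mul_const _ hc.measurable.ennreal_ofReal, ← h1,
    intervalIntegral.integral_of_le hu.le, integral_Ioc_eq_integral_Ioo,
    ofReal_integral_eq_lintegral_ofReal
      ((hc.integrableOn_Icc (a := 0) (b := u)).mono_set Ioo_subset_Icc_self)
      (Eventually.of_forall fun s => mul_nonneg (sub_nonneg.2 hab) (Real.exp_pos _).le)]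

theorem HScat_1d {f : ℝ → ℝ≥0∞} (hf : Measurable f) {a b : ℝ} (hab : a ≤ b) :
    ∫⁻ u in Ioi (0 : ℝ), ENNReal.ofReal (Real.exp (-a * u)) * f u =
      (∫⁻ u in Ioi (0 : ℝ), ENNReal.ofReal (Real.exp (-b * u)) * f u) +
        ENNReal.ofReal (b - a) * ∫⁻ s in Ioi (0 : ℝ), ENNReal.ofReal (Real.exp (-a * s)) *
          ∫⁻ t in Ioi (0 : ℝ), ENNReal.ofReal (Real.exp (-b * t)) * f (s + t) := by
  have hm : Measurable (Function.uncurry fun s u : ℝ => if s < u then
      ENNReal.ofReal ((b - a) * Real.exp (-a * s - b * (u - s))) * f u else 0) :=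
    Measurable.ite (measurableSet_lt measurable_fst measurable_snd)
      ((by fun_prop : Measurable fun p : ℝ × ℝ => ENNReal.ofReal ((b - a) *
        Real.exp (-a * p.1 - b * (p.2 - p.1)))).mul (hf.comp measurable_snd)) measurable_const
  rw [← lintegral_const_mul' _ _ ENNReal.ofReal_ne_top,
    setLIntegral_congr_fun measurableSet_Ioi (fun s hs => HScat_shift f a b hab hs),
    lintegral_lintegral_swap hm.aemeasurable,
    setLIntegral_congr_fun measurableSet_Ioi (fun u hu => HScat_inner (f u) a b hab hu),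
    ← lintegral_add_left ((by fun_prop : Measurable fun u : ℝ =>
      ENNReal.ofReal (Real.exp (-b * u))).fun_mul hf)]
  refine setLIntegral_congr_fun measurableSet_Ioi fun u hu => ?_
  have hu' : 0 < u := hu
  have h1 : Real.exp (-b * u) ≤ Real.exp (-a * u) := Real.exp_le_exp.2 (by nlinarith)
  rw [← add_mul, ← ENNReal.ofReal_add (Real.exp_pos _).le (sub_nonneg.2 h1), add_sub_cancel]

theorem HScat_lheat_lgreen {Φ : (ι → R3) → ℝ≥0∞} (h : Measurable Φ) (m : ℝ) {s : ℝ} (hs : 0 < s)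
    (x : ι → R3) : lheat s (lgreen m Φ) x =
      ∫⁻ t in Ioi (0 : ℝ), ENNReal.ofReal (Real.exp (-(m ^ 2) * t)) * lheat (s + t) Φ x := by
  have h1 : Measurable fun z : ι → R3 => ENNReal.ofReal (pk s z) :=
    (continuous_pk s).measurable.ennreal_ofReal
  have h2 : Measurable fun p : (ι → R3) × ℝ => lheat p.2 Φ (x - p.1) :=
    HScat_meas h measurable_snd (measurable_const.fun_sub measurable_fst)
  have hm : Measurable (Function.uncurry fun (z : ι → R3) (t : ℝ) => ENNReal.ofReal (pk s z) *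
      (ENNReal.ofReal (Real.exp (-(m ^ 2) * t)) * lheat t Φ (x - z))) :=
    (h1.comp measurable_fst).mul ((by fun_prop : Measurable fun p : (ι → R3) × ℝ =>
      ENNReal.ofReal (Real.exp (-(m ^ 2) * p.2))).mul h2)
  rw [lheat]
  simp only [lgreen, ← lintegral_const_mul' _ _ (ENNReal.ofReal_ne_top (r := pk s _))]
  rw [lintegral_lintegral_swap hm.aemeasurable]
  refine setLIntegral_congr_fun measurableSet_Ioi fun t ht => ?_
  rw [← lheat_lheat h hs ht, lheat, ← lintegral_const_mul' _ _ ENNReal.ofReal_ne_top]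
  exact lintegral_congr fun z => mul_left_comm _ _ _

theorem HScat_double {Φ : (ι → R3) → ℝ≥0∞} (h : Measurable Φ) (m m' : ℝ) (x : ι → R3) :
    lgreen m (lgreen m' Φ) x = ∫⁻ s in Ioi (0 : ℝ), ENNReal.ofReal (Real.exp (-(m ^ 2) * s)) *
      ∫⁻ t in Ioi (0 : ℝ), ENNReal.ofReal (Real.exp (-(m' ^ 2) * t)) * lheat (s + t) Φ x :=
  setLIntegral_congr_fun measurableSet_Ioi fun _ hs =>
    congrArg _ (HScat_lheat_lgreen h m' hs x)

theorem HScat_comm {Φ : (ι → R3) → ℝ≥0∞} (h : Measurable Φ) (m m' : ℝ) (x : ι → R3) :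
    lgreen m (lgreen m' Φ) x = lgreen m' (lgreen m Φ) x := by
  have hf : Measurable fun u : ℝ => lheat u Φ x :=
    HScat_meas h measurable_id' measurable_const
  have hm : Measurable (Function.uncurry fun s t : ℝ => ENNReal.ofReal (Real.exp (-(m ^ 2) * s)) *
      (ENNReal.ofReal (Real.exp (-(m' ^ 2) * t)) * lheat (s + t) Φ x)) :=
    (by fun_prop : Measurable fun p : ℝ × ℝ => ENNReal.ofReal (Real.exp (-(m ^ 2) * p.1))).mul
      ((by fun_prop : Measurable fun p : ℝ × ℝ =>
        ENNReal.ofReal (Real.exp (-(m' ^ 2) * p.2))).mul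
          (hf.comp (measurable_fst.add measurable_snd)))
  rw [HScat_double h, HScat_double h]
  simp only [← lintegral_const_mul' _ _ (ENNReal.ofReal_ne_top (r := Real.exp _))]
  rw [lintegral_lintegral_swap hm.aemeasurable]
  refine lintegral_congr fun t => lintegral_congr fun s => ?_
  rw [add_comm, mul_left_comm]

theorem lgreen_resolvent {Φ : (ι → R3) → ℝ≥0∞} (h : Measurable Φ) {δ M : ℝ} (h0 : 0 ≤ δ)
    (hδ : δ < M) (x : ι → R3) :
    lgreen δ Φ x = lgreen M Φ x + ENNReal.ofReal (M ^ 2 - δ ^ 2) * lgreen δ (lgreen M Φ) x ∧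
    lgreen δ (lgreen M Φ) x = lgreen M (lgreen δ Φ) x := by
  have hf : Measurable fun u : ℝ => lheat u Φ x :=
    HScat_meas h measurable_id' measurable_const
  refine ⟨?_, HScat_comm h δ M x⟩
  rw [HScat_double h]
  exact HScat_1d hf (pow_le_pow_left₀ h0 hδ.le 2)

theorem HScat_tendsto {Φ : (ι → R3) → ℝ≥0∞} (h : Measurable Φ) (x : ι → R3) :
    Tendsto (fun n : ℕ => lgreen (1 / ((n : ℝ) + 1) / 2) Φ x) atTop (𝓝 (lgreen 0 Φ x)) := by
  have hf : Measurable fun u : ℝ => lheat u Φ x :=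
    HScat_meas h measurable_id' measurable_const
  refine lintegral_tendsto_of_tendsto_of_monotone (fun n => ?_) ?_ (Eventually.of_forall fun t => ?_)
  · exact ((by fun_prop : Measurable fun t : ℝ =>
      ENNReal.ofReal (Real.exp (-((1 / ((n : ℝ) + 1) / 2) ^ 2) * t))).mul hf).aemeasurable
  · refine (ae_restrict_iff' measurableSet_Ioi).2 (Eventually.of_forall fun t ht => ?_)
    intro n n' hn
    have ht' : 0 < t := ht
    refine mul_le_mul_left (ENNReal.ofReal_le_ofReal (Real.exp_le_exp.2 ?_)) _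
    refine mul_le_mul_of_nonneg_right (neg_le_neg (pow_le_pow_left₀ (by positivity) ?_ 2)) ht'.le
    exact div_le_div_of_nonneg_right (Nat.one_div_le_one_div hn) (by norm_num)
  · refine ENNReal.Tendsto.mul_const (ENNReal.tendsto_ofReal ?_)
      (Or.inl (ENNReal.ofReal_pos.2 (Real.exp_pos _)).ne')
    have h1 : Tendsto (fun n : ℕ => 1 / ((n : ℝ) + 1) / 2) atTop (𝓝 0) := by
      have := (tendsto_one_div_add_atTop_nhds_zero_nat (𝕜 := ℝ)).div_const 2
      rwa [zero_div] at this
    exact ((by fun_prop : Continuous fun m : ℝ => Real.exp (-(m ^ 2) * t)).tendsto 0).comp h1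

/-- a bounded solution of the massive fixed point equation solves the massless equation -/
theorem HScat_fixed {S U W Ψ : (ι → R3) → ℝ≥0∞} (hS : Measurable S) (hU : Measurable U)
    (hW : Measurable W) (hΨ : Measurable Ψ) {M C : ℝ} (hM : 1 ≤ M)
    (hWU : ∀ y, W y + U y = ENNReal.ofReal (M ^ 2)) (hle : ∀ y, Ψ y ≤ lgreen 0 S y)
    (hC : ∀ y, Ψ y ≤ ENNReal.ofReal C) (heq : ∀ y, Ψ y = lgreen M (fun z => S z + W z * Ψ z) y)
    (x : ι → R3) : Ψ x + lgreen 0 (fun z => U z * Ψ z) x = lgreen 0 S x := by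
  have hUΨ : Measurable fun z => U z * Ψ z := hU.mul hΨ
  have h1 : ∀ y, Ψ y + lgreen M (fun z => U z * Ψ z) y =
      lgreen M S y + ENNReal.ofReal (M ^ 2) * lgreen M Ψ y := by
    intro y
    rw [← HScat_const_mul hΨ, ← HScat_add hS (hΨ.const_mul _)]
    nth_rw 1 [heq y]
    rw [← HScat_add (hS.fun_add (hW.fun_mul hΨ)) hUΨ]
    refine congrArg (fun F => lgreen M F y) (funext fun z => ?_)
    rw [← hWU z]
    ring
  have key : ∀ δ : ℝ, 0 < δ → δ < M → Ψ x + lgreen δ (fun z => U z * Ψ z) x =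
      lgreen δ S x + ENNReal.ofReal (δ ^ 2) * lgreen δ Ψ x := by
    intro δ hδ hδM
    have h2 : lgreen δ Ψ x + lgreen δ (lgreen M fun z => U z * Ψ z) x =
        lgreen δ (lgreen M S) x + ENNReal.ofReal (M ^ 2) * lgreen δ (lgreen M Ψ) x := by
      rw [← HScat_add hΨ (measurable_lgreen M hUΨ), ← HScat_const_mul (measurable_lgreen M hΨ),
        ← HScat_add (measurable_lgreen M hS) ((measurable_lgreen M hΨ).const_mul _)]
      exact congrArg (fun F => lgreen δ F x) (funext h1)
    have r1 := (lgreen_resolvent hUΨ hδ.le hδM x).1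
    have r2 := (lgreen_resolvent hS hδ.le hδM x).1
    have r3 := (lgreen_resolvent hΨ hδ.le hδM x).1
    have hk : ENNReal.ofReal (M ^ 2) = ENNReal.ofReal (δ ^ 2) + ENNReal.ofReal (M ^ 2 - δ ^ 2) := by
      rw [← ENNReal.ofReal_add (sq_nonneg _) (sub_nonneg.2 (pow_le_pow_left₀ hδ.le hδM.le 2)),
        add_sub_cancel]
    have hfin : lgreen δ Ψ x ≠ ∞ := by
      have h3 := marg_lgreen_le' hΨ (A := ∅) (B := C) (fun y => by rw [marg_empty]; exact hC y) hδ x
      rw [marg_empty] at h3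
      exact ne_top_of_le_ne_top ENNReal.ofReal_ne_top h3
    set k := ENNReal.ofReal (M ^ 2 - δ ^ 2) with hkdef
    refine (ENNReal.add_left_inj (ENNReal.mul_ne_top (a := k) ENNReal.ofReal_ne_top hfin)).1 ?_
    calc Ψ x + lgreen δ (fun z => U z * Ψ z) x + k * lgreen δ Ψ x
        = (Ψ x + lgreen M (fun z => U z * Ψ z) x) +
            k * (lgreen δ Ψ x + lgreen δ (lgreen M fun z => U z * Ψ z) x) := by
          rw [r1]; ring
      _ = (lgreen M S x + k * lgreen δ (lgreen M S) x) +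
            ENNReal.ofReal (M ^ 2) * (lgreen M Ψ x + k * lgreen δ (lgreen M Ψ) x) := by
          rw [h1, h2]; ring
      _ = _ := by rw [← r2, ← r3, hk]; ring
  have hpos : ∀ n : ℕ, 0 < 1 / ((n : ℝ) + 1) / 2 := fun n => by positivity
  have hlt : ∀ n : ℕ, 1 / ((n : ℝ) + 1) / 2 < M := fun n => by
    have : 1 / ((n : ℝ) + 1) ≤ 1 := by
      rw [div_le_one (by positivity)]
      linarith [Nat.cast_nonneg (α := ℝ) n]
    linarith
  refine le_antisymm ?_ ?_
  · refine le_of_tendsto' (tendsto_const_nhds.add (HScat_tendsto hUΨ x)) fun n => ?_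
    obtain ⟨r1, r2⟩ := lgreen_resolvent hS le_rfl (hpos n) x
    rw [key _ (hpos n) (hlt n), r1, r2, zero_pow two_ne_zero, sub_zero]
    exact add_le_add le_rfl (mul_le_mul_right (HScat_mono hle _ x) _)
  · refine le_of_tendsto' (HScat_tendsto hS x) fun n => ?_
    refine le_trans le_self_add ((key _ (hpos n) (hlt n)).symm.le.trans (add_le_add le_rfl ?_))
    rw [(lgreen_resolvent hUΨ le_rfl (hpos n) x).1]
    exact le_self_add

/-- the monotone iteration -/
noncomputable def HScat_it (M : ℝ) (S W : (ι → R3) → ℝ≥0∞) : ℕ → (ι → R3) → ℝ≥0∞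
  | 0 => fun _ => 0
  | n + 1 => lgreen M fun z => S z + W z * HScat_it M S W n z

theorem HScat_exists {S W : (ι → R3) → ℝ≥0∞} (hS : Measurable S) (hW : Measurable W) {M : ℝ}
    (hM : 0 < M) (hWM : ∀ y, W y ≤ ENNReal.ofReal (M ^ 2)) (hSt : TI S) (hWt : TI W)
    (hSs : Symm S) (hWs : Symm W) :
    ∃ Ψ : (ι → R3) → ℝ≥0∞, Measurable Ψ ∧ TI Ψ ∧ Symm Ψ ∧ (∀ y, Ψ y ≤ lgreen 0 S y) ∧
      ∀ y, Ψ y = lgreen M (fun z => S z + W z * Ψ z) y := by
  have hmeas : ∀ n, Measurable (HScat_it M S W n) := by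
    intro n
    induction n with
    | zero => exact measurable_const
    | succ n ih => exact measurable_lgreen M (hS.add (hW.mul ih))
  have hmono : Monotone (HScat_it M S W) := by
    refine monotone_nat_of_le_succ fun n => ?_
    induction n with
    | zero => exact fun _ => zero_le
    | succ n ih => exact HScat_mono (fun z => add_le_add le_rfl (mul_le_mul_right (ih z) _)) M
  have hti : ∀ n, TI (HScat_it M S W n) := by
    intro n
    induction n with
    | zero => exact fun _ _ => rfl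
    | succ n ih => exact HScat_TI (fun x a => by simp only [hSt x a, hWt x a, ih x a]) M
  have hsy : ∀ n, Symm (HScat_it M S W n) := by
    intro n
    induction n with
    | zero => exact fun _ _ => rfl
    | succ n ih => exact HScat_Symm (fun π x => by simp only [hSs π x, hWs π x, ih π x]) M
  have hle : ∀ n y, HScat_it M S W n y ≤ lgreen 0 S y := by
    intro n
    induction n with
    | zero => exact fun _ => zero_le
    | succ n ih =>
      intro y
      obtain ⟨r1, r2⟩ := lgreen_resolvent hS le_rfl hM y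
      rw [r1, r2, zero_pow two_ne_zero, sub_zero, ← HScat_const_mul (measurable_lgreen 0 hS),
        ← HScat_add hS ((measurable_lgreen 0 hS).const_mul _)]
      exact HScat_mono (fun z => add_le_add le_rfl (mul_le_mul' (hWM z) (ih z))) M y
  refine ⟨fun y => ⨆ n, HScat_it M S W n y, Measurable.iSup hmeas,
    fun x a => iSup_congr fun n => hti n x a, fun π x => iSup_congr fun n => hsy n π x,
    fun y => iSup_le fun n => hle n y, fun y => ?_⟩
  have h1 : (fun z => S z + W z * ⨆ n, HScat_it M S W n z) =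
      fun z => ⨆ n, (S z + W z * HScat_it M S W n z) := by
    funext z
    rw [ENNReal.mul_iSup, ENNReal.add_iSup]
  rw [h1, HScat_iSup (fun n => hS.fun_add (hW.fun_mul (hmeas n)))
    fun n n' hn z => add_le_add le_rfl (mul_le_mul_right (hmono hn z) _)]
  exact (Monotone.iSup_nat_add (f := fun n => HScat_it M S W n y) (fun n n' hn => hmono hn y)
    1).symm

theorem exists_scatter (hι : 2 ≤ Fintype.card ι) {𝒰 S : (ι → R3) → ℝ} {MU B B' : ℝ}
    (hU : Measurable 𝒰) (hU0 : ∀ x, 0 ≤ 𝒰 x) (hU1 : ∀ x, 𝒰 x ≤ MU) (hUt : TI 𝒰) (hUs : Symm 𝒰)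
    (hS : Nice0 S B) (hS0 : ∀ x, 0 ≤ S x) (hSs : Symm S)
    (hUS : Nice0 (fun x => 𝒰 x * green 0 S x) B') :
    ∃ ψ : (ι → R3) → ℝ, Measurable ψ ∧ TI ψ ∧ Symm ψ ∧ (∀ x, 0 ≤ ψ x ∧ ψ x ≤ green 0 S x) ∧
      ∀ x, ψ x = green 0 (fun y => S y - 𝒰 y * ψ y) x := by
  have hMU : 0 ≤ MU := (hU0 0).trans (hU1 0)
  have hM2 : √(MU + 1) ^ 2 = MU + 1 := Real.sq_sqrt (by linarith)
  have hM : 1 ≤ √(MU + 1) := Real.one_le_sqrt.2 (by linarith)
  have hSm : Measurable (eabs S) := measurable_eabs hS.meas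
  have hW : Measurable fun y => ENNReal.ofReal (MU + 1 - 𝒰 y) :=
    (measurable_const.sub hU).ennreal_ofReal
  obtain ⟨Ψ, hΨ, hΨt, hΨs, hle, heq⟩ := HScat_exists hSm hW (lt_of_lt_of_le one_pos hM)
    (fun y => ENNReal.ofReal_le_ofReal (by rw [hM2]; linarith [hU0 y]))
    (fun x a => by simp only [eabs, hS.ti x a]) (fun x a => by simp only [hUt x a])
    (fun π x => by simp only [eabs, hSs π x]) (fun π x => by simp only [hUs π x])
  have ha : ∀ y, lgreen 0 (eabs S) y ≤ ENNReal.ofReal (3 * B) := fun y => by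
    have h1 := marg_lgreen_le hSm (zero_le_one.trans hS.one_le) hS.mg 0 (A := ∅)
      (by simpa using hι) y
    rwa [marg_empty] at h1
  have hafin : ∀ y, lgreen 0 (eabs S) y ≠ ∞ := fun y =>
    ne_top_of_le_ne_top ENNReal.ofReal_ne_top (ha y)
  have hΨfin : ∀ y, Ψ y ≠ ∞ := fun y => ne_top_of_le_ne_top (hafin y) (hle y)
  have hfix := HScat_fixed hSm hU.ennreal_ofReal hW hΨ hM (fun y => by
      rw [← ENNReal.ofReal_add (by linarith [hU1 y]) (hU0 y), hM2, sub_add_cancel]) hle
    (fun y => (hle y).trans (ha y)) heq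
  have hgS : ∀ y, green 0 S y = (lgreen 0 (eabs S) y).toReal := fun y =>
    green_eq_toReal hS.meas hS0 (fun z => (le_abs_self _).trans (hS.bdd hι z)) 0 y
  have hψle : ∀ y, (Ψ y).toReal ≤ green 0 S y := fun y => by
    rw [hgS]
    exact ENNReal.toReal_mono (hafin y) (hle y)
  have hN : Nice0 (fun y => 𝒰 y * (Ψ y).toReal) B' :=
    hUS.of_le (hU.mul hΨ.ennreal_toReal) (fun x a => by simp only [hUt x a, hΨt x a]) fun y => by
      rw [abs_of_nonneg (mul_nonneg (hU0 y) ENNReal.toReal_nonneg)]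
      exact (mul_le_mul_of_nonneg_left (hψle y) (hU0 y)).trans (le_abs_self _)
  refine ⟨fun y => (Ψ y).toReal, hΨ.ennreal_toReal, fun x a => by simp only [hΨt x a],
    fun π x => by simp only [hΨs π x], fun y => ⟨ENNReal.toReal_nonneg, hψle y⟩, fun x => ?_⟩
  have he : eabs (fun y => 𝒰 y * (Ψ y).toReal) = fun y => ENNReal.ofReal (𝒰 y) * Ψ y := by
    funext y
    rw [eabs, abs_of_nonneg (mul_nonneg (hU0 y) ENNReal.toReal_nonneg),
      ENNReal.ofReal_mul (hU0 y), ENNReal.ofReal_toReal (hΨfin y)]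
  have hcfin : lgreen 0 (fun y => ENNReal.ofReal (𝒰 y) * Ψ y) x ≠ ∞ :=
    ne_top_of_le_ne_top (hafin x) (le_add_self.trans (hfix x).le)
  rw [green_sub hι hS hN, hgS, green_eq_toReal hN.meas
    (fun y => mul_nonneg (hU0 y) ENNReal.toReal_nonneg)
    (fun z => (le_abs_self _).trans (hN.bdd hι z)) 0 x, he, ← hfix x,
    ENNReal.toReal_add (hΨfin x) hcfin, add_sub_cancel_right]

end Pool.Agent.Lib.MP_8fe63c_mp
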