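import Pool.Agent.Lib.MP_8fe63c_mp.HDefs
import Pool.Agent.Lib.MP_8fe63c_mp.ADefs

/-!
Synthesis of functions from arrays, coefficients, sources, many-body energy forms.
-/

open MeasureTheory Set
open scoped ENNReal InnerProductSpace

namespace Pool.Agent.Lib.MP_8fe63c_mp

variable {I κ ι : Type} [Fintype I] [DecidableEq I] [Fintype κ] [DecidableEq κ]
  [Fintype ι] [DecidableEq ι]

/-- product of basis functions -/
noncomputable def prodE (e : I → R3 → ℝ) (α : κ → I) (x : κ → R3) : ℝ := ∏ j, e (α j) (x j)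

/-- product of one-body functions -/
noncomputable def tens (u : κ → R3 → ℝ) (x : κ → R3) : ℝ := ∏ j, u j (x j)

/-- the function with coefficient array `c` -/
noncomputable def hat (e : I → R3 → ℝ) (c : (κ → I) → ℝ) (x : κ → R3) : ℝ :=
  ∑ α, c α * prodE e α x

/-- the function of the points in `A` with coefficient array `c` -/
noncomputable def synth (L : Lv I) (e : I → R3 → ℝ) (A : Finset κ) (c : (κ → I) → ℝ)
    (x : κ → R3) : ℝ :=
  ∑ α ∈ L.cfg A, c α * ∏ j ∈ A, e (α j) (x j)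

/-- product measure on `Ω^κ` -/
noncomputable def muP (Ω : Set R3) (κ : Type) [Fintype κ] : Measure (κ → R3) :=
  Measure.pi fun _ => volume.restrict Ω

/-- coefficients on the whole space -/
noncomputable def coef (e : I → R3 → ℝ) (F : (κ → R3) → ℝ) (α : κ → I) : ℝ :=
  ∫ x, F x * prodE e α x

/-- coefficients on `Ω^κ` -/
noncomputable def coefO (Ω : Set R3) (e : I → R3 → ℝ) (F : (κ → R3) → ℝ) (α : κ → I) : ℝ :=
  ∫ x, F x * prodE e α x ∂muP Ω κ

/-- a source with majorant `Φ` at scale `s`, amplitude `κ`, square integrable weight of mass `ϱ` -/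
structure Src {q : ℕ} (s : ℝ) (F : (Fin (q + 1) → R3) → ℝ) (Φ : (Fin (q + 1) → R3) → ℝ≥0∞)
    (κ ϱ : ℝ) : Prop where
  meas : Measurable F
  maj : MajS s Φ κ
  κ_nonneg : 0 ≤ κ
  ϱ_nonneg : 0 ≤ ϱ
  ex : ∃ u₀ : R3 → ℝ, Measurable u₀ ∧ (∀ y, |u₀ y| ≤ 1) ∧
    ∫⁻ y, ENNReal.ofReal (u₀ y ^ 2) ≤ ENNReal.ofReal ϱ ∧ ∀ x, eabs F x ≤ Φ x * eabs u₀ (x 0)

/-- integrate the last point against `a` -/
noncomputable def red {p : ℕ} (F : (Fin (p + 1) → R3) → ℝ) (a : R3 → ℝ) (x : Fin p → R3) : ℝ :=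
  ∫ y, F (Fin.snoc x y) * a y

/-- `T` has the gradient `G` in the variable `j`, in the sense of the form domain, and all
norms are finite -/
structure LegF (Ω : Set R3) (W : R3 → ℝ) (T : (κ → R3) → ℝ) (j : κ) (G : (κ → R3) → R3) :
    Prop where
  mT : Measurable T
  mG : Measurable G
  slice : ∀ x, InF Ω W (fun y => T (Function.update x j y)) (fun y => G (Function.update x j y))
  l2T : MemLp T 2 (muP Ω κ)
  l2G : MemLp G 2 (muP Ω κ)
  l2W : MemLp (fun x => √(W (x j)) * T x) 2 (muP Ω κ)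

/-- energy form in the variable `j` -/
noncomputable def qleg (Ω : Set R3) (W : R3 → ℝ) (j : κ) (T : (κ → R3) → ℝ) (G : (κ → R3) → R3)
    (T' : (κ → R3) → ℝ) (G' : (κ → R3) → R3) : ℝ :=
  ∫ x, (⟪G x, G' x⟫_ℝ + W (x j) * T x * T' x) ∂muP Ω κ

/-- a bounded one-body feature map `u ↦ (y ↦ (a0 y u y + ∫ k0 y z u z, ∫ u z • k1 y z))` -/
structure Feat (Ω : Set R3) where
  a0 : R3 → ℝ
  k0 : R3 → R3 → ℝ
  k1 : R3 → R3 → R3
  CL : ℝ
  m_a0 : Measurable a0
  m_k0 : Measurable (fun p : R3 × R3 => k0 p.1 p.2)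
  m_k1 : Measurable (fun p : R3 × R3 => k1 p.1 p.2)
  l2_k0 : ∀ y, MemLp (k0 y) 2 (volume.restrict Ω)
  l2_k1 : ∀ y, MemLp (k1 y) 2 (volume.restrict Ω)
  CL_nonneg : 0 ≤ CL
  bound : ∀ u : R3 → ℝ, Measurable u → MemLp u 2 (volume.restrict Ω) →
    ∫⁻ y in Ω, ENNReal.ofReal ((a0 y * u y + ∫ z in Ω, k0 y z * u z) ^ 2 +
      ‖∫ z in Ω, u z • k1 y z‖ ^ 2) ≤ ENNReal.ofReal (CL * ∫ y in Ω, u y ^ 2)

noncomputable def Feat.f0 {Ω : Set R3} (A : Feat Ω) (u : R3 → ℝ) (y : R3) : ℝ :=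
  A.a0 y * u y + ∫ z in Ω, A.k0 y z * u z

noncomputable def Feat.f1 {Ω : Set R3} (A : Feat Ω) (u : R3 → ℝ) (y : R3) : R3 :=
  ∫ z in Ω, u z • A.k1 y z

/-- the associated bilinear form -/
noncomputable def Feat.form {Ω : Set R3} (A : Feat Ω) (u v : R3 → ℝ) : ℝ :=
  ∫ y in Ω, (A.f0 u y * A.f0 v y + ⟪A.f1 u y, A.f1 v y⟫_ℝ)

/-- density of the form in the variable `i` -/
noncomputable def Feat.dens {Ω : Set R3} (A : Feat Ω) (F : (ι → R3) → ℝ) (i : ι) (x : ι → R3) : ℝ :=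
  A.f0 (fun z => F (Function.update x i z)) (x i) ^ 2 +
    ‖A.f1 (fun z => F (Function.update x i z)) (x i)‖ ^ 2

/-- three-body interaction of a configuration, summed over ordered triples -/
noncomputable def intP (UN : (Fin 3 → R3) → ℝ) (x : ι → R3) : ℝ :=
  (1 / 6 : ℝ) * ∑ σ : Fin 3 ↪ ι, UN (x ∘ σ)

/-- the many-body energy of a real function on `Ω^ι` -/
noncomputable def QO (Ω : Set R3) (W : R3 → ℝ) (UN : (Fin 3 → R3) → ℝ) (F : (ι → R3) → ℝ) : ℝ :=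
  ∫ x, ((∑ i, (‖pgrad F i x‖ ^ 2 + W (x i) * F x ^ 2)) + intP UN x * F x ^ 2) ∂muP Ω ι

/-- projection of the variable `i` on `φ` -/
noncomputable def projI (φ : R3 → ℝ) (F : (ι → R3) → ℝ) (i : ι) (x : ι → R3) : ℝ :=
  φ (x i) * ∫ y, φ y * F (Function.update x i y)

/-- expected number of particles outside `φ` -/
noncomputable def NP (φ : R3 → ℝ) (F : (ι → R3) → ℝ) : ℝ :=
  ∑ i, ((∫ x, F x ^ 2) - ∫ x, projI φ F i x ^ 2)

open Classical in
/-- the class of a function in `L^2` (zero if it is not square integrable) -/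
noncomputable def toE {X : Type} [MeasurableSpace X] (μ : Measure X) (f : X → ℝ) : Lp ℝ 2 μ :=
  if h : MemLp f 2 μ then h.toLp f else 0

end Pool.Agent.Lib.MP_8fe63c_mp
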