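import Pool.Agent.Lib.MP_8fe63c_mp.NEsy2

/-!
The trace inequality on shifted diagonals.

Sketch. First for `h (y, z) = ∑ c a b * v a y * v b z` with `Cc1` functions `v a`. Let
`w r = (ρ^2 + ‖r - r₀‖^2)^(-1/2)`, `-Δ w = 3 ρ^2 (ρ^2 + ‖r - r₀‖^2)^(-5/2) ≥ 3 * 2^(-5/2) ρ^(-3)` on the ball
of radius `ρ`. Since `h^2 = ∑ A y * B z` with `Cc1` factors, two integrations by parts give
`∫∫ (-Δ w)(z - y) h^2 = 2 ∫∫ w (z - y) ∑ k (∂_{y k} h ∂_{z k} h + h ∂_{y k} ∂_{z k} h)`, and by `hardy1` in the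
variable `z` (`w^2 = hw (1/ρ) / ρ^2`) this is at most `C ‖∇_z h‖ ‖∇_y ∇_z h‖`. The function
`φ r = ∫ h (y, y + r)^2 dy` is continuous, so `ρ → 0` gives `φ r₀ ≤ C ‖∇_z h‖ ‖∇_y∇_z h‖` for all `r₀`, and
`∫∫ v (y - z) h^2 = ∫ v (-r) φ r dr`. For a frame approximate each `e a` by `InF.seq`, use Fatou on the
left (a.e. convergence in each variable) and convergence of the Gram matrices on the right
(`tendsto_qf`); finally `‖∇_z h‖^2 ≤ ∑ lt b c^2`, `‖∇_y∇_z h‖^2 ≤ ∑ lt a lt b c^2` by `bes0`, `bes1`, and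
`x y ≤ (θ x^2 + y^2/θ)/2`. The other legs are removed by `marg_synth_le`.
-/

set_option linter.unusedSectionVars false

open MeasureTheory Set Filter Topology
open scoped ENNReal InnerProductSpace

namespace Pool.Agent.Lib.MP_8fe63c_mp

variable {I κ ι : Type} [Fintype I] [DecidableEq I] [Fintype κ] [DecidableEq κ]
  [Fintype ι] [DecidableEq ι]


theorem esy2 : ∃ cE : ℝ, 1 ≤ cE ∧ ∀ {I : Type} [Fintype I] (fr : Frame I) (c : I → I → ℝ)
    (v : R3 → ℝ≥0∞) (θ : ℝ), Measurable v → 0 < θ →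
    ∫⁻ y, ∫⁻ z, v (y - z) * ENNReal.ofReal ((∑ a, ∑ b, c a b * fr.e a y * fr.e b z) ^ 2) ≤
      (∫⁻ r, v r) * ENNReal.ofReal
        (cE * ∑ a, ∑ b, (θ * fr.lt b + fr.lt a * fr.lt b / θ) * c a b ^ 2) := by
  obtain ⟨cE, hcE, h⟩ := NEsy_diag
  refine ⟨cE, hcE, fun {I} _ fr c v θ hv hθ => ?_⟩
  have hm : Measurable fun p : R3 × R3 => ENNReal.ofReal (NEsy_T c fr.e fr.e p ^ 2) := by
    have := fun a => (fr.inF a).mu
    unfold NEsy_T
    fun_prop
  have hm' : Measurable fun p : R3 × R3 =>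
      ENNReal.ofReal (NEsy_T c fr.e fr.e (p.1, p.1 + p.2) ^ 2) := hm.comp (by fun_prop)
  calc ∫⁻ y, ∫⁻ z, v (y - z) * ENNReal.ofReal (NEsy_T c fr.e fr.e (y, z) ^ 2)
      = ∫⁻ y, ∫⁻ r, v (-r) * ENNReal.ofReal (NEsy_T c fr.e fr.e (y, y + r) ^ 2) := by
        refine lintegral_congr fun y => ?_
        rw [← lintegral_add_left_eq_self _ y]
        simp only [sub_add_cancel_left]
    _ = ∫⁻ r, ∫⁻ y, v (-r) * ENNReal.ofReal (NEsy_T c fr.e fr.e (y, y + r) ^ 2) :=
        lintegral_lintegral_swap (((hv.comp measurable_neg).comp measurable_snd).mul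
          hm').aemeasurable
    _ ≤ ∫⁻ r, v (-r) * ENNReal.ofReal
        (cE * ∑ a, ∑ b, (θ * fr.lt b + fr.lt a * fr.lt b / θ) * c a b ^ 2) := by
        refine lintegral_mono fun r => ?_
        have hr : Measurable fun y : R3 => ENNReal.ofReal (NEsy_T c fr.e fr.e (y, y + r) ^ 2) :=
          hm.comp (f := fun y : R3 => (y, y + r)) (by fun_prop)
        rw [lintegral_const_mul _ hr]
        exact mul_le_mul_right (h fr c θ r hθ) _
    _ = _ := by
        have hn : Measurable fun r : R3 => v (-r) := hv.comp measurable_neg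
        rw [lintegral_mul_const _ hn, lintegral_neg_eq_self]

theorem NEsy_pair (L : Lv I) {a b : κ} (hab : a ≠ b) (f : (κ → I) → ℝ) :
    ∑ α ∈ L.cfg {a, b}, f α =
      ∑ i, ∑ j, f (Function.update (Function.update (fun _ => L.o) a i) b j) := by
  rw [← Finset.sum_product']
  refine Finset.sum_nbij' (fun α => (α a, α b))
    (fun p => Function.update (Function.update (fun _ => L.o) a p.1) b p.2) (by simp) ?_ ?_ ?_ ?_
  · intro p _
    simp only [Lv.cfg, Finset.mem_filter, Finset.mem_univ, true_and, Finset.mem_insert,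
      Finset.mem_singleton, not_or]
    intro j hj
    rw [Function.update_of_ne hj.2, Function.update_of_ne hj.1]
  · intro α hα
    simp only [Lv.cfg, Finset.mem_filter, Finset.mem_univ, true_and, Finset.mem_insert,
      Finset.mem_singleton, not_or] at hα
    funext j
    by_cases h1 : j = b
    · rw [h1, Function.update_self]
    · rw [Function.update_of_ne h1]
      by_cases h2 : j = a
      · rw [h2, Function.update_self]
      · rw [Function.update_of_ne h2, hα j ⟨h2, h1⟩]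
  · intro p _
    simp [Function.update_of_ne hab]
  · intro α hα
    simp only [Lv.cfg, Finset.mem_filter, Finset.mem_univ, true_and, Finset.mem_insert,
      Finset.mem_singleton, not_or] at hα
    congr 1
    funext j
    by_cases h1 : j = b
    · rw [h1, Function.update_self]
    · rw [Function.update_of_ne h1]
      by_cases h2 : j = a
      · rw [h2, Function.update_self]
      · rw [Function.update_of_ne h2, hα j ⟨h2, h1⟩]

theorem esy_synth : ∃ cE : ℝ, 1 ≤ cE ∧ ∀ {I κ : Type} [Fintype I] [DecidableEq I] [Fintype κ]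
    [DecidableEq κ] (L : Lv I) (fr : Frame I) (A : Finset κ) (a b : κ) (c : (κ → I) → ℝ)
    (v : R3 → ℝ≥0∞) (θ : ℝ) (x : κ → R3), a ≠ b → a ∈ A → b ∈ A → Measurable v → 0 < θ →
    marg A (fun x => v (x a - x b) * ENNReal.ofReal (synth L fr.e A c x ^ 2)) x ≤
      (∫⁻ r, v r) * ENNReal.ofReal (cE * ∑ α ∈ L.cfg A,
        (θ * fr.lt (α b) + fr.lt (α a) * fr.lt (α b) / θ) * c α ^ 2) := by
  obtain ⟨cE, hcE, h⟩ := esy2
  refine ⟨cE, hcE, fun {I κ} _ _ _ _ L fr A a b c v θ x hab ha hb hv hθ => ?_⟩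
  have hP : ({a, b} : Finset κ) ⊆ A := by
    simp only [Finset.insert_subset_iff, Finset.singleton_subset_iff]
    exact ⟨ha, hb⟩
  set B := A \ {a, b} with hB
  have hBA : B ⊆ A := Finset.sdiff_subset
  have hAB : A \ B = {a, b} := Finset.sdiff_sdiff_eq_self hP
  have haB : a ∉ B := by simp [hB]
  have hbB : b ∉ B := by simp [hB]
  have hvm : Measurable fun x : κ → R3 => v (x a - x b) :=
    hv.comp ((measurable_pi_apply a).sub (measurable_pi_apply b))
  have hs : ∀ (A : Finset κ) (c : (κ → I) → ℝ),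
      Measurable fun x => ENNReal.ofReal (synth L fr.e A c x ^ 2) := fun A c =>
    ((measurable_synth L fr.meas A c).pow_const 2).ennreal_ofReal
  have hvs : ∀ (A : Finset κ) (c : (κ → I) → ℝ), Measurable fun x =>
      v (x a - x b) * ENNReal.ofReal (synth L fr.e A c x ^ 2) := fun A c => hvm.mul (hs A c)
  have hw : ∀ i j, 0 ≤ θ * fr.lt j + fr.lt i * fr.lt j / θ := fun i j => by
    have := fr.lt_nonneg i
    have := fr.lt_nonneg j
    positivity
  have one : ∀ c' : (κ → I) → ℝ,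
      marg {a, b} (fun x => v (x a - x b) * ENNReal.ofReal (synth L fr.e {a, b} c' x ^ 2)) x ≤
      (∫⁻ r, v r) * ENNReal.ofReal (cE * ∑ α ∈ L.cfg {a, b},
        (θ * fr.lt (α b) + fr.lt (α a) * fr.lt (α b) / θ) * c' α ^ 2) := by
    intro c'
    rw [HMarg_insert (hvs _ _) (Finset.notMem_singleton.2 hab), NEsy_pair L hab]
    simp only [marg_single, synth, NEsy_pair L hab, Finset.prod_pair hab, Function.update_self,
      Function.update_of_ne hab, ← mul_assoc]
    exact h fr (fun i j => c' (Function.update (Function.update (fun _ => L.o) a i) b j)) v θ hv hθ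
  calc marg A (fun x => v (x a - x b) * ENNReal.ofReal (synth L fr.e A c x ^ 2)) x
      = marg {a, b} (marg B fun x => v (x a - x b) * ENNReal.ofReal (synth L fr.e A c x ^ 2)) x := by
        rw [← marg_union (hvs _ _) Finset.disjoint_sdiff, Finset.union_sdiff_of_subset hP]
    _ ≤ marg {a, b} (fun x => ∑ η ∈ L.cfg B, v (x a - x b) *
          ENNReal.ofReal (synth L fr.e {a, b} (fun α => c (B.piecewise η α)) x ^ 2)) x := by
        refine marg_mono _ (fun y => ?_) x
        rw [marg_mul_left B (hs _ _) (fun x y hxy => by rw [hxy a haB, hxy b hbB]),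
          ← Finset.mul_sum, ← hAB]
        exact mul_le_mul_right (marg_synth_le L fr hBA c y) _
    _ = ∑ η ∈ L.cfg B, marg {a, b} (fun x => v (x a - x b) *
          ENNReal.ofReal (synth L fr.e {a, b} (fun α => c (B.piecewise η α)) x ^ 2)) x :=
        marg_sum _ _ (fun η _ => hvs _ _) x
    _ ≤ ∑ η ∈ L.cfg B, (∫⁻ r, v r) * ENNReal.ofReal (cE * ∑ α ∈ L.cfg {a, b},
        (θ * fr.lt (α b) + fr.lt (α a) * fr.lt (α b) / θ) * c (B.piecewise η α) ^ 2) :=
        Finset.sum_le_sum fun η _ => one _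
    _ = _ := by
        rw [← Finset.mul_sum, ← ENNReal.ofReal_sum_of_nonneg fun η _ => mul_nonneg (by linarith)
          (Finset.sum_nonneg fun α _ => mul_nonneg (hw _ _) (sq_nonneg _)), ← Finset.mul_sum,
          ← sum_cfg_piecewise L hBA, hAB]
        simp only [Finset.piecewise_eq_of_notMem _ _ _ haB, Finset.piecewise_eq_of_notMem _ _ _ hbB]

end Pool.Agent.Lib.MP_8fe63c_mp
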