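import Pool.Agent.Lib.MP_8fe63c_mp.NHardy
import Pool.Agent.Lib.MP_8fe63c_mp.OSob

/-!
The regularised Newton kernel, tensor sums, localisation on a shifted diagonal.
-/

set_option linter.unusedSectionVars false

open MeasureTheory Set Filter Topology
open scoped ENNReal InnerProductSpace

namespace Pool.Agent.Lib.MP_8fe63c_mp

variable {I : Type} [Fintype I]

noncomputable def NEsy_q (ρ : ℝ) (x : R3) : ℝ := √(ρ ^ 2 + ‖x‖ ^ 2)

noncomputable def NEsy_X (ρ : ℝ) (k : Fin 3) (x : R3) : ℝ := -x k * (NEsy_q ρ x)⁻¹ ^ 3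

noncomputable def NEsy_Y (ρ : ℝ) (k : Fin 3) (x : R3) : ℝ :=
  -(NEsy_q ρ x)⁻¹ ^ 3 + 3 * x k ^ 2 * (NEsy_q ρ x)⁻¹ ^ 5

noncomputable def NEsy_L (ρ : ℝ) (x : R3) : ℝ := 3 * ρ ^ 2 * (NEsy_q ρ x)⁻¹ ^ 5

theorem NEsy_q_pos {ρ : ℝ} (hρ : 0 < ρ) (x : R3) : 0 < NEsy_q ρ x :=
  Real.sqrt_pos.2 (by positivity)

theorem NEsy_q_sq (ρ : ℝ) (x : R3) : NEsy_q ρ x ^ 2 = ρ ^ 2 + ‖x‖ ^ 2 :=
  Real.sq_sqrt (by positivity)

theorem NEsy_qi_cont {ρ : ℝ} (hρ : 0 < ρ) : Continuous fun x : R3 => (NEsy_q ρ x)⁻¹ := by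
  refine Continuous.inv₀ ?_ fun x => (NEsy_q_pos hρ x).ne'
  unfold NEsy_q
  fun_prop

theorem NEsy_X_cont {ρ : ℝ} (hρ : 0 < ρ) (k : Fin 3) : Continuous (NEsy_X ρ k) := by
  have := NEsy_qi_cont hρ
  unfold NEsy_X
  fun_prop

theorem NEsy_Y_cont {ρ : ℝ} (hρ : 0 < ρ) (k : Fin 3) : Continuous (NEsy_Y ρ k) := by
  have := NEsy_qi_cont hρ
  unfold NEsy_Y
  fun_prop

theorem NEsy_L_cont {ρ : ℝ} (hρ : 0 < ρ) : Continuous (NEsy_L ρ) := by
  have := NEsy_qi_cont hρ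
  unfold NEsy_L
  fun_prop

theorem NEsy_sum_Y {ρ : ℝ} (hρ : 0 < ρ) (x : R3) : ∑ k, NEsy_Y ρ k x = -NEsy_L ρ x := by
  have h1 := NEsy_q_sq ρ x
  have h2 := EuclideanSpace.real_norm_sq_eq x
  have h3 := (NEsy_q_pos hρ x).ne'
  simp only [NEsy_Y, NEsy_L, Fin.sum_univ_three] at h2 ⊢
  have h4 : ρ ^ 2 = NEsy_q ρ x ^ 2 - (x 0 ^ 2 + x 1 ^ 2 + x 2 ^ 2) := by linarith
  rw [h4]
  field_simp
  ring

theorem NEsy_qi_deriv {ρ : ℝ} (hρ : 0 < ρ) (x e : R3) :
    HasDerivAt (fun t : ℝ => (NEsy_q ρ (x + t • e))⁻¹) (-⟪x, e⟫_ℝ * (NEsy_q ρ x)⁻¹ ^ 3) 0 := by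
  have h1 : HasDerivAt (fun t : ℝ => x + t • e) e 0 := by
    simpa using ((hasDerivAt_id (0 : ℝ)).smul_const e).const_add x
  have h2 : HasDerivAt (fun t : ℝ => ρ ^ 2 + ‖x + t • e‖ ^ 2) (2 * ⟪x, e⟫_ℝ) 0 := by
    simpa using h1.norm_sq.const_add (ρ ^ 2)
  have h3 := h2.sqrt (by simp only [zero_smul, add_zero]; positivity)
  have h4 := h3.inv (by
    simp only [zero_smul, add_zero]
    exact (NEsy_q_pos hρ x).ne')
  simp only [zero_smul, add_zero] at h4
  have h5 := (NEsy_q_pos hρ x).ne'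
  refine HasDerivAt.congr_deriv h4 ?_
  change -(2 * ⟪x, e⟫_ℝ / (2 * NEsy_q ρ x)) / NEsy_q ρ x ^ 2 = _
  field_simp

theorem NEsy_inner_uv (x : R3) (k : Fin 3) : ⟪x, uv k⟫_ℝ = x k := by
  simp [uv, EuclideanSpace.inner_single_right]

theorem NEsy_X_deriv {ρ : ℝ} (hρ : 0 < ρ) (x : R3) (k : Fin 3) :
    HasDerivAt (fun t : ℝ => NEsy_X ρ k (x + t • uv k)) (NEsy_Y ρ k x) 0 := by
  have h1 := (NEsy_qi_deriv hρ x (uv k)).pow 3
  have h2 : HasDerivAt (fun t : ℝ => -(x + t • uv k) k) (-1) 0 := by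
    have : (fun t : ℝ => -(x + t • uv k) k) = fun t : ℝ => -(x k + t) := by
      funext t
      simp [uv]
    rw [this]
    exact ((hasDerivAt_id (0 : ℝ)).const_add (x k)).neg
  have h3 := h2.mul h1
  refine HasDerivAt.congr_deriv h3 ?_
  simp only [NEsy_Y, NEsy_inner_uv, zero_smul, add_zero, Pi.pow_apply]
  norm_num
  ring

/-- continuous with compact support -/
def NEsy_C {X : Type} [TopologicalSpace X] (f : X → ℝ) : Prop := Continuous f ∧ HasCompactSupport f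

/-- tensor sum -/
noncomputable def NEsy_T (c : I → I → ℝ) (f g : I → R3 → ℝ) (p : R3 × R3) : ℝ :=
  ∑ a, ∑ b, c a b * f a p.1 * g b p.2

theorem NEsy_T_C (c : I → I → ℝ) {f g : I → R3 → ℝ} (hf : ∀ a, NEsy_C (f a))
    (hg : ∀ a, NEsy_C (g a)) : NEsy_C (NEsy_T c f g) := by
  constructor
  · refine continuous_finsetSum _ fun a _ => continuous_finsetSum _ fun b _ => ?_
    exact (continuous_const.mul ((hf a).1.comp continuous_fst)).mul ((hg b).1.comp continuous_snd)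
  · refine HasCompactSupport.intro ((isCompact_iUnion fun a => (hf a).2.isCompact).prod
      (isCompact_iUnion fun a => (hg a).2.isCompact)) fun p hp => ?_
    refine Finset.sum_eq_zero fun a _ => Finset.sum_eq_zero fun b _ => ?_
    rw [mem_prod, not_and_or] at hp
    rcases hp with hp | hp
    · rw [image_eq_zero_of_notMem_tsupport fun h => hp (mem_iUnion.2 ⟨a, h⟩)]
      simp
    · rw [image_eq_zero_of_notMem_tsupport (f := g b) fun h => hp (mem_iUnion.2 ⟨b, h⟩)]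
      simp

theorem NEsy_C.mul_left {X : Type} [TopologicalSpace X] {f g : X → ℝ} (hg : NEsy_C g)
    (hf : Continuous f) : NEsy_C fun x => f x * g x :=
  ⟨hf.mul hg.1, hg.2.mul_left⟩

theorem NEsy_C.sq {X : Type} [TopologicalSpace X] {g : X → ℝ} (hg : NEsy_C g) :
    NEsy_C fun x => g x ^ 2 := by
  have : (fun x => g x ^ 2) = fun x => g x * g x := funext fun x => pow_two _
  rw [this]
  exact hg.mul_left hg.1

theorem NEsy_C.add {X : Type} [TopologicalSpace X] {f g : X → ℝ} (hf : NEsy_C f) (hg : NEsy_C g) :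
    NEsy_C fun x => f x + g x :=
  ⟨hf.1.add hg.1, hf.2.add hg.2⟩

theorem NEsy_C.int {f : R3 × R3 → ℝ} (hf : NEsy_C f) : Integrable f :=
  hf.1.integrable_of_hasCompactSupport hf.2

theorem NEsy_C.int1 {f : R3 → ℝ} (hf : NEsy_C f) : Integrable f :=
  hf.1.integrable_of_hasCompactSupport hf.2

theorem NEsy_sum_C {f : I → R3 → ℝ} (hf : ∀ a, NEsy_C (f a)) (x : I → ℝ) :
    NEsy_C fun y => ∑ a, x a * f a y := by
  constructor
  · exact continuous_finsetSum _ fun a _ => continuous_const.mul (hf a).1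
  · refine HasCompactSupport.intro (isCompact_iUnion fun a => (hf a).2.isCompact) fun p hp => ?_
    refine Finset.sum_eq_zero fun a _ => ?_
    rw [image_eq_zero_of_notMem_tsupport fun h => hp (mem_iUnion.2 ⟨a, h⟩)]
    simp

theorem NEsy_T_d2 (c : I → I → ℝ) (f : I → R3 → ℝ) {g g' : I → R3 → ℝ} {e : R3}
    (h : ∀ b z, HasDerivAt (fun t : ℝ => g b (z + t • e)) (g' b z) 0) (p : R3 × R3) :
    HasDerivAt (fun t : ℝ => NEsy_T c f g (p + t • ((0 : R3), e))) (NEsy_T c f g' p) 0 := by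
  simp only [NEsy_T, Prod.fst_add, Prod.snd_add, Prod.smul_mk, smul_zero, add_zero]
  exact HasDerivAt.fun_sum fun a _ => HasDerivAt.fun_sum fun b _ => (h b p.2).const_mul _

theorem NEsy_T_d1 (c : I → I → ℝ) {f f' : I → R3 → ℝ} (g : I → R3 → ℝ) {e : R3}
    (h : ∀ b z, HasDerivAt (fun t : ℝ => f b (z + t • e)) (f' b z) 0) (p : R3 × R3) :
    HasDerivAt (fun t : ℝ => NEsy_T c f g (p + t • (e, (0 : R3)))) (NEsy_T c f' g p) 0 := by
  simp only [NEsy_T, Prod.fst_add, Prod.snd_add, Prod.smul_mk, smul_zero, add_zero]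
  exact HasDerivAt.fun_sum fun a _ => HasDerivAt.fun_sum fun b _ =>
    ((h a p.1).const_mul _).mul_const _

theorem NEsy_ibp {f f' g g' : R3 × R3 → ℝ} {e : R3 × R3} (hf : Continuous f) (hf' : Continuous f')
    (hg : NEsy_C g) (hg' : NEsy_C g')
    (df : ∀ p, HasDerivAt (fun t : ℝ => f (p + t • e)) (f' p) 0)
    (dg : ∀ p, HasDerivAt (fun t : ℝ => g (p + t • e)) (g' p) 0) :
    ∫ p, f p * g' p = -∫ p, f' p * g p :=
  integral_bilinear_hasLineDerivAt_right_eq_neg_left_of_integrable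
    (μ := (volume : Measure R3).prod (volume : Measure R3)) (B := ContinuousLinearMap.mul ℝ ℝ)
    (hg.mul_left hf').int (hg'.mul_left hf).int (hg.mul_left hf).int (fun p _ => df p)
    fun p _ => dg p

theorem NEsy_slice (c : I → I → ℝ) {f g : I → R3 → ℝ} (hf : ∀ a, NEsy_C (f a))
    (hg : ∀ a, NEsy_C (g a)) {ω : R3 × R3 → ℝ} (hω : Continuous ω) {l m : I → ℝ}
    (hm0 : ∀ b, 0 ≤ m b)
    (hm : ∀ (y : R3) (x : I → ℝ), ∫ z, ω (y, z) * (∑ b, x b * g b z) ^ 2 ≤ ∑ b, m b * x b ^ 2)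
    (hl : ∀ x : I → ℝ, ∫ y, (∑ a, x a * f a y) ^ 2 ≤ ∑ a, l a * x a ^ 2) :
    ∫ p, ω p * NEsy_T c f g p ^ 2 ≤ ∑ a, ∑ b, l a * m b * c a b ^ 2 := by
  have hi : Integrable (fun p => ω p * NEsy_T c f g p ^ 2)
      ((volume : Measure R3).prod (volume : Measure R3)) := ((NEsy_T_C c hf hg).sq.mul_left hω).int
  have h2 : ∀ b, Integrable fun y => m b * (∑ a, c a b * f a y) ^ 2 := fun b =>
    (NEsy_sum_C hf fun a => c a b).sq.int1.const_mul _
  rw [Measure.volume_eq_prod, integral_prod _ hi]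
  calc ∫ y, ∫ z, ω (y, z) * NEsy_T c f g (y, z) ^ 2
      ≤ ∫ y, ∑ b, m b * (∑ a, c a b * f a y) ^ 2 := by
        refine integral_mono hi.integral_prod_left (integrable_finsetSum _ fun b _ => h2 b)
          fun y => ?_
        refine le_trans (le_of_eq ?_) (hm y fun b => ∑ a, c a b * f a y)
        refine integral_congr_ae (ae_of_all _ fun z => ?_)
        simp only [NEsy_T, Finset.sum_mul]
        rw [Finset.sum_comm]
    _ = ∑ b, m b * ∫ y, (∑ a, c a b * f a y) ^ 2 := by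
        rw [integral_finsetSum _ fun b _ => h2 b]
        simp only [integral_const_mul]
    _ ≤ ∑ b, m b * ∑ a, l a * c a b ^ 2 :=
        Finset.sum_le_sum fun b _ => mul_le_mul_of_nonneg_left (hl _) (hm0 b)
    _ = ∑ a, ∑ b, l a * m b * c a b ^ 2 := by
        rw [Finset.sum_comm]
        refine Finset.sum_congr rfl fun b _ => ?_
        rw [Finset.mul_sum]
        exact Finset.sum_congr rfl fun a _ => by ring

theorem NEsy_L_ge {ρ : ℝ} (hρ : 0 < ρ) {x : R3} (hx : ‖x‖ ≤ ρ) : 3 / (32 * ρ ^ 3) ≤ NEsy_L ρ x := by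
  have h1 : NEsy_q ρ x ≤ 2 * ρ := by
    refine Real.sqrt_le_iff.2 ⟨by positivity, ?_⟩
    have := pow_le_pow_left₀ (norm_nonneg x) hx 2
    nlinarith
  have h2 : (2 * ρ)⁻¹ ≤ (NEsy_q ρ x)⁻¹ := inv_anti₀ (NEsy_q_pos hρ x) h1
  have h3 : (2 * ρ)⁻¹ ^ 5 ≤ (NEsy_q ρ x)⁻¹ ^ 5 := pow_le_pow_left₀ (by positivity) h2 5
  calc 3 / (32 * ρ ^ 3) = 3 * ρ ^ 2 * (2 * ρ)⁻¹ ^ 5 := by field_simp; norm_num
    _ ≤ NEsy_L ρ x := mul_le_mul_of_nonneg_left h3 (by positivity)

theorem NEsy_loc : ∃ cB : ℝ, 0 < cB ∧ ∀ (H : R3 × R3 → ℝ) (M : ℝ) (r₀ : R3), NEsy_C H →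
    (∀ p, 0 ≤ H p) → 0 ≤ M → (∀ ρ : ℝ, 0 < ρ → ∫ p, NEsy_L ρ (p.2 - p.1 - r₀) * H p ≤ M) →
    Integrable (fun y => H (y, y + r₀)) ∧ ∫ y, H (y, y + r₀) ≤ cB * M := by
  have hV : 0 < (volume : Measure R3).real (Metric.ball 0 1) :=
    ENNReal.toReal_pos (Metric.measure_ball_pos _ _ one_pos).ne' measure_ball_lt_top.ne
  set V := (volume : Measure R3).real (Metric.ball 0 1) with hVd
  refine ⟨32 / (3 * V), by positivity, fun H M r₀ hH h0 hM h => ?_⟩
  have hK : IsCompact (Prod.fst '' tsupport H) := hH.2.isCompact.image continuous_fst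
  have hz : ∀ r y, y ∉ Prod.fst '' tsupport H → H (y, y + r) = 0 := fun r y hy =>
    image_eq_zero_of_notMem_tsupport fun h => hy ⟨_, h, rfl⟩
  have hc : Continuous fun p : R3 × R3 => H (p.2, p.2 + p.1) := hH.1.comp (by fun_prop)
  refine ⟨(hH.1.comp (by fun_prop)).integrable_of_hasCompactSupport
    (HasCompactSupport.intro hK (hz r₀)), ?_⟩
  have hφ : Continuous fun r : R3 => ∫ y, H (y, y + r) := by
    have := continuous_parametric_integral_of_continuous (μ := (volume : Measure R3))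
      (f := fun r y : R3 => H (y, y + r)) hc hK
    refine this.congr fun r => ?_
    exact setIntegral_eq_integral_of_forall_compl_eq_zero (hz r)
  by_contra hlt
  rw [not_le] at hlt
  obtain ⟨a, ha1, ha2⟩ := exists_between hlt
  have ha0 : 0 < a := lt_of_le_of_lt (by positivity) ha1
  obtain ⟨ρ, hρ, hball⟩ := Metric.nhds_basis_closedBall.mem_iff.1
    (hφ.continuousAt.eventually (lt_mem_nhds ha2))
  have hG : NEsy_C fun p : R3 × R3 => NEsy_L ρ (p.2 - r₀) * H (p.1, p.1 + p.2) := by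
    refine NEsy_C.mul_left ⟨hH.1.comp (by fun_prop), ?_⟩ ((NEsy_L_cont hρ).comp (by fun_prop))
    exact hH.2.comp_homeomorph (Homeomorph.shearAddRight R3)
  have hGi : Integrable (fun p : R3 × R3 => NEsy_L ρ (p.2 - r₀) * H (p.1, p.1 + p.2))
      ((volume : Measure R3).prod (volume : Measure R3)) := hG.int
  have e1 : ∫ p : R3 × R3, NEsy_L ρ (p.2 - p.1 - r₀) * H p =
      ∫ r, NEsy_L ρ (r - r₀) * ∫ y, H (y, y + r) := by
    rw [Measure.volume_eq_prod, ← (measurePreserving_prod_add (volume : Measure R3)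
      (volume : Measure R3)).integral_comp (MeasurableEquiv.shearAddRight R3).measurableEmbedding]
    simp only [add_sub_cancel_left]
    rw [integral_prod_symm _ hGi]
    simp only [integral_const_mul]
  have hi : Integrable fun r => NEsy_L ρ (r - r₀) * ∫ y, H (y, y + r) := by
    simpa only [integral_const_mul] using hGi.integral_prod_right
  have h1 := h ρ hρ
  rw [e1] at h1
  have hL0 : ∀ x, 0 ≤ NEsy_L ρ x := fun x => by
    have := NEsy_q_pos hρ x
    unfold NEsy_L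
    positivity
  have h2 := setIntegral_le_integral (s := Metric.closedBall r₀ ρ) hi
    (ae_of_all _ fun r => mul_nonneg (hL0 _) (integral_nonneg fun y => h0 _))
  have h3 := setIntegral_ge_of_const_le_real (c := 3 / (32 * ρ ^ 3) * a)
    (Metric.isClosed_closedBall (x := r₀) (ε := ρ)).measurableSet measure_closedBall_lt_top.ne
    (fun r hr => mul_le_mul (NEsy_L_ge hρ (by rwa [← dist_eq_norm])) (le_of_lt (hball hr)) ha0.le
      (hL0 _)) hi.integrableOn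
  rw [Measure.addHaar_real_closedBall _ _ hρ.le, finrank_euclideanSpace_fin, ← hVd] at h3
  have h4 : 3 / (32 * ρ ^ 3) * a * (ρ ^ 3 * V) = 3 * V / 32 * a := by field_simp
  have h5 : 3 * V / 32 * a ≤ M := by linarith
  have h6 : a ≤ 32 / (3 * V) * M := by
    calc a = 32 / (3 * V) * (3 * V / 32 * a) := by field_simp
      _ ≤ 32 / (3 * V) * M := mul_le_mul_of_nonneg_left h5 (by positivity)
  linarith

end Pool.Agent.Lib.MP_8fe63c_mp
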