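import Pool.Agent.Lib.MP_8fe63c_mp.NEsy1

/-!
The trace inequality for tensor sums of continuously differentiable functions, and of frames.
-/

set_option linter.unusedSectionVars false

open MeasureTheory Set Filter Topology
open scoped ENNReal InnerProductSpace

namespace Pool.Agent.Lib.MP_8fe63c_mp

variable {I : Type} [Fintype I]

theorem NEsy_D_C {v : R3 → ℝ} (hv : Cc1 v) (k : Fin 3) : NEsy_C fun y => gradient v y k := by
  have := hv.continuous_gradient
  exact ⟨by fun_prop, hv.OBas_supp.comp_left (g := fun x : R3 => x k) rfl⟩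

theorem NEsy_D_deriv {v : R3 → ℝ} (hv : Cc1 v) (k : Fin 3) (z : R3) :
    HasDerivAt (fun t : ℝ => v (z + t • uv k)) (gradient v z k) 0 := by
  have h1 : HasDerivAt (fun t : ℝ => z + t • uv k) (uv k) 0 := by
    simpa using ((hasDerivAt_id (0 : ℝ)).smul_const (uv k)).const_add z
  have h2 := (hv.1.differentiable one_ne_zero z).hasFDerivAt.comp_hasDerivAt_of_eq (0 : ℝ) h1
    (by simp)
  rw [← inner_gradient_eq, NEsy_inner_uv] at h2
  exact h2

theorem NEsy_hardy {u : R3 → ℝ} {G : R3 → R3} (h : InF univ (fun _ => 0) u G) {ρ : ℝ} (hρ : 0 < ρ)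
    (c : R3) : ∫ z, (NEsy_q ρ (z - c))⁻¹ ^ 2 * u z ^ 2 ≤ 4 * ∫ z, ‖G z‖ ^ 2 := by
  have hm : Measurable fun z : R3 => hw ρ⁻¹ (z - c) * u z ^ 2 := by
    have := h.mu
    unfold hw
    fun_prop
  have h1 := (OSob_of_lint hm (fun z => mul_nonneg (hw_pos _ _).le (sq_nonneg _))
    (mul_nonneg (by positivity) (integral_nonneg fun z => sq_nonneg _))
    (hardy1 h (inv_pos.2 hρ) c)).2
  have e : ∀ z : R3, (NEsy_q ρ (z - c))⁻¹ ^ 2 * u z ^ 2 =
      ρ⁻¹ ^ 2 * (hw ρ⁻¹ (z - c) * u z ^ 2) := fun z => by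
    rw [inv_pow, NEsy_q_sq, hw]
    field_simp
  simp only [e, integral_const_mul]
  calc _ ≤ ρ⁻¹ ^ 2 * (4 / ρ⁻¹ ^ 2 * ∫ z, ‖G z‖ ^ 2) := mul_le_mul_of_nonneg_left h1 (by positivity)
    _ = _ := by field_simp

theorem NEsy_amgm {θ : ℝ} (hθ : 0 < θ) (w a b c d : ℝ) :
    w * (2 * (a * b + c * d)) ≤
      θ * (1 * b ^ 2) + θ⁻¹ * (w ^ 2 * a ^ 2) + (θ * (w ^ 2 * c ^ 2) + θ⁻¹ * (1 * d ^ 2)) := by
  have h : ∀ x y : ℝ, 2 * (x * y) ≤ θ * x ^ 2 + θ⁻¹ * y ^ 2 := fun x y => by
    have h1 : 0 ≤ θ⁻¹ * (θ * x - y) ^ 2 := by positivity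
    have h2 : θ⁻¹ * (θ * x - y) ^ 2 = θ * x ^ 2 + θ⁻¹ * y ^ 2 - 2 * (x * y) := by
      field_simp
      ring
    linarith
  have h1 := h b (w * a)
  have h2 := h (w * c) d
  nlinarith

theorem NEsy_key (c : I → I → ℝ) {v : I → R3 → ℝ} (hv : ∀ a, Cc1 (v a)) {K : ℝ} {m : I → ℝ}
    (hm0 : ∀ a, 0 ≤ m a)
    (hK : ∀ x : I → ℝ, ∫ y, (∑ a, x a * v a y) ^ 2 ≤ ∑ a, K * x a ^ 2)
    (hm : ∀ x : I → ℝ, ∫ y, ‖∑ a, x a • gradient (v a) y‖ ^ 2 ≤ ∑ a, m a * x a ^ 2)
    {θ ρ : ℝ} (hθ : 0 < θ) (hρ : 0 < ρ) (r : R3) :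
    ∫ p : R3 × R3, NEsy_L ρ (p.2 - p.1 - r) * NEsy_T c v v p ^ 2 ≤
      15 * ∑ a, ∑ b, (θ * (K * m b) + m a * m b / θ) * c a b ^ 2 := by
  have hC : ∀ a, NEsy_C (v a) := fun a => ⟨(hv a).1.continuous, (hv a).2⟩
  have hF : ∀ x : I → ℝ, InF univ (fun _ => 0) (fun y => ∑ a, x a * v a y)
      (fun y => ∑ a, x a • gradient (v a) y) := fun x =>
    InF.sum pot_zero Finset.univ (fun a _ => (hv a).inF) x
  have hs : Continuous fun p : R3 × R3 => p.2 - p.1 - r := by fun_prop
  have hW : Continuous fun p : R3 × R3 => (NEsy_q ρ (p.2 - p.1 - r))⁻¹ := (NEsy_qi_cont hρ).comp hs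
  have hH : ∀ (y : R3) (x : I → ℝ), ∫ z, (NEsy_q ρ (z - y - r))⁻¹ ^ 2 * (∑ b, x b * v b z) ^ 2 ≤
      ∑ b, 4 * m b * x b ^ 2 := fun y x => by
    have h1 := NEsy_hardy (hF x) hρ (y + r)
    simp only [← sub_sub] at h1
    refine h1.trans ?_
    simp only [mul_assoc, ← Finset.mul_sum]
    linarith [hm x]
  have h0 := NEsy_T_C c hC hC
  have step : ∀ k : Fin 3, -∫ p : R3 × R3, NEsy_Y ρ k (p.2 - p.1 - r) * NEsy_T c v v p ^ 2 ≤
      5 * ∑ a, ∑ b, (θ * (K * m b) + m a * m b / θ) * c a b ^ 2 := by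
    intro k
    set D : I → R3 → ℝ := fun a y => gradient (v a) y k with hD
    have hDC : ∀ a, NEsy_C (D a) := fun a => NEsy_D_C (hv a) k
    have hDd : ∀ b z, HasDerivAt (fun t : ℝ => v b (z + t • uv k)) (D b z) 0 := fun b z =>
      NEsy_D_deriv (hv b) k z
    have hmD : ∀ x : I → ℝ, ∫ y, (∑ a, x a * D a y) ^ 2 ≤ ∑ a, m a * x a ^ 2 := fun x => by
      refine le_trans (integral_mono (NEsy_sum_C hDC x).sq.int1 (OSob_int_G pot_zero (hF x))
        fun y => ?_) (hm x)
      have h1 := PiLp.norm_apply_le (∑ a, x a • gradient (v a) y) k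
      have h2 : (∑ a, x a • gradient (v a) y) k = ∑ a, x a * D a y := by simp [hD]
      rw [h2, Real.norm_eq_abs] at h1
      simpa only [sq_abs] using pow_le_pow_left₀ (abs_nonneg _) h1 2
    have hz := NEsy_T_C c hC hDC
    have hy := NEsy_T_C c hDC hC
    have hyz := NEsy_T_C c hDC hDC
    have hg : NEsy_C fun p => 2 * (NEsy_T c v v p * NEsy_T c v D p) :=
      (hz.mul_left h0.1).mul_left continuous_const
    have hg' : NEsy_C fun p =>
        2 * (NEsy_T c D v p * NEsy_T c v D p + NEsy_T c v v p * NEsy_T c D D p) :=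
      ((hz.mul_left hy.1).add (hyz.mul_left h0.1)).mul_left continuous_const
    have i1 := NEsy_ibp (e := ((0 : R3), uv k)) ((NEsy_X_cont hρ k).comp hs)
      ((NEsy_Y_cont hρ k).comp hs) h0.sq hg (fun p => by
        have := NEsy_X_deriv hρ (p.2 - p.1 - r) k
        refine this.congr_of_eventuallyEq (Eventually.of_forall fun t => ?_)
        simp only [Function.comp_apply, Prod.fst_add, Prod.snd_add, Prod.smul_mk, smul_zero,
          add_zero]
        congr 1
        abel) (fun p => by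
        refine ((NEsy_T_d2 c v hDd p).pow 2).congr_deriv ?_
        simp only [zero_smul, add_zero]
        norm_num
        ring)
    have i2 := NEsy_ibp (e := (uv k, (0 : R3))) hW
      (((NEsy_X_cont hρ k).comp hs).neg) hg hg' (fun p => by
        have := NEsy_qi_deriv hρ (p.2 - p.1 - r) (-uv k)
        refine (this.congr_of_eventuallyEq (Eventually.of_forall fun t => ?_)).congr_deriv ?_
        · simp only [Prod.fst_add, Prod.snd_add, Prod.smul_mk, smul_zero, add_zero, smul_neg]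
          congr 2
          abel
        · simp only [NEsy_X, inner_neg_right, NEsy_inner_uv, Pi.neg_apply, Function.comp_apply]
          ring) (fun p => by
        refine (((NEsy_T_d1 c v hDd p).mul (NEsy_T_d1 c D hDd p)).const_mul 2).congr_deriv ?_
        simp only [zero_smul, add_zero])
    simp only [Function.comp_apply, Pi.neg_apply, neg_mul, integral_neg, neg_neg] at i1 i2
    rw [← i1, ← i2]
    have b1 := NEsy_slice c hC hDC (ω := fun _ => 1) continuous_const hm0
      (fun _ x => by simpa only [one_mul] using hmD x) hK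
    have b2 := NEsy_slice c hDC hC (hW.pow 2) (fun b => by linarith [hm0 b]) hH hmD
    have b3 := NEsy_slice c hC hC (hW.pow 2) (fun b => by linarith [hm0 b]) hH hK
    have b4 := NEsy_slice c hDC hDC (ω := fun _ => 1) continuous_const hm0
      (fun _ x => by simpa only [one_mul] using hmD x) hmD
    have j1 := ((hz.sq.mul_left (continuous_const (y := (1 : ℝ)))).int).const_mul θ
    have j2 := ((hy.sq.mul_left (hW.pow 2)).int).const_mul θ⁻¹
    have j3 := ((h0.sq.mul_left (hW.pow 2)).int).const_mul θ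
    have j4 := ((hyz.sq.mul_left (continuous_const (y := (1 : ℝ)))).int).const_mul θ⁻¹
    refine (integral_mono (hg'.mul_left hW).int ((j1.add j2).add (j3.add j4))
      fun p => NEsy_amgm hθ _ _ _ _ _).trans ?_
    rw [integral_add' (j1.add j2) (j3.add j4), integral_add' j1 j2, integral_add' j3 j4,
      integral_const_mul, integral_const_mul θ⁻¹, integral_const_mul θ, integral_const_mul θ⁻¹]
    have hθ' : 0 < θ⁻¹ := inv_pos.2 hθ
    refine (add_le_add (add_le_add (mul_le_mul_of_nonneg_left b1 hθ.le)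
      (mul_le_mul_of_nonneg_left b2 hθ'.le)) (add_le_add (mul_le_mul_of_nonneg_left b3 hθ.le)
      (mul_le_mul_of_nonneg_left b4 hθ'.le))).trans (le_of_eq ?_)
    simp only [Finset.mul_sum, ← Finset.sum_add_distrib]
    refine Finset.sum_congr rfl fun a _ => Finset.sum_congr rfl fun b _ => ?_
    ring
  have hi : ∀ k : Fin 3, Integrable fun p : R3 × R3 =>
      NEsy_Y ρ k (p.2 - p.1 - r) * NEsy_T c v v p ^ 2 := fun k =>
    (h0.sq.mul_left ((NEsy_Y_cont hρ k).comp hs)).int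
  have e : ∫ p : R3 × R3, NEsy_L ρ (p.2 - p.1 - r) * NEsy_T c v v p ^ 2 =
      -∑ k : Fin 3, ∫ p : R3 × R3, NEsy_Y ρ k (p.2 - p.1 - r) * NEsy_T c v v p ^ 2 := by
    rw [← integral_finsetSum _ fun k _ => hi k, ← integral_neg]
    refine integral_congr_ae (ae_of_all _ fun p => ?_)
    simp only [← Finset.sum_mul, NEsy_sum_Y hρ]
    ring
  rw [e, Fin.sum_univ_three]
  linarith [step 0, step 1, step 2]

theorem NEsy_quad (A B : I → I → ℝ) (x : I → ℝ) :
    ∑ a, ∑ b, x a * x b * A a b ≤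
      ∑ a, ∑ b, x a * x b * B a b + (∑ a, ∑ b, |A a b - B a b|) * ∑ a, x a ^ 2 := by
  simp only [Finset.sum_mul, ← Finset.sum_add_distrib]
  refine Finset.sum_le_sum fun a _ => Finset.sum_le_sum fun b _ => ?_
  have h1 : ∀ a, x a ^ 2 ≤ ∑ a, x a ^ 2 := fun a =>
    Finset.single_le_sum (f := fun a => x a ^ 2) (fun _ _ => sq_nonneg _) (Finset.mem_univ a)
  have h2 : |x a * x b| ≤ ∑ a, x a ^ 2 := by
    rw [abs_le]
    constructor <;> nlinarith [h1 a, h1 b, sq_nonneg (x a + x b), sq_nonneg (x a - x b)]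
  have h3 : x a * x b * (A a b - B a b) ≤ |x a * x b| * |A a b - B a b| := by
    rw [← abs_mul]
    exact le_abs_self _
  have h4 := mul_le_mul_of_nonneg_right h2 (abs_nonneg (A a b - B a b))
  linarith

theorem NEsy_gram {u : I → R3 → ℝ} {G : I → R3 → R3}
    (h : ∀ a, InF univ (fun _ => 0) (u a) (G a)) (x : I → ℝ) :
    ∫ y, (∑ a, x a * u a y) ^ 2 = ∑ a, ∑ b, x a * x b * ip univ (u a) (u b) ∧
      ∫ y, ‖∑ a, x a • G a y‖ ^ 2 = ∑ a, ∑ b, x a * x b * ∫ y in univ, ⟪G a y, G b y⟫_ℝ := by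
  have i0 : ∀ a b, Integrable fun y => x a * x b * (u a y * u b y) := fun a b =>
    (integrableOn_univ.1 ((h a).integrable_mul pot_zero (h b))).const_mul _
  have i1 : ∀ a b, Integrable fun y => x a * x b * ⟪G a y, G b y⟫_ℝ := fun a b =>
    (integrableOn_univ.1 ((h a).integrable_inner pot_zero (h b))).const_mul _
  simp only [ip, Measure.restrict_univ, ← integral_const_mul]
  constructor
  · simp only [← integral_finsetSum _ fun b _ => i0 _ b]
    rw [← integral_finsetSum _ fun a _ => integrable_finsetSum _ fun b _ => i0 a b]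
    refine integral_congr_ae (ae_of_all _ fun y => ?_)
    simp only [pow_two, Finset.sum_mul_sum]
    exact Finset.sum_congr rfl fun a _ => Finset.sum_congr rfl fun b _ => by ring
  · simp only [← integral_finsetSum _ fun b _ => i1 _ b]
    rw [← integral_finsetSum _ fun a _ => integrable_finsetSum _ fun b _ => i1 a b]
    refine integral_congr_ae (ae_of_all _ fun y => ?_)
    simp only [← real_inner_self_eq_norm_sq, sum_inner, inner_sum, real_inner_smul_left,
      real_inner_smul_right]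
    rw [Finset.sum_comm]
    exact Finset.sum_congr rfl fun a _ => Finset.sum_congr rfl fun b _ => by ring

theorem NEsy_diag : ∃ cE : ℝ, 1 ≤ cE ∧ ∀ {I : Type} [Fintype I] (fr : Frame I) (c : I → I → ℝ)
    (θ : ℝ) (r : R3), 0 < θ →
    ∫⁻ y, ENNReal.ofReal (NEsy_T c fr.e fr.e (y, y + r) ^ 2) ≤ ENNReal.ofReal
        (cE * ∑ a, ∑ b, (θ * fr.lt b + fr.lt a * fr.lt b / θ) * c a b ^ 2) := by
  obtain ⟨cB, hcB, hB⟩ := NEsy_loc
  refine ⟨cB * 15 + 1, by linarith, fun {I} _ fr c θ r hθ => ?_⟩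
  choose v hv ht hae using fun a => (fr.inF a).seq pot_zero
  simp only [Measure.restrict_univ] at hae
  have hq := fun a b => tendsto_qf pot_zero (fr.inF a) (fr.inF b) (fun n => (hv a n).inF)
    (fun n => (hv b n).inF) (ht a) (ht b)
  set δ0 : ℕ → ℝ := fun n => ∑ a, ∑ b, |ip univ (v a n) (v b n) - ip univ (fr.e a) (fr.e b)|
    with hδ0
  set δ1 : ℕ → ℝ := fun n => ∑ a, ∑ b, |(∫ y in univ, ⟪gradient (v a n) y, gradient (v b n) y⟫_ℝ) -
    ∫ y in univ, ⟪fr.g a y, fr.g b y⟫_ℝ| with hδ1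
  have t0 : Tendsto δ0 atTop (𝓝 0) := by
    have := tendsto_finsetSum Finset.univ fun a _ => tendsto_finsetSum Finset.univ fun b _ =>
      ((hq a b).2.1.sub_const (ip univ (fr.e a) (fr.e b))).abs
    simpa only [sub_self, abs_zero, Finset.sum_const_zero] using this
  have t1 : Tendsto δ1 atTop (𝓝 0) := by
    have := tendsto_finsetSum Finset.univ fun a _ => tendsto_finsetSum Finset.univ fun b _ =>
      ((hq a b).2.2.sub_const (∫ y in univ, ⟪fr.g a y, fr.g b y⟫_ℝ)).abs
    simpa only [sub_self, abs_zero, Finset.sum_const_zero] using this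
  have p0 : ∀ n, 0 ≤ δ0 n := fun n =>
    Finset.sum_nonneg fun a _ => Finset.sum_nonneg fun b _ => abs_nonneg _
  have p1 : ∀ n, 0 ≤ δ1 n := fun n =>
    Finset.sum_nonneg fun a _ => Finset.sum_nonneg fun b _ => abs_nonneg _
  have hlt := fr.lt_nonneg
  have hS : 0 ≤ ∑ a, ∑ b, (θ * fr.lt b + fr.lt a * fr.lt b / θ) * c a b ^ 2 :=
    Finset.sum_nonneg fun a _ => Finset.sum_nonneg fun b _ => by
      have := hlt a
      have := hlt b
      positivity
  refine le_trans (OSob_fatou (f := fun n y => NEsy_T c (fun a => v a n) (fun a => v a n)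
    (y, y + r) ^ 2) (a := fun n => cB * (15 * ∑ a, ∑ b, (θ * ((1 + δ0 n) * (fr.lt b + δ1 n)) +
      (fr.lt a + δ1 n) * (fr.lt b + δ1 n) / θ) * c a b ^ 2))
    (b := cB * (15 * ∑ a, ∑ b, (θ * ((1 + 0) * (fr.lt b + 0)) +
      (fr.lt a + 0) * (fr.lt b + 0) / θ) * c a b ^ 2)) (fun n => ?_) ?_ (fun n => ?_) ?_)
    (ENNReal.ofReal_le_ofReal ?_)
  · have hC : ∀ a, NEsy_C (v a n) := fun a => ⟨(hv a n).1.continuous, (hv a n).2⟩
    exact ((NEsy_T_C c hC hC).sq.1.comp (by fun_prop)).measurable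
  · have h1 : ∀ᵐ y, ∀ a, Tendsto (fun n => v a n y) atTop (𝓝 (fr.e a y)) :=
      ae_all_iff.2 fun a => (hae a).mono fun y hy => hy.1
    have h2 := (measurePreserving_add_right (volume : Measure R3) r).quasiMeasurePreserving.ae h1
    filter_upwards [h1, h2] with y hy1 hy2
    exact (tendsto_finsetSum _ fun a _ => tendsto_finsetSum _ fun b _ =>
      ((hy1 a).const_mul _).mul (hy2 b)).pow 2
  · have hC : ∀ a, NEsy_C (v a n) := fun a => ⟨(hv a n).1.continuous, (hv a n).2⟩
    have hm0 : ∀ a, 0 ≤ fr.lt a + δ1 n := fun a => add_nonneg (hlt a) (p1 n)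
    obtain ⟨h1, h2⟩ := hB _ _ r (NEsy_T_C c hC hC).sq (fun p => sq_nonneg _)
      (mul_nonneg (by norm_num) (Finset.sum_nonneg fun a _ => Finset.sum_nonneg fun b _ => by
        have := hm0 a
        have := hm0 b
        have := p0 n
        positivity))
      fun ρ hρ => NEsy_key c (fun a => hv a n) (K := 1 + δ0 n) hm0 (fun x => by
        have h3 := NEsy_quad (fun a b => ip univ (v a n) (v b n))
          (fun a b => ip univ (fr.e a) (fr.e b)) x
        rw [← (NEsy_gram (fun a => (hv a n).inF) x).1, ← (NEsy_gram fr.inF x).1] at h3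
        rw [← Finset.mul_sum]
        linarith [fr.bes0 x]) (fun x => by
        have h3 := NEsy_quad (fun a b => ∫ y in univ, ⟪gradient (v a n) y, gradient (v b n) y⟫_ℝ)
          (fun a b => ∫ y in univ, ⟪fr.g a y, fr.g b y⟫_ℝ) x
        rw [← (NEsy_gram (fun a => (hv a n).inF) x).2, ← (NEsy_gram fr.inF x).2] at h3
        simp only [add_mul, Finset.sum_add_distrib, ← Finset.mul_sum]
        linarith [fr.bes1 x]) hθ hρ r
    rw [← ofReal_integral_eq_lintegral_ofReal h1 (ae_of_all _ fun y => sq_nonneg _)]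
    exact ENNReal.ofReal_le_ofReal h2
  · refine (Tendsto.const_mul _ (tendsto_finsetSum _ fun a _ => tendsto_finsetSum _ fun b _ =>
      Tendsto.mul_const _ ?_)).const_mul _
    exact (((t0.const_add _).mul (t1.const_add _)).const_mul _).add
      (((t1.const_add _).mul (t1.const_add _)).div_const _)
  · simp only [add_zero, one_mul]
    nlinarith

end Pool.Agent.Lib.MP_8fe63c_mp
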