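import Pool.Agent.Lib.MP_8fe63c_mp.NBes
import Pool.Agent.Lib.MP_8fe63c_mp.OChain

/-!
Hardy inequalities.

Sketch. With `ρ = 1/s` and the smooth vector field `X y = (y - c)/(ρ^2 + ‖y - c‖^2)`,
`div X ≥ 1/(ρ^2 + ‖y-c‖^2)`, so for `Cc1 u` integration by parts in each coordinate
(`integral_mul_fderiv_eq_neg_fderiv_mul_of_integrable`) gives
`∫ u^2 w ≤ - 2 ∫ u ⟪∇u, X⟫ ≤ 2 √(∫ u^2 w) √(∫ ‖∇u‖^2)`, `w = 1/(ρ^2 + ‖y-c‖^2)`. Fatou along `InF.seq`.
Many-body versions: integrate first the leg `b` (`synth_split` with `B = {b}`, `InF.sum`, `bes1`): this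
bounds the marginal by `4/s^2 ∑ η, lt η * (synth (A.erase b) ..)^2`; repeat for the second leg, finish
with `margLe_synth`.
-/

set_option linter.unusedSectionVars false

open MeasureTheory Set Filter Topology
open scoped ENNReal InnerProductSpace

namespace Pool.Agent.Lib.MP_8fe63c_mp

variable {I κ ι : Type} [Fintype I] [DecidableEq I] [Fintype κ] [DecidableEq κ]
  [Fintype ι] [DecidableEq ι]


theorem NHardy_int_fderiv {F : R3 → ℝ} (hF : Cc1 F) (e : R3) :
    Integrable (fun x => fderiv ℝ F x e) ∧ ∫ x, fderiv ℝ F x e = 0 := by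
  have c2 : Continuous fun x => fderiv ℝ F x e :=
    (hF.1.continuous_fderiv one_ne_zero).clm_apply continuous_const
  have i2 : Integrable (fun x => fderiv ℝ F x e) :=
    c2.integrable_of_hasCompactSupport (hF.2.fderiv_apply ℝ e)
  refine ⟨i2, ?_⟩
  have := integral_mul_fderiv_eq_neg_fderiv_mul_of_integrable (μ := volume)
    (f := fun _ : R3 => (1 : ℝ)) (g := F) (v := e) (by simp) (by simpa using i2)
    (by simpa using hF.1.continuous.integrable_of_hasCompactSupport hF.2)
    (fun x _ => differentiableAt_const _) (fun x _ => hF.1.differentiable one_ne_zero x)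
  simpa using this

theorem NHardy_den (s : ℝ) (r : R3) : 0 < 1 + s ^ 2 * ‖r‖ ^ 2 := by positivity

theorem NHardy_contDiff (s : ℝ) (c : R3) : ContDiff ℝ 1 (fun y : R3 => hw s (y - c)) := by
  unfold hw
  refine ContDiff.inv ?_ fun y => (NHardy_den s _).ne'
  exact contDiff_const.add (contDiff_const.mul ((contDiff_id.sub contDiff_const).norm_sq ℝ))

theorem NHardy_fderiv {v : R3 → ℝ} (hv : Cc1 v) (s : ℝ) (c x : R3) (k : Fin 3) :
    fderiv ℝ (fun y : R3 => v y ^ 2 * ((y k - c k) * hw s (y - c))) x (uv k) =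
      v x ^ 2 * (hw s (x - c) - 2 * s ^ 2 * (x k - c k) ^ 2 * hw s (x - c) ^ 2) +
        2 * v x * fderiv ℝ v x (uv k) * ((x k - c k) * hw s (x - c)) := by
  have h1 := (hv.1.differentiable one_ne_zero x).hasFDerivAt.pow 2
  have h2 : HasFDerivAt (fun y : R3 => y k - c k) (EuclideanSpace.proj k : R3 →L[ℝ] ℝ) x :=
    (EuclideanSpace.proj k : R3 →L[ℝ] ℝ).hasFDerivAt.sub_const (c k)
  have h3 := ((((hasFDerivAt_id x).sub_const c).norm_sq).const_mul (s ^ 2)).const_add 1
  have h4 := (hasDerivAt_inv (NHardy_den s (x - c)).ne').comp_hasFDerivAt x h3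
  have h5 := (h1.mul (h2.mul h4)).fderiv
  have e : (fun y : R3 => v y ^ 2 * ((y k - c k) * hw s (y - c))) =
      (fun x => v x ^ 2) * ((fun y : R3 => y k - c k) *
        ((fun y => y⁻¹) ∘ fun y : R3 => 1 + s ^ 2 * ‖id y - c‖ ^ 2)) := rfl
  rw [e, h5]
  simp [uv, hw, EuclideanSpace.inner_single_right]
  ring

theorem NHardy_pt {s V h : ℝ} (hs : 0 < s) (r d : Fin 3 → ℝ)
    (e : h * (1 + s ^ 2 * ∑ k, r k ^ 2) = 1) :
    h * V ^ 2 ≤ 2 * ∑ k, (V ^ 2 * (h - 2 * s ^ 2 * r k ^ 2 * h ^ 2) + 2 * V * d k * (r k * h)) +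
      4 / s ^ 2 * ∑ k, d k ^ 2 := by
  have h1 : ∀ k, -(s ^ 2 * V ^ 2 * h ^ 2 * r k ^ 2) ≤
      2 * (2 * V * d k * (r k * h)) + 4 / s ^ 2 * d k ^ 2 := fun k => by
    have : 2 * (2 * V * d k * (r k * h)) + 4 / s ^ 2 * d k ^ 2 + s ^ 2 * V ^ 2 * h ^ 2 * r k ^ 2 =
        (s * V * h * r k + 2 / s * d k) ^ 2 := by
      field_simp
      ring
    nlinarith [sq_nonneg (s * V * h * r k + 2 / s * d k)]
  simp only [Fin.sum_univ_three] at e ⊢
  have h2 : s ^ 2 * (r 0 ^ 2 + r 1 ^ 2 + r 2 ^ 2) * h ^ 2 = h - h ^ 2 := by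
    linear_combination h * e
  have h3 : V ^ 2 * (s ^ 2 * (r 0 ^ 2 + r 1 ^ 2 + r 2 ^ 2) * h ^ 2) = V ^ 2 * (h - h ^ 2) := by
    rw [h2]
  nlinarith [h1 0, h1 1, h1 2, sq_nonneg (V * h)]

theorem NHardy_cc {v : R3 → ℝ} (hv : Cc1 v) {s : ℝ} (hs : 0 < s) (c : R3) :
    ∫⁻ y, ENNReal.ofReal (hw s (y - c) * v y ^ 2) ≤
      ENNReal.ofReal (4 / s ^ 2 * ∫ y, ‖gradient v y‖ ^ 2) := by
  have hc := NHardy_contDiff s c
  have hsq : HasCompactSupport (fun y => v y ^ 2) :=
    hv.2.comp_left (g := fun t : ℝ => t ^ 2) (by simp)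
  have hF : ∀ k : Fin 3, Cc1 (fun y : R3 => v y ^ 2 * ((y k - c k) * hw s (y - c))) := fun k => by
    refine ⟨(hv.1.pow 2).mul (ContDiff.mul ?_ hc), ?_⟩
    · exact (EuclideanSpace.proj k : R3 →L[ℝ] ℝ).contDiff.sub contDiff_const
    · exact HasCompactSupport.mul_right (f' := fun y : R3 => (y k - c k) * hw s (y - c)) hsq
  have i1 : Integrable (fun y => hw s (y - c) * v y ^ 2) := by
    have c1 : Continuous (fun y => hw s (y - c) * v y ^ 2) :=
      hc.continuous.mul (hv.1.continuous.pow 2)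
    exact c1.integrable_of_hasCompactSupport
      (HasCompactSupport.mul_left (f := fun y => hw s (y - c)) hsq)
  have i2 : Integrable (fun y => ‖gradient v y‖ ^ 2) := by
    have h1 := hv.OBas_G (Ω := univ)
    rw [Measure.restrict_univ] at h1
    exact h1.norm.integrable_sq
  have i3 : Integrable (fun x => ∑ k : Fin 3,
      fderiv ℝ (fun y : R3 => v y ^ 2 * ((y k - c k) * hw s (y - c))) x (uv k)) :=
    integrable_finsetSum _ fun k _ => (NHardy_int_fderiv (hF k) (uv k)).1
  rw [← ofReal_integral_eq_lintegral_ofReal i1 (Eventually.of_forall fun y =>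
    mul_nonneg (inv_pos.2 (NHardy_den s _)).le (sq_nonneg _))]
  refine ENNReal.ofReal_le_ofReal ?_
  calc ∫ y, hw s (y - c) * v y ^ 2
      ≤ ∫ x, (2 * ∑ k : Fin 3,
          fderiv ℝ (fun y : R3 => v y ^ 2 * ((y k - c k) * hw s (y - c))) x (uv k) +
          4 / s ^ 2 * ‖gradient v x‖ ^ 2) := by
        refine integral_mono i1 ((i3.const_mul 2).add (i2.const_mul _)) fun x => ?_
        simp only [NHardy_fderiv hv, normsq_gradient_eq]
        refine NHardy_pt hs (fun k => x k - c k) _ ?_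
        have : ∑ k, (x k - c k) ^ 2 = ‖x - c‖ ^ 2 := by
          rw [EuclideanSpace.real_norm_sq_eq]
          simp
        rw [this]
        exact inv_mul_cancel₀ (NHardy_den s _).ne'
    _ = 4 / s ^ 2 * ∫ y, ‖gradient v y‖ ^ 2 := by
        rw [integral_add (i3.const_mul 2) (i2.const_mul _), integral_const_mul, integral_const_mul,
          integral_finsetSum _ fun k _ => (NHardy_int_fderiv (hF k) (uv k)).1]
        simp only [fun k => (NHardy_int_fderiv (hF k) (uv k)).2]
        simp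

theorem hardy1 {u : R3 → ℝ} {G : R3 → R3} (h : InF univ (fun _ => 0) u G) {s : ℝ} (hs : 0 < s)
    (c : R3) : ∫⁻ y, ENNReal.ofReal (hw s (y - c) * u y ^ 2) ≤
      ENNReal.ofReal (4 / s ^ 2 * ∫ y, ‖G y‖ ^ 2) := by
  obtain ⟨v, hv, ht, hae⟩ := h.seq pot_zero
  rw [Measure.restrict_univ] at hae
  have h1 := (tendsto_qf pot_zero h h (fun n => (hv n).inF) (fun n => (hv n).inF) ht ht).2.2
  simp only [Measure.restrict_univ, real_inner_self_eq_norm_sq] at h1
  have hm := (NHardy_contDiff s c).continuous.measurable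
  calc ∫⁻ y, ENNReal.ofReal (hw s (y - c) * u y ^ 2)
      = ∫⁻ y, liminf (fun n => ENNReal.ofReal (hw s (y - c) * v n y ^ 2)) atTop :=
        lintegral_congr_ae (hae.mono fun y hy =>
          (ENNReal.tendsto_ofReal ((hy.1.pow 2).const_mul _)).liminf_eq.symm)
    _ ≤ liminf (fun n => ∫⁻ y, ENNReal.ofReal (hw s (y - c) * v n y ^ 2)) atTop :=
        lintegral_liminf_le' fun n =>
          (hm.mul ((hv n).1.continuous.measurable.pow_const 2)).ennreal_ofReal.aemeasurable
    _ ≤ liminf (fun n => ENNReal.ofReal (4 / s ^ 2 * ∫ y, ‖gradient (v n) y‖ ^ 2)) atTop :=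
        liminf_le_liminf (Eventually.of_forall fun n => NHardy_cc (hv n) hs c)
    _ = _ := (ENNReal.tendsto_ofReal (h1.const_mul _)).liminf_eq

theorem hw_neg (s : ℝ) (r : R3) : hw s (-r) = hw s r := by
  simp [hw]

theorem hw_pos (s : ℝ) (r : R3) : 0 < hw s r := by
  exact inv_pos.2 (NHardy_den s r)

theorem hw_le_one (s : ℝ) (r : R3) : hw s r ≤ 1 := by
  exact inv_le_one_of_one_le₀ (le_add_of_nonneg_right (by positivity))

theorem hw_smul (s : ℝ) (r : R3) : hw 1 (s • r) = hw s r := by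
  simp [hw, norm_smul, mul_pow]

theorem NHardy_meas (s : ℝ) (a b : κ) : Measurable fun x : κ → R3 => hw s (x a - x b) := by
  unfold hw
  fun_prop

theorem NHardy_sum_single {M : Type} [AddCommMonoid M] (L : Lv I) (b : κ) (f : (κ → I) → M) :
    ∑ η ∈ L.cfg {b}, f η = ∑ i, f (Function.update (fun _ => L.o) b i) := by
  refine Finset.sum_nbij' (fun η => η b) (fun i => Function.update (fun _ => L.o) b i)
    (fun _ _ => Finset.mem_univ _) ?_ ?_ ?_ ?_
  · intro i _
    simp only [Lv.cfg, Finset.mem_filter, Finset.mem_univ, true_and, Finset.mem_singleton]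
    intro j hj
    rw [Function.update_of_ne hj]
  · intro η hη
    simp only [Lv.cfg, Finset.mem_filter, Finset.mem_univ, true_and, Finset.mem_singleton] at hη
    funext j
    by_cases hj : j = b
    · subst hj
      simp
    · rw [Function.update_of_ne hj, hη j hj]
  · intro i _
    simp
  · intro η hη
    simp only [Lv.cfg, Finset.mem_filter, Finset.mem_univ, true_and, Finset.mem_singleton] at hη
    congr 1
    funext j
    by_cases hj : j = b
    · subst hj
      simp
    · rw [Function.update_of_ne hj, hη j hj]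

theorem NHardy_leg (L : Lv I) (fr : Frame I) {s : ℝ} (hs : 0 < s) {A : Finset κ} {a b : κ}
    (hab : a ≠ b) (hb : b ∈ A) (c : (κ → I) → ℝ) (x : κ → R3) :
    marg {b} (fun x => ENNReal.ofReal (hw s (x a - x b) * synth L fr.e A c x ^ 2)) x ≤
      ENNReal.ofReal (4 / s ^ 2 * ∑ η ∈ L.cfg {b}, fr.lt (η b) *
        synth L fr.e (A \ {b}) (fun α => c (({b} : Finset κ).piecewise η α)) x ^ 2) := by
  rw [marg_single]
  let d : I → ℝ := fun i => synth L fr.e (A \ {b})
    (fun α => c (({b} : Finset κ).piecewise (Function.update (fun _ => L.o) b i) α)) x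
  have e1 : ∀ y, synth L fr.e A c (Function.update x b y) = ∑ i, d i * fr.e i y := fun y => by
    rw [synth_split L fr.e (Finset.singleton_subset_iff.2 hb), NHardy_sum_single]
    refine Finset.sum_congr rfl fun i _ => ?_
    rw [Finset.prod_singleton, Function.update_self, Function.update_self]
    congr 1
    refine synth_congr L fr.e _ _ fun j hj => ?_
    rw [Function.update_of_ne]
    simpa using (Finset.mem_sdiff.1 hj).2
  have e2 : ∀ y, hw s (Function.update x b y a - Function.update x b y b) = hw s (y - x a) :=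
    fun y => by rw [Function.update_self, Function.update_of_ne hab, ← hw_neg, neg_sub]
  simp only [e1, e2]
  refine (hardy1 (InF.sum pot_zero Finset.univ (fun i _ => fr.inF i) d) hs (x a)).trans
    (ENNReal.ofReal_le_ofReal (mul_le_mul_of_nonneg_left ?_ (by positivity)))
  rw [NHardy_sum_single]
  simpa only [Function.update_self] using fr.bes1 d

theorem NHardy_step (L : Lv I) (fr : Frame I) {s : ℝ} (hs : 0 < s) {A : Finset κ} {a b : κ}
    (hab : a ≠ b) (hb : b ∈ A) {w : (κ → R3) → ℝ} (hwm : Measurable w) (hw0 : ∀ x, 0 ≤ w x)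
    (hwb : ∀ x y : κ → R3, (∀ i, i ≠ b → x i = y i) → w x = w y) {ω : (κ → I) → ℝ}
    (hω0 : ∀ α, 0 ≤ ω α) (hωb : ∀ η α, ω (({b} : Finset κ).piecewise η α) = ω α)
    (ih : ∀ c : (κ → I) → ℝ,
      MargLe (A \ {b}) (fun x => ENNReal.ofReal (w x * synth L fr.e (A \ {b}) c x ^ 2))
        (∑ α ∈ L.cfg (A \ {b}), ω α * c α ^ 2)) (c : (κ → I) → ℝ) :
    MargLe A (fun x => ENNReal.ofReal (hw s (x a - x b) * w x * synth L fr.e A c x ^ 2))
      (4 / s ^ 2 * ∑ α ∈ L.cfg A, fr.lt (α b) * ω α * c α ^ 2) := by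
  intro x
  have hB : ({b} : Finset κ) ⊆ A := Finset.singleton_subset_iff.2 hb
  have hq : 0 ≤ 4 / s ^ 2 := by positivity
  have m1 : Measurable fun x : κ → R3 =>
      ENNReal.ofReal (hw s (x a - x b) * synth L fr.e A c x ^ 2) :=
    ((NHardy_meas s a b).mul ((measurable_synth L fr.meas A c).pow_const 2)).ennreal_ofReal
  have m2 : ∀ c' : (κ → I) → ℝ, Measurable fun x : κ → R3 =>
      ENNReal.ofReal (w x * synth L fr.e (A \ {b}) c' x ^ 2) := fun c' =>
    (hwm.mul ((measurable_synth L fr.meas _ c').pow_const 2)).ennreal_ofReal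
  have e1 : (fun x => ENNReal.ofReal (hw s (x a - x b) * w x * synth L fr.e A c x ^ 2)) =
      fun x => ENNReal.ofReal (w x) *
        ENNReal.ofReal (hw s (x a - x b) * synth L fr.e A c x ^ 2) := by
    funext y
    rw [← ENNReal.ofReal_mul (hw0 y)]
    congr 1
    ring
  have e2 := marg_union (A := A \ {b}) (B := {b}) (hwm.ennreal_ofReal.mul m1) Finset.sdiff_disjoint
  rw [Finset.sdiff_union_of_subset hB] at e2
  rw [e1]
  calc marg A (fun x => ENNReal.ofReal (w x) *
        ENNReal.ofReal (hw s (x a - x b) * synth L fr.e A c x ^ 2)) x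
      = marg (A \ {b}) (marg {b} fun x => ENNReal.ofReal (w x) *
        ENNReal.ofReal (hw s (x a - x b) * synth L fr.e A c x ^ 2)) x := congrFun e2 x
    _ ≤ marg (A \ {b}) (fun y => ∑ η ∈ L.cfg {b}, ENNReal.ofReal (4 / s ^ 2 * fr.lt (η b)) *
          ENNReal.ofReal (w y *
            synth L fr.e (A \ {b}) (fun α => c (({b} : Finset κ).piecewise η α)) y ^ 2)) x := by
        refine marg_mono _ (fun y => ?_) x
        rw [marg_mul_left {b} m1 (c := fun x => ENNReal.ofReal (w x)) (fun x y h => by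
          rw [hwb x y fun i hi => h i (by simpa using hi)])]
        refine (mul_le_mul_right (NHardy_leg L fr hs hab hb c y) _).trans (le_of_eq ?_)
        rw [← ENNReal.ofReal_mul (hw0 y), Finset.mul_sum, Finset.mul_sum,
          ENNReal.ofReal_sum_of_nonneg fun η _ => mul_nonneg (hw0 y)
            (mul_nonneg hq (mul_nonneg (fr.lt_nonneg _) (sq_nonneg _)))]
        refine Finset.sum_congr rfl fun η _ => ?_
        rw [← ENNReal.ofReal_mul (mul_nonneg hq (fr.lt_nonneg _))]
        congr 1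
        ring
    _ = ∑ η ∈ L.cfg {b}, ENNReal.ofReal (4 / s ^ 2 * fr.lt (η b)) *
          marg (A \ {b}) (fun y => ENNReal.ofReal (w y *
            synth L fr.e (A \ {b}) (fun α => c (({b} : Finset κ).piecewise η α)) y ^ 2)) x := by
        rw [marg_sum _ _ fun η _ => (m2 _).const_mul _]
        refine Finset.sum_congr rfl fun η _ => ?_
        exact marg_mul_left _ (m2 _) (c := fun _ => ENNReal.ofReal (4 / s ^ 2 * fr.lt (η b)))
          (fun _ _ _ => rfl) x
    _ ≤ ∑ η ∈ L.cfg {b}, ENNReal.ofReal (4 / s ^ 2 * fr.lt (η b)) *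
          ENNReal.ofReal (∑ α ∈ L.cfg (A \ {b}),
            ω α * c (({b} : Finset κ).piecewise η α) ^ 2) :=
        Finset.sum_le_sum fun η _ => mul_le_mul_right (ih _ x) _
    _ = _ := by
        rw [← sum_cfg_piecewise L hB, Finset.mul_sum,
          ENNReal.ofReal_sum_of_nonneg fun η _ => mul_nonneg hq (Finset.sum_nonneg fun α _ =>
            mul_nonneg (mul_nonneg (fr.lt_nonneg _) (hω0 _)) (sq_nonneg _))]
        refine Finset.sum_congr rfl fun η _ => ?_
        rw [← ENNReal.ofReal_mul (mul_nonneg hq (fr.lt_nonneg _)), mul_assoc, Finset.mul_sum]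
        congr 2
        refine Finset.sum_congr rfl fun α _ => ?_
        rw [hωb, Finset.piecewise_eq_of_mem _ _ _ (Finset.mem_singleton_self b), mul_assoc]

theorem hardy_synth (L : Lv I) (fr : Frame I) {s : ℝ} (hs : 0 < s) {A : Finset κ} {a b : κ}
    (hab : a ≠ b) (hb : b ∈ A) (c : (κ → I) → ℝ) :
    MargLe A (fun x => ENNReal.ofReal (hw s (x a - x b) * synth L fr.e A c x ^ 2))
      (4 / s ^ 2 * ∑ α ∈ L.cfg A, fr.lt (α b) * c α ^ 2) := by
  have := NHardy_step L fr hs hab hb (w := fun _ => 1) measurable_const (fun _ => zero_le_one)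
    (fun _ _ _ => rfl) (ω := fun _ => 1) (fun _ => zero_le_one) (fun _ _ => rfl)
    (fun c => by simpa only [one_mul] using margLe_synth L fr (A \ {b}) c) c
  simpa only [mul_one] using this

theorem hardy2_synth (L : Lv I) (fr : Frame I) {s : ℝ} (hs : 0 < s) {A : Finset κ} {a b d : κ}
    (hab : a ≠ b) (had : a ≠ d) (hbd : b ≠ d) (hb : b ∈ A) (hd : d ∈ A) (c : (κ → I) → ℝ) :
    MargLe A
      (fun x => ENNReal.ofReal (hw s (x a - x b) * hw s (x a - x d) * synth L fr.e A c x ^ 2))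
      (16 / s ^ 4 * ∑ α ∈ L.cfg A, fr.lt (α b) * fr.lt (α d) * c α ^ 2) := by
  have hq : 0 ≤ 4 / s ^ 2 := by positivity
  have hd' : d ∈ A \ {b} := Finset.mem_sdiff.2 ⟨hd, by simpa using hbd.symm⟩
  have := NHardy_step L fr hs hab hb (w := fun x => hw s (x a - x d)) (NHardy_meas s a d)
    (fun _ => (hw_pos _ _).le) (fun x y h => by rw [h a hab, h d hbd.symm])
    (ω := fun α => 4 / s ^ 2 * fr.lt (α d)) (fun _ => mul_nonneg hq (fr.lt_nonneg _))
    (fun η α => by rw [Finset.piecewise_eq_of_notMem _ _ _ (by simpa using hbd.symm)])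
    (fun c => by simpa only [Finset.mul_sum, mul_assoc] using hardy_synth L fr hs had hd' c) c
  have e : 16 / s ^ 4 * ∑ α ∈ L.cfg A, fr.lt (α b) * fr.lt (α d) * c α ^ 2 =
      4 / s ^ 2 * ∑ α ∈ L.cfg A, fr.lt (α b) * (4 / s ^ 2 * fr.lt (α d)) * c α ^ 2 := by
    rw [Finset.mul_sum, Finset.mul_sum]
    refine Finset.sum_congr rfl fun α _ => ?_
    field_simp
    ring
  rw [e]
  exact this

theorem hardy_vw (fr : Frame I) {s : ℝ} (hs : 0 < s) (c : (κ → I) → ℝ) :
    ∫⁻ x, ENNReal.ofReal (vw s x * hat fr.e c x ^ 2) ≤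
      ENNReal.ofReal (4 * Fintype.card κ / s ^ 2 * ∑ α, (∑ j, fr.lt (α j)) * c α ^ 2) := by
  have hq : 0 ≤ 4 / s ^ 2 := by positivity
  have hn : ∀ b : κ, 0 ≤ 4 / s ^ 2 * ∑ α : κ → I, fr.lt (α b) * c α ^ 2 := fun b =>
    mul_nonneg hq (Finset.sum_nonneg fun α _ => mul_nonneg (fr.lt_nonneg _) (sq_nonneg _))
  have hm : ∀ a b : κ, Measurable fun x : κ → R3 =>
      ENNReal.ofReal ((if a = b then 0 else hw s (x a - x b)) * hat fr.e c x ^ 2) := fun a b => by
    refine (Measurable.mul ?_ ((measurable_hat fr.meas c).pow_const 2)).ennreal_ofReal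
    split_ifs
    · exact measurable_const
    · exact NHardy_meas s a b
  have h0 : ∀ (a b : κ) (x : κ → R3),
      0 ≤ (if a = b then 0 else hw s (x a - x b)) * hat fr.e c x ^ 2 := fun a b x => by
    refine mul_nonneg ?_ (sq_nonneg _)
    split_ifs
    · exact le_rfl
    · exact (hw_pos _ _).le
  have h1 : ∀ a b : κ, ∫⁻ x : κ → R3,
      ENNReal.ofReal ((if a = b then 0 else hw s (x a - x b)) * hat fr.e c x ^ 2) ≤
      ENNReal.ofReal (4 / s ^ 2 * ∑ α : κ → I, fr.lt (α b) * c α ^ 2) := fun a b => by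
    by_cases hab : a = b
    · simp [hab]
    · simp only [if_neg hab]
      rcases isEmpty_or_nonempty I with hI | ⟨⟨o⟩⟩
      · have : IsEmpty (κ → I) := ⟨fun α => hI.false (α a)⟩
        simp [hat]
      · have := hardy_synth ⟨o, ∅, fun _ => 0⟩ fr hs hab (Finset.mem_univ b) c 0
        rwa [marg_univ, synth_univ, Lv.cfg_univ] at this
  calc ∫⁻ x, ENNReal.ofReal (vw s x * hat fr.e c x ^ 2)
      = ∫⁻ x : κ → R3, ∑ a, ∑ b,
          ENNReal.ofReal ((if a = b then 0 else hw s (x a - x b)) * hat fr.e c x ^ 2) := by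
        refine lintegral_congr fun x => ?_
        rw [vw, Finset.sum_mul]
        simp only [Finset.sum_mul]
        rw [ENNReal.ofReal_sum_of_nonneg fun a _ => Finset.sum_nonneg fun b _ => h0 a b x]
        exact Finset.sum_congr rfl fun a _ => ENNReal.ofReal_sum_of_nonneg fun b _ => h0 a b x
    _ = ∑ a, ∑ b, ∫⁻ x : κ → R3,
          ENNReal.ofReal ((if a = b then 0 else hw s (x a - x b)) * hat fr.e c x ^ 2) := by
        rw [lintegral_finsetSum _ fun a _ => Finset.measurable_sum _ fun b _ => hm a b]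
        exact Finset.sum_congr rfl fun a _ => lintegral_finsetSum _ fun b _ => hm a b
    _ ≤ ∑ _a : κ, ∑ b, ENNReal.ofReal (4 / s ^ 2 * ∑ α : κ → I, fr.lt (α b) * c α ^ 2) :=
        Finset.sum_le_sum fun a _ => Finset.sum_le_sum fun b _ => h1 a b
    _ = _ := by
        rw [← ENNReal.ofReal_sum_of_nonneg fun b _ => hn b,
          ← ENNReal.ofReal_sum_of_nonneg fun _ _ => Finset.sum_nonneg fun b _ => hn b]
        congr 1
        rw [Finset.sum_const, Finset.card_univ, nsmul_eq_mul, ← Finset.mul_sum, Finset.sum_comm]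
        simp only [Finset.sum_mul]
        ring

end Pool.Agent.Lib.MP_8fe63c_mp
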