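import Pool.Agent.Lib.MP_8fe63c_mp.Stmt

/-!
One-body definitions: form domain, eigenbases, frames, trap data.
-/

open MeasureTheory Set
open scoped ENNReal InnerProductSpace

namespace Pool.Agent.Lib.MP_8fe63c_mp

/-- `C^1` with compact support. -/
def Cc1 {X : Type} [NormedAddCommGroup X] [NormedSpace ℝ X] (v : X → ℝ) : Prop :=
  ContDiff ℝ 1 v ∧ HasCompactSupport v

/-- `C^1`, bounded, with bounded derivative. -/
def Cb1 {X : Type} [NormedAddCommGroup X] [NormedSpace ℝ X] (v : X → ℝ) : Prop :=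
  ContDiff ℝ 1 v ∧ ∃ M : ℝ, ∀ x, |v x| ≤ M ∧ ‖fderiv ℝ v x‖ ≤ M

/-- admissible one-body potentials -/
structure Pot (W : R3 → ℝ) : Prop where
  meas : Measurable W
  nonneg : ∀ x, 0 ≤ W x
  locBdd : ∀ R : ℝ, ∃ M : ℝ, ∀ x, ‖x‖ ≤ R → W x ≤ M

/-- confining potentials -/
def Grows (W : R3 → ℝ) : Prop := ∀ A : ℝ, ∃ R : ℝ, ∀ x, R ≤ ‖x‖ → A ≤ W x

/-- squared graph distance on `Ω` -/
noncomputable def gdist (Ω : Set R3) (W : R3 → ℝ) (u : R3 → ℝ) (G : R3 → R3) (v : R3 → ℝ)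
    (H : R3 → R3) : ℝ≥0∞ :=
  ∫⁻ x in Ω, ENNReal.ofReal ((1 + W x) * (u x - v x) ^ 2 + ‖G x - H x‖ ^ 2)

/-- `u` is in the form domain, with gradient `G`. -/
structure InF (Ω : Set R3) (W : R3 → ℝ) (u : R3 → ℝ) (G : R3 → R3) : Prop where
  mu : Measurable u
  mG : Measurable G
  approx : ∀ ε : ℝ≥0∞, 0 < ε → ∃ v : R3 → ℝ, Cc1 v ∧ gdist Ω W u G v (gradient v) ≤ ε

/-- the energy form -/
noncomputable def qf (Ω : Set R3) (W : R3 → ℝ) (u : R3 → ℝ) (G : R3 → R3) (v : R3 → ℝ)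
    (H : R3 → R3) : ℝ :=
  ∫ x in Ω, (⟪G x, H x⟫_ℝ + W x * u x * v x)

/-- the `L^2` inner product on `Ω` -/
noncomputable def ip (Ω : Set R3) (u v : R3 → ℝ) : ℝ := ∫ x in Ω, u x * v x

/-- open cube with corner `c` and side `l` -/
def cube (c : R3) (l : ℝ) : Set R3 := {x | ∀ k, c k < x k ∧ x k < c k + l}

/-- compactness condition -/
def Conf (Ω : Set R3) (W : R3 → ℝ) : Prop :=
  ∀ ε : ℝ, 0 < ε → ∃ (s : Finset R3) (l : ℝ), 0 < l ∧ l ≤ ε ∧ (∀ c ∈ s, cube c l ⊆ Ω) ∧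
    (∀ c ∈ s, ∀ c' ∈ s, c ≠ c' → Disjoint (cube c l) (cube c' l)) ∧
    ∀ᵐ x ∂(volume.restrict Ω), (∀ c ∈ s, x ∉ cube c l) → 1 ≤ ε * W x

/-- an orthonormal eigenbasis of the form `qf Ω W` -/
structure EB (Ω : Set R3) (W : R3 → ℝ) where
  J : Type
  e : J → R3 → ℝ
  g : J → R3 → R3
  ν : J → ℝ
  inF : ∀ a, InF Ω W (e a) (g a)
  nrm : ∀ a, ip Ω (e a) (e a) = 1
  orth : ∀ a b, a ≠ b → ip Ω (e a) (e b) = 0
  eig : ∀ a u G, InF Ω W u G → qf Ω W (e a) (g a) u G = ν a * ip Ω (e a) u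
  fin : ∀ M : ℝ, {a | ν a ≤ M}.Finite
  par0 : ∀ f : R3 → ℝ, MemLp f 2 (volume.restrict Ω) →
    HasSum (fun a => (ip Ω (e a) f) ^ 2) (∫ x in Ω, f x ^ 2)
  par1 : ∀ u G, InF Ω W u G →
    HasSum (fun a => ν a * (ip Ω (e a) u) ^ 2) (qf Ω W u G u G)

/-- Galerkin index set -/
def EB.I {Ω : Set R3} {W : R3 → ℝ} (B : EB Ω W) (M : ℝ) : Type := {a : B.J // B.ν a ≤ M}

noncomputable instance {Ω : Set R3} {W : R3 → ℝ} (B : EB Ω W) (M : ℝ) : Fintype (B.I M) :=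
  (B.fin M).fintype

noncomputable instance {Ω : Set R3} {W : R3 → ℝ} (B : EB Ω W) (M : ℝ) : DecidableEq (B.I M) :=
  Classical.decEq _

/-- Gross-Pitaevskii minimiser with the eigenbasis of the linearised operator. -/
structure Trap (W : R3 → ℝ) (b : ℝ) where
  φ : R3 → ℝ
  μ : ℝ
  γ : ℝ
  M : ℝ
  B : EB univ (fun x => W x + b / 2 * φ x ^ 4)
  o : B.J
  e_o : B.e o = φ
  ν_o : B.ν o = μ
  γ_pos : 0 < γ
  gap : ∀ a, a ≠ o → μ + γ ≤ B.ν a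
  φ_nonneg : ∀ x, 0 ≤ φ x
  φ_le : ∀ x, φ x ≤ M
  bdd : ∀ a, ∃ K : ℝ, ∀ x, |B.e a x| ≤ K
  eGP_eq : eGP W b = μ - b / 3 * ∫ x, φ x ^ 6

/-- a finite family of `H^1` functions on the whole space with Bessel inequalities -/
structure Frame (I : Type) [Fintype I] where
  e : I → R3 → ℝ
  g : I → R3 → R3
  lt : I → ℝ
  lt_nonneg : ∀ a, 0 ≤ lt a
  inF : ∀ a, InF univ (fun _ => 0) (e a) (g a)
  bes0 : ∀ c : I → ℝ, ∫ x, (∑ a, c a * e a x) ^ 2 ≤ ∑ a, c a ^ 2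
  bes1 : ∀ c : I → ℝ, ∫ x, ‖∑ a, c a • g a x‖ ^ 2 ≤ ∑ a, lt a * c a ^ 2

/-- a frame which satisfies an eigenvalue equation against tests supported in `S` -/
structure EFrame (I : Type) [Fintype I] (W : R3 → ℝ) (S : Set R3) extends Frame I where
  ν : I → ℝ
  ν_nonneg : ∀ a, 0 ≤ ν a
  ν_le : ∀ a, ν a ≤ lt a
  inFW : ∀ a, InF univ W (e a) (g a)
  eig : ∀ a u G, InF univ W u G → (∀ x, x ∉ S → u x = 0 ∧ G x = 0) →
    qf univ W (e a) (g a) u G = ν a * ip univ (e a) u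
  besS : ∀ c : I → ℝ, ∫ x in S, (‖∑ a, c a • g a x‖ ^ 2 + W x * (∑ a, c a * e a x) ^ 2) ≤
    ∑ a, ν a * c a ^ 2

/-- bounded, square integrable, Lipschitz in `L^2` under translations -/
structure Lip2 (A : R3 → ℝ) (M : ℝ) : Prop where
  meas : Measurable A
  bdd : ∀ x, |A x| ≤ M
  l2 : ∫⁻ x, ENNReal.ofReal (A x ^ 2) ≤ ENNReal.ofReal (M ^ 2)
  tr : ∀ h : R3, ∫⁻ x, ENNReal.ofReal ((A (x + h) - A x) ^ 2) ≤ ENNReal.ofReal (M ^ 2 * ‖h‖ ^ 2)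

/-- bounded element of the form domain with all norms at most `M` -/
structure BF (W : R3 → ℝ) (u : R3 → ℝ) (G : R3 → R3) (M : ℝ) : Prop where
  inF : InF univ W u G
  bdd : ∀ x, |u x| ≤ M
  l2 : ∫ x, u x ^ 2 ≤ M ^ 2
  en : qf univ W u G u G ≤ M ^ 2

/-- gradient in the `i`-th variable -/
noncomputable def pgrad {ι : Type} [DecidableEq ι] (F : (ι → R3) → ℝ) (i : ι) (x : ι → R3) : R3 :=
  gradient (fun y => F (Function.update x i y)) (x i)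

/-- the Gross-Pitaevskii functional on the form domain -/
noncomputable def gpE (W : R3 → ℝ) (b : ℝ) (u : R3 → ℝ) (G : R3 → R3) : ℝ :=
  qf univ W u G u G + b / 6 * ∫ x, u x ^ 6

end Pool.Agent.Lib.MP_8fe63c_mp
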