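import Pool.Agent.Lib.MP_8fe63c_mp.ORel

/-!
Existence of an eigenbasis.

Sketch. `T = J† ∘ J` is compact, symmetric, injective on `H`. By
`ContinuousLinearMap.orthogonalComplement_iSup_eigenspaces_eq_bot` the eigenspaces span a dense
subspace. Take an orthonormal basis of each eigenspace (`exists_hilbertBasis` or
`stdOrthonormalBasis` with `finite_dimensional_eigenspace`); the union `ξ a`, index type
`Σ τ, basis of eigenspace τ`, is a Hilbert basis of `H` (`HilbertBasis.mkOfOrthogonalEqBot`), with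
eigenvalues `τ a = ‖J (ξ a)‖^2 ∈ (0, 1]` (because `‖J‖ ≤ 1`). The vectors `J (ξ a) / √τ a` are
orthonormal with trivial orthogonal complement (dense range). Finiteness of `{a | δ ≤ τ a}`: an
infinite orthonormal family has `‖J ξ a - J ξ b‖^2 = τ a + τ b ≥ 2 δ`, against compactness.
For `exists_EB` put `ν = 1/τ - 1`, `e a = fn (ξ a) / √τ a`.
-/

set_option linter.unusedSectionVars false

open MeasureTheory Set Filter Topology
open scoped ENNReal InnerProductSpace

namespace Pool.Agent.Lib.MP_8fe63c_mp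

theorem OEig_basis {H : Type} [NormedAddCommGroup H] [InnerProductSpace ℝ H] [CompleteSpace H]
    (T : H →L[ℝ] H) (hc : IsCompactOperator T) (hs : (T : H →ₗ[ℝ] H).IsSymmetric) :
    ∃ (A : Type) (ξ : HilbertBasis A ℝ H) (τ : A → ℝ), ∀ a, T (ξ a) = τ a • ξ a := by
  have hcomp : ∀ μ : ℝ, CompleteSpace (Module.End.eigenspace (T : Module.End ℝ H) μ) := fun μ =>
    (T.isClosed_eigenspace μ).completeSpace_coe
  choose w b _ using fun μ : ℝ =>
    exists_hilbertBasis ℝ (Module.End.eigenspace (T : Module.End ℝ H) μ)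
  let v : (Σ μ : ℝ, w μ) → H := fun a => (b a.1 a.2 : H)
  have hv : Orthonormal ℝ v :=
    hs.orthogonalFamily_eigenspaces.orthonormal_sigma_orthonormal fun μ => (b μ).orthonormal
  have hsp : (Submodule.span ℝ (range v))ᗮ = ⊥ := by
    rw [eq_bot_iff, ← ContinuousLinearMap.orthogonalComplement_iSup_eigenspaces_eq_bot hc hs,
      ← Submodule.iInf_orthogonal]
    intro x hx
    rw [Submodule.mem_iInf]
    intro μ
    rw [Submodule.mem_orthogonal']
    intro y hy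
    have h1 := ((b μ).hasSum_repr ⟨y, hy⟩).mapL
      ((innerSL ℝ x).comp (Module.End.eigenspace (T : Module.End ℝ H) μ).subtypeL)
    have h2 : ∀ i : w μ, ⟪x, (b μ i : H)⟫_ℝ = 0 := fun i =>
      (Submodule.mem_orthogonal' _ _).1 hx _ (Submodule.subset_span ⟨⟨μ, i⟩, rfl⟩)
    simp only [map_smul, ContinuousLinearMap.comp_apply, Submodule.subtypeL_apply,
      innerSL_apply_apply, h2, smul_zero] at h1
    exact h1.unique hasSum_zero
  refine ⟨_, HilbertBasis.mkOfOrthogonalEqBot hv hsp, fun a => a.1, fun a => ?_⟩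
  rw [HilbertBasis.coe_mkOfOrthogonalEqBot]
  exact Module.End.mem_eigenspace_iff.1 (b a.1 a.2).2

theorem OEig_finite {K A : Type} [PseudoMetricSpace K] {C : Set K} (hC : IsCompact C) (p : A → K)
    (S : Set A) (hp : ∀ a ∈ S, p a ∈ C) {r : ℝ} (hr : 0 < r)
    (hsep : ∀ a ∈ S, ∀ b ∈ S, a ≠ b → r ≤ dist (p a) (p b)) : S.Finite := by
  obtain ⟨t, ht, hcov⟩ := Metric.totallyBounded_iff.1 hC.totallyBounded (r / 2) (by linarith)
  have h1 : ∀ a ∈ S, ∃ y ∈ t, p a ∈ Metric.ball y (r / 2) := fun a ha => by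
    simpa using hcov (hp a ha)
  rcases S.eq_empty_or_nonempty with rfl | ⟨a0, -⟩
  · exact finite_empty
  have : Nonempty K := ⟨p a0⟩
  choose! f hf1 hf2 using h1
  refine Set.Finite.of_finite_image (f := f) (ht.subset ?_) ?_
  · rintro _ ⟨a, ha, rfl⟩
    exact hf1 a ha
  · intro a ha c hc hac
    by_contra hne
    have h2 := hsep a ha c hc hne
    have h3 := Metric.mem_ball.1 (hf2 a ha)
    have h4 := Metric.mem_ball.1 (hf2 c hc)
    rw [← hac] at h4
    have h5 := dist_triangle_right (p a) (p c) (f a)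
    linarith

theorem abstract_eig {H K : Type} [NormedAddCommGroup H] [InnerProductSpace ℝ H] [CompleteSpace H]
    [NormedAddCommGroup K] [InnerProductSpace ℝ K] [CompleteSpace K] (J : H →L[ℝ] K)
    (hc : IsCompactOperator J) (hi : Function.Injective J) (hd : DenseRange J) :
    ∃ (A : Type) (ξ : HilbertBasis A ℝ H) (e : HilbertBasis A ℝ K) (τ : A → ℝ),
      (∀ a, 0 < τ a) ∧ (∀ a, J (ξ a) = √(τ a) • e a) ∧
      (∀ a x, ⟪e a, J x⟫_ℝ = √(τ a) * ⟪ξ a, x⟫_ℝ) ∧
      ∀ δ : ℝ, 0 < δ → {a | δ ≤ τ a}.Finite := by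
  let T : H →L[ℝ] H := (ContinuousLinearMap.adjoint J).comp J
  have hT : ∀ x y, ⟪T x, y⟫_ℝ = ⟪J x, J y⟫_ℝ := fun x y =>
    ContinuousLinearMap.adjoint_inner_left J y (J x)
  have hs : (T : H →ₗ[ℝ] H).IsSymmetric := fun x y => by
    change ⟪T x, y⟫_ℝ = ⟪x, T y⟫_ℝ
    rw [hT, real_inner_comm (T y), hT, real_inner_comm]
  obtain ⟨A, ξ, τ, hτ⟩ := OEig_basis T (hc.clm_comp (ContinuousLinearMap.adjoint J)) hs
  have h1 : ∀ a x, ⟪J (ξ a), J x⟫_ℝ = τ a * ⟪ξ a, x⟫_ℝ := fun a x => by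
    rw [← hT, hτ, real_inner_smul_left]
  have hn : ∀ a, ⟪ξ a, ξ a⟫_ℝ = 1 := fun a => by
    rw [real_inner_self_eq_norm_sq, ξ.orthonormal.1 a, one_pow]
  have hpos : ∀ a, 0 < τ a := fun a => by
    have h2 := h1 a (ξ a)
    rw [hn, mul_one] at h2
    rw [← h2]
    refine real_inner_self_pos.2 fun h0 => ξ.orthonormal.ne_zero a (hi ?_)
    rw [h0, map_zero]
  have hsq : ∀ a, 0 < √(τ a) := fun a => Real.sqrt_pos.2 (hpos a)
  let v : A → K := fun a => (√(τ a))⁻¹ • J (ξ a)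
  have h3 : ∀ a x, ⟪v a, J x⟫_ℝ = √(τ a) * ⟪ξ a, x⟫_ℝ := fun a x => by
    simp only [v]
    rw [real_inner_smul_left, h1, ← mul_assoc, inv_mul_eq_div, Real.div_sqrt]
  have hv : Orthonormal ℝ v := by
    classical
    rw [orthonormal_iff_ite]
    intro a c
    change ⟪v a, (√(τ c))⁻¹ • J (ξ c)⟫_ℝ = _
    rw [real_inner_smul_right, h3, orthonormal_iff_ite.1 ξ.orthonormal]
    split_ifs with h
    · rw [h, mul_one, inv_mul_cancel₀ (hsq c).ne']
    · simp
  have hsp : (Submodule.span ℝ (range v))ᗮ = ⊥ := by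
    rw [Submodule.eq_bot_iff]
    intro y hy
    have h4 : ∀ a, ⟪ξ a, ContinuousLinearMap.adjoint J y⟫_ℝ = 0 := fun a => by
      have h5 : ⟪v a, y⟫_ℝ = 0 :=
        (Submodule.mem_orthogonal _ _).1 hy _ (Submodule.subset_span ⟨a, rfl⟩)
      simp only [v] at h5
      rw [real_inner_smul_left, mul_eq_zero] at h5
      rw [ContinuousLinearMap.adjoint_inner_right]
      exact h5.resolve_left (inv_ne_zero (hsq a).ne')
    have h6 : ContinuousLinearMap.adjoint J y = 0 := by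
      have h7 := ξ.hasSum_repr (ContinuousLinearMap.adjoint J y)
      simp only [ξ.repr_apply_apply, h4, zero_smul] at h7
      exact h7.unique hasSum_zero
    have h8 : ∀ z, ⟪z, y⟫_ℝ = 0 := fun z => by
      refine hd.induction_on z (isClosed_eq (by fun_prop) continuous_const) fun x => ?_
      rw [← ContinuousLinearMap.adjoint_inner_right, h6, inner_zero_right]
    exact inner_self_eq_zero.1 (h8 y)
  refine ⟨A, ξ, HilbertBasis.mkOfOrthogonalEqBot hv hsp, τ, hpos, fun a => ?_, fun a x => ?_,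
    fun δ hδ => ?_⟩
  · rw [HilbertBasis.coe_mkOfOrthogonalEqBot]
    simp only [v]
    rw [smul_smul, mul_inv_cancel₀ (hsq a).ne', one_smul]
  · rw [HilbertBasis.coe_mkOfOrthogonalEqBot, h3]
  · obtain ⟨C, hC, hsub⟩ :=
      IsCompactOperator.image_closedBall_subset_compact (f := (J : H →ₗ[ℝ] K)) hc 1
    refine OEig_finite hC (fun a => J (ξ a)) _
      (fun a _ => hsub ⟨ξ a, by simp [ξ.orthonormal.1 a], rfl⟩) (Real.sqrt_pos.2 hδ) ?_
    intro a ha c hc' hac
    have h9 : ‖J (ξ a) - J (ξ c)‖ ^ 2 = τ a + τ c := by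
      rw [norm_sub_sq_real, ← real_inner_self_eq_norm_sq, ← real_inner_self_eq_norm_sq, h1, h1, h1,
        hn, hn, ξ.orthonormal.2 hac]
      ring
    rw [dist_eq_norm]
    refine Real.sqrt_le_iff.2 ⟨norm_nonneg _, ?_⟩
    rw [h9]
    have h10 : δ ≤ τ a := ha
    linarith [hpos c]

theorem OEig_ip {Ω : Set R3} (F G : Lp ℝ 2 (volume.restrict Ω)) {f g : R3 → ℝ}
    (hf : (F : R3 → ℝ) =ᵐ[volume.restrict Ω] f) (hg : (G : R3 → ℝ) =ᵐ[volume.restrict Ω] g) :
    ip Ω f g = ⟪F, G⟫_ℝ := by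
  rw [L2.inner_def, ip]
  refine integral_congr_ae ?_
  filter_upwards [hf, hg] with x h1 h2
  rw [h1, h2]
  simp [mul_comm]

theorem OEig_qf_smul {Ω : Set R3} {W u v : R3 → ℝ} {G H : R3 → R3} (c : ℝ) :
    qf Ω W (fun x => c * u x) (fun x => c • G x) v H = c * qf Ω W u G v H := by
  rw [qf, qf, ← integral_const_mul]
  refine integral_congr_ae (Eventually.of_forall fun x => ?_)
  simp only [real_inner_smul_left]
  ring

theorem OEig_congr {A : Type} {f g : A → ℝ} {s : ℝ} (h : HasSum f s) (e : ∀ a, g a = f a) :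
    HasSum g s := (funext e : g = f) ▸ h

theorem exists_EB {Ω : Set R3} {W : R3 → ℝ} (hW : Pot W) (hΩ : IsOpen Ω) (hc : Conf Ω W) :
    Nonempty (EB Ω W) := by
  obtain ⟨m⟩ := exists_HModel hW Ω
  obtain ⟨A, ξ, e, τ, hpos, hJ, hin, hfin⟩ :=
    abstract_eig m.J (m.compact hW hΩ hc) (m.injective hW hΩ) (m.dense hW hΩ)
  have hsq : ∀ a, 0 < √(τ a) := fun a => Real.sqrt_pos.2 (hpos a)
  have hsq2 : ∀ a, √(τ a) * √(τ a) = τ a := fun a => Real.mul_self_sqrt (hpos a).le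
  have he : ∀ a, (e a : R3 → ℝ) =ᵐ[volume.restrict Ω] fun x => (√(τ a))⁻¹ * m.fn (ξ a) x :=
    fun a => by
      have h1 : e a = (√(τ a))⁻¹ • m.J (ξ a) := by
        rw [hJ, smul_smul, inv_mul_cancel₀ (hsq a).ne', one_smul]
      rw [h1]
      filter_upwards [Lp.coeFn_smul (√(τ a))⁻¹ (m.J (ξ a)), m.J_eq (ξ a)] with x h2 h3
      rw [h2, Pi.smul_apply, h3, smul_eq_mul]
  have hq : ∀ η η' : m.H, qf Ω W (m.fn η) (m.gr η) (m.fn η') (m.gr η') =
      ⟪η, η'⟫_ℝ - ⟪m.J η, m.J η'⟫_ℝ := fun η η' => by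
    rw [m.inner_eq, OEig_ip _ _ (m.J_eq η) (m.J_eq η')]
    ring
  refine ⟨⟨A, fun a x => (√(τ a))⁻¹ * m.fn (ξ a) x, fun a x => (√(τ a))⁻¹ • m.gr (ξ a) x,
    fun a => 1 / τ a - 1, fun a => (m.inF (ξ a)).smul hW _, fun a => ?_, fun a b hab => ?_,
    fun a u G h => ?_, fun M => ?_, fun f hf => ?_, fun u G h => ?_⟩⟩
  · rw [OEig_ip _ _ (he a) (he a), real_inner_self_eq_norm_sq, e.orthonormal.1 a, one_pow]
  · rw [OEig_ip _ _ (he a) (he b)]
    exact e.orthonormal.2 hab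
  · obtain ⟨η, h1, h2⟩ := m.surj u G h
    rw [OEig_qf_smul, ← qf_congr_ae EventuallyEq.rfl EventuallyEq.rfl h1 h2, hq,
      OEig_ip _ _ (he a) ((m.J_eq η).trans h1), hJ, real_inner_smul_left, hin]
    have h3 := hsq2 a
    have h4 := (hsq a).ne'
    generalize √(τ a) = s at h3 h4 ⊢
    rw [← h3]
    field_simp
  · refine (hfin (1 / (|M| + 1)) (by positivity)).subset fun a ha => ?_
    have h1 : 1 / τ a - 1 ≤ M := ha
    have h2 : 1 / τ a ≤ |M| + 1 := by linarith [le_abs_self M]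
    exact (one_div_le (hpos a) (by positivity)).1 h2
  · have h1 := e.hasSum_inner_mul_inner (hf.toLp f) (hf.toLp f)
    rw [← OEig_ip _ _ hf.coeFn_toLp hf.coeFn_toLp] at h1
    have h2 : ∫ x in Ω, f x ^ 2 = ip Ω f f := by simp only [ip, sq]
    rw [h2]
    refine OEig_congr h1 fun a => ?_
    rw [OEig_ip _ _ (he a) hf.coeFn_toLp, real_inner_comm (e a), sq]
  · obtain ⟨η, h1, h2⟩ := m.surj u G h
    rw [← qf_congr_ae h1 h2 h1 h2, hq]
    refine OEig_congr ((ξ.hasSum_inner_mul_inner η η).sub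
      (e.hasSum_inner_mul_inner (m.J η) (m.J η))) fun a => ?_
    rw [OEig_ip _ _ (he a) ((m.J_eq η).trans h1), real_inner_comm (ξ a), real_inner_comm (e a), hin]
    have h3 := hsq2 a
    have h4 := (hsq a).ne'
    generalize √(τ a) = s at h3 h4 ⊢
    rw [← h3]
    field_simp

end Pool.Agent.Lib.MP_8fe63c_mp
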