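import Pool.Agent.Lib.MP_8fe63c_mp.ORel
import Pool.Agent.Lib.MP_8fe63c_mp.OSqrt
import Pool.Agent.Lib.MP_8fe63c_mp.OSob

/-!
Existence of a nonnegative Gross-Pitaevskii minimiser; the value of `eGP`.

Sketch. Minimising sequence, `exists_subseq`, pass to a further subsequence along which the two
parts of the energy converge, `InF.lsc` for the quadratic part, Fatou for the `L^6` part,
`InF.abs` for the sign. `eGP_eq`: for complex `u` apply `InF.sqrt_add` to the real and imaginary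
parts (both `Cc1`; `‖fderiv u x v‖^2 = (fderiv re x v)^2 + (fderiv im x v)^2`); conversely
approximate `φ` by `Cc1` functions, normalise them, use `tendsto_qf` and `tendsto_int6`.
-/

set_option linter.unusedSectionVars false
set_option linter.unusedVariables false

open MeasureTheory Set Filter Topology
open scoped ENNReal InnerProductSpace

namespace Pool.Agent.Lib.MP_8fe63c_mp

variable {W : R3 → ℝ} {b : ℝ}

/-- `φ` is a nonnegative minimiser -/
structure IsMin (W : R3 → ℝ) (b : ℝ) (φ : R3 → ℝ) (G : R3 → R3) : Prop where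
  inF : InF univ W φ G
  nonneg : ∀ x, 0 ≤ φ x
  nrm : ip univ φ φ = 1
  min : ∀ u H, InF univ W u H → ip univ u u = 1 → gpE W b φ G ≤ gpE W b u H

theorem OGP_ip_smul (Ω : Set R3) (c : ℝ) (u : R3 → ℝ) :
    ip Ω (fun x => c * u x) (fun x => c * u x) = c ^ 2 * ip Ω u u := by
  unfold ip
  rw [← integral_const_mul]
  exact integral_congr_ae (Eventually.of_forall fun x => by ring)

theorem OGP_gpE_smul (c : ℝ) (u : R3 → ℝ) (G : R3 → R3) :
    gpE W b (fun x => c * u x) (fun x => c • G x) =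
      c ^ 2 * qf univ W u G u G + b / 6 * (c ^ 6 * ∫ x, u x ^ 6) := by
  have e1 : ∫ x, (c * u x) ^ 6 = c ^ 6 * ∫ x, u x ^ 6 := by
    rw [← integral_const_mul]
    exact integral_congr_ae (Eventually.of_forall fun x => mul_pow _ _ _)
  have e2 : qf univ W (fun x => c * u x) (fun x => c • G x) (fun x => c * u x) (fun x => c • G x) =
      c ^ 2 * qf univ W u G u G := by
    unfold qf
    rw [← integral_const_mul]
    refine integral_congr_ae (Eventually.of_forall fun x => ?_)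
    simp only [real_inner_smul_left, real_inner_smul_right]
    ring
  rw [gpE, e1, e2]

theorem OGP_nrm {s : ℝ} (hs : 0 < s) : (√s)⁻¹ ^ 2 * s = 1 := by
  rw [inv_pow, Real.sq_sqrt hs.le, inv_mul_cancel₀ hs.ne']

theorem OGP_gpE_nonneg (hW : Pot W) (hb : 0 ≤ b) (u : R3 → ℝ) (G : R3 → R3) : 0 ≤ gpE W b u G :=
  add_nonneg (qf_nonneg hW) (mul_nonneg (by positivity)
    (integral_nonneg fun x => by positivity))

theorem OGP_exists_nrm (hW : Pot W) : ∃ u G, InF univ W u G ∧ ip univ u u = 1 := by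
  let f : ContDiffBump (0 : R3) := ⟨1, 2, one_pos, one_lt_two⟩
  have hf : Cc1 (f : R3 → ℝ) := ⟨f.contDiff, f.hasCompactSupport⟩
  have hpos : 0 < ip univ f f := by
    unfold ip
    rw [Measure.restrict_univ]
    refine Continuous.integral_pos_of_hasCompactSupport_nonneg_nonzero (x := 0)
      (f.continuous.mul f.continuous) f.hasCompactSupport.mul_left
      (fun x => mul_self_nonneg _) ?_
    rw [f.one_of_mem_closedBall (Metric.mem_closedBall_self f.rIn_pos.le)]
    norm_num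
  exact ⟨_, _, hf.inF.smul hW (√(ip univ f f))⁻¹, by rw [OGP_ip_smul, OGP_nrm hpos]⟩

/-- Fatou lemma for real integrals -/
theorem OGP_fatou {f : ℕ → R3 → ℝ} {g : R3 → ℝ} (hm : ∀ n, Measurable (f n))
    (hi : ∀ n, Integrable (f n)) (h0 : ∀ n x, 0 ≤ f n x) (hg : Measurable g) (hg0 : ∀ x, 0 ≤ g x)
    (hl : ∀ᵐ x, Tendsto (fun n => f n x) atTop (𝓝 (g x))) :
    Tendsto (fun n => min (∫ x, f n x) (∫ x, g x)) atTop (𝓝 (∫ x, g x)) := by
  refine tendsto_order.2 ⟨fun t ht => ?_, fun t ht =>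
    Eventually.of_forall fun n => (min_le_right _ _).trans_lt ht⟩
  rcases lt_or_ge t 0 with h | h
  · exact Eventually.of_forall fun n => lt_min (h.trans_le (integral_nonneg (h0 n))) ht
  have h1 : ENNReal.ofReal (∫ x, g x) ≤ liminf (fun n => ENNReal.ofReal (∫ x, f n x)) atTop := by
    rw [integral_eq_lintegral_of_nonneg_ae (Eventually.of_forall hg0) hg.aestronglyMeasurable]
    refine ENNReal.ofReal_toReal_le.trans ?_
    have h2 : ∫⁻ x, ENNReal.ofReal (g x) =
        ∫⁻ x, liminf (fun n => ENNReal.ofReal (f n x)) atTop :=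
      lintegral_congr_ae (hl.mono fun x hx => (ENNReal.tendsto_ofReal hx).liminf_eq.symm)
    rw [h2]
    refine (lintegral_liminf_le fun n => (hm n).ennreal_ofReal).trans (le_of_eq ?_)
    congr 1
    funext n
    exact (ofReal_integral_eq_lintegral_ofReal (hi n) (Eventually.of_forall (h0 n))).symm
  have h3 := eventually_lt_of_lt_liminf
    (((ENNReal.ofReal_lt_ofReal_iff_of_nonneg h).2 ht).trans_le h1)
  exact h3.mono fun n hn => lt_min ((ENNReal.ofReal_lt_ofReal_iff_of_nonneg h).1 hn) ht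

theorem OGP_sq_le {μ : Measure R3} {f g : R3 → ℝ} (hf : MemLp f 2 μ) (hg : MemLp g 2 μ) {δ : ℝ}
    (hδ : 0 < δ) :
    ∫ x, f x * f x ∂μ ≤ (1 + δ) * ∫ x, g x * g x ∂μ + (1 + δ⁻¹) * ∫ x, (f x - g x) ^ 2 ∂μ := by
  have h1 : Integrable (fun x => f x * f x) μ := hf.integrable_mul hf
  have h2 : Integrable (fun x => (1 + δ) * (g x * g x)) μ := (hg.integrable_mul hg).const_mul _
  have h3 : Integrable (fun x => (1 + δ⁻¹) * (f x - g x) ^ 2) μ :=
    (hf.sub hg).integrable_sq.const_mul _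
  rw [← integral_const_mul, ← integral_const_mul, ← integral_add h2 h3]
  refine integral_mono h1 (h2.add h3) fun x => ?_
  have h4 : 0 ≤ δ⁻¹ * (δ * g x - (f x - g x)) ^ 2 := by positivity
  have h5 : δ⁻¹ * (δ * g x - (f x - g x)) ^ 2 =
      δ * (g x * g x) - 2 * g x * (f x - g x) + δ⁻¹ * (f x - g x) ^ 2 := by
    field_simp
    ring
  show f x * f x ≤ (1 + δ) * (g x * g x) + (1 + δ⁻¹) * (f x - g x) ^ 2
  nlinarith

theorem OGP_nrm_lim {μ : Measure R3} {f : ℕ → R3 → ℝ} {g : R3 → ℝ} (hf : ∀ n, MemLp (f n) 2 μ)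
    (hg : MemLp g 2 μ) (h1 : ∀ n, ∫ x, f n x * f n x ∂μ = 1)
    (hd : Tendsto (fun n => ∫⁻ x, ENNReal.ofReal ((f n x - g x) ^ 2) ∂μ) atTop (𝓝 0)) :
    ∫ x, g x * g x ∂μ = 1 := by
  have hd' : Tendsto (fun n => ∫ x, (f n x - g x) ^ 2 ∂μ) atTop (𝓝 0) := by
    have h2 := (ENNReal.tendsto_toReal ENNReal.zero_ne_top).comp hd
    rw [ENNReal.toReal_zero] at h2
    refine h2.congr fun n => ?_
    exact (integral_eq_lintegral_of_nonneg_ae (Eventually.of_forall fun x => sq_nonneg _)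
      ((hf n).sub hg).integrable_sq.aestronglyMeasurable).symm
  have hlim : ∀ a c : ℝ, Tendsto (fun n => a + c * ∫ x, (f n x - g x) ^ 2 ∂μ) atTop (𝓝 a) := by
    intro a c
    simpa using (hd'.const_mul c).const_add a
  have hA : ∫ x, g x * g x ∂μ ≤ 1 := by
    refine le_of_forall_pos_le_add fun δ hδ => ge_of_tendsto' (hlim (1 + δ) (1 + δ⁻¹)) fun n => ?_
    have h3 := OGP_sq_le hg (hf n) hδ
    rw [h1, mul_one] at h3
    refine h3.trans (le_of_eq ?_)
    congr 2
    exact integral_congr_ae (Eventually.of_forall fun x => by ring)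
  refine le_antisymm hA (le_of_forall_pos_le_add fun δ hδ => ?_)
  have h4 : 1 ≤ (1 + δ) * ∫ x, g x * g x ∂μ :=
    ge_of_tendsto' (hlim _ (1 + δ⁻¹)) fun n => (h1 n).symm.le.trans (OGP_sq_le (hf n) hg hδ)
  nlinarith

theorem exists_isMin (hW : Pot W) (hg : Grows W) (hb : 0 ≤ b) : ∃ φ G, IsMin W b φ G := by
  let S : Set ℝ := {r | ∃ u G, InF univ W u G ∧ ip univ u u = 1 ∧ gpE W b u G = r}
  have hS : S.Nonempty := by
    obtain ⟨u, G, h1, h2⟩ := OGP_exists_nrm hW
    exact ⟨_, u, G, h1, h2, rfl⟩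
  have hB : BddBelow S := ⟨0, by rintro r ⟨u, G, -, -, rfl⟩; exact OGP_gpE_nonneg hW hb u G⟩
  obtain ⟨r, hanti, hr, hmem⟩ := exists_seq_tendsto_sInf hS hB
  choose un Gn hn h1 hE using hmem
  have hq : ∀ n, ∀ t : ℝ, t ≤ ∫ x, un n x ^ 6 →
      qf univ W (un n) (Gn n) (un n) (Gn n) ≤ r n - b / 6 * t := by
    intro n t ht
    have h2 := hE n
    have h3 : b / 6 * t ≤ b / 6 * ∫ x, un n x ^ 6 := mul_le_mul_of_nonneg_left ht (by positivity)
    unfold gpE at h2
    linarith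
  obtain ⟨u, k, hu, hu2, hk, hlim, hae⟩ := exists_subseq hW isOpen_univ (conf_univ hW hg) hn
    (c := r 0 + 1) fun n => by
      have h2 := hq n 0 (integral_nonneg fun x => by positivity)
      have h3 := hanti (Nat.zero_le n)
      rw [h1]
      linarith
  obtain ⟨C, -, hC⟩ := sobolev6
  have hF : Tendsto (fun n => min (∫ x, un (k n) x ^ 6) (∫ x, u x ^ 6)) atTop
      (𝓝 (∫ x, u x ^ 6)) := by
    refine OGP_fatou (fun n => (hn _).mu.pow_const 6) (fun n => (hC W _ _ hW (hn _)).1)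
      (fun n x => by positivity) (hu.pow_const 6) (fun x => by positivity) ?_
    rw [Measure.restrict_univ] at hae
    exact hae.mono fun x hx => hx.pow 6
  obtain ⟨G, hG, hGq⟩ := InF.lsc hW (fun n => hn (k n)) (fun n => hq (k n) _ (min_le_left _ _))
    ((hr.comp hk.tendsto_atTop).sub (hF.const_mul (b / 6))) hu hlim
  have hu1 : ip univ u u = 1 :=
    OGP_nrm_lim (fun n => (hn (k n)).memLp_u hW) hu2 (fun n => h1 (k n)) hlim
  obtain ⟨K, hK, hKq⟩ := hG.abs hW
  refine ⟨fun x => |u x|, K, hK, fun x => abs_nonneg _, ?_, fun v H hv hv1 => ?_⟩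
  · rw [← hu1]
    exact integral_congr_ae (Eventually.of_forall fun x => abs_mul_abs_self _)
  · have h2 : ∫ x, |u x| ^ 6 = ∫ x, u x ^ 6 :=
      integral_congr_ae (Eventually.of_forall fun x => Even.pow_abs (by decide) _)
    have h3 : sInf S ≤ gpE W b v H := csInf_le hB ⟨v, H, hv, hv1, rfl⟩
    refine le_trans ?_ h3
    unfold gpE
    rw [h2]
    linarith

theorem OGP_re {u : R3 → ℂ} (h1 : ContDiff ℝ 1 u) (h2 : HasCompactSupport u) (L : ℂ →L[ℝ] ℝ) :
    Cc1 (fun x => L (u x)) ∧ ∀ x y, fderiv ℝ (fun x => L (u x)) x y = L (fderiv ℝ u x y) := by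
  refine ⟨⟨L.contDiff.comp h1, h2.comp_left (g := L) (map_zero L)⟩, fun x y => ?_⟩
  have h3 : HasFDerivAt (fun x => L (u x)) (L.comp (fderiv ℝ u x)) x :=
    L.hasFDerivAt.comp x (h1.differentiable one_ne_zero x).hasFDerivAt
  rw [h3.fderiv]
  rfl

theorem OGP_normsq (z : ℂ) : ‖z‖ ^ 2 = z.re ^ 2 + z.im ^ 2 := by
  rw [Complex.sq_norm, Complex.normSq_apply]
  ring

/-- the energy of a complex function through its real and imaginary parts -/
theorem OGP_energy (hW : Pot W) {u : R3 → ℂ} (h1 : ContDiff ℝ 1 u) (h2 : HasCompactSupport u)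
    {a c : R3 → ℝ} (ha : a = fun x => (u x).re) (hc : c = fun x => (u x).im) :
    Cc1 a ∧ Cc1 c ∧
      ∫ x, ((∑ k : Fin 3, ‖fderiv ℝ u x (uv k)‖ ^ 2) + W x * ‖u x‖ ^ 2 + b / 6 * ‖u x‖ ^ 6) =
        qf univ W a (gradient a) a (gradient a) + qf univ W c (gradient c) c (gradient c) +
          b / 6 * ∫ x, ‖u x‖ ^ 6 := by
  obtain ⟨ha1, ha2⟩ := OGP_re h1 h2 Complex.reCLM
  obtain ⟨hc1, hc2⟩ := OGP_re h1 h2 Complex.imCLM
  simp only [Complex.reCLM_apply, Complex.imCLM_apply, ← ha, ← hc] at ha1 ha2 hc1 hc2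
  refine ⟨ha1, hc1, ?_⟩
  have i1 : ∀ {v : R3 → ℝ}, Cc1 v →
      Integrable fun x => ⟪gradient v x, gradient v x⟫_ℝ + W x * v x * v x := fun hv =>
    integrableOn_univ.1 ((hv.inF.integrable_inner hW hv.inF).add (hv.inF.integrable_W hW hv.inF))
  have i0 : Continuous fun x => ‖u x‖ ^ 6 := h1.continuous.norm.pow 6
  have i2 : Integrable fun x => b / 6 * ‖u x‖ ^ 6 :=
    (i0.integrable_of_hasCompactSupport
      (h2.comp_left (g := fun z : ℂ => ‖z‖ ^ 6) (by simp))).const_mul _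
  have i3 : Integrable fun x => (⟪gradient a x, gradient a x⟫_ℝ + W x * a x * a x) +
      (⟪gradient c x, gradient c x⟫_ℝ + W x * c x * c x) := (i1 ha1).add (i1 hc1)
  unfold qf
  rw [Measure.restrict_univ, ← integral_const_mul, ← integral_add (i1 ha1) (i1 hc1),
    ← integral_add i3 i2]
  refine integral_congr_ae (Eventually.of_forall fun x => ?_)
  have e1 : ‖u x‖ ^ 2 = a x ^ 2 + c x ^ 2 := by rw [OGP_normsq, ha, hc]
  have e2 : ∑ k : Fin 3, ‖fderiv ℝ u x (uv k)‖ ^ 2 = ‖gradient a x‖ ^ 2 + ‖gradient c x‖ ^ 2 := by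
    rw [normsq_gradient_eq, normsq_gradient_eq, ← Finset.sum_add_distrib]
    exact Finset.sum_congr rfl fun k _ => by rw [OGP_normsq, ha2, hc2]
  simp only [real_inner_self_eq_norm_sq]
  rw [e1, e2]
  ring

theorem OGP_gradient_smul {v : R3 → ℝ} (hv : Cc1 v) (c : ℝ) :
    Cc1 (fun x => c * v x) ∧ gradient (fun x => c * v x) = fun x => c • gradient v x := by
  refine ⟨⟨contDiff_const.mul hv.1, hv.2.mul_left (f := fun _ => c)⟩, funext fun x => ?_⟩
  rw [gradient_mul' (differentiableAt_const c) (hv.1.differentiable one_ne_zero x)]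
  simp

/-- the set of values in the definition of `eGP` -/
def OGP_set (W : R3 → ℝ) (b : ℝ) : Set ℝ :=
  {r : ℝ | ∃ u : R3 → ℂ, ContDiff ℝ 1 u ∧ HasCompactSupport u ∧
    (∫ x, ‖u x‖ ^ 2) = 1 ∧
    r = ∫ x, ((∑ k : Fin 3, ‖fderiv ℝ u x (uv k)‖ ^ 2) + W x * ‖u x‖ ^ 2 + b / 6 * ‖u x‖ ^ 6)}

theorem OGP_mem (hW : Pot W) {v : R3 → ℝ} (hv : Cc1 v) (h1 : ip univ v v = 1) :
    gpE W b v (gradient v) ∈ OGP_set W b := by
  have c1 : ContDiff ℝ 1 fun x => (v x : ℂ) := Complex.ofRealCLM.contDiff.comp hv.1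
  have c2 : HasCompactSupport fun x => (v x : ℂ) :=
    hv.2.comp_left (g := fun t : ℝ => (t : ℂ)) Complex.ofReal_zero
  refine ⟨fun x => (v x : ℂ), c1, c2, ?_, ?_⟩
  · rw [← h1]
    unfold ip
    rw [Measure.restrict_univ]
    exact integral_congr_ae (Eventually.of_forall fun x => by simp [sq])
  · rw [(OGP_energy hW c1 c2 (a := v) (c := fun _ => 0) (by simp) (by simp)).2.2]
    have e1 : qf univ W (fun _ => 0) (gradient fun _ => (0 : ℝ)) (fun _ => 0)
        (gradient fun _ => (0 : ℝ)) = 0 := by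
      simp [qf]
    have e2 : ∫ x, ‖(v x : ℂ)‖ ^ 6 = ∫ x, v x ^ 6 :=
      integral_congr_ae (Eventually.of_forall fun x => by
        simp only [Complex.norm_real, Real.norm_eq_abs]
        exact Even.pow_abs (by decide) _)
    rw [e1, e2, add_zero, gpE]

theorem OGP_lower (hW : Pot W) {φ : R3 → ℝ} {G : R3 → R3} (h : IsMin W b φ G) :
    gpE W b φ G ∈ lowerBounds (OGP_set W b) := by
  rintro r ⟨u, h1, h2, h3, rfl⟩
  obtain ⟨ha, hc, hE⟩ := OGP_energy (b := b) hW h1 h2 rfl rfl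
  obtain ⟨K, hK, hKq⟩ := InF.sqrt_add hW ha.inF hc.inF
  have e : (fun x => √((u x).re ^ 2 + (u x).im ^ 2)) = fun x => ‖u x‖ :=
    funext fun x => by rw [← OGP_normsq, Real.sqrt_sq (norm_nonneg _)]
  rw [e] at hK hKq
  have h4 := h.min _ K hK (by
    rw [← h3]
    unfold ip
    rw [Measure.restrict_univ]
    exact integral_congr_ae (Eventually.of_forall fun x => (sq _).symm))
  rw [hE]
  refine h4.trans ?_
  unfold gpE
  linarith

theorem IsMin.eGP_eq (hW : Pot W) (hb : 0 ≤ b) {φ : R3 → ℝ} {G : R3 → R3} (h : IsMin W b φ G) :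
    eGP W b = gpE W b φ G := by
  obtain ⟨v, hv, ht, -⟩ := h.inF.seq hW
  obtain ⟨t1, t2, -⟩ := tendsto_qf hW h.inF h.inF (fun n => (hv n).inF) (fun n => (hv n).inF) ht ht
  have t3 := tendsto_int6 hW h.inF (fun n => (hv n).inF) ht
  rw [h.nrm] at t2
  have t4 : Tendsto (fun n => (√(ip univ (v n) (v n)))⁻¹) atTop (𝓝 1) := by
    simpa using t2.sqrt.inv₀ (by simp)
  have t5 : Tendsto (fun n => gpE W b (fun x => (√(ip univ (v n) (v n)))⁻¹ * v n x)
      (gradient fun x => (√(ip univ (v n) (v n)))⁻¹ * v n x)) atTop (𝓝 (gpE W b φ G)) := by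
    have t6 := ((t4.pow 2).mul t1).add (((t4.pow 6).mul t3).const_mul (b / 6))
    rw [one_pow, one_pow, one_mul, one_mul] at t6
    refine t6.congr fun n => ?_
    rw [(OGP_gradient_smul (hv n) _).2, OGP_gpE_smul]
  have hmem : ∀ᶠ n in atTop, gpE W b (fun x => (√(ip univ (v n) (v n)))⁻¹ * v n x)
      (gradient fun x => (√(ip univ (v n) (v n)))⁻¹ * v n x) ∈ OGP_set W b :=
    (t2.eventually (lt_mem_nhds one_pos)).mono fun n hn =>
      OGP_mem hW (OGP_gradient_smul (hv n) _).1 (by rw [OGP_ip_smul, OGP_nrm hn])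
  have hl := OGP_lower hW h
  exact le_antisymm (ge_of_tendsto t5 (hmem.mono fun n hn => csInf_le ⟨_, hl⟩ hn))
    (le_csInf ⟨_, hmem.exists.choose_spec⟩ hl)

end Pool.Agent.Lib.MP_8fe63c_mp
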