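import Pool.Agent.Lib.MP_8fe63c_mp.OBas

/-!
A Hilbert space model of the form domain, and lower semicontinuity.

Sketch. Let `μ = volume.restrict Ω` and `𝔊 = Lp (WithLp 2 (ℝ × R3)) 2 μ`; a pair `(u, G)` gives the
element `x ↦ (√(1 + W x) * u x, G x)`. `H` is the closure of the subspace of the images of the
pairs `(v, gradient v)`, `Cc1 v`. `fn ξ` and `gr ξ` are read off a strongly measurable
representative. `nested_convex`: let `p n` be the point of minimal norm of `C n`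
(`exists_norm_eq_iInf_of_complete_convex`); the norms increase and are bounded, and the
parallelogram law shows that `p n` is Cauchy. `InF.lsc`: take
`C n = {ξ | ‖ξ‖^2 ≤ c₀ + ‖u‖^2 + 1/(n+1), ‖J ξ - u‖ ≤ 1/(n+1)}`.
-/

set_option linter.unusedSectionVars false

open MeasureTheory Set Filter Topology
open scoped ENNReal InnerProductSpace

namespace Pool.Agent.Lib.MP_8fe63c_mp

/-- Hilbert space model of the form domain -/
structure HModel (Ω : Set R3) (W : R3 → ℝ) where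
  H : Type
  [i1 : NormedAddCommGroup H]
  [i2 : InnerProductSpace ℝ H]
  [i3 : CompleteSpace H]
  fn : H → R3 → ℝ
  gr : H → R3 → R3
  inF : ∀ ξ, InF Ω W (fn ξ) (gr ξ)
  inner_eq : ∀ ξ η, ⟪ξ, η⟫_ℝ = qf Ω W (fn ξ) (gr ξ) (fn η) (gr η) + ip Ω (fn ξ) (fn η)
  surj : ∀ u G, InF Ω W u G →
    ∃ ξ, fn ξ =ᵐ[volume.restrict Ω] u ∧ gr ξ =ᵐ[volume.restrict Ω] G
  J : H →L[ℝ] Lp ℝ 2 (volume.restrict Ω)
  J_eq : ∀ ξ, (J ξ : R3 → ℝ) =ᵐ[volume.restrict Ω] fn ξ

attribute [instance] HModel.i1 HModel.i2 HModel.i3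

variable {Ω : Set R3} {W : R3 → ℝ}

/-- ambient Hilbert space -/
abbrev OHil_A (Ω : Set R3) : Type :=
  WithLp 2 (Lp ℝ 2 (volume.restrict Ω) × Lp R3 2 (volume.restrict Ω))

/-- the function attached to an element of the ambient space -/
noncomputable def OHil_fn (Ω : Set R3) (W : R3 → ℝ) (p : OHil_A Ω) : R3 → ℝ :=
  fun x => (p.fst : R3 → ℝ) x / √(1 + W x)

/-- the gradient attached to an element of the ambient space -/
noncomputable def OHil_gr (Ω : Set R3) (p : OHil_A Ω) : R3 → R3 := (p.snd : R3 → R3)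

theorem OHil_sqrt_pos (hW : Pot W) (x : R3) : 0 < √(1 + W x) :=
  Real.sqrt_pos.2 (by have := hW.nonneg x; linarith)

theorem OHil_fn_meas (hW : Pot W) (p : OHil_A Ω) : Measurable (OHil_fn Ω W p) :=
  (Lp.stronglyMeasurable p.fst).measurable.div (measurable_const.add hW.meas).sqrt

theorem OHil_gr_meas (p : OHil_A Ω) : Measurable (OHil_gr Ω p) :=
  (Lp.stronglyMeasurable p.snd).measurable

theorem OHil_fn_mul (hW : Pot W) (p q : OHil_A Ω) (x : R3) :
    (1 + W x) * (OHil_fn Ω W p x * OHil_fn Ω W q x) =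
      (p.fst : R3 → ℝ) x * (q.fst : R3 → ℝ) x := by
  have h := OHil_sqrt_pos hW x
  have h2 : √(1 + W x) * √(1 + W x) = 1 + W x :=
    Real.mul_self_sqrt (by have := hW.nonneg x; linarith)
  unfold OHil_fn
  rw [div_mul_div_comm, h2, mul_div_cancel₀]
  have := hW.nonneg x
  positivity

theorem OHil_fn_add (p q : OHil_A Ω) :
    OHil_fn Ω W (p + q) =ᵐ[volume.restrict Ω] fun x => OHil_fn Ω W p x + OHil_fn Ω W q x := by
  filter_upwards [Lp.coeFn_add p.fst q.fst] with x hx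
  unfold OHil_fn
  rw [WithLp.add_fst, hx, Pi.add_apply, add_div]

theorem OHil_gr_add (p q : OHil_A Ω) :
    OHil_gr Ω (p + q) =ᵐ[volume.restrict Ω] fun x => OHil_gr Ω p x + OHil_gr Ω q x := by
  filter_upwards [Lp.coeFn_add p.snd q.snd] with x hx
  unfold OHil_gr
  rw [WithLp.add_snd, hx, Pi.add_apply]

theorem OHil_fn_smul (c : ℝ) (p : OHil_A Ω) :
    OHil_fn Ω W (c • p) =ᵐ[volume.restrict Ω] fun x => c * OHil_fn Ω W p x := by
  filter_upwards [Lp.coeFn_smul c p.fst] with x hx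
  unfold OHil_fn
  rw [WithLp.smul_fst, hx, Pi.smul_apply, smul_eq_mul, mul_div_assoc]

theorem OHil_gr_smul (c : ℝ) (p : OHil_A Ω) :
    OHil_gr Ω (c • p) =ᵐ[volume.restrict Ω] fun x => c • OHil_gr Ω p x := by
  filter_upwards [Lp.coeFn_smul c p.snd] with x hx
  unfold OHil_gr
  rw [WithLp.smul_snd, hx, Pi.smul_apply]

theorem OHil_inner0 (p q : OHil_A Ω) : ⟪p, q⟫_ℝ = ⟪p.fst, q.fst⟫_ℝ + ⟪p.snd, q.snd⟫_ℝ :=
  WithLp.prod_inner_apply _ _

theorem OHil_gdist (hW : Pot W) (p q : OHil_A Ω) :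
    gdist Ω W (OHil_fn Ω W p) (OHil_gr Ω p) (OHil_fn Ω W q) (OHil_gr Ω q) =
      ENNReal.ofReal (‖p - q‖ ^ 2) := by
  have i1 : Integrable (fun x => ⟪((p - q).fst : R3 → ℝ) x, ((p - q).fst : R3 → ℝ) x⟫_ℝ)
      (volume.restrict Ω) := L2.integrable_inner _ _
  have i2 : Integrable (fun x => ⟪((p - q).snd : R3 → R3) x, ((p - q).snd : R3 → R3) x⟫_ℝ)
      (volume.restrict Ω) := L2.integrable_inner _ _
  rw [← real_inner_self_eq_norm_sq, OHil_inner0, L2.inner_def, L2.inner_def,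
    ← integral_add i1 i2]
  refine Eq.trans ?_ (ofReal_integral_eq_lintegral_ofReal (i1.add i2)
      (Eventually.of_forall fun x => add_nonneg real_inner_self_nonneg real_inner_self_nonneg)).symm
  unfold gdist
  refine lintegral_congr_ae ?_
  filter_upwards [Lp.coeFn_sub p.fst q.fst, Lp.coeFn_sub p.snd q.snd] with x h1 h2
  have e1 := OHil_fn_mul hW p p x
  have e2 := OHil_fn_mul hW p q x
  have e3 := OHil_fn_mul hW q q x
  congr 1
  simp only [Pi.add_apply]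
  rw [WithLp.sub_fst, WithLp.sub_snd, h1, h2, Pi.sub_apply, Pi.sub_apply,
    real_inner_self_eq_norm_sq, real_inner_self_eq_norm_sq, Real.norm_eq_abs, sq_abs]
  unfold OHil_gr
  linear_combination e1 - 2 * e2 + e3

/-- the form domain inside the ambient space -/
def OHil_S (hW : Pot W) (Ω : Set R3) : Submodule ℝ (OHil_A Ω) where
  carrier := {p | InF Ω W (OHil_fn Ω W p) (OHil_gr Ω p)}
  add_mem' := by
    intro p q hp hq
    exact (InF.add hW hp hq).congr_ae (OHil_fn_meas hW _) (OHil_gr_meas _)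
      (OHil_fn_add p q).symm (OHil_gr_add p q).symm
  zero_mem' := by
    refine (InF.zero (Ω := Ω) (W := W)).congr_ae (OHil_fn_meas hW _) (OHil_gr_meas _) ?_ ?_
    · filter_upwards [Lp.coeFn_zero ℝ 2 (volume.restrict Ω)] with x hx
      unfold OHil_fn
      rw [WithLp.zero_fst, hx, Pi.zero_apply, zero_div]
    · filter_upwards [Lp.coeFn_zero R3 2 (volume.restrict Ω)] with x hx
      unfold OHil_gr
      rw [WithLp.zero_snd, hx, Pi.zero_apply]
  smul_mem' := by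
    intro c p hp
    exact (InF.smul hW hp c).congr_ae (OHil_fn_meas hW _) (OHil_gr_meas _)
      (OHil_fn_smul c p).symm (OHil_gr_smul c p).symm

theorem OHil_closed (hW : Pot W) (Ω : Set R3) : IsClosed (OHil_S hW Ω : Set (OHil_A Ω)) := by
  refine isClosed_of_closure_subset fun p hp => ?_
  refine InF.closed hW (OHil_fn_meas hW _) (OHil_gr_meas _) fun ε hε => ?_
  obtain ⟨δ, hδ0, hδ⟩ : ∃ δ : ℝ, 0 < δ ∧ ENNReal.ofReal δ ≤ ε := by
    rcases eq_or_ne ε ⊤ with h | h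
    · exact ⟨1, one_pos, by rw [h]; exact le_top⟩
    · exact ⟨ε.toReal, ENNReal.toReal_pos hε.ne' h, by rw [ENNReal.ofReal_toReal h]⟩
  obtain ⟨q, hq, hd⟩ := Metric.mem_closure_iff.1 hp (√δ) (Real.sqrt_pos.2 hδ0)
  refine ⟨_, _, hq, ?_⟩
  rw [OHil_gdist hW]
  refine le_trans (ENNReal.ofReal_le_ofReal ?_) hδ
  rw [dist_eq_norm] at hd
  calc ‖p - q‖ ^ 2 ≤ (√δ) ^ 2 := pow_le_pow_left₀ (norm_nonneg _) hd.le 2
    _ = δ := Real.sq_sqrt hδ0.le

theorem OHil_inner (hW : Pot W) (p q : OHil_S hW Ω) :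
    ⟪p, q⟫_ℝ = qf Ω W (OHil_fn Ω W p.1) (OHil_gr Ω p.1) (OHil_fn Ω W q.1) (OHil_gr Ω q.1) +
      ip Ω (OHil_fn Ω W p.1) (OHil_fn Ω W q.1) := by
  have hp : InF Ω W (OHil_fn Ω W p.1) (OHil_gr Ω p.1) := p.2
  have hq : InF Ω W (OHil_fn Ω W q.1) (OHil_gr Ω q.1) := q.2
  rw [Submodule.coe_inner, OHil_inner0, L2.inner_def, L2.inner_def, qf_split hW hp hq]
  unfold ip
  rw [add_assoc, ← integral_add (InF.integrable_W hW hp hq) (InF.integrable_mul hW hp hq),
    add_comm]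
  congr 1
  refine integral_congr_ae (Eventually.of_forall fun x => ?_)
  have e := OHil_fn_mul hW p.1 q.1 x
  simp only [RCLike.inner_apply, conj_trivial]
  change _ * _ = _
  linear_combination -e

theorem OHil_normsq_toLp {f : R3 → ℝ} (hf : MemLp f 2 (volume.restrict Ω)) :
    ‖hf.toLp f‖ ^ 2 = ip Ω f f := by
  rw [← real_inner_self_eq_norm_sq, L2.inner_def]
  unfold ip
  refine integral_congr_ae ?_
  filter_upwards [hf.coeFn_toLp] with x hx
  rw [hx]
  simp only [RCLike.inner_apply, conj_trivial]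

/-- the embedding in `L^2` -/
noncomputable def OHil_J0 (hW : Pot W) (Ω : Set R3) :
    OHil_S hW Ω →ₗ[ℝ] Lp ℝ 2 (volume.restrict Ω) where
  toFun p := (InF.memLp_u hW p.2).toLp (OHil_fn Ω W p.1)
  map_add' p q := by
    rw [← MemLp.toLp_add]
    exact MemLp.toLp_congr _ _ (OHil_fn_add p.1 q.1)
  map_smul' c p := by
    rw [RingHom.id_apply, ← MemLp.toLp_const_smul]
    exact MemLp.toLp_congr _ _ (OHil_fn_smul c p.1)

theorem OHil_J0_le (hW : Pot W) (p : OHil_S hW Ω) : ‖OHil_J0 hW Ω p‖ ≤ 1 * ‖p‖ := by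
  rw [one_mul]
  refine (pow_le_pow_iff_left₀ (norm_nonneg _) (norm_nonneg _) two_ne_zero).1 ?_
  have h1 : ‖OHil_J0 hW Ω p‖ ^ 2 = ip Ω (OHil_fn Ω W p.1) (OHil_fn Ω W p.1) :=
    OHil_normsq_toLp (InF.memLp_u hW p.2)
  rw [h1, ← real_inner_self_eq_norm_sq, OHil_inner hW]
  have := qf_nonneg (Ω := Ω) (u := OHil_fn Ω W p.1) (G := OHil_gr Ω p.1) hW
  linarith

theorem OHil_memLp (hW : Pot W) {u : R3 → ℝ} {G : R3 → R3} (h : InF Ω W u G) :
    MemLp (fun x => √(1 + W x) * u x) 2 (volume.restrict Ω) := by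
  have h1 := (InF.memLp_u hW h).norm.add (InF.memLp_W hW h).norm
  refine h1.of_le ((measurable_const.add hW.meas).sqrt.mul h.mu).aestronglyMeasurable
    (Eventually.of_forall fun x => ?_)
  have hx := hW.nonneg x
  have h2 : √(1 + W x) ≤ 1 + √(W x) := by
    refine Real.sqrt_le_iff.2 ⟨by positivity, ?_⟩
    have := Real.sq_sqrt hx
    have := Real.sqrt_nonneg (W x)
    nlinarith
  simp only [Pi.add_apply, norm_mul, Real.norm_eq_abs]
  refine le_trans ?_ (le_abs_self _)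
  rw [abs_of_nonneg (Real.sqrt_nonneg _), abs_of_nonneg (Real.sqrt_nonneg _)]
  have := abs_nonneg (u x)
  nlinarith

theorem exists_HModel (hW : Pot W) (Ω : Set R3) : Nonempty (HModel Ω W) := by
  have : CompleteSpace (OHil_S hW Ω) := (OHil_closed hW Ω).completeSpace_coe
  refine ⟨{ H := OHil_S hW Ω
            fn := fun p => OHil_fn Ω W p.1
            gr := fun p => OHil_gr Ω p.1
            inF := fun p => p.2
            inner_eq := OHil_inner hW
            surj := ?_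
            J := (OHil_J0 hW Ω).mkContinuous 1 (OHil_J0_le hW)
            J_eq := fun p => (InF.memLp_u hW p.2).coeFn_toLp }⟩
  intro u G h
  let p : OHil_A Ω := WithLp.toLp 2 ((OHil_memLp hW h).toLp _, (InF.memLp_G hW h).toLp _)
  have h1 : OHil_fn Ω W p =ᵐ[volume.restrict Ω] u := by
    filter_upwards [(OHil_memLp hW h).coeFn_toLp] with x hx
    have hx' : (p.fst : R3 → ℝ) x = √(1 + W x) * u x := hx
    unfold OHil_fn
    rw [hx', mul_div_cancel_left₀ _ (OHil_sqrt_pos hW x).ne']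
  have h2 : OHil_gr Ω p =ᵐ[volume.restrict Ω] G := (InF.memLp_G hW h).coeFn_toLp
  exact ⟨⟨p, h.congr_ae (OHil_fn_meas hW _) (OHil_gr_meas _) h1.symm h2.symm⟩, h1, h2⟩

theorem nested_convex {E : Type} [NormedAddCommGroup E] [InnerProductSpace ℝ E] [CompleteSpace E]
    (C : ℕ → Set E) (hc : ∀ n, IsClosed (C n)) (hv : ∀ n, Convex ℝ (C n))
    (hne : ∀ n, (C n).Nonempty) (hmono : Antitone C) {R : ℝ} (hR : ∀ n, ∀ x ∈ C n, ‖x‖ ≤ R) :
    ∃ x, ∀ n, x ∈ C n := by
  have hex : ∀ n, ∃ p ∈ C n, ∀ y ∈ C n, ‖p‖ ≤ ‖y‖ := by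
    intro n
    obtain ⟨p, hp, h⟩ := exists_norm_eq_iInf_of_complete_convex (hne n) (hc n).isComplete (hv n) 0
    refine ⟨p, hp, fun y hy => ?_⟩
    have hb : BddBelow (Set.range fun w : C n => ‖(0 : E) - w‖) :=
      ⟨0, by rintro _ ⟨w, rfl⟩; exact norm_nonneg _⟩
    have := ciInf_le hb ⟨y, hy⟩
    rw [← h] at this
    simpa using this
  choose p hp hmin using hex
  have hm : Monotone fun n => ‖p n‖ ^ 2 := fun m n hmn =>
    pow_le_pow_left₀ (norm_nonneg _) (hmin m _ (hmono hmn (hp n))) 2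
  have hb : BddAbove (Set.range fun n => ‖p n‖ ^ 2) :=
    ⟨R ^ 2, by
      rintro _ ⟨n, rfl⟩
      exact pow_le_pow_left₀ (norm_nonneg _) (hR n _ (hp n)) 2⟩
  set L := ⨆ n, ‖p n‖ ^ 2 with hL
  have ht : Tendsto (fun n => ‖p n‖ ^ 2) atTop (𝓝 L) := tendsto_atTop_ciSup hm hb
  have hle : ∀ n, ‖p n‖ ^ 2 ≤ L := fun n => le_ciSup hb n
  have key : ∀ N m n, N ≤ m → N ≤ n → dist (p m) (p n) ≤ √(4 * (L - ‖p N‖ ^ 2)) := by
    intro N m n hm' hn'
    have h1 : (1 / 2 : ℝ) • p m + (1 / 2 : ℝ) • p n ∈ C N :=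
      hv N (hmono hm' (hp m)) (hmono hn' (hp n)) (by norm_num) (by norm_num) (by norm_num)
    have h2 := hmin N _ h1
    rw [← smul_add, norm_smul, Real.norm_eq_abs, abs_of_pos (by norm_num)] at h2
    have h3 := parallelogram_law_with_norm ℝ (p m) (p n)
    have h4 : 4 * ‖p N‖ ^ 2 ≤ ‖p m + p n‖ ^ 2 := by
      have := norm_nonneg (p N)
      nlinarith
    rw [dist_eq_norm]
    refine Real.le_sqrt_of_sq_le ?_
    have := hle m
    have := hle n
    nlinarith
  have hb0 : Tendsto (fun N => √(4 * (L - ‖p N‖ ^ 2))) atTop (𝓝 0) := by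
    have h1 : Tendsto (fun N => 4 * (L - ‖p N‖ ^ 2)) atTop (𝓝 (4 * (L - L))) :=
      (tendsto_const_nhds.sub ht).const_mul 4
    have h2 := h1.sqrt
    simpa using h2
  have hcau : CauchySeq p :=
    cauchySeq_of_le_tendsto_0 _ (fun n m N hn hm' => key N n m hn hm') hb0
  obtain ⟨x, hx⟩ := cauchySeq_tendsto_of_complete hcau
  refine ⟨x, fun n => (hc n).mem_of_tendsto hx ?_⟩
  filter_upwards [eventually_ge_atTop n] with m hm' using hmono hm' (hp m)

theorem InF.lsc (hW : Pot W) {un : ℕ → R3 → ℝ} {Gn : ℕ → R3 → R3}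
    (hn : ∀ n, InF Ω W (un n) (Gn n)) {c : ℕ → ℝ} {c₀ : ℝ}
    (hc : ∀ n, qf Ω W (un n) (Gn n) (un n) (Gn n) ≤ c n) (hc₀ : Tendsto c atTop (𝓝 c₀))
    {u : R3 → ℝ} (hu : Measurable u)
    (hlim : Tendsto (fun n => ∫⁻ x in Ω, ENNReal.ofReal ((un n x - u x) ^ 2)) atTop (𝓝 0)) :
    ∃ G, InF Ω W u G ∧ qf Ω W u G u G ≤ c₀ := by
  obtain ⟨M⟩ := exists_HModel hW Ω
  choose ξ hξ1 hξ2 using fun n => M.surj _ _ (hn n)
  have hc0 : 0 ≤ c₀ := ge_of_tendsto' hc₀ fun n => (qf_nonneg hW).trans (hc n)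
  have huL : MemLp u 2 (volume.restrict Ω) := by
    obtain ⟨n, hn1⟩ := (hlim.eventually (gt_mem_nhds (show (0 : ℝ≥0∞) < ⊤ by simp))).exists
    have hm : Measurable fun x => un n x - u x := (hn n).mu.sub hu
    have h1 : MemLp (fun x => un n x - u x) 2 (volume.restrict Ω) := by
      rw [memLp_two_iff_integrable_sq hm.aestronglyMeasurable]
      exact ⟨(hm.pow_const 2).aestronglyMeasurable,
        (hasFiniteIntegral_iff_ofReal (Eventually.of_forall fun x => sq_nonneg _)).2 hn1⟩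
    have h2 := (InF.memLp_u hW (hn n)).sub h1
    refine h2.ae_eq (Eventually.of_forall fun x => ?_)
    simp only [Pi.sub_apply, sub_sub_cancel]
  set U := huL.toLp u with hU
  have hJsq : ∀ η : M.H, ‖M.J η‖ ^ 2 = ip Ω (M.fn η) (M.fn η) := by
    intro η
    rw [← OHil_normsq_toLp (InF.memLp_u hW (M.inF η))]
    congr 2
    exact Lp.ext ((M.J_eq η).trans (MemLp.coeFn_toLp _).symm)
  have hnorm : ∀ η : M.H,
      ‖η‖ ^ 2 = qf Ω W (M.fn η) (M.gr η) (M.fn η) (M.gr η) + ‖M.J η‖ ^ 2 := by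
    intro η
    rw [hJsq, ← M.inner_eq, real_inner_self_eq_norm_sq]
  have hJ : Tendsto (fun n => M.J (ξ n)) atTop (𝓝 U) := by
    rw [tendsto_iff_norm_sub_tendsto_zero]
    have h1 : ∀ n, ‖M.J (ξ n) - U‖ =
        √((∫⁻ x in Ω, ENNReal.ofReal ((un n x - u x) ^ 2)).toReal) := by
      intro n
      have hm : MemLp (fun x => un n x - u x) 2 (volume.restrict Ω) :=
        (InF.memLp_u hW (hn n)).sub huL
      have e1 : M.J (ξ n) - U = hm.toLp _ := by
        refine Lp.ext ?_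
        filter_upwards [Lp.coeFn_sub (M.J (ξ n)) U, M.J_eq (ξ n), hξ1 n, huL.coeFn_toLp,
          hm.coeFn_toLp] with x a1 a2 a3 a4 a5
        rw [a1, Pi.sub_apply, a2, a3, a4, a5]
      rw [← ofReal_integral_eq_lintegral_ofReal hm.integrable_sq
        (Eventually.of_forall fun x => sq_nonneg _),
        ENNReal.toReal_ofReal (integral_nonneg fun x => sq_nonneg _), e1]
      refine (Real.sqrt_sq (norm_nonneg _)).symm.trans ?_
      rw [OHil_normsq_toLp]
      unfold ip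
      simp only [sq]
    simp only [h1]
    have h2 := ((ENNReal.tendsto_toReal ENNReal.zero_ne_top).comp hlim).sqrt
    simpa using h2
  have hpos : ∀ k : ℕ, (0 : ℝ) < 1 / ((k : ℝ) + 1) := fun k => Nat.one_div_pos_of_nat
  let C : ℕ → Set M.H := fun k =>
    Metric.closedBall 0 (√(c₀ + ‖U‖ ^ 2 + 1 / ((k : ℝ) + 1))) ∩
      M.J ⁻¹' Metric.closedBall U (1 / ((k : ℝ) + 1))
  have hanti : ∀ k m : ℕ, k ≤ m → (1 : ℝ) / ((m : ℝ) + 1) ≤ 1 / ((k : ℝ) + 1) :=
    fun k m h => Nat.one_div_le_one_div h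
  obtain ⟨η, hη⟩ := nested_convex C
    (fun k => Metric.isClosed_closedBall.inter (Metric.isClosed_closedBall.preimage M.J.continuous))
    (fun k => (convex_closedBall _ _).inter ((convex_closedBall _ _).linear_preimage M.J.toLinearMap))
    (fun k => by
      have t1 : Tendsto (fun n => c n + ‖M.J (ξ n)‖ ^ 2) atTop (𝓝 (c₀ + ‖U‖ ^ 2)) :=
        hc₀.add (hJ.norm.pow 2)
      have e1 := t1.eventually (gt_mem_nhds (lt_add_of_pos_right _ (hpos k)))
      have e2 := hJ.eventually (Metric.closedBall_mem_nhds U (hpos k))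
      obtain ⟨n, a1, a2⟩ := (e1.and e2).exists
      refine ⟨ξ n, ?_, a2⟩
      rw [mem_closedBall_zero_iff]
      refine Real.le_sqrt_of_sq_le ?_
      rw [hnorm, qf_congr_ae (hξ1 n) (hξ2 n) (hξ1 n) (hξ2 n)]
      have := hc n
      linarith)
    (fun k m h => inter_subset_inter
      (Metric.closedBall_subset_closedBall (Real.sqrt_le_sqrt (by have := hanti k m h; linarith)))
      (preimage_mono (Metric.closedBall_subset_closedBall (hanti k m h))))
    (R := √(c₀ + ‖U‖ ^ 2 + 1 / (((0 : ℕ) : ℝ) + 1)))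
    (fun k x hx => (mem_closedBall_zero_iff.1 hx.1).trans
      (Real.sqrt_le_sqrt (by have := hanti 0 k (Nat.zero_le k); linarith)))
  have t0 : Tendsto (fun k : ℕ => (1 : ℝ) / ((k : ℝ) + 1)) atTop (𝓝 0) :=
    tendsto_one_div_add_atTop_nhds_zero_nat
  have hJη : M.J η = U :=
    dist_le_zero.1 (ge_of_tendsto' t0 fun k => Metric.mem_closedBall.1 (hη k).2)
  have hηn : ‖η‖ ^ 2 ≤ c₀ + ‖U‖ ^ 2 + 0 := by
    refine ge_of_tendsto' (tendsto_const_nhds.add t0) fun k => ?_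
    have h1 := mem_closedBall_zero_iff.1 (hη k).1
    have h2 := hpos k
    calc ‖η‖ ^ 2 ≤ (√(c₀ + ‖U‖ ^ 2 + 1 / ((k : ℝ) + 1))) ^ 2 :=
          pow_le_pow_left₀ (norm_nonneg _) h1 2
      _ = _ := Real.sq_sqrt (by positivity)
  have hfn : M.fn η =ᵐ[volume.restrict Ω] u := by
    have h1 := (M.J_eq η).symm
    rw [hJη] at h1
    exact h1.trans huL.coeFn_toLp
  refine ⟨M.gr η, (M.inF η).congr_ae hu (M.inF η).mG hfn EventuallyEq.rfl, ?_⟩
  rw [← qf_congr_ae hfn EventuallyEq.rfl hfn EventuallyEq.rfl]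
  rw [hnorm, hJη] at hηn
  linarith

end Pool.Agent.Lib.MP_8fe63c_mp
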