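import Pool.Agent.Lib.MP_8fe63c_mp.OHil
import Pool.Agent.Lib.MP_8fe63c_mp.OPoin

/-!
Rellich compactness, injectivity and density of the embedding of the form domain in `L^2`.

Sketch. Given `ε`, take the cubes of `Conf`; the finite rank operator `ξ ↦ ∑_c avg_c (J ξ) 1_c` is
within `C √ε` of `J` in operator norm (Poincaré on each cube, `1 ≤ ε W` outside). Limits of
finite rank operators are compact (`isClosed_setOf_isCompactOperator`). Injectivity is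
`InF.unique`. Density: extend by zero and use the density of smooth compactly supported functions in
`L^2` of the whole space (or of the restricted measure).
-/

set_option linter.unusedSectionVars false

open MeasureTheory Set Filter Topology
open scoped ENNReal InnerProductSpace

namespace Pool.Agent.Lib.MP_8fe63c_mp

variable {Ω : Set R3} {W : R3 → ℝ}

theorem ORel_proj {E ι : Type} [NormedAddCommGroup E] [InnerProductSpace ℝ E] (s : Finset ι)
    (e : ι → E) {V : ℝ} (hV : 0 < V) (h1 : ∀ c ∈ s, ⟪e c, e c⟫_ℝ = V)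
    (h0 : ∀ c ∈ s, ∀ c' ∈ s, c ≠ c' → ⟪e c, e c'⟫_ℝ = 0) (f : E) :
    ‖f - ∑ c ∈ s, (⟪e c, f⟫_ℝ / V) • e c‖ ^ 2 = ‖f‖ ^ 2 - ∑ c ∈ s, ⟪e c, f⟫_ℝ ^ 2 / V := by
  have a1 : ⟪f, ∑ c ∈ s, (⟪e c, f⟫_ℝ / V) • e c⟫_ℝ = ∑ c ∈ s, ⟪e c, f⟫_ℝ ^ 2 / V := by
    rw [inner_sum]
    refine Finset.sum_congr rfl fun c _ => ?_
    rw [real_inner_smul_right, real_inner_comm (e c) f]
    ring
  have a2 : ‖∑ c ∈ s, (⟪e c, f⟫_ℝ / V) • e c‖ ^ 2 = ∑ c ∈ s, ⟪e c, f⟫_ℝ ^ 2 / V := by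
    rw [← real_inner_self_eq_norm_sq, sum_inner]
    refine Finset.sum_congr rfl fun c hc => ?_
    rw [inner_sum, Finset.sum_eq_single c]
    · rw [real_inner_smul_left, real_inner_smul_right, h1 c hc]
      field_simp
    · intro c' hc' hne
      rw [real_inner_smul_left, real_inner_smul_right, h0 c hc c' hc' hne.symm]
      simp
    · intro h
      exact absurd hc h
  rw [norm_sub_sq_real, a1, a2]
  ring

theorem ORel_normsq {μ : Measure R3} (f : Lp ℝ 2 μ) {u : R3 → ℝ} (h : (f : R3 → ℝ) =ᵐ[μ] u) :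
    ‖f‖ ^ 2 = ∫ x, u x ^ 2 ∂μ := by
  rw [← real_inner_self_eq_norm_sq, L2.inner_def]
  refine integral_congr_ae (h.mono fun x hx => ?_)
  simp only [hx, real_inner_self_eq_norm_sq, Real.norm_eq_abs, sq_abs]

theorem ORel_ip_nonneg (u : R3 → ℝ) : 0 ≤ ip Ω u u :=
  integral_nonneg fun x => mul_self_nonneg (u x)

theorem ORel_est (hW : Pot W) {u : R3 → ℝ} {G : R3 → R3} (h : InF Ω W u G) {ε l : ℝ}
    (hε : 0 < ε) (hl : 0 < l) {s : Finset R3} (hs : ∀ c ∈ s, cube c l ⊆ Ω)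
    (hd : ∀ c ∈ s, ∀ c' ∈ s, c ≠ c' → Disjoint (cube c l) (cube c' l))
    (ho : ∀ᵐ x ∂(volume.restrict Ω), (∀ c ∈ s, x ∉ cube c l) → 1 ≤ ε * W x) :
    (∫ x in Ω, u x ^ 2) - ∑ c ∈ s, (∫ x in cube c l, u x) ^ 2 / l ^ 3 ≤
      (12 * l ^ 2 + ε) * qf Ω W u G u G := by
  have hm : ∀ c, MeasurableSet (cube c l) := fun c => (isOpen_cube c l).measurableSet
  have hU : MeasurableSet (⋃ c ∈ s, cube c l) := Finset.measurableSet_biUnion s fun c _ => hm c
  have hUΩ : (⋃ c ∈ s, cube c l) ⊆ Ω := iUnion₂_subset hs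
  have iu : IntegrableOn (fun x => u x ^ 2) Ω := (h.memLp_u hW).integrable_sq
  have iG : IntegrableOn (fun x => ‖G x‖ ^ 2) Ω :=
    (memLp_two_iff_integrable_sq_norm (h.memLp_G hW).aestronglyMeasurable).1 (h.memLp_G hW)
  have iW := h.integrable_W hW h
  have hpd : Set.Pairwise (s : Set R3) (Function.onFun Disjoint fun c => cube c l) :=
    fun c hc c' hc' hne => hd c hc c' hc' hne
  have e1 : ∫ x in ⋃ c ∈ s, cube c l, u x ^ 2 = ∑ c ∈ s, ∫ x in cube c l, u x ^ 2 :=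
    integral_biUnion_finset s (fun c _ => hm c) hpd fun c hc => iu.mono_set (hs c hc)
  have e2 : ∫ x in ⋃ c ∈ s, cube c l, ‖G x‖ ^ 2 = ∑ c ∈ s, ∫ x in cube c l, ‖G x‖ ^ 2 :=
    integral_biUnion_finset s (fun c _ => hm c) hpd fun c hc => iG.mono_set (hs c hc)
  have b1 : ∫ x in ⋃ c ∈ s, cube c l, ‖G x‖ ^ 2 ≤ ∫ x in Ω, ‖G x‖ ^ 2 :=
    setIntegral_mono_set iG (Eventually.of_forall fun x => by positivity) hUΩ.eventuallyLE
  have b2 : ∫ x in Ω, u x ^ 2 ≤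
      (∫ x in ⋃ c ∈ s, cube c l, u x ^ 2) + ε * ∫ x in Ω, W x * u x * u x := by
    have e3 : ∫ x in ⋃ c ∈ s, cube c l, u x ^ 2 =
        ∫ x in Ω, (⋃ c ∈ s, cube c l).indicator (fun x => u x ^ 2) x := by
      rw [integral_indicator hU, Measure.restrict_restrict hU, inter_eq_left.2 hUΩ]
    rw [e3, ← integral_const_mul, ← integral_add (iu.integrable.indicator hU) (iW.const_mul ε)]
    refine integral_mono_ae iu ((iu.integrable.indicator hU).add (iW.const_mul ε)) ?_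
    filter_upwards [ho] with x hx
    have hw := hW.nonneg x
    by_cases hxU : x ∈ ⋃ c ∈ s, cube c l
    · rw [indicator_of_mem hxU]
      have : 0 ≤ ε * (W x * u x * u x) := by
        rw [mul_assoc (W x)]
        exact mul_nonneg hε.le (mul_nonneg hw (mul_self_nonneg _))
      linarith
    · rw [indicator_of_notMem hxU]
      have := hx fun c hc hxc => hxU (mem_iUnion₂.2 ⟨c, hc, hxc⟩)
      nlinarith [mul_self_nonneg (u x)]
  have b3 : ∑ c ∈ s, ((∫ x in cube c l, u x ^ 2) - (∫ x in cube c l, u x) ^ 2 / l ^ 3) ≤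
      ∑ c ∈ s, 12 * l ^ 2 * ∫ x in cube c l, ‖G x‖ ^ 2 :=
    Finset.sum_le_sum fun c hc => poincare_cube hW h hl (hs c hc)
  rw [Finset.sum_sub_distrib, ← Finset.mul_sum, ← e1, ← e2] at b3
  have b4 := grad_le_qf hW h
  have b5 : ∫ x in Ω, W x * u x * u x ≤ qf Ω W u G u G := by
    rw [qf_split hW h h]
    have : 0 ≤ ∫ x in Ω, ⟪G x, G x⟫_ℝ := integral_nonneg fun x => real_inner_self_nonneg
    linarith
  have b6 := mul_le_mul_of_nonneg_left (b1.trans b4) (by positivity : 0 ≤ 12 * l ^ 2)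
  have b7 := mul_le_mul_of_nonneg_left b5 hε.le
  linarith

theorem HModel.compact (hW : Pot W) (hΩ : IsOpen Ω) (hc : Conf Ω W) (m : HModel Ω W) :
    IsCompactOperator m.J := by
  have hcl := isClosed_setOfPred_isCompactOperator (𝕜₁ := ℝ) (𝕜₂ := ℝ) (σ₁₂ := RingHom.id ℝ)
    (M₁ := m.H) (M₂ := Lp ℝ 2 (volume.restrict Ω))
  refine hcl.closure_subset (a := m.J) (Metric.mem_closure_iff.2 fun δ hδ => ?_)
  obtain ⟨ε, hε, hε1, hεδ⟩ : ∃ ε : ℝ, 0 < ε ∧ ε ≤ 1 ∧ 13 * ε ≤ (δ / 2) ^ 2 :=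
    ⟨min 1 ((δ / 2) ^ 2 / 13), lt_min one_pos (by positivity), min_le_left _ _, by
      have := min_le_right 1 ((δ / 2) ^ 2 / 13)
      linarith⟩
  obtain ⟨s, l, hl, hlε, hs, hd, ho⟩ := hc ε hε
  have hm : ∀ c, MeasurableSet (cube c l) := fun c => (isOpen_cube c l).measurableSet
  have hfin : ∀ c, (volume.restrict Ω) (cube c l) ≠ ∞ := fun c =>
    ne_top_of_le_ne_top (by rw [volume_cube c hl.le]; exact ENNReal.ofReal_ne_top)
      (Measure.restrict_le_self _)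
  let e : R3 → Lp ℝ 2 (volume.restrict Ω) := fun c => indicatorConstLp 2 (hm c) (hfin c) (1 : ℝ)
  let T : R3 → m.H →L[ℝ] Lp ℝ 2 (volume.restrict Ω) := fun c =>
    (ContinuousLinearMap.toSpanSingleton ℝ ((l ^ 3)⁻¹ • e c)).comp ((innerSL ℝ (e c)).comp m.J)
  have hT : ∀ c, T c ∈ compactOperator (RingHom.id ℝ) m.H (Lp ℝ 2 (volume.restrict Ω)) := fun c =>
    (isCompactOperator_of_locallyCompactSpace_dom ((innerSL ℝ (e c)).comp m.J)).clm_comp
      (ContinuousLinearMap.toSpanSingleton ℝ ((l ^ 3)⁻¹ • e c))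
  refine ⟨∑ c ∈ s, T c, Submodule.sum_mem _ fun c _ => hT c, ?_⟩
  rw [dist_eq_norm]
  refine lt_of_le_of_lt (ContinuousLinearMap.opNorm_le_bound _ (half_pos hδ).le fun ξ => ?_)
    (half_lt_self hδ)
  have e1 : (m.J - ∑ c ∈ s, T c) ξ = m.J ξ - ∑ c ∈ s, (⟪e c, m.J ξ⟫_ℝ / l ^ 3) • e c := by
    simp only [sub_apply, sum_apply, T,
      ContinuousLinearMap.comp_apply, innerSL_apply_apply,
      ContinuousLinearMap.toSpanSingleton_apply, smul_smul, div_eq_mul_inv]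
  have h1 : ∀ c ∈ s, ⟪e c, e c⟫_ℝ = l ^ 3 := by
    intro c hc
    rw [L2.real_inner_indicatorConstLp_one_indicatorConstLp_one (hm c) (hm c) (hfin c) (hfin c),
      inter_self, Measure.real,
      Measure.restrict_apply (hm c), inter_eq_left.2 (hs c hc), volume_cube c hl.le,
      ENNReal.toReal_ofReal (by positivity)]
  have h0 : ∀ c ∈ s, ∀ c' ∈ s, c ≠ c' → ⟪e c, e c'⟫_ℝ = 0 := by
    intro c hc c' hc' hne
    rw [L2.real_inner_indicatorConstLp_one_indicatorConstLp_one (hm c) (hm c') (hfin c) (hfin c'),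
      (hd c hc c' hc' hne).inter_eq, measureReal_empty]
  have h2 : ∀ c ∈ s, ⟪e c, m.J ξ⟫_ℝ = ∫ x in cube c l, m.fn ξ x := by
    intro c hc
    rw [L2.inner_indicatorConstLp_one, integral_congr_ae (ae_restrict_of_ae (m.J_eq ξ)),
      Measure.restrict_restrict (hm c), inter_eq_left.2 (hs c hc)]
  have h3 := ORel_proj s e (by positivity : 0 < l ^ 3) h1 h0 (m.J ξ)
  have h2' : ∑ c ∈ s, ⟪e c, m.J ξ⟫_ℝ ^ 2 / l ^ 3 =
      ∑ c ∈ s, (∫ x in cube c l, m.fn ξ x) ^ 2 / l ^ 3 :=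
    Finset.sum_congr rfl fun c hc => by rw [h2 c hc]
  rw [ORel_normsq _ (m.J_eq ξ), h2'] at h3
  have h4 := ORel_est hW (m.inF ξ) hε hl hs hd ho
  have h5 : qf Ω W (m.fn ξ) (m.gr ξ) (m.fn ξ) (m.gr ξ) ≤ ‖ξ‖ ^ 2 := by
    rw [← real_inner_self_eq_norm_sq, m.inner_eq]
    have := ORel_ip_nonneg (Ω := Ω) (m.fn ξ)
    linarith
  have h6 : 12 * l ^ 2 + ε ≤ (δ / 2) ^ 2 := by nlinarith
  have h7 := mul_le_mul h6 h5 (qf_nonneg hW) (by positivity)
  rw [e1]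
  refine abs_le_of_sq_le_sq' ?_ (by positivity) |>.2
  rw [mul_pow]
  linarith

theorem HModel.injective (hW : Pot W) (hΩ : IsOpen Ω) (m : HModel Ω W) :
    Function.Injective m.J := by
  rw [injective_iff_map_eq_zero]
  intro ξ hξ
  have h1 : m.fn ξ =ᵐ[volume.restrict Ω] fun _ => 0 := by
    refine (m.J_eq ξ).symm.trans ?_
    rw [hξ]
    exact Lp.coeFn_zero _ _ _
  have h2 := (m.inF ξ).unique hW hΩ h1
  rw [← inner_self_eq_zero (𝕜 := ℝ), m.inner_eq, qf_congr_ae h1 h2 h1 h2]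
  have h3 : ip Ω (m.fn ξ) (m.fn ξ) = 0 :=
    integral_eq_zero_of_ae (h1.mono fun x hx => by simp [hx])
  rw [h3]
  simp [qf]

theorem HModel.dense (hW : Pot W) (hΩ : IsOpen Ω) (m : HModel Ω W) : DenseRange m.J := by
  refine (Lp.dense_hasCompactSupport_contDiff (μ := volume.restrict Ω) (F := ℝ) (p := 2)
    ENNReal.ofNat_ne_top).mono ?_
  rintro f ⟨g, hf, hg1, hg2⟩
  have hg : Cc1 g := ⟨hg2.of_le (by exact_mod_cast le_top), hg1⟩
  obtain ⟨ξ, h1, -⟩ := m.surj g _ (hg.inF (Ω := Ω) (W := W))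
  exact ⟨ξ, Lp.ext ((m.J_eq ξ).trans (h1.trans hf.symm))⟩

/-- bounded sequences have `L^2` convergent subsequences -/
theorem exists_subseq (hW : Pot W) (hΩ : IsOpen Ω) (hc : Conf Ω W) {un : ℕ → R3 → ℝ}
    {Gn : ℕ → R3 → R3} (hn : ∀ n, InF Ω W (un n) (Gn n)) {c : ℝ}
    (hb : ∀ n, qf Ω W (un n) (Gn n) (un n) (Gn n) + ip Ω (un n) (un n) ≤ c) :
    ∃ (u : R3 → ℝ) (k : ℕ → ℕ), Measurable u ∧ MemLp u 2 (volume.restrict Ω) ∧ StrictMono k ∧
      Tendsto (fun n => ∫⁻ x in Ω, ENNReal.ofReal ((un (k n) x - u x) ^ 2)) atTop (𝓝 0) ∧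
      ∀ᵐ x ∂(volume.restrict Ω), Tendsto (fun n => un (k n) x) atTop (𝓝 (u x)) := by
  obtain ⟨m⟩ := exists_HModel hW Ω
  choose ξ h1 h2 using fun n => m.surj _ _ (hn n)
  have hξ : ∀ n, ξ n ∈ Metric.closedBall (0 : m.H) √c := by
    intro n
    rw [mem_closedBall_zero_iff]
    refine Real.le_sqrt_of_sq_le ?_
    rw [← real_inner_self_eq_norm_sq, m.inner_eq, qf_congr_ae (h1 n) (h2 n) (h1 n) (h2 n)]
    have : ip Ω (m.fn (ξ n)) (m.fn (ξ n)) = ip Ω (un n) (un n) :=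
      integral_congr_ae ((h1 n).mono fun x hx => by simp only [hx])
    rw [this]
    exact hb n
  obtain ⟨K, hK, hKs⟩ := IsCompactOperator.image_closedBall_subset_compact
    (f := (m.J : m.H →ₗ[ℝ] Lp ℝ 2 (volume.restrict Ω))) (m.compact hW hΩ hc) √c
  obtain ⟨f, -, φ, hφ, hlim⟩ := hK.tendsto_subseq (x := fun n => m.J (ξ n))
    fun n => hKs ⟨ξ n, hξ n, rfl⟩
  obtain ⟨ψ, hψ, hae⟩ := (tendstoInMeasure_of_tendsto_Lp hlim).exists_seq_tendsto_ae
  have hJ : ∀ n, (m.J (ξ n) : R3 → ℝ) =ᵐ[volume.restrict Ω] un n := fun n =>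
    (m.J_eq _).trans (h1 n)
  refine ⟨f, φ ∘ ψ, (Lp.stronglyMeasurable f).measurable, Lp.memLp f, hφ.comp hψ, ?_, ?_⟩
  · have t1 : Tendsto (fun n => ‖m.J (ξ (φ (ψ n))) - f‖) atTop (𝓝 0) :=
      (tendsto_iff_norm_sub_tendsto_zero.1 hlim).comp hψ.tendsto_atTop
    have t2 := (ENNReal.continuous_ofReal.tendsto _).comp (t1.pow 2)
    simp only [ne_eq, OfNat.ofNat_ne_zero, not_false_eq_true, zero_pow, ENNReal.ofReal_zero] at t2
    refine t2.congr fun n => ?_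
    have a1 : ((m.J (ξ (φ (ψ n))) - f : Lp ℝ 2 (volume.restrict Ω)) : R3 → ℝ) =ᵐ[volume.restrict Ω]
        fun x => un (φ (ψ n)) x - f x := by
      filter_upwards [Lp.coeFn_sub (m.J (ξ (φ (ψ n)))) f, hJ (φ (ψ n))] with x hx hx'
      rw [hx, Pi.sub_apply, hx']
    rw [Function.comp_apply, ORel_normsq _ a1, ofReal_integral_eq_lintegral_ofReal
      ((Lp.memLp _).ae_eq a1).integrable_sq (Eventually.of_forall fun x => sq_nonneg _)]
    rfl
  · filter_upwards [hae, ae_all_iff.2 hJ] with x hx hx'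
    simpa only [Function.comp_apply, hx'] using hx

end Pool.Agent.Lib.MP_8fe63c_mp
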