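import Pool.Agent.Lib.MP_8fe63c_mp.NDefs

/-!
Definitions for the transfer between functions and arrays and for the comparison lemmas.
-/

open MeasureTheory Set
open scoped ENNReal InnerProductSpace

namespace Pool.Agent.Lib.MP_8fe63c_mp

variable {I κ ι : Type} [Fintype I] [DecidableEq I] [Fintype κ] [DecidableEq κ]
  [Fintype ι] [DecidableEq ι]

/-- an orthonormal family on `Ω` -/
structure ON (Ω : Set R3) (e : I → R3 → ℝ) : Prop where
  meas : ∀ a, Measurable (e a)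
  l2 : ∀ a, MemLp (e a) 2 (volume.restrict Ω)
  nrm : ∀ a, ip Ω (e a) (e a) = 1
  orth : ∀ a b, a ≠ b → ip Ω (e a) (e b) = 0

/-- the Galerkin family -/
def EB.eM {Ω : Set R3} {W : R3 → ℝ} (B : EB Ω W) (M : ℝ) (a : B.I M) : R3 → ℝ := B.e a.1

/-- gradients of the Galerkin family -/
def EB.gM {Ω : Set R3} {W : R3 → ℝ} (B : EB Ω W) (M : ℝ) (a : B.I M) : R3 → R3 := B.g a.1

/-- a bounded one-body form: multiplication minus a Hilbert-Schmidt kernel -/
structure BForm (Ω : Set R3) where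
  a : R3 → ℝ
  k : R3 → R3 → ℝ
  m_a : Measurable a
  m_k : Measurable (fun p : R3 × R3 => k p.1 p.2)
  a_bdd : ∃ M : ℝ, ∀ x, |a x| ≤ M
  l2_k : MemLp (fun p : R3 × R3 => k p.1 p.2) 2 ((volume.restrict Ω).prod (volume.restrict Ω))

noncomputable def BForm.form {Ω : Set R3} (A : BForm Ω) (u v : R3 → ℝ) : ℝ :=
  (∫ x in Ω, A.a x * u x * v x) - ∫ x in Ω, u x * ∫ z in Ω, A.k x z * v z

/-- density of the form in the variable `i` -/
noncomputable def BForm.dens {Ω : Set R3} (A : BForm Ω) (F : (ι → R3) → ℝ) (i : ι)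
    (x : ι → R3) : ℝ :=
  A.a (x i) * F x ^ 2 - F x * ∫ z in Ω, A.k (x i) z * F (Function.update x i z)

/-- the multiplication form -/
noncomputable def BForm.mul (Ω : Set R3) (a : R3 → ℝ) (hm : Measurable a)
    (hb : ∃ M : ℝ, ∀ x, |a x| ≤ M) : BForm Ω :=
  ⟨a, fun _ _ => 0, hm, measurable_const, hb, MemLp.zero⟩

/-- bounded nonnegative measurable three-body weights -/
structure Wt3 (UN : (Fin 3 → R3) → ℝ) : Prop where
  meas : Measurable UN
  nonneg : ∀ x, 0 ≤ UN x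
  bdd : ∃ K : ℝ, ∀ x, UN x ≤ K

/-- the class of `√UN * g` -/
noncomputable def sqU (Ω : Set R3) (UN : (Fin 3 → R3) → ℝ) (g : (Fin 3 → R3) → ℝ) :
    Lp ℝ 2 (muP Ω (Fin 3)) :=
  toE (muP Ω (Fin 3)) fun x => √(UN x) * g x

/-- the interaction vectors -/
noncomputable def ups (Ω : Set R3) (UN : (Fin 3 → R3) → ℝ) (e : I → R3 → ℝ) (α : Fin 3 → I) :
    Lp ℝ 2 (muP Ω (Fin 3)) :=
  sqU Ω UN (prodE e α)

/-- gradient of `tens u` in the variable `j` -/
noncomputable def gtens (u : κ → R3 → ℝ) (G : κ → R3 → R3) (j : κ) (x : κ → R3) : R3 :=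
  (∏ i ∈ Finset.univ.erase j, u i (x i)) • G j (x j)

/-- gradient of `prodE e α` in the variable `j` -/
noncomputable def gprod (e : I → R3 → ℝ) (g : I → R3 → R3) (α : κ → I) (j : κ) (x : κ → R3) : R3 :=
  gtens (fun i => e (α i)) (fun i => g (α i)) j x

/-- gradient of `hat e c` in the variable `j` -/
noncomputable def ghat (e : I → R3 → ℝ) (g : I → R3 → R3) (c : (κ → I) → ℝ) (j : κ)
    (x : κ → R3) : R3 :=
  ∑ α, c α • gprod e g α j x

/-- gradient of `k * tens u` in the variable `j` -/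
noncomputable def gmul (k : (κ → R3) → ℝ) (u : κ → R3 → ℝ) (G : κ → R3 → R3) (j : κ)
    (x : κ → R3) : R3 :=
  k x • gtens u G j x + tens u x • pgrad k j x

/-- convergence in `L^2` -/
def L2lim {X α : Type} [MeasurableSpace X] (μ : Measure X) (l : Filter α) (F : α → X → ℝ)
    (F₀ : X → ℝ) : Prop :=
  Filter.Tendsto (fun n => ∫ x, (F n x - F₀ x) ^ 2 ∂μ) l (nhds 0)

/-- total eigenvalue -/
def Lv.tot (L : Lv I) (α : κ → I) : ℝ := ∑ j, L.lam (α j)

/-- weighted distance between `Ω` and `F / (total eigenvalue)` on the high modes -/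
noncomputable def Lv.res (L : Lv I) (Ω F : (κ → I) → ℝ) : ℝ :=
  ∑ α, if L.Hi α then L.tot α * (Ω α - L.resK F α) ^ 2 else 0

/-- mass outside the high modes -/
noncomputable def Lv.lowM (L : Lv I) (T : (κ → I) → ℝ) : ℝ :=
  ∑ α, if L.Hi α then 0 else T α ^ 2

/-- residual bound for the equation `(∑ ν) Ω = F` -/
def Resid (ν lt : I → ℝ) (Ω F : (κ → I) → ℝ) (R2 : ℝ) : Prop :=
  ∀ c : (κ → I) → ℝ, (∑ α, ((∑ j, ν (α j)) * Ω α - F α) * c α) ^ 2 ≤
    R2 * ∑ α, (∑ j, (lt (α j) + 1)) * c α ^ 2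

/-- truncated second moment of a kernel at scale `s` -/
def Mom (s : ℝ) (Φ : (κ → R3) → ℝ) (c : ℝ) : Prop :=
  ∀ a b : κ, MargLe (Finset.univ.erase a)
    (fun y => eabs Φ y * ENNReal.ofReal (min (‖y a - y b‖ ^ 2 / s ^ 2) 1)) c

/-- Schur bound between one leg and the other legs -/
def Sch (F : (κ → R3) → ℝ) (x : ℝ) : Prop :=
  ∀ j : κ, ∃ m m' : ℝ, 0 ≤ m ∧ 0 ≤ m' ∧ MargLe {j} (eabs F) m ∧ MargLe {j}ᶜ (eabs F) m' ∧ m * m' ≤ x

/-- a source `F` and its Green function `k`, with all the sizes -/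
structure Cmp (m2 s ε x y : ℝ) (F k : (κ → R3) → ℝ) : Prop where
  gd : GD m2 F k
  m2_nonneg : 0 ≤ m2
  s_pos : 0 < s
  ε_pos : 0 < ε
  l2 : L2rel k ε
  wg : WGrad s k (ε * s ^ 2)
  sk : Sch k x
  sF : Sch F y
  xy : x * y ≤ ε ^ 2
  x_le : x ≤ ε

end Pool.Agent.Lib.MP_8fe63c_mp
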