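import Pool.Agent.Lib.MP_8fe63c_mp.PPar
import Pool.Agent.Lib.MP_8fe63c_mp.OChain

/-!
The energy form in one leg: eigenvalue equation, Bessel inequality and Parseval identity.

Sketch. Basic tool `integral_leg`: for integrable `f` on `muP Ω κ` and `h ≥ 0` with `∫ h = 1`,
`∫ f = ∫ x, h (x j) * ∫ y in Ω, f (update x j y)` (Fubini in the variable `j`, for instance by
`measurePreserving_piEquivPiSubtypeProd`, `MeasurableEquiv.piFinSuccAbove` or `lmarginal`). The eigenvalue
equation is the one-body equation for each slice. Bessel: with `c = coefO T`,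
`S = ∑ j-energy of c = qleg (hat c) T ≤ √S √(qleg T T)`. Parseval: let `P a T x = e a (x j) * ∫ e a y * T (update x j y)`.
Then `coefO (P a T) α = if α j = a then coefO T α else 0`, and `∑ a, ν a * ∫ (P a T)^2 = qleg T T` by `par1` on
each slice and monotone convergence; use `EB.parseval` for finitely many `a`, Bessel for the upper bound,
and polarisation (`LegF.lin`).
-/

set_option linter.unusedSectionVars false

open MeasureTheory Set Filter Topology
open scoped ENNReal InnerProductSpace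

namespace Pool.Agent.Lib.MP_8fe63c_mp

variable {I κ ι : Type} [Fintype I] [DecidableEq I] [Fintype κ] [DecidableEq κ]
  [Fintype ι] [DecidableEq ι]


variable {Ω : Set R3} {W : R3 → ℝ}

/-- the configuration with value `y` at `j` and values `z` elsewhere -/
def PLeg_gl {X : Type} (j : κ) (y : X) (z : {i : κ // i ≠ j} → X) : κ → X :=
  fun i => if h : i = j then y else z ⟨i, h⟩

theorem PLeg_gl_self {X : Type} (j : κ) (y : X) (z : {i : κ // i ≠ j} → X) :
    PLeg_gl j y z j = y := by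
  simp [PLeg_gl]

theorem PLeg_gl_ne {X : Type} (j : κ) (y : X) (z : {i : κ // i ≠ j} → X) (i : {i : κ // i ≠ j}) :
    PLeg_gl j y z i.1 = z i := by
  simp [PLeg_gl, i.2]

theorem PLeg_gl_upd {X : Type} (j : κ) (y y' : X) (z : {i : κ // i ≠ j} → X) :
    Function.update (PLeg_gl j y z) j y' = PLeg_gl j y' z := by
  funext i
  by_cases h : i = j
  · subst h
    simp [PLeg_gl]
  · simp [PLeg_gl, h]

/-- splitting of one coordinate -/
def PLeg_eq (X : Type) (j : κ) : X × ({i : κ // i ≠ j} → X) ≃ (κ → X) where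
  toFun p := PLeg_gl j p.1 p.2
  invFun x := (x j, fun i => x i.1)
  left_inv p := Prod.ext (PLeg_gl_self j p.1 p.2) (funext fun i => PLeg_gl_ne j p.1 p.2 i)
  right_inv x := by
    funext i
    by_cases h : i = j
    · subst h
      simp [PLeg_gl]
    · simp [PLeg_gl, h]

theorem PLeg_sum {M : Type} [AddCommMonoid M] (j : κ) (f : (κ → I) → M) :
    ∑ α, f α = ∑ a, ∑ β, f (PLeg_gl j a β) := by
  rw [← (PLeg_eq I j).sum_comp f, Fintype.sum_prod_type]
  rfl

theorem PLeg_meas_gl (j : κ) :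
    Measurable fun p : R3 × ({i : κ // i ≠ j} → R3) => PLeg_gl j p.1 p.2 := by
  refine measurable_pi_lambda _ fun i => ?_
  by_cases h : i = j
  · simp only [PLeg_gl, dif_pos h]
    exact measurable_fst
  · simp only [PLeg_gl, dif_neg h]
    exact (measurable_pi_apply _).comp measurable_snd

/-- the measurable splitting -/
def PLeg_me (j : κ) : R3 × ({i : κ // i ≠ j} → R3) ≃ᵐ (κ → R3) where
  toEquiv := PLeg_eq R3 j
  measurable_toFun := PLeg_meas_gl j
  measurable_invFun :=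
    (measurable_pi_apply j).prodMk (measurable_pi_lambda _ fun i => measurable_pi_apply i.1)

instance PLeg_sf (Ω : Set R3) (κ : Type) [Fintype κ] : SigmaFinite (muP Ω κ) := by
  unfold muP
  infer_instance

theorem PLeg_mp (Ω : Set R3) (j : κ) : MeasurePreserving (PLeg_me j)
    ((volume.restrict Ω).prod (muP Ω {i : κ // i ≠ j})) (muP Ω κ) := by
  refine ⟨(PLeg_me j).measurable, (Measure.pi_eq fun s _ => ?_).symm⟩
  have h : PLeg_me j ⁻¹' pi univ s = s j ×ˢ pi univ fun i : {i : κ // i ≠ j} => s i.1 := by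
    ext p
    simp only [mem_preimage, Set.mem_pi, mem_univ, true_imp_iff, mem_prod]
    constructor
    · intro h
      exact ⟨PLeg_gl_self j p.1 p.2 ▸ h j, fun i => PLeg_gl_ne j p.1 p.2 i ▸ h i.1⟩
    · rintro ⟨h1, h2⟩ i
      change PLeg_gl j p.1 p.2 i ∈ s i
      by_cases hi : i = j
      · subst hi
        rwa [PLeg_gl_self]
      · have := h2 ⟨i, hi⟩
        rwa [← PLeg_gl_ne j p.1 p.2 ⟨i, hi⟩] at this
  rw [MeasurableEquiv.map_apply, h, Measure.prod_prod, muP, Measure.pi_pi,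
    Fintype.prod_eq_mul_prod_subtype_ne _ j]

theorem PLeg_integrable (j : κ) {E : Type} [NormedAddCommGroup E] {f : (κ → R3) → E}
    (hf : Integrable f (muP Ω κ)) :
    Integrable (fun p : R3 × ({i : κ // i ≠ j} → R3) => f (PLeg_gl j p.1 p.2))
      ((volume.restrict Ω).prod (muP Ω {i : κ // i ≠ j})) :=
  ((PLeg_mp Ω j).integrable_comp_emb (PLeg_me j).measurableEmbedding).2 hf

theorem PLeg_int0 (j : κ) (f : (κ → R3) → ℝ) :
    ∫ x, f x ∂muP Ω κ = ∫ p : R3 × ({i : κ // i ≠ j} → R3), f (PLeg_gl j p.1 p.2)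
      ∂(volume.restrict Ω).prod (muP Ω {i : κ // i ≠ j}) :=
  ((PLeg_mp Ω j).integral_comp' f).symm

theorem PLeg_int (j : κ) {f : (κ → R3) → ℝ} (hf : Integrable f (muP Ω κ)) :
    ∫ x, f x ∂muP Ω κ = ∫ z, (∫ y in Ω, f (PLeg_gl j y z)) ∂muP Ω {i : κ // i ≠ j} := by
  rw [PLeg_int0 j, integral_prod_symm _ (PLeg_integrable j hf)]

theorem PLeg_int_int (j : κ) {f : (κ → R3) → ℝ} (hf : Integrable f (muP Ω κ)) :
    Integrable (fun z => ∫ y in Ω, f (PLeg_gl j y z)) (muP Ω {i : κ // i ≠ j}) :=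
  (PLeg_integrable j hf).integral_prod_right

theorem PLeg_lint0 (j : κ) (f : (κ → R3) → ℝ≥0∞) :
    ∫⁻ x, f x ∂muP Ω κ = ∫⁻ p : R3 × ({i : κ // i ≠ j} → R3), f (PLeg_gl j p.1 p.2)
      ∂(volume.restrict Ω).prod (muP Ω {i : κ // i ≠ j}) :=
  ((PLeg_mp Ω j).lintegral_comp_emb (PLeg_me j).measurableEmbedding f).symm

theorem integral_leg (j : κ) {f : (κ → R3) → ℝ} (hf : Integrable f (muP Ω κ)) {h : R3 → ℝ}
    (hm : Measurable h) (h0 : ∀ y, 0 ≤ h y) (h1 : ∫ y in Ω, h y = 1) :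
    ∫ x, f x ∂muP Ω κ = ∫ x, h (x j) * (∫ y in Ω, f (Function.update x j y)) ∂muP Ω κ := by
  have _ := hm
  have _ := h0
  rw [PLeg_int j hf, PLeg_int0 j]
  simp only [PLeg_gl_self, PLeg_gl_upd]
  rw [integral_prod_mul h fun z => ∫ y in Ω, f (PLeg_gl j y z), h1, one_mul]

theorem lintegral_leg (j : κ) {f : (κ → R3) → ℝ≥0∞} (hf : Measurable f) {h : R3 → ℝ≥0∞}
    (hm : Measurable h) (h1 : ∫⁻ y in Ω, h y = 1) :
    ∫⁻ x, f x ∂muP Ω κ = ∫⁻ x, h (x j) * (∫⁻ y in Ω, f (Function.update x j y)) ∂muP Ω κ := by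
  have h2 := hf.comp (PLeg_meas_gl j)
  rw [PLeg_lint0 j, PLeg_lint0 j]
  simp only [PLeg_gl_self, PLeg_gl_upd]
  rw [lintegral_prod_mul (g := fun z => ∫⁻ y in Ω, f (PLeg_gl j y z)) hm.aemeasurable
    h2.lintegral_prod_left'.aemeasurable, h1, one_mul]
  exact lintegral_prod_symm _ h2.aemeasurable

theorem PLeg_mW (hW : Pot W) (j : κ) : Measurable fun x : κ → R3 => √(W (x j)) :=
  (hW.meas.comp (measurable_pi_apply j)).sqrt

theorem LegF.integrable (hW : Pot W) {j : κ} {T T' : (κ → R3) → ℝ} {G G' : (κ → R3) → R3}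
    (h : LegF Ω W T j G) (h' : LegF Ω W T' j G') :
    Integrable (fun x => ⟪G x, G' x⟫_ℝ) (muP Ω κ) ∧
      Integrable (fun x => W (x j) * T x * T' x) (muP Ω κ) := by
  refine ⟨OBas_int_inner h.l2G h'.l2G, (h.l2W.integrable_mul h'.l2W).congr
    (Eventually.of_forall fun x => ?_)⟩
  have h1 := Real.mul_self_sqrt (hW.nonneg (x j))
  simp only [Pi.mul_apply]
  linear_combination T x * T' x * h1

theorem PLeg_qint (hW : Pot W) {j : κ} {T T' : (κ → R3) → ℝ} {G G' : (κ → R3) → R3}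
    (h : LegF Ω W T j G) (h' : LegF Ω W T' j G') :
    Integrable (fun x => ⟪G x, G' x⟫_ℝ + W (x j) * T x * T' x) (muP Ω κ) :=
  (h.integrable hW h').1.add (h.integrable hW h').2

theorem PLeg_legF_sum (hW : Pot W) {A : Type} (s : Finset A) {j : κ} {T : A → (κ → R3) → ℝ}
    {G : A → (κ → R3) → R3} (h : ∀ a, LegF Ω W (T a) j (G a)) (c : A → ℝ) :
    LegF Ω W (fun x => ∑ a ∈ s, c a * T a x) j (fun x => ∑ a ∈ s, c a • G a x) where
  mT := Finset.measurable_sum _ fun a _ => (h a).mT.const_mul _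
  mG := Finset.measurable_sum _ fun a _ => (h a).mG.const_smul (c a)
  slice x := InF.sum hW s (fun a _ => (h a).slice x) c
  l2T := memLp_finsetSum _ fun a _ => (h a).l2T.const_mul _
  l2G := memLp_finsetSum _ fun a _ => (h a).l2G.const_smul (c a)
  l2W := by
    have h1 : MemLp (fun x => ∑ a ∈ s, c a * (√(W (x j)) * T a x)) 2 (muP Ω κ) :=
      memLp_finsetSum _ fun a _ => (h a).l2W.const_mul _
    refine h1.congr_norm ((PLeg_mW hW j).mul
      (Finset.measurable_sum _ fun a _ => (h a).mT.const_mul _)).aestronglyMeasurable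
      (Eventually.of_forall fun x => ?_)
    rw [Finset.mul_sum]
    congr 1
    exact Finset.sum_congr rfl fun a _ => by ring

theorem PLeg_qleg_sum (hW : Pot W) {A : Type} (s : Finset A) {j : κ} {T : A → (κ → R3) → ℝ}
    {G : A → (κ → R3) → R3} (h : ∀ a, LegF Ω W (T a) j (G a)) (c : A → ℝ)
    {T' : (κ → R3) → ℝ} {G' : (κ → R3) → R3} (h' : LegF Ω W T' j G') :
    qleg Ω W j (fun x => ∑ a ∈ s, c a * T a x) (fun x => ∑ a ∈ s, c a • G a x) T' G' =
      ∑ a ∈ s, c a * qleg Ω W j (T a) (G a) T' G' := by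
  simp only [qleg, ← integral_const_mul]
  rw [← integral_finsetSum _ fun a _ => (PLeg_qint hW (h a) h').const_mul (c a)]
  refine integral_congr_ae (Eventually.of_forall fun x => ?_)
  simp only [sum_inner, Finset.mul_sum, Finset.sum_mul, ← Finset.sum_add_distrib,
    real_inner_smul_left]
  exact Finset.sum_congr rfl fun a _ => by ring

theorem LegF.lin (hW : Pot W) {j : κ} {T T' : (κ → R3) → ℝ} {G G' : (κ → R3) → R3}
    (h : LegF Ω W T j G) (h' : LegF Ω W T' j G') (a b : ℝ) :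
    LegF Ω W (fun x => a * T x + b * T' x) j (fun x => a • G x + b • G' x) := by
  refine ⟨(h.mT.const_mul a).add (h'.mT.const_mul b), (h.mG.const_smul a).add (h'.mG.const_smul b),
    fun x => ((h.slice x).smul hW a).add hW ((h'.slice x).smul hW b),
    (h.l2T.const_mul a).add (h'.l2T.const_mul b),
    (h.l2G.const_smul a).add (h'.l2G.const_smul b), ?_⟩
  have h1 := (h.l2W.const_mul a).add (h'.l2W.const_mul b)
  refine (memLp_congr_ae (Eventually.of_forall fun x => ?_)).1 h1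
  simp only [Pi.add_apply]
  ring

theorem PLeg_qleg_lin (hW : Pot W) {j : κ} {T T' S : (κ → R3) → ℝ} {G G' H : (κ → R3) → R3}
    (h : LegF Ω W T j G) (h' : LegF Ω W T' j G') (h'' : LegF Ω W S j H) (a b : ℝ) :
    qleg Ω W j (fun x => a * T x + b * T' x) (fun x => a • G x + b • G' x) S H =
      a * qleg Ω W j T G S H + b * qleg Ω W j T' G' S H := by
  simp only [qleg, ← integral_const_mul]
  rw [← integral_add ((PLeg_qint hW h h'').const_mul a) ((PLeg_qint hW h' h'').const_mul b)]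
  refine integral_congr_ae (Eventually.of_forall fun x => ?_)
  simp only [inner_add_left, real_inner_smul_left]
  ring

theorem qleg_comm (j : κ) (T T' : (κ → R3) → ℝ) (G G' : (κ → R3) → R3) :
    qleg Ω W j T G T' G' = qleg Ω W j T' G' T G := by
  refine integral_congr_ae (Eventually.of_forall fun x => ?_)
  simp only
  rw [real_inner_comm]
  ring

theorem qleg_nonneg (hW : Pot W) (j : κ) (T : (κ → R3) → ℝ) (G : (κ → R3) → R3) :
    0 ≤ qleg Ω W j T G T G := by
  refine integral_nonneg fun x => add_nonneg real_inner_self_nonneg ?_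
  rw [mul_assoc]
  exact mul_nonneg (hW.nonneg _) (mul_self_nonneg _)

theorem PLeg_qleg_exp (hW : Pot W) {j : κ} {T T' : (κ → R3) → ℝ} {G G' : (κ → R3) → R3}
    (h : LegF Ω W T j G) (h' : LegF Ω W T' j G') (a b : ℝ) :
    qleg Ω W j (fun x => a * T x + b * T' x) (fun x => a • G x + b • G' x)
      (fun x => a * T x + b * T' x) (fun x => a • G x + b • G' x) =
      a ^ 2 * qleg Ω W j T G T G + 2 * a * b * qleg Ω W j T G T' G' +
        b ^ 2 * qleg Ω W j T' G' T' G' := by
  rw [PLeg_qleg_lin hW h h' (h.lin hW h' a b), qleg_comm j T, qleg_comm j T',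
    PLeg_qleg_lin hW h h' h, PLeg_qleg_lin hW h h' h', qleg_comm j T' T]
  ring

theorem qleg_sq_le (hW : Pot W) {j : κ} {T T' : (κ → R3) → ℝ} {G G' : (κ → R3) → R3}
    (h : LegF Ω W T j G) (h' : LegF Ω W T' j G') :
    qleg Ω W j T G T' G' ^ 2 ≤ qleg Ω W j T G T G * qleg Ω W j T' G' T' G' := by
  have h1 : discrim (qleg Ω W j T G T G) (2 * qleg Ω W j T G T' G') (qleg Ω W j T' G' T' G') ≤ 0 := by
    refine discrim_le_zero fun t => ?_
    have h2 := qleg_nonneg (Ω := Ω) hW j (fun x => t * T x + 1 * T' x) (fun x => t • G x + (1 : ℝ) • G' x)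
    rw [PLeg_qleg_exp hW h h'] at h2
    linarith
  unfold discrim at h1
  linarith

theorem PLeg_tens_split (u : κ → R3 → ℝ) (j : κ) (x : κ → R3) :
    tens u x = (∏ i ∈ Finset.univ.erase j, u i (x i)) * u j (x j) :=
  (Finset.prod_erase_mul _ (fun i => u i (x i)) (Finset.mem_univ j)).symm

theorem PLeg_prod_upd (u : κ → R3 → ℝ) (j : κ) (x : κ → R3) (y : R3) :
    ∏ i ∈ Finset.univ.erase j, u i (Function.update x j y i) =
      ∏ i ∈ Finset.univ.erase j, u i (x i) :=
  Finset.prod_congr rfl fun i hi => by rw [Function.update_of_ne (Finset.ne_of_mem_erase hi)]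

theorem PLeg_tens_upd (u : κ → R3 → ℝ) (j : κ) (v : R3 → ℝ) (x : κ → R3) :
    tens (Function.update u j v) x = (∏ i ∈ Finset.univ.erase j, u i (x i)) * v (x j) := by
  rw [PLeg_tens_split _ j, Function.update_self]
  congr 1
  exact Finset.prod_congr rfl fun i hi => by
    rw [Function.update_of_ne (Finset.ne_of_mem_erase hi)]

theorem PLeg_memLp_upd {u : κ → R3 → ℝ} (h : ∀ i, MemLp (u i) 2 (volume.restrict Ω)) (j : κ)
    {v : R3 → ℝ} (hv : MemLp v 2 (volume.restrict Ω)) :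
    MemLp (fun x : κ → R3 => (∏ i ∈ Finset.univ.erase j, u i (x i)) * v (x j)) 2 (muP Ω κ) := by
  have h1 : MemLp (tens (Function.update u j v)) 2 (muP Ω κ) := by
    refine memLp_tens fun i => ?_
    by_cases hi : i = j
    · subst hi
      rwa [Function.update_self]
    · rw [Function.update_of_ne hi]
      exact h i
  exact (memLp_congr_ae (Eventually.of_forall (PLeg_tens_upd u j v))).1 h1

theorem legF_tens (hW : Pot W) {u : κ → R3 → ℝ} {G : κ → R3 → R3} (h : ∀ i, InF Ω W (u i) (G i))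
    (j : κ) : LegF Ω W (tens u) j (gtens u G j) := by
  have hu := fun i => (h i).memLp_u hW
  have mG : Measurable (gtens u G j) :=
    (Finset.measurable_prod _ fun i _ => (h i).mu.comp (measurable_pi_apply i)).smul
      ((h j).mG.comp (measurable_pi_apply j))
  refine ⟨Finset.measurable_prod _ fun i _ => (h i).mu.comp (measurable_pi_apply i), mG,
    fun x => ?_, memLp_tens hu, ?_, ?_⟩
  · have h1 := (h j).smul hW (∏ i ∈ Finset.univ.erase j, u i (x i))
    simpa only [PLeg_tens_split u j, gtens, PLeg_prod_upd, Function.update_self] using h1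
  · refine (PLeg_memLp_upd hu j ((h j).memLp_G hW).norm).congr_norm mG.aestronglyMeasurable
      (Eventually.of_forall fun x => ?_)
    simp only [gtens, norm_smul, norm_mul, norm_norm]
  · refine (memLp_congr_ae (Eventually.of_forall fun x => ?_)).1
      (PLeg_memLp_upd hu j ((h j).memLp_W hW))
    simp only [PLeg_tens_split u j]
    ring

theorem PLeg_legF_prodE (hW : Pot W) {e : I → R3 → ℝ} {g : I → R3 → R3}
    (h : ∀ a, InF Ω W (e a) (g a)) (j : κ) (α : κ → I) :
    LegF Ω W (prodE e α) j (gprod e g α j) :=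
  legF_tens hW (u := fun i => e (α i)) (G := fun i => g (α i)) (fun i => h (α i)) j

theorem legF_hat (hW : Pot W) {e : I → R3 → ℝ} {g : I → R3 → R3} (h : ∀ a, InF Ω W (e a) (g a))
    (c : (κ → I) → ℝ) (j : κ) : LegF Ω W (hat e c) j (ghat e g c j) :=
  PLeg_legF_sum hW Finset.univ (PLeg_legF_prodE hW h j) c

theorem legF_mul (hW : Pot W) {k : (κ → R3) → ℝ} (hk : Cb1 k) {u : κ → R3 → ℝ} {G : κ → R3 → R3}
    (h : ∀ i, InF Ω W (u i) (G i)) (j : κ) :
    LegF Ω W (fun x => k x * tens u x) j (gmul k u G j) := by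
  have ht := legF_tens hW h j
  have mk : Measurable k := hk.1.continuous.measurable
  have mp : Measurable (pgrad k j) := (hk.continuous_pgrad j).measurable
  obtain ⟨M', hM'⟩ := hk.pgrad_bdd
  obtain ⟨M, hM⟩ := hk.2
  refine ⟨mk.mul ht.mT, (mk.smul ht.mG).add (ht.mT.smul mp), fun x => ?_, ?_, ?_, ?_⟩
  · have h1 := (ht.slice x).mult hW (hk.slice j x)
    simpa only [gradient_slice, gmul] using h1
  · refine ht.l2T.of_le_mul (c := M) (mk.mul ht.mT).aestronglyMeasurable
      (Eventually.of_forall fun x => ?_)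
    rw [norm_mul]
    exact mul_le_mul_of_nonneg_right (hM x).1 (norm_nonneg _)
  · refine MemLp.add (f := fun x => k x • gtens u G j x) (g := fun x => tens u x • pgrad k j x)
      (ht.l2G.of_le_mul (c := M) (mk.smul ht.mG).aestronglyMeasurable
        (Eventually.of_forall fun x => ?_))
      (ht.l2T.of_le_mul (c := M') (ht.mT.smul mp).aestronglyMeasurable
        (Eventually.of_forall fun x => ?_))
    · rw [norm_smul]
      exact mul_le_mul_of_nonneg_right (hM x).1 (norm_nonneg _)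
    · rw [norm_smul, mul_comm]
      exact mul_le_mul_of_nonneg_right (hM' j x) (norm_nonneg _)
  · refine ht.l2W.of_le_mul (c := M) ((PLeg_mW hW j).mul (mk.mul ht.mT)).aestronglyMeasurable
      (Eventually.of_forall fun x => ?_)
    rw [mul_left_comm, norm_mul]
    exact mul_le_mul_of_nonneg_right (hM x).1 (norm_nonneg _)

instance PLeg_fc (Ω : Set R3) (κ : Type) [Fintype κ] : IsFiniteMeasureOnCompacts (muP Ω κ) := by
  unfold muP
  infer_instance

theorem Cc1.legF (hW : Pot W) {F : (κ → R3) → ℝ} (hF : Cc1 F) (j : κ) :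
    LegF Ω W F j (pgrad F j) := by
  have mF : Measurable F := hF.1.continuous.measurable
  have cp : Continuous (pgrad F j) := hF.cb1.continuous_pgrad j
  have l2 : MemLp F 2 (muP Ω κ) := hF.1.continuous.memLp_of_hasCompactSupport hF.2
  refine ⟨mF, cp.measurable, fun x => ?_, l2, cp.memLp_of_hasCompactSupport ?_, ?_⟩
  · have h1 : InF Ω W _ _ := (hF.slice j x).inF
    have h2 : gradient (fun y => F (Function.update x j y)) =
        fun y => pgrad F j (Function.update x j y) := funext fun y => gradient_slice F j x y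
    rwa [h2] at h1
  · obtain ⟨L, hL⟩ := HGreen_exists_L j
    have e : pgrad F j = fun x => L (fderiv ℝ F x) :=
      funext fun x => HGreen_pgrad_L hL ((contDiff_one_iff_fderiv.1 hF.1).1 x)
    rw [e]
    exact (hF.2.fderiv (𝕜 := ℝ)).comp_left (g := fun φ => L φ) (map_zero L)
  · obtain ⟨R, hR⟩ := hF.2.isCompact.isBounded.subset_closedBall 0
    obtain ⟨M, hM⟩ := hW.locBdd R
    refine l2.of_le_mul (c := √M) ((PLeg_mW hW j).mul mF).aestronglyMeasurable
      (Eventually.of_forall fun x => ?_)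
    by_cases hx : F x = 0
    · simp [hx]
    · have h1 := hR (subset_tsupport _ hx)
      rw [mem_closedBall_zero_iff] at h1
      rw [norm_mul, Real.norm_of_nonneg (Real.sqrt_nonneg _)]
      exact mul_le_mul_of_nonneg_right
        (Real.sqrt_le_sqrt (hM _ ((norm_le_pi_norm x j).trans h1))) (norm_nonneg _)

theorem Cc1.memLp {F : (κ → R3) → ℝ} (hF : Cc1 F) : MemLp F 2 (muP Ω κ) :=
  hF.1.continuous.memLp_of_hasCompactSupport hF.2

theorem qleg_hat_left (hW : Pot W) {e : I → R3 → ℝ} {g : I → R3 → R3}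
    (he : ∀ a, InF Ω W (e a) (g a)) (c : (κ → I) → ℝ) {j : κ} {T : (κ → R3) → ℝ}
    {G : (κ → R3) → R3} (h : LegF Ω W T j G) :
    qleg Ω W j (hat e c) (ghat e g c j) T G =
      ∑ α, c α * qleg Ω W j (prodE e α) (gprod e g α j) T G :=
  PLeg_qleg_sum hW Finset.univ (PLeg_legF_prodE hW he j) c h

theorem qleg_tens (hW : Pot W) {u v : κ → R3 → ℝ} {G H : κ → R3 → R3}
    (h : ∀ i, InF Ω W (u i) (G i)) (h' : ∀ i, InF Ω W (v i) (H i)) (j : κ) :
    qleg Ω W j (tens u) (gtens u G j) (tens v) (gtens v H j) =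
      qf Ω W (u j) (G j) (v j) (H j) * ∏ i ∈ Finset.univ.erase j, ip Ω (u i) (v i) := by
  have _ := hW
  have _ := h
  have _ := h'
  have h1 := integral_fintype_prod_eq_prod (μ := fun _ : κ => (volume : Measure R3).restrict Ω)
    (Function.update (fun i y => u i y * v i y) j
      fun y => ⟪G j y, H j y⟫_ℝ + W y * u j y * v j y)
  rw [← Finset.mul_prod_erase _ _ (Finset.mem_univ j), Function.update_self] at h1
  have h2 : ∏ i ∈ Finset.univ.erase j, ∫ x in Ω, Function.update (fun i y => u i y * v i y) j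
      (fun y => ⟪G j y, H j y⟫_ℝ + W y * u j y * v j y) i x =
      ∏ i ∈ Finset.univ.erase j, ip Ω (u i) (v i) :=
    Finset.prod_congr rfl fun i hi => by
      rw [Function.update_of_ne (Finset.ne_of_mem_erase hi), ip]
  rw [h2] at h1
  rw [qf, ← h1]
  refine integral_congr_ae (Eventually.of_forall fun x => ?_)
  have h3 := PLeg_tens_upd (fun i y => u i y * v i y) j
    (fun y => ⟪G j y, H j y⟫_ℝ + W y * u j y * v j y) x
  rw [tens] at h3
  simp only [h3, PLeg_tens_split u j, PLeg_tens_split v j, gtens, real_inner_smul_left,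
    real_inner_smul_right, Finset.prod_mul_distrib]
  ring

theorem PLeg_prod_gl (u : κ → R3 → ℝ) (j : κ) (y : R3) (z : {i : κ // i ≠ j} → R3) :
    ∏ i ∈ Finset.univ.erase j, u i (PLeg_gl j y z i) = ∏ i : {i : κ // i ≠ j}, u i.1 (z i) := by
  rw [Finset.prod_subtype (p := fun i => i ≠ j) (Finset.univ.erase j) (fun i => by simp)]
  exact Finset.prod_congr rfl fun i _ => by rw [PLeg_gl_ne]

theorem PLeg_prodE_gl (e : I → R3 → ℝ) (α : κ → I) (j : κ) (y : R3) (z : {i : κ // i ≠ j} → R3) :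
    prodE e α (PLeg_gl j y z) = prodE e (fun i : {i : κ // i ≠ j} => α i.1) z * e (α j) y := by
  have h := PLeg_tens_split (fun i => e (α i)) j (PLeg_gl j y z)
  rw [PLeg_prod_gl (fun i => e (α i)), PLeg_gl_self] at h
  exact h

theorem PLeg_gprod_gl (e : I → R3 → ℝ) (g : I → R3 → R3) (α : κ → I) (j : κ) (y : R3)
    (z : {i : κ // i ≠ j} → R3) :
    gprod e g α j (PLeg_gl j y z) = prodE e (fun i : {i : κ // i ≠ j} => α i.1) z • g (α j) y := by
  rw [gprod, gtens, PLeg_prod_gl (fun i => e (α i)), PLeg_gl_self]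
  rfl

theorem PLeg_slice {j : κ} {T : (κ → R3) → ℝ} {G : (κ → R3) → R3} (h : LegF Ω W T j G)
    (z : {i : κ // i ≠ j} → R3) :
    InF Ω W (fun y => T (PLeg_gl j y z)) (fun y => G (PLeg_gl j y z)) := by
  simpa only [PLeg_gl_upd] using h.slice (PLeg_gl j 0 z)

theorem PLeg_coefO {e : I → R3 → ℝ} (he : ∀ a, MemLp (e a) 2 (volume.restrict Ω)) (j : κ)
    {T : (κ → R3) → ℝ} (hT : MemLp T 2 (muP Ω κ)) (α : κ → I) :
    coefO Ω e T α = coefO Ω e (fun z => ip Ω (e (α j)) fun y => T (PLeg_gl j y z))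
      (fun i : {i : κ // i ≠ j} => α i.1) := by
  have hi : Integrable (fun x => T x * prodE e α x) (muP Ω κ) :=
    hT.integrable_mul (memLp_prodE he α)
  rw [coefO, PLeg_int j hi, coefO]
  refine integral_congr_ae (Eventually.of_forall fun z => ?_)
  simp only [ip, ← integral_mul_const, PLeg_prodE_gl]
  refine integral_congr_ae (Eventually.of_forall fun y => ?_)
  simp only
  ring

theorem PLeg_eig (hW : Pot W) {e : I → R3 → ℝ} {g : I → R3 → R3} (he : ∀ a, InF Ω W (e a) (g a))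
    {j : κ} {T : (κ → R3) → ℝ} {G : (κ → R3) → R3} (h : LegF Ω W T j G) (α : κ → I) {ν : ℝ}
    (hν : ∀ z, qf Ω W (e (α j)) (g (α j)) (fun y => T (PLeg_gl j y z))
      (fun y => G (PLeg_gl j y z)) = ν * ip Ω (e (α j)) fun y => T (PLeg_gl j y z)) :
    qleg Ω W j (prodE e α) (gprod e g α j) T G = ν * coefO Ω e T α := by
  rw [PLeg_coefO (fun a => (he a).memLp_u hW) j h.l2T, qleg,
    PLeg_int j (PLeg_qint hW (PLeg_legF_prodE hW he j α) h), coefO, ← integral_const_mul]
  refine integral_congr_ae (Eventually.of_forall fun z => ?_)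
  simp only
  rw [← mul_assoc, ← hν, qf, ← integral_mul_const]
  refine integral_congr_ae (Eventually.of_forall fun y => ?_)
  simp only [PLeg_prodE_gl, PLeg_gprod_gl, PLeg_gl_self, real_inner_smul_left]
  ring

theorem EB.eig_leg (hW : Pot W) (B : EB Ω W) (M : ℝ) {j : κ} {T : (κ → R3) → ℝ}
    {G : (κ → R3) → R3} (h : LegF Ω W T j G) (α : κ → B.I M) :
    qleg Ω W j (prodE (B.eM M) α) (gprod (B.eM M) (B.gM M) α j) T G =
      B.ν (α j).1 * coefO Ω (B.eM M) T α :=
  PLeg_eig hW (e := B.eM M) (g := B.gM M) (fun a => B.inF a.1) h α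
    fun z => B.eig (α j).1 _ _ (PLeg_slice h z)

theorem EFrame.eig_leg (hW : Pot W) {S : Set R3} (fr : EFrame I W S) {j : κ} {T : (κ → R3) → ℝ}
    {G : (κ → R3) → R3} (h : LegF univ W T j G) (hS : ∀ x, x j ∉ S → T x = 0 ∧ G x = 0)
    (α : κ → I) :
    qleg univ W j (prodE fr.e α) (gprod fr.e fr.g α j) T G = fr.ν (α j) * coef fr.e T α := by
  rw [← coefO_univ]
  exact PLeg_eig hW fr.inFW h α fun z => fr.eig (α j) _ _ (PLeg_slice h z)
    fun y hy => hS _ (by rwa [PLeg_gl_self])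

theorem PLeg_hat_gl (e : I → R3 → ℝ) (c : (κ → I) → ℝ) (j : κ) (y : R3)
    (z : {i : κ // i ≠ j} → R3) :
    hat e c (PLeg_gl j y z) = ∑ a, hat e (fun β => c (PLeg_gl j a β)) z * e a y := by
  rw [hat, PLeg_sum j]
  refine Finset.sum_congr rfl fun a _ => ?_
  rw [hat, Finset.sum_mul]
  refine Finset.sum_congr rfl fun β _ => ?_
  simp only [PLeg_prodE_gl, PLeg_gl_self, PLeg_gl_ne, mul_assoc]

theorem PLeg_ghat_gl (e : I → R3 → ℝ) (g : I → R3 → R3) (c : (κ → I) → ℝ) (j : κ) (y : R3)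
    (z : {i : κ // i ≠ j} → R3) :
    ghat e g c j (PLeg_gl j y z) = ∑ a, hat e (fun β => c (PLeg_gl j a β)) z • g a y := by
  rw [ghat, PLeg_sum j]
  refine Finset.sum_congr rfl fun a _ => ?_
  rw [hat, Finset.sum_smul]
  refine Finset.sum_congr rfl fun β _ => ?_
  simp only [PLeg_gprod_gl, PLeg_gl_self, PLeg_gl_ne, smul_smul]

theorem PLeg_bes (fr : Frame I) (c : (κ → I) → ℝ) (j : κ) {lam : I → ℝ} (h0 : ∀ a, 0 ≤ lam a)
    {D : (κ → R3) → ℝ} (hD : Integrable D (muP univ κ))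
    (h : ∀ z, ∫ y, D (PLeg_gl j y z) ≤
      ∑ a, lam a * hat fr.e (fun β => c (PLeg_gl j a β)) z ^ 2) :
    ∫ x, D x ≤ ∑ α, lam (α j) * c α ^ 2 := by
  have h1 := PLeg_int j hD
  have h2 := PLeg_int_int j hD
  simp only [muP_univ, Measure.restrict_univ] at h1 h2
  have h3 : ∀ a, Integrable fun z : {i : κ // i ≠ j} → R3 =>
      lam a * hat fr.e (fun β => c (PLeg_gl j a β)) z ^ 2 :=
    fun a => (NBes_memLp_hat fr _).integrable_sq.const_mul _
  rw [h1, PLeg_sum j]
  refine (integral_mono h2 (integrable_finsetSum _ fun a _ => h3 a) h).trans ?_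
  rw [integral_finsetSum _ fun a _ => h3 a]
  refine Finset.sum_le_sum fun a _ => ?_
  simp only [PLeg_gl_self]
  rw [integral_const_mul, ← Finset.mul_sum]
  exact mul_le_mul_of_nonneg_left (hat_l2_le fr _) (h0 a)

/-- Bessel inequalities for a frame in one leg -/
theorem Frame.ghat_le (fr : Frame I) (c : (κ → I) → ℝ) (j : κ) :
    ∫ x, ‖ghat fr.e fr.g c j x‖ ^ 2 ≤ ∑ α, fr.lt (α j) * c α ^ 2 := by
  refine PLeg_bes fr c j fr.lt_nonneg
    (legF_hat pot_zero fr.inF c j).l2G.norm.integrable_sq fun z => ?_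
  simp only [PLeg_ghat_gl]
  exact fr.bes1 _

theorem PLeg_self_int (hW : Pot W) {j : κ} {T : (κ → R3) → ℝ} {G : (κ → R3) → R3}
    (h : LegF Ω W T j G) : Integrable (fun x => ‖G x‖ ^ 2 + W (x j) * T x ^ 2) (muP Ω κ) := by
  refine (PLeg_qint hW h h).congr (Eventually.of_forall fun x => ?_)
  simp only
  rw [real_inner_self_eq_norm_sq]
  ring

theorem EFrame.legS_le (hW : Pot W) {S : Set R3} (hS : MeasurableSet S) (fr : EFrame I W S)
    (c : (κ → I) → ℝ) (j : κ) :
    ∫ x in {x : κ → R3 | x j ∈ S}, (‖ghat fr.e fr.g c j x‖ ^ 2 + W (x j) * hat fr.e c x ^ 2) ≤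
      ∑ α, fr.ν (α j) * c α ^ 2 := by
  have hm : MeasurableSet {x : κ → R3 | x j ∈ S} := measurable_pi_apply j hS
  rw [← integral_indicator hm]
  refine PLeg_bes fr.toFrame c j fr.ν_nonneg
    ((PLeg_self_int hW (legF_hat hW fr.inFW c j)).indicator hm) fun z => ?_
  refine le_trans (le_of_eq ?_) (fr.besS fun a => hat fr.e (fun β => c (PLeg_gl j a β)) z)
  rw [← integral_indicator hS]
  refine integral_congr_ae (Eventually.of_forall fun y => ?_)
  by_cases hy : y ∈ S
  · have h1 : PLeg_gl j y z ∈ {x : κ → R3 | x j ∈ S} := by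
      rwa [mem_ofPred_eq, PLeg_gl_self]
    simp only [indicator_of_mem hy, indicator_of_mem h1, PLeg_ghat_gl, PLeg_hat_gl, PLeg_gl_self]
  · have h1 : PLeg_gl j y z ∉ {x : κ → R3 | x j ∈ S} := by
      rwa [mem_ofPred_eq, PLeg_gl_self]
    simp only [indicator_of_notMem hy, indicator_of_notMem h1]

theorem PLeg_hat_left (hW : Pot W) (B : EB Ω W) (M : ℝ) (c : (κ → B.I M) → ℝ) {j : κ}
    {T : (κ → R3) → ℝ} {G : (κ → R3) → R3} (h : LegF Ω W T j G) :
    qleg Ω W j (hat (B.eM M) c) (ghat (B.eM M) (B.gM M) c j) T G =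
      ∑ α, B.ν (α j).1 * c α * coefO Ω (B.eM M) T α := by
  rw [qleg_hat_left hW (e := B.eM M) (g := B.gM M) (fun a => B.inF a.1) c h]
  refine Finset.sum_congr rfl fun α _ => ?_
  rw [B.eig_leg hW M h]
  ring

theorem EB.qleg_hat (hW : Pot W) (B : EB Ω W) (M : ℝ) (c c' : (κ → B.I M) → ℝ) (j : κ) :
    qleg Ω W j (hat (B.eM M) c) (ghat (B.eM M) (B.gM M) c j) (hat (B.eM M) c')
      (ghat (B.eM M) (B.gM M) c' j) = ∑ α, B.ν (α j).1 * c α * c' α := by
  rw [PLeg_hat_left hW B M c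
    (legF_hat hW (e := B.eM M) (g := B.gM M) (fun a => B.inF a.1) c' j), (B.on hW M).coefO_hat]

theorem EB.bessel_leg (hW : Pot W) (B : EB Ω W) (M : ℝ) {j : κ} {T : (κ → R3) → ℝ}
    {G : (κ → R3) → R3} (h : LegF Ω W T j G) :
    ∑ α : κ → B.I M, B.ν (α j).1 * coefO Ω (B.eM M) T α ^ 2 ≤ qleg Ω W j T G T G := by
  have h1 := PLeg_qleg_exp hW (legF_hat hW (e := B.eM M) (g := B.gM M) (fun a => B.inF a.1)
    (coefO Ω (B.eM M) T) j) h 1 (-1)
  have h2 := h1 ▸ qleg_nonneg hW j _ _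
  rw [B.qleg_hat hW, PLeg_hat_left hW B M _ h] at h2
  simp only [sq, ← mul_assoc]
  linarith

theorem EFrame.bessel_leg (hW : Pot W) {S : Set R3} (hm : MeasurableSet S) (fr : EFrame I W S)
    {j : κ} {T : (κ → R3) → ℝ} {G : (κ → R3) → R3} (h : LegF univ W T j G)
    (hS : ∀ x, x j ∉ S → T x = 0 ∧ G x = 0) :
    ∑ α : κ → I, fr.ν (α j) * coef fr.e T α ^ 2 ≤ qleg univ W j T G T G := by
  have hm' : MeasurableSet {x : κ → R3 | x j ∈ S} := measurable_pi_apply j hm
  have hh := legF_hat hW fr.inFW (coef fr.e T) j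
  have h1 := qleg_hat_left hW fr.inFW (coef fr.e T) h
  have h2 : ∑ α, coef fr.e T α * qleg univ W j (prodE fr.e α) (gprod fr.e fr.g α j) T G =
      ∑ α : κ → I, fr.ν (α j) * coef fr.e T α ^ 2 :=
    Finset.sum_congr rfl fun α _ => by
      rw [fr.eig_leg hW h hS]
      ring
  have h3 := fr.legS_le hW hm (coef fr.e T) j
  rw [← integral_indicator hm', ← muP_univ] at h3
  have i1 := (PLeg_self_int hW hh).indicator hm'
  have i2 := PLeg_qint hW h h
  have h4 := integral_mono ((PLeg_qint hW hh h).const_mul 2) (i1.add i2) fun x => ?_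
  · rw [integral_const_mul, integral_add' i1 i2] at h4
    rw [h2] at h1
    unfold qleg at h1 ⊢
    linarith
  · simp only [Pi.add_apply]
    by_cases hx : x j ∈ S
    · have h5 : x ∈ {x : κ → R3 | x j ∈ S} := hx
      rw [indicator_of_mem h5, real_inner_self_eq_norm_sq]
      have h6 := real_inner_le_norm (ghat fr.e fr.g (coef fr.e T) j x) (G x)
      have h7 := mul_nonneg (hW.nonneg (x j)) (sq_nonneg (hat fr.e (coef fr.e T) x - T x))
      nlinarith [sq_nonneg (‖ghat fr.e fr.g (coef fr.e T) j x‖ - ‖G x‖)]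
    · have h5 : x ∉ {x : κ → R3 | x j ∈ S} := hx
      simp [indicator_of_notMem h5, (hS x hx).1, (hS x hx).2]

theorem PLeg_dbl (B : EB Ω W) {p : B.J → ℝ → ℝ} {n : B.J → ℝ} {Q : ℝ} (h0 : ∀ a M, 0 ≤ p a M)
    (h1 : ∀ a M, p a M ≤ n a) (h2 : ∀ a, Tendsto (p a) atTop (𝓝 (n a)))
    (h3 : Tendsto (fun M : ℝ => ∑ a : B.I M, n a.1) atTop (𝓝 Q)) :
    Tendsto (fun M : ℝ => ∑ a : B.I M, p a.1 M) atTop (𝓝 Q) := by
  have hs : ∀ (M : ℝ) (f : B.J → ℝ), ∑ a : B.I M, f a.1 = ∑ a ∈ (B.fin M).toFinset, f a :=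
    fun M f => (Finset.sum_subtype _ (fun a => by simp) f).symm
  refine tendsto_order.2 ⟨fun b hb => ?_, fun b hb => ?_⟩
  · obtain ⟨M₀, hM₀⟩ := (h3.eventually (lt_mem_nhds hb)).exists
    have h4 : Tendsto (fun M => ∑ a : B.I M₀, p a.1 M) atTop (𝓝 (∑ a : B.I M₀, n a.1)) :=
      tendsto_finsetSum _ fun a _ => h2 a.1
    filter_upwards [h4.eventually (lt_mem_nhds hM₀), eventually_ge_atTop M₀] with M h5 h6
    refine h5.trans_le ?_
    rw [hs M₀ fun a => p a M, hs M fun a => p a M]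
    refine Finset.sum_le_sum_of_subset_of_nonneg (fun a ha => ?_) fun a _ _ => h0 a M
    rw [Set.Finite.mem_toFinset] at ha ⊢
    exact le_trans ha h6
  · filter_upwards [h3.eventually (gt_mem_nhds hb)] with M h5
    exact (Finset.sum_le_sum fun a _ => h1 a.1 M).trans_lt h5

theorem PLeg_red_meas {j : κ} {T : (κ → R3) → ℝ} (hT : Measurable T) {a : R3 → ℝ}
    (ha : Measurable a) :
    Measurable fun z : {i : κ // i ≠ j} → R3 => ip Ω a fun y => T (PLeg_gl j y z) :=
  (((ha.comp measurable_fst).mul (hT.comp (PLeg_meas_gl j))).stronglyMeasurable.integral_prod_left'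
    (μ := volume.restrict Ω)).measurable

theorem PLeg_red_memLp (hW : Pot W) (B : EB Ω W) {j : κ} {T : (κ → R3) → ℝ} {G : (κ → R3) → R3}
    (h : LegF Ω W T j G) (a : B.J) :
    MemLp (fun z => ip Ω (B.e a) fun y => T (PLeg_gl j y z)) 2 (muP Ω {i : κ // i ≠ j}) := by
  have hm := PLeg_red_meas (Ω := Ω) (j := j) h.mT (B.inF a).mu
  refine (memLp_two_iff_integrable_sq hm.aestronglyMeasurable).2 ?_
  refine (PLeg_int_int j h.l2T.integrable_sq).mono' (hm.pow_const 2).aestronglyMeasurable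
    (Eventually.of_forall fun z => ?_)
  rw [Real.norm_of_nonneg (sq_nonneg _)]
  exact le_hasSum (B.par0 _ ((PLeg_slice h z).memLp_u hW)) a fun _ _ => sq_nonneg _

theorem PLeg_dom (B : EB Ω W) {X : Type} [MeasurableSpace X] {μ : Measure X} {f : B.J → X → ℝ}
    {q : X → ℝ} (hi : ∀ a, Integrable (f a) μ) (hq : Integrable q μ) (h0 : ∀ a z, 0 ≤ f a z)
    (h : ∀ z, HasSum (fun a => f a z) (q z)) :
    Tendsto (fun M : ℝ => ∑ a : B.I M, ∫ z, f a.1 z ∂μ) atTop (𝓝 (∫ z, q z ∂μ)) := by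
  have h4 := tendsto_integral_filter_of_dominated_convergence (μ := μ) (l := atTop)
    (F := fun (M : ℝ) z => ∑ a : B.I M, f a.1 z) (f := q) q
    (Eventually.of_forall fun M =>
      (integrable_finsetSum _ fun a _ => hi a.1).aestronglyMeasurable)
    (Eventually.of_forall fun M => Eventually.of_forall fun z => ?_) hq
    (Eventually.of_forall fun z => B.tendsto_sum (h z))
  · exact h4.congr fun M => integral_finsetSum _ fun a _ => hi a.1
  · have h5 : ∑ a ∈ (B.fin M).toFinset, f a z = ∑ a : B.I M, f a.1 z :=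
      Finset.sum_subtype _ (fun a => by simp) fun a => f a z
    rw [Real.norm_of_nonneg (Finset.sum_nonneg fun a _ => h0 _ z), ← h5]
    exact sum_le_hasSum _ (fun a _ => h0 a z) (h z)

theorem PLeg_par1 (hW : Pot W) (B : EB Ω W) {j : κ} {T : (κ → R3) → ℝ} {G : (κ → R3) → R3}
    (h : LegF Ω W T j G) :
    Tendsto (fun M : ℝ => ∑ a : B.I M, B.ν a.1 *
      ∫ z, (ip Ω (B.e a.1) fun y => T (PLeg_gl j y z)) ^ 2 ∂muP Ω {i : κ // i ≠ j}) atTop
      (𝓝 (qleg Ω W j T G T G)) := by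
  have h1 : qleg Ω W j T G T G = ∫ z, qf Ω W (fun y => T (PLeg_gl j y z))
      (fun y => G (PLeg_gl j y z)) (fun y => T (PLeg_gl j y z)) (fun y => G (PLeg_gl j y z))
      ∂muP Ω {i : κ // i ≠ j} := by
    simpa only [PLeg_gl_self, qf, qleg] using PLeg_int j (PLeg_qint hW h h)
  have h2 : Integrable (fun z => qf Ω W (fun y => T (PLeg_gl j y z))
      (fun y => G (PLeg_gl j y z)) (fun y => T (PLeg_gl j y z)) (fun y => G (PLeg_gl j y z)))
      (muP Ω {i : κ // i ≠ j}) := by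
    simpa only [PLeg_gl_self, qf] using PLeg_int_int j (PLeg_qint hW h h)
  have h3 := PLeg_dom B (fun a => ((PLeg_red_memLp hW B h a).integrable_sq).const_mul (B.ν a)) h2
    (fun a z => mul_nonneg (B.ν_nonneg hW a) (sq_nonneg _)) fun z => B.par1 _ _ (PLeg_slice h z)
  rw [h1]
  simpa only [integral_const_mul] using h3

theorem PLeg_par (hW : Pot W) (B : EB Ω W) {j : κ} {T : (κ → R3) → ℝ} {G : (κ → R3) → R3}
    (h : LegF Ω W T j G) :
    Tendsto (fun M : ℝ => ∑ α : κ → B.I M, B.ν (α j).1 * coefO Ω (B.eM M) T α ^ 2) atTop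
      (𝓝 (qleg Ω W j T G T G)) := by
  have h1 := PLeg_dbl B (p := fun a M => B.ν a * ∑ β : {i : κ // i ≠ j} → B.I M,
      coefO Ω (B.eM M) (fun z => ip Ω (B.e a) fun y => T (PLeg_gl j y z)) β ^ 2)
    (fun a M => mul_nonneg (B.ν_nonneg hW a) (Finset.sum_nonneg fun _ _ => sq_nonneg _))
    (fun a M => mul_le_mul_of_nonneg_left ((B.on hW M).bessel (PLeg_red_memLp hW B h a))
      (B.ν_nonneg hW a)) (fun a => ?_) (PLeg_par1 hW B h)
  · refine h1.congr fun M => ?_
    rw [PLeg_sum j]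
    refine Finset.sum_congr rfl fun a _ => ?_
    rw [Finset.mul_sum]
    refine Finset.sum_congr rfl fun β _ => ?_
    rw [PLeg_coefO (B.on hW M).l2 j h.l2T]
    simp only [PLeg_gl_self, PLeg_gl_ne]
    rfl
  · have h2 := B.parseval hW (PLeg_red_memLp hW B h a) (PLeg_red_memLp hW B h a)
    simp only [← sq] at h2
    exact h2.const_mul _

theorem PLeg_coefO_lin {e : I → R3 → ℝ} (he : ∀ a, MemLp (e a) 2 (volume.restrict Ω))
    {T T' : (κ → R3) → ℝ} (h : MemLp T 2 (muP Ω κ)) (h' : MemLp T' 2 (muP Ω κ)) (a b : ℝ)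
    (α : κ → I) :
    coefO Ω e (fun x => a * T x + b * T' x) α = a * coefO Ω e T α + b * coefO Ω e T' α := by
  have i1 : Integrable (fun x => T x * prodE e α x) (muP Ω κ) :=
    h.integrable_mul (memLp_prodE he α)
  have i2 : Integrable (fun x => T' x * prodE e α x) (muP Ω κ) :=
    h'.integrable_mul (memLp_prodE he α)
  simp only [coefO, ← integral_const_mul]
  rw [← integral_add (i1.const_mul a) (i2.const_mul b)]
  refine integral_congr_ae (Eventually.of_forall fun x => ?_)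
  simp only
  ring

theorem EB.parseval_leg (hW : Pot W) (B : EB Ω W) {j : κ} {T T' : (κ → R3) → ℝ}
    {G G' : (κ → R3) → R3} (h : LegF Ω W T j G) (h' : LegF Ω W T' j G') :
    Tendsto (fun M : ℝ => ∑ α : κ → B.I M,
      B.ν (α j).1 * coefO Ω (B.eM M) T α * coefO Ω (B.eM M) T' α) atTop
      (𝓝 (qleg Ω W j T G T' G')) := by
  have h1 := PLeg_par hW B (h.lin hW h' 1 1)
  have h2 := PLeg_par hW B (h.lin hW h' 1 (-1))
  rw [PLeg_qleg_exp hW h h'] at h1 h2
  have h3 := (h1.sub h2).const_mul (1 / 4 : ℝ)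
  convert h3 using 2 with M
  · rw [← Finset.sum_sub_distrib, Finset.mul_sum]
    refine Finset.sum_congr rfl fun α _ => ?_
    rw [PLeg_coefO_lin (B.on hW M).l2 h.l2T h'.l2T, PLeg_coefO_lin (B.on hW M).l2 h.l2T h'.l2T]
    ring
  · ring

end Pool.Agent.Lib.MP_8fe63c_mp
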