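import Mathlib

/-!
Two general facts: Parseval's identity extends from a total set, and boxes are total in `L^2` of a
product measure.
-/

open MeasureTheory Set Filter Topology
open scoped ENNReal InnerProductSpace

namespace Pool.Agent.Lib.MP_8fe63c_mp

section Hilbert

variable {H : Type} [NormedAddCommGroup H] [InnerProductSpace ℝ H]

theorem PPar_dist {J : Type} [Fintype J] {v : J → H} (hv : Orthonormal ℝ v) (f : H) :
    ‖∑ a, ⟪v a, f⟫_ℝ • v a‖ ^ 2 = ∑ a, ⟪v a, f⟫_ℝ ^ 2 ∧
      ‖∑ a, ⟪v a, f⟫_ℝ • v a - f‖ ^ 2 = ‖f‖ ^ 2 - ∑ a, ⟪v a, f⟫_ℝ ^ 2 := by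
  have h1 : ‖∑ a, ⟪v a, f⟫_ℝ • v a‖ ^ 2 = ∑ a, ⟪v a, f⟫_ℝ ^ 2 := by
    rw [← real_inner_self_eq_norm_sq, hv.inner_sum]
    simp only [conj_trivial, sq]
  refine ⟨h1, ?_⟩
  rw [norm_sub_sq_real, h1, sum_inner]
  simp only [real_inner_smul_left, ← sq]
  ring

theorem PPar_hilb [CompleteSpace H] {J : ℝ → Type} [∀ M, Fintype (J M)] (v : ∀ M, J M → H)
    (hv : ∀ M, Orthonormal ℝ (v M)) (S : Set H) (hS : ∀ g, (∀ f ∈ S, ⟪f, g⟫_ℝ = 0) → g = 0)
    (h : ∀ f ∈ S, Tendsto (fun M => ∑ a, ⟪v M a, f⟫_ℝ ^ 2) atTop (𝓝 (‖f‖ ^ 2))) (f : H) :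
    Tendsto (fun M => ∑ a, ⟪v M a, f⟫_ℝ ^ 2) atTop (𝓝 (‖f‖ ^ 2)) := by
  let T : ℝ → H →L[ℝ] H := fun M => ∑ a, (innerSL ℝ (v M a)).smulRight (v M a)
  have hT : ∀ M f, T M f = ∑ a, ⟪v M a, f⟫_ℝ • v M a := fun M f => by
    simp only [T, sum_apply, ContinuousLinearMap.smulRight_apply,
      innerSL_apply_apply]
  have hL : ∀ M, LipschitzWith 1 (T M) := fun M => by
    refine (T M).lipschitzWith_of_opNorm_le ?_
    refine ContinuousLinearMap.opNorm_le_bound _ zero_le_one fun f => ?_
    obtain ⟨h1, h2⟩ := PPar_dist (hv M) f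
    rw [NNReal.coe_one, one_mul, hT]
    refine le_of_sq_le_sq ?_ (norm_nonneg _)
    nlinarith [sq_nonneg ‖∑ a, ⟪v M a, f⟫_ℝ • v M a - f‖]
  have hiff : ∀ f, Tendsto (fun M => T M f) atTop (𝓝 f) ↔
      Tendsto (fun M => ∑ a, ⟪v M a, f⟫_ℝ ^ 2) atTop (𝓝 (‖f‖ ^ 2)) := by
    intro f
    rw [tendsto_iff_norm_sub_tendsto_zero]
    constructor
    · intro h1
      have h2 := (h1.pow 2).const_sub (‖f‖ ^ 2)
      simp only [hT, (PPar_dist (hv _) f).2, sub_sub_cancel] at h2
      simpa using h2
    · intro h1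
      have h2 := (h1.const_sub (‖f‖ ^ 2)).sqrt
      simp only [← (PPar_dist (hv _) f).2, Real.sqrt_sq (norm_nonneg _), sub_self,
        Real.sqrt_zero] at h2
      simpa only [hT] using h2
  let K : Submodule ℝ H :=
    { carrier := {f | Tendsto (fun M => T M f) atTop (𝓝 f)}
      add_mem' := fun {a b} ha hb => by simpa using Tendsto.add ha hb
      zero_mem' := by simp
      smul_mem' := fun c a ha => by simpa using Tendsto.const_smul ha c }
  have hK : IsClosed (K : Set H) :=
    (LipschitzWith.uniformEquicontinuous (fun M => T M) 1 hL).equicontinuous.isClosed_setOfPred_tendsto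
      continuous_id
  have h1 : Kᗮ = ⊥ := by
    rw [Submodule.eq_bot_iff]
    exact fun g hg => hS g fun f hf => hg f ((hiff f).2 (h f hf))
  have h2 := Submodule.topologicalClosure_eq_top_iff.2 h1
  rw [hK.submodule_topologicalClosure_eq] at h2
  have h3 : f ∈ K := h2 ▸ Submodule.mem_top
  exact (hiff f).1 h3

end Hilbert

theorem PPar_box {X κ : Type} [MeasurableSpace X] [Fintype κ] (ν : Measure X) [SigmaFinite ν]
    {G : (κ → X) → ℝ} (hG : MemLp G 2 (Measure.pi fun _ : κ => ν))
    (h : ∀ u : κ → X → ℝ, (∀ j, MemLp (u j) 2 ν) →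
      ∫ x, (∏ j, u j (x j)) * G x ∂(Measure.pi fun _ : κ => ν) = 0) :
    G =ᵐ[Measure.pi fun _ : κ => ν] 0 := by
  classical
  have key : ∀ n : ℕ, (Set.pi univ fun _ : κ => spanningSets ν n).indicator G
      =ᵐ[Measure.pi fun _ : κ => ν] 0 := by
    intro n
    have hQ : MeasurableSet (Set.pi univ fun _ : κ => spanningSets ν n) :=
      MeasurableSet.univ_pi fun _ => measurableSet_spanningSets ν n
    have hQf : (Measure.pi fun _ : κ => ν) (Set.pi univ fun _ : κ => spanningSets ν n) < ∞ := by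
      rw [Measure.pi_pi]
      exact ENNReal.prod_lt_top fun _ _ => measure_spanningSets_lt_top ν n
    have hi : Integrable ((Set.pi univ fun _ : κ => spanningSets ν n).indicator G)
        (Measure.pi fun _ : κ => ν) := by
      rw [integrable_indicator_iff hQ]
      have : Fact ((Measure.pi fun _ : κ => ν) (Set.pi univ fun _ : κ => spanningSets ν n) < ∞) :=
        ⟨hQf⟩
      exact (hG.restrict _).integrable one_le_two
    have hb : ∀ t : κ → Set X, (∀ j, MeasurableSet (t j)) →
        ∫ x in Set.pi univ t, (Set.pi univ fun _ : κ => spanningSets ν n).indicator G x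
          ∂(Measure.pi fun _ : κ => ν) = 0 := by
      intro t ht
      rw [← integral_indicator (MeasurableSet.univ_pi ht),
        ← h (fun j => (t j ∩ spanningSets ν n).indicator fun _ => 1) fun j =>
          memLp_indicator_const 2 ((ht j).inter (measurableSet_spanningSets ν n)) 1
            (Or.inr ((measure_mono inter_subset_right).trans_lt
              (measure_spanningSets_lt_top ν n)).ne)]
      refine integral_congr_ae (Eventually.of_forall fun x => ?_)
      simp only [indicator_indicator, ← Set.pi_inter_distrib]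
      by_cases hx : x ∈ Set.pi univ fun j => t j ∩ spanningSets ν n
      · rw [indicator_of_mem hx, Finset.prod_eq_one fun j _ => indicator_of_mem (hx j trivial) _,
          one_mul]
      · rw [indicator_of_notMem hx]
        rw [Set.mem_univ_pi, not_forall] at hx
        obtain ⟨j, hj⟩ := hx
        rw [Finset.prod_eq_zero (Finset.mem_univ j) (indicator_of_notMem hj _), zero_mul]
    refine hi.ae_eq_zero_of_forall_setIntegral_eq_zero fun s hs _ => ?_
    refine MeasurableSpace.induction_on_inter (C := fun s _ => ∫ x in s,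
      (Set.pi univ fun _ : κ => spanningSets ν n).indicator G x ∂(Measure.pi fun _ : κ => ν) = 0)
      generateFrom_pi.symm isPiSystem_pi (by simp) ?_ (fun t ht ih => ?_) (fun f hd hm ih => ?_) s hs
    · rintro _ ⟨t, ht, rfl⟩
      exact hb t fun j => ht j trivial
    · have h1 := integral_add_compl ht hi
      have h2 := hb (fun _ => univ) fun _ => MeasurableSet.univ
      rw [Set.pi_univ, Measure.restrict_univ] at h2
      rw [ih, h2, zero_add] at h1
      exact h1
    · rw [integral_iUnion hm hd hi.integrableOn]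
      simp only [ih, tsum_zero]
  filter_upwards [ae_all_iff.2 key] with x hx
  have h1 := hx (Finset.univ.sup fun j => spanningSetsIndex ν (x j))
  rwa [indicator_of_mem] at h1
  exact fun j _ => mem_spanningSets_of_index_le ν _
    (Finset.le_sup (f := fun j => spanningSetsIndex ν (x j)) (Finset.mem_univ j))

end Pool.Agent.Lib.MP_8fe63c_mp
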