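import Pool.Agent.Lib.MP_8fe63c_mp.PDefs
import Pool.Agent.Lib.MP_8fe63c_mp.NBes
import Pool.Agent.Lib.MP_8fe63c_mp.OGs
import Pool.Agent.Lib.MP_8fe63c_mp.PPar1

/-!
Orthonormality, Bessel and Parseval for product bases; classes in `L^2`.

Sketch. `hat_inner`: `integral_fintype_prod_eq_prod`. Parseval: the squared distance
`∫ (F - hat (coefO F))^2 = ∫ F^2 - ∑ coefO^2`, so the set of `F` with `tendsto_hat` is a closed subspace of
`L^2`. It contains `tens u` for square integrable `u j` (`coefO (tens u) α = ∏ ip (e (α j)) (u j)`,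
`Finset.prod_univ_sum`, `par0`, `EB.tendsto_sum`), in particular indicators of measurable boxes of finite
measure, whose span is dense (for instance by `Measure.MeasureDense`, or by induction on the number of
legs: for almost every slice `par0` and dominated convergence give the one-leg identity). `parseval_red`:
`par0` for almost every slice and dominated convergence (`lintegral_snoc`, `integral_snoc`).
-/

set_option linter.unusedSectionVars false

open MeasureTheory Set Filter Topology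
open scoped ENNReal InnerProductSpace

namespace Pool.Agent.Lib.MP_8fe63c_mp

variable {I κ ι : Type} [Fintype I] [DecidableEq I] [Fintype κ] [DecidableEq κ]
  [Fintype ι] [DecidableEq ι]


variable {Ω : Set R3} {W : R3 → ℝ}

section toE

variable {X : Type} [MeasurableSpace X] {μ : Measure X} {f g : X → ℝ}

theorem toE_ae (h : MemLp f 2 μ) : (toE μ f : X → ℝ) =ᵐ[μ] f := by
  rw [toE, dif_pos h]
  exact h.coeFn_toLp

theorem toE_congr (h : f =ᵐ[μ] g) : toE μ f = toE μ g := by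
  by_cases hf : MemLp f 2 μ
  · rw [toE, toE, dif_pos hf, dif_pos (hf.ae_eq h)]
    exact MemLp.toLp_congr _ _ h
  · rw [toE, toE, dif_neg hf, dif_neg fun hg => hf (hg.ae_eq h.symm)]

theorem toE_inner (h : MemLp f 2 μ) (h' : MemLp g 2 μ) :
    ⟪toE μ f, toE μ g⟫_ℝ = ∫ x, f x * g x ∂μ := by
  rw [L2.inner_def]
  refine integral_congr_ae ?_
  filter_upwards [toE_ae h, toE_ae h'] with x h1 h2
  rw [h1, h2, real_inner_comm]
  simp

theorem toE_norm_sq (h : MemLp f 2 μ) : ‖toE μ f‖ ^ 2 = ∫ x, f x ^ 2 ∂μ := by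
  rw [← real_inner_self_eq_norm_sq, toE_inner h h]
  simp only [sq]

theorem toE_add (h : MemLp f 2 μ) (h' : MemLp g 2 μ) :
    toE μ f + toE μ g = toE μ fun x => f x + g x := by
  refine Lp.ext ?_
  filter_upwards [Lp.coeFn_add (toE μ f) (toE μ g), toE_ae h, toE_ae h',
    toE_ae (f := fun x => f x + g x) (h.add h')] with x h1 h2 h3 h4
  rw [h1, h4, Pi.add_apply, h2, h3]

theorem toE_sub (h : MemLp f 2 μ) (h' : MemLp g 2 μ) :
    toE μ f - toE μ g = toE μ fun x => f x - g x := by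
  refine Lp.ext ?_
  filter_upwards [Lp.coeFn_sub (toE μ f) (toE μ g), toE_ae h, toE_ae h',
    toE_ae (f := fun x => f x - g x) (h.sub h')] with x h1 h2 h3 h4
  rw [h1, h4, Pi.sub_apply, h2, h3]

theorem toE_smul (h : MemLp f 2 μ) (c : ℝ) : c • toE μ f = toE μ fun x => c * f x := by
  refine Lp.ext ?_
  filter_upwards [Lp.coeFn_smul c (toE μ f), toE_ae h,
    toE_ae (f := fun x => c * f x) (h.const_mul c)] with x h1 h2 h3
  rw [h1, h3, Pi.smul_apply, h2, smul_eq_mul]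

theorem toE_sum {A : Type} (s : Finset A) {F : A → X → ℝ} (h : ∀ a ∈ s, MemLp (F a) 2 μ)
    (c : A → ℝ) : ∑ a ∈ s, c a • toE μ (F a) = toE μ fun x => ∑ a ∈ s, c a * F a x := by
  classical
  induction s using Finset.induction_on with
  | empty =>
    simp only [Finset.sum_empty]
    refine Lp.ext ?_
    filter_upwards [Lp.coeFn_zero ℝ 2 μ, toE_ae (μ := μ) (f := fun _ => 0) MemLp.zero]
      with x h1 h2
    rw [h1, h2, Pi.zero_apply]
  | insert a s ha ih =>
    have h1 := h a (Finset.mem_insert_self a s)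
    have h2 : ∀ b ∈ s, MemLp (F b) 2 μ := fun b hb => h b (Finset.mem_insert_of_mem hb)
    simp only [Finset.sum_insert ha]
    rw [ih h2, toE_smul h1, toE_add (h1.const_mul _)
      (memLp_finsetSum s fun b hb => (h2 b hb).const_mul (c b))]

theorem PPar_cs (h : MemLp f 2 μ) (h' : MemLp g 2 μ) :
    (∫ x, f x * g x ∂μ) ^ 2 ≤ (∫ x, f x ^ 2 ∂μ) * ∫ x, g x ^ 2 ∂μ := by
  rw [← toE_inner h h', ← toE_norm_sq h, ← toE_norm_sq h', ← mul_pow, ← sq_abs]
  exact pow_le_pow_left₀ (abs_nonneg _) (abs_real_inner_le_norm _ _) 2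

theorem PPar_memLp_mul (h : MemLp f 2 μ) {a : X → ℝ} (ha : Measurable a) {M : ℝ}
    (hM : ∀ x, |a x| ≤ M) : MemLp (fun x => a x * f x) 2 μ := by
  refine (h.const_mul M).of_le (ha.aestronglyMeasurable.mul h.aestronglyMeasurable)
    (Eventually.of_forall fun x => ?_)
  rw [Real.norm_eq_abs, Real.norm_eq_abs, abs_mul, abs_mul]
  exact mul_le_mul_of_nonneg_right ((hM x).trans (le_abs_self M)) (abs_nonneg _)

theorem PPar_tendsto {α : Type} {l : Filter α} {F : α → X → ℝ} {F₀ : X → ℝ}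
    (hF : L2lim μ l F F₀) (h1 : ∀ n, MemLp (F n) 2 μ) (h3 : MemLp F₀ 2 μ) :
    Tendsto (fun n => toE μ (F n)) l (𝓝 (toE μ F₀)) := by
  rw [tendsto_iff_norm_sub_tendsto_zero]
  have h2 := Tendsto.sqrt hF
  rw [Real.sqrt_zero] at h2
  refine h2.congr fun n => ?_
  rw [toE_sub (h1 n) h3, ← toE_norm_sq (f := fun x => F n x - F₀ x) ((h1 n).sub h3),
    Real.sqrt_sq (norm_nonneg _)]

theorem PPar_lim_mul {α : Type} {l : Filter α} {F : α → X → ℝ} {F₀ : X → ℝ}
    (hF : L2lim μ l F F₀) (h1 : ∀ n, MemLp (F n) 2 μ) (h3 : MemLp F₀ 2 μ) {a : X → ℝ}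
    {M : ℝ} (hM : ∀ x, |a x| ≤ M) :
    L2lim μ l (fun n x => a x * F n x) fun x => a x * F₀ x := by
  have h2 := Tendsto.const_mul (M ^ 2) hF
  rw [mul_zero] at h2
  refine squeeze_zero (fun n => integral_nonneg fun x => sq_nonneg _) (fun n => ?_) h2
  rw [← integral_const_mul]
  refine integral_mono_of_nonneg (Eventually.of_forall fun x => sq_nonneg _)
    (((h1 n).sub h3).integrable_sq.const_mul _) (Eventually.of_forall fun x => ?_)
  have h4 : a x ^ 2 ≤ M ^ 2 := by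
    rw [← sq_abs]
    exact pow_le_pow_left₀ (abs_nonneg _) (hM x) 2
  simp only [← mul_sub, mul_pow]
  exact mul_le_mul_of_nonneg_right h4 (sq_nonneg _)

theorem L2lim.mul {α : Type} {l : Filter α} {F G : α → X → ℝ} {F₀ G₀ : X → ℝ}
    (hF : L2lim μ l F F₀) (hG : L2lim μ l G G₀) (h1 : ∀ n, MemLp (F n) 2 μ)
    (h2 : ∀ n, MemLp (G n) 2 μ) (h3 : MemLp F₀ 2 μ) (h4 : MemLp G₀ 2 μ) {a : X → ℝ}
    (ha : Measurable a) {M : ℝ} (hM : ∀ x, |a x| ≤ M) :
    Tendsto (fun n => ∫ x, a x * F n x * G n x ∂μ) l (𝓝 (∫ x, a x * F₀ x * G₀ x ∂μ)) := by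
  have h5 := Tendsto.inner (𝕜 := ℝ) (PPar_tendsto (PPar_lim_mul hF h1 h3 hM)
    (fun n => PPar_memLp_mul (h1 n) ha hM) (PPar_memLp_mul h3 ha hM)) (PPar_tendsto hG h2 h4)
  rw [toE_inner (PPar_memLp_mul h3 ha hM) h4] at h5
  exact h5.congr fun n => toE_inner (PPar_memLp_mul (h1 n) ha hM) (h2 n)

theorem L2lim.sq {α : Type} {l : Filter α} {F : α → X → ℝ} {F₀ : X → ℝ}
    (hF : L2lim μ l F F₀) (h1 : ∀ n, MemLp (F n) 2 μ) (h3 : MemLp F₀ 2 μ) {a : X → ℝ}
    (ha : Measurable a) {M : ℝ} (hM : ∀ x, |a x| ≤ M) :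
    Tendsto (fun n => ∫ x, a x * F n x ^ 2 ∂μ) l (𝓝 (∫ x, a x * F₀ x ^ 2 ∂μ)) := by
  have h := hF.mul hF h1 h1 h3 h3 ha hM
  simpa only [pow_two, mul_assoc] using h

end toE

theorem coefO_univ (e : I → R3 → ℝ) (F : (κ → R3) → ℝ) : coefO univ e F = coef e F := by
  funext α
  rw [coefO, muP_univ, coef]

theorem EB.on (hW : Pot W) (B : EB Ω W) (M : ℝ) : ON Ω (B.eM M) :=
  ⟨fun a => (B.inF a.1).mu, fun a => (B.inF a.1).memLp_u hW, fun a => B.nrm a.1,
    fun a b hab => B.orth a.1 b.1 fun h => hab (Subtype.ext h)⟩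

theorem EB.frame_e (hW : Pot W) (B : EB univ W) (M : ℝ) : (B.frame hW M).e = B.eM M := rfl

theorem EB.frame_g (hW : Pot W) (B : EB univ W) (M : ℝ) : (B.frame hW M).g = B.gM M := rfl

theorem PPar_tens (u v : κ → R3 → ℝ) :
    ∫ x, tens u x * tens v x ∂muP Ω κ = ∏ j, ∫ y in Ω, u j y * v j y := by
  simp only [tens, ← Finset.prod_mul_distrib]
  exact integral_fintype_prod_eq_prod fun j y => u j y * v j y

theorem PPar_prodE {e : I → R3 → ℝ} (h : ON Ω e) (α β : κ → I) :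
    ∫ x, prodE e α x * prodE e β x ∂muP Ω κ = if α = β then 1 else 0 := by
  refine (PPar_tens (fun j => e (α j)) fun j => e (β j)).trans ?_
  split_ifs with hab
  · subst hab
    exact Finset.prod_eq_one fun j _ => h.nrm _
  · obtain ⟨j, hj⟩ := Function.ne_iff.1 hab
    exact Finset.prod_eq_zero (Finset.mem_univ j) (h.orth _ _ hj)

theorem PPar_coefO_sum {e : I → R3 → ℝ} (h : ∀ a, MemLp (e a) 2 (volume.restrict Ω))
    {F : (κ → R3) → ℝ} (hF : MemLp F 2 (muP Ω κ)) (c : (κ → I) → ℝ) :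
    ∑ α, coefO Ω e F α * c α = ∫ x, F x * hat e c x ∂muP Ω κ := by
  simp only [coefO, hat, Finset.mul_sum]
  have hi : ∀ α ∈ (Finset.univ : Finset (κ → I)),
      Integrable (fun x => F x * (c α * prodE e α x)) (muP Ω κ) := fun α _ =>
    hF.integrable_mul ((memLp_prodE h α).const_mul (c α))
  rw [integral_finsetSum _ hi]
  refine Finset.sum_congr rfl fun α _ => ?_
  rw [← integral_mul_const]
  exact integral_congr_ae (Eventually.of_forall fun x => by simp only; ring)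

theorem PPar_coefO_hat {e : I → R3 → ℝ} (h : ON Ω e) (c : (κ → I) → ℝ) :
    coefO Ω e (hat e c) = c := by
  funext α
  have h1 := PPar_coefO_sum h.l2 (memLp_prodE h.l2 α) c
  simp only [coefO, PPar_prodE h, ite_mul, one_mul, zero_mul, Finset.sum_ite_eq,
    Finset.mem_univ, if_true] at h1
  rw [h1, coefO]
  exact integral_congr_ae (Eventually.of_forall fun x => mul_comm _ _)

theorem ON.hat_inner {e : I → R3 → ℝ} (h : ON Ω e) (c c' : (κ → I) → ℝ) :
    ∫ x, hat e c x * hat e c' x ∂muP Ω κ = ∑ α, c α * c' α := by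
  rw [← PPar_coefO_sum h.l2 (memLp_hat h.l2 c), PPar_coefO_hat h]

theorem ON.hat_sq {e : I → R3 → ℝ} (h : ON Ω e) (c : (κ → I) → ℝ) :
    ∫ x, hat e c x ^ 2 ∂muP Ω κ = ∑ α, c α ^ 2 := by
  simpa only [sq] using h.hat_inner c c

theorem ON.coefO_hat {e : I → R3 → ℝ} (h : ON Ω e) (c : (κ → I) → ℝ) :
    coefO Ω e (hat e c) = c := PPar_coefO_hat h c

theorem coefO_sum {e : I → R3 → ℝ} (h : ∀ a, MemLp (e a) 2 (volume.restrict Ω))
    {F : (κ → R3) → ℝ} (hF : MemLp F 2 (muP Ω κ)) (c : (κ → I) → ℝ) :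
    ∑ α, coefO Ω e F α * c α = ∫ x, F x * hat e c x ∂muP Ω κ := PPar_coefO_sum h hF c

theorem ON.dist_eq {e : I → R3 → ℝ} (h : ON Ω e) {F : (κ → R3) → ℝ} (hF : MemLp F 2 (muP Ω κ)) :
    ∫ x, (hat e (coefO Ω e F) x - F x) ^ 2 ∂muP Ω κ =
      (∫ x, F x ^ 2 ∂muP Ω κ) - ∑ α, coefO Ω e F α ^ 2 := by
  have hH := memLp_hat h.l2 (coefO Ω e F)
  have h1 := coefO_sum h.l2 hF (coefO Ω e F)
  rw [← toE_norm_sq (f := fun x => hat e (coefO Ω e F) x - F x) (hH.sub hF), ← toE_sub hH hF,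
    norm_sub_sq_real, real_inner_comm, toE_inner hF hH, toE_norm_sq hH, toE_norm_sq hF, h.hat_sq,
    ← h1]
  simp only [← sq]
  ring

theorem ON.bessel {e : I → R3 → ℝ} (h : ON Ω e) {F : (κ → R3) → ℝ} (hF : MemLp F 2 (muP Ω κ)) :
    ∑ α, coefO Ω e F α ^ 2 ≤ ∫ x, F x ^ 2 ∂muP Ω κ := by
  have h1 : 0 ≤ ∫ x, (hat e (coefO Ω e F) x - F x) ^ 2 ∂muP Ω κ :=
    integral_nonneg fun x => sq_nonneg _
  rw [h.dist_eq hF] at h1
  linarith

theorem PPar_inner {e : I → R3 → ℝ} (h : ON Ω e) {F : (κ → R3) → ℝ} (hF : MemLp F 2 (muP Ω κ))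
    (α : κ → I) : ⟪toE (muP Ω κ) (prodE e α), toE (muP Ω κ) F⟫_ℝ = coefO Ω e F α := by
  rw [real_inner_comm, toE_inner hF (memLp_prodE h.l2 α), coefO]

theorem PPar_orth {e : I → R3 → ℝ} (h : ON Ω e) :
    Orthonormal ℝ fun α : κ → I => toE (muP Ω κ) (prodE e α) := by
  rw [orthonormal_iff_ite]
  intro α β
  rw [toE_inner (memLp_prodE h.l2 α) (memLp_prodE h.l2 β), PPar_prodE h]

theorem PPar_par_tens (B : EB Ω W) {u : κ → R3 → ℝ} (hu : ∀ j, MemLp (u j) 2 (volume.restrict Ω)) :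
    Tendsto (fun M : ℝ => ∑ α : κ → B.I M, coefO Ω (B.eM M) (tens u) α ^ 2) atTop
      (𝓝 (∫ x, tens u x ^ 2 ∂muP Ω κ)) := by
  have h1 : ∫ x, tens u x ^ 2 ∂muP Ω κ = ∏ j, ∫ y in Ω, u j y ^ 2 := by
    simp only [sq]
    exact PPar_tens u u
  rw [h1]
  refine (tendsto_finsetProd Finset.univ fun j _ =>
    B.tendsto_sum (B.par0 (u j) (hu j))).congr fun M => ?_
  rw [Finset.prod_univ_sum, Fintype.piFinset_univ]
  refine Finset.sum_congr rfl fun α _ => ?_
  rw [Finset.prod_pow]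
  congr 1
  refine Eq.trans ?_ (PPar_tens u fun j => B.eM M (α j)).symm
  exact Finset.prod_congr rfl fun j _ => ip_comm

theorem PPar_par (hW : Pot W) (B : EB Ω W) {F : (κ → R3) → ℝ} (hF : MemLp F 2 (muP Ω κ)) :
    Tendsto (fun M : ℝ => ∑ α : κ → B.I M, coefO Ω (B.eM M) F α ^ 2) atTop
      (𝓝 (∫ x, F x ^ 2 ∂muP Ω κ)) := by
  have h := PPar_hilb (fun M (α : κ → B.I M) => toE (muP Ω κ) (prodE (B.eM M) α))
    (fun M => PPar_orth (B.on hW M))
    {f | ∃ u : κ → R3 → ℝ, (∀ j, MemLp (u j) 2 (volume.restrict Ω)) ∧ f = toE (muP Ω κ) (tens u)}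
    (fun g hg => ?_) ?_ (toE (muP Ω κ) F)
  · simpa only [PPar_inner (B.on hW _) hF, toE_norm_sq hF] using h
  · refine Lp.ext ((PPar_box (volume.restrict Ω) (Lp.memLp g) fun u hu => ?_).trans
      (Lp.coeFn_zero ℝ 2 _).symm)
    have h1 := hg _ ⟨u, hu, rfl⟩
    have h2 : toE (muP Ω κ) g = g := Lp.ext (toE_ae (Lp.memLp g))
    rw [← h2, toE_inner (memLp_tens hu) (Lp.memLp g)] at h1
    exact h1
  · rintro _ ⟨u, hu, rfl⟩
    simpa only [PPar_inner (B.on hW _) (memLp_tens hu), toE_norm_sq (memLp_tens hu)] using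
      PPar_par_tens B hu

theorem EB.tendsto_hat (hW : Pot W) (B : EB Ω W) {F : (κ → R3) → ℝ} (hF : MemLp F 2 (muP Ω κ)) :
    L2lim (muP Ω κ) atTop (fun M : ℝ => hat (B.eM M) (coefO Ω (B.eM M) F)) F := by
  have h := (PPar_par hW B hF).const_sub (∫ x, F x ^ 2 ∂muP Ω κ)
  rw [sub_self] at h
  exact h.congr fun M => ((B.on hW M).dist_eq hF).symm

theorem EB.parseval (hW : Pot W) (B : EB Ω W) {F F' : (κ → R3) → ℝ} (hF : MemLp F 2 (muP Ω κ))
    (hF' : MemLp F' 2 (muP Ω κ)) :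
    Tendsto (fun M : ℝ => ∑ α : κ → B.I M, coefO Ω (B.eM M) F α * coefO Ω (B.eM M) F' α) atTop
      (𝓝 (∫ x, F x * F' x ∂muP Ω κ)) := by
  have h0 : L2lim (muP Ω κ) (atTop : Filter ℝ) (fun _ => F) F := by
    simp only [L2lim, sub_self, sq, mul_zero, integral_zero]
    exact tendsto_const_nhds
  have h := h0.mul (B.tendsto_hat hW hF') (fun _ => hF) (fun M => memLp_hat (B.on hW M).l2 _) hF hF'
    (a := fun _ => 1) measurable_const (M := 1) fun _ => by simp
  simp only [one_mul] at h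
  exact h.congr fun M => (coefO_sum (B.on hW M).l2 hF _).symm

theorem PPar_slice {p : ℕ} {G : (Fin (p + 1) → R3) → ℝ} (hm : Measurable G)
    (hG : MemLp G 2 volume) :
    (∀ᵐ x : Fin p → R3, MemLp (fun y => G (Fin.snoc x y)) 2 volume) ∧
      Integrable fun x : Fin p → R3 => ∫ y, G (Fin.snoc x y) ^ 2 := by
  obtain ⟨e, he, h2⟩ := NBes_snoc p
  have hi : Integrable (fun z => G (e z) ^ 2) (volume.prod volume) :=
    (he.integrable_comp_emb e.measurableEmbedding).2 hG.integrable_sq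
  refine ⟨?_, by simpa only [h2] using hi.integral_prod_right⟩
  filter_upwards [hi.prod_left_ae] with x hx
  simp only [h2] at hx
  exact (memLp_two_iff_integrable_sq ((hm.comp HMac_meas_snoc).comp
    measurable_prodMk_left).aestronglyMeasurable).2 hx

theorem PPar_bes1 (fr : Frame I) {f : R3 → ℝ} (hf : MemLp f 2 volume) :
    ∑ δ, (∫ y, f y * fr.e δ y) ^ 2 ≤ ∫ y, f y ^ 2 := by
  have h1 : MemLp (fun y => ∑ δ, (∫ y, f y * fr.e δ y) * fr.e δ y) 2 volume :=
    memLp_finsetSum _ fun δ _ => (fr.memLp δ).const_mul _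
  have h2 := PPar_cs hf h1
  have h3 := fr.bes0 fun δ => ∫ y, f y * fr.e δ y
  have h4 : ∫ y, f y * ∑ δ, (∫ y, f y * fr.e δ y) * fr.e δ y =
      ∑ δ, (∫ y, f y * fr.e δ y) ^ 2 := by
    simp only [Finset.mul_sum]
    have hi : ∀ δ ∈ (Finset.univ : Finset I),
        Integrable fun y => f y * ((∫ y, f y * fr.e δ y) * fr.e δ y) := fun δ _ =>
      hf.integrable_mul ((fr.memLp δ).const_mul _)
    rw [integral_finsetSum _ hi]
    refine Finset.sum_congr rfl fun δ _ => ?_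
    rw [sq, ← integral_const_mul]
    exact integral_congr_ae (Eventually.of_forall fun y => by simp only; ring)
  have h5 : 0 ≤ ∫ y, f y ^ 2 := integral_nonneg fun _ => sq_nonneg _
  have h6 : 0 ≤ ∑ δ, (∫ y, f y * fr.e δ y) ^ 2 := Finset.sum_nonneg fun _ _ => sq_nonneg _
  rw [h4] at h2
  have h7 := h2.trans (mul_le_mul_of_nonneg_left h3 h5)
  rcases h6.eq_or_lt with h8 | h8
  · rw [← h8]
    exact h5
  · rw [sq] at h7
    exact le_of_mul_le_mul_right h7 h8

theorem memLp_red {p : ℕ} {G : (Fin (p + 1) → R3) → ℝ} (hm : Measurable G) (hG : MemLp G 2 volume)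
    {a : R3 → ℝ} (ha : Measurable a) (ha2 : MemLp a 2 volume) : MemLp (red G a) 2 volume := by
  obtain ⟨h1, h2⟩ := PPar_slice hm hG
  have h3 := measurable_red hm ha
  refine (memLp_two_iff_integrable_sq h3.aestronglyMeasurable).2
    ((h2.mul_const (∫ y, a y ^ 2)).mono' (h3.pow_const 2).aestronglyMeasurable ?_)
  filter_upwards [h1] with x hx
  rw [Real.norm_eq_abs, abs_sq]
  exact PPar_cs hx ha2

/-- Bessel inequality in the last leg -/
theorem bessel_red (fr : Frame I) {p : ℕ} {G : (Fin (p + 1) → R3) → ℝ} (hm : Measurable G)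
    (hG : MemLp G 2 volume) : ∑ δ, ∫ x, red G (fr.e δ) x ^ 2 ≤ ∫ x, G x ^ 2 := by
  obtain ⟨h1, h2⟩ := PPar_slice hm hG
  have h3 : ∀ δ ∈ (Finset.univ : Finset I), Integrable fun x => red G (fr.e δ) x ^ 2 :=
    fun δ _ => (memLp_red hm hG (fr.meas δ) (fr.memLp δ)).integrable_sq
  rw [← integral_finsetSum _ h3, integral_snoc hG.integrable_sq]
  refine integral_mono_ae (integrable_finsetSum _ h3) h2 ?_
  filter_upwards [h1] with x hx
  exact PPar_bes1 fr hx

/-- Parseval identity in the last leg -/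
theorem EB.parseval_red (hW : Pot W) (B : EB univ W) {p : ℕ} {G : (Fin (p + 1) → R3) → ℝ}
    (hm : Measurable G) (hG : MemLp G 2 volume) :
    Tendsto (fun M : ℝ => ∑ δ : B.I M, ∫ x, red G (B.eM M δ) x ^ 2) atTop (𝓝 (∫ x, G x ^ 2)) := by
  obtain ⟨h1, h2⟩ := PPar_slice hm hG
  have h3 : ∀ M, ∀ δ ∈ (Finset.univ : Finset (B.I M)),
      Integrable fun x => red G (B.eM M δ) x ^ 2 := fun M δ _ =>
    (memLp_red hm hG ((B.frame hW M).toFrame.meas δ) ((B.frame hW M).toFrame.memLp δ)).integrable_sq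
  rw [integral_snoc hG.integrable_sq]
  refine (tendsto_integral_filter_of_dominated_convergence
    (F := fun M x => ∑ δ : B.I M, red G (B.eM M δ) x ^ 2) _
    (Eventually.of_forall fun M => (integrable_finsetSum _ (h3 M)).aestronglyMeasurable)
    (Eventually.of_forall fun M => ?_) h2 ?_).congr fun M => integral_finsetSum _ (h3 M)
  · filter_upwards [h1] with x hx
    rw [Real.norm_eq_abs, abs_of_nonneg (Finset.sum_nonneg fun _ _ => sq_nonneg _)]
    exact PPar_bes1 (B.frame hW M).toFrame hx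
  · filter_upwards [h1] with x hx
    have h4 := B.tendsto_sum (B.par0 _ (by rwa [Measure.restrict_univ]))
    rw [Measure.restrict_univ] at h4
    refine h4.congr fun M => Finset.sum_congr rfl fun δ _ => ?_
    rw [ip_comm, ip, Measure.restrict_univ]
    rfl

end Pool.Agent.Lib.MP_8fe63c_mp
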