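import Pool.Agent.Lib.MP_8fe63c_mp.RWeak
import Pool.Agent.Lib.MP_8fe63c_mp.NHardy

/-!
The residual of the equation `(∑ ν) Ω = F`, where `Ω` are the coefficients of `k * tens u`.

Sketch. With `h = hat c`, `EFrame.eig_leg`, `qleg_hat_left`, `legF_mul` give
`∑ α, (∑ j, ν (α j)) Ω α c α = ∑ j, ∫ ⟪∇_j h, k ∇_j u + u ∇_j k⟫ + W h k u`. `GD.weak_tens` with `χ = 1`, `v = e ∘ α`,
summed with the coefficients `c`, gives `∫ F u h = ∑ j, ∫ ⟪∇_j k, u ∇_j h + h ∇_j u⟫ + m2 ∫ k u h`. In the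
difference there remain `∫ k ⟪∇_j h, ∇_j u⟫`, `∫ h ⟪∇_j k, ∇_j u⟫`, `∫ W h k u`, `m2 ∫ k u h`. Cauchy-Schwarz:
`∫ k^2 ‖∇_j u‖^2 ≤ M^(2p) n₂` (`lintegral_mul_single_le`), `Frame.ghat_le`; `∫ vw h^2` by `hardy_vw` and
`∫ ‖∇_j k‖^2/vw ‖∇_j u‖^2 ≤ M^(2p) n₃`; `EFrame.legS_le` for the potential (the integrand vanishes unless
`x j ∈ S`); `hat_l2_le`.
-/

set_option linter.unusedSectionVars false

open MeasureTheory Set Filter Topology
open scoped ENNReal InnerProductSpace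

namespace Pool.Agent.Lib.MP_8fe63c_mp

variable {I κ ι : Type} [Fintype I] [DecidableEq I] [Fintype κ] [DecidableEq κ]
  [Fintype ι] [DecidableEq ι]


theorem RL1_cs {X : Type} [MeasurableSpace X] {μ : Measure X} {a b r : X → ℝ} {A B : ℝ}
    (ha : Integrable a μ ∧ ∫ x, a x ∂μ ≤ A) (hb : Integrable b μ ∧ ∫ x, b x ∂μ ≤ B)
    (ha0 : ∀ x, 0 ≤ a x) (hb0 : ∀ x, 0 ≤ b x) (hr : ∀ x, r x ^ 2 ≤ a x * b x) :
    (∫ x, r x ∂μ) ^ 2 ≤ A * B := by
  have hA : 0 ≤ A := (integral_nonneg ha0).trans ha.2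
  have hB : 0 ≤ B := (integral_nonneg hb0).trans hb.2
  have h1 : ∀ t : ℝ, 0 < t → 2 * t * |∫ x, r x ∂μ| ≤ t ^ 2 * A + B := by
    intro t ht
    have h2 : ‖∫ x, 2 * t * r x ∂μ‖ ≤ ∫ x, (t ^ 2 * a x + b x) ∂μ := by
      refine norm_integral_le_of_norm_le ((ha.1.const_mul _).add hb.1) (ae_of_all _ fun x => ?_)
      refine abs_le_of_sq_le_sq' ?_ (by have := ha0 x; have := hb0 x; positivity) |> abs_le.2
      nlinarith [hr x, sq_nonneg (t ^ 2 * a x - b x), sq_nonneg t,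
        mul_le_mul_of_nonneg_left (hr x) (sq_nonneg t)]
    rw [integral_const_mul, integral_add (ha.1.const_mul _) hb.1, integral_const_mul,
      Real.norm_eq_abs, abs_mul, abs_of_pos (by positivity : 0 < 2 * t)] at h2
    nlinarith [mul_le_mul_of_nonneg_left ha.2 (sq_nonneg t), hb.2]
  rw [← sq_abs]
  rcases (abs_nonneg (∫ x, r x ∂μ)).eq_or_lt with hJ | hJ
  · rw [← hJ, sq, mul_zero]
    exact mul_nonneg hA hB
  generalize |∫ x, r x ∂μ| = J at h1 hJ ⊢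
  rcases hA.eq_or_lt with hA | hA
  · have h2 := h1 ((B + 1) / J) (by positivity)
    rw [← hA, mul_assoc, div_mul_cancel₀ _ hJ.ne'] at h2
    linarith
  · have h2 := mul_le_mul_of_nonneg_left (h1 (J / A) (by positivity)) hA.le
    have h3 : A * (2 * (J / A) * J) = 2 * J ^ 2 := by field_simp
    have h4 : A * ((J / A) ^ 2 * A + B) = J ^ 2 + A * B := by field_simp
    linarith

theorem RL1_int {X : Type} [MeasurableSpace X] {μ : Measure X} {a : X → ℝ} {A : ℝ}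
    (hm : Measurable a) (h0 : ∀ x, 0 ≤ a x) (hA : 0 ≤ A)
    (h : ∫⁻ x, ENNReal.ofReal (a x) ∂μ ≤ ENNReal.ofReal A) :
    Integrable a μ ∧ ∫ x, a x ∂μ ≤ A := by
  have h1 : Integrable a μ := ⟨hm.aestronglyMeasurable,
    (hasFiniteIntegral_iff_ofReal (ae_of_all _ h0)).2 (h.trans_lt ENNReal.ofReal_lt_top)⟩
  rw [← ofReal_integral_eq_lintegral_ofReal h1 (ae_of_all _ h0)] at h
  exact ⟨h1, (ENNReal.ofReal_le_ofReal_iff hA).1 h⟩

theorem RL1_sum {X A : Type} [MeasurableSpace X] {μ : Measure X} [Fintype A] {f : A → X → ℝ}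
    (hf : ∀ a, Integrable (f a) μ) (c : A → ℝ) :
    ∑ a, (∫ x, f a x ∂μ) * c a = ∫ x, ∑ a, c a * f a x ∂μ := by
  rw [integral_finsetSum _ fun a _ => (hf a).const_mul _]
  exact Finset.sum_congr rfl fun a _ => by rw [integral_const_mul, mul_comm]

theorem RL1_core {Φ : (κ → R3) → ℝ} (hm : Measurable Φ) (h0 : ∀ x, 0 ≤ Φ x) {j : κ} {n M : ℝ}
    (hn : 0 ≤ n) (hΦ : MargLe (Finset.univ.erase j) (fun x => ENNReal.ofReal (Φ x)) n)
    {u : κ → R3 → ℝ} (hu : ∀ i, Measurable (u i)) (hb : ∀ i y, |u i y| ≤ M) {w : R3 → ℝ}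
    (hw : Measurable w) (hw0 : ∀ y, 0 ≤ w y) (hi : Integrable w) (hM : ∫ y, w y ≤ M ^ 2) :
    Integrable (fun x => Φ x * ((∏ i ∈ Finset.univ.erase j, u i (x i)) ^ 2 * w (x j))) ∧
      ∫ x, Φ x * ((∏ i ∈ Finset.univ.erase j, u i (x i)) ^ 2 * w (x j)) ≤
        M ^ (2 * Fintype.card κ) * n := by
  have hq : 0 ≤ (M ^ (Finset.univ.erase j).card) ^ 2 := sq_nonneg _
  have h1 : ∀ x : κ → R3, (∏ i ∈ Finset.univ.erase j, u i (x i)) ^ 2 ≤
      (M ^ (Finset.univ.erase j).card) ^ 2 := fun x => by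
    rw [← sq_abs, Finset.abs_prod]
    refine pow_le_pow_left₀ (Finset.prod_nonneg fun _ _ => abs_nonneg _) ?_ 2
    rw [← Finset.prod_const]
    exact Finset.prod_le_prod (fun _ _ => abs_nonneg _) fun i _ => hb i _
  have h2 : M ^ (2 * Fintype.card κ) = (M ^ (Finset.univ.erase j).card) ^ 2 * M ^ 2 := by
    rw [← Finset.card_univ, ← Finset.card_erase_add_one (Finset.mem_univ j)]
    ring
  refine RL1_int (hm.mul (((Finset.measurable_prod _ fun i _ =>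
    (hu i).comp (measurable_pi_apply i)).pow_const 2).mul (hw.comp (measurable_pi_apply j))))
    (fun x => mul_nonneg (h0 x) (mul_nonneg (sq_nonneg _) (hw0 _)))
    (mul_nonneg (by rw [h2]; positivity) hn) ?_
  have h3 := lintegral_mul_single_le hm.ennreal_ofReal j hΦ
    (hw.const_mul ((M ^ (Finset.univ.erase j).card) ^ 2)).ennreal_ofReal
  refine le_trans (lintegral_mono fun x => ?_) (h3.trans ?_)
  · rw [← ENNReal.ofReal_mul (h0 x)]
    exact ENNReal.ofReal_le_ofReal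
      (mul_le_mul_of_nonneg_left (mul_le_mul_of_nonneg_right (h1 x) (hw0 _)) (h0 x))
  · rw [← ofReal_integral_eq_lintegral_ofReal (hi.const_mul _)
      (ae_of_all _ fun y => mul_nonneg hq (hw0 y)), ← ENNReal.ofReal_mul hn, integral_const_mul,
      h2, mul_comm n]
    exact ENNReal.ofReal_le_ofReal
      (mul_le_mul_of_nonneg_right (mul_le_mul_of_nonneg_left hM hq) hn)

theorem RL1_bf {W : R3 → ℝ} (hW : Pot W) {u : R3 → ℝ} {G : R3 → R3} {M : ℝ} (h : BF W u G M) :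
    Integrable (fun y => u y ^ 2) ∧ (Integrable (fun y => ‖G y‖ ^ 2) ∧ ∫ y, ‖G y‖ ^ 2 ≤ M ^ 2) ∧
      Integrable (fun y => W y * u y * u y) ∧ ∫ y, W y * u y * u y ≤ M ^ 2 := by
  have h1 := (h.inF.memLp_u hW).integrable_sq
  have h2 := (h.inF.memLp_G hW).norm.integrable_sq
  have h3 : Integrable _ _ := h.inF.integrable_W hW h.inF
  have h4 := (grad_le_qf hW h.inF).trans h.en
  have h5 := h.en
  rw [qf_split hW h.inF h.inF] at h5
  have h6 : 0 ≤ ∫ x in univ, ⟪G x, G x⟫_ℝ := integral_nonneg fun _ => real_inner_self_nonneg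
  rw [Measure.restrict_univ] at h1 h2 h3 h4 h5 h6
  exact ⟨h1, ⟨h2, h4⟩, h3, by linarith⟩

theorem RL1_tens (u : κ → R3 → ℝ) (j : κ) (x : κ → R3) :
    tens u x = (∏ i ∈ Finset.univ.erase j, u i (x i)) * u j (x j) :=
  (Finset.prod_erase_mul _ _ (Finset.mem_univ j)).symm

theorem RL1_gtens (u : κ → R3 → ℝ) (G : κ → R3 → R3) (j : κ) (x : κ → R3) :
    ‖gtens u G j x‖ ^ 2 = (∏ i ∈ Finset.univ.erase j, u i (x i)) ^ 2 * ‖G j (x j)‖ ^ 2 :=
  OChain_smul_sq _ _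

theorem RL1_mem {W : R3 → ℝ} (hW : Pot W) {k : (κ → R3) → ℝ} (hk : Cb1 k) {u : κ → R3 → ℝ}
    {G : κ → R3 → R3} (hu : ∀ i, InF univ W (u i) (G i)) (j : κ) :
    MemLp (fun x => k x • gtens u G j x) 2 volume ∧
      MemLp (fun x => tens u x • pgrad k j x) 2 volume ∧
      MemLp (fun x => ⟪pgrad k j x, gtens u G j x⟫_ℝ) 2 volume := by
  have h := legF_tens hW hu j
  have h1 := h.l2T
  have h2 := h.l2G
  rw [muP_univ] at h1 h2
  obtain ⟨K, hK⟩ := hk.2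
  obtain ⟨K', hK'⟩ := hk.pgrad_bdd
  have h3 := (hk.continuous_pgrad j).aestronglyMeasurable (μ := volume)
  refine ⟨h2.of_le_mul (c := K) (hk.1.continuous.aestronglyMeasurable.smul h2.1)
    (ae_of_all _ fun x => ?_), h1.of_le_mul (c := K') (h1.1.smul h3) (ae_of_all _ fun x => ?_),
    h2.of_le_mul (c := K') (h3.inner h2.1) (ae_of_all _ fun x => ?_)⟩
  · rw [norm_smul]
    exact mul_le_mul_of_nonneg_right (hK x).1 (norm_nonneg _)
  · rw [norm_smul, mul_comm]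
    exact mul_le_mul_of_nonneg_right (hK' j x) (norm_nonneg _)
  · exact (norm_inner_le_norm _ _).trans (mul_le_mul_of_nonneg_right (hK' j x) (norm_nonneg _))

theorem RL1_prod {W : R3 → ℝ} (hW : Pot W) {S : Set R3} (fr : EFrame I W S) (α : κ → I) (j : κ) :
    LegF univ W (prodE fr.e α) j (gprod fr.e fr.g α j) :=
  legF_tens hW (fun i => fr.inFW (α i)) j

theorem RL1_eig {W : R3 → ℝ} (hW : Pot W) {S : Set R3} (fr : EFrame I W S) {k : (κ → R3) → ℝ}
    (hk : Cb1 k) {u : κ → R3 → ℝ} {G : κ → R3 → R3} (hu : ∀ i, InF univ W (u i) (G i))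
    (hS : ∀ j x, x ∉ S → u j x = 0 ∧ G j x = 0) (α : κ → I) (j : κ) :
    fr.ν (α j) * coef fr.e (fun x => k x * tens u x) α =
      (∫ x, ⟪gprod fr.e fr.g α j x, k x • gtens u G j x⟫_ℝ) +
      (∫ x, ⟪gprod fr.e fr.g α j x, tens u x • pgrad k j x⟫_ℝ) +
      ∫ x, W (x j) * prodE fr.e α x * (k x * tens u x) := by
  have hT := legF_mul hW hk hu j
  have hP := RL1_prod hW fr α j
  obtain ⟨h1, h2, -⟩ := RL1_mem hW hk hu j
  have h3 := hP.l2G
  have h4 := (hP.integrable hW hT).2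
  rw [muP_univ] at h3 h4
  rw [← fr.eig_leg hW hT (fun x hx => ?_) α, qleg, muP_univ,
    integral_add (OBas_int_inner h3 (muP_univ κ ▸ hT.l2G)) h4,
    ← integral_add (OBas_int_inner h3 h1) (OBas_int_inner h3 h2)]
  · simp only [gmul, inner_add_right]
  · simp only [gmul, gtens, RL1_tens u j x, (hS j _ hx).1, (hS j _ hx).2, mul_zero, smul_zero,
      zero_smul, add_zero, and_self]

theorem RL1_weak {W : R3 → ℝ} (hW : Pot W) {S : Set R3} (fr : EFrame I W S) {m2 : ℝ}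
    {F k : (κ → R3) → ℝ} (hk : GD m2 F k) {u : κ → R3 → ℝ} {G : κ → R3 → R3}
    (hu : ∀ i, InF univ W (u i) (G i)) (hT : MemLp (fun x => k x * tens u x) 2 volume)
    (α : κ → I) :
    coef fr.e (fun x => F x * tens u x) α =
      ∑ j, (coef fr.e (fun x => ⟪pgrad k j x, gtens u G j x⟫_ℝ) α +
        ∫ x, ⟪gprod fr.e fr.g α j x, tens u x • pgrad k j x⟫_ℝ) +
      m2 * coef fr.e (fun x => k x * tens u x) α := by
  have h1 : Cb1 fun _ : κ → R3 => (1 : ℝ) := ⟨contDiff_const, 1, fun x => by simp⟩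
  have h2 := hk.weak_tens h1 (fun i => (hu i).to_zero hW) fun i => fr.inF (α i)
  have h3 := NBes_memLp_prodE fr.toFrame α
  have h4 : ∀ j, Integrable fun x => ⟪pgrad k j x, gtens u G j x⟫_ℝ * prodE fr.e α x := fun j =>
    (RL1_mem hW hk.cb hu j).2.2.integrable_mul h3
  have h5 : ∀ j, Integrable fun x => ⟪gprod fr.e fr.g α j x, tens u x • pgrad k j x⟫_ℝ :=
    fun j => OBas_int_inner (muP_univ κ ▸ (RL1_prod hW fr α j).l2G) (RL1_mem hW hk.cb hu j).2.1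
  have h6 : Integrable fun x => m2 * (k x * tens u x * prodE fr.e α x) :=
    Integrable.const_mul (hT.integrable_mul h3) m2
  have h7 : ∀ j, Integrable fun x => ⟪pgrad k j x, gtens u G j x⟫_ℝ * prodE fr.e α x +
      ⟪gprod fr.e fr.g α j x, tens u x • pgrad k j x⟫_ℝ := fun j => (h4 j).add (h5 j)
  simp only [coef, ← integral_add (h4 _) (h5 _), ← integral_const_mul]
  rw [← integral_finsetSum _ fun j _ => h7 j,
    ← integral_add (integrable_finsetSum _ fun j _ => h7 j) h6]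
  simp only [one_mul, ← mul_assoc] at h2
  refine h2.symm.trans (integral_congr_ae (ae_of_all _ fun x => ?_))
  have h8 : ∀ j, gmul (fun _ => 1) u G j x = gtens u G j x := fun j => by simp [gmul, pgrad]
  simp only [h8, inner_add_right, inner_smul_right, mul_assoc]
  refine congrArg₂ _ (Finset.sum_congr rfl fun j _ => ?_) rfl
  rw [mul_comm, real_inner_comm (pgrad k j x)]
  rfl

theorem RL1_vw (h2 : 2 ≤ Fintype.card κ) (s : ℝ) (x : κ → R3) : 0 < vw s x := by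
  obtain ⟨a, b, hab⟩ := Fintype.exists_pair_of_one_lt_card h2
  have h : ∀ a b : κ, 0 ≤ if a = b then 0 else hw s (x a - x b) := fun a b => by
    split_ifs
    exacts [le_rfl, (hw_pos _ _).le]
  refine Finset.sum_pos' (fun a _ => Finset.sum_nonneg fun b _ => h a b) ⟨a, Finset.mem_univ _, ?_⟩
  refine Finset.sum_pos' (fun b _ => h a b) ⟨b, Finset.mem_univ _, ?_⟩
  rw [if_neg hab]
  exact hw_pos _ _

theorem l2_mul_tens {W : R3 → ℝ} (hW : Pot W) [Nonempty κ] {k : (κ → R3) → ℝ} (hk : Measurable k)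
    {u : κ → R3 → ℝ} {G : κ → R3 → R3} {M n₂ : ℝ} (hu : ∀ j, BF W (u j) (G j) M) (h0 : 0 ≤ n₂)
    (h2 : L2rel k n₂) :
    MemLp (fun x => k x * tens u x) 2 volume ∧
      ∫ x, (k x * tens u x) ^ 2 ≤ M ^ (2 * Fintype.card κ) * n₂ := by
  obtain ⟨j⟩ := ‹Nonempty κ›
  have h := RL1_core (hk.pow_const 2) (fun _ => sq_nonneg _) h0 (h2 j) (fun i => (hu i).inF.mu)
    (fun i => (hu i).bdd) ((hu j).inF.mu.pow_const 2) (fun _ => sq_nonneg _) (RL1_bf hW (hu j)).1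
    (hu j).l2
  simp only [← mul_pow, ← RL1_tens] at h
  exact ⟨(memLp_two_iff_integrable_sq
    (hk.mul (legF_tens hW (fun i => (hu i).inF) j).mT).aestronglyMeasurable).2 h.1, h.2⟩

theorem RL1_abs {x y C Z : ℝ} (hC : 0 ≤ C) (h : x ^ 2 ≤ y) (h' : y ≤ C ^ 2 * Z) :
    |x| ≤ C * √Z := by
  refine (Real.abs_le_sqrt (h.trans h')).trans (le_of_eq ?_)
  rw [Real.sqrt_mul (sq_nonneg C), Real.sqrt_sq hC]

section terms

variable {W : R3 → ℝ} {S : Set R3} {k : (κ → R3) → ℝ} {u : κ → R3 → ℝ} {G : κ → R3 → R3}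
  {M n s : ℝ}

theorem RL1_t1 (hW : Pot W) (fr : EFrame I W S) (hk : Cb1 k) (hu : ∀ j, BF W (u j) (G j) M)
    (hn : 0 ≤ n) (h2 : L2rel k n) (c : (κ → I) → ℝ) (j : κ) :
    (∑ α, (∫ x, ⟪gprod fr.e fr.g α j x, k x • gtens u G j x⟫_ℝ) * c α) ^ 2 ≤
      (∑ α, fr.lt (α j) * c α ^ 2) * (M ^ (2 * Fintype.card κ) * n) := by
  have a1 := (legF_hat hW fr.inFW c j).l2G
  rw [muP_univ] at a1
  rw [RL1_sum fun α => OBas_int_inner (muP_univ κ ▸ (RL1_prod hW fr α j).l2G)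
    (RL1_mem hW hk (fun i => (hu i).inF) j).1]
  refine RL1_cs ⟨a1.norm.integrable_sq, fr.toFrame.ghat_le c j⟩
    (RL1_core (hk.1.continuous.measurable.pow_const 2) (fun _ => sq_nonneg _) hn (h2 j)
      (fun i => (hu i).inF.mu) (fun i => (hu i).bdd) ((hu j).inF.mG.norm.pow_const 2)
      (fun _ => sq_nonneg _) (RL1_bf hW (hu j)).2.1.1 (RL1_bf hW (hu j)).2.1.2)
    (fun _ => sq_nonneg _) (fun _ => by positivity) fun x => ?_
  have a2 : ∑ α, c α * ⟪gprod fr.e fr.g α j x, k x • gtens u G j x⟫_ℝ =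
      ⟪ghat fr.e fr.g c j x, k x • gtens u G j x⟫_ℝ := by
    simp only [ghat, sum_inner, real_inner_smul_left]
  rw [a2, ← RL1_gtens, ← OChain_smul_sq, ← mul_pow, ← sq_abs]
  exact pow_le_pow_left₀ (abs_nonneg _) (abs_real_inner_le_norm _ _) 2

theorem RL1_t2 (hW : Pot W) (hm : MeasurableSet S) (fr : EFrame I W S) (hk : Cb1 k)
    (hu : ∀ j, BF W (u j) (G j) M) (hS : ∀ j x, x ∉ S → u j x = 0 ∧ G j x = 0)
    (hn : 0 ≤ n) (h2 : L2rel k n) (c : (κ → I) → ℝ) (j : κ) :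
    (∑ α, (∫ x, W (x j) * prodE fr.e α x * (k x * tens u x)) * c α) ^ 2 ≤
      (∑ α, fr.lt (α j) * c α ^ 2) * (M ^ (2 * Fintype.card κ) * n) := by
  have hH := legF_hat hW fr.inFW c j
  have a1 := hH.l2G
  have a2 := (hH.integrable hW hH).2
  rw [muP_univ] at a1 a2
  have a3 : Integrable fun x => ‖ghat fr.e fr.g c j x‖ ^ 2 + W (x j) * hat fr.e c x ^ 2 := by
    simp only [mul_assoc, ← sq] at a2
    exact a1.norm.integrable_sq.add a2
  have a4 : MeasurableSet {x : κ → R3 | x j ∈ S} := measurable_pi_apply j hm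
  have a5 : ∀ x, 0 ≤ ‖ghat fr.e fr.g c j x‖ ^ 2 + W (x j) * hat fr.e c x ^ 2 := fun x =>
    add_nonneg (sq_nonneg _) (mul_nonneg (hW.nonneg _) (sq_nonneg _))
  have a6 : ∀ y, 0 ≤ W y * u j y * u j y := fun y => by
    rw [mul_assoc]
    exact mul_nonneg (hW.nonneg _) (mul_self_nonneg _)
  rw [RL1_sum fun α => muP_univ κ ▸
    ((RL1_prod hW fr α j).integrable hW (legF_mul hW hk (fun i => (hu i).inF) j)).2]
  refine RL1_cs ⟨a3.indicator a4, ?_⟩
    (RL1_core (hk.1.continuous.measurable.pow_const 2) (fun _ => sq_nonneg _) hn (h2 j)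
      (fun i => (hu i).inF.mu) (fun i => (hu i).bdd)
      ((hW.meas.mul (hu j).inF.mu).mul (hu j).inF.mu) a6 (RL1_bf hW (hu j)).2.2.1
      (RL1_bf hW (hu j)).2.2.2)
    (indicator_nonneg fun x _ => a5 x)
    (fun _ => mul_nonneg (sq_nonneg _) (mul_nonneg (sq_nonneg _) (a6 _))) fun x => ?_
  · rw [integral_indicator a4]
    exact (fr.legS_le hW hm c j).trans (Finset.sum_le_sum fun α _ =>
      mul_le_mul_of_nonneg_right (fr.ν_le _) (sq_nonneg _))
  have a7 : ∑ α, c α * (W (x j) * prodE fr.e α x * (k x * tens u x)) =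
      W (x j) * hat fr.e c x * (k x * tens u x) := by
    rw [hat, Finset.mul_sum, Finset.sum_mul]
    exact Finset.sum_congr rfl fun α _ => by ring
  rw [a7, RL1_tens u j]
  by_cases hx : x j ∈ S
  · rw [indicator_of_mem (show x ∈ {x : κ → R3 | x j ∈ S} from hx), add_mul]
    refine le_trans (le_of_eq ?_) (le_add_of_nonneg_left (mul_nonneg (sq_nonneg _)
      (mul_nonneg (sq_nonneg _) (mul_nonneg (sq_nonneg _) (a6 _)))))
    simp only [Pi.mul_apply]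
    ring
  · simp [(hS j _ hx).1]

theorem RL1_t3 (hW : Pot W) (fr : EFrame I W S) (hk : Cb1 k) (hu : ∀ j, BF W (u j) (G j) M)
    (hp : 2 ≤ Fintype.card κ) (hs : 0 < s) (hn : 0 ≤ n) (h3 : WGrad s k n) (c : (κ → I) → ℝ)
    (j : κ) :
    (∑ α, coef fr.e (fun x => ⟪pgrad k j x, gtens u G j x⟫_ℝ) α * c α) ^ 2 ≤
      (4 * Fintype.card κ / s ^ 2 * ∑ α, (∑ j, fr.lt (α j)) * c α ^ 2) *
        (M ^ (2 * Fintype.card κ) * n) := by
  have a1 := RL1_vw hp s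
  rw [coef_sum fr.toFrame (RL1_mem hW hk (fun i => (hu i).inF) j).2.2]
  refine RL1_cs (RL1_int ((HMac_meas_vw s).mul
      ((measurable_hat fr.toFrame.meas c).pow_const 2))
      (fun x => mul_nonneg (a1 x).le (sq_nonneg _))
      (mul_nonneg (by positivity) (Finset.sum_nonneg fun α _ => mul_nonneg
        (Finset.sum_nonneg fun _ _ => fr.lt_nonneg _) (sq_nonneg _))) (hardy_vw fr.toFrame hs c))
    (RL1_core (((hk.continuous_pgrad j).measurable.norm.pow_const 2).div (HMac_meas_vw s))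
      (fun x => div_nonneg (sq_nonneg _) (a1 x).le) hn (h3 j j)
      (fun i => (hu i).inF.mu) (fun i => (hu i).bdd) ((hu j).inF.mG.norm.pow_const 2)
      (fun _ => sq_nonneg _) (RL1_bf hW (hu j)).2.1.1 (RL1_bf hW (hu j)).2.1.2)
    (fun x => mul_nonneg (a1 x).le (sq_nonneg _))
    (fun x => mul_nonneg (div_nonneg (sq_nonneg _) (a1 x).le) (by positivity)) fun x => ?_
  have a2 : ⟪pgrad k j x, gtens u G j x⟫_ℝ ^ 2 ≤ (‖pgrad k j x‖ * ‖gtens u G j x‖) ^ 2 := by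
    rw [← sq_abs]
    exact pow_le_pow_left₀ (abs_nonneg _) (abs_real_inner_le_norm _ _) 2
  have a3 := (a1 x).ne'
  rw [← RL1_gtens, mul_pow]
  refine (mul_le_mul_of_nonneg_right a2 (sq_nonneg _)).trans (le_of_eq ?_)
  simp only [Pi.mul_apply, Pi.div_apply]
  field_simp

end terms

theorem resid_bound : ∃ cR : ℝ, 1 ≤ cR ∧ ∀ {I κ : Type} [Fintype I] [DecidableEq I] [Fintype κ]
    [DecidableEq κ] {W : R3 → ℝ} {S : Set R3} (fr : EFrame I W S) (m2 s n₂ n₃ M : ℝ)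
    (F k : (κ → R3) → ℝ) (u : κ → R3 → ℝ) (G : κ → R3 → R3), Pot W → MeasurableSet S →
    2 ≤ Fintype.card κ → Fintype.card κ ≤ 4 → GD m2 F k → (∀ j, BF W (u j) (G j) M) →
    (∀ j x, x ∉ S → u j x = 0 ∧ G j x = 0) → 0 < s → 0 ≤ n₂ → 0 ≤ n₃ → L2rel k n₂ →
    WGrad s k n₃ →
    Resid fr.ν fr.lt (coef fr.e fun x => k x * tens u x) (coef fr.e fun x => F x * tens u x)
      (cR * M ^ (2 * Fintype.card κ) * (n₂ * (1 + m2 ^ 2) + n₃ / s ^ 2)) := by
  refine ⟨25 ^ 2, by norm_num, fun {I κ} _ _ _ _ {W S} fr m2 s n₂ n₃ M F k u G hW hm hp2 hp4 hk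
    hu hS hs hn₂ hn₃ h2 h3 c => ?_⟩
  have : Nonempty κ := Fintype.card_pos_iff.1 (by omega)
  have hu' := fun i => (hu i).inF
  obtain ⟨hT, hT'⟩ := l2_mul_tens hW hk.cb.1.continuous.measurable hu hn₂ h2
  have hP : 0 ≤ M ^ (2 * Fintype.card κ) := by
    rw [pow_mul]
    positivity
  set P := M ^ (2 * Fintype.card κ) with hPdef
  set Q := ∑ α : κ → I, (∑ j, (fr.lt (α j) + 1)) * c α ^ 2 with hQ
  have q0 : ∀ f : (κ → I) → ℝ, (∀ α, f α ≤ ∑ j, (fr.lt (α j) + 1)) →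
      ∑ α, f α * c α ^ 2 ≤ Q := fun f hf =>
    Finset.sum_le_sum fun α _ => mul_le_mul_of_nonneg_right (hf α) (sq_nonneg _)
  have q1 : ∀ (α : κ → I) j, fr.lt (α j) + 1 ≤ ∑ j, (fr.lt (α j) + 1) := fun α j =>
    Finset.single_le_sum (f := fun j => fr.lt (α j) + 1)
      (fun i _ => add_nonneg (fr.lt_nonneg _) zero_le_one) (Finset.mem_univ j)
  have q2 : ∀ j, ∑ α : κ → I, fr.lt (α j) * c α ^ 2 ≤ Q := fun j =>
    q0 _ fun α => by linarith [q1 α j]
  have q3 : ∑ α : κ → I, (∑ j, fr.lt (α j)) * c α ^ 2 ≤ Q :=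
    q0 _ fun α => Finset.sum_le_sum fun j _ => by linarith
  have q4 : ∑ α : κ → I, c α ^ 2 ≤ Q := by
    simpa only [one_mul] using q0 (fun _ => 1) fun α => by
      linarith [q1 α (Classical.arbitrary κ), fr.lt_nonneg (α (Classical.arbitrary κ))]
  have hQ0 : 0 ≤ Q := (Finset.sum_nonneg fun _ _ => sq_nonneg _).trans q4
  have hp : (Fintype.card κ : ℝ) ≤ 4 := by exact_mod_cast hp4
  set Z := P * (n₂ * (1 + m2 ^ 2) + n₃ / s ^ 2) * Q with hZ
  have z1 : 0 ≤ Q * (P * n₂) := by positivity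
  have z2 : 0 ≤ m2 ^ 2 * (P * n₂ * Q) := by positivity
  have z3 : 0 ≤ Q / s ^ 2 * (P * n₃) := by positivity
  have z4 : Z = Q * (P * n₂) + m2 ^ 2 * (P * n₂ * Q) + Q / s ^ 2 * (P * n₃) := by
    rw [hZ]
    ring
  have z5 : ∀ j, (∑ α : κ → I, fr.lt (α j) * c α ^ 2) * (P * n₂) ≤ 1 ^ 2 * Z := fun j => by
    linarith [mul_le_mul_of_nonneg_right (q2 j) (mul_nonneg hP hn₂)]
  have b1 := fun j => RL1_abs zero_le_one (RL1_t1 hW fr hk.cb hu hn₂ h2 c j) (z5 j)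
  have b2 := fun j => RL1_abs zero_le_one (RL1_t2 hW hm fr hk.cb hu hS hn₂ h2 c j) (z5 j)
  have b3 := fun j => RL1_abs (C := 4) (Z := Z) (by norm_num)
    (RL1_t3 hW fr hk.cb hu hp2 hs hn₃ h3 c j) (by
      calc _ ≤ (4 * Fintype.card κ / s ^ 2 * Q) * (P * n₃) := by gcongr
        _ ≤ (4 * 4 / s ^ 2 * Q) * (P * n₃) := by gcongr
        _ = 16 * (Q / s ^ 2 * (P * n₃)) := by ring
        _ ≤ _ := by linarith)
  have b4 : |m2 * ∑ α, coef fr.e (fun x => k x * tens u x) α * c α| ≤ 1 * √Z := by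
    refine RL1_abs (y := m2 ^ 2 * (P * n₂ * Q)) zero_le_one ?_ (by linarith)
    rw [mul_pow, coef_sum fr.toFrame hT]
    exact mul_le_mul_of_nonneg_left (RL1_cs ⟨hT.integrable_sq, hT'⟩
      ⟨(NBes_memLp_hat fr.toFrame c).integrable_sq, (hat_l2_le fr.toFrame c).trans q4⟩
      (fun _ => sq_nonneg _) (fun _ => sq_nonneg _) fun x => (mul_pow _ _ _).le) (sq_nonneg _)
  have e1 : ∑ α, ((∑ j, fr.ν (α j)) * coef fr.e (fun x => k x * tens u x) α -
      coef fr.e (fun x => F x * tens u x) α) * c α =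
      ∑ j, (∑ α, (∫ x, ⟪gprod fr.e fr.g α j x, k x • gtens u G j x⟫_ℝ) * c α +
        ∑ α, (∫ x, W (x j) * prodE fr.e α x * (k x * tens u x)) * c α -
        ∑ α, coef fr.e (fun x => ⟪pgrad k j x, gtens u G j x⟫_ℝ) α * c α) -
      m2 * ∑ α, coef fr.e (fun x => k x * tens u x) α * c α := by
    simp only [← Finset.sum_add_distrib, ← Finset.sum_sub_distrib]
    rw [Finset.sum_comm, Finset.mul_sum, ← Finset.sum_sub_distrib]
    refine Finset.sum_congr rfl fun α _ => ?_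
    rw [Finset.sum_mul, RL1_weak hW fr hk hu' hT α,
      Finset.sum_congr rfl fun j _ => RL1_eig hW fr hk.cb hu' hS α j, ← sub_sub,
      ← Finset.sum_sub_distrib, sub_mul, Finset.sum_mul, mul_assoc]
    exact congrArg₂ _ (Finset.sum_congr rfl fun j _ => by ring) rfl
  have hZ0 : 0 ≤ Z := by linarith
  rw [e1, mul_assoc, mul_assoc, ← mul_assoc P, ← hZ, ← Real.sq_sqrt hZ0, ← mul_pow]
  rw [← sq_abs]
  refine pow_le_pow_left₀ (abs_nonneg _) ((abs_sub _ _).trans ?_) 2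
  refine (add_le_add ((Finset.abs_sum_le_sum_abs _ _).trans
    (Finset.sum_le_card_nsmul _ _ (6 * √Z) fun j _ => ?_)) b4).trans ?_
  · refine (abs_sub _ _).trans ((add_le_add (abs_add_le _ _) le_rfl).trans ?_)
    linarith [b1 j, b2 j, b3 j]
  · rw [nsmul_eq_mul, Finset.card_univ]
    linarith [mul_le_mul_of_nonneg_right hp (Real.sqrt_nonneg Z)]

end Pool.Agent.Lib.MP_8fe63c_mp
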