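import Pool.Agent.Lib.MP_8fe63c_mp.PDefs
import Pool.Agent.Lib.MP_8fe63c_mp.NBes
import Pool.Agent.Lib.MP_8fe63c_mp.OSob

/-!
Localisation, first part: exact integrals, moments and the displacement bound.
-/

set_option linter.unusedSectionVars false
set_option linter.unusedVariables false

open MeasureTheory Set Filter Topology
open scoped ENNReal InnerProductSpace

namespace Pool.Agent.Lib.MP_8fe63c_mp

variable {I κ ι : Type} [Fintype I] [DecidableEq I] [Fintype κ] [DecidableEq κ]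
  [Fintype ι] [DecidableEq ι]


variable {q : ℕ} {Φ : (Fin (q + 1) → R3) → ℝ} {B s : ℝ}

theorem RLoc_meas_eabs {X : Type} [MeasurableSpace X] {F : X → ℝ} (h : Measurable F) :
    Measurable (eabs F) := (continuous_abs.measurable.comp h).ennreal_ofReal

theorem RLoc_enorm (t : ℝ) : ‖t‖ₑ = ENNReal.ofReal |t| := by
  rw [← ofReal_norm, Real.norm_eq_abs]

theorem RLoc_card (j : Fin (q + 1)) : (Finset.univ.erase j).card = q := by
  rw [Finset.card_erase_of_mem (Finset.mem_univ _), Finset.card_univ, Fintype.card_fin,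
    Nat.add_sub_cancel]

theorem RLoc_ne (j : ι) : Finset.univ.erase j ≠ Finset.univ := fun h =>
  Finset.notMem_erase j Finset.univ (h.symm ▸ Finset.mem_univ j)

theorem RLoc_meas_cons (y₀ : R3) :
    Measurable fun y : Fin q → R3 => (Fin.cons y₀ y : Fin (q + 1) → R3) := by
  refine measurable_pi_iff.2 fun i => ?_
  refine Fin.cases ?_ (fun i => ?_) i
  · simp
  · simpa using measurable_pi_apply i

theorem RLoc_cons {Ψ : (Fin (q + 1) → R3) → ℝ≥0∞} (h : Measurable Ψ) (x : Fin (q + 1) → R3) :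
    marg (Finset.univ.erase 0) Ψ x = ∫⁻ y : Fin q → R3, Ψ (Fin.cons (x 0) y) := by
  have h1 := lmarginal_image (μ := fun _ : Fin (q + 1) => (volume : Measure R3))
    (Fin.succ_injective q) Finset.univ (f := fun y : Fin q → R3 => Ψ (Fin.cons (x 0) y))
    (h.comp (RLoc_meas_cons _)) x
  rw [lmarginal_univ, Fin.image_succ_univ, Finset.compl_singleton] at h1
  refine Eq.trans ?_ h1
  refine lintegral_congr fun y => congrArg Ψ (funext fun i => ?_)
  refine Fin.cases ?_ (fun i => ?_) i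
  · simp [Function.updateFinset]
  · rfl

theorem RLoc_lint_cons (h : Nice0 Φ B) :
    ∫⁻ y : Fin q → R3, ENNReal.ofReal |Φ (Fin.cons 0 y)| ≤ ENNReal.ofReal B := by
  have h1 := h.mg _ (RLoc_ne 0) 0
  rwa [RLoc_cons (RLoc_meas_eabs h.meas)] at h1

theorem RLoc_int_cons (h : Nice0 Φ B) : Integrable fun y : Fin q → R3 => Φ (Fin.cons 0 y) := by
  refine ⟨(h.meas.comp (RLoc_meas_cons 0)).aestronglyMeasurable, ?_⟩
  simp only [HasFiniteIntegral, RLoc_enorm]
  exact (RLoc_lint_cons h).trans_lt ENNReal.ofReal_lt_top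

theorem relInt_le (h : Nice0 Φ B) : |relInt Φ| ≤ B :=
  (norm_integral_le_lintegral_norm fun y : Fin q → R3 => Φ (Fin.cons 0 y)).trans
    (ENNReal.toReal_le_of_le_ofReal (zero_le_one.trans h.one_le) (RLoc_lint_cons h))

theorem RLoc_margLe_sc {Ψ : (Fin (q + 1) → R3) → ℝ≥0∞} (h : Measurable Ψ) (hs : 0 < s)
    {j : Fin (q + 1)} {c : ℝ} (hc : MargLe (Finset.univ.erase j) Ψ c) :
    MargLe (Finset.univ.erase j) (fun x => Ψ (s • x)) (c / s ^ (3 * q)) :=
  HMac_margLe (a := 1) h zero_le_one hs hc (fun y => by simp) (by rw [RLoc_card]; ring_nf; rfl)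

theorem lintegral_sc_single_le (h : Nice0 Φ B) (hs : 0 < s) (j : Fin (q + 1)) {a : R3 → ℝ≥0∞}
    (ha : Measurable a) :
    ∫⁻ x : Fin (q + 1) → R3, eabs Φ (s • x) * a (x j) ≤
      ENNReal.ofReal (B / s ^ (3 * q)) * ∫⁻ y, a y :=
  lintegral_mul_single_le ((RLoc_meas_eabs h.meas).comp (HMac_meas_smul s)) j
    (RLoc_margLe_sc (RLoc_meas_eabs h.meas) hs (h.mg _ (RLoc_ne j))) ha

theorem integrable_sc_single (h : Nice0 Φ B) (hs : 0 < s) (j : Fin (q + 1)) {A : R3 → ℝ}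
    (hm : Measurable A) (hA : Integrable A) :
    Integrable fun x : Fin (q + 1) → R3 => Φ (s • x) * A (x j) := by
  refine ⟨((h.meas.comp (HMac_meas_smul s)).mul
    (hm.comp (measurable_pi_apply j))).aestronglyMeasurable, ?_⟩
  have h1 := lintegral_sc_single_le h hs j hm.enorm
  simp only [HasFiniteIntegral, enorm_mul, RLoc_enorm (Φ _)]
  exact h1.trans_lt (ENNReal.mul_lt_top ENNReal.ofReal_lt_top hA.2)

theorem RLoc_lint_rel {Ψ : (Fin (q + 1) → R3) → ℝ≥0∞} (h : Measurable Ψ) (ht : TI Ψ) (hs : 0 < s)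
    (j : Fin (q + 1)) {a : R3 → ℝ≥0∞} (ha : Measurable a) :
    ∫⁻ x : Fin (q + 1) → R3, Ψ (s • x) * a (x j) =
      ENNReal.ofReal (1 / s ^ (3 * q)) * (∫⁻ y : Fin q → R3, Ψ (Fin.cons 0 y)) * ∫⁻ y, a y := by
  rw [(HMarg_single_eq (Φ := fun x => Ψ (s • x)) (h.comp (HMac_meas_smul s)) j 0).resolve_right
    (not_not.2 ha), ← lintegral_const_mul _ ha]
  refine lintegral_congr fun y => ?_
  rw [marg_scale _ h hs, RLoc_card, TI.marg_erase h ht j 0 _ 0, RLoc_cons h, mul_comm]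
  rfl

theorem RLoc_rel_pos (h : Nice0 Φ B) (h0 : ∀ x, 0 ≤ Φ x) (hs : 0 < s) (j : Fin (q + 1))
    {A : R3 → ℝ} (hm : Measurable A) (hA : ∀ y, 0 ≤ A y) :
    ∫ x : Fin (q + 1) → R3, Φ (s • x) * A (x j) = relInt Φ / s ^ (3 * q) * ∫ y, A y := by
  have h1 := RLoc_lint_rel (Ψ := fun x => ENNReal.ofReal (Φ x)) h.meas.ennreal_ofReal
    (fun x a => congrArg ENNReal.ofReal (h.ti x a)) hs j hm.ennreal_ofReal
  rw [integral_eq_lintegral_of_nonneg_ae (Eventually.of_forall fun x => mul_nonneg (h0 _) (hA _))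
    ((h.meas.comp (HMac_meas_smul s)).mul (hm.comp (measurable_pi_apply j))).aestronglyMeasurable,
    relInt, integral_eq_lintegral_of_nonneg_ae (Eventually.of_forall fun x => h0 _)
    (h.meas.comp (RLoc_meas_cons 0)).aestronglyMeasurable,
    integral_eq_lintegral_of_nonneg_ae (Eventually.of_forall hA) hm.aestronglyMeasurable]
  simp only [ENNReal.ofReal_mul (h0 _)]
  rw [h1, ENNReal.toReal_mul, ENNReal.toReal_mul, ENNReal.toReal_ofReal (by positivity)]
  ring

theorem RLoc_rel_half (h : Nice0 Φ B) (h0 : ∀ x, 0 ≤ Φ x) (hs : 0 < s) (j : Fin (q + 1))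
    {A : R3 → ℝ} (hm : Measurable A) (hA : Integrable A) :
    ∫ x : Fin (q + 1) → R3, Φ (s • x) * A (x j) = relInt Φ / s ^ (3 * q) * ∫ y, A y := by
  have m1 : Measurable fun y => max (A y) 0 := hm.max measurable_const
  have m2 : Measurable fun y => max (-A y) 0 := hm.neg.max measurable_const
  have e1 := RLoc_rel_pos h h0 hs j m1 fun y => le_max_right _ _
  have e2 := RLoc_rel_pos h h0 hs j m2 fun y => le_max_right _ _
  have e3 : ∫ y, A y = (∫ y, max (A y) 0) - ∫ y, max (-A y) 0 := by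
    rw [← integral_sub hA.pos_part hA.neg_part]
    simp only [max_zero_sub_max_neg_zero_eq_self]
  rw [e3, mul_sub, ← e1, ← e2, ← integral_sub (integrable_sc_single h hs j m1 hA.pos_part)
    (integrable_sc_single h hs j m2 hA.neg_part)]
  simp only [← mul_sub, max_zero_sub_max_neg_zero_eq_self]

theorem RLoc_nice_le (h : Nice0 Φ B) {Φ' : (Fin (q + 1) → R3) → ℝ} (hm : Measurable Φ')
    (ht : TI Φ') (hle : ∀ x, |Φ' x| ≤ |Φ x|) : Nice0 Φ' B :=
  ⟨hm, ht, h.one_le, fun A hA x =>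
    (marg_mono A (fun y => ENNReal.ofReal_le_ofReal (hle y)) x).trans (h.mg A hA x)⟩

theorem integral_rel (h : Nice0 Φ B) (hs : 0 < s) (j : Fin (q + 1)) {A : R3 → ℝ}
    (hm : Measurable A) (hA : Integrable A) :
    ∫ x : Fin (q + 1) → R3, Φ (s • x) * A (x j) = relInt Φ / s ^ (3 * q) * ∫ y, A y := by
  have n1 : Nice0 (fun x => max (Φ x) 0) B :=
    RLoc_nice_le h (h.meas.max measurable_const) (fun x a => by rw [h.ti x a]) fun x => by
      rw [abs_of_nonneg (le_max_right _ _)]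
      exact max_le (le_abs_self _) (abs_nonneg _)
  have n2 : Nice0 (fun x => max (-Φ x) 0) B :=
    RLoc_nice_le h (h.meas.neg.max measurable_const) (fun x a => by rw [h.ti x a]) fun x => by
      rw [abs_of_nonneg (le_max_right _ _)]
      exact max_le (neg_le_abs _) (abs_nonneg _)
  have e1 := RLoc_rel_half n1 (fun x => le_max_right _ _) hs j hm hA
  have e2 := RLoc_rel_half n2 (fun x => le_max_right _ _) hs j hm hA
  have e3 : relInt Φ = relInt (fun x => max (Φ x) 0) - relInt fun x => max (-Φ x) 0 := by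
    simp only [relInt]
    rw [← integral_sub (RLoc_int_cons n1) (RLoc_int_cons n2)]
    simp only [max_zero_sub_max_neg_zero_eq_self]
  rw [e3, sub_div, sub_mul, ← e1, ← e2, ← integral_sub (integrable_sc_single n1 hs j hm hA)
    (integrable_sc_single n2 hs j hm hA)]
  simp only [← sub_mul, max_zero_sub_max_neg_zero_eq_self]

theorem RLoc_margLe {Ψ Ψ' : (ι → R3) → ℝ≥0∞} (h : Measurable Ψ) {A : Finset ι} {k c : ℝ}
    (hk : 0 ≤ k) (hc : MargLe A Ψ c) (hle : ∀ y, Ψ' y ≤ ENNReal.ofReal k * Ψ y) :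
    MargLe A Ψ' (k * c) :=
  HMac_margLe (s := 1) h hk one_pos hc (by simpa using hle) (by simp)

theorem mom_of_supp (h : Nice0 Φ B) (hs : 0 < s) {K : ℝ}
    (hK : ∀ x, Φ x ≠ 0 → ∀ a b, ‖x a - x b‖ ≤ K) : Mom s Φ (B * K ^ 2 / s ^ 2) := by
  intro a b
  have e : B * K ^ 2 / s ^ 2 = K ^ 2 / s ^ 2 * B := by ring
  rw [e]
  refine RLoc_margLe (RLoc_meas_eabs h.meas) (by positivity) (h.mg _ (RLoc_ne a)) fun y => ?_
  by_cases h0 : Φ y = 0
  · simp [eabs, h0]
  · rw [mul_comm]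
    refine mul_le_mul' (ENNReal.ofReal_le_ofReal ((min_le_left _ _).trans ?_)) le_rfl
    have := hK y h0 a b
    gcongr

theorem RLoc_meas_mom (hm : Measurable Φ) (s : ℝ) (a b : Fin (q + 1)) :
    Measurable fun y : Fin (q + 1) → R3 =>
      eabs Φ y * ENNReal.ofReal (min (‖y a - y b‖ ^ 2 / s ^ 2) 1) :=
  (RLoc_meas_eabs hm).mul (by fun_prop)

theorem Mom.of_le {Φ' : (Fin (q + 1) → R3) → ℝ} {c k : ℝ} (h : Mom s Φ c) (hm : Measurable Φ)
    (hk : 0 ≤ k) (hle : ∀ x, |Φ' x| ≤ k * |Φ x|) : Mom s Φ' (k * c) := by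
  intro a b
  refine RLoc_margLe (RLoc_meas_mom hm s a b) hk (h a b) fun y => ?_
  rw [← mul_assoc, eabs, eabs, ← ENNReal.ofReal_mul hk]
  exact mul_le_mul' (ENNReal.ofReal_le_ofReal (hle y)) le_rfl

theorem Nice0.mul_bdd (h : Nice0 Φ B) {y : (Fin (q + 1) → R3) → ℝ} {C : ℝ} (hC : 1 ≤ C)
    (hm : Measurable y) (ht : TI y) (hb : ∀ x, |y x| ≤ C) : Nice0 (fun x => Φ x * y x) (B * C) := by
  have hC0 : 0 ≤ C := zero_le_one.trans hC
  refine ⟨h.meas.mul hm, fun x a => by rw [h.ti x a, ht x a],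
    one_le_mul_of_one_le_of_one_le h.one_le hC, fun A hA => ?_⟩
  rw [mul_comm B C]
  refine RLoc_margLe (RLoc_meas_eabs h.meas) hC0 (h.mg A hA) fun x => ?_
  rw [eabs, eabs, ← ENNReal.ofReal_mul hC0, abs_mul, mul_comm]
  exact ENNReal.ofReal_le_ofReal (mul_le_mul_of_nonneg_right (hb x) (abs_nonneg _))

theorem RLoc_shear {F : (ι → R3) → ℝ≥0∞} (h : Measurable F) (a : ι) :
    ∫⁻ x, F x = marg (Finset.univ.erase a) (fun z => ∫⁻ y : R3, F fun i => z i + y) 0 := by
  have hm : Measurable fun p : (ι → R3) × R3 => F fun i => p.1 i + p.2 := h.comp (by fun_prop)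
  rw [HMarg_swap volume _ (F := fun z y => F fun i => z i + y) hm, ← marg_univ 0]
  conv_lhs => rw [← Finset.insert_erase (Finset.mem_univ a)]
  rw [HMarg_insert h (Finset.notMem_erase a _)]
  refine lintegral_congr fun y => ?_
  have h1 := marg_translate (Finset.univ.erase a) h (fun _ => -y) 0
  have e : (fun z : ι → R3 => F (z - fun _ => -y)) = fun z => F fun i => z i + y := by
    funext z
    congr 1
    funext i
    simp
  rw [e] at h1
  rw [h1]
  refine marg_congr _ fun i hi => ?_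
  have : i = a := by
    by_contra hne
    exact hi (Finset.mem_erase.2 ⟨hne, Finset.mem_univ i⟩)
  subst this
  simp

theorem RLoc_mink {f g : R3 → ℝ} (hf : Measurable f) (hg : Measurable g) {α β : ℝ} (hα : 0 ≤ α)
    (hβ : 0 ≤ β) (h1 : ∫⁻ x, ENNReal.ofReal (f x ^ 2) ≤ ENNReal.ofReal (α ^ 2))
    (h2 : ∫⁻ x, ENNReal.ofReal (g x ^ 2) ≤ ENNReal.ofReal (β ^ 2)) :
    ∫⁻ x, ENNReal.ofReal ((f x + g x) ^ 2) ≤ ENNReal.ofReal ((α + β) ^ 2) := by
  have key : ∀ {u : R3 → ℝ} {γ : ℝ}, 0 ≤ γ →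
      (∫⁻ x, ENNReal.ofReal (u x ^ 2) ≤ ENNReal.ofReal (γ ^ 2) ↔
        eLpNorm u 2 volume ≤ ENNReal.ofReal γ) := by
    intro u γ hγ
    have e := OSob_eLp2 u
    simp only [Real.norm_eq_abs, sq_abs] at e
    rw [← e, ENNReal.ofReal_pow hγ, ENNReal.pow_le_pow_left_iff two_ne_zero]
  rw [key (add_nonneg hα hβ), ENNReal.ofReal_add hα hβ]
  exact (eLpNorm_add_le hf.aestronglyMeasurable hg.aestronglyMeasurable one_le_two).trans
    (add_le_add ((key hα).1 h1) ((key hβ).1 h2))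

theorem RLoc_diff {A : R3 → ℝ} {M : ℝ} (hA : Lip2 A M) (u v : R3) :
    ∫⁻ y, ENNReal.ofReal ((A (u + y) - A (v + y)) ^ 2) ≤
      ENNReal.ofReal (4 * M ^ 2) * ENNReal.ofReal (min (‖u - v‖ ^ 2) 1) := by
  have hM := hA.nonneg
  rw [← ENNReal.ofReal_mul (by positivity)]
  rcases le_total (‖u - v‖ ^ 2) 1 with h | h
  · rw [min_eq_left h]
    have h1 := lintegral_add_left_eq_self (μ := volume)
      (fun y => ENNReal.ofReal ((A (y + (u - v)) - A y) ^ 2)) v
    have e : ∀ y, v + y + (u - v) = u + y := fun y => by abel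
    simp only [e] at h1
    rw [h1]
    refine (hA.tr _).trans (ENNReal.ofReal_le_ofReal ?_)
    nlinarith [mul_nonneg (sq_nonneg M) (sq_nonneg ‖u - v‖)]
  · rw [min_eq_right h]
    have h1 : ∀ w : R3, ∫⁻ y, ENNReal.ofReal (A (w + y) ^ 2) ≤ ENNReal.ofReal (M ^ 2) := fun w => by
      rw [lintegral_add_left_eq_self (μ := volume) (fun y => ENNReal.ofReal (A y ^ 2)) w]
      exact hA.l2
    have h2 := RLoc_mink (f := fun y => A (u + y)) (g := fun y => -A (v + y))
      (hA.meas.comp (measurable_const_add u)) (hA.meas.comp (measurable_const_add v)).neg hM hM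
      (h1 u) (by simpa only [neg_sq] using h1 v)
    simp only [← sub_eq_add_neg] at h2
    exact h2.trans (ENNReal.ofReal_le_ofReal (le_of_eq (by ring)))

theorem loc_move (hm : Measurable Φ) (ht : TI Φ) (hs : 0 < s) {c M : ℝ} (hc : 0 ≤ c)
    (h : Mom s Φ c) {A : R3 → ℝ} (hA : Lip2 A M) (a b : Fin (q + 1)) :
    ∫⁻ x : Fin (q + 1) → R3, eabs Φ (s • x) * ENNReal.ofReal ((A (x a) - A (x b)) ^ 2) ≤
      ENNReal.ofReal (4 * M ^ 2 * c / s ^ (3 * q)) := by
  have hAm := hA.meas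
  have m1 : Measurable fun x : Fin (q + 1) → R3 =>
      eabs Φ (s • x) * ENNReal.ofReal ((A (x a) - A (x b)) ^ 2) :=
    ((RLoc_meas_eabs hm).comp (HMac_meas_smul s)).mul (by fun_prop)
  rw [RLoc_shear m1 a]
  refine HMac_margLe (a := 4 * M ^ 2) (RLoc_meas_mom hm s a b) (by positivity) hs (h a b)
    (fun z => ?_) (by rw [RLoc_card]; exact le_of_eq (by ring)) 0
  have e1 : ∀ y : R3, eabs Φ (s • fun i => z i + y) = eabs Φ (s • z) := fun y => by
    rw [eabs, eabs, ← ht (s • z) (s • y)]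
    congr 3
    funext i
    simp
  have e2 : ‖(s • z) a - (s • z) b‖ ^ 2 / s ^ 2 = ‖z a - z b‖ ^ 2 := by
    rw [Pi.smul_apply, Pi.smul_apply, ← smul_sub, norm_smul, mul_pow, Real.norm_eq_abs, sq_abs]
    field_simp
  simp only [e1, e2]
  rw [lintegral_const_mul' _ _ (by exact ENNReal.ofReal_ne_top), mul_left_comm]
  exact mul_le_mul' le_rfl (RLoc_diff hA _ _)

end Pool.Agent.Lib.MP_8fe63c_mp
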