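import Pool.Agent.Lib.MP_8fe63c_mp.PLeg

/-!
The weak equation for products of one-body functions in the form domain.

Sketch. Approximate each `u i`, `v i` by `Cc1` functions (`InF.seq`). The test function
`χ * tens un * tens vn` is `Cc1`; its gradient in the leg `i` is
`tens vn • gmul χ un (gradient un) i + (χ * tens un) • gtens vn (gradient vn) i`. The functions `pgrad k i`, `k`,
`F`, `χ`, `pgrad χ i` are bounded, and `tens un`, `gtens un`, .. converge in `L^2` (expand the squared
distance in products of `ip` and use `tendsto_qf`), so each term converges (Cauchy-Schwarz; work with the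
three coordinates of the vectors and `L2lim.mul`).
-/

set_option linter.unusedSectionVars false

open MeasureTheory Set Filter Topology
open scoped ENNReal InnerProductSpace

namespace Pool.Agent.Lib.MP_8fe63c_mp

variable {I κ ι : Type} [Fintype I] [DecidableEq I] [Fintype κ] [DecidableEq κ]
  [Fintype ι] [DecidableEq ι]


theorem RWeak_memLp {u : κ → R3 → ℝ} (hu : ∀ i, MemLp (u i) 2 volume) :
    MemLp (tens u) 2 volume := by
  have h := memLp_tens (Ω := univ) (u := u) fun j => by
    rw [Measure.restrict_univ]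
    exact hu j
  rwa [muP_univ] at h

theorem RWeak_int_tens (u v : κ → R3 → ℝ) :
    ∫ x, tens u x * tens v x = ∏ i, ∫ y, u i y * v i y := by
  rw [← integral_fintype_prod_volume_eq_prod]
  simp only [tens, Finset.prod_mul_distrib]

theorem RWeak_const {X α : Type} [MeasurableSpace X] (μ : Measure X) (l : Filter α) (f : X → ℝ) :
    L2lim μ l (fun _ => f) f := by
  simp only [L2lim, sub_self, ne_eq, OfNat.ofNat_ne_zero, not_false_eq_true, zero_pow,
    integral_zero]
  exact tendsto_const_nhds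

theorem L2lim_tens {u : κ → R3 → ℝ} {un : ℕ → κ → R3 → ℝ} (hu : ∀ i, MemLp (u i) 2 volume)
    (hn : ∀ n i, MemLp (un n i) 2 volume) (h : ∀ i, L2lim volume atTop (fun n => un n i) (u i)) :
    L2lim volume atTop (fun n => tens (un n)) (tens u) := by
  have e : ∀ n, ∫ x, (tens (un n) x - tens u x) ^ 2 = (∏ i, ∫ y, un n i y * un n i y) -
      2 * (∏ i, ∫ y, un n i y * u i y) + ∏ i, ∫ y, u i y * u i y := by
    intro n
    have i1 : Integrable fun x => tens (un n) x * tens (un n) x :=
      (RWeak_memLp (hn n)).integrable_mul (RWeak_memLp (hn n))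
    have i2 : Integrable fun x => 2 * (tens (un n) x * tens u x) :=
      ((RWeak_memLp (hn n)).integrable_mul (RWeak_memLp hu)).const_mul 2
    have i3 : Integrable fun x => tens u x * tens u x :=
      (RWeak_memLp hu).integrable_mul (RWeak_memLp hu)
    have i4 : Integrable fun x => tens (un n) x * tens (un n) x -
        2 * (tens (un n) x * tens u x) := i1.sub i2
    rw [← RWeak_int_tens, ← RWeak_int_tens, ← RWeak_int_tens, ← integral_const_mul,
      ← integral_sub i1 i2, ← integral_add i4 i3]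
    refine integral_congr_ae (Eventually.of_forall fun x => ?_)
    simp only
    ring
  have t1 : ∀ i, Tendsto (fun n => ∫ y, un n i y * un n i y) atTop (𝓝 (∫ y, u i y * u i y)) := by
    intro i
    have := L2lim.mul (h i) (h i) (fun n => hn n i) (fun n => hn n i) (hu i) (hu i)
      (a := fun _ => 1) measurable_const (M := 1) (fun _ => by simp)
    simpa only [one_mul] using this
  have t2 : ∀ i, Tendsto (fun n => ∫ y, un n i y * u i y) atTop (𝓝 (∫ y, u i y * u i y)) := by
    intro i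
    have := L2lim.mul (h i) (RWeak_const volume atTop (u i)) (fun n => hn n i) (fun _ => hu i)
      (hu i) (hu i) (a := fun _ => 1) measurable_const (M := 1) (fun _ => by simp)
    simpa only [one_mul] using this
  have t := ((tendsto_finsetProd Finset.univ fun i _ => t1 i).sub
    ((tendsto_finsetProd Finset.univ fun i _ => t2 i).const_mul 2)).add_const
    (∏ i, ∫ y, u i y * u i y)
  rw [show ∀ a : ℝ, a - 2 * a + a = 0 from fun a => by ring] at t
  exact t.congr fun n => (e n).symm

/-- replace the factor `i` by a coordinate of its gradient -/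
noncomputable def RWeak_upd (u : κ → R3 → ℝ) (G : κ → R3 → R3) (i : κ) (c : Fin 3) :
    κ → R3 → ℝ :=
  Function.update u i fun y => G i y c

theorem RWeak_gtens (u : κ → R3 → ℝ) (G : κ → R3 → R3) (i : κ) (c : Fin 3) (x : κ → R3) :
    gtens u G i x c = tens (RWeak_upd u G i c) x := by
  rw [tens, ← Finset.mul_prod_erase _ _ (Finset.mem_univ i), gtens, PiLp.smul_apply, smul_eq_mul,
    mul_comm]
  congr 1
  · simp [RWeak_upd]
  · refine Finset.prod_congr rfl fun j hj => ?_
    simp [RWeak_upd, Function.update_of_ne (Finset.ne_of_mem_erase hj)]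

theorem RWeak_upd_memLp {u : κ → R3 → ℝ} {G : κ → R3 → R3} (hu : ∀ i, MemLp (u i) 2 volume)
    (hG : ∀ i, MemLp (G i) 2 volume) (i : κ) (c : Fin 3) (j : κ) :
    MemLp (RWeak_upd u G i c j) 2 volume := by
  rcases eq_or_ne j i with rfl | hj
  · rw [RWeak_upd, Function.update_self]
    exact (hG j).eval_piLp c
  · rw [RWeak_upd, Function.update_of_ne hj]
    exact hu j

theorem RWeak_upd_lim {u : κ → R3 → ℝ} {G : κ → R3 → R3} {un : ℕ → κ → R3 → ℝ}
    {Gn : ℕ → κ → R3 → R3} (h : ∀ i, L2lim volume atTop (fun n => un n i) (u i))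
    (h' : ∀ i c, L2lim volume atTop (fun n y => Gn n i y c) fun y => G i y c) (i : κ) (c : Fin 3)
    (j : κ) : L2lim volume atTop (fun n => RWeak_upd (un n) (Gn n) i c j) (RWeak_upd u G i c j) := by
  rcases eq_or_ne j i with rfl | hj
  · simp only [RWeak_upd, Function.update_self]
    exact h' j c
  · simp only [RWeak_upd, Function.update_of_ne hj]
    exact h j

/-- the expanded left side -/
noncomputable def RWeak_rhs (a : κ → Fin 3 → (κ → R3) → ℝ) (b : (κ → R3) → ℝ) (u : κ → R3 → ℝ)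
    (G : κ → R3 → R3) (v : κ → R3 → ℝ) (H : κ → R3 → R3) : ℝ :=
  (∑ i, ∑ c, ((∫ x, a i c x * tens (RWeak_upd u G i c) x * tens v x) +
    ∫ x, a i c x * tens u x * tens (RWeak_upd v H i c) x)) + ∫ x, b x * tens u x * tens v x

theorem RWeak_int {X : Type} [MeasurableSpace X] {μ : Measure X} {a f g : X → ℝ}
    (ha : Measurable a) {M : ℝ} (hM : ∀ x, |a x| ≤ M) (hf : MemLp f 2 μ) (hg : MemLp g 2 μ) :
    Integrable (fun x => a x * f x * g x) μ := by
  have h := (hf.integrable_mul hg).bdd_mul ha.aestronglyMeasurable (c := M)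
    (Eventually.of_forall hM)
  simpa only [Pi.mul_apply, mul_assoc] using h

theorem RWeak_inner (p q : R3) : ⟪p, q⟫_ℝ = ∑ c, p c * q c := by
  simp [PiLp.inner_apply, mul_comm]

theorem RWeak_expand {m2 : ℝ} {P : κ → (κ → R3) → R3} {k χ : (κ → R3) → ℝ}
    {a : κ → Fin 3 → (κ → R3) → ℝ} {b : (κ → R3) → ℝ} (ea : ∀ i c x, a i c x = P i x c * χ x)
    (eb : ∀ x, b x = (∑ i, ⟪P i x, pgrad χ i x⟫_ℝ) + m2 * (k x * χ x))
    (ha : ∀ i c, Measurable (a i c)) (hb : Measurable b) {M : ℝ} (ha' : ∀ i c x, |a i c x| ≤ M)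
    (hb' : ∀ x, |b x| ≤ M) {u v : κ → R3 → ℝ} {G H : κ → R3 → R3}
    (hu : ∀ i, MemLp (u i) 2 volume) (hG : ∀ i, MemLp (G i) 2 volume)
    (hv : ∀ i, MemLp (v i) 2 volume) (hH : ∀ i, MemLp (H i) 2 volume) :
    ∫ x, ((∑ i, ⟪P i x, tens v x • gmul χ u G i x + (χ x * tens u x) • gtens v H i x⟫_ℝ) +
      m2 * (k x * (χ x * tens u x * tens v x))) = RWeak_rhs a b u G v H := by
  have i1 : ∀ i c, Integrable fun x => a i c x * tens (RWeak_upd u G i c) x * tens v x :=
    fun i c => RWeak_int (ha i c) (ha' i c) (RWeak_memLp (RWeak_upd_memLp hu hG i c))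
      (RWeak_memLp hv)
  have i2 : ∀ i c, Integrable fun x => a i c x * tens u x * tens (RWeak_upd v H i c) x :=
    fun i c => RWeak_int (ha i c) (ha' i c) (RWeak_memLp hu)
      (RWeak_memLp (RWeak_upd_memLp hv hH i c))
  have i3 : Integrable fun x => b x * tens u x * tens v x :=
    RWeak_int hb hb' (RWeak_memLp hu) (RWeak_memLp hv)
  have i4 : ∀ i c, Integrable fun x => a i c x * tens (RWeak_upd u G i c) x * tens v x +
      a i c x * tens u x * tens (RWeak_upd v H i c) x := fun i c => (i1 i c).add (i2 i c)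
  have i5 : ∀ i, Integrable fun x => ∑ c, (a i c x * tens (RWeak_upd u G i c) x * tens v x +
      a i c x * tens u x * tens (RWeak_upd v H i c) x) :=
    fun i => integrable_finsetSum _ fun c _ => i4 i c
  have i6 : Integrable fun x => ∑ i, ∑ c, (a i c x * tens (RWeak_upd u G i c) x * tens v x +
      a i c x * tens u x * tens (RWeak_upd v H i c) x) :=
    integrable_finsetSum _ fun i _ => i5 i
  have e : RWeak_rhs a b u G v H = ∫ x, ((∑ i, ∑ c,
      (a i c x * tens (RWeak_upd u G i c) x * tens v x +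
        a i c x * tens u x * tens (RWeak_upd v H i c) x)) + b x * tens u x * tens v x) := by
    rw [integral_add i6 i3, integral_finsetSum _ fun i _ => i5 i, RWeak_rhs]
    congr 1
    refine Finset.sum_congr rfl fun i _ => ?_
    rw [integral_finsetSum _ fun c _ => i4 i c]
    exact Finset.sum_congr rfl fun c _ => (integral_add (i1 i c) (i2 i c)).symm
  rw [e]
  refine integral_congr_ae (Eventually.of_forall fun x => ?_)
  simp only
  rw [eb, add_mul, add_mul, Finset.sum_mul, Finset.sum_mul, ← add_assoc, ← Finset.sum_add_distrib]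
  congr 1
  · refine Finset.sum_congr rfl fun i _ => ?_
    rw [gmul, inner_add_right, real_inner_smul_right, real_inner_smul_right, inner_add_right,
      real_inner_smul_right, real_inner_smul_right, RWeak_inner _ (gtens u G i x),
      RWeak_inner _ (gtens v H i x)]
    simp only [RWeak_gtens, ea, Fin.sum_univ_three]
    ring
  · ring

theorem RWeak_rhs_lim {a : κ → Fin 3 → (κ → R3) → ℝ} {b : (κ → R3) → ℝ}
    (ha : ∀ i c, Measurable (a i c)) (hb : Measurable b) {M : ℝ} (ha' : ∀ i c x, |a i c x| ≤ M)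
    (hb' : ∀ x, |b x| ≤ M) {u v : κ → R3 → ℝ} {G H : κ → R3 → R3} {un vn : ℕ → κ → R3 → ℝ}
    {Gn Hn : ℕ → κ → R3 → R3}
    (hu : ∀ i, MemLp (u i) 2 volume) (hG : ∀ i, MemLp (G i) 2 volume)
    (hv : ∀ i, MemLp (v i) 2 volume) (hH : ∀ i, MemLp (H i) 2 volume)
    (hun : ∀ n i, MemLp (un n i) 2 volume) (hGn : ∀ n i, MemLp (Gn n i) 2 volume)
    (hvn : ∀ n i, MemLp (vn n i) 2 volume) (hHn : ∀ n i, MemLp (Hn n i) 2 volume)
    (lu : ∀ i, L2lim volume atTop (fun n => un n i) (u i))
    (lG : ∀ i c, L2lim volume atTop (fun n y => Gn n i y c) fun y => G i y c)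
    (lv : ∀ i, L2lim volume atTop (fun n => vn n i) (v i))
    (lH : ∀ i c, L2lim volume atTop (fun n y => Hn n i y c) fun y => H i y c) :
    Tendsto (fun n => RWeak_rhs a b (un n) (Gn n) (vn n) (Hn n)) atTop
      (𝓝 (RWeak_rhs a b u G v H)) := by
  have tu := L2lim_tens hu hun lu
  have tv := L2lim_tens hv hvn lv
  refine Tendsto.add (tendsto_finsetSum _ fun i _ => tendsto_finsetSum _ fun c _ =>
    Tendsto.add ?_ ?_) ?_
  · exact L2lim.mul (L2lim_tens (RWeak_upd_memLp hu hG i c)
      (fun n => RWeak_upd_memLp (hun n) (hGn n) i c) (RWeak_upd_lim lu lG i c)) tv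
      (fun n => RWeak_memLp (RWeak_upd_memLp (hun n) (hGn n) i c)) (fun n => RWeak_memLp (hvn n))
      (RWeak_memLp (RWeak_upd_memLp hu hG i c)) (RWeak_memLp hv) (ha i c) (ha' i c)
  · exact L2lim.mul tu (L2lim_tens (RWeak_upd_memLp hv hH i c)
      (fun n => RWeak_upd_memLp (hvn n) (hHn n) i c) (RWeak_upd_lim lv lH i c))
      (fun n => RWeak_memLp (hun n)) (fun n => RWeak_memLp (RWeak_upd_memLp (hvn n) (hHn n) i c))
      (RWeak_memLp hu) (RWeak_memLp (RWeak_upd_memLp hv hH i c)) (ha i c) (ha' i c)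
  · exact L2lim.mul tu tv (fun n => RWeak_memLp (hun n)) (fun n => RWeak_memLp (hvn n))
      (RWeak_memLp hu) (RWeak_memLp hv) hb hb'

theorem RWeak_of_lint {f : R3 → ℝ} {fn : ℕ → R3 → ℝ} {d : ℕ → ℝ≥0∞} (hf : Measurable f)
    (hn : ∀ n, Measurable (fn n)) (hd : Tendsto d atTop (𝓝 0))
    (h : ∀ n, ∫⁻ y, ENNReal.ofReal ((fn n y - f y) ^ 2) ≤ d n) : L2lim volume atTop fn f := by
  have t : Tendsto (fun n => ∫⁻ y, ENNReal.ofReal ((fn n y - f y) ^ 2)) atTop (𝓝 0) :=
    tendsto_of_tendsto_of_tendsto_of_le_of_le tendsto_const_nhds hd (fun _ => bot_le) h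
  have t2 := (ENNReal.tendsto_toReal ENNReal.zero_ne_top).comp t
  rw [ENNReal.toReal_zero] at t2
  refine t2.congr fun n => ?_
  exact (integral_eq_lintegral_of_nonneg_ae (Eventually.of_forall fun y => sq_nonneg _)
    (((hn n).sub hf).pow_const 2).aestronglyMeasurable).symm

theorem RWeak_seq {u : R3 → ℝ} {G : R3 → R3} (h : InF univ (fun _ => 0) u G) :
    ∃ v : ℕ → R3 → ℝ, (∀ n, Cc1 (v n)) ∧ L2lim volume atTop v u ∧
      ∀ c, L2lim volume atTop (fun n y => gradient (v n) y c) fun y => G y c := by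
  obtain ⟨v, hv, ht, -⟩ := h.seq pot_zero
  refine ⟨v, hv, RWeak_of_lint h.mu (fun n => (hv n).1.continuous.measurable) ht fun n => ?_,
    fun c => RWeak_of_lint ?_ (fun n => ?_) ht fun n => ?_⟩
  · rw [gdist, Measure.restrict_univ]
    refine lintegral_mono fun y => ENNReal.ofReal_le_ofReal ?_
    nlinarith [sq_nonneg ‖G y - gradient (v n) y‖]
  · have := h.mG
    fun_prop
  · have := (hv n).continuous_gradient.measurable
    fun_prop
  · rw [gdist, Measure.restrict_univ]
    refine lintegral_mono fun y => ENNReal.ofReal_le_ofReal ?_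
    have h1 := PiLp.norm_apply_le (G y - gradient (v n) y) c
    rw [PiLp.sub_apply, Real.norm_eq_abs, abs_sub_comm] at h1
    have h2 := pow_le_pow_left₀ (abs_nonneg _) h1 2
    rw [sq_abs] at h2
    nlinarith [sq_nonneg (u y - v n y)]

theorem RWeak_cc1 {u : κ → R3 → ℝ} (hu : ∀ i, Cc1 (u i)) : Cc1 (tens u) := by
  refine ⟨contDiff_prod fun i _ => (hu i).1.comp (contDiff_apply ℝ R3 i), ?_⟩
  refine HasCompactSupport.intro (isCompact_univ_pi fun i => (hu i).2.isCompact) fun x hx => ?_
  obtain ⟨i, hi⟩ := not_forall.1 (mt mem_univ_pi.2 hx)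
  exact Finset.prod_eq_zero (Finset.mem_univ i) (image_eq_zero_of_notMem_tsupport hi)

theorem RWeak_pgrad_mul {f g : (κ → R3) → ℝ} (hf : ContDiff ℝ 1 f) (hg : ContDiff ℝ 1 g) (i : κ)
    (x : κ → R3) : pgrad (fun x => f x * g x) i x = f x • pgrad g i x + g x • pgrad f i x := by
  have h := gradient_mul' (f := fun y => f (Function.update x i y))
    (g := fun y => g (Function.update x i y)) (x := x i)
    ((hf.comp (contDiff_update 1 x i)).differentiable one_ne_zero _)
    ((hg.comp (contDiff_update 1 x i)).differentiable one_ne_zero _)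
  simp only [Function.update_eq_self] at h
  exact h

theorem RWeak_pgrad_tens {u : κ → R3 → ℝ} (hu : ∀ i, Cc1 (u i)) (i : κ) (x : κ → R3) :
    pgrad (tens u) i x = gtens u (fun j => gradient (u j)) i x := by
  have e : (fun y => tens u (Function.update x i y)) =
      fun y => (∏ j ∈ Finset.univ.erase i, u j (x j)) * u i y := by
    funext y
    rw [tens, ← Finset.prod_erase_mul _ _ (Finset.mem_univ i), Function.update_self]
    congr 1
    exact Finset.prod_congr rfl fun j hj => by
      rw [Function.update_of_ne (Finset.ne_of_mem_erase hj)]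
  rw [pgrad, e, gradient_mul' (differentiableAt_const _)
    ((hu i).1.differentiable one_ne_zero _), gradient_fun_const, smul_zero, add_zero, gtens]

theorem RWeak_cc {m2 : ℝ} {F k χ : (κ → R3) → ℝ} (h : GD m2 F k) (hχ : Cb1 χ)
    {u v : κ → R3 → ℝ} (hu : ∀ i, Cc1 (u i)) (hv : ∀ i, Cc1 (v i)) :
    ∫ x, ((∑ i, ⟪pgrad k i x, tens v x • gmul χ u (fun j => gradient (u j)) i x +
        (χ x * tens u x) • gtens v (fun j => gradient (v j)) i x⟫_ℝ) +
      m2 * (k x * (χ x * tens u x * tens v x))) = ∫ x, F x * (χ x * tens u x * tens v x) := by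
  have c1 : ContDiff ℝ 1 fun x => χ x * tens u x := hχ.1.mul (RWeak_cc1 hu).1
  have hζ : Cc1 fun x => χ x * tens u x * tens v x :=
    ⟨c1.mul (RWeak_cc1 hv).1, (RWeak_cc1 hv).2.mul_left⟩
  rw [← h.weak _ hζ]
  refine integral_congr_ae (Eventually.of_forall fun x => ?_)
  simp only
  congr 1
  refine Finset.sum_congr rfl fun i _ => ?_
  rw [RWeak_pgrad_mul c1 (RWeak_cc1 hv).1, RWeak_pgrad_mul hχ.1 (RWeak_cc1 hu).1,
    RWeak_pgrad_tens hu, RWeak_pgrad_tens hv, gmul, add_comm (tens v x • _)]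

theorem GD.weak_tens {m2 : ℝ} {F k χ : (κ → R3) → ℝ} (h : GD m2 F k) (hχ : Cb1 χ)
    {u v : κ → R3 → ℝ} {G H : κ → R3 → R3} (hu : ∀ i, InF univ (fun _ => 0) (u i) (G i))
    (hv : ∀ i, InF univ (fun _ => 0) (v i) (H i)) :
    ∫ x, ((∑ i, ⟪pgrad k i x,
        tens v x • gmul χ u G i x + (χ x * tens u x) • gtens v H i x⟫_ℝ) +
      m2 * (k x * (χ x * tens u x * tens v x))) = ∫ x, F x * (χ x * tens u x * tens v x) := by
  choose un hun lu lG using fun i => RWeak_seq (hu i)
  choose vn hvn lv lH using fun i => RWeak_seq (hv i)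
  have m0 : ∀ {w : R3 → ℝ} {K : R3 → R3}, InF univ (fun _ => 0) w K → MemLp w 2 volume :=
    fun hw => by simpa only [Measure.restrict_univ] using hw.memLp_u pot_zero
  have m1 : ∀ {w : R3 → ℝ} {K : R3 → R3}, InF univ (fun _ => 0) w K → MemLp K 2 volume :=
    fun hw => by simpa only [Measure.restrict_univ] using hw.memLp_G pot_zero
  obtain ⟨Mk, hMk⟩ := h.cb.2
  obtain ⟨Mc, hMc⟩ := hχ.2
  obtain ⟨Pk, hPk⟩ := h.cb.pgrad_bdd
  obtain ⟨Pc, hPc⟩ := hχ.pgrad_bdd
  obtain ⟨MF, hMF⟩ := h.bF
  have ck := h.cb.1.continuous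
  have cc := hχ.1.continuous
  have pk := h.cb.continuous_pgrad
  have pc := hχ.continuous_pgrad
  have ha : ∀ (i : κ) (c : Fin 3), Measurable fun x => pgrad k i x c * χ x := fun i c => by
    have := pk i
    exact Continuous.measurable (by fun_prop)
  have hb : Measurable fun x => (∑ i, ⟪pgrad k i x, pgrad χ i x⟫_ℝ) + m2 * (k x * χ x) :=
    Continuous.measurable ((continuous_finsetSum _ fun i _ => (pk i).inner (pc i)).add
      (by fun_prop))
  have ha' : ∀ (i : κ) (c : Fin 3) x, |pgrad k i x c * χ x| ≤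
      max (Pk * Mc) ((∑ _i : κ, Pk * Pc) + |m2| * (Mk * Mc)) := fun i c x => by
    refine le_trans ?_ (le_max_left _ _)
    rw [abs_mul]
    exact mul_le_mul ((PiLp.norm_apply_le (pgrad k i x) c).trans (hPk i x)) (hMc x).1
      (abs_nonneg _) ((norm_nonneg _).trans (hPk i x))
  have hb' : ∀ x, |(∑ i, ⟪pgrad k i x, pgrad χ i x⟫_ℝ) + m2 * (k x * χ x)| ≤
      max (Pk * Mc) ((∑ _i : κ, Pk * Pc) + |m2| * (Mk * Mc)) := fun x => by
    refine le_trans ((abs_add_le _ _).trans (add_le_add ?_ ?_)) (le_max_right _ _)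
    · refine (Finset.abs_sum_le_sum_abs _ _).trans (Finset.sum_le_sum fun i _ => ?_)
      exact (abs_real_inner_le_norm _ _).trans (mul_le_mul (hPk i x) (hPc i x) (norm_nonneg _)
        ((norm_nonneg _).trans (hPk i x)))
    · rw [abs_mul, abs_mul]
      exact mul_le_mul_of_nonneg_left (mul_le_mul (hMk x).1 (hMc x).1 (abs_nonneg _)
        ((abs_nonneg _).trans (hMk x).1)) (abs_nonneg _)
  have hF' : ∀ x, |F x * χ x| ≤ MF * Mc := fun x => by
    rw [abs_mul]
    exact mul_le_mul (hMF x) (hMc x).1 (abs_nonneg _) ((abs_nonneg _).trans (hMF x))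
  have mun : ∀ n i, MemLp (un i n) 2 volume := fun n i => m0 (hun i n).inF
  have mvn : ∀ n i, MemLp (vn i n) 2 volume := fun n i => m0 (hvn i n).inF
  have mGn : ∀ n i, MemLp (gradient (un i n)) 2 volume := fun n i => m1 (hun i n).inF
  have mHn : ∀ n i, MemLp (gradient (vn i n)) 2 volume := fun n i => m1 (hvn i n).inF
  have t1 := RWeak_rhs_lim ha hb ha' hb' (un := fun n i => un i n) (vn := fun n i => vn i n)
    (Gn := fun n i => gradient (un i n)) (Hn := fun n i => gradient (vn i n))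
    (fun i => m0 (hu i)) (fun i => m1 (hu i)) (fun i => m0 (hv i)) (fun i => m1 (hv i))
    mun mGn mvn mHn lu lG lv lH
  have t2 := L2lim.mul (L2lim_tens (un := fun n i => un i n) (fun i => m0 (hu i)) mun lu)
    (L2lim_tens (un := fun n i => vn i n) (fun i => m0 (hv i)) mvn lv)
    (fun n => RWeak_memLp (mun n)) (fun n => RWeak_memLp (mvn n))
    (RWeak_memLp fun i => m0 (hu i)) (RWeak_memLp fun i => m0 (hv i))
    (h.mF.mul cc.measurable) hF'
  rw [RWeak_expand (fun _ _ _ => rfl) (fun _ => rfl) ha hb ha' hb' (fun i => m0 (hu i))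
    (fun i => m1 (hu i)) (fun i => m0 (hv i)) (fun i => m1 (hv i))]
  refine (tendsto_nhds_unique t1 (t2.congr fun n => ?_)).trans
    (by simp only [Pi.mul_apply, mul_assoc])
  rw [← RWeak_expand (fun _ _ _ => rfl) (fun _ => rfl) ha hb ha' hb' (mun n) (mGn n) (mvn n)
    (mHn n), RWeak_cc h hχ (fun i => hun i n) (fun i => hvn i n)]
  simp only [Pi.mul_apply, mul_assoc]

end Pool.Agent.Lib.MP_8fe63c_mp
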