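import Mathlib

/-!
Definitions used in the statement: modified scattering energy, Gross-Pitaevskii energy and the
ground state energy of the three-body Hamiltonian. All infima are taken over continuously
differentiable functions with compact support (a form core).
-/

open MeasureTheory

namespace Pool.Agent.Lib.MP_8fe63c_mp

/-- Three-dimensional Euclidean space. -/
abbrev R3 : Type := EuclideanSpace ℝ (Fin 3)

/-- The `k`-th unit vector of `R3`. -/
noncomputable def uv (k : Fin 3) : R3 := EuclideanSpace.single k 1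

/-- The partial derivative in the `k`-th coordinate of the first variable. -/
noncomputable def dX (φ : R3 × R3 → ℝ) (x : R3 × R3) (k : Fin 3) : ℝ := fderiv ℝ φ x (uv k, 0)

/-- The partial derivative in the `k`-th coordinate of the second variable. -/
noncomputable def dY (φ : R3 × R3 → ℝ) (x : R3 × R3) (k : Fin 3) : ℝ := fderiv ℝ φ x (0, uv k)

/-- `|M ∇ φ|^2` at `x`, for the block matrix `M` with diagonal entries `(√3+1)/(2√2)` and
off-diagonal entries `(√3-1)/(2√2)`. -/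
noncomputable def mGradSq (φ : R3 × R3 → ℝ) (x : R3 × R3) : ℝ :=
  ∑ k : Fin 3,
    (((√3 + 1) / (2 * √2) * dX φ x k + (√3 - 1) / (2 * √2) * dY φ x k) ^ 2 +
      ((√3 - 1) / (2 * √2) * dX φ x k + (√3 + 1) / (2 * √2) * dY φ x k) ^ 2)

/-- The modified three-body scattering energy. -/
noncomputable def bM (V : R3 × R3 → ℝ) : ℝ :=
  sInf {r : ℝ | ∃ φ : R3 × R3 → ℝ, ContDiff ℝ 1 φ ∧ HasCompactSupport φ ∧
    r = ∫ x, (2 * mGradSq φ x + V x * (1 - φ x) ^ 2)}

/-- The Gross-Pitaevskii energy with quintic coupling `b`. -/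
noncomputable def eGP (Vext : R3 → ℝ) (b : ℝ) : ℝ :=
  sInf {r : ℝ | ∃ u : R3 → ℂ, ContDiff ℝ 1 u ∧ HasCompactSupport u ∧
    (∫ x, ‖u x‖ ^ 2) = 1 ∧
    r = ∫ x, ((∑ k : Fin 3, ‖fderiv ℝ u x (uv k)‖ ^ 2) + Vext x * ‖u x‖ ^ 2 +
      b / 6 * ‖u x‖ ^ 6)}

/-- The potential energy of the `N`-body Hamiltonian at the configuration `x`. -/
noncomputable def potN (V : R3 × R3 → ℝ) (Vext : R3 → ℝ) (N : ℕ) (x : Fin N → R3) : ℝ :=
  (∑ i : Fin N, Vext (x i)) +
    ∑ i : Fin N, ∑ j : Fin N, ∑ k : Fin N,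
      if i < j ∧ j < k then
        (N : ℝ) * V (√(N : ℝ) • (x i - x j), √(N : ℝ) • (x i - x k))
      else 0

/-- The bosonic ground state energy: infimum of the quadratic form of `H_N` over normalised
permutation symmetric functions. -/
noncomputable def EN (V : R3 × R3 → ℝ) (Vext : R3 → ℝ) (N : ℕ) : ℝ :=
  sInf {r : ℝ | ∃ Ψ : (Fin N → R3) → ℂ, ContDiff ℝ 1 Ψ ∧ HasCompactSupport Ψ ∧
    (∀ (π : Equiv.Perm (Fin N)) (x : Fin N → R3), Ψ (x ∘ π) = Ψ x) ∧
    (∫ x, ‖Ψ x‖ ^ 2) = 1 ∧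
    r = ∫ x, ((∑ i : Fin N, ∑ k : Fin 3, ‖fderiv ℝ Ψ x (Pi.single i (uv k))‖ ^ 2) +
      potN V Vext N x * ‖Ψ x‖ ^ 2)}

end Pool.Agent.Lib.MP_8fe63c_mp
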